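import Pool.Agent.TBS.Defs

/-!
# Three-body Bose gases (MP_80dc41_mp), sharp lower bound: statements, part K (construction of the kernels): outputs
-/

set_option autoImplicit false

open MeasureTheory Filter Topology
open scoped ContDiff

namespace Pool.Agent.TBS

open Pool.Agent.TBG Pool.Agent.TBL Pool.Agent.TBF

/-- the cut off scattering function and the soft potential exist -/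
def Stmt_KTR : Prop := ∀ φ : E × E → ℝ, Scat φ → ∃ C R₀ : ℝ, 0 < C ∧ 1 ≤ R₀ ∧ ∀ R : ℝ, R₀ ≤ R →
  ∃ τ g : E × E → ℝ, Tri C R φ τ g

/-- the centre of the cell `k` of the box of side `Mc * l` -/
noncomputable def cc (l : ℝ) (Mc : ℕ) (k : Fin 3 → Fin Mc) : E := crn l Mc k + WithLp.toLp 2 (fun _ => l / 2)

open Classical in
/-- the parameters of the grid: the box of side `Mc * l` is divided in `Mc³` cells `cub l (crn l Mc k)` -/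
noncomputable def gpar (Mc : ℕ) (l R M : ℝ) : Par where
  L := Mc * l
  l := l
  R := R
  M := M
  Gr := (Finset.univ.filter (fun k : Fin 3 → Fin Mc => ∀ c, 11 ≤ (k c : ℕ) ∧ (k c : ℕ) + 11 ≤ Mc)).image (cc l Mc)
  Gi := (Finset.univ.filter (fun k : Fin 3 → Fin Mc => ∀ c, 13 ≤ (k c : ℕ) ∧ (k c : ℕ) + 13 ≤ Mc)).image (cc l Mc)

/-- construction of the system -/
def Stmt_SYC : Prop := ∀ (C₀ : ℝ) (φ : E × E → ℝ), Scat φ → 0 < ∫ z, ww φ z → ∃ C : ℝ, 0 < C ∧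
  ∀ (Mc : ℕ) (l R M : ℝ) (τ g : E × E → ℝ), Tri C₀ R φ τ g → 1 ≤ R → R ≤ l → 4 ≤ M →
  ∃ (β θ : E → E → ℝ) (P : E → E → E → E → ℝ), Sys C (gpar Mc l R M) β θ ∧
    Trp C (∫ z, ww φ z) (gpar Mc l R M) β θ g P ∧
    (∀ k : Fin 3 → Fin Mc, (∀ c, 14 ≤ (k c : ℕ) ∧ (k c : ℕ) + 14 ≤ Mc) → ∀ x ∈ cub l (crn l Mc k),
      l ^ 3 * ∑ a ∈ (gpar Mc l R M).Gr, θ a x = 1)

/-- kernels of the three-body field -/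
noncomputable def kA (τ : E × E → ℝ) (x : Fin 3 → E) : ℝ := ∑ c, |dv (dr 0 c) τ (rt x)|

/-- kernels of the four-body field -/
noncomputable def kB (Y : Fin 4 → Fin 3 → W4 → ℝ) (x : Fin 4 → E) : ℝ := ∑ c, |Y 0 c (rl x)|

/-- masses of the kernels -/
def Stmt_KMS : Prop := ∀ C : ℝ, ∃ C₁ : ℝ, 0 < C₁ ∧ ∀ (φ τ g : E × E → ℝ) (R l : ℝ), 1 ≤ R → R ≤ l →
  Scat φ → Tri C R φ τ g →
  (Ck 2 l (C₁ * R) (kA τ) ∧ ∀ x, kA τ x ≤ C₁ * ∏ s : Fin 2, pk (5 / 2) R (x 0 - x s.succ)) ∧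
  (Ck 2 l (C₁ * R ^ 2) (fun x => τ (rt x)) ∧ ∀ x, τ (rt x) ≤ C₁ * ∏ s : Fin 2, pk 2 R (x 0 - x s.succ)) ∧
  Ck 2 l C₁ (fun x => τ (rt x) ^ 2) ∧ Ck 2 l C₁ (fun x => kA τ x ^ 2) ∧
  Ck 2 l (C₁ * R) (fun x => τ (rt x) * (pk 2 R (x 0 - x 1) + pk 2 R (x 0 - x 2)))

def Stmt_KMP : Prop := ∃ C₁ : ℝ, 0 < C₁ ∧ ∀ R l : ℝ, 1 ≤ R → R ≤ l →
  Pk l (C₁ * R ^ (1 / 2 : ℝ)) C₁ C₁ (pk (5 / 2) R) ∧ Pk l (C₁ * R) C₁ C₁ (pk 2 R) ∧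
  Pk l (C₁ * l ^ (1 / 3 : ℝ)) C₁ C₁ (pk (8 / 3) l)

def Stmt_KMY : Prop := ∀ C : ℝ, ∃ C₁ : ℝ, 0 < C₁ ∧ ∀ (φ : E × E → ℝ) (y : W4 → ℝ) (l : ℝ)
  (Y : Fin 4 → Fin 3 → W4 → ℝ) (g : W4 → ℝ), 1 ≤ l → Dua φ y l C Y g →
  (Ck 3 l (C₁ * l) (kB Y) ∧ ∀ x, kB Y x ≤ C₁ * ∏ s : Fin 3, pk (8 / 3) l (x 0 - x s.succ)) ∧
  Ck 3 l C₁ (fun x => kB Y x ^ 2)

/-- the constant of the four-body terms -/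
def Stmt_K4C : Prop := ∀ (C : ℝ) (φ : E × E → ℝ) (y : W4 → ℝ), Scat φ → TF y → Sym3 y → ∃ C₁ : ℝ, 0 < C₁ ∧
  ∀ (R l : ℝ) (τ g : E × E → ℝ) (Y : Fin 4 → Fin 3 → W4 → ℝ) (g₄ : W4 → ℝ), 1 ≤ R → R ≤ l →
  Tri C R φ τ g → Dua φ y l C Y g₄ →
  Integrable (k4 φ τ y Y) ∧ ∫ q, |k4 φ τ y Y q| ≤ C₁ ∧
  |2 * (∫ q, g₄ q) - 24 * (∫ q, k4 φ τ y Y q) - bet φ y Y g₄| ≤ C₁ / R

/-- masses of the kernels of the four-body terms -/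
def Stmt_K4M : Prop := ∀ (C : ℝ) (φ : E × E → ℝ) (y : W4 → ℝ), Scat φ → TF y → Sym3 y → ∃ C₁ : ℝ, 0 < C₁ ∧
  ∀ (R l : ℝ) (τ g : E × E → ℝ) (Y : Fin 4 → Fin 3 → W4 → ℝ) (g₄ : W4 → ℝ), 1 ≤ R → R ≤ l →
  Tri C R φ τ g → Dua φ y l C Y g₄ → ∀ K : W4 → ℝ,
  (K = (fun q => ∑ c, |dv (dr 0 c) τ (q.1, q.2.1)| * |dv (dr 0 c) τ (q.1, q.2.2)|) ∨
    K = (fun q => ∑ c, |dv (dr 0 c) τ (q.1, q.2.1)| * |Y 0 c q|) ∨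
    K = (fun q => ∑ c, Y 0 c q ^ 2) ∨ K = (fun q => ww φ (q.1, q.2.1) * |y q|) ∨
    K = (fun q => VV φ q.1 q.2.1 * y q ^ 2)) →
  BM K ∧ (∀ q, 0 ≤ K q) ∧ (∀ q, K q ≠ 0 → ‖q‖ ≤ C₁ + R ∨ ‖q‖ ≤ l) ∧ ∫ q, K q ≤ C₁ ∧ ∫ q, K q * ‖q‖ ^ 2 ≤ C₁ * R

end Pool.Agent.TBS
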