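import Pool.Agent.TBS.StmtsA
import Pool.Agent.TBS.StmtsK

/-!
# Three-body Bose gases (MP_80dc41_mp), sharp lower bound: statements, part B (the energy identity, linear and quadratic terms)
-/

set_option autoImplicit false

open MeasureTheory Filter Topology
open scoped ContDiff

namespace Pool.Agent.TBS

open Pool.Agent.TBG Pool.Agent.TBL Pool.Agent.TBF

/-! ## definitions -/

/-- the particles 0, 1, 2 of a 4-tuple -/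
def s2 {ι : Type} (e : Fin 4 → ι) : Fin 3 → ι := ![e 0, e 1, e 2]

/-- the particles 0, 1, 3 of a 4-tuple -/
def s3 {ι : Type} (e : Fin 4 → ι) : Fin 3 → ι := ![e 0, e 1, e 3]

/-- the kernels of the four-body terms -/
noncomputable def k5 (φ τ : E × E → ℝ) (y : W4 → ℝ) (Y : Fin 4 → Fin 3 → W4 → ℝ) : Fin 5 → W4 → ℝ :=
  ![fun q => ∑ c, |dv (dr 0 c) τ (q.1, q.2.1)| * |dv (dr 0 c) τ (q.1, q.2.2)|,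
    fun q => ∑ c, |dv (dr 0 c) τ (q.1, q.2.1)| * |Y 0 c q|,
    fun q => ∑ c, Y 0 c q ^ 2,
    fun q => ww φ (q.1, q.2.1) * |y q|,
    fun q => VV φ q.1 q.2.1 * y q ^ 2]

/-- the masses of the kernels -/
structure KF (C : ℝ) (p : Par) (φ τ : E × E → ℝ) (y : W4 → ℝ) (Y : Fin 4 → Fin 3 → W4 → ℝ) : Prop where
  pA : Pk p.l (C * Real.sqrt p.R) C C (pk (5 / 2) p.R)
  pT : Pk p.l (C * p.R) C C (pk 2 p.R)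
  pB : Pk p.l (C * p.l ^ (1 / 3 : ℝ)) C C (pk (8 / 3) p.l)
  cA : Ck 2 p.l (C * p.R) (kA τ)
  dA : ∀ x, kA τ x ≤ C * ∏ s : Fin 2, pk (5 / 2) p.R (x 0 - x s.succ)
  cA2 : Ck 2 p.l C (fun x => kA τ x ^ 2)
  cT : Ck 2 p.l (C * p.R ^ 2) (fun x => τ (rt x))
  dT : ∀ x : Fin 3 → E, τ (rt x) ≤ C * ∏ s : Fin 2, pk 2 p.R (x 0 - x s.succ)
  cT2 : Ck 2 p.l C (fun x => τ (rt x) ^ 2)
  cTq : Ck 2 p.l (C * p.R) (fun x => τ (rt x) * (pk 2 p.R (x 0 - x 1) + pk 2 p.R (x 0 - x 2)))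
  cB : Ck 3 p.l (C * p.l) (kB Y)
  dB : ∀ x, kB Y x ≤ C * ∏ s : Fin 3, pk (8 / 3) p.l (x 0 - x s.succ)
  cB2 : Ck 3 p.l C (fun x => kB Y x ^ 2)
  k5b : ∀ n, BM (k5 φ τ y Y n)
  k5s : ∀ n q, k5 φ τ y Y n q ≠ 0 → ‖q‖ ≤ p.l
  k5m : ∀ n, ∫ q, k5 φ τ y Y n q ≤ C
  k5v : ∀ n, ∫ q, k5 φ τ y Y n q * ‖q‖ ^ 2 ≤ C * p.R

section defs

variable {ι : Type} [Fintype ι] [DecidableEq ι]

/-- the roughness, on larger cubes -/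
noncomputable def RW (p : Par) (θ : E → E → ℝ) (u : (ι → E) → ℝ) : ℝ :=
  ∑ a ∈ p.Gr, ∑ i, IO p (fun X => vt p a {i} X * ic (Qb a (4 * p.l)) (X i) *
    (u X - Av (tm (θ a)) {i} u X) ^ 2)

/-- roughness of the averages in the particle `j` -/
noncomputable def rg (p : Par) (θ : E → E → ℝ) (u : (ι → E) → ℝ) (a : E) (S : Finset ι) (j : ι) : ℝ :=
  IA p θ a S (fun X => vt p a S X * (ic (Qb a (2 * p.l)) (X j) *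
    (Av (tm (θ a)) S u X - Av (tm (θ a)) (insert j S) u X) ^ 2))

/-- the same with a further particle `k` in the cube -/
noncomputable def rh (p : Par) (θ : E → E → ℝ) (u : (ι → E) → ℝ) (a : E) (S : Finset ι) (j k : ι) : ℝ :=
  IA p θ a S (fun X => vt p a S X * (ic (Qb a (2 * p.l)) (X k) * (ic (Qb a (2 * p.l)) (X j) *
    (Av (tm (θ a)) S u X - Av (tm (θ a)) (insert j S) u X) ^ 2)))

/-- the corrections of the linear term of three particles -/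
noncomputable def T2 (p : Par) (θ : E → E → ℝ) (P : E → E → E → E → ℝ) (u : (ι → E) → ℝ) : ℝ :=
  ∑ a ∈ p.Gr, ∑ e ∈ Ij 3 ι, IO p (fun X => θ a (X (e 2)) * (K2 θ P a (X (e 0)) (X (e 1)) *
    (u X * Am p θ u a (im e) X)))

noncomputable def T3 (p : Par) (θ : E → E → ℝ) (P : E → E → E → E → ℝ) (u : (ι → E) → ℝ) : ℝ :=
  ∑ a ∈ p.Gr, ∑ e ∈ Ij 3 ι, IO p (fun X => K3 θ P a (X (e 0)) (X (e 1)) (X (e 2)) *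
    (u X * Am p θ u a (im e) X))

noncomputable def W2 (p : Par) (θ : E → E → ℝ) (P : E → E → E → E → ℝ) (u : (ι → E) → ℝ) (a : E) (i k : ι)
    (X : ι → E) : ℝ :=
  ∑ j ∈ Finset.univ \ {i, k}, K2 θ P a (X i) (X j) * Am p θ u a {i, j, k} X

open Classical in
noncomputable def W3 (p : Par) (θ : E → E → ℝ) (P : E → E → E → E → ℝ) (u : (ι → E) → ℝ) (a : E) (i : ι)
    (X : ι → E) : ℝ :=
  ∑ e ∈ (Ij 3 ι).filter (fun e => e 0 = i), K3 θ P a (X (e 0)) (X (e 1)) (X (e 2)) * Am p θ u a (im e) X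

open Classical in
/-- the potential of the field `aF` -/
noncomputable def fF (p : Par) (β θ : E → E → ℝ) (τ : E × E → ℝ) (u : (ι → E) → ℝ) (i : ι) (X : ι → E) : ℝ :=
  1 / 2 * ∑ e ∈ (Ij 3 ι).filter (fun e => e 0 = i), hS p β θ u (im e) X * τ (rt (X ∘ e))

open Classical in
/-- a majorant of `fF` -/
noncomputable def sF (p : Par) (θ : E → E → ℝ) (τ : E × E → ℝ) (u : (ι → E) → ℝ) (i : ι) (X : ι → E) : ℝ :=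
  ∑ e ∈ (Ij 3 ι).filter (fun e => e 0 = i), Real.sqrt (hh2 p θ u (im e) X) * τ (rt (X ∘ e))

/-- its norm -/
noncomputable def FF (p : Par) (θ : E → E → ℝ) (τ : E × E → ℝ) (u : (ι → E) → ℝ) : ℝ :=
  IO p (fun X => ∑ i, sF p θ τ u i X ^ 2)

/-- the norm of the four-body field -/
noncomputable def B2 (p : Par) (β θ : E → E → ℝ) (Y : Fin 4 → Fin 3 → W4 → ℝ) (u : (ι → E) → ℝ) : ℝ :=
  IO p (fun X => ∑ i, ∑ c, bF p β θ Y u i c X ^ 2)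

/-- error terms -/
noncomputable def E33 (p : Par) (θ : E → E → ℝ) (u : (ι → E) → ℝ) : ℝ :=
  p.R * ((Real.sqrt p.R * (p.M / p.l ^ 3)) ^ 2 * AA p θ u 3 + Real.sqrt p.R * (p.M / p.l ^ 3) * GG p θ u 3)

noncomputable def E34 (p : Par) (θ : E → E → ℝ) (u : (ι → E) → ℝ) : ℝ :=
  Real.sqrt (p.R * ((p.l ^ (1 / 3 : ℝ) * (p.M / p.l ^ 3)) ^ 2 * AA p θ u 3
      + p.l ^ (1 / 3 : ℝ) * (p.M / p.l ^ 3) * GG p θ u 3)) *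
    Real.sqrt (p.l * (Real.sqrt p.R * (p.M / p.l ^ 3) * AA p θ u 4)) +
  Real.sqrt (p.R * ((p.l ^ (1 / 3 : ℝ) * (p.M / p.l ^ 3)) ^ 3 * AA p θ u 3
      + ((p.l ^ (1 / 3 : ℝ)) ^ 2 + p.l ^ 3) * (p.M / p.l ^ 3) ^ 2 * GG p θ u 3)) *
    Real.sqrt (p.l * ((Real.sqrt p.R * (p.M / p.l ^ 3)) ^ 2 * AA p θ u 4
      + Real.sqrt p.R * (p.M / p.l ^ 3) * GG p θ u 4))

noncomputable def E44 (p : Par) (θ : E → E → ℝ) (u : (ι → E) → ℝ) : ℝ :=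
  p.l * (p.l ^ (1 / 3 : ℝ) * (p.M / p.l ^ 3) * AA p θ u 4) +
  p.l * ((p.l ^ (1 / 3 : ℝ) * (p.M / p.l ^ 3)) ^ 2 * AA p θ u 4
      + p.l ^ (1 / 3 : ℝ) * (p.M / p.l ^ 3) * GG p θ u 4) +
  p.l * ((p.l ^ (1 / 3 : ℝ) * (p.M / p.l ^ 3)) ^ 3 * AA p θ u 4
      + ((p.l ^ (1 / 3 : ℝ)) ^ 2 + p.l ^ 3) * (p.M / p.l ^ 3) ^ 2 * GG p θ u 4)

/-- error of the replacement of the amplitudes -/
noncomputable def D4 (p : Par) (θ : E → E → ℝ) (u : (ι → E) → ℝ) : ℝ :=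
  GG p θ u 3 / p.l + p.R / p.l ^ 2 * AA p θ u 4

open Classical in
/-- `1` if the cube is at the boundary or next to a cube with more than `M` particles -/
noncomputable def pz (p : Par) (a : E) (S : Finset ι) (X : ι → E) : ℝ :=
  if a ∉ p.Gi ∨ ∃ a' ∈ p.Gr, (∀ c, |a' c - a c| ≤ 2 * p.l) ∧ vt p a' S X = 0 then 1 else 0

/-- the amplitudes at these cubes -/
noncomputable def PZ (p : Par) (θ : E → E → ℝ) (u : (ι → E) → ℝ) : ℝ :=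
  p.l ^ 3 * ∑ a ∈ p.Gr, ∑ e ∈ Ij 4 ι, IA p θ a (im e) (fun X => pz p a (im e) X * Am p θ u a (im e) X ^ 2)

/-- all error terms -/
noncomputable def Er (p : Par) (θ : E → E → ℝ) (u : (ι → E) → ℝ) : ℝ :=
  Real.sqrt (p.M / p.l ^ 3 * RW p θ u * AA p θ u 3 / p.R ^ 3) + (p.M / p.l ^ 3) ^ 2 * RW p θ u
    + Real.sqrt (RW p θ u * AA p θ u 3 / p.R ^ 6) + Real.sqrt (p.M * (p.M / p.l ^ 3) ^ 3 / p.R ^ 3) * RW p θ u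
    + Real.sqrt (AA p θ u 4 * ((p.M / p.l ^ 3) ^ 3 * RW p θ u)) + E33 p θ u + E34 p θ u + E44 p θ u
    + p.M / p.l ^ 3 * AA p θ u 4 + Real.sqrt (AA p θ u 4 * D4 p θ u) + D4 p θ u
    + ((p.M / p.l ^ 3) ^ 3 * RW p θ u + PZ p θ u) + AA p θ u 4 / p.R

end defs

/-! ## tuples -/

/-- tuples of distinct particles -/
def Stmt_TUP : Prop := ∀ (ι : Type) [Fintype ι] [DecidableEq ι],
  (∀ (V : E → E → ℝ) (X : ι → E), potS V X = 1 / 6 * ∑ e ∈ Ij 3 ι, V (rt (X ∘ e)).1 (rt (X ∘ e)).2) ∧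
  (∀ (m : ℕ) (σ : Equiv.Perm (Fin m)), (∀ F : (Fin m → ι) → ℝ, ∑ e ∈ Ij m ι, F (e ∘ σ) = ∑ e ∈ Ij m ι, F e) ∧
    ∀ e : Fin m → ι, im (e ∘ σ) = im e ∧ (e ∘ σ ∈ Ij m ι ↔ e ∈ Ij m ι)) ∧
  (∀ F : (Fin 4 → ι) → ℝ, ∑ e ∈ Ij 4 ι, F e = ∑ e ∈ Ij 3 ι, ∑ j ∈ Finset.univ \ im e, F (ap e j)) ∧
  (∀ e ∈ Ij 3 ι, ∀ j ∉ im e, ap e j ∈ Ij 4 ι ∧ im (ap e j) = insert j (im e)) ∧
  (∀ e ∈ Ij 4 ι, s2 e ∈ Ij 3 ι ∧ s3 e ∈ Ij 3 ι ∧ e 3 ∉ im (s2 e) ∧ e 2 ∉ im (s3 e) ∧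
    im e = insert (e 3) (im (s2 e)) ∧ im e = insert (e 2) (im (s3 e)) ∧ ap (s2 e) (e 3) = e) ∧
  (∀ m : ℕ, ∀ e ∈ Ij m ι, (im e).card = m) ∧
  (∀ (m : ℕ) (F : (Fin (m + 1) → ι) → ℝ),
    ∑ i, ∑ e ∈ (Ij (m + 1) ι).filter (fun e => e 0 = i), F e = ∑ e ∈ Ij (m + 1) ι, F e)

/-- pairs of triples with the same first particle -/
def Stmt_CM3 : Prop := ∀ (ι : Type) [Fintype ι] [DecidableEq ι] (F G : (Fin 3 → ι) → ℝ),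
  (∀ e, F (e ∘ Equiv.swap 1 2) = F e) → (∀ e, G (e ∘ Equiv.swap 1 2) = G e) →
  ∑ i, (∑ e ∈ (Ij 3 ι).filter (fun e => e 0 = i), F e) * (∑ e ∈ (Ij 3 ι).filter (fun e => e 0 = i), G e) =
    2 * ∑ e ∈ Ij 3 ι, F e * G e + 4 * ∑ e ∈ Ij 4 ι, F (s2 e) * G (s3 e) +
    ∑ e ∈ Ij 3 ι, ∑ e' ∈ (Ij 3 ι).filter (fun e' => e' 0 = e 0 ∧ (im e' \ im e).card = 2 ∧
      (im e \ im e').card = 2), F e * G e'

/-- triples and quadruples with the same first particle -/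
def Stmt_CM4 : Prop := ∀ (ι : Type) [Fintype ι] [DecidableEq ι] (F : (Fin 3 → ι) → ℝ) (G : (Fin 4 → ι) → ℝ),
  (∀ e, F (e ∘ Equiv.swap 1 2) = F e) → (∀ (σ : Equiv.Perm (Fin 4)) (e : Fin 4 → ι), σ 0 = 0 → G (e ∘ σ) = G e) →
  ∑ i, (∑ e ∈ (Ij 3 ι).filter (fun e => e 0 = i), F e) * (∑ e ∈ (Ij 4 ι).filter (fun e => e 0 = i), G e) =
    6 * ∑ e ∈ Ij 4 ι, F (s2 e) * G e +
    ∑ e ∈ Ij 3 ι, ∑ e' ∈ (Ij 4 ι).filter (fun e' => e' 0 = e 0 ∧ (im e' \ im e).card = 2 ∧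
      (im e \ im e').card = 1), F e * G e' +
    ∑ e ∈ Ij 3 ι, ∑ e' ∈ (Ij 4 ι).filter (fun e' => e' 0 = e 0 ∧ (im e' \ im e).card = 3 ∧
      (im e \ im e').card = 2), F e * G e'

/-- pairs of quadruples with the same first particle -/
def Stmt_CM5 : Prop := ∀ (ι : Type) [Fintype ι] [DecidableEq ι] (F G : (Fin 4 → ι) → ℝ),
  (∀ (σ : Equiv.Perm (Fin 4)) (e : Fin 4 → ι), σ 0 = 0 → F (e ∘ σ) = F e ∧ G (e ∘ σ) = G e) →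
  ∑ i, (∑ e ∈ (Ij 4 ι).filter (fun e => e 0 = i), F e) * (∑ e ∈ (Ij 4 ι).filter (fun e => e 0 = i), G e) =
    6 * ∑ e ∈ Ij 4 ι, F e * G e + ∑ r ∈ Finset.Icc 1 3,
    ∑ e ∈ Ij 4 ι, ∑ e' ∈ (Ij 4 ι).filter (fun e' => e' 0 = e 0 ∧ (im e' \ im e).card = r ∧
      (im e \ im e').card = r), F e * G e'

/-- functions of three particles: derivatives, permutations -/
def Stmt_TRK : Prop :=
  (∀ (ι : Type) [Fintype ι] [DecidableEq ι] (G : E × E → ℝ) (e : Fin 3 → ι) (X : ι → E), ContDiff ℝ ∞ G →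
    e ∈ Ij 3 ι → ContDiff ℝ ∞ (fun x => G (rt (Function.update X (e 0) x ∘ e))) ∧
    ∀ c x, pd c (fun x => G (rt (Function.update X (e 0) x ∘ e))) x =
      dv (dr 0 c) G (rt (Function.update X (e 0) x ∘ e))) ∧
  (∀ τ : E × E → ℝ, ContDiff ℝ ∞ τ → (∀ x y, τ (x, y) = τ (y, x)) → (∀ x y, τ (x, y) = τ (-x, y - x)) →
    ∀ x : Fin 3 → E, (∀ σ : Equiv.Perm (Fin 3), τ (rt (x ∘ σ)) = τ (rt x) ∧ gsq τ (rt (x ∘ σ)) = gsq τ (rt x) ∧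
      Lap τ (rt (x ∘ σ)) = Lap τ (rt x) ∧ ∀ c, dv (dr 0 c) τ (rt (x ∘ σ)) = dv (dr (σ 0) c) τ (rt x) ∧
      dv (dr 0 c) (dv (dr 0 c) τ) (rt (x ∘ σ)) = dv (dr (σ 0) c) (dv (dr (σ 0) c) τ) (rt x)) ∧
    ∀ c, ∑ s : Fin 3, dv (dr s c) τ (rt x) = 0)

/-- functions of four particles: derivatives, permutations -/
def Stmt_TRF : Prop :=
  (∀ (ι : Type) [Fintype ι] [DecidableEq ι] (G : W4 → ℝ) (e : Fin 4 → ι) (X : ι → E), ContDiff ℝ ∞ G →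
    e ∈ Ij 4 ι → ContDiff ℝ ∞ (fun x => G (rl (Function.update X (e 0) x ∘ e))) ∧
    ∀ c x, pd c (fun x => G (rl (Function.update X (e 0) x ∘ e))) x =
      dv (d4 0 c) G (rl (Function.update X (e 0) x ∘ e))) ∧
  (∀ (x : Fin 4 → E) (σ : Equiv.Perm (Fin 4)), rl (x ∘ σ) = Pm σ (rl x) ∧
    (∀ (φ : E × E → ℝ) (y : W4 → ℝ) (l C : ℝ) (Y : Fin 4 → Fin 3 → W4 → ℝ) (g : W4 → ℝ), Dua φ y l C Y g →
      g (rl (x ∘ σ)) = g (rl x) ∧ ∀ c, Y 0 c (rl (x ∘ σ)) = Y (σ 0) c (rl x) ∧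
      dv (d4 0 c) (Y 0 c) (rl (x ∘ σ)) = dv (d4 (σ 0) c) (Y (σ 0) c) (rl x))) ∧
  (∀ m : Fin 4, ∃ σ : Equiv.Perm (Fin 4), ∀ (φ : E × E → ℝ) (y : W4 → ℝ) (x : Fin 4 → E),
    Vm φ m (rl x) = VV φ (x (σ 0) - x (σ 1)) (x (σ 0) - x (σ 2)) ∧ ym y m (rl x) = y (rl (x ∘ σ)))

/-- the kernels are bounded and measurable -/
def Stmt_KBM : Prop :=
  (∀ (C R : ℝ) (φ τ g : E × E → ℝ), Scat φ → Tri C R φ τ g → BM τ ∧ BM g ∧ BM φ ∧ BM (ww φ) ∧ BM (Lap τ) ∧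
    BM (gsq τ) ∧ BM (fun z : E × E => VV φ z.1 z.2) ∧ (∀ m c, BM (dv (dr m c) τ)) ∧
    (∀ z, ww φ z = VV φ z.1 z.2 * (1 - φ z)) ∧ (∀ z, 0 ≤ ww φ z) ∧ (∀ x y, 0 ≤ VV φ x y) ∧
    (∀ x y, VV φ x y = VV φ y x) ∧ (∀ x y, VV φ x y = VV φ (-x) (y - x))) ∧
  (∀ (C l : ℝ) (φ : E × E → ℝ) (y : W4 → ℝ) (Y : Fin 4 → Fin 3 → W4 → ℝ) (g : W4 → ℝ), Scat φ → TF y →
    Dua φ y l C Y g → BM g ∧ BM y ∧ BM (dvg Y) ∧ (∀ m c, BM (Y m c)) ∧ (∀ m, BM (Vm φ m)) ∧ ∀ m, BM (ym y m)) ∧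
  (∀ (ι : Type) (F : E × E → ℝ) (e : Fin 3 → ι), BM F → BM (fun X : ι → E => F (rt (X ∘ e)))) ∧
  (∀ (ι : Type) (F : W4 → ℝ) (e : Fin 4 → ι), BM F → BM (fun X : ι → E => F (rl (X ∘ e))))

/-! ## the identity -/

/-- integration by parts in the position of one particle -/
def Stmt_IBN : Prop := ∀ (C : ℝ) (ι : Type) [Fintype ι] [DecidableEq ι] (p : Par) (β θ : E → E → ℝ)
  (u F : (ι → E) → ℝ) (i : ι) (c : Fin 3), Sys C p β θ → CU u → BM F →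
  (∀ X, ContDiff ℝ 1 (fun x => F (Function.update X i x))) →
  BM (fun X => pd c (fun x => F (Function.update X i x)) (X i)) →
  (∀ X, F X ≠ 0 → ∃ a ∈ p.Gr, X i ∈ Qb a (10 * p.l)) →
  IO p (fun X => di i c u X * F X) = - IO p (fun X => u X * pd c (fun x => F (Function.update X i x)) (X i))

/-- the linear term of the field `aF` -/
def Stmt_L3I : Prop := ∀ (C : ℝ) (ι : Type) [Fintype ι] [DecidableEq ι] (p : Par) (β θ : E → E → ℝ)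
  (φ τ g : E × E → ℝ) (u : (ι → E) → ℝ), Sys C p β θ → CU u → Scat φ → Tri C p.R φ τ g →
  (∀ i c, BM (aF p β θ τ u i c)) ∧
  - 2 * IO p (fun X => ∑ i, ∑ c, di i c u X * aF p β θ τ u i c X) =
    IO p (fun X => 1 / 3 * ∑ e ∈ Ij 3 ι, u X * (hS p β θ u (im e) X * Lap τ (rt (X ∘ e))))

/-- the linear term of the field `bF` -/
def Stmt_L4I : Prop := ∀ (C : ℝ) (ι : Type) [Fintype ι] [DecidableEq ι] (p : Par) (β θ : E → E → ℝ)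
  (φ : E × E → ℝ) (y : W4 → ℝ) (Y : Fin 4 → Fin 3 → W4 → ℝ) (g : W4 → ℝ) (u : (ι → E) → ℝ), Sys C p β θ → CU u →
  Scat φ → TF y → Dua φ y p.l C Y g → (∀ i c, BM (bF p β θ Y u i c)) ∧
  2 * IO p (fun X => ∑ i, ∑ c, di i c u X * bF p β θ Y u i c X) =
    - IO p (fun X => 1 / 12 * ∑ e ∈ Ij 4 ι, u X * (hS p β θ u (im e) X * dvg Y (rl (X ∘ e))))

/-- the energy identity -/
def Stmt_IDN : Prop := ∀ (C : ℝ) (ι : Type) [Fintype ι] [DecidableEq ι] (p : Par) (β θ : E → E → ℝ)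
  (φ τ g : E × E → ℝ) (y : W4 → ℝ) (Y : Fin 4 → Fin 3 → W4 → ℝ) (g₄ : W4 → ℝ) (u : (ι → E) → ℝ), Sys C p β θ →
  CU u → Scat φ → Tri C p.R φ τ g → TF y → Dua φ y p.l C Y g₄ →
  EN p (VV φ) u = XX p β θ τ Y u + VX p β θ φ y u + L3 p β θ g u + L4 p β θ g₄ u - QK p β θ τ Y u
    - QV p β θ φ y u

/-! ## the linear term of three particles -/

/-- the centred kernels -/
def Stmt_KBD : Prop := ∀ C b : ℝ, ∃ C₁ : ℝ, 0 < C₁ ∧ ∀ (p : Par) (β θ : E → E → ℝ) (g : E × E → ℝ)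
  (P : E → E → E → E → ℝ), Sys C p β θ → Trp C b p β θ g P → ∀ a : E,
  BM2 (K2 θ P a) ∧ BM3 (K3 θ P a) ∧ (∀ x y, K2 θ P a x y = K2 θ P a y x) ∧ Sy3 (K3 θ P a) ∧
  (∀ x y, K2 θ P a x y ≠ 0 → x ∈ Qb a (2 * p.l) ∧ y ∈ Qb a (2 * p.l)) ∧
  (∀ x y z, K3 θ P a x y z ≠ 0 → x ∈ Qb a (2 * p.l) ∧ y ∈ Qb a (2 * p.l) ∧ z ∈ Qb a (2 * p.l)) ∧
  (∀ x, ∫ y, K2 θ P a x y = 0) ∧ (∀ x y, ∫ z, K3 θ P a x y z = 0) ∧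
  (∀ x, ∫ y, |K2 θ P a x y| ≤ C₁ / p.l ^ 3) ∧ (∀ x y, ∫ z, |K3 θ P a x y z| ≤ C₁ / (p.l ^ 3 * p.R ^ 3)) ∧
  (∀ x, ∫ y, ∫ z, |K3 θ P a x y z| ≤ C₁ / p.l ^ 3) ∧
  (∫ x, ∫ y, K2 θ P a x y ^ 2 ≤ C₁ / (p.l ^ 3 * p.R ^ 3)) ∧
  (∫ x, ∫ y, ∫ z, K3 θ P a x y z ^ 2 ≤ C₁ / (p.l ^ 3 * p.R ^ 6))

/-- decomposition of the linear term -/
def Stmt_LDE : Prop := ∀ (C b : ℝ) (ι : Type) [Fintype ι] [DecidableEq ι] (p : Par) (β θ : E → E → ℝ)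
  (g : E × E → ℝ) (P : E → E → E → E → ℝ) (u : (ι → E) → ℝ), 0 < b → Sys C p β θ → Trp C b p β θ g P → BM g →
  BM u → L3 p β θ g u = b / 3 * AA p θ u 3 + b * p.l ^ 3 / 3 * (3 * T2 p θ P u + T3 p θ P u)

/-- integrating one particle -/
def Stmt_ONE : Prop := ∀ (C : ℝ) (ι : Type) [Fintype ι] [DecidableEq ι] (p : Par) (β θ : E → E → ℝ),
  Sys C p β θ → ∀ a ∈ p.Gr, ∀ (S : Finset ι) (i : ι) (F w : (ι → E) → ℝ), i ∉ S → BM F → BM w → IndS {i} w →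
  (IA p θ a S (fun X => F X * w X) =
    IA p θ a (insert i S) (fun X => (∫ x, F (Function.update X i x) ∂(mO p.L)) * w X)) ∧
  ((∀ X, ∫ x, F (Function.update X i x) ∂(mO p.L) = 0) → IA p θ a S (fun X => F X * w X) = 0) ∧
  (∀ f : (ι → E) → ℝ, BM f → (∀ X, 0 ≤ w X) → (∀ X, ∫ x, F (Function.update X i x) ∂(mO p.L) ≤ f X) →
    IA p θ a S (fun X => F X * w X) ≤ IA p θ a (insert i S) (fun X => f X * w X))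

/-- the roughness of the averages -/
def Stmt_RGH : Prop := ∀ (C : ℝ) (m : ℕ), ∃ C₁ : ℝ, 0 < C₁ ∧ ∀ (ι : Type) [Fintype ι] [DecidableEq ι] (p : Par)
  (β θ : E → E → ℝ) (u : (ι → E) → ℝ), Sys C p β θ → BM u → RR p θ u ≤ RW p θ u ∧
  ∑ a ∈ p.Gr, ∑ e ∈ Ij m ι, ∑ j ∈ Finset.univ \ im e, rg p θ u a (im e) j ≤
    C₁ * (p.M / p.l ^ 3) ^ m * RW p θ u

/-- subtracting averages in `T2` -/
def Stmt_E2A : Prop := ∀ (C b : ℝ) (ι : Type) [Fintype ι] [DecidableEq ι] (p : Par) (β θ : E → E → ℝ)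
  (g : E × E → ℝ) (P : E → E → E → E → ℝ) (u : (ι → E) → ℝ), Sys C p β θ → Trp C b p β θ g P → BM u →
  T2 p θ P u = ∑ a ∈ p.Gr, ∑ i, ∑ k ∈ Finset.univ \ {i}, IA p θ a {k} (fun X =>
    (Av (tm (θ a)) {k} u X - Av (tm (θ a)) {i, k} u X) * W2 p θ P u a i k X)

/-- the Cauchy-Schwarz inequality for `T2` -/
def Stmt_E2C : Prop := ∀ C b : ℝ, ∃ C₁ : ℝ, 0 < C₁ ∧ ∀ (ι : Type) [Fintype ι] [DecidableEq ι] (p : Par)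
  (β θ : E → E → ℝ) (g : E × E → ℝ) (P : E → E → E → E → ℝ) (u : (ι → E) → ℝ), Sys C p β θ →
  Trp C b p β θ g P → BM u →
  (∑ a ∈ p.Gr, ∑ i, ∑ k ∈ Finset.univ \ {i}, IA p θ a {k} (fun X =>
    (Av (tm (θ a)) {k} u X - Av (tm (θ a)) {i, k} u X) * W2 p θ P u a i k X)) ^ 2 ≤
  C₁ * (p.M / p.l ^ 3 * RW p θ u) *
    ∑ a ∈ p.Gr, ∑ i, ∑ k ∈ Finset.univ \ {i}, IA p θ a {k} (fun X => W2 p θ P u a i k X ^ 2)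

/-- products of two kernels `K2` -/
def Stmt_E2P : Prop := ∀ C b : ℝ, ∃ C₁ : ℝ, 0 < C₁ ∧ ∀ (ι : Type) [Fintype ι] [DecidableEq ι] (p : Par)
  (β θ : E → E → ℝ) (g : E × E → ℝ) (P : E → E → E → E → ℝ) (u : (ι → E) → ℝ), Sys C p β θ →
  Trp C b p β θ g P → BM u → ∀ a ∈ p.Gr, ∀ i j k : ι, i ≠ j → i ≠ k → j ≠ k →
  (IA p θ a {k} (fun X => (K2 θ P a (X i) (X j) * Am p θ u a {i, j, k} X) ^ 2) ≤
    C₁ / (p.l ^ 3 * p.R ^ 3) * IA p θ a {i, j, k} (fun X => Am p θ u a {i, j, k} X ^ 2)) ∧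
  ∀ j' : ι, j' ≠ i → j' ≠ j → j' ≠ k →
    IA p θ a {k} (fun X => (K2 θ P a (X i) (X j) * Am p θ u a {i, j, k} X) *
      (K2 θ P a (X i) (X j') * Am p θ u a {i, j', k} X)) ≤
    C₁ / p.l ^ 6 * (rg p θ u a {i, j, k} j' + rg p θ u a {i, j', k} j)

/-- the norm of `W2` -/
def Stmt_E2B : Prop := ∀ C b : ℝ, ∃ C₁ : ℝ, 0 < C₁ ∧ ∀ (ι : Type) [Fintype ι] [DecidableEq ι] (p : Par)
  (β θ : E → E → ℝ) (g : E × E → ℝ) (P : E → E → E → E → ℝ) (u : (ι → E) → ℝ), Sys C p β θ →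
  Trp C b p β θ g P → BM u →
  ∑ a ∈ p.Gr, ∑ i, ∑ k ∈ Finset.univ \ {i}, IA p θ a {k} (fun X => W2 p θ P u a i k X ^ 2) ≤
    C₁ * (AA p θ u 3 / (p.l ^ 6 * p.R ^ 3) + (p.M / p.l ^ 3) ^ 3 * RW p θ u / p.l ^ 6)

/-- `T3` -/
def Stmt_E3A : Prop := ∀ C b : ℝ, ∃ C₁ : ℝ, 0 < C₁ ∧ ∀ (ι : Type) [Fintype ι] [DecidableEq ι] (p : Par)
  (β θ : E → E → ℝ) (g : E × E → ℝ) (P : E → E → E → E → ℝ) (u : (ι → E) → ℝ), Sys C p β θ →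
  Trp C b p β θ g P → BM u →
  T3 p θ P u ^ 2 ≤ C₁ * RW p θ u * ∑ a ∈ p.Gr, ∑ i, IO p (fun X => W3 p θ P u a i X ^ 2)

/-- products of two kernels `K3` with two or three common particles -/
def Stmt_E3P : Prop := ∀ C b : ℝ, ∃ C₁ : ℝ, 0 < C₁ ∧ ∀ (ι : Type) [Fintype ι] [DecidableEq ι] (p : Par)
  (β θ : E → E → ℝ) (g : E × E → ℝ) (P : E → E → E → E → ℝ) (u : (ι → E) → ℝ), Sys C p β θ →
  Trp C b p β θ g P → BM u → ∀ a ∈ p.Gr, ∀ i j k : ι, i ≠ j → i ≠ k → j ≠ k →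
  (IO p (fun X => (K3 θ P a (X i) (X j) (X k) * Am p θ u a {i, j, k} X) ^ 2) ≤
    C₁ / (p.l ^ 3 * p.R ^ 6) * IA p θ a {i, j, k} (fun X => Am p θ u a {i, j, k} X ^ 2)) ∧
  ∀ k' : ι, k' ≠ i → k' ≠ j → k' ≠ k →
    IO p (fun X => (K3 θ P a (X i) (X j) (X k) * Am p θ u a {i, j, k} X) *
      (K3 θ P a (X i) (X j) (X k') * Am p θ u a {i, j, k'} X)) ≤
    C₁ / (p.l ^ 6 * p.R ^ 3) * (rg p θ u a {i, j, k} k' + rg p θ u a {i, j, k'} k)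

/-- products of two kernels `K3` with one common particle -/
def Stmt_E3Q : Prop := ∀ C b : ℝ, ∃ C₁ : ℝ, 0 < C₁ ∧ ∀ (ι : Type) [Fintype ι] [DecidableEq ι] (p : Par)
  (β θ : E → E → ℝ) (g : E × E → ℝ) (P : E → E → E → E → ℝ) (u : (ι → E) → ℝ), Sys C p β θ →
  Trp C b p β θ g P → BM u → ∀ a ∈ p.Gr, ∀ i j k j' k' : ι, ([i, j, k, j', k'] : List ι).Nodup →
    IO p (fun X => (K3 θ P a (X i) (X j) (X k) * Am p θ u a {i, j, k} X) *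
      (K3 θ P a (X i) (X j') (X k') * Am p θ u a {i, j', k'} X)) ≤
    C₁ / (p.l ^ 6 * p.R ^ 3) * (rh p θ u a {i, j, k} j' k' + rh p θ u a {i, j', k'} j k)

/-- the norm of `W3` -/
def Stmt_E3B : Prop := ∀ C b : ℝ, ∃ C₁ : ℝ, 0 < C₁ ∧ ∀ (ι : Type) [Fintype ι] [DecidableEq ι] (p : Par)
  (β θ : E → E → ℝ) (g : E × E → ℝ) (P : E → E → E → E → ℝ) (u : (ι → E) → ℝ), Sys C p β θ →
  Trp C b p β θ g P → BM u →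
  ∑ a ∈ p.Gr, ∑ i, IO p (fun X => W3 p θ P u a i X ^ 2) ≤
    C₁ * (AA p θ u 3 / (p.l ^ 6 * p.R ^ 6) + p.M * (p.M / p.l ^ 3) ^ 3 * RW p θ u / (p.l ^ 6 * p.R ^ 3))

/-- the linear term of three particles -/
def Stmt_LI3 : Prop := ∀ C b : ℝ, 0 < b → ∃ C₁ : ℝ, 0 < C₁ ∧ ∀ (ι : Type) [Fintype ι] [DecidableEq ι] (p : Par)
  (β θ : E → E → ℝ) (g : E × E → ℝ) (P : E → E → E → E → ℝ) (u : (ι → E) → ℝ), Sys C p β θ →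
  Trp C b p β θ g P → BM g → BM u →
  |L3 p β θ g u - b / 3 * AA p θ u 3| ≤ C₁ * (
    Real.sqrt (p.M / p.l ^ 3 * RW p θ u * AA p θ u 3 / p.R ^ 3) + (p.M / p.l ^ 3) ^ 2 * RW p θ u
    + Real.sqrt (RW p θ u * AA p θ u 3 / p.R ^ 6) + Real.sqrt (p.M * (p.M / p.l ^ 3) ^ 3 / p.R ^ 3) * RW p θ u)

/-! ## the roughness -/

/-- the function `fF` -/
def Stmt_FIF : Prop := ∀ C : ℝ, ∃ C₁ : ℝ, 0 < C₁ ∧ ∀ (ι : Type) [Fintype ι] [DecidableEq ι] (p : Par)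
  (β θ : E → E → ℝ) (φ τ g : E × E → ℝ) (u : (ι → E) → ℝ), Sys C p β θ → CU u → Scat φ → Tri C p.R φ τ g →
  ∀ i : ι, BM (fF p β θ τ u i) ∧ BM (sF p θ τ u i) ∧ (∀ X, |fF p β θ τ u i X| ≤ sF p θ τ u i X) ∧
  (∀ X, ContDiff ℝ 1 (fun x => fF p β θ τ u i (Function.update X i x))) ∧
  (∀ c, BM (fun X => pd c (fun x => fF p β θ τ u i (Function.update X i x)) (X i))) ∧
  (∀ c X, |pd c (fun x => fF p β θ τ u i (Function.update X i x)) (X i) - aF p β θ τ u i c X| ≤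
    C₁ / p.l * sF p θ τ u i X)

/-- the roughness and the remaining kinetic energy -/
def Stmt_RB1 : Prop := ∀ C : ℝ, ∃ C₁ : ℝ, 0 < C₁ ∧ ∀ (ι : Type) [Fintype ι] [DecidableEq ι] (p : Par)
  (β θ : E → E → ℝ) (φ τ g : E × E → ℝ) (y : W4 → ℝ) (Y : Fin 4 → Fin 3 → W4 → ℝ) (g₄ : W4 → ℝ)
  (u : (ι → E) → ℝ), Sys C p β θ → CU u → Scat φ → Tri C p.R φ τ g → TF y → Dua φ y p.l C Y g₄ →
  RW p θ u ≤ C₁ * (p.l ^ 2 * XX p β θ τ Y u + p.l ^ 2 * B2 p β θ Y u + FF p θ τ u)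

/-- overlapping clusters, with the majorants -/
def Stmt_QEH : Prop := ∀ m m' r r' : ℕ, ∃ C₁ : ℝ, 0 < C₁ ∧ ∀ (C : ℝ) (ι : Type) [Fintype ι] [DecidableEq ι] (p : Par)
  (β θ : E → E → ℝ) (u : (ι → E) → ℝ) (κ κ' w₁ w₂ w₃ w₁' w₂' w₃' : ℝ) (K : (Fin (m + 1) → E) → ℝ)
  (K' : (Fin (m' + 1) → E) → ℝ) (q q' : E → ℝ), Sys C p β θ → BM u → Ck m p.l κ K → Ck m' p.l κ' K' →
  Pk p.l w₁ w₂ w₃ q → Pk p.l w₁' w₂' w₃' q' → (∀ x, K x ≤ ∏ s : Fin m, q (x 0 - x s.succ)) →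
  (∀ x, K' x ≤ ∏ s : Fin m', q' (x 0 - x s.succ)) →
  IO p (fun X => ∑ e ∈ Ij (m + 1) ι, ∑ e' ∈ (Ij (m' + 1) ι).filter (fun e' => e' 0 = e 0 ∧
      (im e' \ im e).card = r ∧ (im e \ im e').card = r'),
      Real.sqrt (hh2 p θ u (im e) X) * (Real.sqrt (hh2 p θ u (im e') X) * (K (X ∘ e) * K' (X ∘ e')))) ≤
    C₁ * Real.sqrt (GS p θ u m r K q') * Real.sqrt (GS p θ u m' r' K' q)

/-- triples with two common particles -/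
def Stmt_QES : Prop := ∀ (C : ℝ) (ι : Type) [Fintype ι] [DecidableEq ι] (p : Par)
  (β θ : E → E → ℝ) (u : (ι → E) → ℝ) (κ w₁ w₂ w₃ : ℝ) (K : (Fin 3 → E) → ℝ) (q : E → ℝ), Sys C p β θ →
  BM u → Ck 2 p.l κ K → Pk p.l w₁ w₂ w₃ q → (∀ x, K x ≤ q (x 0 - x 1) * q (x 0 - x 2)) →
  IO p (fun X => ∑ e ∈ Ij 4 ι, Real.sqrt (hh2 p θ u (im (s2 e)) X) * (Real.sqrt (hh2 p θ u (im (s3 e)) X) *
    (K (X ∘ s2 e) * K (X ∘ s3 e)))) ≤ GS p θ u 2 1 (fun x => K x * (q (x 0 - x 1) + q (x 0 - x 2))) q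

/-- the norm of the field without derivatives -/
def Stmt_RB2 : Prop := ∀ C : ℝ, ∃ C₁ : ℝ, 0 < C₁ ∧ ∀ (ι : Type) [Fintype ι] [DecidableEq ι] (p : Par)
  (β θ : E → E → ℝ) (φ τ g : E × E → ℝ) (y : W4 → ℝ) (Y : Fin 4 → Fin 3 → W4 → ℝ) (u : (ι → E) → ℝ),
  Sys C p β θ → CU u → Scat φ → Tri C p.R φ τ g → KF C p φ τ y Y →
  FF p θ τ u ≤ C₁ * (AA p θ u 3 + p.R ^ 2 * (p.M / p.l ^ 3) * AA p θ u 3
    + p.R ^ 2 * ((p.R * (p.M / p.l ^ 3)) ^ 2 * AA p θ u 3 + p.R * (p.M / p.l ^ 3) * GG p θ u 3))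

/-- the norm of the four-body field -/
def Stmt_RB3 : Prop := ∀ C : ℝ, ∃ C₁ : ℝ, 0 < C₁ ∧ ∀ (ι : Type) [Fintype ι] [DecidableEq ι] (p : Par)
  (β θ : E → E → ℝ) (φ τ : E × E → ℝ) (y : W4 → ℝ) (Y : Fin 4 → Fin 3 → W4 → ℝ) (g₄ : W4 → ℝ) (u : (ι → E) → ℝ),
  Sys C p β θ → CU u → Scat φ → TF y → Dua φ y p.l C Y g₄ → KF C p φ τ y Y →
  B2 p β θ Y u ≤ C₁ * (AA p θ u 4 + E44 p θ u)

/-! ## the quadratic terms -/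

/-- the square of `aF` -/
def Stmt_QK1 : Prop := ∀ C : ℝ, ∃ C₁ : ℝ, 0 < C₁ ∧ ∀ (ι : Type) [Fintype ι] [DecidableEq ι] (p : Par)
  (β θ : E → E → ℝ) (φ τ g : E × E → ℝ) (y : W4 → ℝ) (Y : Fin 4 → Fin 3 → W4 → ℝ) (u : (ι → E) → ℝ),
  Sys C p β θ → CU u → Scat φ → Tri C p.R φ τ g → KF C p φ τ y Y →
  |IO p (fun X => ∑ i, ∑ c, aF p β θ τ u i c X ^ 2) -
    (IO p (fun X => 1 / 6 * ∑ e ∈ Ij 3 ι, hS p β θ u (im e) X ^ 2 * gsq τ (rt (X ∘ e))) +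
     IO p (fun X => ∑ e ∈ Ij 4 ι, hS p β θ u (im (s2 e)) X * (hS p β θ u (im (s3 e)) X *
      ∑ c, dv (dr 0 c) τ (rt (X ∘ s2 e)) * dv (dr 0 c) τ (rt (X ∘ s3 e)))))| ≤ C₁ * E33 p θ u

/-- the product of `aF` and `bF` -/
def Stmt_QK2 : Prop := ∀ C : ℝ, ∃ C₁ : ℝ, 0 < C₁ ∧ ∀ (ι : Type) [Fintype ι] [DecidableEq ι] (p : Par)
  (β θ : E → E → ℝ) (φ τ g : E × E → ℝ) (y : W4 → ℝ) (Y : Fin 4 → Fin 3 → W4 → ℝ) (g₄ : W4 → ℝ)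
  (u : (ι → E) → ℝ), Sys C p β θ → CU u → Scat φ → Tri C p.R φ τ g → TF y → Dua φ y p.l C Y g₄ →
  KF C p φ τ y Y →
  |IO p (fun X => ∑ i, ∑ c, aF p β θ τ u i c X * bF p β θ Y u i c X) -
    IO p (fun X => 1 / 2 * ∑ e ∈ Ij 4 ι, hS p β θ u (im (s2 e)) X * (hS p β θ u (im e) X *
      ∑ c, dv (dr 0 c) τ (rt (X ∘ s2 e)) * Y 0 c (rl (X ∘ e))))| ≤ C₁ * E34 p θ u

/-- the square of `bF` -/
def Stmt_QK3 : Prop := ∀ C : ℝ, ∃ C₁ : ℝ, 0 < C₁ ∧ ∀ (ι : Type) [Fintype ι] [DecidableEq ι] (p : Par)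
  (β θ : E → E → ℝ) (φ τ : E × E → ℝ) (y : W4 → ℝ) (Y : Fin 4 → Fin 3 → W4 → ℝ) (g₄ : W4 → ℝ)
  (u : (ι → E) → ℝ), Sys C p β θ → CU u → Scat φ → TF y → Dua φ y p.l C Y g₄ → KF C p φ τ y Y →
  |IO p (fun X => ∑ i, ∑ c, bF p β θ Y u i c X ^ 2) -
    IO p (fun X => 1 / 6 * ∑ e ∈ Ij 4 ι, hS p β θ u (im e) X ^ 2 * ∑ c, Y 0 c (rl (X ∘ e)) ^ 2)| ≤ C₁ * E44 p θ u

/-- the quadratic potential term -/
def Stmt_QV1 : Prop := ∀ (C : ℝ) (φ : E × E → ℝ) (y : W4 → ℝ), Scat φ → TF y → ∃ C₁ : ℝ, 0 < C₁ ∧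
  ∀ (ι : Type) [Fintype ι] [DecidableEq ι] (p : Par) (β θ : E → E → ℝ) (u : (ι → E) → ℝ), C₁ ≤ p.l →
  Sys C p β θ → CU u →
  |QV p β θ φ y u -
    (IO p (fun X => 1 / 6 * ∑ e ∈ Ij 3 ι, hS p β θ u (im e) X ^ 2 * (ww φ (rt (X ∘ e)) * (1 - φ (rt (X ∘ e))))) +
     IO p (fun X => 1 / 3 * ∑ e ∈ Ij 4 ι, hS p β θ u (im (s2 e)) X * (hS p β θ u (im e) X *
      (ww φ (rt (X ∘ s2 e)) * y (rl (X ∘ e))))) +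
     IO p (fun X => 1 / 6 * ∑ e ∈ Ij 4 ι, hS p β θ u (im e) X ^ 2 *
      (VV φ (rt (X ∘ s2 e)).1 (rt (X ∘ s2 e)).2 * y (rl (X ∘ e)) ^ 2)))| ≤ C₁ * (p.M / p.l ^ 3 * AA p θ u 4)

/-- exact integration over a cluster -/
def Stmt_CLE : Prop := ∀ (C : ℝ) (m : ℕ) (ι : Type) [Fintype ι] [DecidableEq ι] (p : Par) (β θ : E → E → ℝ)
  (K : (Fin (m + 1) → E) → ℝ) (F : (ι → E) → ℝ), Sys C p β θ → BM K →
  (∀ x, K x ≠ 0 → ∀ s c, |x s c - x 0 c| ≤ p.l) → (∀ (x : Fin (m + 1) → E) (v : E), K (fun s => x s + v) = K x) →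
  BM F → ∀ a ∈ p.Gr, ∀ e ∈ Ij (m + 1) ι, IndS (im e) F →
  IO p (fun X => β a (cen (im e) X) * (K (X ∘ e) * F X)) =
    p.l ^ 3 * (∫ z : Fin m → E, K (Fin.cons 0 z)) * IA p θ a (im e) F

/-- relative coordinates -/
def Stmt_CLI : Prop := (∀ (G : E × E → ℝ) (x₀ : E), ∫ z : Fin 2 → E, G (rt (Fin.cons x₀ z)) = ∫ q, G q) ∧
  (∀ (G : W4 → ℝ) (x₀ : E) (σ : Equiv.Perm (Fin 4)),
    ∫ z : Fin 3 → E, G (rl ((Fin.cons x₀ z : Fin 4 → E) ∘ σ)) = ∫ q, G q)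

/-- integration over a cluster with the first particle in a cube -/
def Stmt_CLY : Prop := ∀ (C : ℝ) (m : ℕ) (ι : Type) [Fintype ι] [DecidableEq ι] (p : Par) (β θ : E → E → ℝ)
  (κ r r' : ℝ) (K : (Fin (m + 1) → E) → ℝ) (F : E → (ι → E) → ℝ), Sys C p β θ → Ck m r' κ K → r ≤ 10 * p.l →
  BM (fun q : E × (ι → E) => F q.1 q.2) → (∀ x X, 0 ≤ F x X) → ∀ a ∈ p.Gr, ∀ e ∈ Ij (m + 1) ι,
  (∀ x, IndS (im e) (F x)) →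
  IO p (fun X => ic (Qb a r) (X (e 0)) * (K (X ∘ e) * F (X (e 0)) X)) ≤
    κ * ∫ x in Qb a r, IA p θ a (im e) (F x)

/-- the diagonal terms of three particles -/
def Stmt_DIA : Prop := ∀ (C : ℝ) (ι : Type) [Fintype ι] [DecidableEq ι] (p : Par) (β θ : E → E → ℝ)
  (φ τ g : E × E → ℝ) (u : (ι → E) → ℝ), Sys C p β θ → CU u → Scat φ → (∀ z, ww φ z ≠ 0 → ‖z‖ ≤ p.l) →
  Tri C p.R φ τ g →
  IO p (fun X => 1 / 6 * ∑ e ∈ Ij 3 ι, hS p β θ u (im e) X ^ 2 * gsq τ (rt (X ∘ e))) +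
  IO p (fun X => 1 / 6 * ∑ e ∈ Ij 3 ι, hS p β θ u (im e) X ^ 2 * (ww φ (rt (X ∘ e)) * (1 - φ (rt (X ∘ e)))))
    ≤ (∫ z, ww φ z) / 6 * AA p θ u 3

/-- replacing the amplitude of three by the amplitude of four particles -/
def Stmt_REP : Prop := ∀ C : ℝ, ∃ C₁ : ℝ, 0 < C₁ ∧ ∀ (ι : Type) [Fintype ι] [DecidableEq ι] (p : Par)
  (β θ : E → E → ℝ) (u : (ι → E) → ℝ) (κ₀ κ₂ : ℝ) (K : W4 → ℝ), Sys C p β θ → CU u → BM K → (∀ q, 0 ≤ K q) →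
  (∀ q, K q ≠ 0 → ‖q‖ ≤ p.l) → ∫ q, K q ≤ κ₀ → ∫ q, K q * ‖q‖ ^ 2 ≤ κ₂ →
  IO p (fun X => ∑ e ∈ Ij 4 ι, K (rl (X ∘ e)) * (hS p β θ u (im (s2 e)) X - hS p β θ u (im e) X) ^ 2) ≤
    C₁ * (κ₀ * GG p θ u 3 / p.l + κ₂ * AA p θ u 4 / p.l ^ 2)

/-- the same for the particles 0, 1, 3 -/
def Stmt_RE2 : Prop := ∀ C : ℝ, ∃ C₁ : ℝ, 0 < C₁ ∧ ∀ (ι : Type) [Fintype ι] [DecidableEq ι] (p : Par)
  (β θ : E → E → ℝ) (u : (ι → E) → ℝ) (κ₀ κ₂ : ℝ) (K : W4 → ℝ), Sys C p β θ → CU u → BM K → (∀ q, 0 ≤ K q) →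
  (∀ q, K q ≠ 0 → ‖q‖ ≤ p.l) → ∫ q, K q ≤ κ₀ → ∫ q, K q * ‖q‖ ^ 2 ≤ κ₂ →
  IO p (fun X => ∑ e ∈ Ij 4 ι, K (rl (X ∘ e)) * (hS p β θ u (im (s3 e)) X - hS p β θ u (im e) X) ^ 2) ≤
    C₁ * (κ₀ * GG p θ u 3 / p.l + κ₂ * AA p θ u 4 / p.l ^ 2)

/-- the four-body terms with equal amplitudes -/
def Stmt_R4A : Prop := ∀ C : ℝ, ∃ C₁ : ℝ, 0 < C₁ ∧ ∀ (ι : Type) [Fintype ι] [DecidableEq ι] (p : Par)
  (β θ : E → E → ℝ) (φ τ g : E × E → ℝ) (y : W4 → ℝ) (Y : Fin 4 → Fin 3 → W4 → ℝ) (g₄ : W4 → ℝ)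
  (u : (ι → E) → ℝ), Sys C p β θ → CU u → Scat φ → Tri C p.R φ τ g → TF y → Dua φ y p.l C Y g₄ →
  KF C p φ τ y Y →
  |IO p (fun X => ∑ e ∈ Ij 4 ι, hS p β θ u (im (s2 e)) X * (hS p β θ u (im (s3 e)) X *
      ∑ c, dv (dr 0 c) τ (rt (X ∘ s2 e)) * dv (dr 0 c) τ (rt (X ∘ s3 e)))) -
    2 * IO p (fun X => 1 / 2 * ∑ e ∈ Ij 4 ι, hS p β θ u (im (s2 e)) X * (hS p β θ u (im e) X *
      ∑ c, dv (dr 0 c) τ (rt (X ∘ s2 e)) * Y 0 c (rl (X ∘ e)))) +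
    IO p (fun X => 1 / 6 * ∑ e ∈ Ij 4 ι, hS p β θ u (im e) X ^ 2 * ∑ c, Y 0 c (rl (X ∘ e)) ^ 2) +
    IO p (fun X => 1 / 3 * ∑ e ∈ Ij 4 ι, hS p β θ u (im (s2 e)) X * (hS p β θ u (im e) X *
      (ww φ (rt (X ∘ s2 e)) * y (rl (X ∘ e))))) +
    IO p (fun X => 1 / 6 * ∑ e ∈ Ij 4 ι, hS p β θ u (im e) X ^ 2 *
      (VV φ (rt (X ∘ s2 e)).1 (rt (X ∘ s2 e)).2 * y (rl (X ∘ e)) ^ 2)) -
    IO p (fun X => ∑ e ∈ Ij 4 ι, k4 φ τ y Y (rl (X ∘ e)) * hS p β θ u (im e) X ^ 2)| ≤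
  C₁ * (Real.sqrt (AA p θ u 4 * D4 p θ u) + D4 p θ u)

/-! ## comparison of neighbouring cubes -/

/-- telescoping on cubes -/
def Stmt_TLU : Prop := ∀ (C : ℝ) (m : ℕ), ∃ C₁ : ℝ, 0 < C₁ ∧ ∀ (ι : Type) [Fintype ι] [DecidableEq ι] (p : Par)
  (β θ : E → E → ℝ) (u w : (ι → E) → ℝ) (S : Finset ι), Sys C p β θ → ∀ a ∈ p.Gr, S.card = m → BM u → BM w →
  (∀ X, 0 ≤ w X) → IndS S w →
  IO p (fun X => (∏ i ∈ S, ic (Qb a (4 * p.l)) (X i)) * (w X * (u X - Av (tm (θ a)) S u X) ^ 2)) ≤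
    C₁ * ∑ k ∈ S, IO p (fun X => (∏ i ∈ S, ic (Qb a (4 * p.l)) (X i)) *
      (w X * (u X - Av (tm (θ a)) {k} u X) ^ 2))

/-- counting, with indicators of cubes -/
def Stmt_CTI : Prop := ∀ (C : ℝ) (m : ℕ) (ι : Type) [Fintype ι] [DecidableEq ι] (p : Par) (β θ : E → E → ℝ),
  Sys C p β θ → ∀ (a : E) (r : ℝ) (X : ι → E) (f : ι → ℝ), r ≤ 10 * p.l → (∀ i, 0 ≤ f i) →
    ∑ e ∈ Ij (m + 1) ι, (∏ i ∈ im e, ic (Qb a r) (X i)) * (vt p a (im e) X * ∑ i ∈ im e, f i) ≤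
      ((m : ℝ) + 1) * p.M ^ m * ∑ i, ic (Qb a r) (X i) * (vt p a {i} X * f i)

/-- sums over tuples -/
def Stmt_TLW : Prop := ∀ (C : ℝ) (m : ℕ), ∃ C₁ : ℝ, 0 < C₁ ∧ ∀ (ι : Type) [Fintype ι] [DecidableEq ι] (p : Par)
  (β θ : E → E → ℝ) (u : (ι → E) → ℝ), Sys C p β θ → BM u → ∀ a ∈ p.Gr,
  ∑ e ∈ Ij (m + 1) ι, IO p (fun X => (∏ i ∈ im e, ic (Qb a (4 * p.l)) (X i)) *
    (vt p a (im e) X * (u X - Av (tm (θ a)) (im e) u X) ^ 2)) ≤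
  C₁ * p.M ^ m * ∑ i, IO p (fun X => vt p a {i} X * ic (Qb a (4 * p.l)) (X i) *
    (u X - Av (tm (θ a)) {i} u X) ^ 2)

open Classical in
/-- averages on neighbouring cubes -/
def Stmt_AQD : Prop := ∀ C : ℝ, ∃ C₁ : ℝ, 0 < C₁ ∧ ∀ (ι : Type) [Fintype ι] [DecidableEq ι] (p : Par)
  (β θ : E → E → ℝ) (u : (ι → E) → ℝ), Sys C p β θ → BM u →
  p.l ^ 3 * ∑ a ∈ p.Gr, ∑ a' ∈ p.Gr.filter (fun a' => ∀ c, |a' c - a c| ≤ 2 * p.l), ∑ e ∈ Ij 4 ι,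
    IA p θ a (im e) (fun X => vt p a (im e) X * (vt p a' (im e) X *
      (Av (tm (θ a)) (im e) u X - Av (tm (θ a')) (im e) u X) ^ 2)) ≤
  C₁ * ((p.M / p.l ^ 3) ^ 3 * RW p θ u)

/-- the sums `∑ K h²` -/
def Stmt_HQ2 : Prop := ∀ C : ℝ, ∃ C₁ : ℝ, 0 < C₁ ∧ ∀ (ι : Type) [Fintype ι] [DecidableEq ι] (p : Par)
  (β θ : E → E → ℝ) (u : (ι → E) → ℝ) (K : W4 → ℝ), Sys C p β θ → BM u → BM K → (∀ q, K q ≠ 0 → ‖q‖ ≤ p.l) →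
  |IO p (fun X => ∑ e ∈ Ij 4 ι, K (rl (X ∘ e)) * hS p β θ u (im e) X ^ 2) - (∫ q, K q) * AA p θ u 4| ≤
    C₁ * (∫ q, |K q|) * ((p.M / p.l ^ 3) ^ 3 * RW p θ u + PZ p θ u)

/-- the linear term of four particles -/
def Stmt_LI4 : Prop := ∀ C : ℝ, ∃ C₁ : ℝ, 0 < C₁ ∧ ∀ (ι : Type) [Fintype ι] [DecidableEq ι] (p : Par)
  (β θ : E → E → ℝ) (u : (ι → E) → ℝ) (g : W4 → ℝ), Sys C p β θ → BM u → BM g → (∀ q, g q ≠ 0 → ‖q‖ ≤ p.l) →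
  (∀ q, p.l ^ 9 * |g q| ≤ C) →
  |L4 p β θ g u - 1 / 12 * (∫ q, g q) * AA p θ u 4| ≤
    C₁ * Real.sqrt (AA p θ u 4 * ((p.M / p.l ^ 3) ^ 3 * RW p θ u))

/-! ## the main bound -/

/-- the data -/
structure Dat (C : ℝ) (φ : E × E → ℝ) (y : W4 → ℝ) (p : Par) (β θ : E → E → ℝ) (P : E → E → E → E → ℝ)
    (τ g : E × E → ℝ) (Y : Fin 4 → Fin 3 → W4 → ℝ) (g₄ : W4 → ℝ) : Prop where
  sys : Sys C p β θ
  tri : Tri C p.R φ τ g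
  trp : Trp C (∫ z, ww φ z) p β θ g P
  dua : Dua φ y p.l C Y g₄
  kf : KF C p φ τ y Y
  cst : |2 * (∫ q, g₄ q) - 24 * (∫ q, k4 φ τ y Y q) - bet φ y Y g₄| ≤ C / p.R

/-- existence of the data -/
def Stmt_DTX : Prop := ∀ (φ : E × E → ℝ) (y : W4 → ℝ) (B C₀ r₀ : ℝ), Scat φ → 0 < ∫ z, ww φ z → TF y → Sym3 y →
  (∀ l, r₀ ≤ l → ∃ (Y : Fin 4 → Fin 3 → W4 → ℝ) (g : W4 → ℝ), Dua φ y l C₀ Y g ∧ B ≤ bet φ y Y g) →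
  ∃ C r₁ : ℝ, 0 < C ∧ 1 ≤ r₁ ∧ ∀ (Mc : ℕ) (l R M : ℝ), r₁ ≤ R → R ≤ l → 4 ≤ M →
  ∃ (β θ : E → E → ℝ) (P : E → E → E → E → ℝ) (τ g : E × E → ℝ) (Y : Fin 4 → Fin 3 → W4 → ℝ) (g₄ : W4 → ℝ),
    Dat C φ y (gpar Mc l R M) β θ P τ g Y g₄ ∧ B ≤ bet φ y Y g₄ ∧
    ∀ k : Fin 3 → Fin Mc, (∀ c, 14 ≤ (k c : ℕ) ∧ (k c : ℕ) + 14 ≤ Mc) → ∀ x ∈ cub l (crn l Mc k),
      l ^ 3 * ∑ a ∈ (gpar Mc l R M).Gr, θ a x = 1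

/-- the main bound -/
def Stmt_MNB : Prop := ∀ (C : ℝ) (φ : E × E → ℝ) (y : W4 → ℝ), Scat φ → 0 < ∫ z, ww φ z → TF y → Sym3 y →
  ∃ C₁ : ℝ, 0 < C₁ ∧ ∀ (ι : Type) [Fintype ι] [DecidableEq ι] (p : Par) (β θ : E → E → ℝ)
  (P : E → E → E → E → ℝ) (τ g : E × E → ℝ) (Y : Fin 4 → Fin 3 → W4 → ℝ) (g₄ : W4 → ℝ) (u : (ι → E) → ℝ),
  Dat C φ y p β θ P τ g Y g₄ → CU u → C₁ ≤ p.l →
  XX p β θ τ Y u + VX p β θ φ y u + (∫ z, ww φ z) / 6 * AA p θ u 3 + bet φ y Y g₄ / 24 * AA p θ u 4 ≤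
    EN p (VV φ) u + C₁ * Er p θ u ∧
  RW p θ u ≤ C₁ * (p.l ^ 2 * XX p β θ τ Y u + p.l ^ 2 * (AA p θ u 4 + E44 p θ u) + AA p θ u 3
    + p.R ^ 2 * (p.M / p.l ^ 3) * AA p θ u 3
    + p.R ^ 2 * ((p.R * (p.M / p.l ^ 3)) ^ 2 * AA p θ u 3 + p.R * (p.M / p.l ^ 3) * GG p θ u 3))

end Pool.Agent.TBS
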