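import Pool.Agent.TBS.StmtsB

/-!
# Three-body Bose gases (MP_80dc41_mp), sharp lower bound: module AQD (averages on neighbouring cubes)
-/

set_option autoImplicit false

open MeasureTheory Filter Topology
open scoped ContDiff

namespace Pool.Agent.TBS

open Pool.Agent.TBG Pool.Agent.TBL Pool.Agent.TBF

namespace AQD_

variable {ι : Type} [Fintype ι] [DecidableEq ι]

theorem ic_nn (Q : Set E) (x : E) : 0 ≤ ic Q x := by
  unfold ic
  exact Set.indicator_nonneg (fun _ _ => zero_le_one) x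

theorem ic_le (Q : Set E) (x : E) : ic Q x ≤ 1 := by
  unfold ic
  by_cases h : x ∈ Q
  · rw [Set.indicator_of_mem h]
  · rw [Set.indicator_of_notMem h]
    exact zero_le_one

theorem ic_mono {Q Q' : Set E} (h : Q ⊆ Q') (x : E) : ic Q x ≤ ic Q' x := by
  unfold ic
  exact Set.indicator_le_indicator_of_subset h (fun _ => zero_le_one) x

theorem ic_bm {Q : Set E} (hQ : MeasurableSet Q) : BM (ic Q) :=
  ⟨measurable_const.indicator hQ, 1, fun x => by
    rw [abs_of_nonneg (ic_nn Q x)]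
    exact ic_le Q x⟩

theorem prod_bm (hB : Pool.Agent.TBL.Stmt_BMC) {f : E → ℝ} (hf : BM f) (S : Finset ι) :
    BM (fun X : ι → E => ∏ i ∈ S, f (X i)) := by
  obtain ⟨hB1, hB2, -, hB4, -⟩ := hB
  induction S using Finset.induction_on with
  | empty =>
    simp only [Finset.prod_empty]
    exact hB2 _ 1
  | insert i S hi ih =>
    have h1 := (hB1 _ _ _ (hB4 E (ι → E) f (fun X => X i) hf (measurable_pi_apply i)) ih).2.2.1
    have e : (fun X : ι → E => ∏ j ∈ insert i S, f (X j)) = fun X => f (X i) * ∏ j ∈ S, f (X j) := by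
      funext X
      rw [Finset.prod_insert hi]
    rw [e]
    exact h1

/-- the integral is monotone -/
theorem IO_mono (hB : Pool.Agent.TBL.Stmt_BMC) {p : Par} (hfin : IsFiniteMeasure (mO p.L))
    {F G : (ι → E) → ℝ} (hF : BM F) (hG : BM G) (h : ∀ X, F X ≤ G X) : IO p F ≤ IO p G := by
  obtain ⟨hB1, -⟩ := hB
  have hf : IsFiniteMeasure (PiS (mO p.L) (mO p.L) (∅ : Finset ι)) := by
    unfold PiS
    have : ∀ i : ι, IsFiniteMeasure (if i ∈ (∅ : Finset ι) then mO p.L else mO p.L) := fun i => by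
      split_ifs <;> exact hfin
    infer_instance
  unfold IO
  exact integral_mono ((hB1 _ _ _ hF hF).2.2.2.2.2.2 _) ((hB1 _ _ _ hG hG).2.2.2.2.2.2 _) h

theorem IO_add (hB : Pool.Agent.TBL.Stmt_BMC) {p : Par} (hfin : IsFiniteMeasure (mO p.L))
    {F G : (ι → E) → ℝ} (hF : BM F) (hG : BM G) : IO p (fun X => F X + G X) = IO p F + IO p G := by
  obtain ⟨hB1, -⟩ := hB
  have hf : IsFiniteMeasure (PiS (mO p.L) (mO p.L) (∅ : Finset ι)) := by
    unfold PiS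
    have : ∀ i : ι, IsFiniteMeasure (if i ∈ (∅ : Finset ι) then mO p.L else mO p.L) := fun i => by
      split_ifs <;> exact hfin
    infer_instance
  unfold IO
  exact integral_add ((hB1 _ _ _ hF hF).2.2.2.2.2.2 _) ((hB1 _ _ _ hG hG).2.2.2.2.2.2 _)

theorem IO_smul {p : Par} (c : ℝ) (F : (ι → E) → ℝ) : IO p (fun X => c * F X) = c * IO p F := by
  unfold IO
  exact integral_const_mul _ _

/-- the term of the tuple `S` at the grid point `a` -/
noncomputable def T (p : Par) (θ : E → E → ℝ) (u : (ι → E) → ℝ) (a : E) (S : Finset ι) : ℝ :=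
  IO p (fun X => (∏ i ∈ S, ic (Qb a (4 * p.l)) (X i)) *
    (vt p a S X * (u X - Av (tm (θ a)) S u X) ^ 2))

/-- the roughness at `a` -/
noncomputable def ro (p : Par) (θ : E → E → ℝ) (u : (ι → E) → ℝ) (a : E) : ℝ :=
  ∑ i, IO p (fun X => vt p a {i} X * ic (Qb a (4 * p.l)) (X i) *
    (u X - Av (tm (θ a)) {i} u X) ^ 2)

theorem term (hB : Pool.Agent.TBL.Stmt_BMC) (hMSY : Stmt_MSY) (hAVP : Stmt_AVP) (hDNS : Stmt_DNS)
    (hVTP : Stmt_VTP) {C : ℝ} {p : Par} {β θ : E → E → ℝ} {u : (ι → E) → ℝ} (hS : Sys C p β θ)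
    (hu : BM u) (hC : 0 ≤ C) {a a' : E} (ha : a ∈ p.Gr) (haa : ∀ c, |a' c - a c| ≤ 2 * p.l) (S : Finset ι) :
    IA p θ a S (fun X => vt p a S X * (vt p a' S X *
      (Av (tm (θ a)) S u X - Av (tm (θ a')) S u X) ^ 2)) ≤
    (C / p.l ^ 3) ^ S.card * (2 * T p θ u a S + 2 * T p θ u a' S) := by
  obtain ⟨hl1, hfin, -, -, hQ, -, hprob, -, -, -, -, -⟩ := hMSY C p β θ hS
  have hl0 : 0 < p.l := lt_of_lt_of_le one_pos hl1
  have hpa := hprob a
  have hpa' := hprob a'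
  have hB0 := hB
  obtain ⟨hB1, hB2, -, hB4, -⟩ := hB
  have hA := (hAVP ι (tm (θ a)) S S u u hu hu).1
  have hA' := (hAVP ι (tm (θ a')) S S u u hu hu).1
  obtain ⟨hv, -, hv1, -⟩ := hVTP ι C p β θ hS a S
  obtain ⟨hv', -, hv1', -⟩ := hVTP ι C p β θ hS a' S
  have hD : BM (fun X => (u X - Av (tm (θ a)) S u X) ^ 2) := by
    have h1 := (hB1 _ _ _ hu hA).2.1
    exact (hB1 _ _ _ h1 h1).2.2.2.1
  have hD' : BM (fun X => (u X - Av (tm (θ a')) S u X) ^ 2) := by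
    have h1 := (hB1 _ _ _ hu hA').2.1
    exact (hB1 _ _ _ h1 h1).2.2.2.1
  have hG : BM (fun X => vt p a S X * (vt p a' S X *
      (Av (tm (θ a)) S u X - Av (tm (θ a')) S u X) ^ 2)) := by
    have h1 := (hB1 _ _ _ hA hA').2.1
    have h2 := (hB1 _ _ _ h1 h1).2.2.2.1
    exact (hB1 _ _ _ hv (hB1 _ _ _ hv' h2).2.2.1).2.2.1
  have hic : ∀ b : E, BM (fun X : ι → E => ∏ i ∈ S, ic (Qb b (4 * p.l)) (X i)) := fun b =>
    prod_bm hB0 (ic_bm (hQ b _).1) S
  have hθ : BM (θ a) := ⟨hS.θm a, C / p.l ^ 3, fun x => by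
    rw [abs_of_nonneg (hS.θ0 a x)]
    exact hS.θb a x⟩
  have hT : BM (fun X => (∏ i ∈ S, ic (Qb a (4 * p.l)) (X i)) *
      (vt p a S X * (u X - Av (tm (θ a)) S u X) ^ 2)) :=
    (hB1 _ _ _ (hic a) (hB1 _ _ _ hv hD).2.2.1).2.2.1
  have hT' : BM (fun X => (∏ i ∈ S, ic (Qb a' (4 * p.l)) (X i)) *
      (vt p a' S X * (u X - Av (tm (θ a')) S u X) ^ 2)) :=
    (hB1 _ _ _ (hic a') (hB1 _ _ _ hv' hD').2.2.1).2.2.1
  have h2T := (hB1 _ _ _ hT hT).2.2.2.2.2.1 2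
  have h2T' := (hB1 _ _ _ hT' hT').2.2.2.2.2.1 2
  have hsum := (hB1 _ _ _ h2T h2T').1
  rw [(hDNS ι C p β θ hS a ha S _ hG).2]
  have hpw : ∀ X : ι → E, (∏ i ∈ S, θ a (X i)) * (vt p a S X * (vt p a' S X *
      (Av (tm (θ a)) S u X - Av (tm (θ a')) S u X) ^ 2)) ≤
      (C / p.l ^ 3) ^ S.card * (2 * ((∏ i ∈ S, ic (Qb a (4 * p.l)) (X i)) *
        (vt p a S X * (u X - Av (tm (θ a)) S u X) ^ 2)) +
        2 * ((∏ i ∈ S, ic (Qb a' (4 * p.l)) (X i)) *
        (vt p a' S X * (u X - Av (tm (θ a')) S u X) ^ 2))) := by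
    intro X
    have hK : 0 ≤ C / p.l ^ 3 := by positivity
    have h1 : ∏ i ∈ S, θ a (X i) ≤ (C / p.l ^ 3) ^ S.card * ∏ i ∈ S, ic (Qb a (2 * p.l)) (X i) := by
      rw [← Finset.prod_const, ← Finset.prod_mul_distrib]
      refine Finset.prod_le_prod (fun i _ => hS.θ0 a (X i)) fun i _ => ?_
      by_cases h0 : θ a (X i) = 0
      · rw [h0]
        exact mul_nonneg hK (ic_nn _ _)
      · have h2 := hS.θsp a (X i) h0
        have h3 : ic (Qb a (2 * p.l)) (X i) = 1 := by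
          unfold ic
          rw [Set.indicator_of_mem h2]
        rw [h3, mul_one]
        exact hS.θb a (X i)
    have h2 : ∏ i ∈ S, ic (Qb a (2 * p.l)) (X i) ≤ ∏ i ∈ S, ic (Qb a (4 * p.l)) (X i) := by
      refine Finset.prod_le_prod (fun i _ => ic_nn _ _) fun i _ => ic_mono ?_ _
      intro x hx c
      have := hx c
      linarith
    have h3 : ∏ i ∈ S, ic (Qb a (2 * p.l)) (X i) ≤ ∏ i ∈ S, ic (Qb a' (4 * p.l)) (X i) := by
      refine Finset.prod_le_prod (fun i _ => ic_nn _ _) fun i _ => ic_mono ?_ _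
      intro x hx c
      have e1 := hx c
      have e2 := haa c
      have e3 : |x c - a' c| ≤ |x c - a c| + |a' c - a c| := by
        rw [abs_sub_comm (a' c) (a c)]
        exact abs_sub_le _ _ _
      linarith
    have hP0 : 0 ≤ ∏ i ∈ S, ic (Qb a (2 * p.l)) (X i) := Finset.prod_nonneg fun i _ => ic_nn _ _
    have hv01 : vt p a S X = 0 ∨ vt p a S X = 1 := (hv1 X).1
    have hv01' : vt p a' S X = 0 ∨ vt p a' S X = 1 := (hv1' X).1
    have hGX : 0 ≤ vt p a S X * (vt p a' S X *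
        (Av (tm (θ a)) S u X - Av (tm (θ a')) S u X) ^ 2) := by
      refine mul_nonneg ?_ (mul_nonneg ?_ (sq_nonneg _))
      · rcases hv01 with h | h <;> rw [h]
        exact zero_le_one
      · rcases hv01' with h | h <;> rw [h]
        exact zero_le_one
    have h4 : vt p a S X * (vt p a' S X * (Av (tm (θ a)) S u X - Av (tm (θ a')) S u X) ^ 2) ≤
        2 * (vt p a S X * (u X - Av (tm (θ a)) S u X) ^ 2) +
        2 * (vt p a' S X * (u X - Av (tm (θ a')) S u X) ^ 2) := by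
      have h5 : (Av (tm (θ a)) S u X - Av (tm (θ a')) S u X) ^ 2 ≤
          2 * (u X - Av (tm (θ a)) S u X) ^ 2 + 2 * (u X - Av (tm (θ a')) S u X) ^ 2 := by
        nlinarith [sq_nonneg ((u X - Av (tm (θ a)) S u X) + (u X - Av (tm (θ a')) S u X))]
      have s1 := sq_nonneg (u X - Av (tm (θ a)) S u X)
      have s2 := sq_nonneg (u X - Av (tm (θ a')) S u X)
      rcases hv01 with h | h <;> rcases hv01' with h' | h' <;> rw [h, h'] <;> nlinarith
    have t1 : 0 ≤ 2 * (vt p a S X * (u X - Av (tm (θ a)) S u X) ^ 2) := by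
      rcases hv01 with h | h <;> rw [h] <;> nlinarith [sq_nonneg (u X - Av (tm (θ a)) S u X)]
    have t2 : 0 ≤ 2 * (vt p a' S X * (u X - Av (tm (θ a')) S u X) ^ 2) := by
      rcases hv01' with h | h <;> rw [h] <;> nlinarith [sq_nonneg (u X - Av (tm (θ a')) S u X)]
    have hKc : 0 ≤ (C / p.l ^ 3) ^ S.card := pow_nonneg hK _
    calc (∏ i ∈ S, θ a (X i)) * (vt p a S X * (vt p a' S X *
          (Av (tm (θ a)) S u X - Av (tm (θ a')) S u X) ^ 2))
        ≤ ((C / p.l ^ 3) ^ S.card * ∏ i ∈ S, ic (Qb a (2 * p.l)) (X i)) *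
          (2 * (vt p a S X * (u X - Av (tm (θ a)) S u X) ^ 2) +
          2 * (vt p a' S X * (u X - Av (tm (θ a')) S u X) ^ 2)) :=
          mul_le_mul h1 h4 hGX (mul_nonneg hKc hP0)
      _ = (C / p.l ^ 3) ^ S.card * ((∏ i ∈ S, ic (Qb a (2 * p.l)) (X i)) *
          (2 * (vt p a S X * (u X - Av (tm (θ a)) S u X) ^ 2)) +
          (∏ i ∈ S, ic (Qb a (2 * p.l)) (X i)) *
          (2 * (vt p a' S X * (u X - Av (tm (θ a')) S u X) ^ 2))) := by ring
      _ ≤ (C / p.l ^ 3) ^ S.card * ((∏ i ∈ S, ic (Qb a (4 * p.l)) (X i)) *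
          (2 * (vt p a S X * (u X - Av (tm (θ a)) S u X) ^ 2)) +
          (∏ i ∈ S, ic (Qb a' (4 * p.l)) (X i)) *
          (2 * (vt p a' S X * (u X - Av (tm (θ a')) S u X) ^ 2))) :=
          mul_le_mul_of_nonneg_left (add_le_add (mul_le_mul_of_nonneg_right h2 t1)
            (mul_le_mul_of_nonneg_right h3 t2)) hKc
      _ = _ := by ring
  have hθp : BM (fun X : ι → E => ∏ i ∈ S, θ a (X i)) := prod_bm hB0 hθ S
  have hL := (hB1 _ _ _ hθp hG).2.2.1
  have hR := (hB1 _ _ _ hsum hsum).2.2.2.2.2.1 ((C / p.l ^ 3) ^ S.card)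
  refine (IO_mono hB0 hfin hL hR hpw).trans (le_of_eq ?_)
  rw [IO_smul, IO_add hB0 hfin h2T h2T', IO_smul, IO_smul]
  rfl

end AQD_

open AQD_ in
theorem aqd_proof (hBMC : Pool.Agent.TBL.Stmt_BMC) (hMSY : Stmt_MSY) (hAVP : Stmt_AVP)
    (hDNS : Stmt_DNS) (hVTP : Stmt_VTP) (hTUP : Stmt_TUP) (hTLW : Stmt_TLW) : Stmt_AQD := by
  intro C
  obtain ⟨C₁, hC₁, hW⟩ := hTLW C 3
  refine ⟨4 * |C| ^ 5 * C₁ + 1, by positivity, ?_⟩
  intro ι _ _ p β θ u hS hu
  obtain ⟨hl1, hfin, -⟩ := hMSY C p β θ hS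
  have hl0 : 0 < p.l := lt_of_lt_of_le one_pos hl1
  have hM0 : 0 < p.M := lt_of_lt_of_le (by norm_num) hS.hM
  have hC : 0 ≤ C := by
    have := hS.mul 0
    exact (Nat.cast_nonneg _).trans this
  rw [abs_of_nonneg hC]
  -- the roughness
  have hro0 : ∀ a, 0 ≤ ro p θ u a := by
    intro a
    unfold ro
    refine Finset.sum_nonneg fun i _ => ?_
    unfold IO
    refine integral_nonneg fun X => ?_
    have hv01 : vt p a {i} X = 0 ∨ vt p a {i} X = 1 :=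
      ((hVTP ι C p β θ hS a {i}).2.2.1 X).1
    refine mul_nonneg (mul_nonneg ?_ (ic_nn _ _)) (sq_nonneg _)
    rcases hv01 with h | h <;> rw [h]
    exact zero_le_one
  have hRW : ∑ a ∈ p.Gr, ro p θ u a = RW p θ u := rfl
  have hTr : ∀ a ∈ p.Gr, ∑ e ∈ Ij 4 ι, T p θ u a (im e) ≤ C₁ * p.M ^ 3 * ro p θ u a := fun a ha =>
    hW ι p β θ u hS hu a ha
  have hcard : ∀ e ∈ Ij 4 ι, (im e).card = 4 := fun e he => (hTUP ι).2.2.2.2.2.1 4 e he
  -- neighbours
  have hnear : ∀ a : E, (((p.Gr.filter (fun a' => ∀ c, |a' c - a c| ≤ 2 * p.l)).card : ℕ) : ℝ) ≤ C := by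
    intro a
    refine le_trans (Nat.cast_le.2 (Finset.card_le_card fun a' ha' => ?_)) (hS.mul a)
    rw [Finset.mem_filter] at ha' ⊢
    refine ⟨ha'.1, fun c => ?_⟩
    have h1 := ha'.2 c
    rw [abs_sub_comm] at h1
    linarith
  have hK : 0 ≤ (C / p.l ^ 3) ^ 4 := by positivity
  have hpair : ∀ a ∈ p.Gr, ∀ a' ∈ p.Gr.filter (fun a' => ∀ c, |a' c - a c| ≤ 2 * p.l),
      ∑ e ∈ Ij 4 ι, IA p θ a (im e) (fun X => vt p a (im e) X * (vt p a' (im e) X *
      (Av (tm (θ a)) (im e) u X - Av (tm (θ a')) (im e) u X) ^ 2)) ≤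
      (C / p.l ^ 3) ^ 4 * (2 * (C₁ * p.M ^ 3 * ro p θ u a) + 2 * (C₁ * p.M ^ 3 * ro p θ u a')) := by
    intro a ha a' ha'
    rw [Finset.mem_filter] at ha'
    calc ∑ e ∈ Ij 4 ι, IA p θ a (im e) (fun X => vt p a (im e) X * (vt p a' (im e) X *
          (Av (tm (θ a)) (im e) u X - Av (tm (θ a')) (im e) u X) ^ 2))
        ≤ ∑ e ∈ Ij 4 ι, (C / p.l ^ 3) ^ 4 * (2 * T p θ u a (im e) + 2 * T p θ u a' (im e)) := by
          refine Finset.sum_le_sum fun e he => ?_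
          have h1 := term hBMC hMSY hAVP hDNS hVTP hS hu hC ha ha'.2 (im e)
          rw [hcard e he] at h1
          exact h1
      _ = (C / p.l ^ 3) ^ 4 * (2 * (∑ e ∈ Ij 4 ι, T p θ u a (im e)) +
            2 * (∑ e ∈ Ij 4 ι, T p θ u a' (im e))) := by
          rw [← Finset.mul_sum, Finset.sum_add_distrib, ← Finset.mul_sum, ← Finset.mul_sum]
      _ ≤ _ := mul_le_mul_of_nonneg_left (add_le_add
            (mul_le_mul_of_nonneg_left (hTr a ha) (by norm_num))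
            (mul_le_mul_of_nonneg_left (hTr a' ha'.1) (by norm_num))) hK
  -- the sums over the pairs
  have hs1 : ∑ a ∈ p.Gr, ∑ a' ∈ p.Gr.filter (fun a' => ∀ c, |a' c - a c| ≤ 2 * p.l), ro p θ u a ≤
      C * RW p θ u := by
    rw [← hRW, Finset.mul_sum]
    refine Finset.sum_le_sum fun a _ => ?_
    rw [Finset.sum_const, nsmul_eq_mul]
    exact mul_le_mul_of_nonneg_right (hnear a) (hro0 a)
  have hs2 : ∑ a ∈ p.Gr, ∑ a' ∈ p.Gr.filter (fun a' => ∀ c, |a' c - a c| ≤ 2 * p.l), ro p θ u a' ≤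
      C * RW p θ u := by
    have e1 : ∑ a ∈ p.Gr, ∑ a' ∈ p.Gr.filter (fun a' => ∀ c, |a' c - a c| ≤ 2 * p.l), ro p θ u a' =
        ∑ a' ∈ p.Gr, ∑ a ∈ p.Gr.filter (fun a => ∀ c, |a c - a' c| ≤ 2 * p.l), ro p θ u a' := by
      refine Finset.sum_comm' fun a a' => ?_
      rw [Finset.mem_filter, Finset.mem_filter]
      constructor
      · rintro ⟨h1, h2, h3⟩
        exact ⟨⟨h1, fun c => by rw [abs_sub_comm]; exact h3 c⟩, h2⟩
      · rintro ⟨⟨h1, h3⟩, h2⟩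
        exact ⟨h1, h2, fun c => by rw [abs_sub_comm]; exact h3 c⟩
    rw [e1, ← hRW, Finset.mul_sum]
    refine Finset.sum_le_sum fun a' _ => ?_
    rw [Finset.sum_const, nsmul_eq_mul]
    exact mul_le_mul_of_nonneg_right (hnear a') (hro0 a')
  have hRW0 : 0 ≤ RW p θ u := by
    rw [← hRW]
    exact Finset.sum_nonneg fun a _ => hro0 a
  have hl3 : 0 ≤ p.l ^ 3 := by positivity
  calc p.l ^ 3 * ∑ a ∈ p.Gr, ∑ a' ∈ p.Gr.filter (fun a' => ∀ c, |a' c - a c| ≤ 2 * p.l), ∑ e ∈ Ij 4 ι,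
        IA p θ a (im e) (fun X => vt p a (im e) X * (vt p a' (im e) X *
        (Av (tm (θ a)) (im e) u X - Av (tm (θ a')) (im e) u X) ^ 2))
      ≤ p.l ^ 3 * ∑ a ∈ p.Gr, ∑ a' ∈ p.Gr.filter (fun a' => ∀ c, |a' c - a c| ≤ 2 * p.l),
        (C / p.l ^ 3) ^ 4 * (2 * (C₁ * p.M ^ 3 * ro p θ u a) + 2 * (C₁ * p.M ^ 3 * ro p θ u a')) :=
        mul_le_mul_of_nonneg_left (Finset.sum_le_sum fun a ha => Finset.sum_le_sum fun a' ha' =>
          hpair a ha a' ha') hl3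
    _ = p.l ^ 3 * ((C / p.l ^ 3) ^ 4 * (2 * (C₁ * p.M ^ 3)) *
        (∑ a ∈ p.Gr, ∑ a' ∈ p.Gr.filter (fun a' => ∀ c, |a' c - a c| ≤ 2 * p.l), ro p θ u a +
        ∑ a ∈ p.Gr, ∑ a' ∈ p.Gr.filter (fun a' => ∀ c, |a' c - a c| ≤ 2 * p.l), ro p θ u a')) := by
        congr 1
        rw [← Finset.sum_add_distrib, Finset.mul_sum]
        refine Finset.sum_congr rfl fun a _ => ?_
        rw [← Finset.sum_add_distrib, Finset.mul_sum]
        refine Finset.sum_congr rfl fun a' _ => ?_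
        ring
    _ ≤ p.l ^ 3 * ((C / p.l ^ 3) ^ 4 * (2 * (C₁ * p.M ^ 3)) * (C * RW p θ u + C * RW p θ u)) := by
        refine mul_le_mul_of_nonneg_left (mul_le_mul_of_nonneg_left (add_le_add hs1 hs2) ?_) hl3
        positivity
    _ = 4 * C ^ 5 * C₁ * ((p.M / p.l ^ 3) ^ 3 * RW p θ u) := by
        field_simp
        ring
    _ ≤ (4 * C ^ 5 * C₁ + 1) * ((p.M / p.l ^ 3) ^ 3 * RW p θ u) := by
        have : 0 ≤ (p.M / p.l ^ 3) ^ 3 * RW p θ u := by positivity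
        nlinarith

end Pool.Agent.TBS
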