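import Pool.Agent.TBS.StmtsC

/-!
Squad TBS, module AR1: arithmetic of the scales, cluster errors.
-/

set_option autoImplicit false

namespace Pool.Agent.TBS

namespace AR1_

lemma fin {s K C U a T : ℝ} (hs : 1 ≤ s) (hK : 0 < K) (hC : 0 < C) (hU : 0 ≤ U) (ha : 0 ≤ a)
    (j n m : ℕ) (hj : j ≤ 6) (hn : m ≤ n) (hT : T ≤ a * C * K ^ j * U / s ^ n) :
    T ≤ a * (C * (1 + K) ^ 6 * U / s ^ m) := by
  have h1 : K ^ j ≤ (1 + K) ^ 6 :=
    (pow_le_pow_left₀ hK.le (by linarith) j).trans (pow_le_pow_right₀ (by linarith) hj)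
  have h2 : s ^ m ≤ s ^ n := pow_le_pow_right₀ hs hn
  have h3 : 0 < s ^ m := by positivity
  calc T ≤ a * C * K ^ j * U / s ^ n := hT
    _ ≤ a * C * (1 + K) ^ 6 * U / s ^ m := by gcongr
    _ = a * (C * (1 + K) ^ 6 * U / s ^ m) := by ring

lemma sq2 {s a b c : ℝ} (p q : ℕ) (hs : 0 < s) (hc : 0 ≤ c) (ha : a ≤ c / s ^ (2 * p))
    (hb : b ≤ c / s ^ (2 * q)) : Real.sqrt a * Real.sqrt b ≤ c / s ^ (p + q) := by
  have h : ∀ r : ℕ, Real.sqrt (c / s ^ (2 * r)) = Real.sqrt c / s ^ r := by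
    intro r
    rw [Real.sqrt_div hc, mul_comm 2 r, pow_mul, Real.sqrt_sq (by positivity)]
  have h1 := (Real.sqrt_le_sqrt ha).trans_eq (h p)
  have h2 := (Real.sqrt_le_sqrt hb).trans_eq (h q)
  calc Real.sqrt a * Real.sqrt b ≤ (Real.sqrt c / s ^ p) * (Real.sqrt c / s ^ q) := by gcongr
    _ = (Real.sqrt c * Real.sqrt c) / (s ^ p * s ^ q) := by ring
    _ = c / s ^ (p + q) := by rw [Real.mul_self_sqrt hc, pow_add]

/-- the basic bounds -/
structure Bs (C K s l w μ A₃ A₄ G₃ G₄ U : ℝ) : Prop where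
  s0 : 0 < s
  l0 : 0 < l
  l1 : s ^ 136 ≤ l
  l2 : l ≤ 2 * s ^ 136
  w0 : 0 ≤ w
  w2 : w ≤ 2 * s ^ 46
  wl : w ^ 2 + l ^ 3 ≤ 12 * s ^ 408
  mu : μ = K / s ^ 200
  mu0 : 0 < μ
  a3 : A₃ ≤ C * K ^ 2 * U / s ^ 400
  a4 : A₄ ≤ C * K ^ 3 * U / s ^ 600
  g3 : G₃ ≤ 8 * C * K ^ 3 * U / s ^ 592
  g4 : G₄ ≤ 8 * C * K ^ 4 * U / s ^ 792
  sq : Real.sqrt (s ^ 94) = s ^ 47

lemma bs {C K s l w M A₃ A₄ G₃ G₄ U : ℝ} (hC : 0 < C) (hK : 0 < K)
    (h : Rgm C K s l w M A₃ A₄ G₃ G₄ U) : Bs C K s l w (M / l ^ 3) A₃ A₄ G₃ G₄ U := by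
  have hs1 := h.s1
  have hs : 0 < s := by linarith
  have hl : 0 < l := lt_of_lt_of_le (by positivity) h.l1
  have hU := h.U0
  have hmu : M / l ^ 3 = K / s ^ 200 := by
    rw [h.M0]
    field_simp
  have hl3 : l ^ 3 ≤ 8 * s ^ 408 := by
    calc l ^ 3 ≤ (2 * s ^ 136) ^ 3 := pow_le_pow_left₀ hl.le h.l2 3
      _ = 8 * s ^ 408 := by ring
  have hw2 : w ≤ 2 * s ^ 46 := by
    have h1 : w ^ 3 ≤ (2 * s ^ 46) ^ 3 := by
      rw [h.w3]
      have h2 : s ^ 136 ≤ s ^ 138 := pow_le_pow_right₀ hs1 (by norm_num)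
      have h3 : (2 * s ^ 46) ^ 3 = 8 * s ^ 138 := by ring
      have h4 : 0 < s ^ 138 := by positivity
      rw [h3]
      linarith [h.l2]
    exact le_of_pow_le_pow_left₀ (by norm_num) (by positivity) h1
  refine ⟨hs, hl, h.l1, h.l2, h.w0, hw2, ?_, hmu, by rw [hmu]; positivity, ?_, ?_, ?_, ?_, ?_⟩
  · have h1 : w ^ 2 ≤ (2 * s ^ 46) ^ 2 := pow_le_pow_left₀ h.w0 hw2 2
    have h2 : (2 * s ^ 46) ^ 2 = 4 * s ^ 92 := by ring
    have h3 : s ^ 92 ≤ s ^ 408 := pow_le_pow_right₀ hs1 (by norm_num)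
    rw [h2] at h1
    linarith
  · have h1 := h.a3
    rw [hmu] at h1
    refine h1.trans (le_of_eq ?_)
    field_simp
  · have h1 := h.a4
    rw [hmu] at h1
    refine h1.trans (le_of_eq ?_)
    field_simp
  · have h1 := h.g3
    rw [hmu] at h1
    calc G₃ ≤ C * (K / s ^ 200) ^ 3 * l ^ 3 * (U / s ^ 400) := h1
      _ ≤ C * (K / s ^ 200) ^ 3 * (8 * s ^ 408) * (U / s ^ 400) := by gcongr
      _ = 8 * C * K ^ 3 * U / s ^ 592 := by field_simp
  · have h1 := h.g4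
    rw [hmu] at h1
    calc G₄ ≤ C * (K / s ^ 200) ^ 4 * l ^ 3 * (U / s ^ 400) := h1
      _ ≤ C * (K / s ^ 200) ^ 4 * (8 * s ^ 408) * (U / s ^ 400) := by gcongr
      _ = 8 * C * K ^ 4 * U / s ^ 792 := by field_simp
  · rw [show s ^ 94 = (s ^ 47) ^ 2 by ring, Real.sqrt_sq (by positivity)]

end AR1_

open AR1_

theorem ar1_proof : Stmt_AR1 := by
  intro C K hC hK
  refine ⟨600 * (C * (1 + K) ^ 6) + K, by positivity, ?_⟩
  intro s l w M A₃ A₄ G₃ G₄ U hR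
  have hb := bs hC hK hR
  obtain ⟨hs0, hl0, hl1, hl2, hw0, hw2, hwl, hmu, hmu0, ha3, ha4, hg3, hg4, hsq⟩ := hb
  have hs1 := hR.s1
  have hU := hR.U0
  have pA3 := hR.a30
  have pA4 := hR.a40
  have pG3 := hR.g30
  have pG4 := hR.g40
  clear hR
  set μ := M / l ^ 3 with hμdef
  clear_value μ
  subst hmu
  have hQ : ∀ m : ℕ, 0 ≤ C * (1 + K) ^ 6 * U / s ^ m := fun m => by positivity
  have hfinal : ∀ m : ℕ, 600 * (C * (1 + K) ^ 6 * U / s ^ m) ≤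
      (600 * (C * (1 + K) ^ 6) + K) * U / s ^ m := by
    intro m
    have : 0 ≤ K * U / s ^ m := by positivity
    have e : (600 * (C * (1 + K) ^ 6) + K) * U / s ^ m =
        600 * (C * (1 + K) ^ 6 * U / s ^ m) + K * U / s ^ m := by ring
    rw [e]
    linarith
  -- the terms
  have t1 : s ^ 94 * ((s ^ 47 * (K / s ^ 200)) ^ 2 * A₃) ≤ 1 * C * K ^ 4 * U / s ^ 612 := by
    calc _ ≤ s ^ 94 * ((s ^ 47 * (K / s ^ 200)) ^ 2 * (C * K ^ 2 * U / s ^ 400)) := by gcongr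
      _ = _ := by field_simp
  have t2 : s ^ 94 * (s ^ 47 * (K / s ^ 200) * G₃) ≤ 8 * C * K ^ 4 * U / s ^ 651 := by
    calc _ ≤ s ^ 94 * (s ^ 47 * (K / s ^ 200) * (8 * C * K ^ 3 * U / s ^ 592)) := by gcongr
      _ = _ := by field_simp
  have t3 : s ^ 94 * ((w * (K / s ^ 200)) ^ 2 * A₃) ≤ 4 * C * K ^ 4 * U / s ^ 614 := by
    calc _ ≤ s ^ 94 * ((2 * s ^ 46 * (K / s ^ 200)) ^ 2 * (C * K ^ 2 * U / s ^ 400)) := by gcongr
      _ = _ := by field_simp; ring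
  have t4 : s ^ 94 * (w * (K / s ^ 200) * G₃) ≤ 16 * C * K ^ 4 * U / s ^ 652 := by
    calc _ ≤ s ^ 94 * (2 * s ^ 46 * (K / s ^ 200) * (8 * C * K ^ 3 * U / s ^ 592)) := by gcongr
      _ = _ := by field_simp; ring
  have t5 : l * (s ^ 47 * (K / s ^ 200) * A₄) ≤ 2 * C * K ^ 4 * U / s ^ 617 := by
    calc _ ≤ 2 * s ^ 136 * (s ^ 47 * (K / s ^ 200) * (C * K ^ 3 * U / s ^ 600)) := by gcongr
      _ = _ := by field_simp
  have t6 : s ^ 94 * ((w * (K / s ^ 200)) ^ 3 * A₃) ≤ 8 * C * K ^ 5 * U / s ^ 768 := by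
    calc _ ≤ s ^ 94 * ((2 * s ^ 46 * (K / s ^ 200)) ^ 3 * (C * K ^ 2 * U / s ^ 400)) := by gcongr
      _ = _ := by field_simp; ring
  have t7 : s ^ 94 * ((w ^ 2 + l ^ 3) * (K / s ^ 200) ^ 2 * G₃) ≤ 96 * C * K ^ 5 * U / s ^ 490 := by
    calc _ ≤ s ^ 94 * (12 * s ^ 408 * (K / s ^ 200) ^ 2 * (8 * C * K ^ 3 * U / s ^ 592)) := by gcongr
      _ = _ := by field_simp; ring
  have t8 : l * ((s ^ 47 * (K / s ^ 200)) ^ 2 * A₄) ≤ 2 * C * K ^ 5 * U / s ^ 770 := by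
    calc _ ≤ 2 * s ^ 136 * ((s ^ 47 * (K / s ^ 200)) ^ 2 * (C * K ^ 3 * U / s ^ 600)) := by gcongr
      _ = _ := by field_simp
  have t9 : l * (s ^ 47 * (K / s ^ 200) * G₄) ≤ 16 * C * K ^ 5 * U / s ^ 809 := by
    calc _ ≤ 2 * s ^ 136 * (s ^ 47 * (K / s ^ 200) * (8 * C * K ^ 4 * U / s ^ 792)) := by gcongr
      _ = _ := by field_simp; ring
  have t10 : l * (w * (K / s ^ 200) * A₄) ≤ 4 * C * K ^ 4 * U / s ^ 618 := by
    calc _ ≤ 2 * s ^ 136 * (2 * s ^ 46 * (K / s ^ 200) * (C * K ^ 3 * U / s ^ 600)) := by gcongr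
      _ = _ := by field_simp; ring
  have t11 : l * ((w * (K / s ^ 200)) ^ 2 * A₄) ≤ 8 * C * K ^ 5 * U / s ^ 772 := by
    calc _ ≤ 2 * s ^ 136 * ((2 * s ^ 46 * (K / s ^ 200)) ^ 2 * (C * K ^ 3 * U / s ^ 600)) := by gcongr
      _ = _ := by field_simp; ring
  have t12 : l * (w * (K / s ^ 200) * G₄) ≤ 32 * C * K ^ 5 * U / s ^ 810 := by
    calc _ ≤ 2 * s ^ 136 * (2 * s ^ 46 * (K / s ^ 200) * (8 * C * K ^ 4 * U / s ^ 792)) := by gcongr
      _ = _ := by field_simp; ring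
  have t13 : l * ((w * (K / s ^ 200)) ^ 3 * A₄) ≤ 16 * C * K ^ 6 * U / s ^ 926 := by
    calc _ ≤ 2 * s ^ 136 * ((2 * s ^ 46 * (K / s ^ 200)) ^ 3 * (C * K ^ 3 * U / s ^ 600)) := by gcongr
      _ = _ := by field_simp; ring
  have t14 : l * ((w ^ 2 + l ^ 3) * (K / s ^ 200) ^ 2 * G₄) ≤ 192 * C * K ^ 6 * U / s ^ 648 := by
    calc _ ≤ 2 * s ^ 136 * (12 * s ^ 408 * (K / s ^ 200) ^ 2 * (8 * C * K ^ 4 * U / s ^ 792)) := by
          gcongr
      _ = _ := by field_simp; ring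
  have t15 : K / s ^ 200 * A₄ ≤ 1 * C * K ^ 4 * U / s ^ 800 := by
    calc _ ≤ K / s ^ 200 * (C * K ^ 3 * U / s ^ 600) := by gcongr
      _ = _ := by field_simp
  have t16 : G₃ / l ≤ 8 * C * K ^ 3 * U / s ^ 728 := by
    calc _ ≤ (8 * C * K ^ 3 * U / s ^ 592) / s ^ 136 := by gcongr
      _ = _ := by field_simp
  have t17 : s ^ 94 / l ^ 2 * A₄ ≤ 1 * C * K ^ 3 * U / s ^ 778 := by
    calc _ ≤ s ^ 94 / (s ^ 136) ^ 2 * (C * K ^ 3 * U / s ^ 600) := by gcongr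
      _ = _ := by field_simp
  have t18 : A₄ / s ^ 94 ≤ 1 * C * K ^ 3 * U / s ^ 694 := by
    calc _ ≤ (C * K ^ 3 * U / s ^ 600) / s ^ 94 := by gcongr
      _ = _ := by field_simp
  refine ⟨?_, ?_, ?_, ?_, ?_, ?_, ?_⟩
  · unfold e33
    rw [hsq, mul_add]
    have r1 := fin hs1 hK hC hU (by norm_num) 4 612 605 (by norm_num) (by norm_num) t1
    have r2 := fin hs1 hK hC hU (by norm_num) 4 651 605 (by norm_num) (by norm_num) t2
    linarith [hQ 605, hfinal 605]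
  · unfold e34
    rw [hsq, mul_add, mul_add, mul_add]
    have mon : ∀ (a : ℝ) (m n : ℕ), 0 ≤ a → m ≤ n → a * (C * (1 + K) ^ 6 * U) / s ^ n ≤
        a * (C * (1 + K) ^ 6 * U) / s ^ m := by
      intro a m n ha hmn
      have : s ^ m ≤ s ^ n := pow_le_pow_right₀ hs1 hmn
      gcongr
    have u1 : s ^ 94 * ((w * (K / s ^ 200)) ^ 2 * A₃) + s ^ 94 * (w * (K / s ^ 200) * G₃) ≤
        20 * (C * (1 + K) ^ 6 * U) / s ^ (2 * 307) := by
      have r1 := fin hs1 hK hC hU (by norm_num) 4 614 614 (by norm_num) (by norm_num) t3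
      have r2 := fin hs1 hK hC hU (by norm_num) 4 652 614 (by norm_num) (by norm_num) t4
      have e : 20 * (C * (1 + K) ^ 6 * U) / s ^ (2 * 307) =
        4 * (C * (1 + K) ^ 6 * U / s ^ 614) + 16 * (C * (1 + K) ^ 6 * U / s ^ 614) := by
        norm_num; ring
      rw [e]
      linarith
    have u2 : l * (s ^ 47 * (K / s ^ 200) * A₄) ≤ 20 * (C * (1 + K) ^ 6 * U) / s ^ (2 * 308) := by
      have r1 := fin hs1 hK hC hU (by norm_num) 4 617 616 (by norm_num) (by norm_num) t5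
      have e : 20 * (C * (1 + K) ^ 6 * U) / s ^ (2 * 308) =
        20 * (C * (1 + K) ^ 6 * U / s ^ 616) := by norm_num; ring
      rw [e]
      linarith [hQ 616]
    have u3 : s ^ 94 * ((w * (K / s ^ 200)) ^ 3 * A₃) +
        s ^ 94 * ((w ^ 2 + l ^ 3) * (K / s ^ 200) ^ 2 * G₃) ≤
        104 * (C * (1 + K) ^ 6 * U) / s ^ (2 * 245) := by
      have r1 := fin hs1 hK hC hU (by norm_num) 5 768 490 (by norm_num) (by norm_num) t6
      have r2 := fin hs1 hK hC hU (by norm_num) 5 490 490 (by norm_num) (by norm_num) t7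
      have e : 104 * (C * (1 + K) ^ 6 * U) / s ^ (2 * 245) =
        8 * (C * (1 + K) ^ 6 * U / s ^ 490) + 96 * (C * (1 + K) ^ 6 * U / s ^ 490) := by
        norm_num; ring
      rw [e]
      linarith
    have u4 : l * ((s ^ 47 * (K / s ^ 200)) ^ 2 * A₄) + l * (s ^ 47 * (K / s ^ 200) * G₄) ≤
        104 * (C * (1 + K) ^ 6 * U) / s ^ (2 * 385) := by
      have r1 := fin hs1 hK hC hU (by norm_num) 5 770 770 (by norm_num) (by norm_num) t8
      have r2 := fin hs1 hK hC hU (by norm_num) 5 809 770 (by norm_num) (by norm_num) t9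
      have e : 104 * (C * (1 + K) ^ 6 * U) / s ^ (2 * 385) =
        104 * (C * (1 + K) ^ 6 * U / s ^ 770) := by norm_num; ring
      rw [e]
      linarith [hQ 770]
    have v1 := sq2 307 308 hs0 (by positivity) u1 u2
    have v2 := sq2 245 385 hs0 (by positivity) u3 u4
    have v3 := v1.trans (mon 20 605 (307 + 308) (by norm_num) (by norm_num))
    have v4 := v2.trans (mon 104 605 (245 + 385) (by norm_num) (by norm_num))
    have e1 : 20 * (C * (1 + K) ^ 6 * U) / s ^ 605 + 104 * (C * (1 + K) ^ 6 * U) / s ^ 605 =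
      124 * (C * (1 + K) ^ 6 * U / s ^ 605) := by ring
    linarith [hQ 605, hfinal 605]
  · unfold e44
    rw [mul_add, mul_add]
    have r1 := fin hs1 hK hC hU (by norm_num) 4 618 605 (by norm_num) (by norm_num) t10
    have r2 := fin hs1 hK hC hU (by norm_num) 5 772 605 (by norm_num) (by norm_num) t11
    have r3 := fin hs1 hK hC hU (by norm_num) 5 810 605 (by norm_num) (by norm_num) t12
    have r4 := fin hs1 hK hC hU (by norm_num) 6 926 605 (by norm_num) (by norm_num) t13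
    have r5 := fin hs1 hK hC hU (by norm_num) 6 648 605 (by norm_num) (by norm_num) t14
    linarith [hQ 605, hfinal 605]
  · have r1 := fin hs1 hK hC hU (by norm_num) 4 800 605 (by norm_num) (by norm_num) t15
    linarith [hQ 605, hfinal 605]
  · unfold d44
    have r1 := fin hs1 hK hC hU (by norm_num) 3 728 700 (by norm_num) (by norm_num) t16
    have r2 := fin hs1 hK hC hU (by norm_num) 3 778 700 (by norm_num) (by norm_num) t17
    linarith [hQ 700, hfinal 700]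
  · have r1 := fin hs1 hK hC hU (by norm_num) 3 694 605 (by norm_num) (by norm_num) t18
    linarith [hQ 605, hfinal 605]
  · rw [hsq]
    have e : s ^ 94 * s ^ 47 * (K / s ^ 200) = K / s ^ 59 := by field_simp
    rw [e]
    have h1 : (1 : ℝ) ≤ s ^ 59 := one_le_pow₀ hs1
    have h2 : K / s ^ 59 ≤ K := div_le_self hK.le h1
    have h3 : 0 ≤ 600 * (C * (1 + K) ^ 6) := by positivity
    linarith

end Pool.Agent.TBS
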