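import Pool.Agent.TBS.StmtsC

/-!
Squad TBS, module AR2: arithmetic of the scales, the roughness.
-/

set_option autoImplicit false

namespace Pool.Agent.TBS

namespace AR2_

/-- the basic bounds -/
lemma bs {C K s l w M A₃ A₄ G₃ G₄ U : ℝ} (hC : 0 < C) (hK : 0 < K)
    (h : Rgm C K s l w M A₃ A₄ G₃ G₄ U) : 0 < s ∧ 0 < l ∧ M / l ^ 3 = K / s ^ 200 ∧
    A₃ ≤ C * K ^ 2 * U / s ^ 400 ∧ A₄ ≤ C * K ^ 3 * U / s ^ 600 ∧
    G₃ ≤ 8 * C * K ^ 3 * U / s ^ 592 ∧ l ^ 2 ≤ 4 * s ^ 272 := by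
  have hs1 := h.s1
  have hs : 0 < s := by linarith
  have hl : 0 < l := lt_of_lt_of_le (by positivity) h.l1
  have hU := h.U0
  have hmu : M / l ^ 3 = K / s ^ 200 := by
    rw [h.M0]
    field_simp
  have hl3 : l ^ 3 ≤ 8 * s ^ 408 := by
    calc l ^ 3 ≤ (2 * s ^ 136) ^ 3 := pow_le_pow_left₀ hl.le h.l2 3
      _ = 8 * s ^ 408 := by ring
  have hl2 : l ^ 2 ≤ 4 * s ^ 272 := by
    calc l ^ 2 ≤ (2 * s ^ 136) ^ 2 := pow_le_pow_left₀ hl.le h.l2 2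
      _ = 4 * s ^ 272 := by ring
  refine ⟨hs, hl, hmu, ?_, ?_, ?_, hl2⟩
  · have h1 := h.a3
    rw [hmu] at h1
    refine h1.trans (le_of_eq ?_)
    field_simp
  · have h1 := h.a4
    rw [hmu] at h1
    refine h1.trans (le_of_eq ?_)
    field_simp
  · have h1 := h.g3
    rw [hmu] at h1
    calc G₃ ≤ C * (K / s ^ 200) ^ 3 * l ^ 3 * (U / s ^ 400) := h1
      _ ≤ C * (K / s ^ 200) ^ 3 * (8 * s ^ 408) * (U / s ^ 400) := by gcongr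
      _ = 8 * C * K ^ 3 * U / s ^ 592 := by field_simp

lemma mon {s a U T : ℝ} (hs : 1 ≤ s) (ha : 0 ≤ a) (hU : 0 ≤ U) (n m : ℕ) (hn : m ≤ n)
    (hT : T ≤ a * U / s ^ n) : T ≤ a * (U / s ^ m) := by
  have h2 : s ^ m ≤ s ^ n := pow_le_pow_right₀ hs hn
  have h3 : 0 < s ^ m := by positivity
  calc T ≤ a * U / s ^ n := hT
    _ ≤ a * U / s ^ m := by gcongr
    _ = a * (U / s ^ m) := by ring

end AR2_

open AR2_

theorem ar2_proof (hAR1 : Stmt_AR1) : Stmt_AR2 := by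
  intro C K hC hK
  obtain ⟨C₁, hC₁, h1⟩ := hAR1 C K hC hK
  refine ⟨C * (1 + 4 * C * K ^ 3 + 4 * C₁ + C * K ^ 2 + C * K ^ 3 + C * K ^ 4 + 8 * C * K ^ 4),
    by positivity, ?_⟩
  intro s l w M A₃ A₄ G₃ G₄ U X Z hR hX hZ
  obtain ⟨hs0, hl0, hmu, ha3, ha4, hg3, hl2⟩ := bs hC hK hR
  obtain ⟨-, -, he, -, -, -, -⟩ := h1 s l w M A₃ A₄ G₃ G₄ U hR
  have hs1 := hR.s1
  have hU := hR.U0
  have pA3 := hR.a30
  have pA4 := hR.a40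
  have pG3 := hR.g30
  clear hR
  rw [hmu] at hZ he
  have t1 : l ^ 2 * A₄ ≤ (4 * C * K ^ 3) * U / s ^ 328 := by
    calc _ ≤ 4 * s ^ 272 * (C * K ^ 3 * U / s ^ 600) := by gcongr
      _ = _ := by field_simp
  have t2 : l ^ 2 * e44 l (K / s ^ 200) w A₄ G₄ ≤ (4 * C₁) * U / s ^ 333 := by
    calc _ ≤ l ^ 2 * (C₁ * U / s ^ 605) := by gcongr
      _ ≤ 4 * s ^ 272 * (C₁ * U / s ^ 605) := by gcongr
      _ = _ := by field_simp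
  have t3 : (s ^ 94) ^ 2 * (K / s ^ 200) * A₃ ≤ (C * K ^ 3) * U / s ^ 412 := by
    calc _ ≤ (s ^ 94) ^ 2 * (K / s ^ 200) * (C * K ^ 2 * U / s ^ 400) := by gcongr
      _ = _ := by field_simp
  have t4 : (s ^ 94) ^ 2 * ((s ^ 94 * (K / s ^ 200)) ^ 2 * A₃) ≤ (C * K ^ 4) * U / s ^ 424 := by
    calc _ ≤ (s ^ 94) ^ 2 * ((s ^ 94 * (K / s ^ 200)) ^ 2 * (C * K ^ 2 * U / s ^ 400)) := by gcongr
      _ = _ := by field_simp
  have t5 : (s ^ 94) ^ 2 * (s ^ 94 * (K / s ^ 200) * G₃) ≤ (8 * C * K ^ 4) * U / s ^ 510 := by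
    calc _ ≤ (s ^ 94) ^ 2 * (s ^ 94 * (K / s ^ 200) * (8 * C * K ^ 3 * U / s ^ 592)) := by gcongr
      _ = _ := by field_simp
  have r1 := mon hs1 (by positivity) hU 328 328 le_rfl t1
  have r2 := mon hs1 (by positivity) hU 333 328 (by norm_num) t2
  have r0 := mon hs1 (a := C * K ^ 2) (by positivity) hU 400 328 (by norm_num) ha3
  have r3 := mon hs1 (by positivity) hU 412 328 (by norm_num) t3
  have r4 := mon hs1 (by positivity) hU 424 328 (by norm_num) t4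
  have r5 := mon hs1 (by positivity) hU 510 328 (by norm_num) t5
  have hq : 0 ≤ U / s ^ 328 := by positivity
  have hlX : 0 ≤ l ^ 2 * X := by positivity
  set q := U / s ^ 328 with hqdef
  clear_value q
  have hsum : l ^ 2 * X + l ^ 2 * (A₄ + e44 l (K / s ^ 200) w A₄ G₄) + A₃
      + (s ^ 94) ^ 2 * (K / s ^ 200) * A₃
      + (s ^ 94) ^ 2 * ((s ^ 94 * (K / s ^ 200)) ^ 2 * A₃ + s ^ 94 * (K / s ^ 200) * G₃)
      ≤ (1 + 4 * C * K ^ 3 + 4 * C₁ + C * K ^ 2 + C * K ^ 3 + C * K ^ 4 + 8 * C * K ^ 4) *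
        (l ^ 2 * X + q) := by
    have e1 : l ^ 2 * (A₄ + e44 l (K / s ^ 200) w A₄ G₄) =
      l ^ 2 * A₄ + l ^ 2 * e44 l (K / s ^ 200) w A₄ G₄ := by ring
    have e2 : (s ^ 94) ^ 2 * ((s ^ 94 * (K / s ^ 200)) ^ 2 * A₃ + s ^ 94 * (K / s ^ 200) * G₃) =
      (s ^ 94) ^ 2 * ((s ^ 94 * (K / s ^ 200)) ^ 2 * A₃) +
        (s ^ 94) ^ 2 * (s ^ 94 * (K / s ^ 200) * G₃) := by ring
    rw [e1, e2]
    have hk : 0 ≤ (4 * C * K ^ 3 + 4 * C₁ + C * K ^ 2 + C * K ^ 3 + C * K ^ 4 + 8 * C * K ^ 4) *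
      (l ^ 2 * X) := by positivity
    have e3 : (1 + 4 * C * K ^ 3 + 4 * C₁ + C * K ^ 2 + C * K ^ 3 + C * K ^ 4 + 8 * C * K ^ 4) *
        (l ^ 2 * X + q) = l ^ 2 * X +
        (4 * C * K ^ 3 + 4 * C₁ + C * K ^ 2 + C * K ^ 3 + C * K ^ 4 + 8 * C * K ^ 4) * (l ^ 2 * X)
        + q + 4 * C * K ^ 3 * q + 4 * C₁ * q + C * K ^ 2 * q + C * K ^ 3 * q + C * K ^ 4 * q
        + 8 * C * K ^ 4 * q := by ring
    rw [e3]
    linarith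
  calc Z ≤ _ := hZ
    _ ≤ C * ((1 + 4 * C * K ^ 3 + 4 * C₁ + C * K ^ 2 + C * K ^ 3 + C * K ^ 4 + 8 * C * K ^ 4) *
        (l ^ 2 * X + q)) := mul_le_mul_of_nonneg_left hsum hC.le
    _ = _ := by ring

end Pool.Agent.TBS
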