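import Pool.Agent.TBS.StmtsC

/-!
# Squad TBS: module AR3 (all errors)
-/

set_option autoImplicit false

open MeasureTheory Filter Topology
open scoped ContDiff

namespace Pool.Agent.TBS

open Pool.Agent.TBG Pool.Agent.TBL Pool.Agent.TBF

namespace AR3_

lemma sqrt_lem {Y X V P Q h : ℝ} (hX : 0 ≤ X) (hV : 0 ≤ V) (hP : 0 ≤ P) (hQ : 0 ≤ Q)
    (hh : 0 < h) (hY : Y ≤ P * (V * X) + Q * V ^ 2) :
    Real.sqrt Y ≤ h * X + (P / (4 * h) + (Q + 1)) * V := by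
  have ha : 0 ≤ h * X := by positivity
  have hb : 0 ≤ P / (4 * h) * V := by positivity
  have hc : 0 ≤ (Q + 1) * V := by positivity
  have hab : 4 * (h * X) * (P / (4 * h) * V) = P * (V * X) := by
    field_simp
  have e1 : h * X + (P / (4 * h) + (Q + 1)) * V = h * X + P / (4 * h) * V + (Q + 1) * V := by
    ring
  rw [e1]
  generalize h * X = a at *
  generalize P / (4 * h) * V = b at *
  rw [Real.sqrt_le_left (by positivity)]
  refine hY.trans ?_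
  have e2 : (a + b + (Q + 1) * V) ^ 2 = 4 * a * b + Q * V ^ 2 + ((a - b) ^ 2 +
      2 * (a + b) * ((Q + 1) * V) + (Q ^ 2 + Q + 1) * V ^ 2) := by ring
  rw [e2, hab]
  have h3 : 0 ≤ (a - b) ^ 2 + 2 * (a + b) * ((Q + 1) * V) + (Q ^ 2 + Q + 1) * V ^ 2 := by
    positivity
  linarith

end AR3_

open AR3_ in
theorem ar3_proof (hAR1 : Stmt_AR1) : Stmt_AR3 := by
  intro C K η hC hK hη
  obtain ⟨c, hc, h1⟩ := hAR1 C K hC hK
  set h : ℝ := η / 10 with hh
  have hh0 : 0 < h := by positivity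
  set D : ℝ := 12 * C * K ^ 2 + 4 * C * K ^ 3 with hD
  have hD0 : 0 < D := by positivity
  refine ⟨(4 * C ^ 2 * K ^ 3 / (4 * h) + (C ^ 2 * K ^ 3 + 1)) + C * K ^ 2 +
    (4 * C ^ 2 * K ^ 2 / (4 * h) + (C ^ 2 * K ^ 2 + 1)) + 3 * C * K ^ 2 +
    (4 * C ^ 2 * K ^ 6 / (4 * h) + (C ^ 2 * K ^ 6 + 1)) + 6 * c +
    (0 / (4 * h) + (C * K ^ 3 * c + 1)) + C * K ^ 3,
    max 1 (D / h), by positivity, le_max_left _ _, ?_⟩
  intro s l w M A₃ A₄ G₃ G₄ U X Z hs hR hX hZ0 hZ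
  obtain ⟨b1, b2, b3, b4, b5, b6, -⟩ := h1 s l w M A₃ A₄ G₃ G₄ U hR
  have hs1 : 1 ≤ s := hR.s1
  have hs0 : 0 < s := by linarith
  have hU := hR.U0
  have hA30 := hR.a30
  have hA40 := hR.a40
  obtain ⟨r, hr⟩ : ∃ r : ℝ, r = s⁻¹ := ⟨_, rfl⟩
  have hr0 : 0 < r := by rw [hr]; positivity
  have hr1 : r ≤ 1 := by rw [hr]; exact inv_le_one_of_one_le₀ hs1
  have hsr : s * r = 1 := by rw [hr]; exact mul_inv_cancel₀ hs0.ne'
  have hinv : ∀ (x : ℝ) (k : ℕ), x / s ^ k = x * r ^ k := by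
    intro x k
    rw [div_eq_mul_inv, hr, inv_pow]
  have hpm : ∀ {j k : ℕ}, j ≤ k → r ^ k ≤ r ^ j := fun {j k} hjk =>
    pow_le_pow_of_le_one hr0.le hr1 hjk
  have hsk : ∀ k : ℕ, s ^ k * r ^ k = 1 := fun k => by rw [← mul_pow, hsr, one_pow]
  have hl0 : 0 < l := lt_of_lt_of_le (by positivity) hR.l1
  have hμ : M / l ^ 3 = K * r ^ 200 := by
    rw [hR.M0, hinv]
    field_simp
  have hM : M ≤ 8 * K * s ^ 408 * r ^ 200 := by
    rw [hR.M0, hinv]
    have h2 : l ^ 3 ≤ (2 * s ^ 136) ^ 3 := pow_le_pow_left₀ hl0.le hR.l2 3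
    calc K * r ^ 200 * l ^ 3 ≤ K * r ^ 200 * (2 * s ^ 136) ^ 3 :=
          mul_le_mul_of_nonneg_left h2 (by positivity)
      _ = 8 * K * s ^ 408 * r ^ 200 := by ring
  have hM0 : 0 ≤ M := by
    rw [hR.M0]
    positivity
  have hZ' : Z ≤ C * (4 * s ^ 272 * X + U * r ^ 328) := by
    rw [hinv] at hZ
    refine hZ.trans (mul_le_mul_of_nonneg_left ?_ hC.le)
    have h2 : l ^ 2 ≤ (2 * s ^ 136) ^ 2 := pow_le_pow_left₀ hl0.le hR.l2 2
    have h3 : l ^ 2 * X ≤ 4 * s ^ 272 * X := by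
      calc l ^ 2 * X ≤ (2 * s ^ 136) ^ 2 * X := mul_le_mul_of_nonneg_right h2 hX
        _ = 4 * s ^ 272 * X := by ring
    linarith
  have hZb0 : 0 ≤ C * (4 * s ^ 272 * X + U * r ^ 328) := hZ0.trans hZ'
  have hA3 : A₃ ≤ C * K ^ 2 * r ^ 400 * U := by
    refine hR.a3.trans (le_of_eq ?_)
    rw [hμ]
    ring
  have hA4 : A₄ ≤ C * K ^ 3 * r ^ 600 * U := by
    refine hR.a4.trans (le_of_eq ?_)
    rw [hμ]
    ring
  have hDr : D * r ≤ h := by
    have h2 : D / h ≤ s := (le_max_right _ _).trans hs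
    rw [div_le_iff₀ hh0] at h2
    calc D * r ≤ (s * h) * r := mul_le_mul_of_nonneg_right h2 hr0.le
      _ = (s * r) * h := by ring
      _ = h := by rw [hsr, one_mul]
  obtain ⟨V, hV⟩ : ∃ V : ℝ, V = U * r ^ 605 := ⟨_, rfl⟩
  have hV0 : 0 ≤ V := by rw [hV]; positivity
  have hVU : U / s ^ 605 = V := by rw [hV, hinv]
  have hcV : ∀ a : ℝ, a * U / s ^ 605 = a * V := fun a => by rw [mul_div_assoc, hVU]
  have hUV : ∀ k : ℕ, 605 ≤ k → U * r ^ k ≤ V := by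
    intro k hk
    rw [hV]
    exact mul_le_mul_of_nonneg_left (hpm hk) hU
  have hUXV : ∀ k : ℕ, 605 ≤ k → X * U * r ^ k ≤ V * X := by
    intro k hk
    calc X * U * r ^ k = (U * r ^ k) * X := by ring
      _ ≤ V * X := mul_le_mul_of_nonneg_right (hUV k hk) hX
  have hUU : ∀ k : ℕ, 1210 ≤ k → U ^ 2 * r ^ k ≤ V ^ 2 := by
    intro k hk
    calc U ^ 2 * r ^ k ≤ U ^ 2 * r ^ 1210 := mul_le_mul_of_nonneg_left (hpm hk) (by positivity)
      _ = V ^ 2 := by rw [hV]; ring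
  have hrX : ∀ (a : ℝ) (k : ℕ), 0 ≤ a → a ≤ D → 1 ≤ k → a * r ^ k * X ≤ h * X := by
    intro a k ha haD hk
    refine mul_le_mul_of_nonneg_right ?_ hX
    calc a * r ^ k ≤ D * r ^ 1 := mul_le_mul haD (hpm hk) (by positivity) hD0.le
      _ ≤ h := by rw [pow_one]; exact hDr
  have e3 : (s ^ 94) ^ 3 = s ^ 282 := by rw [← pow_mul]
  have e6 : (s ^ 94) ^ 6 = s ^ 564 := by rw [← pow_mul]
  -- the terms with square roots
  have t1 : Real.sqrt (M / l ^ 3 * Z * A₃ / (s ^ 94) ^ 3) ≤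
      h * X + (4 * C ^ 2 * K ^ 3 / (4 * h) + (C ^ 2 * K ^ 3 + 1)) * V := by
    refine sqrt_lem hX hV0 (by positivity) (by positivity) hh0 ?_
    rw [hμ, e3, hinv]
    calc K * r ^ 200 * Z * A₃ * r ^ 282
        ≤ K * r ^ 200 * (C * (4 * s ^ 272 * X + U * r ^ 328)) * (C * K ^ 2 * r ^ 400 * U) *
          r ^ 282 := by
          have hk : 0 ≤ K * r ^ 200 := mul_nonneg hK.le (pow_pos hr0 200).le
          exact mul_le_mul_of_nonneg_right (mul_le_mul (mul_le_mul_of_nonneg_left hZ' hk) hA3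
            hA30 (mul_nonneg hk hZb0)) (pow_pos hr0 282).le
      _ = 4 * C ^ 2 * K ^ 3 * ((s ^ 272 * r ^ 272) * (X * U * r ^ 610)) +
          C ^ 2 * K ^ 3 * (U ^ 2 * r ^ 1210) := by ring
      _ ≤ 4 * C ^ 2 * K ^ 3 * (V * X) + C ^ 2 * K ^ 3 * V ^ 2 := by
          rw [hsk, one_mul]
          exact add_le_add (mul_le_mul_of_nonneg_left (hUXV 610 (by norm_num)) (by positivity))
            (mul_le_mul_of_nonneg_left (hUU 1210 (by norm_num)) (by positivity))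
  have t3 : Real.sqrt (Z * A₃ / (s ^ 94) ^ 6) ≤
      h * X + (4 * C ^ 2 * K ^ 2 / (4 * h) + (C ^ 2 * K ^ 2 + 1)) * V := by
    refine sqrt_lem hX hV0 (by positivity) (by positivity) hh0 ?_
    rw [e6, hinv]
    calc Z * A₃ * r ^ 564
        ≤ (C * (4 * s ^ 272 * X + U * r ^ 328)) * (C * K ^ 2 * r ^ 400 * U) * r ^ 564 := by
          refine mul_le_mul_of_nonneg_right (mul_le_mul hZ' hA3 hA30 hZb0) ?_
          positivity
      _ = 4 * C ^ 2 * K ^ 2 * ((s ^ 272 * r ^ 272) * (X * U * r ^ 692)) +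
          C ^ 2 * K ^ 2 * (U ^ 2 * r ^ 1292) := by ring
      _ ≤ 4 * C ^ 2 * K ^ 2 * (V * X) + C ^ 2 * K ^ 2 * V ^ 2 := by
          rw [hsk, one_mul]
          exact add_le_add (mul_le_mul_of_nonneg_left (hUXV 692 (by norm_num)) (by positivity))
            (mul_le_mul_of_nonneg_left (hUU 1292 (by norm_num)) (by positivity))
  have t5 : Real.sqrt (A₄ * ((M / l ^ 3) ^ 3 * Z)) ≤
      h * X + (4 * C ^ 2 * K ^ 6 / (4 * h) + (C ^ 2 * K ^ 6 + 1)) * V := by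
    refine sqrt_lem hX hV0 (by positivity) (by positivity) hh0 ?_
    rw [hμ]
    calc A₄ * ((K * r ^ 200) ^ 3 * Z)
        ≤ (C * K ^ 3 * r ^ 600 * U) * ((K * r ^ 200) ^ 3 *
          (C * (4 * s ^ 272 * X + U * r ^ 328))) := by
          refine mul_le_mul hA4 (mul_le_mul_of_nonneg_left hZ' ?_) ?_ ?_ <;> positivity
      _ = 4 * C ^ 2 * K ^ 6 * ((s ^ 272 * r ^ 272) * (X * U * r ^ 928)) +
          C ^ 2 * K ^ 6 * (U ^ 2 * r ^ 1528) := by ring
      _ ≤ 4 * C ^ 2 * K ^ 6 * (V * X) + C ^ 2 * K ^ 6 * V ^ 2 := by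
          rw [hsk, one_mul]
          exact add_le_add (mul_le_mul_of_nonneg_left (hUXV 928 (by norm_num)) (by positivity))
            (mul_le_mul_of_nonneg_left (hUU 1528 (by norm_num)) (by positivity))
  have t11 : d44 l (s ^ 94) A₄ G₃ ≤ c * (U * r ^ 700) := by
    refine b5.trans (le_of_eq ?_)
    rw [hinv]
    ring
  have t11' : d44 l (s ^ 94) A₄ G₃ ≤ c * V :=
    t11.trans (mul_le_mul_of_nonneg_left (hUV 700 (by norm_num)) hc.le)
  have t10 : Real.sqrt (A₄ * d44 l (s ^ 94) A₄ G₃) ≤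
      h * 0 + (0 / (4 * h) + (C * K ^ 3 * c + 1)) * V := by
    refine sqrt_lem le_rfl hV0 le_rfl (by positivity) hh0 ?_
    calc A₄ * d44 l (s ^ 94) A₄ G₃ ≤ A₄ * (c * (U * r ^ 700)) :=
          mul_le_mul_of_nonneg_left t11 hA40
      _ ≤ (C * K ^ 3 * r ^ 600 * U) * (c * (U * r ^ 700)) :=
          mul_le_mul_of_nonneg_right hA4 (mul_nonneg hc.le (mul_nonneg hU (pow_pos hr0 700).le))
      _ = 0 * (V * 0) + C * K ^ 3 * c * (U ^ 2 * r ^ 1300) := by ring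
      _ ≤ 0 * (V * 0) + C * K ^ 3 * c * V ^ 2 :=
          add_le_add le_rfl (mul_le_mul_of_nonneg_left (hUU 1300 (by norm_num)) (by positivity))
  -- the terms without square roots
  have t2 : (M / l ^ 3) ^ 2 * Z ≤ h * X + C * K ^ 2 * V := by
    rw [hμ]
    calc (K * r ^ 200) ^ 2 * Z ≤ (K * r ^ 200) ^ 2 * (C * (4 * s ^ 272 * X + U * r ^ 328)) :=
          mul_le_mul_of_nonneg_left hZ' (by positivity)
      _ = (4 * C * K ^ 2) * ((s ^ 272 * r ^ 272) * r ^ 128) * X + C * K ^ 2 * (U * r ^ 728) := by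
          ring
      _ ≤ h * X + C * K ^ 2 * V := by
          rw [hsk, one_mul]
          refine add_le_add (hrX _ 128 (by positivity) ?_ (by norm_num))
            (mul_le_mul_of_nonneg_left (hUV 728 (by norm_num)) (by positivity))
          rw [hD]
          have : 0 < C * K ^ 2 := by positivity
          have : 0 < C * K ^ 3 := by positivity
          linarith
  have t12 : (M / l ^ 3) ^ 3 * Z ≤ h * X + C * K ^ 3 * V := by
    rw [hμ]
    calc (K * r ^ 200) ^ 3 * Z ≤ (K * r ^ 200) ^ 3 * (C * (4 * s ^ 272 * X + U * r ^ 328)) :=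
          mul_le_mul_of_nonneg_left hZ' (by positivity)
      _ = (4 * C * K ^ 3) * ((s ^ 272 * r ^ 272) * r ^ 328) * X + C * K ^ 3 * (U * r ^ 928) := by
          ring
      _ ≤ h * X + C * K ^ 3 * V := by
          rw [hsk, one_mul]
          refine add_le_add (hrX _ 328 (by positivity) ?_ (by norm_num))
            (mul_le_mul_of_nonneg_left (hUV 928 (by norm_num)) (by positivity))
          rw [hD]
          have : 0 < C * K ^ 2 := by positivity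
          linarith
  have t4 : Real.sqrt (M * (M / l ^ 3) ^ 3 / (s ^ 94) ^ 3) * Z ≤ h * X + 3 * C * K ^ 2 * V := by
    have h2 : Real.sqrt (M * (M / l ^ 3) ^ 3 / (s ^ 94) ^ 3) ≤ 3 * K ^ 2 * r ^ 337 := by
      rw [Real.sqrt_le_left (by positivity), hμ, e3, hinv]
      calc M * (K * r ^ 200) ^ 3 * r ^ 282
          ≤ (8 * K * s ^ 408 * r ^ 200) * (K * r ^ 200) ^ 3 * r ^ 282 := by
            refine mul_le_mul_of_nonneg_right (mul_le_mul_of_nonneg_right hM ?_) ?_ <;> positivity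
        _ = 8 * K ^ 4 * ((s ^ 408 * r ^ 408) * r ^ 674) := by ring
        _ = 8 * K ^ 4 * r ^ 674 := by rw [hsk, one_mul]
        _ ≤ 9 * K ^ 4 * r ^ 674 := by
            refine mul_le_mul_of_nonneg_right (mul_le_mul_of_nonneg_right (by norm_num) ?_) ?_ <;>
              positivity
        _ = (3 * K ^ 2 * r ^ 337) ^ 2 := by ring
    calc Real.sqrt (M * (M / l ^ 3) ^ 3 / (s ^ 94) ^ 3) * Z
        ≤ (3 * K ^ 2 * r ^ 337) * (C * (4 * s ^ 272 * X + U * r ^ 328)) :=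
          mul_le_mul h2 hZ' hZ0 (by positivity)
      _ = (12 * C * K ^ 2) * ((s ^ 272 * r ^ 272) * r ^ 65) * X +
          3 * C * K ^ 2 * (U * r ^ 665) := by ring
      _ ≤ h * X + 3 * C * K ^ 2 * V := by
          rw [hsk, one_mul]
          refine add_le_add (hrX _ 65 (by positivity) ?_ (by norm_num))
            (mul_le_mul_of_nonneg_left (hUV 665 (by norm_num)) (by positivity))
          rw [hD]
          have : 0 < C * K ^ 3 := by positivity
          linarith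
  rw [hcV] at b1 b2 b3 b4 b6
  rw [hcV]
  unfold erf
  have hηX : η * X = 10 * (h * X) := by
    rw [hh]
    ring
  have hhX : 0 ≤ h * X := by positivity
  rw [hηX]
  have hfin : (4 * C ^ 2 * K ^ 3 / (4 * h) + (C ^ 2 * K ^ 3 + 1) + C * K ^ 2 +
      (4 * C ^ 2 * K ^ 2 / (4 * h) + (C ^ 2 * K ^ 2 + 1)) + 3 * C * K ^ 2 +
      (4 * C ^ 2 * K ^ 6 / (4 * h) + (C ^ 2 * K ^ 6 + 1)) + 6 * c +
      (0 / (4 * h) + (C * K ^ 3 * c + 1)) + C * K ^ 3) * V =
      (4 * C ^ 2 * K ^ 3 / (4 * h) + (C ^ 2 * K ^ 3 + 1)) * V + C * K ^ 2 * V +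
      (4 * C ^ 2 * K ^ 2 / (4 * h) + (C ^ 2 * K ^ 2 + 1)) * V + 3 * C * K ^ 2 * V +
      (4 * C ^ 2 * K ^ 6 / (4 * h) + (C ^ 2 * K ^ 6 + 1)) * V + 6 * (c * V) +
      (0 / (4 * h) + (C * K ^ 3 * c + 1)) * V + C * K ^ 3 * V := by ring
  rw [hfin]
  rw [mul_zero, zero_add] at t10
  linarith

end Pool.Agent.TBS
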