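import Pool.Agent.TBS.StmtsA

/-!
# Three-body Bose gases, sharp lower bound, module AVC: averages of `C¹` functions
-/

set_option autoImplicit false
set_option linter.unusedSectionVars false

open MeasureTheory Filter Topology
open scoped ContDiff

namespace Pool.Agent.TBS

open Pool.Agent.TBG Pool.Agent.TBL Pool.Agent.TBF

namespace AVC_

variable {ι : Type} [Fintype ι] [DecidableEq ι]

theorem hasFDerivAt_update (X : ι → E) (i : ι) (x : E) :
    HasFDerivAt (fun x => Function.update X i x) (ContinuousLinearMap.single ℝ (fun _ : ι => E) i) x := by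
  rw [hasFDerivAt_pi']
  intro j
  by_cases h : j = i
  · subst h
    have e1 : (fun x => Function.update X j x j) = fun x : E => x := by
      funext x; simp
    have e2 : (ContinuousLinearMap.proj j).comp (ContinuousLinearMap.single ℝ (fun _ : ι => E) j) =
        ContinuousLinearMap.id ℝ E := by
      ext v
      simp
    rw [e1, e2]
    exact hasFDerivAt_id x
  · have e1 : (fun x => Function.update X i x j) = fun _ : E => X j := by
      funext x; simp [h]
    have e2 : (ContinuousLinearMap.proj j).comp (ContinuousLinearMap.single ℝ (fun _ : ι => E) i) =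
        (0 : E →L[ℝ] E) := by
      ext v
      simp [h]
    rw [e1, e2]
    exact hasFDerivAt_const _ x

theorem di_eq_pd (g : (ι → E) → ℝ) (j : ι) (c : Fin 3) (X : ι → E) (hg : DifferentiableAt ℝ g X) :
    di j c g X = pd c (fun x => g (Function.update X j x)) (X j) := by
  have hX : Function.update X j (X j) = X := Function.update_eq_self j X
  have hg' : HasFDerivAt g (fderiv ℝ g X) (Function.update X j (X j)) := by
    rw [hX]; exact hg.hasFDerivAt
  have h1 := hg'.comp (X j) (hasFDerivAt_update X j (X j))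
  unfold pd di
  have h2 : (fun x => g (Function.update X j x)) = g ∘ fun x => Function.update X j x := rfl
  rw [h2, h1.fderiv]
  simp

/-- the projection killing the coordinates of `S` -/
noncomputable def Pr (S : Finset ι) : (ι → E) →L[ℝ] (ι → E) :=
  ContinuousLinearMap.pi fun i => if i ∈ S then 0 else ContinuousLinearMap.proj i

theorem Pr_apply (S : Finset ι) (X : ι → E) (i : ι) : Pr S X i = if i ∈ S then 0 else X i := by
  unfold Pr
  by_cases h : i ∈ S
  · simp [h]
  · simp [h]

theorem hasFDerivAt_pw (S : Finset ι) (Y X : ι → E) :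
    HasFDerivAt (fun X => S.piecewise Y X) (Pr S) X := by
  rw [hasFDerivAt_pi']
  intro j
  by_cases h : j ∈ S
  · have e1 : (fun X : ι → E => S.piecewise Y X j) = fun _ => Y j := by
      funext X
      exact Finset.piecewise_eq_of_mem _ _ _ h
    have e2 : (ContinuousLinearMap.proj j).comp (Pr S) = (0 : (ι → E) →L[ℝ] E) := by
      ext1 v
      simp [Pr_apply, h]
    rw [e1, e2]
    exact hasFDerivAt_const _ X
  · have e1 : (fun X : ι → E => S.piecewise Y X j) = fun X => X j := by
      funext X
      exact Finset.piecewise_eq_of_notMem _ _ _ h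
    have e2 : (ContinuousLinearMap.proj j).comp (Pr S) =
        (ContinuousLinearMap.proj j : (ι → E) →L[ℝ] E) := by
      ext1 v
      simp [Pr_apply, h]
    rw [e1, e2]
    exact hasFDerivAt_apply j X

omit [Fintype ι] in
theorem cont_pw (S : Finset ι) :
    Continuous (fun q : (ι → E) × (ι → E) => S.piecewise q.2 q.1) := by
  refine continuous_pi fun i => ?_
  by_cases hi : i ∈ S
  · have : (fun q : (ι → E) × (ι → E) => S.piecewise q.2 q.1 i) = fun q => q.2 i := by
      funext q
      exact Finset.piecewise_eq_of_mem _ _ _ hi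
    rw [this]
    fun_prop
  · have : (fun q : (ι → E) × (ι → E) => S.piecewise q.2 q.1 i) = fun q => q.1 i := by
      funext q
      exact Finset.piecewise_eq_of_notMem _ _ _ hi
    rw [this]
    fun_prop

theorem Pr_single_notMem (S : Finset ι) (j : ι) (hj : j ∉ S) (v : E) :
    Pr S (Pi.single j v) = Pi.single j v := by
  funext i
  rw [Pr_apply]
  by_cases h : i ∈ S
  · rw [if_pos h]
    have : i ≠ j := fun e => hj (e ▸ h)
    rw [Pi.single_eq_of_ne this]
  · rw [if_neg h]

theorem Pr_single_mem (S : Finset ι) (j : ι) (hj : j ∈ S) (v : E) :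
    Pr S (Pi.single j v) = 0 := by
  funext i
  rw [Pr_apply]
  by_cases h : i ∈ S
  · rw [if_pos h]; rfl
  · rw [if_neg h]
    have : i ≠ j := fun e => h (e ▸ hj)
    rw [Pi.single_eq_of_ne this]; rfl

end AVC_

open AVC_ in
theorem avc_proof (_hBMC : Pool.Agent.TBL.Stmt_BMC) (hSLI : Pool.Agent.TBL.Stmt_SLI) (hAVP : Stmt_AVP) :
    Stmt_AVC := by
  intro ι _ _ m _ S u hu
  obtain ⟨hu1, hu2⟩ := hu
  obtain ⟨hB, hD, -⟩ := hSLI ι u hu1 hu2
  have hdiff : Differentiable ℝ u := hu1.differentiable (by norm_num)
  have hcf : Continuous (fderiv ℝ u) := hu1.continuous_fderiv (by norm_num)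
  have hsf : HasCompactSupport (fderiv ℝ u) := hu2.fderiv ℝ
  obtain ⟨C, hC⟩ := hsf.exists_bound_of_continuous hcf
  have hcx : ∀ X : ι → E, Continuous (fun Y : ι → E => S.piecewise Y X) := fun X =>
    (cont_pw S).comp (continuous_const.prodMk continuous_id)
  have hcy : ∀ Y : ι → E, Continuous (fun X : ι → E => S.piecewise Y X) := fun Y =>
    (cont_pw S).comp (continuous_id.prodMk continuous_const)
  have hcomp : Continuous (fun L : (ι → E) →L[ℝ] ℝ => L.comp (Pr S)) := by fun_prop
  have hF' : ∀ X : ι → E, Continuous (fun Y : ι → E => (fderiv ℝ u (S.piecewise Y X)).comp (Pr S)) :=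
    fun X => hcomp.comp (hcf.comp (hcx X))
  have hbd : ∀ X Y : ι → E, ‖(fderiv ℝ u (S.piecewise Y X)).comp (Pr S)‖ ≤ C * ‖Pr (ι := ι) S‖ := by
    intro X Y
    refine (ContinuousLinearMap.opNorm_comp_le _ _).trans ?_
    exact mul_le_mul_of_nonneg_right (hC _) (norm_nonneg _)
  have hder : ∀ X : ι → E, HasFDerivAt (Av m S u)
      (∫ Y, (fderiv ℝ u (S.piecewise Y X)).comp (Pr S) ∂(Measure.pi (fun _ : ι => m))) X := by
    intro X
    have key := hasFDerivAt_integral_of_dominated_of_fderiv_le (𝕜 := ℝ)
      (μ := Measure.pi (fun _ : ι => m))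
      (F := fun (X : ι → E) (Y : ι → E) => u (S.piecewise Y X))
      (F' := fun (X : ι → E) (Y : ι → E) => (fderiv ℝ u (S.piecewise Y X)).comp (Pr S))
      (x₀ := X) (bound := fun _ => C * ‖Pr (ι := ι) S‖) (s := Set.univ) Filter.univ_mem
      (Filter.Eventually.of_forall fun X' => (hu1.continuous.comp (hcx X')).aestronglyMeasurable)
      ?_ (hF' X).aestronglyMeasurable
      (Filter.Eventually.of_forall fun Y X' _ => hbd X' Y) (integrable_const _)
      (Filter.Eventually.of_forall fun Y X' _ =>
        ((hdiff (S.piecewise Y X')).hasFDerivAt).comp X' (hasFDerivAt_pw S Y X'))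
    · exact key
    · obtain ⟨hm, K, hK⟩ := hB
      refine Integrable.mono' (g := fun _ => K) (integrable_const _)
        (hu1.continuous.comp (hcx X)).aestronglyMeasurable (Filter.Eventually.of_forall fun Y => ?_)
      exact hK _
  have hfd : fderiv ℝ (Av m S u) = fun X =>
      ∫ Y, (fderiv ℝ u (S.piecewise Y X)).comp (Pr S) ∂(Measure.pi (fun _ : ι => m)) := by
    funext X
    exact (hder X).fderiv
  have hint : ∀ X : ι → E, Integrable (fun Y : ι → E => (fderiv ℝ u (S.piecewise Y X)).comp (Pr S))
      (Measure.pi (fun _ : ι => m)) := fun X =>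
    Integrable.mono' (g := fun _ => C * ‖Pr (ι := ι) S‖) (integrable_const _)
      (hF' X).aestronglyMeasurable (Filter.Eventually.of_forall fun Y => hbd X Y)
  have hdA : Differentiable ℝ (Av m S u) := fun X => (hder X).differentiableAt
  have hCD : ContDiff ℝ 1 (Av m S u) := by
    rw [contDiff_one_iff_fderiv]
    refine ⟨hdA, ?_⟩
    rw [hfd]
    exact continuous_of_dominated (fun X => (hF' X).aestronglyMeasurable)
      (fun X => Filter.Eventually.of_forall fun Y => hbd X Y) (integrable_const _)
      (Filter.Eventually.of_forall fun Y => hcomp.comp (hcf.comp (hcy Y)))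
  have happ : ∀ (X : ι → E) (v : ι → E), fderiv ℝ (Av m S u) X v =
      ∫ Y, fderiv ℝ u (S.piecewise Y X) (Pr S v) ∂(Measure.pi (fun _ : ι => m)) := by
    intro X v
    rw [hfd]
    show (∫ Y, (fderiv ℝ u (S.piecewise Y X)).comp (Pr S) ∂(Measure.pi (fun _ : ι => m))) v = _
    rw [ContinuousLinearMap.integral_apply (hint X)]
    rfl
  have h4 : ∀ j ∉ S, ∀ c, di j c (Av m S u) = Av m S (di j c u) := by
    intro j hj c
    funext X
    unfold di Av
    rw [show (fun X => ∫ Y, u (S.piecewise Y X) ∂(Measure.pi (fun _ : ι => m))) = Av m S u from rfl,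
      happ, Pr_single_notMem S j hj]
  refine ⟨hB, hD, hCD, h4, ?_, fun j c X => di_eq_pd u j c X (hdiff X),
    fun j c X => di_eq_pd _ j c X (hdA X)⟩
  intro j c
  by_cases hj : j ∈ S
  · have : di j c (Av m S u) = fun _ => 0 := by
      funext X
      unfold di
      rw [happ, Pr_single_mem S j hj]
      simp
    rw [this]
    exact ⟨measurable_const, 0, fun X => by simp⟩
  · rw [h4 j hj c]
    exact (hAVP ι m S S (di j c u) (di j c u) (hD j c) (hD j c)).1

end Pool.Agent.TBS
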