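import Pool.Agent.TBS.StmtsA

/-!
# Three-body Bose gases (MP_80dc41_mp), sharp lower bound: module AVI (averages and integrals)
-/

set_option autoImplicit false

open MeasureTheory Filter Topology
open scoped ContDiff

namespace Pool.Agent.TBS

open Pool.Agent.TBG Pool.Agent.TBL Pool.Agent.TBF

theorem avi_proof (hBMC : Pool.Agent.TBL.Stmt_BMC) (hPSF : Stmt_PSF) (hAVP : Stmt_AVP) : Stmt_AVI := by
  obtain ⟨hB1, hB2, _, _, _⟩ := hBMC
  intro ι _ _ m n _ _ S T F G hF hG hTS
  have hfin := (hPSF ι m n S).1
  have hps := (hPSF ι m n S).2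
  -- the first statement for all functions
  have key : ∀ (F G : (ι → E) → ℝ), BM F → BM G → IndS T G →
      ∫ X, F X * G X ∂(PiS m n S) = ∫ X, Av m T F X * G X ∂(PiS m n S) := by
    induction T using Finset.induction_on with
    | empty =>
      intro F G hF hG _
      obtain ⟨_, _, _, _, _, _, _, _, _, _, _, _, h13, _⟩ := hAVP ι m (∅ : Finset ι) ∅ F G hF hG
      rw [h13]
    | insert i T hi ih =>
      intro F G hF hG hI
      have hiS : i ∈ S := hTS (Finset.mem_insert_self _ _)
      have hG1 : IndS T G := fun X Y h => hI X Y fun j hj =>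
        h j (fun hj' => hj (Finset.mem_insert_of_mem hj'))
      rw [ih (fun j hj => hTS (Finset.mem_insert_of_mem hj)) F G hF hG hG1]
      obtain ⟨hb1, _, _, _, _, _, _, _, _, _, _, _, _, _⟩ := hAVP ι m T T F G hF hG
      obtain ⟨_, _, _, _, _, _, _, _, _, _, _, h12, _, _⟩ := hAVP ι m {i} T F G hF hG
      have h14 := (hAVP ι m {i} T (Av m T F) G hb1 hG).2.2.2.2.2.2.2.2.2.2.2.2.2
      have e1 : Av m (insert i T) F = Av m {i} (Av m T F) := by
        rw [h12, ← Finset.insert_eq]
      rw [e1, (hps (fun X => Av m T F X * G X) ((hB1 _ _ _ hb1 hG).2.2.1)).2.1 i hiS]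
      refine integral_congr_ae (Filter.Eventually.of_forall fun X => ?_)
      show ∫ x, Av m T F (Function.update X i x) * G (Function.update X i x) ∂m =
        Av m {i} (Av m T F) X * G X
      rw [h14 i X, ← integral_mul_const]
      refine integral_congr_ae (Filter.Eventually.of_forall fun x => ?_)
      show Av m T F (Function.update X i x) * G (Function.update X i x) =
        Av m T F (Function.update X i x) * G X
      rw [hI (Function.update X i x) X fun j hj => by
        rw [Function.update_of_ne]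
        rintro rfl
        exact hj (Finset.mem_insert_self _ _)]
  have hAF := hAVP ι m T T F G hF hG
  have hAG := hAVP ι m T T G F hG hF
  have hbF : BM (Av m T F) := hAF.1
  have hbG : BM (Av m T G) := hAG.1
  have hiF : IndS T (Av m T F) := hAF.2.1
  have hiG : IndS T (Av m T G) := hAG.2.1
  refine ⟨fun h => key F G hF hG h, ?_, ?_⟩
  · have h1 := key F (Av m T G) hF hbG hiG
    have h2 := key G (Av m T F) hG hbF hiF
    rw [h1]
    calc ∫ X, Av m T F X * G X ∂(PiS m n S) = ∫ X, G X * Av m T F X ∂(PiS m n S) := by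
          refine integral_congr_ae (Filter.Eventually.of_forall fun X => ?_)
          exact mul_comm _ _
      _ = ∫ X, Av m T G X * Av m T F X ∂(PiS m n S) := h2
      _ = ∫ X, Av m T F X * Av m T G X ∂(PiS m n S) := by
          refine integral_congr_ae (Filter.Eventually.of_forall fun X => ?_)
          exact mul_comm _ _
  · have hF2 : BM (fun X => F X ^ 2) := (hB1 _ _ _ hF hF).2.2.2.1
    have hone : BM (fun _ : ι → E => (1 : ℝ)) := hB2 _ 1
    have h1 := key (fun X => F X ^ 2) (fun _ => 1) hF2 hone (fun _ _ _ => rfl)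
    simp only [mul_one] at h1
    rw [h1]
    have hA2 : BM (Av m T (fun X => F X ^ 2)) := (hAVP ι m T T (fun X => F X ^ 2) G hF2 hG).1
    refine integral_mono ?_ ?_ ?_
    · exact (hB1 _ _ _ ((hB1 _ _ _ hbF hbF).2.2.2.1) hone).2.2.2.2.2.2 _
    · exact (hB1 _ _ _ hA2 hone).2.2.2.2.2.2 _
    · intro X
      exact hAF.2.2.2.2.2.2.2.2.2.2.1 X

end Pool.Agent.TBS
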