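import Pool.Agent.TBS.StmtsA

/-!
# Three-body Bose gases, sharp lower bound, module AVP: averages, algebra
-/

set_option autoImplicit false

open MeasureTheory Filter Topology
open scoped ContDiff

namespace Pool.Agent.TBS

open Pool.Agent.TBG Pool.Agent.TBL Pool.Agent.TBF

namespace AVP_

variable {ι : Type} [Fintype ι] [DecidableEq ι]

omit [Fintype ι] in
lemma pwm (S : Finset ι) :
    Measurable (fun q : (ι → E) × (ι → E) => S.piecewise q.2 q.1) := by
  refine measurable_pi_iff.2 fun i => ?_
  by_cases hi : i ∈ S
  · have : (fun q : (ι → E) × (ι → E) => S.piecewise q.2 q.1 i) = fun q => q.2 i := by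
      funext q
      exact Finset.piecewise_eq_of_mem _ _ _ hi
    rw [this]
    fun_prop
  · have : (fun q : (ι → E) × (ι → E) => S.piecewise q.2 q.1 i) = fun q => q.1 i := by
      funext q
      exact Finset.piecewise_eq_of_notMem _ _ _ hi
    rw [this]
    fun_prop

lemma mp (m : Measure E) [IsProbabilityMeasure m] (T : Finset ι) :
    MeasurePreserving (fun q : (ι → E) × (ι → E) => T.piecewise q.2 q.1)
      ((Measure.pi fun _ : ι => m).prod (Measure.pi fun _ : ι => m)) (Measure.pi fun _ : ι => m) := by
  refine ⟨pwm T, ?_⟩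
  refine (Measure.pi_eq fun s hs => ?_).symm
  rw [Measure.map_apply (pwm T) (MeasurableSet.univ_pi hs)]
  have h1 : (fun q : (ι → E) × (ι → E) => T.piecewise q.2 q.1) ⁻¹' (Set.univ.pi s) =
      (Set.univ.pi fun i => if i ∈ T then Set.univ else s i) ×ˢ
        (Set.univ.pi fun i => if i ∈ T then s i else Set.univ) := by
    ext q
    simp only [Set.mem_preimage, Set.mem_univ_pi, Set.mem_prod]
    constructor
    · intro h
      refine ⟨fun i => ?_, fun i => ?_⟩
      · split_ifs with hi
        · trivial
        · have := h i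
          rwa [Finset.piecewise_eq_of_notMem _ _ _ hi] at this
      · split_ifs with hi
        · have := h i
          rwa [Finset.piecewise_eq_of_mem _ _ _ hi] at this
        · trivial
    · rintro ⟨h, h'⟩ i
      by_cases hi : i ∈ T
      · have := h' i
        rw [if_pos hi] at this
        rwa [Finset.piecewise_eq_of_mem _ _ _ hi]
      · have := h i
        rw [if_neg hi] at this
        rwa [Finset.piecewise_eq_of_notMem _ _ _ hi]
  rw [h1, Measure.prod_prod, Measure.pi_pi, Measure.pi_pi, ← Finset.prod_mul_distrib]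
  refine Finset.prod_congr rfl fun i _ => ?_
  split_ifs with hi
  · rw [measure_univ, one_mul]
  · rw [measure_univ, mul_one]

omit [Fintype ι] in
lemma pw_agree (S : Finset ι) (Y X : ι → E) (i : ι) (hi : i ∉ S) : X i = S.piecewise Y X i :=
  (Finset.piecewise_eq_of_notMem _ _ _ hi).symm

end AVP_

open AVP_

theorem avp_proof (hBMC : Pool.Agent.TBL.Stmt_BMC) : Stmt_AVP := by
  intro ι _ _ m _ S T F G hF hG
  obtain ⟨hB1, hB2, hB3, hB4, hB5⟩ := hBMC
  have bmc : ∀ (S : Finset ι) (F : (ι → E) → ℝ), BM F →
      BM (fun q : (ι → E) × (ι → E) => F (S.piecewise q.2 q.1)) := fun S F hF =>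
    hB4 (ι → E) ((ι → E) × (ι → E)) F (fun q => S.piecewise q.2 q.1) hF (pwm S)
  have bmx : ∀ (S : Finset ι) (F : (ι → E) → ℝ), BM F → ∀ X : ι → E,
      BM (fun Y : ι → E => F (S.piecewise Y X)) := fun S F hF X =>
    hB4 ((ι → E) × (ι → E)) (ι → E) _ (fun Y => (X, Y)) (bmc S F hF)
      (measurable_const.prodMk measurable_id)
  have int : ∀ (S : Finset ι) (F : (ι → E) → ℝ), BM F → ∀ X : ι → E,
      Integrable (fun Y : ι → E => F (S.piecewise Y X)) (Measure.pi fun _ : ι => m) :=
    fun S F hF X => (hB1 (ι → E) _ _ (bmx S F hF X) (bmx S F hF X)).2.2.2.2.2.2 _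
  have BMA : ∀ (S : Finset ι) (F : (ι → E) → ℝ), BM F → BM (Av m S F) := fun S F hF =>
    hB5 (ι → E) (ι → E) (Measure.pi fun _ : ι => m) _ (bmc S F hF)
  refine ⟨BMA S F hF, ?_, ?_, ?_, ?_, ?_, ?_, ?_, ?_, ?_, ?_, ?_, ?_, ?_⟩
  · intro X Y h
    unfold Av
    refine integral_congr_ae (Eventually.of_forall fun Z => ?_)
    show F _ = F _
    congr 1
    funext i
    by_cases hi : i ∈ S
    · rw [Finset.piecewise_eq_of_mem _ _ _ hi, Finset.piecewise_eq_of_mem _ _ _ hi]
    · rw [Finset.piecewise_eq_of_notMem _ _ _ hi, Finset.piecewise_eq_of_notMem _ _ _ hi, h i hi]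
  · intro hT X Y h
    unfold Av
    refine integral_congr_ae (Eventually.of_forall fun Z => ?_)
    refine hT _ _ fun i hi => ?_
    by_cases hi' : i ∈ S
    · rw [Finset.piecewise_eq_of_mem _ _ _ hi', Finset.piecewise_eq_of_mem _ _ _ hi']
    · rw [Finset.piecewise_eq_of_notMem _ _ _ hi', Finset.piecewise_eq_of_notMem _ _ _ hi', h i hi]
  · intro hS
    funext X
    unfold Av
    rw [← integral_const_mul]
    refine integral_congr_ae (Eventually.of_forall fun Z => ?_)
    show G _ * F _ = G X * F _
    rw [← hS X (S.piecewise Z X) fun i hi => pw_agree S Z X i hi]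
  · intro hS
    funext X
    unfold Av
    have : ∀ Y, F (S.piecewise Y X) = F X := fun Y =>
      (hS X (S.piecewise Y X) fun i hi => pw_agree S Y X i hi).symm
    simp_rw [this]
    simp
  · funext X
    exact integral_add (int S F hF X) (int S G hG X)
  · funext X
    exact integral_sub (int S F hF X) (int S G hG X)
  · intro a
    funext X
    exact integral_const_mul _ _
  · intro h X
    exact integral_mono (int S F hF X) (int S G hG X) fun Y => h _
  · intro C h X
    unfold Av
    have := norm_integral_le_of_norm_le_const (μ := Measure.pi fun _ : ι => m)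
      (f := fun Y => F (S.piecewise Y X)) (C := C) (Eventually.of_forall fun Y => h _)
    simpa using this
  · intro X
    set c : ℝ := Av m S F X with hc
    have i1 := int S F hF X
    have i2 := int S (fun Y => F Y ^ 2) (hB1 (ι → E) F F hF hF).2.2.2.1 X
    have h0 : 0 ≤ ∫ Y, (F (S.piecewise Y X) - c) ^ 2 ∂(Measure.pi fun _ : ι => m) :=
      integral_nonneg fun Y => sq_nonneg _
    have h1 : ∫ Y, (F (S.piecewise Y X) - c) ^ 2 ∂(Measure.pi fun _ : ι => m) =
        Av m S (fun Y => F Y ^ 2) X - 2 * c * c + c ^ 2 := by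
      have e : ∀ Y, (F (S.piecewise Y X) - c) ^ 2 =
          F (S.piecewise Y X) ^ 2 - 2 * c * F (S.piecewise Y X) + c ^ 2 := fun Y => by ring
      simp_rw [e]
      have i3 : Integrable (fun Y => F (S.piecewise Y X) ^ 2 - 2 * c * F (S.piecewise Y X))
          (Measure.pi fun _ : ι => m) := i2.sub (i1.const_mul _)
      rw [integral_add i3 (integrable_const _),
        integral_sub i2 (i1.const_mul _), integral_const_mul]
      simp only [integral_const, probReal_univ, smul_eq_mul, one_mul]
      rfl
    rw [h1] at h0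
    nlinarith [h0]
  · funext X
    have hG2 : BM (fun W : ι → E => F ((S ∪ T).piecewise W X)) := bmx (S ∪ T) F hF X
    have e1 : Av m (S ∪ T) F X = ∫ W, F ((S ∪ T).piecewise W X)
        ∂(Measure.map (fun q : (ι → E) × (ι → E) => T.piecewise q.2 q.1)
          ((Measure.pi fun _ : ι => m).prod (Measure.pi fun _ : ι => m))) := by
      rw [(mp m T).map_eq]
      rfl
    rw [e1, integral_map (pwm T).aemeasurable hG2.1.aestronglyMeasurable]
    have hi : Integrable (fun q : (ι → E) × (ι → E) =>
        F ((S ∪ T).piecewise (T.piecewise q.2 q.1) X))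
        ((Measure.pi fun _ : ι => m).prod (Measure.pi fun _ : ι => m)) := by
      have h1 : BM (fun q : (ι → E) × (ι → E) =>
          F ((S ∪ T).piecewise (T.piecewise q.2 q.1) X)) :=
        hB4 (ι → E) ((ι → E) × (ι → E)) _ (fun q => T.piecewise q.2 q.1) hG2 (pwm T)
      exact (hB1 _ _ _ h1 h1).2.2.2.2.2.2 _
    rw [integral_prod _ hi]
    unfold Av
    refine integral_congr_ae (Eventually.of_forall fun Y => ?_)
    refine integral_congr_ae (Eventually.of_forall fun Z => ?_)
    show F _ = F _
    congr 1
    funext i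
    by_cases hT : i ∈ T
    · rw [Finset.piecewise_eq_of_mem _ _ _ hT,
        Finset.piecewise_eq_of_mem _ _ _ (Finset.mem_union_right S hT),
        Finset.piecewise_eq_of_mem _ _ _ hT]
    · rw [Finset.piecewise_eq_of_notMem _ _ _ hT]
      by_cases hS : i ∈ S
      · rw [Finset.piecewise_eq_of_mem _ _ _ hS,
          Finset.piecewise_eq_of_mem _ _ _ (Finset.mem_union_left T hS),
          Finset.piecewise_eq_of_notMem _ _ _ hT]
      · rw [Finset.piecewise_eq_of_notMem _ _ _ hS,
          Finset.piecewise_eq_of_notMem _ _ _ (by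
            rw [Finset.mem_union]
            tauto)]
  · funext X
    unfold Av
    simp
  · intro i X
    have h1 : Av m {i} F X = ∫ Y : ι → E, F (Function.update X i (Y i))
        ∂(Measure.pi fun _ : ι => m) := by
      unfold Av
      refine integral_congr_ae (Eventually.of_forall fun Z => ?_)
      show F _ = F _
      rw [Finset.piecewise_singleton]
    rw [h1]
    have h2 := measurePreserving_eval (fun _ : ι => m) i
    have h3 : Measurable (fun y : E => F (Function.update X i y)) :=
      hF.1.comp (measurable_update X)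
    have h4 := integral_map (μ := Measure.pi fun _ : ι => m) (φ := Function.eval i)
      h2.measurable.aemeasurable (f := fun y : E => F (Function.update X i y))
      h3.aestronglyMeasurable
    rw [h2.map_eq] at h4
    rw [h4]

end Pool.Agent.TBS
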