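import Pool.Agent.TBS.StmtsA

/-!
# Three-body Bose gases, sharp lower bound, module BBD: a priori bounds
-/

set_option autoImplicit false

open MeasureTheory Filter Topology
open scoped ContDiff

namespace Pool.Agent.TBS

open Pool.Agent.TBG Pool.Agent.TBL Pool.Agent.TBF

namespace BBD_

lemma bm_prod (hBMC : Pool.Agent.TBL.Stmt_BMC) {α J : Type} [MeasurableSpace α] [DecidableEq J]
    (s : Finset J) (F : J → α → ℝ) (h : ∀ j ∈ s, BM (F j)) : BM (fun X => ∏ j ∈ s, F j X) := by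
  induction s using Finset.induction_on with
  | empty => simpa using hBMC.2.1 α 1
  | insert a s ha ih =>
    have h1 : BM (fun X => F a X * ∏ j ∈ s, F j X) :=
      (hBMC.1 α _ _ (h a (Finset.mem_insert_self a s))
        (ih fun j hj => h j (Finset.mem_insert_of_mem hj))).2.2.1
    have h2 : (fun X => ∏ j ∈ insert a s, F j X) = fun X => F a X * ∏ j ∈ s, F j X := by
      funext X
      rw [Finset.prod_insert ha]
    rw [h2]
    exact h1

lemma finP {ι : Type} [Fintype ι] [DecidableEq ι] (m n : Measure E) [IsFiniteMeasure m]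
    [IsFiniteMeasure n] (S : Finset ι) : IsFiniteMeasure (PiS m n S) := by
  have : ∀ i : ι, IsFiniteMeasure (if i ∈ S then m else n) := by
    intro i
    split_ifs <;> infer_instance
  unfold PiS
  infer_instance

end BBD_

open BBD_

theorem bbd_proof (hBMC : Pool.Agent.TBL.Stmt_BMC) (hMSY : Stmt_MSY) (hAVP : Stmt_AVP)
    (hAVI : Stmt_AVI) (hDNS : Stmt_DNS) (hVTP : Stmt_VTP) (hCTS : Stmt_CTS) : Stmt_BBD := by
  intro C m
  obtain ⟨C₀, hC₀, hC⟩ := hCTS C m
  refine ⟨C₀ * C ^ 2 + 1, by positivity, ?_⟩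
  intro ι _ _ p β θ u hS hu
  obtain ⟨hl1, hfin, -, -, -, -, hprob, -, -, -, hth, -⟩ := hMSY C p β θ hS
  have hfin' : IsFiniteMeasure (mO p.L) := hfin
  have hprob' : ∀ a, IsProbabilityMeasure (tm (θ a)) := hprob
  have hfP : ∀ (a : E) (S : Finset ι), IsFiniteMeasure (PiS (tm (θ a)) (mO p.L) S) := fun a S =>
    finP _ _ S
  have hfO : IsFiniteMeasure (PiS (mO p.L) (mO p.L) (∅ : Finset ι)) := finP _ _ _
  have hl3 : 0 < p.l ^ 3 := by
    have : 0 < p.l := by linarith
    positivity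
  have hM : 0 ≤ p.M / p.l ^ 3 := div_nonneg (by linarith [hS.hM]) hl3.le
  have hvB : ∀ (a : E) (S : Finset ι), BM (vt p a S) := fun a S => (hVTP ι C p β θ hS a S).1
  have hvI : ∀ (a : E) (S : Finset ι), IndS S (vt p a S) := fun a S => (hVTP ι C p β θ hS a S).2.1
  have hv01 : ∀ (a : E) (S : Finset ι) (X : ι → E), vt p a S X = 0 ∨ vt p a S X = 1 :=
    fun a S X => ((hVTP ι C p β θ hS a S).2.2.1 X).1
  have hv0 : ∀ (a : E) (S : Finset ι) (X : ι → E), 0 ≤ vt p a S X := by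
    intro a S X
    rcases hv01 a S X with h | h <;> rw [h]
    exact zero_le_one
  have hv1 : ∀ (a : E) (S : Finset ι) (X : ι → E), vt p a S X ≤ 1 := by
    intro a S X
    rcases hv01 a S X with h | h <;> rw [h]
    exact zero_le_one
  have hu2 : BM (fun X => u X ^ 2) := (hBMC.1 _ u u hu hu).2.2.2.1
  refine ⟨?_, ?_, ?_, ?_, ?_⟩
  · unfold AA
    refine mul_nonneg hl3.le (Finset.sum_nonneg fun a _ => Finset.sum_nonneg fun e _ => ?_)
    exact integral_nonneg fun X => sq_nonneg _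
  · unfold AA BB
    refine mul_le_mul_of_nonneg_left (Finset.sum_le_sum fun a _ => Finset.sum_le_sum fun e _ => ?_)
      hl3.le
    have hAv := hAVP ι (tm (θ a)) (im e) ∅ u u hu hu
    have hAv2 := hAVP ι (tm (θ a)) (im e) ∅ (fun X => u X ^ 2) u hu2 hu
    have e1 := (hAVI ι (tm (θ a)) (mO p.L) (im e) (im e) (fun X => u X ^ 2) (vt p a (im e)) hu2
      (hvB a (im e)) (Finset.Subset.refl _)).1 (hvI a (im e))
    have e2 : IA p θ a (im e) (fun X => vt p a (im e) X * u X ^ 2) =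
        ∫ X, Av (tm (θ a)) (im e) (fun X => u X ^ 2) X * vt p a (im e) X
          ∂(PiS (tm (θ a)) (mO p.L) (im e)) := by
      rw [← e1]
      unfold IA
      refine integral_congr_ae (Eventually.of_forall fun X => ?_)
      simp only
      ring
    rw [e2]
    unfold IA
    have b1 : BM (fun X => Am p θ u a (im e) X ^ 2) := by
      have : BM (Am p θ u a (im e)) := (hBMC.1 _ _ _ (hvB a (im e)) hAv.1).2.2.1
      exact (hBMC.1 _ _ _ this this).2.2.2.1
    have b2 : BM (fun X => Av (tm (θ a)) (im e) (fun X => u X ^ 2) X * vt p a (im e) X) :=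
      (hBMC.1 _ _ _ hAv2.1 (hvB a (im e))).2.2.1
    refine integral_mono ((hBMC.1 _ _ _ b1 b1).2.2.2.2.2.2 _) ((hBMC.1 _ _ _ b2 b2).2.2.2.2.2.2 _)
      fun X => ?_
    have hJ : (Av (tm (θ a)) (im e) u X) ^ 2 ≤ Av (tm (θ a)) (im e) (fun Y => u Y ^ 2) X :=
      hAv.2.2.2.2.2.2.2.2.2.2.1 X
    show (vt p a (im e) X * Av (tm (θ a)) (im e) u X) ^ 2 ≤ _
    rcases hv01 a (im e) X with h | h
    · rw [h]
      simp
    · rw [h]
      simpa using hJ
  · unfold GG
    refine mul_nonneg hl3.le (Finset.sum_nonneg fun a _ => Finset.sum_nonneg fun e _ => ?_)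
    refine integral_nonneg fun X => mul_nonneg (hv0 _ _ _) (Finset.sum_nonneg fun j _ => ?_)
    refine mul_nonneg ?_ (Finset.sum_nonneg fun c _ => sq_nonneg _)
    unfold ic
    exact Set.indicator_nonneg (fun _ _ => zero_le_one) _
  · unfold RR
    refine Finset.sum_nonneg fun a _ => Finset.sum_nonneg fun i _ => ?_
    refine integral_nonneg fun X => mul_nonneg (mul_nonneg (hv0 _ _ _) ?_) (sq_nonneg _)
    unfold ic
    exact Set.indicator_nonneg (fun _ _ => zero_le_one) _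
  · -- the bound
    have hθB : ∀ (a : E) (i : ι), BM (fun X : ι → E => θ a (X i)) := by
      intro a i
      refine ⟨(hS.θm a).comp (measurable_pi_apply i), C / p.l ^ 3, fun X => ?_⟩
      rw [abs_of_nonneg (hS.θ0 a (X i))]
      exact hS.θb a (X i)
    have hvu : ∀ (a : E) (S : Finset ι), BM (fun X => vt p a S X * u X ^ 2) := fun a S =>
      (hBMC.1 _ _ _ (hvB a S) hu2).2.2.1
    have hT : ∀ (a : E) (S : Finset ι),
        BM (fun X => (∏ i ∈ S, θ a (X i)) * (vt p a S X * u X ^ 2)) := fun a S =>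
      (hBMC.1 _ _ _ (bm_prod hBMC S (fun i X => θ a (X i)) fun i _ => hθB a i) (hvu a S)).2.2.1
    have hint : ∀ {F : (ι → E) → ℝ}, BM F →
        Integrable F (PiS (mO p.L) (mO p.L) (∅ : Finset ι)) := fun {F} hF =>
      (hBMC.1 _ F F hF hF).2.2.2.2.2.2 _
    have e1 : BB p θ u (m + 1) = IO p (fun X => p.l ^ 3 * ∑ a ∈ p.Gr, ∑ e ∈ Ij (m + 1) ι,
        (∏ i ∈ im e, θ a (X i)) * (vt p a (im e) X * u X ^ 2)) := by
      unfold BB IO
      rw [integral_const_mul, integral_finsetSum]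
      · congr 1
        refine Finset.sum_congr rfl fun a ha => ?_
        rw [integral_finsetSum]
        · refine Finset.sum_congr rfl fun e _ => ?_
          exact (hDNS ι C p β θ hS a ha (im e) _ (hvu a (im e))).2
        · intro e _
          exact hint (hT a (im e))
      · intro a _
        exact hint (hBMC.2.2.1 _ _ _ _ fun e _ => hT a (im e))
    rw [e1]
    have e2 : (C₀ * C ^ 2 + 1) * (p.M / p.l ^ 3) ^ m * ((Fintype.card ι : ℝ) * UU p u) =
        IO p (fun X => (C₀ * C ^ 2 + 1) * (p.M / p.l ^ 3) ^ m * (Fintype.card ι : ℝ) * u X ^ 2) := by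
      unfold UU IO
      rw [integral_const_mul]
      ring
    rw [e2]
    unfold IO
    refine integral_mono
      (hint ((hBMC.1 _ _ _ (hBMC.2.2.1 _ _ p.Gr _ fun a _ =>
        hBMC.2.2.1 _ _ (Ij (m + 1) ι) _ fun e _ => hT a (im e)) hu2).2.2.2.2.2.1 (p.l ^ 3)))
      (hint ((hBMC.1 _ _ _ hu2 hu2).2.2.2.2.2.1 _)) fun X => ?_
    simp only
    have k1 : ∀ a : E, ∑ e ∈ Ij (m + 1) ι, (∏ i ∈ im e, θ a (X i)) * (vt p a (im e) X * u X ^ 2) ≤
        C₀ * (p.M / p.l ^ 3) ^ m * ∑ i, θ a (X i) * u X ^ 2 := by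
      intro a
      have h1 := (hC ι p β θ hS a X).2.1 (fun _ => u X ^ 2) (fun _ => sq_nonneg _)
      refine le_trans (Finset.sum_le_sum fun e he => ?_) (h1.trans ?_)
      · refine mul_le_mul_of_nonneg_left ?_ (Finset.prod_nonneg fun i _ => hS.θ0 a (X i))
        refine mul_le_mul_of_nonneg_left ?_ (hv0 _ _ _)
        rw [Finset.sum_const, nsmul_eq_mul]
        have hc : (1 : ℝ) ≤ ((im e).card : ℝ) := by
          have : 0 < (im e).card := Finset.card_pos.2 ⟨e 0, Finset.mem_image_of_mem e (Finset.mem_univ _)⟩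
          exact_mod_cast this
        nlinarith [sq_nonneg (u X)]
      · refine mul_le_mul_of_nonneg_left (Finset.sum_le_sum fun i _ => ?_)
          (mul_nonneg hC₀.le (pow_nonneg hM m))
        refine mul_le_mul_of_nonneg_left ?_ (hS.θ0 a (X i))
        calc vt p a {i} X * u X ^ 2 ≤ 1 * u X ^ 2 :=
              mul_le_mul_of_nonneg_right (hv1 _ _ _) (sq_nonneg _)
          _ = u X ^ 2 := one_mul _
    have k2 : p.l ^ 3 * ∑ a ∈ p.Gr, ∑ i, θ a (X i) * u X ^ 2 ≤
        C ^ 2 * ((Fintype.card ι : ℝ) * u X ^ 2) := by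
      rw [Finset.sum_comm, Finset.mul_sum]
      have : ∀ i : ι, p.l ^ 3 * ∑ a ∈ p.Gr, θ a (X i) * u X ^ 2 ≤ C ^ 2 * u X ^ 2 := by
        intro i
        rw [← Finset.sum_mul, ← mul_assoc]
        exact mul_le_mul_of_nonneg_right (hth (X i)) (sq_nonneg _)
      refine (Finset.sum_le_sum fun i _ => this i).trans (le_of_eq ?_)
      rw [Finset.sum_const, nsmul_eq_mul, Finset.card_univ]
      ring
    calc p.l ^ 3 * ∑ a ∈ p.Gr, ∑ e ∈ Ij (m + 1) ι,
          (∏ i ∈ im e, θ a (X i)) * (vt p a (im e) X * u X ^ 2)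
        ≤ p.l ^ 3 * ∑ a ∈ p.Gr, C₀ * (p.M / p.l ^ 3) ^ m * ∑ i, θ a (X i) * u X ^ 2 :=
          mul_le_mul_of_nonneg_left (Finset.sum_le_sum fun a _ => k1 a) hl3.le
      _ = C₀ * (p.M / p.l ^ 3) ^ m * (p.l ^ 3 * ∑ a ∈ p.Gr, ∑ i, θ a (X i) * u X ^ 2) := by
          rw [← Finset.mul_sum]
          ring
      _ ≤ C₀ * (p.M / p.l ^ 3) ^ m * (C ^ 2 * ((Fintype.card ι : ℝ) * u X ^ 2)) :=
          mul_le_mul_of_nonneg_left k2 (mul_nonneg hC₀.le (pow_nonneg hM m))
      _ ≤ (C₀ * C ^ 2 + 1) * (p.M / p.l ^ 3) ^ m * (Fintype.card ι : ℝ) * u X ^ 2 := by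
          have h0 : 0 ≤ (p.M / p.l ^ 3) ^ m * ((Fintype.card ι : ℝ) * u X ^ 2) := by positivity
          nlinarith [h0]

end Pool.Agent.TBS
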