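import Pool.Agent.TBS.StmtsC

/-!
# Three-body Bose gases (MP_80dc41_mp), sharp lower bound: module BBW (classical densities)
-/

set_option autoImplicit false

open MeasureTheory Filter Topology
open scoped ContDiff

namespace Pool.Agent.TBS

open Pool.Agent.TBG Pool.Agent.TBL Pool.Agent.TBF

namespace BBW_

lemma pis_fin {ι : Type} [Fintype ι] [DecidableEq ι] (m n : Measure E) [IsFiniteMeasure m] [IsFiniteMeasure n]
    (S : Finset ι) : IsFiniteMeasure (PiS m n S) := by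
  unfold PiS
  have h : ∀ i : ι, IsFiniteMeasure (if i ∈ S then m else n) := by
    intro i
    split_ifs
    · infer_instance
    · infer_instance
  infer_instance

lemma bm_prod (hBMC : Pool.Agent.TBL.Stmt_BMC) {ι : Type} [Fintype ι] [DecidableEq ι] (t : E → ℝ) (ht : BM t)
    (S : Finset ι) : BM (fun X : ι → E => ∏ i ∈ S, t (X i)) := by
  obtain ⟨hB1, hB2, _, hB4, _⟩ := hBMC
  induction S using Finset.induction_on with
  | empty =>
    simp only [Finset.prod_empty]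
    exact hB2 _ 1
  | insert i S hi ih =>
    simp only [Finset.prod_insert hi]
    exact (hB1 _ _ _ (hB4 E (ι → E) t (fun X => X i) ht (measurable_pi_apply i)) ih).2.2.1

lemma io_sum (hBMC : Pool.Agent.TBL.Stmt_BMC) {ι J : Type} [Fintype ι] [DecidableEq ι] (p : Par)
    [IsFiniteMeasure (mO p.L)] (s : Finset J) (F : J → (ι → E) → ℝ) (hF : ∀ j ∈ s, BM (F j)) :
    IO p (fun X => ∑ j ∈ s, F j X) = ∑ j ∈ s, IO p (F j) := by
  unfold IO
  have := pis_fin (ι := ι) (mO p.L) (mO p.L) ∅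
  rw [integral_finset_sum]
  intro j hj
  exact (hBMC.1 _ _ _ (hF j hj) (hF j hj)).2.2.2.2.2.2 _

lemma io_mul {ι : Type} [Fintype ι] [DecidableEq ι] (p : Par) (c : ℝ) (F : (ι → E) → ℝ) :
    IO p (fun X => c * F X) = c * IO p F := by
  unfold IO
  rw [integral_const_mul]

/-- the weighted amplitude of one cluster -/
lemma amp (hBMC : Pool.Agent.TBL.Stmt_BMC) (hMSY : Stmt_MSY) (hAVP : Stmt_AVP) (hAVI : Stmt_AVI)
    (hDNS : Stmt_DNS) (hVTP : Stmt_VTP) {ι : Type} [Fintype ι] [DecidableEq ι] (C : ℝ) (p : Par)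
    (β θ : E → E → ℝ) (u : (ι → E) → ℝ) (hS : Sys C p β θ) (hu : BM u) (a : E) (ha : a ∈ p.Gr)
    (S : Finset ι) (z : (ι → E) → ℝ) (hz : BM z) (hzi : IndS S z) (hz0 : ∀ X, 0 ≤ z X) :
    0 ≤ IA p θ a S (fun X => z X * Am p θ u a S X ^ 2) ∧
    IA p θ a S (fun X => z X * Am p θ u a S X ^ 2) ≤
      IO p (fun X => u X ^ 2 * ((∏ i ∈ S, θ a (X i)) * (z X * vt p a S X))) := by
  have hB1 := hBMC.1
  obtain ⟨_, hfin, _, _, _, _, hprob, _, hm, _, _, _⟩ := hMSY C p β θ hS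
  have hpa := hprob a
  have hPS := pis_fin (ι := ι) (tm (θ a)) (mO p.L) S
  obtain ⟨hv, hvi, hv01, _, _⟩ := hVTP ι C p β θ hS a S
  have hG : BM (fun X => z X * vt p a S X) := (hB1 _ _ _ hz hv).2.2.1
  have hG0 : ∀ X, 0 ≤ z X * vt p a S X := by
    intro X
    refine mul_nonneg (hz0 X) ?_
    rcases (hv01 X).1 with h | h
    · rw [h]
    · rw [h]; norm_num
  have hGi : IndS S (fun X => z X * vt p a S X) := by
    intro X Y h
    show z X * vt p a S X = z Y * vt p a S Y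
    rw [hzi X Y h, hvi X Y h]
  have hu2 : BM (fun X => u X ^ 2) := (hB1 _ _ _ hu hu).2.2.2.1
  have hAu := hAVP ι (tm (θ a)) S S u u hu hu
  have hAu2 := hAVP ι (tm (θ a)) S S (fun X => u X ^ 2) u hu2 hu
  have hbA : BM (Av (tm (θ a)) S u) := hAu.1
  have hbA2 : BM (Av (tm (θ a)) S (fun X => u X ^ 2)) := hAu2.1
  have hj : ∀ X, (Av (tm (θ a)) S u X) ^ 2 ≤ Av (tm (θ a)) S (fun Y => u Y ^ 2) X :=
    hAu.2.2.2.2.2.2.2.2.2.2.1
  have hpt : ∀ X, z X * Am p θ u a S X ^ 2 = (z X * vt p a S X) * (Av (tm (θ a)) S u X) ^ 2 := by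
    intro X
    unfold Am
    rcases (hv01 X).1 with h | h
    · rw [h]; ring
    · rw [h]; ring
  have hfun : (fun X => z X * Am p θ u a S X ^ 2) =
      fun X => (z X * vt p a S X) * (Av (tm (θ a)) S u X) ^ 2 := funext hpt
  constructor
  · unfold IA
    exact integral_nonneg fun X => mul_nonneg (hz0 X) (sq_nonneg _)
  · rw [hfun]
    have h1 : IA p θ a S (fun X => (z X * vt p a S X) * (Av (tm (θ a)) S u X) ^ 2) ≤
        IA p θ a S (fun X => Av (tm (θ a)) S (fun Y => u Y ^ 2) X * (z X * vt p a S X)) := by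
      unfold IA
      refine integral_mono ?_ ?_ ?_
      · have hq : BM (fun X => (Av (tm (θ a)) S u X) ^ 2) := (hB1 _ _ _ hbA hbA).2.2.2.1
        have hq2 := (hB1 _ _ _ hG hq).2.2.1
        exact (hB1 _ _ _ hq2 hq2).2.2.2.2.2.2 _
      · have hq2 := (hB1 _ _ _ hbA2 hG).2.2.1
        exact (hB1 _ _ _ hq2 hq2).2.2.2.2.2.2 _
      · intro X
        show (z X * vt p a S X) * (Av (tm (θ a)) S u X) ^ 2 ≤
          Av (tm (θ a)) S (fun Y => u Y ^ 2) X * (z X * vt p a S X)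
        rw [mul_comm]
        exact mul_le_mul_of_nonneg_right (hj X) (hG0 X)
    have h2 : IA p θ a S (fun X => Av (tm (θ a)) S (fun Y => u Y ^ 2) X * (z X * vt p a S X)) =
        IA p θ a S (fun X => u X ^ 2 * (z X * vt p a S X)) := by
      unfold IA
      exact ((hAVI ι (tm (θ a)) (mO p.L) S S (fun X => u X ^ 2) (fun X => z X * vt p a S X) hu2 hG
        (Finset.Subset.refl _)).1 hGi).symm
    have h3 := (hDNS ι C p β θ hS a ha S (fun X => u X ^ 2 * (z X * vt p a S X))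
      ((hB1 _ _ _ hu2 hG).2.2.1)).2
    rw [h2, h3] at h1
    refine h1.trans (le_of_eq ?_)
    congr 1
    funext X
    ring

end BBW_

open BBW_ in
theorem bbw_proof (hBMC : Pool.Agent.TBL.Stmt_BMC) (hMSY : Stmt_MSY) (hAVP : Stmt_AVP) (hAVI : Stmt_AVI)
    (hDNS : Stmt_DNS) (hVTP : Stmt_VTP) (hZET : Stmt_ZET) : Stmt_BBW := by
  intro C ι _ _ p Mc M₁ β θ u hgrd hM₁ hS hu
  have hB1 := hBMC.1
  have hB3 := hBMC.2.2.1
  obtain ⟨hl1, hfin, _, _, _, _, hprob, _, hm, _, _, _⟩ := hMSY C p β θ hS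
  have hl3 : (0 : ℝ) ≤ p.l ^ 3 := by positivity
  have hθ : ∀ a, BM (θ a) := by
    intro a
    refine ⟨hS.θm a, C / p.l ^ 3, fun x => ?_⟩
    rw [abs_of_nonneg (hS.θ0 a x)]
    exact hS.θb a x
  have hP : ∀ (a : E) (S : Finset ι), BM (fun X : ι → E => ∏ i ∈ S, θ a (X i)) := fun a S =>
    bm_prod hBMC (θ a) (hθ a) S
  have hu2 : BM (fun X => u X ^ 2) := (hB1 _ _ _ hu hu).2.2.2.1
  have hvt : ∀ (a : E) (S : Finset ι), BM (vt p a S) := fun a S => (hVTP ι C p β θ hS a S).1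
  obtain ⟨_, _, _, hzb, _⟩ := hZET.2 ι p Mc M₁ hgrd hM₁
  -- `pz`
  have hpz01 : ∀ (a : E) (S : Finset ι) (X : ι → E), 0 ≤ pz p a S X ∧ pz p a S X ≤ 1 := by
    intro a S X
    unfold pz
    split_ifs
    · norm_num
    · norm_num
  have hpzi : ∀ (a : E) (S : Finset ι), IndS S (pz p a S) := by
    intro a S X Y h
    unfold pz
    have e : ∀ a', vt p a' S X = vt p a' S Y := fun a' => (hVTP ι C p β θ hS a' S).2.1 X Y h
    simp only [e]
  have hpz : ∀ (a : E) (S : Finset ι), BM (pz p a S) := by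
    intro a S
    refine ⟨?_, 1, fun X => ?_⟩
    · unfold pz
      refine Measurable.ite ?_ measurable_const measurable_const
      have e : {X : ι → E | a ∉ p.Gi ∨ ∃ a' ∈ p.Gr, (∀ c, |a' c - a c| ≤ 2 * p.l) ∧ vt p a' S X = 0} =
          {_X : ι → E | a ∉ p.Gi} ∪ ⋃ a' ∈ p.Gr, ({_X : ι → E | ∀ c, |a' c - a c| ≤ 2 * p.l} ∩
            {X : ι → E | vt p a' S X = 0}) := by
        ext X
        simp only [Set.mem_setOf_eq, Set.mem_union, Set.mem_iUnion, Set.mem_inter_iff, exists_prop]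
      rw [e]
      refine MeasurableSet.union (MeasurableSet.const _) ?_
      refine Finset.measurableSet_biUnion _ fun a' _ => ?_
      refine MeasurableSet.inter (MeasurableSet.const _) ?_
      exact (hvt a' S).1 (measurableSet_singleton 0)
    · rw [abs_of_nonneg (hpz01 a S X).1]
      exact (hpz01 a S X).2
  -- sums
  have hsum : ∀ (m : ℕ) (G : E → Finset ι → (ι → E) → ℝ), (∀ a S, BM (G a S)) →
      BM (fun X : ι → E => p.l ^ 3 * ∑ a ∈ p.Gr, ∑ e ∈ Ij m ι, (∏ i ∈ im e, θ a (X i)) * G a (im e) X) ∧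
      IO p (fun X => u X ^ 2 * (p.l ^ 3 * ∑ a ∈ p.Gr, ∑ e ∈ Ij m ι, (∏ i ∈ im e, θ a (X i)) * G a (im e) X)) =
        p.l ^ 3 * ∑ a ∈ p.Gr, ∑ e ∈ Ij m ι, IO p (fun X => u X ^ 2 * ((∏ i ∈ im e, θ a (X i)) * G a (im e) X)) := by
    intro m G hG
    have h1 : ∀ (a : E) (e : Fin m → ι), BM (fun X : ι → E => (∏ i ∈ im e, θ a (X i)) * G a (im e) X) :=
      fun a e => (hB1 _ _ _ (hP a (im e)) (hG a (im e))).2.2.1
    have h2 : ∀ (a : E) (e : Fin m → ι),
        BM (fun X : ι → E => u X ^ 2 * ((∏ i ∈ im e, θ a (X i)) * G a (im e) X)) :=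
      fun a e => (hB1 _ _ _ hu2 (h1 a e)).2.2.1
    constructor
    · have h3 := hB3 (ι → E) E p.Gr
        (fun a X => ∑ e ∈ Ij m ι, (∏ i ∈ im e, θ a (X i)) * G a (im e) X)
        (fun a _ => hB3 (ι → E) (Fin m → ι) (Ij m ι)
          (fun e X => (∏ i ∈ im e, θ a (X i)) * G a (im e) X) (fun e _ => h1 a e))
      exact (hB1 _ _ _ h3 h3).2.2.2.2.2.1 (p.l ^ 3)
    · have e1 : (fun X : ι → E => u X ^ 2 * (p.l ^ 3 * ∑ a ∈ p.Gr, ∑ e ∈ Ij m ι,
          (∏ i ∈ im e, θ a (X i)) * G a (im e) X)) =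
          fun X => p.l ^ 3 * ∑ a ∈ p.Gr, ∑ e ∈ Ij m ι,
            u X ^ 2 * ((∏ i ∈ im e, θ a (X i)) * G a (im e) X) := by
        funext X
        rw [mul_left_comm, Finset.mul_sum]
        congr 1
        refine Finset.sum_congr rfl fun a _ => ?_
        rw [Finset.mul_sum]
      rw [e1, io_mul]
      congr 1
      rw [io_sum hBMC p p.Gr (fun a X => ∑ e ∈ Ij m ι, u X ^ 2 * ((∏ i ∈ im e, θ a (X i)) * G a (im e) X))
        (fun a _ => hB3 (ι → E) (Fin m → ι) (Ij m ι) _ (fun e _ => h2 a e))]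
      refine Finset.sum_congr rfl fun a _ => ?_
      exact io_sum hBMC p (Ij m ι) (fun e X => u X ^ 2 * ((∏ i ∈ im e, θ a (X i)) * G a (im e) X))
        (fun e _ => h2 a e)
  have hz1 : ∀ (a : E) (S : Finset ι), BM (fun X => zb p Mc M₁ a S X * vt p a S X) := fun a S =>
    (hB1 _ _ _ (hzb a S).1 (hvt a S)).2.2.1
  have hp1 : ∀ (a : E) (S : Finset ι), BM (fun X => pz p a S X * vt p a S X) := fun a S =>
    (hB1 _ _ _ (hpz a S) (hvt a S)).2.2.1
  refine ⟨fun m => ⟨?_, ?_, ?_, ?_, ?_⟩, ?_, ?_⟩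
  · exact (hsum m (fun a S => vt p a S) hvt).1
  · exact (hsum m (fun a S X => zb p Mc M₁ a S X * vt p a S X) hz1).1
  · have h := (hsum m (fun a S => vt p a S) hvt).2
    unfold WC
    rw [h]
    unfold BB
    congr 1
    refine Finset.sum_congr rfl fun a ha => Finset.sum_congr rfl fun e _ => ?_
    rw [(hDNS ι C p β θ hS a ha (im e) (fun X => vt p a (im e) X * u X ^ 2)
      ((hB1 _ _ _ (hvt a (im e)) hu2).2.2.1)).2]
    congr 1
    funext X
    ring
  · unfold AW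
    refine mul_nonneg hl3 (Finset.sum_nonneg fun a ha => Finset.sum_nonneg fun e _ => ?_)
    exact (amp hBMC hMSY hAVP hAVI hDNS hVTP C p β θ u hS hu a ha (im e) (zb p Mc M₁ a (im e))
      (hzb a (im e)).1 (hzb a (im e)).2.1 (hzb a (im e)).2.2).1
  · have h := (hsum m (fun a S X => zb p Mc M₁ a S X * vt p a S X) hz1).2
    unfold WZ
    rw [h]
    unfold AW
    refine mul_le_mul_of_nonneg_left (Finset.sum_le_sum fun a ha => Finset.sum_le_sum fun e _ => ?_) hl3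
    exact (amp hBMC hMSY hAVP hAVI hDNS hVTP C p β θ u hS hu a ha (im e) (zb p Mc M₁ a (im e))
      (hzb a (im e)).1 (hzb a (im e)).2.1 (hzb a (im e)).2.2).2
  · exact (hsum 4 (fun a S X => pz p a S X * vt p a S X) hp1).1
  · have h := (hsum 4 (fun a S X => pz p a S X * vt p a S X) hp1).2
    unfold WP
    rw [h]
    unfold PZ
    refine mul_le_mul_of_nonneg_left (Finset.sum_le_sum fun a ha => Finset.sum_le_sum fun e _ => ?_) hl3
    exact (amp hBMC hMSY hAVP hAVI hDNS hVTP C p β θ u hS hu a ha (im e) (pz p a (im e))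
      (hpz a (im e)) (hpzi a (im e)) (fun X => (hpz01 a (im e) X).1)).2

end Pool.Agent.TBS
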