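import Pool.Agent.TBS.StmtsC

/-!
# Three-body Bose gases, sharp lower bound, module BDP: the particles outside of the inner region
-/

set_option autoImplicit false

open MeasureTheory Filter Topology
open scoped ContDiff

namespace Pool.Agent.TBS

open Pool.Agent.TBG Pool.Agent.TBL Pool.Agent.TBF

theorem bdp_proof (hGRD : Stmt_GRD) (hZET : Stmt_ZET) (_hMSY : Stmt_MSY) : Stmt_BDP := by
  classical
  intro C ι _ _ p Mc M₁ β θ hG hM hS hin X hX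
  obtain ⟨g1, g2, -, -, -, -, -, g8⟩ := hGRD p Mc hG
  obtain ⟨z1, z2⟩ := hZET
  obtain ⟨zt01, -, -, zt1, -⟩ := z1 M₁ hM
  obtain ⟨zn, -⟩ := z2 ι p Mc M₁ hG hM
  have hl3 : 0 < p.l ^ 3 := by have := hG.l0; positivity
  set bd : Finset (Fin 3 → Fin Mc) :=
    Finset.univ.filter (fun k : Fin 3 → Fin Mc => ¬ ∀ c, 14 ≤ (k c : ℕ) ∧ (k c : ℕ) + 14 ≤ Mc) with hbd
  have hic0 : ∀ (Q : Set E) (x : E), 0 ≤ ic Q x := by
    intro Q x
    unfold ic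
    exact Set.indicator_nonneg (fun _ _ => zero_le_one) x
  have hic1 : ∀ (Q : Set E) (x : E), x ∈ Q → ic Q x = 1 := by
    intro Q x hx
    unfold ic
    rw [Set.indicator_of_mem hx]
  -- one particle
  have h1 : ∀ i, (1 : ℝ) ≤ p.l ^ 3 * ∑ a ∈ p.Gr, θ a (X i) + ∑ k ∈ bd, ic (cub p.l (crn p.l Mc k)) (X i) := by
    intro i
    obtain ⟨k, hk, -⟩ := g1 (X i) (hX i)
    have hb0 : 0 ≤ ∑ k ∈ bd, ic (cub p.l (crn p.l Mc k)) (X i) := Finset.sum_nonneg fun k _ => hic0 _ _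
    have ht0 : 0 ≤ p.l ^ 3 * ∑ a ∈ p.Gr, θ a (X i) :=
      mul_nonneg hl3.le (Finset.sum_nonneg fun a _ => hS.θ0 a (X i))
    by_cases hc : ∀ c, 14 ≤ (k c : ℕ) ∧ (k c : ℕ) + 14 ≤ Mc
    · have := hin k hc (X i) hk
      linarith
    · have hkb : k ∈ bd := by
        rw [hbd, Finset.mem_filter]
        exact ⟨Finset.mem_univ _, hc⟩
      have h2 : ic (cub p.l (crn p.l Mc k)) (X i) ≤ ∑ k ∈ bd, ic (cub p.l (crn p.l Mc k)) (X i) :=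
        Finset.single_le_sum (f := fun k => ic (cub p.l (crn p.l Mc k)) (X i)) (fun k _ => hic0 _ _) hkb
      rw [hic1 _ _ hk] at h2
      linarith
  have h2 : (Fintype.card ι : ℝ) ≤ ∑ i : ι, (p.l ^ 3 * ∑ a ∈ p.Gr, θ a (X i) +
      ∑ k ∈ bd, ic (cub p.l (crn p.l Mc k)) (X i)) := by
    calc (Fintype.card ι : ℝ) = ∑ _i : ι, (1 : ℝ) := by simp
      _ ≤ _ := Finset.sum_le_sum fun i _ => h1 i
  have h3 : ∑ i : ι, (p.l ^ 3 * ∑ a ∈ p.Gr, θ a (X i) + ∑ k ∈ bd, ic (cub p.l (crn p.l Mc k)) (X i)) =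
      p.l ^ 3 * ∑ a ∈ p.Gr, ∑ i, θ a (X i) + ∑ k ∈ bd, nk p.l Mc ∅ k X := by
    rw [Finset.sum_add_distrib, ← Finset.mul_sum, Finset.sum_comm]
    congr 1
    rw [Finset.sum_comm]
    refine Finset.sum_congr rfl fun k _ => ?_
    unfold nk
    rw [Finset.sdiff_empty]
  -- one cell
  have h4 : ∀ k, nk p.l Mc (∅ : Finset ι) k X ≤ zt M₁ (nk p.l Mc ∅ k X) * nk p.l Mc ∅ k X + 2 * M₁ := by
    intro k
    have hn0 : 0 ≤ nk p.l Mc (∅ : Finset ι) k X := ((zn ∅ k).2.2 X).1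
    by_cases hk : 2 * M₁ ≤ nk p.l Mc (∅ : Finset ι) k X
    · rw [zt1 _ hk]
      linarith
    · have := mul_nonneg (zt01 (nk p.l Mc (∅ : Finset ι) k X)).1 hn0
      linarith [not_le.1 hk]
  have h5 : ∑ k ∈ bd, nk p.l Mc (∅ : Finset ι) k X ≤
      ∑ k : Fin 3 → Fin Mc, zt M₁ (nk p.l Mc ∅ k X) * nk p.l Mc ∅ k X + 168 * M₁ * (Mc : ℝ) ^ 2 := by
    have h6 : ∑ k ∈ bd, nk p.l Mc (∅ : Finset ι) k X ≤
        ∑ k ∈ bd, (zt M₁ (nk p.l Mc ∅ k X) * nk p.l Mc ∅ k X + 2 * M₁) := Finset.sum_le_sum fun k _ => h4 k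
    have h7 : ∑ k ∈ bd, (zt M₁ (nk p.l Mc ∅ k X) * nk p.l Mc (∅ : Finset ι) k X + 2 * M₁) =
        ∑ k ∈ bd, zt M₁ (nk p.l Mc ∅ k X) * nk p.l Mc (∅ : Finset ι) k X + (bd.card : ℝ) * (2 * M₁) := by
      rw [Finset.sum_add_distrib, Finset.sum_const, nsmul_eq_mul]
    have h8 : ∑ k ∈ bd, zt M₁ (nk p.l Mc ∅ k X) * nk p.l Mc (∅ : Finset ι) k X ≤
        ∑ k : Fin 3 → Fin Mc, zt M₁ (nk p.l Mc ∅ k X) * nk p.l Mc (∅ : Finset ι) k X :=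
      Finset.sum_le_sum_of_subset_of_nonneg (Finset.subset_univ _)
        (fun k _ _ => mul_nonneg (zt01 _).1 ((zn ∅ k).2.2 X).1)
    have h9 : (bd.card : ℝ) * (2 * M₁) ≤ 84 * (Mc : ℝ) ^ 2 * (2 * M₁) :=
      mul_le_mul_of_nonneg_right g8 (by positivity)
    linarith
  linarith

end Pool.Agent.TBS
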