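import Pool.Agent.TBS.StmtsC
import Pool.Agent.TBL.TLA

set_option autoImplicit false

open MeasureTheory Filter Topology
open scoped ContDiff

namespace Pool.Agent.TBS

open Pool.Agent.TBG Pool.Agent.TBL Pool.Agent.TBF

namespace CLD_

variable {ι : Type} [Fintype ι] [DecidableEq ι]

/-- the product cubes -/
def pc (ι : Type) (M : ℕ) (ℓ : ℝ) (α : ι → (Fin 3 → Fin M)) : Set (ι → E) :=
  {X : ι → E | ∀ i, X i ∈ cub ℓ (crn ℓ M (α i))}

omit [Fintype ι] [DecidableEq ι] in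
theorem pc_eq (M : ℕ) (ℓ : ℝ) (α : ι → (Fin 3 → Fin M)) :
    pc ι M ℓ α = Set.pi Set.univ (fun i => cub ℓ (crn ℓ M (α i))) := by
  ext X
  simp [pc]

omit [DecidableEq ι] in
theorem pc_meas (M : ℕ) (ℓ : ℝ) (α : ι → (Fin 3 → Fin M)) : MeasurableSet (pc ι M ℓ α) := by
  rw [pc_eq]
  exact MeasurableSet.univ_pi fun _ => TLA_.meas _ _

omit [Fintype ι] [DecidableEq ι] in
theorem pc_disj {M : ℕ} {ℓ : ℝ} (hℓ : 0 < ℓ) :
    Pairwise (Function.onFun Disjoint (fun α : ι → (Fin 3 → Fin M) => pc ι M ℓ α)) := by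
  intro α β hαβ
  show Disjoint (pc ι M ℓ α) (pc ι M ℓ β)
  rw [Set.disjoint_left]
  intro X hX hX'
  apply hαβ
  funext i c
  have h1 := hX i c
  have h2 := hX' i c
  rw [TLA_.crn_apply] at h1 h2
  by_contra hne
  have hne' : (α i c : ℕ) ≠ (β i c : ℕ) := fun h => hne (Fin.ext h)
  rcases lt_or_gt_of_ne hne' with h | h
  · exact TLA_.lt_aux hℓ h h1.2 h2.1
  · exact TLA_.lt_aux hℓ h h2.2 h1.1

omit [Fintype ι] [DecidableEq ι] in
theorem box_sub {M : ℕ} {ℓ : ℝ} (hℓ : 0 < ℓ) {X : ι → E} (hX : ∀ i c, |X i c| < (M : ℝ) * ℓ / 2) :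
    X ∈ ⋃ α, pc ι M ℓ α := by
  have h1 : ∀ i c, ∃ k : Fin M, -((M : ℝ) * ℓ / 2) + ((k : ℕ) : ℝ) * ℓ ≤ X i c ∧
      X i c < -((M : ℝ) * ℓ / 2) + ((k : ℕ) : ℝ) * ℓ + ℓ := fun i c => TLA_.ex_k hℓ (hX i c)
  choose k hk using h1
  exact Set.mem_iUnion.2 ⟨k, fun i c => hk i c⟩

omit [Fintype ι] [DecidableEq ι] in
theorem pc_bd {M : ℕ} {ℓ : ℝ} (hℓ : 0 < ℓ) {α : ι → (Fin 3 → Fin M)} {X : ι → E}
    (hX : X ∈ pc ι M ℓ α) (i : ι) (c : Fin 3) :
    -((M : ℝ) * ℓ / 2) ≤ X i c ∧ X i c < (M : ℝ) * ℓ / 2 := by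
  have h1 := hX i c
  rw [TLA_.crn_apply] at h1
  have h2 : (((α i c : ℕ) : ℝ)) + 1 ≤ (M : ℝ) := by exact_mod_cast (α i c).2
  have h3 : (0 : ℝ) ≤ ((α i c : ℕ) : ℝ) := Nat.cast_nonneg _
  constructor
  · have := mul_nonneg h3 hℓ.le
    linarith [h1.1]
  · have := mul_le_mul_of_nonneg_right h2 hℓ.le
    linarith [h1.2]

omit [DecidableEq ι] in
theorem compactN (R : ℝ) : IsCompact {X : ι → E | ∀ i c, |X i c| ≤ R} := by
  have h2 : {X : ι → E | ∀ i c, |X i c| ≤ R} =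
      Set.pi Set.univ (fun _ : ι => {x : E | ∀ c, |x c| ≤ R}) := by
    ext X
    simp
  rw [h2]
  exact isCompact_univ_pi fun _ => TLA_.compact1 R

omit [DecidableEq ι] in
theorem intOn {M : ℕ} {ℓ : ℝ} (hℓ : 0 < ℓ) {F : (ι → E) → ℝ} (hF : BM F)
    (α : ι → (Fin 3 → Fin M)) : IntegrableOn F (pc ι M ℓ α) := by
  have hsub : pc ι M ℓ α ⊆ {X : ι → E | ∀ i c, |X i c| ≤ (M : ℝ) * ℓ / 2} := by
    intro X hX i c
    have := pc_bd hℓ hX i c
    exact abs_le.2 ⟨this.1, this.2.le⟩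
  refine IntegrableOn.mono_set ?_ hsub
  obtain ⟨hm, C, hC⟩ := hF
  exact Measure.integrableOn_of_bounded (M := C) (compactN _).measure_lt_top.ne
    hm.aestronglyMeasurable (Eventually.of_forall fun X => by
      rw [Real.norm_eq_abs]
      exact hC X)

omit [DecidableEq ι] in
theorem nullN (a : ℝ) : ∀ᵐ X : ι → E, ∀ i c, X i c ≠ a := by
  rw [eventually_all]
  intro i
  rw [eventually_all]
  intro c
  have hq : Measure.QuasiMeasurePreserving (Function.eval i) (volume : Measure (ι → E))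
      (volume : Measure E) := Measure.quasiMeasurePreserving_eval _ i
  exact hq.ae (TLA_.null1 c a)

theorem io_eq (p : Par) (F : (ι → E) → ℝ) : IO p F = ∫ X in Set.pi Set.univ (fun _ : ι => Om p.L), F X := by
  unfold IO PiS mO
  have h : (Measure.pi (fun i : ι => if i ∈ (∅ : Finset ι) then (volume : Measure E).restrict (Om p.L)
      else (volume : Measure E).restrict (Om p.L))) =
      (volume : Measure (ι → E)).restrict (Set.pi Set.univ (fun _ : ι => Om p.L)) := by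
    simp only [ite_self]
    rw [volume_pi, Measure.restrict_pi_pi]
  rw [h]

end CLD_

open CLD_ in
theorem cld_proof (_hBMC : Pool.Agent.TBL.Stmt_BMC) (_hGRD : Stmt_GRD) (_hTLA : Pool.Agent.TBL.Stmt_TLA) :
    Stmt_CLD := by
  intro ι _ _ p Mc F hG hF
  have hl := hG.l0
  have hL : p.L = (Mc : ℝ) * p.l := by
    rw [hG.eq]
    rfl
  rw [io_eq, hL]
  have h1 : (Set.pi Set.univ (fun _ : ι => Om ((Mc : ℝ) * p.l)) : Set (ι → E)) =ᵐ[volume]
      ⋃ α, pc ι Mc p.l α := by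
    filter_upwards [nullN (ι := ι) (-((Mc : ℝ) * p.l / 2))] with X hX
    apply propext
    constructor
    · intro h
      exact box_sub hl (fun i c => h i (Set.mem_univ i) c)
    · intro h
      obtain ⟨α, hα⟩ := Set.mem_iUnion.1 h
      intro i _ c
      have h2 := pc_bd hl hα i c
      exact abs_lt.2 ⟨lt_of_le_of_ne h2.1 (Ne.symm (hX i c)), h2.2⟩
  rw [setIntegral_congr_set h1]
  exact integral_iUnion_fintype (fun α => pc_meas Mc p.l α) (pc_disj hl) (fun α => intOn hl hF α)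

end Pool.Agent.TBS
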