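import Pool.Agent.TBS.StmtsB

/-!
# Three-body Bose gases, sharp lower bound, module CLE: exact integration over a cluster
-/

set_option autoImplicit false

open MeasureTheory Filter Topology
open scoped ContDiff

namespace Pool.Agent.TBS

open Pool.Agent.TBG Pool.Agent.TBL Pool.Agent.TBF

namespace CLE_

variable {ι : Type} [Fintype ι] [DecidableEq ι]

omit [Fintype ι] [DecidableEq ι] in
lemma ext_mem {k : ℕ} (e : Fin k → ι) (he : Function.Injective e) (y : Fin k → E) (X : ι → E)
    (t : Fin k) : Function.extend e y X (e t) = y t := he.extend_apply _ _ _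

omit [Fintype ι] in
lemma ext_not {k : ℕ} (e : Fin k → ι) (y : Fin k → E) (X : ι → E) (i : ι) (hi : i ∉ im e) :
    Function.extend e y X i = X i := by
  refine Function.extend_apply' _ _ _ ?_
  rintro ⟨t, rfl⟩
  exact hi (Finset.mem_image_of_mem e (Finset.mem_univ t))

omit [Fintype ι] in
lemma ovm {k : ℕ} (e : Fin k → ι) (he : Function.Injective e) :
    Measurable (fun q : (Fin k → E) × (ι → E) => Function.extend e q.1 q.2) := by
  refine measurable_pi_iff.2 fun i => ?_
  by_cases hi : i ∈ im e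
  · obtain ⟨t, -, rfl⟩ := Finset.mem_image.1 hi
    have : (fun q : (Fin k → E) × (ι → E) => Function.extend e q.1 q.2 (e t)) =
        fun q => q.1 t := by
      funext q
      exact ext_mem e he _ _ t
    rw [this]
    fun_prop
  · have : (fun q : (Fin k → E) × (ι → E) => Function.extend e q.1 q.2 i) = fun q => q.2 i := by
      funext q
      exact ext_not e _ _ i hi
    rw [this]
    fun_prop

lemma mp {k : ℕ} (m n : Measure E) [IsProbabilityMeasure m] [IsFiniteMeasure n]
    (e : Fin k → ι) (he : Function.Injective e) :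
    MeasurePreserving (fun q : (Fin k → E) × (ι → E) => Function.extend e q.1 q.2)
      ((Measure.pi fun _ : Fin k => n).prod (PiS m n (im e))) (Measure.pi fun _ : ι => n) := by
  have hsf : ∀ i : ι, SigmaFinite (if i ∈ im e then m else n) := by
    intro i
    split_ifs <;> infer_instance
  have hSF : SFinite (PiS m n (im e)) := by
    unfold PiS
    infer_instance
  refine ⟨ovm e he, ?_⟩
  refine (Measure.pi_eq fun s hs => ?_).symm
  rw [Measure.map_apply (ovm e he) (MeasurableSet.univ_pi hs)]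
  have h1 : (fun q : (Fin k → E) × (ι → E) => Function.extend e q.1 q.2) ⁻¹' (Set.univ.pi s) =
      (Set.univ.pi fun t => s (e t)) ×ˢ
        (Set.univ.pi fun i => if i ∈ im e then Set.univ else s i) := by
    ext q
    simp only [Set.mem_preimage, Set.mem_univ_pi, Set.mem_prod]
    constructor
    · intro h
      refine ⟨fun t => ?_, fun i => ?_⟩
      · have := h (e t)
        rwa [ext_mem e he] at this
      · split_ifs with hi
        · trivial
        · have := h i
          rwa [ext_not e _ _ i hi] at this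
    · rintro ⟨h, h'⟩ i
      by_cases hi : i ∈ im e
      · obtain ⟨t, -, rfl⟩ := Finset.mem_image.1 hi
        rw [ext_mem e he]
        exact h t
      · have := h' i
        rw [if_neg hi] at this
        rwa [ext_not e _ _ i hi]
  rw [h1, Measure.prod_prod, Measure.pi_pi, PiS, Measure.pi_pi]
  have h2 : ∏ t, n (s (e t)) = ∏ i ∈ im e, n (s i) := by
    unfold im
    rw [Finset.prod_image fun a _ b _ hab => he hab]
  have h3 : ∏ i, (if i ∈ im e then m else n) (if i ∈ im e then Set.univ else s i) =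
      ∏ i ∈ (im e)ᶜ, n (s i) := by
    rw [← Finset.prod_mul_prod_compl (im e)]
    have h4 : ∏ i ∈ im e, (if i ∈ im e then m else n) (if i ∈ im e then Set.univ else s i) = 1 := by
      refine Finset.prod_eq_one fun i hi => ?_
      rw [if_pos hi, if_pos hi, measure_univ]
    rw [h4, one_mul]
    refine Finset.prod_congr rfl fun i hi => ?_
    rw [Finset.mem_compl] at hi
    rw [if_neg hi, if_neg hi]
  rw [h2, h3, Finset.prod_mul_prod_compl]

/-- the centre of mass of a tuple -/
noncomputable def ccn {k : ℕ} (y : Fin (k + 1) → E) : E := ((k : ℝ) + 1)⁻¹ • ∑ t, y t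

omit [Fintype ι] in
lemma cen_eq {k : ℕ} (e : Fin (k + 1) → ι) (he : Function.Injective e) (y : Fin (k + 1) → E)
    (X : ι → E) : cen (im e) (Function.extend e y X) = ccn y := by
  unfold cen im ccn
  rw [Finset.card_image_of_injective _ he, Finset.sum_image fun a _ b _ hab => he hab]
  simp only [Finset.card_univ, Fintype.card_fin, ext_mem e he]
  push_cast
  rfl

lemma ccn_apply {k : ℕ} (y : Fin (k + 1) → E) (c : Fin 3) :
    ccn y c = ((k : ℝ) + 1)⁻¹ * ∑ t, y t c := by
  unfold ccn
  rw [PiLp.smul_apply, smul_eq_mul, WithLp.ofLp_sum, Finset.sum_apply]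

lemma ccn_add {k : ℕ} (y : Fin (k + 1) → E) (x : E) : ccn (fun s => y s + x) = x + ccn y := by
  unfold ccn
  rw [Finset.sum_add_distrib, Finset.sum_const, Finset.card_univ, Fintype.card_fin, smul_add,
    ← Nat.cast_smul_eq_nsmul ℝ, smul_smul]
  have hk : (0 : ℝ) < (k : ℝ) + 1 := by positivity
  push_cast
  rw [inv_mul_cancel₀ hk.ne', one_smul, add_comm]

lemma ccn_meas {k : ℕ} : Measurable (ccn : (Fin (k + 1) → E) → E) := by
  unfold ccn
  fun_prop

lemma near0 {k : ℕ} {l : ℝ} (y : Fin (k + 1) → E) (c : Fin 3) (h1 : ∀ s, |y s c - y 0 c| ≤ l) :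
    |ccn y c - y 0 c| ≤ l := by
  rw [ccn_apply]
  have hk : (0 : ℝ) < (k : ℝ) + 1 := by positivity
  have h3 : ((k : ℝ) + 1)⁻¹ * ∑ t, y t c - y 0 c = ((k : ℝ) + 1)⁻¹ * ∑ t, (y t c - y 0 c) := by
    rw [Finset.sum_sub_distrib, Finset.sum_const, Finset.card_univ, Fintype.card_fin,
      nsmul_eq_mul, mul_sub]
    push_cast
    field_simp
  rw [h3, abs_mul, abs_of_pos (inv_pos.2 hk)]
  have h5 : |∑ t, (y t c - y 0 c)| ≤ ((k : ℝ) + 1) * l := by
    refine (Finset.abs_sum_le_sum_abs _ _).trans ?_
    refine (Finset.sum_le_card_nsmul _ _ l fun t _ => h1 t).trans ?_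
    rw [Finset.card_univ, Fintype.card_fin, nsmul_eq_mul]
    push_cast
    exact le_rfl
  calc ((k : ℝ) + 1)⁻¹ * |∑ t, (y t c - y 0 c)| ≤ ((k : ℝ) + 1)⁻¹ * (((k : ℝ) + 1) * l) := by
        gcongr
    _ = l := by field_simp

lemma near {k : ℕ} {l : ℝ} (y : Fin (k + 1) → E) (c : Fin 3) (a : E)
    (h1 : ∀ s, |y s c - y 0 c| ≤ l) (h2 : |ccn y c - a c| ≤ l) :
    |y 0 c - a c| ≤ 2 * l := by
  have h4 := near0 y c h1
  rw [abs_le] at *
  constructor <;> linarith [h2.1, h2.2, h4.1, h4.2]

lemma int_of {α : Type} [MeasurableSpace α] (μ : Measure α) (f : α → ℝ) (s : Set α) (B : ℝ)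
    (hs : μ s < ⊤) (hf : Measurable f) (hb : ∀ x, |f x| ≤ B) (h0 : ∀ x, f x ≠ 0 → x ∈ s) :
    Integrable f μ := by
  have hi : IntegrableOn f s μ :=
    IntegrableOn.of_bound hs hf.aestronglyMeasurable B (Eventually.of_forall fun z => hb z)
  exact (integrableOn_iff_integrable_of_support_subset fun z hz => h0 z hz).1 hi

lemma cons_meas {m : ℕ} : Measurable (fun q : E × (Fin m → E) => (Fin.cons q.1 q.2 : Fin (m + 1) → E)) := by
  refine measurable_pi_iff.2 fun i => ?_
  refine Fin.cases ?_ (fun j => ?_) i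
  · simp only [Fin.cons_zero]
    exact measurable_fst
  · simp only [Fin.cons_succ]
    exact (measurable_pi_apply j).comp measurable_snd

lemma cons_add {m : ℕ} (x : E) (z : Fin m → E) :
    (Fin.cons x (z + fun _ => x) : Fin (m + 1) → E) = fun s => (Fin.cons 0 z : Fin (m + 1) → E) s + x := by
  funext s
  refine Fin.cases ?_ (fun j => ?_) s
  · simp
  · simp

/-- the integral over the positions of a cluster -/
lemma core {m : ℕ} (a : E) (l B BK J : ℝ) (hl : 0 ≤ l) (hvQ : ∀ r : ℝ, 0 ≤ r → ∀ b : E, volume (Qb b r) < ⊤)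
    (β : E → ℝ) (hβm : Measurable β) (hβb : ∀ x, |β x| ≤ B) (hβs : ∀ x, β x ≠ 0 → x ∈ Qb a l)
    (hβi : ∫ x, β x = J)
    (K : (Fin (m + 1) → E) → ℝ) (hKm : Measurable K) (hKb : ∀ x, |K x| ≤ BK)
    (hKs : ∀ x, K x ≠ 0 → ∀ s c, |x s c - x 0 c| ≤ l)
    (hKt : ∀ (x : Fin (m + 1) → E) (v : E), K (fun s => x s + v) = K x) :
    ∫ y : Fin (m + 1) → E, β (ccn y) * K y = J * ∫ z : Fin m → E, K (Fin.cons 0 z) := by
  have hfm : Measurable (fun y : Fin (m + 1) → E => β (ccn y) * K y) := (hβm.comp ccn_meas).mul hKm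
  have hb : ∀ y : Fin (m + 1) → E, |β (ccn y) * K y| ≤ B * BK := by
    intro y
    rw [abs_mul]
    exact mul_le_mul (hβb _) (hKb _) (abs_nonneg _) ((abs_nonneg _).trans (hβb a))
  have hi1 : Integrable (fun q : E × (Fin m → E) => β (ccn (Fin.cons q.1 q.2 : Fin (m + 1) → E)) *
      K (Fin.cons q.1 q.2)) (volume.prod volume) := by
    refine int_of _ _ ((Qb a (2 * l)) ×ˢ (Set.univ.pi fun _ : Fin m => Qb a (3 * l))) (B * BK) ?_
      (hfm.comp cons_meas) (fun q => hb _) ?_
    · rw [Measure.prod_prod, volume_pi_pi]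
      exact ENNReal.mul_lt_top (hvQ _ (by linarith) _)
        (ENNReal.prod_lt_top fun _ _ => hvQ _ (by linarith) _)
    · intro q hq
      have h1 : β (ccn (Fin.cons q.1 q.2 : Fin (m + 1) → E)) ≠ 0 := left_ne_zero_of_mul hq
      have h2 : K (Fin.cons q.1 q.2) ≠ 0 := right_ne_zero_of_mul hq
      have h3 : ∀ c, |(Fin.cons q.1 q.2 : Fin (m + 1) → E) 0 c - a c| ≤ 2 * l := fun c =>
        near _ c a (fun s => hKs _ h2 s c) (hβs _ h1 c)
      refine ⟨fun c => by simpa using h3 c, fun j _ c => ?_⟩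
      have h4 := hKs _ h2 j.succ c
      have h5 := h3 c
      simp only [Fin.cons_succ, Fin.cons_zero] at h4 h5
      rw [abs_le] at *
      constructor <;> linarith [h4.1, h4.2, h5.1, h5.2]
  have hi2 : Integrable (fun q : E × (Fin m → E) => β (q.1 + ccn (Fin.cons 0 q.2 : Fin (m + 1) → E)) *
      K (Fin.cons 0 q.2)) (volume.prod volume) := by
    have hc0 : Measurable (fun q : E × (Fin m → E) => (Fin.cons 0 q.2 : Fin (m + 1) → E)) :=
      cons_meas.comp (measurable_const.prodMk measurable_snd)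
    refine int_of _ _ ((Qb a (2 * l)) ×ˢ (Set.univ.pi fun _ : Fin m => Qb 0 l)) (B * BK) ?_
      ((hβm.comp (measurable_fst.add (ccn_meas.comp hc0))).mul (hKm.comp hc0)) (fun q => ?_) ?_
    · rw [Measure.prod_prod, volume_pi_pi]
      exact ENNReal.mul_lt_top (hvQ _ (by linarith) _)
        (ENNReal.prod_lt_top fun _ _ => hvQ _ hl _)
    · rw [abs_mul]
      exact mul_le_mul (hβb _) (hKb _) (abs_nonneg _) ((abs_nonneg _).trans (hβb a))
    · intro q hq
      have h1 : β (q.1 + ccn (Fin.cons 0 q.2 : Fin (m + 1) → E)) ≠ 0 := left_ne_zero_of_mul hq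
      have h2 : K (Fin.cons 0 q.2) ≠ 0 := right_ne_zero_of_mul hq
      refine ⟨fun c => ?_, fun j _ c => ?_⟩
      · have h4 := near0 (Fin.cons 0 q.2 : Fin (m + 1) → E) c (fun s => hKs _ h2 s c)
        have h5 := hβs _ h1 c
        simp only [Fin.cons_zero, PiLp.add_apply, PiLp.zero_apply] at h4 h5
        rw [abs_le] at *
        constructor <;> linarith [h4.1, h4.2, h5.1, h5.2]
      · have h4 := hKs _ h2 j.succ c
        simpa using h4
  calc ∫ y : Fin (m + 1) → E, β (ccn y) * K y
      = ∫ q : E × (Fin m → E), β (ccn (Fin.cons q.1 q.2 : Fin (m + 1) → E)) * K (Fin.cons q.1 q.2) := by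
        rw [← ((volume_preserving_piFinSuccAbove (fun _ : Fin (m + 1) => E) 0).symm _
          ).integral_comp (MeasurableEquiv.measurableEmbedding _)]
        refine integral_congr_ae (Eventually.of_forall fun q => ?_)
        show β (ccn ((0 : Fin (m + 1)).insertNth q.1 q.2)) * K ((0 : Fin (m + 1)).insertNth q.1 q.2) = _
        rw [Fin.insertNth_zero']
    _ = ∫ x : E, ∫ z : Fin m → E, β (ccn (Fin.cons x z : Fin (m + 1) → E)) * K (Fin.cons x z) := by
        rw [Measure.volume_eq_prod, integral_prod _ hi1]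
    _ = ∫ x : E, ∫ z : Fin m → E, β (x + ccn (Fin.cons 0 z : Fin (m + 1) → E)) * K (Fin.cons 0 z) := by
        refine integral_congr_ae (Eventually.of_forall fun x => ?_)
        show ∫ z : Fin m → E, β (ccn (Fin.cons x z : Fin (m + 1) → E)) * K (Fin.cons x z) =
          ∫ z : Fin m → E, β (x + ccn (Fin.cons 0 z : Fin (m + 1) → E)) * K (Fin.cons 0 z)
        rw [← integral_add_right_eq_self (fun z : Fin m → E =>
          β (ccn (Fin.cons x z : Fin (m + 1) → E)) * K (Fin.cons x z)) (fun _ => x)]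
        refine integral_congr_ae (Eventually.of_forall fun z => ?_)
        show β (ccn (Fin.cons x (z + fun _ => x) : Fin (m + 1) → E)) * K (Fin.cons x (z + fun _ => x)) =
          β (x + ccn (Fin.cons 0 z : Fin (m + 1) → E)) * K (Fin.cons 0 z)
        rw [cons_add, ccn_add, hKt]
    _ = ∫ z : Fin m → E, ∫ x : E, β (x + ccn (Fin.cons 0 z : Fin (m + 1) → E)) * K (Fin.cons 0 z) :=
        integral_integral_swap hi2
    _ = ∫ z : Fin m → E, J * K (Fin.cons 0 z) := by
        refine integral_congr_ae (Eventually.of_forall fun z => ?_)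
        show ∫ x : E, β (x + ccn (Fin.cons 0 z : Fin (m + 1) → E)) * K (Fin.cons 0 z) =
          J * K (Fin.cons 0 z)
        rw [integral_mul_const, integral_add_right_eq_self (fun x : E => β x), hβi]
    _ = J * ∫ z : Fin m → E, K (Fin.cons 0 z) := integral_const_mul _ _

end CLE_

open CLE_

theorem cle_proof (_hBMC : Pool.Agent.TBL.Stmt_BMC) (hMSY : Stmt_MSY) (_hPSF : Stmt_PSF) :
    Stmt_CLE := by
  intro C m ι _ _ p β θ K F hsys hK hKs hKt hF a ha e he hind
  obtain ⟨hl1, hfin, hOm, -, hQb, hsubQ, hprob, -, -, -, -, -⟩ := hMSY C p β θ hsys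
  have hinj : Function.Injective e := by
    have := he
    unfold Ij at this
    simpa using this
  have hfin' : IsFiniteMeasure (mO p.L) := hfin
  have hp : IsProbabilityMeasure (tm (θ a)) := hprob a
  have hl : 0 ≤ p.l := by linarith
  have hKm : Measurable K := hK.1
  have hFm : Measurable F := hF.1
  obtain ⟨CF, hCF⟩ := hF.2
  obtain ⟨CK, hCK⟩ := hK.2
  have hvQ : ∀ r : ℝ, 0 ≤ r → ∀ b : E, volume (Qb b r) < ⊤ := by
    intro r hr b
    rw [(hQb b r).2 hr]
    exact ENNReal.ofReal_lt_top
  have hsf : ∀ i : ι, SigmaFinite (if i ∈ im e then tm (θ a) else mO p.L) := by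
    intro i
    split_ifs <;> infer_instance
  have hff : ∀ i : ι, IsFiniteMeasure (if i ∈ im e then tm (θ a) else mO p.L) := by
    intro i
    split_ifs <;> infer_instance
  have hfP : IsFiniteMeasure (PiS (tm (θ a)) (mO p.L) (im e)) := by
    unfold PiS
    infer_instance
  have hempty : PiS (mO p.L) (mO p.L) (∅ : Finset ι) = Measure.pi fun _ : ι => mO p.L := by
    unfold PiS
    simp
  have hβm : Measurable (β a) := (hsys.βs a).continuous.measurable
  obtain ⟨CB, hCB⟩ : ∃ B, ∀ x, |β a x| ≤ B := by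
    have hcpt : HasCompactSupport (β a) := by
      refine HasCompactSupport.of_support_subset_isCompact
        (isCompact_closedBall (0 : E) (‖a‖ + 2 * p.l)) ?_
      intro x hx
      have h1 := hsys.βsp a x hx
      have h2 : ‖x - a‖ ≤ 2 * p.l := by
        rw [EuclideanSpace.norm_eq, Real.sqrt_le_left (by linarith), Fin.sum_univ_three]
        have h3 : ∀ c, ‖(x - a) c‖ ^ 2 ≤ p.l ^ 2 := by
          intro c
          rw [PiLp.sub_apply, Real.norm_eq_abs]
          exact pow_le_pow_left₀ (abs_nonneg _) (h1 c) 2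
        have h4 := h3 0
        have h5 := h3 1
        have h6 := h3 2
        nlinarith [sq_nonneg p.l]
      rw [mem_closedBall_zero_iff]
      calc ‖x‖ = ‖(x - a) + a‖ := by rw [sub_add_cancel]
        _ ≤ ‖x - a‖ + ‖a‖ := norm_add_le _ _
        _ ≤ ‖a‖ + 2 * p.l := by linarith
    obtain ⟨B, hB⟩ := hcpt.exists_bound_of_continuous (hsys.βs a).continuous
    exact ⟨B, fun x => by simpa [Real.norm_eq_abs] using hB x⟩
  have hcenm : Measurable (cen (im e) : (ι → E) → E) := by
    unfold cen
    fun_prop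
  set H : (ι → E) → ℝ := fun X => β a (cen (im e) X) * (K (X ∘ e) * F X) with hH
  have hHm : Measurable H := by
    refine (hβm.comp hcenm).mul ((hKm.comp ?_).mul hFm)
    exact measurable_pi_iff.2 fun s => measurable_pi_apply (e s)
  have hHb : ∀ X, |H X| ≤ CB * (CK * CF) := by
    intro X
    have h1 : |K (X ∘ e) * F X| ≤ CK * CF := by
      rw [abs_mul]
      exact mul_le_mul (hCK _) (hCF _) (abs_nonneg _) ((abs_nonneg _).trans (hCK (X ∘ e)))
    show |β a (cen (im e) X) * (K (X ∘ e) * F X)| ≤ _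
    rw [abs_mul]
    exact mul_le_mul (hCB _) h1 (abs_nonneg _) ((abs_nonneg _).trans (hCB a))
  -- the integral over the particles of the cluster
  have hval : ∀ (y : Fin (m + 1) → E) (X : ι → E), H (Function.extend e y X) =
      β a (ccn y) * K y * F X := by
    intro y X
    have h1 : Function.extend e y X ∘ e = y := Function.extend_comp hinj _ _
    have h2 : F (Function.extend e y X) = F X := hind _ _ fun i hi => ext_not e _ _ i hi
    show β a (cen (im e) (Function.extend e y X)) * (K (Function.extend e y X ∘ e) *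
      F (Function.extend e y X)) = _
    rw [h1, h2, cen_eq e hinj]
    ring
  have hzero : ∀ y : Fin (m + 1) → E, y ∉ (Set.univ.pi fun _ : Fin (m + 1) => Om p.L) →
      β a (ccn y) * K y = 0 := by
    intro y hy
    by_contra hne
    have h1 : β a (ccn y) ≠ 0 := left_ne_zero_of_mul hne
    have h2 : K y ≠ 0 := right_ne_zero_of_mul hne
    have h3 : ∀ c, |y 0 c - a c| ≤ 2 * p.l := fun c =>
      near _ c a (fun s => hKs _ h2 s c) (hsys.βsp a _ h1 c)
    refine hy fun s _ => ?_
    refine hsys.inb a ha (hsubQ a (10 * p.l) le_rfl ?_)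
    intro c
    have h4 := hKs _ h2 s c
    have h5 := h3 c
    rw [abs_le] at *
    constructor <;> linarith [h4.1, h4.2, h5.1, h5.2]
  have hcl : ∫ y, β a (ccn y) * K y ∂(Measure.pi fun _ : Fin (m + 1) => mO p.L) =
      p.l ^ 3 * ∫ z : Fin m → E, K (Fin.cons 0 z) := by
    have h1 : (Measure.pi fun _ : Fin (m + 1) => mO p.L) =
        (volume : Measure (Fin (m + 1) → E)).restrict (Set.univ.pi fun _ => Om p.L) := by
      unfold mO
      rw [← Measure.restrict_pi_pi]
      rfl
    rw [h1, setIntegral_eq_integral_of_forall_compl_eq_zero hzero]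
    exact core a p.l CB CK _ hl hvQ (β a) hβm hCB (hsys.βsp a) (hsys.βm a) K hKm hCK hKs hKt
  unfold IO
  rw [hempty, ← (mp (tm (θ a)) (mO p.L) e hinj).map_eq,
    integral_map (ovm e hinj).aemeasurable hHm.aestronglyMeasurable]
  have hint : Integrable (fun q : (Fin (m + 1) → E) × (ι → E) => H (Function.extend e q.1 q.2))
      ((Measure.pi fun _ : Fin (m + 1) => mO p.L).prod (PiS (tm (θ a)) (mO p.L) (im e))) :=
    Integrable.of_bound (hHm.comp (ovm e hinj)).aestronglyMeasurable (CB * (CK * CF))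
      (Eventually.of_forall fun q => hHb _)
  rw [integral_prod_symm _ hint]
  have h2 : ∀ X : ι → E, ∫ y, H (Function.extend e y X) ∂(Measure.pi fun _ : Fin (m + 1) => mO p.L) =
      (p.l ^ 3 * ∫ z : Fin m → E, K (Fin.cons 0 z)) * F X := by
    intro X
    simp only [hval]
    rw [integral_mul_const, hcl]
  simp only [h2]
  rw [integral_const_mul]
  rfl

end Pool.Agent.TBS
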