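import Pool.Agent.TBS.StmtsB
import Pool.Agent.TBF.RLP
import Pool.Agent.TBF.PMV

/-!
# Three-body Bose gases, sharp lower bound, module CLI: relative coordinates
-/

set_option autoImplicit false

open MeasureTheory Filter Topology
open scoped ContDiff

namespace Pool.Agent.TBS

open Pool.Agent.TBG Pool.Agent.TBL Pool.Agent.TBF

namespace CLI_

lemma two (G : E × E → ℝ) : ∫ z : Fin 2 → E, G (z 0, z 1) = ∫ q, G q :=
  (volume_preserving_finTwoArrow E).integral_comp
    (MeasurableEquiv.finTwoArrow (α := E)).measurableEmbedding G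

lemma three (G : W4 → ℝ) : ∫ z : Fin 3 → E, G (z 0, z 1, z 2) = ∫ q, G q := by
  have h1 : ∫ z : Fin 3 → E, G (z 0, z 1, z 2) = ∫ q : E × (Fin 2 → E), G (q.1, q.2 0, q.2 1) := by
    rw [← ((volume_preserving_piFinSuccAbove (fun _ : Fin 3 => E) 0).symm _
      ).integral_comp (MeasurableEquiv.measurableEmbedding _)]
    refine integral_congr_ae (Eventually.of_forall fun q => ?_)
    show G (((0 : Fin 3).insertNth q.1 q.2 : Fin 3 → E) 0, ((0 : Fin 3).insertNth q.1 q.2 : Fin 3 → E) 1,
      ((0 : Fin 3).insertNth q.1 q.2 : Fin 3 → E) 2) = G (q.1, q.2 0, q.2 1)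
    rw [Fin.insertNth_zero']
    rfl
  rw [h1]
  have h2 : MeasurePreserving (MeasurableEquiv.prodCongr (MeasurableEquiv.refl E)
      (MeasurableEquiv.finTwoArrow (α := E))) (volume : Measure (E × (Fin 2 → E)))
      (volume : Measure W4) :=
    (MeasurePreserving.id (volume : Measure E)).prod (volume_preserving_finTwoArrow E)
  exact h2.integral_comp (MeasurableEquiv.measurableEmbedding _) G

lemma negInv (k : ℕ) : (volume : Measure (Fin k → E)).IsNegInvariant :=
  Pi.isNegInvariant_volume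

end CLI_

open CLI_

theorem cli_proof : Stmt_CLI := by
  have hRLP : Pool.Agent.TBF.Stmt_RLP := Pool.Agent.TBF.rlp_proof
  have hPMV : Pool.Agent.TBF.Stmt_PMV := Pool.Agent.TBF.pmv_proof hRLP
  have i2 := negInv 2
  have i3 := negInv 3
  refine ⟨fun G x₀ => ?_, fun G x₀ σ => ?_⟩
  · rw [← two G, ← integral_sub_left_eq_self (fun z : Fin 2 → E => G (z 0, z 1)) volume (fun _ => x₀)]
    rfl
  · have h1 : ∀ z : Fin 3 → E, G (rl ((Fin.cons x₀ z : Fin 4 → E) ∘ σ)) =
        G (Pm σ (rl (Fin.cons x₀ z : Fin 4 → E))) := by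
      intro z
      rw [hRLP.2.2.2.1]
      rfl
    simp only [h1]
    rw [← (hPMV σ).2.1 G, ← three (fun q => G (Pm σ q)),
      ← integral_sub_left_eq_self (fun z : Fin 3 → E => G (Pm σ (z 0, z 1, z 2))) volume (fun _ => x₀)]
    rfl

end Pool.Agent.TBS
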