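import Pool.Agent.TBS.StmtsC

/-!
# Three-body Bose gases (MP_80dc41_mp), sharp lower bound: the classical inequality
-/

set_option autoImplicit false

open MeasureTheory Filter Topology
open scoped ContDiff

namespace Pool.Agent.TBS

open Pool.Agent.TBG Pool.Agent.TBL Pool.Agent.TBF

namespace CLQ_

lemma vt_cases {ι : Type} [Fintype ι] [DecidableEq ι] (p : Par) (a : E) (S : Finset ι) (X : ι → E) :
    vt p a S X = 0 ∨ vt p a S X = 1 := by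
  unfold vt
  split_ifs
  · right; rfl
  · left; rfl

lemma pz_nn {ι : Type} [Fintype ι] [DecidableEq ι] (p : Par) (a : E) (S : Finset ι) (X : ι → E) :
    0 ≤ pz p a S X := by
  unfold pz
  split_ifs
  · exact zero_le_one
  · exact le_refl 0

/-- the number of the cubes at the boundary or next to a dense cube -/
lemma pz_sum {ι : Type} [Fintype ι] [DecidableEq ι] (p : Par) (X : ι → E) (s : E → ℝ) (B T : ℝ)
    (hs0 : ∀ a ∈ p.Gr, 0 ≤ s a) (hs1 : ∀ a ∈ p.Gr, vt p a ∅ X = 0 → 1 ≤ s a)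
    (hB : (((p.Gr \ p.Gi).card : ℕ) : ℝ) ≤ B)
    (hN : ∀ a ∈ p.Gr, (((p.Gr.filter (fun a' => ∀ c, |a' c - a c| ≤ 2 * p.l)).card : ℕ) : ℝ) ≤ 125)
    (hT : ∑ a ∈ p.Gr, s a ≤ T) :
    ∑ a ∈ p.Gr, pz p a ∅ X ≤ B + 125 * T := by
  classical
  have h1 : ∀ a ∈ p.Gr, pz p a ∅ X ≤ (if a ∉ p.Gi then (1 : ℝ) else 0) +
      ∑ a' ∈ p.Gr, (if (∀ c, |a c - a' c| ≤ 2 * p.l) then s a' else 0) := by
    intro a ha
    have hnn : 0 ≤ ∑ a' ∈ p.Gr, (if (∀ c, |a c - a' c| ≤ 2 * p.l) then s a' else 0) := by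
      refine Finset.sum_nonneg (fun a' ha' => ?_)
      split_ifs
      · exact hs0 a' ha'
      · exact le_refl 0
    by_cases hi : a ∉ p.Gi
    · have : pz p a ∅ X ≤ 1 := by
        unfold pz
        split_ifs
        · exact le_refl 1
        · exact zero_le_one
      rw [if_pos hi]
      linarith
    · rw [if_neg hi, zero_add]
      by_cases hd : ∃ a' ∈ p.Gr, (∀ c, |a' c - a c| ≤ 2 * p.l) ∧ vt p a' ∅ X = 0
      · obtain ⟨a', ha', hc, hv⟩ := hd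
        have h2 : pz p a ∅ X ≤ 1 := by
          unfold pz
          split_ifs
          · exact le_refl 1
          · exact zero_le_one
        have h3 : (if (∀ c, |a c - a' c| ≤ 2 * p.l) then s a' else 0) ≤
            ∑ a' ∈ p.Gr, (if (∀ c, |a c - a' c| ≤ 2 * p.l) then s a' else 0) := by
          refine Finset.single_le_sum (f := fun a' => if (∀ c, |a c - a' c| ≤ 2 * p.l) then s a' else 0)
            (fun b hb => ?_) ha'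
          show 0 ≤ (if (∀ c, |a c - b c| ≤ 2 * p.l) then s b else 0)
          split_ifs
          · exact hs0 b hb
          · exact le_refl 0
        have h4 : ∀ c, |a c - a' c| ≤ 2 * p.l := fun c => by rw [abs_sub_comm]; exact hc c
        rw [if_pos h4] at h3
        have := hs1 a' ha' hv
        linarith
      · have h2 : pz p a ∅ X = 0 := by
          unfold pz
          rw [if_neg]
          rintro (h | h)
          · exact hi h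
          · exact hd h
        rw [h2]
        exact hnn
  refine (Finset.sum_le_sum h1).trans ?_
  rw [Finset.sum_add_distrib, Finset.sum_comm]
  have h2 : ∑ a ∈ p.Gr, (if a ∉ p.Gi then (1 : ℝ) else 0) = (((p.Gr \ p.Gi).card : ℕ) : ℝ) := by
    rw [← Finset.sum_filter, Finset.sum_const, nsmul_eq_mul, mul_one]
    congr 2
    ext a
    simp
  have h3 : ∀ a' ∈ p.Gr, ∑ a ∈ p.Gr, (if (∀ c, |a c - a' c| ≤ 2 * p.l) then s a' else 0) ≤ 125 * s a' := by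
    intro a' ha'
    rw [← Finset.sum_filter, Finset.sum_const, nsmul_eq_mul]
    refine mul_le_mul_of_nonneg_right (le_trans (le_of_eq ?_) (hN a' ha')) (hs0 a' ha')
    congr
  have h4 := Finset.sum_le_sum h3
  rw [← Finset.mul_sum] at h4
  rw [h2]
  linarith

/-- arithmetic at one cube -/
lemma one_cube {b β C C₁ τ ρ l3 P ν e₃ e₄ w₃ w₄ wp z pzv d T₁ T₀ C₂ : ℝ} (hl : 0 < l3)
    (hC₁ : 0 < C₁) (h : T₁ * ν - T₀ ≤ b / 6 * e₃ - β / 24 * e₄ - τ * C₁ * (w₃ + w₄) + C₂ * ρ ^ 2 / l3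
      + 130 * τ * C₁ * ρ ^ 3 * z) (hwp : wp ≤ P * pzv) (hd : 0 ≤ b / 2 * ρ ^ 2 * (C * (9262 * d))) :
    l3 * (T₁ * ν - T₀) ≤ l3 * (b / 6 * e₃ - β / 24 * e₄ - τ * C₁ * (w₃ + w₄) - C₁ * wp) + C₁ * l3 * P * pzv
      + (C₂ * ρ ^ 2 + 130 * τ * C₁ * ρ ^ 3 * l3 * z) + b / 2 * ρ ^ 2 * (C * (9262 * d)) := by
  have h1 := mul_le_mul_of_nonneg_left h hl.le
  have h2 : l3 * (C₂ * ρ ^ 2 / l3) = C₂ * ρ ^ 2 := by
    field_simp
  have h3 : C₁ * l3 * wp ≤ C₁ * l3 * (P * pzv) := mul_le_mul_of_nonneg_left hwp (by positivity)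
  have h4 : l3 * (b / 6 * e₃ - β / 24 * e₄ - τ * C₁ * (w₃ + w₄) + C₂ * ρ ^ 2 / l3
      + 130 * τ * C₁ * ρ ^ 3 * z) = l3 * (b / 6 * e₃ - β / 24 * e₄ - τ * C₁ * (w₃ + w₄)) + l3 * (C₂ * ρ ^ 2 / l3)
      + 130 * τ * C₁ * ρ ^ 3 * l3 * z := by ring
  rw [h4, h2] at h1
  nlinarith [h1, h3, hd]

/-- final arithmetic -/
lemma fin_arith {b β C C₁ c₀ τ K ρ l Mc N S D Z G PZs Zs Ds R0 C' C₂ : ℝ} (hb : 0 < b) (hβ : 0 < β) (hC : 0 < C)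
    (hC₁ : 0 < C₁) (hc₀ : 0 < c₀) (hτ : 0 < τ) (hK : 1 ≤ K) (hρ : 0 < ρ) (hρ1 : ρ ≤ 1) (hl : 0 < l)
    (hMc : 0 ≤ Mc) (hC' : 0 < C') (hρβ : β * ρ ≤ b)
    (hK1 : 2 * b * (1 + C * 85775382) ≤ τ * c₀ * K) (hK2 : 9631440 * C₁ ≤ c₀ * K)
    (hρ2 : ρ * (9261000 * C₁ * (18522 * C) ^ 4 * K) ≤ τ * c₀)
    (hC₂ : C₂ = 84 * b * K + 12 * C₁ * (18522 * C * K) ^ 4 + C')
    (hD : 0 ≤ D) (hZ : 0 ≤ Z) (hG : 0 ≤ G)
    (hN : N ≤ l ^ 3 * S + D + 168 * (K * ρ * l ^ 3) * Mc ^ 2)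
    (hsum : l ^ 3 * ((b / 2 * ρ ^ 2 - β / 6 * ρ ^ 3) * S - G * (b / 3 * ρ ^ 3 - β / 8 * ρ ^ 4)) ≤
      R0 + C₁ * l ^ 3 * (C * 18522 * K * ρ) ^ 4 * PZs + (G * (C' * ρ ^ 2) + 130 * τ * C₁ * ρ ^ 3 * l ^ 3 * Zs)
        + b / 2 * ρ ^ 2 * (C * (9262 * Ds)))
    (hPZ : PZs ≤ 12 * Mc ^ 2 + 125 * (9261 * Z)) (hZs : Zs ≤ 9261 * Z) (hDs : Ds ≤ 9261 * D) (hGc : G ≤ Mc ^ 3)
    (hZD : K * ρ * l ^ 3 * Z ≤ D) :
    (b / 2 * ρ ^ 2 - β / 6 * ρ ^ 3) * N - (b / 3 * ρ ^ 3 - β / 8 * ρ ^ 4) * (Mc * l) ^ 3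
      - C₂ * (ρ ^ 3 * l * (Mc * l) ^ 2 + ρ ^ 2 / l ^ 3 * (Mc * l) ^ 3) ≤ R0 + τ / 2 * (c₀ * (K * ρ) ^ 2) * D := by
  have hK0 : 0 < K := by linarith
  have hT1 : 0 ≤ b / 2 * ρ ^ 2 - β / 6 * ρ ^ 3 := by
    have h1 : b / 2 * ρ ^ 2 - β / 6 * ρ ^ 3 = ρ ^ 2 * (b / 2 - β * ρ / 6) := by ring
    rw [h1]
    exact mul_nonneg (by positivity) (by linarith)
  have hT1u : b / 2 * ρ ^ 2 - β / 6 * ρ ^ 3 ≤ b / 2 * ρ ^ 2 := by
    have : 0 < β / 6 * ρ ^ 3 := by positivity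
    linarith
  have hT0 : 0 ≤ b / 3 * ρ ^ 3 - β / 8 * ρ ^ 4 := by
    have h1 : b / 3 * ρ ^ 3 - β / 8 * ρ ^ 4 = ρ ^ 3 * (b / 3 - β * ρ / 8) := by ring
    rw [h1]
    exact mul_nonneg (by positivity) (by linarith)
  set T₁ := b / 2 * ρ ^ 2 - β / 6 * ρ ^ 3 with hT₁
  set T₀ := b / 3 * ρ ^ 3 - β / 8 * ρ ^ 4 with hT₀
  -- the main terms
  have a1 : T₁ * N ≤ T₁ * (l ^ 3 * S) + T₁ * D + T₁ * (168 * (K * ρ * l ^ 3) * Mc ^ 2) := by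
    have := mul_le_mul_of_nonneg_left hN hT1
    linarith
  have a2 : T₁ * D ≤ b / 2 * ρ ^ 2 * D := mul_le_mul_of_nonneg_right hT1u hD
  have a3 : T₁ * (168 * (K * ρ * l ^ 3) * Mc ^ 2) ≤ b / 2 * ρ ^ 2 * (168 * (K * ρ * l ^ 3) * Mc ^ 2) :=
    mul_le_mul_of_nonneg_right hT1u (by positivity)
  have a4 : l ^ 3 * (G * T₀) ≤ l ^ 3 * (Mc ^ 3 * T₀) :=
    mul_le_mul_of_nonneg_left (mul_le_mul_of_nonneg_right hGc hT0) (by positivity)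
  have a5 : C₁ * l ^ 3 * (C * 18522 * K * ρ) ^ 4 * PZs ≤
      C₁ * l ^ 3 * (C * 18522 * K * ρ) ^ 4 * (12 * Mc ^ 2 + 125 * (9261 * Z)) :=
    mul_le_mul_of_nonneg_left hPZ (by positivity)
  have a6 : G * (C' * ρ ^ 2) ≤ Mc ^ 3 * (C' * ρ ^ 2) := mul_le_mul_of_nonneg_right hGc (by positivity)
  have a7 : 130 * τ * C₁ * ρ ^ 3 * l ^ 3 * Zs ≤ 130 * τ * C₁ * ρ ^ 3 * l ^ 3 * (9261 * Z) :=
    mul_le_mul_of_nonneg_left hZs (by positivity)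
  have a8 : b / 2 * ρ ^ 2 * (C * (9262 * Ds)) ≤ b / 2 * ρ ^ 2 * (C * (9262 * (9261 * D))) := by
    refine mul_le_mul_of_nonneg_left (mul_le_mul_of_nonneg_left ?_ hC.le) (by positivity)
    linarith
  -- errors paid by the dense cells
  have hZD' : ρ * l ^ 3 * Z ≤ D / K := by
    rw [le_div_iff₀ hK0]
    linarith
  have b1 : C₁ * l ^ 3 * (C * 18522 * K * ρ) ^ 4 * (125 * (9261 * Z)) ≤ τ / 8 * (c₀ * (K * ρ) ^ 2) * D := by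
    have e1 : C₁ * l ^ 3 * (C * 18522 * K * ρ) ^ 4 * (125 * (9261 * Z)) =
        1157625 * C₁ * (18522 * C) ^ 4 * K ^ 3 * ρ ^ 3 * (K * ρ * l ^ 3 * Z) := by ring
    rw [e1]
    have e2 : 1157625 * C₁ * (18522 * C) ^ 4 * K ^ 3 * ρ ^ 3 * (K * ρ * l ^ 3 * Z) ≤
        1157625 * C₁ * (18522 * C) ^ 4 * K ^ 3 * ρ ^ 3 * D := mul_le_mul_of_nonneg_left hZD (by positivity)
    have e3 : 1157625 * C₁ * (18522 * C) ^ 4 * K ^ 3 * ρ ^ 3 * D =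
        (K ^ 2 * ρ ^ 2 * D / 8) * (ρ * (9261000 * C₁ * (18522 * C) ^ 4 * K)) := by ring
    have e4 : (K ^ 2 * ρ ^ 2 * D / 8) * (ρ * (9261000 * C₁ * (18522 * C) ^ 4 * K)) ≤
        (K ^ 2 * ρ ^ 2 * D / 8) * (τ * c₀) := mul_le_mul_of_nonneg_left hρ2 (by positivity)
    have e5 : (K ^ 2 * ρ ^ 2 * D / 8) * (τ * c₀) = τ / 8 * (c₀ * (K * ρ) ^ 2) * D := by ring
    linarith
  have b2 : 130 * τ * C₁ * ρ ^ 3 * l ^ 3 * (9261 * Z) ≤ τ / 8 * (c₀ * (K * ρ) ^ 2) * D := by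
    have e1 : 130 * τ * C₁ * ρ ^ 3 * l ^ 3 * (9261 * Z) =
        1203930 * τ * C₁ * ρ ^ 2 * (ρ * l ^ 3 * Z) := by ring
    rw [e1]
    have e0 : ρ * l ^ 3 * Z ≤ D := by
      refine le_trans ?_ hZD
      have : 0 ≤ ρ * l ^ 3 * Z := by positivity
      nlinarith
    have e2 : 1203930 * τ * C₁ * ρ ^ 2 * (ρ * l ^ 3 * Z) ≤ 1203930 * τ * C₁ * ρ ^ 2 * D :=
      mul_le_mul_of_nonneg_left e0 (by positivity)
    have e3 : 1203930 * τ * C₁ * ρ ^ 2 * D = (τ * ρ ^ 2 * D / 8) * (9631440 * C₁) := by ring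
    have e4 : (τ * ρ ^ 2 * D / 8) * (9631440 * C₁) ≤ (τ * ρ ^ 2 * D / 8) * (c₀ * K) :=
      mul_le_mul_of_nonneg_left hK2 (by positivity)
    have e5 : (τ * ρ ^ 2 * D / 8) * (c₀ * K) ≤ (τ * ρ ^ 2 * D / 8) * (c₀ * K ^ 2) := by
      refine mul_le_mul_of_nonneg_left (mul_le_mul_of_nonneg_left ?_ hc₀.le) (by positivity)
      nlinarith
    have e6 : (τ * ρ ^ 2 * D / 8) * (c₀ * K ^ 2) = τ / 8 * (c₀ * (K * ρ) ^ 2) * D := by ring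
    linarith
  have b3 : b / 2 * ρ ^ 2 * D + b / 2 * ρ ^ 2 * (C * (9262 * (9261 * D))) ≤ τ / 4 * (c₀ * (K * ρ) ^ 2) * D := by
    have e1 : b / 2 * ρ ^ 2 * D + b / 2 * ρ ^ 2 * (C * (9262 * (9261 * D))) =
        (ρ ^ 2 * D / 4) * (2 * b * (1 + C * 85775382)) := by ring
    rw [e1]
    have e2 : (ρ ^ 2 * D / 4) * (2 * b * (1 + C * 85775382)) ≤ (ρ ^ 2 * D / 4) * (τ * c₀ * K) :=
      mul_le_mul_of_nonneg_left hK1 (by positivity)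
    have e3 : (ρ ^ 2 * D / 4) * (τ * c₀ * K) ≤ (ρ ^ 2 * D / 4) * (τ * c₀ * K ^ 2) := by
      refine mul_le_mul_of_nonneg_left (mul_le_mul_of_nonneg_left ?_ (by positivity)) (by positivity)
      nlinarith
    have e4 : (ρ ^ 2 * D / 4) * (τ * c₀ * K ^ 2) = τ / 4 * (c₀ * (K * ρ) ^ 2) * D := by ring
    linarith
  -- errors of the boundary
  have c1 : b / 2 * ρ ^ 2 * (168 * (K * ρ * l ^ 3) * Mc ^ 2) = 84 * b * K * (ρ ^ 3 * l ^ 3 * Mc ^ 2) := by ring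
  have c2 : C₁ * l ^ 3 * (C * 18522 * K * ρ) ^ 4 * (12 * Mc ^ 2) ≤
      12 * C₁ * (18522 * C * K) ^ 4 * (ρ ^ 3 * l ^ 3 * Mc ^ 2) := by
    have e1 : C₁ * l ^ 3 * (C * 18522 * K * ρ) ^ 4 * (12 * Mc ^ 2) =
        12 * C₁ * (18522 * C * K) ^ 4 * (ρ ^ 3 * l ^ 3 * Mc ^ 2) * ρ := by ring
    rw [e1]
    have : 0 ≤ 12 * C₁ * (18522 * C * K) ^ 4 * (ρ ^ 3 * l ^ 3 * Mc ^ 2) := by positivity
    exact mul_le_of_le_one_right this hρ1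
  have c3 : C₂ * (ρ ^ 3 * l * (Mc * l) ^ 2 + ρ ^ 2 / l ^ 3 * (Mc * l) ^ 3) =
      84 * b * K * (ρ ^ 3 * l ^ 3 * Mc ^ 2) + 12 * C₁ * (18522 * C * K) ^ 4 * (ρ ^ 3 * l ^ 3 * Mc ^ 2)
      + C' * (ρ ^ 3 * l ^ 3 * Mc ^ 2) + (84 * b * K + 12 * C₁ * (18522 * C * K) ^ 4) * (ρ ^ 2 * Mc ^ 3)
      + Mc ^ 3 * (C' * ρ ^ 2) := by
    rw [hC₂]
    field_simp
    ring
  have c4 : 0 ≤ C' * (ρ ^ 3 * l ^ 3 * Mc ^ 2) := by positivity
  have c5 : 0 ≤ (84 * b * K + 12 * C₁ * (18522 * C * K) ^ 4) * (ρ ^ 2 * Mc ^ 3) := by positivity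
  have c6 : T₀ * (Mc * l) ^ 3 = l ^ 3 * (Mc ^ 3 * T₀) := by ring
  have c7 : l ^ 3 * (T₁ * S - G * T₀) = T₁ * (l ^ 3 * S) - l ^ 3 * (G * T₀) := by ring
  have c8 : C₁ * l ^ 3 * (C * 18522 * K * ρ) ^ 4 * (12 * Mc ^ 2 + 125 * (9261 * Z)) =
      C₁ * l ^ 3 * (C * 18522 * K * ρ) ^ 4 * (12 * Mc ^ 2) +
      C₁ * l ^ 3 * (C * 18522 * K * ρ) ^ 4 * (125 * (9261 * Z)) := by ring
  rw [c7] at hsum
  rw [c8] at a5
  rw [c1] at a3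
  rw [c3, c6]
  have c9 : τ / 8 * (c₀ * (K * ρ) ^ 2) * D + τ / 8 * (c₀ * (K * ρ) ^ 2) * D + τ / 4 * (c₀ * (K * ρ) ^ 2) * D =
      τ / 2 * (c₀ * (K * ρ) ^ 2) * D := by ring
  rw [← c9]
  linarith

end CLQ_

open CLQ_ in
theorem clq_proof (hGRD : Stmt_GRD) (hZET : Stmt_ZET) (hPTA : Stmt_PTA) (hDCN : Stmt_DCN) (hBDP : Stmt_BDP)
    (hTNL : Stmt_TNL) (_hMSY : Stmt_MSY) : Stmt_CLQ := by
  intro b β C C₁ c₀ hb hβ hC hC₁ hc₀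
  obtain ⟨τ, hτ, hτ4, hT⟩ := hTNL b β C C₁ c₀ hb hβ hC hC₁ hc₀
  obtain ⟨K, hK, hK1, hK2⟩ : ∃ K : ℝ, 1 ≤ K ∧ 2 * b * (1 + C * 85775382) ≤ τ * c₀ * K ∧
      9631440 * C₁ ≤ c₀ * K := by
    refine ⟨1 + 2 * b * (1 + C * 85775382) / (τ * c₀) + 9631440 * C₁ / c₀, ?_, ?_, ?_⟩
    · have h1 : 0 < 2 * b * (1 + C * 85775382) / (τ * c₀) := by positivity
      have h2 : 0 < 9631440 * C₁ / c₀ := by positivity
      linarith
    · have h1 : τ * c₀ * (1 + 2 * b * (1 + C * 85775382) / (τ * c₀) + 9631440 * C₁ / c₀) =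
          τ * c₀ + 2 * b * (1 + C * 85775382) + 9631440 * C₁ * τ := by field_simp
      rw [h1]
      have : 0 < τ * c₀ := by positivity
      have : 0 < 9631440 * C₁ * τ := by positivity
      linarith
    · have h1 : c₀ * (1 + 2 * b * (1 + C * 85775382) / (τ * c₀) + 9631440 * C₁ / c₀) =
          c₀ + 2 * b * (1 + C * 85775382) / τ + 9631440 * C₁ := by field_simp
      rw [h1]
      have : 0 < 2 * b * (1 + C * 85775382) / τ := by positivity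
      linarith
  have hK0 : 0 < K := by linarith
  obtain ⟨ρ₁, C', hρ₁, hC', hT⟩ := hT K hK
  have hq : 0 < 9261000 * C₁ * (18522 * C) ^ 4 * K := by positivity
  refine ⟨τ, K, min (min ρ₁ 1) (min (b / β) (τ * c₀ / (9261000 * C₁ * (18522 * C) ^ 4 * K))),
    84 * b * K + 12 * C₁ * (18522 * C * K) ^ 4 + C', hτ, hτ4, hK, by positivity, by positivity, ?_⟩
  intro ι _ _ p Mc ρ βf θ X hρ hρ0 hG hM hl3 hS hin hX
  have hl := hG.l0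
  have hρa : ρ < ρ₁ := hρ0.trans_le ((min_le_left _ _).trans (min_le_left _ _))
  have hρb : ρ < 1 := hρ0.trans_le ((min_le_left _ _).trans (min_le_right _ _))
  have hρc : ρ < b / β := hρ0.trans_le ((min_le_right _ _).trans (min_le_left _ _))
  have hρd : ρ < τ * c₀ / (9261000 * C₁ * (18522 * C) ^ 4 * K) :=
    hρ0.trans_le ((min_le_right _ _).trans (min_le_right _ _))
  have hρc' : β * ρ ≤ b := by
    rw [lt_div_iff₀ hβ] at hρc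
    linarith
  have hρd' : ρ * (9261000 * C₁ * (18522 * C) ^ 4 * K) ≤ τ * c₀ := by
    rw [lt_div_iff₀ hq] at hρd
    linarith
  have hl3' : C' ≤ ρ * p.l ^ 3 := by
    refine le_trans ?_ hl3
    have : 0 < 84 * b * K + 12 * C₁ * (18522 * C * K) ^ 4 := by positivity
    linarith
  have hL : p.L = (Mc : ℝ) * p.l := congrArg Par.L hG.eq
  obtain ⟨-, -, hg3, hg4, -, hg6, hg7, -⟩ := hGRD p Mc hG
  have hM1 : 0 < K * ρ * p.l ^ 3 := by positivity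
  set M₁ := K * ρ * p.l ^ 3 with hM₁
  obtain ⟨hz1, hz2⟩ := hZET
  obtain ⟨hzt, -, hzt0, -, -⟩ := hz1 M₁ hM1
  obtain ⟨hnk, -, -, hzb, hzz⟩ := hz2 ι p Mc M₁ hG hM1
  have hnk0 : ∀ k, 0 ≤ nk p.l Mc (∅ : Finset ι) k X := fun k => ((hnk ∅ k).2.2 X).1
  set D := ∑ k : Fin 3 → Fin Mc, zt M₁ (nk p.l Mc ∅ k X) * nk p.l Mc ∅ k X with hD
  set Z := ∑ k : Fin 3 → Fin Mc, zt M₁ (nk p.l Mc ∅ k X) with hZ
  have hD0 : 0 ≤ D := Finset.sum_nonneg (fun k _ => mul_nonneg (hzt _).1 (hnk0 k))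
  have hZ0 : 0 ≤ Z := Finset.sum_nonneg (fun k _ => (hzt _).1)
  have hZD : M₁ * Z ≤ D := by
    rw [hZ, hD, Finset.mul_sum]
    refine Finset.sum_le_sum (fun k _ => ?_)
    rcases le_or_gt (nk p.l Mc ∅ k X) M₁ with h | h
    · rw [hzt0 _ h]; simp
    · rw [mul_comm]
      exact mul_le_mul_of_nonneg_left h.le (hzt _).1
  -- sums over the cells of the large cubes
  set sa : E → ℝ := fun a => ∑ k ∈ cls p Mc a, zt M₁ (nk p.l Mc ∅ k X) with hsa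
  set da : E → ℝ := fun a => ∑ k ∈ cls p Mc a, zt M₁ (nk p.l Mc ∅ k X) * nk p.l Mc ∅ k X with hda
  have hsa0 : ∀ a, 0 ≤ sa a := fun a => Finset.sum_nonneg (fun k _ => (hzt _).1)
  have hda0 : ∀ a, 0 ≤ da a := fun a => Finset.sum_nonneg (fun k _ => mul_nonneg (hzt _).1 (hnk0 k))
  have hsaZ : ∑ a ∈ p.Gr, sa a ≤ 9261 * Z := hg4 (fun k => zt M₁ (nk p.l Mc ∅ k X)) (fun k => (hzt _).1)
  have hdaD : ∑ a ∈ p.Gr, da a ≤ 9261 * D :=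
    hg4 (fun k => zt M₁ (nk p.l Mc ∅ k X) * nk p.l Mc ∅ k X) (fun k => mul_nonneg (hzt _).1 (hnk0 k))
  have hzbs : ∀ a, zb p Mc M₁ a ∅ X = sa a := by
    intro a
    simp [zb, hsa]
  have hsa9 : ∀ a ∈ p.Gr, sa a ≤ 9261 := by
    intro a ha
    refine le_trans ?_ (hg3 a ha).2.2.1
    have : sa a ≤ ∑ _k ∈ cls p Mc a, (1 : ℝ) := Finset.sum_le_sum (fun k _ => (hzt _).2)
    simpa using this
  -- the cubes at the boundary or next to dense cubes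
  have hPZ : ∑ a ∈ p.Gr, pz p a (∅ : Finset ι) X ≤ 12 * (Mc : ℝ) ^ 2 + 125 * (9261 * Z) := by
    refine pz_sum p X sa _ _ (fun a _ => hsa0 a) (fun a ha hv => ?_) hg7 (fun a ha => (hg3 a ha).2.2.2) hsaZ
    exact (hDCN ι p Mc M₁ hG hM1 hM a ha X ((hPTA C ι p Mc M₁ βf θ hG hM1 hS a ha X).2.1 hv).1).2
  -- every cube
  set ν : E → ℝ := fun a => ∑ i, θ a (X i) with hν
  have hν0 : ∀ a, 0 ≤ ν a := fun a => Finset.sum_nonneg (fun i _ => hS.θ0 a (X i))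
  have key : ∀ a ∈ p.Gr, p.l ^ 3 * ((b / 2 * ρ ^ 2 - β / 6 * ρ ^ 3) * ν a - (b / 3 * ρ ^ 3 - β / 8 * ρ ^ 4)) ≤
      p.l ^ 3 * (b / 6 * (∑ e ∈ Ij 3 ι, (∏ i ∈ im e, θ a (X i)) * vt p a (im e) X)
        - β / 24 * (∑ e ∈ Ij 4 ι, (∏ i ∈ im e, θ a (X i)) * vt p a (im e) X)
        - τ * C₁ * ((∑ e ∈ Ij 3 ι, (∏ i ∈ im e, θ a (X i)) * (zb p Mc M₁ a (im e) X * vt p a (im e) X))
          + (∑ e ∈ Ij 4 ι, (∏ i ∈ im e, θ a (X i)) * (zb p Mc M₁ a (im e) X * vt p a (im e) X)))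
        - C₁ * (∑ e ∈ Ij 4 ι, (∏ i ∈ im e, θ a (X i)) * (pz p a (im e) X * vt p a (im e) X)))
      + C₁ * p.l ^ 3 * (C * 18522 * K * ρ) ^ 4 * pz p a (∅ : Finset ι) X
      + (C' * ρ ^ 2 + 130 * τ * C₁ * ρ ^ 3 * p.l ^ 3 * sa a) + b / 2 * ρ ^ 2 * (C * (9262 * da a)) := by
    intro a ha
    obtain ⟨q1, q2, q3⟩ := hPTA C ι p Mc M₁ βf θ hG hM1 hS a ha X
    have hd : 0 ≤ b / 2 * ρ ^ 2 * (C * (9262 * da a)) := by
      have := hda0 a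
      positivity
    rcases vt_cases p a ∅ X with hv | hv
    · -- dense cubes
      obtain ⟨r1, r2, r3, r4⟩ := q2 hv
      rw [r2 3, r2 4, r3 3, r3 4, r4]
      have t1 : p.l ^ 3 * ν a ≤ C * (9262 * da a) :=
        q1.trans (mul_le_mul_of_nonneg_left (hDCN ι p Mc M₁ hG hM1 hM a ha X r1).1 hC.le)
      have t2 : (b / 2 * ρ ^ 2 - β / 6 * ρ ^ 3) * (p.l ^ 3 * ν a) ≤ b / 2 * ρ ^ 2 * (p.l ^ 3 * ν a) := by
        refine mul_le_mul_of_nonneg_right ?_ (mul_nonneg (by positivity) (hν0 a))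
        have : 0 < β / 6 * ρ ^ 3 := by positivity
        linarith
      have t3 : b / 2 * ρ ^ 2 * (p.l ^ 3 * ν a) ≤ b / 2 * ρ ^ 2 * (C * (9262 * da a)) :=
        mul_le_mul_of_nonneg_left t1 (by positivity)
      have t4 : 0 ≤ b / 3 * ρ ^ 3 - β / 8 * ρ ^ 4 := by
        have h1 : b / 3 * ρ ^ 3 - β / 8 * ρ ^ 4 = ρ ^ 3 * (b / 3 - β * ρ / 8) := by ring
        rw [h1]
        exact mul_nonneg (by positivity) (by linarith)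
      have t5 : 0 ≤ p.l ^ 3 * (b / 3 * ρ ^ 3 - β / 8 * ρ ^ 4) := mul_nonneg (by positivity) t4
      have t6 : 0 ≤ C₁ * p.l ^ 3 * (C * 18522 * K * ρ) ^ 4 * pz p a (∅ : Finset ι) X :=
        mul_nonneg (by positivity) (pz_nn p a ∅ X)
      have t7 : 0 ≤ C' * ρ ^ 2 + 130 * τ * C₁ * ρ ^ 3 * p.l ^ 3 * sa a := by
        have := hsa0 a
        positivity
      have t8 : p.l ^ 3 * ((b / 2 * ρ ^ 2 - β / 6 * ρ ^ 3) * ν a - (b / 3 * ρ ^ 3 - β / 8 * ρ ^ 4)) =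
          (b / 2 * ρ ^ 2 - β / 6 * ρ ^ 3) * (p.l ^ 3 * ν a) - p.l ^ 3 * (b / 3 * ρ ^ 3 - β / 8 * ρ ^ 4) := by ring
      rw [t8]
      have t9 : p.l ^ 3 * (b / 6 * 0 - β / 24 * 0 - τ * C₁ * (0 + 0) - C₁ * 0) = 0 := by ring
      rw [t9]
      linarith
    · -- the other cubes
      obtain ⟨r1, r2, r3, r4, r5⟩ := q3 hv
      have t1 : ν a ≤ C * 18522 * K * ρ := by
        have h1 : p.l ^ 3 * ν a ≤ p.l ^ 3 * (C * 18522 * K * ρ) := by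
          refine q1.trans ((mul_le_mul_of_nonneg_left r1 hC.le).trans (le_of_eq ?_))
          rw [hM, hM₁]
          ring
        exact le_of_mul_le_mul_left h1 (by positivity)
      have r43 := r4 3
      have r44 := r4 4
      rw [hzbs] at r43 r44
      have t2 := hT ρ (p.l ^ 3) (ν a) _ _ _ _ (sa a) hρ hρa hl3' (hν0 a) t1 (hsa0 a) (hsa9 a ha) r2 r3
        (r43.trans (le_of_eq (by push_cast; rfl))) (r44.trans (le_of_eq (by push_cast; rfl)))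
      refine one_cube (by positivity) hC₁ t2 (r5.trans ?_) hd
      exact mul_le_mul_of_nonneg_right (pow_le_pow_left₀ (hν0 a) t1 4) (pz_nn p a ∅ X)
  have hsum := Finset.sum_le_sum key
  have hB := hBDP C ι p Mc M₁ βf θ hG hM1 hS hin X hX
  rw [hL]
  have hR0 : b / 6 * WC p θ 3 X - β / 24 * WC p θ 4 X
      + τ / 2 * (c₀ * (K * ρ) ^ 2) * D
      - τ * C₁ * (WZ p Mc M₁ θ 3 X + WZ p Mc M₁ θ 4 X) - C₁ * WP p θ X =
      (b / 6 * WC p θ 3 X - β / 24 * WC p θ 4 X - τ * C₁ * (WZ p Mc M₁ θ 3 X + WZ p Mc M₁ θ 4 X)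
        - C₁ * WP p θ X) + τ / 2 * (c₀ * (K * ρ) ^ 2) * D := by ring
  rw [hR0]
  refine fin_arith (C := C) (S := ∑ a ∈ p.Gr, ν a) (G := ((p.Gr.card : ℕ) : ℝ))
    (PZs := ∑ a ∈ p.Gr, pz p a (∅ : Finset ι) X)
    (Zs := ∑ a ∈ p.Gr, sa a) (Ds := ∑ a ∈ p.Gr, da a) (Z := Z) hb hβ hC hC₁ hc₀ hτ hK hρ hρb.le hl
    (Nat.cast_nonneg _) hC' hρc' hK1 hK2 hρd' rfl hD0 hZ0 (Nat.cast_nonneg _) hB ?_ hPZ hsaZ hdaD hg6 hZD
  refine le_trans (le_of_eq ?_) (hsum.trans (le_of_eq ?_))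
  · rw [← Finset.mul_sum, Finset.sum_sub_distrib, ← Finset.mul_sum, Finset.sum_const, nsmul_eq_mul]
  · simp only [Finset.sum_add_distrib, ← Finset.mul_sum, Finset.sum_sub_distrib, Finset.sum_const, nsmul_eq_mul,
      WC, WZ, WP]
    ring

end Pool.Agent.TBS
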