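import Pool.Agent.TBS.StmtsA

set_option autoImplicit false

namespace Pool.Agent.TBS

open Pool.Agent.TBG Pool.Agent.TBL Pool.Agent.TBF

namespace CLS_

theorem prod_sub {ι : Type} [DecidableEq ι] (Φ : ι → ℝ) (h : ∀ a, 0 ≤ Φ a ∧ Φ a ≤ 1)
    {S B : Finset ι} (hB : B ⊆ S) : ∏ a ∈ S, Φ a ≤ ∏ a ∈ B, Φ a := by
  rw [← Finset.prod_sdiff hB]
  have h1 : ∏ a ∈ S \ B, Φ a ≤ 1 :=
    Finset.prod_le_one (fun a _ => (h a).1) (fun a _ => (h a).2)
  have h2 : 0 ≤ ∏ a ∈ B, Φ a := Finset.prod_nonneg fun a _ => (h a).1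
  nlinarith

theorem exists_enum {ι : Type} [Fintype ι] [DecidableEq ι] (A : Finset ι) (r : ℕ)
    (h : A.card = r) : ∃ j : Fin r → ι, Function.Injective j ∧ im j = A := by
  refine ⟨fun s => ((A.equivFinOfCardEq h).symm s : ι), ?_, ?_⟩
  · intro s t hst
    exact (A.equivFinOfCardEq h).symm.injective (Subtype.ext hst)
  · ext a
    simp only [im, Finset.mem_image, Finset.mem_univ, true_and]
    constructor
    · rintro ⟨s, rfl⟩
      exact ((A.equivFinOfCardEq h).symm s).2
    · intro ha
      exact ⟨A.equivFinOfCardEq h ⟨a, ha⟩, by simp⟩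

end CLS_

open CLS_ in
theorem cls_proof : Stmt_CLS := by
  classical
  intro m m' r
  refine ⟨(((m + 1) + r : ℕ) : ℝ) ^ (m' + 1), by positivity, ?_⟩
  intro ι _ _ X q K e hq hK he
  have hei : Function.Injective e := by
    simpa [Ij] using he
  set Φ : ι → ℝ := fun a => q (X (e 0) - X a) with hΦ
  have hΦ1 : ∀ a, 0 ≤ Φ a ∧ Φ a ≤ 1 := fun a => hq _
  set F := (Ij (m' + 1) ι).filter (fun e' => e' 0 = e 0 ∧ (im e' \ im e).card = r) with hF
  set J := (Ij r ι).filter (fun j => Disjoint (im j) (im e)) with hJ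
  have hcard_im : ∀ {k : ℕ} (f : Fin k → ι), (im f).card ≤ k := by
    intro k f
    unfold im
    exact Finset.card_image_le.trans (by simp)
  have key : ∀ e' ∈ F, K (X ∘ e') ≤
      ∑ j ∈ J, if im j = im e' \ im e then ∏ s, Φ (j s) else 0 := by
    intro e' he'
    simp only [hF, Finset.mem_filter, Ij, Finset.mem_univ, true_and] at he'
    obtain ⟨hinj, h0, hc⟩ := he'
    obtain ⟨j, hj, hjA⟩ := exists_enum _ r hc
    have hjJ : j ∈ J := by
      simp only [hJ, Finset.mem_filter, Ij, Finset.mem_univ, true_and]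
      refine ⟨hj, ?_⟩
      rw [hjA]
      exact Finset.sdiff_disjoint
    have h1 : K (X ∘ e') ≤ ∏ s, Φ (j s) := by
      refine (hK (X ∘ e')).2.trans ?_
      have e1 : ∏ s : Fin m', q ((X ∘ e') 0 - (X ∘ e') s.succ) =
          ∏ a ∈ Finset.univ.image (fun s : Fin m' => e' s.succ), Φ a := by
        rw [Finset.prod_image]
        · refine Finset.prod_congr rfl fun s _ => ?_
          simp only [hΦ, Function.comp_apply, h0]
        · intro s _ t _ hst
          exact Fin.succ_injective _ (hinj hst)
      have e2 : ∏ s, Φ (j s) = ∏ a ∈ im e' \ im e, Φ a := by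
        rw [← hjA]
        unfold im
        rw [Finset.prod_image]
        intro s _ t _ hst
        exact hj hst
      rw [e1, e2]
      apply prod_sub Φ hΦ1
      intro a ha
      rw [Finset.mem_sdiff] at ha
      obtain ⟨ha1, ha2⟩ := ha
      simp only [im, Finset.mem_image, Finset.mem_univ, true_and] at ha1
      obtain ⟨s, hs⟩ := ha1
      rw [Finset.mem_image]
      refine Fin.cases (motive := fun s => e' s = a → _) ?_ ?_ s hs
      · intro h2
        exfalso
        apply ha2
        rw [← h2, h0]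
        exact Finset.mem_image_of_mem _ (Finset.mem_univ _)
      · intro t h2
        exact ⟨t, Finset.mem_univ _, h2⟩
    refine h1.trans ?_
    have h2 : (if im j = im e' \ im e then ∏ s, Φ (j s) else 0) ≤
        ∑ j ∈ J, if im j = im e' \ im e then ∏ s, Φ (j s) else 0 := by
      refine Finset.single_le_sum (f := fun j : Fin r → ι =>
        if im j = im e' \ im e then ∏ s, Φ (j s) else 0) ?_ hjJ
      intro j' _
      split_ifs
      · exact Finset.prod_nonneg fun s _ => (hΦ1 _).1
      · exact le_rfl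
    rw [if_pos hjA] at h2
    exact h2
  calc ∑ e' ∈ F, K (X ∘ e')
      ≤ ∑ e' ∈ F, ∑ j ∈ J, (if im j = im e' \ im e then ∏ s, Φ (j s) else 0) :=
        Finset.sum_le_sum key
    _ = ∑ j ∈ J, ∑ e' ∈ F, (if im j = im e' \ im e then ∏ s, Φ (j s) else 0) :=
        Finset.sum_comm
    _ ≤ ∑ j ∈ J, (((m + 1) + r : ℕ) : ℝ) ^ (m' + 1) * ∏ s, Φ (j s) := by
        refine Finset.sum_le_sum fun j _ => ?_
        rw [← Finset.sum_filter, Finset.sum_const, nsmul_eq_mul]
        refine mul_le_mul_of_nonneg_right ?_ (Finset.prod_nonneg fun s _ => (hΦ1 _).1)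
        have h3 : F.filter (fun e' => im j = im e' \ im e) ⊆
            Fintype.piFinset (fun _ : Fin (m' + 1) => im e ∪ im j) := by
          intro e' he'
          rw [Finset.mem_filter] at he'
          rw [Fintype.mem_piFinset]
          intro s
          by_cases h4 : e' s ∈ im e
          · exact Finset.mem_union_left _ h4
          · apply Finset.mem_union_right
            rw [he'.2, Finset.mem_sdiff]
            exact ⟨Finset.mem_image_of_mem _ (Finset.mem_univ _), h4⟩
        have h5 := Finset.card_le_card h3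
        rw [Fintype.card_piFinset] at h5
        simp only [Finset.prod_const, Finset.card_univ, Fintype.card_fin] at h5
        have h6 : (im e ∪ im j).card ≤ (m + 1) + r :=
          (Finset.card_union_le _ _).trans (add_le_add (hcard_im e) (hcard_im j))
        have h7 := h5.trans (Nat.pow_le_pow_left h6 (m' + 1))
        exact_mod_cast h7
    _ = (((m + 1) + r : ℕ) : ℝ) ^ (m' + 1) * ∑ j ∈ J, ∏ s, q (X (e 0) - X (j s)) := by
        rw [Finset.mul_sum]

end Pool.Agent.TBS
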