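import Pool.Agent.TBS.StmtsB

/-!
# Three-body Bose gases, sharp lower bound, module CLY: integration over a cluster, the first particle in a cube
-/

set_option autoImplicit false

open MeasureTheory Filter Topology
open scoped ContDiff

namespace Pool.Agent.TBS

open Pool.Agent.TBG Pool.Agent.TBL Pool.Agent.TBF

namespace CLY_

variable {ι : Type} [Fintype ι] [DecidableEq ι]

omit [Fintype ι] [DecidableEq ι] in
lemma ext_mem {k : ℕ} (e : Fin k → ι) (he : Function.Injective e) (y : Fin k → E) (X : ι → E)
    (t : Fin k) : Function.extend e y X (e t) = y t := he.extend_apply _ _ _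

omit [Fintype ι] in
lemma ext_not {k : ℕ} (e : Fin k → ι) (y : Fin k → E) (X : ι → E) (i : ι) (hi : i ∉ im e) :
    Function.extend e y X i = X i := by
  refine Function.extend_apply' _ _ _ ?_
  rintro ⟨t, rfl⟩
  exact hi (Finset.mem_image_of_mem e (Finset.mem_univ t))

omit [Fintype ι] in
lemma ovm {k : ℕ} (e : Fin k → ι) (he : Function.Injective e) :
    Measurable (fun q : (Fin k → E) × (ι → E) => Function.extend e q.1 q.2) := by
  refine measurable_pi_iff.2 fun i => ?_
  by_cases hi : i ∈ im e
  · obtain ⟨t, -, rfl⟩ := Finset.mem_image.1 hi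
    have : (fun q : (Fin k → E) × (ι → E) => Function.extend e q.1 q.2 (e t)) =
        fun q => q.1 t := by
      funext q
      exact ext_mem e he _ _ t
    rw [this]
    fun_prop
  · have : (fun q : (Fin k → E) × (ι → E) => Function.extend e q.1 q.2 i) = fun q => q.2 i := by
      funext q
      exact ext_not e _ _ i hi
    rw [this]
    fun_prop

lemma mp {k : ℕ} (m n : Measure E) [IsProbabilityMeasure m] [IsFiniteMeasure n]
    (e : Fin k → ι) (he : Function.Injective e) :
    MeasurePreserving (fun q : (Fin k → E) × (ι → E) => Function.extend e q.1 q.2)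
      ((Measure.pi fun _ : Fin k => n).prod (PiS m n (im e))) (Measure.pi fun _ : ι => n) := by
  have hsf : ∀ i : ι, SigmaFinite (if i ∈ im e then m else n) := by
    intro i
    split_ifs <;> infer_instance
  have hSF : SFinite (PiS m n (im e)) := by
    unfold PiS
    infer_instance
  refine ⟨ovm e he, ?_⟩
  refine (Measure.pi_eq fun s hs => ?_).symm
  rw [Measure.map_apply (ovm e he) (MeasurableSet.univ_pi hs)]
  have h1 : (fun q : (Fin k → E) × (ι → E) => Function.extend e q.1 q.2) ⁻¹' (Set.univ.pi s) =
      (Set.univ.pi fun t => s (e t)) ×ˢ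
        (Set.univ.pi fun i => if i ∈ im e then Set.univ else s i) := by
    ext q
    simp only [Set.mem_preimage, Set.mem_univ_pi, Set.mem_prod]
    constructor
    · intro h
      refine ⟨fun t => ?_, fun i => ?_⟩
      · have := h (e t)
        rwa [ext_mem e he] at this
      · split_ifs with hi
        · trivial
        · have := h i
          rwa [ext_not e _ _ i hi] at this
    · rintro ⟨h, h'⟩ i
      by_cases hi : i ∈ im e
      · obtain ⟨t, -, rfl⟩ := Finset.mem_image.1 hi
        rw [ext_mem e he]
        exact h t
      · have := h' i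
        rw [if_neg hi] at this
        rwa [ext_not e _ _ i hi]
  rw [h1, Measure.prod_prod, Measure.pi_pi, PiS, Measure.pi_pi]
  have h2 : ∏ t, n (s (e t)) = ∏ i ∈ im e, n (s i) := by
    unfold im
    rw [Finset.prod_image fun a _ b _ hab => he hab]
  have h3 : ∏ i, (if i ∈ im e then m else n) (if i ∈ im e then Set.univ else s i) =
      ∏ i ∈ (im e)ᶜ, n (s i) := by
    rw [← Finset.prod_mul_prod_compl (im e)]
    have h4 : ∏ i ∈ im e, (if i ∈ im e then m else n) (if i ∈ im e then Set.univ else s i) = 1 := by
      refine Finset.prod_eq_one fun i hi => ?_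
      rw [if_pos hi, if_pos hi, measure_univ]
    rw [h4, one_mul]
    refine Finset.prod_congr rfl fun i hi => ?_
    rw [Finset.mem_compl] at hi
    rw [if_neg hi, if_neg hi]
  rw [h2, h3, Finset.prod_mul_prod_compl]

lemma pi_le {k : ℕ} (s : Set E) :
    (Measure.pi fun _ : Fin k => (volume : Measure E).restrict s) ≤ volume := by
  rw [← Measure.restrict_pi_pi]
  exact Measure.restrict_le_self

end CLY_

open CLY_

theorem cly_proof (_hBMC : Pool.Agent.TBL.Stmt_BMC) (hMSY : Stmt_MSY) (_hPSF : Stmt_PSF) :
    Stmt_CLY := by
  intro C m ι _ _ p β θ κ r r' K F hsys hK _hr hF hF0 a ha e he hind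
  obtain ⟨hl1, hfin, hOm, -, hQb, -, hprob, -, -, -, -, -⟩ := hMSY C p β θ hsys
  have hinj : Function.Injective e := by
    have := he
    unfold Ij at this
    simpa using this
  have hfin' : IsFiniteMeasure (mO p.L) := hfin
  have hp : IsProbabilityMeasure (tm (θ a)) := hprob a
  have hl : 0 ≤ p.l := by linarith
  have hKm : Measurable K := hK.bm.1
  have hFm : Measurable (fun q : E × (ι → E) => F q.1 q.2) := hF.1
  obtain ⟨CF, hCF⟩ := hF.2
  obtain ⟨CK, hCK⟩ := hK.bm.2
  have hmQ : MeasurableSet (Qb a r) := (hQb a r).1
  have hvQ : ∀ r : ℝ, ∀ b : E, volume (Qb b r) < ⊤ := by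
    intro r b
    by_cases hr : 0 ≤ r
    · rw [(hQb b r).2 hr]
      exact ENNReal.ofReal_lt_top
    · have h0 : Qb b r = ∅ := by
        refine Set.eq_empty_iff_forall_notMem.2 fun x hx => hr ?_
        exact (abs_nonneg _).trans (hx 0)
      rw [h0, measure_empty]
      exact ENNReal.zero_lt_top
  have hsf : ∀ i : ι, SigmaFinite (if i ∈ im e then tm (θ a) else mO p.L) := by
    intro i
    split_ifs <;> infer_instance
  have hff : ∀ i : ι, IsFiniteMeasure (if i ∈ im e then tm (θ a) else mO p.L) := by
    intro i
    split_ifs <;> infer_instance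
  have hfP : IsFiniteMeasure (PiS (tm (θ a)) (mO p.L) (im e)) := by
    unfold PiS
    infer_instance
  have hempty : PiS (mO p.L) (mO p.L) (∅ : Finset ι) = Measure.pi fun _ : ι => mO p.L := by
    unfold PiS
    simp
  -- the function
  set H : (ι → E) → ℝ := fun X => ic (Qb a r) (X (e 0)) * (K (X ∘ e) * F (X (e 0)) X)
    with hH
  have hicm : ∀ (Q : Set E), MeasurableSet Q → Measurable (ic Q) := by
    intro Q hQ
    exact measurable_const.indicator hQ
  have hic0 : ∀ (Q : Set E) (x : E), 0 ≤ ic Q x := by
    intro Q x
    unfold ic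
    exact Set.indicator_nonneg (fun _ _ => zero_le_one) x
  have hic1 : ∀ (Q : Set E) (x : E), ic Q x ≤ 1 := by
    intro Q x
    unfold ic
    by_cases hx : x ∈ Q
    · rw [Set.indicator_of_mem hx]
    · rw [Set.indicator_of_notMem hx]
      exact zero_le_one
  have hHm : Measurable H := by
    refine ((hicm _ hmQ).comp (measurable_pi_apply (e 0))).mul ((hKm.comp ?_).mul ?_)
    · exact measurable_pi_iff.2 fun s => measurable_pi_apply (e s)
    · have h1 : Measurable (fun X : ι → E => (X (e 0), X)) :=
        (measurable_pi_apply (e 0)).prodMk measurable_id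
      exact hFm.comp h1
  have hH0 : ∀ X, 0 ≤ H X := fun X => mul_nonneg (hic0 _ _) (mul_nonneg (hK.nn _) (hF0 _ _))
  have hκ : 0 ≤ κ := (integral_nonneg fun z => hK.nn _).trans (hK.mass a)
  -- the real side to extended reals
  have hHb : ∀ X, |H X| ≤ CK * CF := by
    intro X
    rw [abs_of_nonneg (hH0 X)]
    have h1 : K (X ∘ e) ≤ CK := (le_abs_self _).trans (hCK _)
    have h2 : F (X (e 0)) X ≤ CF := (le_abs_self _).trans (hCF (X (e 0), X))
    have h3 : K (X ∘ e) * F (X (e 0)) X ≤ CK * CF :=
      mul_le_mul h1 h2 (hF0 _ _) ((hK.nn _).trans h1)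
    calc H X ≤ 1 * (K (X ∘ e) * F (X (e 0)) X) :=
          mul_le_mul_of_nonneg_right (hic1 _ _) (mul_nonneg (hK.nn _) (hF0 _ _))
      _ ≤ CK * CF := by rw [one_mul]; exact h3
  have hHi : Integrable H (Measure.pi fun _ : ι => mO p.L) :=
    Integrable.of_bound hHm.aestronglyMeasurable (CK * CF) (Eventually.of_forall hHb)
  have e1 : ENNReal.ofReal (IO p H) =
      ∫⁻ X, ENNReal.ofReal (H X) ∂(Measure.pi fun _ : ι => mO p.L) := by
    unfold IO
    rw [hempty]
    exact ofReal_integral_eq_lintegral_ofReal hHi (Eventually.of_forall hH0)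
  have hFi : ∀ x, Integrable (F x) (PiS (tm (θ a)) (mO p.L) (im e)) := fun x =>
    Integrable.of_bound (hFm.comp (measurable_const.prodMk measurable_id)).aestronglyMeasurable CF
      (Eventually.of_forall fun X => hCF (x, X))
  have hIA0 : ∀ x, 0 ≤ IA p θ a (im e) (F x) := fun x => integral_nonneg fun X => hF0 x X
  have hIAm : StronglyMeasurable (fun x => IA p θ a (im e) (F x)) :=
    (hFm.stronglyMeasurable).integral_prod_right'
  have hIAb : ∀ x, ‖IA p θ a (im e) (F x)‖ ≤
      CF * (PiS (tm (θ a)) (mO p.L) (im e)).real Set.univ := fun x =>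
    norm_integral_le_of_norm_le_const (Eventually.of_forall fun X => hCF (x, X))
  have hfQ : IsFiniteMeasure ((volume : Measure E).restrict (Qb a r)) :=
    ⟨by rw [Measure.restrict_apply_univ]; exact hvQ _ a⟩
  have hIAi : IntegrableOn (fun x => IA p θ a (im e) (F x)) (Qb a r) :=
    Integrable.of_bound hIAm.aestronglyMeasurable _ (Eventually.of_forall hIAb)
  have e2 : ENNReal.ofReal (κ * ∫ x in Qb a r, IA p θ a (im e) (F x)) =
      ENNReal.ofReal κ * ∫⁻ x in Qb a r,
        ∫⁻ X, ENNReal.ofReal (F x X) ∂(PiS (tm (θ a)) (mO p.L) (im e)) := by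
    rw [ENNReal.ofReal_mul hκ, ofReal_integral_eq_lintegral_ofReal hIAi
      (Eventually.of_forall hIA0)]
    congr 1
    refine lintegral_congr fun x => ?_
    exact ofReal_integral_eq_lintegral_ofReal (hFi x) (Eventually.of_forall fun X => hF0 x X)
  -- the mass
  have mass : ∀ x : E, ∫⁻ z : Fin m → E, ENNReal.ofReal (K (Fin.cons x z)) ≤ ENNReal.ofReal κ := by
    intro x
    have hcm : Measurable (fun z : Fin m → E => (Fin.cons x z : Fin (m + 1) → E)) := by
      refine measurable_pi_iff.2 fun i => ?_
      refine Fin.cases ?_ (fun j => ?_) i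
      · simp only [Fin.cons_zero]
        exact measurable_const
      · simp only [Fin.cons_succ]
        exact measurable_pi_apply j
    have hKi : Integrable (fun z : Fin m → E => K (Fin.cons x z)) := by
      have hfs : volume (Set.univ.pi fun _ : Fin m => Qb x r') < ⊤ := by
        rw [volume_pi_pi]
        exact ENNReal.prod_lt_top fun _ _ => hvQ _ x
      have hsub : ∀ z : Fin m → E, z ∉ (Set.univ.pi fun _ : Fin m => Qb x r') →
          K (Fin.cons x z) = 0 := by
        intro z hz
        by_contra hne
        refine hz fun i _ c => ?_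
        have := hK.sp _ hne i.succ c
        simpa using this
      have hi : IntegrableOn (fun z : Fin m → E => K (Fin.cons x z))
          (Set.univ.pi fun _ : Fin m => Qb x r') := by
        refine IntegrableOn.of_bound hfs (hKm.comp hcm).aestronglyMeasurable CK
          (Eventually.of_forall fun z => hCK _)
      exact (integrableOn_iff_integrable_of_support_subset fun z hz => by
        by_contra hc
        exact hz (hsub z hc)).1 hi
    rw [← ofReal_integral_eq_lintegral_ofReal hKi (Eventually.of_forall fun z => hK.nn _)]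
    exact ENNReal.ofReal_le_ofReal (hK.mass x)
  -- the inner integral
  have inner : ∀ X : ι → E, ∫⁻ y, ENNReal.ofReal (H (Function.extend e y X))
      ∂(Measure.pi fun _ : Fin (m + 1) => mO p.L) ≤
      ∫⁻ x in Qb a r, ENNReal.ofReal (F x X) * ENNReal.ofReal κ := by
    intro X
    have hem : Measurable (fun y : Fin (m + 1) → E => Function.extend e y X) :=
      (ovm e hinj).comp (measurable_id.prodMk measurable_const)
    have hgm : Measurable (fun y : Fin (m + 1) → E => ENNReal.ofReal (H (Function.extend e y X))) :=
      (hHm.comp hem).ennreal_ofReal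
    calc ∫⁻ y, ENNReal.ofReal (H (Function.extend e y X))
          ∂(Measure.pi fun _ : Fin (m + 1) => mO p.L)
        ≤ ∫⁻ y, ENNReal.ofReal (H (Function.extend e y X)) := lintegral_mono' (pi_le _) le_rfl
      _ = ∫⁻ q : E × (Fin m → E), ENNReal.ofReal (H (Function.extend e (Fin.cons q.1 q.2) X)) := by
          rw [← ((volume_preserving_piFinSuccAbove (fun _ : Fin (m + 1) => E) 0).symm _
            ).lintegral_comp hgm]
          refine lintegral_congr fun q => ?_
          show ENNReal.ofReal (H (Function.extend e ((0 : Fin (m + 1)).insertNth q.1 q.2) X)) = _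
          rw [Fin.insertNth_zero']
      _ = ∫⁻ x, ∫⁻ z : Fin m → E, ENNReal.ofReal (H (Function.extend e (Fin.cons x z) X)) := by
          rw [Measure.volume_eq_prod, lintegral_prod _ (Measurable.aemeasurable ?_)]
          refine hgm.comp ?_
          refine measurable_pi_iff.2 fun i => ?_
          refine Fin.cases ?_ (fun j => ?_) i
          · simp only [Fin.cons_zero]
            exact measurable_fst
          · simp only [Fin.cons_succ]
            exact (measurable_pi_apply j).comp measurable_snd
      _ ≤ ∫⁻ x, (Qb a r).indicator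
            (fun x => ENNReal.ofReal (F x X) * ENNReal.ofReal κ) x := by
          refine lintegral_mono fun x => ?_
          have hcx : ∀ z : Fin m → E, H (Function.extend e (Fin.cons x z) X) =
              ic (Qb a r) x * (K (Fin.cons x z) * F x X) := by
            intro z
            have h1 : Function.extend e (Fin.cons x z : Fin (m + 1) → E) X ∘ e = Fin.cons x z :=
              Function.extend_comp hinj _ _
            have h2 : Function.extend e (Fin.cons x z : Fin (m + 1) → E) X (e 0) = x := by
              rw [ext_mem e hinj]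
              rfl
            have h3 : F x (Function.extend e (Fin.cons x z : Fin (m + 1) → E) X) = F x X :=
              hind x _ _ fun i hi => ext_not e _ _ i hi
            simp only [hH]
            rw [h1, h2, h3]
          by_cases hx : x ∈ Qb a r
          · rw [Set.indicator_of_mem hx]
            calc ∫⁻ z : Fin m → E, ENNReal.ofReal (H (Function.extend e (Fin.cons x z) X))
                ≤ ∫⁻ z : Fin m → E, ENNReal.ofReal (F x X) * ENNReal.ofReal (K (Fin.cons x z)) := by
                  refine lintegral_mono fun z => ?_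
                  rw [hcx z, ← ENNReal.ofReal_mul (hF0 _ _)]
                  refine ENNReal.ofReal_le_ofReal ?_
                  calc ic (Qb a r) x * (K (Fin.cons x z) * F x X) ≤ 1 * (K (Fin.cons x z) * F x X) :=
                        mul_le_mul_of_nonneg_right (hic1 _ _) (mul_nonneg (hK.nn _) (hF0 _ _))
                    _ = F x X * K (Fin.cons x z) := by ring
              _ = ENNReal.ofReal (F x X) * ∫⁻ z : Fin m → E, ENNReal.ofReal (K (Fin.cons x z)) :=
                  lintegral_const_mul' _ _ ENNReal.ofReal_ne_top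
              _ ≤ ENNReal.ofReal (F x X) * ENNReal.ofReal κ := by
                  gcongr
                  exact mass x
          · rw [Set.indicator_of_notMem hx]
            refine le_of_eq ?_
            have : ∀ z : Fin m → E, ENNReal.ofReal (H (Function.extend e (Fin.cons x z) X)) = 0 := by
              intro z
              have h0 : H (Function.extend e (Fin.cons x z) X) = 0 := by
                rw [hcx z]
                unfold ic
                rw [Set.indicator_of_notMem hx]
                ring
              rw [h0, ENNReal.ofReal_zero]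
            simp [this]
      _ = ∫⁻ x in Qb a r, ENNReal.ofReal (F x X) * ENNReal.ofReal κ :=
          lintegral_indicator hmQ _
  -- conclusion
  have fin : ENNReal.ofReal (IO p H) ≤
      ENNReal.ofReal (κ * ∫ x in Qb a r, IA p θ a (im e) (F x)) := by
    rw [e1, e2, ← (mp (tm (θ a)) (mO p.L) e hinj).lintegral_comp hHm.ennreal_ofReal]
    have hmm : Measurable (fun q : (Fin (m + 1) → E) × (ι → E) =>
        ENNReal.ofReal (H (Function.extend e q.1 q.2))) := (hHm.comp (ovm e hinj)).ennreal_ofReal
    rw [lintegral_prod_symm _ hmm.aemeasurable]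
    calc ∫⁻ X, ∫⁻ y, ENNReal.ofReal (H (Function.extend e y X))
          ∂(Measure.pi fun _ : Fin (m + 1) => mO p.L) ∂(PiS (tm (θ a)) (mO p.L) (im e))
        ≤ ∫⁻ X, (∫⁻ x in Qb a r, ENNReal.ofReal (F x X) * ENNReal.ofReal κ)
            ∂(PiS (tm (θ a)) (mO p.L) (im e)) := lintegral_mono inner
      _ = ∫⁻ x in Qb a r, (∫⁻ X, ENNReal.ofReal (F x X) * ENNReal.ofReal κ
            ∂(PiS (tm (θ a)) (mO p.L) (im e))) := by
          rw [lintegral_lintegral_swap]
          refine Measurable.aemeasurable ?_
          exact ((hFm.comp measurable_swap).ennreal_ofReal).mul_const _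
      _ = ∫⁻ x in Qb a r, (∫⁻ X, ENNReal.ofReal (F x X)
            ∂(PiS (tm (θ a)) (mO p.L) (im e))) * ENNReal.ofReal κ := by
          refine lintegral_congr fun x => ?_
          rw [lintegral_mul_const' _ _ ENNReal.ofReal_ne_top]
      _ = ENNReal.ofReal κ * ∫⁻ x in Qb a r,
            ∫⁻ X, ENNReal.ofReal (F x X) ∂(PiS (tm (θ a)) (mO p.L) (im e)) := by
          rw [lintegral_mul_const' _ _ ENNReal.ofReal_ne_top, mul_comm]
  refine (ENNReal.ofReal_le_ofReal_iff ?_).1 fin
  exact mul_nonneg hκ (integral_nonneg fun x => hIA0 x)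

end Pool.Agent.TBS
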