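import Pool.Agent.TBS.StmtsB

set_option autoImplicit false

namespace Pool.Agent.TBS

open Pool.Agent.TBG Pool.Agent.TBL Pool.Agent.TBF

namespace CM3_

variable {ι : Type} [Fintype ι] [DecidableEq ι]

/-- functions of three indices -/
def e3 : (Fin 3 → ι) ≃ ι × ι × ι where
  toFun e := (e 0, e 1, e 2)
  invFun q := ![q.1, q.2.1, q.2.2]
  left_inv e := by
    funext s
    fin_cases s <;> rfl
  right_inv q := rfl

def e4 : (Fin 4 → ι) ≃ ι × ι × ι × ι where
  toFun e := (e 0, e 1, e 2, e 3)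
  invFun q := ![q.1, q.2.1, q.2.2.1, q.2.2.2]
  left_inv e := by
    funext s
    fin_cases s <;> rfl
  right_inv q := rfl

theorem sum3 (f : (Fin 3 → ι) → ℝ) : ∑ e, f e = ∑ i, ∑ j, ∑ k, f ![i, j, k] := by
  rw [Fintype.sum_equiv (e3 (ι := ι)) f (fun q => f ![q.1, q.2.1, q.2.2])
    (fun e => by
      congr 1
      exact ((e3 (ι := ι)).left_inv e).symm)]
  simp only [Fintype.sum_prod_type]

theorem sum4 (f : (Fin 4 → ι) → ℝ) : ∑ e, f e = ∑ i, ∑ j, ∑ k, ∑ l, f ![i, j, k, l] := by
  rw [Fintype.sum_equiv (e4 (ι := ι)) f (fun q => f ![q.1, q.2.1, q.2.2.1, q.2.2.2])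
    (fun e => by
      congr 1
      exact ((e4 (ι := ι)).left_inv e).symm)]
  simp only [Fintype.sum_prod_type]

theorem inj3 (i j k : ι) : Function.Injective ![i, j, k] ↔ i ≠ j ∧ i ≠ k ∧ j ≠ k := by
  constructor
  · intro h
    refine ⟨fun e => ?_, fun e => ?_, fun e => ?_⟩
    · have := @h 0 1 (by simpa using e)
      exact absurd this (by decide)
    · have := @h 0 2 (by simpa using e)
      exact absurd this (by decide)
    · have := @h 1 2 (by simpa using e)
      exact absurd this (by decide)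
  · rintro ⟨h1, h2, h3⟩ s t hst
    fin_cases s <;> fin_cases t <;> simp_all [eq_comm]

theorem inj4 (i j k l : ι) : Function.Injective ![i, j, k, l] ↔
    (i ≠ j ∧ i ≠ k ∧ j ≠ k) ∧ (i ≠ l ∧ j ≠ l) ∧ k ≠ l := by
  constructor
  · intro h
    refine ⟨⟨fun e => ?_, fun e => ?_, fun e => ?_⟩, ⟨fun e => ?_, fun e => ?_⟩, fun e => ?_⟩
    · have := @h 0 1 (by simpa using e)
      exact absurd this (by decide)
    · have := @h 0 2 (by simpa using e)
      exact absurd this (by decide)
    · have := @h 1 2 (by simpa using e)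
      exact absurd this (by decide)
    · have := @h 0 3 (by simpa using e)
      exact absurd this (by decide)
    · have := @h 1 3 (by simpa using e)
      exact absurd this (by decide)
    · have := @h 2 3 (by simpa using e)
      exact absurd this (by decide)
  · rintro ⟨⟨h1, h2, h3⟩, ⟨h4, h5⟩, h6⟩ s t hst
    fin_cases s <;> fin_cases t <;> simp_all [eq_comm]

theorem im3 (i j k : ι) : im ![i, j, k] = {i, j, k} := by
  ext x
  simp only [im, Finset.mem_image, Finset.mem_univ, true_and, Finset.mem_insert,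
    Finset.mem_singleton]
  constructor
  · rintro ⟨s, rfl⟩
    fin_cases s <;> simp
  · rintro (rfl | rfl | rfl)
    · exact ⟨0, rfl⟩
    · exact ⟨1, rfl⟩
    · exact ⟨2, rfl⟩

theorem card3 (i j k l m : ι) (h1 : i ≠ l) (h2 : i ≠ m) (h3 : l ≠ m) :
    (({i, l, m} : Finset ι) \ {i, j, k}).card = 2 ↔ l ≠ j ∧ l ≠ k ∧ m ≠ j ∧ m ≠ k := by
  have h : ({i, l, m} : Finset ι) \ {i, j, k} =
      ({l, m} : Finset ι).filter (fun x => x ≠ j ∧ x ≠ k) := by
    ext x
    simp only [Finset.mem_sdiff, Finset.mem_insert, Finset.mem_singleton, Finset.mem_filter,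
      not_or]
    constructor
    · rintro ⟨a, b, c, d⟩
      exact ⟨by tauto, c, d⟩
    · rintro ⟨a, c, d⟩
      refine ⟨Or.inr a, ?_, c, d⟩
      rcases a with rfl | rfl
      · exact h1.symm
      · exact h2.symm
  rw [h, Finset.filter_insert, Finset.filter_singleton]
  by_cases a : l ≠ j ∧ l ≠ k
  · by_cases b : m ≠ j ∧ m ≠ k
    · rw [if_pos a, if_pos b, Finset.card_insert_of_notMem (by simpa using h3)]
      simp only [Finset.card_singleton]
      tauto
    · rw [if_pos a, if_neg b]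
      simp only [insert_empty_eq, Finset.card_singleton]
      constructor
      · intro h; omega
      · intro h; exact absurd h.2.2 b
  · rw [if_neg a]
    constructor
    · intro h
      split_ifs at h <;> simp at h
    · intro h; exact absurd ⟨h.1, h.2.1⟩ a

/-- the core identity for fixed first particle -/
theorem core (A B : ι → ι → ℝ) (hA : ∀ j k, A j k = A k j) (hB : ∀ j k, B j k = B k j)
    (hA0 : ∀ j, A j j = 0) (hB0 : ∀ j, B j j = 0) :
    (∑ j, ∑ k, A j k) * (∑ j, ∑ k, B j k) =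
    2 * ∑ j, ∑ k, A j k * B j k + 4 * ∑ j, ∑ k, ∑ m, (if k ≠ m then A j k * B j m else 0) +
    ∑ j, ∑ k, ∑ l, ∑ m, (if l ≠ j ∧ l ≠ k ∧ m ≠ j ∧ m ≠ k then A j k * B l m else 0) := by
  have key : ∀ j k l m : ι, A j k * B l m =
      (if l = j then if m = k then A j k * B l m else 0 else 0) +
      (if l = k then if m = j then A j k * B l m else 0 else 0) +
      (if l = j then if k ≠ m then A j k * B l m else 0 else 0) +
      (if m = j then if k ≠ l then A j k * B l m else 0 else 0) +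
      (if l = k then if j ≠ m then A j k * B l m else 0 else 0) +
      (if m = k then if j ≠ l then A j k * B l m else 0 else 0) +
      (if l ≠ j ∧ l ≠ k ∧ m ≠ j ∧ m ≠ k then A j k * B l m else 0) := by
    intro j k l m
    by_cases h1 : j = k
    · subst h1
      rw [hA0]; simp
    by_cases h2 : l = m
    · subst h2
      rw [hB0]; simp
    by_cases a : l = j
    · subst a
      by_cases b : m = k
      · subst b
        simp [h1, Ne.symm h1]
      · have b' : k ≠ m := fun h => b h.symm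
        simp [h1, b, b', h2, Ne.symm h2]
    · by_cases b : l = k
      · subst b
        by_cases c : m = j
        · subst c
          simp [h1, Ne.symm h1, a]
        · have c' : j ≠ m := fun h => c h.symm
          simp [h1, c, c', h2, Ne.symm h2, a]
      · have a' : j ≠ l := fun h => a h.symm
        have b' : k ≠ l := fun h => b h.symm
        by_cases c : m = j
        · subst c
          simp [a, b, a', b', h1, Ne.symm h1]
        · by_cases d : m = k
          · subst d
            simp [a, b, a', b', h1, Ne.symm h1, c]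
          · simp [a, b, c, d]
  have e0 : (∑ j, ∑ k, A j k) * (∑ j, ∑ k, B j k) = ∑ j, ∑ k, ∑ l, ∑ m, A j k * B l m := by
    rw [Finset.sum_mul]
    refine Finset.sum_congr rfl fun j _ => ?_
    rw [Finset.sum_mul]
    refine Finset.sum_congr rfl fun k _ => ?_
    rw [Finset.mul_sum]
    refine Finset.sum_congr rfl fun l _ => ?_
    rw [Finset.mul_sum]
  rw [e0]
  have e1 : ∑ j, ∑ k, ∑ l, ∑ m, A j k * B l m = ∑ j, ∑ k, ∑ l, ∑ m,
      ((if l = j then if m = k then A j k * B l m else 0 else 0) +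
      (if l = k then if m = j then A j k * B l m else 0 else 0) +
      (if l = j then if k ≠ m then A j k * B l m else 0 else 0) +
      (if m = j then if k ≠ l then A j k * B l m else 0 else 0) +
      (if l = k then if j ≠ m then A j k * B l m else 0 else 0) +
      (if m = k then if j ≠ l then A j k * B l m else 0 else 0) +
      (if l ≠ j ∧ l ≠ k ∧ m ≠ j ∧ m ≠ k then A j k * B l m else 0)) :=
    Finset.sum_congr rfl fun j _ => Finset.sum_congr rfl fun k _ =>
      Finset.sum_congr rfl fun l _ => Finset.sum_congr rfl fun m _ => key j k l m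
  rw [e1]
  simp only [Finset.sum_add_distrib]
  have f1 : ∑ j, ∑ k, ∑ l, ∑ m, (if l = j then if m = k then A j k * B l m else 0 else 0) =
      ∑ j, ∑ k, A j k * B j k := by
    refine Finset.sum_congr rfl fun j _ => Finset.sum_congr rfl fun k _ => ?_
    rw [Finset.sum_eq_single j (fun l _ hl => by simp [hl]) (fun h => absurd (Finset.mem_univ _) h)]
    simp
  have f2 : ∑ j, ∑ k, ∑ l, ∑ m, (if l = k then if m = j then A j k * B l m else 0 else 0) =
      ∑ j, ∑ k, A j k * B j k := by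
    refine Finset.sum_congr rfl fun j _ => Finset.sum_congr rfl fun k _ => ?_
    rw [Finset.sum_eq_single k (fun l _ hl => by simp [hl]) (fun h => absurd (Finset.mem_univ _) h)]
    simp [hB j k]
  have f3 : ∑ j, ∑ k, ∑ l, ∑ m, (if l = j then if k ≠ m then A j k * B l m else 0 else 0) =
      ∑ j, ∑ k, ∑ m, (if k ≠ m then A j k * B j m else 0) := by
    refine Finset.sum_congr rfl fun j _ => Finset.sum_congr rfl fun k _ => ?_
    rw [Finset.sum_eq_single j (fun l _ hl => by simp [hl]) (fun h => absurd (Finset.mem_univ _) h)]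
    simp
  have f4 : ∑ j, ∑ k, ∑ l, ∑ m, (if m = j then if k ≠ l then A j k * B l m else 0 else 0) =
      ∑ j, ∑ k, ∑ m, (if k ≠ m then A j k * B j m else 0) := by
    refine Finset.sum_congr rfl fun j _ => Finset.sum_congr rfl fun k _ =>
      Finset.sum_congr rfl fun l _ => ?_
    rw [Finset.sum_eq_single j (fun m _ hm => by simp [hm]) (fun h => absurd (Finset.mem_univ _) h)]
    simp [hB l j]
  have f5 : ∑ j, ∑ k, ∑ l, ∑ m, (if l = k then if j ≠ m then A j k * B l m else 0 else 0) =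
      ∑ j, ∑ k, ∑ m, (if k ≠ m then A j k * B j m else 0) := by
    rw [Finset.sum_comm]
    refine Finset.sum_congr rfl fun k _ => Finset.sum_congr rfl fun j _ => ?_
    rw [Finset.sum_eq_single k (fun l _ hl => by simp [hl]) (fun h => absurd (Finset.mem_univ _) h)]
    simp [hA j k]
  have f6 : ∑ j, ∑ k, ∑ l, ∑ m, (if m = k then if j ≠ l then A j k * B l m else 0 else 0) =
      ∑ j, ∑ k, ∑ m, (if k ≠ m then A j k * B j m else 0) := by
    rw [Finset.sum_comm]
    refine Finset.sum_congr rfl fun k _ => Finset.sum_congr rfl fun j _ =>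
      Finset.sum_congr rfl fun l _ => ?_
    rw [Finset.sum_eq_single k (fun m _ hm => by simp [hm]) (fun h => absurd (Finset.mem_univ _) h)]
    simp [hA j k, hB l k]
  rw [f1, f2, f3, f4, f5, f6]
  ring

/-- indicator of the distinct triples -/
theorem sumI3 (H : (Fin 3 → ι) → ℝ) : ∑ e ∈ Ij 3 ι, H e =
    ∑ i, ∑ j, ∑ k, (if i ≠ j ∧ i ≠ k ∧ j ≠ k then H ![i, j, k] else 0) := by
  classical
  rw [Ij, Finset.sum_filter, sum3]
  refine Finset.sum_congr rfl fun i _ => Finset.sum_congr rfl fun j _ =>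
    Finset.sum_congr rfl fun k _ => ?_
  simp only [inj3]

theorem sumI4 (H : (Fin 4 → ι) → ℝ) : ∑ e ∈ Ij 4 ι, H e =
    ∑ i, ∑ j, ∑ k, ∑ l, (if (i ≠ j ∧ i ≠ k ∧ j ≠ k) ∧ (i ≠ l ∧ j ≠ l) ∧ k ≠ l then
      H ![i, j, k, l] else 0) := by
  classical
  rw [Ij, Finset.sum_filter, sum4]
  refine Finset.sum_congr rfl fun i _ => Finset.sum_congr rfl fun j _ =>
    Finset.sum_congr rfl fun k _ => Finset.sum_congr rfl fun l _ => ?_
  simp only [inj4]

theorem sumF3 (H : (Fin 3 → ι) → ℝ) (i : ι) : ∑ e ∈ (Ij 3 ι).filter (fun e => e 0 = i), H e =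
    ∑ j, ∑ k, (if i ≠ j ∧ i ≠ k ∧ j ≠ k then H ![i, j, k] else 0) := by
  rw [Finset.sum_filter, sumI3]
  rw [Finset.sum_eq_single i (fun l _ hl => by simp [hl]) (fun h => absurd (Finset.mem_univ _) h)]
  simp

end CM3_

open CM3_ in
theorem cm3_proof (_h : Stmt_TUP) : Stmt_CM3 := by
  intro ι _ _ F G hF hG
  have sw : ∀ i j k : ι, (![i, j, k] : Fin 3 → ι) ∘ Equiv.swap 1 2 = ![i, k, j] := by
    intro i j k
    funext s
    fin_cases s
    · simp [Equiv.swap_apply_of_ne_of_ne]
    · simp [Equiv.swap_apply_left]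
    · simp [Equiv.swap_apply_right]
  set A : ι → ι → ι → ℝ := fun i j k => if i ≠ j ∧ i ≠ k ∧ j ≠ k then F ![i, j, k] else 0 with hAd
  set B : ι → ι → ι → ℝ := fun i j k => if i ≠ j ∧ i ≠ k ∧ j ≠ k then G ![i, j, k] else 0 with hBd
  have hA : ∀ i j k, A i j k = A i k j := by
    intro i j k
    have := hF ![i, j, k]
    rw [sw] at this
    simp only [hAd, this]
    refine if_congr ?_ rfl rfl
    constructor
    · rintro ⟨a, b, c⟩; exact ⟨b, a, c.symm⟩
    · rintro ⟨a, b, c⟩; exact ⟨b, a, c.symm⟩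
  have hB : ∀ i j k, B i j k = B i k j := by
    intro i j k
    have := hG ![i, j, k]
    rw [sw] at this
    simp only [hBd, this]
    refine if_congr ?_ rfl rfl
    constructor
    · rintro ⟨a, b, c⟩; exact ⟨b, a, c.symm⟩
    · rintro ⟨a, b, c⟩; exact ⟨b, a, c.symm⟩
  have hA0 : ∀ i j, A i j j = 0 := fun i j => by simp [hAd]
  have hB0 : ∀ i j, B i j j = 0 := fun i j => by simp [hBd]
  have L : ∑ i, (∑ e ∈ (Ij 3 ι).filter (fun e => e 0 = i), F e) *
      (∑ e ∈ (Ij 3 ι).filter (fun e => e 0 = i), G e) =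
      ∑ i, (∑ j, ∑ k, A i j k) * (∑ j, ∑ k, B i j k) := by
    refine Finset.sum_congr rfl fun i _ => ?_
    rw [sumF3, sumF3]
  rw [L]
  have M : ∑ i, (∑ j, ∑ k, A i j k) * (∑ j, ∑ k, B i j k) = ∑ i,
      (2 * ∑ j, ∑ k, A i j k * B i j k +
        4 * ∑ j, ∑ k, ∑ m, (if k ≠ m then A i j k * B i j m else 0) +
      ∑ j, ∑ k, ∑ l, ∑ m, (if l ≠ j ∧ l ≠ k ∧ m ≠ j ∧ m ≠ k then A i j k * B i l m else 0)) :=
    Finset.sum_congr rfl fun i _ => core (A i) (B i) (hA i) (hB i) (hA0 i) (hB0 i)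
  rw [M]
  have T1 : ∑ e ∈ Ij 3 ι, F e * G e = ∑ i, ∑ j, ∑ k, A i j k * B i j k := by
    rw [sumI3]
    refine Finset.sum_congr rfl fun i _ => Finset.sum_congr rfl fun j _ =>
      Finset.sum_congr rfl fun k _ => ?_
    simp only [hAd, hBd]
    split_ifs <;> simp
  have T2 : ∑ e ∈ Ij 4 ι, F (s2 e) * G (s3 e) =
      ∑ i, ∑ j, ∑ k, ∑ m, (if k ≠ m then A i j k * B i j m else 0) := by
    rw [sumI4]
    refine Finset.sum_congr rfl fun i _ => Finset.sum_congr rfl fun j _ =>
      Finset.sum_congr rfl fun k _ => Finset.sum_congr rfl fun l _ => ?_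
    have e2 : s2 ![i, j, k, l] = ![i, j, k] := rfl
    have e3 : s3 ![i, j, k, l] = ![i, j, l] := rfl
    rw [e2, e3]
    simp only [hAd, hBd]
    by_cases h1 : i ≠ j ∧ i ≠ k ∧ j ≠ k
    · by_cases h2 : i ≠ j ∧ i ≠ l ∧ j ≠ l
      · by_cases h3 : k ≠ l
        · rw [if_pos ⟨h1, h2.2, h3⟩, if_pos h3, if_pos h1, if_pos h2]
        · rw [if_neg (fun h => h3 h.2.2), if_neg h3]
      · rw [if_neg (fun h => h2 ⟨h.1.1, h.2.1⟩), if_neg h2]
        simp
    · rw [if_neg (fun h => h1 h.1), if_neg h1]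
      simp
  have T3 : ∑ e ∈ Ij 3 ι, ∑ e' ∈ (Ij 3 ι).filter (fun e' => e' 0 = e 0 ∧
      (im e' \ im e).card = 2 ∧ (im e \ im e').card = 2), F e * G e' =
      ∑ i, ∑ j, ∑ k, ∑ l, ∑ m,
        (if l ≠ j ∧ l ≠ k ∧ m ≠ j ∧ m ≠ k then A i j k * B i l m else 0) := by
    rw [sumI3]
    refine Finset.sum_congr rfl fun i _ => Finset.sum_congr rfl fun j _ =>
      Finset.sum_congr rfl fun k _ => ?_
    by_cases h1 : i ≠ j ∧ i ≠ k ∧ j ≠ k
    · rw [if_pos h1, Finset.sum_filter, sumI3]
      rw [Finset.sum_eq_single i (fun l _ hl => by simp [hl])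
        (fun h => absurd (Finset.mem_univ _) h)]
      refine Finset.sum_congr rfl fun l _ => Finset.sum_congr rfl fun m _ => ?_
      simp only [hAd, hBd, if_pos h1]
      by_cases h2 : i ≠ l ∧ i ≠ m ∧ l ≠ m
      · rw [if_pos h2, if_pos h2]
        refine if_congr ?_ rfl rfl
        rw [im3, im3, card3 i j k l m h2.1 h2.2.1 h2.2.2,
          card3 i l m j k h1.1 h1.2.1 h1.2.2]
        constructor
        · rintro ⟨-, a, -⟩; exact a
        · rintro ⟨a, b, c, d⟩
          exact ⟨rfl, ⟨a, b, c, d⟩, a.symm, c.symm, b.symm, d.symm⟩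
      · rw [if_neg h2, if_neg h2]
        simp
    · rw [if_neg h1]
      simp only [hAd, if_neg h1]
      simp
  rw [T1, T2, T3, Finset.sum_add_distrib, Finset.sum_add_distrib, Finset.mul_sum, Finset.mul_sum]

end Pool.Agent.TBS
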