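import Pool.Agent.TBS.StmtsB

set_option autoImplicit false

namespace Pool.Agent.TBS

open Pool.Agent.TBG Pool.Agent.TBL Pool.Agent.TBF

namespace CM4_

/-- the permutations of `Fin 4` fixing `0` -/
def P : Finset (Equiv.Perm (Fin 4)) := Finset.univ.filter (fun σ => σ 0 = 0)

theorem card_P : P.card = 6 := by decide

theorem ex_perm : ∀ a b : Fin 4, a ≠ 0 → b ≠ 0 → a ≠ b →
    ∃ σ : Equiv.Perm (Fin 4), σ 0 = 0 ∧ σ 1 = a ∧ σ 2 = b := by decide

theorem perm_ext : ∀ σ τ : Equiv.Perm (Fin 4), σ 0 = τ 0 → σ 1 = τ 1 → σ 2 = τ 2 → σ = τ := by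
  intro σ τ h0 h1 h2
  ext k
  have h3 : σ 3 = τ 3 := by
    obtain ⟨j, hj⟩ := τ.surjective (σ 3)
    fin_cases j
    · exfalso
      have : σ 0 = σ 3 := by rw [h0]; exact hj
      exact absurd (σ.injective this) (by decide)
    · exfalso
      have : σ 1 = σ 3 := by rw [h1]; exact hj
      exact absurd (σ.injective this) (by decide)
    · exfalso
      have : σ 2 = σ 3 := by rw [h2]; exact hj
      exact absurd (σ.injective this) (by decide)
    · exact hj.symm
  fin_cases k
  · exact congrArg _ h0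
  · exact congrArg _ h1
  · exact congrArg _ h2
  · exact congrArg _ h3

variable {ι : Type} [Fintype ι] [DecidableEq ι]

theorem mem_Ij {m : ℕ} {e : Fin m → ι} : e ∈ Ij m ι ↔ Function.Injective e := by
  classical
  simp [Ij]

theorem mem_im {m : ℕ} {e : Fin m → ι} {i : ι} : i ∈ im e ↔ ∃ s, e s = i := by
  simp [im]

/-- the sum over the triples contained in a quadruple -/
theorem inner (F : (Fin 3 → ι) → ℝ) (e' : Fin 4 → ι) (he' : e' ∈ Ij 4 ι) :
    ∑ e ∈ (Ij 3 ι).filter (fun e => e' 0 = e 0 ∧ im e ⊆ im e'), F e =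
      ∑ σ ∈ P, F (s2 (e' ∘ σ)) := by
  have hinj : Function.Injective e' := mem_Ij.1 he'
  symm
  refine Finset.sum_bij (fun σ _ => s2 (e' ∘ σ)) ?_ ?_ ?_ (fun _ _ => rfl)
  · intro σ hσ
    have hσ0 : σ 0 = 0 := by simpa [P] using hσ
    rw [Finset.mem_filter]
    refine ⟨?_, ?_, ?_⟩
    · rw [mem_Ij]
      intro a b hab
      have hi : Function.Injective (e' ∘ σ) := hinj.comp σ.injective
      fin_cases a <;> fin_cases b <;> simp [s2] at hab ⊢
      · exact absurd (hi hab) (by decide)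
      · exact absurd (hi hab) (by decide)
      · exact absurd (hi hab) (by decide)
      · exact absurd (hi hab) (by decide)
      · exact absurd (hi hab) (by decide)
      · exact absurd (hi hab) (by decide)
    · simp [s2, hσ0]
    · intro i hi
      rw [mem_im] at hi ⊢
      obtain ⟨s, hs⟩ := hi
      fin_cases s
      · exact ⟨σ 0, hs⟩
      · exact ⟨σ 1, hs⟩
      · exact ⟨σ 2, hs⟩
  · intro σ _ τ _ h
    have h0 := congrFun h 0
    have h1 := congrFun h 1
    have h2 := congrFun h 2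
    simp only [s2, Matrix.cons_val_zero, Matrix.cons_val_one, Matrix.cons_val, Function.comp] at h0 h1 h2
    exact perm_ext σ τ (hinj h0) (hinj h1) (hinj h2)
  · intro e he
    rw [Finset.mem_filter] at he
    obtain ⟨he3, h0, hsub⟩ := he
    have hei : Function.Injective e := mem_Ij.1 he3
    obtain ⟨a, ha⟩ := mem_im.1 (hsub (mem_im.2 ⟨1, rfl⟩))
    obtain ⟨b, hb⟩ := mem_im.1 (hsub (mem_im.2 ⟨2, rfl⟩))
    have ha0 : a ≠ 0 := by
      rintro rfl
      rw [h0] at ha
      exact absurd (hei ha) (by decide)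
    have hb0 : b ≠ 0 := by
      rintro rfl
      rw [h0] at hb
      exact absurd (hei hb) (by decide)
    have hab : a ≠ b := by
      rintro rfl
      rw [ha] at hb
      exact absurd (hei hb) (by decide)
    obtain ⟨σ, hσ0, hσ1, hσ2⟩ := ex_perm a b ha0 hb0 hab
    refine ⟨σ, by simp [P, hσ0], ?_⟩
    funext k
    fin_cases k
    · simp [s2, hσ0, h0]
    · simp [s2, hσ1, ha]
    · simp [s2, hσ2, hb]

end CM4_

open CM4_ in
theorem cm4_proof (hTUP : Stmt_TUP) : Stmt_CM4 := by
  intro ι _ _ F G _ hG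
  obtain ⟨-, hperm, -, -, -, hcard, hsum⟩ := hTUP ι
  -- the left side as a double sum
  have hL : ∑ i, (∑ e ∈ (Ij 3 ι).filter (fun e => e 0 = i), F e) *
      (∑ e ∈ (Ij 4 ι).filter (fun e => e 0 = i), G e) =
      ∑ e ∈ Ij 3 ι, ∑ e' ∈ (Ij 4 ι).filter (fun e' => e' 0 = e 0), F e * G e' := by
    rw [← hsum 2 (fun e => ∑ e' ∈ (Ij 4 ι).filter (fun e' => e' 0 = e 0), F e * G e')]
    refine Finset.sum_congr rfl fun i _ => ?_
    rw [Finset.sum_mul]
    refine Finset.sum_congr rfl fun e he => ?_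
    rw [Finset.mem_filter] at he
    rw [Finset.mul_sum, he.2]
  -- the splitting
  have hS : ∀ e ∈ Ij 3 ι, ∑ e' ∈ (Ij 4 ι).filter (fun e' => e' 0 = e 0), F e * G e' =
      ∑ e' ∈ (Ij 4 ι).filter (fun e' => e' 0 = e 0 ∧ im e ⊆ im e'), F e * G e' +
      ∑ e' ∈ (Ij 4 ι).filter (fun e' => e' 0 = e 0 ∧ (im e' \ im e).card = 2 ∧
        (im e \ im e').card = 1), F e * G e' +
      ∑ e' ∈ (Ij 4 ι).filter (fun e' => e' 0 = e 0 ∧ (im e' \ im e).card = 3 ∧
        (im e \ im e').card = 2), F e * G e' := by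
    intro e he
    rw [Finset.sum_filter, Finset.sum_filter, Finset.sum_filter, Finset.sum_filter,
      ← Finset.sum_add_distrib, ← Finset.sum_add_distrib]
    refine Finset.sum_congr rfl fun e' he' => ?_
    by_cases h0 : e' 0 = e 0
    · have hA := hcard 3 e he
      have hB := hcard 4 e' he'
      have h1 : (im e \ im e').card + (im e ∩ im e').card = (im e).card :=
        Finset.card_sdiff_add_card_inter _ _
      have h2 : (im e' \ im e).card + (im e' ∩ im e).card = (im e').card :=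
        Finset.card_sdiff_add_card_inter _ _
      rw [Finset.inter_comm (im e') (im e)] at h2
      have h3 : 1 ≤ (im e ∩ im e').card := by
        rw [Nat.one_le_iff_ne_zero, Finset.card_ne_zero]
        refine ⟨e 0, ?_⟩
        rw [Finset.mem_inter, mem_im, mem_im]
        exact ⟨⟨0, rfl⟩, ⟨0, h0⟩⟩
      have h4 : im e ⊆ im e' ↔ (im e \ im e').card = 0 := by
        rw [Finset.card_eq_zero, Finset.sdiff_eq_empty_iff_subset]
      rw [hA] at h1
      rw [hB] at h2
      generalize (im e ∩ im e').card = c at *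
      generalize (im e \ im e').card = s at *
      generalize (im e' \ im e).card = r at *
      have hs : s = 3 - c := by omega
      have hr : r = 4 - c := by omega
      have hc : c = 1 ∨ c = 2 ∨ c = 3 := by omega
      rcases hc with rfl | rfl | rfl
      · have h5 : ¬ (im e ⊆ im e') := by rw [h4]; omega
        subst hs hr
        simp [h0, h5]
      · have h5 : ¬ (im e ⊆ im e') := by rw [h4]; omega
        subst hs hr
        simp [h0, h5]
      · have h5 : (im e ⊆ im e') := by rw [h4]; omega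
        subst hs hr
        simp [h0, h5]
    · simp [h0]
  -- the part with `im e ⊆ im e'`
  have hI : ∑ e ∈ Ij 3 ι, ∑ e' ∈ (Ij 4 ι).filter (fun e' => e' 0 = e 0 ∧ im e ⊆ im e'), F e * G e' =
      6 * ∑ e ∈ Ij 4 ι, F (s2 e) * G e := by
    have h1 : ∑ e ∈ Ij 3 ι, ∑ e' ∈ (Ij 4 ι).filter (fun e' => e' 0 = e 0 ∧ im e ⊆ im e'), F e * G e' =
        ∑ e' ∈ Ij 4 ι, ∑ e ∈ (Ij 3 ι).filter (fun e => e' 0 = e 0 ∧ im e ⊆ im e'), F e * G e' := by
      simp_rw [Finset.sum_filter]
      exact Finset.sum_comm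
    rw [h1]
    have h2 : ∀ e' ∈ Ij 4 ι, ∑ e ∈ (Ij 3 ι).filter (fun e => e' 0 = e 0 ∧ im e ⊆ im e'), F e * G e' =
        ∑ σ ∈ P, F (s2 (e' ∘ σ)) * G (e' ∘ σ) := by
      intro e' he'
      rw [← Finset.sum_mul, inner F e' he', Finset.sum_mul]
      refine Finset.sum_congr rfl fun σ hσ => ?_
      rw [hG σ e' (by simpa [P] using hσ)]
    rw [Finset.sum_congr rfl h2, Finset.sum_comm]
    have h3 : ∀ σ ∈ P, ∑ e' ∈ Ij 4 ι, F (s2 (e' ∘ σ)) * G (e' ∘ σ) =
        ∑ e ∈ Ij 4 ι, F (s2 e) * G e := fun σ _ =>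
      (hperm 4 σ).1 (fun e => F (s2 e) * G e)
    rw [Finset.sum_congr rfl h3, Finset.sum_const, card_P]
    simp
  rw [hL, Finset.sum_congr rfl hS, Finset.sum_add_distrib, Finset.sum_add_distrib, hI]

end Pool.Agent.TBS
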