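import Pool.Agent.TBS.StmtsB

set_option autoImplicit false

namespace Pool.Agent.TBS

open Pool.Agent.TBG Pool.Agent.TBL Pool.Agent.TBF

namespace CM5_

/-- the permutations of `Fin 4` fixing `0` -/
def P : Finset (Equiv.Perm (Fin 4)) := Finset.univ.filter (fun σ => σ 0 = 0)

theorem card_P : P.card = 6 := by decide

variable {ι : Type} [Fintype ι] [DecidableEq ι]

theorem mem_Ij {m : ℕ} {e : Fin m → ι} : e ∈ Ij m ι ↔ Function.Injective e := by
  classical
  simp [Ij]

omit [Fintype ι] in
theorem mem_im {m : ℕ} {e : Fin m → ι} {i : ι} : i ∈ im e ↔ ∃ s, e s = i := by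
  simp [im]

/-- the sum over the quadruples with the same particles -/
theorem inner (F : (Fin 4 → ι) → ℝ) (e' : Fin 4 → ι) (he' : e' ∈ Ij 4 ι) :
    ∑ e ∈ (Ij 4 ι).filter (fun e => e' 0 = e 0 ∧ im e ⊆ im e'), F e =
      ∑ σ ∈ P, F (e' ∘ σ) := by
  have hinj : Function.Injective e' := mem_Ij.1 he'
  symm
  refine Finset.sum_bij (fun σ _ => e' ∘ σ) ?_ ?_ ?_ (fun _ _ => rfl)
  · intro σ hσ
    have hσ0 : σ 0 = 0 := by simpa [P] using hσ
    rw [Finset.mem_filter]
    refine ⟨?_, ?_, ?_⟩
    · rw [mem_Ij]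
      exact hinj.comp σ.injective
    · simp [hσ0]
    · intro i hi
      rw [mem_im] at hi ⊢
      obtain ⟨s, hs⟩ := hi
      exact ⟨σ s, hs⟩
  · intro σ _ τ _ h
    ext k
    exact congrArg _ (hinj (congrFun h k))
  · intro e he
    rw [Finset.mem_filter] at he
    obtain ⟨he3, h0, hsub⟩ := he
    have hei : Function.Injective e := mem_Ij.1 he3
    have hex : ∀ k, ∃ a, e' a = e k := fun k => mem_im.1 (hsub (mem_im.2 ⟨k, rfl⟩))
    choose f hf using hex
    have hfi : Function.Injective f := by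
      intro a b hab
      apply hei
      rw [← hf a, ← hf b, hab]
    refine ⟨Equiv.ofBijective f (Finite.injective_iff_bijective.1 hfi), ?_, ?_⟩
    · simp only [P, Finset.mem_filter, Finset.mem_univ, true_and, Equiv.ofBijective_apply]
      apply hinj
      rw [hf 0, h0]
    · funext k
      simp [hf k]

end CM5_

open CM5_ in
theorem cm5_proof (hTUP : Stmt_TUP) : Stmt_CM5 := by
  intro ι _ _ F G hG
  obtain ⟨-, hperm, -, -, -, hcard, hsum⟩ := hTUP ι
  -- the left side as a double sum
  have hL : ∑ i, (∑ e ∈ (Ij 4 ι).filter (fun e => e 0 = i), F e) *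
      (∑ e ∈ (Ij 4 ι).filter (fun e => e 0 = i), G e) =
      ∑ e ∈ Ij 4 ι, ∑ e' ∈ (Ij 4 ι).filter (fun e' => e' 0 = e 0), F e * G e' := by
    rw [← hsum 3 (fun e => ∑ e' ∈ (Ij 4 ι).filter (fun e' => e' 0 = e 0), F e * G e')]
    refine Finset.sum_congr rfl fun i _ => ?_
    rw [Finset.sum_mul]
    refine Finset.sum_congr rfl fun e he => ?_
    rw [Finset.mem_filter] at he
    rw [Finset.mul_sum, he.2]
  -- the splitting
  have hS : ∀ e ∈ Ij 4 ι, ∑ e' ∈ (Ij 4 ι).filter (fun e' => e' 0 = e 0), F e * G e' =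
      ∑ e' ∈ (Ij 4 ι).filter (fun e' => e' 0 = e 0 ∧ im e ⊆ im e'), F e * G e' +
      ∑ r ∈ Finset.Icc 1 3, ∑ e' ∈ (Ij 4 ι).filter (fun e' => e' 0 = e 0 ∧
        (im e' \ im e).card = r ∧ (im e \ im e').card = r), F e * G e' := by
    intro e he
    have hI : Finset.Icc 1 3 = ({1, 2, 3} : Finset ℕ) := by decide
    rw [hI, Finset.sum_insert (by decide), Finset.sum_insert (by decide), Finset.sum_singleton]
    rw [Finset.sum_filter, Finset.sum_filter, Finset.sum_filter, Finset.sum_filter,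
      Finset.sum_filter, ← Finset.sum_add_distrib, ← Finset.sum_add_distrib,
      ← Finset.sum_add_distrib]
    refine Finset.sum_congr rfl fun e' he' => ?_
    by_cases h0 : e' 0 = e 0
    · have hA := hcard 4 e he
      have hB := hcard 4 e' he'
      have h1 : (im e \ im e').card + (im e ∩ im e').card = (im e).card :=
        Finset.card_sdiff_add_card_inter _ _
      have h2 : (im e' \ im e).card + (im e' ∩ im e).card = (im e').card :=
        Finset.card_sdiff_add_card_inter _ _
      rw [Finset.inter_comm (im e') (im e)] at h2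
      have h3 : 1 ≤ (im e ∩ im e').card := by
        rw [Nat.one_le_iff_ne_zero, Finset.card_ne_zero]
        refine ⟨e 0, ?_⟩
        rw [Finset.mem_inter, mem_im, mem_im]
        exact ⟨⟨0, rfl⟩, ⟨0, h0⟩⟩
      have h4 : im e ⊆ im e' ↔ (im e \ im e').card = 0 := by
        rw [Finset.card_eq_zero, Finset.sdiff_eq_empty_iff_subset]
      rw [hA] at h1
      rw [hB] at h2
      generalize (im e ∩ im e').card = c at *
      generalize (im e \ im e').card = s at *
      generalize (im e' \ im e).card = r at *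
      have hs : s = 4 - c := by omega
      have hr : r = 4 - c := by omega
      have hc : c = 1 ∨ c = 2 ∨ c = 3 ∨ c = 4 := by omega
      rcases hc with rfl | rfl | rfl | rfl
      · have h5 : ¬ (im e ⊆ im e') := by rw [h4]; omega
        subst hs hr
        simp [h0, h5]
      · have h5 : ¬ (im e ⊆ im e') := by rw [h4]; omega
        subst hs hr
        simp [h0, h5]
      · have h5 : ¬ (im e ⊆ im e') := by rw [h4]; omega
        subst hs hr
        simp [h0, h5]
      · have h5 : (im e ⊆ im e') := by rw [h4]; omega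
        subst hs hr
        simp [h0, h5]
    · simp [h0]
  -- the part with `im e ⊆ im e'`
  have hI : ∑ e ∈ Ij 4 ι, ∑ e' ∈ (Ij 4 ι).filter (fun e' => e' 0 = e 0 ∧ im e ⊆ im e'), F e * G e' =
      6 * ∑ e ∈ Ij 4 ι, F e * G e := by
    have h1 : ∑ e ∈ Ij 4 ι, ∑ e' ∈ (Ij 4 ι).filter (fun e' => e' 0 = e 0 ∧ im e ⊆ im e'), F e * G e' =
        ∑ e' ∈ Ij 4 ι, ∑ e ∈ (Ij 4 ι).filter (fun e => e' 0 = e 0 ∧ im e ⊆ im e'), F e * G e' := by
      simp_rw [Finset.sum_filter]
      exact Finset.sum_comm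
    rw [h1]
    have h2 : ∀ e' ∈ Ij 4 ι, ∑ e ∈ (Ij 4 ι).filter (fun e => e' 0 = e 0 ∧ im e ⊆ im e'), F e * G e' =
        6 * (F e' * G e') := by
      intro e' he'
      rw [← Finset.sum_mul, inner F e' he']
      have h3 : ∑ σ ∈ P, F (e' ∘ σ) = 6 * F e' := by
        rw [Finset.sum_congr rfl (fun σ hσ => (hG σ e' (by simpa [P] using hσ)).1),
          Finset.sum_const, card_P]
        simp
      rw [h3]
      ring
    rw [Finset.sum_congr rfl h2, Finset.mul_sum]
  rw [hL, Finset.sum_congr rfl hS, Finset.sum_add_distrib, hI, Finset.sum_comm]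

end Pool.Agent.TBS
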