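import Pool.Agent.TBS.StmtsB

/-!
# Three-body Bose gases, sharp lower bound, module CTI: counting with indicators
-/

set_option autoImplicit false

open MeasureTheory Filter Topology
open scoped ContDiff

namespace Pool.Agent.TBS

open Pool.Agent.TBG Pool.Agent.TBL Pool.Agent.TBF

namespace CTI_

variable {ι : Type} [Fintype ι] [DecidableEq ι]

lemma prod_im {m : ℕ} {e : Fin m → ι} (he : Function.Injective e) (t : ι → ℝ) :
    ∏ i ∈ im e, t i = ∏ s, t (e s) := by
  unfold im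
  rw [Finset.prod_image (fun x _ y _ h => he h)]

lemma sum_im {m : ℕ} {e : Fin m → ι} (he : Function.Injective e) (t : ι → ℝ) :
    ∑ i ∈ im e, t i = ∑ s, t (e s) := by
  unfold im
  rw [Finset.sum_image (fun x _ y _ h => he h)]

lemma mem_Ij {m : ℕ} {e : Fin m → ι} : e ∈ Ij m ι ↔ Function.Injective e := by
  classical
  unfold Ij
  simp

/-- sum over all tuples of a product -/
lemma sum_all (m : ℕ) (g : Fin m → ι → ℝ) : ∑ e : Fin m → ι, ∏ s, g s (e s) = ∏ s, ∑ i, g s i := by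
  rw [Finset.prod_univ_sum, Fintype.piFinset_univ]

lemma sum_le (m : ℕ) (t : ι → ℝ) (ht : ∀ i, 0 ≤ t i) :
    ∑ e ∈ Ij m ι, ∏ s, t (e s) ≤ (∑ i, t i) ^ m := by
  have h1 : ∑ e : Fin m → ι, ∏ s, t (e s) = (∑ i, t i) ^ m := by
    rw [sum_all m (fun _ => t)]
    simp
  rw [← h1]
  exact Finset.sum_le_sum_of_subset_of_nonneg (Finset.subset_univ _)
    (fun e _ _ => Finset.prod_nonneg fun s _ => ht _)

lemma sum_le_f (m : ℕ) (t f : ι → ℝ) (ht : ∀ i, 0 ≤ t i) (hf : ∀ i, 0 ≤ f i) :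
    ∑ e ∈ Ij (m + 1) ι, (∏ s, t (e s)) * ∑ s, f (e s) ≤
      ((m : ℝ) + 1) * ((∑ i, t i) ^ m * ∑ i, t i * f i) := by
  have h1 : ∑ e ∈ Ij (m + 1) ι, (∏ s, t (e s)) * ∑ s, f (e s) ≤
      ∑ e : Fin (m + 1) → ι, (∏ s, t (e s)) * ∑ s, f (e s) :=
    Finset.sum_le_sum_of_subset_of_nonneg (Finset.subset_univ _)
      (fun e _ _ => mul_nonneg (Finset.prod_nonneg fun s _ => ht _)
        (Finset.sum_nonneg fun s _ => hf _))
  refine h1.trans (le_of_eq ?_)
  have h2 : ∀ s₀ : Fin (m + 1), ∑ e : Fin (m + 1) → ι, (∏ s, t (e s)) * f (e s₀) =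
      (∑ i, t i) ^ m * ∑ i, t i * f i := by
    intro s₀
    have h3 := sum_all (m + 1) (fun s i => if s = s₀ then t i * f i else t i)
    have h4 : ∀ e : Fin (m + 1) → ι, ∏ s, (if s = s₀ then t (e s) * f (e s) else t (e s)) =
        (∏ s, t (e s)) * f (e s₀) := by
      intro e
      rw [← Finset.mul_prod_erase Finset.univ _ (Finset.mem_univ s₀),
        ← Finset.mul_prod_erase Finset.univ (fun s => t (e s)) (Finset.mem_univ s₀), if_pos rfl]
      have h5 : ∏ s ∈ Finset.univ.erase s₀, (if s = s₀ then t (e s) * f (e s) else t (e s)) =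
          ∏ s ∈ Finset.univ.erase s₀, t (e s) := by
        refine Finset.prod_congr rfl fun s hs => ?_
        rw [if_neg (Finset.ne_of_mem_erase hs)]
      rw [h5]
      ring
    simp only [h4] at h3
    rw [h3, ← Finset.mul_prod_erase Finset.univ _ (Finset.mem_univ s₀)]
    have h6 : ∏ s ∈ Finset.univ.erase s₀, ∑ i, (if s = s₀ then t i * f i else t i) =
        (∑ i, t i) ^ m := by
      have h7 : ∏ s ∈ Finset.univ.erase s₀, ∑ i, (if s = s₀ then t i * f i else t i) =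
          ∏ s ∈ Finset.univ.erase s₀, ∑ i, t i := by
        refine Finset.prod_congr rfl fun s hs => ?_
        simp only [if_neg (Finset.ne_of_mem_erase hs)]
      rw [h7, Finset.prod_const, Finset.card_erase_of_mem (Finset.mem_univ _)]
      simp
    rw [h6]
    simp only [if_true]
    ring
  calc ∑ e : Fin (m + 1) → ι, (∏ s, t (e s)) * ∑ s, f (e s)
      = ∑ s₀, ∑ e : Fin (m + 1) → ι, (∏ s, t (e s)) * f (e s₀) := by
        rw [Finset.sum_comm]
        refine Finset.sum_congr rfl fun e _ => ?_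
        rw [Finset.mul_sum]
    _ = ((m : ℝ) + 1) * ((∑ i, t i) ^ m * ∑ i, t i * f i) := by
        simp only [h2]
        simp

end CTI_

open CTI_

theorem cti_proof (hVTP : Stmt_VTP) : Stmt_CTI := by
  classical
  intro C m ι _ _ p β θ hS a r X f hr hf
  have hl1 : 1 ≤ p.l := hS.hR.trans hS.hl
  have hM : 0 < p.M := by linarith [hS.hM]
  set t : ι → ℝ := fun i => ic (Qb a r) (X i) with ht
  have ht01 : ∀ i, 0 ≤ t i ∧ t i ≤ 1 := by
    intro i
    show 0 ≤ ic (Qb a r) (X i) ∧ ic (Qb a r) (X i) ≤ 1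
    unfold ic Set.indicator
    split_ifs <;> norm_num
  have ht0 : ∀ i, 0 ≤ t i := fun i => (ht01 i).1
  have htQ : ∀ i, t i ≠ 0 → X i ∈ Qc p a := by
    intro i hi
    have h1 : X i ∈ Qb a r := Set.mem_of_indicator_ne_zero hi
    intro c
    have h2 := abs_le.1 (h1 c)
    constructor <;> linarith [h2.1, h2.2]
  -- the common value
  set v : ℝ := vt p a ∅ X with hv
  have hvt : ∀ S : Finset ι, (∀ i ∈ S, X i ∈ Qc p a) → vt p a S X = v := by
    intro S hSQ
    have h := (hVTP ι C p β θ hS a ∅).2.2.2.1 S X (fun j hj _ => hSQ j hj)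
    rw [hv, h, Finset.empty_union]
  have hv01 : v = 0 ∨ v = 1 := by
    have h := ((hVTP ι C p β θ hS a ∅).2.2.1 X).1
    exact h
  have hv0 : 0 ≤ v := by rcases hv01 with h | h <;> rw [h] <;> norm_num
  have hsum : v * ∑ i, t i ≤ p.M * v := by
    have h := ((hVTP ι C p β θ hS a ∅).2.2.1 X).2.2 r hr
    simpa using h
  have hsum0 : 0 ≤ ∑ i, t i := Finset.sum_nonneg fun i _ => ht0 i
  have hpow : v * (∑ i, t i) ^ m ≤ v * p.M ^ m := by
    rcases hv01 with h | h
    · rw [h]; simp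
    · rw [h, one_mul, one_mul]
      rw [h, one_mul, mul_one] at hsum
      exact pow_le_pow_left₀ hsum0 hsum m
  -- terms
  have hterm : ∀ {k : ℕ} (e : Fin k → ι), Function.Injective e →
      (∏ i ∈ im e, ic (Qb a r) (X i)) * vt p a (im e) X = v * ∏ s, t (e s) := by
    intro k e he
    rw [prod_im he (fun i => ic (Qb a r) (X i))]
    by_cases h0 : ∏ s, t (e s) = 0
    · have : ∏ s, ic (Qb a r) (X (e s)) = 0 := h0
      rw [this]
      simp
    · have h1 : ∀ i ∈ im e, X i ∈ Qc p a := by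
        intro i hi
        unfold im at hi
        obtain ⟨s, -, rfl⟩ := Finset.mem_image.1 hi
        exact htQ _ (fun h => h0 (Finset.prod_eq_zero (Finset.mem_univ s) h))
      rw [hvt _ h1, mul_comm]
  have h1 : ∑ e ∈ Ij (m + 1) ι, (∏ i ∈ im e, ic (Qb a r) (X i)) * (vt p a (im e) X * ∑ i ∈ im e, f i) =
      v * ∑ e ∈ Ij (m + 1) ι, (∏ s, t (e s)) * ∑ s, f (e s) := by
    rw [Finset.mul_sum]
    refine Finset.sum_congr rfl fun e he => ?_
    rw [← mul_assoc, hterm e (mem_Ij.1 he), sum_im (mem_Ij.1 he) f]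
    ring
  have h2 : ∑ i, ic (Qb a r) (X i) * (vt p a {i} X * f i) = v * ∑ i, t i * f i := by
    rw [Finset.mul_sum]
    refine Finset.sum_congr rfl fun i _ => ?_
    by_cases h0 : t i = 0
    · have : ic (Qb a r) (X i) = 0 := h0
      rw [this]; simp [h0]
    · rw [hvt {i} (fun j hj => by rw [Finset.mem_singleton.1 hj]; exact htQ i h0)]
      show t i * (v * f i) = _
      ring
  have hF : 0 ≤ ∑ i, t i * f i := Finset.sum_nonneg fun i _ => mul_nonneg (ht0 i) (hf i)
  rw [h1, h2]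
  calc v * ∑ e ∈ Ij (m + 1) ι, (∏ s, t (e s)) * ∑ s, f (e s)
      ≤ v * (((m : ℝ) + 1) * ((∑ i, t i) ^ m * ∑ i, t i * f i)) := by
        gcongr
        exact sum_le_f m t f ht0 hf
    _ = (v * (∑ i, t i) ^ m) * (((m : ℝ) + 1) * ∑ i, t i * f i) := by ring
    _ ≤ (v * p.M ^ m) * (((m : ℝ) + 1) * ∑ i, t i * f i) := by
        gcongr
    _ = ((m : ℝ) + 1) * p.M ^ m * (v * ∑ i, t i * f i) := by ring

end Pool.Agent.TBS
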