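import Pool.Agent.TBS.StmtsA

/-!
# Three-body Bose gases, sharp lower bound, module CTS: counting
-/

set_option autoImplicit false

open MeasureTheory Filter Topology
open scoped ContDiff

namespace Pool.Agent.TBS

open Pool.Agent.TBG Pool.Agent.TBL Pool.Agent.TBF

namespace CTS_

variable {ι : Type} [Fintype ι] [DecidableEq ι]

lemma prod_im {m : ℕ} {e : Fin m → ι} (he : Function.Injective e) (t : ι → ℝ) :
    ∏ i ∈ im e, t i = ∏ s, t (e s) := by
  unfold im
  rw [Finset.prod_image (fun x _ y _ h => he h)]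

lemma sum_im {m : ℕ} {e : Fin m → ι} (he : Function.Injective e) (t : ι → ℝ) :
    ∑ i ∈ im e, t i = ∑ s, t (e s) := by
  unfold im
  rw [Finset.sum_image (fun x _ y _ h => he h)]

lemma mem_Ij {m : ℕ} {e : Fin m → ι} : e ∈ Ij m ι ↔ Function.Injective e := by
  classical
  unfold Ij
  simp

/-- sum over all tuples of a product -/
lemma sum_all (m : ℕ) (g : Fin m → ι → ℝ) : ∑ e : Fin m → ι, ∏ s, g s (e s) = ∏ s, ∑ i, g s i := by
  rw [Finset.prod_univ_sum, Fintype.piFinset_univ]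

lemma sum_le (m : ℕ) (t : ι → ℝ) (ht : ∀ i, 0 ≤ t i) :
    ∑ e ∈ Ij m ι, ∏ s, t (e s) ≤ (∑ i, t i) ^ m := by
  have h1 : ∑ e : Fin m → ι, ∏ s, t (e s) = (∑ i, t i) ^ m := by
    rw [sum_all m (fun _ => t)]
    simp
  rw [← h1]
  exact Finset.sum_le_sum_of_subset_of_nonneg (Finset.subset_univ _)
    (fun e _ _ => Finset.prod_nonneg fun s _ => ht _)

lemma sum_le_f (m : ℕ) (t f : ι → ℝ) (ht : ∀ i, 0 ≤ t i) (hf : ∀ i, 0 ≤ f i) :
    ∑ e ∈ Ij (m + 1) ι, (∏ s, t (e s)) * ∑ s, f (e s) ≤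
      ((m : ℝ) + 1) * ((∑ i, t i) ^ m * ∑ i, t i * f i) := by
  have h1 : ∑ e ∈ Ij (m + 1) ι, (∏ s, t (e s)) * ∑ s, f (e s) ≤
      ∑ e : Fin (m + 1) → ι, (∏ s, t (e s)) * ∑ s, f (e s) :=
    Finset.sum_le_sum_of_subset_of_nonneg (Finset.subset_univ _)
      (fun e _ _ => mul_nonneg (Finset.prod_nonneg fun s _ => ht _)
        (Finset.sum_nonneg fun s _ => hf _))
  refine h1.trans (le_of_eq ?_)
  have h2 : ∀ s₀ : Fin (m + 1), ∑ e : Fin (m + 1) → ι, (∏ s, t (e s)) * f (e s₀) =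
      (∑ i, t i) ^ m * ∑ i, t i * f i := by
    intro s₀
    have h3 := sum_all (m + 1) (fun s i => if s = s₀ then t i * f i else t i)
    have h4 : ∀ e : Fin (m + 1) → ι, ∏ s, (if s = s₀ then t (e s) * f (e s) else t (e s)) =
        (∏ s, t (e s)) * f (e s₀) := by
      intro e
      rw [← Finset.mul_prod_erase Finset.univ _ (Finset.mem_univ s₀),
        ← Finset.mul_prod_erase Finset.univ (fun s => t (e s)) (Finset.mem_univ s₀), if_pos rfl]
      have h5 : ∏ s ∈ Finset.univ.erase s₀, (if s = s₀ then t (e s) * f (e s) else t (e s)) =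
          ∏ s ∈ Finset.univ.erase s₀, t (e s) := by
        refine Finset.prod_congr rfl fun s hs => ?_
        rw [if_neg (Finset.ne_of_mem_erase hs)]
      rw [h5]
      ring
    simp only [h4] at h3
    rw [h3, ← Finset.mul_prod_erase Finset.univ _ (Finset.mem_univ s₀)]
    have h6 : ∏ s ∈ Finset.univ.erase s₀, ∑ i, (if s = s₀ then t i * f i else t i) =
        (∑ i, t i) ^ m := by
      have h7 : ∏ s ∈ Finset.univ.erase s₀, ∑ i, (if s = s₀ then t i * f i else t i) =
          ∏ s ∈ Finset.univ.erase s₀, ∑ i, t i := by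
        refine Finset.prod_congr rfl fun s hs => ?_
        simp only [if_neg (Finset.ne_of_mem_erase hs)]
      rw [h7, Finset.prod_const, Finset.card_erase_of_mem (Finset.mem_univ _)]
      simp
    rw [h6]
    simp only [if_true]
    ring
  calc ∑ e : Fin (m + 1) → ι, (∏ s, t (e s)) * ∑ s, f (e s)
      = ∑ s₀, ∑ e : Fin (m + 1) → ι, (∏ s, t (e s)) * f (e s₀) := by
        rw [Finset.sum_comm]
        refine Finset.sum_congr rfl fun e _ => ?_
        rw [Finset.mul_sum]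
    _ = ((m : ℝ) + 1) * ((∑ i, t i) ^ m * ∑ i, t i * f i) := by
        simp only [h2]
        simp

end CTS_

open CTS_

theorem cts_proof (hMSY : Stmt_MSY) (hVTP : Stmt_VTP) : Stmt_CTS := by
  classical
  intro C m
  refine ⟨((m : ℝ) + 1) * (max C 1) ^ m, by positivity, ?_⟩
  intro ι _ _ p β θ hS a X
  obtain ⟨hl1, -, -, -, -, hQQ, -, -, -, -, -, -⟩ := hMSY C p β θ hS
  have hl3 : 0 < p.l ^ 3 := by positivity
  have hM : 0 < p.M := by linarith [hS.hM]
  have hK : (1 : ℝ) ≤ max C 1 := le_max_right _ _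
  set t : ι → ℝ := fun i => θ a (X i) with ht
  have ht0 : ∀ i, 0 ≤ t i := fun i => hS.θ0 a (X i)
  have htb : ∀ i, t i ≤ max C 1 / p.l ^ 3 := by
    intro i
    refine (hS.θb a (X i)).trans ?_
    gcongr
    exact le_max_left _ _
  have htQ : ∀ i, t i ≠ 0 → X i ∈ Qc p a := by
    intro i hi
    exact hQQ a (2 * p.l) (by linarith) (hS.θsp a (X i) hi)
  -- the common value
  set v : ℝ := vt p a ∅ X with hv
  have hvt : ∀ S : Finset ι, (∀ i ∈ S, X i ∈ Qc p a) → vt p a S X = v := by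
    intro S hSQ
    have h := (hVTP ι C p β θ hS a ∅).2.2.2.1 S X (fun j hj _ => hSQ j hj)
    rw [hv, h, Finset.empty_union]
  have hv01 : v = 0 ∨ v = 1 := by
    have h := ((hVTP ι C p β θ hS a ∅).2.2.1 X).1
    exact h
  have hv0 : 0 ≤ v := by rcases hv01 with h | h <;> rw [h] <;> norm_num
  -- the sum of the densities
  have hsum : v = 1 → ∑ i, t i ≤ max C 1 * (p.M / p.l ^ 3) := by
    intro hv1
    have hk : (((Finset.univ.filter (fun j => X j ∈ Qc p a)).card : ℕ) : ℝ) ≤ p.M := by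
      have h1 : ((∅ : Finset ι).card : ℝ) + nQ p a ∅ X ≤ p.M := by
        by_contra hcon
        have : vt p a ∅ X = 0 := by
          unfold vt
          rw [if_neg hcon]
        rw [← hv, hv1] at this
        exact one_ne_zero this
      have h2 : nQ p a ∅ X = (((Finset.univ.filter (fun j => X j ∈ Qc p a)).card : ℕ) : ℝ) := by
        unfold nQ
        congr 2
        ext j
        simp
      rw [h2] at h1
      simpa using h1
    have h3 : ∑ i, t i = ∑ i ∈ Finset.univ.filter (fun j => X j ∈ Qc p a), t i := by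
      symm
      refine Finset.sum_subset (Finset.subset_univ _) fun i _ hi => ?_
      by_contra hne
      exact hi (Finset.mem_filter.2 ⟨Finset.mem_univ _, htQ i hne⟩)
    rw [h3]
    calc ∑ i ∈ Finset.univ.filter (fun j => X j ∈ Qc p a), t i
        ≤ ∑ i ∈ Finset.univ.filter (fun j => X j ∈ Qc p a), max C 1 / p.l ^ 3 :=
          Finset.sum_le_sum fun i _ => htb i
      _ = (((Finset.univ.filter (fun j => X j ∈ Qc p a)).card : ℕ) : ℝ) *
            (max C 1 / p.l ^ 3) := by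
          rw [Finset.sum_const, nsmul_eq_mul]
      _ ≤ p.M * (max C 1 / p.l ^ 3) := by gcongr
      _ = max C 1 * (p.M / p.l ^ 3) := by ring
  have hsum0 : 0 ≤ ∑ i, t i := Finset.sum_nonneg fun i _ => ht0 i
  have hpow : v * (∑ i, t i) ^ m ≤ v * ((max C 1) ^ m * (p.M / p.l ^ 3) ^ m) := by
    rcases hv01 with h | h
    · rw [h]; simp
    · rw [h, one_mul, one_mul, ← mul_pow]
      exact pow_le_pow_left₀ hsum0 (hsum h) m
  -- terms
  have hterm : ∀ {k : ℕ} (e : Fin k → ι), Function.Injective e →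
      (∏ i ∈ im e, θ a (X i)) * vt p a (im e) X = v * ∏ s, t (e s) := by
    intro k e he
    rw [prod_im he (fun i => θ a (X i))]
    by_cases h0 : ∏ s, t (e s) = 0
    · have : ∏ s, θ a (X (e s)) = 0 := h0
      rw [this]
      simp
    · have h1 : ∀ i ∈ im e, X i ∈ Qc p a := by
        intro i hi
        unfold im at hi
        obtain ⟨s, -, rfl⟩ := Finset.mem_image.1 hi
        exact htQ _ (fun h => h0 (Finset.prod_eq_zero (Finset.mem_univ s) h))
      rw [hvt _ h1, mul_comm]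
  have hK1 : (max C 1) ^ m ≤ ((m : ℝ) + 1) * (max C 1) ^ m := by
    have : (0 : ℝ) ≤ m := Nat.cast_nonneg m
    nlinarith [pow_pos (lt_of_lt_of_le one_pos hK) m]
  have hMl : 0 ≤ (p.M / p.l ^ 3) ^ m := by positivity
  have hmain : ∑ e ∈ Ij m ι, (∏ i ∈ im e, θ a (X i)) * vt p a (im e) X ≤
      ((m : ℝ) + 1) * (max C 1) ^ m * (p.M / p.l ^ 3) ^ m * v := by
    have h1 : ∑ e ∈ Ij m ι, (∏ i ∈ im e, θ a (X i)) * vt p a (im e) X =
        v * ∑ e ∈ Ij m ι, ∏ s, t (e s) := by
      rw [Finset.mul_sum]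
      exact Finset.sum_congr rfl fun e he => hterm e (mem_Ij.1 he)
    rw [h1]
    calc v * ∑ e ∈ Ij m ι, ∏ s, t (e s) ≤ v * (∑ i, t i) ^ m := by
          gcongr
          exact sum_le m t ht0
      _ ≤ v * ((max C 1) ^ m * (p.M / p.l ^ 3) ^ m) := hpow
      _ ≤ v * ((((m : ℝ) + 1) * (max C 1) ^ m) * (p.M / p.l ^ 3) ^ m) := by gcongr
      _ = ((m : ℝ) + 1) * (max C 1) ^ m * (p.M / p.l ^ 3) ^ m * v := by ring
  have hv1' : v ≤ 1 := by rcases hv01 with h | h <;> rw [h]; norm_num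
  refine ⟨?_, ?_, ?_⟩
  · refine hmain.trans ?_
    have h2 : 0 ≤ ((m : ℝ) + 1) * (max C 1) ^ m * (p.M / p.l ^ 3) ^ m := by positivity
    nlinarith
  · intro f hf
    have h1 : ∑ e ∈ Ij (m + 1) ι, (∏ i ∈ im e, θ a (X i)) * (vt p a (im e) X * ∑ i ∈ im e, f i) =
        v * ∑ e ∈ Ij (m + 1) ι, (∏ s, t (e s)) * ∑ s, f (e s) := by
      rw [Finset.mul_sum]
      refine Finset.sum_congr rfl fun e he => ?_
      rw [← mul_assoc, hterm e (mem_Ij.1 he), sum_im (mem_Ij.1 he) f]
      ring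
    have h2 : ∑ i, θ a (X i) * (vt p a {i} X * f i) = v * ∑ i, t i * f i := by
      rw [Finset.mul_sum]
      refine Finset.sum_congr rfl fun i _ => ?_
      by_cases h0 : t i = 0
      · have : θ a (X i) = 0 := h0
        rw [this, h0]; simp
      · rw [hvt {i} (fun j hj => by rw [Finset.mem_singleton.1 hj]; exact htQ i h0)]
        show t i * (v * f i) = _
        ring
    have hF : 0 ≤ ∑ i, t i * f i := Finset.sum_nonneg fun i _ => mul_nonneg (ht0 i) (hf i)
    rw [h1, h2]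
    calc v * ∑ e ∈ Ij (m + 1) ι, (∏ s, t (e s)) * ∑ s, f (e s)
        ≤ v * (((m : ℝ) + 1) * ((∑ i, t i) ^ m * ∑ i, t i * f i)) := by
          gcongr
          exact sum_le_f m t f ht0 hf
      _ = (v * (∑ i, t i) ^ m) * (((m : ℝ) + 1) * ∑ i, t i * f i) := by ring
      _ ≤ (v * ((max C 1) ^ m * (p.M / p.l ^ 3) ^ m)) * (((m : ℝ) + 1) * ∑ i, t i * f i) := by
          gcongr
      _ = ((m : ℝ) + 1) * (max C 1) ^ m * (p.M / p.l ^ 3) ^ m * (v * ∑ i, t i * f i) := by ring
  · intro j hj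
    rw [hvt {j} (fun i hi => by rw [Finset.mem_singleton.1 hi]; exact hj)]
    refine le_trans ?_ hmain
    refine Finset.sum_le_sum_of_subset_of_nonneg (Finset.filter_subset _ _) fun e he _ => ?_
    rw [hterm e (mem_Ij.1 he)]
    exact mul_nonneg hv0 (Finset.prod_nonneg fun s _ => ht0 _)

end Pool.Agent.TBS
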