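import Pool.Agent.TBS.StmtsC

/-!
# Three-body Bose gases, sharp lower bound, module DCN: dense cubes contain dense cells
-/

set_option autoImplicit false

open MeasureTheory Filter Topology
open scoped ContDiff

namespace Pool.Agent.TBS

open Pool.Agent.TBG Pool.Agent.TBL Pool.Agent.TBF

namespace DCN_

theorem pigeon {α : Type} (s : Finset α) (f : α → ℝ) (S : ℝ) (hS : 0 < S) (hsum : S = ∑ k ∈ s, f k)
    (hc : (s.card : ℝ) ≤ 9261) : ∃ k ∈ s, S ≤ 9261 * f k := by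
  by_contra hcon
  push Not at hcon
  have hne : s.Nonempty := by
    rw [Finset.nonempty_iff_ne_empty]
    rintro rfl
    rw [Finset.sum_empty] at hsum
    linarith
  have h1 : ∑ k ∈ s, 9261 * f k < ∑ _k ∈ s, S := Finset.sum_lt_sum_of_nonempty hne hcon
  rw [← Finset.mul_sum, ← hsum, Finset.sum_const, nsmul_eq_mul] at h1
  have h2 : (s.card : ℝ) * S ≤ 9261 * S := mul_le_mul_of_nonneg_right hc hS.le
  linarith

end DCN_

open DCN_

theorem dcn_proof (hGRD : Stmt_GRD) (hZET : Stmt_ZET) : Stmt_DCN := by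
  intro ι _ _ p Mc M₁ hG hM₁ hM a ha X hX
  obtain ⟨hz1, hz2⟩ := hZET
  obtain ⟨hz01, _, _, hzt1, _⟩ := hz1 M₁ hM₁
  obtain ⟨hnk, _, _, _, hlast⟩ := hz2 ι p Mc M₁ hG hM₁
  have hsum : nQ p a ∅ X = ∑ k ∈ cls p Mc a, nk p.l Mc ∅ k X := (hlast a ha ∅ X).2.2
  have hcard : ((cls p Mc a).card : ℝ) ≤ 9261 := ((hGRD p Mc hG).2.2.1 a ha).2.2.1
  have hpos : 0 < nQ p a ∅ X := by
    have : 0 < p.M := by
      rw [hM]
      positivity
    linarith
  obtain ⟨k, hk, hkS⟩ := pigeon _ _ _ hpos hsum hcard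
  have hnk0 : ∀ k, 0 ≤ nk p.l Mc (∅ : Finset ι) k X := fun k => ((hnk ∅ k).2.2 X).1
  have hbig : 2 * M₁ ≤ nk p.l Mc ∅ k X := by
    rw [hM] at hX
    linarith
  have hk1 : zt M₁ (nk p.l Mc ∅ k X) = 1 := hzt1 _ hbig
  constructor
  · have h1 : zt M₁ (nk p.l Mc ∅ k X) * nk p.l Mc ∅ k X ≤
        ∑ k ∈ cls p Mc a, zt M₁ (nk p.l Mc ∅ k X) * nk p.l Mc ∅ k X :=
      Finset.single_le_sum (f := fun k => zt M₁ (nk p.l Mc ∅ k X) * nk p.l Mc ∅ k X)
        (fun k _ => mul_nonneg (hz01 _).1 (hnk0 k)) hk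
    rw [hk1, one_mul] at h1
    have h2 := hnk0 k
    linarith
  · have h1 : zt M₁ (nk p.l Mc ∅ k X) ≤ ∑ k ∈ cls p Mc a, zt M₁ (nk p.l Mc ∅ k X) :=
      Finset.single_le_sum (f := fun k => zt M₁ (nk p.l Mc ∅ k X)) (fun k _ => (hz01 _).1) hk
    rw [hk1] at h1
    exact h1

end Pool.Agent.TBS
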