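import Pool.Agent.TBS.StmtsC0

/-!
# Three-body Bose gases (MP_80dc41_mp), sharp lower bound: module DEC, the dense zone
-/

set_option autoImplicit false

open MeasureTheory Filter Topology
open scoped ContDiff

namespace Pool.Agent.TBS

open Pool.Agent.TBG Pool.Agent.TBL Pool.Agent.TBF

namespace DEC_

theorem bm_potS (hB : Stmt_BMC) {ι : Type} [Fintype ι] [DecidableEq ι] {V : E → E → ℝ} (hV : Admissible V) :
    BM (fun X : ι → E => potS V X) := by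
  obtain ⟨C, hC⟩ := hV.bdd
  have hb : BM (fun z : E × E => V z.1 z.2) :=
    ⟨hV.meas, C, fun z => by rw [abs_of_nonneg (hV.nonneg _ _)]; exact hC _ _⟩
  have h : BM (fun X : ι → E => ∑ t ∈ D3 ι, V (X t.1 - X t.2.1) (X t.1 - X t.2.2)) := by
    refine hB.2.2.1 _ _ _ _ fun t _ => ?_
    refine hB.2.2.2.1 (E × E) (ι → E) (fun z => V z.1 z.2) (fun X => (X t.1 - X t.2.1, X t.1 - X t.2.2)) hb ?_
    exact ((measurable_pi_apply t.1).sub (measurable_pi_apply t.2.1)).prodMk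
        ((measurable_pi_apply t.1).sub (measurable_pi_apply t.2.2))
  exact (hB.1 _ _ _ h h).2.2.2.2.2.1 (1 / 6)

theorem lbc_mono {V : E → E → ℝ} {ι : Type} [Fintype ι] [DecidableEq ι] {ℓ e e' : ℝ}
    (h : e' ≤ e) (he : LBc V ι ℓ e) : LBc V ι ℓ e' := by
  intro u hu hc
  have h1 := he u hu hc
  have h2 : 0 ≤ ns ℓ u := by
    unfold ns
    exact integral_nonneg fun X => sq_nonneg _
  exact (mul_le_mul_of_nonneg_right h h2).trans h1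

/-- comparison of potentials -/
theorem lbc_comp (hB : Stmt_BMC) (hME : Stmt_MEP) (hSL : Stmt_SLI) {V V' : E → E → ℝ} (hV : Admissible V)
    (hV' : Admissible V') {c : ℝ} (hc : 0 < c) (hc1 : c ≤ 1) (h : ∀ x y, c * V x y ≤ V' x y)
    {ι : Type} [Fintype ι] [DecidableEq ι] {ℓ e : ℝ} (hℓ : 0 < ℓ) (he : LBc V ι ℓ e) : LBc V' ι ℓ (c * e) := by
  intro u hu huc
  have i2 : IsProbabilityMeasure (PiM ι ℓ) := (hME ι ℓ hℓ).1
  obtain ⟨hub, hdb, -⟩ := hSL ι u hu huc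
  have hu2 : BM (fun X => u X ^ 2) := (hB.1 _ _ _ hub hub).2.2.2.1
  have hk : BM (fun X => ∑ i, ∑ c, (di i c u X) ^ 2) :=
    hB.2.2.1 _ _ _ _ fun i _ => hB.2.2.1 _ _ _ _ fun c _ => (hB.1 _ _ _ (hdb i c) hub).2.2.2.1
  have hE : ∀ W : E → E → ℝ, Admissible W →
      BM (fun X => ∑ i, ∑ c, (di i c u X) ^ 2 + potS W X * u X ^ 2) := fun W hW =>
    (hB.1 _ _ _ hk (hB.1 _ _ _ (bm_potS hB hW) hu2).2.2.1).1
  have hint : ∀ W : E → E → ℝ, Admissible W →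
      Integrable (fun X => ∑ i, ∑ c, (di i c u X) ^ 2 + potS W X * u X ^ 2) (PiM ι ℓ) := fun W hW =>
    (hB.1 _ _ _ (hE W hW) (hE W hW)).2.2.2.2.2.2 (PiM ι ℓ)
  have h1 := he u hu huc
  have h2 : c * enL V ℓ u ≤ enL V' ℓ u := by
    unfold enL
    rw [← integral_const_mul]
    refine integral_mono ((hint V hV).const_mul c) (hint V' hV') fun X => ?_
    have h3 : 0 ≤ ∑ i, ∑ c, (di i c u X) ^ 2 :=
      Finset.sum_nonneg fun i _ => Finset.sum_nonneg fun c _ => sq_nonneg _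
    have h4 : c * potS V X ≤ potS V' X := by
      unfold potS
      have h5 : c * ∑ t ∈ D3 ι, V (X t.1 - X t.2.1) (X t.1 - X t.2.2) ≤
          ∑ t ∈ D3 ι, V' (X t.1 - X t.2.1) (X t.1 - X t.2.2) := by
        rw [Finset.mul_sum]
        exact Finset.sum_le_sum fun t _ => h _ _
      linarith
    have h5 : c * potS V X * u X ^ 2 ≤ potS V' X * u X ^ 2 := mul_le_mul_of_nonneg_right h4 (sq_nonneg _)
    have h6 : c * (∑ i, ∑ c, (di i c u X) ^ 2) ≤ 1 * ∑ i, ∑ c, (di i c u X) ^ 2 :=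
      mul_le_mul_of_nonneg_right hc1 h3
    show c * (∑ i, ∑ c, (di i c u X) ^ 2 + potS V X * u X ^ 2) ≤ _
    rw [mul_add, one_mul] at *
    linarith
  have h3 : c * (e * ns ℓ u) ≤ c * enL V ℓ u := mul_le_mul_of_nonneg_left h1 hc.le
  linarith

theorem core_comp (hB : Stmt_BMC) (hME : Stmt_MEP) (hSL : Stmt_SLI) {V V' : E → E → ℝ} (hV : Admissible V)
    (hV' : Admissible V') {c b : ℝ} (hc : 0 < c) (hc1 : c ≤ 1) (h : ∀ x y, c * V x y ≤ V' x y)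
    (hC : CoreC V b) : CoreC V' (c * b) := by
  obtain ⟨C, g₀, ℓ₁, h1, h2, h3, h4⟩ := hC
  refine ⟨c * C, g₀, ℓ₁, by positivity, h2, h3, ?_⟩
  intro ι _ _ ℓ hℓ hn
  have h5 := lbc_comp hB hME hSL hV hV' hc hc1 h (by linarith : 0 < ℓ) (h4 ι ℓ hℓ hn)
  refine lbc_mono (le_of_eq ?_) h5
  ring

/-- the dense zone for a potential -/
theorem dense (hG : Stmt_GRP) {V : E → E → ℝ} (hV : Admissible V) {b : ℝ} (hb : 0 < b) (hC : CoreC V b) :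
    ∃ c₀ n₀ d₀ l₀ : ℝ, 0 < c₀ ∧ 0 < n₀ ∧ 0 < d₀ ∧ 1 ≤ l₀ ∧
    ∀ (ι : Type) [Fintype ι] [DecidableEq ι] (l : ℝ) (n₁ : ℕ), l₀ ≤ l → n₀ ≤ (n₁ : ℝ) → (n₁ : ℝ) ≤ d₀ * l ^ 2 →
      n₁ ≤ Fintype.card ι → LBc V ι l (c₀ * (n₁ : ℝ) ^ 2 * (Fintype.card ι : ℝ) / l ^ 6) := by
  obtain ⟨C, g₀, ℓ₁, hC0, hg0, hℓ1, hcore⟩ := hC
  set κ := 36 * C / b with hκ
  have hκ0 : 0 < κ := by positivity
  refine ⟨b / 24, max 1 κ, min (√g₀) κ⁻¹, max ℓ₁ κ, by positivity, by positivity, by positivity,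
    hℓ1.trans (le_max_left _ _), ?_⟩
  intro ι _ _ l n₁ hl hn1 hn2 hcard
  have hl1 : 1 ≤ l := hℓ1.trans ((le_max_left _ _).trans hl)
  have hl0 : 0 < l := by linarith
  have hlκ : κ ≤ l := (le_max_right _ _).trans hl
  have hnR : (0 : ℝ) < n₁ := lt_of_lt_of_le (by positivity) hn1
  have hn0 : 0 < n₁ := by exact_mod_cast hnR
  have hnκ : κ ≤ (n₁ : ℝ) := (le_max_right _ _).trans hn1
  have hng : (n₁ : ℝ) ^ 2 ≤ g₀ * l ^ 4 := by
    have h1 : (n₁ : ℝ) ≤ √g₀ * l ^ 2 := hn2.trans (mul_le_mul_of_nonneg_right (min_le_left _ _) (by positivity))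
    have h2 := pow_le_pow_left₀ hnR.le h1 2
    rwa [mul_pow, Real.sq_sqrt hg0.le, ← pow_mul] at h2
  have hnd : (n₁ : ℝ) * κ ≤ l ^ 3 := by
    have h1 : (n₁ : ℝ) ≤ κ⁻¹ * l ^ 2 := hn2.trans (mul_le_mul_of_nonneg_right (min_le_right _ _) (by positivity))
    have h2 : (n₁ : ℝ) * κ ≤ κ⁻¹ * l ^ 2 * κ := mul_le_mul_of_nonneg_right h1 hκ0.le
    have h3 : κ⁻¹ * l ^ 2 * κ = l ^ 2 := by field_simp
    have h4 : l ^ 2 ≤ l ^ 3 := pow_le_pow_right₀ hl1 (by norm_num)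
    linarith
  -- the bound for `n₁` particles
  have hCκ : C = b * κ / 36 := by
    rw [hκ]
    field_simp
  have hkey : b * (n₁ : ℝ) ^ 3 / (12 * l ^ 6) ≤ b * (n₁ : ℝ) ^ 3 / (6 * l ^ 6)
      - C * ((n₁ : ℝ) ^ 3 / l ^ 7 + (n₁ : ℝ) ^ 2 / l ^ 6 + (n₁ : ℝ) ^ 4 / l ^ 9) := by
    have e1 : C * ((n₁ : ℝ) ^ 3 / l ^ 7) ≤ b * (n₁ : ℝ) ^ 3 / (36 * l ^ 6) := by
      rw [hCκ]
      have : b * κ / 36 * ((n₁ : ℝ) ^ 3 / l ^ 7) = b * (n₁ : ℝ) ^ 3 / (36 * l ^ 6) * (κ / l) := by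
        field_simp
      rw [this]
      exact mul_le_of_le_one_right (by positivity) ((div_le_one hl0).2 hlκ)
    have e2 : C * ((n₁ : ℝ) ^ 2 / l ^ 6) ≤ b * (n₁ : ℝ) ^ 3 / (36 * l ^ 6) := by
      rw [hCκ]
      have : b * κ / 36 * ((n₁ : ℝ) ^ 2 / l ^ 6) = b * (n₁ : ℝ) ^ 3 / (36 * l ^ 6) * (κ / n₁) := by
        field_simp
      rw [this]
      exact mul_le_of_le_one_right (by positivity) ((div_le_one hnR).2 hnκ)
    have e3 : C * ((n₁ : ℝ) ^ 4 / l ^ 9) ≤ b * (n₁ : ℝ) ^ 3 / (36 * l ^ 6) := by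
      rw [hCκ]
      have : b * κ / 36 * ((n₁ : ℝ) ^ 4 / l ^ 9) = b * (n₁ : ℝ) ^ 3 / (36 * l ^ 6) * (n₁ * κ / l ^ 3) := by
        field_simp
      rw [this]
      exact mul_le_of_le_one_right (by positivity) ((div_le_one (by positivity)).2 hnd)
    have e4 : b * (n₁ : ℝ) ^ 3 / (6 * l ^ 6) = 6 * (b * (n₁ : ℝ) ^ 3 / (36 * l ^ 6)) := by
      field_simp
      norm_num
    have e5 : b * (n₁ : ℝ) ^ 3 / (12 * l ^ 6) = 3 * (b * (n₁ : ℝ) ^ 3 / (36 * l ^ 6)) := by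
      field_simp
      norm_num
    rw [e4, e5, mul_add, mul_add]
    linarith
  have h1 : ∀ (ι' : Type) [Fintype ι'] [DecidableEq ι'], Fintype.card ι' = n₁ →
      LBc V ι' l (b * (n₁ : ℝ) ^ 3 / (12 * l ^ 6)) := by
    intro ι' _ _ hι'
    refine lbc_mono hkey ?_
    have h2 := hcore ι' l ((le_max_left _ _).trans hl) (by rw [hι']; exact hng)
    rwa [hι'] at h2
  have h2 := hG V l (b * (n₁ : ℝ) ^ 3 / (12 * l ^ 6)) n₁ hV hl0 (by positivity) hn0 h1 ι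
  refine lbc_mono ?_ h2
  -- `n / n₁ ≥ n / (2 n₁)`
  have h3 : (Fintype.card ι : ℝ) ≤ 2 * n₁ * ((Fintype.card ι / n₁ : ℕ) : ℝ) := by
    have h4 : Fintype.card ι < n₁ * (Fintype.card ι / n₁ + 1) := Nat.lt_mul_div_succ _ hn0
    have h5 : 1 ≤ Fintype.card ι / n₁ := (Nat.one_le_div_iff hn0).2 hcard
    have h6 : Fintype.card ι ≤ 2 * n₁ * (Fintype.card ι / n₁) := by nlinarith
    exact_mod_cast h6
  have h4 : b / 24 * (n₁ : ℝ) ^ 2 * (Fintype.card ι : ℝ) / l ^ 6 =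
      b * (n₁ : ℝ) ^ 2 / (24 * l ^ 6) * (Fintype.card ι : ℝ) := by
    field_simp
  have h5 : ((Fintype.card ι / n₁ : ℕ) : ℝ) * (b * (n₁ : ℝ) ^ 3 / (12 * l ^ 6)) =
      b * (n₁ : ℝ) ^ 2 / (24 * l ^ 6) * (2 * n₁ * ((Fintype.card ι / n₁ : ℕ) : ℝ)) := by
    field_simp
    ring
  rw [h4, h5]
  exact mul_le_mul_of_nonneg_left h3 (by positivity)

end DEC_

open DEC_

theorem dec_proof (hB : Stmt_BMC) (hME : Stmt_MEP) (hSL : Stmt_SLI) (hPRF : Pool.Agent.TBL.Stmt_PRF)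
    (hSCA : Stmt_SCA) (hCO0 : Stmt_CO0) (hG : Stmt_GRP) (hAD : Stmt_ADM) (hP : Stmt_PLS) : Stmt_DEC := by
  intro lam h0 h1
  have hV := (hAD _ hSCA.1).1
  have hV' := (hAD _ (hP lam h0 h1).1).1
  have hQ : ∀ z : E × E, 0 ≤ QQ z := fun z => by
    unfold QQ
    positivity
  have hcmp : ∀ x y, (7 / 8 * lam) * VV phi0 x y ≤ VV (pl lam) x y := by
    intro x y
    have e1 := (hP lam h0 h1).2.2.1 (x, y)
    have e2 := (hP 1 one_pos le_rfl).2.2.1 (x, y)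
    have e3 : pl 1 = phi0 := by
      funext z
      simp [pl]
    rw [e3, one_mul, one_mul] at e2
    simp only at e1 e2
    rw [e1, e2]
    have hW := (hPRF.2.2.1 (QQ (x, y))).1
    obtain ⟨hp1, hp2, -, -⟩ := hPRF.2.2.2.2.2.2.2.1 (QQ (x, y)) (hQ _)
    have hd1 : 0 < 1 - lam * P1 (QQ (x, y)) := by nlinarith
    have hd2 : 0 < 1 - P1 (QQ (x, y)) := by linarith
    rw [← mul_div_assoc, div_le_div_iff₀ hd2 hd1]
    have e4 : 7 / 8 * lam * W1 (QQ (x, y)) * (1 - lam * P1 (QQ (x, y))) ≤ 7 / 8 * lam * W1 (QQ (x, y)) * 1 :=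
      mul_le_mul_of_nonneg_left (by nlinarith) (by positivity)
    have e5 : lam * W1 (QQ (x, y)) * (7 / 8) ≤ lam * W1 (QQ (x, y)) * (1 - P1 (QQ (x, y))) :=
      mul_le_mul_of_nonneg_left (by linarith) (by positivity)
    linarith
  have hcore := core_comp hB hME hSL hV hV' (by positivity : 0 < 7 / 8 * lam) (by linarith) hcmp hCO0
  exact dense hG hV' (mul_pos (by positivity) hSCA.2.2) hcore

end Pool.Agent.TBS
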