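import Pool.Agent.TBS.StmtsB

/-!
# Three-body Bose gases (MP_80dc41_mp), sharp lower bound: module DIA (the diagonal terms of three particles)
-/

set_option autoImplicit false

open MeasureTheory Filter Topology
open scoped ContDiff

namespace Pool.Agent.TBS

open Pool.Agent.TBG Pool.Agent.TBL Pool.Agent.TBF

namespace DIA_

variable {ι : Type} [Fintype ι] [DecidableEq ι]

/-- Cauchy-Schwarz with weights -/
theorem cs {J : Type*} (s : Finset J) (w v : J → ℝ) (hw : ∀ a ∈ s, 0 ≤ w a)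
    (h1 : ∑ a ∈ s, w a ≤ 1) : (∑ a ∈ s, w a * v a) ^ 2 ≤ ∑ a ∈ s, w a * v a ^ 2 := by
  have h2 := Finset.sum_mul_sq_le_sq_mul_sq s (fun a => Real.sqrt (w a))
    (fun a => Real.sqrt (w a) * v a)
  have h3 : ∑ a ∈ s, Real.sqrt (w a) * (Real.sqrt (w a) * v a) = ∑ a ∈ s, w a * v a :=
    Finset.sum_congr rfl fun a ha => by
      rw [← mul_assoc, Real.mul_self_sqrt (hw a ha)]
  have h4 : ∑ a ∈ s, Real.sqrt (w a) ^ 2 = ∑ a ∈ s, w a :=
    Finset.sum_congr rfl fun a ha => by rw [Real.sq_sqrt (hw a ha)]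
  have h5 : ∑ a ∈ s, (Real.sqrt (w a) * v a) ^ 2 = ∑ a ∈ s, w a * v a ^ 2 :=
    Finset.sum_congr rfl fun a ha => by rw [mul_pow, Real.sq_sqrt (hw a ha)]
  rw [h3, h4, h5] at h2
  refine h2.trans ?_
  have h6 : 0 ≤ ∑ a ∈ s, w a * v a ^ 2 :=
    Finset.sum_nonneg fun a ha => mul_nonneg (hw a ha) (sq_nonneg _)
  nlinarith

theorem IO_fin {p : Par} (hfin : IsFiniteMeasure (mO p.L)) :
    IsFiniteMeasure (PiS (mO p.L) (mO p.L) (∅ : Finset ι)) := by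
  unfold PiS
  have : ∀ i : ι, IsFiniteMeasure (if i ∈ (∅ : Finset ι) then mO p.L else mO p.L) := fun i => by
    split_ifs <;> exact hfin
  infer_instance

theorem IO_mono (hB : Pool.Agent.TBL.Stmt_BMC) {p : Par} (hfin : IsFiniteMeasure (mO p.L))
    {F G : (ι → E) → ℝ} (hF : BM F) (hG : BM G) (h : ∀ X, F X ≤ G X) : IO p F ≤ IO p G := by
  have := IO_fin (ι := ι) hfin
  unfold IO
  exact integral_mono ((hB.1 _ _ _ hF hF).2.2.2.2.2.2 _) ((hB.1 _ _ _ hG hG).2.2.2.2.2.2 _) h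

theorem IO_add (hB : Pool.Agent.TBL.Stmt_BMC) {p : Par} (hfin : IsFiniteMeasure (mO p.L))
    {F G : (ι → E) → ℝ} (hF : BM F) (hG : BM G) : IO p (fun X => F X + G X) = IO p F + IO p G := by
  have := IO_fin (ι := ι) hfin
  unfold IO
  exact integral_add ((hB.1 _ _ _ hF hF).2.2.2.2.2.2 _) ((hB.1 _ _ _ hG hG).2.2.2.2.2.2 _)

theorem IO_smul {p : Par} (c : ℝ) (F : (ι → E) → ℝ) : IO p (fun X => c * F X) = c * IO p F := by
  unfold IO
  exact integral_const_mul _ _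

theorem IO_sum (hB : Pool.Agent.TBL.Stmt_BMC) {p : Par} (hfin : IsFiniteMeasure (mO p.L)) {J : Type}
    (s : Finset J) (F : J → (ι → E) → ℝ) (hF : ∀ j ∈ s, BM (F j)) :
    IO p (fun X => ∑ j ∈ s, F j X) = ∑ j ∈ s, IO p (F j) := by
  have := IO_fin (ι := ι) hfin
  unfold IO
  exact integral_finsetSum _ fun j hj => (hB.1 _ _ _ (hF j hj) (hF j hj)).2.2.2.2.2.2 _

theorem dv_zero {τ : E × E → ℝ} {R : ℝ} (h : ∀ z, R < ‖z‖ → τ z = 0) (v z : E × E) (hz : R < ‖z‖) :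
    dv v τ z = 0 := by
  have h1 : τ =ᶠ[𝓝 z] fun _ => 0 := by
    have hop : IsOpen {y : E × E | R < ‖y‖} := isOpen_lt continuous_const continuous_norm
    filter_upwards [hop.mem_nhds hz] with y hy
    exact h y hy
  unfold dv
  rw [h1.fderiv_eq]
  simp

end DIA_

open DIA_ in
theorem dia_proof (hB : Pool.Agent.TBL.Stmt_BMC) (hMSY : Stmt_MSY) (_hAVC : Stmt_AVC) (hHSF : Stmt_HSF)
    (_hTUP : Stmt_TUP) (hKBM : Stmt_KBM) (hCLE : Stmt_CLE) (hCLI : Stmt_CLI) (hAVP : Stmt_AVP)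
    (hVTP : Stmt_VTP) : Stmt_DIA := by
  intro C ι _ _ p β θ φ τ g u hS hu hφ hww hτ
  obtain ⟨hl1, hfin, -, -, -, -, hprob, -, -, -, -, -⟩ := hMSY C p β θ hS
  have hl0 : 0 < p.l := lt_of_lt_of_le one_pos hl1
  obtain ⟨hB1, hB2, hB3, hB4, hB5⟩ := id hB
  obtain ⟨hK1, -, hK3, -⟩ := hKBM
  obtain ⟨-, -, hφB, hwB, -, hgB, -, -, -, hw0, -, -, -⟩ := hK1 C p.R φ τ g hφ hτ
  have huB : BM u := by
    obtain ⟨h1, h2⟩ := hu
    refine ⟨h1.continuous.measurable, ?_⟩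
    obtain ⟨c, hc⟩ := h2.exists_bound_of_continuous h1.continuous
    exact ⟨c, fun X => by simpa using hc X⟩
  -- the kernel
  set G : E × E → ℝ := fun z => gsq τ z + ww φ z * (1 - φ z) with hG
  have h1φ : BM (fun z : E × E => 1 - φ z) := (hB1 _ _ _ (hB2 (E × E) 1) hφB).2.1
  have hwφ : BM (fun z : E × E => ww φ z * (1 - φ z)) := (hB1 _ _ _ hwB h1φ).2.2.1
  have hGB : BM G := (hB1 _ _ _ hgB hwφ).1
  have hg0 : ∀ z, 0 ≤ gsq τ z := fun z => by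
    unfold gsq
    exact Finset.sum_nonneg fun m _ => Finset.sum_nonneg fun c _ => sq_nonneg _
  have hwφ0 : ∀ z, 0 ≤ ww φ z * (1 - φ z) := fun z =>
    mul_nonneg (hw0 z) (by have := hφ.le_half z; linarith)
  have hG0 : ∀ z, 0 ≤ G z := fun z => add_nonneg (hg0 z) (hwφ0 z)
  have hGs : ∀ z, G z ≠ 0 → ‖z‖ ≤ p.l := by
    intro z hz
    by_contra hlt
    rw [not_le] at hlt
    apply hz
    have h1 : gsq τ z = 0 := by
      unfold gsq
      refine Finset.sum_eq_zero fun m _ => Finset.sum_eq_zero fun c _ => ?_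
      rw [dv_zero hτ.sp (dr m c) z (lt_of_le_of_lt hS.hl hlt)]
      norm_num
    have h2 : ww φ z = 0 := by
      by_contra h0
      exact absurd (hww z h0) (not_le.mpr hlt)
    rw [hG]
    simp only [h1, h2, zero_mul, add_zero]
  have hKB : BM (fun x : Fin 3 → E => G (rt x)) := hK3 (Fin 3) G id hGB
  have hKs : ∀ x : Fin 3 → E, G (rt x) ≠ 0 → ∀ s c, |x s c - x 0 c| ≤ p.l := by
    intro x hx s c
    have h1 := hGs _ hx
    have h2 : ‖x 0 - x 1‖ ≤ p.l := (le_max_left _ _).trans h1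
    have h3 : ‖x 0 - x 2‖ ≤ p.l := (le_max_right _ _).trans h1
    have key : ∀ s : Fin 3, ‖x 0 - x s‖ ≤ p.l := by
      intro s
      fin_cases s
      · simp only [Fin.zero_eta, sub_self, norm_zero]; exact hl0.le
      · exact h2
      · exact h3
    have h4 : |(x 0 - x s) c| ≤ ‖x 0 - x s‖ := by
      have := PiLp.norm_apply_le (x 0 - x s) c
      simpa using this
    rw [abs_sub_comm]
    exact h4.trans (key s)
  have hKt : ∀ (x : Fin 3 → E) (v : E), G (rt (fun s => x s + v)) = G (rt x) := by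
    intro x v
    unfold rt
    simp only [add_sub_add_right_eq_sub]
  -- amplitudes
  have hAB : ∀ (a : E) (S : Finset ι), BM (fun X => Am p θ u a S X ^ 2) ∧ IndS S (fun X => Am p θ u a S X ^ 2) := by
    intro a S
    have := hprob a
    have h1 := hAVP ι (tm (θ a)) S S u u huB huB
    have h2 := hVTP ι C p β θ hS a S
    have h3 : BM (Am p θ u a S) := (hB1 _ _ _ h2.1 h1.1).2.2.1
    refine ⟨(hB1 _ _ _ h3 h3).2.2.2.1, fun X Y hXY => ?_⟩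
    simp only [Am]
    rw [h2.2.1 X Y hXY, h1.2.1 X Y hXY]
  -- β
  have hβ1 : ∀ a ∈ p.Gr, ∀ x, β a x ≤ 1 := fun a ha x =>
    (Finset.single_le_sum (fun b _ => hS.β0 b x) ha).trans (hS.β1 x)
  have hβB : ∀ (S : Finset ι), ∀ a ∈ p.Gr, BM (fun X : ι → E => β a (cen S X)) := by
    intro S a ha
    have hc : Continuous (fun X : ι → E => cen S X) := by unfold cen; fun_prop
    refine ⟨((hS.βs a).continuous.comp hc).measurable, 1, fun X => ?_⟩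
    rw [abs_of_nonneg (hS.β0 a _)]
    exact hβ1 a ha _
  have hhS : ∀ e ∈ Ij 3 ι, BM (Pool.Agent.TBS.hS p β θ u (im e)) := by
    intro e he
    obtain ⟨C₁, -, hC₁⟩ := hHSF C
    have hne : (im e).Nonempty := ⟨e 0, Finset.mem_image_of_mem e (Finset.mem_univ 0)⟩
    exact (hC₁ ι p β θ u (im e) hS huB hne).1
  have hGe : ∀ e : Fin 3 → ι, BM (fun X : ι → E => G (rt (X ∘ e))) := fun e => hK3 ι G e hGB
  have hH : ∀ e ∈ Ij 3 ι, ∀ a ∈ p.Gr, BM (fun X : ι → E => β a (cen (im e) X) *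
      (G (rt (X ∘ e)) * Am p θ u a (im e) X ^ 2)) := fun e _ a ha =>
    (hB1 _ _ _ (hβB (im e) a ha) (hB1 _ _ _ (hGe e) (hAB a (im e)).1).2.2.1).2.2.1
  have hF1 : BM (fun X : ι → E => 1 / 6 * ∑ e ∈ Ij 3 ι, Pool.Agent.TBS.hS p β θ u (im e) X ^ 2 *
      gsq τ (rt (X ∘ e))) := by
    have h1 := hB3 _ _ (Ij 3 ι) (fun e (X : ι → E) => Pool.Agent.TBS.hS p β θ u (im e) X ^ 2 *
      gsq τ (rt (X ∘ e))) fun e he =>
        (hB1 _ _ _ (hB1 _ _ _ (hhS e he) (hhS e he)).2.2.2.1 (hK3 ι _ e hgB)).2.2.1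
    exact (hB1 _ _ _ h1 h1).2.2.2.2.2.1 _
  have hF2 : BM (fun X : ι → E => 1 / 6 * ∑ e ∈ Ij 3 ι, Pool.Agent.TBS.hS p β θ u (im e) X ^ 2 *
      (ww φ (rt (X ∘ e)) * (1 - φ (rt (X ∘ e))))) := by
    have h1 := hB3 _ _ (Ij 3 ι) (fun e (X : ι → E) => Pool.Agent.TBS.hS p β θ u (im e) X ^ 2 *
      (ww φ (rt (X ∘ e)) * (1 - φ (rt (X ∘ e))))) fun e he =>
        (hB1 _ _ _ (hB1 _ _ _ (hhS e he) (hhS e he)).2.2.2.1 (hK3 ι _ e hwφ)).2.2.1
    exact (hB1 _ _ _ h1 h1).2.2.2.2.2.1 _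
  have hF3 : BM (fun X : ι → E => ∑ e ∈ Ij 3 ι, ∑ a ∈ p.Gr, β a (cen (im e) X) *
      (G (rt (X ∘ e)) * Am p θ u a (im e) X ^ 2)) :=
    hB3 _ _ (Ij 3 ι) _ fun e he => hB3 _ _ p.Gr _ fun a ha => hH e he a ha
  have hF3' := (hB1 _ _ _ hF3 hF3).2.2.2.2.2.1 (1 / 6)
  rw [← IO_add hB hfin hF1 hF2]
  have hpt : ∀ X : ι → E, 1 / 6 * ∑ e ∈ Ij 3 ι, Pool.Agent.TBS.hS p β θ u (im e) X ^ 2 *
      gsq τ (rt (X ∘ e)) + 1 / 6 * ∑ e ∈ Ij 3 ι, Pool.Agent.TBS.hS p β θ u (im e) X ^ 2 *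
      (ww φ (rt (X ∘ e)) * (1 - φ (rt (X ∘ e)))) ≤
      1 / 6 * ∑ e ∈ Ij 3 ι, ∑ a ∈ p.Gr, β a (cen (im e) X) *
      (G (rt (X ∘ e)) * Am p θ u a (im e) X ^ 2) := by
    intro X
    rw [← mul_add, ← Finset.sum_add_distrib]
    refine mul_le_mul_of_nonneg_left (Finset.sum_le_sum fun e _ => ?_) (by norm_num)
    rw [← mul_add]
    have h1 : Pool.Agent.TBS.hS p β θ u (im e) X ^ 2 ≤
        ∑ a ∈ p.Gr, β a (cen (im e) X) * Am p θ u a (im e) X ^ 2 := by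
      unfold Pool.Agent.TBS.hS
      exact cs p.Gr _ _ (fun a _ => hS.β0 a _) (hS.β1 _)
    refine (mul_le_mul_of_nonneg_right h1 (hG0 (rt (X ∘ e)))).trans (le_of_eq ?_)
    rw [Finset.sum_mul]
    exact Finset.sum_congr rfl fun a _ => by ring
  refine (IO_mono hB hfin (hB1 _ _ _ hF1 hF2).1 hF3' hpt).trans ?_
  rw [IO_smul, IO_sum hB hfin (Ij 3 ι) _ fun e he => hB3 _ _ p.Gr _ fun a ha => hH e he a ha]
  have hval : ∀ e ∈ Ij 3 ι, IO p (fun X => ∑ a ∈ p.Gr, β a (cen (im e) X) *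
      (G (rt (X ∘ e)) * Am p θ u a (im e) X ^ 2)) =
      ∑ a ∈ p.Gr, p.l ^ 3 * (∫ q, G q) * IA p θ a (im e) (fun X => Am p θ u a (im e) X ^ 2) := by
    intro e he
    rw [IO_sum hB hfin p.Gr _ fun a ha => hH e he a ha]
    refine Finset.sum_congr rfl fun a ha => ?_
    have h1 := hCLE C 2 ι p β θ (fun x => G (rt x)) (fun X => Am p θ u a (im e) X ^ 2) hS hKB hKs hKt
      (hAB a (im e)).1 a ha e he (hAB a (im e)).2
    rw [hCLI.1 G 0] at h1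
    exact h1
  rw [Finset.sum_congr rfl hval]
  have hen : ∫ q, G q ≤ ∫ z, ww φ z := hτ.en
  have hIA : ∀ (a : E) (S : Finset ι), 0 ≤ IA p θ a S (fun X => Am p θ u a S X ^ 2) := fun a S => by
    unfold IA
    exact integral_nonneg fun X => sq_nonneg _
  have hAA : AA p θ u 3 = p.l ^ 3 * ∑ e ∈ Ij 3 ι, ∑ a ∈ p.Gr, IA p θ a (im e) (fun X => Am p θ u a (im e) X ^ 2) := by
    unfold AA
    rw [Finset.sum_comm]
  rw [hAA]
  have h0 : 0 ≤ ∑ e ∈ Ij 3 ι, ∑ a ∈ p.Gr, IA p θ a (im e) (fun X => Am p θ u a (im e) X ^ 2) :=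
    Finset.sum_nonneg fun e _ => Finset.sum_nonneg fun a _ => hIA a _
  have h1 : 1 / 6 * ∑ e ∈ Ij 3 ι, ∑ a ∈ p.Gr, p.l ^ 3 * (∫ q, G q) *
      IA p θ a (im e) (fun X => Am p θ u a (im e) X ^ 2) =
      (∫ q, G q) / 6 * (p.l ^ 3 * ∑ e ∈ Ij 3 ι, ∑ a ∈ p.Gr, IA p θ a (im e) (fun X => Am p θ u a (im e) X ^ 2)) := by
    simp only [Finset.mul_sum]
    exact Finset.sum_congr rfl fun e _ => Finset.sum_congr rfl fun a _ => by ring
  rw [h1]
  refine mul_le_mul_of_nonneg_right ?_ (by positivity)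
  linarith

end Pool.Agent.TBS
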