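import Pool.Agent.TBS.StmtsA

/-!
# Three-body Bose gases (MP_80dc41_mp), sharp lower bound: module DNS (densities)
-/

set_option autoImplicit false

open MeasureTheory Filter Topology
open scoped ContDiff

namespace Pool.Agent.TBS

open Pool.Agent.TBG Pool.Agent.TBL Pool.Agent.TBF

theorem dns_proof (hBMC : Pool.Agent.TBL.Stmt_BMC) (hMSY : Stmt_MSY) (hPSF : Stmt_PSF) : Stmt_DNS := by
  obtain ⟨hB1, hB2, _, hB4, _⟩ := hBMC
  intro ι _ _ C p β θ hS a ha S F hF
  obtain ⟨_, hfin, _, _, _, _, hprob, _, hm, _, _, _⟩ := hMSY C p β θ hS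
  have hpa := hprob a
  -- the density is bounded and measurable
  have hθ : BM (θ a) := by
    refine ⟨hS.θm a, C / p.l ^ 3, fun x => ?_⟩
    rw [abs_of_nonneg (hS.θ0 a x)]
    exact hS.θb a x
  have hθi : ∀ i : ι, BM (fun X : ι → E => θ a (X i)) := fun i =>
    hB4 E (ι → E) (θ a) (fun X => X i) hθ (measurable_pi_apply i)
  have key : ∀ (S : Finset ι) (F : (ι → E) → ℝ), BM F → ∀ i ∉ S,
      IA p θ a (insert i S) F = IA p θ a S (fun X => θ a (X i) * F X) := by
    intro S F hF i hi
    unfold IA
    have h1 := ((hPSF ι (tm (θ a)) (mO p.L) (insert i S)).2 F hF).2.1 i (Finset.mem_insert_self _ _)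
    have hH : BM (fun X : ι → E => θ a (X i) * F X) := (hB1 _ _ _ (hθi i) hF).2.2.1
    have h2 := ((hPSF ι (tm (θ a)) (mO p.L) S).2 _ hH).1 i hi
    rw [h1, h2]
    refine integral_congr_ae (Filter.Eventually.of_forall fun X => ?_)
    show ∫ x, F (Function.update X i x) ∂(tm (θ a)) =
      ∫ x, θ a (Function.update X i x i) * F (Function.update X i x) ∂(mO p.L)
    rw [hm a ha]
    refine integral_congr_ae (Filter.Eventually.of_forall fun x => ?_)
    show θ a x * F (Function.update X i x) =
      θ a (Function.update X i x i) * F (Function.update X i x)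
    rw [Function.update_self]
  refine ⟨fun i hi => key S F hF i hi, ?_⟩
  induction S using Finset.induction_on generalizing F with
  | empty =>
    unfold IA IO
    have e : PiS (tm (θ a)) (mO p.L) (∅ : Finset ι) = PiS (mO p.L) (mO p.L) (∅ : Finset ι) := by
      unfold PiS
      simp
    rw [e]
    simp
  | insert i S hi ih =>
    rw [key S F hF i hi, ih _ ((hB1 _ _ _ (hθi i) hF).2.2.1)]
    congr 1
    funext X
    rw [Finset.prod_insert hi]
    ring

end Pool.Agent.TBS
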