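import Pool.Agent.TBS.StmtsB

/-!
# Three-body Bose gases (MP_80dc41_mp), module E2A: subtracting averages in `T2`
-/

set_option autoImplicit false

open MeasureTheory Filter Topology
open scoped ContDiff

namespace Pool.Agent.TBS

open Pool.Agent.TBG Pool.Agent.TBL Pool.Agent.TBF

namespace E2A_

/-- sums over triples of distinct particles -/
theorem sum3 {ι : Type} [Fintype ι] [DecidableEq ι] (F : (Fin 3 → ι) → ℝ) :
    ∑ e ∈ Ij 3 ι, F e = ∑ i, ∑ k ∈ Finset.univ \ {i}, ∑ j ∈ Finset.univ \ {i, k}, F ![i, j, k] := by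
  classical
  rw [Finset.sum_sigma', Finset.sum_sigma']
  refine Finset.sum_bij' (fun (e : Fin 3 → ι) _ => (⟨⟨e 0, e 2⟩, e 1⟩ : (_ : (_ : ι) × ι) × ι))
    (fun (x : (_ : (_ : ι) × ι) × ι) _ => ![x.1.1, x.2, x.1.2]) ?_ ?_ ?_ ?_ ?_
  · intro e he
    have he' : Function.Injective e := by
      simpa [Ij] using he
    have h20 : e 2 ≠ e 0 := fun h => absurd (he' h) (by decide)
    have h10 : e 1 ≠ e 0 := fun h => absurd (he' h) (by decide)
    have h12 : e 1 ≠ e 2 := fun h => absurd (he' h) (by decide)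
    simp [h20, h10, h12]
  · intro x hx
    simp only [Finset.mem_sigma, Finset.mem_sdiff, Finset.mem_univ, Finset.mem_singleton, true_and,
      Finset.mem_insert, not_or] at hx
    obtain ⟨h20, h10, h12⟩ := hx
    have : Function.Injective ![x.1.1, x.2, x.1.2] := by
      intro s t hst
      fin_cases s <;> fin_cases t <;> simp_all
    simpa [Ij] using this
  · intro e he
    funext s
    fin_cases s <;> rfl
  · intro x hx
    rfl
  · intro e he
    have : (![e 0, e 1, e 2] : Fin 3 → ι) = e := by
      funext s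
      fin_cases s <;> rfl
    simp only [this]

end E2A_

theorem e2a_proof (hBMC : Pool.Agent.TBL.Stmt_BMC) (hMSY : Stmt_MSY) (hAVP : Stmt_AVP) (hAVI : Stmt_AVI)
    (hDNS : Stmt_DNS) (hVTP : Stmt_VTP) (_hTUP : Stmt_TUP) (hKBD : Stmt_KBD) (hONE : Stmt_ONE) : Stmt_E2A := by
  intro C b ι _ _ p β θ g P u hS hP hu
  obtain ⟨hb1, hb2, hb3, hb4, hb5⟩ := hBMC
  obtain ⟨hl1, hfin, hOm, hQc, hQb, hQQ, hpr, htm, htmO, hicO, hθs, hics⟩ := hMSY C p β θ hS
  unfold T2
  refine Finset.sum_congr rfl fun a ha => ?_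
  obtain ⟨C₁, hC₁, hK⟩ := hKBD C b
  obtain ⟨hK2, hK3, hK2s, hK3s, hK2sp, hK3sp, hK2z, -⟩ := hK p β θ g P hS hP a
  have := hfin
  have := hpr a
  rw [E2A_.sum3]
  refine Finset.sum_congr rfl fun i _ => ?_
  refine Finset.sum_congr rfl fun k hk => ?_
  have hki : k ≠ i := by simpa using hk
  -- the amplitude
  have hAm : ∀ S : Finset ι, BM (Am p θ u a S) ∧ IndS S (Am p θ u a S) := by
    intro S
    obtain ⟨hv1, hv2, -⟩ := hVTP ι C p β θ hS a S
    obtain ⟨ha1, ha2, -⟩ := hAVP ι (tm (θ a)) S S u u hu hu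
    refine ⟨?_, ?_⟩
    · exact (hb1 _ _ _ hv1 ha1).2.2.1
    · intro X Y hXY
      unfold Am
      rw [hv2 X Y hXY, ha2 X Y hXY]
  have hK2e : ∀ j : ι, BM (fun X : ι → E => K2 θ P a (X i) (X j)) := by
    intro j
    exact hb4 (E × E) (ι → E) (fun q => K2 θ P a q.1 q.2) (fun X => (X i, X j)) hK2
      ((measurable_pi_apply i).prodMk (measurable_pi_apply j))
  have hAk : BM (Av (tm (θ a)) {k} u) := (hAVP ι (tm (θ a)) {k} {k} u u hu hu).1
  have hAik : BM (Av (tm (θ a)) {i, k} u) := (hAVP ι (tm (θ a)) {i, k} {k} u u hu hu).1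
  have hAikI : IndS {i, k} (Av (tm (θ a)) {i, k} u) := (hAVP ι (tm (θ a)) {i, k} {k} u u hu hu).2.1
  -- one term
  have key : ∀ j ∈ Finset.univ \ {i, k},
      IO p (fun X => θ a (X ((![i, j, k] : Fin 3 → ι) 2)) * (K2 θ P a (X ((![i, j, k] : Fin 3 → ι) 0))
        (X ((![i, j, k] : Fin 3 → ι) 1)) * (u X * Am p θ u a (im ![i, j, k]) X))) =
      IA p θ a {k} (fun X => (Av (tm (θ a)) {k} u X - Av (tm (θ a)) {i, k} u X) *
        (K2 θ P a (X i) (X j) * Am p θ u a {i, j, k} X)) := by
    intro j hj
    have hj' : j ≠ i ∧ j ≠ k := by simpa using hj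
    obtain ⟨hji, hjk⟩ := hj'
    have him : im (![i, j, k] : Fin 3 → ι) = {i, j, k} := by
      ext x
      simp only [im, Finset.mem_image, Finset.mem_univ, true_and, Finset.mem_insert, Finset.mem_singleton]
      constructor
      · rintro ⟨s, rfl⟩
        fin_cases s <;> simp
      · rintro (rfl | rfl | rfl)
        · exact ⟨0, rfl⟩
        · exact ⟨1, rfl⟩
        · exact ⟨2, rfl⟩
    rw [him]
    obtain ⟨hA1, hA2⟩ := hAm {i, j, k}
    have hG : BM (fun X : ι → E => K2 θ P a (X i) (X j) * Am p θ u a {i, j, k} X) :=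
      (hb1 _ _ _ (hK2e j) hA1).2.2.1
    have hGk : IndS {k} (fun X : ι → E => K2 θ P a (X i) (X j) * Am p θ u a {i, j, k} X) := by
      intro X Y hXY
      have h1 : X i = Y i := hXY i (by simpa using hki.symm)
      have h2 : X j = Y j := hXY j (by simpa using hjk)
      have h3 : Am p θ u a {i, j, k} X = Am p θ u a {i, j, k} Y := hA2 X Y (by
        intro s hs
        apply hXY s
        intro h
        apply hs
        simp only [Finset.mem_singleton] at h
        simp [h])
      simp only [h1, h2, h3]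
    have e1 : IO p (fun X => θ a (X k) * (K2 θ P a (X i) (X j) * (u X * Am p θ u a {i, j, k} X))) =
        IA p θ a {k} (fun X => u X * (K2 θ P a (X i) (X j) * Am p θ u a {i, j, k} X)) := by
      have hF : BM (fun X : ι → E => K2 θ P a (X i) (X j) * (u X * Am p θ u a {i, j, k} X)) :=
        (hb1 _ _ _ (hK2e j) (hb1 _ _ _ hu hA1).2.2.1).2.2.1
      have h := ((hDNS ι C p β θ hS a ha {k} _ hF).2)
      simp only [Finset.prod_singleton] at h
      rw [← h]
      congr 1
      funext X
      ring
    have e2 : IA p θ a {k} (fun X => u X * (K2 θ P a (X i) (X j) * Am p θ u a {i, j, k} X)) =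
        IA p θ a {k} (fun X => Av (tm (θ a)) {k} u X * (K2 θ P a (X i) (X j) * Am p θ u a {i, j, k} X)) := by
      exact (hAVI ι (tm (θ a)) (mO p.L) {k} {k} u _ hu hG (Finset.Subset.refl _)).1 hGk
    have e3 : IA p θ a {k} (fun X => K2 θ P a (X i) (X j) *
        (Av (tm (θ a)) {i, k} u X * Am p θ u a {i, j, k} X)) = 0 := by
      have hw : BM (fun X : ι → E => Av (tm (θ a)) {i, k} u X * Am p θ u a {i, j, k} X) :=
        (hb1 _ _ _ hAik hA1).2.2.1
      have hwi : IndS {i} (fun X : ι → E => Av (tm (θ a)) {i, k} u X * Am p θ u a {i, j, k} X) := by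
        intro X Y hXY
        have h3 : Am p θ u a {i, j, k} X = Am p θ u a {i, j, k} Y := hA2 X Y (by
          intro s hs
          apply hXY s
          intro h
          apply hs
          simp only [Finset.mem_singleton] at h
          simp [h])
        have h4 : Av (tm (θ a)) {i, k} u X = Av (tm (θ a)) {i, k} u Y := hAikI X Y (by
          intro s hs
          apply hXY s
          intro h
          apply hs
          simp only [Finset.mem_singleton] at h
          simp [h])
        simp only [h3, h4]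
      have hik : i ∉ ({k} : Finset ι) := by simpa using hki.symm
      refine (hONE C ι p β θ hS a ha {k} i _ _ hik (hK2e j) hw hwi).2.1 ?_
      intro X
      have hupd : ∀ x : E, Function.update X i x i = x ∧ Function.update X i x j = X j := by
        intro x
        exact ⟨Function.update_self i x X, Function.update_of_ne hji x X⟩
      have h5 : ∀ x : E, K2 θ P a (Function.update X i x i) (Function.update X i x j) =
          ic (Qb a (2 * p.l)) x * K2 θ P a x (X j) := by
        intro x
        rw [(hupd x).1, (hupd x).2]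
        by_cases hx : K2 θ P a x (X j) = 0
        · rw [hx, mul_zero]
        · have := (hK2sp x (X j) hx).1
          rw [ic, Set.indicator_of_mem this, one_mul]
      simp only [h5]
      rw [hicO a ha (2 * p.l) (fun x => K2 θ P a x (X j)) (by linarith)]
      rw [setIntegral_eq_integral_of_forall_compl_eq_zero]
      · have h6 : (fun x => K2 θ P a x (X j)) = fun x => K2 θ P a (X j) x := by
          funext x
          exact hK2s x (X j)
        rw [h6]
        exact hK2z (X j)
      · intro x hx
        by_contra hne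
        exact hx (hK2sp x (X j) hne).1
    have e4 : IA p θ a {k} (fun X => (Av (tm (θ a)) {k} u X - Av (tm (θ a)) {i, k} u X) *
        (K2 θ P a (X i) (X j) * Am p θ u a {i, j, k} X)) =
        IA p θ a {k} (fun X => Av (tm (θ a)) {k} u X * (K2 θ P a (X i) (X j) * Am p θ u a {i, j, k} X)) -
        IA p θ a {k} (fun X => K2 θ P a (X i) (X j) *
          (Av (tm (θ a)) {i, k} u X * Am p θ u a {i, j, k} X)) := by
      unfold IA
      have : IsFiniteMeasure (PiS (tm (θ a)) (mO p.L) ({k} : Finset ι)) := by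
        unfold PiS
        have : ∀ s : ι, IsFiniteMeasure (if s ∈ ({k} : Finset ι) then tm (θ a) else mO p.L) := by
          intro s
          split_ifs
          · infer_instance
          · exact hfin
        infer_instance
      rw [← integral_sub]
      · congr 1
        funext X
        ring
      · exact (hb1 _ _ _ (hb1 _ _ _ hAk hG).2.2.1 hu).2.2.2.2.2.2 _
      · exact (hb1 _ _ _ (hb1 _ _ _ (hK2e j) (hb1 _ _ _ hAik hA1).2.2.1).2.2.1 hu).2.2.2.2.2.2 _
    rw [e4, e3, sub_zero, ← e2, ← e1]
    rfl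
  rw [Finset.sum_congr rfl key]
  unfold IA
  have : IsFiniteMeasure (PiS (tm (θ a)) (mO p.L) ({k} : Finset ι)) := by
    unfold PiS
    have : ∀ s : ι, IsFiniteMeasure (if s ∈ ({k} : Finset ι) then tm (θ a) else mO p.L) := by
      intro s
      split_ifs
      · infer_instance
      · exact hfin
    infer_instance
  rw [← integral_finsetSum]
  · congr 1
    funext X
    unfold W2
    exact (Finset.mul_sum _ _ _).symm
  · intro j hj
    have hG : BM (fun X : ι → E => K2 θ P a (X i) (X j) * Am p θ u a {i, j, k} X) :=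
      (hb1 _ _ _ (hK2e j) (hAm {i, j, k}).1).2.2.1
    have hD : BM (fun X : ι → E => Av (tm (θ a)) {k} u X - Av (tm (θ a)) {i, k} u X) :=
      (hb1 _ _ _ hAk hAik).2.1
    exact (hb1 _ _ _ (hb1 _ _ _ hD hG).2.2.1 hu).2.2.2.2.2.2 _

end Pool.Agent.TBS
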