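import Pool.Agent.TBS.StmtsB

/-!
# Squad TBS, module E2B: the norm of `W2`
-/

set_option autoImplicit false

open MeasureTheory Filter Topology
open scoped ContDiff

namespace Pool.Agent.TBS

open Pool.Agent.TBG Pool.Agent.TBL Pool.Agent.TBF

namespace E2B_

theorem sum_ij3 {ι : Type} [Fintype ι] [DecidableEq ι] (G : ι → ι → ι → ℝ) :
    ∑ i, ∑ k ∈ Finset.univ \ {i}, ∑ j ∈ Finset.univ \ {i, k}, G i j k =
      ∑ e ∈ Ij 3 ι, G (e 0) (e 1) (e 2) := by
  rw [Finset.sum_sigma', Finset.sum_sigma']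
  refine Finset.sum_nbij' (fun x => ![x.1.1, x.2, x.1.2]) (fun e => ⟨⟨e 0, e 2⟩, e 1⟩) ?_ ?_ ?_ ?_ ?_
  · rintro ⟨⟨i, k⟩, j⟩ h
    simp only [Finset.mem_sigma, Finset.mem_univ, Finset.mem_sdiff, Finset.mem_insert, Finset.mem_singleton,
      true_and, not_or] at h
    obtain ⟨h1, h2, h3⟩ := h
    unfold Ij
    rw [Finset.mem_filter]
    refine ⟨Finset.mem_univ _, ?_⟩
    intro s t hst
    fin_cases s <;> fin_cases t <;> simp_all
  · intro e he
    unfold Ij at he
    have he' : Function.Injective e := (Finset.mem_filter.1 he).2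
    simp only [Finset.mem_sigma, Finset.mem_univ, Finset.mem_sdiff, Finset.mem_insert, Finset.mem_singleton,
      true_and, not_or]
    refine ⟨fun h => ?_, fun h => ?_, fun h => ?_⟩ <;> simpa using he' h
  · rintro ⟨⟨i, k⟩, j⟩ _
    rfl
  · intro e _
    funext s
    fin_cases s <;> rfl
  · rintro ⟨⟨i, k⟩, j⟩ _
    rfl

theorem im3 {ι : Type} [DecidableEq ι] (e : Fin 3 → ι) : im e = {e 0, e 1, e 2} := by
  ext x
  unfold im
  simp only [Finset.mem_image, Finset.mem_univ, true_and, Finset.mem_insert, Finset.mem_singleton]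
  constructor
  · rintro ⟨s, rfl⟩
    fin_cases s <;> simp
  · rintro (rfl | rfl | rfl)
    · exact ⟨0, rfl⟩
    · exact ⟨1, rfl⟩
    · exact ⟨2, rfl⟩

theorem swap_sum {ι : Type} [DecidableEq ι] (s : Finset ι) (g : ι → ι → ℝ) :
    ∑ j ∈ s, ∑ j' ∈ s.erase j, g j' j = ∑ j ∈ s, ∑ j' ∈ s.erase j, g j j' := by
  rw [Finset.sum_comm']
  intro x y
  simp only [Finset.mem_erase]
  constructor
  · rintro ⟨h1, h2, h3⟩
    exact ⟨⟨fun h => h2 h.symm, h1⟩, h3⟩
  · rintro ⟨⟨h1, h2⟩, h3⟩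
    exact ⟨h2, fun h => h1 h.symm, h3⟩

end E2B_

theorem e2b_proof (hBMC : Pool.Agent.TBL.Stmt_BMC) (hVTP : Stmt_VTP) (_hTUP : Stmt_TUP) (hBBD : Stmt_BBD)
    (hRGH : Stmt_RGH) (hE2P : Stmt_E2P) (hMSY : Stmt_MSY) (hAVP : Stmt_AVP) (hKBD : Stmt_KBD) : Stmt_E2B := by
  intro C b
  obtain ⟨D, hD, hE⟩ := hE2P C b
  obtain ⟨D', hD', hR⟩ := hRGH C 3
  obtain ⟨D₂, -, hB⟩ := hBBD C 3
  obtain ⟨D₃, -, hK⟩ := hKBD C b
  refine ⟨D + 2 * D * D', by positivity, ?_⟩
  intro ι _ _ p β θ g P u hs hP hub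
  obtain ⟨hl1, hfin, -, -, hQ, hsub, hprob, -, -, -, -⟩ := hMSY C p β θ hs
  have hl : 0 < p.l := by linarith
  have hRp : 0 < p.R := by linarith [hs.hR]
  have hM : 0 < p.M := by linarith [hs.hM]
  have hmul : ∀ {α : Type} [MeasurableSpace α] {F G : α → ℝ}, BM F → BM G → BM (fun X => F X * G X) :=
    fun {α} _ {F G} hF hG => (hBMC.1 α F G hF hG).2.2.1
  have hint : ∀ {α : Type} [MeasurableSpace α] {F : α → ℝ} (μ : Measure α) [IsFiniteMeasure μ], BM F →
      Integrable F μ := fun {α} _ {F} μ _ hF => (hBMC.1 α F F hF hF).2.2.2.2.2.2 μ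
  have hcomp : ∀ {α γ : Type} [MeasurableSpace α] [MeasurableSpace γ] {F : α → ℝ} {f : γ → α}, BM F →
      Measurable f → BM (fun X => F (f X)) := fun {α γ} _ _ {F f} hF hf => hBMC.2.2.2.1 α γ F f hF hf
  have hPf : ∀ (m : Measure E) [IsProbabilityMeasure m] (S : Finset ι), IsFiniteMeasure (PiS m (mO p.L) S) := by
    intro m _ S
    unfold PiS
    have : ∀ i, IsFiniteMeasure (if i ∈ S then m else (mO p.L)) := by
      intro i
      split_ifs <;> infer_instance
    infer_instance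
  have hAmb : ∀ (a : E) (S : Finset ι), BM (Am p θ u a S) := fun a S => by
    have := hprob a
    exact hmul (hVTP ι C p β θ hs a S).1 (hAVP ι (tm (θ a)) S S u u hub hub).1
  have hKb : ∀ (a : E) (i j : ι), BM (fun X : ι → E => K2 θ P a (X i) (X j)) := fun a i j => by
    have h1 : BM2 (K2 θ P a) := (hK p β θ g P hs hP a).1
    exact hcomp (F := fun q : E × E => K2 θ P a q.1 q.2) (f := fun X : ι → E => (X i, X j)) h1
      ((measurable_pi_apply i).prodMk (measurable_pi_apply j))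
  have hAA : 0 ≤ AA p θ u 3 := (hB ι p β θ u hs hub).1
  have hRW : 0 ≤ RW p θ u := by
    unfold RW
    refine Finset.sum_nonneg fun a _ => Finset.sum_nonneg fun i _ => integral_nonneg fun X => ?_
    have hv0 : 0 ≤ vt p a {i} X := by
      unfold vt
      split_ifs
      · exact zero_le_one
      · exact le_rfl
    have : 0 ≤ ic (Qb a (4 * p.l)) (X i) := Set.indicator_nonneg (fun _ _ => zero_le_one) _
    show 0 ≤ vt p a {i} X * ic (Qb a (4 * p.l)) (X i) * (u X - Av (tm (θ a)) {i} u X) ^ 2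
    positivity
  -- one pair of particles
  have h1 : ∀ a ∈ p.Gr, ∀ i : ι, ∀ k ∈ Finset.univ \ {i}, IA p θ a {k} (fun X => W2 p θ P u a i k X ^ 2) ≤
      ∑ j ∈ Finset.univ \ {i, k}, (D / (p.l ^ 3 * p.R ^ 3) * IA p θ a {i, j, k} (fun X => Am p θ u a {i, j, k} X ^ 2)
        + 2 * (D / p.l ^ 6) * ∑ j' ∈ Finset.univ \ {i, j, k}, rg p θ u a {i, j, k} j') := by
    intro a ha i k hk
    have hik : i ≠ k := by
      intro h
      subst h
      simp at hk
    have := hprob a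
    have := hPf (tm (θ a)) ({k} : Finset ι)
    set s : Finset ι := Finset.univ \ {i, k} with hs'
    set f : ι → (ι → E) → ℝ := fun j X => K2 θ P a (X i) (X j) * Am p θ u a {i, j, k} X with hf
    have hfb : ∀ j, BM (f j) := fun j => hmul (hKb a i j) (hAmb a _)
    have e1 : IA p θ a {k} (fun X => W2 p θ P u a i k X ^ 2) =
        ∑ j ∈ s, ∑ j' ∈ s, IA p θ a {k} (fun X => f j X * f j' X) := by
      unfold IA
      have e2 : ∀ X, W2 p θ P u a i k X ^ 2 = ∑ j ∈ s, ∑ j' ∈ s, f j X * f j' X := by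
        intro X
        unfold W2
        rw [sq, Finset.sum_mul_sum]
      simp_rw [e2]
      rw [integral_finsetSum]
      · refine Finset.sum_congr rfl fun j _ => ?_
        rw [integral_finsetSum]
        intro j' _
        exact hint _ (hmul (hfb j) (hfb j'))
      · intro j _
        refine integrable_finsetSum _ fun j' _ => ?_
        exact hint _ (hmul (hfb j) (hfb j'))
    rw [e1]
    have e3 : ∀ j ∈ s, ∑ j' ∈ s, IA p θ a {k} (fun X => f j X * f j' X) ≤
        D / (p.l ^ 3 * p.R ^ 3) * IA p θ a {i, j, k} (fun X => Am p θ u a {i, j, k} X ^ 2) +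
        ∑ j' ∈ s.erase j, D / p.l ^ 6 * (rg p θ u a {i, j, k} j' + rg p θ u a {i, j', k} j) := by
      intro j hj
      have hj' : j ≠ i ∧ j ≠ k := by
        rw [hs', Finset.mem_sdiff] at hj
        simpa using hj.2
      obtain ⟨e4, e5⟩ := hE ι p β θ g P u hs hP hub a ha i j k (Ne.symm hj'.1) hik hj'.2
      rw [← Finset.add_sum_erase s _ hj]
      refine add_le_add ?_ (Finset.sum_le_sum fun j' hjj => ?_)
      · refine le_trans (le_of_eq ?_) e4
        unfold IA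
        congr 1
        funext X
        show f j X * f j X = f j X ^ 2
        ring
      · have h3 := Finset.mem_erase.1 hjj
        have h4 : j' ≠ i ∧ j' ≠ k := by
          have := h3.2
          rw [hs', Finset.mem_sdiff] at this
          simpa using this.2
        exact e5 j' h4.1 h3.1 h4.2
    refine (Finset.sum_le_sum e3).trans (le_of_eq ?_)
    rw [Finset.sum_add_distrib, Finset.sum_add_distrib]
    congr 1
    have e6 : ∑ j ∈ s, ∑ j' ∈ s.erase j, D / p.l ^ 6 * (rg p θ u a {i, j, k} j' + rg p θ u a {i, j', k} j) =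
        D / p.l ^ 6 * (∑ j ∈ s, ∑ j' ∈ s.erase j, rg p θ u a {i, j, k} j' +
          ∑ j ∈ s, ∑ j' ∈ s.erase j, rg p θ u a {i, j', k} j) := by
      simp_rw [← Finset.mul_sum, Finset.sum_add_distrib]
    rw [e6, E2B_.swap_sum s (fun j j' => rg p θ u a {i, j, k} j'), ← Finset.mul_sum, ← two_mul]
    have e7 : ∀ j ∈ s, s.erase j = Finset.univ \ {i, j, k} := by
      intro j _
      ext x
      simp only [hs', Finset.mem_erase, Finset.mem_sdiff, Finset.mem_univ, true_and, Finset.mem_insert,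
        Finset.mem_singleton, not_or]
      tauto
    rw [Finset.sum_congr rfl fun j hj => by rw [e7 j hj]]
    ring
  -- the sum over the grid
  have h2 : ∀ a ∈ p.Gr, ∑ i, ∑ k ∈ Finset.univ \ {i}, IA p θ a {k} (fun X => W2 p θ P u a i k X ^ 2) ≤
      D / (p.l ^ 3 * p.R ^ 3) * ∑ e ∈ Ij 3 ι, IA p θ a (im e) (fun X => Am p θ u a (im e) X ^ 2) +
      2 * (D / p.l ^ 6) * ∑ e ∈ Ij 3 ι, ∑ j ∈ Finset.univ \ im e, rg p θ u a (im e) j := by
    intro a ha
    refine (Finset.sum_le_sum fun i _ => Finset.sum_le_sum fun k hk => h1 a ha i k hk).trans (le_of_eq ?_)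
    rw [E2B_.sum_ij3 (fun i j k => (D / (p.l ^ 3 * p.R ^ 3) * IA p θ a {i, j, k} (fun X => Am p θ u a {i, j, k} X ^ 2)
        + 2 * (D / p.l ^ 6) * ∑ j' ∈ Finset.univ \ {i, j, k}, rg p θ u a {i, j, k} j')), Finset.mul_sum,
      Finset.mul_sum, ← Finset.sum_add_distrib]
    refine Finset.sum_congr rfl fun e _ => ?_
    rw [E2B_.im3 e]
  have h3 : ∑ a ∈ p.Gr, ∑ i, ∑ k ∈ Finset.univ \ {i}, IA p θ a {k} (fun X => W2 p θ P u a i k X ^ 2) ≤
      D / (p.l ^ 3 * p.R ^ 3) * (AA p θ u 3 / p.l ^ 3) + 2 * (D / p.l ^ 6) * (D' * (p.M / p.l ^ 3) ^ 3 * RW p θ u) := by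
    refine (Finset.sum_le_sum h2).trans ?_
    rw [Finset.sum_add_distrib, ← Finset.mul_sum, ← Finset.mul_sum]
    refine add_le_add (le_of_eq ?_) ?_
    · unfold AA
      congr 1
      field_simp
    · refine mul_le_mul_of_nonneg_left ?_ (by positivity)
      exact (hR ι p β θ u hs hub).2
  refine h3.trans ?_
  have e1 : D / (p.l ^ 3 * p.R ^ 3) * (AA p θ u 3 / p.l ^ 3) = D * (AA p θ u 3 / (p.l ^ 6 * p.R ^ 3)) := by
    field_simp
  have e2 : 2 * (D / p.l ^ 6) * (D' * (p.M / p.l ^ 3) ^ 3 * RW p θ u) =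
      2 * D * D' * ((p.M / p.l ^ 3) ^ 3 * RW p θ u / p.l ^ 6) := by
    ring
  rw [e1, e2]
  have p1 : 0 ≤ AA p θ u 3 / (p.l ^ 6 * p.R ^ 3) := by positivity
  have p2 : 0 ≤ (p.M / p.l ^ 3) ^ 3 * RW p θ u / p.l ^ 6 := by positivity
  have p3 : 0 ≤ 2 * D * D' := by positivity
  nlinarith [mul_nonneg p3 p1, mul_nonneg hD.le p2]

end Pool.Agent.TBS
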