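import Pool.Agent.TBS.StmtsB

/-!
Squad TBS, module E2C: the Cauchy-Schwarz inequality for `T2`.
-/

set_option autoImplicit false

open MeasureTheory Filter Topology
open scoped ContDiff

namespace Pool.Agent.TBS

open Pool.Agent.TBG Pool.Agent.TBL Pool.Agent.TBF

namespace E2C_

theorem quad {A P B : ℝ} (h : ∀ s : ℝ, 0 ≤ A * s ^ 2 - 2 * P * s + B) : P ^ 2 ≤ A * B := by
  have h1 := discrim_le_zero (a := A) (b := -2 * P) (c := B) (fun x => by
    have := h x
    nlinarith)
  unfold discrim at h1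
  nlinarith

theorem ic01 (Q : Set E) (x : E) : ic Q x = 0 ∨ ic Q x = 1 := by
  unfold ic
  by_cases h : x ∈ Q
  · right
    rw [Set.indicator_of_mem h]
  · left
    rw [Set.indicator_of_notMem h]

theorem ic_nn (Q : Set E) (x : E) : 0 ≤ ic Q x := by
  rcases ic01 Q x with h | h <;> rw [h]
  exact zero_le_one

theorem ic_mem {Q : Set E} {x : E} (h : x ∈ Q) : ic Q x = 1 := by
  unfold ic
  rw [Set.indicator_of_mem h]

theorem ic_bm {Q : Set E} (hQ : MeasurableSet Q) : BM (ic Q) := by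
  refine ⟨measurable_const.indicator hQ, 1, fun x => ?_⟩
  rcases ic01 Q x with h | h <;> rw [h] <;> simp

end E2C_

open E2C_ in
theorem e2c_proof (hBMC : Pool.Agent.TBL.Stmt_BMC) (hMSY : Stmt_MSY) (hPSF : Stmt_PSF)
    (hAVP : Stmt_AVP) (hAVI : Stmt_AVI) (hDNS : Stmt_DNS) (hVTP : Stmt_VTP) (hKBD : Stmt_KBD) :
    Stmt_E2C := by
  classical
  intro C b
  obtain ⟨C₁', -, hK⟩ := hKBD C b
  refine ⟨|C| + 1, by positivity, ?_⟩
  intro ι _ _ p β θ g P u hS hT hu
  obtain ⟨hl1, hfin, hOm, hQc, hQb, hQbQc, hprob, -, -, -, -, -⟩ := hMSY C p β θ hS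
  have hl0 : 0 < p.l := by linarith
  have hbm := fun (F G : (ι → E) → ℝ) (hF : BM F) (hG : BM G) => hBMC.1 (ι → E) F G hF hG
  have bmMul : ∀ {F G : (ι → E) → ℝ}, BM F → BM G → BM (fun X => F X * G X) :=
    fun hF hG => (hbm _ _ hF hG).2.2.1
  have bmSub : ∀ {F G : (ι → E) → ℝ}, BM F → BM G → BM (fun X => F X - G X) :=
    fun hF hG => (hbm _ _ hF hG).2.1
  have bmAdd : ∀ {F G : (ι → E) → ℝ}, BM F → BM G → BM (fun X => F X + G X) :=
    fun hF hG => (hbm _ _ hF hG).1
  have bmSq : ∀ {F : (ι → E) → ℝ}, BM F → BM (fun X => F X ^ 2) :=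
    fun hF => (hbm _ _ hF hF).2.2.2.1
  have bmC : ∀ {F : (ι → E) → ℝ} (c : ℝ), BM F → BM (fun X => c * F X) :=
    fun c hF => (hbm _ _ hF hF).2.2.2.2.2.1 c
  have bmInt : ∀ {F : (ι → E) → ℝ} (μ : Measure (ι → E)) [IsFiniteMeasure μ], BM F →
      Integrable F μ := fun μ _ hF => (hbm _ _ hF hF).2.2.2.2.2.2 μ
  have bmIc : ∀ (a : E) (r : ℝ) (i : ι), BM (fun X : ι → E => ic (Qb a r) (X i)) := fun a r i =>
    hBMC.2.2.2.1 E (ι → E) (ic (Qb a r)) (fun X => X i) (ic_bm (hQb a r).1) (measurable_pi_apply i)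
  have bmVt : ∀ (a : E) (S : Finset ι), BM (vt p a S) := fun a S => (hVTP ι C p β θ hS a S).1
  have hfinI : ∀ (a : E) (S : Finset ι), IsFiniteMeasure (PiS (tm (θ a)) (mO p.L) S) := by
    intro a S
    have := hprob a
    exact (hPSF ι (tm (θ a)) (mO p.L) S).1
  have hfinO : IsFiniteMeasure (PiS (mO p.L) (mO p.L) (∅ : Finset ι)) := by
    unfold PiS
    simp only [Finset.notMem_empty, if_false]
    infer_instance
  have bmAv : ∀ (a : E) (S : Finset ι) {F : (ι → E) → ℝ}, BM F → BM (Av (tm (θ a)) S F) := by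
    intro a S F hF
    have := hprob a
    exact (hAVP ι (tm (θ a)) S S F F hF hF).1
  -- the functions
  set D : E → ι → ι → (ι → E) → ℝ := fun a i k X =>
    Av (tm (θ a)) {k} u X - Av (tm (θ a)) {i, k} u X with hD
  set f : E → ι → ι → (ι → E) → ℝ := fun a i k X =>
    vt p a {k} X * (ic (Qb a (2 * p.l)) (X i) * D a i k X) with hf
  set W : E → ι → ι → (ι → E) → ℝ := fun a i k X => W2 p θ P u a i k X with hW
  have bmD : ∀ a i k, BM (D a i k) := fun a i k => bmSub (bmAv a _ hu) (bmAv a _ hu)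
  have bmf : ∀ a i k, BM (f a i k) := fun a i k => bmMul (bmVt a _) (bmMul (bmIc a _ i) (bmD a i k))
  have bmK : ∀ (a : E) (i j : ι), BM (fun X : ι → E => K2 θ P a (X i) (X j)) := by
    intro a i j
    have h1 : BM2 (K2 θ P a) := (hK p β θ g P hS hT a).1
    exact hBMC.2.2.2.1 (E × E) (ι → E) (fun q => K2 θ P a q.1 q.2) (fun X => (X i, X j)) h1
      ((measurable_pi_apply i).prodMk (measurable_pi_apply j))
  have bmW : ∀ a i k, BM (W a i k) := by
    intro a i k
    refine hBMC.2.2.1 (ι → E) ι (Finset.univ \ {i, k}) (fun j X =>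
      K2 θ P a (X i) (X j) * Am p θ u a {i, j, k} X) fun j _ => ?_
    exact bmMul (bmK a i j) (bmMul (bmVt a _) (bmAv a _ hu))
  have vt01 : ∀ (a : E) (S : Finset ι) (X : ι → E), vt p a S X = 0 ∨ vt p a S X = 1 :=
    fun a S X => ((hVTP ι C p β θ hS a S).2.2.1 X).1
  have vtnn : ∀ (a : E) (S : Finset ι) (X : ι → E), 0 ≤ vt p a S X := by
    intro a S X
    rcases vt01 a S X with h | h <;> rw [h]
    exact zero_le_one
  -- support of `W2`
  have hsupp : ∀ a i k X, W a i k X = vt p a {k} X * (ic (Qb a (2 * p.l)) (X i) * W a i k X) := by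
    intro a i k X
    show W2 p θ P u a i k X = vt p a {k} X * (ic (Qb a (2 * p.l)) (X i) * W2 p θ P u a i k X)
    unfold W2
    rw [Finset.mul_sum, Finset.mul_sum]
    refine Finset.sum_congr rfl fun j _ => ?_
    by_cases h0 : K2 θ P a (X i) (X j) = 0
    · rw [h0]
      ring
    · obtain ⟨hi, hj⟩ := (hK p β θ g P hS hT a).2.2.2.2.1 _ _ h0
      have hQ : Qb a (2 * p.l) ⊆ Qc p a := hQbQc a _ (by linarith)
      have h1 : vt p a {k} X = vt p a ({k} ∪ {i, j}) X := by
        refine (hVTP ι C p β θ hS a {k}).2.2.2.1 {i, j} X fun t ht _ => ?_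
        rw [Finset.mem_insert, Finset.mem_singleton] at ht
        rcases ht with rfl | rfl
        · exact hQ hi
        · exact hQ hj
      have h2 : ({k} ∪ {i, j} : Finset ι) = {i, j, k} := by
        ext t
        simp only [Finset.mem_union, Finset.mem_insert, Finset.mem_singleton]
        tauto
      rw [h2] at h1
      rw [h1, ic_mem hi]
      unfold Am
      rcases vt01 a {i, j, k} X with h3 | h3 <;> rw [h3] <;> ring
  have hDW : ∀ a i k X, D a i k X * W a i k X = f a i k X * W a i k X := by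
    intro a i k X
    have h1 := hsupp a i k X
    calc D a i k X * W a i k X = D a i k X *
          (vt p a {k} X * (ic (Qb a (2 * p.l)) (X i) * W a i k X)) := by rw [← h1]
      _ = f a i k X * W a i k X := by
          rw [hf]
          ring
  -- Cauchy-Schwarz
  set A : ℝ := ∑ a ∈ p.Gr, ∑ i, ∑ k ∈ Finset.univ \ {i}, IA p θ a {k} (fun X => f a i k X ^ 2)
    with hA
  set B : ℝ := ∑ a ∈ p.Gr, ∑ i, ∑ k ∈ Finset.univ \ {i}, IA p θ a {k} (fun X => W a i k X ^ 2)
    with hB
  set Q : ℝ := ∑ a ∈ p.Gr, ∑ i, ∑ k ∈ Finset.univ \ {i},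
    IA p θ a {k} (fun X => f a i k X * W a i k X) with hQ
  have hleft : (∑ a ∈ p.Gr, ∑ i, ∑ k ∈ Finset.univ \ {i}, IA p θ a {k} (fun X =>
      (Av (tm (θ a)) {k} u X - Av (tm (θ a)) {i, k} u X) * W2 p θ P u a i k X)) = Q := by
    refine Finset.sum_congr rfl fun a _ => Finset.sum_congr rfl fun i _ =>
      Finset.sum_congr rfl fun k _ => ?_
    exact congrArg (IA p θ a {k}) (funext fun X => hDW a i k X)
  have hCS : Q ^ 2 ≤ A * B := by
    refine quad fun s => ?_
    have h1 : A * s ^ 2 - 2 * Q * s + B = ∑ a ∈ p.Gr, ∑ i, ∑ k ∈ Finset.univ \ {i},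
        IA p θ a {k} (fun X => (s * f a i k X - W a i k X) ^ 2) := by
      rw [hA, hB, hQ, mul_assoc, mul_comm _ s, Finset.sum_mul, Finset.mul_sum, Finset.mul_sum,
        ← Finset.sum_sub_distrib, ← Finset.sum_add_distrib]
      refine Finset.sum_congr rfl fun a _ => ?_
      rw [Finset.sum_mul, Finset.mul_sum, Finset.mul_sum, ← Finset.sum_sub_distrib,
        ← Finset.sum_add_distrib]
      refine Finset.sum_congr rfl fun i _ => ?_
      rw [Finset.sum_mul, Finset.mul_sum, Finset.mul_sum, ← Finset.sum_sub_distrib,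
        ← Finset.sum_add_distrib]
      refine Finset.sum_congr rfl fun k _ => ?_
      have := hfinI a {k}
      unfold IA
      have e1 : ∀ X, (s * f a i k X - W a i k X) ^ 2 =
          s ^ 2 * f a i k X ^ 2 - 2 * s * (f a i k X * W a i k X) + W a i k X ^ 2 := by
        intro X
        ring
      simp_rw [e1]
      rw [integral_add (bmInt _ (bmSub (bmC _ (bmSq (bmf a i k)))
          (bmC _ (bmMul (bmf a i k) (bmW a i k))))) (bmInt _ (bmSq (bmW a i k))),
        integral_sub (bmInt _ (bmC _ (bmSq (bmf a i k))))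
          (bmInt _ (bmC _ (bmMul (bmf a i k) (bmW a i k)))),
        integral_const_mul, integral_const_mul]
      ring
    rw [h1]
    refine Finset.sum_nonneg fun a _ => Finset.sum_nonneg fun i _ => Finset.sum_nonneg fun k _ => ?_
    exact integral_nonneg fun X => sq_nonneg _
  -- the bound of `A`
  set h : E → ι → (ι → E) → ℝ := fun a i X => u X - Av (tm (θ a)) {i} u X with hh
  have bmh : ∀ a i, BM (h a i) := fun a i => bmSub hu (bmAv a _ hu)
  have bmθ : ∀ (a : E) (i : ι), BM (fun X : ι → E => θ a (X i)) := by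
    intro a i
    refine ⟨(hS.θm a).comp (measurable_pi_apply i), C / p.l ^ 3, fun X => ?_⟩
    rw [abs_of_nonneg (hS.θ0 a _)]
    exact hS.θb a _
  have hone : ∀ a ∈ p.Gr, ∀ i k : ι, k ≠ i → IA p θ a {k} (fun X => f a i k X ^ 2) ≤
      IO p (fun X => θ a (X k) * (vt p a {k} X * (ic (Qb a (2 * p.l)) (X i) * h a i X ^ 2))) := by
    intro a ha i k hki
    have := hprob a
    have := hfinI a {k}
    have hun : ({k} ∪ {i} : Finset ι) = {i, k} := by
      ext t
      simp only [Finset.mem_union, Finset.mem_insert, Finset.mem_singleton]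
      tauto
    have hDk : D a i k = Av (tm (θ a)) {k} (h a i) := by
      obtain ⟨-, -, -, -, -, -, h7, -, -, -, -, -, -, -⟩ :=
        hAVP ι (tm (θ a)) {k} {i} u (Av (tm (θ a)) {i} u) hu (bmAv a _ hu)
      obtain ⟨-, -, -, -, -, -, -, -, -, -, -, h12, -, -⟩ :=
        hAVP ι (tm (θ a)) {k} {i} u u hu hu
      rw [hun] at h12
      funext X
      have h8 := congrFun h7 X
      show Av (tm (θ a)) {k} u X - Av (tm (θ a)) {i, k} u X = _
      rw [← h12]
      exact h8.symm
    have hJ : ∀ X, D a i k X ^ 2 ≤ Av (tm (θ a)) {k} (fun Y => h a i Y ^ 2) X := by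
      intro X
      rw [hDk]
      obtain ⟨-, -, -, -, -, -, -, -, -, -, h11, -, -, -⟩ :=
        hAVP ι (tm (θ a)) {k} {k} (h a i) (h a i) (bmh a i) (bmh a i)
      exact h11 X
    have hind : IndS {k} (fun X : ι → E => vt p a {k} X * ic (Qb a (2 * p.l)) (X i)) := by
      intro X Y hXY
      have h1 := (hVTP ι C p β θ hS a {k}).2.1 X Y hXY
      have h2 : X i = Y i := hXY i (by rw [Finset.mem_singleton]; exact fun h => hki h.symm)
      show vt p a {k} X * ic (Qb a (2 * p.l)) (X i) = vt p a {k} Y * ic (Qb a (2 * p.l)) (Y i)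
      rw [h1, h2]
    have bmG : BM (fun X : ι → E => vt p a {k} X * ic (Qb a (2 * p.l)) (X i)) :=
      bmMul (bmVt a _) (bmIc a _ i)
    have hI := (hAVI ι (tm (θ a)) (mO p.L) {k} {k} (fun X => h a i X ^ 2)
      (fun X => vt p a {k} X * ic (Qb a (2 * p.l)) (X i)) (bmSq (bmh a i)) bmG
      (Finset.Subset.refl _)).1 hind
    have hDN := (hDNS ι C p β θ hS a ha {k} (fun X => h a i X ^ 2 *
      (vt p a {k} X * ic (Qb a (2 * p.l)) (X i))) (bmMul (bmSq (bmh a i)) bmG)).2
    have hmono : IA p θ a {k} (fun X => f a i k X ^ 2) ≤ IA p θ a {k} (fun X =>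
        Av (tm (θ a)) {k} (fun Y => h a i Y ^ 2) X *
          (vt p a {k} X * ic (Qb a (2 * p.l)) (X i))) := by
      unfold IA
      refine integral_mono (bmInt _ (bmSq (bmf a i k)))
        (bmInt _ (bmMul (bmAv a _ (bmSq (bmh a i))) bmG)) fun X => ?_
      show f a i k X ^ 2 ≤ Av (tm (θ a)) {k} (fun Y => h a i Y ^ 2) X *
          (vt p a {k} X * ic (Qb a (2 * p.l)) (X i))
      have e1 : f a i k X ^ 2 = D a i k X ^ 2 * (vt p a {k} X * ic (Qb a (2 * p.l)) (X i)) := by
        rw [hf]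
        simp only
        rcases vt01 a {k} X with h3 | h3 <;> rw [h3] <;>
          rcases ic01 (Qb a (2 * p.l)) (X i) with h4 | h4 <;> rw [h4] <;> ring
      rw [e1]
      exact mul_le_mul_of_nonneg_right (hJ X) (mul_nonneg (vtnn a _ X) (ic_nn _ _))
    refine hmono.trans (le_of_eq ?_)
    have e2 : IA p θ a {k} (fun X => Av (tm (θ a)) {k} (fun Y => h a i Y ^ 2) X *
          (vt p a {k} X * ic (Qb a (2 * p.l)) (X i))) = IA p θ a {k} (fun X => h a i X ^ 2 *
          (vt p a {k} X * ic (Qb a (2 * p.l)) (X i))) := hI.symm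
    rw [e2, hDN]
    refine congrArg (IO p) (funext fun X => ?_)
    rw [Finset.prod_singleton]
    ring
  have hC0 : ∀ a : E, 0 ≤ C / p.l ^ 3 := fun a => (hS.θ0 a 0).trans (hS.θb a 0)
  have hCC : C / p.l ^ 3 ≤ (|C| + 1) / p.l ^ 3 := by
    apply div_le_div_of_nonneg_right _ (by positivity)
    have := le_abs_self C
    linarith
  have hM0 : 0 ≤ p.M := by
    have := hS.hM
    linarith
  have hpt : ∀ (a : E) (i : ι) (X : ι → E),
      ∑ k ∈ Finset.univ \ {i}, θ a (X k) * (vt p a {k} X *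
        (ic (Qb a (2 * p.l)) (X i) * h a i X ^ 2)) ≤
      ((|C| + 1) / p.l ^ 3 * p.M) * (vt p a {i} X * ic (Qb a (4 * p.l)) (X i) * h a i X ^ 2) := by
    intro a i X
    have hR0 : 0 ≤ ((|C| + 1) / p.l ^ 3 * p.M) *
        (vt p a {i} X * ic (Qb a (4 * p.l)) (X i) * h a i X ^ 2) := by
      have h1 := vtnn a {i} X
      have h2 := ic_nn (Qb a (4 * p.l)) (X i)
      positivity
    by_cases hi : X i ∈ Qb a (2 * p.l)
    · have hi4 : X i ∈ Qb a (4 * p.l) := fun c => (hi c).trans (by linarith)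
      have hsub : Qb a (2 * p.l) ⊆ Qc p a := hQbQc a _ (by linarith)
      rw [ic_mem hi4]
      have hk : ∀ k ∈ Finset.univ \ {i}, θ a (X k) * (vt p a {k} X *
          (ic (Qb a (2 * p.l)) (X i) * h a i X ^ 2)) ≤
          ((C / p.l ^ 3) * h a i X ^ 2) * (vt p a {i} X * ic (Qb a (2 * p.l)) (X k)) := by
        intro k _
        rw [ic_mem hi]
        by_cases hθ : θ a (X k) = 0
        · rw [hθ, zero_mul]
          exact mul_nonneg (mul_nonneg (hC0 a) (sq_nonneg _)) (mul_nonneg (vtnn a _ X) (ic_nn _ _))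
        · have hkQ := hS.θsp a _ hθ
          rw [ic_mem hkQ]
          have h1 : vt p a {k} X = vt p a ({k} ∪ {i}) X :=
            (hVTP ι C p β θ hS a {k}).2.2.2.1 {i} X fun t ht _ => by
              rw [Finset.mem_singleton] at ht
              subst ht
              exact hsub hi
          have h2 : vt p a {i} X = vt p a ({i} ∪ {k}) X :=
            (hVTP ι C p β θ hS a {i}).2.2.2.1 {k} X fun t ht _ => by
              rw [Finset.mem_singleton] at ht
              subst ht
              exact hsub hkQ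
          rw [Finset.union_comm] at h2
          rw [h1, ← h2]
          have h3 := hS.θb a (X k)
          have h4 := vtnn a {i} X
          calc θ a (X k) * (vt p a {i} X * (1 * h a i X ^ 2))
              = θ a (X k) * (vt p a {i} X * h a i X ^ 2) := by ring
            _ ≤ (C / p.l ^ 3) * (vt p a {i} X * h a i X ^ 2) := by gcongr
            _ = _ := by ring
      refine (Finset.sum_le_sum hk).trans ?_
      rw [← Finset.mul_sum, ← Finset.mul_sum]
      have h5 := ((hVTP ι C p β θ hS a {i}).2.2.1 X).2.2 (2 * p.l) (by linarith)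
      have h6 := hC0 a
      calc ((C / p.l ^ 3) * h a i X ^ 2) * (vt p a {i} X *
            ∑ k ∈ Finset.univ \ {i}, ic (Qb a (2 * p.l)) (X k))
          ≤ ((C / p.l ^ 3) * h a i X ^ 2) * (p.M * vt p a {i} X) := by gcongr
        _ ≤ (((|C| + 1) / p.l ^ 3) * h a i X ^ 2) * (p.M * vt p a {i} X) := by
            have := vtnn a {i} X
            gcongr
        _ = _ := by ring
    · have h0 : ic (Qb a (2 * p.l)) (X i) = 0 := by
        unfold ic
        rw [Set.indicator_of_notMem hi]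
      have h1 : ∑ k ∈ Finset.univ \ {i}, θ a (X k) * (vt p a {k} X *
          (ic (Qb a (2 * p.l)) (X i) * h a i X ^ 2)) = 0 := by
        refine Finset.sum_eq_zero fun k _ => ?_
        rw [h0]
        ring
      rw [h1]
      exact hR0
  have hAle : A ≤ (|C| + 1) * (p.M / p.l ^ 3 * RW p θ u) := by
    have h1 : (|C| + 1) * (p.M / p.l ^ 3 * RW p θ u) = ∑ a ∈ p.Gr, ∑ i,
        ((|C| + 1) / p.l ^ 3 * p.M) * IO p (fun X => vt p a {i} X *
          ic (Qb a (4 * p.l)) (X i) * h a i X ^ 2) := by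
      unfold RW
      have e1 : (|C| + 1) * (p.M / p.l ^ 3 * ∑ a ∈ p.Gr, ∑ i, IO p (fun X => vt p a {i} X *
          ic (Qb a (4 * p.l)) (X i) * (u X - Av (tm (θ a)) {i} u X) ^ 2)) =
          ((|C| + 1) / p.l ^ 3 * p.M) * ∑ a ∈ p.Gr, ∑ i, IO p (fun X => vt p a {i} X *
          ic (Qb a (4 * p.l)) (X i) * (u X - Av (tm (θ a)) {i} u X) ^ 2) := by ring
      rw [e1, Finset.mul_sum]
      refine Finset.sum_congr rfl fun a _ => ?_
      rw [Finset.mul_sum]
    rw [h1, hA]
    refine Finset.sum_le_sum fun a ha => Finset.sum_le_sum fun i _ => ?_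
    have bmT : ∀ k : ι, BM (fun X => θ a (X k) * (vt p a {k} X *
        (ic (Qb a (2 * p.l)) (X i) * h a i X ^ 2))) := fun k =>
      bmMul (bmθ a k) (bmMul (bmVt a _) (bmMul (bmIc a _ i) (bmSq (bmh a i))))
    calc ∑ k ∈ Finset.univ \ {i}, IA p θ a {k} (fun X => f a i k X ^ 2)
        ≤ ∑ k ∈ Finset.univ \ {i}, IO p (fun X => θ a (X k) * (vt p a {k} X *
          (ic (Qb a (2 * p.l)) (X i) * h a i X ^ 2))) := by
          refine Finset.sum_le_sum fun k hk => ?_
          rw [Finset.mem_sdiff, Finset.mem_singleton] at hk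
          exact hone a ha i k hk.2
      _ = IO p (fun X => ∑ k ∈ Finset.univ \ {i}, θ a (X k) * (vt p a {k} X *
          (ic (Qb a (2 * p.l)) (X i) * h a i X ^ 2))) := by
          unfold IO
          rw [integral_finsetSum]
          exact fun k _ => bmInt _ (bmT k)
      _ ≤ IO p (fun X => ((|C| + 1) / p.l ^ 3 * p.M) *
            (vt p a {i} X * ic (Qb a (4 * p.l)) (X i) * h a i X ^ 2)) := by
          unfold IO
          refine integral_mono ?_ ?_ fun X => hpt a i X
          · exact integrable_finsetSum _ fun k _ => bmInt _ (bmT k)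
          · exact bmInt _ (bmC _ (bmMul (bmMul (bmVt a _) (bmIc a _ i)) (bmSq (bmh a i))))
      _ = _ := by
          unfold IO
          rw [integral_const_mul]
  have hB0 : 0 ≤ B := by
    refine Finset.sum_nonneg fun a _ => Finset.sum_nonneg fun i _ => Finset.sum_nonneg fun k _ => ?_
    exact integral_nonneg fun X => sq_nonneg _
  rw [hleft]
  calc Q ^ 2 ≤ A * B := hCS
    _ ≤ ((|C| + 1) * (p.M / p.l ^ 3 * RW p θ u)) * B := mul_le_mul_of_nonneg_right hAle hB0

end Pool.Agent.TBS
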