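import Pool.Agent.TBS.StmtsB

set_option autoImplicit false

open MeasureTheory Filter Topology
open scoped ContDiff

namespace Pool.Agent.TBS

open Pool.Agent.TBG Pool.Agent.TBL Pool.Agent.TBF

namespace E2P_

set_option linter.unusedSectionVars false

section ind

variable {ι : Type} [Fintype ι] [DecidableEq ι]

theorem ind_mono {S T : Finset ι} {F : (ι → E) → ℝ} (h : S ⊆ T) (hF : IndS T F) : IndS S F :=
  fun X Y hXY => hF X Y fun i hi => hXY i fun his => hi (h his)

theorem ind_mul {S : Finset ι} {F G : (ι → E) → ℝ} (hF : IndS S F) (hG : IndS S G) :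
    IndS S (fun X => F X * G X) := fun X Y h => by
  show F X * G X = F Y * G Y
  rw [hF X Y h, hG X Y h]

theorem ind_sub {S : Finset ι} {F G : (ι → E) → ℝ} (hF : IndS S F) (hG : IndS S G) :
    IndS S (fun X => F X - G X) := fun X Y h => by
  show F X - G X = F Y - G Y
  rw [hF X Y h, hG X Y h]

theorem ind_sq {S : Finset ι} {F : (ι → E) → ℝ} (hF : IndS S F) :
    IndS S (fun X => F X ^ 2) := fun X Y h => by
  show F X ^ 2 = F Y ^ 2
  rw [hF X Y h]

theorem ind_pair (K : E → E → ℝ) {S : Finset ι} {i j : ι} (hi : i ∉ S) (hj : j ∉ S) :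
    IndS S (fun X => K (X i) (X j)) := fun X Y h => by
  show K (X i) (X j) = K (Y i) (Y j)
  rw [h i hi, h j hj]

theorem bm_pair (hBMC : Pool.Agent.TBL.Stmt_BMC) (K : E → E → ℝ) (hK : BM2 K) (i j : ι) :
    BM (fun X : ι → E => K (X i) (X j)) := by
  have hm : Measurable (fun X : ι → E => ((X i, X j) : E × E)) := by fun_prop
  exact hBMC.2.2.2.1 _ _ (fun p : E × E => K p.1 p.2) (fun X : ι → E => ((X i, X j) : E × E)) hK hm

end ind

end E2P_

open E2P_ in
theorem e2p_proof (hBMC : Pool.Agent.TBL.Stmt_BMC) (hMSY : Stmt_MSY) (hPSF : Stmt_PSF)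
    (hAVP : Stmt_AVP) (_hAVI : Stmt_AVI) (hVTP : Stmt_VTP) (hKBD : Stmt_KBD) (hONE : Stmt_ONE) :
    Stmt_E2P := by
  intro C b
  obtain ⟨CK, hCK, hK⟩ := hKBD C b
  refine ⟨CK + CK ^ 2, by positivity, ?_⟩
  intro ι _ _ p β θ g P u hs ht hu a ha i j k hij hik hjk
  obtain ⟨hl1, hfin, -, -, hQbm, hQbc, hprob, -, -, -, -, -⟩ := hMSY C p β θ hs
  have := hfin
  have := hprob a
  obtain ⟨K2b, -, K2s, -, K2sp, -, K2z, -, K2l, -, -, K2q, -⟩ := hK p β θ g P hs ht a
  have hl0 : 0 < p.l := by linarith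
  have hR0 : 0 < p.R := by linarith [hs.hR]
  -- algebra of bounded measurable functions
  have bmul : ∀ {F G : (ι → E) → ℝ}, BM F → BM G → BM (fun X => F X * G X) :=
    fun {F G} hF hG => (hBMC.1 (ι → E) F G hF hG).2.2.1
  have bsub : ∀ {F G : (ι → E) → ℝ}, BM F → BM G → BM (fun X => F X - G X) :=
    fun {F G} hF hG => (hBMC.1 (ι → E) F G hF hG).2.1
  have badd : ∀ {F G : (ι → E) → ℝ}, BM F → BM G → BM (fun X => F X + G X) :=
    fun {F G} hF hG => (hBMC.1 (ι → E) F G hF hG).1
  have bsq : ∀ {F : (ι → E) → ℝ}, BM F → BM (fun X => F X ^ 2) :=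
    fun {F} hF => (hBMC.1 (ι → E) F F hF hF).2.2.2.1
  have babs : ∀ {F : (ι → E) → ℝ}, BM F → BM (fun X => |F X|) :=
    fun {F} hF => (hBMC.1 (ι → E) F F hF hF).2.2.2.2.1
  have bcm : ∀ {F : (ι → E) → ℝ} (c : ℝ), BM F → BM (fun X => c * F X) :=
    fun {F} c hF => (hBMC.1 (ι → E) F F hF hF).2.2.2.2.2.1 c
  have hμfin : ∀ S : Finset ι, IsFiniteMeasure (PiS (tm (θ a)) (mO p.L) S) := fun S =>
    (hPSF ι (tm (θ a)) (mO p.L) S).1
  have bint : ∀ {F : (ι → E) → ℝ} (S : Finset ι), BM F → Integrable F (PiS (tm (θ a)) (mO p.L) S) :=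
    fun {F} S hF => by
      have := hμfin S
      exact (hBMC.1 (ι → E) F F hF hF).2.2.2.2.2.2 _
  have hcm : ∀ (S : Finset ι) (c : ℝ) (F : (ι → E) → ℝ),
      IA p θ a S (fun X => c * F X) = c * IA p θ a S F := fun S c F => integral_const_mul c F
  -- the integral over the box
  have hQO : ∀ x, x ∈ Qb a (2 * p.l) → x ∈ Om p.L := fun x hx =>
    hs.inb a ha (hQbc a (2 * p.l) (by linarith) hx)
  have hvol : ∀ f : E → ℝ, (∀ x, x ∉ Qb a (2 * p.l) → f x = 0) → ∫ x, f x ∂(mO p.L) = ∫ x, f x := by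
    intro f hf
    unfold mO
    exact setIntegral_eq_integral_of_forall_compl_eq_zero fun x hx => hf x fun hq => hx (hQO x hq)
  have K0 : ∀ x y, y ∉ Qb a (2 * p.l) → K2 θ P a x y = 0 := fun x y hy => by
    by_contra h
    exact hy (K2sp x y h).2
  have K0' : ∀ x y, x ∉ Qb a (2 * p.l) → K2 θ P a x y = 0 := fun x y hx => by
    by_contra h
    exact hx (K2sp x y h).1
  have bK : ∀ i j : ι, BM (fun X : ι → E => K2 θ P a (X i) (X j)) := bm_pair hBMC _ K2b
  have hone := hONE C ι p β θ hs a ha
  have bicj : ∀ j' : ι, BM (fun X : ι → E => ic (Qb a (2 * p.l)) (X j')) := by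
    intro j'
    have hm : Measurable (ic (Qb a (2 * p.l))) :=
      measurable_const.indicator (hQbm a (2 * p.l)).1
    refine ⟨hm.comp (measurable_pi_apply j'), 1, fun X => ?_⟩
    show |(Qb a (2 * p.l)).indicator (fun _ => (1 : ℝ)) (X j')| ≤ 1
    by_cases hx : X j' ∈ Qb a (2 * p.l)
    · rw [Set.indicator_of_mem hx]
      norm_num
    · rw [Set.indicator_of_notMem hx]
      norm_num
  -- two integrations
  have stepd : ∀ i j k j' : ι, i ≠ j → i ≠ k → j ≠ k → j' ≠ i → j' ≠ j → j' ≠ k →
      ∀ w0 : (ι → E) → ℝ, BM w0 → (∀ X, 0 ≤ w0 X) → IndS {i, j, k} w0 →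
      IA p θ a {k} (fun X => |K2 θ P a (X i) (X j)| * (|K2 θ P a (X i) (X j')| * w0 X)) ≤
        (CK / p.l ^ 3) ^ 2 * IA p θ a {i, j, k} (fun X => ic (Qb a (2 * p.l)) (X j') * w0 X) := by
    intro i j k j' hij hik hjk hj'i hj'j hj'k w0 hw0 hw0n hw0i
    have bic : BM (fun X : ι → E => ic (Qb a (2 * p.l)) (X j')) := bicj j'
    have h1 := (hone {k} j (fun X => |K2 θ P a (X i) (X j)|) (fun X => |K2 θ P a (X i) (X j')| * w0 X)
      (by simpa using hjk) (babs (bK i j)) (bmul (babs (bK i j')) hw0)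
      (ind_mul (ind_pair (fun x y => |K2 θ P a x y|) (by simpa using hij) (by simpa using hj'j))
        (ind_mono (by intro x hx; simp at hx; simp [hx]) hw0i))).2.2
      (fun _ => CK / p.l ^ 3) (hBMC.2.1 _ _) (fun X => mul_nonneg (abs_nonneg _) (hw0n X)) (fun X => by
        simp only [Function.update_self, Function.update_of_ne hij]
        rw [hvol (fun x => |K2 θ P a (X i) x|) (fun x hx => by simp only [K0 _ x hx, abs_zero])]
        exact K2l (X i))
    refine h1.trans ?_
    rw [hcm]
    have h2 := (hone (insert j {k}) i (fun X => |K2 θ P a (X i) (X j')|) w0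
      (by simp [hij, hik]) (babs (bK i j')) hw0
      (ind_mono (by intro x hx; simp at hx; simp [hx]) hw0i)).2.2
      (fun X => CK / p.l ^ 3 * ic (Qb a (2 * p.l)) (X j')) (bcm _ bic) hw0n (fun X => by
        simp only [Function.update_self, Function.update_of_ne hj'i]
        rw [hvol (fun x => |K2 θ P a x (X j')|) (fun x hx => by simp only [K0' x _ hx, abs_zero])]
        by_cases hx : X j' ∈ Qb a (2 * p.l)
        · have e : ic (Qb a (2 * p.l)) (X j') = 1 := Set.indicator_of_mem hx _
          rw [e, mul_one]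
          simp only [K2s _ (X j')]
          exact K2l (X j')
        · have e : ic (Qb a (2 * p.l)) (X j') = 0 := Set.indicator_of_notMem hx _
          rw [e, mul_zero]
          simp only [K0 _ _ hx, abs_zero, integral_zero, le_refl])
    have h3 : IA p θ a (insert i (insert j {k})) (fun X => CK / p.l ^ 3 * ic (Qb a (2 * p.l)) (X j') * w0 X) =
        CK / p.l ^ 3 * IA p θ a {i, j, k} (fun X => ic (Qb a (2 * p.l)) (X j') * w0 X) := by
      rw [← hcm]
      congr 1
      funext X
      ring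
    rw [h3] at h2
    have h4 := mul_le_mul_of_nonneg_left h2 (show 0 ≤ CK / p.l ^ 3 by positivity)
    refine h4.trans (le_of_eq ?_)
    ring
  have bv : ∀ S : Finset ι, BM (vt p a S) := fun S => (hVTP ι C p β θ hs a S).1
  have iv : ∀ S : Finset ι, IndS S (vt p a S) := fun S => (hVTP ι C p β θ hs a S).2.1
  have v01 : ∀ (S : Finset ι) X, vt p a S X = 0 ∨ vt p a S X = 1 := fun S X =>
    ((hVTP ι C p β θ hs a S).2.2.1 X).1
  have v0 : ∀ (S : Finset ι) X, 0 ≤ vt p a S X := fun S X => by
    rcases v01 S X with h | h <;> rw [h] <;> norm_num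
  have v4 : ∀ (S : Finset ι) (j : ι) (X : ι → E), X j ∈ Qb a (2 * p.l) →
      vt p a S X = vt p a (insert j S) X := fun S j X hX => by
    have h := (hVTP ι C p β θ hs a S).2.2.2.1 {j} X (fun j' hj' _ => by
      rw [Finset.mem_singleton] at hj'
      rw [hj']
      exact hQbc a (2 * p.l) (by linarith) hX)
    rw [h, Finset.union_singleton]
  have bA : ∀ S : Finset ι, BM (Av (tm (θ a)) S u) := fun S => (hAVP ι (tm (θ a)) S ∅ u u hu hu).1
  have iA : ∀ S : Finset ι, IndS S (Av (tm (θ a)) S u) := fun S =>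
    (hAVP ι (tm (θ a)) S ∅ u u hu hu).2.1
  refine ⟨?_, ?_⟩
  · -- part 1
    have bAm : BM (Am p θ u a {i, j, k}) := bmul (bv _) (bA _)
    have iAm : IndS {i, j, k} (Am p θ u a {i, j, k}) := ind_mul (iv _) (iA _)
    have bF0 : BM (fun X : ι → E => K2 θ P a (X i) (X j) ^ 2) := bsq (bK i j)
    have bw : BM (fun X : ι → E => Am p θ u a {i, j, k} X ^ 2) := bsq bAm
    have iw : IndS {i, j, k} (fun X : ι → E => Am p θ u a {i, j, k} X ^ 2) := ind_sq iAm
    have e0 : IA p θ a {k} (fun X => (K2 θ P a (X i) (X j) * Am p θ u a {i, j, k} X) ^ 2) =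
        IA p θ a {k} (fun X => K2 θ P a (X i) (X j) ^ 2 * Am p θ u a {i, j, k} X ^ 2) := by
      congr 1
      funext X
      ring
    have h1 := (hone {k} j (fun X => K2 θ P a (X i) (X j) ^ 2) (fun X => Am p θ u a {i, j, k} X ^ 2)
      (by simpa using hjk) bF0 bw (ind_mono (by intro x hx; simp at hx; simp [hx]) iw)).1
    have bF1 := ((hPSF ι (tm (θ a)) (mO p.L) {k}).2 _ bF0).2.2.1 j (by simpa using hjk)
    have h2 := (hone (insert j {k}) i
      (fun X => ∫ x, K2 θ P a (Function.update X j x i) (Function.update X j x j) ^ 2 ∂(mO p.L))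
      (fun X => Am p θ u a {i, j, k} X ^ 2) (by simp [hij, hik]) bF1 bw
      (ind_mono (by intro x hx; simp at hx; simp [hx]) iw)).2.2
      (fun _ => CK / (p.l ^ 3 * p.R ^ 3)) (hBMC.2.1 _ _) (fun X => sq_nonneg _) (fun X => by
        simp only [Function.update_self, Function.update_of_ne hij]
        have e1 : ∀ x, ∫ y, K2 θ P a x y ^ 2 ∂(mO p.L) = ∫ y, K2 θ P a x y ^ 2 := fun x =>
          hvol (fun y => K2 θ P a x y ^ 2) (fun y hy => by simp only [K0 x y hy]; norm_num)
        simp only [e1]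
        rw [hvol (fun x => ∫ y, K2 θ P a x y ^ 2) (fun x hx => by
          simp only [K0' x _ hx]
          simp)]
        exact K2q)
    rw [e0, h1]
    refine h2.trans ?_
    rw [hcm]
    refine mul_le_mul_of_nonneg_right ?_ (integral_nonneg fun X => sq_nonneg _)
    refine div_le_div_of_nonneg_right ?_ (by positivity)
    nlinarith [sq_nonneg CK]
  · intro j' hj'i hj'j hj'k
    have hT : insert j ({i, j', k} : Finset ι) = insert j' {i, j, k} := by
      ext x
      simp only [Finset.mem_insert, Finset.mem_singleton]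
      tauto
    set T : Finset ι := insert j' {i, j, k} with hTd
    have sS : ({i, j, k} : Finset ι) ⊆ T := Finset.subset_insert _ _
    have sS' : ({i, j', k} : Finset ι) ⊆ T := by
      rw [← hT]
      exact Finset.subset_insert _ _
    set A := Av (tm (θ a)) {i, j, k} u with hA
    set A' := Av (tm (θ a)) {i, j', k} u with hA'
    set B := Av (tm (θ a)) T u with hB
    have e1 : ∀ X : ι → E, (K2 θ P a (X i) (X j) * Am p θ u a {i, j, k} X) *
        (K2 θ P a (X i) (X j') * Am p θ u a {i, j', k} X) =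
        K2 θ P a (X i) (X j) * (K2 θ P a (X i) (X j') * (vt p a T X * (A X * A' X))) := by
      intro X
      by_cases q1 : K2 θ P a (X i) (X j) = 0
      · simp [q1]
      by_cases q2 : K2 θ P a (X i) (X j') = 0
      · simp [q2]
      have x1 := (K2sp _ _ q1).2
      have x2 := (K2sp _ _ q2).2
      unfold Am
      rw [v4 {i, j, k} j' X x2, v4 {i, j', k} j X x1, hT, ← hTd]
      rcases v01 T X with h | h <;> rw [h] <;> ring
    have bAA : BM A := bA _
    have bAA' : BM A' := bA _
    have bBB : BM B := bA _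
    have iAA : IndS {i, j, k} A := iA _
    have iAA' : IndS {i, j', k} A' := iA _
    have iBB : IndS T B := iA _
    have m1 : ∀ {S : Finset ι} {x : ι}, x ∈ S → ({x} : Finset ι) ⊆ S := fun h => by
      intro y hy
      rw [Finset.mem_singleton] at hy
      rw [hy]
      exact h
    have z1 : IA p θ a {k} (fun X => K2 θ P a (X i) (X j) *
        (K2 θ P a (X i) (X j') * (vt p a T X * (A X * B X)))) = 0 := by
      refine (hone {k} j (fun X => K2 θ P a (X i) (X j))
        (fun X => K2 θ P a (X i) (X j') * (vt p a T X * (A X * B X)))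
        (by simpa using hjk) (bK i j) (bmul (bK i j') (bmul (bv T) (bmul bAA bBB))) ?_).2.1 ?_
      · refine ind_mul (ind_pair _ (by simpa using hij) (by simpa using hj'j)) (ind_mul ?_ (ind_mul ?_ ?_))
        · exact ind_mono (m1 (sS (by simp))) (iv T)
        · exact ind_mono (m1 (by simp)) iAA
        · exact ind_mono (m1 (sS (by simp))) iBB
      · intro X
        simp only [Function.update_self, Function.update_of_ne hij]
        rw [hvol (fun x => K2 θ P a (X i) x) (fun x hx => K0 _ x hx)]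
        exact K2z (X i)
    have z2 : IA p θ a {k} (fun X => K2 θ P a (X i) (X j') *
        (K2 θ P a (X i) (X j) * (vt p a T X * (B X * (A' X - B X))))) = 0 := by
      refine (hone {k} j' (fun X => K2 θ P a (X i) (X j'))
        (fun X => K2 θ P a (X i) (X j) * (vt p a T X * (B X * (A' X - B X))))
        (by simpa using hj'k) (bK i j') (bmul (bK i j) (bmul (bv T) (bmul bBB (bsub bAA' bBB)))) ?_).2.1 ?_
      · refine ind_mul (ind_pair _ (by simpa using hj'i.symm) (by simpa using hj'j.symm))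
          (ind_mul ?_ (ind_mul ?_ (ind_sub ?_ ?_)))
        · exact ind_mono (m1 (Finset.mem_insert_self _ _)) (iv T)
        · exact ind_mono (m1 (Finset.mem_insert_self _ _)) iBB
        · exact ind_mono (m1 (by simp)) iAA'
        · exact ind_mono (m1 (Finset.mem_insert_self _ _)) iBB
      · intro X
        simp only [Function.update_self, Function.update_of_ne hj'i.symm]
        rw [hvol (fun x => K2 θ P a (X i) x) (fun x hx => K0 _ x hx)]
        exact K2z (X i)
    set D : (ι → E) → ℝ := fun X => A X - B X with hD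
    set D' : (ι → E) → ℝ := fun X => A' X - B X with hD'
    have bD : BM D := bsub bAA bBB
    have bD' : BM D' := bsub bAA' bBB
    have b1 : BM (fun X => K2 θ P a (X i) (X j) * (K2 θ P a (X i) (X j') * (vt p a T X * (D X * D' X)))) :=
      bmul (bK i j) (bmul (bK i j') (bmul (bv T) (bmul bD bD')))
    have b2 : BM (fun X => K2 θ P a (X i) (X j) * (K2 θ P a (X i) (X j') * (vt p a T X * (A X * B X)))) :=
      bmul (bK i j) (bmul (bK i j') (bmul (bv T) (bmul bAA bBB)))
    have b3 : BM (fun X => K2 θ P a (X i) (X j') * (K2 θ P a (X i) (X j) *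
        (vt p a T X * (B X * (A' X - B X))))) :=
      bmul (bK i j') (bmul (bK i j) (bmul (bv T) (bmul bBB (bsub bAA' bBB))))
    have e2 : IA p θ a {k} (fun X => (K2 θ P a (X i) (X j) * Am p θ u a {i, j, k} X) *
        (K2 θ P a (X i) (X j') * Am p θ u a {i, j', k} X)) =
        IA p θ a {k} (fun X => K2 θ P a (X i) (X j) *
          (K2 θ P a (X i) (X j') * (vt p a T X * (D X * D' X)))) := by
      have e3 : (fun X => (K2 θ P a (X i) (X j) * Am p θ u a {i, j, k} X) *
        (K2 θ P a (X i) (X j') * Am p θ u a {i, j', k} X)) = fun X =>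
          (K2 θ P a (X i) (X j) * (K2 θ P a (X i) (X j') * (vt p a T X * (D X * D' X))) +
          K2 θ P a (X i) (X j) * (K2 θ P a (X i) (X j') * (vt p a T X * (A X * B X)))) +
          K2 θ P a (X i) (X j') * (K2 θ P a (X i) (X j) * (vt p a T X * (B X * (A' X - B X)))) := by
        funext X
        rw [e1 X]
        simp only [hD, hD']
        ring
      rw [e3]
      unfold IA at z1 z2 ⊢
      rw [integral_add (bint {k} (badd b1 b2)) (bint {k} b3), integral_add (bint {k} b1) (bint {k} b2),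
        z1, z2]
      ring
    rw [e2]
    have b4 : BM (fun X => |K2 θ P a (X i) (X j)| * (|K2 θ P a (X i) (X j')| * (vt p a T X * D X ^ 2))) :=
      bmul (babs (bK i j)) (bmul (babs (bK i j')) (bmul (bv T) (bsq bD)))
    have b5 : BM (fun X => |K2 θ P a (X i) (X j')| * (|K2 θ P a (X i) (X j)| * (vt p a T X * D' X ^ 2))) :=
      bmul (babs (bK i j')) (bmul (babs (bK i j)) (bmul (bv T) (bsq bD')))
    have h1 : IA p θ a {k} (fun X => K2 θ P a (X i) (X j) *
          (K2 θ P a (X i) (X j') * (vt p a T X * (D X * D' X)))) ≤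
        1 / 2 * IA p θ a {k} (fun X => |K2 θ P a (X i) (X j)| *
          (|K2 θ P a (X i) (X j')| * (vt p a T X * D X ^ 2))) +
        1 / 2 * IA p θ a {k} (fun X => |K2 θ P a (X i) (X j')| *
          (|K2 θ P a (X i) (X j)| * (vt p a T X * D' X ^ 2))) := by
      unfold IA
      rw [← integral_const_mul, ← integral_const_mul, ← integral_add (bint {k} (bcm _ b4)) (bint {k} (bcm _ b5))]
      refine integral_mono (bint {k} b1) ((bint {k} (bcm _ b4)).add (bint {k} (bcm _ b5))) fun X => ?_
      show K2 θ P a (X i) (X j) * (K2 θ P a (X i) (X j') * (vt p a T X * (D X * D' X))) ≤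
        1 / 2 * (|K2 θ P a (X i) (X j)| * (|K2 θ P a (X i) (X j')| * (vt p a T X * D X ^ 2))) +
        1 / 2 * (|K2 θ P a (X i) (X j')| * (|K2 θ P a (X i) (X j)| * (vt p a T X * D' X ^ 2)))
      have hv := v0 T X
      have q0 : 0 ≤ |K2 θ P a (X i) (X j)| * |K2 θ P a (X i) (X j')| * vt p a T X := by positivity
      have q1 : K2 θ P a (X i) (X j) * (K2 θ P a (X i) (X j') * (vt p a T X * (D X * D' X))) ≤
          |K2 θ P a (X i) (X j)| * |K2 θ P a (X i) (X j')| * vt p a T X * |D X * D' X| := by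
        refine (le_abs_self _).trans (le_of_eq ?_)
        rw [abs_mul, abs_mul, abs_mul, abs_of_nonneg hv]
        ring
      have q2 : |D X * D' X| ≤ 1 / 2 * D X ^ 2 + 1 / 2 * D' X ^ 2 := by
        rw [abs_le]
        constructor
        · nlinarith [sq_nonneg (D X + D' X)]
        · nlinarith [sq_nonneg (D X - D' X)]
      have q3 := mul_le_mul_of_nonneg_left q2 q0
      refine q1.trans (q3.trans (le_of_eq ?_))
      ring
    have s1 := stepd i j k j' hij hik hjk hj'i hj'j hj'k (fun X => vt p a T X * D X ^ 2)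
      (bmul (bv T) (bsq bD)) (fun X => mul_nonneg (v0 T X) (sq_nonneg _))
      (ind_mul (ind_mono sS (iv T)) (ind_sq (ind_sub iAA (ind_mono sS iBB))))
    have s2 := stepd i j' k j hj'i.symm hik hj'k hij.symm hj'j.symm hjk (fun X => vt p a T X * D' X ^ 2)
      (bmul (bv T) (bsq bD')) (fun X => mul_nonneg (v0 T X) (sq_nonneg _))
      (ind_mul (ind_mono sS' (iv T)) (ind_sq (ind_sub iAA' (ind_mono sS' iBB))))
    have r1 : IA p θ a {i, j, k} (fun X => ic (Qb a (2 * p.l)) (X j') * (vt p a T X * D X ^ 2)) =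
        rg p θ u a {i, j, k} j' := by
      unfold rg
      congr 1
      funext X
      by_cases hx : X j' ∈ Qb a (2 * p.l)
      · rw [v4 {i, j, k} j' X hx]
        simp only [hD]
        ring
      · have e : ic (Qb a (2 * p.l)) (X j') = 0 := Set.indicator_of_notMem hx _
        rw [e]
        ring
    have r2 : IA p θ a {i, j', k} (fun X => ic (Qb a (2 * p.l)) (X j) * (vt p a T X * D' X ^ 2)) =
        rg p θ u a {i, j', k} j := by
      unfold rg
      rw [hT]
      congr 1
      funext X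
      by_cases hx : X j ∈ Qb a (2 * p.l)
      · rw [v4 {i, j', k} j X hx, hT]
        simp only [hD']
        ring
      · have e : ic (Qb a (2 * p.l)) (X j) = 0 := Set.indicator_of_notMem hx _
        rw [e]
        ring
    rw [r1] at s1
    rw [r2] at s2
    have n1 : 0 ≤ rg p θ u a {i, j, k} j' := by
      rw [← r1]
      refine integral_nonneg fun X => mul_nonneg ?_ (mul_nonneg (v0 T X) (sq_nonneg _))
      exact Set.indicator_nonneg (fun _ _ => zero_le_one) _
    have n2 : 0 ≤ rg p θ u a {i, j', k} j := by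
      rw [← r2]
      refine integral_nonneg fun X => mul_nonneg ?_ (mul_nonneg (v0 T X) (sq_nonneg _))
      exact Set.indicator_nonneg (fun _ _ => zero_le_one) _
    have f1 : (CK + CK ^ 2) / p.l ^ 6 * (rg p θ u a {i, j, k} j' + rg p θ u a {i, j', k} j) -
        (1 / 2 * ((CK / p.l ^ 3) ^ 2 * rg p θ u a {i, j, k} j') +
        1 / 2 * ((CK / p.l ^ 3) ^ 2 * rg p θ u a {i, j', k} j)) =
        (CK + CK ^ 2 / 2) / p.l ^ 6 * (rg p θ u a {i, j, k} j' + rg p θ u a {i, j', k} j) := by
      field_simp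
      ring
    have f2 : 0 ≤ (CK + CK ^ 2 / 2) / p.l ^ 6 * (rg p θ u a {i, j, k} j' + rg p θ u a {i, j', k} j) := by
      positivity
    linarith

end Pool.Agent.TBS
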