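import Pool.Agent.TBS.StmtsB

set_option autoImplicit false

open MeasureTheory Filter Topology
open scoped ContDiff

namespace Pool.Agent.TBS

open Pool.Agent.TBG Pool.Agent.TBL Pool.Agent.TBF

namespace E3A_

variable {ι : Type} [Fintype ι] [DecidableEq ι]

theorem IO_eq_IA (p : Par) (θ : E → E → ℝ) (a : E) (F : (ι → E) → ℝ) : IO p F = IA p θ a ∅ F := by
  simp [IO, IA, PiS]

theorem ic_cases (Q : Set E) (x : E) : (x ∈ Q ∧ ic Q x = 1) ∨ (x ∉ Q ∧ ic Q x = 0) := by
  by_cases h : x ∈ Q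
  · exact Or.inl ⟨h, by simp [ic, h]⟩
  · exact Or.inr ⟨h, by simp [ic, h]⟩

theorem BM_ic {Q : Set E} (hQ : MeasurableSet Q) (i : ι) : BM (fun X : ι → E => ic Q (X i)) := by
  refine ⟨?_, 1, fun X => ?_⟩
  · unfold ic
    exact (measurable_const.indicator hQ).comp (measurable_pi_apply i)
  · change |ic Q (X i)| ≤ 1
    rcases ic_cases Q (X i) with h | h
    · rw [h.2]; simp
    · rw [h.2]; simp

/-- Cauchy-Schwarz -/
theorem cs {α Z : Type} [MeasurableSpace Z] (hb : Stmt_BMC) (μ : Measure Z) [IsFiniteMeasure μ]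
    (s : Finset α) (D W : α → Z → ℝ) (hD : ∀ k ∈ s, BM (D k)) (hW : ∀ k ∈ s, BM (W k)) :
    (∑ k ∈ s, ∫ X, D k X * W k X ∂μ) ^ 2 ≤
      (∑ k ∈ s, ∫ X, D k X ^ 2 ∂μ) * ∑ k ∈ s, ∫ X, W k X ^ 2 ∂μ := by
  have h : ∀ t : ℝ, 0 ≤ (∑ k ∈ s, ∫ X, D k X ^ 2 ∂μ) * (t * t) +
      (2 * ∑ k ∈ s, ∫ X, D k X * W k X ∂μ) * t + ∑ k ∈ s, ∫ X, W k X ^ 2 ∂μ := by
    intro t
    have h1 : ∑ k ∈ s, ∫ X, (t * D k X + W k X) ^ 2 ∂μ = (∑ k ∈ s, ∫ X, D k X ^ 2 ∂μ) * (t * t) +
        (2 * ∑ k ∈ s, ∫ X, D k X * W k X ∂μ) * t + ∑ k ∈ s, ∫ X, W k X ^ 2 ∂μ := by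
      rw [Finset.sum_mul, Finset.mul_sum, Finset.sum_mul, ← Finset.sum_add_distrib,
        ← Finset.sum_add_distrib]
      refine Finset.sum_congr rfl fun k hk => ?_
      have i1 : Integrable (fun X => D k X ^ 2) μ :=
        (hb.1 Z _ _ (hb.1 Z _ _ (hD k hk) (hD k hk)).2.2.2.1 (hD k hk)).2.2.2.2.2.2 μ
      have i2 : Integrable (fun X => W k X ^ 2) μ :=
        (hb.1 Z _ _ (hb.1 Z _ _ (hW k hk) (hW k hk)).2.2.2.1 (hD k hk)).2.2.2.2.2.2 μ
      have i3 : Integrable (fun X => D k X * W k X) μ :=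
        (hb.1 Z _ _ (hb.1 Z _ _ (hD k hk) (hW k hk)).2.2.1 (hD k hk)).2.2.2.2.2.2 μ
      have e : (fun X => (t * D k X + W k X) ^ 2) =
          fun X => (t * t * D k X ^ 2 + 2 * t * (D k X * W k X)) + W k X ^ 2 := by
        funext X; ring
      have a1 : ∫ X, ((t * t * D k X ^ 2 + 2 * t * (D k X * W k X)) + W k X ^ 2) ∂μ =
          (∫ X, (t * t * D k X ^ 2 + 2 * t * (D k X * W k X)) ∂μ) + ∫ X, W k X ^ 2 ∂μ :=
        integral_add ((i1.const_mul (t * t)).add (i3.const_mul (2 * t))) i2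
      have a2 : ∫ X, (t * t * D k X ^ 2 + 2 * t * (D k X * W k X)) ∂μ =
          (∫ X, t * t * D k X ^ 2 ∂μ) + ∫ X, 2 * t * (D k X * W k X) ∂μ :=
        integral_add (i1.const_mul (t * t)) (i3.const_mul (2 * t))
      rw [e, a1, a2, integral_const_mul, integral_const_mul]
      ring
    rw [← h1]
    exact Finset.sum_nonneg fun k _ => integral_nonneg fun X => sq_nonneg _
  have h2 := discrim_le_zero h
  unfold discrim at h2
  nlinarith [h2]

end E3A_

open E3A_

theorem e3a_proof (hb : Stmt_BMC) (hM : Stmt_MSY) (hF : Stmt_PSF) (hA : Stmt_AVP) (_hI : Stmt_AVI)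
    (hV : Stmt_VTP) (hT : Stmt_TUP) (hK : Stmt_KBD) (hO : Stmt_ONE) : Stmt_E3A := by
  intro C b
  obtain ⟨C₁, -, hK⟩ := hK C b
  refine ⟨1, one_pos, ?_⟩
  intro ι _ _ p β θ g P u hs ht hu
  obtain ⟨hl, hfin, hOm, hQc, hQb, hQbc, htm, -, -, hint, -, -⟩ := hM C p β θ hs
  obtain ⟨-, -, -, -, -, -, hsum⟩ := hT ι
  have : IsFiniteMeasure (mO p.L) := hfin
  have hl0 : 0 < p.l := lt_of_lt_of_le one_pos hl
  -- finite measure
  have hfin2 : IsFiniteMeasure (PiS (mO p.L) (mO p.L) (∅ : Finset ι)) := by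
    have := htm 0
    have h := (hF ι (tm (θ 0)) (mO p.L) ∅).1
    have e : PiS (tm (θ 0)) (mO p.L) (∅ : Finset ι) = PiS (mO p.L) (mO p.L) (∅ : Finset ι) := by
      simp [PiS]
    rwa [e] at h
  -- basic facts
  have hmap : ∀ e : Fin 3 → ι, Measurable (fun X : ι → E => (X (e 0), X (e 1), X (e 2))) := fun e =>
    (measurable_pi_apply _).prodMk ((measurable_pi_apply _).prodMk (measurable_pi_apply _))
  have hK3 : ∀ (a : E) (e : Fin 3 → ι), BM (fun X : ι → E => K3 θ P a (X (e 0)) (X (e 1)) (X (e 2))) := by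
    intro a e
    obtain ⟨-, h3, -⟩ := hK p β θ g P hs ht a
    exact hb.2.2.2.1 _ _ _ _ h3 (hmap e)
  have hAv : ∀ (a : E) (S : Finset ι), BM (Av (tm (θ a)) S u) ∧ IndS S (Av (tm (θ a)) S u) := by
    intro a S
    have := htm a
    have h := hA ι (tm (θ a)) S ∅ u u hu hu
    exact ⟨h.1, h.2.1⟩
  have hAm : ∀ (a : E) (S : Finset ι), BM (Am p θ u a S) ∧ IndS S (Am p θ u a S) := by
    intro a S
    have h := hV ι C p β θ hs a S
    refine ⟨(hb.1 _ _ _ h.1 (hAv a S).1).2.2.1, ?_⟩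
    intro X Y hXY
    unfold Am
    rw [h.2.1 X Y hXY, (hAv a S).2 X Y hXY]
  have hW3 : ∀ (a : E) (i : ι), BM (W3 p θ P u a i) := by
    intro a i
    unfold W3
    exact hb.2.2.1 _ _ _ _ fun e _ => (hb.1 _ _ _ (hK3 a e) (hAm a (im e)).1).2.2.1
  have hdu : ∀ (a : E) (i : ι), BM (fun X => u X - Av (tm (θ a)) {i} u X) := fun a i =>
    (hb.1 _ _ _ hu (hAv a {i}).1).2.1
  -- the centred kernel
  have hcen : ∀ a ∈ p.Gr, ∀ e ∈ Ij 3 ι, ∀ X : ι → E,
      ∫ x, K3 θ P a ((Function.update X (e 0) x) (e 0)) ((Function.update X (e 0) x) (e 1))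
        ((Function.update X (e 0) x) (e 2)) ∂(mO p.L) = 0 := by
    intro a ha e he X
    have hinj : Function.Injective e := by
      simpa [Ij] using he
    have h1 : e 1 ≠ e 0 := fun h => by have := hinj h; simp at this
    have h2 : e 2 ≠ e 0 := fun h => by have := hinj h; simp at this
    simp only [Function.update_self, Function.update_of_ne h1, Function.update_of_ne h2]
    obtain ⟨-, -, -, hsy, -, hsp, -, h0, -⟩ := hK p β θ g P hs ht a
    have e1 : ∀ x, K3 θ P a x (X (e 1)) (X (e 2)) =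
        ic (Qb a (2 * p.l)) x * K3 θ P a x (X (e 1)) (X (e 2)) := by
      intro x
      rcases ic_cases (Qb a (2 * p.l)) x with h | h
      · rw [h.2, one_mul]
      · rw [h.2, zero_mul]
        by_contra hne
        exact h.1 (hsp _ _ _ hne).1
    have e2 : ∫ x, K3 θ P a x (X (e 1)) (X (e 2)) ∂(mO p.L) =
        ∫ x in Qb a (2 * p.l), K3 θ P a x (X (e 1)) (X (e 2)) := by
      rw [← hint a ha (2 * p.l) _ (by linarith)]
      exact integral_congr_ae (Filter.Eventually.of_forall e1)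
    rw [e2, setIntegral_eq_integral_of_forall_compl_eq_zero (fun x hx => by
      by_contra hne
      exact hx (hsp _ _ _ hne).1)]
    have e3 : ∀ x, K3 θ P a x (X (e 1)) (X (e 2)) = K3 θ P a (X (e 1)) (X (e 2)) x := by
      intro x
      rw [hsy.s1, hsy.s2]
    simp only [e3]
    exact h0 _ _
  -- first step
  have step1 : T3 p θ P u = ∑ a ∈ p.Gr, ∑ i, IO p (fun X => (u X - Av (tm (θ a)) {i} u X) *
      W3 p θ P u a i X) := by
    unfold T3
    refine Finset.sum_congr rfl fun a ha => ?_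
    rw [← hsum 2 (fun e => IO p (fun X => K3 θ P a (X (e 0)) (X (e 1)) (X (e 2)) *
      (u X * Am p θ u a (im e) X)))]
    refine Finset.sum_congr rfl fun i _ => ?_
    have e0 : (fun X => (u X - Av (tm (θ a)) {i} u X) * W3 p θ P u a i X) = fun X : ι → E =>
        ∑ e ∈ (Ij 3 ι).filter (fun e => e 0 = i), (u X - Av (tm (θ a)) {i} u X) *
          (K3 θ P a (X (e 0)) (X (e 1)) (X (e 2)) * Am p θ u a (im e) X) := by
      funext X
      unfold W3
      rw [Finset.mul_sum]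
    have e0' : IO p (fun X => (u X - Av (tm (θ a)) {i} u X) * W3 p θ P u a i X) =
        ∑ e ∈ (Ij 3 ι).filter (fun e => e 0 = i), IO p (fun X : ι → E =>
          (u X - Av (tm (θ a)) {i} u X) *
          (K3 θ P a (X (e 0)) (X (e 1)) (X (e 2)) * Am p θ u a (im e) X)) := by
      rw [e0]
      unfold IO
      rw [integral_finsetSum]
      intro e _
      exact (hb.1 _ _ _ (hb.1 _ _ _ (hdu a i) (hb.1 _ _ _ (hK3 a e) (hAm a (im e)).1).2.2.1).2.2.1
        hu).2.2.2.2.2.2 _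
    rw [e0']
    have hfil : ∀ (s : Finset (Fin 3 → ι)) (F G : (Fin 3 → ι) → ℝ), (∀ e ∈ s, F e = G e) →
      ∑ e ∈ s, F e = ∑ e ∈ s, G e := fun s F G h => Finset.sum_congr rfl h
    have key : ∀ e ∈ Ij 3 ι, e 0 = i → IO p (fun X => K3 θ P a (X (e 0)) (X (e 1)) (X (e 2)) *
        (u X * Am p θ u a (im e) X)) = IO p (fun X : ι → E =>
          (u X - Av (tm (θ a)) {i} u X) *
          (K3 θ P a (X (e 0)) (X (e 1)) (X (e 2)) * Am p θ u a (im e) X)) := by
      intro e he hei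
      have hw : BM (fun X => Av (tm (θ a)) {i} u X * Am p θ u a (im e) X) :=
        (hb.1 _ _ _ (hAv a {i}).1 (hAm a (im e)).1).2.2.1
      have hiim : i ∈ im e := by
        rw [← hei]
        exact Finset.mem_image_of_mem _ (Finset.mem_univ _)
      have hind : IndS {i} (fun X => Av (tm (θ a)) {i} u X * Am p θ u a (im e) X) := by
        intro X Y hXY
        have h1 := (hAv a {i}).2 X Y hXY
        have h2 := (hAm a (im e)).2 X Y (fun j hj => hXY j (fun h => hj (by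
          rw [Finset.mem_singleton] at h
          rw [h]
          exact hiim)))
        simp only [h1, h2]
      have hz := (hO C ι p β θ hs a ha ∅ i (fun X => K3 θ P a (X (e 0)) (X (e 1)) (X (e 2)))
        (fun X => Av (tm (θ a)) {i} u X * Am p θ u a (im e) X) (Finset.notMem_empty _) (hK3 a e) hw
        hind).2.1 (by
          intro X
          have h9 := hcen a ha e he X
          simp only [hei] at h9 ⊢
          exact h9)
      rw [← IO_eq_IA] at hz
      have e4 : (fun X : ι → E => (u X - Av (tm (θ a)) {i} u X) *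
          (K3 θ P a (X (e 0)) (X (e 1)) (X (e 2)) * Am p θ u a (im e) X)) = fun X : ι → E =>
          K3 θ P a (X (e 0)) (X (e 1)) (X (e 2)) * (u X * Am p θ u a (im e) X) -
          K3 θ P a (X (e 0)) (X (e 1)) (X (e 2)) *
            (Av (tm (θ a)) {i} u X * Am p θ u a (im e) X) := by
        funext X; ring
      rw [e4]
      unfold IO at hz ⊢
      rw [integral_sub, hz, sub_zero]
      · exact (hb.1 _ _ _ (hb.1 _ _ _ (hK3 a e) (hb.1 _ _ _ hu (hAm a (im e)).1).2.2.1).2.2.1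
          hu).2.2.2.2.2.2 _
      · exact (hb.1 _ _ _ (hb.1 _ _ _ (hK3 a e) hw).2.2.1 hu).2.2.2.2.2.2 _
    simp only [Finset.sum_filter]
    refine Finset.sum_congr rfl fun e he => ?_
    by_cases hei : e 0 = i
    · rw [if_pos hei, if_pos hei]
      exact key e he hei
    · rw [if_neg hei, if_neg hei]
  -- second step
  have step2 : ∀ a (i : ι) (X : ι → E), W3 p θ P u a i X =
      vt p a {i} X * ic (Qb a (2 * p.l)) (X i) * W3 p θ P u a i X := by
    intro a i X
    unfold W3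
    rw [Finset.mul_sum]
    refine Finset.sum_congr rfl fun e he => ?_
    have hei : e 0 = i := (Finset.mem_filter.1 he).2
    by_cases hne : K3 θ P a (X (e 0)) (X (e 1)) (X (e 2)) = 0
    · rw [hne]; simp
    obtain ⟨-, -, -, hsy, -, hsp, -, h0, -⟩ := hK p β θ g P hs ht a
    obtain ⟨h0, h1, h2⟩ := hsp _ _ _ hne
    have hsub := hQbc a (2 * p.l) (by linarith)
    have hv := hV ι C p β θ hs a {i}
    have hvt : vt p a {i} X = vt p a (im e) X := by
      rw [hv.2.2.2.1 (im e) X (by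
        intro j hj _
        obtain ⟨s, -, hsj⟩ := Finset.mem_image.1 hj
        rw [← hsj]
        apply hsub
        fin_cases s
        · exact h0
        · exact h1
        · exact h2)]
      congr 1
      apply Finset.union_eq_right.2
      intro j hj
      rw [Finset.mem_singleton] at hj
      rw [hj, ← hei]
      exact Finset.mem_image_of_mem _ (Finset.mem_univ _)
    have hic : ic (Qb a (2 * p.l)) (X i) = 1 := by
      rw [← hei]
      rcases ic_cases (Qb a (2 * p.l)) (X (e 0)) with h | h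
      · exact h.2
      · exact absurd h0 h.1
    rw [hic, mul_one]
    unfold Am
    rw [hvt]
    rcases (hV ι C p β θ hs a (im e)).2.2.1 X |>.1 with h | h
    · rw [h]; ring
    · rw [h]; ring
  -- Cauchy-Schwarz
  rw [step1]
  have e5 : ∑ a ∈ p.Gr, ∑ i, IO p (fun X => (u X - Av (tm (θ a)) {i} u X) * W3 p θ P u a i X) =
      ∑ k ∈ p.Gr ×ˢ (Finset.univ : Finset ι), ∫ X, (vt p k.1 {k.2} X * ic (Qb k.1 (2 * p.l)) (X k.2) *
        (u X - Av (tm (θ k.1)) {k.2} u X)) * W3 p θ P u k.1 k.2 X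
        ∂(PiS (mO p.L) (mO p.L) (∅ : Finset ι)) := by
    rw [Finset.sum_product]
    refine Finset.sum_congr rfl fun a _ => Finset.sum_congr rfl fun i _ => ?_
    unfold IO
    refine integral_congr_ae (Filter.Eventually.of_forall fun X => ?_)
    simp only
    conv_lhs => rw [step2 a i X]
    ring
  rw [e5]
  have hDk : ∀ (a : E) (i : ι), BM (fun X : ι → E => vt p a {i} X * ic (Qb a (2 * p.l)) (X i) *
        (u X - Av (tm (θ a)) {i} u X)) := by
    intro a i
    exact (hb.1 _ _ _ (hb.1 _ _ _ (hV ι C p β θ hs a {i}).1 (BM_ic (hQb a (2 * p.l)).1 i)).2.2.1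
      (hdu a i)).2.2.1
  have hcs := cs hb (PiS (mO p.L) (mO p.L) (∅ : Finset ι)) (p.Gr ×ˢ (Finset.univ : Finset ι))
    (fun k X => vt p k.1 {k.2} X * ic (Qb k.1 (2 * p.l)) (X k.2) *
        (u X - Av (tm (θ k.1)) {k.2} u X)) (fun k X => W3 p θ P u k.1 k.2 X)
    (fun k _ => hDk k.1 k.2) (fun k _ => hW3 k.1 k.2)
  refine hcs.trans ?_
  have e6 : ∑ k ∈ p.Gr ×ˢ (Finset.univ : Finset ι), ∫ X, W3 p θ P u k.1 k.2 X ^ 2
      ∂(PiS (mO p.L) (mO p.L) (∅ : Finset ι)) =
      ∑ a ∈ p.Gr, ∑ i, IO p (fun X => W3 p θ P u a i X ^ 2) := by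
    rw [Finset.sum_product]
    rfl
  rw [e6, one_mul]
  have hnn : 0 ≤ ∑ a ∈ p.Gr, ∑ i, IO p (fun X => W3 p θ P u a i X ^ 2) :=
    Finset.sum_nonneg fun a _ => Finset.sum_nonneg fun i _ => integral_nonneg fun X => sq_nonneg _
  refine mul_le_mul_of_nonneg_right ?_ hnn
  unfold RW
  rw [Finset.sum_product]
  refine Finset.sum_le_sum fun a _ => Finset.sum_le_sum fun i _ => ?_
  unfold IO
  refine integral_mono ?_ ?_ ?_
  · exact (hb.1 _ _ _ (hb.1 _ _ _ (hDk a i) hu).2.2.2.1 hu).2.2.2.2.2.2 _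
  · exact (hb.1 _ _ _ (hb.1 _ _ _ (hb.1 _ _ _ (hV ι C p β θ hs a {i}).1
      (BM_ic (hQb a (4 * p.l)).1 i)).2.2.1 (hb.1 _ _ _ (hdu a i) hu).2.2.2.1).2.2.1 hu).2.2.2.2.2.2 _
  · intro X
    simp only
    have h1 : vt p a {i} X = 0 ∨ vt p a {i} X = 1 := ((hV ι C p β θ hs a {i}).2.2.1 X).1
    have hsq : 0 ≤ (u X - Av (tm (θ a)) {i} u X) ^ 2 := sq_nonneg _
    have h2 : ic (Qb a (2 * p.l)) (X i) ^ 2 ≤ ic (Qb a (4 * p.l)) (X i) := by
      rcases ic_cases (Qb a (2 * p.l)) (X i) with h | h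
      · have h4 : X i ∈ Qb a (4 * p.l) := fun c => (h.1 c).trans (by linarith)
        rcases ic_cases (Qb a (4 * p.l)) (X i) with h' | h'
        · rw [h.2, h'.2]; norm_num
        · exact absurd h4 h'.1
      · rw [h.2]
        rcases ic_cases (Qb a (4 * p.l)) (X i) with h' | h'
        · rw [h'.2]; norm_num
        · rw [h'.2]; norm_num
    rcases h1 with h | h
    · rw [h]; simp
    · rw [h, one_mul, one_mul, mul_pow]
      exact mul_le_mul_of_nonneg_right h2 hsq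

end Pool.Agent.TBS
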