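import Pool.Agent.TBS.StmtsB

/-!
# Three-body Bose gases (MP_80dc41_mp), sharp lower bound: module E3P
-/

set_option autoImplicit false

open MeasureTheory Filter Topology
open scoped ContDiff

namespace Pool.Agent.TBS

open Pool.Agent.TBG Pool.Agent.TBL Pool.Agent.TBF

namespace E3P_

section bm

variable {α : Type} [MeasurableSpace α] {F G : α → ℝ}

lemma b_add (h : Pool.Agent.TBL.Stmt_BMC) (hF : BM F) (hG : BM G) : BM (fun X => F X + G X) :=
  (h.1 α F G hF hG).1

lemma b_sub (h : Pool.Agent.TBL.Stmt_BMC) (hF : BM F) (hG : BM G) : BM (fun X => F X - G X) :=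
  (h.1 α F G hF hG).2.1

lemma b_mul (h : Pool.Agent.TBL.Stmt_BMC) (hF : BM F) (hG : BM G) : BM (fun X => F X * G X) :=
  (h.1 α F G hF hG).2.2.1

lemma b_sq (h : Pool.Agent.TBL.Stmt_BMC) (hF : BM F) : BM (fun X => F X ^ 2) :=
  (h.1 α F F hF hF).2.2.2.1

lemma b_abs (h : Pool.Agent.TBL.Stmt_BMC) (hF : BM F) : BM (fun X => |F X|) :=
  (h.1 α F F hF hF).2.2.2.2.1

lemma b_smul (h : Pool.Agent.TBL.Stmt_BMC) (hF : BM F) (a : ℝ) : BM (fun X => a * F X) :=
  (h.1 α F F hF hF).2.2.2.2.2.1 a

lemma b_int (h : Pool.Agent.TBL.Stmt_BMC) (hF : BM F) (μ : Measure α) [IsFiniteMeasure μ] : Integrable F μ :=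
  (h.1 α F F hF hF).2.2.2.2.2.2 μ

end bm

section a

variable {ι : Type} [Fintype ι] [DecidableEq ι]

lemma ind_mono {S T : Finset ι} {F : (ι → E) → ℝ} (h : IndS S F) (hT : T ⊆ S) : IndS T F :=
  fun X Y hXY => h X Y (fun i hi => hXY i (fun hi' => hi (hT hi')))

lemma ind_mul {S : Finset ι} {F G : (ι → E) → ℝ} (hF : IndS S F) (hG : IndS S G) :
    IndS S (fun X => F X * G X) := by
  intro X Y h
  show F X * G X = F Y * G Y
  rw [hF X Y h, hG X Y h]

lemma ind_sub {S : Finset ι} {F G : (ι → E) → ℝ} (hF : IndS S F) (hG : IndS S G) :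
    IndS S (fun X => F X - G X) := by
  intro X Y h
  show F X - G X = F Y - G Y
  rw [hF X Y h, hG X Y h]

lemma ind_sq {S : Finset ι} {F : (ι → E) → ℝ} (hF : IndS S F) : IndS S (fun X => F X ^ 2) := by
  intro X Y h
  show F X ^ 2 = F Y ^ 2
  rw [hF X Y h]

lemma io_ia (p : Par) (θ : E → E → ℝ) (a : E) (F : (ι → E) → ℝ) :
    IO p F = IA p θ a (∅ : Finset ι) F := by
  simp [IO, IA, PiS]

lemma ic_one {Q : Set E} {x : E} (h : x ∈ Q) : ic Q x = 1 := by
  simp [ic, h]

lemma ic_zero {Q : Set E} {x : E} (h : x ∉ Q) : ic Q x = 0 := by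
  simp [ic, h]

lemma ic_nn (Q : Set E) (x : E) : 0 ≤ ic Q x := by
  by_cases h : x ∈ Q
  · rw [ic_one h]; exact zero_le_one
  · rw [ic_zero h]

/-- integrals over the box of functions supported in a small cube -/
lemma mo_eq (hMSY : Stmt_MSY) {C : ℝ} {p : Par} {β θ : E → E → ℝ} (hS : Sys C p β θ) {a : E} (ha : a ∈ p.Gr)
    (f : E → ℝ) (hf : ∀ x, f x ≠ 0 → x ∈ Qb a (2 * p.l)) : ∫ x, f x ∂(mO p.L) = ∫ x, f x := by
  obtain ⟨hl, -, -, -, -, -, -, -, -, h10, -, -⟩ := hMSY C p β θ hS
  have e : ∀ x, ic (Qb a (2 * p.l)) x * f x = f x := by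
    intro x
    by_cases hx : x ∈ Qb a (2 * p.l)
    · rw [ic_one hx, one_mul]
    · have h0 : f x = 0 := by
        by_contra h
        exact hx (hf x h)
      rw [h0, mul_zero]
  have h := h10 a ha (2 * p.l) f (by linarith)
  simp only [e] at h
  rw [h]
  exact setIntegral_eq_integral_of_forall_compl_eq_zero (fun x hx => by
    by_contra h0
    exact hx (hf x h0))

end a

section b

variable {ι : Type} [Fintype ι] [DecidableEq ι] {C : ℝ} {p : Par} {β θ : E → E → ℝ} {P : E → E → E → E → ℝ}
  {a : E}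

/-- the kernel of three particles -/
noncomputable def kq (θ : E → E → ℝ) (P : E → E → E → E → ℝ) (a : E) (i j k : ι) (X : ι → E) : ℝ :=
  K3 θ P a (X i) (X j) (X k)

lemma kq_bm (hBMC : Pool.Agent.TBL.Stmt_BMC) (hK : BM3 (K3 θ P a)) (i j k : ι) : BM (kq θ P a i j k) := by
  have h := hBMC.2.2.2.1 (E × E × E) (ι → E) (fun q : E × E × E => K3 θ P a q.1 q.2.1 q.2.2)
    (fun X : ι → E => (X i, X j, X k)) hK (by fun_prop)
  exact h

lemma ic_bm (hBMC : Pool.Agent.TBL.Stmt_BMC) {Q : Set E} (hQ : MeasurableSet Q) (k : ι) :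
    BM (fun X : ι → E => ic Q (X k)) := by
  have h0 : BM (fun x : E => ic Q x) := by
    refine ⟨?_, 1, fun x => ?_⟩
    · unfold ic
      exact measurable_const.indicator hQ
    · show |ic Q x| ≤ 1
      by_cases h : x ∈ Q
      · rw [ic_one h]; simp
      · rw [ic_zero h]; simp
  exact hBMC.2.2.2.1 E (ι → E) (fun x => ic Q x) (fun X : ι → E => X k) h0 (by fun_prop)

/-- the squares -/
lemma sq_bound (hBMC : Pool.Agent.TBL.Stmt_BMC) (hMSY : Stmt_MSY) (hPSF : Stmt_PSF) (hONE : Stmt_ONE)
    (hS : Sys C p β θ) (ha : a ∈ p.Gr) (hK : BM3 (K3 θ P a))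
    (hsp : ∀ x y z, K3 θ P a x y z ≠ 0 → x ∈ Qb a (2 * p.l) ∧ y ∈ Qb a (2 * p.l) ∧ z ∈ Qb a (2 * p.l))
    {i j k : ι} (hij : i ≠ j) (hik : i ≠ k) (hjk : j ≠ k) (w : (ι → E) → ℝ) (hw : BM w)
    (hwI : IndS {i, j, k} w) :
    IO p (fun X => kq θ P a i j k X ^ 2 * w X) =
      (∫ x, ∫ y, ∫ z, K3 θ P a x y z ^ 2) * IA p θ a {i, j, k} w := by
  have hfin : IsFiniteMeasure (mO p.L) := (hMSY C p β θ hS).2.1
  have hprob : IsProbabilityMeasure (tm (θ a)) := (hMSY C p β θ hS).2.2.2.2.2.2.1 a
  set F : (ι → E) → ℝ := fun X => kq θ P a i j k X ^ 2 with hF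
  have bF : BM F := b_sq hBMC (kq_bm hBMC hK i j k)
  have b1 : BM (fun X : ι → E => ∫ z, F (Function.update X k z) ∂(mO p.L)) :=
    ((hPSF ι (tm (θ a)) (mO p.L) ∅).2 F bF).2.2.1 k (Finset.notMem_empty k)
  set G1 : (ι → E) → ℝ := fun X => ∫ z, F (Function.update X k z) ∂(mO p.L) with hG1
  have b2 : BM (fun X : ι → E => ∫ y, G1 (Function.update X j y) ∂(mO p.L)) :=
    ((hPSF ι (tm (θ a)) (mO p.L) ∅).2 G1 b1).2.2.1 j (Finset.notMem_empty j)
  set G2 : (ι → E) → ℝ := fun X => ∫ y, G1 (Function.update X j y) ∂(mO p.L) with hG2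
  have e1 := (hONE C ι p β θ hS a ha ∅ k F w (Finset.notMem_empty k) bF hw
    (ind_mono hwI (by intro x hx; simp at hx; simp [hx]))).1
  have e2 := (hONE C ι p β θ hS a ha (insert k ∅) j G1 w (by simp [hjk]) b1 hw
    (ind_mono hwI (by intro x hx; simp at hx; simp [hx]))).1
  have e3 := (hONE C ι p β θ hS a ha (insert j (insert k ∅)) i G2 w (by simp [hij, hik]) b2 hw
    (ind_mono hwI (by intro x hx; simp at hx; simp [hx]))).1
  have hset : (insert i (insert j (insert k ∅)) : Finset ι) = {i, j, k} := by simp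
  have key : ∀ X : ι → E, ∫ x, G2 (Function.update X i x) ∂(mO p.L) = ∫ x, ∫ y, ∫ z, K3 θ P a x y z ^ 2 := by
    intro X
    have r1 : ∀ x : E, G2 (Function.update X i x) = ∫ y, ∫ z, K3 θ P a x y z ^ 2 := by
      intro x
      rw [hG2]
      show ∫ y, G1 (Function.update (Function.update X i x) j y) ∂(mO p.L) = _
      have r2 : ∀ y : E, G1 (Function.update (Function.update X i x) j y) = ∫ z, K3 θ P a x y z ^ 2 := by
        intro y
        rw [hG1]
        show ∫ z, F (Function.update (Function.update (Function.update X i x) j y) k z) ∂(mO p.L) = _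
        have r3 : ∀ z : E, F (Function.update (Function.update (Function.update X i x) j y) k z) =
            K3 θ P a x y z ^ 2 := by
          intro z
          rw [hF]
          show kq θ P a i j k _ ^ 2 = _
          unfold kq
          rw [Function.update_self, Function.update_of_ne hik, Function.update_of_ne hij, Function.update_self,
            Function.update_of_ne hjk, Function.update_self]
        simp only [r3]
        exact mo_eq hMSY hS ha (fun z => K3 θ P a x y z ^ 2) (fun z hz => by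
          have h0 : K3 θ P a x y z ≠ 0 := by
            intro h0
            exact hz (by simp [h0])
          exact (hsp x y z h0).2.2)
      simp only [r2]
      refine mo_eq hMSY hS ha (fun y => ∫ z, K3 θ P a x y z ^ 2) (fun y hy => ?_)
      by_contra hc
      apply hy
      have : ∀ z, K3 θ P a x y z ^ 2 = 0 := by
        intro z
        by_contra h0
        have h1 : K3 θ P a x y z ≠ 0 := by
          intro h1
          exact h0 (by simp [h1])
        exact hc (hsp x y z h1).2.1
      simp [this]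
    simp only [r1]
    refine mo_eq hMSY hS ha (fun x => ∫ y, ∫ z, K3 θ P a x y z ^ 2) (fun x hx => ?_)
    by_contra hc
    apply hx
    have : ∀ y z, K3 θ P a x y z ^ 2 = 0 := by
      intro y z
      by_contra h0
      have h1 : K3 θ P a x y z ≠ 0 := by
        intro h1
        exact h0 (by simp [h1])
      exact hc (hsp x y z h1).1
    simp [this]
  rw [io_ia p θ a, e1, e2, e3, hset]
  unfold IA
  simp only [key]
  rw [integral_const_mul]

/-- the products of two kernels, majorant -/
lemma pr_bound (hBMC : Pool.Agent.TBL.Stmt_BMC) (hMSY : Stmt_MSY) (hPSF : Stmt_PSF) (hONE : Stmt_ONE)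
    (hS : Sys C p β θ) (ha : a ∈ p.Gr) (hK : BM3 (K3 θ P a)) (hsy : Sy3 (K3 θ P a))
    (hsp : ∀ x y z, K3 θ P a x y z ≠ 0 → x ∈ Qb a (2 * p.l) ∧ y ∈ Qb a (2 * p.l) ∧ z ∈ Qb a (2 * p.l))
    {c1 c2 : ℝ} (hc1 : 0 ≤ c1) (h1 : ∀ x y, ∫ z, |K3 θ P a x y z| ≤ c1) (h2 : ∀ x, ∫ y, ∫ z, |K3 θ P a x y z| ≤ c2)
    {i j k k' : ι} (hij : i ≠ j) (hik : i ≠ k) (hjk : j ≠ k) (hi' : k' ≠ i) (hj' : k' ≠ j) (hk' : k' ≠ k)
    (w : (ι → E) → ℝ) (hw : BM w) (hw0 : ∀ X, 0 ≤ w X) (hwI : IndS {i, j, k} w) :
    IO p (fun X => (|kq θ P a i j k X| * |kq θ P a i j k' X|) * w X) ≤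
      IA p θ a {i, j, k} (fun X => (c1 * c2 * ic (Qb a (2 * p.l)) (X k')) * w X) := by
  have hfin : IsFiniteMeasure (mO p.L) := (hMSY C p β θ hS).2.1
  have hprob : IsProbabilityMeasure (tm (θ a)) := (hMSY C p β θ hS).2.2.2.2.2.2.1 a
  have hQ : MeasurableSet (Qb a (2 * p.l)) := ((hMSY C p β θ hS).2.2.2.2.1 a (2 * p.l)).1
  set F : (ι → E) → ℝ := fun X => |kq θ P a i j k X| * |kq θ P a i j k' X| with hF
  have bF : BM F := b_mul hBMC (b_abs hBMC (kq_bm hBMC hK i j k)) (b_abs hBMC (kq_bm hBMC hK i j k'))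
  set f1 : (ι → E) → ℝ := fun X => c1 * |kq θ P a i j k' X| with hf1
  have bf1 : BM f1 := b_smul hBMC (b_abs hBMC (kq_bm hBMC hK i j k')) c1
  have s1 := (hONE C ι p β θ hS a ha ∅ k F w (Finset.notMem_empty k) bF hw
    (ind_mono hwI (by intro x hx; simp at hx; simp [hx]))).2.2 f1 bf1 hw0 (by
      intro X
      have r : ∀ x : E, F (Function.update X k x) = |kq θ P a i j k' X| * |K3 θ P a (X i) (X j) x| := by
        intro x
        rw [hF]
        show |kq θ P a i j k (Function.update X k x)| * |kq θ P a i j k' (Function.update X k x)| = _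
        unfold kq
        rw [Function.update_self, Function.update_of_ne hik, Function.update_of_ne hjk,
          Function.update_of_ne hk', mul_comm]
      simp only [r]
      rw [integral_const_mul, mo_eq hMSY hS ha (fun x => |K3 θ P a (X i) (X j) x|) (fun z hz => by
        have h0 : K3 θ P a (X i) (X j) z ≠ 0 := by
          intro h0
          exact hz (by simp [h0])
        exact (hsp _ _ z h0).2.2), hf1]
      show _ ≤ c1 * |kq θ P a i j k' X|
      rw [mul_comm c1]
      exact mul_le_mul_of_nonneg_left (h1 _ _) (abs_nonneg _))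
  have b2 : BM (fun X : ι → E => ∫ y, f1 (Function.update X j y) ∂(mO p.L)) :=
    ((hPSF ι (tm (θ a)) (mO p.L) ∅).2 f1 bf1).2.2.1 j (Finset.notMem_empty j)
  set G2 : (ι → E) → ℝ := fun X => ∫ y, f1 (Function.update X j y) ∂(mO p.L) with hG2
  have s2 := (hONE C ι p β θ hS a ha (insert k ∅) j f1 w (by simp [hjk]) bf1 hw
    (ind_mono hwI (by intro x hx; simp at hx; simp [hx]))).1
  set f3 : (ι → E) → ℝ := fun X => c1 * c2 * ic (Qb a (2 * p.l)) (X k') with hf3
  have bf3 : BM f3 := b_smul hBMC (ic_bm hBMC hQ k') (c1 * c2)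
  have s3 := (hONE C ι p β θ hS a ha (insert j (insert k ∅)) i G2 w (by simp [hij, hik]) b2 hw
    (ind_mono hwI (by intro x hx; simp at hx; simp [hx]))).2.2 f3 bf3 hw0 (by
      intro X
      have r1 : ∀ x : E, G2 (Function.update X i x) = ∫ y, c1 * |K3 θ P a (X k') x y| := by
        intro x
        rw [hG2]
        show ∫ y, f1 (Function.update (Function.update X i x) j y) ∂(mO p.L) = _
        have r2 : ∀ y : E, f1 (Function.update (Function.update X i x) j y) = c1 * |K3 θ P a (X k') x y| := by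
          intro y
          rw [hf1]
          show c1 * |kq θ P a i j k' _| = _
          unfold kq
          rw [Function.update_self, Function.update_of_ne hij, Function.update_self, Function.update_of_ne hj',
            Function.update_of_ne hi', hsy.s2, hsy.s1]
        simp only [r2]
        exact mo_eq hMSY hS ha (fun y => c1 * |K3 θ P a (X k') x y|) (fun z hz => by
          have h0 : K3 θ P a (X k') x z ≠ 0 := by
            intro h0
            exact hz (by simp [h0])
          exact (hsp _ _ z h0).2.2)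
      simp only [r1]
      rw [mo_eq hMSY hS ha (fun x => ∫ y, c1 * |K3 θ P a (X k') x y|) (fun x hx => by
        by_contra hc
        apply hx
        have : ∀ y, c1 * |K3 θ P a (X k') x y| = 0 := by
          intro y
          by_contra h0
          have h1 : K3 θ P a (X k') x y ≠ 0 := by
            intro h1
            exact h0 (by simp [h1])
          exact hc (hsp _ x y h1).2.1
        simp [this])]
      by_cases hx : X k' ∈ Qb a (2 * p.l)
      · rw [hf3]
        show _ ≤ c1 * c2 * ic (Qb a (2 * p.l)) (X k')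
        rw [ic_one hx, mul_one]
        have e : ∀ x, ∫ y, c1 * |K3 θ P a (X k') x y| = c1 * ∫ y, |K3 θ P a (X k') x y| :=
          fun x => integral_const_mul _ _
        simp only [e]
        rw [integral_const_mul]
        exact mul_le_mul_of_nonneg_left (h2 _) hc1
      · rw [hf3]
        show _ ≤ c1 * c2 * ic (Qb a (2 * p.l)) (X k')
        rw [ic_zero hx, mul_zero]
        have : ∀ x y, c1 * |K3 θ P a (X k') x y| = 0 := by
          intro x y
          by_contra h0
          have h1 : K3 θ P a (X k') x y ≠ 0 := by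
            intro h1
            exact h0 (by simp [h1])
          exact hx (hsp _ x y h1).1
        simp [this])
  have hset : (insert i (insert j (insert k ∅)) : Finset ι) = {i, j, k} := by simp
  rw [hset] at s3
  rw [io_ia p θ a]
  exact s1.trans (s2.le.trans s3)

end b

end E3P_

open E3P_ in
theorem e3p_proof (hBMC : Pool.Agent.TBL.Stmt_BMC) (hMSY : Stmt_MSY) (hPSF : Stmt_PSF) (hAVP : Stmt_AVP)
    (_hAVI : Stmt_AVI) (hVTP : Stmt_VTP) (hKBD : Stmt_KBD) (hONE : Stmt_ONE) : Stmt_E3P := by
  intro C b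
  obtain ⟨C1, hC1, hK0⟩ := hKBD C b
  refine ⟨C1 + C1 ^ 2, by positivity, ?_⟩
  intro ι _ _ p β θ g P u hS hT hu a ha i j k hij hik hjk
  obtain ⟨-, bK3, -, sK3, -, spK, -, cK3, -, iK3, jK3, -, qK3⟩ := hK0 p β θ g P hS hT a
  have hl : 1 ≤ p.l := (hMSY C p β θ hS).1
  have hR : 1 ≤ p.R := hS.hR
  have hfin : IsFiniteMeasure (mO p.L) := (hMSY C p β θ hS).2.1
  have hprob : IsProbabilityMeasure (tm (θ a)) := (hMSY C p β θ hS).2.2.2.2.2.2.1 a
  have hQQ : Qb a (2 * p.l) ⊆ Qc p a := (hMSY C p β θ hS).2.2.2.2.2.1 a (2 * p.l) (by linarith)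
  have bAv : ∀ S : Finset ι, BM (Av (tm (θ a)) S u) := fun S => (hAVP ι (tm (θ a)) S S u u hu hu).1
  have iAv : ∀ S : Finset ι, IndS S (Av (tm (θ a)) S u) := fun S => (hAVP ι (tm (θ a)) S S u u hu hu).2.1
  have bvt : ∀ S : Finset ι, BM (vt p a S) := fun S => (hVTP ι C p β θ hS a S).1
  have ivt : ∀ S : Finset ι, IndS S (vt p a S) := fun S => (hVTP ι C p β θ hS a S).2.1
  have bAm : ∀ S : Finset ι, BM (Am p θ u a S) := fun S => b_mul hBMC (bvt S) (bAv S)
  have iAm : ∀ S : Finset ι, IndS S (Am p θ u a S) := fun S => ind_mul (ivt S) (iAv S)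
  have hl0 : 0 < p.l := by linarith
  have hR0 : 0 < p.R := by linarith
  refine ⟨?_, ?_⟩
  · have e : (fun X : ι → E => (K3 θ P a (X i) (X j) (X k) * Am p θ u a {i, j, k} X) ^ 2) =
        fun X => kq θ P a i j k X ^ 2 * (Am p θ u a {i, j, k} X ^ 2) := by
      funext X
      unfold kq
      ring
    rw [e, sq_bound hBMC hMSY hPSF hONE hS ha bK3 spK hij hik hjk (fun X => Am p θ u a {i, j, k} X ^ 2)
      (b_sq hBMC (bAm _)) (ind_sq (iAm _))]
    refine mul_le_mul_of_nonneg_right (qK3.trans ?_) ?_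
    · have hd : 0 < p.l ^ 3 * p.R ^ 6 := by positivity
      rw [div_le_div_iff_of_pos_right hd]
      nlinarith [sq_nonneg C1]
    · unfold IA
      exact integral_nonneg (fun X => sq_nonneg _)
  · intro k' hi' hj' hk'
    -- the majorant, for either order of `k`, `k'`
    have main : ∀ k k' : ι, i ≠ k → j ≠ k → k' ≠ i → k' ≠ j → k' ≠ k →
        IO p (fun X => (|kq θ P a i j k X| * |kq θ P a i j k' X|) * (vt p a (insert k' {i, j, k}) X *
          (Av (tm (θ a)) {i, j, k} u X - Av (tm (θ a)) (insert k' {i, j, k}) u X) ^ 2)) ≤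
        C1 ^ 2 / (p.l ^ 6 * p.R ^ 3) * rg p θ u a {i, j, k} k' := by
      intro k k' hik hjk hi' hj' hk'
      have hsub : ({i, j, k} : Finset ι) ⊆ insert k' {i, j, k} := Finset.subset_insert _ _
      have bw : BM (fun X : ι → E => vt p a (insert k' {i, j, k}) X *
          (Av (tm (θ a)) {i, j, k} u X - Av (tm (θ a)) (insert k' {i, j, k}) u X) ^ 2) :=
        b_mul hBMC (bvt _) (b_sq hBMC (b_sub hBMC (bAv _) (bAv _)))
      have v01 : ∀ (S : Finset ι) (X : ι → E), 0 ≤ vt p a S X := by
        intro S X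
        rcases ((hVTP ι C p β θ hS a S).2.2.1 X).1 with h | h
        · rw [h]
        · rw [h]; exact zero_le_one
      have h := pr_bound hBMC hMSY hPSF hONE hS ha bK3 sK3 spK (c1 := C1 / (p.l ^ 3 * p.R ^ 3))
        (c2 := C1 / p.l ^ 3) (by positivity) iK3 jK3 hij hik hjk hi' hj' hk'
        (fun X : ι → E => vt p a (insert k' {i, j, k}) X *
          (Av (tm (θ a)) {i, j, k} u X - Av (tm (θ a)) (insert k' {i, j, k}) u X) ^ 2) bw
        (fun X => mul_nonneg (v01 _ _) (sq_nonneg _))
        (ind_mul (ind_mono (ivt _) hsub) (ind_sq (ind_sub (iAv _) (ind_mono (iAv _) hsub))))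
      refine h.trans (le_of_eq ?_)
      unfold rg IA
      rw [← integral_const_mul]
      congr 1
      funext X
      by_cases hx : X k' ∈ Qb a (2 * p.l)
      · have hv : vt p a {i, j, k} X = vt p a (insert k' {i, j, k}) X := by
          have h4 := (hVTP ι C p β θ hS a {i, j, k}).2.2.2.1 {k'} X (fun m hm _ => by
            rw [Finset.mem_singleton] at hm
            rw [hm]
            exact hQQ hx)
          rw [h4]
          congr 1
          ext m
          simp only [Finset.mem_union, Finset.mem_insert, Finset.mem_singleton]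
          tauto
        simp only [ic_one hx, hv]
        field_simp
      · simp only [ic_zero hx]
        ring
    set T4 : Finset ι := insert k' {i, j, k} with hT4
    have hT4' : (insert k {i, j, k'} : Finset ι) = T4 := by
      rw [hT4]
      ext m
      simp only [Finset.mem_insert, Finset.mem_singleton]
      tauto
    have m1 := main k k' hik hjk hi' hj' hk'
    have m2 := main k' k hi'.symm hj'.symm hik.symm hjk.symm hk'.symm
    rw [hT4'] at m2
    set v : (ι → E) → ℝ := vt p a T4 with hv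
    set A : (ι → E) → ℝ := Av (tm (θ a)) {i, j, k} u with hA
    set B : (ι → E) → ℝ := Av (tm (θ a)) {i, j, k'} u with hB
    set D : (ι → E) → ℝ := Av (tm (θ a)) T4 u with hD
    have bA : BM A := bAv _
    have bB : BM B := bAv _
    have bD : BM D := bAv _
    have bv : BM v := bvt _
    have bk : BM (kq θ P a i j k) := kq_bm hBMC bK3 i j k
    have bk' : BM (kq θ P a i j k') := kq_bm hBMC bK3 i j k'
    have subk : ({k} : Finset ι) ⊆ T4 := by rw [hT4]; intro x hx; simp at hx; simp [hx]
    have subk' : ({k'} : Finset ι) ⊆ T4 := by rw [hT4]; intro x hx; simp at hx; simp [hx]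
    have subk3 : ({k} : Finset ι) ⊆ {i, j, k} := by intro x hx; simp at hx; simp [hx]
    have subk3' : ({k'} : Finset ι) ⊆ {i, j, k'} := by intro x hx; simp at hx; simp [hx]
    have indk : IndS {k'} (kq θ P a i j k) := by
      intro X Y h
      unfold kq
      rw [h i (by simp [hi'.symm]), h j (by simp [hj'.symm]), h k (by simp [hk'.symm])]
    have indk' : IndS {k} (kq θ P a i j k') := by
      intro X Y h
      unfold kq
      rw [h i (by simp [hik]), h j (by simp [hjk]), h k' (by simp [hk'])]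
    have hvv : ∀ X, v X * v X = v X := by
      intro X
      rcases ((hVTP ι C p β θ hS a T4).2.2.1 X).1 with h | h
      · rw [hv, h]; ring
      · rw [hv, h]; ring
    have hv0 : ∀ X, 0 ≤ v X := by
      intro X
      rw [← hvv X]
      exact mul_self_nonneg _
    -- the integrand
    have eint : (fun X : ι → E => (K3 θ P a (X i) (X j) (X k) * Am p θ u a {i, j, k} X) *
        (K3 θ P a (X i) (X j) (X k') * Am p θ u a {i, j, k'} X)) =
        fun X => (kq θ P a i j k X * kq θ P a i j k' X * (v X * ((A X - D X) * (B X - D X))) +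
          kq θ P a i j k X * (kq θ P a i j k' X * (v X * (A X * D X)))) +
          kq θ P a i j k' X * (kq θ P a i j k X * (v X * (D X * (B X - D X)))) := by
      funext X
      by_cases h1 : kq θ P a i j k X = 0
      · have h1' : K3 θ P a (X i) (X j) (X k) = 0 := h1
        rw [h1, h1']
        ring
      by_cases h2 : kq θ P a i j k' X = 0
      · have h2' : K3 θ P a (X i) (X j) (X k') = 0 := h2
        rw [h2, h2']
        ring
      have q1 := spK _ _ _ h1
      have q2 := spK _ _ _ h2
      have e1 : vt p a {i, j, k} X = v X := by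
        have h4 := (hVTP ι C p β θ hS a {i, j, k}).2.2.2.1 {k'} X (fun m hm _ => by
          rw [Finset.mem_singleton] at hm
          rw [hm]
          exact hQQ q2.2.2)
        rw [h4, hv, hT4]
        congr 1
        ext m
        simp only [Finset.mem_union, Finset.mem_insert, Finset.mem_singleton]
        tauto
      have e2 : vt p a {i, j, k'} X = v X := by
        have h4 := (hVTP ι C p β θ hS a {i, j, k'}).2.2.2.1 {k} X (fun m hm _ => by
          rw [Finset.mem_singleton] at hm
          rw [hm]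
          exact hQQ q1.2.2)
        rw [h4, hv, hT4]
        congr 1
        ext m
        simp only [Finset.mem_union, Finset.mem_insert, Finset.mem_singleton]
        tauto
      show (kq θ P a i j k X * (vt p a {i, j, k} X * A X)) * (kq θ P a i j k' X * (vt p a {i, j, k'} X * B X)) = _
      rw [e1, e2]
      calc (kq θ P a i j k X * (v X * A X)) * (kq θ P a i j k' X * (v X * B X))
          = kq θ P a i j k X * kq θ P a i j k' X * ((v X * v X) * (A X * B X)) := by ring
        _ = _ := by rw [hvv X]; ring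
    have z1 : IO p (fun X => kq θ P a i j k X * (kq θ P a i j k' X * (v X * (A X * D X)))) = 0 := by
      rw [io_ia p θ a]
      refine (hONE C ι p β θ hS a ha ∅ k (kq θ P a i j k) _ (Finset.notMem_empty k) bk
        (b_mul hBMC bk' (b_mul hBMC bv (b_mul hBMC bA bD)))
        (ind_mul indk' (ind_mul (ind_mono (ivt _) subk) (ind_mul (ind_mono (iAv _) subk3)
          (ind_mono (iAv _) subk))))).2.1 (fun X => ?_)
      have r : ∀ x : E, kq θ P a i j k (Function.update X k x) = K3 θ P a (X i) (X j) x := by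
        intro x
        unfold kq
        rw [Function.update_self, Function.update_of_ne hik, Function.update_of_ne hjk]
      simp only [r]
      rw [mo_eq hMSY hS ha (fun x => K3 θ P a (X i) (X j) x) (fun z hz => (spK _ _ z hz).2.2)]
      exact cK3 _ _
    have z2 : IO p (fun X => kq θ P a i j k' X * (kq θ P a i j k X * (v X * (D X * (B X - D X))))) = 0 := by
      rw [io_ia p θ a]
      refine (hONE C ι p β θ hS a ha ∅ k' (kq θ P a i j k') _ (Finset.notMem_empty k') bk'
        (b_mul hBMC bk (b_mul hBMC bv (b_mul hBMC bD (b_sub hBMC bB bD))))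
        (ind_mul indk (ind_mul (ind_mono (ivt _) subk') (ind_mul (ind_mono (iAv _) subk')
          (ind_sub (ind_mono (iAv _) subk3') (ind_mono (iAv _) subk')))))).2.1 (fun X => ?_)
      have r : ∀ x : E, kq θ P a i j k' (Function.update X k' x) = K3 θ P a (X i) (X j) x := by
        intro x
        unfold kq
        rw [Function.update_self, Function.update_of_ne hi'.symm, Function.update_of_ne hj'.symm]
      simp only [r]
      rw [mo_eq hMSY hS ha (fun x => K3 θ P a (X i) (X j) x) (fun z hz => (spK _ _ z hz).2.2)]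
      exact cK3 _ _
    have hfinP : IsFiniteMeasure (PiS (mO p.L) (mO p.L) (∅ : Finset ι)) := by
      have h := (hPSF ι (tm (θ a)) (mO p.L) (∅ : Finset ι)).1
      have e : PiS (tm (θ a)) (mO p.L) (∅ : Finset ι) = PiS (mO p.L) (mO p.L) (∅ : Finset ι) := by
        simp [PiS]
      rwa [e] at h
    have g1 : BM (fun X => kq θ P a i j k X * kq θ P a i j k' X * (v X * ((A X - D X) * (B X - D X)))) :=
      b_mul hBMC (b_mul hBMC bk bk') (b_mul hBMC bv (b_mul hBMC (b_sub hBMC bA bD) (b_sub hBMC bB bD)))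
    have g2 : BM (fun X => kq θ P a i j k X * (kq θ P a i j k' X * (v X * (A X * D X)))) :=
      b_mul hBMC bk (b_mul hBMC bk' (b_mul hBMC bv (b_mul hBMC bA bD)))
    have g3 : BM (fun X => kq θ P a i j k' X * (kq θ P a i j k X * (v X * (D X * (B X - D X))))) :=
      b_mul hBMC bk' (b_mul hBMC bk (b_mul hBMC bv (b_mul hBMC bD (b_sub hBMC bB bD))))
    have n1 : BM (fun X => (|kq θ P a i j k X| * |kq θ P a i j k' X|) * (v X * (A X - D X) ^ 2)) :=
      b_mul hBMC (b_mul hBMC (b_abs hBMC bk) (b_abs hBMC bk'))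
        (b_mul hBMC bv (b_sq hBMC (b_sub hBMC bA bD)))
    have n2 : BM (fun X => (|kq θ P a i j k' X| * |kq θ P a i j k X|) * (v X * (B X - D X) ^ 2)) :=
      b_mul hBMC (b_mul hBMC (b_abs hBMC bk') (b_abs hBMC bk))
        (b_mul hBMC bv (b_sq hBMC (b_sub hBMC bB bD)))
    rw [eint]
    have esum : IO p (fun X => (kq θ P a i j k X * kq θ P a i j k' X * (v X * ((A X - D X) * (B X - D X))) +
          kq θ P a i j k X * (kq θ P a i j k' X * (v X * (A X * D X)))) +
          kq θ P a i j k' X * (kq θ P a i j k X * (v X * (D X * (B X - D X))))) =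
        IO p (fun X => kq θ P a i j k X * kq θ P a i j k' X * (v X * ((A X - D X) * (B X - D X)))) +
        IO p (fun X => kq θ P a i j k X * (kq θ P a i j k' X * (v X * (A X * D X)))) +
        IO p (fun X => kq θ P a i j k' X * (kq θ P a i j k X * (v X * (D X * (B X - D X))))) := by
      unfold IO
      rw [integral_add (b_int hBMC (b_add hBMC g1 g2) _) (b_int hBMC g3 _),
        integral_add (b_int hBMC g1 _) (b_int hBMC g2 _)]
    rw [esum, z1, z2, add_zero, add_zero]
    have hle : IO p (fun X => kq θ P a i j k X * kq θ P a i j k' X * (v X * ((A X - D X) * (B X - D X)))) ≤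
        1 / 2 * IO p (fun X => (|kq θ P a i j k X| * |kq θ P a i j k' X|) * (v X * (A X - D X) ^ 2)) +
        1 / 2 * IO p (fun X => (|kq θ P a i j k' X| * |kq θ P a i j k X|) * (v X * (B X - D X) ^ 2)) := by
      unfold IO
      rw [← integral_const_mul, ← integral_const_mul, ← integral_add (b_int hBMC (b_smul hBMC n1 _) _)
        (b_int hBMC (b_smul hBMC n2 _) _)]
      refine integral_mono (b_int hBMC g1 _) (b_int hBMC (b_add hBMC (b_smul hBMC n1 _) (b_smul hBMC n2 _)) _)
        (fun X => ?_)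
      show kq θ P a i j k X * kq θ P a i j k' X * (v X * ((A X - D X) * (B X - D X))) ≤
        1 / 2 * ((|kq θ P a i j k X| * |kq θ P a i j k' X|) * (v X * (A X - D X) ^ 2)) +
        1 / 2 * ((|kq θ P a i j k' X| * |kq θ P a i j k X|) * (v X * (B X - D X) ^ 2))
      have t1 : kq θ P a i j k X * kq θ P a i j k' X * (v X * ((A X - D X) * (B X - D X))) ≤
          |kq θ P a i j k X| * |kq θ P a i j k' X| * (v X * |(A X - D X) * (B X - D X)|) := by
        refine (le_abs_self _).trans (le_of_eq ?_)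
        rw [abs_mul, abs_mul, abs_mul, abs_of_nonneg (hv0 X)]
      have t2 : |(A X - D X) * (B X - D X)| ≤ 1 / 2 * (A X - D X) ^ 2 + 1 / 2 * (B X - D X) ^ 2 := by
        rw [abs_mul]
        nlinarith [sq_abs (A X - D X), sq_abs (B X - D X), sq_nonneg (|A X - D X| - |B X - D X|)]
      have t3 : 0 ≤ |kq θ P a i j k X| * |kq θ P a i j k' X| := by positivity
      have t4 := mul_le_mul_of_nonneg_left (mul_le_mul_of_nonneg_left t2 (hv0 X)) t3
      refine t1.trans (t4.trans (le_of_eq ?_))
      ring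
    have hrg : ∀ (S : Finset ι) (j : ι), 0 ≤ rg p θ u a S j := by
      intro S j
      unfold rg IA
      refine integral_nonneg (fun X => ?_)
      have : 0 ≤ vt p a S X := by
        rcases ((hVTP ι C p β θ hS a S).2.2.1 X).1 with h | h
        · rw [h]
        · rw [h]; exact zero_le_one
      exact mul_nonneg this (mul_nonneg (ic_nn _ _) (sq_nonneg _))
    have hd : 0 < p.l ^ 6 * p.R ^ 3 := by positivity
    have hcc : C1 ^ 2 / (p.l ^ 6 * p.R ^ 3) ≤ (C1 + C1 ^ 2) / (p.l ^ 6 * p.R ^ 3) := by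
      rw [div_le_div_iff_of_pos_right hd]
      linarith
    have hcc0 : 0 ≤ C1 ^ 2 / (p.l ^ 6 * p.R ^ 3) := by positivity
    have r1 := hrg {i, j, k} k'
    have r2 := hrg {i, j, k'} k
    calc IO p (fun X => kq θ P a i j k X * kq θ P a i j k' X * (v X * ((A X - D X) * (B X - D X))))
        ≤ 1 / 2 * (C1 ^ 2 / (p.l ^ 6 * p.R ^ 3) * rg p θ u a {i, j, k} k') +
          1 / 2 * (C1 ^ 2 / (p.l ^ 6 * p.R ^ 3) * rg p θ u a {i, j, k'} k) := by
          refine hle.trans (add_le_add (mul_le_mul_of_nonneg_left m1 (by norm_num))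
            (mul_le_mul_of_nonneg_left m2 (by norm_num)))
      _ ≤ C1 ^ 2 / (p.l ^ 6 * p.R ^ 3) * (rg p θ u a {i, j, k} k' + rg p θ u a {i, j, k'} k) := by
          nlinarith [mul_nonneg hcc0 r1, mul_nonneg hcc0 r2]
      _ ≤ (C1 + C1 ^ 2) / (p.l ^ 6 * p.R ^ 3) * (rg p θ u a {i, j, k} k' + rg p θ u a {i, j, k'} k) :=
          mul_le_mul_of_nonneg_right hcc (by linarith)

end Pool.Agent.TBS
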