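import Pool.Agent.TBS.StmtsB

set_option autoImplicit false

open MeasureTheory Filter Topology
open scoped ContDiff

namespace Pool.Agent.TBS

open Pool.Agent.TBG Pool.Agent.TBL Pool.Agent.TBF

namespace E3Q_

variable {ι : Type} [Fintype ι] [DecidableEq ι]

lemma set1 (i j k j' k' : ι) : ({i, j, k} ∪ {j', k'} : Finset ι) = {i, j, k, j', k'} := by
  ext x; simp only [Finset.mem_union, Finset.mem_insert, Finset.mem_singleton]; tauto

lemma set2 (i j k j' k' : ι) : ({i, j', k'} ∪ {j, k} : Finset ι) = {i, j, k, j', k'} := by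
  ext x; simp only [Finset.mem_union, Finset.mem_insert, Finset.mem_singleton]; tauto

lemma set3 (i j k j' k' : ι) : ({i, j, k, j', k'} : Finset ι) = {i, j', k', j, k} := by
  ext x; simp only [Finset.mem_insert, Finset.mem_singleton]; tauto

lemma sub3' (i j k j' k' : ι) : ({i, j, k} : Finset ι) ⊆ {i, j, k, j', k'} := by
  intro x; simp only [Finset.mem_insert, Finset.mem_singleton]; tauto

lemma IO_IA (p : Par) (θ : E → E → ℝ) (a : E) (F : (ι → E) → ℝ) : IO p F = IA p θ a ∅ F := by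
  simp [IO, IA, PiS]

lemma bmk (hb : Stmt_BMC) {K : E → E → E → ℝ} (h : BM3 K) (i j k : ι) :
    BM (fun X : ι → E => K (X i) (X j) (X k)) :=
  hb.2.2.2.1 (E × E × E) (ι → E) (fun q => K q.1 q.2.1 q.2.2) (fun X => (X i, X j, X k)) h (by fun_prop)

lemma ind_mono {S T : Finset ι} {F : (ι → E) → ℝ} (h : IndS T F) (hST : S ⊆ T) : IndS S F :=
  fun X Y hXY => h X Y (fun i hi => hXY i (fun hS => hi (hST hS)))

lemma ind_mul {S : Finset ι} {F G : (ι → E) → ℝ} (h : IndS S F) (h' : IndS S G) :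
    IndS S (fun X => F X * G X) := fun X Y hXY => by
  show F X * G X = F Y * G Y
  rw [h X Y hXY, h' X Y hXY]

lemma ind_sub {S : Finset ι} {F G : (ι → E) → ℝ} (h : IndS S F) (h' : IndS S G) :
    IndS S (fun X => F X - G X) := fun X Y hXY => by
  show F X - G X = F Y - G Y
  rw [h X Y hXY, h' X Y hXY]

lemma ind_sq {S : Finset ι} {F : (ι → E) → ℝ} (h : IndS S F) :
    IndS S (fun X => F X ^ 2) := fun X Y hXY => by
  show F X ^ 2 = F Y ^ 2
  rw [h X Y hXY]

lemma ind_k {S : Finset ι} (K : E → E → E → ℝ) {i j k : ι} (hi : i ∉ S) (hj : j ∉ S) (hk : k ∉ S) :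
    IndS S (fun X : ι → E => K (X i) (X j) (X k)) := fun X Y hXY => by
  show K (X i) (X j) (X k) = K (Y i) (Y j) (Y k)
  rw [hXY i hi, hXY j hj, hXY k hk]

/-- integrals over the box and over the space -/
lemma mO_int (hM : Stmt_MSY) {C : ℝ} {p : Par} {β θ : E → E → ℝ} (hs : Sys C p β θ) {a : E} (ha : a ∈ p.Gr)
    (f : E → ℝ) (hf : ∀ x, f x ≠ 0 → x ∈ Qb a (2 * p.l)) : ∫ x, f x ∂(mO p.L) = ∫ x, f x := by
  obtain ⟨hl, _, _, _, _, _, _, _, _, h10, _⟩ := hM C p β θ hs
  have h1 := h10 a ha (2 * p.l) f (by linarith)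
  have h2 : (fun x => ic (Qb a (2 * p.l)) x * f x) = f := by
    funext x
    by_cases hx : x ∈ Qb a (2 * p.l)
    · simp [ic, hx]
    · have : f x = 0 := by
        by_contra h
        exact hx (hf x h)
      simp [this]
  rw [h2] at h1
  rw [h1]
  exact setIntegral_eq_integral_of_forall_compl_eq_zero (fun x hx => by
    by_contra h
    exact hx (hf x h))

lemma half (hb : Stmt_BMC) (hM : Stmt_MSY) (hP : Stmt_PSF) (hA : Stmt_AVP) (hV : Stmt_VTP) (hO : Stmt_ONE)
    {C C₁ : ℝ} {p : Par} {β θ : E → E → ℝ} {P : E → E → E → E → ℝ} {u : (ι → E) → ℝ} (hC : 0 < C₁)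
    (hs : Sys C p β θ) (hu : BM u) {a : E} (ha : a ∈ p.Gr) (k3 : BM3 (K3 θ P a)) (s3 : Sy3 (K3 θ P a))
    (q3 : ∀ x y z, K3 θ P a x y z ≠ 0 → x ∈ Qb a (2 * p.l) ∧ y ∈ Qb a (2 * p.l) ∧ z ∈ Qb a (2 * p.l))
    (b1 : ∀ x y, ∫ z, |K3 θ P a x y z| ≤ C₁ / (p.l ^ 3 * p.R ^ 3))
    (b2 : ∀ x, ∫ y, ∫ z, |K3 θ P a x y z| ≤ C₁ / p.l ^ 3)
    (i j k j' k' : ι) (hn : ([i, j, k, j', k'] : List ι).Nodup) (T : Finset ι) (hT : T = {i, j, k, j', k'}) :
    IO p (fun X => (|K3 θ P a (X i) (X j) (X k)| * |K3 θ P a (X i) (X j') (X k')|) * (vt p a T X *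
      (Av (tm (θ a)) {i, j, k} u X - Av (tm (θ a)) (insert j' {i, j, k}) u X) ^ 2)) ≤
    C₁ ^ 2 / (p.l ^ 6 * p.R ^ 3) * rh p θ u a {i, j, k} j' k' := by
  obtain ⟨hl, hfO, _, _, _, hQQ, hpr, _, _, _, _⟩ := hM C p β θ hs
  haveI := hpr a
  haveI := hfO
  have hR : 1 ≤ p.R := hs.hR
  simp only [List.nodup_cons, List.mem_cons, List.not_mem_nil, or_false, not_or, not_false_eq_true,
    List.nodup_nil, and_true] at hn
  obtain ⟨⟨nij, nik, nij', nik'⟩, ⟨njk, njj', njk'⟩, ⟨nkj', nkk'⟩, nj'k'⟩ := hn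
  obtain ⟨vb, vi, v01, vT, _⟩ := hV ι C p β θ hs a T
  obtain ⟨_, _, _, vT0, _⟩ := hV ι C p β θ hs a {i, j, k}
  set A := Av (tm (θ a)) {i, j, k} u with hAdef
  set B := Av (tm (θ a)) (insert j' {i, j, k}) u with hBdef
  obtain ⟨Ab, Ai, _⟩ := hA ι (tm (θ a)) {i, j, k} ∅ u u hu hu
  obtain ⟨Bb, Bi, _⟩ := hA ι (tm (θ a)) (insert j' {i, j, k}) ∅ u u hu hu
  have hBMm : ∀ F G : (ι → E) → ℝ, BM F → BM G → BM (fun X => F X * G X) := fun F G hF hG =>
    (hb.1 (ι → E) F G hF hG).2.2.1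
  have Db : BM (fun X => (A X - B X) ^ 2) :=
    (hb.1 _ _ _ ((hb.1 _ A B Ab Bb).2.1) Ab).2.2.2.1
  have vDb : BM (fun X => vt p a T X * (A X - B X) ^ 2) := hBMm _ _ vb Db
  have vnn : ∀ X, 0 ≤ vt p a T X := fun X => by rcases (v01 X).1 with h | h <;> rw [h] <;> norm_num
  have vDnn : ∀ X, 0 ≤ vt p a T X * (A X - B X) ^ 2 := fun X => mul_nonneg (vnn X) (sq_nonneg _)
  have sub3 : ({i, j, k} : Finset ι) ⊆ T := by rw [hT]; exact sub3' i j k j' k'
  have vDi : IndS {i, j, k} (fun X => vt p a T X * (A X - B X) ^ 2) :=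
    ind_mul (ind_mono vi sub3) (ind_sq (ind_sub Ai (ind_mono Bi (Finset.subset_insert _ _))))
  have aK : BM3 (fun x y z => |K3 θ P a x y z|) := (hb.1 _ _ _ k3 k3).2.2.2.2.1
  have Fb : BM (fun X : ι → E => |K3 θ P a (X i) (X j) (X k)|) := bmk hb aK i j k
  have Fb' : BM (fun X : ι → E => |K3 θ P a (X i) (X j') (X k')|) := bmk hb aK i j' k'
  -- integrate over k
  rw [IO_IA p θ a]
  have w1b : BM (fun X : ι → E => |K3 θ P a (X i) (X j') (X k')| * (vt p a T X * (A X - B X) ^ 2)) :=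
    hBMm _ _ Fb' vDb
  have w1i : IndS {j, k} (fun X : ι → E => |K3 θ P a (X i) (X j') (X k')| * (vt p a T X * (A X - B X) ^ 2)) := by
    refine ind_mul ?_ (ind_mono vDi (Finset.subset_insert _ _))
    exact ind_k (fun x y z => |K3 θ P a x y z|) (by simp [nij, nik]) (by simp [Ne.symm njj', Ne.symm nkj'])
      (by simp [Ne.symm njk', Ne.symm nkk'])
  have e1 := (hO C ι p β θ hs a ha ∅ k _ _ (by simp) Fb w1b (ind_mono w1i (by simp))).1
  have e1' : IA p θ a ∅ (fun X => (|K3 θ P a (X i) (X j) (X k)| * |K3 θ P a (X i) (X j') (X k')|) * (vt p a T X *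
      (A X - B X) ^ 2)) = IA p θ a (insert k ∅) (fun X => (∫ x, |K3 θ P a (X i) (X j) x|) *
        (|K3 θ P a (X i) (X j') (X k')| * (vt p a T X * (A X - B X) ^ 2))) := by
    have h0 : (fun X : ι → E => (|K3 θ P a (X i) (X j) (X k)| * |K3 θ P a (X i) (X j') (X k')|) * (vt p a T X *
      (A X - B X) ^ 2)) = (fun X : ι → E => |K3 θ P a (X i) (X j) (X k)| *
        (|K3 θ P a (X i) (X j') (X k')| * (vt p a T X * (A X - B X) ^ 2))) := by
      funext X; ring
    rw [h0, e1]
    congr 1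
    funext X
    congr 1
    have h1 : (fun x => |K3 θ P a (Function.update X k x i) (Function.update X k x j) (Function.update X k x k)|)
        = (fun x => |K3 θ P a (X i) (X j) x|) := by
      funext x
      simp [Function.update_of_ne nik, Function.update_of_ne njk]
    rw [h1]
    exact mO_int hM hs ha _ (fun x hx => (q3 (X i) (X j) x (fun h => hx (by simp [h]))).2.2)
  rw [e1']
  -- integrate over j
  have G1 : BM (fun X : ι → E => ∫ x, |K3 θ P a (X i) (X j) x|) := by
    have h1 : (fun X : ι → E => ∫ x, |K3 θ P a (X i) (X j) x|) =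
        (fun X : ι → E => ∫ x, |K3 θ P a (Function.update X k x i) (Function.update X k x j)
          (Function.update X k x k)| ∂(mO p.L)) := by
      funext X
      have h1 : (fun x => |K3 θ P a (Function.update X k x i) (Function.update X k x j) (Function.update X k x k)|)
          = (fun x => |K3 θ P a (X i) (X j) x|) := by
        funext x
        simp [Function.update_of_ne nik, Function.update_of_ne njk]
      rw [h1]
      exact (mO_int hM hs ha _ (fun x hx => (q3 (X i) (X j) x (fun h => hx (by simp [h]))).2.2)).symm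
    rw [h1]
    exact ((hP ι (tm (θ a)) (mO p.L) ∅).2 _ Fb).2.2.1 k (by simp)
  have cl : BM (fun _ : ι → E => C₁ / p.l ^ 3) := hb.2.1 _ _
  have e2 := (hO C ι p β θ hs a ha (insert k ∅) j _ _ (by simp [njk]) G1 w1b (ind_mono w1i (by simp))).2.2
    (fun _ => C₁ / p.l ^ 3) cl (fun X => mul_nonneg (abs_nonneg _) (vDnn X)) (by
      intro X
      have h1 : (fun y => ∫ x, |K3 θ P a (Function.update X j y i) (Function.update X j y j) x|)
          = (fun y => ∫ x, |K3 θ P a (X i) y x|) := by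
        funext y
        simp [Function.update_of_ne nij]
      rw [h1, mO_int hM hs ha]
      · exact b2 (X i)
      · intro y hy
        by_contra h
        apply hy
        have : (fun x => |K3 θ P a (X i) y x|) = fun _ => 0 := by
          funext x
          by_contra h'
          exact h (q3 (X i) y x (fun h => h' (by simp [h]))).2.1
        rw [this]
        simp)
  refine e2.trans ?_
  -- integrate over i
  have v2b : BM (fun X : ι → E => C₁ / p.l ^ 3 * (vt p a T X * (A X - B X) ^ 2)) := hBMm _ _ cl vDb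
  have v2i : IndS {i} (fun X : ι → E => C₁ / p.l ^ 3 * (vt p a T X * (A X - B X) ^ 2)) := by
    refine ind_mul (fun _ _ _ => rfl) (ind_mono vDi (by simp))
  have icb : ∀ l : ι, BM (fun X : ι → E => ic (Qb a (2 * p.l)) (X l)) := fun l => by
    refine ⟨?_, 1, fun X => ?_⟩
    · have hm : MeasurableSet (Qb a (2 * p.l)) := ((hM C p β θ hs).2.2.2.2.1 a (2 * p.l)).1
      have : Measurable (ic (Qb a (2 * p.l))) := measurable_const.indicator hm
      exact this.comp (measurable_pi_apply l)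
    · unfold ic
      by_cases hx : X l ∈ Qb a (2 * p.l)
      · simp [hx]
      · simp [hx]
  have fb : BM (fun X : ι → E => C₁ / (p.l ^ 3 * p.R ^ 3) * (ic (Qb a (2 * p.l)) (X k') *
      ic (Qb a (2 * p.l)) (X j'))) := (hb.1 _ _ _ (hBMm _ _ (icb k') (icb j')) (icb k')).2.2.2.2.2.1 _
  have e3 := (hO C ι p β θ hs a ha (insert j (insert k ∅)) i _ _ (by simp [nij, nik]) Fb' v2b v2i).2.2
    (fun X => C₁ / (p.l ^ 3 * p.R ^ 3) * (ic (Qb a (2 * p.l)) (X k') * ic (Qb a (2 * p.l)) (X j'))) fb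
    (fun X => mul_nonneg (by positivity) (vDnn X)) (by
      intro X
      have h1 : (fun x => |K3 θ P a (Function.update X i x i) (Function.update X i x j') (Function.update X i x k')|)
          = (fun x => |K3 θ P a (X j') (X k') x|) := by
        funext x
        rw [Function.update_self, Function.update_of_ne (Ne.symm nij'), Function.update_of_ne (Ne.symm nik')]
        rw [s3.s1 x (X j') (X k'), s3.s2 (X j') x (X k')]
      rw [h1]
      by_cases hj : X j' ∈ Qb a (2 * p.l)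
      · by_cases hk : X k' ∈ Qb a (2 * p.l)
        · rw [mO_int hM hs ha _ (fun x hx => (q3 (X j') (X k') x (fun h => hx (by simp [h]))).2.2)]
          have : ic (Qb a (2 * p.l)) (X k') * ic (Qb a (2 * p.l)) (X j') = 1 := by simp [ic, hj, hk]
          rw [this, mul_one]
          exact b1 _ _
        · have : (fun x => |K3 θ P a (X j') (X k') x|) = fun _ => 0 := by
            funext x
            by_contra h'
            exact hk (q3 (X j') (X k') x (fun h => h' (by simp [h]))).2.1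
          rw [this]
          simp [ic, hk]
      · have : (fun x => |K3 θ P a (X j') (X k') x|) = fun _ => 0 := by
          funext x
          by_contra h'
          exact hj (q3 (X j') (X k') x (fun h => h' (by simp [h]))).1
        rw [this]
        simp [ic, hj])
  have e3' : IA p θ a (insert j (insert k ∅)) (fun X => C₁ / p.l ^ 3 *
      (|K3 θ P a (X i) (X j') (X k')| * (vt p a T X * (A X - B X) ^ 2))) =
      IA p θ a (insert j (insert k ∅)) (fun X => |K3 θ P a (X i) (X j') (X k')| * (C₁ / p.l ^ 3 *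
        (vt p a T X * (A X - B X) ^ 2))) := by
    congr 1
    funext X
    ring
  rw [e3']
  refine e3.trans (le_of_eq ?_)
  have hset : (insert i (insert j (insert k ∅)) : Finset ι) = {i, j, k} := rfl
  rw [hset]
  unfold rh IA
  rw [← integral_const_mul]
  congr 1
  funext X
  by_cases hj : X j' ∈ Qb a (2 * p.l)
  · by_cases hk : X k' ∈ Qb a (2 * p.l)
    · have h1 : vt p a T X = vt p a {i, j, k} X := by
        have := vT0 {j', k'} X (by
          intro x hx _
          simp only [Finset.mem_insert, Finset.mem_singleton] at hx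
          rcases hx with h | h
          · rw [h]; exact hQQ a (2 * p.l) (by linarith) hj
          · rw [h]; exact hQQ a (2 * p.l) (by linarith) hk)
        rw [this, hT, set1]
      dsimp only
      rw [h1]
      have hl0 : (p.l : ℝ) ≠ 0 := by linarith
      have hR0 : (p.R : ℝ) ≠ 0 := by linarith
      simp only [ic, Set.indicator_of_mem hj, Set.indicator_of_mem hk]
      rw [← hAdef, ← hBdef]
      field_simp
    · simp [ic, hk]
  · simp [ic, hj]

end E3Q_

open E3Q_ in
theorem e3q_proof (hb : Pool.Agent.TBL.Stmt_BMC) (hM : Stmt_MSY) (hP : Stmt_PSF) (hA : Stmt_AVP) (_h : Stmt_AVI)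
    (hV : Stmt_VTP) (hK : Stmt_KBD) (hO : Stmt_ONE) : Stmt_E3Q := by
  intro C b
  obtain ⟨C₁, hC, hK⟩ := hK C b
  refine ⟨C₁ ^ 2, by positivity, ?_⟩
  intro ι _ _ p β θ g P u hs hT hu a ha i j k j' k' hn
  obtain ⟨_, k3, _, s3, _, q3, _, z3, _, b1, b2, _, _⟩ := hK p β θ g P hs hT a
  have hn0 := hn
  simp only [List.nodup_cons, List.mem_cons, List.not_mem_nil, or_false, not_or, not_false_eq_true,
    List.nodup_nil, and_true] at hn0
  obtain ⟨⟨nij, nik, nij', nik'⟩, ⟨njk, njj', njk'⟩, ⟨nkj', nkk'⟩, nj'k'⟩ := hn0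
  have hn' : ([i, j', k', j, k] : List ι).Nodup := by
    simp only [List.nodup_cons, List.mem_cons, List.not_mem_nil, or_false, not_or, not_false_eq_true,
      List.nodup_nil, and_true]
    exact ⟨⟨nij', nik', nij, nik⟩, ⟨nj'k', Ne.symm njj', Ne.symm nkj'⟩, ⟨Ne.symm njk', Ne.symm nkk'⟩, njk⟩
  have H1 := half hb hM hP hA hV hO hC hs hu ha k3 s3 q3 b1 b2 i j k j' k' hn {i, j, k, j', k'} rfl
  have H2 := half hb hM hP hA hV hO hC hs hu ha k3 s3 q3 b1 b2 i j' k' j k hn' {i, j, k, j', k'} (set3 i j k j' k')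
  obtain ⟨hl, hfO, _, _, _, hQQ, hpr, _, _, _, _⟩ := hM C p β θ hs
  haveI := hpr a
  haveI := hfO
  obtain ⟨vb, vi, v01, vT, _⟩ := hV ι C p β θ hs a {i, j, k, j', k'}
  obtain ⟨_, _, _, vT1, _⟩ := hV ι C p β θ hs a {i, j, k}
  obtain ⟨_, _, _, vT2, _⟩ := hV ι C p β θ hs a {i, j', k'}
  set v := vt p a ({i, j, k, j', k'} : Finset ι) with hv
  obtain ⟨A1b, A1i, _⟩ := hA ι (tm (θ a)) {i, j, k} ∅ u u hu hu
  obtain ⟨B1b, B1i, _⟩ := hA ι (tm (θ a)) (insert j' {i, j, k}) ∅ u u hu hu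
  obtain ⟨A2b, A2i, _⟩ := hA ι (tm (θ a)) {i, j', k'} ∅ u u hu hu
  obtain ⟨B2b, B2i, _⟩ := hA ι (tm (θ a)) (insert j {i, j', k'}) ∅ u u hu hu
  have hBMm : ∀ F G : (ι → E) → ℝ, BM F → BM G → BM (fun X => F X * G X) := fun F G hF hG =>
    (hb.1 (ι → E) F G hF hG).2.2.1
  have hBMs : ∀ F G : (ι → E) → ℝ, BM F → BM G → BM (fun X => F X - G X) := fun F G hF hG =>
    (hb.1 (ι → E) F G hF hG).2.1
  haveI hfin : IsFiniteMeasure (PiS (tm (θ a)) (mO p.L) (∅ : Finset ι)) := (hP ι (tm (θ a)) (mO p.L) ∅).1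
  have hint : ∀ F : (ι → E) → ℝ, BM F → Integrable F (PiS (tm (θ a)) (mO p.L) (∅ : Finset ι)) := fun F hF =>
    (hb.1 (ι → E) F F hF hF).2.2.2.2.2.2 _
  have Fb : BM (fun X : ι → E => K3 θ P a (X i) (X j) (X k)) := bmk hb k3 i j k
  have Fb' : BM (fun X : ι → E => K3 θ P a (X i) (X j') (X k')) := bmk hb k3 i j' k'
  set F := (fun X : ι → E => K3 θ P a (X i) (X j) (X k)) with hFd
  set F' := (fun X : ι → E => K3 θ P a (X i) (X j') (X k')) with hFd'
  set A1 := Av (tm (θ a)) {i, j, k} u with hA1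
  set B1 := Av (tm (θ a)) (insert j' {i, j, k}) u with hB1
  set A2 := Av (tm (θ a)) {i, j', k'} u with hA2
  set B2 := Av (tm (θ a)) (insert j {i, j', k'}) u with hB2
  -- pointwise identity
  have hpt : (fun X : ι → E => (K3 θ P a (X i) (X j) (X k) * Am p θ u a {i, j, k} X) *
      (K3 θ P a (X i) (X j') (X k') * Am p θ u a {i, j', k'} X)) =
      fun X => F' X * (F X * (v X * (A1 X * A2 X))) := by
    funext X
    show (F X * (vt p a {i, j, k} X * A1 X)) * (F' X * (vt p a {i, j', k'} X * A2 X)) = _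
    by_cases h1 : F X = 0
    · rw [h1]; ring
    by_cases h2 : F' X = 0
    · rw [h2]; ring
    obtain ⟨xi, xj, xk⟩ := q3 _ _ _ h1
    obtain ⟨_, xj', xk'⟩ := q3 _ _ _ h2
    have q1 := hQQ a (2 * p.l) (by linarith) xj
    have q2 := hQQ a (2 * p.l) (by linarith) xk
    have q1' := hQQ a (2 * p.l) (by linarith) xj'
    have q2' := hQQ a (2 * p.l) (by linarith) xk'
    have w1 : vt p a {i, j, k} X = v X := by
      rw [vT1 {j', k'} X (by
        intro x hx _
        simp only [Finset.mem_insert, Finset.mem_singleton] at hx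
        rcases hx with h | h
        · rw [h]; exact q1'
        · rw [h]; exact q2'), set1, hv]
    have w2 : vt p a {i, j', k'} X = v X := by
      rw [vT2 {j, k} X (by
        intro x hx _
        simp only [Finset.mem_insert, Finset.mem_singleton] at hx
        rcases hx with h | h
        · rw [h]; exact q1
        · rw [h]; exact q2), set2, hv]
    rw [w1, w2]
    rcases (v01 X).1 with h | h <;> rw [h] <;> ring
  rw [hpt, IO_IA p θ a]
  have Ti : ∀ x ∈ ({i, j, k, j', k'} : Finset ι), IndS {x} v := fun x hx => ind_mono vi (by simpa using hx)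
  -- first subtraction
  have z1 : IA p θ a ∅ (fun X => F' X * (F X * (v X * (B1 X * A2 X)))) = 0 := by
    refine (hO C ι p β θ hs a ha ∅ j' F' (fun X => F X * (v X * (B1 X * A2 X))) (by simp) Fb'
      (hBMm _ _ Fb (hBMm _ _ vb (hBMm _ _ B1b A2b))) ?_).2.1 ?_
    · refine ind_mul (ind_k (fun x y z => K3 θ P a x y z) (by simpa using nij') (by simpa using njj')
        (by simpa using nkj')) (ind_mul (Ti j' (by simp)) (ind_mul (ind_mono B1i (by simp)) (ind_mono A2i (by simp))))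
    · intro X
      have h1 : (fun x => F' (Function.update X j' x)) = (fun x => K3 θ P a (X i) (X k') x) := by
        funext x
        show K3 θ P a (Function.update X j' x i) (Function.update X j' x j') (Function.update X j' x k') = _
        rw [Function.update_self, Function.update_of_ne nij', Function.update_of_ne (Ne.symm nj'k')]
        exact s3.s2 _ _ _
      rw [h1, mO_int hM hs ha _ (fun x hx => (q3 _ _ _ hx).2.2)]
      exact z3 _ _
  -- second subtraction
  have z2 : IA p θ a ∅ (fun X => F X * (F' X * (v X * ((A1 X - B1 X) * B2 X)))) = 0 := by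
    refine (hO C ι p β θ hs a ha ∅ j F (fun X => F' X * (v X * ((A1 X - B1 X) * B2 X))) (by simp) Fb
      (hBMm _ _ Fb' (hBMm _ _ vb (hBMm _ _ (hBMs _ _ A1b B1b) B2b))) ?_).2.1 ?_
    · refine ind_mul (ind_k (fun x y z => K3 θ P a x y z) (by simpa using nij) (by simpa using Ne.symm njj')
        (by simpa using Ne.symm njk')) (ind_mul (Ti j (by simp)) (ind_mul (ind_sub (ind_mono A1i (by simp))
          (ind_mono B1i (by simp))) (ind_mono B2i (by simp))))
    · intro X
      have h1 : (fun x => F (Function.update X j x)) = (fun x => K3 θ P a (X i) (X k) x) := by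
        funext x
        show K3 θ P a (Function.update X j x i) (Function.update X j x j) (Function.update X j x k) = _
        rw [Function.update_self, Function.update_of_ne nij, Function.update_of_ne (Ne.symm njk)]
        exact s3.s2 _ _ _
      rw [h1, mO_int hM hs ha _ (fun x hx => (q3 _ _ _ hx).2.2)]
      exact z3 _ _
  have bA : BM (fun X => F' X * (F X * (v X * (A1 X * A2 X)))) :=
    hBMm _ _ Fb' (hBMm _ _ Fb (hBMm _ _ vb (hBMm _ _ A1b A2b)))
  have bB : BM (fun X => F' X * (F X * (v X * (B1 X * A2 X)))) :=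
    hBMm _ _ Fb' (hBMm _ _ Fb (hBMm _ _ vb (hBMm _ _ B1b A2b)))
  have bC : BM (fun X => F X * (F' X * (v X * ((A1 X - B1 X) * B2 X)))) :=
    hBMm _ _ Fb (hBMm _ _ Fb' (hBMm _ _ vb (hBMm _ _ (hBMs _ _ A1b B1b) B2b)))
  have IAs : ∀ f g : (ι → E) → ℝ, BM f → BM g → IA p θ a ∅ (fun X => f X - g X) =
      IA p θ a ∅ f - IA p θ a ∅ g := fun f g hf hg => integral_sub (hint f hf) (hint g hg)
  have key : IA p θ a ∅ (fun X => F' X * (F X * (v X * (A1 X * A2 X)))) =
      IA p θ a ∅ (fun X => F X * (F' X * (v X * ((A1 X - B1 X) * (A2 X - B2 X))))) := by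
    have e1 : IA p θ a ∅ (fun X => F X * (F' X * (v X * ((A1 X - B1 X) * (A2 X - B2 X))))) =
        IA p θ a ∅ (fun X => F' X * (F X * (v X * (A1 X * A2 X)))) -
        IA p θ a ∅ (fun X => F' X * (F X * (v X * (B1 X * A2 X)))) -
        IA p θ a ∅ (fun X => F X * (F' X * (v X * ((A1 X - B1 X) * B2 X)))) := by
      rw [← IAs _ _ bA bB, ← IAs _ _ (hBMs _ _ bA bB) bC]
      congr 1
      funext X
      ring
    rw [e1, z1, z2]
    ring
  rw [key]
  -- majorant
  have absb : BM3 (fun x y z => |K3 θ P a x y z|) := (hb.1 _ _ _ k3 k3).2.2.2.2.1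
  have aFb : BM (fun X : ι → E => |F X|) := bmk hb absb i j k
  have aFb' : BM (fun X : ι → E => |F' X|) := bmk hb absb i j' k'
  have D1b : BM (fun X => (A1 X - B1 X) ^ 2) := (hb.1 _ _ _ (hBMs _ _ A1b B1b) A1b).2.2.2.1
  have D2b : BM (fun X => (A2 X - B2 X) ^ 2) := (hb.1 _ _ _ (hBMs _ _ A2b B2b) A1b).2.2.2.1
  have m1 : BM (fun X => (|F X| * |F' X|) * (v X * (A1 X - B1 X) ^ 2)) :=
    hBMm _ _ (hBMm _ _ aFb aFb') (hBMm _ _ vb D1b)
  have m2 : BM (fun X => (|F X| * |F' X|) * (v X * (A2 X - B2 X) ^ 2)) :=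
    hBMm _ _ (hBMm _ _ aFb aFb') (hBMm _ _ vb D2b)
  have bD : BM (fun X => F X * (F' X * (v X * ((A1 X - B1 X) * (A2 X - B2 X))))) :=
    hBMm _ _ Fb (hBMm _ _ Fb' (hBMm _ _ vb (hBMm _ _ (hBMs _ _ A1b B1b) (hBMs _ _ A2b B2b))))
  have fin : IA p θ a ∅ (fun X => F X * (F' X * (v X * ((A1 X - B1 X) * (A2 X - B2 X))))) ≤
      IA p θ a ∅ (fun X => (|F X| * |F' X|) * (v X * (A1 X - B1 X) ^ 2)) +
      IA p θ a ∅ (fun X => (|F X| * |F' X|) * (v X * (A2 X - B2 X) ^ 2)) := by
    unfold IA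
    rw [← integral_add (hint _ m1) (hint _ m2)]
    refine integral_mono (hint _ bD) ((hint _ m1).add (hint _ m2)) (fun X => ?_)
    simp only [Pi.add_apply]
    have vn : 0 ≤ v X := by rcases (v01 X).1 with h | h <;> rw [h] <;> norm_num
    have h1 : F X * (F' X * (v X * ((A1 X - B1 X) * (A2 X - B2 X)))) ≤
        |F X| * |F' X| * (v X * (|A1 X - B1 X| * |A2 X - B2 X|)) := by
      refine (le_abs_self _).trans (le_of_eq ?_)
      rw [abs_mul, abs_mul, abs_mul, abs_mul, abs_of_nonneg vn]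
      ring
    refine h1.trans ?_
    have h2 : |A1 X - B1 X| * |A2 X - B2 X| ≤ (A1 X - B1 X) ^ 2 + (A2 X - B2 X) ^ 2 := by
      rw [← sq_abs (A1 X - B1 X), ← sq_abs (A2 X - B2 X)]
      nlinarith [sq_nonneg (|A1 X - B1 X| - |A2 X - B2 X|), sq_nonneg (|A1 X - B1 X|), sq_nonneg (|A2 X - B2 X|)]
    calc |F X| * |F' X| * (v X * (|A1 X - B1 X| * |A2 X - B2 X|))
        ≤ |F X| * |F' X| * (v X * ((A1 X - B1 X) ^ 2 + (A2 X - B2 X) ^ 2)) := by gcongr
      _ = _ := by ring
  refine fin.trans ?_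
  rw [mul_add]
  refine add_le_add ?_ ?_
  · rw [← IO_IA p θ a]
    exact H1
  · rw [← IO_IA p θ a]
    refine le_trans (le_of_eq ?_) H2
    congr 1
    funext X
    ring

end Pool.Agent.TBS
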