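import Pool.Agent.TBS.StmtsC

/-!
# Squad TBS: module EXA (the weighted square of `aF`)
-/

set_option autoImplicit false

open MeasureTheory Filter Topology
open scoped ContDiff

namespace Pool.Agent.TBS

open Pool.Agent.TBG Pool.Agent.TBL Pool.Agent.TBF

namespace EXA_

lemma bm_of_cu {ι : Type} [Fintype ι] {u : (ι → E) → ℝ} (hu : CU u) : BM u := by
  obtain ⟨h1, h2⟩ := hu
  obtain ⟨C, hC⟩ := h1.continuous.bounded_above_of_compact_support h2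
  exact ⟨h1.continuous.measurable, C, fun X => by simpa using hC X⟩

lemma bm_cmul {α : Type} [MeasurableSpace α] {F : α → ℝ} (a : ℝ) (hF : BM F) :
    BM (fun X => a * F X) := by
  obtain ⟨h1, C1, b1⟩ := hF
  refine ⟨h1.const_mul a, |a| * C1, fun X => ?_⟩
  rw [abs_mul]
  exact mul_le_mul_of_nonneg_left (b1 X) (abs_nonneg _)

lemma ck_scale {m : ℕ} {l κ κ' D : ℝ} {K : (Fin (m + 1) → E) → ℝ} (hD : 0 < D)
    (hκ : κ' ≤ D * κ) (h : Ck m l κ' K) : Ck m l κ (fun x => D⁻¹ * K x) where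
  bm := bm_cmul _ h.bm
  nn := fun x => mul_nonneg (inv_nonneg.2 hD.le) (h.nn x)
  sp := fun x hx => h.sp x (right_ne_zero_of_mul hx)
  mass := fun x₀ => by
    rw [integral_const_mul]
    have h1 := (h.mass x₀).trans hκ
    calc D⁻¹ * ∫ z : Fin m → E, K (Fin.cons x₀ z) ≤ D⁻¹ * (D * κ) :=
          mul_le_mul_of_nonneg_left h1 (inv_nonneg.2 hD.le)
      _ = κ := by field_simp

lemma ck_weak {m : ℕ} {l κ κ' : ℝ} {K : (Fin (m + 1) → E) → ℝ} (hκ : κ' ≤ κ) (h : Ck m l κ' K) :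
    Ck m l κ K where
  bm := h.bm
  nn := h.nn
  sp := h.sp
  mass := fun x₀ => (h.mass x₀).trans hκ

lemma pk_weak {l w₁ w₂ w₃ v₁ v₂ v₃ : ℝ} {q : E → ℝ} (h : Pk l w₁ w₂ w₃ q) (h1 : w₁ ≤ v₁)
    (h2 : w₂ ≤ v₂) (h3 : w₃ ≤ v₃) : Pk l v₁ v₂ v₃ q where
  meas := h.meas
  nn := h.nn
  le1 := h.le1
  sp := h.sp
  m1 := h.m1.trans h1
  m2 := fun x => (h.m2 x).trans h2
  m3 := h.m3.trans h3

lemma bm_pk {l w₁ w₂ w₃ : ℝ} {q : E → ℝ} (h : Pk l w₁ w₂ w₃ q) : BM q :=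
  ⟨h.meas, 1, fun x => by rw [abs_of_nonneg (h.nn x)]; exact h.le1 x⟩

lemma fin_mO (L : ℝ) : IsFiniteMeasure (mO L) := by
  refine ⟨?_⟩
  unfold mO
  rw [Measure.restrict_apply_univ]
  have h1 : Om L ⊆ Metric.closedBall 0 |L| := by
    intro x hx
    rw [mem_closedBall_zero_iff, EuclideanSpace.norm_eq]
    refine Real.sqrt_le_iff.2 ⟨abs_nonneg _, ?_⟩
    have h2 : ∀ c : Fin 3, ‖x c‖ ^ 2 ≤ L ^ 2 / 4 := by
      intro c
      have h3 : |x c| < L / 2 := hx c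
      have h4 := abs_nonneg (x c)
      rw [Real.norm_eq_abs]
      nlinarith
    calc ∑ c : Fin 3, ‖x c‖ ^ 2 ≤ ∑ _c : Fin 3, L ^ 2 / 4 := Finset.sum_le_sum fun c _ => h2 c
      _ = 3 * (L ^ 2 / 4) := by simp
      _ ≤ |L| ^ 2 := by rw [sq_abs]; nlinarith [sq_nonneg L]
  exact (measure_mono h1).trans_lt (isCompact_closedBall _ _).measure_lt_top

/-- squares of the components of a field -/
lemma comp_sq {J : Type} (s : Finset J) (h : J → ℝ) (A : J → Fin 3 → ℝ) :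
    ∑ c, (1 / 2 * ∑ e ∈ s, h e * A e c) ^ 2 ≤ 1 / 4 * (∑ e ∈ s, |h e| * ∑ c, |A e c|) ^ 2 := by
  have h1 : ∀ c, |∑ e ∈ s, h e * A e c| ≤ ∑ e ∈ s, |h e| * |A e c| := fun c =>
    (Finset.abs_sum_le_sum_abs _ _).trans (Finset.sum_le_sum fun e _ => by rw [abs_mul])
  have h2 : ∑ c, (∑ e ∈ s, h e * A e c) ^ 2 ≤ (∑ c, ∑ e ∈ s, |h e| * |A e c|) ^ 2 := by
    have h3 : ∀ c, (∑ e ∈ s, h e * A e c) ^ 2 ≤ (∑ e ∈ s, |h e| * |A e c|) ^ 2 := fun c => by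
      rw [← sq_abs]
      exact pow_le_pow_left₀ (abs_nonneg _) (h1 c) 2
    have h4 : ∀ c, 0 ≤ ∑ e ∈ s, |h e| * |A e c| := fun c => Finset.sum_nonneg fun e _ =>
      mul_nonneg (abs_nonneg _) (abs_nonneg _)
    refine (Finset.sum_le_sum fun c _ => h3 c).trans ?_
    simp only [Fin.sum_univ_three]
    nlinarith [mul_nonneg (h4 0) (h4 1), mul_nonneg (h4 0) (h4 2), mul_nonneg (h4 1) (h4 2)]
  have h5 : ∑ c, (1 / 2 * ∑ e ∈ s, h e * A e c) ^ 2 = 1 / 4 * ∑ c, (∑ e ∈ s, h e * A e c) ^ 2 := by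
    rw [Finset.mul_sum]
    exact Finset.sum_congr rfl fun c _ => by ring
  have h6 : ∑ c, ∑ e ∈ s, |h e| * |A e c| = ∑ e ∈ s, |h e| * ∑ c, |A e c| := by
    rw [Finset.sum_comm]
    exact Finset.sum_congr rfl fun e _ => by rw [Finset.mul_sum]
  rw [h5, ← h6]
  exact mul_le_mul_of_nonneg_left h2 (by norm_num)

lemma s2_swap {ι : Type} (e : Fin 4 → ι) : s2 (e ∘ (Equiv.swap (2 : Fin 4) 3)) = s3 e := by
  have h0 : (Equiv.swap (2 : Fin 4) 3) 0 = 0 := by decide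
  have h1 : (Equiv.swap (2 : Fin 4) 3) 1 = 1 := by decide
  have h2 : (Equiv.swap (2 : Fin 4) 3) 2 = 3 := by decide
  unfold s2 s3
  simp only [Function.comp_apply, h0, h1, h2]

lemma s3_swap {ι : Type} (e : Fin 4 → ι) : s3 (e ∘ (Equiv.swap (2 : Fin 4) 3)) = s2 e := by
  have h0 : (Equiv.swap (2 : Fin 4) 3) 0 = 0 := by decide
  have h1 : (Equiv.swap (2 : Fin 4) 3) 1 = 1 := by decide
  have h2 : (Equiv.swap (2 : Fin 4) 3) 3 = 2 := by decide
  unfold s2 s3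
  simp only [Function.comp_apply, h0, h1, h2]

lemma s2_ap {ι : Type} (e : Fin 3 → ι) (j : ι) : s2 (ap e j) = e := by
  funext s
  fin_cases s <;> rfl

lemma s3_ap {ι : Type} (e : Fin 3 → ι) (j : ι) : s3 (ap e j) = ![e 0, e 1, j] := by
  funext s
  fin_cases s <;> rfl

end EXA_

open EXA_ in
theorem exa_proof (hBMC : Pool.Agent.TBL.Stmt_BMC) (hHSF : Stmt_HSF) (hTUP : Stmt_TUP)
    (hCM3 : Stmt_CM3) (hTRK : Stmt_TRK) (hKBM : Stmt_KBM) (hGS2 : Stmt_GS2)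
    (hQEG : Stmt_QEG) (hZET : Stmt_ZET) (hGW0 : Stmt_GW0) (hGW1 : Stmt_GW1) : Stmt_EXA := by
  intro C
  obtain ⟨Ca, hCa, hca⟩ := hQEG 2 2 2 2
  obtain ⟨c1, hc1, hg1⟩ := hGS2 C 2
  obtain ⟨d0, hd0, hw0⟩ := hGW0 C 2
  obtain ⟨d1, hd1, hw1⟩ := hGW1 C 2
  obtain ⟨C₂, hC₂, hhs⟩ := hHSF C
  obtain ⟨D, hDdef⟩ : ∃ D : ℝ, D = max C 1 := ⟨_, rfl⟩
  have hD1 : 1 ≤ D := by rw [hDdef]; exact le_max_right _ _
  have hD0 : 0 < D := lt_of_lt_of_le one_pos hD1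
  have hCD : C ≤ D := by rw [hDdef]; exact le_max_left _ _
  refine ⟨d0 * D + D ^ 2 * (d1 * D) + D ^ 2 * (Ca * (c1 * D ^ 2)), by positivity, ?_⟩
  intro ι _ _ p Mc M₁ β θ φ τ g y Y u hGr hM₁ hY hu hφ hT hKF
  classical
  have hub : BM u := bm_of_cu hu
  have hR1 : 1 ≤ p.R := hY.hR
  have hR0 : 0 < p.R := lt_of_lt_of_le one_pos hR1
  have hl0 : 0 < p.l := hGr.l0
  have hμ : 0 ≤ p.M / p.l ^ 3 := div_nonneg (by linarith [hY.hM]) (by positivity)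
  obtain ⟨hB1, hB2, hB3, hB4, hB5⟩ := hBMC
  obtain ⟨-, hZ1⟩ := hZET
  obtain ⟨-, hZi, -, hZb, -⟩ := hZ1 ι p Mc M₁ hGr hM₁
  have hmul : ∀ {α : Type} [MeasurableSpace α] {F G : α → ℝ}, BM F → BM G →
      BM (fun X => F X * G X) := fun {α} _ {F G} hF hG => (hB1 _ F G hF hG).2.2.1
  have hsq : ∀ {α : Type} [MeasurableSpace α] {F : α → ℝ}, BM F →
      BM (fun X => F X ^ 2) := fun {α} _ {F} hF => (hB1 _ F F hF hF).2.2.2.1
  have hadd : ∀ {α : Type} [MeasurableSpace α] {F G : α → ℝ}, BM F → BM G →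
      BM (fun X => F X + G X) := fun {α} _ {F G} hF hG => (hB1 _ F G hF hG).1
  have hsub : ∀ {α : Type} [MeasurableSpace α] {F G : α → ℝ}, BM F → BM G →
      BM (fun X => F X - G X) := fun {α} _ {F G} hF hG => (hB1 _ F G hF hG).2.1
  have hab : ∀ {α : Type} [MeasurableSpace α] {F : α → ℝ}, BM F → BM (fun X => |F X|) :=
    fun {α} _ {F} hF => (hB1 _ F F hF hF).2.2.2.2.1
  have hsum : ∀ {α J : Type} [MeasurableSpace α] (s : Finset J) (F : J → α → ℝ),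
      (∀ i ∈ s, BM (F i)) → BM (fun X => ∑ i ∈ s, F i X) := fun {α J} _ s F h => hB3 α J s F h
  have hint : ∀ (F : (ι → E) → ℝ), BM F →
      Integrable F (PiS (mO p.L) (mO p.L) (∅ : Finset ι)) := by
    have hmO : IsFiniteMeasure (mO p.L) := fin_mO p.L
    have hfO : IsFiniteMeasure (PiS (mO p.L) (mO p.L) (∅ : Finset ι)) := by
      unfold PiS
      have : ∀ i, IsFiniteMeasure (if i ∈ (∅ : Finset ι) then mO p.L else mO p.L) := by
        intro i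
        split_ifs <;> infer_instance
      infer_instance
    exact fun F hF => (hB1 _ F F hF hF).2.2.2.2.2.2 _
  have him : ∀ {k : ℕ} (e : Fin (k + 1) → ι), (im e).Nonempty := by
    intro k e
    exact ⟨e 0, Finset.mem_image_of_mem _ (Finset.mem_univ _)⟩
  have hhbm : ∀ {k : ℕ} (e : Fin (k + 1) → ι), BM (hS p β θ u (im e)) :=
    fun e => (hhs ι p β θ u (im e) hY hub (him e)).1
  have hh2b : ∀ {k : ℕ} (e : Fin (k + 1) → ι), BM (hh2 p θ u (im e)) :=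
    fun e => (hhs ι p β θ u (im e) hY hub (him e)).2.1
  have hh2n : ∀ {k : ℕ} (e : Fin (k + 1) → ι) (X : ι → E), 0 ≤ hh2 p θ u (im e) X ∧
      hS p β θ u (im e) X ^ 2 ≤ hh2 p θ u (im e) X :=
    fun e => (hhs ι p β θ u (im e) hY hub (him e)).2.2.1
  -- the kernels
  obtain ⟨K, hKdef⟩ : ∃ K : (Fin 3 → E) → ℝ, K = fun x => D⁻¹ * kA τ x := ⟨_, rfl⟩
  have hKc : Ck 2 p.l p.R K := by
    rw [hKdef]
    exact ck_scale hD0 (mul_le_mul_of_nonneg_right hCD (zero_le_one.trans hR1)) hKF.cA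
  have hKA : ∀ x, kA τ x = D * K x := by
    intro x
    rw [hKdef]
    simp only
    rw [← mul_assoc, mul_inv_cancel₀ hD0.ne', one_mul]
  obtain ⟨q, hqd⟩ : ∃ q : E → ℝ, q = pk (5 / 2) p.R := ⟨_, rfl⟩
  have hq : Pk p.l (D * Real.sqrt p.R) D D q := by
    rw [hqd]
    exact pk_weak hKF.pA (mul_le_mul_of_nonneg_right hCD (Real.sqrt_nonneg _)) hCD hCD
  have hKq : ∀ x, K x ≤ ∏ s : Fin 2, q (x 0 - x s.succ) := by
    intro x
    have hP : 0 ≤ ∏ s : Fin 2, q (x 0 - x s.succ) :=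
      Finset.prod_nonneg fun s _ => hq.nn _
    have h1 : kA τ x ≤ D * ∏ s : Fin 2, q (x 0 - x s.succ) := by
      rw [hqd] at hP ⊢
      exact (hKF.dA x).trans (mul_le_mul_of_nonneg_right hCD hP)
    calc K x = D⁻¹ * kA τ x := by rw [hKdef]
      _ ≤ D⁻¹ * (D * ∏ s : Fin 2, q (x 0 - x s.succ)) :=
          mul_le_mul_of_nonneg_left h1 (inv_nonneg.2 hD0.le)
      _ = _ := by rw [← mul_assoc, inv_mul_cancel₀ hD0.ne', one_mul]
  have hK1 : ∀ x : Fin 3 → E, K x ≤ q (x 0 - x 2) := by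
    intro x
    refine (hKq x).trans ?_
    rw [Fin.prod_univ_two]
    have h2 : (Fin.succ (1 : Fin 2)) = 2 := rfl
    rw [h2]
    exact mul_le_of_le_one_left (hq.nn _) (hq.le1 _)
  have hK2c : Ck 2 p.l D (fun x => kA τ x ^ 2) := ck_weak hCD hKF.cA2
  have hQa := hca C ι p β θ u p.R p.R _ _ _ _ _ _ K K _ _ hY hub hKc hKc hq hq hKq hKq
  obtain ⟨hG0, hG1⟩ := hg1 ι p β θ u p.R _ _ _ K _ hY hu hKc hq
  have hW0 := hw0 ι p Mc M₁ β θ u D (fun x => kA τ x ^ 2) hGr hM₁ hY hu hK2c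
  have hW1 := hw1 ι p Mc M₁ β θ u p.R _ _ _ K q hGr hM₁ hY hu hKc hq
  have hAW : 0 ≤ AW p Mc M₁ θ u 3 := by
    unfold AW
    refine mul_nonneg (by positivity) (Finset.sum_nonneg fun a _ => Finset.sum_nonneg fun e _ => ?_)
    unfold IA
    exact integral_nonneg fun X => mul_nonneg ((hZb a (im e)).2.2 X) (sq_nonneg _)
  have hE33 : 0 ≤ E33 p θ u := by
    have h1 : GS p θ u 2 2 K q ≤ (c1 * D ^ 2) * E33 p θ u := by
      refine hG1.trans (le_of_eq ?_)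
      unfold E33
      ring
    have h2 : 0 < c1 * D ^ 2 := by positivity
    exact nonneg_of_mul_nonneg_right (hG0.trans h1) h2
  -- the integrands
  have hcomp : ∀ {k : ℕ} (e : Fin k → ι), Measurable fun X : ι → E => X ∘ e := by
    intro k e
    exact measurable_pi_lambda _ fun i => measurable_pi_apply (e i)
  have hKbm : ∀ e : Fin 3 → ι, BM (fun X : ι → E => K (X ∘ e)) :=
    fun e => hB4 _ _ K _ hKc.bm (hcomp e)
  have hKAbm : ∀ e : Fin 3 → ι, BM (fun X : ι → E => kA τ (X ∘ e) ^ 2) :=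
    fun e => hB4 _ _ (fun x => kA τ x ^ 2) _ hK2c.bm (hcomp e)
  have hqbm : ∀ i j : ι, BM (fun X : ι → E => q (X i - X j)) := by
    intro i j
    exact hB4 _ _ q (fun X : ι → E => X i - X j) (bm_pk hq)
      ((measurable_pi_apply i).sub (measurable_pi_apply j))
  obtain ⟨t1, ht1⟩ : ∃ t1 : (Fin 3 → ι) → Finset (Fin 3 → ι), t1 = fun e =>
    (Ij 3 ι).filter (fun e' => e' 0 = e 0 ∧ (im e' \ im e).card = 2 ∧
      (im e \ im e').card = 2) := ⟨_, rfl⟩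
  obtain ⟨S1, hS1⟩ : ∃ S1 : (ι → E) → ℝ, S1 = fun X => ∑ e ∈ Ij 3 ι, zi p.l Mc M₁ (e 0) X *
    (hh2 p θ u (im e) X * kA τ (X ∘ e) ^ 2) := ⟨_, rfl⟩
  obtain ⟨S2, hS2⟩ : ∃ S2 : (ι → E) → ℝ, S2 = fun X => ∑ e ∈ Ij 3 ι, ∑ j ∈ Finset.univ \ im e,
    zi p.l Mc M₁ (e 0) X * (hh2 p θ u (im e) X * (K (X ∘ e) * q (X (e 0) - X j))) := ⟨_, rfl⟩
  obtain ⟨S3, hS3⟩ : ∃ S3 : (ι → E) → ℝ, S3 = fun X => ∑ e ∈ Ij 3 ι, ∑ e' ∈ t1 e,
      |hS p β θ u (im e) X| * (|hS p β θ u (im e') X| * (K (X ∘ e) * K (X ∘ e'))) := ⟨_, rfl⟩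
  have hS1b : BM S1 := by
    rw [hS1]
    exact hsum _ _ fun e _ => hmul (hZi (e 0)).1 (hmul (hh2b (k := 2) e) (hKAbm e))
  have hS2b : BM S2 := by
    rw [hS2]
    exact hsum _ _ fun e _ => hsum _ _ fun j _ => hmul (hZi (e 0)).1 (hmul (hh2b (k := 2) e)
      (hmul (hKbm e) (hqbm _ _)))
  have hS3b : BM S3 := by
    rw [hS3]
    exact hsum _ _ fun e _ => hsum _ _ fun e' _ => hmul (hab (hhbm (k := 2) e))
      (hmul (hab (hhbm (k := 2) e')) (hmul (hKbm e) (hKbm e')))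
  -- the pointwise inequality
  have hpt : ∀ X : ι → E, (∑ i, zi p.l Mc M₁ i X * ∑ c, aF p β θ τ u i c X ^ 2) ≤
      d0⁻¹ * 0 + (1 / 2 * S1 X + D ^ 2 * S2 X + D ^ 2 * S3 X) := by
    intro X
    have hz : ∀ i, 0 ≤ zi p.l Mc M₁ i X ∧ zi p.l Mc M₁ i X ≤ 1 := fun i => (hZi i).2 X
    obtain ⟨F, hF⟩ : ∃ F : (Fin 3 → ι) → ℝ, F = fun e => Real.sqrt (zi p.l Mc M₁ (e 0) X) *
      (|hS p β θ u (im e) X| * kA τ (X ∘ e)) := ⟨_, rfl⟩
    have hkn : ∀ e : Fin 3 → ι, 0 ≤ kA τ (X ∘ e) := fun e => hKF.cA.nn _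
    have hKn : ∀ e : Fin 3 → ι, 0 ≤ K (X ∘ e) := fun e => hKc.nn _
    -- first step
    have h1 : (∑ i, zi p.l Mc M₁ i X * ∑ c, aF p β θ τ u i c X ^ 2) ≤
        1 / 4 * ∑ i, (∑ e ∈ (Ij 3 ι).filter (fun e => e 0 = i), F e) *
          (∑ e ∈ (Ij 3 ι).filter (fun e => e 0 = i), F e) := by
      rw [Finset.mul_sum]
      refine Finset.sum_le_sum fun i _ => ?_
      have h2 : ∑ c, aF p β θ τ u i c X ^ 2 ≤
          1 / 4 * (∑ e ∈ (Ij 3 ι).filter (fun e => e 0 = i), |hS p β θ u (im e) X| *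
            kA τ (X ∘ e)) ^ 2 := by
        unfold aF kA
        exact comp_sq _ _ _
      have h3 : ∑ e ∈ (Ij 3 ι).filter (fun e => e 0 = i), F e =
          Real.sqrt (zi p.l Mc M₁ i X) * ∑ e ∈ (Ij 3 ι).filter (fun e => e 0 = i),
            |hS p β θ u (im e) X| * kA τ (X ∘ e) := by
        rw [Finset.mul_sum, hF]
        refine Finset.sum_congr rfl fun e he => ?_
        simp only
        rw [(Finset.mem_filter.1 he).2]
      rw [h3]
      have h4 := mul_le_mul_of_nonneg_left h2 (hz i).1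
      refine h4.trans (le_of_eq ?_)
      have h5 := Real.mul_self_sqrt (hz i).1
      calc zi p.l Mc M₁ i X * (1 / 4 * (∑ e ∈ (Ij 3 ι).filter (fun e => e 0 = i),
            |hS p β θ u (im e) X| * kA τ (X ∘ e)) ^ 2) =
          1 / 4 * (zi p.l Mc M₁ i X * (∑ e ∈ (Ij 3 ι).filter (fun e => e 0 = i),
            |hS p β θ u (im e) X| * kA τ (X ∘ e)) ^ 2) := by ring
        _ = 1 / 4 * ((Real.sqrt (zi p.l Mc M₁ i X) * Real.sqrt (zi p.l Mc M₁ i X)) *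
            (∑ e ∈ (Ij 3 ι).filter (fun e => e 0 = i),
            |hS p β θ u (im e) X| * kA τ (X ∘ e)) ^ 2) := by rw [h5]
        _ = _ := by ring
    have hper : ∀ e : Fin 3 → ι, F (e ∘ Equiv.swap 1 2) = F e := by
      intro e
      have h2 := ((hTUP ι).2.1 3 (Equiv.swap 1 2)).2 e
      have h5 : (Equiv.swap (1 : Fin 3) 2) 0 = 0 := by decide
      have h6 : kA τ (X ∘ (e ∘ (Equiv.swap (1 : Fin 3) 2))) = kA τ (X ∘ e) := by
        unfold kA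
        refine Finset.sum_congr rfl fun c _ => ?_
        have h7 := (((hTRK.2 τ hT.smooth hT.sy1 hT.sy2 (X ∘ e)).1 (Equiv.swap 1 2)).2.2.2 c).1
        rw [← Function.comp_assoc, h7, h5]
      rw [hF]
      simp only
      rw [h2.1, h6, Function.comp_apply, h5]
    have hcm := hCM3 ι F F hper hper
    rw [hcm] at h1
    -- the diagonal
    have hd : ∑ e ∈ Ij 3 ι, F e * F e ≤ S1 X := by
      rw [hS1]
      refine Finset.sum_le_sum fun e _ => ?_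
      have h5 := Real.mul_self_sqrt (hz (e 0)).1
      calc F e * F e = (Real.sqrt (zi p.l Mc M₁ (e 0) X) * Real.sqrt (zi p.l Mc M₁ (e 0) X)) *
            (|hS p β θ u (im e) X| ^ 2 * kA τ (X ∘ e) ^ 2) := by rw [hF]; ring
        _ = zi p.l Mc M₁ (e 0) X * (hS p β θ u (im e) X ^ 2 * kA τ (X ∘ e) ^ 2) := by
            rw [h5, sq_abs]
        _ ≤ _ := mul_le_mul_of_nonneg_left (mul_le_mul_of_nonneg_right (hh2n (k := 2) e X).2
            (sq_nonneg _)) (hz _).1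
    -- one common particle
    have ho : ∑ e ∈ Ij 4 ι, F (s2 e) * F (s3 e) ≤ D ^ 2 * S2 X := by
      obtain ⟨A, hA⟩ : ∃ A : (Fin 4 → ι) → ℝ, A = fun e => zi p.l Mc M₁ (e 0) X *
        (hh2 p θ u (im (s2 e)) X * (kA τ (X ∘ s2 e) * kA τ (X ∘ s3 e))) := ⟨_, rfl⟩
      have h5 : ∀ e : Fin 4 → ι, F (s2 e) * F (s3 e) ≤
          1 / 2 * A e + 1 / 2 * A (e ∘ Equiv.swap 2 3) := by
        intro e
        have h6 := Real.mul_self_sqrt (hz (e 0)).1
        have h7 : A (e ∘ Equiv.swap 2 3) = zi p.l Mc M₁ (e 0) X *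
            (hh2 p θ u (im (s3 e)) X * (kA τ (X ∘ s3 e) * kA τ (X ∘ s2 e))) := by
          rw [hA]
          simp only
          rw [s2_swap, s3_swap, Function.comp_apply]
          have h0 : (Equiv.swap (2 : Fin 4) 3) 0 = 0 := by decide
          rw [h0]
        rw [h7, hA]
        have h8 : F (s2 e) * F (s3 e) = zi p.l Mc M₁ (e 0) X * ((|hS p β θ u (im (s2 e)) X| *
            |hS p β θ u (im (s3 e)) X|) * (kA τ (X ∘ s2 e) * kA τ (X ∘ s3 e))) := by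
          have e2 : (s2 e) 0 = e 0 := rfl
          have e3 : (s3 e) 0 = e 0 := rfl
          rw [hF]
          simp only
          rw [e2, e3]
          calc _ = (Real.sqrt (zi p.l Mc M₁ (e 0) X) * Real.sqrt (zi p.l Mc M₁ (e 0) X)) *
              ((|hS p β θ u (im (s2 e)) X| * |hS p β θ u (im (s3 e)) X|) *
                (kA τ (X ∘ s2 e) * kA τ (X ∘ s3 e))) := by ring
            _ = _ := by rw [h6]
        rw [h8]
        have h9 : |hS p β θ u (im (s2 e)) X| * |hS p β θ u (im (s3 e)) X| ≤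
            1 / 2 * hh2 p θ u (im (s2 e)) X + 1 / 2 * hh2 p θ u (im (s3 e)) X := by
          have g2 := (hh2n (k := 2) (s2 e) X).2
          have g3 := (hh2n (k := 2) (s3 e) X).2
          rw [← sq_abs] at g2 g3
          nlinarith [sq_nonneg (|hS p β θ u (im (s2 e)) X| - |hS p β θ u (im (s3 e)) X|)]
        have h10 : 0 ≤ kA τ (X ∘ s2 e) * kA τ (X ∘ s3 e) := mul_nonneg (hkn _) (hkn _)
        calc _ ≤ zi p.l Mc M₁ (e 0) X * ((1 / 2 * hh2 p θ u (im (s2 e)) X +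
              1 / 2 * hh2 p θ u (im (s3 e)) X) * (kA τ (X ∘ s2 e) * kA τ (X ∘ s3 e))) :=
              mul_le_mul_of_nonneg_left (mul_le_mul_of_nonneg_right h9 h10) (hz _).1
          _ = _ := by ring
      have h11 : ∑ e ∈ Ij 4 ι, A (e ∘ Equiv.swap 2 3) = ∑ e ∈ Ij 4 ι, A e :=
        ((hTUP ι).2.1 4 (Equiv.swap 2 3)).1 A
      have h12 : ∑ e ∈ Ij 4 ι, F (s2 e) * F (s3 e) ≤ ∑ e ∈ Ij 4 ι, A e := by
        refine (Finset.sum_le_sum fun e _ => h5 e).trans (le_of_eq ?_)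
        rw [Finset.sum_add_distrib, ← Finset.mul_sum, ← Finset.mul_sum, h11]
        ring
      refine h12.trans ?_
      rw [(hTUP ι).2.2.1 A, hS2, Finset.mul_sum]
      refine Finset.sum_le_sum fun e _ => ?_
      rw [Finset.mul_sum]
      refine Finset.sum_le_sum fun j _ => ?_
      rw [hA]
      simp only
      rw [s2_ap, s3_ap]
      have e4 : ap e j 0 = e 0 := rfl
      rw [e4, hKA, hKA]
      have h13 : K (X ∘ ![e 0, e 1, j]) ≤ q (X (e 0) - X j) := hK1 _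
      calc zi p.l Mc M₁ (e 0) X * (hh2 p θ u (im e) X * (D * K (X ∘ e) *
            (D * K (X ∘ ![e 0, e 1, j])))) =
          D ^ 2 * (zi p.l Mc M₁ (e 0) X * (hh2 p θ u (im e) X * (K (X ∘ e) *
            K (X ∘ ![e 0, e 1, j])))) := by ring
        _ ≤ _ := mul_le_mul_of_nonneg_left (mul_le_mul_of_nonneg_left (mul_le_mul_of_nonneg_left
            (mul_le_mul_of_nonneg_left h13 (hKn e)) (hh2n (k := 2) e X).1) (hz _).1)
            (by positivity)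
    -- no common particle
    have hr : ∑ e ∈ Ij 3 ι, ∑ e' ∈ (Ij 3 ι).filter (fun e' => e' 0 = e 0 ∧
        (im e' \ im e).card = 2 ∧ (im e \ im e').card = 2), F e * F e' ≤ D ^ 2 * S3 X := by
      rw [hS3, ht1, Finset.mul_sum]
      refine Finset.sum_le_sum fun e _ => ?_
      rw [Finset.mul_sum]
      refine Finset.sum_le_sum fun e' he' => ?_
      have h6 := Real.mul_self_sqrt (hz (e 0)).1
      have h0 : e' 0 = e 0 := (Finset.mem_filter.1 he').2.1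
      have h8 : F e * F e' = zi p.l Mc M₁ (e 0) X * ((|hS p β θ u (im e) X| *
            |hS p β θ u (im e') X|) * (kA τ (X ∘ e) * kA τ (X ∘ e'))) := by
        rw [hF]
        simp only
        rw [h0]
        calc _ = (Real.sqrt (zi p.l Mc M₁ (e 0) X) * Real.sqrt (zi p.l Mc M₁ (e 0) X)) *
            ((|hS p β θ u (im e) X| * |hS p β θ u (im e') X|) *
              (kA τ (X ∘ e) * kA τ (X ∘ e'))) := by ring
          _ = _ := by rw [h6]
      rw [h8]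
      refine (mul_le_of_le_one_left (mul_nonneg (mul_nonneg (abs_nonneg _) (abs_nonneg _))
        (mul_nonneg (hkn _) (hkn _))) (hz _).2).trans (le_of_eq ?_)
      rw [hKA, hKA]
      ring
    have hS1n : 0 ≤ S3 X := by
      rw [hS3]
      exact Finset.sum_nonneg fun e _ => Finset.sum_nonneg fun e' _ =>
        mul_nonneg (abs_nonneg _) (mul_nonneg (abs_nonneg _) (mul_nonneg (hKn _) (hKn _)))
    have hS3n : 0 ≤ D ^ 2 * S3 X := mul_nonneg (by positivity) hS1n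
    linarith
  -- integration
  have haF : ∀ i c, BM (aF p β θ τ u i c) := by
    intro i c
    have hdvb : ∀ m c, BM (dv (dr m c) τ) := (hKBM.1 C p.R φ τ g hφ hT).2.2.2.2.2.2.2.1
    exact bm_cmul _ (hsum _ (fun e (X : ι → E) => hS p β θ u (im e) X * dv (dr 0 c) τ (rt (X ∘ e)))
      fun e _ => hmul (hhbm (k := 2) e) (hKBM.2.2.1 ι _ e (hdvb 0 c)))
  have hf : BM (fun X => ∑ i, zi p.l Mc M₁ i X * ∑ c, aF p β θ τ u i c X ^ 2) :=
    hsum _ _ fun i _ => hmul (hZi i).1 (hsum _ _ fun c _ => hsq (haF i c))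
  have hI : IO p (fun X => ∑ i, zi p.l Mc M₁ i X * ∑ c, aF p β θ τ u i c X ^ 2) ≤
      1 / 2 * IO p S1 + D ^ 2 * IO p S2 + D ^ 2 * IO p S3 := by
    unfold IO
    rw [← integral_const_mul, ← integral_const_mul, ← integral_const_mul,
      ← integral_add (hint _ (bm_cmul _ hS1b)) (hint _ (bm_cmul _ hS2b)),
      ← integral_add (hint _ (hadd (bm_cmul _ hS1b) (bm_cmul _ hS2b))) (hint _ (bm_cmul _ hS3b))]
    refine integral_mono (hint _ hf) (hint _ (hadd (hadd (bm_cmul _ hS1b) (bm_cmul _ hS2b))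
      (bm_cmul _ hS3b))) fun X => ?_
    have := hpt X
    simp only [mul_zero, zero_add] at this
    exact this
  refine hI.trans ?_
  have i1 : IO p S1 ≤ d0 * D * AW p Mc M₁ θ u 3 := by
    rw [hS1]
    exact hW0
  have i2 : IO p S2 ≤ (d1 * D) * ((p.R * Real.sqrt p.R * (p.M / p.l ^ 3)) * AW p Mc M₁ θ u 3) := by
    rw [hS2]
    refine hW1.trans (le_of_eq ?_)
    ring
  have i3 : IO p S3 ≤ (Ca * (c1 * D ^ 2)) * E33 p θ u := by
    rw [hS3, ht1]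
    refine hQa.trans ?_
    rw [mul_assoc, Real.mul_self_sqrt hG0, mul_assoc]
    refine mul_le_mul_of_nonneg_left (hG1.trans (le_of_eq ?_)) hCa.le
    unfold E33
    ring
  have hν : 0 ≤ p.R * Real.sqrt p.R * (p.M / p.l ^ 3) :=
    mul_nonneg (mul_nonneg hR0.le (Real.sqrt_nonneg _)) hμ
  obtain ⟨ν, hνd⟩ : ∃ ν : ℝ, ν = p.R * Real.sqrt p.R * (p.M / p.l ^ 3) := ⟨_, rfl⟩
  obtain ⟨W, hWd⟩ : ∃ W : ℝ, W = AW p Mc M₁ θ u 3 := ⟨_, rfl⟩
  obtain ⟨Z, hZd⟩ : ∃ Z : ℝ, Z = E33 p θ u := ⟨_, rfl⟩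
  rw [← hνd] at hν i2 ⊢
  rw [← hWd] at hAW i1 i2 ⊢
  rw [← hZd] at hE33 i3 ⊢
  have j1 : 1 / 2 * IO p S1 ≤ (d0 * D) * W := by
    have : 0 ≤ d0 * D * W := by positivity
    linarith
  have j2 : D ^ 2 * IO p S2 ≤ (D ^ 2 * (d1 * D)) * (ν * W) := by
    rw [mul_assoc]
    exact mul_le_mul_of_nonneg_left i2 (by positivity)
  have j3 : D ^ 2 * IO p S3 ≤ (D ^ 2 * (Ca * (c1 * D ^ 2))) * Z := by
    rw [mul_assoc]
    exact mul_le_mul_of_nonneg_left i3 (by positivity)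
  have k1 : 0 ≤ ν * W := mul_nonneg hν hAW
  have a1 : 0 ≤ d0 * D := by positivity
  have a2 : 0 ≤ D ^ 2 * (d1 * D) := by positivity
  have a3 : 0 ≤ D ^ 2 * (Ca * (c1 * D ^ 2)) := by positivity
  obtain ⟨x1, hx1⟩ : ∃ x1 : ℝ, x1 = d0 * D := ⟨_, rfl⟩
  obtain ⟨x2, hx2⟩ : ∃ x2 : ℝ, x2 = D ^ 2 * (d1 * D) := ⟨_, rfl⟩
  obtain ⟨x3, hx3⟩ : ∃ x3 : ℝ, x3 = D ^ 2 * (Ca * (c1 * D ^ 2)) := ⟨_, rfl⟩
  rw [← hx1] at j1 a1 ⊢
  rw [← hx2] at j2 a2 ⊢
  rw [← hx3] at j3 a3 ⊢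
  have e1 : (x1 + x2 + x3) * ((1 + ν) * W + Z) = x1 * W + x2 * (ν * W) + x3 * Z +
      (x1 * (ν * W) + x1 * Z + x2 * W + x2 * Z + x3 * W + x3 * (ν * W)) := by ring
  have e2 : 0 ≤ x1 * (ν * W) + x1 * Z + x2 * W + x2 * Z + x3 * W + x3 * (ν * W) := by
    have := mul_nonneg a1 k1
    have := mul_nonneg a1 hE33
    have := mul_nonneg a2 hAW
    have := mul_nonneg a2 hE33
    have := mul_nonneg a3 hAW
    have := mul_nonneg a3 k1
    linarith
  rw [e1]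
  linarith

end Pool.Agent.TBS
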