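import Pool.Agent.TBS.StmtsB

/-!
# Squad TBS: module QV1 (the potential part of the quadratic terms)
-/

set_option autoImplicit false

open MeasureTheory Filter Topology
open scoped ContDiff

namespace Pool.Agent.TBS

open Pool.Agent.TBG Pool.Agent.TBL Pool.Agent.TBF

namespace QV1_

lemma bm_mul {α : Type} [MeasurableSpace α] {F G : α → ℝ} (hF : BM F) (hG : BM G) :
    BM (fun X => F X * G X) := by
  obtain ⟨h1, C1, b1⟩ := hF
  obtain ⟨h2, C2, b2⟩ := hG
  refine ⟨h1.mul h2, C1 * C2, fun X => ?_⟩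
  rw [abs_mul]
  exact mul_le_mul (b1 X) (b2 X) (abs_nonneg _) ((abs_nonneg _).trans (b1 X))

lemma dv_smooth {W : Type} [NormedAddCommGroup W] [NormedSpace ℝ W] {f : W → ℝ}
    (hf : ContDiff ℝ ∞ f) (v : W) : ContDiff ℝ ∞ (dv v f) := by
  have h1 : ContDiff ℝ ∞ (fderiv ℝ f) := hf.fderiv_right (by simp)
  exact h1.clm_apply contDiff_const

lemma lap_cont {f : E × E → ℝ} (hf : ContDiff ℝ ∞ f) : Continuous (Lap f) := by
  unfold Lap
  refine continuous_finsetSum _ fun m _ => continuous_finsetSum _ fun c _ => ?_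
  exact (dv_smooth (dv_smooth hf _) _).continuous

/-- a continuous function which vanishes for large arguments is bounded -/
lemma bdd_of_supp {W : Type} [NormedAddCommGroup W] [NormedSpace ℝ W] [ProperSpace W] {f : W → ℝ}
    (hf : Continuous f) {R : ℝ} (h : ∀ z, R < ‖z‖ → f z = 0) : ∃ B : ℝ, 0 < B ∧ ∀ z, |f z| ≤ B := by
  have hc : HasCompactSupport f := by
    refine HasCompactSupport.intro (isCompact_closedBall (0 : W) R) fun z hz => h z ?_
    rw [Metric.mem_closedBall, dist_zero_right, not_le] at hz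
    exact hz
  obtain ⟨B, hB⟩ := hc.exists_bound_of_continuous hf
  exact ⟨|B| + 1, by positivity, fun z => (hB z).trans (by linarith [le_abs_self B])⟩

/-- the facts about the potential -/
lemma pot {φ : E × E → ℝ} (h : Scat φ) : BM φ ∧ BM (ww φ) ∧ BM (fun z : E × E => VV φ z.1 z.2) ∧
    (∀ z, ww φ z = VV φ z.1 z.2 * (1 - φ z)) ∧ (∀ z : E × E, 0 ≤ VV φ z.1 z.2) := by
  obtain ⟨R, hR⟩ := h.supp
  have hc : Continuous (ww φ) := by
    unfold ww
    exact (lap_cont h.smooth).neg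
  obtain ⟨B, hB0, hB⟩ := bdd_of_supp hc (R := R) fun z hz => by
    unfold ww
    rw [hR z hz, neg_zero]
  have h0 : ∀ z, 0 ≤ ww φ z := fun z => by
    unfold ww
    linarith [h.sup z]
  have h1 : ∀ z, 1 / 2 ≤ 1 - φ z := fun z => by linarith [h.le_half z]
  have hφ0 : ∀ z, 0 ≤ φ z := by
    obtain ⟨c, hc0, hlow⟩ := h.low
    intro z
    by_contra hn
    rw [not_le] at hn
    have h2 := hlow z
    have h3 : (1 + ‖z‖) ^ 4 * φ z ≤ 0 :=
      mul_nonpos_of_nonneg_of_nonpos (by positivity) hn.le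
    linarith
  refine ⟨⟨h.smooth.continuous.measurable, 1 / 2, fun z => ?_⟩, ⟨hc.measurable, B, hB⟩,
    ⟨?_, 2 * B, fun z => ?_⟩, fun z => ?_, fun z => ?_⟩
  · rw [abs_of_nonneg (hφ0 z)]
    exact h.le_half z
  · unfold VV
    exact hc.measurable.div (measurable_const.sub h.smooth.continuous.measurable)
  · show |ww φ (z.1, z.2) / (1 - φ (z.1, z.2))| ≤ 2 * B
    have h2 : (z.1, z.2) = z := rfl
    rw [h2, abs_div, abs_of_nonneg (by linarith [h1 z] : (0 : ℝ) ≤ 1 - φ z),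
      div_le_iff₀ (by linarith [h1 z])]
    have := hB z
    nlinarith [h1 z]
  · unfold VV
    have h2 : (z.1, z.2) = z := rfl
    rw [h2, div_mul_cancel₀]
    linarith [h1 z]
  · unfold VV
    exact div_nonneg (h0 _) (by linarith [h1 (z.1, z.2)])

/-- the expansion of the square -/
lemma expand {J : Type} [DecidableEq J] (s : Finset J) (v a h : ℝ) (z : J → ℝ) :
    v * (a * h + ∑ j ∈ s, z j) ^ 2 = h ^ 2 * (v * a * a) + ∑ j ∈ s, 2 * (h * (v * a * z j)) +
      ∑ j ∈ s, v * z j ^ 2 + v * ∑ j ∈ s, ∑ k ∈ s.erase j, z j * z k := by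
  have h1 : (∑ j ∈ s, z j) ^ 2 = ∑ j ∈ s, z j ^ 2 + ∑ j ∈ s, ∑ k ∈ s.erase j, z j * z k := by
    rw [sq, Finset.sum_mul_sum, ← Finset.sum_add_distrib]
    refine Finset.sum_congr rfl fun j hj => ?_
    rw [← Finset.add_sum_erase s _ hj, sq]
  have h2 : ∑ j ∈ s, 2 * (h * (v * a * z j)) = 2 * h * v * a * ∑ j ∈ s, z j := by
    rw [Finset.mul_sum]
    refine Finset.sum_congr rfl fun j _ => by ring
  have h3 : ∑ j ∈ s, v * z j ^ 2 = v * ∑ j ∈ s, z j ^ 2 := by rw [Finset.mul_sum]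
  rw [h2, h3]
  calc v * (a * h + ∑ j ∈ s, z j) ^ 2
      = v * (a * h) ^ 2 + 2 * h * v * a * (∑ j ∈ s, z j) + v * (∑ j ∈ s, z j) ^ 2 := by ring
    _ = _ := by
      rw [h1]
      ring

/-- the off diagonal terms -/
lemma offdiag {J : Type} [DecidableEq J] (s : Finset J) (v B : ℝ) (y h H q : J → ℝ) (hv : 0 ≤ v)
    (hq : ∀ j ∈ s, |y j| ≤ B * q j) (hH : ∀ j ∈ s, h j ^ 2 ≤ H j) (hB : 0 ≤ B) (hq0 : ∀ j ∈ s, 0 ≤ q j) :
    |v * ∑ j ∈ s, ∑ k ∈ s.erase j, (y j * h j) * (y k * h k)| ≤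
      B * ∑ j ∈ s, H j * (v * |y j| * ∑ k ∈ s.erase j, q k) := by
  rw [abs_mul, abs_of_nonneg hv]
  have h1 : |∑ j ∈ s, ∑ k ∈ s.erase j, (y j * h j) * (y k * h k)| ≤
      ∑ j ∈ s, ∑ k ∈ s.erase j, (|y j| * |y k| * (h j ^ 2 / 2) + |y j| * |y k| * (h k ^ 2 / 2)) := by
    refine (Finset.abs_sum_le_sum_abs _ _).trans (Finset.sum_le_sum fun j _ => ?_)
    refine (Finset.abs_sum_le_sum_abs _ _).trans (Finset.sum_le_sum fun k _ => ?_)
    rw [abs_mul, abs_mul, abs_mul]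
    have h2 : |h j| * |h k| ≤ h j ^ 2 / 2 + h k ^ 2 / 2 := by
      have := two_mul_le_add_sq |h j| |h k|
      rw [sq_abs, sq_abs] at this
      linarith
    calc |y j| * |h j| * (|y k| * |h k|) = |y j| * |y k| * (|h j| * |h k|) := by ring
      _ ≤ |y j| * |y k| * (h j ^ 2 / 2 + h k ^ 2 / 2) :=
        mul_le_mul_of_nonneg_left h2 (by positivity)
      _ = _ := by ring
  have h3 : ∑ j ∈ s, ∑ k ∈ s.erase j, (|y j| * |y k| * (h k ^ 2 / 2)) =
      ∑ j ∈ s, ∑ k ∈ s.erase j, (|y j| * |y k| * (h j ^ 2 / 2)) := by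
    rw [Finset.sum_comm' (s' := fun k => s.erase k) (t' := s)]
    · refine Finset.sum_congr rfl fun j _ => Finset.sum_congr rfl fun k _ => by ring
    · intro x z
      simp only [Finset.mem_erase]
      constructor
      · rintro ⟨h1, h2, h3⟩
        exact ⟨⟨fun h => h2 h.symm, h1⟩, h3⟩
      · rintro ⟨⟨h1, h2⟩, h3⟩
        exact ⟨h2, fun h => h1 h.symm, h3⟩
  have h4 : ∑ j ∈ s, ∑ k ∈ s.erase j, (|y j| * |y k| * (h j ^ 2 / 2) + |y j| * |y k| * (h k ^ 2 / 2)) =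
      ∑ j ∈ s, ∑ k ∈ s.erase j, (|y j| * |y k| * h j ^ 2) := by
    have e1 : ∀ j ∈ s, ∑ k ∈ s.erase j, (|y j| * |y k| * (h j ^ 2 / 2) + |y j| * |y k| * (h k ^ 2 / 2)) =
        ∑ k ∈ s.erase j, (|y j| * |y k| * (h j ^ 2 / 2)) +
          ∑ k ∈ s.erase j, (|y j| * |y k| * (h k ^ 2 / 2)) := fun j _ => Finset.sum_add_distrib
    rw [Finset.sum_congr rfl e1, Finset.sum_add_distrib, h3, ← Finset.sum_add_distrib]
    refine Finset.sum_congr rfl fun j _ => ?_
    rw [← Finset.sum_add_distrib]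
    refine Finset.sum_congr rfl fun k _ => by ring
  calc v * |∑ j ∈ s, ∑ k ∈ s.erase j, (y j * h j) * (y k * h k)|
      ≤ v * ∑ j ∈ s, ∑ k ∈ s.erase j, (|y j| * |y k| * h j ^ 2) := by
        rw [← h4]
        exact mul_le_mul_of_nonneg_left h1 hv
    _ ≤ v * ∑ j ∈ s, ∑ k ∈ s.erase j, (|y j| * (B * q k) * H j) := by
        refine mul_le_mul_of_nonneg_left (Finset.sum_le_sum fun j hj => Finset.sum_le_sum fun k hk => ?_) hv
        have hk' := Finset.mem_of_mem_erase hk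
        exact mul_le_mul (mul_le_mul_of_nonneg_left (hq k hk') (abs_nonneg _)) (hH j hj)
          (sq_nonneg _) (mul_nonneg (abs_nonneg _) (mul_nonneg hB (hq0 k hk')))
    _ = B * ∑ j ∈ s, H j * (v * |y j| * ∑ k ∈ s.erase j, q k) := by
        rw [Finset.mul_sum, Finset.mul_sum]
        refine Finset.sum_congr rfl fun j _ => ?_
        rw [Finset.mul_sum, Finset.mul_sum, Finset.mul_sum, Finset.mul_sum]
        refine Finset.sum_congr rfl fun k _ => by ring

/-- the mass of a kernel with bounded support -/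
lemma mass {B ρ : ℝ} (K : (Fin 4 → E) → ℝ)
    (h0 : ∀ x, 0 ≤ K x) (h1 : ∀ x, K x ≤ B) (h2 : ∀ x, K x ≠ 0 → ∀ s, ‖x s - x 0‖ ≤ ρ) (hρ : 0 ≤ ρ)
    (x₀ : E) : ∫ z : Fin 3 → E, K (Fin.cons x₀ z) ≤
      B * (volume (Metric.closedBall (0 : Fin 3 → E) ρ)).toReal := by
  have hfin : volume (Metric.closedBall (fun _ => x₀ : Fin 3 → E) ρ) < ⊤ :=
    (isCompact_closedBall _ _).measure_lt_top
  have hle : ∀ z : Fin 3 → E, K (Fin.cons x₀ z) ≤
      (Metric.closedBall (fun _ => x₀ : Fin 3 → E) ρ).indicator (fun _ => B) z := by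
    intro z
    by_cases hz : z ∈ Metric.closedBall (fun _ => x₀ : Fin 3 → E) ρ
    · rw [Set.indicator_of_mem hz]
      exact h1 _
    · rw [Set.indicator_of_notMem hz]
      by_contra hn
      rw [not_le] at hn
      refine hz ?_
      rw [Metric.mem_closedBall, dist_pi_le_iff hρ]
      intro s
      have h3 := h2 _ hn.ne' s.succ
      rw [Fin.cons_succ, Fin.cons_zero] at h3
      rw [dist_eq_norm]
      exact h3
  calc ∫ z : Fin 3 → E, K (Fin.cons x₀ z)
      ≤ ∫ z : Fin 3 → E, (Metric.closedBall (fun _ => x₀ : Fin 3 → E) ρ).indicator (fun _ => B) z := by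
        refine integral_mono_of_nonneg (Filter.Eventually.of_forall fun z => h0 _) ?_
          (Filter.Eventually.of_forall hle)
        exact (integrable_indicator_iff measurableSet_closedBall).mpr
          (integrableOn_const hfin.ne)
    _ = B * (volume (Metric.closedBall (0 : Fin 3 → E) ρ)).toReal := by
        rw [integral_indicator measurableSet_closedBall, setIntegral_const, smul_eq_mul, mul_comm]
        congr 1
        rw [Measure.real, MeasureTheory.Measure.addHaar_closedBall_center]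

/-- the relative positions control the distances -/
lemma rl_norm {ρ : ℝ} (hρ : 0 ≤ ρ) (x : Fin 4 → E) (h : ‖rl x‖ ≤ ρ) (s : Fin 4) : ‖x s - x 0‖ ≤ ρ := by
  have h1 : ‖x 0 - x 1‖ ≤ ‖rl x‖ := norm_fst_le (rl x)
  have h2 : ‖(rl x).2‖ ≤ ‖rl x‖ := norm_snd_le (rl x)
  have h3 : ‖x 0 - x 2‖ ≤ ‖(rl x).2‖ := norm_fst_le (rl x).2
  have h4 : ‖x 0 - x 3‖ ≤ ‖(rl x).2‖ := norm_snd_le (rl x).2
  fin_cases s
  · show ‖x 0 - x 0‖ ≤ ρ
    rw [sub_self, norm_zero]
    exact hρ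
  · show ‖x 1 - x 0‖ ≤ ρ
    rw [norm_sub_rev]
    exact h1.trans h
  · show ‖x 2 - x 0‖ ≤ ρ
    rw [norm_sub_rev]
    exact h3.trans (h2.trans h)
  · show ‖x 3 - x 0‖ ≤ ρ
    rw [norm_sub_rev]
    exact h4.trans (h2.trans h)

/-- sums over one particle -/
lemma one {ι : Type} [Fintype ι] [DecidableEq ι] (s : Finset ι) (f : ι → ℝ) :
    ∑ j ∈ (Ij 1 ι).filter (fun j => Disjoint (im j) s), ∏ t, f (j t) = ∑ k ∈ Finset.univ \ s, f k := by
  classical
  refine Finset.sum_bij (fun j _ => j 0) ?_ ?_ ?_ ?_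
  · intro j hj
    rw [Finset.mem_filter] at hj
    rw [Finset.mem_sdiff]
    refine ⟨Finset.mem_univ _, fun h => ?_⟩
    exact Finset.disjoint_left.1 hj.2 (Finset.mem_image_of_mem _ (Finset.mem_univ 0)) h
  · intro j _ k _ h
    funext t
    rw [Subsingleton.elim t 0]
    exact h
  · intro k hk
    rw [Finset.mem_sdiff] at hk
    refine ⟨fun _ => k, ?_, rfl⟩
    rw [Finset.mem_filter]
    refine ⟨?_, ?_⟩
    · unfold Ij
      rw [Finset.mem_filter]
      exact ⟨Finset.mem_univ _, fun a b _ => Subsingleton.elim _ _⟩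
    · rw [Finset.disjoint_left]
      intro a ha hb
      unfold im at ha
      rw [Finset.mem_image] at ha
      obtain ⟨_, _, h⟩ := ha
      rw [← h] at hb
      exact hk.2 hb
  · intro j _
    rw [Fin.prod_univ_one]

/-- the kernel `q` -/
lemma pkq {ρ l : ℝ} (hl : ρ ≤ l) :
    Pk l (volume (Metric.closedBall (0 : E) ρ)).toReal (ρ ^ 2) (volume (Metric.closedBall (0 : E) ρ)).toReal
      (ic (Metric.closedBall (0 : E) ρ)) := by
  have hmeas : MeasurableSet (Metric.closedBall (0 : E) ρ) := measurableSet_closedBall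
  have hin : ∀ x : E, ic (Metric.closedBall (0 : E) ρ) x ≠ 0 → ‖x‖ ≤ ρ := by
    intro x hx
    unfold ic at hx
    have h := Set.mem_of_indicator_ne_zero hx
    rwa [Metric.mem_closedBall, dist_zero_right] at h
  have hval : ∀ x : E, ic (Metric.closedBall (0 : E) ρ) x = 0 ∨ ic (Metric.closedBall (0 : E) ρ) x = 1 := by
    intro x
    unfold ic
    by_cases h : x ∈ Metric.closedBall (0 : E) ρ
    · right
      rw [Set.indicator_of_mem h]
    · left
      rw [Set.indicator_of_notMem h]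
  have hm : ∫ x, ic (Metric.closedBall (0 : E) ρ) x = (volume (Metric.closedBall (0 : E) ρ)).toReal := by
    unfold ic
    rw [integral_indicator hmeas, setIntegral_const, smul_eq_mul, mul_one]
    rfl
  refine ⟨?_, ?_, ?_, ?_, ?_, ?_, ?_⟩
  · unfold ic
    exact measurable_const.indicator hmeas
  · intro x
    rcases hval x with h | h <;> rw [h]
    exact zero_le_one
  · intro x
    rcases hval x with h | h <;> rw [h]
    exact zero_le_one
  · intro x hx c
    exact ((PiLp.norm_apply_le x c).trans (hin x hx)).trans hl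
  · exact hm.le
  · intro x
    rcases hval x with h | h
    · rw [h, zero_mul]
      positivity
    · rw [h, one_mul]
      have := hin x (by rw [h]; exact one_ne_zero)
      exact pow_le_pow_left₀ (norm_nonneg _) this 2
  · have e : (fun x : E => ic (Metric.closedBall (0 : E) ρ) x ^ 2) = ic (Metric.closedBall (0 : E) ρ) := by
      funext x
      rcases hval x with h | h <;> rw [h] <;> norm_num
    rw [show (∫ x, ic (Metric.closedBall (0 : E) ρ) x ^ 2) = ∫ x, ic (Metric.closedBall (0 : E) ρ) x from by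
      rw [e]]
    exact hm.le

end QV1_

open QV1_ in
theorem qv1_proof (hBMC : Pool.Agent.TBL.Stmt_BMC) (hHSF : Stmt_HSF) (hTUP : Stmt_TUP)
    (_hKBM : Stmt_KBM) (hGS1 : Stmt_GS1) (hMSY : Stmt_MSY) : Stmt_QV1 := by
  intro C φ y hφ hy
  classical
  obtain ⟨hφb, hwb, hVb, hwV, hV0⟩ := pot hφ
  obtain ⟨hy1, hy2⟩ := hy
  obtain ⟨hB1, hB2, hB3, hB4, hB5⟩ := hBMC
  obtain ⟨ρ, hρ0, hρ⟩ : ∃ ρ : ℝ, 0 < ρ ∧ ∀ q, y q ≠ 0 → ‖q‖ ≤ ρ := by
    obtain ⟨r, hr⟩ := hy2.isCompact.isBounded.exists_norm_le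
    refine ⟨|r| + 1, by positivity, fun q hq => ?_⟩
    have := hr q (subset_tsupport _ hq)
    linarith [le_abs_self r]
  obtain ⟨By, hBy0, hBy⟩ : ∃ B : ℝ, 0 < B ∧ ∀ q, |y q| ≤ B :=
    bdd_of_supp hy1.continuous (R := ρ) fun z hz => by
      by_contra hn
      exact absurd (hρ z hn) (not_le.2 hz)
  obtain ⟨Bv, hBv0, hBv⟩ : ∃ B : ℝ, 0 < B ∧ ∀ a b : E, VV φ a b ≤ B := by
    obtain ⟨B, hB⟩ := hVb.2
    refine ⟨|B| + 1, by positivity, fun a b => ?_⟩
    have h0 : |VV φ a b| ≤ B := hB (a, b)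
    have h1 := le_abs_self (VV φ a b)
    linarith [le_abs_self B]
  have hyb : BM y := ⟨hy1.continuous.measurable, By, hBy⟩
  obtain ⟨C₂, hC₂, hG⟩ := hGS1 C 3
  obtain ⟨C₃, hC₃, hhs⟩ := hHSF C
  set vl : ℝ := (volume (Metric.closedBall (0 : Fin 3 → E) ρ)).toReal with hvl
  set w : ℝ := (volume (Metric.closedBall (0 : E) ρ)).toReal with hw
  have hvl0 : 0 ≤ vl := ENNReal.toReal_nonneg
  have hw0 : 0 ≤ w := ENNReal.toReal_nonneg
  have hc0 : 0 ≤ By / 6 * (C₂ * (Bv * By * vl) * w) := by positivity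
  refine ⟨ρ + By / 6 * (C₂ * (Bv * By * vl) * w), by positivity, ?_⟩
  intro ι _ _ p β θ u hpl hY hu
  obtain ⟨hl1, hfin, -⟩ := hMSY C p β θ hY
  have hρl : ρ ≤ p.l := by linarith
  have hbu : BM u := by
    obtain ⟨hu1, hu2⟩ := hu
    obtain ⟨B, hB⟩ := hu2.exists_bound_of_continuous hu1.continuous
    exact ⟨hu1.continuous.measurable, B, hB⟩
  have hsq : ∀ {α : Type} [MeasurableSpace α] {F : α → ℝ}, BM F → BM (fun X => F X ^ 2) :=
    fun {α} _ {F} hF => (hB1 _ F F hF hF).2.2.2.1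
  have hab : ∀ {α : Type} [MeasurableSpace α] {F : α → ℝ}, BM F → BM (fun X => |F X|) :=
    fun {α} _ {F} hF => (hB1 _ F F hF hF).2.2.2.2.1
  have hadd : ∀ {α : Type} [MeasurableSpace α] {F G : α → ℝ}, BM F → BM G →
      BM (fun X => F X + G X) := fun {α} _ {F G} hF hG => (hB1 _ F G hF hG).1
  have hsub : ∀ {α : Type} [MeasurableSpace α] {F G : α → ℝ}, BM F → BM G →
      BM (fun X => F X - G X) := fun {α} _ {F G} hF hG => (hB1 _ F G hF hG).2.1
  have hcm : ∀ {α : Type} [MeasurableSpace α] {F : α → ℝ} (a : ℝ), BM F → BM (fun X => a * F X) :=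
    fun {α} _ {F} a hF => (hB1 _ F F hF hF).2.2.2.2.2.1 a
  have hsum : ∀ {α J : Type} [MeasurableSpace α] (s : Finset J) (F : J → α → ℝ),
      (∀ i ∈ s, BM (F i)) → BM (fun X => ∑ i ∈ s, F i X) := fun {α J} _ s F h => hB3 α J s F h
  have hfO : IsFiniteMeasure (PiS (mO p.L) (mO p.L) (∅ : Finset ι)) := by
    unfold PiS
    have : ∀ i, IsFiniteMeasure (if i ∈ (∅ : Finset ι) then mO p.L else mO p.L) := by
      intro i
      split_ifs <;> infer_instance
    infer_instance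
  have hintO : ∀ (F : (ι → E) → ℝ), BM F →
      Integrable F (PiS (mO p.L) (mO p.L) (∅ : Finset ι)) :=
    fun F hF => (hB1 _ F F hF hF).2.2.2.2.2.2 _
  have IOsum : ∀ {J : Type} (s : Finset J) (F : J → (ι → E) → ℝ), (∀ i ∈ s, BM (F i)) →
      ∑ i ∈ s, IO p (F i) = IO p (fun X => ∑ i ∈ s, F i X) := by
    intro J s F h
    unfold IO
    rw [integral_finsetSum _ fun i hi => hintO _ (h i hi)]
  have IOmono : ∀ (F G : (ι → E) → ℝ), BM F → BM G → (∀ X, F X ≤ G X) → IO p F ≤ IO p G :=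
    fun F G hF hG h => integral_mono (hintO _ hF) (hintO _ hG) h
  -- clusters
  have him : ∀ {k : ℕ} (e : Fin (k + 1) → ι), (im e).Nonempty := by
    intro k e
    exact ⟨e 0, Finset.mem_image_of_mem _ (Finset.mem_univ _)⟩
  have hhbm : ∀ {k : ℕ} (e : Fin (k + 1) → ι), BM (hS p β θ u (im e)) :=
    fun e => (hhs ι p β θ u (im e) hY hbu (him e)).1
  have hh2bm : ∀ {k : ℕ} (e : Fin (k + 1) → ι), BM (hh2 p θ u (im e)) :=
    fun e => (hhs ι p β θ u (im e) hY hbu (him e)).2.1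
  have hh0 : ∀ {k : ℕ} (e : Fin (k + 1) → ι) X, 0 ≤ hh2 p θ u (im e) X :=
    fun e X => ((hhs ι p β θ u (im e) hY hbu (him e)).2.2.1 X).1
  have hhle : ∀ {k : ℕ} (e : Fin (k + 1) → ι) X,
      hS p β θ u (im e) X ^ 2 ≤ hh2 p θ u (im e) X :=
    fun e X => ((hhs ι p β θ u (im e) hY hbu (him e)).2.2.1 X).2
  have hcomp : ∀ {k : ℕ} (e : Fin k → ι), Measurable fun X : ι → E => X ∘ e := by
    intro k e
    exact measurable_pi_lambda _ fun i => measurable_pi_apply (e i)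
  have hrt : ∀ e : Fin 3 → ι, Measurable fun X : ι → E => rt (X ∘ e) := by
    intro e
    exact ((measurable_pi_apply (e 0)).sub (measurable_pi_apply (e 1))).prodMk
      ((measurable_pi_apply (e 0)).sub (measurable_pi_apply (e 2)))
  have hrl0 : Measurable (rl : (Fin 4 → E) → W4) := by
    exact ((measurable_pi_apply 0).sub (measurable_pi_apply 1)).prodMk
      (((measurable_pi_apply 0).sub (measurable_pi_apply 2)).prodMk
      ((measurable_pi_apply 0).sub (measurable_pi_apply 3)))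
  have hrl : ∀ e : Fin 4 → ι, Measurable fun X : ι → E => rl (X ∘ e) := fun e => hrl0.comp (hcomp e)
  have bφ : ∀ e : Fin 3 → ι, BM (fun X : ι → E => φ (rt (X ∘ e))) :=
    fun e => hB4 _ _ φ _ hφb (hrt e)
  have b1φ : ∀ e : Fin 3 → ι, BM (fun X : ι → E => 1 - φ (rt (X ∘ e))) :=
    fun e => hsub (hB2 _ 1) (bφ e)
  have bw : ∀ e : Fin 3 → ι, BM (fun X : ι → E => ww φ (rt (X ∘ e))) :=
    fun e => hB4 _ _ (ww φ) _ hwb (hrt e)
  have bV : ∀ e : Fin 3 → ι, BM (fun X : ι → E => VV φ (rt (X ∘ e)).1 (rt (X ∘ e)).2) :=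
    fun e => hB4 _ _ (fun z : E × E => VV φ z.1 z.2) _ hVb (hrt e)
  have by4 : ∀ e : Fin 4 → ι, BM (fun X : ι → E => y (rl (X ∘ e))) :=
    fun e => hB4 _ _ y _ hyb (hrl e)
  -- the kernels
  set K : (Fin 4 → E) → ℝ := fun x => VV φ (x 0 - x 1) (x 0 - x 2) * |y (rl x)| with hKdef
  set q : E → ℝ := ic (Metric.closedBall (0 : E) ρ) with hqdef
  have hq : Pk p.l w (ρ ^ 2) w q := pkq hρl
  have hKne : ∀ x, K x ≠ 0 → ∀ s, ‖x s - x 0‖ ≤ ρ := by
    intro x hx s
    refine rl_norm hρ0.le x (hρ _ fun h => hx ?_) s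
    rw [hKdef]
    show VV φ (x 0 - x 1) (x 0 - x 2) * |y (rl x)| = 0
    rw [h, abs_zero, mul_zero]
  have hKbm : BM K := by
    have h1 : BM (fun x : Fin 4 → E => VV φ (x 0 - x 1) (x 0 - x 2)) :=
      hB4 _ _ (fun z : E × E => VV φ z.1 z.2) (fun x : Fin 4 → E => (x 0 - x 1, x 0 - x 2)) hVb
        (((measurable_pi_apply 0).sub (measurable_pi_apply 1)).prodMk
        ((measurable_pi_apply 0).sub (measurable_pi_apply 2)))
    exact bm_mul h1 (hab (hB4 _ _ y _ hyb hrl0))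
  have hK0 : ∀ x, 0 ≤ K x := fun x => mul_nonneg (hV0 (x 0 - x 1, x 0 - x 2)) (abs_nonneg _)
  have hKle : ∀ x, K x ≤ Bv * By := fun x => mul_le_mul (hBv _ _) (hBy _) (abs_nonneg _) hBv0.le
  have hK : Ck 3 p.l (Bv * By * vl) K := by
    refine ⟨hKbm, hK0, fun x hx s c => ?_, fun x₀ => ?_⟩
    · have h1 := hKne x hx s
      have h2 : |(x s - x 0) c| ≤ ‖x s - x 0‖ := PiLp.norm_apply_le (x s - x 0) c
      have h3 : (x s - x 0) c = x s c - x 0 c := rfl
      rw [h3] at h2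
      exact (h2.trans h1).trans hρl
    · exact mass K hK0 hKle hKne hρ0.le x₀
  obtain ⟨hG0, hG1⟩ := hG ι p β θ u _ _ _ _ K q hY hu hK hq
  have hKX : ∀ e : Fin 4 → ι, BM (fun X : ι → E => K (X ∘ e)) :=
    fun e => hB4 _ _ K _ hKbm (hcomp e)
  have hqX : ∀ i j : ι, BM (fun X : ι → E => q (X i - X j)) := by
    intro i j
    refine ⟨hq.meas.comp ((measurable_pi_apply i).sub (measurable_pi_apply j)), 1, fun X => ?_⟩
    rw [abs_of_nonneg (hq.nn _)]
    exact hq.le1 _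
  -- the sum over one further particle
  have hGS : GS p θ u 3 1 K q = IO p (fun X => ∑ e ∈ Ij 4 ι, hh2 p θ u (im e) X *
      (K (X ∘ e) * ∑ k ∈ Finset.univ \ im e, q (X (e 0) - X k))) := by
    unfold GS
    have e1 : ∀ e ∈ Ij (3 + 1) ι, ∑ j ∈ (Ij 1 ι).filter (fun j => Disjoint (im j) (im e)),
        IO p (fun X => hh2 p θ u (im e) X * (K (X ∘ e) * ∏ s, q (X (e 0) - X (j s)))) =
        IO p (fun X => hh2 p θ u (im e) X *
        (K (X ∘ e) * ∑ k ∈ Finset.univ \ im e, q (X (e 0) - X k))) := by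
      intro e _
      have e2 : ∀ j : Fin 1 → ι, BM (fun X : ι → E => ∏ s, q (X (e 0) - X (j s))) := by
        intro j
        have e3 : (fun X : ι → E => ∏ s, q (X (e 0) - X (j s))) = fun X => q (X (e 0) - X (j 0)) := by
          funext X
          rw [Fin.prod_univ_one]
        rw [e3]
        exact hqX _ _
      rw [IOsum _ _ fun j _ => bm_mul (hh2bm e) (bm_mul (hKX e) (e2 j))]
      congr 1
      funext X
      rw [← one (im e) fun k => q (X (e 0) - X k), Finset.mul_sum, Finset.mul_sum]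
    rw [Finset.sum_congr rfl e1, IOsum _ _ fun e _ => bm_mul (hh2bm e) (bm_mul (hKX e)
      (hsum _ _ fun k _ => hqX _ k))]
  -- the four parts
  obtain ⟨-, -, hT3, hT4, -⟩ := hTUP ι
  set fA : (ι → E) → ℝ := fun X => 1 / 6 * ∑ e ∈ Ij 3 ι, hS p β θ u (im e) X ^ 2 *
    (ww φ (rt (X ∘ e)) * (1 - φ (rt (X ∘ e)))) with hfA
  set fB : (ι → E) → ℝ := fun X => 1 / 3 * ∑ e ∈ Ij 4 ι, hS p β θ u (im (s2 e)) X *
    (hS p β θ u (im e) X * (ww φ (rt (X ∘ s2 e)) * y (rl (X ∘ e)))) with hfB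
  set fD : (ι → E) → ℝ := fun X => 1 / 6 * ∑ e ∈ Ij 4 ι, hS p β θ u (im e) X ^ 2 *
    (VV φ (rt (X ∘ s2 e)).1 (rt (X ∘ s2 e)).2 * y (rl (X ∘ e)) ^ 2) with hfD
  set fR : (ι → E) → ℝ := fun X => 1 / 6 * ∑ e ∈ Ij 3 ι, VV φ (rt (X ∘ e)).1 (rt (X ∘ e)).2 *
    ∑ j ∈ Finset.univ \ im e, ∑ k ∈ (Finset.univ \ im e).erase j,
      (y (rl (X ∘ ap e j)) * hS p β θ u (im (ap e j)) X) *
      (y (rl (X ∘ ap e k)) * hS p β θ u (im (ap e k)) X) with hfR
  set fG : (ι → E) → ℝ := fun X => ∑ e ∈ Ij 4 ι, hh2 p θ u (im e) X *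
      (K (X ∘ e) * ∑ k ∈ Finset.univ \ im e, q (X (e 0) - X k)) with hfG
  have bA : BM fA := hcm _ (hsum _ _ fun e _ => bm_mul (hsq (hhbm e)) (bm_mul (bw e) (b1φ e)))
  have bB : BM fB := hcm _ (hsum _ _ fun e _ => bm_mul (hhbm (s2 e)) (bm_mul (hhbm e)
    (bm_mul (bw (s2 e)) (by4 e))))
  have bD : BM fD := hcm _ (hsum _ _ fun e _ => bm_mul (hsq (hhbm e)) (bm_mul (bV (s2 e)) (hsq (by4 e))))
  have bR : BM fR := hcm _ (hsum _ _ fun e _ => bm_mul (bV e) (hsum _ _ fun j _ => hsum _ _ fun k _ =>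
    bm_mul (bm_mul (by4 _) (hhbm (ap e j))) (bm_mul (by4 _) (hhbm (ap e k)))))
  have bG : BM fG := hsum _ _ fun e _ => bm_mul (hh2bm e) (bm_mul (hKX e)
      (hsum _ _ fun k _ => hqX _ k))
  have hs2 : ∀ (e : Fin 3 → ι) (j : ι), s2 (ap e j) = e := by
    intro e j
    funext s
    fin_cases s <;> rfl
  have hpt : ∀ X : ι → E, 1 / 6 * ∑ e ∈ Ij 3 ι, VV φ (rt (X ∘ e)).1 (rt (X ∘ e)).2 *
      vF p β θ φ y u e X ^ 2 = fA X + fB X + fD X + fR X := by
    intro X
    have e1 : ∀ e ∈ Ij 3 ι, VV φ (rt (X ∘ e)).1 (rt (X ∘ e)).2 * vF p β θ φ y u e X ^ 2 =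
        hS p β θ u (im e) X ^ 2 * (ww φ (rt (X ∘ e)) * (1 - φ (rt (X ∘ e)))) +
        2 * (∑ j ∈ Finset.univ \ im e, hS p β θ u (im (s2 (ap e j))) X *
          (hS p β θ u (im (ap e j)) X * (ww φ (rt (X ∘ s2 (ap e j))) * y (rl (X ∘ ap e j))))) +
        (∑ j ∈ Finset.univ \ im e, hS p β θ u (im (ap e j)) X ^ 2 *
          (VV φ (rt (X ∘ s2 (ap e j))).1 (rt (X ∘ s2 (ap e j))).2 * y (rl (X ∘ ap e j)) ^ 2)) +
        VV φ (rt (X ∘ e)).1 (rt (X ∘ e)).2 *
          ∑ j ∈ Finset.univ \ im e, ∑ k ∈ (Finset.univ \ im e).erase j,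
            (y (rl (X ∘ ap e j)) * hS p β θ u (im (ap e j)) X) *
            (y (rl (X ∘ ap e k)) * hS p β θ u (im (ap e k)) X) := by
      intro e _
      have hv := hwV (rt (X ∘ e))
      unfold vF
      rw [expand]
      have c1 : ∑ j ∈ Finset.univ \ im e, 2 * (hS p β θ u (im e) X *
          (VV φ (rt (X ∘ e)).1 (rt (X ∘ e)).2 * (1 - φ (rt (X ∘ e))) *
            (y (rl (X ∘ ap e j)) * hS p β θ u (im (ap e j)) X))) =
          2 * (∑ j ∈ Finset.univ \ im e, hS p β θ u (im (s2 (ap e j))) X *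
          (hS p β θ u (im (ap e j)) X * (ww φ (rt (X ∘ s2 (ap e j))) * y (rl (X ∘ ap e j))))) := by
        rw [Finset.mul_sum]
        refine Finset.sum_congr rfl fun j _ => ?_
        rw [hs2, hv]
        ring
      have c2 : ∑ j ∈ Finset.univ \ im e, VV φ (rt (X ∘ e)).1 (rt (X ∘ e)).2 *
            (y (rl (X ∘ ap e j)) * hS p β θ u (im (ap e j)) X) ^ 2 =
          ∑ j ∈ Finset.univ \ im e, hS p β θ u (im (ap e j)) X ^ 2 *
          (VV φ (rt (X ∘ s2 (ap e j))).1 (rt (X ∘ s2 (ap e j))).2 * y (rl (X ∘ ap e j)) ^ 2) := by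
        refine Finset.sum_congr rfl fun j _ => ?_
        rw [hs2]
        ring
      rw [c1, c2, ← hv]
    rw [Finset.sum_congr rfl e1, Finset.sum_add_distrib, Finset.sum_add_distrib,
      Finset.sum_add_distrib, ← Finset.mul_sum]
    have e3 := hT3 fun e => hS p β θ u (im (s2 e)) X *
      (hS p β θ u (im e) X * (ww φ (rt (X ∘ s2 e)) * y (rl (X ∘ e))))
    have e4 := hT3 fun e => hS p β θ u (im e) X ^ 2 *
      (VV φ (rt (X ∘ s2 e)).1 (rt (X ∘ s2 e)).2 * y (rl (X ∘ e)) ^ 2)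
    rw [hfA, hfB, hfD, hfR]
    dsimp only
    rw [e3, e4]
    ring
  have hQ : QV p β θ φ y u = IO p fA + IO p fB + IO p fD + IO p fR := by
    unfold QV IO
    rw [← integral_add (hintO _ bA) (hintO _ bB), ← integral_add (hintO _ (hadd bA bB)) (hintO _ bD),
      ← integral_add (hintO _ (hadd (hadd bA bB) bD)) (hintO _ bR)]
    exact integral_congr_ae (Filter.Eventually.of_forall hpt)
  have hR : ∀ X, |fR X| ≤ By / 6 * fG X := by
    intro X
    have e1 : ∀ e ∈ Ij 3 ι, |VV φ (rt (X ∘ e)).1 (rt (X ∘ e)).2 *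
        ∑ j ∈ Finset.univ \ im e, ∑ k ∈ (Finset.univ \ im e).erase j,
          (y (rl (X ∘ ap e j)) * hS p β θ u (im (ap e j)) X) *
          (y (rl (X ∘ ap e k)) * hS p β θ u (im (ap e k)) X)| ≤
        By * ∑ j ∈ Finset.univ \ im e, hh2 p θ u (im (ap e j)) X *
          (VV φ (rt (X ∘ e)).1 (rt (X ∘ e)).2 * |y (rl (X ∘ ap e j))| *
            ∑ k ∈ (Finset.univ \ im e).erase j, q (X (e 0) - X k)) := by
      intro e _
      refine offdiag (Finset.univ \ im e) _ By (fun j => y (rl (X ∘ ap e j)))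
        (fun j => hS p β θ u (im (ap e j)) X) (fun j => hh2 p θ u (im (ap e j)) X)
        (fun j => q (X (e 0) - X j)) (hV0 _) ?_ (fun j _ => hhle (ap e j) X) hBy0.le
        (fun j _ => hq.nn _)
      intro j _
      by_cases hy0 : y (rl (X ∘ ap e j)) = 0
      · show |y (rl (X ∘ ap e j))| ≤ By * q (X (e 0) - X j)
        rw [hy0, abs_zero]
        exact mul_nonneg hBy0.le (hq.nn _)
      · have h1 := rl_norm hρ0.le (X ∘ ap e j) (hρ _ hy0) 3
        have h2 : q (X (e 0) - X j) = 1 := by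
          rw [hqdef]
          unfold ic
          rw [Set.indicator_of_mem]
          rw [Metric.mem_closedBall, dist_zero_right, norm_sub_rev]
          exact h1
        show |y (rl (X ∘ ap e j))| ≤ By * q (X (e 0) - X j)
        rw [h2, mul_one]
        exact hBy _
    have e2 : fG X = ∑ e ∈ Ij 3 ι, ∑ j ∈ Finset.univ \ im e, hh2 p θ u (im (ap e j)) X *
          (VV φ (rt (X ∘ e)).1 (rt (X ∘ e)).2 * |y (rl (X ∘ ap e j))| *
            ∑ k ∈ (Finset.univ \ im e).erase j, q (X (e 0) - X k)) := by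
      rw [hfG]
      dsimp only
      rw [hT3]
      refine Finset.sum_congr rfl fun e he => Finset.sum_congr rfl fun j hj => ?_
      have hj' : j ∉ im e := (Finset.mem_sdiff.1 hj).2
      have h3 : Finset.univ \ im (ap e j) = (Finset.univ \ im e).erase j := by
        rw [(hT4 e he j hj').2]
        ext k
        simp only [Finset.mem_sdiff, Finset.mem_univ, true_and, Finset.mem_insert, Finset.mem_erase]
        tauto
      rw [h3]
      rfl
    rw [hfR]
    dsimp only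
    rw [abs_mul, abs_of_pos (by norm_num : (0 : ℝ) < 1 / 6), e2]
    calc 1 / 6 * |∑ e ∈ Ij 3 ι, VV φ (rt (X ∘ e)).1 (rt (X ∘ e)).2 *
        ∑ j ∈ Finset.univ \ im e, ∑ k ∈ (Finset.univ \ im e).erase j,
          (y (rl (X ∘ ap e j)) * hS p β θ u (im (ap e j)) X) *
          (y (rl (X ∘ ap e k)) * hS p β θ u (im (ap e k)) X)|
        ≤ 1 / 6 * ∑ e ∈ Ij 3 ι, By * ∑ j ∈ Finset.univ \ im e, hh2 p θ u (im (ap e j)) X *
          (VV φ (rt (X ∘ e)).1 (rt (X ∘ e)).2 * |y (rl (X ∘ ap e j))| *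
            ∑ k ∈ (Finset.univ \ im e).erase j, q (X (e 0) - X k)) := by
          refine mul_le_mul_of_nonneg_left ?_ (by norm_num)
          exact (Finset.abs_sum_le_sum_abs _ _).trans (Finset.sum_le_sum e1)
      _ = _ := by
          rw [← Finset.mul_sum]
          ring
  have hAA : 0 ≤ p.M / p.l ^ 3 * AA p θ u 4 := by
    have h1 : 0 ≤ AA p θ u 4 := by
      unfold AA
      refine mul_nonneg (by positivity) (Finset.sum_nonneg fun a _ => Finset.sum_nonneg fun e _ => ?_)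
      exact integral_nonneg fun X => sq_nonneg _
    have h2 := hY.hM
    exact mul_nonneg (div_nonneg (by linarith) (by positivity)) h1
  have hfinal : |IO p fR| ≤ By / 6 * GS p θ u 3 1 K q := by
    rw [hGS]
    have h1 : |IO p fR| ≤ IO p (fun X => |fR X|) := abs_integral_le_integral_abs
    have h2 := IOmono (fun X => |fR X|) (fun X => By / 6 * fG X) (hab bR) (hcm _ bG) hR
    have h3 : IO p (fun X => By / 6 * fG X) = By / 6 * IO p fG := integral_const_mul _ _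
    rw [h3] at h2
    exact h1.trans h2
  rw [hQ]
  have h4 : IO p fA + IO p fB + IO p fD + IO p fR - (IO p fA + IO p fB + IO p fD) = IO p fR := by ring
  rw [h4]
  refine hfinal.trans ?_
  calc By / 6 * GS p θ u 3 1 K q
      ≤ By / 6 * (C₂ * (Bv * By * vl) * (w * (p.M / p.l ^ 3)) * AA p θ u 4) :=
        mul_le_mul_of_nonneg_left hG1 (by positivity)
    _ = By / 6 * (C₂ * (Bv * By * vl) * w) * (p.M / p.l ^ 3 * AA p θ u 4) := by ring
    _ ≤ (ρ + By / 6 * (C₂ * (Bv * By * vl) * w)) * (p.M / p.l ^ 3 * AA p θ u 4) :=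
        mul_le_mul_of_nonneg_right (by linarith) hAA

end Pool.Agent.TBS
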