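import Pool.Agent.TBS.StmtsC
import Pool.Agent.TBS.QV1

/-!
# Squad TBS: module EXC (the weighted quadratic potential term)
-/

set_option autoImplicit false

open MeasureTheory Filter Topology
open scoped ContDiff

namespace Pool.Agent.TBS

open Pool.Agent.TBG Pool.Agent.TBL Pool.Agent.TBF

namespace EXC_

/-- the mass of a kernel with bounded support -/
lemma massg {m : ℕ} {B ρ : ℝ} (K : (Fin (m + 1) → E) → ℝ)
    (h0 : ∀ x, 0 ≤ K x) (h1 : ∀ x, K x ≤ B) (h2 : ∀ x, K x ≠ 0 → ∀ s, ‖x s - x 0‖ ≤ ρ) (hρ : 0 ≤ ρ)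
    (x₀ : E) : ∫ z : Fin m → E, K (Fin.cons x₀ z) ≤
      B * (volume (Metric.closedBall (0 : Fin m → E) ρ)).toReal := by
  have hfin : volume (Metric.closedBall (fun _ => x₀ : Fin m → E) ρ) < ⊤ :=
    (isCompact_closedBall _ _).measure_lt_top
  have hle : ∀ z : Fin m → E, K (Fin.cons x₀ z) ≤
      (Metric.closedBall (fun _ => x₀ : Fin m → E) ρ).indicator (fun _ => B) z := by
    intro z
    by_cases hz : z ∈ Metric.closedBall (fun _ => x₀ : Fin m → E) ρ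
    · rw [Set.indicator_of_mem hz]
      exact h1 _
    · rw [Set.indicator_of_notMem hz]
      by_contra hn
      rw [not_le] at hn
      refine hz ?_
      rw [Metric.mem_closedBall, dist_pi_le_iff hρ]
      intro s
      have h3 := h2 _ hn.ne' s.succ
      rw [Fin.cons_succ, Fin.cons_zero] at h3
      rw [dist_eq_norm]
      exact h3
  calc ∫ z : Fin m → E, K (Fin.cons x₀ z)
      ≤ ∫ z : Fin m → E, (Metric.closedBall (fun _ => x₀ : Fin m → E) ρ).indicator (fun _ => B) z := by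
        refine integral_mono_of_nonneg (Filter.Eventually.of_forall fun z => h0 _) ?_
          (Filter.Eventually.of_forall hle)
        exact (integrable_indicator_iff measurableSet_closedBall).mpr
          (integrableOn_const hfin.ne)
    _ = B * (volume (Metric.closedBall (0 : Fin m → E) ρ)).toReal := by
        rw [integral_indicator measurableSet_closedBall, setIntegral_const, smul_eq_mul, mul_comm]
        congr 1
        rw [Measure.real, MeasureTheory.Measure.addHaar_closedBall_center]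

/-- the relative positions control the distances -/
lemma rt_norm {ρ : ℝ} (hρ : 0 ≤ ρ) (x : Fin 3 → E) (h : ‖rt x‖ ≤ ρ) (s : Fin 3) :
    ‖x s - x 0‖ ≤ ρ := by
  have h1 : ‖x 0 - x 1‖ ≤ ‖rt x‖ := norm_fst_le (rt x)
  have h2 : ‖x 0 - x 2‖ ≤ ‖rt x‖ := norm_snd_le (rt x)
  fin_cases s
  · show ‖x 0 - x 0‖ ≤ ρ
    rw [sub_self, norm_zero]
    exact hρ
  · show ‖x 1 - x 0‖ ≤ ρ
    rw [norm_sub_rev]
    exact h1.trans h
  · show ‖x 2 - x 0‖ ≤ ρ
    rw [norm_sub_rev]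
    exact h2.trans h

lemma fin_mO (L : ℝ) : IsFiniteMeasure (mO L) := by
  have hb : Bornology.IsBounded (Om L) := by
    rw [isBounded_iff_forall_norm_le]
    refine ⟨Real.sqrt (3 * (L / 2) ^ 2), fun x hx => ?_⟩
    rw [EuclideanSpace.norm_eq]
    apply Real.sqrt_le_sqrt
    have h1 : ∀ c : Fin 3, ‖x c‖ ^ 2 ≤ (L / 2) ^ 2 := by
      intro c
      have h2 : |x c| < L / 2 := hx c
      rw [Real.norm_eq_abs]
      exact pow_le_pow_left₀ (abs_nonneg _) h2.le 2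
    calc ∑ c : Fin 3, ‖x c‖ ^ 2 ≤ ∑ _c : Fin 3, (L / 2) ^ 2 := Finset.sum_le_sum fun c _ => h1 c
      _ = 3 * (L / 2) ^ 2 := by
        rw [Finset.sum_const, Finset.card_univ, Fintype.card_fin, nsmul_eq_mul]
        norm_num
  refine ⟨?_⟩
  unfold mO
  rw [Measure.restrict_apply MeasurableSet.univ, Set.univ_inter]
  exact hb.measure_lt_top

/-- the square of the reference function -/
lemma expand2 {J : Type} [DecidableEq J] (s : Finset J) (v a h : ℝ) (z : J → ℝ) (hv : 0 ≤ v) :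
    v * (a * h + ∑ j ∈ s, z j) ^ 2 ≤ 2 * (v * a ^ 2 * h ^ 2) + 2 * ∑ j ∈ s, v * z j ^ 2 +
      2 * (v * ∑ j ∈ s, ∑ k ∈ s.erase j, z j * z k) := by
  have h1 : (∑ j ∈ s, z j) ^ 2 = ∑ j ∈ s, z j ^ 2 + ∑ j ∈ s, ∑ k ∈ s.erase j, z j * z k := by
    rw [sq, Finset.sum_mul_sum, ← Finset.sum_add_distrib]
    refine Finset.sum_congr rfl fun j hj => ?_
    rw [← Finset.add_sum_erase s _ hj, sq]
  have h3 : ∑ j ∈ s, v * z j ^ 2 = v * ∑ j ∈ s, z j ^ 2 := by rw [Finset.mul_sum]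
  have h4 : (a * h + ∑ j ∈ s, z j) ^ 2 ≤ 2 * (a * h) ^ 2 + 2 * (∑ j ∈ s, z j) ^ 2 := by
    nlinarith [sq_nonneg (a * h - ∑ j ∈ s, z j)]
  rw [h3]
  calc v * (a * h + ∑ j ∈ s, z j) ^ 2
      ≤ v * (2 * (a * h) ^ 2 + 2 * (∑ j ∈ s, z j) ^ 2) := mul_le_mul_of_nonneg_left h4 hv
    _ = _ := by
      rw [h1]
      ring

end EXC_

open QV1_ EXC_ in
theorem exc_proof (hBMC : Pool.Agent.TBL.Stmt_BMC) (hHSF : Stmt_HSF) (hTUP : Stmt_TUP)
    (_hKBM : Stmt_KBM) (hGS1 : Stmt_GS1) (hZET : Stmt_ZET) (hGW0 : Stmt_GW0) : Stmt_EXC := by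
  intro C φ y hφ hy
  classical
  obtain ⟨hφb, hwb, hVb, hwV, hV0⟩ := pot hφ
  obtain ⟨hy1, hy2⟩ := hy
  obtain ⟨hB1, hB2, hB3, hB4, hB5⟩ := hBMC
  obtain ⟨ρ, hρ0, hρ⟩ : ∃ ρ : ℝ, 0 < ρ ∧ ∀ q, y q ≠ 0 → ‖q‖ ≤ ρ := by
    obtain ⟨r, hr⟩ := hy2.isCompact.isBounded.exists_norm_le
    refine ⟨|r| + 1, by positivity, fun q hq => ?_⟩
    have := hr q (subset_tsupport _ hq)
    linarith [le_abs_self r]
  obtain ⟨R, hR0, hRs⟩ : ∃ R : ℝ, 0 < R ∧ ∀ z, ww φ z ≠ 0 → ‖z‖ ≤ R := by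
    obtain ⟨r, hr⟩ := hφ.supp
    refine ⟨|r| + 1, by positivity, fun q hq => ?_⟩
    by_contra hn
    rw [not_le] at hn
    refine hq ?_
    unfold ww
    rw [hr q (by linarith [le_abs_self r]), neg_zero]
  obtain ⟨By, hBy0, hBy⟩ : ∃ B : ℝ, 0 < B ∧ ∀ q, |y q| ≤ B :=
    bdd_of_supp hy1.continuous (R := ρ) fun z hz => by
      by_contra hn
      exact absurd (hρ z hn) (not_le.2 hz)
  obtain ⟨Bv, hBv0, hBv⟩ : ∃ B : ℝ, 0 < B ∧ ∀ a b : E, VV φ a b ≤ B := by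
    obtain ⟨B, hB⟩ := hVb.2
    refine ⟨|B| + 1, by positivity, fun a b => ?_⟩
    have h0 : |VV φ a b| ≤ B := hB (a, b)
    have h1 := le_abs_self (VV φ a b)
    linarith [le_abs_self B]
  have hyb : BM y := ⟨hy1.continuous.measurable, By, hBy⟩
  have hsq : ∀ {α : Type} [MeasurableSpace α] {F : α → ℝ}, BM F → BM (fun X => F X ^ 2) :=
    fun {α} _ {F} hF => (hB1 _ F F hF hF).2.2.2.1
  have hab : ∀ {α : Type} [MeasurableSpace α] {F : α → ℝ}, BM F → BM (fun X => |F X|) :=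
    fun {α} _ {F} hF => (hB1 _ F F hF hF).2.2.2.2.1
  have hadd : ∀ {α : Type} [MeasurableSpace α] {F G : α → ℝ}, BM F → BM G →
      BM (fun X => F X + G X) := fun {α} _ {F G} hF hG => (hB1 _ F G hF hG).1
  have hsub : ∀ {α : Type} [MeasurableSpace α] {F G : α → ℝ}, BM F → BM G →
      BM (fun X => F X - G X) := fun {α} _ {F G} hF hG => (hB1 _ F G hF hG).2.1
  have hcm : ∀ {α : Type} [MeasurableSpace α] {F : α → ℝ} (a : ℝ), BM F → BM (fun X => a * F X) :=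
    fun {α} _ {F} a hF => (hB1 _ F F hF hF).2.2.2.2.2.1 a
  have hsum : ∀ {α J : Type} [MeasurableSpace α] (s : Finset J) (F : J → α → ℝ),
      (∀ i ∈ s, BM (F i)) → BM (fun X => ∑ i ∈ s, F i X) := fun {α J} _ s F h => hB3 α J s F h
  -- the kernels
  have hrt0 : Measurable (rt : (Fin 3 → E) → E × E) :=
    ((measurable_pi_apply 0).sub (measurable_pi_apply 1)).prodMk
      ((measurable_pi_apply 0).sub (measurable_pi_apply 2))
  have hrl0 : Measurable (rl : (Fin 4 → E) → W4) := by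
    exact ((measurable_pi_apply 0).sub (measurable_pi_apply 1)).prodMk
      (((measurable_pi_apply 0).sub (measurable_pi_apply 2)).prodMk
      ((measurable_pi_apply 0).sub (measurable_pi_apply 3)))
  set K : (Fin 4 → E) → ℝ := fun x => VV φ (x 0 - x 1) (x 0 - x 2) * |y (rl x)| with hKdef
  set K₄ : (Fin 4 → E) → ℝ := fun x => VV φ (x 0 - x 1) (x 0 - x 2) * y (rl x) ^ 2 with hK4def
  set K₃ : (Fin 3 → E) → ℝ := fun x => VV φ (x 0 - x 1) (x 0 - x 2) * (1 - φ (rt x)) ^ 2 with hK3def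
  have hV4 : BM (fun x : Fin 4 → E => VV φ (x 0 - x 1) (x 0 - x 2)) :=
    hB4 _ _ (fun z : E × E => VV φ z.1 z.2) (fun x : Fin 4 → E => (x 0 - x 1, x 0 - x 2)) hVb
      (((measurable_pi_apply 0).sub (measurable_pi_apply 1)).prodMk
      ((measurable_pi_apply 0).sub (measurable_pi_apply 2)))
  have hV3 : BM (fun x : Fin 3 → E => VV φ (x 0 - x 1) (x 0 - x 2)) :=
    hB4 _ _ (fun z : E × E => VV φ z.1 z.2) (fun x : Fin 3 → E => (x 0 - x 1, x 0 - x 2)) hVb hrt0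
  have hKbm : BM K := bm_mul hV4 (hab (hB4 _ _ y _ hyb hrl0))
  have hK4bm : BM K₄ := bm_mul hV4 (hsq (hB4 _ _ y _ hyb hrl0))
  have hK3bm : BM K₃ := bm_mul hV3 (hsq (hsub (hB2 _ 1) (hB4 _ _ φ _ hφb hrt0)))
  obtain ⟨B₃, hB₃⟩ := hK3bm.2
  have hB30 : 0 ≤ B₃ := (abs_nonneg _).trans (hB₃ 0)
  set vl : ℝ := (volume (Metric.closedBall (0 : Fin 3 → E) ρ)).toReal with hvl
  set vm : ℝ := (volume (Metric.closedBall (0 : Fin 2 → E) R)).toReal with hvm
  set w : ℝ := (volume (Metric.closedBall (0 : E) ρ)).toReal with hw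
  have hvl0 : 0 ≤ vl := ENNReal.toReal_nonneg
  have hvm0 : 0 ≤ vm := ENNReal.toReal_nonneg
  have hw0 : 0 ≤ w := ENNReal.toReal_nonneg
  obtain ⟨C₂, hC₂, hG⟩ := hGS1 C 3
  obtain ⟨C₃, hC₃, hhs⟩ := hHSF C
  obtain ⟨C₄, hC₄, hW3⟩ := hGW0 C 2
  obtain ⟨C₅, hC₅, hW4⟩ := hGW0 C 3
  have hc0 : 0 ≤ By / 3 * (C₂ * (Bv * By * vl) * w) := by positivity
  have hc1 : 0 ≤ 1 / 3 * (C₄ * (B₃ * vm)) := by positivity
  have hc2 : 0 ≤ 1 / 3 * (C₅ * (Bv * By ^ 2 * vl)) := by positivity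
  refine ⟨ρ + R + By / 3 * (C₂ * (Bv * By * vl) * w) + 1 / 3 * (C₄ * (B₃ * vm)) +
    1 / 3 * (C₅ * (Bv * By ^ 2 * vl)), by positivity, ?_⟩
  intro ι _ _ p Mc M₁ β θ u hpl hGr hM₁ hY hu
  have hρl : ρ ≤ p.l := by linarith
  have hRl : R ≤ p.l := by linarith
  have hl1 : 1 ≤ p.l := hY.hR.trans hY.hl
  have hfin : IsFiniteMeasure (mO p.L) := fin_mO p.L
  obtain ⟨-, zi1, ze1, zb1, -⟩ := hZET.2 ι p Mc M₁ hGr hM₁
  have hbu : BM u := by
    obtain ⟨hu1, hu2⟩ := hu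
    obtain ⟨B, hB⟩ := hu2.exists_bound_of_continuous hu1.continuous
    exact ⟨hu1.continuous.measurable, B, hB⟩
  have hfO : IsFiniteMeasure (PiS (mO p.L) (mO p.L) (∅ : Finset ι)) := by
    unfold PiS
    have : ∀ i, IsFiniteMeasure (if i ∈ (∅ : Finset ι) then mO p.L else mO p.L) := by
      intro i
      split_ifs <;> infer_instance
    infer_instance
  have hintO : ∀ (F : (ι → E) → ℝ), BM F →
      Integrable F (PiS (mO p.L) (mO p.L) (∅ : Finset ι)) :=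
    fun F hF => (hB1 _ F F hF hF).2.2.2.2.2.2 _
  have IOsum : ∀ {J : Type} (s : Finset J) (F : J → (ι → E) → ℝ), (∀ i ∈ s, BM (F i)) →
      ∑ i ∈ s, IO p (F i) = IO p (fun X => ∑ i ∈ s, F i X) := by
    intro J s F h
    unfold IO
    rw [integral_finsetSum _ fun i hi => hintO _ (h i hi)]
  have IOmono : ∀ (F G : (ι → E) → ℝ), BM F → BM G → (∀ X, F X ≤ G X) → IO p F ≤ IO p G :=
    fun F G hF hG h => integral_mono (hintO _ hF) (hintO _ hG) h
  -- clusters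
  have him : ∀ {k : ℕ} (e : Fin (k + 1) → ι), (im e).Nonempty := by
    intro k e
    exact ⟨e 0, Finset.mem_image_of_mem _ (Finset.mem_univ _)⟩
  have hhbm : ∀ {k : ℕ} (e : Fin (k + 1) → ι), BM (hS p β θ u (im e)) :=
    fun e => (hhs ι p β θ u (im e) hY hbu (him e)).1
  have hh2bm : ∀ {k : ℕ} (e : Fin (k + 1) → ι), BM (hh2 p θ u (im e)) :=
    fun e => (hhs ι p β θ u (im e) hY hbu (him e)).2.1
  have hh0 : ∀ {k : ℕ} (e : Fin (k + 1) → ι) X, 0 ≤ hh2 p θ u (im e) X :=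
    fun e X => ((hhs ι p β θ u (im e) hY hbu (him e)).2.2.1 X).1
  have hhle : ∀ {k : ℕ} (e : Fin (k + 1) → ι) X,
      hS p β θ u (im e) X ^ 2 ≤ hh2 p θ u (im e) X :=
    fun e X => ((hhs ι p β θ u (im e) hY hbu (him e)).2.2.1 X).2
  have hcomp : ∀ {k : ℕ} (e : Fin k → ι), Measurable fun X : ι → E => X ∘ e := by
    intro k e
    exact measurable_pi_lambda _ fun i => measurable_pi_apply (e i)
  have hrt : ∀ e : Fin 3 → ι, Measurable fun X : ι → E => rt (X ∘ e) := fun e => hrt0.comp (hcomp e)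
  have hrl : ∀ e : Fin 4 → ι, Measurable fun X : ι → E => rl (X ∘ e) := fun e => hrl0.comp (hcomp e)
  have b1φ : ∀ e : Fin 3 → ι, BM (fun X : ι → E => 1 - φ (rt (X ∘ e))) :=
    fun e => hsub (hB2 _ 1) (hB4 _ _ φ _ hφb (hrt e))
  have bV : ∀ e : Fin 3 → ι, BM (fun X : ι → E => VV φ (rt (X ∘ e)).1 (rt (X ∘ e)).2) :=
    fun e => hB4 _ _ (fun z : E × E => VV φ z.1 z.2) _ hVb (hrt e)
  have by4 : ∀ e : Fin 4 → ι, BM (fun X : ι → E => y (rl (X ∘ e))) :=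
    fun e => hB4 _ _ y _ hyb (hrl e)
  -- properties of the kernels
  set q : E → ℝ := ic (Metric.closedBall (0 : E) ρ) with hqdef
  have hq : Pk p.l w (ρ ^ 2) w q := pkq hρl
  have hcoord : ∀ {k : ℕ} (x : Fin (k + 1) → E) (s : Fin (k + 1)) (c : Fin 3) (r : ℝ), r ≤ p.l →
      ‖x s - x 0‖ ≤ r → |x s c - x 0 c| ≤ p.l := by
    intro k x s c r hr h1
    have h2 : |(x s - x 0) c| ≤ ‖x s - x 0‖ := PiLp.norm_apply_le (x s - x 0) c
    have h3 : (x s - x 0) c = x s c - x 0 c := rfl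
    rw [h3] at h2
    exact (h2.trans h1).trans hr
  have hKne : ∀ x, K x ≠ 0 → ∀ s, ‖x s - x 0‖ ≤ ρ := by
    intro x hx s
    refine rl_norm hρ0.le x (hρ _ fun h => hx ?_) s
    rw [hKdef]
    show VV φ (x 0 - x 1) (x 0 - x 2) * |y (rl x)| = 0
    rw [h, abs_zero, mul_zero]
  have hK0 : ∀ x, 0 ≤ K x := fun x => mul_nonneg (hV0 (x 0 - x 1, x 0 - x 2)) (abs_nonneg _)
  have hKle : ∀ x, K x ≤ Bv * By := fun x => mul_le_mul (hBv _ _) (hBy _) (abs_nonneg _) hBv0.le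
  have hK : Ck 3 p.l (Bv * By * vl) K :=
    ⟨hKbm, hK0, fun x hx s c => hcoord x s c ρ hρl (hKne x hx s),
      fun x₀ => massg K hK0 hKle hKne hρ0.le x₀⟩
  have hK4ne : ∀ x, K₄ x ≠ 0 → ∀ s, ‖x s - x 0‖ ≤ ρ := by
    intro x hx s
    refine rl_norm hρ0.le x (hρ _ fun h => hx ?_) s
    rw [hK4def]
    show VV φ (x 0 - x 1) (x 0 - x 2) * y (rl x) ^ 2 = 0
    rw [h]
    ring
  have hK40 : ∀ x, 0 ≤ K₄ x := fun x => mul_nonneg (hV0 (x 0 - x 1, x 0 - x 2)) (sq_nonneg _)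
  have hK4le : ∀ x, K₄ x ≤ Bv * By ^ 2 := fun x => by
    refine mul_le_mul (hBv _ _) ?_ (sq_nonneg _) hBv0.le
    rw [← sq_abs]
    exact pow_le_pow_left₀ (abs_nonneg _) (hBy _) 2
  have hK4 : Ck 3 p.l (Bv * By ^ 2 * vl) K₄ :=
    ⟨hK4bm, hK40, fun x hx s c => hcoord x s c ρ hρl (hK4ne x hx s),
      fun x₀ => massg K₄ hK40 hK4le hK4ne hρ0.le x₀⟩
  have hK3ne : ∀ x, K₃ x ≠ 0 → ∀ s, ‖x s - x 0‖ ≤ R := by
    intro x hx s
    refine rt_norm hR0.le x (hRs _ fun h => hx ?_) s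
    rw [hK3def]
    show VV φ (x 0 - x 1) (x 0 - x 2) * (1 - φ (rt x)) ^ 2 = 0
    have h1 : VV φ (x 0 - x 1) (x 0 - x 2) = ww φ (rt x) / (1 - φ (rt x)) := rfl
    rw [h1, h, zero_div, zero_mul]
  have hK30 : ∀ x, 0 ≤ K₃ x := fun x => mul_nonneg (hV0 (x 0 - x 1, x 0 - x 2)) (sq_nonneg _)
  have hK3le : ∀ x, K₃ x ≤ B₃ := fun x => (le_abs_self _).trans (hB₃ x)
  have hK3 : Ck 2 p.l (B₃ * vm) K₃ :=
    ⟨hK3bm, hK30, fun x hx s c => hcoord x s c R hRl (hK3ne x hx s),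
      fun x₀ => massg K₃ hK30 hK3le hK3ne hR0.le x₀⟩
  obtain ⟨hG0, hG1⟩ := hG ι p β θ u _ _ _ _ K q hY hu hK hq
  have hH3 := hW3 ι p Mc M₁ β θ u _ K₃ hGr hM₁ hY hu hK3
  have hH4 := hW4 ι p Mc M₁ β θ u _ K₄ hGr hM₁ hY hu hK4
  have hKX : ∀ e : Fin 4 → ι, BM (fun X : ι → E => K (X ∘ e)) :=
    fun e => hB4 _ _ K _ hKbm (hcomp e)
  have hK4X : ∀ e : Fin 4 → ι, BM (fun X : ι → E => K₄ (X ∘ e)) :=
    fun e => hB4 _ _ K₄ _ hK4bm (hcomp e)
  have hK3X : ∀ e : Fin 3 → ι, BM (fun X : ι → E => K₃ (X ∘ e)) :=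
    fun e => hB4 _ _ K₃ _ hK3bm (hcomp e)
  have hqX : ∀ i j : ι, BM (fun X : ι → E => q (X i - X j)) := by
    intro i j
    refine ⟨hq.meas.comp ((measurable_pi_apply i).sub (measurable_pi_apply j)), 1, fun X => ?_⟩
    rw [abs_of_nonneg (hq.nn _)]
    exact hq.le1 _
  -- the sum over one further particle
  have hGS : GS p θ u 3 1 K q = IO p (fun X => ∑ e ∈ Ij 4 ι, hh2 p θ u (im e) X *
      (K (X ∘ e) * ∑ k ∈ Finset.univ \ im e, q (X (e 0) - X k))) := by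
    unfold GS
    have e1 : ∀ e ∈ Ij (3 + 1) ι, ∑ j ∈ (Ij 1 ι).filter (fun j => Disjoint (im j) (im e)),
        IO p (fun X => hh2 p θ u (im e) X * (K (X ∘ e) * ∏ s, q (X (e 0) - X (j s)))) =
        IO p (fun X => hh2 p θ u (im e) X *
        (K (X ∘ e) * ∑ k ∈ Finset.univ \ im e, q (X (e 0) - X k))) := by
      intro e _
      have e2 : ∀ j : Fin 1 → ι, BM (fun X : ι → E => ∏ s, q (X (e 0) - X (j s))) := by
        intro j
        have e3 : (fun X : ι → E => ∏ s, q (X (e 0) - X (j s))) = fun X => q (X (e 0) - X (j 0)) := by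
          funext X
          rw [Fin.prod_univ_one]
        rw [e3]
        exact hqX _ _
      rw [IOsum _ _ fun j _ => bm_mul (hh2bm e) (bm_mul (hKX e) (e2 j))]
      congr 1
      funext X
      rw [← one (im e) fun k => q (X (e 0) - X k), Finset.mul_sum, Finset.mul_sum]
    rw [Finset.sum_congr rfl e1, IOsum _ _ fun e _ => bm_mul (hh2bm e) (bm_mul (hKX e)
      (hsum _ _ fun k _ => hqX _ k))]
  -- the parts
  obtain ⟨-, -, hT3, hT4, -⟩ := hTUP ι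
  set fL : (ι → E) → ℝ := fun X => 1 / 6 * ∑ e ∈ Ij 3 ι, ze p.l Mc M₁ e X *
    (VV φ (rt (X ∘ e)).1 (rt (X ∘ e)).2 * vF p β θ φ y u e X ^ 2) with hfL
  set fA : (ι → E) → ℝ := fun X => ∑ e ∈ Ij 3 ι, zi p.l Mc M₁ (e 0) X *
    (hh2 p θ u (im e) X * K₃ (X ∘ e)) with hfA
  set fD : (ι → E) → ℝ := fun X => ∑ e ∈ Ij 4 ι, zi p.l Mc M₁ (e 0) X *
    (hh2 p θ u (im e) X * K₄ (X ∘ e)) with hfD
  set fG : (ι → E) → ℝ := fun X => ∑ e ∈ Ij 4 ι, hh2 p θ u (im e) X *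
      (K (X ∘ e) * ∑ k ∈ Finset.univ \ im e, q (X (e 0) - X k)) with hfG
  have bvF : ∀ e : Fin 3 → ι, BM (vF p β θ φ y u e) := by
    intro e
    unfold vF
    exact hadd (bm_mul (b1φ e) (hhbm e)) (hsum _ _ fun j _ => bm_mul (by4 _) (hhbm (ap e j)))
  have bL : BM fL := hcm _ (hsum _ _ fun e _ => bm_mul (ze1 e).1 (bm_mul (bV e) (hsq (bvF e))))
  have bA : BM fA := hsum _ _ fun e _ => bm_mul (zi1 (e 0)).1 (bm_mul (hh2bm e) (hK3X e))
  have bD : BM fD := hsum _ _ fun e _ => bm_mul (zi1 (e 0)).1 (bm_mul (hh2bm e) (hK4X e))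
  have bG : BM fG := hsum _ _ fun e _ => bm_mul (hh2bm e) (bm_mul (hKX e)
      (hsum _ _ fun k _ => hqX _ k))
  have hpt : ∀ X : ι → E, fL X ≤ 1 / 3 * fA X + 1 / 3 * fD X + By / 3 * fG X := by
    intro X
    have e1 : ∀ e ∈ Ij 3 ι, ze p.l Mc M₁ e X * (VV φ (rt (X ∘ e)).1 (rt (X ∘ e)).2 *
        vF p β θ φ y u e X ^ 2) ≤
        2 * (zi p.l Mc M₁ (e 0) X * (hh2 p θ u (im e) X * K₃ (X ∘ e))) +
        2 * (∑ j ∈ Finset.univ \ im e, zi p.l Mc M₁ ((ap e j) 0) X *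
          (hh2 p θ u (im (ap e j)) X * K₄ (X ∘ ap e j))) +
        2 * (By * ∑ j ∈ Finset.univ \ im e, hh2 p θ u (im (ap e j)) X *
          (VV φ (rt (X ∘ e)).1 (rt (X ∘ e)).2 * |y (rl (X ∘ ap e j))| *
            ∑ k ∈ (Finset.univ \ im e).erase j, q (X (e 0) - X k))) := by
      intro e _
      obtain ⟨z0, z1, z2⟩ := (ze1 e).2 X
      have hv0 : 0 ≤ VV φ (rt (X ∘ e)).1 (rt (X ∘ e)).2 := hV0 (rt (X ∘ e))
      have hex := expand2 (Finset.univ \ im e) (VV φ (rt (X ∘ e)).1 (rt (X ∘ e)).2)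
        (1 - φ (rt (X ∘ e))) (hS p β θ u (im e) X)
        (fun j => y (rl (X ∘ ap e j)) * hS p β θ u (im (ap e j)) X) hv0
      have hoff := offdiag (Finset.univ \ im e) (VV φ (rt (X ∘ e)).1 (rt (X ∘ e)).2) By
        (fun j => y (rl (X ∘ ap e j)))
        (fun j => hS p β θ u (im (ap e j)) X) (fun j => hh2 p θ u (im (ap e j)) X)
        (fun j => q (X (e 0) - X j)) hv0 (by
          intro j _
          by_cases hy0 : y (rl (X ∘ ap e j)) = 0
          · show |y (rl (X ∘ ap e j))| ≤ By * q (X (e 0) - X j)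
            rw [hy0, abs_zero]
            exact mul_nonneg hBy0.le (hq.nn _)
          · have h1 := rl_norm hρ0.le (X ∘ ap e j) (hρ _ hy0) 3
            have h2 : q (X (e 0) - X j) = 1 := by
              rw [hqdef]
              unfold ic
              rw [Set.indicator_of_mem]
              rw [Metric.mem_closedBall, dist_zero_right, norm_sub_rev]
              exact h1
            show |y (rl (X ∘ ap e j))| ≤ By * q (X (e 0) - X j)
            rw [h2, mul_one]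
            exact hBy _) (fun j _ => hhle (ap e j) X) hBy0.le
        (fun j _ => hq.nn _)
      have hA' : ze p.l Mc M₁ e X * (VV φ (rt (X ∘ e)).1 (rt (X ∘ e)).2 *
          (1 - φ (rt (X ∘ e))) ^ 2 * hS p β θ u (im e) X ^ 2) ≤
          zi p.l Mc M₁ (e 0) X * (hh2 p θ u (im e) X * K₃ (X ∘ e)) := by
        have h1 : VV φ (rt (X ∘ e)).1 (rt (X ∘ e)).2 * (1 - φ (rt (X ∘ e))) ^ 2 = K₃ (X ∘ e) := rfl
        rw [h1]
        calc ze p.l Mc M₁ e X * (K₃ (X ∘ e) * hS p β θ u (im e) X ^ 2)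
            ≤ zi p.l Mc M₁ (e 0) X * (K₃ (X ∘ e) * hh2 p θ u (im e) X) :=
              mul_le_mul z2 (mul_le_mul_of_nonneg_left (hhle e X) (hK30 _))
                (mul_nonneg (hK30 _) (sq_nonneg _)) (z0.trans z2)
          _ = _ := by ring
      have hD' : ze p.l Mc M₁ e X * ∑ j ∈ Finset.univ \ im e, VV φ (rt (X ∘ e)).1 (rt (X ∘ e)).2 *
          (y (rl (X ∘ ap e j)) * hS p β θ u (im (ap e j)) X) ^ 2 ≤
          ∑ j ∈ Finset.univ \ im e, zi p.l Mc M₁ ((ap e j) 0) X *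
          (hh2 p θ u (im (ap e j)) X * K₄ (X ∘ ap e j)) := by
        rw [Finset.mul_sum]
        refine Finset.sum_le_sum fun j _ => ?_
        have h1 : VV φ (rt (X ∘ e)).1 (rt (X ∘ e)).2 * y (rl (X ∘ ap e j)) ^ 2 =
          K₄ (X ∘ ap e j) := rfl
        have h2 : zi p.l Mc M₁ ((ap e j) 0) X = zi p.l Mc M₁ (e 0) X := rfl
        calc ze p.l Mc M₁ e X * (VV φ (rt (X ∘ e)).1 (rt (X ∘ e)).2 *
              (y (rl (X ∘ ap e j)) * hS p β θ u (im (ap e j)) X) ^ 2)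
            = ze p.l Mc M₁ e X * ((VV φ (rt (X ∘ e)).1 (rt (X ∘ e)).2 *
              y (rl (X ∘ ap e j)) ^ 2) * hS p β θ u (im (ap e j)) X ^ 2) := by ring
          _ = ze p.l Mc M₁ e X * (K₄ (X ∘ ap e j) * hS p β θ u (im (ap e j)) X ^ 2) := by rw [h1]
          _ ≤ zi p.l Mc M₁ ((ap e j) 0) X * (K₄ (X ∘ ap e j) * hh2 p θ u (im (ap e j)) X) := by
              rw [h2]
              exact mul_le_mul z2 (mul_le_mul_of_nonneg_left (hhle (ap e j) X) (hK40 _))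
                (mul_nonneg (hK40 _) (sq_nonneg _)) (z0.trans z2)
          _ = _ := by ring
      have hoff' : ze p.l Mc M₁ e X * (VV φ (rt (X ∘ e)).1 (rt (X ∘ e)).2 *
          ∑ j ∈ Finset.univ \ im e, ∑ k ∈ (Finset.univ \ im e).erase j,
            (y (rl (X ∘ ap e j)) * hS p β θ u (im (ap e j)) X) *
            (y (rl (X ∘ ap e k)) * hS p β θ u (im (ap e k)) X)) ≤
          By * ∑ j ∈ Finset.univ \ im e, hh2 p θ u (im (ap e j)) X *
          (VV φ (rt (X ∘ e)).1 (rt (X ∘ e)).2 * |y (rl (X ∘ ap e j))| *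
            ∑ k ∈ (Finset.univ \ im e).erase j, q (X (e 0) - X k)) := by
        refine le_trans (le_trans (le_abs_self _) ?_) hoff
        rw [abs_mul, abs_of_nonneg z0]
        exact mul_le_of_le_one_left (abs_nonneg _) z1
      unfold vF
      have hm := mul_le_mul_of_nonneg_left hex z0
      refine hm.trans ?_
      calc _ = 2 * (ze p.l Mc M₁ e X * (VV φ (rt (X ∘ e)).1 (rt (X ∘ e)).2 *
          (1 - φ (rt (X ∘ e))) ^ 2 * hS p β θ u (im e) X ^ 2)) +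
          2 * (ze p.l Mc M₁ e X * ∑ j ∈ Finset.univ \ im e,
            VV φ (rt (X ∘ e)).1 (rt (X ∘ e)).2 *
            (y (rl (X ∘ ap e j)) * hS p β θ u (im (ap e j)) X) ^ 2) +
          2 * (ze p.l Mc M₁ e X * (VV φ (rt (X ∘ e)).1 (rt (X ∘ e)).2 *
          ∑ j ∈ Finset.univ \ im e, ∑ k ∈ (Finset.univ \ im e).erase j,
            (y (rl (X ∘ ap e j)) * hS p β θ u (im (ap e j)) X) *
            (y (rl (X ∘ ap e k)) * hS p β θ u (im (ap e k)) X))) := by ring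
        _ ≤ _ := add_le_add (add_le_add (mul_le_mul_of_nonneg_left hA' (by norm_num))
            (mul_le_mul_of_nonneg_left hD' (by norm_num)))
            (mul_le_mul_of_nonneg_left hoff' (by norm_num))
    have e2 : fG X = ∑ e ∈ Ij 3 ι, ∑ j ∈ Finset.univ \ im e, hh2 p θ u (im (ap e j)) X *
          (VV φ (rt (X ∘ e)).1 (rt (X ∘ e)).2 * |y (rl (X ∘ ap e j))| *
            ∑ k ∈ (Finset.univ \ im e).erase j, q (X (e 0) - X k)) := by
      rw [hfG]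
      dsimp only
      rw [hT3]
      refine Finset.sum_congr rfl fun e he => Finset.sum_congr rfl fun j hj => ?_
      have hj' : j ∉ im e := (Finset.mem_sdiff.1 hj).2
      have h3 : Finset.univ \ im (ap e j) = (Finset.univ \ im e).erase j := by
        rw [(hT4 e he j hj').2]
        ext k
        simp only [Finset.mem_sdiff, Finset.mem_univ, true_and, Finset.mem_insert, Finset.mem_erase]
        tauto
      rw [h3]
      rfl
    have e3 : fD X = ∑ e ∈ Ij 3 ι, ∑ j ∈ Finset.univ \ im e, zi p.l Mc M₁ ((ap e j) 0) X *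
          (hh2 p θ u (im (ap e j)) X * K₄ (X ∘ ap e j)) := by
      rw [hfD]
      dsimp only
      rw [hT3]
    rw [e2, e3, hfL, hfA]
    dsimp only
    refine (mul_le_mul_of_nonneg_left (Finset.sum_le_sum e1) (by norm_num)).trans (le_of_eq ?_)
    rw [Finset.sum_add_distrib, Finset.sum_add_distrib, ← Finset.mul_sum, ← Finset.mul_sum,
      ← Finset.mul_sum, ← Finset.mul_sum]
    ring
  have hAA : 0 ≤ p.M / p.l ^ 3 * AA p θ u 4 := by
    have h1 : 0 ≤ AA p θ u 4 := by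
      unfold AA
      refine mul_nonneg (by positivity) (Finset.sum_nonneg fun a _ => Finset.sum_nonneg fun e _ => ?_)
      exact integral_nonneg fun X => sq_nonneg _
    have h2 := hY.hM
    exact mul_nonneg (div_nonneg (by linarith) (by positivity)) h1
  have hAW : ∀ m, 0 ≤ AW p Mc M₁ θ u m := by
    intro m
    unfold AW
    refine mul_nonneg (by positivity) (Finset.sum_nonneg fun a _ => Finset.sum_nonneg fun e _ => ?_)
    exact integral_nonneg fun X => mul_nonneg ((zb1 a (im e)).2.2 X) (sq_nonneg _)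
  have hfin1 : IO p fL ≤ 1 / 3 * IO p fA + 1 / 3 * IO p fD + By / 3 * IO p fG := by
    have h1 := IOmono fL (fun X => 1 / 3 * fA X + 1 / 3 * fD X + By / 3 * fG X) bL
      (hadd (hadd (hcm _ bA) (hcm _ bD)) (hcm _ bG)) hpt
    refine h1.trans (le_of_eq ?_)
    unfold IO
    rw [integral_add ((hintO _ (hadd (hcm _ bA) (hcm _ bD)))) (hintO _ (hcm _ bG)),
      integral_add (hintO _ (hcm _ bA)) (hintO _ (hcm _ bD)), integral_const_mul, integral_const_mul,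
      integral_const_mul]
  refine hfin1.trans ?_
  rw [← hGS]
  have h3 := hAW 3
  have h4 := hAW 4
  have g1 : 1 / 3 * IO p fA ≤ 1 / 3 * (C₄ * (B₃ * vm)) * AW p Mc M₁ θ u 3 := by
    calc 1 / 3 * IO p fA ≤ 1 / 3 * (C₄ * (B₃ * vm) * AW p Mc M₁ θ u (2 + 1)) :=
          mul_le_mul_of_nonneg_left hH3 (by norm_num)
      _ = _ := by ring
  have g2 : 1 / 3 * IO p fD ≤ 1 / 3 * (C₅ * (Bv * By ^ 2 * vl)) * AW p Mc M₁ θ u 4 := by
    calc 1 / 3 * IO p fD ≤ 1 / 3 * (C₅ * (Bv * By ^ 2 * vl) * AW p Mc M₁ θ u (3 + 1)) :=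
          mul_le_mul_of_nonneg_left hH4 (by norm_num)
      _ = _ := by ring
  have g3 : By / 3 * GS p θ u 3 1 K q ≤
      By / 3 * (C₂ * (Bv * By * vl) * w) * (p.M / p.l ^ 3 * AA p θ u 4) := by
    calc By / 3 * GS p θ u 3 1 K q
        ≤ By / 3 * (C₂ * (Bv * By * vl) * (w * (p.M / p.l ^ 3)) * AA p θ u 4) :=
          mul_le_mul_of_nonneg_left hG1 (by positivity)
      _ = _ := by ring
  have t1 := mul_nonneg (by linarith : (0 : ℝ) ≤ ρ + R + By / 3 * (C₂ * (Bv * By * vl) * w) +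
    1 / 3 * (C₅ * (Bv * By ^ 2 * vl))) h3
  have t2 := mul_nonneg (by linarith : (0 : ℝ) ≤ ρ + R + By / 3 * (C₂ * (Bv * By * vl) * w) +
    1 / 3 * (C₄ * (B₃ * vm))) h4
  have t3 := mul_nonneg (by linarith : (0 : ℝ) ≤ ρ + R + 1 / 3 * (C₄ * (B₃ * vm)) +
    1 / 3 * (C₅ * (Bv * By ^ 2 * vl))) hAA
  linarith

end Pool.Agent.TBS
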