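import Pool.Agent.TBS.StmtsB

/-!
# Three-body Bose gases, sharp lower bound, module FIF: the potential of the field of three particles
-/

set_option autoImplicit false

open MeasureTheory Filter Topology
open scoped ContDiff

namespace Pool.Agent.TBS

open Pool.Agent.TBG Pool.Agent.TBL Pool.Agent.TBF

namespace FIF_

variable {ι : Type} [Fintype ι] [DecidableEq ι]

omit [Fintype ι] in
lemma meas_upd (i : ι) (v : E) : Measurable (fun X : ι → E => Function.update X i (X i + v)) := by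
  refine measurable_pi_lambda _ fun j => ?_
  by_cases h : j = i
  · subst h
    simp only [Function.update_self]
    exact (measurable_pi_apply _).add_const _
  · simp only [Function.update_of_ne h]
    exact measurable_pi_apply _

omit [Fintype ι] in
lemma meas_pd (F : (ι → E) → ℝ) (hF : Measurable F) (i : ι) (c : Fin 3)
    (hd : ∀ X, ContDiff ℝ 1 (fun x => F (Function.update X i x))) :
    Measurable (fun X => pd c (fun x => F (Function.update X i x)) (X i)) := by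
  refine measurable_of_tendsto_metrizable (f := fun (n : ℕ) X =>
    ((n : ℝ) + 1) * (F (Function.update X i (X i + ((n : ℝ) + 1)⁻¹ • ev c)) - F X)) ?_ ?_
  · intro n
    exact ((hF.comp (meas_upd i _)).sub hF).const_mul _
  · rw [tendsto_pi_nhds]
    intro X
    have h1 : HasFDerivAt (fun x => F (Function.update X i x))
        (fderiv ℝ (fun x => F (Function.update X i x)) (X i)) (X i) :=
      ((hd X).differentiable (by simp) (X i)).hasFDerivAt
    have h2 := h1.lim (ev c) (c := fun n : ℕ => ((n : ℝ) + 1)) (l := atTop) (by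
      have h3 : Tendsto (fun n : ℕ => ((n : ℝ) + 1)) atTop atTop :=
        tendsto_atTop_add_const_right _ _ tendsto_natCast_atTop_atTop
      refine h3.congr fun n => ?_
      rw [Real.norm_of_nonneg (by positivity)])
    simp only [smul_eq_mul, Function.update_eq_self] at h2
    exact h2

lemma pd_mul (c : Fin 3) (f g : E → ℝ) (x : E) (hf : DifferentiableAt ℝ f x)
    (hg : DifferentiableAt ℝ g x) :
    pd c (fun y => f y * g y) x = pd c f x * g x + f x * pd c g x := by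
  unfold pd
  rw [fderiv_fun_mul hf hg]
  simp only [add_apply, smul_apply, smul_eq_mul]
  ring

lemma pd_sum {J : Type} (c : Fin 3) (s : Finset J) (f : J → E → ℝ) (x : E)
    (hf : ∀ j ∈ s, DifferentiableAt ℝ (f j) x) :
    pd c (fun y => ∑ j ∈ s, f j y) x = ∑ j ∈ s, pd c (f j) x := by
  unfold pd
  rw [fderiv_fun_sum hf]
  simp

lemma pd_cmul (c : Fin 3) (a : ℝ) (f : E → ℝ) (x : E) (hf : DifferentiableAt ℝ f x) :
    pd c (fun y => a * f y) x = a * pd c f x := by
  unfold pd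
  rw [fderiv_const_mul hf]
  simp

end FIF_

open FIF_ in
theorem fif_proof (hBMC : Pool.Agent.TBL.Stmt_BMC) (hAVC : Stmt_AVC) (hHSF : Stmt_HSF) (_hTUP : Stmt_TUP)
    (hTRK : Stmt_TRK) (hKBM : Stmt_KBM) : Stmt_FIF := by
  classical
  intro C
  obtain ⟨C₁, hC₁, hHS⟩ := hHSF C
  refine ⟨Real.sqrt C₁, Real.sqrt_pos.2 hC₁, ?_⟩
  intro ι _ _ p β θ φ τ g u hSy hu hφ hT i
  obtain ⟨bA, bC, bS, -, -⟩ := hBMC
  have bmul : ∀ F G : (ι → E) → ℝ, BM F → BM G → BM (fun X => F X * G X) := fun F G hF hG =>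
    (bA _ F G hF hG).2.2.1
  have badd : ∀ F G : (ι → E) → ℝ, BM F → BM G → BM (fun X => F X + G X) := fun F G hF hG =>
    (bA _ F G hF hG).1
  have bcm : ∀ (a : ℝ) (F : (ι → E) → ℝ), BM F → BM (fun X => a * F X) := fun a F hF =>
    (bA _ F F hF hF).2.2.2.2.2.1 a
  have hl : 1 ≤ p.l := hSy.hR.trans hSy.hl
  have hl0 : 0 < p.l := by linarith
  obtain ⟨huB, -, -, -, -, -, -⟩ := hAVC ι (Measure.dirac 0) ∅ u hu
  obtain ⟨hBτ, -, -, -, -, -, -, hBd, -⟩ := hKBM.1 C p.R φ τ g hφ hT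
  have hX1 : ∀ (F : E × E → ℝ) (e : Fin 3 → ι), BM F → BM (fun X : ι → E => F (rt (X ∘ e))) :=
    fun F e hF => hKBM.2.2.1 ι F e hF
  have hne : ∀ e : Fin 3 → ι, (im e).Nonempty := fun e => ⟨e 0, by simp [im]⟩
  have hmem : ∀ (e : Fin 3 → ι) s, e s ∈ im e := fun e s => by simp [im]
  have hHe := fun (e : Fin 3 → ι) => hHS ι p β θ u (im e) hSy huB (hne e)
  have hsq : ∀ e : Fin 3 → ι, BM (fun X => Real.sqrt (hh2 p θ u (im e) X)) := by
    intro e
    obtain ⟨K, hK⟩ := (hHe e).2.1.2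
    refine ⟨(hHe e).2.1.1.sqrt, Real.sqrt K, fun X => ?_⟩
    rw [abs_of_nonneg (Real.sqrt_nonneg _)]
    exact Real.sqrt_le_sqrt ((le_abs_self _).trans (hK X))
  have hτ0 : ∀ z, 0 ≤ τ z := hT.nn
  -- the derivative of h
  obtain ⟨Hd, hHd⟩ : ∃ Hd : Finset ι → Fin 3 → (ι → E) → ℝ, Hd = fun S c X =>
      (S.card : ℝ)⁻¹ * ∑ a ∈ p.Gr, pd c (β a) (cen S X) * Am p θ u a S X := ⟨_, rfl⟩
  have hpdh : ∀ (e : Fin 3 → ι) s c X,
      pd c (fun x => hS p β θ u (im e) (Function.update X (e s) x)) (X (e s)) =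
        Hd (im e) c X := by
    intro e s c X
    rw [hHd]
    exact (((hHe e).2.2.2.2 (e s) (hmem e s) X).2 c).1
  have hHb : ∀ (e : Fin 3 → ι) c X, |Hd (im e) c X| ≤
      Real.sqrt C₁ / p.l * Real.sqrt (hh2 p θ u (im e) X) := by
    intro e c X
    have h1 := (((hHe e).2.2.2.2 (e 0) (hmem e 0) X).2 c).2
    rw [hpdh e 0 c X] at h1
    have h2 : Real.sqrt C₁ / p.l * Real.sqrt (hh2 p θ u (im e) X) =
        Real.sqrt (C₁ / p.l ^ 2 * hh2 p θ u (im e) X) := by
      rw [Real.sqrt_mul (by positivity), Real.sqrt_div hC₁.le, Real.sqrt_sq hl0.le]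
    rw [h2]
    exact Real.abs_le_sqrt h1
  have hHdBM : ∀ (e : Fin 3 → ι) c, BM (fun X => Hd (im e) c X) := by
    intro e c
    have hm : Measurable (fun X => pd c (fun x => hS p β θ u (im e) (Function.update X (e 0) x))
        (X (e 0))) := meas_pd _ (hHe e).1.1 (e 0) c fun X =>
      (((hHe e).2.2.2.2 (e 0) (hmem e 0) X).1).of_le (by simp)
    have hf : (fun X => pd c (fun x => hS p β θ u (im e) (Function.update X (e 0) x))
        (X (e 0))) = fun X => Hd (im e) c X := by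
      funext X; exact hpdh e 0 c X
    rw [hf] at hm
    obtain ⟨K, hK⟩ := (bcm (Real.sqrt C₁ / p.l) _ (hsq e)).2
    exact ⟨hm, K, fun X => (hHb e c X).trans ((le_abs_self _).trans (hK X))⟩
  -- the terms
  have hslice : ∀ e ∈ Ij 3 ι, ∀ X, ContDiff ℝ ∞ (fun x => hS p β θ u (im e) (Function.update X (e 0) x) *
      τ (rt (Function.update X (e 0) x ∘ e))) := by
    intro e he X
    exact ((hHe e).2.2.2.2 (e 0) (hmem e 0) X).1.mul (hTRK.1 ι τ e X hT.smooth he).1
  have hpdF : ∀ e ∈ Ij 3 ι, ∀ c X, pd c (fun x => hS p β θ u (im e) (Function.update X (e 0) x) *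
      τ (rt (Function.update X (e 0) x ∘ e))) (X (e 0)) =
      Hd (im e) c X * τ (rt (X ∘ e)) + hS p β θ u (im e) X * dv (dr 0 c) τ (rt (X ∘ e)) := by
    intro e he c X
    have h1 := pd_mul c (fun x => hS p β θ u (im e) (Function.update X (e 0) x))
      (fun x => τ (rt (Function.update X (e 0) x ∘ e))) (X (e 0))
      ((((hHe e).2.2.2.2 (e 0) (hmem e 0) X).1.differentiable (by simp)) _)
      (((hTRK.1 ι τ e X hT.smooth he).1.differentiable (by simp)) _)
    rw [h1, hpdh e 0 c X, (hTRK.1 ι τ e X hT.smooth he).2 c (X (e 0))]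
    simp only [Function.update_eq_self]
  obtain ⟨S, hS'⟩ : ∃ S : Finset (Fin 3 → ι), S = (Ij 3 ι).filter (fun e => e 0 = i) := ⟨_, rfl⟩
  have hSm : ∀ e ∈ S, e ∈ Ij 3 ι ∧ e 0 = i := by
    intro e he
    rw [hS'] at he
    exact Finset.mem_filter.1 he
  have hfF : fF p β θ τ u i = fun X => 1 / 2 * ∑ e ∈ S, hS p β θ u (im e) X * τ (rt (X ∘ e)) := by
    rw [hS']
    funext X
    unfold fF
    rfl
  have hsF : sF p θ τ u i = fun X => ∑ e ∈ S, Real.sqrt (hh2 p θ u (im e) X) * τ (rt (X ∘ e)) := by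
    rw [hS']
    funext X
    unfold sF
    rfl
  have haF : ∀ c, aF p β θ τ u i c = fun X => 1 / 2 * ∑ e ∈ S, hS p β θ u (im e) X *
      dv (dr 0 c) τ (rt (X ∘ e)) := by
    rw [hS']
    intro c
    funext X
    unfold aF
    rfl
  have hslS : ∀ e ∈ S, ∀ X, ContDiff ℝ ∞ (fun x => hS p β θ u (im e) (Function.update X i x) *
      τ (rt (Function.update X i x ∘ e))) := by
    intro e he X
    obtain ⟨h1, h2⟩ := hSm e he
    have h3 := hslice e h1 X
    rw [h2] at h3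
    exact h3
  have hpdS : ∀ c X, pd c (fun x => fF p β θ τ u i (Function.update X i x)) (X i) =
      1 / 2 * ∑ e ∈ S, (Hd (im e) c X * τ (rt (X ∘ e)) +
        hS p β θ u (im e) X * dv (dr 0 c) τ (rt (X ∘ e))) := by
    intro c X
    rw [hfF]
    have hd : ∀ e ∈ S, DifferentiableAt ℝ (fun x => hS p β θ u (im e) (Function.update X i x) *
        τ (rt (Function.update X i x ∘ e))) (X i) := fun e he =>
      ((hslS e he X).differentiable (by simp)) _
    rw [pd_cmul c (1 / 2) (fun x => ∑ e ∈ S, hS p β θ u (im e) (Function.update X i x) *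
      τ (rt (Function.update X i x ∘ e))) (X i) (DifferentiableAt.fun_sum hd),
      pd_sum c S (fun e x => hS p β θ u (im e) (Function.update X i x) *
      τ (rt (Function.update X i x ∘ e))) (X i) hd]
    congr 1
    refine Finset.sum_congr rfl fun e he => ?_
    obtain ⟨h1, h2⟩ := hSm e he
    have h3 := hpdF e h1 c X
    rw [h2] at h3
    exact h3
  refine ⟨?_, ?_, ?_, ?_, ?_, ?_⟩
  · rw [hfF]
    exact bcm _ _ (bS _ _ _ _ fun e _ => bmul _ _ (hHe e).1 (hX1 _ e hBτ))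
  · rw [hsF]
    exact bS _ _ _ _ fun e _ => bmul _ _ (hsq e) (hX1 _ e hBτ)
  · intro X
    rw [hfF, hsF]
    show |1 / 2 * ∑ e ∈ S, hS p β θ u (im e) X * τ (rt (X ∘ e))| ≤ _
    have h1 : |∑ e ∈ S, hS p β θ u (im e) X * τ (rt (X ∘ e))| ≤
        ∑ e ∈ S, Real.sqrt (hh2 p θ u (im e) X) * τ (rt (X ∘ e)) := by
      refine (Finset.abs_sum_le_sum_abs _ _).trans (Finset.sum_le_sum fun e _ => ?_)
      rw [abs_mul, abs_of_nonneg (hτ0 _)]
      exact mul_le_mul_of_nonneg_right (Real.abs_le_sqrt ((hHe e).2.2.1 X).2) (hτ0 _)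
    rw [abs_mul]
    have h2 : |(1 / 2 : ℝ)| = 1 / 2 := by norm_num
    rw [h2]
    have h3 := abs_nonneg (∑ e ∈ S, hS p β θ u (im e) X * τ (rt (X ∘ e)))
    show 1 / 2 * |∑ e ∈ S, hS p β θ u (im e) X * τ (rt (X ∘ e))| ≤
      ∑ e ∈ S, Real.sqrt (hh2 p θ u (im e) X) * τ (rt (X ∘ e))
    linarith
  · intro X
    rw [hfF]
    exact contDiff_const.mul (ContDiff.sum fun e he => (hslS e he X).of_le (by simp))
  · intro c
    have h1 : (fun X => pd c (fun x => fF p β θ τ u i (Function.update X i x)) (X i)) = fun X =>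
        1 / 2 * ∑ e ∈ S, (Hd (im e) c X * τ (rt (X ∘ e)) +
          hS p β θ u (im e) X * dv (dr 0 c) τ (rt (X ∘ e))) := by
      funext X; exact hpdS c X
    rw [h1]
    exact bcm _ _ (bS _ _ _ _ fun e _ => badd _ _ (bmul _ _ (hHdBM e c) (hX1 _ e hBτ))
      (bmul _ _ (hHe e).1 (hX1 _ e (hBd 0 c))))
  · intro c X
    rw [hpdS c X, haF c, hsF]
    have h1 : 1 / 2 * ∑ e ∈ S, (Hd (im e) c X * τ (rt (X ∘ e)) +
        hS p β θ u (im e) X * dv (dr 0 c) τ (rt (X ∘ e))) -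
        1 / 2 * ∑ e ∈ S, hS p β θ u (im e) X * dv (dr 0 c) τ (rt (X ∘ e)) =
        1 / 2 * ∑ e ∈ S, Hd (im e) c X * τ (rt (X ∘ e)) := by
      rw [Finset.sum_add_distrib]
      ring
    show |1 / 2 * ∑ e ∈ S, (Hd (im e) c X * τ (rt (X ∘ e)) +
        hS p β θ u (im e) X * dv (dr 0 c) τ (rt (X ∘ e))) -
        1 / 2 * ∑ e ∈ S, hS p β θ u (im e) X * dv (dr 0 c) τ (rt (X ∘ e))| ≤
      Real.sqrt C₁ / p.l * ∑ e ∈ S, Real.sqrt (hh2 p θ u (im e) X) * τ (rt (X ∘ e))
    rw [h1, abs_mul]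
    have h2 : |(1 / 2 : ℝ)| = 1 / 2 := by norm_num
    rw [h2]
    have h3 : |∑ e ∈ S, Hd (im e) c X * τ (rt (X ∘ e))| ≤
        Real.sqrt C₁ / p.l * ∑ e ∈ S, Real.sqrt (hh2 p θ u (im e) X) * τ (rt (X ∘ e)) := by
      rw [Finset.mul_sum]
      refine (Finset.abs_sum_le_sum_abs _ _).trans (Finset.sum_le_sum fun e _ => ?_)
      rw [abs_mul, abs_of_nonneg (hτ0 _), ← mul_assoc]
      exact mul_le_mul_of_nonneg_right (hHb e c X) (hτ0 _)
    have h4 := abs_nonneg (∑ e ∈ S, Hd (im e) c X * τ (rt (X ∘ e)))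
    linarith

end Pool.Agent.TBS
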