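import Pool.Agent.TBS.StmtsC
import Pool.Agent.TBL.FRZ

/-! # FRW: the energy of the dense cells -/

set_option autoImplicit false

open MeasureTheory Filter Topology
open scoped ContDiff

namespace Pool.Agent.TBS

open Pool.Agent.TBG Pool.Agent.TBL Pool.Agent.TBF

namespace FRW_

variable {ι : Type} [Fintype ι] [DecidableEq ι]

/-- the region of the configurations with the particle `i` in the cell `α i` -/
def Rg (l : ℝ) (Mc : ℕ) (α : ι → (Fin 3 → Fin Mc)) : Set (ι → E) := {X : ι → E | ∀ i, X i ∈ cub l (crn l Mc (α i))}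

/-- the particles of the cell `k` -/
def Sk {Mc : ℕ} (α : ι → (Fin 3 → Fin Mc)) (k : Fin 3 → Fin Mc) : Finset ι := Finset.univ.filter (fun i => α i = k)

omit [DecidableEq ι] in
theorem rg_meas (l : ℝ) (Mc : ℕ) (α : ι → (Fin 3 → Fin Mc)) : MeasurableSet (Rg l Mc α) := by
  have h : Rg l Mc α = ⋂ i, (fun X : ι → E => X i) ⁻¹' (cub l (crn l Mc (α i))) := by
    ext X
    simp [Rg]
  rw [h]
  exact MeasurableSet.iInter fun i => (FRZ_.cub_meas _ _).preimage (measurable_pi_apply i)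

omit [Fintype ι] [DecidableEq ι] in
theorem ic_eq {p : Par} {Mc : ℕ} (hu : ∀ (k k' : Fin 3 → Fin Mc) (x : E), x ∈ cub p.l (crn p.l Mc k) →
    x ∈ cub p.l (crn p.l Mc k') → k = k') {α : ι → (Fin 3 → Fin Mc)} {X : ι → E} (hX : X ∈ Rg p.l Mc α)
    (k : Fin 3 → Fin Mc) (i : ι) : ic (cub p.l (crn p.l Mc k)) (X i) = if α i = k then 1 else 0 := by
  unfold ic
  have hXi : X i ∈ cub p.l (crn p.l Mc (α i)) := hX i
  by_cases h : α i = k
  · rw [if_pos h, Set.indicator_of_mem (by rw [← h]; exact hXi)]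
  · rw [if_neg h, Set.indicator_of_notMem]
    intro h'
    exact h (hu _ _ _ hXi h')

theorem nk_eq {p : Par} {Mc : ℕ} (hu : ∀ (k k' : Fin 3 → Fin Mc) (x : E), x ∈ cub p.l (crn p.l Mc k) →
    x ∈ cub p.l (crn p.l Mc k') → k = k') {α : ι → (Fin 3 → Fin Mc)} {X : ι → E} (hX : X ∈ Rg p.l Mc α)
    (k : Fin 3 → Fin Mc) : nk p.l Mc ∅ k X = ((Sk α k).card : ℝ) := by
  unfold nk Sk
  rw [Finset.sdiff_empty, Finset.sum_congr rfl (fun i _ => ic_eq hu hX k i), Finset.sum_boole]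

theorem zi_eq {p : Par} {Mc : ℕ} (M₁ : ℝ) (hu : ∀ (k k' : Fin 3 → Fin Mc) (x : E),
    x ∈ cub p.l (crn p.l Mc k) → x ∈ cub p.l (crn p.l Mc k') → k = k') {α : ι → (Fin 3 → Fin Mc)} {X : ι → E}
    (hX : X ∈ Rg p.l Mc α) (i : ι) : zi p.l Mc M₁ i X = zt M₁ ((Sk α (α i)).card : ℝ) := by
  unfold zi
  rw [Finset.sum_eq_single (α i)]
  · rw [ic_eq hu hX, if_pos rfl, mul_one, nk_eq hu hX]
  · intro k _ hk
    rw [ic_eq hu hX, if_neg (Ne.symm hk), mul_zero]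
  · intro h
    exact absurd (Finset.mem_univ _) h

theorem ze_eq {p : Par} {Mc : ℕ} (M₁ : ℝ) (hu : ∀ (k k' : Fin 3 → Fin Mc) (x : E),
    x ∈ cub p.l (crn p.l Mc k) → x ∈ cub p.l (crn p.l Mc k') → k = k') {α : ι → (Fin 3 → Fin Mc)} {X : ι → E}
    (hX : X ∈ Rg p.l Mc α) (e : Fin 3 → ι) : ze p.l Mc M₁ e X =
      ∑ k, zt M₁ ((Sk α k).card : ℝ) * (if ∀ s, e s ∈ Sk α k then 1 else 0) := by
  unfold ze
  refine Finset.sum_congr rfl fun k _ => ?_
  rw [nk_eq hu hX]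
  congr 1
  rw [Finset.prod_congr rfl (fun s _ => ic_eq hu hX k (e s))]
  by_cases h : ∀ s, e s ∈ Sk α k
  · rw [if_pos h]
    apply Finset.prod_eq_one
    intro s _
    rw [if_pos]
    exact (Finset.mem_filter.1 (h s)).2
  · rw [if_neg h]
    push Not at h
    obtain ⟨s, hs⟩ := h
    apply Finset.prod_eq_zero (Finset.mem_univ s)
    rw [if_neg]
    intro h'
    exact hs (Finset.mem_filter.2 ⟨Finset.mem_univ _, h'⟩)

/-- the interaction energy of a subset -/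
theorem pot_sub (hTUP : Stmt_TUP) (V : E → E → ℝ) (S : Finset ι) (X : ι → E) :
    potS V (fun i : {i // i ∈ S} => X i) =
      1 / 6 * ∑ e ∈ Ij 3 ι, (if ∀ s, e s ∈ S then 1 else 0) * V (rt (X ∘ e)).1 (rt (X ∘ e)).2 := by
  classical
  rw [(hTUP {i // i ∈ S}).1 V]
  congr 1
  symm
  have h1 : ∑ e ∈ Ij 3 ι, (if ∀ s, e s ∈ S then (1 : ℝ) else 0) * V (rt (X ∘ e)).1 (rt (X ∘ e)).2 =
      ∑ e ∈ (Ij 3 ι).filter (fun e => ∀ s, e s ∈ S), V (rt (X ∘ e)).1 (rt (X ∘ e)).2 := by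
    rw [Finset.sum_filter]
    refine Finset.sum_congr rfl fun e _ => ?_
    by_cases h : ∀ s, e s ∈ S
    · rw [if_pos h, if_pos h, one_mul]
    · rw [if_neg h, if_neg h, zero_mul]
  rw [h1]
  symm
  refine Finset.sum_bij (fun (e : Fin 3 → {i // i ∈ S}) _ => fun s => (e s : ι)) ?_ ?_ ?_ ?_
  · intro e he
    rw [Finset.mem_filter]
    refine ⟨?_, fun s => (e s).2⟩
    have he' : Function.Injective e := (Finset.mem_filter.1 he).2
    refine Finset.mem_filter.2 ⟨Finset.mem_univ _, ?_⟩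
    exact Subtype.val_injective.comp he'
  · intro e _ e' _ h
    funext s
    exact Subtype.ext (congrFun h s)
  · intro e he
    rw [Finset.mem_filter] at he
    refine ⟨fun s => ⟨e s, he.2 s⟩, ?_, rfl⟩
    have he' : Function.Injective e := (Finset.mem_filter.1 he.1).2
    refine Finset.mem_filter.2 ⟨Finset.mem_univ _, ?_⟩
    intro s t hst
    exact he' (congrArg Subtype.val hst)
  · intro e _
    rfl

end FRW_

open FRW_ in
theorem frw_proof (hBMC : Pool.Agent.TBL.Stmt_BMC) (hFRZ : Pool.Agent.TBL.Stmt_FRZ) (hTUP : Stmt_TUP)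
    (hGRD : Stmt_GRD) (hZET : Stmt_ZET) (hCLD : Stmt_CLD) (hAVC : Stmt_AVC) : Stmt_FRW := by
  intro V ι _ _ p Mc κ M₁ u hV hG hM₁ hκ hLB hu
  obtain ⟨-, huq, -⟩ := hGRD p Mc hG
  obtain ⟨hz, hzι⟩ := hZET
  obtain ⟨hz01, hzm, hz0, -, -⟩ := hz M₁ hM₁
  obtain ⟨hnk, hzi, hze, -, -⟩ := hzι ι p Mc M₁ hG hM₁
  -- bounded measurable functions
  have hubm : BM u := (hAVC ι (Measure.dirac 0) ∅ u hu).1
  have hdbm : ∀ j c, BM (di j c u) := (hAVC ι (Measure.dirac 0) ∅ u hu).2.1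
  have hmul : ∀ F G : (ι → E) → ℝ, BM F → BM G → BM (fun X => F X * G X) := fun F G hF hG' => (hBMC.1 _ F G hF hG').2.2.1
  have hadd : ∀ F G : (ι → E) → ℝ, BM F → BM G → BM (fun X => F X + G X) := fun F G hF hG' => (hBMC.1 _ F G hF hG').1
  have hsq : ∀ F : (ι → E) → ℝ, BM F → BM (fun X => F X ^ 2) := fun F hF => (hBMC.1 _ F F hF hF).2.2.2.1
  have hcm : ∀ (F : (ι → E) → ℝ) (a : ℝ), BM F → BM (fun X => a * F X) := fun F a hF => (hBMC.1 _ F F hF hF).2.2.2.2.2.1 a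
  have hsum : ∀ {J : Type} (s : Finset J) (F : J → (ι → E) → ℝ), (∀ q ∈ s, BM (F q)) → BM (fun X => ∑ q ∈ s, F q X) :=
    fun {J} s F hF => hBMC.2.2.1 (ι → E) J s F hF
  have hVB : BM (fun z : E × E => V z.1 z.2) := by
    refine ⟨hV.meas, ?_⟩
    obtain ⟨C, hC⟩ := hV.bdd
    refine ⟨C, fun z => ?_⟩
    rw [abs_of_nonneg (hV.nonneg _ _)]
    exact hC _ _
  have hVe : ∀ e : Fin 3 → ι, BM (fun X : ι → E => V (rt (X ∘ e)).1 (rt (X ∘ e)).2) := by
    intro e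
    have hm : Measurable (fun X : ι → E => rt (X ∘ e)) := by
      unfold rt
      simp only [Function.comp]
      fun_prop
    exact hBMC.2.2.2.1 (E × E) (ι → E) (fun z => V z.1 z.2) (fun X => rt (X ∘ e)) hVB hm
  have hztm : ∀ k, BM (fun X : ι → E => zt M₁ (nk p.l Mc ∅ k X)) := by
    intro k
    refine ⟨(hzm.measurable).comp (hnk ∅ k).1.1, 1, fun X => ?_⟩
    rw [abs_of_nonneg (hz01 _).1]
    exact (hz01 _).2
  have hF₁ : BM (fun X : ι → E => u X ^ 2 * ∑ k : Fin 3 → Fin Mc, zt M₁ (nk p.l Mc ∅ k X) * nk p.l Mc ∅ k X) :=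
    hmul _ _ (hsq u hubm) (hsum _ _ fun k _ => hmul _ _ (hztm k) (hnk ∅ k).1)
  have hF₂ : BM (fun X : ι → E => ∑ i, zi p.l Mc M₁ i X * ∑ c, di i c u X ^ 2 +
      1 / 6 * ∑ e ∈ Ij 3 ι, ze p.l Mc M₁ e X * (V (rt (X ∘ e)).1 (rt (X ∘ e)).2 * u X ^ 2)) := by
    refine hadd _ _ (hsum _ _ fun i _ => hmul _ _ (hzi i).1 (hsum _ _ fun c _ => hsq _ (hdbm i c))) ?_
    exact hcm _ _ (hsum _ _ fun e _ => hmul _ _ (hze e).1 (hmul _ _ (hVe e) (hsq u hubm)))
  unfold HE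
  rw [hCLD ι p Mc _ hG hF₁, hCLD ι p Mc _ hG hF₂, Finset.mul_sum]
  refine Finset.sum_le_sum fun α _ => ?_
  change κ * ∫ X in Rg p.l Mc α, _ ≤ ∫ X in Rg p.l Mc α, _
  -- the weights
  set z : (Fin 3 → Fin Mc) → ℝ := fun k => zt M₁ ((Sk α k).card : ℝ) with hzdef
  -- the energy of the cell `k`
  set Gk : (Fin 3 → Fin Mc) → (ι → E) → ℝ := fun k X => ∑ i ∈ Sk α k, ∑ c, (di i c u X) ^ 2 +
    potS V (fun i : {i // i ∈ Sk α k} => X i) * u X ^ 2 with hGk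
  have hGi : ∀ k, Integrable (Gk k) (volume.restrict (Rg p.l Mc α)) := fun k =>
    (FRZ_.int2 hV (Sk α k) hu.1 hu.2).integrableOn
  have h1 : ∫ X in Rg p.l Mc α, u X ^ 2 * ∑ k : Fin 3 → Fin Mc, zt M₁ (nk p.l Mc ∅ k X) * nk p.l Mc ∅ k X =
      ∑ k, z k * ((Sk α k).card : ℝ) * ∫ X in Rg p.l Mc α, u X ^ 2 := by
    rw [← Finset.sum_mul, ← integral_const_mul]
    refine setIntegral_congr_fun (rg_meas _ _ _) fun X hX => ?_
    rw [mul_comm]
    congr 1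
    refine Finset.sum_congr rfl fun k _ => ?_
    rw [nk_eq huq hX]
  have h2 : ∫ X in Rg p.l Mc α, (∑ i, zi p.l Mc M₁ i X * ∑ c, di i c u X ^ 2 +
      1 / 6 * ∑ e ∈ Ij 3 ι, ze p.l Mc M₁ e X * (V (rt (X ∘ e)).1 (rt (X ∘ e)).2 * u X ^ 2)) =
      ∑ k, z k * ∫ X in Rg p.l Mc α, Gk k X := by
    have h3 : ∫ X in Rg p.l Mc α, (∑ i, zi p.l Mc M₁ i X * ∑ c, di i c u X ^ 2 +
      1 / 6 * ∑ e ∈ Ij 3 ι, ze p.l Mc M₁ e X * (V (rt (X ∘ e)).1 (rt (X ∘ e)).2 * u X ^ 2)) =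
      ∫ X in Rg p.l Mc α, ∑ k, z k * Gk k X := by
      refine setIntegral_congr_fun (rg_meas _ _ _) fun X hX => ?_
      simp only [hGk, mul_add, Finset.sum_add_distrib]
      congr 1
      · rw [← Finset.sum_fiberwise Finset.univ α (fun i => zi p.l Mc M₁ i X * ∑ c, di i c u X ^ 2)]
        refine Finset.sum_congr rfl fun k _ => ?_
        rw [Finset.mul_sum]
        refine Finset.sum_congr rfl fun i hi => ?_
        have hik : α i = k := (Finset.mem_filter.1 hi).2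
        rw [zi_eq M₁ huq hX, hik]
      · have h4 : ∀ k, z k * (potS V (fun i : {i // i ∈ Sk α k} => X i) * u X ^ 2) =
            ∑ e ∈ Ij 3 ι, 1 / 6 * (z k * (if ∀ s, e s ∈ Sk α k then 1 else 0) *
              (V (rt (X ∘ e)).1 (rt (X ∘ e)).2 * u X ^ 2)) := by
          intro k
          rw [pot_sub hTUP V (Sk α k) X, Finset.mul_sum, Finset.sum_mul, Finset.mul_sum]
          refine Finset.sum_congr rfl fun e _ => ?_
          ring
        rw [Finset.sum_congr rfl (fun k _ => h4 k), Finset.sum_comm, Finset.mul_sum]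
        refine Finset.sum_congr rfl fun e _ => ?_
        rw [ze_eq M₁ huq hX, Finset.sum_mul, Finset.mul_sum]
    rw [h3, integral_finsetSum _ (fun k _ => (hGi k).const_mul _)]
    refine Finset.sum_congr rfl fun k _ => ?_
    rw [integral_const_mul]
  rw [h1, h2, Finset.mul_sum]
  refine Finset.sum_le_sum fun k _ => ?_
  by_cases hk : ((Sk α k).card : ℝ) ≤ M₁
  · have hzk : z k = 0 := hz0 _ hk
    rw [hzk]
    simp
  · push Not at hk
    have h5 := hFRZ V ι (Sk α k) p.l (κ * ((Fintype.card {i // i ∈ Sk α k} : ℕ) : ℝ)) (fun i => crn p.l Mc (α i))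
      (crn p.l Mc k) u hV hG.l0 (fun i hi => by rw [(Finset.mem_filter.1 hi).2])
      (hLB {i // i ∈ Sk α k} (by rw [Fintype.card_coe]; exact hk)) hu.1 hu.2
    rw [Fintype.card_coe] at h5
    have h6 := mul_le_mul_of_nonneg_left h5 (hz01 ((Sk α k).card : ℝ)).1
    calc κ * (z k * ((Sk α k).card : ℝ) * ∫ X in Rg p.l Mc α, u X ^ 2)
        = z k * (κ * ((Sk α k).card : ℝ) * ∫ X in Rg p.l Mc α, u X ^ 2) := by ring
      _ ≤ z k * ∫ X in Rg p.l Mc α, Gk k X := h6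

end Pool.Agent.TBS
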