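import Pool.Agent.TBS.StmtsA

/-!
# Squad TBS: module GGB (the kinetic energy of the amplitudes)
-/

set_option autoImplicit false

open MeasureTheory Filter Topology
open scoped ContDiff

namespace Pool.Agent.TBS

open Pool.Agent.TBG Pool.Agent.TBL Pool.Agent.TBF

namespace GGB_

lemma bm_mul {α : Type} [MeasurableSpace α] {F G : α → ℝ} (hF : BM F) (hG : BM G) :
    BM (fun X => F X * G X) := by
  obtain ⟨h1, C1, b1⟩ := hF
  obtain ⟨h2, C2, b2⟩ := hG
  refine ⟨h1.mul h2, C1 * C2, fun X => ?_⟩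
  rw [abs_mul]
  exact mul_le_mul (b1 X) (b2 X) (abs_nonneg _) ((abs_nonneg _).trans (b1 X))

lemma bm_prod {α J : Type} [MeasurableSpace α] (s : Finset J) (F : J → α → ℝ)
    (h : ∀ i ∈ s, BM (F i)) : BM (fun X => ∏ i ∈ s, F i X) := by
  classical
  induction s using Finset.induction_on with
  | empty => exact ⟨measurable_const, 1, fun X => by simp⟩
  | insert i s hi ih =>
    have e : (fun X => ∏ k ∈ insert i s, F k X) = fun X => F i X * ∏ k ∈ s, F k X := by
      funext X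
      rw [Finset.prod_insert hi]
    rw [e]
    exact bm_mul (h i (Finset.mem_insert_self i s))
      (ih fun k hk => h k (Finset.mem_insert_of_mem hk))

lemma bm_ic {Q : Set E} (hQ : MeasurableSet Q) : BM (ic Q) := by
  refine ⟨?_, 1, fun x => ?_⟩
  · exact measurable_const.indicator hQ
  · unfold ic
    by_cases h : x ∈ Q
    · rw [Set.indicator_of_mem h]
      simp
    · rw [Set.indicator_of_notMem h]
      simp

lemma ic_nonneg (Q : Set E) (x : E) : 0 ≤ ic Q x := by
  unfold ic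
  exact Set.indicator_nonneg (fun _ _ => zero_le_one) x

end GGB_

open GGB_ in
theorem ggb_proof (hBMC : Pool.Agent.TBL.Stmt_BMC) (hMSY : Stmt_MSY) (hAVP : Stmt_AVP)
    (hAVI : Stmt_AVI) (hDNS : Stmt_DNS) (hAVC : Stmt_AVC) (hVTP : Stmt_VTP) (hCTS : Stmt_CTS) :
    Stmt_GGB := by
  intro C m
  obtain ⟨C₁, hC₁, hcts⟩ := hCTS C m
  refine ⟨C₁ * (|C| + 1), by positivity, ?_⟩
  intro ι _ _ p β θ u hS hu
  obtain ⟨hB1, hB2, hB3, hB4, hB5⟩ := hBMC
  obtain ⟨hl1, hfin, -, -, hQb, hQbc, hprob, -, -, -, -, hic⟩ := hMSY C p β θ hS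
  have hl0 : 0 < p.l := lt_of_lt_of_le one_pos hl1
  have hsq : ∀ {α : Type} [MeasurableSpace α] {F : α → ℝ}, BM F → BM (fun X => F X ^ 2) :=
    fun {α} _ {F} hF => (hB1 _ F F hF hF).2.2.2.1
  have hcm : ∀ {α : Type} [MeasurableSpace α] {F : α → ℝ} (a : ℝ), BM F → BM (fun X => a * F X) :=
    fun {α} _ {F} a hF => (hB1 _ F F hF hF).2.2.2.2.2.1 a
  have hsum : ∀ {α J : Type} [MeasurableSpace α] (s : Finset J) (F : J → α → ℝ),
      (∀ i ∈ s, BM (F i)) → BM (fun X => ∑ i ∈ s, F i X) := fun {α J} _ s F h => hB3 α J s F h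
  have hcoord : ∀ (f : E → ℝ) (j : ι), BM f → BM (fun X : ι → E => f (X j)) :=
    fun f j hf => hB4 _ _ f (fun X : ι → E => X j) hf (measurable_pi_apply j)
  -- measures
  have hprob' : ∀ a, IsProbabilityMeasure (tm (θ a)) := hprob
  have hfA : ∀ a (S : Finset ι), IsFiniteMeasure (PiS (tm (θ a)) (mO p.L) S) := by
    intro a S
    unfold PiS
    have : ∀ i, IsFiniteMeasure (if i ∈ S then tm (θ a) else mO p.L) := by
      intro i
      split_ifs <;> infer_instance
    infer_instance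
  have hfO : IsFiniteMeasure (PiS (mO p.L) (mO p.L) (∅ : Finset ι)) := by
    unfold PiS
    have : ∀ i, IsFiniteMeasure (if i ∈ (∅ : Finset ι) then mO p.L else mO p.L) := by
      intro i
      split_ifs <;> infer_instance
    infer_instance
  have hintA : ∀ a (S : Finset ι) (F : (ι → E) → ℝ), BM F →
      Integrable F (PiS (tm (θ a)) (mO p.L) S) :=
    fun a S F hF => (hB1 _ F F hF hF).2.2.2.2.2.2 _
  have hintO : ∀ (F : (ι → E) → ℝ), BM F →
      Integrable F (PiS (mO p.L) (mO p.L) (∅ : Finset ι)) :=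
    fun F hF => (hB1 _ F F hF hF).2.2.2.2.2.2 _
  have IOsum : ∀ {J : Type} (s : Finset J) (F : J → (ι → E) → ℝ), (∀ i ∈ s, BM (F i)) →
      ∑ i ∈ s, IO p (F i) = IO p (fun X => ∑ i ∈ s, F i X) := by
    intro J s F h
    unfold IO
    rw [integral_finsetSum _ fun i hi => hintO _ (h i hi)]
  have IOmono : ∀ (F G : (ι → E) → ℝ), BM F → BM G → (∀ X, F X ≤ G X) → IO p F ≤ IO p G :=
    fun F G hF hG h => integral_mono (hintO _ hF) (hintO _ hG) h
  have hθbm : ∀ a, BM (θ a) := by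
    intro a
    refine ⟨hS.θm a, C / p.l ^ 3, fun x => ?_⟩
    rw [abs_of_nonneg (hS.θ0 a x)]
    exact hS.θb a x
  set r : ℝ := 6 * p.l with hr
  have hr10 : r ≤ 10 * p.l := by rw [hr]; linarith
  have hr12 : r ≤ 12 * p.l := by rw [hr]; linarith
  have hicbm : ∀ a (j : ι), BM (fun X : ι → E => ic (Qb a r) (X j)) :=
    fun a j => hcoord _ j (bm_ic (hQb a r).1)
  have hdbm : ∀ (j : ι) c, BM (di j c u) := by
    intro j c
    have : IsProbabilityMeasure (tm (θ 0)) := hprob 0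
    exact (hAVC ι (tm (θ 0)) ∅ u hu).2.1 j c
  have hubm : BM u := by
    have : IsProbabilityMeasure (tm (θ 0)) := hprob 0
    exact (hAVC ι (tm (θ 0)) ∅ u hu).1
  set D : ι → (ι → E) → ℝ := fun j X => ∑ c, di j c u X ^ 2 with hD
  have hDbm : ∀ j, BM (D j) := fun j => hsum _ _ fun c _ => hsq (hdbm j c)
  have hD0 : ∀ j X, 0 ≤ D j X := fun j X => Finset.sum_nonneg fun c _ => sq_nonneg _
  have hvtbm : ∀ a (S : Finset ι), BM (vt p a S) := fun a S => (hVTP ι C p β θ hS a S).1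
  have hvt0 : ∀ a (S : Finset ι) X, 0 ≤ vt p a S X := by
    intro a S X
    rcases ((hVTP ι C p β θ hS a S).2.2.1 X).1 with h | h <;> rw [h]
    exact zero_le_one
  have hvt1 : ∀ a (S : Finset ι) X, vt p a S X ≤ 1 := by
    intro a S X
    rcases ((hVTP ι C p β θ hS a S).2.2.1 X).1 with h | h <;> rw [h]
    exact zero_le_one
  -- step 1
  have hprodbm : ∀ a (S : Finset ι), BM (fun X : ι → E => ∏ i ∈ S, θ a (X i)) :=
    fun a S => bm_prod S (fun i (X : ι → E) => θ a (X i)) fun i _ => hcoord _ i (hθbm a)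
  have step1 : ∀ a ∈ p.Gr, ∀ e ∈ Ij m ι,
      IA p θ a (im e) (fun X => vt p a (im e) X *
        ∑ j ∈ Finset.univ \ im e, ic (Qb a r) (X j) *
          ∑ c, di j c (Av (tm (θ a)) (im e) u) X ^ 2) ≤
      IO p (fun X => ∑ j ∈ Finset.univ \ im e, ((∏ i ∈ im e, θ a (X i)) * vt p a (im e) X) *
        (ic (Qb a r) (X j) * D j X)) := by
    intro a ha e _
    set S : Finset ι := im e with hSdef
    have hAVC' := hAVC ι (tm (θ a)) S u hu
    -- pass to the averages of squares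
    set G : ι → (ι → E) → ℝ := fun j X => vt p a S X * ic (Qb a r) (X j) with hG
    have hGbm : ∀ j, BM (G j) := fun j => bm_mul (hvtbm a S) (hicbm a j)
    have hGind : ∀ j ∉ S, IndS S (G j) := by
      intro j hj X Y hXY
      simp only [hG]
      rw [(hVTP ι C p β θ hS a S).2.1 X Y hXY, hXY j hj]
    have a1 : IA p θ a S (fun X => vt p a S X * ∑ j ∈ Finset.univ \ S, ic (Qb a r) (X j) *
          ∑ c, di j c (Av (tm (θ a)) S u) X ^ 2) ≤
        IA p θ a S (fun X => ∑ j ∈ Finset.univ \ S, ∑ c,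
          Av (tm (θ a)) S (fun Y => di j c u Y ^ 2) X * G j X) := by
      refine integral_mono (hintA _ _ _ ?_) (hintA _ _ _ ?_) fun X => ?_
      · refine bm_mul (hvtbm a S) (hsum _ _ fun j hj => bm_mul (hicbm a j)
          (hsum _ _ fun c _ => hsq ?_))
        exact hAVC'.2.2.2.2.1 j c
      · refine hsum _ _ fun j hj => hsum _ _ fun c _ => bm_mul ?_ (hGbm j)
        exact (hAVP ι (tm (θ a)) S S _ _ (hsq (hdbm j c)) (hsq (hdbm j c))).1
      · simp only
        rw [Finset.mul_sum]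
        refine Finset.sum_le_sum fun j hj => ?_
        have hjS : j ∉ S := (Finset.mem_sdiff.1 hj).2
        rw [← mul_assoc, Finset.mul_sum]
        refine Finset.sum_le_sum fun c _ => ?_
        rw [mul_comm]
        refine mul_le_mul_of_nonneg_right ?_ (mul_nonneg (hvt0 _ _ _) (ic_nonneg _ _))
        rw [hAVC'.2.2.2.1 j hjS c]
        exact (hAVP ι (tm (θ a)) S S _ _ (hdbm j c) (hdbm j c)).2.2.2.2.2.2.2.2.2.2.1 X
    have a2 : IA p θ a S (fun X => ∑ j ∈ Finset.univ \ S, ∑ c,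
          Av (tm (θ a)) S (fun Y => di j c u Y ^ 2) X * G j X) =
        IA p θ a S (fun X => ∑ j ∈ Finset.univ \ S, ∑ c, di j c u X ^ 2 * G j X) := by
      unfold IA
      rw [integral_finsetSum _ fun j _ => hintA _ _ _ (hsum _ _ fun c _ => bm_mul
          (hAVP ι (tm (θ a)) S S _ _ (hsq (hdbm j c)) (hsq (hdbm j c))).1 (hGbm j)),
        integral_finsetSum _ fun j _ => hintA _ _ _ (hsum _ _ fun c _ =>
          bm_mul (hsq (hdbm j c)) (hGbm j))]
      refine Finset.sum_congr rfl fun j hj => ?_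
      have hjS : j ∉ S := (Finset.mem_sdiff.1 hj).2
      rw [integral_finsetSum _ fun c _ => hintA _ _ _ (bm_mul
          (hAVP ι (tm (θ a)) S S _ _ (hsq (hdbm j c)) (hsq (hdbm j c))).1 (hGbm j)),
        integral_finsetSum _ fun c _ => hintA _ _ _ (bm_mul (hsq (hdbm j c)) (hGbm j))]
      refine Finset.sum_congr rfl fun c _ => ?_
      exact ((hAVI ι (tm (θ a)) (mO p.L) S S (fun Y => di j c u Y ^ 2) (G j) (hsq (hdbm j c))
        (hGbm j) subset_rfl).1 (hGind j hjS)).symm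
    have a3 := (hDNS ι C p β θ hS a ha S (fun X => ∑ j ∈ Finset.univ \ S, ∑ c,
      di j c u X ^ 2 * G j X) (hsum _ _ fun j _ => hsum _ _ fun c _ =>
        bm_mul (hsq (hdbm j c)) (hGbm j))).2
    refine a1.trans (le_of_eq (a2.trans (a3.trans ?_)))
    congr 1
    funext X
    rw [Finset.mul_sum]
    refine Finset.sum_congr rfl fun j _ => ?_
    rw [← Finset.sum_mul]
    simp only [hG, hD]
    ring
  -- step 2
  set K : ℝ := C₁ * (p.M / p.l ^ 3) ^ m with hK
  have hM0 : 0 ≤ p.M := le_trans (by norm_num) hS.hM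
  have hK0 : 0 ≤ K := by positivity
  have step2 : ∀ a ∈ p.Gr, ∑ e ∈ Ij m ι, IA p θ a (im e) (fun X => vt p a (im e) X *
        ∑ j ∈ Finset.univ \ im e, ic (Qb a r) (X j) *
          ∑ c, di j c (Av (tm (θ a)) (im e) u) X ^ 2) ≤
      IO p (fun X => ∑ j, K * (ic (Qb a r) (X j) * D j X)) := by
    intro a ha
    refine (Finset.sum_le_sum fun e he => step1 a ha e he).trans ?_
    rw [IOsum _ _ fun e _ => hsum _ _ fun j _ => bm_mul (bm_mul (hprodbm a _) (hvtbm a _))
      (bm_mul (hicbm a j) (hDbm j))]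
    refine IOmono _ _ (hsum _ _ fun e _ => hsum _ _ fun j _ => bm_mul (bm_mul (hprodbm a _)
      (hvtbm a _)) (bm_mul (hicbm a j) (hDbm j))) (hsum _ _ fun j _ => hcm _ (bm_mul (hicbm a j)
        (hDbm j))) fun X => ?_
    have e1 : ∑ e ∈ Ij m ι, ∑ j ∈ Finset.univ \ im e,
        ((∏ i ∈ im e, θ a (X i)) * vt p a (im e) X) * (ic (Qb a r) (X j) * D j X) =
        ∑ j, (∑ e ∈ (Ij m ι).filter (fun e => j ∉ im e), (∏ i ∈ im e, θ a (X i)) *
          vt p a (im e) X) * (ic (Qb a r) (X j) * D j X) := by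
      have e2 : ∀ e : Fin m → ι, ∑ j ∈ Finset.univ \ im e,
          ((∏ i ∈ im e, θ a (X i)) * vt p a (im e) X) * (ic (Qb a r) (X j) * D j X) =
          ∑ j, if j ∉ im e then
            ((∏ i ∈ im e, θ a (X i)) * vt p a (im e) X) * (ic (Qb a r) (X j) * D j X) else 0 := by
        intro e
        rw [← Finset.sum_filter]
        refine Finset.sum_congr ?_ fun _ _ => rfl
        ext j
        simp
      simp only [e2]
      rw [Finset.sum_comm]
      refine Finset.sum_congr rfl fun j _ => ?_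
      rw [← Finset.sum_filter, Finset.sum_mul]
    rw [e1]
    refine Finset.sum_le_sum fun j _ => ?_
    by_cases hj : X j ∈ Qb a r
    · refine mul_le_mul_of_nonneg_right ?_ (mul_nonneg (ic_nonneg _ _) (hD0 _ _))
      refine ((hcts ι p β θ hS a X).2.2 j (hQbc a r hr10 hj)).trans ?_
      calc C₁ * (p.M / p.l ^ 3) ^ m * vt p a {j} X ≤ C₁ * (p.M / p.l ^ 3) ^ m * 1 :=
            mul_le_mul_of_nonneg_left (hvt1 _ _ _) hK0
        _ = K := by rw [mul_one]
    · have : ic (Qb a r) (X j) = 0 := Set.indicator_of_notMem hj _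
      rw [this]
      simp
  -- step 3
  unfold GG
  have h3 : ∑ a ∈ p.Gr, ∑ e ∈ Ij m ι, IA p θ a (im e) (fun X => vt p a (im e) X *
        ∑ j ∈ Finset.univ \ im e, ic (Qb a r) (X j) *
          ∑ c, di j c (Av (tm (θ a)) (im e) u) X ^ 2) ≤ K * (|C| + 1) * KK p u := by
    refine (Finset.sum_le_sum fun a ha => step2 a ha).trans ?_
    rw [IOsum _ _ fun a _ => hsum _ _ fun j _ => hcm _ (bm_mul (hicbm a j) (hDbm j))]
    have e1 : K * (|C| + 1) * KK p u = IO p (fun X => K * (|C| + 1) * ∑ j, D j X) := by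
      unfold KK IO
      rw [← integral_const_mul]
    rw [e1]
    refine IOmono _ _ (hsum _ _ fun a _ => hsum _ _ fun j _ => hcm _ (bm_mul (hicbm a j)
      (hDbm j))) (hcm _ (hsum _ _ fun j _ => hDbm j)) fun X => ?_
    rw [Finset.sum_comm, Finset.mul_sum]
    refine Finset.sum_le_sum fun j _ => ?_
    have e2 : ∑ a ∈ p.Gr, K * (ic (Qb a r) (X j) * D j X) =
        K * ((∑ a ∈ p.Gr, ic (Qb a r) (X j)) * D j X) := by
      rw [Finset.sum_mul, Finset.mul_sum]
    rw [e2, mul_assoc K (|C| + 1) (D j X)]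
    refine mul_le_mul_of_nonneg_left ?_ hK0
    refine mul_le_mul_of_nonneg_right ?_ (hD0 _ _)
    refine (hic (X j) r hr12).trans ?_
    linarith [le_abs_self C]
  have hl3 : 0 ≤ p.l ^ 3 := by positivity
  calc p.l ^ 3 * ∑ a ∈ p.Gr, ∑ e ∈ Ij m ι, IA p θ a (im e) (fun X => vt p a (im e) X *
        ∑ j ∈ Finset.univ \ im e, ic (Qb a r) (X j) *
          ∑ c, di j c (Av (tm (θ a)) (im e) u) X ^ 2)
      ≤ p.l ^ 3 * (K * (|C| + 1) * KK p u) := mul_le_mul_of_nonneg_left h3 hl3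
    _ = C₁ * (|C| + 1) * (p.M / p.l ^ 3) ^ m * p.l ^ 3 * KK p u := by
        rw [hK]
        ring

end Pool.Agent.TBS
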