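import Pool.Agent.TBS.StmtsC

set_option autoImplicit false

open MeasureTheory Filter Topology
open scoped ContDiff

namespace Pool.Agent.TBS

open Pool.Agent.TBG Pool.Agent.TBL Pool.Agent.TBF

namespace GRD_

lemma mem_cub {l : ℝ} {Mc : ℕ} {k : Fin 3 → Fin Mc} {x : E} : x ∈ cub l (crn l Mc k) ↔
    ∀ c, ((k c : ℕ) : ℝ) * l ≤ x c + (Mc : ℝ) * l / 2 ∧
      x c + (Mc : ℝ) * l / 2 < (((k c : ℕ) : ℝ) + 1) * l := by
  show (∀ c, _) ↔ _
  refine forall_congr' fun c => ?_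
  have e : (crn l Mc k) c = -((Mc : ℝ) * l / 2) + (k c : ℕ) * l := rfl
  rw [e]
  constructor
  · rintro ⟨h1, h2⟩
    exact ⟨by linarith, by linarith⟩
  · rintro ⟨h1, h2⟩
    exact ⟨by linarith, by linarith⟩

lemma cc_apply (l : ℝ) (Mc : ℕ) (k : Fin 3 → Fin Mc) (c : Fin 3) :
    cc l Mc k c = -((Mc : ℝ) * l / 2) + (k c : ℕ) * l + l / 2 := rfl

lemma mem_Qc {p : Par} {Mc : ℕ} {k₀ : Fin 3 → Fin Mc} {x : E} : x ∈ Qc p (cc p.l Mc k₀) ↔
    ∀ c, (((k₀ c : ℕ) : ℝ) - 10) * p.l ≤ x c + (Mc : ℝ) * p.l / 2 ∧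
      x c + (Mc : ℝ) * p.l / 2 < (((k₀ c : ℕ) : ℝ) + 11) * p.l := by
  show (∀ c, _) ↔ _
  refine forall_congr' fun c => ?_
  rw [cc_apply]
  constructor
  · rintro ⟨h1, h2⟩
    exact ⟨by linarith, by linarith⟩
  · rintro ⟨h1, h2⟩
    exact ⟨by linarith, by linarith⟩

lemma mem_cls {p : Par} (hl : 0 < p.l) {Mc : ℕ} {k₀ k : Fin 3 → Fin Mc} :
    k ∈ cls p Mc (cc p.l Mc k₀) ↔ ∀ c, (k₀ c : ℕ) ≤ (k c : ℕ) + 10 ∧ (k c : ℕ) ≤ (k₀ c : ℕ) + 10 := by
  simp only [cls, Finset.mem_filter, Finset.mem_univ, true_and]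
  rw [mem_Qc]
  refine forall_congr' fun c => ?_
  rw [cc_apply]
  constructor
  · rintro ⟨h1, h2⟩
    have h3 : ((k₀ c : ℕ) : ℝ) - 10 ≤ ((k c : ℕ) : ℝ) + 1 / 2 := by
      refine le_of_mul_le_mul_right ?_ hl
      linarith
    have h4 : ((k c : ℕ) : ℝ) + 1 / 2 < ((k₀ c : ℕ) : ℝ) + 11 := by
      refine lt_of_mul_lt_mul_right ?_ hl.le
      linarith
    constructor
    · have h5 : ((k₀ c : ℕ) : ℝ) < (((k c : ℕ) + 11 : ℕ) : ℝ) := by
        push_cast
        linarith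
      have h6 := Nat.cast_lt.1 h5
      omega
    · have h5 : ((k c : ℕ) : ℝ) < (((k₀ c : ℕ) + 11 : ℕ) : ℝ) := by
        push_cast
        linarith
      have h6 := Nat.cast_lt.1 h5
      omega
  · rintro ⟨h1, h2⟩
    have h3 : ((k₀ c : ℕ) : ℝ) ≤ ((k c : ℕ) : ℝ) + 10 := by exact_mod_cast h1
    have h4 : ((k c : ℕ) : ℝ) ≤ ((k₀ c : ℕ) : ℝ) + 10 := by exact_mod_cast h2
    constructor
    · nlinarith
    · nlinarith

lemma fcard {Mc : ℕ} (P : Fin Mc → Prop) [DecidablePred P] (T : Finset ℕ)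
    (h : ∀ j, P j → (j : ℕ) ∈ T) : (Finset.univ.filter P).card ≤ T.card := by
  apply Finset.card_le_card_of_injOn (fun j : Fin Mc => (j : ℕ))
  · intro j hj
    rw [Finset.mem_coe, Finset.mem_filter] at hj
    exact h j hj.2
  · intro i _ j _ hij
    exact Fin.val_injective hij

/-- tuples with three coordinates in small sets -/
lemma pcard {Mc n : ℕ} (J : Fin 3 → Finset (Fin Mc)) (h : ∀ c, (J c).card ≤ n) :
    (Fintype.piFinset J).card ≤ n ^ 3 := by
  rw [Fintype.card_piFinset]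
  refine (Finset.prod_le_pow_card _ _ n (fun c _ => h c)).trans (le_of_eq ?_)
  simp

/-- tuples with one coordinate in a small set -/
lemma ocard {Mc : ℕ} (c : Fin 3) (J : Finset (Fin Mc)) :
    (Finset.univ.filter (fun k : Fin 3 → Fin Mc => k c ∈ J)).card ≤ J.card * Mc ^ 2 := by
  have h1 : (Finset.univ.filter (fun k : Fin 3 → Fin Mc => k c ∈ J)) ⊆
      Fintype.piFinset (fun c' => if c' = c then J else Finset.univ) := by
    intro k hk
    rw [Finset.mem_filter] at hk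
    rw [Fintype.mem_piFinset]
    intro c'
    by_cases hc : c' = c
    · rw [if_pos hc, hc]
      exact hk.2
    · rw [if_neg hc]
      exact Finset.mem_univ _
  refine (Finset.card_le_card h1).trans (le_of_eq ?_)
  rw [Fintype.card_piFinset]
  have h2 : ∀ c' : Fin 3, (if c' = c then J else (Finset.univ : Finset (Fin Mc))).card =
      if c' = c then J.card else Mc := by
    intro c'
    by_cases hc : c' = c
    · rw [if_pos hc, if_pos hc]
    · rw [if_neg hc, if_neg hc, Finset.card_univ, Fintype.card_fin]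
  rw [Finset.prod_congr rfl (fun c' _ => h2 c'), Fin.prod_univ_three]
  fin_cases c
  · simp
    ring
  · simp
    ring
  · simp
    ring

/-- the union bound -/
lemma ucard {Mc n : ℕ} (P : Fin Mc → Prop) [DecidablePred P] (hP : (Finset.univ.filter P).card ≤ n) :
    (Finset.univ.filter (fun k : Fin 3 → Fin Mc => ∃ c, P (k c))).card ≤ 3 * n * Mc ^ 2 := by
  classical
  have h1 : (Finset.univ.filter (fun k : Fin 3 → Fin Mc => ∃ c, P (k c))) ⊆
      (Finset.univ : Finset (Fin 3)).biUnion (fun c => Finset.univ.filter (fun k : Fin 3 → Fin Mc => k c ∈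
        Finset.univ.filter P)) := by
    intro k hk
    rw [Finset.mem_filter] at hk
    obtain ⟨_, c, hc⟩ := hk
    rw [Finset.mem_biUnion]
    refine ⟨c, Finset.mem_univ c, ?_⟩
    rw [Finset.mem_filter]
    exact ⟨Finset.mem_univ _, Finset.mem_filter.2 ⟨Finset.mem_univ _, hc⟩⟩
  refine (Finset.card_le_card h1).trans (Finset.card_biUnion_le.trans ?_)
  refine (Finset.sum_le_sum (fun c _ => (ocard c _).trans (Nat.mul_le_mul_right _ hP))).trans (le_of_eq ?_)
  rw [Finset.sum_const, Finset.card_univ, Fintype.card_fin]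
  simp
  ring

lemma cell_exists {l : ℝ} (hl : 0 < l) {Mc : ℕ} {x : E}
    (h : ∀ c, 0 ≤ x c + (Mc : ℝ) * l / 2 ∧ x c + (Mc : ℝ) * l / 2 < (Mc : ℝ) * l) :
    ∃ k : Fin 3 → Fin Mc, x ∈ cub l (crn l Mc k) := by
  have h1 : ∀ c, ⌊(x c + (Mc : ℝ) * l / 2) / l⌋₊ < Mc := by
    intro c
    rw [Nat.floor_lt (div_nonneg (h c).1 hl.le), div_lt_iff₀ hl]
    exact (h c).2
  refine ⟨fun c => ⟨⌊(x c + (Mc : ℝ) * l / 2) / l⌋₊, h1 c⟩, ?_⟩
  rw [mem_cub]
  intro c
  constructor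
  · have := Nat.floor_le (div_nonneg (h c).1 hl.le)
    rw [le_div_iff₀ hl] at this
    exact this
  · have := Nat.lt_floor_add_one ((x c + (Mc : ℝ) * l / 2) / l)
    rw [div_lt_iff₀ hl] at this
    exact this

end GRD_

open GRD_ in
theorem grd_proof : Stmt_GRD := by
  classical
  intro p Mc hG
  obtain ⟨heq, hl, hM⟩ := hG
  have hL : p.L = (Mc : ℝ) * p.l := by
    rw [heq]
    rfl
  have hGr : ∀ a, a ∈ p.Gr ↔ ∃ k : Fin 3 → Fin Mc, (∀ c, 11 ≤ (k c : ℕ) ∧ (k c : ℕ) + 11 ≤ Mc) ∧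
      cc p.l Mc k = a := by
    intro a
    have e : p.Gr = (gpar Mc p.l p.R p.M).Gr := by rw [← heq]
    rw [e]
    unfold gpar
    simp only [Finset.mem_image, Finset.mem_filter, Finset.mem_univ, true_and]
  have hGi : ∀ a, a ∈ p.Gi ↔ ∃ k : Fin 3 → Fin Mc, (∀ c, 13 ≤ (k c : ℕ) ∧ (k c : ℕ) + 13 ≤ Mc) ∧
      cc p.l Mc k = a := by
    intro a
    have e : p.Gi = (gpar Mc p.l p.R p.M).Gi := by rw [← heq]
    rw [e]
    unfold gpar
    simp only [Finset.mem_image, Finset.mem_filter, Finset.mem_univ, true_and]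
  have huniq : ∀ (k k' : Fin 3 → Fin Mc) (x : E), x ∈ cub p.l (crn p.l Mc k) →
      x ∈ cub p.l (crn p.l Mc k') → k = k' := by
    intro k k' x h1 h2
    rw [mem_cub] at h1 h2
    funext c
    apply Fin.ext
    have h3 : ((k c : ℕ) : ℝ) < ((k' c : ℕ) : ℝ) + 1 :=
      lt_of_mul_lt_mul_right ((h1 c).1.trans_lt (h2 c).2) hl.le
    have h4 : ((k' c : ℕ) : ℝ) < ((k c : ℕ) : ℝ) + 1 :=
      lt_of_mul_lt_mul_right ((h2 c).1.trans_lt (h1 c).2) hl.le
    have h5 : (k c : ℕ) < (k' c : ℕ) + 1 := by exact_mod_cast h3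
    have h6 : (k' c : ℕ) < (k c : ℕ) + 1 := by exact_mod_cast h4
    omega
  have hcard : ∀ (k₀ : Fin 3 → Fin Mc) (r : ℕ), ((Finset.univ.filter (fun k : Fin 3 → Fin Mc =>
      ∀ c, (k₀ c : ℕ) ≤ (k c : ℕ) + r ∧ (k c : ℕ) ≤ (k₀ c : ℕ) + r)).card) ≤ (2 * r + 1) ^ 3 := by
    intro k₀ r
    refine (Finset.card_le_card (t := Fintype.piFinset (fun c => Finset.univ.filter (fun j : Fin Mc =>
      (k₀ c : ℕ) ≤ (j : ℕ) + r ∧ (j : ℕ) ≤ (k₀ c : ℕ) + r))) ?_).trans (pcard _ (fun c => ?_))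
    · intro k hk
      rw [Finset.mem_filter] at hk
      rw [Fintype.mem_piFinset]
      intro c
      exact Finset.mem_filter.2 ⟨Finset.mem_univ _, hk.2 c⟩
    · refine (fcard _ (Finset.Icc ((k₀ c : ℕ) - r) ((k₀ c : ℕ) + r)) ?_).trans ?_
      · rintro j ⟨h1, h2⟩
        rw [Finset.mem_Icc]
        omega
      · rw [Nat.card_Icc]
        omega
  refine ⟨?_, huniq, ?_, ?_, ?_, ?_, ?_, ?_⟩
  · -- cells cover the box
    intro x hx
    have hx' : ∀ c, |x c| < p.L / 2 := hx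
    obtain ⟨k, hk⟩ := cell_exists hl (Mc := Mc) (x := x) (fun c => by
      have h1 := abs_lt.1 (hx' c)
      rw [hL] at h1
      exact ⟨by linarith, by linarith⟩)
    exact ⟨k, hk, fun k' hk' => huniq _ _ _ hk' hk⟩
  · intro a ha
    obtain ⟨k₀, hk₀, rfl⟩ := (hGr a).1 ha
    refine ⟨?_, ?_, ?_, ?_⟩
    · intro k x hx
      rw [mem_cls hl, mem_Qc]
      rw [mem_cub] at hx
      refine forall_congr' fun c => ?_
      obtain ⟨h1, h2⟩ := hx c
      constructor
      · rintro ⟨h3, h4⟩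
        have h5 : ((k₀ c : ℕ) : ℝ) ≤ ((k c : ℕ) : ℝ) + 10 := by exact_mod_cast h3
        have h6 : ((k c : ℕ) : ℝ) ≤ ((k₀ c : ℕ) : ℝ) + 10 := by exact_mod_cast h4
        constructor
        · nlinarith
        · nlinarith
      · rintro ⟨h3, h4⟩
        have h5 : ((k₀ c : ℕ) : ℝ) - 10 < ((k c : ℕ) : ℝ) + 1 :=
          lt_of_mul_lt_mul_right (h3.trans_lt h2) hl.le
        have h6 : ((k c : ℕ) : ℝ) < ((k₀ c : ℕ) : ℝ) + 11 :=
          lt_of_mul_lt_mul_right (h1.trans_lt h4) hl.le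
        have h7 : ((k₀ c : ℕ) : ℝ) < (((k c : ℕ) + 11 : ℕ) : ℝ) := by
          push_cast
          linarith
        have h8 : ((k c : ℕ) : ℝ) < (((k₀ c : ℕ) + 11 : ℕ) : ℝ) := by
          push_cast
          linarith
        have h9 := Nat.cast_lt.1 h7
        have h10 := Nat.cast_lt.1 h8
        omega
    · intro x hx
      rw [mem_Qc] at hx
      apply cell_exists hl
      intro c
      obtain ⟨h1, h2⟩ := hx c
      have h3 : ((11 : ℕ) : ℝ) ≤ ((k₀ c : ℕ) : ℝ) := by exact_mod_cast (hk₀ c).1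
      have h4 : ((k₀ c : ℕ) : ℝ) + 11 ≤ (Mc : ℝ) := by exact_mod_cast (hk₀ c).2
      push_cast at h3
      constructor
      · nlinarith
      · nlinarith
    · have h1 : (cls p Mc (cc p.l Mc k₀)) ⊆ Finset.univ.filter (fun k : Fin 3 → Fin Mc =>
          ∀ c, (k₀ c : ℕ) ≤ (k c : ℕ) + 10 ∧ (k c : ℕ) ≤ (k₀ c : ℕ) + 10) := by
        intro k hk
        rw [mem_cls hl] at hk
        exact Finset.mem_filter.2 ⟨Finset.mem_univ _, hk⟩
      have h2 := (Finset.card_le_card h1).trans (hcard k₀ 10)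
      have h3 : (cls p Mc (cc p.l Mc k₀)).card ≤ 9261 := h2.trans (by norm_num)
      exact_mod_cast h3
    · have h1 : (p.Gr.filter (fun a' => ∀ c, |a' c - (cc p.l Mc k₀) c| ≤ 2 * p.l)) ⊆
          (Finset.univ.filter (fun k : Fin 3 → Fin Mc =>
          ∀ c, (k₀ c : ℕ) ≤ (k c : ℕ) + 2 ∧ (k c : ℕ) ≤ (k₀ c : ℕ) + 2)).image (cc p.l Mc) := by
        intro a' ha'
        rw [Finset.mem_filter] at ha'
        obtain ⟨ha1, ha2⟩ := ha'
        obtain ⟨k, hk, rfl⟩ := (hGr a').1 ha1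
        refine Finset.mem_image_of_mem _ (Finset.mem_filter.2 ⟨Finset.mem_univ _, fun c => ?_⟩)
        have h2 := abs_le.1 (ha2 c)
        rw [cc_apply, cc_apply] at h2
        have h3 : ((k₀ c : ℕ) : ℝ) ≤ ((k c : ℕ) : ℝ) + 2 := by
          refine le_of_mul_le_mul_right ?_ hl
          linarith [h2.1]
        have h4 : ((k c : ℕ) : ℝ) ≤ ((k₀ c : ℕ) : ℝ) + 2 := by
          refine le_of_mul_le_mul_right ?_ hl
          linarith [h2.2]
        exact ⟨by exact_mod_cast h3, by exact_mod_cast h4⟩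
      have h2 := (Finset.card_le_card h1).trans (Finset.card_image_le.trans (hcard k₀ 2))
      have h3 : (p.Gr.filter (fun a' => ∀ c, |a' c - (cc p.l Mc k₀) c| ≤ 2 * p.l)).card ≤ 125 :=
        h2.trans (by norm_num)
      exact_mod_cast h3
  · intro f hf
    have h1 : ∑ a ∈ p.Gr, ∑ k ∈ cls p Mc a, f k =
        ∑ k, ∑ a ∈ p.Gr.filter (fun a => k ∈ cls p Mc a), f k := by
      have h2 : ∀ a ∈ p.Gr, ∑ k ∈ cls p Mc a, f k = ∑ k, if k ∈ cls p Mc a then f k else 0 := by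
        intro a _
        rw [← Finset.sum_filter]
        congr 1
        ext k
        simp
      rw [Finset.sum_congr rfl h2, Finset.sum_comm]
      refine Finset.sum_congr rfl fun k _ => ?_
      rw [Finset.sum_filter]
    rw [h1, Finset.mul_sum]
    refine Finset.sum_le_sum fun k _ => ?_
    rw [Finset.sum_const, nsmul_eq_mul]
    refine mul_le_mul_of_nonneg_right ?_ (hf k)
    have h3 : (p.Gr.filter (fun a => k ∈ cls p Mc a)) ⊆ (Finset.univ.filter (fun k' : Fin 3 → Fin Mc =>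
          ∀ c, (k c : ℕ) ≤ (k' c : ℕ) + 10 ∧ (k' c : ℕ) ≤ (k c : ℕ) + 10)).image (cc p.l Mc) := by
      intro a' ha'
      rw [Finset.mem_filter] at ha'
      obtain ⟨ha1, ha2⟩ := ha'
      obtain ⟨k', hk', rfl⟩ := (hGr a').1 ha1
      rw [mem_cls hl] at ha2
      exact Finset.mem_image_of_mem _ (Finset.mem_filter.2 ⟨Finset.mem_univ _,
        fun c => ⟨(ha2 c).2, (ha2 c).1⟩⟩)
    have h4 := (Finset.card_le_card h3).trans (Finset.card_image_le.trans (hcard k 10))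
    have h5 : (p.Gr.filter (fun a => k ∈ cls p Mc a)).card ≤ 9261 := h4.trans (by norm_num)
    exact_mod_cast h5
  · intro a ha
    obtain ⟨k, hk, rfl⟩ := (hGi a).1 ha
    exact (hGr _).2 ⟨k, fun c => ⟨by have := (hk c).1; omega, by have := (hk c).2; omega⟩, rfl⟩
  · have h1 : p.Gr ⊆ (Finset.univ : Finset (Fin 3 → Fin Mc)).image (cc p.l Mc) := by
      intro a ha
      obtain ⟨k, hk, rfl⟩ := (hGr a).1 ha
      exact Finset.mem_image_of_mem _ (Finset.mem_univ _)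
    have h2 := (Finset.card_le_card h1).trans Finset.card_image_le
    rw [Finset.card_univ, Fintype.card_fun, Fintype.card_fin, Fintype.card_fin] at h2
    exact_mod_cast h2
  · have h1 : p.Gr \ p.Gi ⊆ (Finset.univ.filter (fun k : Fin 3 → Fin Mc => ∃ c,
        (fun j : Fin Mc => ((j : ℕ) = 11 ∨ (j : ℕ) = 12) ∨ ((j : ℕ) + 11 = Mc ∨ (j : ℕ) + 12 = Mc))
          (k c))).image (cc p.l Mc) := by
      intro a ha
      rw [Finset.mem_sdiff] at ha
      obtain ⟨ha1, ha2⟩ := ha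
      obtain ⟨k, hk, rfl⟩ := (hGr a).1 ha1
      refine Finset.mem_image_of_mem _ (Finset.mem_filter.2 ⟨Finset.mem_univ _, ?_⟩)
      by_contra hne
      push Not at hne
      apply ha2
      refine (hGi _).2 ⟨k, fun c => ?_, rfl⟩
      have h2 := hne c
      have h3 := hk c
      omega
    have h2 : (Finset.univ.filter (fun j : Fin Mc => ((j : ℕ) = 11 ∨ (j : ℕ) = 12) ∨
        ((j : ℕ) + 11 = Mc ∨ (j : ℕ) + 12 = Mc))).card ≤ 4 := by
      refine (fcard _ ({11, 12, Mc - 11, Mc - 12} : Finset ℕ) ?_).trans Finset.card_le_four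
      intro j hj
      simp only [Finset.mem_insert, Finset.mem_singleton]
      omega
    have h3 := (Finset.card_le_card h1).trans (Finset.card_image_le.trans (ucard _ h2))
    have h4 : (p.Gr \ p.Gi).card ≤ 12 * Mc ^ 2 := h3.trans (le_of_eq (by ring))
    exact_mod_cast h4
  · have h1 : (Finset.univ.filter (fun k : Fin 3 → Fin Mc => ¬ ∀ c, 14 ≤ (k c : ℕ) ∧ (k c : ℕ) + 14 ≤ Mc)) ⊆
        (Finset.univ.filter (fun k : Fin 3 → Fin Mc => ∃ c,
        (fun j : Fin Mc => (j : ℕ) < 14 ∨ Mc < (j : ℕ) + 14) (k c))) := by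
      intro k hk
      rw [Finset.mem_filter] at hk
      refine Finset.mem_filter.2 ⟨Finset.mem_univ _, ?_⟩
      by_contra hne
      push Not at hne
      exact hk.2 (fun c => ⟨(hne c).1, (hne c).2⟩)
    have h2 : (Finset.univ.filter (fun j : Fin Mc => (j : ℕ) < 14 ∨ Mc < (j : ℕ) + 14)).card ≤ 28 := by
      refine (fcard _ (Finset.range 14 ∪ Finset.Ico (Mc - 13) (Mc - 13 + 14)) ?_).trans ?_
      · intro j hj
        have hj2 := j.2
        rw [Finset.mem_union, Finset.mem_range, Finset.mem_Ico]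
        omega
      · refine (Finset.card_union_le _ _).trans ?_
        rw [Finset.card_range, Nat.card_Ico]
        omega
    have h3 := (Finset.card_le_card h1).trans (ucard _ h2)
    have h4 : (Finset.univ.filter (fun k : Fin 3 → Fin Mc => ¬ ∀ c, 14 ≤ (k c : ℕ) ∧
        (k c : ℕ) + 14 ≤ Mc)).card ≤ 84 * Mc ^ 2 := h3.trans (le_of_eq (by ring))
    exact_mod_cast h4

end Pool.Agent.TBS
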