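import Pool.Agent.TBS.StmtsA

/-!
# Three-body Bose gases (MP_80dc41_mp), sharp lower bound: module GS0
-/

set_option autoImplicit false

open MeasureTheory Filter Topology
open scoped ContDiff

namespace Pool.Agent.TBS

open Pool.Agent.TBG Pool.Agent.TBL Pool.Agent.TBF

namespace GS0_

section

variable {ι : Type} [Fintype ι] [DecidableEq ι]

theorem fin_PiS (m n : Measure E) [IsFiniteMeasure m] [IsFiniteMeasure n] (S : Finset ι) :
    IsFiniteMeasure (PiS m n S) := by
  unfold PiS
  have : ∀ i : ι, IsFiniteMeasure (if i ∈ S then m else n) := by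
    intro i
    split_ifs <;> infer_instance
  infer_instance

theorem inner_sum (e : Finset ι) (f : (Fin 0 → ι) → ℝ) :
    ∑ j ∈ (Ij 0 ι).filter (fun j => Disjoint (im j) e), f j = f Fin.elim0 := by
  have : (Ij 0 ι).filter (fun j => Disjoint (im j) e) = {Fin.elim0} := by
    ext j
    simp only [Finset.mem_filter, Finset.mem_singleton]
    constructor
    · intro _
      exact Subsingleton.elim _ _
    · intro _
      refine ⟨?_, ?_⟩
      · unfold Ij
        simp only [Finset.mem_filter, Finset.mem_univ, true_and]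
        intro a
        exact a.elim0
      · unfold im
        simp
  rw [this, Finset.sum_singleton]

theorem bm_ic {Q : Set E} (hQ : MeasurableSet Q) : BM (ic Q) := by
  refine ⟨measurable_const.indicator hQ, 1, fun x => ?_⟩
  unfold ic
  by_cases h : x ∈ Q
  · rw [Set.indicator_of_mem h]; norm_num
  · rw [Set.indicator_of_notMem h]; norm_num

theorem bm_CU {u : (ι → E) → ℝ} (hu : CU u) : BM u := by
  refine ⟨hu.1.continuous.measurable, ?_⟩
  obtain ⟨C, hC⟩ := hu.1.continuous.bounded_above_of_compact_support hu.2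
  exact ⟨C, fun X => by have := hC X; rwa [Real.norm_eq_abs] at this⟩

theorem meas_cen (S : Finset ι) : Measurable (cen S) := by
  unfold cen
  exact ((continuous_const (y := ((S.card : ℝ))⁻¹)).smul
    (continuous_finsetSum S fun i _ => continuous_apply i)).measurable

theorem ic_nonneg (Q : Set E) (x : E) : 0 ≤ ic Q x := by
  unfold ic
  exact Set.indicator_nonneg (fun _ _ => zero_le_one) x

end

end GS0_

open GS0_ in
theorem gs0_proof (hBMC : Pool.Agent.TBL.Stmt_BMC) (hMSY : Stmt_MSY) (hAVP : Stmt_AVP)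
    (_hAVI : Stmt_AVI) (hCLX : Stmt_CLX) (_hHSF : Stmt_HSF) (hVTP : Stmt_VTP) : Stmt_GS0 := by
  intro C m
  refine ⟨64, by norm_num, ?_⟩
  intro ι _ _ p β θ u κ K q hS hu hK
  obtain ⟨hl1, hfin, _, _, hQb, _, hprob, _, _, _, _, _⟩ := hMSY C p β θ hS
  have hbu := bm_CU hu
  have hl : 0 < p.l := by linarith
  haveI := hfin
  have hfinP : IsFiniteMeasure (PiS (mO p.L) (mO p.L) (∅ : Finset ι)) := fin_PiS _ _ _
  -- the amplitudes
  have hAm : ∀ a (S : Finset ι), BM (Am p θ u a S) ∧ IndS S (Am p θ u a S) := by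
    intro a S
    haveI := hprob a
    obtain ⟨v1, v2, _⟩ := hVTP ι C p β θ hS a S
    obtain ⟨a1, a2, _⟩ := hAVP ι (tm (θ a)) S S u u hbu hbu
    refine ⟨((hBMC.1 _ _ _ v1 a1).2.2.1), ?_⟩
    intro X Y hXY
    unfold Am
    rw [v2 X Y hXY, a2 X Y hXY]
  have hAm2 : ∀ a (S : Finset ι), BM (fun X => Am p θ u a S X ^ 2) := fun a S =>
    (hBMC.1 _ _ _ (hAm a S).1 (hAm a S).1).2.2.2.1
  -- the terms
  have hKe : ∀ e : Fin (m + 1) → ι, BM (fun X : ι → E => K (X ∘ e)) := fun e =>
    hBMC.2.2.2.1 _ _ K (fun X : ι → E => X ∘ e) hK.bm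
      (measurable_pi_lambda _ fun s => measurable_pi_apply (e s))
  have hic : ∀ a (S : Finset ι), BM (fun X => ic (Qb a p.l) (cen S X)) := fun a S =>
    hBMC.2.2.2.1 _ _ (ic (Qb a p.l)) (cen S) (bm_ic (hQb a p.l).1) (meas_cen S)
  have hterm : ∀ a (e : Fin (m + 1) → ι), BM (fun X => ic (Qb a p.l) (cen (im e) X) *
      (K (X ∘ e) * Am p θ u a (im e) X ^ 2)) := fun a e =>
    (hBMC.1 _ _ _ (hic a (im e)) (hBMC.1 _ _ _ (hKe e) (hAm2 a (im e))).2.2.1).2.2.1
  have hGS : GS p θ u m 0 K q = ∑ e ∈ Ij (m + 1) ι, ∑ a ∈ p.Gr,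
      IO p (fun X => ic (Qb a p.l) (cen (im e) X) * (K (X ∘ e) * Am p θ u a (im e) X ^ 2)) := by
    unfold GS
    refine Finset.sum_congr rfl fun e _ => ?_
    rw [GS0_.inner_sum]
    have e1 : (fun X : ι → E => hh2 p θ u (im e) X * (K (X ∘ e) *
        ∏ s : Fin 0, q (X (e 0) - X ((Fin.elim0 : Fin 0 → ι) s)))) =
        fun X => ∑ a ∈ p.Gr, ic (Qb a p.l) (cen (im e) X) *
          (K (X ∘ e) * Am p θ u a (im e) X ^ 2) := by
      funext X
      rw [Finset.univ_eq_empty, Finset.prod_empty, mul_one]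
      unfold hh2
      rw [Finset.sum_mul]
      refine Finset.sum_congr rfl fun a _ => ?_
      ring
    unfold IO
    rw [e1]
    exact integral_finsetSum _ fun a _ =>
      (hBMC.1 _ _ _ (hterm a e) (hterm a e)).2.2.2.2.2.2 _
  have hvol : ∀ a : E, (volume (Qb a (2 * p.l))).toReal = 64 * p.l ^ 3 := by
    intro a
    rw [(hQb a (2 * p.l)).2 (by positivity), ENNReal.toReal_ofReal (by positivity)]
    ring
  constructor
  · rw [hGS]
    refine Finset.sum_nonneg fun e _ => Finset.sum_nonneg fun a _ => ?_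
    unfold IO
    refine integral_nonneg fun X => ?_
    exact mul_nonneg (ic_nonneg _ _) (mul_nonneg (hK.nn _) (sq_nonneg _))
  · rw [hGS]
    have hb : ∀ e ∈ Ij (m + 1) ι, ∀ a ∈ p.Gr,
        IO p (fun X => ic (Qb a p.l) (cen (im e) X) * (K (X ∘ e) * Am p θ u a (im e) X ^ 2)) ≤
        64 * κ * (p.l ^ 3 * IA p θ a (im e) (fun X => Am p θ u a (im e) X ^ 2)) := by
      intro e he a ha
      have h := hCLX C m ι p β θ κ K (fun _ X => Am p θ u a (im e) X ^ 2) hS hK
        (hBMC.2.2.2.1 _ _ (fun X : ι → E => Am p θ u a (im e) X ^ 2) Prod.snd (hAm2 a (im e))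
          measurable_snd) (fun _ X => sq_nonneg _) a ha e he
        (fun _ X Y hXY => by
          show Am p θ u a (im e) X ^ 2 = Am p θ u a (im e) Y ^ 2
          rw [(hAm a (im e)).2 X Y hXY])
      refine h.trans (le_of_eq ?_)
      rw [setIntegral_const]
      have : (volume : Measure E).real (Qb a (2 * p.l)) = 64 * p.l ^ 3 := hvol a
      rw [this, smul_eq_mul]
      ring
    refine (Finset.sum_le_sum fun e he => Finset.sum_le_sum fun a ha => hb e he a ha).trans
      (le_of_eq ?_)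
    unfold AA
    rw [Finset.sum_comm]
    simp only [Finset.mul_sum]

end Pool.Agent.TBS
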