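import Pool.Agent.TBS.StmtsA

/-!
# Three-body Bose gases, sharp lower bound, module GS1: cluster sums with one further particle
-/

set_option autoImplicit false

open MeasureTheory Filter Topology
open scoped ContDiff

namespace Pool.Agent.TBS

open Pool.Agent.TBG Pool.Agent.TBL Pool.Agent.TBF

namespace GS1_

lemma finP {ι : Type} [Fintype ι] [DecidableEq ι] (m n : Measure E) [IsFiniteMeasure m]
    [IsFiniteMeasure n] (S : Finset ι) : IsFiniteMeasure (PiS m n S) := by
  have : ∀ i : ι, IsFiniteMeasure (if i ∈ S then m else n) := by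
    intro i
    split_ifs <;> infer_instance
  unfold PiS
  infer_instance

lemma ic_nonneg (Q : Set E) (x : E) : 0 ≤ ic Q x := by
  unfold ic
  exact Set.indicator_nonneg (fun _ _ => zero_le_one) x

lemma ic_le_one (Q : Set E) (x : E) : ic Q x ≤ 1 := by
  unfold ic
  by_cases hx : x ∈ Q
  · rw [Set.indicator_of_mem hx]
  · rw [Set.indicator_of_notMem hx]
    exact zero_le_one

lemma ic_bm {Q : Set E} (hQ : MeasurableSet Q) : BM (ic Q) := by
  refine ⟨measurable_const.indicator hQ, 1, fun x => ?_⟩
  rw [abs_of_nonneg (ic_nonneg Q x)]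
  exact ic_le_one Q x

end GS1_

open GS1_

theorem gs1_proof (hBMC : Pool.Agent.TBL.Stmt_BMC) (hMSY : Stmt_MSY) (hAVP : Stmt_AVP)
    (_hAVI : Stmt_AVI) (hVTP : Stmt_VTP) (hCLX : Stmt_CLX) (hHSF : Stmt_HSF) : Stmt_GS1 := by
  intro C m
  obtain ⟨_, -, hH⟩ := hHSF C
  refine ⟨1, one_pos, ?_⟩
  intro ι _ _ p β θ u κ w₁ w₂ w₃ K q hS huC hK hq
  obtain ⟨hl1, hfin, -, -, hQb, -, hprob, -, -, -, -, -⟩ := hMSY C p β θ hS
  have hfin' : IsFiniteMeasure (mO p.L) := hfin
  have hprob' : ∀ a, IsProbabilityMeasure (tm (θ a)) := hprob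
  have hfP : ∀ (a : E) (S : Finset ι), IsFiniteMeasure (PiS (tm (θ a)) (mO p.L) S) := fun a S =>
    finP _ _ S
  have hfO : IsFiniteMeasure (PiS (mO p.L) (mO p.L) (∅ : Finset ι)) := finP _ _ _
  have hl : 0 < p.l := by linarith
  have hl3 : 0 < p.l ^ 3 := by positivity
  have hM : 0 ≤ p.M := by linarith [hS.hM]
  have hu : BM u := by
    obtain ⟨B, hB⟩ := huC.2.exists_bound_of_continuous huC.1.continuous
    exact ⟨huC.1.continuous.measurable, B, fun X => hB X⟩
  have hvQ : ∀ (r : ℝ), 0 ≤ r → ∀ b : E, volume (Qb b r) < ⊤ := by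
    intro r hr b
    rw [(hQb b r).2 hr]
    exact ENNReal.ofReal_lt_top
  have mul : ∀ {α : Type} [MeasurableSpace α] {F G : α → ℝ}, BM F → BM G →
      BM (fun X => F X * G X) := fun {α} _ {F G} hF hG => (hBMC.1 α F G hF hG).2.2.1
  have cmul : ∀ {α : Type} [MeasurableSpace α] {F : α → ℝ} (c : ℝ), BM F →
      BM (fun X => c * F X) := fun {α} _ {F} c hF => (hBMC.1 α F F hF hF).2.2.2.2.2.1 c
  have hint : ∀ {α : Type} [MeasurableSpace α] {F : α → ℝ} (μ : Measure α) [IsFiniteMeasure μ],
      BM F → Integrable F μ := fun {α} _ {F} μ _ hF => (hBMC.1 α F F hF hF).2.2.2.2.2.2 μ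
  have comp : ∀ {α γ : Type} [MeasurableSpace α] [MeasurableSpace γ] {F : α → ℝ} {f : γ → α},
      BM F → Measurable f → BM (fun X => F (f X)) := fun {α γ} _ _ {F f} hF hf =>
    hBMC.2.2.2.1 α γ F f hF hf
  have sum : ∀ {α J : Type} [MeasurableSpace α] (s : Finset J) {F : J → α → ℝ},
      (∀ j ∈ s, BM (F j)) → BM (fun X => ∑ j ∈ s, F j X) := fun {α J} _ s {F} h =>
    hBMC.2.2.1 α J s F h
  -- the amplitude
  have hAm : ∀ (a : E) (S : Finset ι), BM (Am p θ u a S) := fun a S =>
    mul (hVTP ι C p β θ hS a S).1 (hAVP ι (tm (θ a)) S ∅ u u hu hu).1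
  have hAm2 : ∀ (a : E) (S : Finset ι), BM (fun X => Am p θ u a S X ^ 2) := fun a S =>
    (hBMC.1 _ _ _ (hAm a S) (hAm a S)).2.2.2.1
  have hAmI : ∀ (a : E) (S : Finset ι), IndS S (Am p θ u a S) := by
    intro a S X Y h
    unfold Am
    rw [(hVTP ι C p β θ hS a S).2.1 X Y h, (hAVP ι (tm (θ a)) S ∅ u u hu hu).2.1 X Y h]
  have hAmM : ∀ (a : E) (S : Finset ι) (r : ℝ), r ≤ 10 * p.l → ∀ X,
      (∑ j ∈ Finset.univ \ S, ic (Qb a r) (X j)) * Am p θ u a S X ^ 2 ≤
        p.M * Am p θ u a S X ^ 2 := by
    intro a S r hr X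
    have h1 := ((hVTP ι C p β θ hS a S).2.2.1 X).2.2 r hr
    have h2 := ((hVTP ι C p β θ hS a S).2.2.1 X).1
    unfold Am
    rcases h2 with h2 | h2
    · rw [h2]; simp
    · rw [h2, one_mul, mul_one] at h1
      rw [h2, one_mul]
      exact mul_le_mul_of_nonneg_right h1 (sq_nonneg _)
  have hκ : 0 ≤ κ := (integral_nonneg fun z => hK.nn _).trans (hK.mass 0)
  have hw : 0 ≤ w₁ := (integral_nonneg fun x => hq.nn x).trans hq.m1
  have hqB : BM q := ⟨hq.meas, 1, fun x => by rw [abs_of_nonneg (hq.nn x)]; exact hq.le1 x⟩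
  have hqi : Integrable q := by
    have hi : IntegrableOn q (Qb 0 p.l) :=
      IntegrableOn.of_bound (hvQ _ hl.le 0) hq.meas.aestronglyMeasurable 1
        (Eventually.of_forall fun x => by
          rw [Real.norm_of_nonneg (hq.nn x)]
          exact hq.le1 x)
    refine (integrableOn_iff_integrable_of_support_subset fun x hx => ?_).1 hi
    intro c
    have := hq.sp x hx c
    simpa using this
  have cenm : ∀ S : Finset ι, Measurable (cen S : (ι → E) → E) := by
    intro S
    unfold cen
    fun_prop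
  -- the inner integral
  have inn : ∀ (a y : E), ∫ x in Qb a (2 * p.l), q (x - y) ≤ w₁ * ic (Qb a (3 * p.l)) y := by
    intro a y
    by_cases hy : y ∈ Qb a (3 * p.l)
    · have h1 : ic (Qb a (3 * p.l)) y = 1 := by
        unfold ic
        rw [Set.indicator_of_mem hy]
      rw [h1, mul_one]
      calc ∫ x in Qb a (2 * p.l), q (x - y) ≤ ∫ x, q (x - y) :=
            setIntegral_le_integral (hqi.comp_sub_right y) (Eventually.of_forall fun x => hq.nn _)
        _ = ∫ x, q x := integral_sub_right_eq_self q y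
        _ ≤ w₁ := hq.m1
    · have h1 : ic (Qb a (3 * p.l)) y = 0 := by
        unfold ic
        rw [Set.indicator_of_notMem hy]
      rw [h1, mul_zero]
      refine le_of_eq (setIntegral_eq_zero_of_forall_eq_zero fun x hx => ?_)
      by_contra hne
      refine hy fun c => ?_
      have h2 := hq.sp _ hne c
      have h3 := hx c
      rw [PiLp.sub_apply] at h2
      rw [abs_le] at *
      constructor <;> linarith [h2.1, h2.2, h3.1, h3.2]
  have key : ∀ a ∈ p.Gr, ∀ e ∈ Ij (m + 1) ι, ∀ j : ι, j ∉ im e →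
      IO p (fun X => ic (Qb a p.l) (cen (im e) X) *
        (K (X ∘ e) * (Am p θ u a (im e) X ^ 2 * q (X (e 0) - X j)))) ≤
      κ * (w₁ * IA p θ a (im e) (fun X => ic (Qb a (3 * p.l)) (X j) *
        Am p θ u a (im e) X ^ 2)) := by
    intro a ha e he j hj
    have hmF : Measurable (fun r : E × (ι → E) => r.1 - r.2 j) :=
      measurable_fst.sub ((measurable_pi_apply j).comp measurable_snd)
    have hFB : BM (fun r : E × (ι → E) => Am p θ u a (im e) r.2 ^ 2 * q (r.1 - r.2 j)) :=
      mul (comp (hAm2 a (im e)) measurable_snd) (comp hqB hmF)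
    have h1 := hCLX C m ι p β θ κ K
      (fun x X => Am p θ u a (im e) X ^ 2 * q (x - X j)) hS hK hFB
      (fun x X => mul_nonneg (sq_nonneg _) (hq.nn _)) a ha e he (by
        intro x X Y h
        simp only
        rw [hAmI a (im e) X Y h, h j hj])
    refine h1.trans (mul_le_mul_of_nonneg_left ?_ hκ)
    have hfQ : IsFiniteMeasure ((volume : Measure E).restrict (Qb a (2 * p.l))) :=
      ⟨by rw [Measure.restrict_apply_univ]; exact hvQ _ (by linarith) a⟩
    unfold IA
    rw [integral_integral_swap (hint _ hFB)]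
    rw [← integral_const_mul]
    have hb1 : BM (fun X : ι → E => ∫ x in Qb a (2 * p.l),
        Am p θ u a (im e) X ^ 2 * q (x - X j)) := by
      have e0 : (fun X : ι → E => ∫ x in Qb a (2 * p.l), Am p θ u a (im e) X ^ 2 * q (x - X j)) =
          fun X => Am p θ u a (im e) X ^ 2 * ∫ x in Qb a (2 * p.l), q (x - X j) := by
        funext X
        rw [integral_const_mul]
      rw [e0]
      refine mul (hAm2 a (im e)) ?_
      refine comp (F := fun y : E => ∫ x in Qb a (2 * p.l), q (x - y)) ?_ (measurable_pi_apply j)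
      refine ⟨?_, w₁, fun y => ?_⟩
      · have : StronglyMeasurable (fun y : E => ∫ x in Qb a (2 * p.l), q (x - y)) := by
          have h2 : Measurable (fun r : E × E => q (r.2 - r.1)) :=
            hq.meas.comp (measurable_snd.sub measurable_fst)
          exact h2.stronglyMeasurable.integral_prod_right'
        exact this.measurable
      · rw [abs_of_nonneg (integral_nonneg fun x => hq.nn _)]
        refine (inn a y).trans ?_
        calc w₁ * ic (Qb a (3 * p.l)) y ≤ w₁ * 1 :=
              mul_le_mul_of_nonneg_left (ic_le_one _ _) hw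
          _ = w₁ := mul_one _
    refine integral_mono (hint _ hb1)
      (hint _ (cmul w₁ (mul (comp (ic_bm (hQb a (3 * p.l)).1) (measurable_pi_apply j))
        (hAm2 a (im e))))) fun X => ?_
    simp only
    rw [integral_const_mul]
    calc Am p θ u a (im e) X ^ 2 * ∫ x in Qb a (2 * p.l), q (x - X j)
        ≤ Am p θ u a (im e) X ^ 2 * (w₁ * ic (Qb a (3 * p.l)) (X j)) :=
          mul_le_mul_of_nonneg_left (inn a (X j)) (sq_nonneg _)
      _ = w₁ * (ic (Qb a (3 * p.l)) (X j) * Am p θ u a (im e) X ^ 2) := by ring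
  have hnn : ∀ e ∈ Ij (m + 1) ι, ∀ X, 0 ≤ hh2 p θ u (im e) X := by
    intro e _ X
    exact ((hH ι p β θ u (im e) hS hu ⟨e 0, Finset.mem_image_of_mem e (Finset.mem_univ _)⟩).2.2.1
      X).1
  constructor
  · unfold GS
    refine Finset.sum_nonneg fun e he => Finset.sum_nonneg fun j _ => integral_nonneg fun X => ?_
    exact mul_nonneg (hnn e he X) (mul_nonneg (hK.nn _) (Finset.prod_nonneg fun s _ => hq.nn _))
  · have hterm : ∀ e ∈ Ij (m + 1) ι, ∀ j : ι, j ∉ im e →
        IO p (fun X => hh2 p θ u (im e) X * (K (X ∘ e) * q (X (e 0) - X j))) ≤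
        ∑ a ∈ p.Gr, κ * (w₁ * IA p θ a (im e) (fun X => ic (Qb a (3 * p.l)) (X j) *
          Am p θ u a (im e) X ^ 2)) := by
      intro e he j hj
      have e1 : IO p (fun X => hh2 p θ u (im e) X * (K (X ∘ e) * q (X (e 0) - X j))) =
          ∑ a ∈ p.Gr, IO p (fun X => ic (Qb a p.l) (cen (im e) X) *
            (K (X ∘ e) * (Am p θ u a (im e) X ^ 2 * q (X (e 0) - X j)))) := by
        unfold IO
        rw [← integral_finsetSum]
        · refine integral_congr_ae (Eventually.of_forall fun X => ?_)
          simp only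
          unfold hh2
          rw [Finset.sum_mul]
          refine Finset.sum_congr rfl fun a _ => ?_
          ring
        · intro a _
          have hm1 : Measurable (fun X : ι → E => X ∘ e) :=
            measurable_pi_iff.2 fun s => measurable_pi_apply (e s)
          have hm2 : Measurable (fun X : ι → E => X (e 0) - X j) :=
            (measurable_pi_apply (e 0)).sub (measurable_pi_apply j)
          exact hint _ (mul (comp (ic_bm (hQb a p.l).1) (cenm (im e)))
            (mul (comp hK.bm hm1) (mul (hAm2 a (im e)) (comp hqB hm2))))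
      rw [e1]
      exact Finset.sum_le_sum fun a ha => key a ha e he j hj
    have hsum : ∀ e ∈ Ij (m + 1) ι,
        ∑ j ∈ (Ij 1 ι).filter (fun j => Disjoint (im j) (im e)),
          IO p (fun X => hh2 p θ u (im e) X * (K (X ∘ e) * ∏ s, q (X (e 0) - X (j s)))) ≤
        ∑ a ∈ p.Gr, κ * (w₁ * (p.M * IA p θ a (im e) (fun X => Am p θ u a (im e) X ^ 2))) := by
      intro e he
      have e1 : ∑ j ∈ (Ij 1 ι).filter (fun j => Disjoint (im j) (im e)),
          IO p (fun X => hh2 p θ u (im e) X * (K (X ∘ e) * ∏ s, q (X (e 0) - X (j s)))) =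
          ∑ i ∈ Finset.univ \ im e,
            IO p (fun X => hh2 p θ u (im e) X * (K (X ∘ e) * q (X (e 0) - X i))) := by
        have him : ∀ j : Fin 1 → ι, im j = {j 0} := by
          intro j
          unfold im
          simp
        refine Finset.sum_bij (fun j _ => j 0) ?_ ?_ ?_ ?_
        · intro j hj
          rw [Finset.mem_filter, him, Finset.disjoint_singleton_left] at hj
          rw [Finset.mem_sdiff]
          exact ⟨Finset.mem_univ _, hj.2⟩
        · intro j _ j' _ h
          funext s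
          rw [Subsingleton.elim s 0]
          exact h
        · intro i hi
          rw [Finset.mem_sdiff] at hi
          refine ⟨fun _ => i, ?_, rfl⟩
          rw [Finset.mem_filter, him, Finset.disjoint_singleton_left]
          refine ⟨?_, hi.2⟩
          unfold Ij
          rw [Finset.mem_filter]
          exact ⟨Finset.mem_univ _, Function.injective_of_subsingleton _⟩
        · intro j _
          simp only [Finset.univ_unique, Fin.default_eq_zero, Finset.prod_singleton]
      rw [e1]
      have e2 : ∑ i ∈ Finset.univ \ im e,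
            IO p (fun X => hh2 p θ u (im e) X * (K (X ∘ e) * q (X (e 0) - X i))) ≤
          ∑ i ∈ Finset.univ \ im e, ∑ a ∈ p.Gr, κ * (w₁ * IA p θ a (im e)
            (fun X => ic (Qb a (3 * p.l)) (X i) * Am p θ u a (im e) X ^ 2)) := by
        refine Finset.sum_le_sum fun i hi => ?_
        rw [Finset.mem_sdiff] at hi
        exact hterm e he i hi.2
      refine e2.trans ?_
      rw [Finset.sum_comm]
      refine Finset.sum_le_sum fun a _ => ?_
      rw [← Finset.mul_sum, ← Finset.mul_sum]
      refine mul_le_mul_of_nonneg_left (mul_le_mul_of_nonneg_left ?_ hw) hκ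
      have hbi : ∀ i : ι, BM (fun X : ι → E => ic (Qb a (3 * p.l)) (X i) *
          Am p θ u a (im e) X ^ 2) := fun i =>
        mul (comp (ic_bm (hQb a (3 * p.l)).1) (measurable_pi_apply i)) (hAm2 a (im e))
      unfold IA
      rw [← integral_finsetSum _ fun i _ => hint _ (hbi i), ← integral_const_mul]
      refine integral_mono (hint _ (sum _ fun i _ => hbi i)) (hint _ (cmul p.M (hAm2 a (im e))))
        fun X => ?_
      simp only
      rw [← Finset.sum_mul]
      exact hAmM a (im e) (3 * p.l) (by linarith) X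
    have hfinal : GS p θ u m 1 K q ≤ ∑ e ∈ Ij (m + 1) ι, ∑ a ∈ p.Gr,
        κ * (w₁ * (p.M * IA p θ a (im e) (fun X => Am p θ u a (im e) X ^ 2))) := by
      unfold GS
      exact Finset.sum_le_sum fun e he => hsum e he
    refine hfinal.trans (le_of_eq ?_)
    unfold AA
    rw [Finset.sum_comm]
    simp_rw [← Finset.mul_sum]
    field_simp

end Pool.Agent.TBS
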