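import Pool.Agent.TBS.StmtsA

/-!
# Three-body Bose gases (MP_80dc41_mp), sharp lower bound: module GS2, cluster sums with two further particles
-/

set_option autoImplicit false

open MeasureTheory Filter Topology
open scoped ContDiff

namespace Pool.Agent.TBS

open Pool.Agent.TBG Pool.Agent.TBL Pool.Agent.TBF

namespace GS2_

/-! ### bounded measurable functions -/

theorem bm_mul {α : Type} [MeasurableSpace α] {F G : α → ℝ} (hF : BM F) (hG : BM G) :
    BM (fun X => F X * G X) := by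
  obtain ⟨m1, C1, h1⟩ := hF
  obtain ⟨m2, C2, h2⟩ := hG
  refine ⟨m1.mul m2, C1 * C2, fun X => ?_⟩
  rw [abs_mul]
  exact mul_le_mul (h1 X) (h2 X) (abs_nonneg _) ((abs_nonneg _).trans (h1 X))

theorem bm_sq {α : Type} [MeasurableSpace α] {F : α → ℝ} (hF : BM F) :
    BM (fun X => F X ^ 2) := by
  have h := bm_mul hF hF
  simpa only [sq] using h

theorem bm_sum {α J : Type} [MeasurableSpace α] (s : Finset J) {F : J → α → ℝ}
    (hF : ∀ p ∈ s, BM (F p)) : BM (fun X => ∑ p ∈ s, F p X) := by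
  classical
  choose! C hC using fun p (hp : p ∈ s) => (hF p hp).2
  refine ⟨Finset.measurable_sum s (fun p hp => (hF p hp).1), ∑ p ∈ s, C p, fun X => ?_⟩
  exact (Finset.abs_sum_le_sum_abs _ _).trans (Finset.sum_le_sum (fun p hp => hC p hp X))

theorem bm_comp {α γ : Type} [MeasurableSpace α] [MeasurableSpace γ] {F : α → ℝ} (hF : BM F)
    {f : γ → α} (hf : Measurable f) : BM (fun X => F (f X)) :=
  ⟨hF.1.comp hf, hF.2.choose, fun X => hF.2.choose_spec (f X)⟩

theorem bm_int {α : Type} [MeasurableSpace α] {F : α → ℝ} (hF : BM F) (μ : Measure α)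
    [IsFiniteMeasure μ] : Integrable F μ := by
  obtain ⟨m1, C, h⟩ := hF
  refine Integrable.mono' (integrable_const C) m1.aestronglyMeasurable ?_
  exact Eventually.of_forall (fun X => by rw [Real.norm_eq_abs]; exact h X)

theorem ic_bm {Q : Set E} (hQ : MeasurableSet Q) : BM (ic Q) := by
  refine ⟨measurable_const.indicator hQ, 1, fun x => ?_⟩
  unfold ic
  by_cases hx : x ∈ Q <;> simp [hx]

theorem ic_nn (Q : Set E) (x : E) : 0 ≤ ic Q x := by
  unfold ic
  by_cases hx : x ∈ Q <;> simp [hx]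

theorem ic_mem {Q : Set E} {x : E} (hx : x ∈ Q) : ic Q x = 1 := by
  unfold ic
  simp [hx]

theorem ic_not {Q : Set E} {x : E} (hx : x ∉ Q) : ic Q x = 0 := by
  unfold ic
  simp [hx]

variable {ι : Type} [Fintype ι] [DecidableEq ι]

theorem fin_PiS (m n : Measure E) [IsFiniteMeasure m] [IsFiniteMeasure n] (S : Finset ι) :
    IsFiniteMeasure (PiS m n S) := by
  unfold PiS
  haveI : ∀ i : ι, IsFiniteMeasure (if i ∈ S then m else n) := fun i => by
    split_ifs <;> infer_instance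
  infer_instance

/-- the kernel is integrable -/
theorem q_int (C : ℝ) (p : Par) (β θ : E → E → ℝ) (hMSY : Stmt_MSY) (hSys : Sys C p β θ)
    {w₁ w₂ w₃ : ℝ} {q : E → ℝ} (hq : Pk p.l w₁ w₂ w₃ q) : Integrable q := by
  obtain ⟨hl, _, _, _, hQb, _⟩ := hMSY C p β θ hSys
  have hbm : BM q := ⟨hq.meas, 1, fun x => by
    rw [abs_of_nonneg (hq.nn x)]; exact hq.le1 x⟩
  have hvol := (hQb 0 p.l).2 (by linarith)
  haveI : IsFiniteMeasure (volume.restrict (Qb (0 : E) p.l)) := by
    refine ⟨?_⟩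
    rw [Measure.restrict_apply_univ, hvol]
    exact ENNReal.ofReal_lt_top
  have h1 : IntegrableOn q (Qb (0 : E) p.l) := bm_int hbm (volume.restrict (Qb (0 : E) p.l))
  refine (integrableOn_iff_integrable_of_support_subset ?_).mp h1
  intro x hx c
  have h2 := hq.sp x hx c
  simpa using h2

/-- integration of the kernel over the cube -/
theorem q_cube (C : ℝ) (p : Par) (β θ : E → E → ℝ) (hMSY : Stmt_MSY) (hSys : Sys C p β θ)
    {w₁ w₂ w₃ : ℝ} {q : E → ℝ} (hq : Pk p.l w₁ w₂ w₃ q) (a y : E) :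
    ∫ x in Qb a (2 * p.l), q (x - y) ≤ w₁ * ic (Qb a (6 * p.l)) y := by
  have hl : 1 ≤ p.l := (hMSY C p β θ hSys).1
  have hQb := (hMSY C p β θ hSys).2.2.2.2.1
  by_cases hy : y ∈ Qb a (6 * p.l)
  · rw [ic_mem hy, mul_one]
    have h1 : Integrable (fun x => q (x - y)) := (q_int C p β θ hMSY hSys hq).comp_sub_right y
    calc ∫ x in Qb a (2 * p.l), q (x - y) ≤ ∫ x, q (x - y) :=
          setIntegral_le_integral h1 (Eventually.of_forall fun x => hq.nn _)
      _ = ∫ x, q x := integral_sub_right_eq_self q y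
      _ ≤ w₁ := hq.m1
  · rw [ic_not hy, mul_zero]
    refine le_of_eq ?_
    refine setIntegral_eq_zero_of_forall_eq_zero (fun x hx => ?_)
    by_contra hne
    refine hy (fun c => ?_)
    have h1 := hq.sp (x - y) hne c
    have h2 : |x c - a c| ≤ 2 * p.l := hx c
    have h3 : |x c - y c| ≤ p.l := by simpa using h1
    have h4 : |y c - a c| ≤ |x c - a c| + |x c - y c| := by
      have := abs_sub (x c - a c) (x c - y c)
      have e : (x c - a c) - (x c - y c) = y c - a c := by ring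
      rw [← e]
      exact this
    linarith

theorem sub_meas (k : ι) : Measurable (fun z : E × (ι → E) => z.1 - z.2 k) :=
  measurable_fst.sub ((measurable_pi_apply k).comp measurable_snd)

theorem fub (C : ℝ) (p : Par) (β θ : E → E → ℝ) (hMSY : Stmt_MSY) (hSys : Sys C p β θ)
    {w₁ w₂ w₃ : ℝ} {q : E → ℝ} (hq : Pk p.l w₁ w₂ w₃ q) (a : E) (S : Finset ι) (k : ι)
    (G : (ι → E) → ℝ) (hG : BM G) (hG0 : ∀ X, 0 ≤ G X) :
    IntegrableOn (fun x => IA p θ a S (fun X => q (x - X k) * G X)) (Qb a (2 * p.l)) ∧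
    ∫ x in Qb a (2 * p.l), IA p θ a S (fun X => q (x - X k) * G X) ≤
      w₁ * IA p θ a S (fun X => ic (Qb a (6 * p.l)) (X k) * G X) := by
  have hM := hMSY C p β θ hSys
  have hl : 1 ≤ p.l := hM.1
  have hQb := hM.2.2.2.2.1
  haveI : IsFiniteMeasure (mO p.L) := hM.2.1
  haveI : IsProbabilityMeasure (tm (θ a)) := hM.2.2.2.2.2.2.1 a
  haveI : IsFiniteMeasure (PiS (tm (θ a)) (mO p.L) S) := fin_PiS _ _ S
  haveI : IsFiniteMeasure (volume.restrict (Qb a (2 * p.l))) := by
    refine ⟨?_⟩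
    rw [Measure.restrict_apply_univ, (hQb a (2 * p.l)).2 (by linarith)]
    exact ENNReal.ofReal_lt_top
  have hqb : BM q := ⟨hq.meas, 1, fun x => by
    rw [abs_of_nonneg (hq.nn x)]; exact hq.le1 x⟩
  have hbm : BM (fun z : E × (ι → E) => q (z.1 - z.2 k) * G z.2) :=
    bm_mul (bm_comp hqb (sub_meas k)) (bm_comp hG measurable_snd)
  have hint := bm_int hbm ((volume.restrict (Qb a (2 * p.l))).prod (PiS (tm (θ a)) (mO p.L) S))
  refine ⟨hint.integral_prod_left, ?_⟩
  have hsw : ∫ x in Qb a (2 * p.l), IA p θ a S (fun X => q (x - X k) * G X) =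
      ∫ X, (∫ x in Qb a (2 * p.l), q (x - X k) * G X) ∂(PiS (tm (θ a)) (mO p.L) S) := by
    unfold IA
    exact integral_integral_swap hint
  rw [hsw]
  have h2 : w₁ * IA p θ a S (fun X => ic (Qb a (6 * p.l)) (X k) * G X) =
      ∫ X, w₁ * (ic (Qb a (6 * p.l)) (X k) * G X) ∂(PiS (tm (θ a)) (mO p.L) S) := by
    unfold IA
    rw [integral_const_mul]
  rw [h2]
  refine integral_mono hint.integral_prod_right ?_ (fun X => ?_)
  · exact (bm_int (bm_mul (bm_comp (ic_bm (hQb a (6 * p.l)).1) (measurable_pi_apply k)) hG)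
      _).const_mul w₁
  · show ∫ x in Qb a (2 * p.l), q (x - X k) * G X ≤ w₁ * (ic (Qb a (6 * p.l)) (X k) * G X)
    rw [integral_mul_const, ← mul_assoc]
    exact mul_le_mul_of_nonneg_right (q_cube C p β θ hMSY hSys hq a (X k)) (hG0 X)

theorem am_sq (hVTP : Stmt_VTP) (C : ℝ) (p : Par) (β θ : E → E → ℝ) (hSys : Sys C p β θ)
    (u : (ι → E) → ℝ) (a : E) (S : Finset ι) (X : ι → E) :
    Am p θ u a S X ^ 2 = vt p a S X * Av (tm (θ a)) S u X ^ 2 := by
  unfold Am
  rcases ((hVTP ι C p β θ hSys a S).2.2.1 X).1 with h | h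
  · rw [h]; ring
  · rw [h]; ring

/-- the estimate for two fixed further particles -/
theorem key (hMSY : Stmt_MSY) (hAVP : Stmt_AVP) (hAVC : Stmt_AVC) (hVTP : Stmt_VTP)
    (C CH : ℝ) (p : Par) (β θ : E → E → ℝ) (hSys : Sys C p β θ) (hCH : 0 < CH)
    (hH : ∀ a ∈ p.Gr, ∀ (S : Finset ι) (j : ι) (u w : (ι → E) → ℝ) (W : E → ℝ)
      (c₀ : E) (w₁ w₂ : ℝ), j ∉ S → CU u → BM w → (∀ X, 0 ≤ w X) → IndS {j} w → BM W →
      (∀ x, 0 ≤ W x) →
      (∀ x, W x ≠ 0 → x ∈ Qb a (3 * p.l)) → ∫ x, W x ≤ w₁ → (∀ x, W x * ‖x - c₀‖ ^ 2 ≤ w₂) →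
      IA p θ a S (fun X => vt p a S X * (w X * (W (X j) * Av (tm (θ a)) S u X ^ 2))) ≤
        CH * (w₁ / p.l ^ 3 * IA p θ a S (fun X => vt p a S X * (w X *
          (ic (Qb a (6 * p.l)) (X j) * Av (tm (θ a)) S u X ^ 2)))
        + w₂ * IA p θ a S (fun X => vt p a S X * (w X * (ic (Qb a (6 * p.l)) (X j) *
          ∑ c, di j c (Av (tm (θ a)) S u) X ^ 2))))
    ) (u : (ι → E) → ℝ) (hu : CU u)
    {w₁ w₂ w₃ : ℝ} {q : E → ℝ} (hq : Pk p.l w₁ w₂ w₃ q) (a : E) (ha : a ∈ p.Gr) (S : Finset ι)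
    (j k : ι) (hj : j ∉ S) (hjk : k ≠ j) :
    ∫ x in Qb a (2 * p.l), IA p θ a S (fun X => Am p θ u a S X ^ 2 *
        (q (x - X j) * q (x - X k))) ≤
      CH * (w₁ / p.l ^ 3 * (w₁ * IA p θ a S (fun X => ic (Qb a (6 * p.l)) (X k) *
          (vt p a S X * (ic (Qb a (6 * p.l)) (X j) * Av (tm (θ a)) S u X ^ 2))))
        + w₂ * (w₁ * IA p θ a S (fun X => ic (Qb a (6 * p.l)) (X k) *
          (vt p a S X * (ic (Qb a (6 * p.l)) (X j) *
            ∑ c, di j c (Av (tm (θ a)) S u) X ^ 2))))) := by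
  have hM := hMSY C p β θ hSys
  have hl : 1 ≤ p.l := hM.1
  have hQb := hM.2.2.2.2.1
  haveI : IsFiniteMeasure (mO p.L) := hM.2.1
  haveI : IsProbabilityMeasure (tm (θ a)) := hM.2.2.2.2.2.2.1 a
  haveI : IsFiniteMeasure (PiS (tm (θ a)) (mO p.L) S) := fin_PiS _ _ S
  haveI : IsFiniteMeasure (volume.restrict (Qb a (2 * p.l))) := by
    refine ⟨?_⟩
    rw [Measure.restrict_apply_univ, (hQb a (2 * p.l)).2 (by linarith)]
    exact ENNReal.ofReal_lt_top
  have hqb : BM q := ⟨hq.meas, 1, fun x => by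
    rw [abs_of_nonneg (hq.nn x)]; exact hq.le1 x⟩
  have hV := hVTP ι C p β θ hSys a S
  have hV0 : ∀ X, 0 ≤ vt p a S X := fun X => by
    rcases (hV.2.2.1 X).1 with h | h <;> rw [h] <;> norm_num
  have hC := hAVC ι (tm (θ a)) S u hu
  have hAv : BM (Av (tm (θ a)) S u) := (hAVP ι (tm (θ a)) S S u u hC.1 hC.1).1
  have hdi : ∀ c, BM (di j c (Av (tm (θ a)) S u)) := fun c => hC.2.2.2.2.1 j c
  have hic6 : ∀ i : ι, BM (fun X : ι → E => ic (Qb a (6 * p.l)) (X i)) := fun i =>
    bm_comp (ic_bm (hQb a (6 * p.l)).1) (measurable_pi_apply i)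
  have hG1 : BM (fun X => vt p a S X * (ic (Qb a (6 * p.l)) (X j) *
      Av (tm (θ a)) S u X ^ 2)) := bm_mul hV.1 (bm_mul (hic6 j) (bm_sq hAv))
  have hG2 : BM (fun X => vt p a S X * (ic (Qb a (6 * p.l)) (X j) *
      ∑ c, di j c (Av (tm (θ a)) S u) X ^ 2)) :=
    bm_mul hV.1 (bm_mul (hic6 j) (bm_sum Finset.univ (fun c _ => bm_sq (hdi c))))
  have hG10 : ∀ X, 0 ≤ vt p a S X * (ic (Qb a (6 * p.l)) (X j) *
      Av (tm (θ a)) S u X ^ 2) := fun X =>
    mul_nonneg (hV0 X) (mul_nonneg (ic_nn _ _) (sq_nonneg _))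
  have hG20 : ∀ X, 0 ≤ vt p a S X * (ic (Qb a (6 * p.l)) (X j) *
      ∑ c, di j c (Av (tm (θ a)) S u) X ^ 2) := fun X =>
    mul_nonneg (hV0 X) (mul_nonneg (ic_nn _ _) (Finset.sum_nonneg (fun _ _ => sq_nonneg _)))
  obtain ⟨i1, b1⟩ := fub C p β θ hMSY hSys hq a S k _ hG1 hG10
  obtain ⟨i2, b2⟩ := fub C p β θ hMSY hSys hq a S k _ hG2 hG20
  have hw1 : 0 ≤ w₁ := (integral_nonneg hq.nn).trans hq.m1
  have hw2 : 0 ≤ w₂ := by
    have := hq.m2 0
    simpa using this
  -- integrability of the left side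
  have hbm : BM (fun z : E × (ι → E) => Am p θ u a S z.2 ^ 2 *
      (q (z.1 - z.2 j) * q (z.1 - z.2 k))) := by
    have hAm : BM (fun X => Am p θ u a S X) := bm_mul hV.1 hAv
    exact bm_mul (bm_comp (bm_sq hAm) measurable_snd)
      (bm_mul (bm_comp hqb (sub_meas j)) (bm_comp hqb (sub_meas k)))
  have hint := bm_int hbm ((volume.restrict (Qb a (2 * p.l))).prod (PiS (tm (θ a)) (mO p.L) S))
  have i0 : IntegrableOn (fun x => IA p θ a S (fun X => Am p θ u a S X ^ 2 *
      (q (x - X j) * q (x - X k)))) (Qb a (2 * p.l)) := hint.integral_prod_left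
  -- pointwise bound
  have hpt : ∀ x ∈ Qb a (2 * p.l), IA p θ a S (fun X => Am p θ u a S X ^ 2 *
      (q (x - X j) * q (x - X k))) ≤
      CH * (w₁ / p.l ^ 3 * IA p θ a S (fun X => q (x - X k) * (vt p a S X *
          (ic (Qb a (6 * p.l)) (X j) * Av (tm (θ a)) S u X ^ 2)))
        + w₂ * IA p θ a S (fun X => q (x - X k) * (vt p a S X * (ic (Qb a (6 * p.l)) (X j) *
          ∑ c, di j c (Av (tm (θ a)) S u) X ^ 2)))) := by
    intro x hx
    have h1 := hH a ha S j u (fun X => q (x - X k)) (fun y => q (x - y)) x w₁ w₂ hj hu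
      (bm_comp hqb (measurable_const.sub (measurable_pi_apply k))) (fun X => hq.nn _)
      (by
        intro X Y hXY
        show q (x - X k) = q (x - Y k)
        rw [hXY k (by simpa using hjk)])
      (bm_comp hqb (measurable_const.sub measurable_id)) (fun y => hq.nn _)
      (by
        intro y hy c
        have h3 := hq.sp (x - y) hy c
        have h4 : |x c - y c| ≤ p.l := by simpa using h3
        have h5 : |x c - a c| ≤ 2 * p.l := hx c
        have h6 : |y c - a c| ≤ |x c - a c| + |x c - y c| := by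
          have := abs_sub (x c - a c) (x c - y c)
          have e : (x c - a c) - (x c - y c) = y c - a c := by ring
          rw [← e]
          exact this
        linarith)
      (by
        rw [integral_sub_left_eq_self q volume x]
        exact hq.m1)
      (by
        intro y
        rw [norm_sub_rev]
        exact hq.m2 (x - y))
    have e0 : (fun X => Am p θ u a S X ^ 2 * (q (x - X j) * q (x - X k))) =
        (fun X => vt p a S X * (q (x - X k) * (q (x - X j) * Av (tm (θ a)) S u X ^ 2))) := by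
      funext X
      rw [am_sq hVTP C p β θ hSys]
      ring
    have e1 : (fun X => vt p a S X * (q (x - X k) *
          (ic (Qb a (6 * p.l)) (X j) * Av (tm (θ a)) S u X ^ 2))) =
        (fun X => q (x - X k) * (vt p a S X *
          (ic (Qb a (6 * p.l)) (X j) * Av (tm (θ a)) S u X ^ 2))) := by
      funext X
      ring
    have e2 : (fun X => vt p a S X * (q (x - X k) *
          (ic (Qb a (6 * p.l)) (X j) * ∑ c, di j c (Av (tm (θ a)) S u) X ^ 2))) =
        (fun X => q (x - X k) * (vt p a S X *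
          (ic (Qb a (6 * p.l)) (X j) * ∑ c, di j c (Av (tm (θ a)) S u) X ^ 2))) := by
      funext X
      ring
    rw [e0]
    rw [e1, e2] at h1
    exact h1
  have hR1 : Integrable (fun x => CH * (w₁ / p.l ^ 3 * IA p θ a S (fun X => q (x - X k) *
        (vt p a S X * (ic (Qb a (6 * p.l)) (X j) * Av (tm (θ a)) S u X ^ 2)))
        + w₂ * IA p θ a S (fun X => q (x - X k) * (vt p a S X * (ic (Qb a (6 * p.l)) (X j) *
          ∑ c, di j c (Av (tm (θ a)) S u) X ^ 2))))) (volume.restrict (Qb a (2 * p.l))) :=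
    ((i1.const_mul (w₁ / p.l ^ 3)).add (i2.const_mul w₂)).const_mul CH
  calc ∫ x in Qb a (2 * p.l), IA p θ a S (fun X => Am p θ u a S X ^ 2 *
        (q (x - X j) * q (x - X k)))
      ≤ ∫ x in Qb a (2 * p.l), CH * (w₁ / p.l ^ 3 * IA p θ a S (fun X => q (x - X k) *
        (vt p a S X * (ic (Qb a (6 * p.l)) (X j) * Av (tm (θ a)) S u X ^ 2)))
        + w₂ * IA p θ a S (fun X => q (x - X k) * (vt p a S X * (ic (Qb a (6 * p.l)) (X j) *
          ∑ c, di j c (Av (tm (θ a)) S u) X ^ 2)))) :=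
        setIntegral_mono_on i0 hR1 (hQb a (2 * p.l)).1 hpt
    _ = CH * (w₁ / p.l ^ 3 * (∫ x in Qb a (2 * p.l), IA p θ a S (fun X => q (x - X k) *
        (vt p a S X * (ic (Qb a (6 * p.l)) (X j) * Av (tm (θ a)) S u X ^ 2))))
        + w₂ * (∫ x in Qb a (2 * p.l), IA p θ a S (fun X => q (x - X k) * (vt p a S X *
          (ic (Qb a (6 * p.l)) (X j) * ∑ c, di j c (Av (tm (θ a)) S u) X ^ 2))))) := by
        rw [integral_const_mul, integral_add (i1.const_mul (w₁ / p.l ^ 3)) (i2.const_mul w₂),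
          integral_const_mul, integral_const_mul]
    _ ≤ _ := by
        refine mul_le_mul_of_nonneg_left (add_le_add ?_ ?_) hCH.le
        · exact mul_le_mul_of_nonneg_left b1 (by positivity)
        · exact mul_le_mul_of_nonneg_left b2 hw2

/-- sums over pairs -/
theorem pair_sum (S : Finset ι) (f : ι → ι → ℝ) (hf : ∀ i j, 0 ≤ f i j) (T : Finset (Fin 2 → ι))
    (hT : ∀ j ∈ T, j 0 ∉ S ∧ j 1 ∉ S) :
    ∑ j ∈ T, f (j 0) (j 1) ≤ ∑ i ∈ Finset.univ \ S, ∑ k ∈ Finset.univ \ S, f i k := by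
  have hinj : Set.InjOn (fun j : Fin 2 → ι => (j 0, j 1)) T := by
    intro x _ y _ h
    have h1 := congrArg Prod.fst h
    have h2 := congrArg Prod.snd h
    funext s
    fin_cases s
    · exact h1
    · exact h2
  calc ∑ j ∈ T, f (j 0) (j 1)
      = ∑ z ∈ T.image (fun j : Fin 2 → ι => (j 0, j 1)), f z.1 z.2 :=
        (Finset.sum_image (f := fun z : ι × ι => f z.1 z.2) hinj).symm
    _ ≤ ∑ z ∈ (Finset.univ \ S) ×ˢ (Finset.univ \ S), f z.1 z.2 := by
        refine Finset.sum_le_sum_of_subset_of_nonneg ?_ (fun z _ _ => hf _ _)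
        intro z hz
        obtain ⟨j, hj, rfl⟩ := Finset.mem_image.mp hz
        have := hT j hj
        simp [this.1, this.2]
    _ = _ := Finset.sum_product _ _ _

end GS2_

open GS2_

/-- GS2 -/
theorem gs2_proof (_hBMC : Pool.Agent.TBL.Stmt_BMC) (hMSY : Stmt_MSY) (hAVP : Stmt_AVP)
    (hAVC : Stmt_AVC) (hVTP : Stmt_VTP) (hCLX : Stmt_CLX) (_hHSF : Stmt_HSF) (hHRN : Stmt_HRN) :
    Stmt_GS2 := by
  intro C m
  obtain ⟨CH, hCH, hH⟩ := hHRN C
  refine ⟨CH, hCH, ?_⟩
  intro ι _ _ p β θ u κ w₁ w₂ w₃ K q hSys hu hK hq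
  have hM := hMSY C p β θ hSys
  have hl : 1 ≤ p.l := hM.1
  have hQb := hM.2.2.2.2.1
  have hM4 : 4 ≤ p.M := hSys.hM
  haveI : IsFiniteMeasure (mO p.L) := hM.2.1
  have hqb : BM q := ⟨hq.meas, 1, fun x => by
    rw [abs_of_nonneg (hq.nn x)]; exact hq.le1 x⟩
  have hw1 : 0 ≤ w₁ := (integral_nonneg hq.nn).trans hq.m1
  have hw2 : 0 ≤ w₂ := by
    have := hq.m2 0
    simpa using this
  have hκ : 0 ≤ κ := (integral_nonneg (fun z => hK.nn _)).trans (hK.mass 0)
  -- bounded measurable amplitudes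
  have hAmb : ∀ (a : E) (S : Finset ι), BM (fun X => Am p θ u a S X) := by
    intro a S
    haveI : IsProbabilityMeasure (tm (θ a)) := hM.2.2.2.2.2.2.1 a
    exact bm_mul (hVTP ι C p β θ hSys a S).1
      (hAVP ι (tm (θ a)) S S u u (hAVC ι (tm (θ a)) S u hu).1 (hAVC ι (tm (θ a)) S u hu).1).1
  have hprod : ∀ (e : Fin (m + 1) → ι) (j : Fin 2 → ι) (X : ι → E),
      ∏ s, q (X (e 0) - X (j s)) = q (X (e 0) - X (j 0)) * q (X (e 0) - X (j 1)) := by
    intro e j X
    rw [Fin.prod_univ_two]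
  have hh0 : ∀ (S : Finset ι) (X : ι → E), 0 ≤ hh2 p θ u S X := by
    intro S X
    exact Finset.sum_nonneg (fun a _ => mul_nonneg (ic_nn _ _) (sq_nonneg _))
  have hIO0 : ∀ (e : Fin (m + 1) → ι) (j : Fin 2 → ι),
      0 ≤ IO p (fun X => hh2 p θ u (im e) X * (K (X ∘ e) * ∏ s, q (X (e 0) - X (j s)))) := by
    intro e j
    refine integral_nonneg (fun X => ?_)
    exact mul_nonneg (hh0 _ _) (mul_nonneg (hK.nn _) (Finset.prod_nonneg (fun _ _ => hq.nn _)))
  refine ⟨Finset.sum_nonneg (fun e _ => Finset.sum_nonneg (fun j _ => hIO0 e j)), ?_⟩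
  -- the constants
  -- the bound for fixed `e`, `j`
  have hej : ∀ e ∈ Ij (m + 1) ι, ∀ j ∈ (Ij 2 ι).filter (fun j => Disjoint (im j) (im e)),
      IO p (fun X => hh2 p θ u (im e) X * (K (X ∘ e) * ∏ s, q (X (e 0) - X (j s)))) ≤
      κ * ∑ a ∈ p.Gr, CH * (w₁ / p.l ^ 3 * (w₁ * IA p θ a (im e) (fun X =>
          ic (Qb a (6 * p.l)) (X (j 1)) *
          (vt p a (im e) X * (ic (Qb a (6 * p.l)) (X (j 0)) * Av (tm (θ a)) (im e) u X ^ 2))))
        + w₂ * (w₁ * IA p θ a (im e) (fun X => ic (Qb a (6 * p.l)) (X (j 1)) *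
          (vt p a (im e) X * (ic (Qb a (6 * p.l)) (X (j 0)) *
            ∑ c, di (j 0) c (Av (tm (θ a)) (im e) u) X ^ 2))))) := by
    intro e he j hj
    obtain ⟨hj1, hj2⟩ := Finset.mem_filter.mp hj
    have hinj : Function.Injective j := (Finset.mem_filter.mp hj1).2
    have hjS : ∀ s, j s ∉ im e := by
      intro s hs
      exact (Finset.disjoint_left.mp hj2) (Finset.mem_image_of_mem j (Finset.mem_univ s)) hs
    have hne : j 1 ≠ j 0 := fun h => by
      have := hinj h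
      exact absurd this (by decide)
    -- split the sum over `a`
    have hbmt : ∀ a : E, BM (fun X : ι → E => ic (Qb a p.l) (cen (im e) X) *
        (K (X ∘ e) * (Am p θ u a (im e) X ^ 2 *
          (q (X (e 0) - X (j 0)) * q (X (e 0) - X (j 1)))))) := by
      intro a
      have hc : Measurable (fun X : ι → E => cen (im e) X) := by
        unfold cen
        have hs : Measurable (fun X : ι → E => ∑ i ∈ im e, X i) :=
          Finset.measurable_sum (im e) (fun i _ => measurable_pi_apply i)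
        exact hs.const_smul (((im e).card : ℝ)⁻¹)
      have hKm : Measurable (fun X : ι → E => X ∘ e) :=
        measurable_pi_lambda _ (fun s => measurable_pi_apply (e s))
      have hd : ∀ s : Fin 2, Measurable (fun X : ι → E => X (e 0) - X (j s)) := fun s =>
        (measurable_pi_apply (e 0)).sub (measurable_pi_apply (j s))
      exact bm_mul (bm_comp (ic_bm (hQb a p.l).1) hc) (bm_mul (bm_comp hK.bm hKm)
        (bm_mul (bm_sq (hAmb a (im e))) (bm_mul (bm_comp hqb (hd 0)) (bm_comp hqb (hd 1)))))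
    haveI : IsFiniteMeasure (PiS (mO p.L) (mO p.L) (∅ : Finset ι)) := fin_PiS _ _ _
    have e1 : IO p (fun X => hh2 p θ u (im e) X * (K (X ∘ e) * ∏ s, q (X (e 0) - X (j s)))) =
        ∑ a ∈ p.Gr, IO p (fun X : ι → E => ic (Qb a p.l) (cen (im e) X) *
        (K (X ∘ e) * (Am p θ u a (im e) X ^ 2 *
          (q (X (e 0) - X (j 0)) * q (X (e 0) - X (j 1)))))) := by
      unfold IO
      rw [← integral_finset_sum _ (fun a _ => bm_int (hbmt a) _)]
      refine integral_congr_ae (Eventually.of_forall fun X => ?_)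
      show hh2 p θ u (im e) X * (K (X ∘ e) * ∏ s, q (X (e 0) - X (j s))) = _
      rw [hprod]
      unfold hh2
      rw [Finset.sum_mul]
      refine Finset.sum_congr rfl (fun a _ => ?_)
      ring
    rw [e1, Finset.mul_sum]
    refine Finset.sum_le_sum (fun a ha => ?_)
    haveI : IsProbabilityMeasure (tm (θ a)) := hM.2.2.2.2.2.2.1 a
    have hbmF : BM (fun z : E × (ι → E) => Am p θ u a (im e) z.2 ^ 2 *
        (q (z.1 - z.2 (j 0)) * q (z.1 - z.2 (j 1)))) :=
      bm_mul (bm_comp (bm_sq (hAmb a (im e))) measurable_snd)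
        (bm_mul (bm_comp hqb (sub_meas (j 0))) (bm_comp hqb (sub_meas (j 1))))
    have h1 := hCLX C m ι p β θ κ K (fun x X => Am p θ u a (im e) X ^ 2 *
        (q (x - X (j 0)) * q (x - X (j 1)))) hSys hK hbmF
      (fun x X => mul_nonneg (sq_nonneg _) (mul_nonneg (hq.nn _) (hq.nn _))) a ha e he
      (by
        intro x X Y hXY
        have i1 : Am p θ u a (im e) X = Am p θ u a (im e) Y := by
          unfold Am
          rw [(hVTP ι C p β θ hSys a (im e)).2.1 X Y hXY]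
          have hC := (hAVC ι (tm (θ a)) (im e) u hu).1
          rw [(hAVP ι (tm (θ a)) (im e) (im e) u u hC hC).2.1 X Y hXY]
        show Am p θ u a (im e) X ^ 2 * (q (x - X (j 0)) * q (x - X (j 1))) =
          Am p θ u a (im e) Y ^ 2 * (q (x - Y (j 0)) * q (x - Y (j 1)))
        rw [i1, hXY (j 0) (hjS 0), hXY (j 1) (hjS 1)])
    refine h1.trans (mul_le_mul_of_nonneg_left ?_ hκ)
    exact key hMSY hAVP hAVC hVTP C CH p β θ hSys hCH (hH ι p β θ hSys) u hu hq a ha (im e)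
      (j 0) (j 1) (hjS 0) hne
  -- the sum over `j`
  have hsum : ∀ (S : Finset ι) (T : Finset (Fin 2 → ι)), (∀ j ∈ T, j 0 ∉ S ∧ j 1 ∉ S) →
      ∀ a : E,
      ∑ j ∈ T, IA p θ a S (fun X => ic (Qb a (6 * p.l)) (X (j 1)) *
          (vt p a S X * (ic (Qb a (6 * p.l)) (X (j 0)) * Av (tm (θ a)) S u X ^ 2))) ≤
        p.M ^ 2 * IA p θ a S (fun X => Am p θ u a S X ^ 2) ∧
      ∑ j ∈ T, IA p θ a S (fun X => ic (Qb a (6 * p.l)) (X (j 1)) *
          (vt p a S X * (ic (Qb a (6 * p.l)) (X (j 0)) *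
            ∑ c, di (j 0) c (Av (tm (θ a)) S u) X ^ 2))) ≤
        p.M * IA p θ a S (fun X => vt p a S X *
          ∑ j ∈ Finset.univ \ S, ic (Qb a (6 * p.l)) (X j) *
            ∑ c, di j c (Av (tm (θ a)) S u) X ^ 2) := by
    intro S T hT a
    haveI : IsProbabilityMeasure (tm (θ a)) := hM.2.2.2.2.2.2.1 a
    haveI : IsFiniteMeasure (PiS (tm (θ a)) (mO p.L) S) := fin_PiS _ _ S
    have hV := hVTP ι C p β θ hSys a S
    have hV0 : ∀ X, 0 ≤ vt p a S X := fun X => by
      rcases (hV.2.2.1 X).1 with h | h <;> rw [h] <;> norm_num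
    have hVM : ∀ X, vt p a S X * ∑ k ∈ Finset.univ \ S, ic (Qb a (6 * p.l)) (X k) ≤
        p.M * vt p a S X := fun X => (hV.2.2.1 X).2.2 (6 * p.l) (by linarith)
    have hC := hAVC ι (tm (θ a)) S u hu
    have hAv : BM (Av (tm (θ a)) S u) := (hAVP ι (tm (θ a)) S S u u hC.1 hC.1).1
    have hdi : ∀ (i : ι) (c : Fin 3), BM (di i c (Av (tm (θ a)) S u)) := fun i c =>
      hC.2.2.2.2.1 i c
    have hic6 : ∀ i : ι, BM (fun X : ι → E => ic (Qb a (6 * p.l)) (X i)) := fun i =>
      bm_comp (ic_bm (hQb a (6 * p.l)).1) (measurable_pi_apply i)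
    constructor
    · have hb : ∀ i k : ι, BM (fun X : ι → E => ic (Qb a (6 * p.l)) (X k) *
          (vt p a S X * (ic (Qb a (6 * p.l)) (X i) * Av (tm (θ a)) S u X ^ 2))) := fun i k =>
        bm_mul (hic6 k) (bm_mul hV.1 (bm_mul (hic6 i) (bm_sq hAv)))
      have h1 := pair_sum S (fun i k => IA p θ a S (fun X => ic (Qb a (6 * p.l)) (X k) *
          (vt p a S X * (ic (Qb a (6 * p.l)) (X i) * Av (tm (θ a)) S u X ^ 2))))
        (fun i k => integral_nonneg (fun X => mul_nonneg (ic_nn _ _)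
          (mul_nonneg (hV0 X) (mul_nonneg (ic_nn _ _) (sq_nonneg _))))) T hT
      refine h1.trans ?_
      have h2 : ∑ i ∈ Finset.univ \ S, ∑ k ∈ Finset.univ \ S,
          IA p θ a S (fun X => ic (Qb a (6 * p.l)) (X k) *
          (vt p a S X * (ic (Qb a (6 * p.l)) (X i) * Av (tm (θ a)) S u X ^ 2))) =
          IA p θ a S (fun X => ∑ i ∈ Finset.univ \ S, ∑ k ∈ Finset.univ \ S,
            ic (Qb a (6 * p.l)) (X k) *
          (vt p a S X * (ic (Qb a (6 * p.l)) (X i) * Av (tm (θ a)) S u X ^ 2))) := by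
        unfold IA
        rw [integral_finset_sum _ (fun i _ => integrable_finset_sum _
          (fun k _ => bm_int (hb i k) _))]
        refine Finset.sum_congr rfl (fun i _ => ?_)
        rw [integral_finset_sum _ (fun k _ => bm_int (hb i k) _)]
      rw [h2]
      unfold IA
      rw [← integral_const_mul]
      refine integral_mono (integrable_finset_sum _ (fun i _ => integrable_finset_sum _
          (fun k _ => bm_int (hb i k) _)))
        ((bm_int (bm_sq (hAmb a S)) _).const_mul _) (fun X => ?_)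
      show ∑ i ∈ Finset.univ \ S, ∑ k ∈ Finset.univ \ S, ic (Qb a (6 * p.l)) (X k) *
          (vt p a S X * (ic (Qb a (6 * p.l)) (X i) * Av (tm (θ a)) S u X ^ 2)) ≤
        p.M ^ 2 * Am p θ u a S X ^ 2
      rw [am_sq hVTP C p β θ hSys]
      have h3 : ∑ i ∈ Finset.univ \ S, ∑ k ∈ Finset.univ \ S, ic (Qb a (6 * p.l)) (X k) *
          (vt p a S X * (ic (Qb a (6 * p.l)) (X i) * Av (tm (θ a)) S u X ^ 2)) =
          (∑ i ∈ Finset.univ \ S, ic (Qb a (6 * p.l)) (X i)) *
          ((vt p a S X * ∑ k ∈ Finset.univ \ S, ic (Qb a (6 * p.l)) (X k)) *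
            Av (tm (θ a)) S u X ^ 2) := by
        rw [Finset.sum_mul]
        refine Finset.sum_congr rfl (fun i _ => ?_)
        rw [Finset.mul_sum, Finset.sum_mul, Finset.mul_sum]
        refine Finset.sum_congr rfl (fun k _ => ?_)
        ring
      rw [h3]
      have hS0 : 0 ≤ ∑ i ∈ Finset.univ \ S, ic (Qb a (6 * p.l)) (X i) :=
        Finset.sum_nonneg (fun _ _ => ic_nn _ _)
      have hA0 : 0 ≤ Av (tm (θ a)) S u X ^ 2 := sq_nonneg _
      calc (∑ i ∈ Finset.univ \ S, ic (Qb a (6 * p.l)) (X i)) *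
          ((vt p a S X * ∑ k ∈ Finset.univ \ S, ic (Qb a (6 * p.l)) (X k)) *
            Av (tm (θ a)) S u X ^ 2)
          ≤ (∑ i ∈ Finset.univ \ S, ic (Qb a (6 * p.l)) (X i)) *
          ((p.M * vt p a S X) * Av (tm (θ a)) S u X ^ 2) :=
            mul_le_mul_of_nonneg_left (mul_le_mul_of_nonneg_right (hVM X) hA0) hS0
        _ = p.M * ((vt p a S X * ∑ i ∈ Finset.univ \ S, ic (Qb a (6 * p.l)) (X i)) *
            Av (tm (θ a)) S u X ^ 2) := by ring
        _ ≤ p.M * ((p.M * vt p a S X) * Av (tm (θ a)) S u X ^ 2) :=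
            mul_le_mul_of_nonneg_left (mul_le_mul_of_nonneg_right (hVM X) hA0) (by linarith)
        _ = p.M ^ 2 * (vt p a S X * Av (tm (θ a)) S u X ^ 2) := by ring
    · have hb : ∀ i k : ι, BM (fun X : ι → E => ic (Qb a (6 * p.l)) (X k) *
          (vt p a S X * (ic (Qb a (6 * p.l)) (X i) *
            ∑ c, di i c (Av (tm (θ a)) S u) X ^ 2))) := fun i k =>
        bm_mul (hic6 k) (bm_mul hV.1 (bm_mul (hic6 i)
          (bm_sum Finset.univ (fun c _ => bm_sq (hdi i c)))))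
      have hD0 : ∀ (i : ι) (X : ι → E), 0 ≤ ∑ c, di i c (Av (tm (θ a)) S u) X ^ 2 := fun i X =>
        Finset.sum_nonneg (fun _ _ => sq_nonneg _)
      have h1 := pair_sum S (fun i k => IA p θ a S (fun X => ic (Qb a (6 * p.l)) (X k) *
          (vt p a S X * (ic (Qb a (6 * p.l)) (X i) *
            ∑ c, di i c (Av (tm (θ a)) S u) X ^ 2))))
        (fun i k => integral_nonneg (fun X => mul_nonneg (ic_nn _ _)
          (mul_nonneg (hV0 X) (mul_nonneg (ic_nn _ _) (hD0 i X))))) T hT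
      refine h1.trans ?_
      have h2 : ∑ i ∈ Finset.univ \ S, ∑ k ∈ Finset.univ \ S,
          IA p θ a S (fun X => ic (Qb a (6 * p.l)) (X k) *
          (vt p a S X * (ic (Qb a (6 * p.l)) (X i) *
            ∑ c, di i c (Av (tm (θ a)) S u) X ^ 2))) =
          IA p θ a S (fun X => ∑ i ∈ Finset.univ \ S, ∑ k ∈ Finset.univ \ S,
            ic (Qb a (6 * p.l)) (X k) *
          (vt p a S X * (ic (Qb a (6 * p.l)) (X i) *
            ∑ c, di i c (Av (tm (θ a)) S u) X ^ 2))) := by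
        unfold IA
        rw [integral_finset_sum _ (fun i _ => integrable_finset_sum _
          (fun k _ => bm_int (hb i k) _))]
        refine Finset.sum_congr rfl (fun i _ => ?_)
        rw [integral_finset_sum _ (fun k _ => bm_int (hb i k) _)]
      rw [h2]
      have hbR : BM (fun X : ι → E => vt p a S X *
          ∑ j ∈ Finset.univ \ S, ic (Qb a (6 * p.l)) (X j) *
            ∑ c, di j c (Av (tm (θ a)) S u) X ^ 2) :=
        bm_mul hV.1 (bm_sum _ (fun i _ => bm_mul (hic6 i)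
          (bm_sum Finset.univ (fun c _ => bm_sq (hdi i c)))))
      unfold IA
      rw [← integral_const_mul]
      refine integral_mono (integrable_finset_sum _ (fun i _ => integrable_finset_sum _
          (fun k _ => bm_int (hb i k) _)))
        ((bm_int hbR _).const_mul _) (fun X => ?_)
      show ∑ i ∈ Finset.univ \ S, ∑ k ∈ Finset.univ \ S, ic (Qb a (6 * p.l)) (X k) *
          (vt p a S X * (ic (Qb a (6 * p.l)) (X i) *
            ∑ c, di i c (Av (tm (θ a)) S u) X ^ 2)) ≤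
        p.M * (vt p a S X * ∑ j ∈ Finset.univ \ S, ic (Qb a (6 * p.l)) (X j) *
            ∑ c, di j c (Av (tm (θ a)) S u) X ^ 2)
      have h3 : ∑ i ∈ Finset.univ \ S, ∑ k ∈ Finset.univ \ S, ic (Qb a (6 * p.l)) (X k) *
          (vt p a S X * (ic (Qb a (6 * p.l)) (X i) *
            ∑ c, di i c (Av (tm (θ a)) S u) X ^ 2)) =
          (vt p a S X * ∑ k ∈ Finset.univ \ S, ic (Qb a (6 * p.l)) (X k)) *
          (∑ i ∈ Finset.univ \ S, ic (Qb a (6 * p.l)) (X i) *
            ∑ c, di i c (Av (tm (θ a)) S u) X ^ 2) := by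
        rw [Finset.mul_sum]
        refine Finset.sum_congr rfl (fun i _ => ?_)
        generalize (∑ c, di i c (Av (tm (θ a)) S u) X ^ 2) = Z
        rw [Finset.mul_sum, Finset.sum_mul]
        refine Finset.sum_congr rfl (fun k _ => ?_)
        ring
      rw [h3]
      have hS0 : 0 ≤ ∑ i ∈ Finset.univ \ S, ic (Qb a (6 * p.l)) (X i) *
            ∑ c, di i c (Av (tm (θ a)) S u) X ^ 2 :=
        Finset.sum_nonneg (fun i _ => mul_nonneg (ic_nn _ _) (hD0 i X))
      calc (vt p a S X * ∑ k ∈ Finset.univ \ S, ic (Qb a (6 * p.l)) (X k)) *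
          (∑ i ∈ Finset.univ \ S, ic (Qb a (6 * p.l)) (X i) *
            ∑ c, di i c (Av (tm (θ a)) S u) X ^ 2)
          ≤ (p.M * vt p a S X) * (∑ i ∈ Finset.univ \ S, ic (Qb a (6 * p.l)) (X i) *
            ∑ c, di i c (Av (tm (θ a)) S u) X ^ 2) :=
            mul_le_mul_of_nonneg_right (hVM X) hS0
        _ = _ := by ring
  -- the sum over `j` and `a` for fixed `e`
  have he : ∀ e ∈ Ij (m + 1) ι,
      ∑ j ∈ (Ij 2 ι).filter (fun j => Disjoint (im j) (im e)),
        IO p (fun X => hh2 p θ u (im e) X * (K (X ∘ e) * ∏ s, q (X (e 0) - X (j s)))) ≤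
      κ * ∑ a ∈ p.Gr, CH * (w₁ / p.l ^ 3 * (w₁ * (p.M ^ 2 *
          IA p θ a (im e) (fun X => Am p θ u a (im e) X ^ 2)))
        + w₂ * (w₁ * (p.M * IA p θ a (im e) (fun X => vt p a (im e) X *
          ∑ j ∈ Finset.univ \ im e, ic (Qb a (6 * p.l)) (X j) *
            ∑ c, di j c (Av (tm (θ a)) (im e) u) X ^ 2)))) := by
    intro e he
    refine (Finset.sum_le_sum (fun j hj => hej e he j hj)).trans ?_
    rw [← Finset.mul_sum, Finset.sum_comm]
    refine mul_le_mul_of_nonneg_left (Finset.sum_le_sum (fun a ha => ?_)) hκ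
    have hT : ∀ j ∈ (Ij 2 ι).filter (fun j => Disjoint (im j) (im e)),
        j 0 ∉ im e ∧ j 1 ∉ im e := by
      intro j hj
      have hj2 := (Finset.mem_filter.mp hj).2
      exact ⟨fun hs => (Finset.disjoint_left.mp hj2)
          (Finset.mem_image_of_mem j (Finset.mem_univ 0)) hs,
        fun hs => (Finset.disjoint_left.mp hj2)
          (Finset.mem_image_of_mem j (Finset.mem_univ 1)) hs⟩
    obtain ⟨s1, s2⟩ := hsum (im e) _ hT a
    rw [← Finset.mul_sum, Finset.sum_add_distrib, ← Finset.mul_sum, ← Finset.mul_sum,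
      ← Finset.mul_sum, ← Finset.mul_sum]
    refine mul_le_mul_of_nonneg_left (add_le_add ?_ ?_) hCH.le
    · exact mul_le_mul_of_nonneg_left (mul_le_mul_of_nonneg_left s1 hw1) (by positivity)
    · exact mul_le_mul_of_nonneg_left (mul_le_mul_of_nonneg_left s2 hw1) hw2
  have hl3 : (0 : ℝ) < p.l ^ 3 := by positivity
  calc GS p θ u m 2 K q
      ≤ ∑ e ∈ Ij (m + 1) ι, κ * ∑ a ∈ p.Gr, CH * (w₁ / p.l ^ 3 * (w₁ * (p.M ^ 2 *
          IA p θ a (im e) (fun X => Am p θ u a (im e) X ^ 2)))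
        + w₂ * (w₁ * (p.M * IA p θ a (im e) (fun X => vt p a (im e) X *
          ∑ j ∈ Finset.univ \ im e, ic (Qb a (6 * p.l)) (X j) *
            ∑ c, di j c (Av (tm (θ a)) (im e) u) X ^ 2)))) := Finset.sum_le_sum he
    _ = CH * κ * ((w₁ * (p.M / p.l ^ 3)) ^ 2 * AA p θ u (m + 1)
        + w₁ * w₂ * (p.M / p.l ^ 3) * GG p θ u (m + 1)) := by
        unfold AA GG
        rw [← Finset.mul_sum, Finset.sum_comm]
        have e3 : ∀ x y : ℝ, CH * κ * ((w₁ * (p.M / p.l ^ 3)) ^ 2 * (p.l ^ 3 * x)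
            + w₁ * w₂ * (p.M / p.l ^ 3) * (p.l ^ 3 * y)) =
            κ * (CH * (w₁ / p.l ^ 3 * (w₁ * (p.M ^ 2 * x)) + w₂ * (w₁ * (p.M * y)))) := by
          intro x y
          field_simp
        rw [e3]
        congr 1
        simp only [Finset.mul_sum, ← Finset.sum_add_distrib]

end Pool.Agent.TBS
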