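import Pool.Agent.TBS.StmtsA

/-!
# Three-body Bose gases, sharp lower bound, module GS3: clusters with three further particles
-/

set_option autoImplicit false

open MeasureTheory Filter Topology
open scoped ContDiff

namespace Pool.Agent.TBS

open Pool.Agent.TBG Pool.Agent.TBL Pool.Agent.TBF

namespace GS3_

lemma ic_nn (Q : Set E) (x : E) : 0 ≤ ic Q x := by
  unfold ic
  by_cases h : x ∈ Q <;> simp [h]

lemma ic_le (Q : Set E) (x : E) : ic Q x ≤ 1 := by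
  unfold ic
  by_cases h : x ∈ Q <;> simp [h]

lemma ic_in {Q : Set E} {x : E} (h : x ∈ Q) : ic Q x = 1 := by
  unfold ic
  simp [h]

lemma ic_bm {Q : Set E} (hQ : MeasurableSet Q) : BM (ic Q) := by
  refine ⟨measurable_const.indicator hQ, 1, fun x => ?_⟩
  rw [abs_of_nonneg (ic_nn Q x)]
  exact ic_le Q x

section bm

variable {α : Type} [MeasurableSpace α]

lemma bmul {F G : α → ℝ} (hF : BM F) (hG : BM G) : BM (fun X => F X * G X) := by
  obtain ⟨hm, A, hA⟩ := hF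
  obtain ⟨hm', B, hB⟩ := hG
  refine ⟨hm.mul hm', A * B, fun X => ?_⟩
  rw [abs_mul]
  exact mul_le_mul (hA X) (hB X) (abs_nonneg _) (le_trans (abs_nonneg _) (hA X))

lemma bsq {F : α → ℝ} (hF : BM F) : BM (fun X => F X ^ 2) := by
  have := bmul hF hF
  simpa only [sq] using this

lemma bsum {J : Type} (s : Finset J) {F : J → α → ℝ} (h : ∀ i ∈ s, BM (F i)) :
    BM (fun X => ∑ i ∈ s, F i X) := by
  classical
  induction s using Finset.induction_on with
  | empty => exact ⟨by simp, 0, by simp⟩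
  | insert i s hi ih =>
    have h1 := h i (Finset.mem_insert_self i s)
    have h2 := ih (fun j hj => h j (Finset.mem_insert_of_mem hj))
    obtain ⟨m1, A, hA⟩ := h1
    obtain ⟨m2, B, hB⟩ := h2
    simp only [Finset.sum_insert hi]
    exact ⟨m1.add m2, A + B, fun X => (abs_add_le _ _).trans (add_le_add (hA X) (hB X))⟩

lemma bcomp {β : Type} [MeasurableSpace β] {F : α → ℝ} (hF : BM F) {f : β → α} (hf : Measurable f) :
    BM (fun X => F (f X)) := by
  obtain ⟨m1, A, hA⟩ := hF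
  exact ⟨m1.comp hf, A, fun X => hA (f X)⟩

lemma bint {F : α → ℝ} (hF : BM F) (μ : Measure α) [IsFiniteMeasure μ] : Integrable F μ := by
  obtain ⟨m1, A, hA⟩ := hF
  exact Integrable.of_bound m1.aestronglyMeasurable A (Eventually.of_forall fun x => hA x)

end bm

lemma dmono {β : Type} [MeasurableSpace β] (Q : Set E) (hQ : MeasurableSet Q)
    (hfin : IsFiniteMeasure ((volume : Measure E).restrict Q)) (ρ : Measure β) [IsFiniteMeasure ρ]
    (F G : E → β → ℝ) (hF : BM (fun z : E × β => F z.1 z.2)) (hG : BM (fun z : E × β => G z.1 z.2))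
    (h : ∀ x ∈ Q, ∫ X, F x X ∂ρ ≤ ∫ X, G x X ∂ρ) :
    ∫ x in Q, ∫ X, F x X ∂ρ ≤ ∫ x in Q, ∫ X, G x X ∂ρ := by
  have i1 : Integrable (fun z : E × β => F z.1 z.2) (((volume : Measure E).restrict Q).prod ρ) :=
    bint hF _
  have i2 : Integrable (fun z : E × β => G z.1 z.2) (((volume : Measure E).restrict Q).prod ρ) :=
    bint hG _
  exact setIntegral_mono_on i1.integral_prod_left i2.integral_prod_left hQ h

lemma dlin {β : Type} [MeasurableSpace β] (Q : Set E)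
    (hfin : IsFiniteMeasure ((volume : Measure E).restrict Q)) (ρ : Measure β) [IsFiniteMeasure ρ]
    (c d : ℝ) (F G : E → β → ℝ) (hF : BM (fun z : E × β => F z.1 z.2))
    (hG : BM (fun z : E × β => G z.1 z.2)) :
    ∫ x in Q, (c * ∫ X, F x X ∂ρ + d * ∫ X, G x X ∂ρ) =
      c * (∫ x in Q, ∫ X, F x X ∂ρ) + d * ∫ x in Q, ∫ X, G x X ∂ρ := by
  have i1 : Integrable (fun z : E × β => F z.1 z.2) (((volume : Measure E).restrict Q).prod ρ) :=
    bint hF _
  have i2 : Integrable (fun z : E × β => G z.1 z.2) (((volume : Measure E).restrict Q).prod ρ) :=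
    bint hG _
  rw [integral_add (i1.integral_prod_left.const_mul c) (i2.integral_prod_left.const_mul d),
    integral_const_mul, integral_const_mul]

lemma dswap {β : Type} [MeasurableSpace β] (Q : Set E)
    (hfin : IsFiniteMeasure ((volume : Measure E).restrict Q)) (ρ : Measure β) [IsFiniteMeasure ρ]
    (F : E → β → ℝ) (H : β → ℝ) (hF : BM (fun z : E × β => F z.1 z.2)) (hH : BM H)
    (h : ∀ X, ∫ x in Q, F x X ≤ H X) :
    ∫ x in Q, ∫ X, F x X ∂ρ ≤ ∫ X, H X ∂ρ := by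
  have i1 : Integrable (fun z : E × β => F z.1 z.2) (((volume : Measure E).restrict Q).prod ρ) :=
    bint hF _
  rw [integral_integral_swap i1]
  exact integral_mono i1.integral_prod_right (bint hH _) h

lemma qint {l w₁ w₂ w₃ : ℝ} {q : E → ℝ} (hq : Pk l w₁ w₂ w₃ q) (hv : volume (Qb (0 : E) l) < ⊤) :
    Integrable q ∧ Integrable (fun x => q x ^ 2) := by
  have hs : ∀ f : E → ℝ, Measurable f → (∀ x, |f x| ≤ 1) → (∀ x, f x ≠ 0 → q x ≠ 0) →
      Integrable f := by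
    intro f hf hb hz
    have h1 : IntegrableOn f (Qb (0 : E) l) := by
      have : IsFiniteMeasure ((volume : Measure E).restrict (Qb (0 : E) l)) := ⟨by simpa using hv⟩
      exact Integrable.of_bound hf.aestronglyMeasurable 1 (Eventually.of_forall fun x => hb x)
    refine (integrableOn_iff_integrable_of_support_subset ?_).1 h1
    intro x hx c
    have := hq.sp x (hz x hx) c
    simpa using this
  have hb : ∀ x, |q x| ≤ 1 := fun x => by
    rw [abs_of_nonneg (hq.nn x)]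
    exact hq.le1 x
  refine ⟨hs q hq.meas hb (fun x h => h), hs _ (hq.meas.pow_const 2) (fun x => ?_) (fun x h h0 => ?_)⟩
  · rw [abs_pow]
    exact pow_le_one₀ (abs_nonneg _) (hb x)
  · exact h (by simp [h0])

lemma qsub {l w₁ w₂ w₃ : ℝ} {q : E → ℝ} (hq : Pk l w₁ w₂ w₃ q) (a : E) (x y : E)
    (hx : x ∈ Qb a (2 * l)) (h : q (x - y) ≠ 0) : y ∈ Qb a (3 * l) := by
  intro c
  have h1 := hq.sp _ h c
  have h2 := hx c
  have h3 : y c - a c = (x c - a c) - (x - y) c := by simp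
  rw [h3]
  refine (abs_sub _ _).trans ?_
  linarith

lemma qone {l w₁ w₂ w₃ : ℝ} {q : E → ℝ} (hq : Pk l w₁ w₂ w₃ q) (hl : 0 < l)
    (hv : volume (Qb (0 : E) l) < ⊤) (a : E) (y : E) :
    ∫ x in Qb a (2 * l), q (x - y) ≤ w₁ * ic (Qb a (6 * l)) y := by
  obtain ⟨hi, -⟩ := qint hq hv
  have hw : 0 ≤ w₁ := le_trans (integral_nonneg hq.nn) hq.m1
  by_cases hy : y ∈ Qb a (3 * l)
  · have hy' : y ∈ Qb a (6 * l) := fun c => (hy c).trans (by linarith)
    rw [ic_in hy', mul_one]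
    have hi' : Integrable (fun x => q (x - y)) := hi.comp_sub_right y
    calc ∫ x in Qb a (2 * l), q (x - y) ≤ ∫ x, q (x - y) :=
          setIntegral_le_integral hi' (Eventually.of_forall fun x => hq.nn _)
      _ = ∫ x, q x := integral_sub_right_eq_self q y
      _ ≤ w₁ := hq.m1
  · have h0 : ∫ x in Qb a (2 * l), q (x - y) = 0 := by
      refine setIntegral_eq_zero_of_forall_eq_zero ?_
      intro x hx
      by_contra h
      exact hy (qsub hq a x y hx h)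
    rw [h0]
    exact mul_nonneg hw (ic_nn _ _)

lemma qtwo {l w₁ w₂ w₃ : ℝ} {q : E → ℝ} (hq : Pk l w₁ w₂ w₃ q) (hl : 0 < l)
    (hv : volume (Qb (0 : E) l) < ⊤) (a : E) (y y' : E) :
    ∫ x in Qb a (2 * l), q (x - y) * q (x - y') ≤
      w₃ * (ic (Qb a (6 * l)) y * ic (Qb a (6 * l)) y') := by
  obtain ⟨hi, hi2⟩ := qint hq hv
  have hw : 0 ≤ w₃ := le_trans (integral_nonneg (fun x => sq_nonneg _)) hq.m3
  by_cases hy : y ∈ Qb a (3 * l) ∧ y' ∈ Qb a (3 * l)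
  · obtain ⟨hy, hy'⟩ := hy
    have e1 : y ∈ Qb a (6 * l) := fun c => (hy c).trans (by linarith)
    have e2 : y' ∈ Qb a (6 * l) := fun c => (hy' c).trans (by linarith)
    rw [ic_in e1, ic_in e2, mul_one, mul_one]
    have j1 : Integrable (fun x => q (x - y) ^ 2) := hi2.comp_sub_right y
    have j2 : Integrable (fun x => q (x - y') ^ 2) := hi2.comp_sub_right y'
    have j3 : Integrable (fun x => (1 / 2 : ℝ) * (q (x - y) ^ 2 + q (x - y') ^ 2)) :=
      (j1.add j2).const_mul _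
    have hp : ∀ x, q (x - y) * q (x - y') ≤ (1 / 2 : ℝ) * (q (x - y) ^ 2 + q (x - y') ^ 2) := by
      intro x
      nlinarith [sq_nonneg (q (x - y) - q (x - y'))]
    have j4 : Integrable (fun x => q (x - y) * q (x - y')) := by
      refine j3.mono' ?_ (Eventually.of_forall fun x => ?_)
      · exact ((hq.meas.comp (measurable_id.sub_const y)).mul
          (hq.meas.comp (measurable_id.sub_const y'))).aestronglyMeasurable
      · rw [Real.norm_eq_abs, abs_of_nonneg (mul_nonneg (hq.nn _) (hq.nn _))]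
        exact hp x
    have s1 : ∫ x, q (x - y) ^ 2 = ∫ x, q x ^ 2 := integral_sub_right_eq_self (fun x => q x ^ 2) y
    have s2 : ∫ x, q (x - y') ^ 2 = ∫ x, q x ^ 2 := integral_sub_right_eq_self (fun x => q x ^ 2) y'
    calc ∫ x in Qb a (2 * l), q (x - y) * q (x - y') ≤ ∫ x, q (x - y) * q (x - y') :=
          setIntegral_le_integral j4 (Eventually.of_forall fun x => mul_nonneg (hq.nn _) (hq.nn _))
      _ ≤ ∫ x, (1 / 2 : ℝ) * (q (x - y) ^ 2 + q (x - y') ^ 2) := integral_mono j4 j3 hp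
      _ = ∫ x, q x ^ 2 := by
          rw [integral_const_mul, integral_add j1 j2, s1, s2]
          ring
      _ ≤ w₃ := hq.m3
  · have h0 : ∫ x in Qb a (2 * l), q (x - y) * q (x - y') = 0 := by
      refine setIntegral_eq_zero_of_forall_eq_zero ?_
      intro x hx
      by_contra h
      exact hy ⟨qsub hq a x y hx (left_ne_zero_of_mul h), qsub hq a x y' hx (right_ne_zero_of_mul h)⟩
    rw [h0]
    exact mul_nonneg hw (mul_nonneg (ic_nn _ _) (ic_nn _ _))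

/-! ## sums over triples -/

section comb

variable {ι : Type} [Fintype ι] [DecidableEq ι]

lemma triple (S : Finset ι) (f g h : ι → ℝ) (hf : ∀ i, 0 ≤ f i) (hg : ∀ i, 0 ≤ g i)
    (hh : ∀ i, 0 ≤ h i) :
    ∑ j ∈ (Ij 3 ι).filter (fun j => Disjoint (im j) S), f (j 0) * (g (j 1) * h (j 2)) ≤
      (∑ i ∈ Finset.univ \ S, f i) * ((∑ i ∈ Finset.univ \ S, g i) * ∑ i ∈ Finset.univ \ S, h i) := by
  classical
  have h1 : (∑ i ∈ Finset.univ \ S, f i) * ((∑ i ∈ Finset.univ \ S, g i) *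
      ∑ i ∈ Finset.univ \ S, h i) = ∑ t ∈ (Finset.univ \ S) ×ˢ ((Finset.univ \ S) ×ˢ
        (Finset.univ \ S)), f t.1 * (g t.2.1 * h t.2.2) := by
    rw [Finset.sum_mul_sum, ← Finset.sum_product']
    rw [Finset.sum_mul_sum, ← Finset.sum_product']
  rw [h1]
  have h2 : Set.InjOn (fun j : Fin 3 → ι => ((j 0, j 1, j 2) : ι × ι × ι))
      ((Ij 3 ι).filter (fun j => Disjoint (im j) S) : Finset (Fin 3 → ι)) := by
    intro j _ j' _ hjj
    simp only [Prod.mk.injEq] at hjj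
    funext s
    fin_cases s
    · exact hjj.1
    · exact hjj.2.1
    · exact hjj.2.2
  have h3 := Finset.sum_image (f := fun t : ι × ι × ι => f t.1 * (g t.2.1 * h t.2.2)) h2
  simp only at h3
  rw [← h3]
  refine Finset.sum_le_sum_of_subset_of_nonneg ?_ (fun t _ _ => mul_nonneg (hf _)
    (mul_nonneg (hg _) (hh _)))
  intro t ht
  obtain ⟨j, hj, rfl⟩ := Finset.mem_image.1 ht
  have hd := (Finset.mem_filter.1 hj).2
  have hk : ∀ s, j s ∈ Finset.univ \ S := by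
    intro s
    refine Finset.mem_sdiff.2 ⟨Finset.mem_univ _, fun hs => ?_⟩
    exact Finset.disjoint_left.1 hd (Finset.mem_image_of_mem j (Finset.mem_univ s)) hs
  exact Finset.mem_product.2 ⟨hk 0, Finset.mem_product.2 ⟨hk 1, hk 2⟩⟩

end comb

section core

variable {ι : Type} [Fintype ι] [DecidableEq ι]

lemma core (a : E) (l : ℝ) (hl : 0 < l) (hm : ∀ (a : E) (r : ℝ), MeasurableSet (Qb a r))
    (hv : ∀ (a : E) (r : ℝ), 0 ≤ r → volume (Qb a r) < ⊤) (S : Finset ι) (ρ : Measure (ι → E))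
    [IsFiniteMeasure ρ] (V A : (ι → E) → ℝ) (D : ι → (ι → E) → ℝ) (hV : BM V) (hV0 : ∀ X, 0 ≤ V X)
    (hA : BM A) (hD : ∀ j, BM (D j)) (hD0 : ∀ j X, 0 ≤ D j X) (C₁ w₁ w₂ w₃ : ℝ) (hC₁ : 0 < C₁) (q : E → ℝ)
    (hq : Pk l w₁ w₂ w₃ q)
    (hHR : ∀ (j : ι) (w : (ι → E) → ℝ) (W : E → ℝ) (c₀ : E), j ∉ S → BM w →
      (∀ X, 0 ≤ w X) → IndS {j} w → BM W → (∀ x, 0 ≤ W x) → (∀ x, W x ≠ 0 → x ∈ Qb a (3 * l)) →
      ∫ x, W x ≤ w₁ → (∀ x, W x * ‖x - c₀‖ ^ 2 ≤ w₂) →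
      ∫ X, V X * (w X * (W (X j) * A X ^ 2)) ∂ρ ≤
        C₁ * (w₁ / l ^ 3 * ∫ X, V X * (w X * (ic (Qb a (6 * l)) (X j) * A X ^ 2)) ∂ρ
          + w₂ * ∫ X, V X * (w X * (ic (Qb a (6 * l)) (X j) * D j X)) ∂ρ))
    (j k n : ι) (hj : j ∉ S) (hk : k ∉ S) (hjk : j ≠ k) (hjn : j ≠ n) (hkn : k ≠ n) :
    ∫ x in Qb a (2 * l), ∫ X, V X * (A X ^ 2 * (q (x - X j) * (q (x - X k) * q (x - X n)))) ∂ρ ≤
      C₁ ^ 2 * (w₁ / l ^ 3) ^ 2 * w₁ * (∫ X, V X * (A X ^ 2 * (ic (Qb a (6 * l)) (X j) *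
        (ic (Qb a (6 * l)) (X k) * ic (Qb a (6 * l)) (X n)))) ∂ρ) +
      C₁ ^ 2 * (w₁ / l ^ 3) * w₂ * w₁ * (∫ X, V X * (ic (Qb a (6 * l)) (X j) *
        ((ic (Qb a (6 * l)) (X k) * D k X) * ic (Qb a (6 * l)) (X n))) ∂ρ) +
      C₁ * w₂ * w₃ * (∫ X, V X * ((ic (Qb a (6 * l)) (X j) * D j X) *
        (ic (Qb a (6 * l)) (X k) * ic (Qb a (6 * l)) (X n))) ∂ρ) := by
  have hfin : IsFiniteMeasure ((volume : Measure E).restrict (Qb a (2 * l))) :=
    ⟨by simpa using hv a (2 * l) (by linarith)⟩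
  have hw1 : 0 ≤ w₁ := le_trans (integral_nonneg hq.nn) hq.m1
  have hw2 : 0 ≤ w₂ := by
    have := hq.m2 0
    simpa using this
  have hl3 : 0 ≤ w₁ / l ^ 3 := div_nonneg hw1 (by positivity)
  have hqb : BM q := ⟨hq.meas, 1, fun x => by
    rw [abs_of_nonneg (hq.nn x)]
    exact hq.le1 x⟩
  have hqi : Integrable q := (qint hq (hv 0 l hl.le)).1
  -- measurability
  have hq1 : ∀ i : ι, BM (fun z : E × (ι → E) => q (z.1 - z.2 i)) := fun i =>
    bcomp hqb (by fun_prop)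
  have hq2 : ∀ (x : E) (i : ι), BM (fun X : ι → E => q (x - X i)) := fun x i =>
    bcomp hqb (by fun_prop)
  have hi1 : ∀ i : ι, BM (fun z : E × (ι → E) => ic (Qb a (6 * l)) (z.2 i)) := fun i =>
    bcomp (ic_bm (hm a (6 * l))) (by fun_prop)
  have hi2 : ∀ i : ι, BM (fun X : ι → E => ic (Qb a (6 * l)) (X i)) := fun i =>
    bcomp (ic_bm (hm a (6 * l))) (by fun_prop)
  have hV1 : BM (fun z : E × (ι → E) => V z.2) := bcomp hV measurable_snd
  have hA1 : BM (fun z : E × (ι → E) => A z.2 ^ 2) := bcomp (bsq hA) measurable_snd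
  have hD1 : ∀ i, BM (fun z : E × (ι → E) => D i z.2) := fun i => bcomp (hD i) measurable_snd
  -- the kernel
  have hWB : ∀ x : E, BM (fun y : E => q (x - y)) := fun x => bcomp hqb (by fun_prop)
  have hW1 : ∀ x : E, ∫ y, q (x - y) ≤ w₁ := fun x => by
    rw [integral_sub_left_eq_self q volume x]
    exact hq.m1
  have hW2 : ∀ x y : E, q (x - y) * ‖y - x‖ ^ 2 ≤ w₂ := fun x y => by
    rw [norm_sub_rev]
    exact hq.m2 (x - y)
  have hW3 : ∀ x ∈ Qb a (2 * l), ∀ y, q (x - y) ≠ 0 → y ∈ Qb a (3 * l) := fun x hx y h =>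
    qsub hq a x y hx h
  -- the five double integrals
  have s1 : (∫ x in Qb a (2 * l), ∫ X, V X * (A X ^ 2 * (q (x - X j) * (q (x - X k) *
      q (x - X n)))) ∂ρ) ≤
      (C₁ * (w₁ / l ^ 3)) * (∫ x in Qb a (2 * l), ∫ X, V X * ((q (x - X k) * q (x - X n)) *
        (ic (Qb a (6 * l)) (X j) * A X ^ 2)) ∂ρ) +
      (C₁ * w₂) * (∫ x in Qb a (2 * l), ∫ X, V X * ((q (x - X k) * q (x - X n)) *
        (ic (Qb a (6 * l)) (X j) * D j X)) ∂ρ) := by
    have b1 : BM (fun z : E × (ι → E) => V z.2 * ((q (z.1 - z.2 k) * q (z.1 - z.2 n)) *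
        (ic (Qb a (6 * l)) (z.2 j) * A z.2 ^ 2))) :=
      bmul hV1 (bmul (bmul (hq1 k) (hq1 n)) (bmul (hi1 j) hA1))
    have b2 : BM (fun z : E × (ι → E) => V z.2 * ((q (z.1 - z.2 k) * q (z.1 - z.2 n)) *
        (ic (Qb a (6 * l)) (z.2 j) * D j z.2))) :=
      bmul hV1 (bmul (bmul (hq1 k) (hq1 n)) (bmul (hi1 j) (hD1 j)))
    have b0 : BM (fun z : E × (ι → E) => V z.2 * (A z.2 ^ 2 * (q (z.1 - z.2 j) *
        (q (z.1 - z.2 k) * q (z.1 - z.2 n))))) :=
      bmul hV1 (bmul hA1 (bmul (hq1 j) (bmul (hq1 k) (hq1 n))))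
    have i0 : Integrable _ (((volume : Measure E).restrict (Qb a (2 * l))).prod ρ) := bint b0 _
    have i1 : Integrable _ (((volume : Measure E).restrict (Qb a (2 * l))).prod ρ) := bint b1 _
    have i2 : Integrable _ (((volume : Measure E).restrict (Qb a (2 * l))).prod ρ) := bint b2 _
    rw [← dlin _ hfin ρ _ _ _ _ b1 b2]
    refine setIntegral_mono_on i0.integral_prod_left
      ((i1.integral_prod_left.const_mul _).add (i2.integral_prod_left.const_mul _)) (hm _ _) ?_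
    intro x hx
    have := hHR j (fun X => q (x - X k) * q (x - X n)) (fun y => q (x - y)) x hj
      (bmul (hq2 x k) (hq2 x n)) (fun X => mul_nonneg (hq.nn _) (hq.nn _))
      (fun X Y h => by
        simp only
        rw [h k (by simpa using hjk.symm), h n (by simpa using hjn.symm)])
      (hWB x) (fun y => hq.nn _) (hW3 x hx) (hW1 x) (hW2 x)
    have e1 : (∫ X, V X * (A X ^ 2 * (q (x - X j) * (q (x - X k) * q (x - X n)))) ∂ρ) =
        ∫ X, V X * ((q (x - X k) * q (x - X n)) * (q (x - X j) * A X ^ 2)) ∂ρ :=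
      integral_congr_ae (Eventually.of_forall fun X => by
        simp only
        ring)
    rw [e1]
    refine this.trans (le_of_eq ?_)
    ring
  have s2 : (∫ x in Qb a (2 * l), ∫ X, V X * ((q (x - X k) * q (x - X n)) *
        (ic (Qb a (6 * l)) (X j) * A X ^ 2)) ∂ρ) ≤
      (C₁ * (w₁ / l ^ 3)) * (∫ x in Qb a (2 * l), ∫ X, V X * ((q (x - X n) *
        ic (Qb a (6 * l)) (X j)) * (ic (Qb a (6 * l)) (X k) * A X ^ 2)) ∂ρ) +
      (C₁ * w₂) * (∫ x in Qb a (2 * l), ∫ X, V X * ((q (x - X n) *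
        ic (Qb a (6 * l)) (X j)) * (ic (Qb a (6 * l)) (X k) * D k X)) ∂ρ) := by
    have b0 : BM (fun z : E × (ι → E) => V z.2 * ((q (z.1 - z.2 k) * q (z.1 - z.2 n)) *
        (ic (Qb a (6 * l)) (z.2 j) * A z.2 ^ 2))) :=
      bmul hV1 (bmul (bmul (hq1 k) (hq1 n)) (bmul (hi1 j) hA1))
    have b1 : BM (fun z : E × (ι → E) => V z.2 * ((q (z.1 - z.2 n) * ic (Qb a (6 * l)) (z.2 j)) *
        (ic (Qb a (6 * l)) (z.2 k) * A z.2 ^ 2))) :=
      bmul hV1 (bmul (bmul (hq1 n) (hi1 j)) (bmul (hi1 k) hA1))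
    have b2 : BM (fun z : E × (ι → E) => V z.2 * ((q (z.1 - z.2 n) * ic (Qb a (6 * l)) (z.2 j)) *
        (ic (Qb a (6 * l)) (z.2 k) * D k z.2))) :=
      bmul hV1 (bmul (bmul (hq1 n) (hi1 j)) (bmul (hi1 k) (hD1 k)))
    have i0 : Integrable _ (((volume : Measure E).restrict (Qb a (2 * l))).prod ρ) := bint b0 _
    have i1 : Integrable _ (((volume : Measure E).restrict (Qb a (2 * l))).prod ρ) := bint b1 _
    have i2 : Integrable _ (((volume : Measure E).restrict (Qb a (2 * l))).prod ρ) := bint b2 _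
    rw [← dlin _ hfin ρ _ _ _ _ b1 b2]
    refine setIntegral_mono_on i0.integral_prod_left
      ((i1.integral_prod_left.const_mul _).add (i2.integral_prod_left.const_mul _)) (hm _ _) ?_
    intro x hx
    have := hHR k (fun X => q (x - X n) * ic (Qb a (6 * l)) (X j)) (fun y => q (x - y)) x hk
      (bmul (hq2 x n) (hi2 j)) (fun X => mul_nonneg (hq.nn _) (ic_nn _ _))
      (fun X Y h => by
        simp only
        rw [h n (by simpa using hkn.symm), h j (by simpa using hjk)])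
      (hWB x) (fun y => hq.nn _) (hW3 x hx) (hW1 x) (hW2 x)
    have e1 : (∫ X, V X * ((q (x - X k) * q (x - X n)) *
        (ic (Qb a (6 * l)) (X j) * A X ^ 2)) ∂ρ) =
        ∫ X, V X * ((q (x - X n) * ic (Qb a (6 * l)) (X j)) * (q (x - X k) * A X ^ 2)) ∂ρ :=
      integral_congr_ae (Eventually.of_forall fun X => by
        simp only
        ring)
    rw [e1]
    refine this.trans (le_of_eq ?_)
    ring
  have one : ∀ G : (ι → E) → ℝ, BM G → (∀ X, 0 ≤ G X) →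
      (∫ x in Qb a (2 * l), ∫ X, V X * ((q (x - X n) * ic (Qb a (6 * l)) (X j)) *
        (ic (Qb a (6 * l)) (X k) * G X)) ∂ρ) ≤ w₁ * ∫ X, V X * (G X * (ic (Qb a (6 * l)) (X j) *
        (ic (Qb a (6 * l)) (X k) * ic (Qb a (6 * l)) (X n)))) ∂ρ := by
    intro G hG hG0
    rw [← integral_const_mul]
    refine dswap _ hfin ρ _ _ ?_ ?_ ?_
    · exact bmul hV1 (bmul (bmul (hq1 n) (hi1 j)) (bmul (hi1 k) (bcomp hG measurable_snd)))
    · exact bmul ⟨measurable_const, |w₁|, fun _ => le_rfl⟩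
        (bmul hV (bmul hG (bmul (hi2 j) (bmul (hi2 k) (hi2 n)))))
    · intro X
      have e : ∀ x : E, V X * ((q (x - X n) * ic (Qb a (6 * l)) (X j)) *
          (ic (Qb a (6 * l)) (X k) * G X)) = (V X * (G X * (ic (Qb a (6 * l)) (X j) *
          ic (Qb a (6 * l)) (X k)))) * q (x - X n) := fun x => by ring
      simp only [e]
      rw [integral_const_mul]
      have h1 := qone hq hl (hv 0 l hl.le) a (X n)
      have h2 : 0 ≤ V X * (G X * (ic (Qb a (6 * l)) (X j) * ic (Qb a (6 * l)) (X k))) :=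
        mul_nonneg (hV0 X) (mul_nonneg (hG0 X) (mul_nonneg (ic_nn _ _) (ic_nn _ _)))
      refine (mul_le_mul_of_nonneg_left h1 h2).trans (le_of_eq ?_)
      ring
  have s4 := one (fun X => A X ^ 2) (bsq hA) (fun X => sq_nonneg _)
  have s5 := one (D k) (hD k) (hD0 k)
  have s3 : (∫ x in Qb a (2 * l), ∫ X, V X * ((q (x - X k) * q (x - X n)) *
        (ic (Qb a (6 * l)) (X j) * D j X)) ∂ρ) ≤ w₃ * ∫ X, V X * ((ic (Qb a (6 * l)) (X j) *
        D j X) * (ic (Qb a (6 * l)) (X k) * ic (Qb a (6 * l)) (X n))) ∂ρ := by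
    rw [← integral_const_mul]
    refine dswap _ hfin ρ _ _ ?_ ?_ ?_
    · exact bmul hV1 (bmul (bmul (hq1 k) (hq1 n)) (bmul (hi1 j) (hD1 j)))
    · exact bmul ⟨measurable_const, |w₃|, fun _ => le_rfl⟩
        (bmul hV (bmul (bmul (hi2 j) (hD j)) (bmul (hi2 k) (hi2 n))))
    · intro X
      have e : ∀ x : E, V X * ((q (x - X k) * q (x - X n)) *
          (ic (Qb a (6 * l)) (X j) * D j X)) = (V X * (ic (Qb a (6 * l)) (X j) * D j X)) *
          (q (x - X k) * q (x - X n)) := fun x => by ring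
      simp only [e]
      rw [integral_const_mul]
      have h1 := qtwo hq hl (hv 0 l hl.le) a (X k) (X n)
      have h2 : 0 ≤ V X * (ic (Qb a (6 * l)) (X j) * D j X) :=
        mul_nonneg (hV0 X) (mul_nonneg (ic_nn _ _) (hD0 j X))
      refine (mul_le_mul_of_nonneg_left h1 h2).trans (le_of_eq ?_)
      ring
  have e5 : (∫ X, V X * (D k X * (ic (Qb a (6 * l)) (X j) *
        (ic (Qb a (6 * l)) (X k) * ic (Qb a (6 * l)) (X n)))) ∂ρ) =
        ∫ X, V X * (ic (Qb a (6 * l)) (X j) *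
        ((ic (Qb a (6 * l)) (X k) * D k X) * ic (Qb a (6 * l)) (X n))) ∂ρ :=
    integral_congr_ae (Eventually.of_forall fun X => by
      simp only
      ring)
  rw [e5] at s5
  have c1 : 0 ≤ C₁ * (w₁ / l ^ 3) := mul_nonneg hC₁.le hl3
  have c2 : 0 ≤ C₁ * w₂ := mul_nonneg hC₁.le hw2
  have t2 := s2.trans (add_le_add (mul_le_mul_of_nonneg_left s4 c1) (mul_le_mul_of_nonneg_left s5 c2))
  have t1 := s1.trans (add_le_add (mul_le_mul_of_nonneg_left t2 c1) (mul_le_mul_of_nonneg_left s3 c2))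
  refine t1.trans (le_of_eq ?_)
  ring

lemma psum (S : Finset ι) (V M : ℝ) (f d : ι → ℝ) (hM : 0 ≤ M) (hf : ∀ i, 0 ≤ f i) (hd : ∀ i, 0 ≤ d i)
    (hV : V = 0 ∨ V = 1) (hs : V * ∑ i ∈ Finset.univ \ S, f i ≤ M * V) (A : ℝ) :
    (∑ j ∈ (Ij 3 ι).filter (fun j => Disjoint (im j) S), V * (A ^ 2 * (f (j 0) *
        (f (j 1) * f (j 2)))) ≤ M ^ 3 * (V * A ^ 2)) ∧
    (∑ j ∈ (Ij 3 ι).filter (fun j => Disjoint (im j) S), V * (f (j 0) *
        ((f (j 1) * d (j 1)) * f (j 2))) ≤ M ^ 2 * (V * ∑ i ∈ Finset.univ \ S, f i * d i)) ∧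
    (∑ j ∈ (Ij 3 ι).filter (fun j => Disjoint (im j) S), V * ((f (j 0) * d (j 0)) *
        (f (j 1) * f (j 2))) ≤ M ^ 2 * (V * ∑ i ∈ Finset.univ \ S, f i * d i)) := by
  have hfd : ∀ i, 0 ≤ f i * d i := fun i => mul_nonneg (hf i) (hd i)
  have t1 := triple S f f f hf hf hf
  have t2 := triple S f (fun i => f i * d i) f hf hfd hf
  have t3 := triple S (fun i => f i * d i) f f hfd hf hf
  have hT : 0 ≤ ∑ i ∈ Finset.univ \ S, f i * d i := Finset.sum_nonneg fun i _ => hfd i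
  have hs0 : 0 ≤ ∑ i ∈ Finset.univ \ S, f i := Finset.sum_nonneg fun i _ => hf i
  rcases hV with rfl | rfl
  · simp
  · set s : ℝ := ∑ i ∈ Finset.univ \ S, f i with hsd
    set T : ℝ := ∑ i ∈ Finset.univ \ S, f i * d i with hTd
    have hsM : s ≤ M := by linarith
    have h2 : s * s ≤ M ^ 2 := by nlinarith
    have h3 : s * (s * s) ≤ M ^ 3 := by
      have := mul_le_mul hsM h2 (mul_nonneg hs0 hs0) hM
      refine this.trans (le_of_eq (by ring))
    refine ⟨?_, ?_, ?_⟩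
    · simp only [one_mul]
      rw [← Finset.mul_sum, mul_comm (M ^ 3)]
      exact mul_le_mul_of_nonneg_left (t1.trans h3) (sq_nonneg A)
    · simp only [one_mul]
      refine t2.trans ?_
      have := mul_le_mul_of_nonneg_right h2 hT
      refine le_trans (le_of_eq (by ring)) this
    · simp only [one_mul]
      refine t3.trans ?_
      have := mul_le_mul_of_nonneg_right h2 hT
      refine le_trans (le_of_eq (by ring)) this

lemma sumup (a : E) (l M : ℝ) (hl : 0 < l) (hM : 0 ≤ M) (hm : ∀ (a : E) (r : ℝ), MeasurableSet (Qb a r))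
    (hv : ∀ (a : E) (r : ℝ), 0 ≤ r → volume (Qb a r) < ⊤) (S : Finset ι) (ρ : Measure (ι → E))
    [IsFiniteMeasure ρ] (V A : (ι → E) → ℝ) (D : ι → (ι → E) → ℝ) (hV : BM V)
    (hV01 : ∀ X, V X = 0 ∨ V X = 1)
    (hVs : ∀ X, V X * ∑ i ∈ Finset.univ \ S, ic (Qb a (6 * l)) (X i) ≤ M * V X)
    (hA : BM A) (hD : ∀ j, BM (D j)) (hD0 : ∀ j X, 0 ≤ D j X) (C₁ w₁ w₂ w₃ : ℝ) (hC₁ : 0 < C₁) (q : E → ℝ)
    (hq : Pk l w₁ w₂ w₃ q)
    (hHR : ∀ (j : ι) (w : (ι → E) → ℝ) (W : E → ℝ) (c₀ : E), j ∉ S → BM w →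
      (∀ X, 0 ≤ w X) → IndS {j} w → BM W → (∀ x, 0 ≤ W x) → (∀ x, W x ≠ 0 → x ∈ Qb a (3 * l)) →
      ∫ x, W x ≤ w₁ → (∀ x, W x * ‖x - c₀‖ ^ 2 ≤ w₂) →
      ∫ X, V X * (w X * (W (X j) * A X ^ 2)) ∂ρ ≤
        C₁ * (w₁ / l ^ 3 * ∫ X, V X * (w X * (ic (Qb a (6 * l)) (X j) * A X ^ 2)) ∂ρ
          + w₂ * ∫ X, V X * (w X * (ic (Qb a (6 * l)) (X j) * D j X)) ∂ρ)) :
    ∑ j ∈ (Ij 3 ι).filter (fun j => Disjoint (im j) S),
      ∫ x in Qb a (2 * l), ∫ X, V X * (A X ^ 2 * (q (x - X (j 0)) * (q (x - X (j 1)) *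
        q (x - X (j 2))))) ∂ρ ≤
      C₁ ^ 2 * (w₁ / l ^ 3) ^ 2 * w₁ * M ^ 3 * (∫ X, V X * A X ^ 2 ∂ρ) +
      (C₁ ^ 2 * (w₁ / l ^ 3) * w₂ * w₁ + C₁ * w₂ * w₃) * M ^ 2 *
        (∫ X, V X * ∑ i ∈ Finset.univ \ S, ic (Qb a (6 * l)) (X i) * D i X ∂ρ) := by
  have hw1 : 0 ≤ w₁ := le_trans (integral_nonneg hq.nn) hq.m1
  have hw3 : 0 ≤ w₃ := le_trans (integral_nonneg (fun x => sq_nonneg _)) hq.m3
  have hw2 : 0 ≤ w₂ := by
    have := hq.m2 0
    simpa using this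
  have hl3 : 0 ≤ w₁ / l ^ 3 := div_nonneg hw1 (by positivity)
  have hV0 : ∀ X, 0 ≤ V X := fun X => by
    rcases hV01 X with h | h <;> rw [h]
    exact zero_le_one
  have hi2 : ∀ i : ι, BM (fun X : ι → E => ic (Qb a (6 * l)) (X i)) := fun i =>
    bcomp (ic_bm (hm a (6 * l))) (by fun_prop)
  set F := (Ij 3 ι).filter (fun j => Disjoint (im j) S) with hF
  have b1 : ∀ j : Fin 3 → ι, BM (fun X : ι → E => V X * (A X ^ 2 * (ic (Qb a (6 * l)) (X (j 0)) *
        (ic (Qb a (6 * l)) (X (j 1)) * ic (Qb a (6 * l)) (X (j 2)))))) := fun j =>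
    bmul hV (bmul (bsq hA) (bmul (hi2 _) (bmul (hi2 _) (hi2 _))))
  have b2 : ∀ j : Fin 3 → ι, BM (fun X : ι → E => V X * (ic (Qb a (6 * l)) (X (j 0)) *
        ((ic (Qb a (6 * l)) (X (j 1)) * D (j 1) X) * ic (Qb a (6 * l)) (X (j 2))))) := fun j =>
    bmul hV (bmul (hi2 _) (bmul (bmul (hi2 _) (hD _)) (hi2 _)))
  have b3 : ∀ j : Fin 3 → ι, BM (fun X : ι → E => V X * ((ic (Qb a (6 * l)) (X (j 0)) *
        D (j 0) X) * (ic (Qb a (6 * l)) (X (j 1)) * ic (Qb a (6 * l)) (X (j 2))))) := fun j =>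
    bmul hV (bmul (bmul (hi2 _) (hD _)) (bmul (hi2 _) (hi2 _)))
  have bA : BM (fun X : ι → E => M ^ 3 * (V X * A X ^ 2)) :=
    bmul ⟨measurable_const, |M ^ 3|, fun _ => le_rfl⟩ (bmul hV (bsq hA))
  have bG : BM (fun X : ι → E => M ^ 2 * (V X * ∑ i ∈ Finset.univ \ S,
      ic (Qb a (6 * l)) (X i) * D i X)) :=
    bmul ⟨measurable_const, |M ^ 2|, fun _ => le_rfl⟩ (bmul hV (bsum _ fun i _ =>
      bmul (hi2 i) (hD i)))
  have p := fun X : ι → E => psum S (V X) M (fun i => ic (Qb a (6 * l)) (X i)) (fun i => D i X) hM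
    (fun i => ic_nn _ _) (fun i => hD0 i X) (hV01 X) (hVs X) (A X)
  have q1 : ∑ j ∈ F, (∫ X, V X * (A X ^ 2 * (ic (Qb a (6 * l)) (X (j 0)) *
        (ic (Qb a (6 * l)) (X (j 1)) * ic (Qb a (6 * l)) (X (j 2))))) ∂ρ) ≤
      M ^ 3 * ∫ X, V X * A X ^ 2 ∂ρ := by
    rw [← integral_finsetSum F (fun j _ => bint (b1 j) ρ), ← integral_const_mul]
    exact integral_mono (bint (bsum F fun j _ => b1 j) ρ) (bint bA ρ) fun X => (p X).1
  have q2 : ∑ j ∈ F, (∫ X, V X * (ic (Qb a (6 * l)) (X (j 0)) *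
        ((ic (Qb a (6 * l)) (X (j 1)) * D (j 1) X) * ic (Qb a (6 * l)) (X (j 2)))) ∂ρ) ≤
      M ^ 2 * ∫ X, V X * ∑ i ∈ Finset.univ \ S, ic (Qb a (6 * l)) (X i) * D i X ∂ρ := by
    rw [← integral_finsetSum F (fun j _ => bint (b2 j) ρ), ← integral_const_mul]
    exact integral_mono (bint (bsum F fun j _ => b2 j) ρ) (bint bG ρ) fun X => (p X).2.1
  have q3 : ∑ j ∈ F, (∫ X, V X * ((ic (Qb a (6 * l)) (X (j 0)) *
        D (j 0) X) * (ic (Qb a (6 * l)) (X (j 1)) * ic (Qb a (6 * l)) (X (j 2)))) ∂ρ) ≤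
      M ^ 2 * ∫ X, V X * ∑ i ∈ Finset.univ \ S, ic (Qb a (6 * l)) (X i) * D i X ∂ρ := by
    rw [← integral_finsetSum F (fun j _ => bint (b3 j) ρ), ← integral_const_mul]
    exact integral_mono (bint (bsum F fun j _ => b3 j) ρ) (bint bG ρ) fun X => (p X).2.2
  have c1 : 0 ≤ C₁ ^ 2 * (w₁ / l ^ 3) ^ 2 * w₁ := by positivity
  have c2 : 0 ≤ C₁ ^ 2 * (w₁ / l ^ 3) * w₂ * w₁ := by positivity
  have c3 : 0 ≤ C₁ * w₂ * w₃ := by positivity
  have hterm : ∀ j ∈ F, (∫ x in Qb a (2 * l), ∫ X, V X * (A X ^ 2 * (q (x - X (j 0)) *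
      (q (x - X (j 1)) * q (x - X (j 2))))) ∂ρ) ≤
      C₁ ^ 2 * (w₁ / l ^ 3) ^ 2 * w₁ * (∫ X, V X * (A X ^ 2 * (ic (Qb a (6 * l)) (X (j 0)) *
        (ic (Qb a (6 * l)) (X (j 1)) * ic (Qb a (6 * l)) (X (j 2))))) ∂ρ) +
      C₁ ^ 2 * (w₁ / l ^ 3) * w₂ * w₁ * (∫ X, V X * (ic (Qb a (6 * l)) (X (j 0)) *
        ((ic (Qb a (6 * l)) (X (j 1)) * D (j 1) X) * ic (Qb a (6 * l)) (X (j 2)))) ∂ρ) +
      C₁ * w₂ * w₃ * (∫ X, V X * ((ic (Qb a (6 * l)) (X (j 0)) * D (j 0) X) *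
        (ic (Qb a (6 * l)) (X (j 1)) * ic (Qb a (6 * l)) (X (j 2)))) ∂ρ) := by
    intro j hj
    have hj1 := Finset.mem_filter.1 hj
    have hinj : Function.Injective j := (Finset.mem_filter.1 hj1.1).2
    have hk : ∀ s, j s ∉ S := fun s hs =>
      Finset.disjoint_left.1 hj1.2 (Finset.mem_image_of_mem j (Finset.mem_univ s)) hs
    exact core a l hl hm hv S ρ V A D hV hV0 hA hD hD0 C₁ w₁ w₂ w₃ hC₁ q hq hHR (j 0) (j 1) (j 2)
      (hk 0) (hk 1) (fun h => by simpa using hinj h) (fun h => by simpa using hinj h)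
      (fun h => by simpa using hinj h)
  refine (Finset.sum_le_sum hterm).trans ?_
  rw [Finset.sum_add_distrib, Finset.sum_add_distrib, ← Finset.mul_sum, ← Finset.mul_sum,
    ← Finset.mul_sum]
  have := add_le_add (add_le_add (mul_le_mul_of_nonneg_left q1 c1) (mul_le_mul_of_nonneg_left q2 c2))
    (mul_le_mul_of_nonneg_left q3 c3)
  refine this.trans (le_of_eq ?_)
  ring

end core

end GS3_

open GS3_ in
theorem gs3_proof (_hBMC : Pool.Agent.TBL.Stmt_BMC) (hMSY : Stmt_MSY) (hAVP : Stmt_AVP) (hAVC : Stmt_AVC)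
    (hVTP : Stmt_VTP) (hCLX : Stmt_CLX) (_hHSF : Stmt_HSF) (hHRN : Stmt_HRN) : Stmt_GS3 := by
  intro C m
  obtain ⟨C₁, hC₁, hHR⟩ := hHRN C
  refine ⟨C₁ ^ 2 + C₁, by positivity, ?_⟩
  intro ι _ _ p β θ u κ w₁ w₂ w₃ K q hS hu hK hq
  obtain ⟨hl1, hfO, hmO, hmQc, hQb, hQbQc, hpr, htm1, htm2, hicQ, hth, hmul⟩ := hMSY C p β θ hS
  have hl : 0 < p.l := by linarith
  have hm : ∀ (a : E) (r : ℝ), MeasurableSet (Qb a r) := fun a r => (hQb a r).1
  have hv : ∀ (a : E) (r : ℝ), 0 ≤ r → volume (Qb a r) < ⊤ := fun a r hr => by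
    rw [(hQb a r).2 hr]
    exact ENNReal.ofReal_lt_top
  have hM : 0 ≤ p.M := by linarith [hS.hM]
  have hκ : 0 ≤ κ := le_trans (integral_nonneg fun z => hK.nn _) (hK.mass 0)
  have hw1 : 0 ≤ w₁ := le_trans (integral_nonneg hq.nn) hq.m1
  have hw3 : 0 ≤ w₃ := le_trans (integral_nonneg (fun x => sq_nonneg _)) hq.m3
  have hw2 : 0 ≤ w₂ := by
    have := hq.m2 0
    simpa using this
  have hBu : BM u := (hAVC ι (tm (θ 0)) ∅ u hu).1
  have hqb : BM q := ⟨hq.meas, 1, fun x => by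
    rw [abs_of_nonneg (hq.nn x)]
    exact hq.le1 x⟩
  have hρ : ∀ (a : E) (S : Finset ι), IsFiniteMeasure (PiS (tm (θ a)) (mO p.L) S) := by
    intro a S
    have : ∀ i : ι, IsFiniteMeasure (if i ∈ S then tm (θ a) else mO p.L) := by
      intro i
      split_ifs <;> infer_instance
    unfold PiS
    infer_instance
  have hρ0 : IsFiniteMeasure (PiS (mO p.L) (mO p.L) (∅ : Finset ι)) := by
    have : ∀ i : ι, IsFiniteMeasure (if i ∈ (∅ : Finset ι) then mO p.L else mO p.L) := by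
      intro i
      split_ifs <;> infer_instance
    unfold PiS
    infer_instance
  have hAv : ∀ (a : E) (S : Finset ι), BM (Av (tm (θ a)) S u) := fun a S =>
    (hAVP ι (tm (θ a)) S ∅ u u hBu hBu).1
  have hAm : ∀ (a : E) (S : Finset ι), BM (Am p θ u a S) := fun a S =>
    bmul (hVTP ι C p β θ hS a S).1 (hAv a S)
  have hh0 : ∀ (S : Finset ι) X, 0 ≤ hh2 p θ u S X := fun S X =>
    Finset.sum_nonneg fun a _ => mul_nonneg (ic_nn _ _) (sq_nonneg _)
  constructor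
  · refine Finset.sum_nonneg fun e _ => Finset.sum_nonneg fun j _ => ?_
    refine integral_nonneg fun X => ?_
    exact mul_nonneg (hh0 _ X) (mul_nonneg (hK.nn _) (Finset.prod_nonneg fun s _ => hq.nn _))
  -- the bound of the term of `e`, `j`
  have step1 : ∀ e ∈ Ij (m + 1) ι, ∀ j ∈ (Ij 3 ι).filter (fun j => Disjoint (im j) (im e)),
      IO p (fun X => hh2 p θ u (im e) X * (K (X ∘ e) * ∏ s, q (X (e 0) - X (j s)))) ≤
        ∑ a ∈ p.Gr, κ * ∫ x in Qb a (2 * p.l), ∫ X, vt p a (im e) X *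
          (Av (tm (θ a)) (im e) u X ^ 2 * (q (x - X (j 0)) * (q (x - X (j 1)) *
            q (x - X (j 2))))) ∂(PiS (tm (θ a)) (mO p.L) (im e)) := by
    intro e he j hj
    have hj1 := Finset.mem_filter.1 hj
    have hk : ∀ s, j s ∉ im e := fun s hs =>
      Finset.disjoint_left.1 hj1.2 (Finset.mem_image_of_mem j (Finset.mem_univ s)) hs
    have hcen : Measurable (fun X : ι → E => cen (im e) X) := by
      unfold cen
      fun_prop
    have bt : ∀ a, BM (fun X : ι → E => ic (Qb a p.l) (cen (im e) X) * (K (X ∘ e) *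
        (Am p θ u a (im e) X ^ 2 * (q (X (e 0) - X (j 0)) * (q (X (e 0) - X (j 1)) *
          q (X (e 0) - X (j 2))))))) := by
      intro a
      refine bmul (bcomp (ic_bm (hm a p.l)) hcen) (bmul (bcomp hK.bm ?_) (bmul (bsq (hAm a _))
        (bmul (bcomp hqb (by fun_prop)) (bmul (bcomp hqb (by fun_prop)) (bcomp hqb (by fun_prop))))))
      exact measurable_pi_iff.2 fun s => measurable_pi_apply (e s)
    have e1 : IO p (fun X => hh2 p θ u (im e) X * (K (X ∘ e) * ∏ s, q (X (e 0) - X (j s)))) =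
        ∑ a ∈ p.Gr, IO p (fun X => ic (Qb a p.l) (cen (im e) X) * (K (X ∘ e) *
          (Am p θ u a (im e) X ^ 2 * (q (X (e 0) - X (j 0)) * (q (X (e 0) - X (j 1)) *
            q (X (e 0) - X (j 2))))))) := by
      unfold IO
      rw [← integral_finsetSum _ (fun a _ => bint (bt a) _)]
      refine integral_congr_ae (Eventually.of_forall fun X => ?_)
      simp only [hh2, Finset.sum_mul]
      refine Finset.sum_congr rfl fun a _ => ?_
      rw [Fin.prod_univ_three]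
      ring
    rw [e1]
    refine Finset.sum_le_sum fun a ha => ?_
    have hvt := hVTP ι C p β θ hS a (im e)
    have := hCLX C m ι p β θ κ K (fun x X => Am p θ u a (im e) X ^ 2 * (q (x - X (j 0)) *
      (q (x - X (j 1)) * q (x - X (j 2))))) hS hK ?_ ?_ a ha e he ?_
    · refine this.trans (le_of_eq ?_)
      unfold IA
      have : ∀ x X, Am p θ u a (im e) X ^ 2 * (q (x - X (j 0)) *
          (q (x - X (j 1)) * q (x - X (j 2)))) = vt p a (im e) X *
          (Av (tm (θ a)) (im e) u X ^ 2 * (q (x - X (j 0)) * (q (x - X (j 1)) *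
            q (x - X (j 2))))) := by
        intro x X
        unfold Am
        rcases (hvt.2.2.1 X).1 with h | h <;> rw [h] <;> ring
      simp only [this]
    · exact bmul (bcomp (bsq (hAm a _)) measurable_snd)
        (bmul (bcomp hqb (by fun_prop)) (bmul (bcomp hqb (by fun_prop)) (bcomp hqb (by fun_prop))))
    · intro x X
      exact mul_nonneg (sq_nonneg _) (mul_nonneg (hq.nn _) (mul_nonneg (hq.nn _) (hq.nn _)))
    · intro x X Y hXY
      have hAvI : IndS (im e) (Av (tm (θ a)) (im e) u) :=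
        (hAVP ι (tm (θ a)) (im e) ∅ u u hBu hBu).2.1
      have a1 : Am p θ u a (im e) X = Am p θ u a (im e) Y := by
        unfold Am
        rw [hvt.2.1 X Y hXY, hAvI X Y hXY]
      simp only
      rw [a1, hXY _ (hk 0), hXY _ (hk 1), hXY _ (hk 2)]
  -- the sum over `j`
  have step2 : ∀ e ∈ Ij (m + 1) ι, ∀ a ∈ p.Gr,
      ∑ j ∈ (Ij 3 ι).filter (fun j => Disjoint (im j) (im e)), ∫ x in Qb a (2 * p.l),
        ∫ X, vt p a (im e) X * (Av (tm (θ a)) (im e) u X ^ 2 * (q (x - X (j 0)) *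
          (q (x - X (j 1)) * q (x - X (j 2))))) ∂(PiS (tm (θ a)) (mO p.L) (im e)) ≤
      (C₁ ^ 2 + C₁) * ((w₁ * (p.M / p.l ^ 3)) ^ 3 * (p.l ^ 3 * IA p θ a (im e)
        (fun X => Am p θ u a (im e) X ^ 2))
        + w₂ * (w₁ ^ 2 + w₃ * p.l ^ 3) * (p.M / p.l ^ 3) ^ 2 * (p.l ^ 3 * IA p θ a (im e)
          (fun X => vt p a (im e) X * ∑ j ∈ Finset.univ \ im e, ic (Qb a (6 * p.l)) (X j) *
            ∑ c, di j c (Av (tm (θ a)) (im e) u) X ^ 2))) := by
    intro e he a ha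
    have := hρ a (im e)
    have hvt := hVTP ι C p β θ hS a (im e)
    have hdB : ∀ j c, BM (di j c (Av (tm (θ a)) (im e) u)) :=
      (hAVC ι (tm (θ a)) (im e) u hu).2.2.2.2.1
    have key := sumup a p.l p.M hl hM hm hv (im e) (PiS (tm (θ a)) (mO p.L) (im e))
      (vt p a (im e)) (Av (tm (θ a)) (im e) u)
      (fun j X => ∑ c, di j c (Av (tm (θ a)) (im e) u) X ^ 2) hvt.1 (fun X => (hvt.2.2.1 X).1)
      (fun X => (hvt.2.2.1 X).2.2 (6 * p.l) (by linarith)) (hAv a _)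
      (fun j => bsum _ fun c _ => bsq (hdB j c)) (fun j X => Finset.sum_nonneg fun c _ => sq_nonneg _)
      C₁ w₁ w₂ w₃ hC₁ q hq
      (fun j w W c₀ hj hw hw0 hwI hW hW0 hWs hW1 hW2 =>
        hHR ι p β θ hS a ha (im e) j u w W c₀ w₁ w₂ hj hu hw hw0 hwI hW hW0 hWs hW1 hW2)
    refine key.trans ?_
    have eA : IA p θ a (im e) (fun X => Am p θ u a (im e) X ^ 2) =
        ∫ X, vt p a (im e) X * Av (tm (θ a)) (im e) u X ^ 2 ∂(PiS (tm (θ a)) (mO p.L) (im e)) := by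
      unfold IA
      refine integral_congr_ae (Eventually.of_forall fun X => ?_)
      simp only [Am]
      rcases (hvt.2.2.1 X).1 with h | h <;> rw [h] <;> ring
    rw [eA]
    have eG : IA p θ a (im e) (fun X => vt p a (im e) X * ∑ j ∈ Finset.univ \ im e,
        ic (Qb a (6 * p.l)) (X j) * ∑ c, di j c (Av (tm (θ a)) (im e) u) X ^ 2) =
        ∫ X, vt p a (im e) X * ∑ j ∈ Finset.univ \ im e, ic (Qb a (6 * p.l)) (X j) *
          ∑ c, di j c (Av (tm (θ a)) (im e) u) X ^ 2 ∂(PiS (tm (θ a)) (mO p.L) (im e)) := rfl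
    rw [eG]
    have hA0 : 0 ≤ ∫ X, vt p a (im e) X * Av (tm (θ a)) (im e) u X ^ 2
        ∂(PiS (tm (θ a)) (mO p.L) (im e)) := by
      refine integral_nonneg fun X => ?_
      simp only [Pi.zero_apply]
      rcases (hvt.2.2.1 X).1 with h | h <;> rw [h] <;> positivity
    have hG0 : 0 ≤ ∫ X, vt p a (im e) X * ∑ j ∈ Finset.univ \ im e, ic (Qb a (6 * p.l)) (X j) *
          ∑ c, di j c (Av (tm (θ a)) (im e) u) X ^ 2 ∂(PiS (tm (θ a)) (mO p.L) (im e)) := by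
      refine integral_nonneg fun X => ?_
      have h0 : 0 ≤ ∑ j ∈ Finset.univ \ im e, ic (Qb a (6 * p.l)) (X j) *
          ∑ c, di j c (Av (tm (θ a)) (im e) u) X ^ 2 :=
        Finset.sum_nonneg fun j _ => mul_nonneg (ic_nn _ _) (Finset.sum_nonneg fun c _ => sq_nonneg _)
      simp only [Pi.zero_apply]
      rcases (hvt.2.2.1 X).1 with h | h <;> rw [h]
      · simp
      · rw [one_mul]
        exact h0
    generalize (∫ X, vt p a (im e) X * Av (tm (θ a)) (im e) u X ^ 2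
        ∂(PiS (tm (θ a)) (mO p.L) (im e))) = IA1 at hA0 ⊢
    generalize (∫ X, vt p a (im e) X * ∑ j ∈ Finset.univ \ im e, ic (Qb a (6 * p.l)) (X j) *
          ∑ c, di j c (Av (tm (θ a)) (im e) u) X ^ 2 ∂(PiS (tm (θ a)) (mO p.L) (im e))) = IG1 at hG0 ⊢
    have hlne : p.l ≠ 0 := hl.ne'
    have r1 : (w₁ * (p.M / p.l ^ 3)) ^ 3 * (p.l ^ 3 * IA1) =
        (w₁ / p.l ^ 3) ^ 2 * w₁ * p.M ^ 3 * IA1 := by
      field_simp
    have r2 : w₂ * (w₁ ^ 2 + w₃ * p.l ^ 3) * (p.M / p.l ^ 3) ^ 2 * (p.l ^ 3 * IG1) =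
        ((w₁ / p.l ^ 3) * w₂ * w₁ + w₂ * w₃) * p.M ^ 2 * IG1 := by
      field_simp
    rw [r1, r2]
    have n1 : 0 ≤ (w₁ / p.l ^ 3) ^ 2 * w₁ * p.M ^ 3 * IA1 := by positivity
    have n2 : 0 ≤ (w₁ / p.l ^ 3) * w₂ * w₁ * p.M ^ 2 * IG1 := by positivity
    have n3 : 0 ≤ w₂ * w₃ * p.M ^ 2 * IG1 := by positivity
    nlinarith [mul_nonneg hC₁.le n1, mul_nonneg hC₁.le n2, mul_nonneg (sq_nonneg C₁) n3]
  -- assembly
  unfold GS AA GG
  calc ∑ e ∈ Ij (m + 1) ι, ∑ j ∈ (Ij 3 ι).filter (fun j => Disjoint (im j) (im e)),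
        IO p (fun X => hh2 p θ u (im e) X * (K (X ∘ e) * ∏ s, q (X (e 0) - X (j s))))
      ≤ ∑ e ∈ Ij (m + 1) ι, ∑ j ∈ (Ij 3 ι).filter (fun j => Disjoint (im j) (im e)),
        ∑ a ∈ p.Gr, κ * ∫ x in Qb a (2 * p.l), ∫ X, vt p a (im e) X *
          (Av (tm (θ a)) (im e) u X ^ 2 * (q (x - X (j 0)) * (q (x - X (j 1)) *
            q (x - X (j 2))))) ∂(PiS (tm (θ a)) (mO p.L) (im e)) :=
        Finset.sum_le_sum fun e he => Finset.sum_le_sum fun j hj => step1 e he j hj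
    _ = ∑ e ∈ Ij (m + 1) ι, ∑ a ∈ p.Gr, κ * ∑ j ∈ (Ij 3 ι).filter (fun j => Disjoint (im j) (im e)),
        ∫ x in Qb a (2 * p.l), ∫ X, vt p a (im e) X *
          (Av (tm (θ a)) (im e) u X ^ 2 * (q (x - X (j 0)) * (q (x - X (j 1)) *
            q (x - X (j 2))))) ∂(PiS (tm (θ a)) (mO p.L) (im e)) := by
        refine Finset.sum_congr rfl fun e _ => ?_
        rw [Finset.sum_comm]
        refine Finset.sum_congr rfl fun a _ => ?_
        rw [Finset.mul_sum]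
    _ ≤ ∑ e ∈ Ij (m + 1) ι, ∑ a ∈ p.Gr, κ * ((C₁ ^ 2 + C₁) * ((w₁ * (p.M / p.l ^ 3)) ^ 3 *
        (p.l ^ 3 * IA p θ a (im e) (fun X => Am p θ u a (im e) X ^ 2))
        + w₂ * (w₁ ^ 2 + w₃ * p.l ^ 3) * (p.M / p.l ^ 3) ^ 2 * (p.l ^ 3 * IA p θ a (im e)
          (fun X => vt p a (im e) X * ∑ j ∈ Finset.univ \ im e, ic (Qb a (6 * p.l)) (X j) *
            ∑ c, di j c (Av (tm (θ a)) (im e) u) X ^ 2)))) :=
        Finset.sum_le_sum fun e he => Finset.sum_le_sum fun a ha =>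
          mul_le_mul_of_nonneg_left (step2 e he a ha) hκ
    _ = _ := by
        rw [Finset.sum_comm]
        simp only [← Finset.mul_sum, Finset.sum_add_distrib]
        ring

end Pool.Agent.TBS
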