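import Pool.Agent.TBS.StmtsC

/-!
# Three-body Bose gases (MP_80dc41_mp), sharp lower bound: module GW0
-/

set_option autoImplicit false

open MeasureTheory Filter Topology
open scoped ContDiff

namespace Pool.Agent.TBS

open Pool.Agent.TBG Pool.Agent.TBL Pool.Agent.TBF

namespace GW0_

section

variable {ι : Type} [Fintype ι] [DecidableEq ι]

theorem fin_PiS (m n : Measure E) [IsFiniteMeasure m] [IsFiniteMeasure n] (S : Finset ι) :
    IsFiniteMeasure (PiS m n S) := by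
  unfold PiS
  have : ∀ i : ι, IsFiniteMeasure (if i ∈ S then m else n) := by
    intro i
    split_ifs <;> infer_instance
  infer_instance

theorem bm_ic {Q : Set E} (hQ : MeasurableSet Q) : BM (ic Q) := by
  refine ⟨measurable_const.indicator hQ, 1, fun x => ?_⟩
  unfold ic
  by_cases h : x ∈ Q
  · rw [Set.indicator_of_mem h]; norm_num
  · rw [Set.indicator_of_notMem h]; norm_num

theorem bm_CU {u : (ι → E) → ℝ} (hu : CU u) : BM u := by
  refine ⟨hu.1.continuous.measurable, ?_⟩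
  obtain ⟨C, hC⟩ := hu.1.continuous.bounded_above_of_compact_support hu.2
  exact ⟨C, fun X => by have := hC X; rwa [Real.norm_eq_abs] at this⟩

theorem meas_cen (S : Finset ι) : Measurable (cen S) := by
  unfold cen
  exact ((continuous_const (y := ((S.card : ℝ))⁻¹)).smul
    (continuous_finsetSum S fun i _ => continuous_apply i)).measurable

theorem ic_nonneg (Q : Set E) (x : E) : 0 ≤ ic Q x := by
  unfold ic
  exact Set.indicator_nonneg (fun _ _ => zero_le_one) x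

theorem ic_mem {Q : Set E} {x : E} (h : ic Q x ≠ 0) : x ∈ Q := by
  by_contra hn
  exact h (Set.indicator_of_notMem hn _)

/-- the centre of mass is close to the particle `e 0` -/
theorem cen_close {m : ℕ} {l : ℝ} (e : Fin (m + 1) → ι) (X : ι → E)
    (h : ∀ s c, |X (e s) c - X (e 0) c| ≤ l) (c : Fin 3) :
    |cen (im e) X c - X (e 0) c| ≤ l := by
  have hmem : e 0 ∈ im e := Finset.mem_image_of_mem _ (Finset.mem_univ 0)
  have hcard : (0 : ℝ) < ((im e).card : ℝ) := by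
    exact_mod_cast Finset.card_pos.2 ⟨e 0, hmem⟩
  have h1 : cen (im e) X c - X (e 0) c =
      ((im e).card : ℝ)⁻¹ * ∑ i ∈ im e, (X i c - X (e 0) c) := by
    unfold cen
    rw [Finset.sum_sub_distrib, Finset.sum_const, nsmul_eq_mul, mul_sub, ← mul_assoc,
      inv_mul_cancel₀ hcard.ne', one_mul]
    congr 1
    simp [Finset.sum_apply]
  rw [h1, abs_mul, abs_of_pos (inv_pos.2 hcard)]
  have h2 : |∑ i ∈ im e, (X i c - X (e 0) c)| ≤ ((im e).card : ℝ) * l := by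
    refine (Finset.abs_sum_le_sum_abs _ _).trans ?_
    have h3 : ∀ i ∈ im e, |X i c - X (e 0) c| ≤ l := by
      intro i hi
      unfold im at hi
      rw [Finset.mem_image] at hi
      obtain ⟨s, _, rfl⟩ := hi
      exact h s c
    refine (Finset.sum_le_sum h3).trans ?_
    rw [Finset.sum_const, nsmul_eq_mul]
  calc ((im e).card : ℝ)⁻¹ * |∑ i ∈ im e, (X i c - X (e 0) c)|
      ≤ ((im e).card : ℝ)⁻¹ * (((im e).card : ℝ) * l) :=
        mul_le_mul_of_nonneg_left h2 (inv_pos.2 hcard).le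
    _ = l := by
      rw [← mul_assoc, inv_mul_cancel₀ hcard.ne', one_mul]

end

end GW0_

open GW0_ in
theorem gw0_proof (hBMC : Pool.Agent.TBL.Stmt_BMC) (hMSY : Stmt_MSY) (hAVP : Stmt_AVP)
    (_hAVI : Stmt_AVI) (hCLX : Stmt_CLX) (_hHSF : Stmt_HSF) (hVTP : Stmt_VTP) (_hGRD : Stmt_GRD)
    (hZET : Stmt_ZET) : Stmt_GW0 := by
  intro C m
  refine ⟨64, by norm_num, ?_⟩
  intro ι _ _ p Mc M₁ β θ u κ K hG hM₁ hS hu hK
  obtain ⟨hl1, hfin, _, _, hQb, hQQ, hprob, _, _, _, _, _⟩ := hMSY C p β θ hS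
  obtain ⟨_, zi1, _, zb1, zz1⟩ := hZET.2 ι p Mc M₁ hG hM₁
  have hbu := bm_CU hu
  have hl : 0 < p.l := by linarith
  haveI := hfin
  have hfinP : IsFiniteMeasure (PiS (mO p.L) (mO p.L) (∅ : Finset ι)) := fin_PiS _ _ _
  -- the amplitudes
  have hAm : ∀ a (S : Finset ι), BM (Am p θ u a S) ∧ IndS S (Am p θ u a S) := by
    intro a S
    haveI := hprob a
    obtain ⟨v1, v2, _⟩ := hVTP ι C p β θ hS a S
    obtain ⟨a1, a2, _⟩ := hAVP ι (tm (θ a)) S S u u hbu hbu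
    refine ⟨((hBMC.1 _ _ _ v1 a1).2.2.1), ?_⟩
    intro X Y hXY
    unfold Am
    rw [v2 X Y hXY, a2 X Y hXY]
  have hAm2 : ∀ a (S : Finset ι), BM (fun X => zb p Mc M₁ a S X * Am p θ u a S X ^ 2) :=
    fun a S => (hBMC.1 _ _ _ (zb1 a S).1
      (hBMC.1 _ _ _ (hAm a S).1 (hAm a S).1).2.2.2.1).2.2.1
  have hA2 : ∀ a (S : Finset ι), BM (fun X => Am p θ u a S X ^ 2) :=
    fun a S => (hBMC.1 _ _ _ (hAm a S).1 (hAm a S).1).2.2.2.1
  -- the terms
  have hKe : ∀ e : Fin (m + 1) → ι, BM (fun X : ι → E => K (X ∘ e)) := fun e =>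
    hBMC.2.2.2.1 _ _ K (fun X : ι → E => X ∘ e) hK.bm
      (measurable_pi_lambda _ fun s => measurable_pi_apply (e s))
  have hic : ∀ a (S : Finset ι), BM (fun X => ic (Qb a p.l) (cen S X)) := fun a S =>
    hBMC.2.2.2.1 _ _ (ic (Qb a p.l)) (cen S) (bm_ic (hQb a p.l).1) (meas_cen S)
  have hterm : ∀ a (e : Fin (m + 1) → ι), BM (fun X => ic (Qb a p.l) (cen (im e) X) *
      (K (X ∘ e) * (zb p Mc M₁ a (im e) X * Am p θ u a (im e) X ^ 2))) := fun a e =>
    (hBMC.1 _ _ _ (hic a (im e)) (hBMC.1 _ _ _ (hKe e) (hAm2 a (im e))).2.2.1).2.2.1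
  have hhh : ∀ S : Finset ι, BM (hh2 p θ u S) := by
    intro S
    exact hBMC.2.2.1 _ _ p.Gr (fun a X => ic (Qb a p.l) (cen S X) * Am p θ u a S X ^ 2)
      (fun a _ => (hBMC.1 _ _ _ (hic a S) (hA2 a S)).2.2.1)
  have hleft : BM (fun X => ∑ e ∈ Ij (m + 1) ι,
      zi p.l Mc M₁ (e 0) X * (hh2 p θ u (im e) X * K (X ∘ e))) :=
    hBMC.2.2.1 _ _ (Ij (m + 1) ι)
      (fun e X => zi p.l Mc M₁ (e 0) X * (hh2 p θ u (im e) X * K (X ∘ e)))
      (fun e _ => (hBMC.1 _ _ _ (zi1 (e 0)).1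
        (hBMC.1 _ _ _ (hhh (im e)) (hKe e)).2.2.1).2.2.1)
  have hin : ∀ e ∈ Ij (m + 1) ι, BM (fun X => ∑ a ∈ p.Gr, ic (Qb a p.l) (cen (im e) X) *
      (K (X ∘ e) * (zb p Mc M₁ a (im e) X * Am p θ u a (im e) X ^ 2))) := fun e _ =>
    hBMC.2.2.1 _ _ p.Gr (fun a X => ic (Qb a p.l) (cen (im e) X) *
      (K (X ∘ e) * (zb p Mc M₁ a (im e) X * Am p θ u a (im e) X ^ 2))) (fun a _ => hterm a e)
  have hright : BM (fun X => ∑ e ∈ Ij (m + 1) ι, ∑ a ∈ p.Gr, ic (Qb a p.l) (cen (im e) X) *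
      (K (X ∘ e) * (zb p Mc M₁ a (im e) X * Am p θ u a (im e) X ^ 2))) :=
    hBMC.2.2.1 _ _ (Ij (m + 1) ι) (fun e X => ∑ a ∈ p.Gr, ic (Qb a p.l) (cen (im e) X) *
      (K (X ∘ e) * (zb p Mc M₁ a (im e) X * Am p θ u a (im e) X ^ 2))) hin
  -- pointwise
  have hpt : ∀ X : ι → E, ∑ e ∈ Ij (m + 1) ι,
      zi p.l Mc M₁ (e 0) X * (hh2 p θ u (im e) X * K (X ∘ e)) ≤
      ∑ e ∈ Ij (m + 1) ι, ∑ a ∈ p.Gr, ic (Qb a p.l) (cen (im e) X) *
      (K (X ∘ e) * (zb p Mc M₁ a (im e) X * Am p θ u a (im e) X ^ 2)) := by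
    intro X
    refine Finset.sum_le_sum fun e _ => ?_
    unfold hh2
    rw [Finset.sum_mul, Finset.mul_sum]
    refine Finset.sum_le_sum fun a ha => ?_
    have hK0 := hK.nn (X ∘ e)
    have hi0 := ic_nonneg (Qb a p.l) (cen (im e) X)
    by_cases h1 : ic (Qb a p.l) (cen (im e) X) = 0
    · rw [h1]
      simp
    by_cases h2 : K (X ∘ e) = 0
    · rw [h2]
      simp
    have h3 := ic_mem h1
    have h4 := cen_close e X (hK.sp (X ∘ e) h2)
    have h5 : X (e 0) ∈ Qc p a := by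
      refine hQQ a (2 * p.l) (by linarith) ?_
      intro c
      have h6 := h3 c
      have h7 := h4 c
      rw [abs_le] at h6 h7 ⊢
      constructor <;> linarith [h6.1, h6.2, h7.1, h7.2]
    have h8 := (zz1 a ha (im e) X).1 (e 0) h5
    have h9 : 0 ≤ ic (Qb a p.l) (cen (im e) X) * (K (X ∘ e) * Am p θ u a (im e) X ^ 2) :=
      mul_nonneg hi0 (mul_nonneg hK0 (sq_nonneg _))
    calc zi p.l Mc M₁ (e 0) X * (ic (Qb a p.l) (cen (im e) X) * Am p θ u a (im e) X ^ 2 *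
          K (X ∘ e))
        = zi p.l Mc M₁ (e 0) X * (ic (Qb a p.l) (cen (im e) X) *
          (K (X ∘ e) * Am p θ u a (im e) X ^ 2)) := by ring
      _ ≤ zb p Mc M₁ a (im e) X * (ic (Qb a p.l) (cen (im e) X) *
          (K (X ∘ e) * Am p θ u a (im e) X ^ 2)) := mul_le_mul_of_nonneg_right h8 h9
      _ = _ := by ring
  have hvol : ∀ a : E, (volume (Qb a (2 * p.l))).toReal = 64 * p.l ^ 3 := by
    intro a
    rw [(hQb a (2 * p.l)).2 (by positivity), ENNReal.toReal_ofReal (by positivity)]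
    ring
  have hb : ∀ e ∈ Ij (m + 1) ι, ∀ a ∈ p.Gr,
      IO p (fun X => ic (Qb a p.l) (cen (im e) X) * (K (X ∘ e) *
        (zb p Mc M₁ a (im e) X * Am p θ u a (im e) X ^ 2))) ≤
      64 * κ * (p.l ^ 3 * IA p θ a (im e)
        (fun X => zb p Mc M₁ a (im e) X * Am p θ u a (im e) X ^ 2)) := by
    intro e he a ha
    have h := hCLX C m ι p β θ κ K
      (fun _ X => zb p Mc M₁ a (im e) X * Am p θ u a (im e) X ^ 2) hS hK
      (hBMC.2.2.2.1 _ _ (fun X : ι → E => zb p Mc M₁ a (im e) X * Am p θ u a (im e) X ^ 2)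
        Prod.snd (hAm2 a (im e)) measurable_snd)
      (fun _ X => mul_nonneg ((zb1 a (im e)).2.2 X) (sq_nonneg _)) a ha e he
      (fun _ X Y hXY => by
        show zb p Mc M₁ a (im e) X * Am p θ u a (im e) X ^ 2 =
          zb p Mc M₁ a (im e) Y * Am p θ u a (im e) Y ^ 2
        rw [(hAm a (im e)).2 X Y hXY, (zb1 a (im e)).2.1 X Y hXY])
    refine h.trans (le_of_eq ?_)
    rw [setIntegral_const]
    have : (volume : Measure E).real (Qb a (2 * p.l)) = 64 * p.l ^ 3 := hvol a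
    rw [this, smul_eq_mul]
    ring
  calc IO p (fun X => ∑ e ∈ Ij (m + 1) ι,
        zi p.l Mc M₁ (e 0) X * (hh2 p θ u (im e) X * K (X ∘ e)))
      ≤ IO p (fun X => ∑ e ∈ Ij (m + 1) ι, ∑ a ∈ p.Gr, ic (Qb a p.l) (cen (im e) X) *
        (K (X ∘ e) * (zb p Mc M₁ a (im e) X * Am p θ u a (im e) X ^ 2))) := by
        unfold IO
        exact integral_mono ((hBMC.1 _ _ _ hleft hleft).2.2.2.2.2.2 _)
          ((hBMC.1 _ _ _ hright hright).2.2.2.2.2.2 _) hpt
    _ = ∑ e ∈ Ij (m + 1) ι, ∑ a ∈ p.Gr, IO p (fun X => ic (Qb a p.l) (cen (im e) X) *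
        (K (X ∘ e) * (zb p Mc M₁ a (im e) X * Am p θ u a (im e) X ^ 2))) := by
        unfold IO
        rw [integral_finsetSum _ fun e he => (hBMC.1 _ _ _ (hin e he) (hin e he)).2.2.2.2.2.2 _]
        refine Finset.sum_congr rfl fun e _ => ?_
        exact integral_finsetSum _ fun a _ =>
          (hBMC.1 _ _ _ (hterm a e) (hterm a e)).2.2.2.2.2.2 _
    _ ≤ ∑ e ∈ Ij (m + 1) ι, ∑ a ∈ p.Gr, 64 * κ * (p.l ^ 3 * IA p θ a (im e)
        (fun X => zb p Mc M₁ a (im e) X * Am p θ u a (im e) X ^ 2)) :=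
        Finset.sum_le_sum fun e he => Finset.sum_le_sum fun a ha => hb e he a ha
    _ = 64 * κ * AW p Mc M₁ θ u (m + 1) := by
        unfold AW
        rw [Finset.sum_comm]
        simp only [Finset.mul_sum]

end Pool.Agent.TBS
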