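import Pool.Agent.TBS.StmtsC

/-!
# Three-body Bose gases, sharp lower bound, module GW1: weighted cluster sums with one further particle
-/

set_option autoImplicit false

open MeasureTheory Filter Topology
open scoped ContDiff

namespace Pool.Agent.TBS

open Pool.Agent.TBG Pool.Agent.TBL Pool.Agent.TBF

namespace GW1_

lemma finP {ι : Type} [Fintype ι] [DecidableEq ι] (m n : Measure E) [IsFiniteMeasure m]
    [IsFiniteMeasure n] (S : Finset ι) : IsFiniteMeasure (PiS m n S) := by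
  have : ∀ i : ι, IsFiniteMeasure (if i ∈ S then m else n) := by
    intro i
    split_ifs <;> infer_instance
  unfold PiS
  infer_instance

lemma ic_nonneg (Q : Set E) (x : E) : 0 ≤ ic Q x := by
  unfold ic
  exact Set.indicator_nonneg (fun _ _ => zero_le_one) x

lemma ic_le_one (Q : Set E) (x : E) : ic Q x ≤ 1 := by
  unfold ic
  by_cases hx : x ∈ Q
  · rw [Set.indicator_of_mem hx]
  · rw [Set.indicator_of_notMem hx]
    exact zero_le_one

lemma ic_bm {Q : Set E} (hQ : MeasurableSet Q) : BM (ic Q) := by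
  refine ⟨measurable_const.indicator hQ, 1, fun x => ?_⟩
  rw [abs_of_nonneg (ic_nonneg Q x)]
  exact ic_le_one Q x

lemma ic_zero {Q : Set E} {x : E} (hx : x ∉ Q) : ic Q x = 0 := by
  unfold ic
  rw [Set.indicator_of_notMem hx]

lemma cen_eq {ι : Type} [Fintype ι] [DecidableEq ι] {k : ℕ} (e : Fin (k + 1) → ι)
    (he : Function.Injective e) (X : ι → E) (c : Fin 3) :
    cen (im e) X c = ((k : ℝ) + 1)⁻¹ * ∑ t, X (e t) c := by
  unfold cen im
  rw [Finset.card_image_of_injective _ he, Finset.sum_image fun a _ b _ hab => he hab]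
  simp only [Finset.card_univ, Fintype.card_fin]
  rw [PiLp.smul_apply, smul_eq_mul, WithLp.ofLp_sum, Finset.sum_apply]
  push_cast
  rfl

lemma near {k : ℕ} {l : ℝ} (y : Fin (k + 1) → E) (c : Fin 3) (a : E)
    (h1 : ∀ s, |y s c - y 0 c| ≤ l) (h2 : |((k : ℝ) + 1)⁻¹ * ∑ t, y t c - a c| ≤ l) :
    |y 0 c - a c| ≤ 2 * l := by
  have hk : (0 : ℝ) < (k : ℝ) + 1 := by positivity
  have h3 : ((k : ℝ) + 1)⁻¹ * ∑ t, y t c - y 0 c = ((k : ℝ) + 1)⁻¹ * ∑ t, (y t c - y 0 c) := by
    rw [Finset.sum_sub_distrib, Finset.sum_const, Finset.card_univ, Fintype.card_fin,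
      nsmul_eq_mul, mul_sub]
    push_cast
    field_simp
  have h4 : |((k : ℝ) + 1)⁻¹ * ∑ t, y t c - y 0 c| ≤ l := by
    rw [h3, abs_mul, abs_of_pos (inv_pos.2 hk)]
    have h5 : |∑ t, (y t c - y 0 c)| ≤ ((k : ℝ) + 1) * l := by
      refine (Finset.abs_sum_le_sum_abs _ _).trans ?_
      refine (Finset.sum_le_card_nsmul _ _ l fun t _ => h1 t).trans ?_
      rw [Finset.card_univ, Fintype.card_fin, nsmul_eq_mul]
      push_cast
      exact le_rfl
    calc ((k : ℝ) + 1)⁻¹ * |∑ t, (y t c - y 0 c)| ≤ ((k : ℝ) + 1)⁻¹ * (((k : ℝ) + 1) * l) := by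
          gcongr
      _ = l := by field_simp
  rw [abs_le] at *
  constructor <;> linarith [h2.1, h2.2, h4.1, h4.2]

end GW1_

open GW1_

theorem gw1_proof (hBMC : Pool.Agent.TBL.Stmt_BMC) (hMSY : Stmt_MSY) (hAVP : Stmt_AVP)
    (_hAVI : Stmt_AVI) (hVTP : Stmt_VTP) (hCLX : Stmt_CLX) (hHSF : Stmt_HSF) (_hGRD : Stmt_GRD)
    (hZET : Stmt_ZET) : Stmt_GW1 := by
  intro C m
  obtain ⟨_, -, hH⟩ := hHSF C
  refine ⟨1, one_pos, ?_⟩
  intro ι _ _ p Mc M₁ β θ u κ w₁ w₂ w₃ K q hG hM1 hS huC hK hq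
  obtain ⟨-, hZi, -, hZb, hZc⟩ := hZET.2 ι p Mc M₁ hG hM1
  obtain ⟨hl1, hfin, -, -, hQb, hQc, hprob, -, -, -, -, -⟩ := hMSY C p β θ hS
  have hfin' : IsFiniteMeasure (mO p.L) := hfin
  have hprob' : ∀ a, IsProbabilityMeasure (tm (θ a)) := hprob
  have hfP : ∀ (a : E) (S : Finset ι), IsFiniteMeasure (PiS (tm (θ a)) (mO p.L) S) := fun a S =>
    finP _ _ S
  have hfO : IsFiniteMeasure (PiS (mO p.L) (mO p.L) (∅ : Finset ι)) := finP _ _ _
  have hl : 0 < p.l := by linarith
  have hl3 : 0 < p.l ^ 3 := by positivity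
  have hM : 0 ≤ p.M := by linarith [hS.hM]
  have hu : BM u := by
    obtain ⟨B, hB⟩ := huC.2.exists_bound_of_continuous huC.1.continuous
    exact ⟨huC.1.continuous.measurable, B, fun X => hB X⟩
  have hvQ : ∀ (r : ℝ), 0 ≤ r → ∀ b : E, volume (Qb b r) < ⊤ := by
    intro r hr b
    rw [(hQb b r).2 hr]
    exact ENNReal.ofReal_lt_top
  have mul : ∀ {α : Type} [MeasurableSpace α] {F G : α → ℝ}, BM F → BM G →
      BM (fun X => F X * G X) := fun {α} _ {F G} hF hG => (hBMC.1 α F G hF hG).2.2.1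
  have cmul : ∀ {α : Type} [MeasurableSpace α] {F : α → ℝ} (c : ℝ), BM F →
      BM (fun X => c * F X) := fun {α} _ {F} c hF => (hBMC.1 α F F hF hF).2.2.2.2.2.1 c
  have hint : ∀ {α : Type} [MeasurableSpace α] {F : α → ℝ} (μ : Measure α) [IsFiniteMeasure μ],
      BM F → Integrable F μ := fun {α} _ {F} μ _ hF => (hBMC.1 α F F hF hF).2.2.2.2.2.2 μ
  have comp : ∀ {α γ : Type} [MeasurableSpace α] [MeasurableSpace γ] {F : α → ℝ} {f : γ → α},
      BM F → Measurable f → BM (fun X => F (f X)) := fun {α γ} _ _ {F f} hF hf =>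
    hBMC.2.2.2.1 α γ F f hF hf
  have sum : ∀ {α J : Type} [MeasurableSpace α] (s : Finset J) {F : J → α → ℝ},
      (∀ j ∈ s, BM (F j)) → BM (fun X => ∑ j ∈ s, F j X) := fun {α J} _ s {F} h =>
    hBMC.2.2.1 α J s F h
  -- the amplitude
  have hAm : ∀ (a : E) (S : Finset ι), BM (Am p θ u a S) := fun a S =>
    mul (hVTP ι C p β θ hS a S).1 (hAVP ι (tm (θ a)) S ∅ u u hu hu).1
  have hAm2 : ∀ (a : E) (S : Finset ι), BM (fun X => Am p θ u a S X ^ 2) := fun a S =>
    (hBMC.1 _ _ _ (hAm a S) (hAm a S)).2.2.2.1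
  have hAmI : ∀ (a : E) (S : Finset ι), IndS S (Am p θ u a S) := by
    intro a S X Y h
    unfold Am
    rw [(hVTP ι C p β θ hS a S).2.1 X Y h, (hAVP ι (tm (θ a)) S ∅ u u hu hu).2.1 X Y h]
  have hAmM : ∀ (a : E) (S : Finset ι) (r : ℝ), r ≤ 10 * p.l → ∀ X,
      (∑ j ∈ Finset.univ \ S, ic (Qb a r) (X j)) * Am p θ u a S X ^ 2 ≤
        p.M * Am p θ u a S X ^ 2 := by
    intro a S r hr X
    have h1 := ((hVTP ι C p β θ hS a S).2.2.1 X).2.2 r hr
    have h2 := ((hVTP ι C p β θ hS a S).2.2.1 X).1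
    unfold Am
    rcases h2 with h2 | h2
    · rw [h2]; simp
    · rw [h2, one_mul, mul_one] at h1
      rw [h2, one_mul]
      exact mul_le_mul_of_nonneg_right h1 (sq_nonneg _)
  -- the weighted amplitude
  have hB0 : ∀ (a : E) (S : Finset ι) (X : ι → E), 0 ≤ zb p Mc M₁ a S X * Am p θ u a S X ^ 2 :=
    fun a S X => mul_nonneg ((hZb a S).2.2 X) (sq_nonneg _)
  have hBB : ∀ (a : E) (S : Finset ι), BM (fun X => zb p Mc M₁ a S X * Am p θ u a S X ^ 2) :=
    fun a S => mul (hZb a S).1 (hAm2 a S)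
  have hBM' : ∀ (a : E) (S : Finset ι) (r : ℝ), r ≤ 10 * p.l → ∀ X,
      (∑ j ∈ Finset.univ \ S, ic (Qb a r) (X j)) * (zb p Mc M₁ a S X * Am p θ u a S X ^ 2) ≤
        p.M * (zb p Mc M₁ a S X * Am p θ u a S X ^ 2) := by
    intro a S r hr X
    have h1 := mul_le_mul_of_nonneg_left (hAmM a S r hr X) ((hZb a S).2.2 X)
    calc (∑ j ∈ Finset.univ \ S, ic (Qb a r) (X j)) * (zb p Mc M₁ a S X * Am p θ u a S X ^ 2)
        = zb p Mc M₁ a S X * ((∑ j ∈ Finset.univ \ S, ic (Qb a r) (X j)) *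
          Am p θ u a S X ^ 2) := by ring
      _ ≤ zb p Mc M₁ a S X * (p.M * Am p θ u a S X ^ 2) := h1
      _ = p.M * (zb p Mc M₁ a S X * Am p θ u a S X ^ 2) := by ring
  have hκ : 0 ≤ κ := (integral_nonneg fun z => hK.nn _).trans (hK.mass 0)
  have hw : 0 ≤ w₁ := (integral_nonneg fun x => hq.nn x).trans hq.m1
  have hqB : BM q := ⟨hq.meas, 1, fun x => by rw [abs_of_nonneg (hq.nn x)]; exact hq.le1 x⟩
  have hqi : Integrable q := by
    have hi : IntegrableOn q (Qb 0 p.l) :=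
      IntegrableOn.of_bound (hvQ _ hl.le 0) hq.meas.aestronglyMeasurable 1
        (Eventually.of_forall fun x => by
          rw [Real.norm_of_nonneg (hq.nn x)]
          exact hq.le1 x)
    refine (integrableOn_iff_integrable_of_support_subset fun x hx => ?_).1 hi
    intro c
    have := hq.sp x hx c
    simpa using this
  have cenm : ∀ S : Finset ι, Measurable (cen S : (ι → E) → E) := by
    intro S
    unfold cen
    fun_prop
  -- the inner integral
  have inn : ∀ (a y : E), ∫ x in Qb a (2 * p.l), q (x - y) ≤ w₁ * ic (Qb a (3 * p.l)) y := by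
    intro a y
    by_cases hy : y ∈ Qb a (3 * p.l)
    · have h1 : ic (Qb a (3 * p.l)) y = 1 := by
        unfold ic
        rw [Set.indicator_of_mem hy]
      rw [h1, mul_one]
      calc ∫ x in Qb a (2 * p.l), q (x - y) ≤ ∫ x, q (x - y) :=
            setIntegral_le_integral (hqi.comp_sub_right y) (Eventually.of_forall fun x => hq.nn _)
        _ = ∫ x, q x := integral_sub_right_eq_self q y
        _ ≤ w₁ := hq.m1
    · rw [ic_zero hy, mul_zero]
      refine le_of_eq (setIntegral_eq_zero_of_forall_eq_zero fun x hx => ?_)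
      by_contra hne
      refine hy fun c => ?_
      have h2 := hq.sp _ hne c
      have h3 := hx c
      rw [PiLp.sub_apply] at h2
      rw [abs_le] at *
      constructor <;> linarith [h2.1, h2.2, h3.1, h3.2]
  have key : ∀ a ∈ p.Gr, ∀ e ∈ Ij (m + 1) ι, ∀ j : ι, j ∉ im e →
      IO p (fun X => ic (Qb a p.l) (cen (im e) X) *
        (K (X ∘ e) * (zb p Mc M₁ a (im e) X * Am p θ u a (im e) X ^ 2 * q (X (e 0) - X j)))) ≤
      κ * (w₁ * IA p θ a (im e) (fun X => ic (Qb a (3 * p.l)) (X j) *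
        (zb p Mc M₁ a (im e) X * Am p θ u a (im e) X ^ 2))) := by
    intro a ha e he j hj
    have hmF : Measurable (fun r : E × (ι → E) => r.1 - r.2 j) :=
      measurable_fst.sub ((measurable_pi_apply j).comp measurable_snd)
    have hFB : BM (fun r : E × (ι → E) => zb p Mc M₁ a (im e) r.2 * Am p θ u a (im e) r.2 ^ 2 *
        q (r.1 - r.2 j)) :=
      mul (comp (hBB a (im e)) measurable_snd) (comp hqB hmF)
    have h1 := hCLX C m ι p β θ κ K
      (fun x X => zb p Mc M₁ a (im e) X * Am p θ u a (im e) X ^ 2 * q (x - X j)) hS hK hFB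
      (fun x X => mul_nonneg (hB0 a (im e) X) (hq.nn _)) a ha e he (by
        intro x X Y h
        simp only
        rw [(hZb a (im e)).2.1 X Y h, hAmI a (im e) X Y h, h j hj])
    refine h1.trans (mul_le_mul_of_nonneg_left ?_ hκ)
    have hfQ : IsFiniteMeasure ((volume : Measure E).restrict (Qb a (2 * p.l))) :=
      ⟨by rw [Measure.restrict_apply_univ]; exact hvQ _ (by linarith) a⟩
    unfold IA
    rw [integral_integral_swap (hint _ hFB)]
    rw [← integral_const_mul]
    have hb1 : BM (fun X : ι → E => ∫ x in Qb a (2 * p.l),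
        zb p Mc M₁ a (im e) X * Am p θ u a (im e) X ^ 2 * q (x - X j)) := by
      have e0 : (fun X : ι → E => ∫ x in Qb a (2 * p.l),
          zb p Mc M₁ a (im e) X * Am p θ u a (im e) X ^ 2 * q (x - X j)) =
          fun X => zb p Mc M₁ a (im e) X * Am p θ u a (im e) X ^ 2 *
            ∫ x in Qb a (2 * p.l), q (x - X j) := by
        funext X
        rw [integral_const_mul]
      rw [e0]
      refine mul (hBB a (im e)) ?_
      refine comp (F := fun y : E => ∫ x in Qb a (2 * p.l), q (x - y)) ?_ (measurable_pi_apply j)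
      refine ⟨?_, w₁, fun y => ?_⟩
      · have : StronglyMeasurable (fun y : E => ∫ x in Qb a (2 * p.l), q (x - y)) := by
          have h2 : Measurable (fun r : E × E => q (r.2 - r.1)) :=
            hq.meas.comp (measurable_snd.sub measurable_fst)
          exact h2.stronglyMeasurable.integral_prod_right'
        exact this.measurable
      · rw [abs_of_nonneg (integral_nonneg fun x => hq.nn _)]
        refine (inn a y).trans ?_
        calc w₁ * ic (Qb a (3 * p.l)) y ≤ w₁ * 1 :=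
              mul_le_mul_of_nonneg_left (ic_le_one _ _) hw
          _ = w₁ := mul_one _
    refine integral_mono (hint _ hb1)
      (hint _ (cmul w₁ (mul (comp (ic_bm (hQb a (3 * p.l)).1) (measurable_pi_apply j))
        (hBB a (im e))))) fun X => ?_
    simp only
    rw [integral_const_mul]
    calc zb p Mc M₁ a (im e) X * Am p θ u a (im e) X ^ 2 * ∫ x in Qb a (2 * p.l), q (x - X j)
        ≤ zb p Mc M₁ a (im e) X * Am p θ u a (im e) X ^ 2 * (w₁ * ic (Qb a (3 * p.l)) (X j)) :=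
          mul_le_mul_of_nonneg_left (inn a (X j)) (hB0 a (im e) X)
      _ = w₁ * (ic (Qb a (3 * p.l)) (X j) *
          (zb p Mc M₁ a (im e) X * Am p θ u a (im e) X ^ 2)) := by ring
  have hpt : ∀ a ∈ p.Gr, ∀ e ∈ Ij (m + 1) ι, ∀ (j : ι) (X : ι → E),
      zi p.l Mc M₁ (e 0) X * (ic (Qb a p.l) (cen (im e) X) * Am p θ u a (im e) X ^ 2 *
        (K (X ∘ e) * q (X (e 0) - X j))) ≤
      ic (Qb a p.l) (cen (im e) X) *
        (K (X ∘ e) * (zb p Mc M₁ a (im e) X * Am p θ u a (im e) X ^ 2 *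
          q (X (e 0) - X j))) := by
    intro a ha e he j X
    have hinj : Function.Injective e := by
      have := he
      unfold Ij at this
      simpa using this
    by_cases hc : cen (im e) X ∈ Qb a p.l
    · by_cases hK0 : K (X ∘ e) = 0
      · rw [hK0]; simp
      · have hX0 : X (e 0) ∈ Qb a (2 * p.l) := by
          intro c
          refine near (fun t => X (e t)) c a (fun s => hK.sp _ hK0 s c) ?_
          have h2 := hc c
          rw [cen_eq e hinj] at h2
          exact h2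
        have hX1 : X (e 0) ∈ Qc p a := hQc a (2 * p.l) (by linarith) hX0
        have h3 := (hZc a ha (im e) X).1 (e 0) hX1
        have h4 : 0 ≤ ic (Qb a p.l) (cen (im e) X) * Am p θ u a (im e) X ^ 2 *
            (K (X ∘ e) * q (X (e 0) - X j)) :=
          mul_nonneg (mul_nonneg (ic_nonneg _ _) (sq_nonneg _)) (mul_nonneg (hK.nn _) (hq.nn _))
        refine (mul_le_mul_of_nonneg_right h3 h4).trans (le_of_eq ?_)
        ring
    · rw [ic_zero hc]; simp
  have hm1 : ∀ e : Fin (m + 1) → ι, Measurable (fun X : ι → E => X ∘ e) := fun e =>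
    measurable_pi_iff.2 fun s => measurable_pi_apply (e s)
  have hm2 : ∀ (e : Fin (m + 1) → ι) (j : ι), Measurable (fun X : ι → E => X (e 0) - X j) :=
    fun e j => (measurable_pi_apply (e 0)).sub (measurable_pi_apply j)
  have hTB : ∀ (e : Fin (m + 1) → ι) (j : ι) (a : E), BM (fun X : ι → E =>
      zi p.l Mc M₁ (e 0) X * (ic (Qb a p.l) (cen (im e) X) * Am p θ u a (im e) X ^ 2 *
        (K (X ∘ e) * q (X (e 0) - X j)))) := fun e j a =>
    mul (hZi (e 0)).1 (mul (mul (comp (ic_bm (hQb a p.l).1) (cenm (im e))) (hAm2 a (im e)))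
      (mul (comp hK.bm (hm1 e)) (comp hqB (hm2 e j))))
  have hTe : ∀ (e : Fin (m + 1) → ι) (j : ι), (fun X : ι → E => zi p.l Mc M₁ (e 0) X *
      (hh2 p θ u (im e) X * (K (X ∘ e) * q (X (e 0) - X j)))) = fun X => ∑ a ∈ p.Gr,
        zi p.l Mc M₁ (e 0) X * (ic (Qb a p.l) (cen (im e) X) * Am p θ u a (im e) X ^ 2 *
        (K (X ∘ e) * q (X (e 0) - X j))) := by
    intro e j
    funext X
    unfold hh2
    rw [Finset.sum_mul, Finset.mul_sum]
  have hTB' : ∀ (e : Fin (m + 1) → ι) (j : ι), BM (fun X : ι → E => zi p.l Mc M₁ (e 0) X *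
      (hh2 p θ u (im e) X * (K (X ∘ e) * q (X (e 0) - X j)))) := by
    intro e j
    rw [hTe e j]
    exact sum _ fun a _ => hTB e j a
  have hterm : ∀ e ∈ Ij (m + 1) ι, ∀ j : ι, j ∉ im e →
      IO p (fun X => zi p.l Mc M₁ (e 0) X *
        (hh2 p θ u (im e) X * (K (X ∘ e) * q (X (e 0) - X j)))) ≤
      ∑ a ∈ p.Gr, κ * (w₁ * IA p θ a (im e) (fun X => ic (Qb a (3 * p.l)) (X j) *
        (zb p Mc M₁ a (im e) X * Am p θ u a (im e) X ^ 2))) := by
    intro e he j hj
    rw [hTe e j]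
    unfold IO
    rw [integral_finsetSum _ fun a _ => hint _ (hTB e j a)]
    refine Finset.sum_le_sum fun a ha => le_trans ?_ (key a ha e he j hj)
    unfold IO
    refine integral_mono (hint _ (hTB e j a)) (hint _ ?_) fun X => hpt a ha e he j X
    exact mul (comp (ic_bm (hQb a p.l).1) (cenm (im e))) (mul (comp hK.bm (hm1 e))
      (mul (hBB a (im e)) (comp hqB (hm2 e j))))
  have hsum : ∀ e ∈ Ij (m + 1) ι,
      ∑ j ∈ Finset.univ \ im e, IO p (fun X => zi p.l Mc M₁ (e 0) X *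
        (hh2 p θ u (im e) X * (K (X ∘ e) * q (X (e 0) - X j)))) ≤
      ∑ a ∈ p.Gr, κ * (w₁ * (p.M * IA p θ a (im e) (fun X =>
        zb p Mc M₁ a (im e) X * Am p θ u a (im e) X ^ 2))) := by
    intro e he
    have e2 : ∑ i ∈ Finset.univ \ im e, IO p (fun X => zi p.l Mc M₁ (e 0) X *
        (hh2 p θ u (im e) X * (K (X ∘ e) * q (X (e 0) - X i)))) ≤
        ∑ i ∈ Finset.univ \ im e, ∑ a ∈ p.Gr, κ * (w₁ * IA p θ a (im e)
          (fun X => ic (Qb a (3 * p.l)) (X i) *
            (zb p Mc M₁ a (im e) X * Am p θ u a (im e) X ^ 2))) := by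
      refine Finset.sum_le_sum fun i hi => ?_
      rw [Finset.mem_sdiff] at hi
      exact hterm e he i hi.2
    refine e2.trans ?_
    rw [Finset.sum_comm]
    refine Finset.sum_le_sum fun a _ => ?_
    rw [← Finset.mul_sum, ← Finset.mul_sum]
    refine mul_le_mul_of_nonneg_left (mul_le_mul_of_nonneg_left ?_ hw) hκ
    have hbi : ∀ i : ι, BM (fun X : ι → E => ic (Qb a (3 * p.l)) (X i) *
        (zb p Mc M₁ a (im e) X * Am p θ u a (im e) X ^ 2)) := fun i =>
      mul (comp (ic_bm (hQb a (3 * p.l)).1) (measurable_pi_apply i)) (hBB a (im e))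
    unfold IA
    rw [← integral_finsetSum _ fun i _ => hint _ (hbi i), ← integral_const_mul]
    refine integral_mono (hint _ (sum _ fun i _ => hbi i)) (hint _ (cmul p.M (hBB a (im e))))
      fun X => ?_
    simp only
    rw [← Finset.sum_mul]
    exact hBM' a (im e) (3 * p.l) (by linarith) X
  have hexp : IO p (fun X => ∑ e ∈ Ij (m + 1) ι, ∑ j ∈ Finset.univ \ im e,
      zi p.l Mc M₁ (e 0) X * (hh2 p θ u (im e) X * (K (X ∘ e) * q (X (e 0) - X j)))) =
      ∑ e ∈ Ij (m + 1) ι, ∑ j ∈ Finset.univ \ im e, IO p (fun X =>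
      zi p.l Mc M₁ (e 0) X * (hh2 p θ u (im e) X * (K (X ∘ e) * q (X (e 0) - X j)))) := by
    unfold IO
    rw [integral_finsetSum _ fun e _ => hint _ (sum _ fun j _ => hTB' e j)]
    refine Finset.sum_congr rfl fun e _ => ?_
    rw [integral_finsetSum _ fun j _ => hint _ (hTB' e j)]
  rw [hexp]
  have hfinal : ∑ e ∈ Ij (m + 1) ι, ∑ j ∈ Finset.univ \ im e, IO p (fun X =>
      zi p.l Mc M₁ (e 0) X * (hh2 p θ u (im e) X * (K (X ∘ e) * q (X (e 0) - X j)))) ≤
      ∑ e ∈ Ij (m + 1) ι, ∑ a ∈ p.Gr, κ * (w₁ * (p.M * IA p θ a (im e) (fun X =>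
        zb p Mc M₁ a (im e) X * Am p θ u a (im e) X ^ 2))) :=
    Finset.sum_le_sum fun e he => hsum e he
  refine hfinal.trans (le_of_eq ?_)
  unfold AW
  rw [Finset.sum_comm]
  simp_rw [← Finset.mul_sum]
  field_simp

end Pool.Agent.TBS
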