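import Pool.Agent.TBS.StmtsA

set_option autoImplicit false

open MeasureTheory Filter Topology
open scoped ContDiff

namespace Pool.Agent.TBS

open Pool.Agent.TBG Pool.Agent.TBL Pool.Agent.TBF

namespace HAR_

/-- the regularised denominator -/
noncomputable def q (c₀ : E) (ε : ℝ) (x : E) : ℝ := ‖x - c₀‖ ^ 2 + ε

/-- the field -/
noncomputable def F (c₀ : E) (ε : ℝ) (c : Fin 3) (x : E) : ℝ := (x - c₀) c / q c₀ ε x

theorem q_pos (c₀ : E) {ε : ℝ} (hε : 0 < ε) (x : E) : 0 < q c₀ ε x := by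
  unfold q; positivity

theorem q_der (c₀ : E) (ε : ℝ) (x : E) :
    HasFDerivAt (q c₀ ε) ((2 : ℕ) • (innerSL ℝ (x - c₀)).comp (ContinuousLinearMap.id ℝ E)) x := by
  have h1 : HasFDerivAt (fun x : E => x - c₀) (ContinuousLinearMap.id ℝ E) x := (hasFDerivAt_id x).sub_const c₀
  have h2 := h1.norm_sq
  exact h2.add_const ε

theorem h_der (c₀ : E) (c : Fin 3) (x : E) :
    HasFDerivAt (fun x : E => (x - c₀) c) (EuclideanSpace.proj c : E →L[ℝ] ℝ) x := by
  have h1 : HasFDerivAt (fun x : E => x - c₀) (ContinuousLinearMap.id ℝ E) x := (hasFDerivAt_id x).sub_const c₀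
  exact ((EuclideanSpace.proj c : E →L[ℝ] ℝ).hasFDerivAt).comp x h1

theorem inner_ev (y : E) (c : Fin 3) : inner ℝ y (ev c) = y c := by
  unfold ev
  rw [EuclideanSpace.inner_single_right]
  simp

theorem proj_ev (c : Fin 3) : (EuclideanSpace.proj c : E →L[ℝ] ℝ) (ev c) = 1 := by
  unfold ev
  simp

theorem F_der (c₀ : E) {ε : ℝ} (hε : 0 < ε) (c : Fin 3) (x : E) :
    pd c (F c₀ ε c) x = 1 / q c₀ ε x - 2 * ((x - c₀) c) ^ 2 / (q c₀ ε x) ^ 2 := by
  have hq := (q_pos c₀ hε x).ne'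
  have h1 : HasFDerivAt (fun x : E => (q c₀ ε x)⁻¹) (-((q c₀ ε x) ^ 2)⁻¹ •
      ((2 : ℕ) • (innerSL ℝ (x - c₀)).comp (ContinuousLinearMap.id ℝ E))) x :=
    (hasDerivAt_inv hq).comp_hasFDerivAt x (q_der c₀ ε x)
  have h := (h_der c₀ c x).mul h1
  unfold pd
  have e : F c₀ ε c = (fun x : E => (x - c₀) c) * (fun x : E => (q c₀ ε x)⁻¹) := by
    funext y
    show (y - c₀) c / q c₀ ε y = (y - c₀) c * (q c₀ ε y)⁻¹
    rw [div_eq_mul_inv]
  rw [e, h.fderiv]
  simp only [ContinuousLinearMap.smul_apply, ContinuousLinearMap.add_apply, proj_ev, smul_eq_mul,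
    ContinuousLinearMap.comp_apply, ContinuousLinearMap.id_apply, innerSL_apply_apply, inner_ev, nsmul_eq_mul]
  field_simp
  ring

theorem q_smooth (c₀ : E) (ε : ℝ) : ContDiff ℝ 1 (q c₀ ε) := by
  unfold q
  exact ((contDiff_id.sub contDiff_const).norm_sq ℝ).add contDiff_const

theorem h_smooth (c₀ : E) (c : Fin 3) : ContDiff ℝ 1 (fun x : E => (x - c₀) c) := by
  exact (EuclideanSpace.proj c : E →L[ℝ] ℝ).contDiff.comp (contDiff_id.sub contDiff_const)

theorem F_smooth (c₀ : E) {ε : ℝ} (hε : 0 < ε) (c : Fin 3) : ContDiff ℝ 1 (F c₀ ε c) :=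
  (h_smooth c₀ c).div (q_smooth c₀ ε) (fun x => (q_pos c₀ hε x).ne')

theorem sum_sq (c₀ x : E) : ∑ c, ((x - c₀) c) ^ 2 = ‖x - c₀‖ ^ 2 := by
  rw [EuclideanSpace.real_norm_sq_eq]

theorem reg (hIBP : Pool.Agent.TBG.Stmt_IBP) (f : E → ℝ) (c₀ : E) (hf : ContDiff ℝ 1 f) (hs : HasCompactSupport f)
    {ε : ℝ} (hε : 0 < ε) : Integrable (fun x => f x ^ 2 / q c₀ ε x) ∧
    ∫ x, f x ^ 2 / q c₀ ε x ≤ 4 * ∫ x, ∑ c, pd c f x ^ 2 := by
  have hqc : Continuous (q c₀ ε) := (q_smooth c₀ ε).continuous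
  have hq0 : ∀ x, q c₀ ε x ≠ 0 := fun x => (q_pos c₀ hε x).ne'
  have hfd : ∀ x, DifferentiableAt ℝ f x := fun x => (hf.differentiable (by norm_num)) x
  have hpdc : ∀ c, Continuous (pd c f) := fun c =>
    (hf.continuous_fderiv (by norm_num)).clm_apply continuous_const
  have hpds : ∀ c, HasCompactSupport (pd c f) := fun c => hs.fderiv_apply (𝕜 := ℝ) (ev c)
  -- integrability
  have hint1 : Integrable (fun x => f x ^ 2 / q c₀ ε x) := by
    refine Continuous.integrable_of_hasCompactSupport ((hf.continuous.pow 2).div hqc hq0) ?_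
    refine hs.mono ?_
    intro x hx
    rw [Function.mem_support] at hx ⊢
    intro h
    apply hx
    show f x ^ 2 / q c₀ ε x = 0
    rw [h]; simp
  have hint2 : Integrable (fun x => ∑ c, pd c f x ^ 2) := by
    refine integrable_finset_sum _ fun c _ => ?_
    refine Continuous.integrable_of_hasCompactSupport ((hpdc c).pow 2) ?_
    refine (hpds c).mono ?_
    intro x hx
    rw [Function.mem_support] at hx ⊢
    intro h
    apply hx
    show pd c f x ^ 2 = 0
    rw [h]; simp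
  refine ⟨hint1, ?_⟩
  have hf2 : ContDiff ℝ 1 (fun x => f x ^ 2) := hf.pow 2
  have hf2s : HasCompactSupport (fun x => f x ^ 2) := by
    refine hs.mono ?_
    intro x hx
    rw [Function.mem_support] at hx ⊢
    intro h
    apply hx
    show f x ^ 2 = 0
    rw [h]; simp
  have hFs := fun c => F_smooth c₀ hε c
  have hpdF : ∀ c, Continuous (pd c (F c₀ ε c)) := fun c =>
    ((hFs c).continuous_fderiv (by norm_num)).clm_apply continuous_const
  have hibp : ∀ c, ∫ x, f x ^ 2 * pd c (F c₀ ε c) x = - ∫ x, pd c (fun x => f x ^ 2) x * F c₀ ε c x := fun c =>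
    (hIBP E volume (fun x => f x ^ 2) (F c₀ ε c) (ev c) hf2 (hFs c) hf2s).2
  have hder2 : ∀ c x, pd c (fun x => f x ^ 2) x = 2 * f x * pd c f x := by
    intro c x
    unfold pd
    have h := (hfd x).hasFDerivAt.pow 2
    have e : (fun x => f x ^ 2) = (fun x => f x) ^ 2 := rfl
    rw [e]
    erw [h.fderiv]
    simp
  have hI1 : ∀ c, Integrable (fun x => f x ^ 2 * pd c (F c₀ ε c) x) := by
    intro c
    refine Continuous.integrable_of_hasCompactSupport ((hf.continuous.pow 2).mul (hpdF c)) ?_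
    exact hf2s.mul_right
  have hI2 : ∀ c, Integrable (fun x => pd c (fun x => f x ^ 2) x * F c₀ ε c x) := by
    intro c
    have hc : Continuous (pd c (fun x => f x ^ 2)) :=
      (hf2.continuous_fderiv (by norm_num)).clm_apply continuous_const
    refine Continuous.integrable_of_hasCompactSupport (hc.mul (hFs c).continuous) ?_
    exact HasCompactSupport.mul_right (hf2s.fderiv_apply (𝕜 := ℝ) (ev c))
  have hL : ∫ x, f x ^ 2 / q c₀ ε x ≤ ∫ x, ∑ c, f x ^ 2 * pd c (F c₀ ε c) x := by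
    refine integral_mono hint1 (integrable_finset_sum _ fun c _ => hI1 c) ?_
    intro x
    show f x ^ 2 / q c₀ ε x ≤ ∑ c, f x ^ 2 * pd c (F c₀ ε c) x
    rw [← Finset.mul_sum]
    have e : ∑ c, pd c (F c₀ ε c) x = 3 / q c₀ ε x - 2 * ‖x - c₀‖ ^ 2 / (q c₀ ε x) ^ 2 := by
      rw [← sum_sq c₀ x, Finset.mul_sum, Finset.sum_div]
      rw [Finset.sum_congr rfl fun c _ => F_der c₀ hε c x, Finset.sum_sub_distrib]
      congr 1
      rw [Finset.sum_const]
      simp
      ring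
    rw [e, div_eq_mul_inv]
    refine mul_le_mul_of_nonneg_left ?_ (sq_nonneg _)
    have hqp := q_pos c₀ hε x
    have hr : ‖x - c₀‖ ^ 2 = q c₀ ε x - ε := by unfold q; ring
    rw [hr]
    have : 3 / q c₀ ε x - 2 * (q c₀ ε x - ε) / q c₀ ε x ^ 2 - (q c₀ ε x)⁻¹ = 2 * ε / q c₀ ε x ^ 2 := by
      field_simp
      ring
    have h2 : 0 ≤ 2 * ε / q c₀ ε x ^ 2 := by positivity
    linarith
  have hM : ∫ x, ∑ c, f x ^ 2 * pd c (F c₀ ε c) x = ∫ x, ∑ c, -(pd c (fun x => f x ^ 2) x * F c₀ ε c x) := by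
    rw [integral_finset_sum _ (fun c _ => hI1 c), integral_finset_sum _ (f := fun c x => -(pd c (fun x => f x ^ 2) x * F c₀ ε c x)) (fun c _ => (hI2 c).neg)]
    refine Finset.sum_congr rfl fun c _ => ?_
    rw [hibp c, integral_neg]
  have hR : ∫ x, ∑ c, -(pd c (fun x => f x ^ 2) x * F c₀ ε c x) ≤
      ∫ x, (2 * (∑ c, pd c f x ^ 2) + 1 / 2 * (f x ^ 2 / q c₀ ε x)) := by
    refine integral_mono (integrable_finset_sum _ fun c _ => (hI2 c).neg)
      ((hint2.const_mul 2).add (hint1.const_mul (1 / 2))) ?_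
    intro x
    show ∑ c, -(pd c (fun x => f x ^ 2) x * F c₀ ε c x) ≤ 2 * (∑ c, pd c f x ^ 2) + 1 / 2 * (f x ^ 2 / q c₀ ε x)
    have hqp := q_pos c₀ hε x
    have hS : ∑ c, F c₀ ε c x ^ 2 ≤ 1 / q c₀ ε x := by
      have e : ∑ c, F c₀ ε c x ^ 2 = ‖x - c₀‖ ^ 2 / q c₀ ε x ^ 2 := by
        rw [← sum_sq c₀ x, Finset.sum_div]
        refine Finset.sum_congr rfl fun c _ => ?_
        unfold F
        rw [div_pow]
      rw [e, div_le_div_iff₀ (by positivity) hqp]
      have hr : ‖x - c₀‖ ^ 2 ≤ q c₀ ε x := by unfold q; linarith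
      nlinarith
    have h1 : ∀ c, -(pd c (fun x => f x ^ 2) x * F c₀ ε c x) ≤ 2 * pd c f x ^ 2 + 1 / 2 * (f x ^ 2 * F c₀ ε c x ^ 2) := by
      intro c
      rw [hder2 c x]
      nlinarith [sq_nonneg (2 * pd c f x + f x * F c₀ ε c x)]
    calc ∑ c, -(pd c (fun x => f x ^ 2) x * F c₀ ε c x)
        ≤ ∑ c, (2 * pd c f x ^ 2 + 1 / 2 * (f x ^ 2 * F c₀ ε c x ^ 2)) := Finset.sum_le_sum fun c _ => h1 c
      _ = 2 * (∑ c, pd c f x ^ 2) + 1 / 2 * (f x ^ 2 * ∑ c, F c₀ ε c x ^ 2) := by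
          rw [Finset.sum_add_distrib, ← Finset.mul_sum, ← Finset.mul_sum, ← Finset.mul_sum]
      _ ≤ 2 * (∑ c, pd c f x ^ 2) + 1 / 2 * (f x ^ 2 / q c₀ ε x) := by
          have : f x ^ 2 * ∑ c, F c₀ ε c x ^ 2 ≤ f x ^ 2 / q c₀ ε x := by
            calc _ ≤ f x ^ 2 * (1 / q c₀ ε x) := mul_le_mul_of_nonneg_left hS (sq_nonneg _)
              _ = _ := by ring
          linarith
  rw [integral_add (hint2.const_mul 2) (hint1.const_mul (1 / 2)), integral_const_mul, integral_const_mul] at hR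
  linarith

end HAR_

open HAR_ in
theorem har_proof (hIBP : Pool.Agent.TBG.Stmt_IBP) : Stmt_HAR := by
  intro f c₀ hf hs
  set K : ℝ := 4 * ∫ x, ∑ c, pd c f x ^ 2 with hK
  have hK0 : 0 ≤ K := by
    have : 0 ≤ ∫ x, ∑ c, pd c f x ^ 2 := integral_nonneg fun x => Finset.sum_nonneg fun c _ => sq_nonneg _
    linarith
  have hpos : ∀ n : ℕ, (0 : ℝ) < 1 / ((n : ℝ) + 1) := fun n => by positivity
  have hmeas : Measurable (fun x => f x ^ 2 / ‖x - c₀‖ ^ 2) := by
    have := hf.continuous.measurable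
    fun_prop
  have hlim : ∀ᵐ x : E, Tendsto (fun n : ℕ => ENNReal.ofReal (f x ^ 2 / q c₀ (1 / ((n : ℝ) + 1)) x)) atTop
      (𝓝 (ENNReal.ofReal (f x ^ 2 / ‖x - c₀‖ ^ 2))) := by
    have hne : ∀ᵐ x : E, x ≠ c₀ := by
      have : (volume : Measure E) {c₀} = 0 := measure_singleton c₀
      exact measure_eq_zero_iff_ae_notMem.1 this
    filter_upwards [hne] with x hx
    have hx0 : ‖x - c₀‖ ^ 2 ≠ 0 := by
      have : 0 < ‖x - c₀‖ := norm_pos_iff.2 (sub_ne_zero.2 hx)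
      positivity
    refine ENNReal.tendsto_ofReal ?_
    refine Tendsto.div tendsto_const_nhds ?_ hx0
    unfold q
    have h0 := tendsto_one_div_add_atTop_nhds_zero_nat (𝕜 := ℝ)
    simpa using (tendsto_const_nhds (x := ‖x - c₀‖ ^ 2)).add h0
  have hlin : ∫⁻ x, ENNReal.ofReal (f x ^ 2 / ‖x - c₀‖ ^ 2) ≤ ENNReal.ofReal K := by
    calc ∫⁻ x, ENNReal.ofReal (f x ^ 2 / ‖x - c₀‖ ^ 2)
        = ∫⁻ x, liminf (fun n : ℕ => ENNReal.ofReal (f x ^ 2 / q c₀ (1 / ((n : ℝ) + 1)) x)) atTop := by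
          refine lintegral_congr_ae ?_
          filter_upwards [hlim] with x hx
          exact hx.liminf_eq.symm
      _ ≤ liminf (fun n : ℕ => ∫⁻ x, ENNReal.ofReal (f x ^ 2 / q c₀ (1 / ((n : ℝ) + 1)) x)) atTop := by
          refine lintegral_liminf_le fun n => ?_
          have h1 := hf.continuous.measurable
          have h2 : Measurable (q c₀ (1 / ((n : ℝ) + 1))) := (q_smooth c₀ _).continuous.measurable
          exact ((h1.pow_const 2).div h2).ennreal_ofReal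
      _ ≤ ENNReal.ofReal K := by
          refine liminf_le_of_frequently_le' (Eventually.frequently (Eventually.of_forall fun n => ?_))
          obtain ⟨hi, hle⟩ := reg hIBP f c₀ hf hs (hpos n)
          rw [← ofReal_integral_eq_lintegral_ofReal hi (Eventually.of_forall fun x => by
            have := q_pos c₀ (hpos n) x
            show (0 : ℝ) ≤ f x ^ 2 / q c₀ (1 / ((n : ℝ) + 1)) x
            positivity)]
          exact ENNReal.ofReal_le_ofReal hle
  have hnn : ∀ x : E, 0 ≤ f x ^ 2 / ‖x - c₀‖ ^ 2 := fun x => by positivity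
  have hint : Integrable (fun x => f x ^ 2 / ‖x - c₀‖ ^ 2) := by
    refine ⟨hmeas.aestronglyMeasurable, ?_⟩
    rw [hasFiniteIntegral_iff_ofReal (Eventually.of_forall hnn)]
    exact hlin.trans_lt ENNReal.ofReal_lt_top
  refine ⟨hint, ?_⟩
  rw [integral_eq_lintegral_of_nonneg_ae (Eventually.of_forall hnn) hmeas.aestronglyMeasurable]
  exact ENNReal.toReal_le_of_le_ofReal hK0 hlin

end Pool.Agent.TBS
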