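import Pool.Agent.TBS.StmtsC

set_option autoImplicit false

open MeasureTheory Filter Topology
open scoped ContDiff

namespace Pool.Agent.TBS

open Pool.Agent.TBG Pool.Agent.TBL Pool.Agent.TBF

namespace HEN_

variable {ι : Type} [Fintype ι] [DecidableEq ι]

theorem fin_mO (L : ℝ) : IsFiniteMeasure (mO L) := by
  constructor
  rw [mO, Measure.restrict_apply_univ]
  have hsub : Om L ⊆ Metric.closedBall (0 : E) (|L| * 2) := by
    intro x hx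
    rw [mem_closedBall_zero_iff, EuclideanSpace.norm_eq]
    have h1 : ∀ c, ‖x c‖ ^ 2 ≤ L ^ 2 := by
      intro c
      have h2 := hx c
      rw [Real.norm_eq_abs]
      have h3 : |x c| ≤ |L| := by
        have : L / 2 ≤ |L| := by
          have := le_abs_self L
          have := abs_nonneg L
          linarith
        linarith
      calc |x c| ^ 2 ≤ |L| ^ 2 := pow_le_pow_left₀ (abs_nonneg _) h3 2
        _ = L ^ 2 := sq_abs L
    apply Real.sqrt_le_iff.2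
    refine ⟨by positivity, ?_⟩
    calc ∑ c, ‖x c‖ ^ 2 ≤ ∑ _c : Fin 3, L ^ 2 := Finset.sum_le_sum fun c _ => h1 c
      _ = 3 * L ^ 2 := by simp
      _ ≤ (|L| * 2) ^ 2 := by
        rw [mul_pow, sq_abs]
        nlinarith [sq_nonneg L]
  exact (measure_mono hsub).trans_lt measure_closedBall_lt_top

theorem fin_PiS {p : Par} : IsFiniteMeasure (PiS (mO p.L) (mO p.L) (∅ : Finset ι)) := by
  have : ∀ i : ι, IsFiniteMeasure (if i ∈ (∅ : Finset ι) then mO p.L else mO p.L) := fun i => by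
    rw [ite_self]
    exact fin_mO _
  rw [PiS]
  infer_instance

theorem IO_mono (hB : Pool.Agent.TBL.Stmt_BMC) {p : Par} {F G : (ι → E) → ℝ} (hF : BM F)
    (hG : BM G) (h : ∀ X, F X ≤ G X) : IO p F ≤ IO p G := by
  have := fin_PiS (ι := ι) (p := p)
  exact integral_mono ((hB.1 _ F F hF hF).2.2.2.2.2.2 _) ((hB.1 _ G G hG hG).2.2.2.2.2.2 _) h

theorem IO_add (hB : Pool.Agent.TBL.Stmt_BMC) {p : Par} {F G : (ι → E) → ℝ} (hF : BM F)
    (hG : BM G) : IO p (fun X => F X + G X) = IO p F + IO p G := by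
  have := fin_PiS (ι := ι) (p := p)
  exact integral_add ((hB.1 _ F F hF hF).2.2.2.2.2.2 _) ((hB.1 _ G G hG hG).2.2.2.2.2.2 _)

theorem IO_mul {p : Par} (a : ℝ) (F : (ι → E) → ℝ) : IO p (fun X => a * F X) = a * IO p F := by
  rw [IO, IO, integral_const_mul]

theorem IO_nn {p : Par} {F : (ι → E) → ℝ} (h : ∀ X, 0 ≤ F X) : 0 ≤ IO p F :=
  integral_nonneg h

theorem sq1 (d s : ℝ) : d ^ 2 ≤ 2 * (d + s) ^ 2 + 2 * s ^ 2 := by
  nlinarith [sq_nonneg (d + 2 * s)]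

end HEN_

open HEN_ in
theorem hen_proof (hB : Pool.Agent.TBL.Stmt_BMC) (_h1 : Stmt_TUP) (hHSF : Stmt_HSF)
    (hKBM : Stmt_KBM) (hL3 : Stmt_L3I) (hL4 : Stmt_L4I) (hZET : Stmt_ZET) (hFRW : Stmt_FRW)
    (hAVC : Stmt_AVC) (_h2 : Pool.Agent.TBG.Stmt_ADM) : Stmt_HEN := by
  intro C ι _ _ p Mc κ M₁ β θ φ τ g y Y g₄ u hV hGrd hM hκ hLB hSy hu hφ hTri hy hDua
  have bmu : BM u := (hAVC ι (Measure.dirac 0) ∅ u hu).1
  have bmd : ∀ i c, BM (di i c u) := (hAVC ι (Measure.dirac 0) ∅ u hu).2.1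
  have bma : ∀ i c, BM (aF p β θ τ u i c) := (hL3 C ι p β θ φ τ g u hSy hu hφ hTri).1
  have bmb : ∀ i c, BM (bF p β θ Y u i c) := (hL4 C ι p β θ φ y Y g₄ u hSy hu hφ hy hDua).1
  obtain ⟨C₁, hC₁, hH⟩ := hHSF C
  have bmh : ∀ S : Finset ι, S.Nonempty → BM (hS p β θ u S) := fun S hSn =>
    (hH ι p β θ u S hSy bmu hSn).1
  obtain ⟨k1, k2, k3, k4⟩ := hKBM
  obtain ⟨-, -, bmφ, -, -, -, bmV, -, -, -, V0, -, -⟩ := k1 C p.R φ τ g hφ hTri
  obtain ⟨-, bmy, -, -, -, -⟩ := k2 C p.l φ y Y g₄ hφ hy hDua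
  obtain ⟨zt0, z1⟩ := hZET
  obtain ⟨-, zI, zE, -, -⟩ := z1 ι p Mc M₁ hGrd hM
  have add : ∀ {F G : (ι → E) → ℝ}, BM F → BM G → BM (fun X => F X + G X) := fun hF hG =>
    (hB.1 _ _ _ hF hG).1
  have sub : ∀ {F G : (ι → E) → ℝ}, BM F → BM G → BM (fun X => F X - G X) := fun hF hG =>
    (hB.1 _ _ _ hF hG).2.1
  have mul : ∀ {F G : (ι → E) → ℝ}, BM F → BM G → BM (fun X => F X * G X) := fun hF hG =>
    (hB.1 _ _ _ hF hG).2.2.1
  have sq : ∀ {F : (ι → E) → ℝ}, BM F → BM (fun X => F X ^ 2) := fun hF =>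
    (hB.1 _ _ _ hF hF).2.2.2.1
  have cmul : ∀ {F : (ι → E) → ℝ} (a : ℝ), BM F → BM (fun X => a * F X) := fun a hF =>
    (hB.1 _ _ _ hF hF).2.2.2.2.2.1 a
  have sum : ∀ {J : Type} (s : Finset J) (F : J → (ι → E) → ℝ), (∀ q ∈ s, BM (F q)) →
      BM (fun X => ∑ q ∈ s, F q X) := fun s F h => hB.2.2.1 _ _ s F h
  have ne3 : ∀ e : Fin 3 → ι, (im e).Nonempty := fun e => Finset.univ_nonempty.image e
  have ne4 : ∀ e : Fin 4 → ι, (im e).Nonempty := fun e => Finset.univ_nonempty.image e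
  have bmv : ∀ e : Fin 3 → ι, BM (vF p β θ φ y u e) := by
    intro e
    refine add (mul (sub (hB.2.1 _ 1) (k3 ι φ e bmφ)) (bmh _ (ne3 e))) (sum _ _ fun j _ => ?_)
    exact mul (k4 ι y (ap e j) bmy) (bmh _ (ne4 _))
  have bmW : ∀ e : Fin 3 → ι, BM (fun X : ι → E => VV φ (rt (X ∘ e)).1 (rt (X ∘ e)).2) :=
    fun e => k3 ι (fun z => VV φ z.1 z.2) e bmV
  have bA : BM (fun X => ∑ i, ∑ c, (di i c u X + aF p β θ τ u i c X - bF p β θ Y u i c X) ^ 2) :=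
    sum _ _ fun i _ => sum _ _ fun c _ => sq (sub (add (bmd i c) (bma i c)) (bmb i c))
  have bD : BM (fun X => 1 / 6 * ∑ e ∈ Ij 3 ι, VV φ (rt (X ∘ e)).1 (rt (X ∘ e)).2 *
      (u X - vF p β θ φ y u e X) ^ 2) :=
    cmul _ (sum _ _ fun e _ => mul (bmW e) (sq (sub bmu (bmv e))))
  have bC : BM (fun X => ∑ i, zi p.l Mc M₁ i X *
      ∑ c, (aF p β θ τ u i c X - bF p β θ Y u i c X) ^ 2) :=
    sum _ _ fun i _ => mul (zI i).1 (sum _ _ fun c _ => sq (sub (bma i c) (bmb i c)))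
  have bE : BM (fun X => 1 / 6 * ∑ e ∈ Ij 3 ι, ze p.l Mc M₁ e X *
      (VV φ (rt (X ∘ e)).1 (rt (X ∘ e)).2 * vF p β θ φ y u e X ^ 2)) :=
    cmul _ (sum _ _ fun e _ => mul (zE e).1 (mul (bmW e) (sq (bmv e))))
  have bF0 : BM (fun X => ∑ i, zi p.l Mc M₁ i X * ∑ c, di i c u X ^ 2 +
      1 / 6 * ∑ e ∈ Ij 3 ι, ze p.l Mc M₁ e X *
        (VV φ (rt (X ∘ e)).1 (rt (X ∘ e)).2 * u X ^ 2)) :=
    add (sum _ _ fun i _ => mul (zI i).1 (sum _ _ fun c _ => sq (bmd i c)))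
      (cmul _ (sum _ _ fun e _ => mul (zE e).1 (mul (bmW e) (sq bmu))))
  have hXX : 0 ≤ XX p β θ τ Y u := IO_nn fun X =>
    Finset.sum_nonneg fun i _ => Finset.sum_nonneg fun c _ => sq_nonneg _
  have hVX : 0 ≤ VX p β θ φ y u := IO_nn fun X =>
    mul_nonneg (by norm_num) (Finset.sum_nonneg fun e _ => mul_nonneg (V0 _ _) (sq_nonneg _))
  refine ⟨?_, hXX, hVX⟩
  refine (hFRW (VV φ) ι p Mc κ M₁ u hV hGrd hM hκ hLB hu).trans ?_
  have hpt : ∀ X, ∑ i, zi p.l Mc M₁ i X * ∑ c, di i c u X ^ 2 +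
      1 / 6 * ∑ e ∈ Ij 3 ι, ze p.l Mc M₁ e X *
        (VV φ (rt (X ∘ e)).1 (rt (X ∘ e)).2 * u X ^ 2) ≤
      2 * (∑ i, ∑ c, (di i c u X + aF p β θ τ u i c X - bF p β θ Y u i c X) ^ 2 +
        1 / 6 * ∑ e ∈ Ij 3 ι, VV φ (rt (X ∘ e)).1 (rt (X ∘ e)).2 *
          (u X - vF p β θ φ y u e X) ^ 2) +
      2 * (∑ i, zi p.l Mc M₁ i X * ∑ c, (aF p β θ τ u i c X - bF p β θ Y u i c X) ^ 2 +
        1 / 6 * ∑ e ∈ Ij 3 ι, ze p.l Mc M₁ e X *
          (VV φ (rt (X ∘ e)).1 (rt (X ∘ e)).2 * vF p β θ φ y u e X ^ 2)) := by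
    intro X
    have e1 : ∑ i, zi p.l Mc M₁ i X * ∑ c, di i c u X ^ 2 ≤
        2 * ∑ i, ∑ c, (di i c u X + aF p β θ τ u i c X - bF p β θ Y u i c X) ^ 2 +
        2 * ∑ i, zi p.l Mc M₁ i X * ∑ c, (aF p β θ τ u i c X - bF p β θ Y u i c X) ^ 2 := by
      rw [Finset.mul_sum, Finset.mul_sum, ← Finset.sum_add_distrib]
      refine Finset.sum_le_sum fun i _ => ?_
      obtain ⟨-, hz⟩ := zI i
      obtain ⟨z0, z1⟩ := hz X
      set P := ∑ c, (di i c u X + aF p β θ τ u i c X - bF p β θ Y u i c X) ^ 2 with hP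
      set Q := ∑ c, (aF p β θ τ u i c X - bF p β θ Y u i c X) ^ 2 with hQ
      have h3 : ∑ c, di i c u X ^ 2 ≤ 2 * P + 2 * Q := by
        rw [hP, hQ, Finset.mul_sum, Finset.mul_sum, ← Finset.sum_add_distrib]
        refine Finset.sum_le_sum fun c _ => ?_
        have := sq1 (di i c u X) (aF p β θ τ u i c X - bF p β θ Y u i c X)
        rw [← add_sub_assoc] at this
        exact this
      have hP0 : 0 ≤ P := Finset.sum_nonneg fun c _ => sq_nonneg _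
      calc zi p.l Mc M₁ i X * ∑ c, di i c u X ^ 2 ≤ zi p.l Mc M₁ i X * (2 * P + 2 * Q) :=
            mul_le_mul_of_nonneg_left h3 z0
        _ = zi p.l Mc M₁ i X * (2 * P) + 2 * (zi p.l Mc M₁ i X * Q) := by ring
        _ ≤ 1 * (2 * P) + 2 * (zi p.l Mc M₁ i X * Q) := by
            have := mul_le_mul_of_nonneg_right z1 (by positivity : (0 : ℝ) ≤ 2 * P)
            linarith
        _ = 2 * P + 2 * (zi p.l Mc M₁ i X * Q) := by ring
    have e2 : ∑ e ∈ Ij 3 ι, ze p.l Mc M₁ e X *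
        (VV φ (rt (X ∘ e)).1 (rt (X ∘ e)).2 * u X ^ 2) ≤
        2 * ∑ e ∈ Ij 3 ι, VV φ (rt (X ∘ e)).1 (rt (X ∘ e)).2 *
          (u X - vF p β θ φ y u e X) ^ 2 +
        2 * ∑ e ∈ Ij 3 ι, ze p.l Mc M₁ e X *
          (VV φ (rt (X ∘ e)).1 (rt (X ∘ e)).2 * vF p β θ φ y u e X ^ 2) := by
      rw [Finset.mul_sum, Finset.mul_sum, ← Finset.sum_add_distrib]
      refine Finset.sum_le_sum fun e _ => ?_
      obtain ⟨-, hz⟩ := zE e
      obtain ⟨z0, z1, -⟩ := hz X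
      have hv := V0 (rt (X ∘ e)).1 (rt (X ∘ e)).2
      set W := VV φ (rt (X ∘ e)).1 (rt (X ∘ e)).2
      set v := vF p β θ φ y u e X
      set z := ze p.l Mc M₁ e X
      have h3 : u X ^ 2 ≤ 2 * (u X - v) ^ 2 + 2 * v ^ 2 := by nlinarith [sq_nonneg (u X - 2 * v)]
      have hzW : 0 ≤ z * W := mul_nonneg z0 hv
      have h4 : z * W * u X ^ 2 ≤ z * W * (2 * (u X - v) ^ 2 + 2 * v ^ 2) :=
        mul_le_mul_of_nonneg_left h3 hzW
      have h5 : z * (W * (2 * (u X - v) ^ 2)) ≤ 1 * (W * (2 * (u X - v) ^ 2)) :=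
        mul_le_mul_of_nonneg_right z1 (mul_nonneg hv (by positivity))
      nlinarith [h4, h5]
    linarith
  refine (IO_mono hB bF0 (add (cmul 2 (add bA bD)) (cmul 2 (add bC bE))) hpt).trans (le_of_eq ?_)
  rw [IO_add hB (cmul 2 (add bA bD)) (cmul 2 (add bC bE)), IO_mul, IO_mul, IO_add hB bA bD,
    IO_add hB bC bE]
  rfl

end Pool.Agent.TBS
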