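import Pool.Agent.TBS.StmtsB

/-!
# Squad TBS: module HQ2 (the sums `∑ K h²`)
-/

set_option autoImplicit false

open MeasureTheory Filter Topology
open scoped ContDiff

namespace Pool.Agent.TBS

open Pool.Agent.TBG Pool.Agent.TBL Pool.Agent.TBF

namespace HQ2_

/-- one pair of grid points -/
lemma pair {v v' V V' z z' : ℝ} (hv : v = 0 ∨ v = 1) (hv' : v' = 0 ∨ v' = 1) (hz : 0 ≤ z) (hz' : 0 ≤ z')
    (h1 : v' = 0 → z = 1) (h2 : v = 0 → z' = 1) :
    (v * V - v' * V') ^ 2 ≤ v * (v' * (V - V') ^ 2) + z * (v * V) ^ 2 + z' * (v' * V') ^ 2 := by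
  rcases hv with rfl | rfl <;> rcases hv' with rfl | rfl
  · simp
  · rw [h2 rfl]
    simp
  · rw [h1 rfl]
    simp
  · have := mul_nonneg hz (sq_nonneg (1 * V))
    have := mul_nonneg hz' (sq_nonneg (1 * V'))
    nlinarith

/-- the pointwise bound -/
lemma alg {α : Type} [DecidableEq α] (G : Finset α) (N : α → Finset α) (b v V z : α → ℝ)
    (hb : ∀ a ∈ G, 0 ≤ b a) (hs : ∑ a ∈ G, b a ≤ 1) (hv : ∀ a, v a = 0 ∨ v a = 1) (hz : ∀ a, 0 ≤ z a)
    (hN : ∀ a ∈ G, N a ⊆ G)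
    (hn : ∀ a ∈ G, ∀ a' ∈ G, b a ≠ 0 → b a' ≠ 0 → a' ∈ N a)
    (hz1 : ∀ a ∈ G, ∀ a' ∈ G, b a ≠ 0 → b a' ≠ 0 → v a' = 0 → z a = 1)
    (hz2 : ∀ a ∈ G, b a ≠ 0 → ∑ a' ∈ G, b a' ≠ 1 → z a = 1) :
    |(∑ a ∈ G, b a * (v a * V a)) ^ 2 - ∑ a ∈ G, b a * (v a * V a) ^ 2| ≤
      ∑ a ∈ G, ∑ a' ∈ N a, b a * (v a * (v a' * (V a - V a') ^ 2)) +
        2 * ∑ a ∈ G, b a * (z a * (v a * V a) ^ 2) := by
  set A : α → ℝ := fun a => v a * V a with hA
  set s : ℝ := ∑ a ∈ G, b a with hsd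
  set D : ℝ := ∑ a ∈ G, b a * A a with hD
  set Q : ℝ := ∑ a ∈ G, b a * A a ^ 2 with hQ
  set Z : ℝ := ∑ a ∈ G, b a * (z a * A a ^ 2) with hZ
  set P : ℝ := ∑ a ∈ G, ∑ a' ∈ N a, b a * (v a * (v a' * (V a - V a') ^ 2)) with hP
  have hs0 : 0 ≤ s := Finset.sum_nonneg hb
  have hQ0 : 0 ≤ Q := Finset.sum_nonneg fun a ha => mul_nonneg (hb a ha) (sq_nonneg _)
  have hZ0 : 0 ≤ Z := Finset.sum_nonneg fun a ha =>
    mul_nonneg (hb a ha) (mul_nonneg (hz a) (sq_nonneg _))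
  have hv0 : ∀ a, 0 ≤ v a := fun a => by
    rcases hv a with h | h <;> rw [h]
    exact zero_le_one
  have hP0 : 0 ≤ P := Finset.sum_nonneg fun a ha => Finset.sum_nonneg fun a' _ =>
    mul_nonneg (hb a ha) (mul_nonneg (hv0 a) (mul_nonneg (hv0 a') (sq_nonneg _)))
  have hb1 : ∀ a ∈ G, b a ≤ 1 := fun a ha =>
    (Finset.single_le_sum (f := b) hb ha).trans hs
  -- the identity
  have key : ∑ a ∈ G, ∑ a' ∈ G, b a * b a' * (A a - A a') ^ 2 = 2 * (s * Q) - 2 * D ^ 2 := by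
    have e1 : ∀ a ∈ G, ∑ a' ∈ G, b a * b a' * (A a - A a') ^ 2 =
        b a * A a ^ 2 * s - 2 * (b a * A a) * D + b a * Q := by
      intro a _
      rw [hsd, hD, hQ, Finset.mul_sum, Finset.mul_sum, Finset.mul_sum, ← Finset.sum_sub_distrib,
        ← Finset.sum_add_distrib]
      exact Finset.sum_congr rfl fun a' _ => by ring
    rw [Finset.sum_congr rfl e1, Finset.sum_add_distrib, Finset.sum_sub_distrib, ← Finset.sum_mul,
      ← Finset.sum_mul, ← Finset.sum_mul, ← Finset.mul_sum]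
    ring
  -- the double sum
  have dbl : ∑ a ∈ G, ∑ a' ∈ G, b a * b a' * (A a - A a') ^ 2 ≤ P + 2 * Z := by
    have e1 : ∀ a ∈ G, ∀ a' ∈ G, b a * b a' * (A a - A a') ^ 2 ≤
        (if a' ∈ N a then b a * (v a * (v a' * (V a - V a') ^ 2)) else 0) +
          (b a' * (b a * (z a * A a ^ 2)) + b a * (b a' * (z a' * A a' ^ 2))) := by
      intro a ha a' ha'
      have p1 : 0 ≤ b a' * (b a * (z a * A a ^ 2)) := mul_nonneg (hb a' ha')
        (mul_nonneg (hb a ha) (mul_nonneg (hz a) (sq_nonneg _)))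
      have p2 : 0 ≤ b a * (b a' * (z a' * A a' ^ 2)) := mul_nonneg (hb a ha)
        (mul_nonneg (hb a' ha') (mul_nonneg (hz a') (sq_nonneg _)))
      have p4 : 0 ≤ b a * (v a * (v a' * (V a - V a') ^ 2)) :=
        mul_nonneg (hb a ha) (mul_nonneg (hv0 a) (mul_nonneg (hv0 a') (sq_nonneg _)))
      have p3 : (0 : ℝ) ≤ (if a' ∈ N a then b a * (v a * (v a' * (V a - V a') ^ 2)) else 0) := by
        split_ifs
        exacts [p4, le_rfl]
      by_cases h0 : b a = 0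
      · have : b a * b a' * (A a - A a') ^ 2 = 0 := by rw [h0]; ring
        rw [this]
        positivity
      by_cases h0' : b a' = 0
      · have : b a * b a' * (A a - A a') ^ 2 = 0 := by rw [h0']; ring
        rw [this]
        positivity
      rw [if_pos (hn a ha a' ha' h0 h0')]
      have h := pair (V := V a) (V' := V a') (hv a) (hv a') (hz a) (hz a')
        (hz1 a ha a' ha' h0 h0') (hz1 a' ha' a ha h0' h0)
      have h1 := mul_le_mul_of_nonneg_left h (mul_nonneg (hb a ha) (hb a' ha'))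
      have h2 : b a * b a' * (v a * (v a' * (V a - V a') ^ 2)) ≤
          b a * (v a * (v a' * (V a - V a') ^ 2)) := by
        have := mul_le_mul_of_nonneg_right (hb1 a' ha') p4
        calc b a * b a' * (v a * (v a' * (V a - V a') ^ 2))
            = b a' * (b a * (v a * (v a' * (V a - V a') ^ 2))) := by ring
          _ ≤ 1 * (b a * (v a * (v a' * (V a - V a') ^ 2))) := this
          _ = b a * (v a * (v a' * (V a - V a') ^ 2)) := one_mul _
      calc b a * b a' * (A a - A a') ^ 2 ≤ _ := h1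
        _ = b a * b a' * (v a * (v a' * (V a - V a') ^ 2)) +
          (b a' * (b a * (z a * A a ^ 2)) + b a * (b a' * (z a' * A a' ^ 2))) := by
            simp only [hA]; ring
        _ ≤ _ := by linarith
    calc ∑ a ∈ G, ∑ a' ∈ G, b a * b a' * (A a - A a') ^ 2
        ≤ ∑ a ∈ G, ∑ a' ∈ G, ((if a' ∈ N a then b a * (v a * (v a' * (V a - V a') ^ 2)) else 0) +
          (b a' * (b a * (z a * A a ^ 2)) + b a * (b a' * (z a' * A a' ^ 2)))) :=
          Finset.sum_le_sum fun a ha => Finset.sum_le_sum fun a' ha' => e1 a ha a' ha'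
      _ = P + (s * Z + s * Z) := by
          simp only [Finset.sum_add_distrib]
          congr 1
          · refine Finset.sum_congr rfl fun a ha => ?_
            rw [← Finset.sum_filter]
            congr 1
            ext a'
            rw [Finset.mem_filter]
            exact ⟨fun h => h.2, fun h => ⟨hN a ha h, h⟩⟩
          · congr 1
            · rw [hsd, hZ, Finset.mul_sum]
              refine Finset.sum_congr rfl fun a _ => ?_
              rw [Finset.sum_mul]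
            · rw [hsd, Finset.sum_mul]
              refine Finset.sum_congr rfl fun a _ => ?_
              rw [← Finset.mul_sum]
      _ ≤ P + 2 * Z := by nlinarith
  have hsQ : (1 - s) * Q ≤ Z := by
    by_cases h1 : s = 1
    · rw [h1]
      simpa using hZ0
    · have : Z = Q := Finset.sum_congr rfl fun a ha => by
        by_cases h0 : b a = 0
        · rw [h0]; ring
        · rw [hz2 a ha h0 h1]; ring
      rw [this]
      nlinarith
  have hn0 : 0 ≤ 2 * (s * Q) - 2 * D ^ 2 := by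
    rw [← key]
    exact Finset.sum_nonneg fun a ha => Finset.sum_nonneg fun a' ha' =>
      mul_nonneg (mul_nonneg (hb a ha) (hb a' ha')) (sq_nonneg _)
  have hsQ' : s * Q ≤ Q := by nlinarith
  rw [abs_sub_comm, abs_of_nonneg (by linarith)]
  nlinarith

lemma finP {ι : Type} [Fintype ι] [DecidableEq ι] (m n : Measure E) [IsFiniteMeasure m]
    [IsFiniteMeasure n] (S : Finset ι) : IsFiniteMeasure (PiS m n S) := by
  have : ∀ i : ι, IsFiniteMeasure (if i ∈ S then m else n) := by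
    intro i
    split_ifs <;> infer_instance
  unfold PiS
  infer_instance

lemma bm_mul {α : Type} [MeasurableSpace α] {F G : α → ℝ} (hF : BM F) (hG : BM G) :
    BM (fun X => F X * G X) := by
  obtain ⟨h1, C1, b1⟩ := hF
  obtain ⟨h2, C2, b2⟩ := hG
  refine ⟨h1.mul h2, C1 * C2, fun X => ?_⟩
  rw [abs_mul]
  exact mul_le_mul (b1 X) (b2 X) (abs_nonneg _) ((abs_nonneg _).trans (b1 X))

lemma bm_sq {α : Type} [MeasurableSpace α] {F : α → ℝ} (hF : BM F) : BM (fun X => F X ^ 2) := by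
  simpa only [sq] using bm_mul hF hF

lemma bm_sub {α : Type} [MeasurableSpace α] {F G : α → ℝ} (hF : BM F) (hG : BM G) :
    BM (fun X => F X - G X) := by
  obtain ⟨h1, C1, b1⟩ := hF
  obtain ⟨h2, C2, b2⟩ := hG
  exact ⟨h1.sub h2, C1 + C2, fun X => (abs_sub _ _).trans (add_le_add (b1 X) (b2 X))⟩

lemma bm_abs {α : Type} [MeasurableSpace α] {F : α → ℝ} (hF : BM F) : BM (fun X => |F X|) := by
  obtain ⟨h1, C1, b1⟩ := hF
  exact ⟨h1.norm, C1, fun X => by rw [abs_abs]; exact b1 X⟩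

lemma bm_cmul {α : Type} [MeasurableSpace α] {F : α → ℝ} (c : ℝ) (hF : BM F) :
    BM (fun X => c * F X) :=
  bm_mul ⟨measurable_const, |c|, fun _ => le_rfl⟩ hF

lemma bm_sum {α J : Type} [MeasurableSpace α] (s : Finset J) (F : J → α → ℝ)
    (h : ∀ i ∈ s, BM (F i)) : BM (fun X => ∑ i ∈ s, F i X) := by
  classical
  choose! C hC using fun i hi => (h i hi).2
  refine ⟨Finset.measurable_fun_sum s fun i hi => (h i hi).1, ∑ i ∈ s, C i, fun X => ?_⟩
  exact (Finset.abs_sum_le_sum_abs _ _).trans (Finset.sum_le_sum fun i hi => hC i hi X)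

lemma bm_int {α : Type} [MeasurableSpace α] (μ : Measure α) [IsFiniteMeasure μ] {F : α → ℝ}
    (hF : BM F) : Integrable F μ := by
  obtain ⟨h1, C1, b1⟩ := hF
  exact Integrable.of_bound h1.aestronglyMeasurable C1 (Filter.Eventually.of_forall b1)

lemma IO_sum {ι : Type} [Fintype ι] [DecidableEq ι] {J : Type} (p : Par) [IsFiniteMeasure (PiS (mO p.L) (mO p.L) (∅ : Finset ι))]
    (s : Finset J) (F : J → (ι → E) → ℝ) (h : ∀ i ∈ s, BM (F i)) :
    IO p (fun X => ∑ i ∈ s, F i X) = ∑ i ∈ s, IO p (F i) :=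
  integral_finsetSum s fun i hi => bm_int _ (h i hi)

lemma cen_meas {ι : Type} (S : Finset ι) : Measurable (fun X : ι → E => cen S X) := by
  have h : Measurable (fun X : ι → E => ∑ i ∈ S, X i) :=
    Finset.measurable_fun_sum S fun i _ => measurable_pi_apply i
  exact h.const_smul ((S.card : ℝ))⁻¹

lemma pz_bm {ι : Type} [Fintype ι] [DecidableEq ι] {C : ℝ} (hVTP : Stmt_VTP) {p : Par} {β θ : E → E → ℝ} (hS : Sys C p β θ) (a : E)
    (S : Finset ι) : BM (pz p a S) ∧ IndS S (pz p a S) := by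
  classical
  refine ⟨⟨?_, 1, fun X => ?_⟩, ?_⟩
  · unfold pz
    refine Measurable.ite ?_ measurable_const measurable_const
    have e : {X : ι → E | a ∉ p.Gi ∨ ∃ a' ∈ p.Gr, (∀ c, |a' c - a c| ≤ 2 * p.l) ∧ vt p a' S X = 0} =
        {X : ι → E | a ∉ p.Gi} ∪ ⋃ a' ∈ p.Gr, ({X : ι → E | ∀ c, |a' c - a c| ≤ 2 * p.l} ∩
          {X : ι → E | vt p a' S X = 0}) := by
      ext X
      simp only [Set.mem_ofPred_eq, Set.mem_union, Set.mem_iUnion, Set.mem_inter_iff, exists_prop]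
    rw [e]
    refine (MeasurableSet.const _).union (Finset.measurableSet_biUnion _ fun a' _ => ?_)
    refine (MeasurableSet.const _).inter ?_
    exact (hVTP ι C p β θ hS a' S).1.1 (measurableSet_singleton (0 : ℝ))
  · unfold pz
    split_ifs <;> simp
  · intro X Y h
    have : ∀ a', vt p a' S X = vt p a' S Y := fun a' => (hVTP ι C p β θ hS a' S).2.1 X Y h
    simp only [pz, this]

lemma pz_nn {ι : Type} [Fintype ι] [DecidableEq ι] (p : Par) (a : E) (S : Finset ι) (X : ι → E) : 0 ≤ pz p a S X := by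
  unfold pz
  split_ifs <;> norm_num

end HQ2_

open HQ2_

open Classical in
theorem hq2_proof (hBMC : Pool.Agent.TBL.Stmt_BMC) (hMSY : Stmt_MSY) (hAVP : Stmt_AVP)
    (hVTP : Stmt_VTP) (hHSF : Stmt_HSF) (_hTUP : Stmt_TUP) (hCLE : Stmt_CLE) (hCLI : Stmt_CLI)
    (hAQD : Stmt_AQD) : Stmt_HQ2 := by
  intro C
  obtain ⟨C', hC', hAQ⟩ := hAQD C
  obtain ⟨_, _, hHS⟩ := hHSF C
  refine ⟨C' + 2, by positivity, ?_⟩
  intro ι _ _ p β θ u K hSy hu hK hKs
  obtain ⟨hl1, hfin, -, -, -, -, hprob, -, -, -, -, -⟩ := hMSY C p β θ hSy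
  have hfin' : IsFiniteMeasure (mO p.L) := hfin
  have hprob' : ∀ a, IsProbabilityMeasure (tm (θ a)) := hprob
  have hfO : IsFiniteMeasure (PiS (mO p.L) (mO p.L) (∅ : Finset ι)) := finP _ _ _
  have hl0 : 0 < p.l := by linarith
  have hl3 : 0 < p.l ^ 3 := by positivity
  have hM : 0 ≤ p.M / p.l ^ 3 := div_nonneg (by linarith [hSy.hM]) hl3.le
  have hvB : ∀ (a : E) (S : Finset ι), BM (vt p a S) := fun a S => (hVTP ι C p β θ hSy a S).1
  have hvI : ∀ (a : E) (S : Finset ι), IndS S (vt p a S) := fun a S => (hVTP ι C p β θ hSy a S).2.1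
  have hv01 : ∀ (a : E) (S : Finset ι) (X : ι → E), vt p a S X = 0 ∨ vt p a S X = 1 :=
    fun a S X => ((hVTP ι C p β θ hSy a S).2.2.1 X).1
  have hAB : ∀ (a : E) (S : Finset ι), BM (Av (tm (θ a)) S u) ∧ IndS S (Av (tm (θ a)) S u) := by
    intro a S
    have h := hAVP ι (tm (θ a)) S ∅ u u hu hu
    exact ⟨h.1, h.2.1⟩
  have hAmB : ∀ (a : E) (S : Finset ι), BM (Am p θ u a S) := fun a S =>
    bm_mul (hvB a S) (hAB a S).1
  have hAmI : ∀ (a : E) (S : Finset ι), IndS S (Am p θ u a S) := fun a S X Y h => by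
    unfold Am
    rw [hvI a S X Y h, (hAB a S).2 X Y h]
  have hβB : ∀ a ∈ p.Gr, ∀ S : Finset ι, BM (fun X : ι → E => β a (cen S X)) := by
    intro a ha S
    refine ⟨(hSy.βs a).continuous.measurable.comp (cen_meas S), 1, fun X => ?_⟩
    rw [abs_of_nonneg (hSy.β0 a _)]
    exact (Finset.single_le_sum (f := fun a => β a (cen S X)) (fun a _ => hSy.β0 a _) ha).trans
      (hSy.β1 _)
  -- the kernel
  have hrl : Continuous (fun x : Fin 4 → E => rl x) := by
    unfold rl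
    fun_prop
  have hce : ∀ e : Fin 4 → ι, Measurable (fun X : ι → E => X ∘ e) := fun e =>
    measurable_pi_lambda _ fun s => measurable_pi_apply (e s)
  have hKb : ∀ e : Fin 4 → ι, BM (fun X : ι → E => K (rl (X ∘ e))) := fun e =>
    ⟨hK.1.comp (hrl.measurable.comp (hce e)), hK.2.choose, fun X => hK.2.choose_spec _⟩
  -- exact integration
  have cle : ∀ (K' : W4 → ℝ), BM K' → (∀ q, K' q ≠ 0 → ‖q‖ ≤ p.l) → ∀ (F : (ι → E) → ℝ), BM F →
      ∀ a ∈ p.Gr, ∀ e ∈ Ij 4 ι, IndS (im e) F →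
      IO p (fun X => β a (cen (im e) X) * (K' (rl (X ∘ e)) * F X)) =
        p.l ^ 3 * (∫ q, K' q) * IA p θ a (im e) F := by
    intro K' hK' hKs' F hF a ha e he hI
    have h := hCLE C 3 ι p β θ (fun x => K' (rl x)) F hSy
      ⟨hK'.1.comp hrl.measurable, hK'.2.choose, fun X => hK'.2.choose_spec _⟩ ?_ ?_ hF a ha e he hI
    · have h2 : ∫ z : Fin 3 → E, K' (rl (Fin.cons 0 z)) = ∫ q, K' q := by
        have := hCLI.2 K' 0 1
        simpa using this
      rw [h2] at h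
      exact h
    · intro x hx s c
      have hn := hKs' _ hx
      have h1 : ‖x 0 - x 1‖ ≤ p.l := (le_max_left _ _).trans hn
      have h2 : ‖x 0 - x 2‖ ≤ p.l := (le_max_left _ _).trans ((le_max_right _ _).trans hn)
      have h3 : ‖x 0 - x 3‖ ≤ p.l := (le_max_right _ _).trans ((le_max_right _ _).trans hn)
      have hs : ‖x 0 - x s‖ ≤ p.l := by
        fin_cases s
        · simpa using hl0.le
        · exact h1
        · exact h2
        · exact h3
      have hc : |(x 0 - x s) c| ≤ ‖x 0 - x s‖ := by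
        have := PiLp.norm_apply_le (x 0 - x s) c
        simpa [Real.norm_eq_abs] using this
      rw [abs_sub_comm]
      exact hc.trans hs
    · intro x v
      have : rl (fun s => x s + v) = rl x := by
        unfold rl
        simp
      simp only [this]
  -- nonnegativity
  have hRW : 0 ≤ RW p θ u := by
    unfold RW
    refine Finset.sum_nonneg fun a _ => Finset.sum_nonneg fun i _ => integral_nonneg fun X => ?_
    refine mul_nonneg (mul_nonneg ?_ ?_) (sq_nonneg _)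
    · rcases hv01 a {i} X with h | h <;> rw [h]
      exact zero_le_one
    · unfold ic
      exact Set.indicator_nonneg (fun _ _ => zero_le_one) _
  have hPZ : 0 ≤ PZ p θ u := by
    unfold PZ
    refine mul_nonneg hl3.le (Finset.sum_nonneg fun a _ => Finset.sum_nonneg fun e _ =>
      integral_nonneg fun X => mul_nonneg (pz_nn p a _ X) (sq_nonneg _))
  have hK1 : 0 ≤ ∫ q, |K q| := integral_nonneg fun q => abs_nonneg _
  have hKa : BM (fun q => |K q|) := bm_abs hK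
  have hKas : ∀ q, |K q| ≠ 0 → ‖q‖ ≤ p.l := fun q hq => hKs q fun h => hq (by rw [h, abs_zero])
  -- the neighbours
  set N : E → Finset E := fun a => p.Gr.filter (fun a' => ∀ c, |a' c - a c| ≤ 2 * p.l) with hN
  -- the functions
  let T1 : (Fin 4 → ι) → E → E → (ι → E) → ℝ := fun e a a' X => β a (cen (im e) X) *
    (|K (rl (X ∘ e))| * (vt p a (im e) X * (vt p a' (im e) X *
      (Av (tm (θ a)) (im e) u X - Av (tm (θ a')) (im e) u X) ^ 2)))
  let T2 : (Fin 4 → ι) → E → (ι → E) → ℝ := fun e a X => β a (cen (im e) X) *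
    (|K (rl (X ∘ e))| * (pz p a (im e) X * Am p θ u a (im e) X ^ 2))
  let T0 : (Fin 4 → ι) → E → (ι → E) → ℝ := fun e a X => β a (cen (im e) X) *
    (K (rl (X ∘ e)) * Am p θ u a (im e) X ^ 2)
  have hF1 : ∀ (e : Fin 4 → ι) (a a' : E), BM (fun X => vt p a (im e) X * (vt p a' (im e) X *
      (Av (tm (θ a)) (im e) u X - Av (tm (θ a')) (im e) u X) ^ 2)) := fun e a a' =>
    bm_mul (hvB a _) (bm_mul (hvB a' _) (bm_sq (bm_sub (hAB a _).1 (hAB a' _).1)))
  have hF2 : ∀ (e : Fin 4 → ι) (a : E), BM (fun X => pz p a (im e) X * Am p θ u a (im e) X ^ 2) :=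
    fun e a => bm_mul (pz_bm hVTP hSy a _).1 (bm_sq (hAmB a _))
  have hT1 : ∀ (e : Fin 4 → ι), ∀ a ∈ p.Gr, ∀ a', BM (T1 e a a') := fun e a ha a' =>
    bm_mul (hβB a ha _) (bm_mul (bm_abs (hKb e)) (hF1 e a a'))
  have hT2 : ∀ (e : Fin 4 → ι), ∀ a ∈ p.Gr, BM (T2 e a) := fun e a ha =>
    bm_mul (hβB a ha _) (bm_mul (bm_abs (hKb e)) (hF2 e a))
  have hT0 : ∀ (e : Fin 4 → ι), ∀ a ∈ p.Gr, BM (T0 e a) := fun e a ha =>
    bm_mul (hβB a ha _) (bm_mul (hKb e) (bm_sq (hAmB a _)))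
  have hne : ∀ e : Fin 4 → ι, (im e).Nonempty := fun e => Finset.univ_nonempty.image e
  have hHB : ∀ e : Fin 4 → ι, BM (hS p β θ u (im e)) := fun e =>
    (hHS ι p β θ u (im e) hSy hu (hne e)).1
  -- the main term
  have h0 : (∫ q, K q) * AA p θ u 4 = IO p (fun X => ∑ e ∈ Ij 4 ι, ∑ a ∈ p.Gr, T0 e a X) := by
    rw [IO_sum p _ (fun e X => ∑ a ∈ p.Gr, T0 e a X) fun e _ => bm_sum _ _ fun a ha => hT0 e a ha]
    have e1 : ∀ e ∈ Ij 4 ι, IO p (fun X => ∑ a ∈ p.Gr, T0 e a X) =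
        ∑ a ∈ p.Gr, p.l ^ 3 * (∫ q, K q) * IA p θ a (im e) (fun X => Am p θ u a (im e) X ^ 2) := by
      intro e he
      rw [IO_sum p _ (fun a X => T0 e a X) fun a ha => hT0 e a ha]
      exact Finset.sum_congr rfl fun a ha => cle K hK hKs _ (bm_sq (hAmB a _)) a ha e he
        fun X Y h => congrArg (fun t => t ^ 2) (hAmI a _ X Y h)
    rw [Finset.sum_congr rfl e1, Finset.sum_comm]
    unfold AA
    rw [Finset.mul_sum, Finset.mul_sum]
    refine Finset.sum_congr rfl fun a _ => ?_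
    rw [Finset.mul_sum, Finset.mul_sum]
    exact Finset.sum_congr rfl fun e _ => by ring
  have hB0 : BM (fun X => ∑ e ∈ Ij 4 ι, ∑ a ∈ p.Gr, T0 e a X) :=
    bm_sum _ _ fun e _ => bm_sum _ _ fun a ha => hT0 e a ha
  have hBh : BM (fun X => ∑ e ∈ Ij 4 ι, K (rl (X ∘ e)) * hS p β θ u (im e) X ^ 2) :=
    bm_sum _ _ fun e _ => bm_mul (hKb e) (bm_sq (hHB e))
  have hB1 : BM (fun X => ∑ e ∈ Ij 4 ι, (∑ a ∈ p.Gr, ∑ a' ∈ N a, T1 e a a' X +
      2 * ∑ a ∈ p.Gr, T2 e a X)) := by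
    refine bm_sum _ _ fun e _ => ?_
    have i1 : BM (fun X => ∑ a ∈ p.Gr, ∑ a' ∈ N a, T1 e a a' X) :=
      bm_sum _ _ fun a ha => bm_sum _ _ fun a' _ => hT1 e a ha a'
    have i2 : BM (fun X => 2 * ∑ a ∈ p.Gr, T2 e a X) := bm_cmul 2 (bm_sum _ _ fun a ha => hT2 e a ha)
    exact (hBMC.1 _ _ _ i1 i2).1
  -- the pointwise bound
  have pt : ∀ X : ι → E, |(∑ e ∈ Ij 4 ι, K (rl (X ∘ e)) * hS p β θ u (im e) X ^ 2) -
      ∑ e ∈ Ij 4 ι, ∑ a ∈ p.Gr, T0 e a X| ≤
      ∑ e ∈ Ij 4 ι, (∑ a ∈ p.Gr, ∑ a' ∈ N a, T1 e a a' X + 2 * ∑ a ∈ p.Gr, T2 e a X) := by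
    intro X
    rw [← Finset.sum_sub_distrib]
    refine (Finset.abs_sum_le_sum_abs _ _).trans (Finset.sum_le_sum fun e he => ?_)
    have h := alg p.Gr N (fun a => β a (cen (im e) X)) (fun a => vt p a (im e) X)
      (fun a => Av (tm (θ a)) (im e) u X) (fun a => pz p a (im e) X) (fun a _ => hSy.β0 a _)
      (hSy.β1 _) (fun a => hv01 a _ X) (fun a => pz_nn p a _ X)
      (fun a _ => Finset.filter_subset _ _) ?_ ?_ ?_
    · have e1 : K (rl (X ∘ e)) * hS p β θ u (im e) X ^ 2 - ∑ a ∈ p.Gr, T0 e a X =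
          K (rl (X ∘ e)) * ((∑ a ∈ p.Gr, β a (cen (im e) X) * (vt p a (im e) X *
            Av (tm (θ a)) (im e) u X)) ^ 2 - ∑ a ∈ p.Gr, β a (cen (im e) X) * (vt p a (im e) X *
            Av (tm (θ a)) (im e) u X) ^ 2) := by
        rw [mul_sub, Finset.mul_sum]
        congr 1
        refine Finset.sum_congr rfl fun a _ => ?_
        simp only [T0, Am]
        ring
      rw [e1, abs_mul]
      refine (mul_le_mul_of_nonneg_left h (abs_nonneg _)).trans (le_of_eq ?_)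
      rw [mul_add, Finset.mul_sum]
      congr 1
      · refine Finset.sum_congr rfl fun a _ => ?_
        rw [Finset.mul_sum]
        exact Finset.sum_congr rfl fun a' _ => by simp only [T1]; ring
      · rw [← mul_assoc, mul_comm |K (rl (X ∘ e))| 2, mul_assoc, Finset.mul_sum]
        congr 1
        exact Finset.sum_congr rfl fun a _ => by simp only [T2, Am]; ring
    · intro a ha a' ha' h1 h2
      rw [hN, Finset.mem_filter]
      refine ⟨ha', fun c => ?_⟩
      have g1 := hSy.βsp a _ h1 c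
      have g2 := hSy.βsp a' _ h2 c
      rw [abs_le] at g1 g2 ⊢
      constructor <;> linarith [g1.1, g1.2, g2.1, g2.2]
    · intro a ha a' ha' h1 h2 h3
      have hh : ∀ c, |a' c - a c| ≤ 2 * p.l := fun c => by
        have g1 := hSy.βsp a _ h1 c
        have g2 := hSy.βsp a' _ h2 c
        rw [abs_le] at g1 g2 ⊢
        constructor <;> linarith [g1.1, g1.2, g2.1, g2.2]
      show pz p a (im e) X = 1
      unfold pz
      rw [if_pos (Or.inr ⟨a', ha', hh, h3⟩)]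
    · intro a ha h1 h2
      show pz p a (im e) X = 1
      unfold pz
      rw [if_pos (Or.inl fun h3 => h2 (hSy.βi a h3 _ (hSy.βsp a _ h1)))]
  -- the integral
  have int1 : |IO p (fun X => ∑ e ∈ Ij 4 ι, K (rl (X ∘ e)) * hS p β θ u (im e) X ^ 2) -
      (∫ q, K q) * AA p θ u 4| ≤ IO p (fun X => ∑ e ∈ Ij 4 ι, (∑ a ∈ p.Gr, ∑ a' ∈ N a, T1 e a a' X +
      2 * ∑ a ∈ p.Gr, T2 e a X)) := by
    rw [h0]
    unfold IO
    rw [← integral_sub (bm_int _ hBh) (bm_int _ hB0)]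
    refine (abs_integral_le_integral_abs).trans ?_
    exact integral_mono (bm_int _ (bm_abs (bm_sub hBh hB0))) (bm_int _ hB1) pt
  refine int1.trans ?_
  have int2 : IO p (fun X => ∑ e ∈ Ij 4 ι, (∑ a ∈ p.Gr, ∑ a' ∈ N a, T1 e a a' X +
      2 * ∑ a ∈ p.Gr, T2 e a X)) = ∑ e ∈ Ij 4 ι, (∑ a ∈ p.Gr, ∑ a' ∈ N a, IO p (T1 e a a') +
      2 * ∑ a ∈ p.Gr, IO p (T2 e a)) := by
    have i1 : ∀ e, BM (fun X => ∑ a ∈ p.Gr, ∑ a' ∈ N a, T1 e a a' X) := fun e =>
      bm_sum _ _ fun a ha => bm_sum _ _ fun a' _ => hT1 e a ha a'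
    have i2 : ∀ e, BM (fun X => ∑ a ∈ p.Gr, T2 e a X) := fun e => bm_sum _ _ fun a ha => hT2 e a ha
    rw [IO_sum p _ (fun e X => ∑ a ∈ p.Gr, ∑ a' ∈ N a, T1 e a a' X + 2 * ∑ a ∈ p.Gr, T2 e a X)
      fun e _ => (hBMC.1 _ _ _ (i1 e) (bm_cmul 2 (i2 e))).1]
    refine Finset.sum_congr rfl fun e _ => ?_
    have e1 : IO p (fun X => ∑ a ∈ p.Gr, ∑ a' ∈ N a, T1 e a a' X + 2 * ∑ a ∈ p.Gr, T2 e a X) =
        IO p (fun X => ∑ a ∈ p.Gr, ∑ a' ∈ N a, T1 e a a' X) +
          2 * IO p (fun X => ∑ a ∈ p.Gr, T2 e a X) := by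
      unfold IO
      rw [integral_add (bm_int _ (i1 e)) (bm_int _ (bm_cmul 2 (i2 e))), integral_const_mul]
    rw [e1, IO_sum p _ (fun a X => ∑ a' ∈ N a, T1 e a a' X) fun a ha =>
      bm_sum _ _ fun a' _ => hT1 e a ha a', IO_sum p _ (fun a X => T2 e a X) fun a ha => hT2 e a ha]
    congr 1
    exact Finset.sum_congr rfl fun a ha => IO_sum p _ (fun a' X => T1 e a a' X) fun a' _ =>
      hT1 e a ha a'
  rw [int2]
  have v1 : ∀ e ∈ Ij 4 ι, ∀ a ∈ p.Gr, ∀ a', IO p (T1 e a a') = p.l ^ 3 * (∫ q, |K q|) *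
      IA p θ a (im e) (fun X => vt p a (im e) X * (vt p a' (im e) X *
      (Av (tm (θ a)) (im e) u X - Av (tm (θ a')) (im e) u X) ^ 2)) := by
    intro e he a ha a'
    refine cle _ hKa hKas _ (hF1 e a a') a ha e he fun X Y h => ?_
    show vt p a (im e) X * (vt p a' (im e) X * _) = vt p a (im e) Y * (vt p a' (im e) Y * _)
    rw [hvI a _ X Y h, hvI a' _ X Y h, (hAB a _).2 X Y h, (hAB a' _).2 X Y h]
  have v2 : ∀ e ∈ Ij 4 ι, ∀ a ∈ p.Gr, IO p (T2 e a) = p.l ^ 3 * (∫ q, |K q|) *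
      IA p θ a (im e) (fun X => pz p a (im e) X * Am p θ u a (im e) X ^ 2) := by
    intro e he a ha
    refine cle _ hKa hKas _ (hF2 e a) a ha e he fun X Y h => ?_
    show pz p a (im e) X * _ = pz p a (im e) Y * _
    rw [(pz_bm hVTP hSy a _).2 X Y h, hAmI a _ X Y h]
  have tot : ∑ e ∈ Ij 4 ι, (∑ a ∈ p.Gr, ∑ a' ∈ N a, IO p (T1 e a a') +
      2 * ∑ a ∈ p.Gr, IO p (T2 e a)) = (∫ q, |K q|) * (p.l ^ 3 * ∑ a ∈ p.Gr, ∑ a' ∈ N a,
        ∑ e ∈ Ij 4 ι, IA p θ a (im e) (fun X => vt p a (im e) X * (vt p a' (im e) X *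
      (Av (tm (θ a)) (im e) u X - Av (tm (θ a')) (im e) u X) ^ 2))) +
      2 * ((∫ q, |K q|) * PZ p θ u) := by
    rw [Finset.sum_add_distrib, ← Finset.mul_sum]
    congr 1
    · rw [Finset.sum_comm, Finset.mul_sum, Finset.mul_sum]
      refine Finset.sum_congr rfl fun a ha => ?_
      rw [Finset.sum_comm, Finset.mul_sum, Finset.mul_sum]
      refine Finset.sum_congr rfl fun a' _ => ?_
      rw [Finset.mul_sum, Finset.mul_sum]
      exact Finset.sum_congr rfl fun e he => by rw [v1 e he a ha a']; ring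
    · unfold PZ
      congr 1
      rw [Finset.sum_comm, Finset.mul_sum, Finset.mul_sum]
      refine Finset.sum_congr rfl fun a ha => ?_
      rw [Finset.mul_sum, Finset.mul_sum]
      exact Finset.sum_congr rfl fun e he => by rw [v2 e he a ha]; ring
  rw [tot]
  have hA := hAQ ι p β θ u hSy hu
  have hA' := mul_le_mul_of_nonneg_left hA hK1
  have hR0 : 0 ≤ (p.M / p.l ^ 3) ^ 3 * RW p θ u := by positivity
  calc _ ≤ (∫ q, |K q|) * (C' * ((p.M / p.l ^ 3) ^ 3 * RW p θ u)) + 2 * ((∫ q, |K q|) * PZ p θ u) :=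
        by linarith
    _ ≤ (C' + 2) * (∫ q, |K q|) * ((p.M / p.l ^ 3) ^ 3 * RW p θ u + PZ p θ u) := by
        have q1 := mul_nonneg hK1 hR0
        have q2 := mul_nonneg hC'.le (mul_nonneg hK1 hPZ)
        nlinarith

end Pool.Agent.TBS
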