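import Pool.Agent.TBS.StmtsA

/-!
# Squad TBS, module HRN: integrals against singular weights for one of many particles
-/

set_option autoImplicit false

open MeasureTheory Filter Topology
open scoped ContDiff

namespace Pool.Agent.TBS

open Pool.Agent.TBG Pool.Agent.TBL Pool.Agent.TBF

namespace HRN_

/-- comparison of integrals by integration over one particle -/
theorem fub {ι : Type} [Fintype ι] [DecidableEq ι] (hBMC : Pool.Agent.TBL.Stmt_BMC) (hPSF : Stmt_PSF)
    (m n : Measure E) [IsProbabilityMeasure m] [IsFiniteMeasure n] (S : Finset ι) (j : ι) (hj : j ∉ S)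
    (G1 G2 : (ι → E) → ℝ) (h1 : BM G1) (h2 : BM G2)
    (h : ∀ X, ∫ x, G1 (Function.update X j x) ∂n ≤ ∫ x, G2 (Function.update X j x) ∂n) :
    ∫ X, G1 X ∂(PiS m n S) ≤ ∫ X, G2 X ∂(PiS m n S) := by
  obtain ⟨-, k1⟩ := hPSF ι m n S
  have hfin : IsFiniteMeasure (PiS m n (insert j S)) := (hPSF ι m n (insert j S)).1
  obtain ⟨a1, -, b1, -⟩ := k1 G1 h1
  obtain ⟨a2, -, b2, -⟩ := k1 G2 h2
  rw [a1 j hj, a2 j hj]
  exact integral_mono ((hBMC.1 _ _ _ (b1 j hj) (b1 j hj)).2.2.2.2.2.2 _)
    ((hBMC.1 _ _ _ (b2 j hj) (b2 j hj)).2.2.2.2.2.2 _) h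

end HRN_

open HRN_

theorem hrn_proof (hBMC : Pool.Agent.TBL.Stmt_BMC) (hMSY : Stmt_MSY) (hPSF : Stmt_PSF) (hAVP : Stmt_AVP)
    (hAVC : Stmt_AVC) (hVTP : Stmt_VTP) (hHRD : Stmt_HRD) : Stmt_HRN := by
  obtain ⟨C₁, hC1, hH⟩ := hHRD
  intro C
  refine ⟨C₁, hC1, ?_⟩
  intro ι _ _ p β θ hs a ha S j u w W c₀ w₁ w₂ hj hu hw hw0 hwj hW hW0 hWs hw1 hw2
  obtain ⟨hl1, hfin, -, -, hQ, hsub, hprob, -, -, hic, -⟩ := hMSY C p β θ hs
  have hl : 0 < p.l := by linarith
  have hpr : IsProbabilityMeasure (tm (θ a)) := hprob a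
  obtain ⟨hub, -, huA, -, hdb, -, hdd⟩ := hAVC ι (tm (θ a)) S u hu
  have hAb : BM (Av (tm (θ a)) S u) := (hAVP ι (tm (θ a)) S S u u hub hub).1
  obtain ⟨hvb, -, hv1, -, hv3⟩ := hVTP ι C p β θ hs a S
  have hmul : ∀ {α : Type} [MeasurableSpace α] {F G : α → ℝ}, BM F → BM G → BM (fun X => F X * G X) :=
    fun {α} _ {F G} hF hG => (hBMC.1 α F G hF hG).2.2.1
  have hadd : ∀ {α : Type} [MeasurableSpace α] {F G : α → ℝ}, BM F → BM G → BM (fun X => F X + G X) :=
    fun {α} _ {F G} hF hG => (hBMC.1 α F G hF hG).1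
  have hsq : ∀ {α : Type} [MeasurableSpace α] {F : α → ℝ}, BM F → BM (fun X => F X ^ 2) :=
    fun {α} _ {F} hF => (hBMC.1 α F F hF hF).2.2.2.1
  have hcm : ∀ {α : Type} [MeasurableSpace α] {F : α → ℝ} (t : ℝ), BM F → BM (fun X => t * F X) :=
    fun {α} _ {F} t hF => (hBMC.1 α F F hF hF).2.2.2.2.2.1 t
  have hint : ∀ {α : Type} [MeasurableSpace α] {F : α → ℝ} (μ : Measure α) [IsFiniteMeasure μ], BM F →
      Integrable F μ := fun {α} _ {F} μ _ hF => (hBMC.1 α F F hF hF).2.2.2.2.2.2 μ
  have hcomp : ∀ {α γ : Type} [MeasurableSpace α] [MeasurableSpace γ] {F : α → ℝ} {f : γ → α}, BM F →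
      Measurable f → BM (fun X => F (f X)) := fun {α γ} _ _ {F f} hF hf => hBMC.2.2.2.1 α γ F f hF hf
  have hicb : ∀ r : ℝ, BM (ic (Qb a r)) := by
    intro r
    refine ⟨(measurable_const.indicator (hQ a r).1), 1, fun x => ?_⟩
    unfold ic Set.indicator
    split_ifs <;> simp
  have hev : Measurable (fun X : ι → E => X j) := measurable_pi_apply j
  set A := Av (tm (θ a)) S u with hA
  set DD : (ι → E) → ℝ := fun X => ∑ c, di j c A X ^ 2 with hDD
  have hDDb : BM DD := hBMC.2.2.1 (ι → E) (Fin 3) Finset.univ (fun c X => di j c A X ^ 2)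
    (fun c _ => hsq (hdb j c))
  set B1 : (ι → E) → ℝ := fun X => vt p a S X * (w X * (ic (Qb a (6 * p.l)) (X j) * A X ^ 2)) with hB1
  set B2 : (ι → E) → ℝ := fun X => vt p a S X * (w X * (ic (Qb a (6 * p.l)) (X j) * DD X)) with hB2
  set G : (ι → E) → ℝ := fun X => vt p a S X * (w X * (W (X j) * A X ^ 2)) with hG
  have b1 : BM B1 := hmul hvb (hmul hw (hmul (hcomp (hicb _) hev) (hsq hAb)))
  have b2 : BM B2 := hmul hvb (hmul hw (hmul (hcomp (hicb _) hev) hDDb))
  have b0 : BM G := hmul hvb (hmul hw (hmul (hcomp hW hev) (hsq hAb)))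
  have hF1 : IsFiniteMeasure (PiS (tm (θ a)) (mO p.L) S) := (hPSF ι (tm (θ a)) (mO p.L) S).1
  have key : IA p θ a S G ≤ IA p θ a S (fun X => C₁ * (w₁ / p.l ^ 3 * B1 X + w₂ * B2 X)) := by
    refine fub hBMC hPSF (tm (θ a)) (mO p.L) S j hj G _ b0 (hcm _ (hadd (hcm _ b1) (hcm _ b2))) ?_
    intro X
    have hup : Measurable (fun x : E => Function.update X j x) := measurable_update X
    set f : E → ℝ := fun x => A (Function.update X j x) with hf
    have hfs : ContDiff ℝ 1 f := huA.comp (contDiff_update 1 X j)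
    set v0 := vt p a S (Function.update X j a) with hv0
    have haQ : a ∈ Qc p a := fun c => ⟨by linarith, by linarith⟩
    have hvx : ∀ x ∈ Qc p a, vt p a S (Function.update X j x) = v0 := by
      intro x hx
      have h1 := hv3 j (Function.update X j a) x hj (by simpa using haQ) hx
      rw [Function.update_idem] at h1
      exact h1
    have hwx : ∀ x, w (Function.update X j x) = w X := by
      intro x
      refine hwj _ _ (fun i hi => ?_)
      have : i ≠ j := by simpa using hi
      exact Function.update_of_ne this _ _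
    have hpd : ∀ c x, di j c A (Function.update X j x) = pd c f x := by
      intro c x
      rw [hdd j c (Function.update X j x)]
      simp only [Function.update_idem, Function.update_self]
      rfl
    have hv00 : 0 ≤ v0 := by
      rcases (hv1 (Function.update X j a)).1 with h | h
      · exact h.ge
      · rw [hv0, h]
        exact zero_le_one
    have e0 : ∀ x, G (Function.update X j x) = v0 * w X * (ic (Qb a (3 * p.l)) x * (W x * f x ^ 2)) := by
      intro x
      simp only [hG, Function.update_self, hwx]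
      by_cases hWx : W x = 0
      · rw [hWx]
        ring
      · have h1 := hWs x hWx
        have h2 : ic (Qb a (3 * p.l)) x = 1 := Set.indicator_of_mem h1 _
        rw [hvx x (hsub a (3 * p.l) (by linarith) h1), h2]
        ring
    have e1 : ∀ x, B1 (Function.update X j x) = v0 * w X * (ic (Qb a (6 * p.l)) x * f x ^ 2) := by
      intro x
      simp only [hB1, Function.update_self, hwx]
      by_cases hx : x ∈ Qb a (6 * p.l)
      · rw [hvx x (hsub a (6 * p.l) (by linarith) hx)]
        ring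
      · have h2 : ic (Qb a (6 * p.l)) x = 0 := Set.indicator_of_notMem hx _
        rw [h2]
        ring
    have e2 : ∀ x, B2 (Function.update X j x) =
        v0 * w X * (ic (Qb a (6 * p.l)) x * ∑ c, pd c f x ^ 2) := by
      intro x
      simp only [hB2, hDD, Function.update_self, hwx, hpd]
      by_cases hx : x ∈ Qb a (6 * p.l)
      · rw [hvx x (hsub a (6 * p.l) (by linarith) hx)]
        ring
      · have h2 : ic (Qb a (6 * p.l)) x = 0 := Set.indicator_of_notMem hx _
        rw [h2]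
        ring
    have f0 : ∫ x, G (Function.update X j x) ∂(mO p.L) = v0 * w X * ∫ x, W x * f x ^ 2 := by
      simp_rw [e0]
      rw [integral_const_mul, hic a ha (3 * p.l) _ (by linarith),
        setIntegral_eq_integral_of_forall_compl_eq_zero]
      intro x hx
      have : W x = 0 := by
        by_contra h
        exact hx (hWs x h)
      rw [this, zero_mul]
    have f1 : ∫ x, B1 (Function.update X j x) ∂(mO p.L) = v0 * w X * ∫ x in Qb a (6 * p.l), f x ^ 2 := by
      simp_rw [e1]
      rw [integral_const_mul, hic a ha (6 * p.l) _ (by linarith)]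
    have f2 : ∫ x, B2 (Function.update X j x) ∂(mO p.L) =
        v0 * w X * ∫ x in Qb a (6 * p.l), ∑ c, pd c f x ^ 2 := by
      simp_rw [e2]
      rw [integral_const_mul, hic a ha (6 * p.l) _ (by linarith)]
    have i1 : Integrable (fun x => w₁ / p.l ^ 3 * B1 (Function.update X j x)) (mO p.L) :=
      (hint (mO p.L) (hcomp b1 hup)).const_mul _
    have i2 : Integrable (fun x => w₂ * B2 (Function.update X j x)) (mO p.L) :=
      (hint (mO p.L) (hcomp b2 hup)).const_mul _
    rw [f0]
    show _ ≤ ∫ x, C₁ * (w₁ / p.l ^ 3 * B1 (Function.update X j x) + w₂ * B2 (Function.update X j x)) ∂(mO p.L)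
    rw [integral_const_mul, integral_add i1 i2, integral_const_mul, integral_const_mul, f1, f2]
    have h1 := hH a c₀ p.l w₁ w₂ W f hl hW hW0 hWs hw1 hw2 hfs
    have h2 := mul_le_mul_of_nonneg_left h1 (mul_nonneg hv00 (hw0 X))
    refine h2.trans (le_of_eq ?_)
    ring
  refine key.trans (le_of_eq ?_)
  have i1 : Integrable (fun X => w₁ / p.l ^ 3 * B1 X) (PiS (tm (θ a)) (mO p.L) S) :=
    (hint _ b1).const_mul _
  have i2 : Integrable (fun X => w₂ * B2 X) (PiS (tm (θ a)) (mO p.L) S) := (hint _ b2).const_mul _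
  show ∫ X, C₁ * (w₁ / p.l ^ 3 * B1 X + w₂ * B2 X) ∂(PiS (tm (θ a)) (mO p.L) S) = _
  rw [integral_const_mul, integral_add i1 i2, integral_const_mul, integral_const_mul]
  rfl

end Pool.Agent.TBS
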