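import Pool.Agent.TBS.StmtsA

/-!
# HSF: the function `h_S`: size, derivative
-/

set_option autoImplicit false

open MeasureTheory Filter Topology
open scoped ContDiff

namespace Pool.Agent.TBS

open Pool.Agent.TBG Pool.Agent.TBL Pool.Agent.TBF

namespace HSF_

variable {ι : Type} [Fintype ι] [DecidableEq ι]

theorem cen_update (S : Finset ι) (X : ι → E) {i : ι} (hi : i ∈ S) (x : E) :
    cen S (Function.update X i x) = cen S X + ((S.card : ℝ))⁻¹ • (x - X i) := by
  unfold cen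
  rw [← smul_add]
  congr 1
  rw [← Finset.add_sum_erase S (fun j => Function.update X i x j) hi,
    ← Finset.add_sum_erase S (fun j => X j) hi]
  have h1 : ∑ j ∈ S.erase i, Function.update X i x j = ∑ j ∈ S.erase i, X j :=
    Finset.sum_congr rfl fun j hj => by rw [Function.update_of_ne (Finset.ne_of_mem_erase hj)]
  rw [h1, Function.update_self]
  abel

theorem cen_meas (S : Finset ι) : Measurable (cen S) := by
  unfold cen
  have h1 : Continuous (fun X : ι → E => ((S.card : ℝ))⁻¹ • ∑ i ∈ S, X i) := by fun_prop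
  exact h1.measurable

theorem ic_nonneg (Q : Set E) (x : E) : 0 ≤ ic Q x := by
  unfold ic
  exact Set.indicator_nonneg (fun _ _ => zero_le_one) x

theorem ic_le (Q : Set E) (x : E) : ic Q x ≤ 1 := by
  unfold ic
  exact Set.indicator_le_self' (fun _ _ => zero_le_one) x

theorem ic_of_mem {Q : Set E} {x : E} (h : x ∈ Q) : ic Q x = 1 := by
  unfold ic
  exact Set.indicator_of_mem h _

/-- Cauchy-Schwarz with weights -/
theorem cs {J : Type*} (s : Finset J) (w v : J → ℝ) (hw : ∀ a ∈ s, 0 ≤ w a)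
    (h1 : ∑ a ∈ s, w a ≤ 1) : (∑ a ∈ s, w a * v a) ^ 2 ≤ ∑ a ∈ s, w a * v a ^ 2 := by
  have h2 := Finset.sum_mul_sq_le_sq_mul_sq s (fun a => Real.sqrt (w a))
    (fun a => Real.sqrt (w a) * v a)
  have h3 : ∑ a ∈ s, Real.sqrt (w a) * (Real.sqrt (w a) * v a) = ∑ a ∈ s, w a * v a :=
    Finset.sum_congr rfl fun a ha => by
      rw [← mul_assoc, Real.mul_self_sqrt (hw a ha)]
  have h4 : ∑ a ∈ s, Real.sqrt (w a) ^ 2 = ∑ a ∈ s, w a :=
    Finset.sum_congr rfl fun a ha => by rw [Real.sq_sqrt (hw a ha)]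
  have h5 : ∑ a ∈ s, (Real.sqrt (w a) * v a) ^ 2 = ∑ a ∈ s, w a * v a ^ 2 :=
    Finset.sum_congr rfl fun a ha => by rw [mul_pow, Real.sq_sqrt (hw a ha)]
  rw [h3, h4, h5] at h2
  refine h2.trans ?_
  have h6 : 0 ≤ ∑ a ∈ s, w a * v a ^ 2 :=
    Finset.sum_nonneg fun a ha => mul_nonneg (hw a ha) (sq_nonneg _)
  nlinarith

/-- the derivative of `β a` vanishes outside the cube -/
theorem pd_zero {β : E → ℝ} {Q : Set E} (hQ : IsClosed Q) (h : ∀ x, β x ≠ 0 → x ∈ Q) (c : Fin 3)
    {x : E} (hx : x ∉ Q) : pd c β x = 0 := by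
  have h1 : β =ᶠ[𝓝 x] fun _ => 0 := by
    filter_upwards [hQ.isOpen_compl.mem_nhds hx] with y hy
    by_contra h0
    exact hy (h y h0)
  unfold pd
  rw [h1.fderiv_eq]
  simp

theorem qb_closed (a : E) (r : ℝ) : IsClosed (Qb a r) := by
  have h1 : Qb a r = ⋂ c : Fin 3, {x : E | |x c - a c| ≤ r} := by
    ext x
    simp [Qb]
  rw [h1]
  refine isClosed_iInter fun c => isClosed_le ?_ continuous_const
  fun_prop

end HSF_

open HSF_

theorem hsf_proof (hBMC : Pool.Agent.TBL.Stmt_BMC) (hMSY : Stmt_MSY) (hAVP : Stmt_AVP)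
    (hVTP : Stmt_VTP) : Stmt_HSF := by
  intro C
  refine ⟨|C| ^ 3 + 1, by positivity, ?_⟩
  intro ι _ _ p β θ u S hs hu hSn
  obtain ⟨hb1, hb2, hb3, hb4, -⟩ := hBMC
  obtain ⟨hl, -, -, -, hQb, -, hpr, -, -, -, -, -⟩ := hMSY C p β θ hs
  have hl0 : 0 < p.l := by linarith
  have hC : 0 ≤ C := le_trans (Nat.cast_nonneg _) (hs.mul 0)
  -- the amplitudes
  have hav : ∀ a, BM (Av (tm (θ a)) S u) ∧ IndS S (Av (tm (θ a)) S u) := by
    intro a
    have := hpr a
    have h := hAVP ι (tm (θ a)) S S u u hu hu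
    exact ⟨h.1, h.2.1⟩
  have hvt : ∀ a, BM (vt p a S : (ι → E) → ℝ) ∧ IndS S (vt p a S) := fun a =>
    ⟨(hVTP ι C p β θ hs a S).1, (hVTP ι C p β θ hs a S).2.1⟩
  have hAmB : ∀ a, BM (Am p θ u a S) := fun a =>
    (hb1 _ _ _ (hvt a).1 (hav a).1).2.2.1
  have hAmI : ∀ a, IndS S (Am p θ u a S) := by
    intro a X Y h
    unfold Am
    rw [(hvt a).2 X Y h, (hav a).2 X Y h]
  -- β
  have hβ1 : ∀ a ∈ p.Gr, ∀ x, β a x ≤ 1 := fun a ha x =>
    (Finset.single_le_sum (fun b _ => hs.β0 b x) ha).trans (hs.β1 x)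
  have hβic : ∀ a ∈ p.Gr, ∀ x, β a x ≤ ic (Qb a p.l) x := by
    intro a ha x
    by_cases h0 : β a x = 0
    · rw [h0]
      exact ic_nonneg _ _
    · rw [ic_of_mem (hs.βsp a x h0)]
      exact hβ1 a ha x
  have hβB : ∀ a ∈ p.Gr, BM (fun X : ι → E => β a (cen S X)) := by
    intro a ha
    refine ⟨(hs.βs a).continuous.measurable.comp (cen_meas S), 1, fun X => ?_⟩
    rw [abs_of_nonneg (hs.β0 a _)]
    exact hβ1 a ha _
  have hicB : ∀ a, BM (fun X : ι → E => ic (Qb a p.l) (cen S X)) := by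
    intro a
    refine ⟨?_, 1, fun X => ?_⟩
    · have h1 : Measurable (ic (Qb a p.l)) := measurable_const.indicator (hQb a p.l).1
      exact h1.comp (cen_meas S)
    · rw [abs_of_nonneg (ic_nonneg _ _)]
      exact ic_le _ _
  have hhn : ∀ X, 0 ≤ hh2 p θ u S X := fun X =>
    Finset.sum_nonneg fun a _ => mul_nonneg (ic_nonneg _ _) (sq_nonneg _)
  have hmain : ∀ i ∈ S, ∀ X, (fun x => hS p β θ u S (Function.update X i x)) =
      fun x => ∑ a ∈ p.Gr, β a (cen S X + ((S.card : ℝ))⁻¹ • (x - X i)) * Am p θ u a S X := by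
    intro i hi X
    funext x
    unfold hS
    refine Finset.sum_congr rfl fun a _ => ?_
    rw [cen_update S X hi, hAmI a (Function.update X i x) X fun j hj => by
      rw [Function.update_of_ne (ne_of_mem_of_not_mem hi hj).symm]]
  refine ⟨?_, ?_, fun X => ⟨hhn X, ?_⟩, fun X hX => ?_, fun i hi X => ?_⟩
  · exact hb3 _ _ p.Gr _ fun a ha => (hb1 _ _ _ (hβB a ha) (hAmB a)).2.2.1
  · exact hb3 _ _ p.Gr _ fun a _ =>
      (hb1 _ _ _ (hicB a) (hb1 _ _ _ (hAmB a) (hAmB a)).2.2.2.1).2.2.1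
  · unfold hS hh2
    refine (cs p.Gr _ _ (fun a _ => hs.β0 a _) (hs.β1 _)).trans ?_
    exact Finset.sum_le_sum fun a ha => mul_le_mul_of_nonneg_right (hβic a ha _) (sq_nonneg _)
  · unfold hS at hX
    obtain ⟨a, ha, h⟩ := Finset.exists_ne_zero_of_sum_ne_zero hX
    exact ⟨a, ha, hs.βsp a _ (left_ne_zero_of_mul h)⟩
  · rw [hmain i hi X]
    refine ⟨?_, fun c => ?_⟩
    · refine ContDiff.sum fun a _ => ContDiff.mul ?_ contDiff_const
      refine (hs.βs a).comp ?_
      fun_prop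
    · have hder : pd c (fun x => ∑ a ∈ p.Gr, β a (cen S X + ((S.card : ℝ))⁻¹ • (x - X i)) *
          Am p θ u a S X) (X i) =
          (S.card : ℝ)⁻¹ * ∑ a ∈ p.Gr, pd c (β a) (cen S X) * Am p θ u a S X := by
        have h1 : ∀ a ∈ p.Gr, HasFDerivAt (fun x => β a (cen S X + ((S.card : ℝ))⁻¹ • (x - X i)) *
            Am p θ u a S X) (Am p θ u a S X • ((fderiv ℝ (β a) (cen S X)).comp
              (((S.card : ℝ))⁻¹ • ContinuousLinearMap.id ℝ E))) (X i) := by
          intro a _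
          have h2 : HasFDerivAt (fun x : E => cen S X + ((S.card : ℝ))⁻¹ • (x - X i))
              (((S.card : ℝ))⁻¹ • ContinuousLinearMap.id ℝ E) (X i) := by
            have h0 : HasFDerivAt (fun x : E => x - X i) (ContinuousLinearMap.id ℝ E) (X i) :=
              (hasFDerivAt_id (𝕜 := ℝ) (X i)).sub_const (X i)
            exact (h0.fun_const_smul ((S.card : ℝ))⁻¹).const_add (cen S X)
          have h3 : cen S X + ((S.card : ℝ))⁻¹ • (X i - X i) = cen S X := by simp
          have h4 : HasFDerivAt (β a) (fderiv ℝ (β a) (cen S X))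
              (cen S X + ((S.card : ℝ))⁻¹ • (X i - X i)) := by
            rw [h3]
            exact ((hs.βs a).differentiable (by simp) _).hasFDerivAt
          exact (h4.comp (X i) h2).mul_const _
        have h5 := HasFDerivAt.fun_sum h1
        unfold pd
        rw [h5.fderiv, ContinuousLinearMap.sum_apply, Finset.mul_sum]
        refine Finset.sum_congr rfl fun a _ => ?_
        simp only [ContinuousLinearMap.smul_apply, ContinuousLinearMap.comp_apply,
          ContinuousLinearMap.id_apply, map_smul, smul_eq_mul]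
        ring
      refine ⟨hder, ?_⟩
      rw [hder]
      have hcard : (1 : ℝ) ≤ S.card := by exact_mod_cast hSn.card_pos
      have hinv : ((S.card : ℝ)⁻¹) ^ 2 ≤ 1 := by
        have : (S.card : ℝ)⁻¹ ≤ 1 := inv_le_one_of_one_le₀ hcard
        have h0 : 0 ≤ (S.card : ℝ)⁻¹ := by positivity
        nlinarith
      classical
      set A := p.Gr.filter (fun a => cen S X ∈ Qb a p.l) with hA
      have hAc : (A.card : ℝ) ≤ C := by
        refine le_trans ?_ (hs.mul (cen S X))
        have h1 : A ⊆ p.Gr.filter (fun a => ∀ c, |cen S X c - a c| ≤ 12 * p.l) := by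
          intro a ha
          rw [hA, Finset.mem_filter] at ha
          rw [Finset.mem_filter]
          exact ⟨ha.1, fun c => (ha.2 c).trans (by linarith)⟩
        have h2 := Finset.card_le_card h1
        exact_mod_cast h2
      have hsum : ∑ a ∈ p.Gr, pd c (β a) (cen S X) * Am p θ u a S X =
          ∑ a ∈ A, pd c (β a) (cen S X) * Am p θ u a S X := by
        rw [hA, Finset.sum_filter]
        refine Finset.sum_congr rfl fun a _ => ?_
        split_ifs with h
        · rfl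
        · rw [pd_zero (qb_closed a p.l) (hs.βsp a) c h, zero_mul]
      have hhA : ∑ a ∈ A, Am p θ u a S X ^ 2 ≤ hh2 p θ u S X := by
        unfold hh2
        rw [hA, Finset.sum_filter]
        refine Finset.sum_le_sum fun a _ => ?_
        split_ifs with h
        · rw [ic_of_mem h, one_mul]
        · exact mul_nonneg (ic_nonneg _ _) (sq_nonneg _)
      have hA0 : 0 ≤ ∑ a ∈ A, Am p θ u a S X ^ 2 := Finset.sum_nonneg fun _ _ => sq_nonneg _
      have h1 : (∑ a ∈ A, pd c (β a) (cen S X) * Am p θ u a S X) ^ 2 ≤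
          (∑ a ∈ A, pd c (β a) (cen S X) ^ 2) * ∑ a ∈ A, Am p θ u a S X ^ 2 :=
        Finset.sum_mul_sq_le_sq_mul_sq A _ _
      have h2 : ∑ a ∈ A, pd c (β a) (cen S X) ^ 2 ≤ C * (C / p.l) ^ 2 := by
        calc ∑ a ∈ A, pd c (β a) (cen S X) ^ 2 ≤ ∑ _a ∈ A, (C / p.l) ^ 2 := by
              refine Finset.sum_le_sum fun a _ => ?_
              rw [← sq_abs (pd c (β a) (cen S X))]
              exact pow_le_pow_left₀ (abs_nonneg _) (hs.βd a c _) 2
          _ = A.card * (C / p.l) ^ 2 := by rw [Finset.sum_const, nsmul_eq_mul]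
          _ ≤ C * (C / p.l) ^ 2 := mul_le_mul_of_nonneg_right hAc (sq_nonneg _)
      calc ((S.card : ℝ)⁻¹ * ∑ a ∈ p.Gr, pd c (β a) (cen S X) * Am p θ u a S X) ^ 2
          = ((S.card : ℝ)⁻¹) ^ 2 * (∑ a ∈ A, pd c (β a) (cen S X) * Am p θ u a S X) ^ 2 := by
            rw [hsum, mul_pow]
        _ ≤ 1 * (∑ a ∈ A, pd c (β a) (cen S X) * Am p θ u a S X) ^ 2 :=
            mul_le_mul_of_nonneg_right hinv (sq_nonneg _)
        _ ≤ (C * (C / p.l) ^ 2) * ∑ a ∈ A, Am p θ u a S X ^ 2 := by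
            rw [one_mul]
            exact h1.trans (mul_le_mul_of_nonneg_right h2 hA0)
        _ = C ^ 3 / p.l ^ 2 * ∑ a ∈ A, Am p θ u a S X ^ 2 := by
            field_simp
        _ ≤ (|C| ^ 3 + 1) / p.l ^ 2 * hh2 p θ u S X := by
            refine mul_le_mul ?_ hhA hA0 (by positivity)
            refine div_le_div_of_nonneg_right ?_ (by positivity)
            rw [abs_of_nonneg hC]
            linarith

end Pool.Agent.TBS
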