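import Pool.Agent.TBS.StmtsB

/-!
# Squad TBS, module IBN: integration by parts in the position of one particle
-/

set_option autoImplicit false

open MeasureTheory Filter Topology
open scoped ContDiff

namespace Pool.Agent.TBS

open Pool.Agent.TBG Pool.Agent.TBL Pool.Agent.TBF

namespace IBN_

theorem closed_Qb (a : E) (r : ℝ) : IsClosed (Qb a r) := by
  have h : Qb a r = ⋂ c : Fin 3, {x : E | |x c - a c| ≤ r} := by
    ext x
    simp [Qb]
  rw [h]
  refine isClosed_iInter fun c => ?_
  have : Continuous (fun x : E => |x c - a c|) := by fun_prop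
  exact isClosed_le this continuous_const

end IBN_

theorem ibn_proof (hBMC : Pool.Agent.TBL.Stmt_BMC) (hIBP : Pool.Agent.TBG.Stmt_IBP) (hMSY : Stmt_MSY)
    (hPSF : Stmt_PSF) (hAVC : Stmt_AVC) : Stmt_IBN := by
  intro C ι _ _ p β θ u F i c hs hu hF hF1 hF2 hsp
  obtain ⟨hl1, hfin, hOm, -, hQ, hsub, hprob, -, -, -, -⟩ := hMSY C p β θ hs
  have hl : 0 < p.l := by linarith
  have hmul : ∀ {α : Type} [MeasurableSpace α] {F G : α → ℝ}, BM F → BM G → BM (fun X => F X * G X) :=
    fun {α} _ {F G} hF hG => (hBMC.1 α F G hF hG).2.2.1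
  let m : Measure E := Measure.dirac 0
  obtain ⟨hub, hdi, -, -, -, hdi2, -⟩ := hAVC ι m ∅ u hu
  have hP : (PiS (mO p.L) (mO p.L) (∅ : Finset ι)) = PiS m (mO p.L) (∅ : Finset ι) := by
    unfold PiS
    simp
  obtain ⟨-, hps⟩ := hPSF ι m (mO p.L) (∅ : Finset ι)
  have e1 : IO p (fun X => di i c u X * F X) = ∫ X, (∫ x, di i c u (Function.update X i x) *
      F (Function.update X i x) ∂(mO p.L)) ∂(PiS m (mO p.L) (insert i (∅ : Finset ι))) := by
    unfold IO
    rw [hP]
    exact (hps _ (hmul (hdi i c) hF)).1 i (by simp)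
  have e2 : IO p (fun X => u X * pd c (fun x => F (Function.update X i x)) (X i)) =
      ∫ X, (∫ x, u (Function.update X i x) * pd c (fun y => F (Function.update X i y)) x ∂(mO p.L))
        ∂(PiS m (mO p.L) (insert i (∅ : Finset ι))) := by
    unfold IO
    rw [hP]
    rw [(hps _ (hmul hub hF2)).1 i (by simp)]
    simp only [Function.update_idem, Function.update_self]
  rw [e1, e2, ← integral_neg]
  congr 1
  funext X
  set G : E → ℝ := fun y => F (Function.update X i y) with hG
  set U : E → ℝ := fun y => u (Function.update X i y) with hU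
  have e3 : ∀ x, di i c u (Function.update X i x) = pd c U x := by
    intro x
    rw [hdi2]
    simp only [Function.update_idem, Function.update_self]
    rfl
  simp_rw [e3]
  show ∫ x, pd c U x * G x ∂(mO p.L) = - ∫ x, U x * pd c G x ∂(mO p.L)
  -- the supports
  set K : Set E := ⋃ a ∈ p.Gr, Qb a (10 * p.l) with hK
  have hKc : IsClosed K := by
    rw [hK]
    exact p.Gr.finite_toSet.isClosed_biUnion fun a _ => IBN_.closed_Qb a _
  have hKO : K ⊆ Om p.L := by
    rw [hK]
    refine Set.iUnion₂_subset fun a ha => ?_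
    exact (hsub a _ le_rfl).trans (hs.inb a ha)
  have hG0 : ∀ x, x ∉ K → G x = 0 := by
    intro x hx
    by_contra h
    obtain ⟨a, ha, h1⟩ := hsp (Function.update X i x) h
    rw [Function.update_self] at h1
    exact hx (Set.mem_biUnion ha h1)
  have hG1 : ∀ x, x ∉ K → pd c G x = 0 := by
    intro x hx
    have h1 : G =ᶠ[𝓝 x] fun _ => 0 := by
      filter_upwards [hKc.isOpen_compl.mem_nhds hx] with y hy
      exact hG0 y hy
    unfold pd
    rw [h1.fderiv_eq]
    simp
  have hGc : ContDiff ℝ 1 G := hF1 X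
  have hupd : ContDiff ℝ 1 (fun y : E => Function.update X i y) := contDiff_update 1 X i
  have hUc : ContDiff ℝ 1 U := hu.1.comp hupd
  have hUs : HasCompactSupport U := by
    refine HasCompactSupport.intro (K := (fun Y : ι → E => Y i) '' tsupport u)
      (hu.2.isCompact.image (continuous_apply i)) ?_
    intro x hx
    by_contra h
    refine hx ⟨Function.update X i x, subset_tsupport _ h, ?_⟩
    simp
  have e4 : ∫ x, pd c U x * G x ∂(mO p.L) = ∫ x, pd c U x * G x := by
    unfold mO
    refine setIntegral_eq_integral_of_forall_compl_eq_zero fun x hx => ?_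
    rw [hG0 x (fun h => hx (hKO h)), mul_zero]
  have e5 : ∫ x, U x * pd c G x ∂(mO p.L) = ∫ x, U x * pd c G x := by
    unfold mO
    refine setIntegral_eq_integral_of_forall_compl_eq_zero fun x hx => ?_
    rw [hG1 x (fun h => hx (hKO h)), mul_zero]
  rw [e4, e5]
  have e6 := (hIBP E (volume : Measure E) U G (ev c) hUc hGc hUs).2
  have e7 : ∫ x, U x * pd c G x = ∫ x, U x * dv (ev c) G x := rfl
  have e8 : ∫ x, pd c U x * G x = ∫ x, dv (ev c) U x * G x := rfl
  rw [e7, e8, e6, neg_neg]

end Pool.Agent.TBS
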