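import Pool.Agent.TBS.StmtsB

set_option autoImplicit false

open MeasureTheory Filter Topology
open scoped ContDiff

namespace Pool.Agent.TBS

open Pool.Agent.TBG Pool.Agent.TBL Pool.Agent.TBF

namespace IDN_

theorem om_fin (L : ℝ) : IsFiniteMeasure (mO L) := by
  refine ⟨?_⟩
  rw [mO, Measure.restrict_apply_univ]
  have hb : Bornology.IsBounded (Om L) := by
    refine (Metric.isBounded_iff_subset_closedBall (0 : E)).2 ⟨2 * |L|, fun x hx => ?_⟩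
    rw [mem_closedBall_zero_iff]
    have hx' : ∀ c, |x c| < L / 2 := hx
    have hL : 0 < L := by
      have := (abs_nonneg (x 0)).trans_lt (hx' 0)
      linarith
    have h1 : ‖x‖ ^ 2 = ∑ c, ‖x c‖ ^ 2 := EuclideanSpace.norm_sq_eq x
    have h2 : ∑ c : Fin 3, ‖x c‖ ^ 2 ≤ ∑ _c : Fin 3, (L / 2) ^ 2 := by
      refine Finset.sum_le_sum (fun c _ => ?_)
      rw [Real.norm_eq_abs]
      exact pow_le_pow_left₀ (abs_nonneg _) (hx' c).le 2
    simp only [Finset.sum_const, Finset.card_univ, Fintype.card_fin, nsmul_eq_mul] at h2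
    rw [abs_of_pos hL]
    refine abs_le_of_sq_le_sq' ?_ (by linarith) |>.2
    rw [h1]
    refine h2.trans ?_
    push_cast
    nlinarith
  exact hb.measure_lt_top

theorem comb {ι : Type} (μ : Measure (ι → E)) (fX fQ fW fP f3 f4 fA fB fL fD : (ι → E) → ℝ)
    (hX : Integrable fX μ) (hQ : Integrable fQ μ) (hW : Integrable fW μ) (hP : Integrable fP μ)
    (h3 : Integrable f3 μ) (h4 : Integrable f4 μ) (hA : Integrable fA μ) (hB : Integrable fB μ)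
    (hL : Integrable fL μ) (hD : Integrable fD μ) :
    (∫ X, (fX X - fQ X + fW X - fP X + f3 X + f4 X - 2 * fA X + 2 * fB X -
      (fL X - fD X)) ∂μ) =
    (∫ X, fX X ∂μ) - (∫ X, fQ X ∂μ) + (∫ X, fW X ∂μ) - (∫ X, fP X ∂μ) + (∫ X, f3 X ∂μ) +
      (∫ X, f4 X ∂μ) - 2 * (∫ X, fA X ∂μ) + 2 * (∫ X, fB X ∂μ) - ((∫ X, fL X ∂μ) - ∫ X, fD X ∂μ) := by
  have i1 : Integrable (fun X => fX X - fQ X) μ := hX.sub hQ
  have i2 : Integrable (fun X => fX X - fQ X + fW X) μ := i1.add hW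
  have i3 : Integrable (fun X => fX X - fQ X + fW X - fP X) μ := i2.sub hP
  have i4 : Integrable (fun X => fX X - fQ X + fW X - fP X + f3 X) μ := i3.add h3
  have i5 : Integrable (fun X => fX X - fQ X + fW X - fP X + f3 X + f4 X) μ := i4.add h4
  have iA : Integrable (fun X => 2 * fA X) μ := hA.const_mul 2
  have iB : Integrable (fun X => 2 * fB X) μ := hB.const_mul 2
  have i6 : Integrable (fun X => fX X - fQ X + fW X - fP X + f3 X + f4 X - 2 * fA X) μ := i5.sub iA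
  have i7 : Integrable (fun X => fX X - fQ X + fW X - fP X + f3 X + f4 X - 2 * fA X + 2 * fB X) μ :=
    i6.add iB
  have i8 : Integrable (fun X => fL X - fD X) μ := hL.sub hD
  rw [integral_sub i7 i8, integral_add i6 iB, integral_sub i5 iA, integral_add i4 h4,
    integral_add i3 h3, integral_sub i2 hP, integral_add i1 hW, integral_sub hX hQ,
    integral_sub hL hD, integral_const_mul, integral_const_mul]

end IDN_

open IDN_ in
theorem idn_proof (hBMC : Pool.Agent.TBL.Stmt_BMC) (hAVC : Stmt_AVC) (hHSF : Stmt_HSF)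
    (hTUP : Stmt_TUP) (hTRF : Stmt_TRF) (hKBM : Stmt_KBM) (hL3I : Stmt_L3I) (hL4I : Stmt_L4I) :
    Stmt_IDN := by
  intro C ι _ _ p β θ φ τ g y Y g₄ u hSy hu hφ hT hy hD
  obtain ⟨_, _, hHS⟩ := hHSF C
  obtain ⟨bA, bC, bS, -, -⟩ := hBMC
  have bmul : ∀ F G : (ι → E) → ℝ, BM F → BM G → BM (fun X => F X * G X) := fun F G hF hG =>
    (bA _ F G hF hG).2.2.1
  have badd : ∀ F G : (ι → E) → ℝ, BM F → BM G → BM (fun X => F X + G X) := fun F G hF hG =>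
    (bA _ F G hF hG).1
  have bsub : ∀ F G : (ι → E) → ℝ, BM F → BM G → BM (fun X => F X - G X) := fun F G hF hG =>
    (bA _ F G hF hG).2.1
  have bsq : ∀ F : (ι → E) → ℝ, BM F → BM (fun X => F X ^ 2) := fun F hF =>
    (bA _ F F hF hF).2.2.2.1
  have bcm : ∀ (a : ℝ) (F : (ι → E) → ℝ), BM F → BM (fun X => a * F X) := fun a F hF =>
    (bA _ F F hF hF).2.2.2.2.2.1 a
  have bco : ∀ a : ℝ, BM (fun _ : ι → E => a) := fun a => bC _ a
  have bsum : ∀ (J : Type) (s : Finset J) (F : J → (ι → E) → ℝ), (∀ q ∈ s, BM (F q)) →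
      BM (fun X => ∑ q ∈ s, F q X) := fun J s F h => bS _ J s F h
  haveI : IsFiniteMeasure (mO p.L) := om_fin p.L
  haveI hfin : IsFiniteMeasure (PiS (mO p.L) (mO p.L) (∅ : Finset ι)) := by
    unfold PiS
    simp only [Finset.notMem_empty, if_false]
    infer_instance
  have bint : ∀ F : (ι → E) → ℝ, BM F → Integrable F (PiS (mO p.L) (mO p.L) (∅ : Finset ι)) :=
    fun F hF => (bA _ F F hF hF).2.2.2.2.2.2 _
  -- data
  obtain ⟨hbu, hbd, -⟩ := hAVC ι (Measure.dirac (0 : E)) ∅ u hu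
  obtain ⟨k1, k2, k3, k4'⟩ := hKBM
  obtain ⟨_, bg, bφ, bww, bLap, _, bVV, _, hwV, _, _, _, _⟩ := k1 C p.R φ τ g hφ hT
  obtain ⟨bg4, by', bdvg, _, bVm, bym⟩ := k2 C p.l φ y Y g₄ hφ hy hD
  obtain ⟨haF, hI3⟩ := hL3I C ι p β θ φ τ g u hSy hu hφ hT
  obtain ⟨hbF, hI4⟩ := hL4I C ι p β θ φ y Y g₄ u hSy hu hφ hy hD
  obtain ⟨t1, t2, t3, _, _, _, _⟩ := hTUP ι
  obtain ⟨_, _, f3⟩ := hTRF
  have him3 : ∀ e : Fin 3 → ι, (im e).Nonempty := fun e =>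
    ⟨e 0, Finset.mem_image.2 ⟨0, Finset.mem_univ _, rfl⟩⟩
  have him4 : ∀ e : Fin 4 → ι, (im e).Nonempty := fun e =>
    ⟨e 0, Finset.mem_image.2 ⟨0, Finset.mem_univ _, rfl⟩⟩
  have bh3 : ∀ e : Fin 3 → ι, BM (hS p β θ u (im e)) := fun e =>
    (hHS ι p β θ u (im e) hSy hbu (him3 e)).1
  have bh4 : ∀ e : Fin 4 → ι, BM (hS p β θ u (im e)) := fun e =>
    (hHS ι p β θ u (im e) hSy hbu (him4 e)).1
  have bV3 : ∀ e : Fin 3 → ι, BM (fun X : ι → E => VV φ (rt (X ∘ e)).1 (rt (X ∘ e)).2) := fun e =>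
    k3 ι (fun z => VV φ z.1 z.2) e bVV
  have bv : ∀ e : Fin 3 → ι, BM (vF p β θ φ y u e) := by
    intro e
    refine badd _ _ (bmul _ _ (bsub _ _ (bco 1) (k3 ι φ e bφ)) (bh3 e)) ?_
    exact bsum _ _ _ (fun j _ => bmul _ _ (k4' ι y (ap e j) by') (bh4 (ap e j)))
  -- the functions
  have BK : BM (fun X : ι → E => ∑ i, ∑ c, di i c u X ^ 2) :=
    bsum _ _ _ (fun i _ => bsum _ _ _ (fun c _ => bsq _ (hbd i c)))
  have BX : BM (fun X : ι → E => ∑ i, ∑ c, (di i c u X + aF p β θ τ u i c X - bF p β θ Y u i c X) ^ 2) :=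
    bsum _ _ _ (fun i _ => bsum _ _ _ (fun c _ => bsq _ (bsub _ _ (badd _ _ (hbd i c) (haF i c)) (hbF i c))))
  have BQ : BM (fun X : ι → E => ∑ i, ∑ c, (aF p β θ τ u i c X - bF p β θ Y u i c X) ^ 2) :=
    bsum _ _ _ (fun i _ => bsum _ _ _ (fun c _ => bsq _ (bsub _ _ (haF i c) (hbF i c))))
  have BA : BM (fun X : ι → E => ∑ i, ∑ c, di i c u X * aF p β θ τ u i c X) :=
    bsum _ _ _ (fun i _ => bsum _ _ _ (fun c _ => bmul _ _ (hbd i c) (haF i c)))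
  have BB' : BM (fun X : ι → E => ∑ i, ∑ c, di i c u X * bF p β θ Y u i c X) :=
    bsum _ _ _ (fun i _ => bsum _ _ _ (fun c _ => bmul _ _ (hbd i c) (hbF i c)))
  have BW : BM (fun X : ι → E => 1 / 6 * ∑ e ∈ Ij 3 ι, VV φ (rt (X ∘ e)).1 (rt (X ∘ e)).2 *
      (u X - vF p β θ φ y u e X) ^ 2) :=
    bcm _ _ (bsum _ _ _ (fun e _ => bmul _ _ (bV3 e) (bsq _ (bsub _ _ hbu (bv e)))))
  have BP : BM (fun X : ι → E => 1 / 6 * ∑ e ∈ Ij 3 ι, VV φ (rt (X ∘ e)).1 (rt (X ∘ e)).2 *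
      vF p β θ φ y u e X ^ 2) :=
    bcm _ _ (bsum _ _ _ (fun e _ => bmul _ _ (bV3 e) (bsq _ (bv e))))
  have BL3 : BM (fun X : ι → E => 1 / 3 * ∑ e ∈ Ij 3 ι, u X * (hS p β θ u (im e) X * g (rt (X ∘ e)))) :=
    bcm _ _ (bsum _ _ _ (fun e _ => bmul _ _ hbu (bmul _ _ (bh3 e) (k3 ι g e bg))))
  have BL4 : BM (fun X : ι → E => 1 / 12 * ∑ e ∈ Ij 4 ι, u X * (hS p β θ u (im e) X * g₄ (rl (X ∘ e)))) :=
    bcm _ _ (bsum _ _ _ (fun e _ => bmul _ _ hbu (bmul _ _ (bh4 e) (k4' ι g₄ e bg4))))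
  have BLa : BM (fun X : ι → E => 1 / 3 * ∑ e ∈ Ij 3 ι, u X * (hS p β θ u (im e) X * Lap τ (rt (X ∘ e)))) :=
    bcm _ _ (bsum _ _ _ (fun e _ => bmul _ _ hbu (bmul _ _ (bh3 e) (k3 ι (Lap τ) e bLap))))
  have BDv : BM (fun X : ι → E => 1 / 12 * ∑ e ∈ Ij 4 ι, u X * (hS p β θ u (im e) X * dvg Y (rl (X ∘ e)))) :=
    bcm _ _ (bsum _ _ _ (fun e _ => bmul _ _ hbu (bmul _ _ (bh4 e) (k4' ι (dvg Y) e bdvg))))
  -- the four-body sum
  have four : ∀ X : ι → E, ∑ e ∈ Ij 4 ι, u X * (hS p β θ u (im e) X *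
      ∑ m, Vm φ m (rl (X ∘ e)) * ym y m (rl (X ∘ e))) =
      4 * ∑ e ∈ Ij 3 ι, VV φ (rt (X ∘ e)).1 (rt (X ∘ e)).2 * (u X *
        ∑ j ∈ Finset.univ \ im e, y (rl (X ∘ ap e j)) * hS p β θ u (im (ap e j)) X) := by
    intro X
    set F : (Fin 4 → ι) → ℝ := fun e => u X * (hS p β θ u (im e) X *
      (VV φ (X (e 0) - X (e 1)) (X (e 0) - X (e 2)) * y (rl (X ∘ e)))) with hF
    have hm : ∀ m : Fin 4, ∑ e ∈ Ij 4 ι, u X * (hS p β θ u (im e) X *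
        (Vm φ m (rl (X ∘ e)) * ym y m (rl (X ∘ e)))) = ∑ e ∈ Ij 4 ι, F e := by
      intro m
      obtain ⟨σ, hσ⟩ := f3 m
      rw [← (t2 4 σ).1 F]
      refine Finset.sum_congr rfl (fun e _ => ?_)
      obtain ⟨h1, h2⟩ := hσ φ y (X ∘ e)
      rw [h1, h2, hF]
      simp only [((t2 4 σ).2 e).1]
      rfl
    have h4 : ∑ e ∈ Ij 4 ι, u X * (hS p β θ u (im e) X *
        ∑ m, Vm φ m (rl (X ∘ e)) * ym y m (rl (X ∘ e))) = 4 * ∑ e ∈ Ij 4 ι, F e := by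
      calc ∑ e ∈ Ij 4 ι, u X * (hS p β θ u (im e) X *
          ∑ m, Vm φ m (rl (X ∘ e)) * ym y m (rl (X ∘ e)))
          = ∑ e ∈ Ij 4 ι, ∑ m, u X * (hS p β θ u (im e) X *
            (Vm φ m (rl (X ∘ e)) * ym y m (rl (X ∘ e)))) := by
            refine Finset.sum_congr rfl (fun e _ => ?_)
            rw [Finset.mul_sum, Finset.mul_sum]
        _ = ∑ m : Fin 4, ∑ e ∈ Ij 4 ι, u X * (hS p β θ u (im e) X *
            (Vm φ m (rl (X ∘ e)) * ym y m (rl (X ∘ e)))) := Finset.sum_comm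
        _ = ∑ _m : Fin 4, ∑ e ∈ Ij 4 ι, F e := Finset.sum_congr rfl (fun m _ => hm m)
        _ = 4 * ∑ e ∈ Ij 4 ι, F e := by
            rw [Finset.sum_const, Finset.card_univ, Fintype.card_fin, nsmul_eq_mul]
            norm_num
    rw [h4, t3 F]
    congr 1
    refine Finset.sum_congr rfl (fun e _ => ?_)
    rw [Finset.mul_sum, Finset.mul_sum]
    refine Finset.sum_congr rfl (fun j _ => ?_)
    rw [hF]
    show u X * (hS p β θ u (im (ap e j)) X *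
      (VV φ (X (e 0) - X (e 1)) (X (e 0) - X (e 2)) * y (rl (X ∘ ap e j)))) =
      VV φ (X (e 0) - X (e 1)) (X (e 0) - X (e 2)) * (u X * (y (rl (X ∘ ap e j)) * hS p β θ u (im (ap e j)) X))
    ring
  -- pointwise identity
  have pw : ∀ X : ι → E, ∑ i, ∑ c, di i c u X ^ 2 + potS (VV φ) X * u X ^ 2 =
      ((((((((∑ i, ∑ c, (di i c u X + aF p β θ τ u i c X - bF p β θ Y u i c X) ^ 2) -
      ∑ i, ∑ c, (aF p β θ τ u i c X - bF p β θ Y u i c X) ^ 2) +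
      1 / 6 * ∑ e ∈ Ij 3 ι, VV φ (rt (X ∘ e)).1 (rt (X ∘ e)).2 * (u X - vF p β θ φ y u e X) ^ 2) -
      1 / 6 * ∑ e ∈ Ij 3 ι, VV φ (rt (X ∘ e)).1 (rt (X ∘ e)).2 * vF p β θ φ y u e X ^ 2) +
      1 / 3 * ∑ e ∈ Ij 3 ι, u X * (hS p β θ u (im e) X * g (rt (X ∘ e)))) +
      1 / 12 * ∑ e ∈ Ij 4 ι, u X * (hS p β θ u (im e) X * g₄ (rl (X ∘ e)))) -
      2 * ∑ i, ∑ c, di i c u X * aF p β θ τ u i c X) +
      2 * ∑ i, ∑ c, di i c u X * bF p β θ Y u i c X) -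
      (1 / 3 * ∑ e ∈ Ij 3 ι, u X * (hS p β θ u (im e) X * Lap τ (rt (X ∘ e))) -
      1 / 12 * ∑ e ∈ Ij 4 ι, u X * (hS p β θ u (im e) X * dvg Y (rl (X ∘ e)))) := by
    intro X
    have e1 : ∑ i, ∑ c, (di i c u X + aF p β θ τ u i c X - bF p β θ Y u i c X) ^ 2 =
        ∑ i, ∑ c, di i c u X ^ 2 + 2 * ∑ i, ∑ c, di i c u X * aF p β θ τ u i c X -
        2 * ∑ i, ∑ c, di i c u X * bF p β θ Y u i c X +
        ∑ i, ∑ c, (aF p β θ τ u i c X - bF p β θ Y u i c X) ^ 2 := by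
      simp only [Finset.mul_sum, ← Finset.sum_add_distrib, ← Finset.sum_sub_distrib]
      refine Finset.sum_congr rfl (fun i _ => Finset.sum_congr rfl (fun c _ => ?_))
      ring
    have e2 : 1 / 6 * ∑ e ∈ Ij 3 ι, VV φ (rt (X ∘ e)).1 (rt (X ∘ e)).2 * (u X - vF p β θ φ y u e X) ^ 2 -
        1 / 6 * ∑ e ∈ Ij 3 ι, VV φ (rt (X ∘ e)).1 (rt (X ∘ e)).2 * vF p β θ φ y u e X ^ 2 =
        potS (VV φ) X * u X ^ 2 -
        1 / 3 * ∑ e ∈ Ij 3 ι, VV φ (rt (X ∘ e)).1 (rt (X ∘ e)).2 * (u X * vF p β θ φ y u e X) := by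
      rw [t1 (VV φ) X, mul_assoc, Finset.sum_mul]
      simp only [Finset.mul_sum, ← Finset.sum_sub_distrib]
      refine Finset.sum_congr rfl (fun e _ => ?_)
      ring
    have e3 : 1 / 3 * ∑ e ∈ Ij 3 ι, VV φ (rt (X ∘ e)).1 (rt (X ∘ e)).2 * (u X * vF p β θ φ y u e X) =
        (1 / 3 * ∑ e ∈ Ij 3 ι, u X * (hS p β θ u (im e) X * g (rt (X ∘ e))) -
          1 / 3 * ∑ e ∈ Ij 3 ι, u X * (hS p β θ u (im e) X * Lap τ (rt (X ∘ e)))) +
        1 / 3 * ∑ e ∈ Ij 3 ι, VV φ (rt (X ∘ e)).1 (rt (X ∘ e)).2 * (u X *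
        ∑ j ∈ Finset.univ \ im e, y (rl (X ∘ ap e j)) * hS p β θ u (im (ap e j)) X) := by
      rw [← mul_sub, ← mul_add, ← Finset.sum_sub_distrib, ← Finset.sum_add_distrib]
      congr 1
      refine Finset.sum_congr rfl (fun e _ => ?_)
      have h1 := hT.eqn (rt (X ∘ e))
      have h2 := hwV (rt (X ∘ e))
      unfold vF
      rw [h1, h2]
      ring
    have e4 : 1 / 12 * ∑ e ∈ Ij 4 ι, u X * (hS p β θ u (im e) X * g₄ (rl (X ∘ e))) +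
        1 / 12 * ∑ e ∈ Ij 4 ι, u X * (hS p β θ u (im e) X * dvg Y (rl (X ∘ e))) =
        1 / 3 * ∑ e ∈ Ij 3 ι, VV φ (rt (X ∘ e)).1 (rt (X ∘ e)).2 * (u X *
        ∑ j ∈ Finset.univ \ im e, y (rl (X ∘ ap e j)) * hS p β θ u (im (ap e j)) X) := by
      have h5 : 1 / 12 * ∑ e ∈ Ij 4 ι, u X * (hS p β θ u (im e) X * g₄ (rl (X ∘ e))) +
          1 / 12 * ∑ e ∈ Ij 4 ι, u X * (hS p β θ u (im e) X * dvg Y (rl (X ∘ e))) =
          1 / 12 * ∑ e ∈ Ij 4 ι, u X * (hS p β θ u (im e) X *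
            ∑ m, Vm φ m (rl (X ∘ e)) * ym y m (rl (X ∘ e))) := by
        rw [← mul_add, ← Finset.sum_add_distrib]
        congr 1
        refine Finset.sum_congr rfl (fun e _ => ?_)
        rw [hD.eqn (rl (X ∘ e))]
        ring
      rw [h5, four X]
      ring
    linarith [e1, e2, e3, e4]
  -- integration
  unfold EN XX VX L3 L4 QK QV
  unfold IO
  unfold IO at hI3 hI4
  refine (integral_congr_ae (ae_of_all _ pw)).trans ?_
  refine (comb _ _ _ _ _ _ _ _ _ _ _ (bint _ BX) (bint _ BQ) (bint _ BW) (bint _ BP)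
    (bint _ BL3) (bint _ BL4) (bint _ BA) (bint _ BB') (bint _ BLa) (bint _ BDv)).trans ?_
  linarith [hI3, hI4]

end Pool.Agent.TBS
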