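import Pool.Agent.TBS.StmtsC

set_option autoImplicit false

open MeasureTheory Filter Topology
open scoped ContDiff

namespace Pool.Agent.TBS

open Pool.Agent.TBG Pool.Agent.TBL Pool.Agent.TBF

namespace IOB_

lemma pis (L : ℝ) (N : ℕ) :
    PiS (mO L) (mO L) (∅ : Finset (Fin N)) = (volume : Measure (Fin N → E)).restrict (box N L) := by
  have h1 : PiS (mO L) (mO L) (∅ : Finset (Fin N)) =
      Measure.pi (fun _ : Fin N => (volume : Measure E).restrict (Om L)) := by
    unfold PiS mO
    simp
  rw [h1, ← Measure.restrict_pi_pi]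
  have h2 : Set.univ.pi (fun _ : Fin N => Om L) = box N L := by
    ext X
    simp [box, Om, Set.mem_pi]
  rw [h2]
  rfl

lemma io (p : Par) (N : ℕ) (F : (Fin N → E) → ℝ) : IO p F = ∫ X in box N p.L, F X := by
  unfold IO
  rw [pis]

end IOB_

theorem iob_proof (_hBMC : Pool.Agent.TBL.Stmt_BMC) : Stmt_IOB := by
  intro N p V e hL h u hu hc
  have h1 := h u ⟨hu.of_le (by exact_mod_cast le_top), hc⟩
  unfold UU EN at h1
  rw [IOB_.io, IOB_.io] at h1
  exact h1

end Pool.Agent.TBS
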