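import Pool.Agent.TBS.StmtsB

set_option autoImplicit false

open MeasureTheory Filter Topology
open scoped ContDiff

namespace Pool.Agent.TBS

open Pool.Agent.TBG Pool.Agent.TBL Pool.Agent.TBF

namespace KBD_

theorem int_supp {f : E → ℝ} {B r : ℝ} {a : E} (hf : Measurable f) (hB : ∀ x, |f x| ≤ B)
    (hs : ∀ x, f x ≠ 0 → x ∈ Qb a r) (hS : MeasurableSet (Qb a r))
    (hv : volume (Qb a r) = ENNReal.ofReal ((2 * r) ^ 3)) (hr : 0 ≤ r) :
    Integrable f ∧ ∫ x, f x ≤ B * (2 * r) ^ 3 := by
  have hB0 : 0 ≤ B := le_trans (abs_nonneg _) (hB 0)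
  set g : E → ℝ := (Qb a r).indicator (fun _ => B) with hg
  have hgi : Integrable g := (integrable_indicator_iff hS).2
    (integrableOn_const (by rw [hv]; exact ENNReal.ofReal_ne_top) (by simp))
  have hfg : ∀ x, |f x| ≤ g x := by
    intro x
    by_cases hx : x ∈ Qb a r
    · rw [hg, Set.indicator_of_mem hx]
      exact hB x
    · rw [hg, Set.indicator_of_notMem hx]
      have : f x = 0 := by
        by_contra h
        exact hx (hs x h)
      rw [this, abs_zero]
  have hfi : Integrable f :=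
    hgi.mono' hf.aestronglyMeasurable (Eventually.of_forall fun x => by
      rw [Real.norm_eq_abs]; exact hfg x)
  refine ⟨hfi, ?_⟩
  calc ∫ x, f x ≤ ∫ x, g x := integral_mono hfi hgi fun x => (le_abs_self _).trans (hfg x)
    _ = (volume.real (Qb a r)) • B := integral_indicator_const B hS
    _ = B * (2 * r) ^ 3 := by
      rw [smul_eq_mul, Measure.real, hv, ENNReal.toReal_ofReal (by positivity), mul_comm]

theorem mem_of_norm {x z : E} {R : ℝ} (h : ‖x - z‖ ≤ R) : z ∈ Qb x R := by
  intro c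
  have h1 : ‖(x - z) c‖ ≤ ‖x - z‖ := PiLp.norm_apply_le (x - z) c
  rw [abs_sub_comm]
  refine le_trans ?_ h
  simpa [Real.norm_eq_abs] using h1

theorem lin5 {f g h k t : E → ℝ} (hf : Integrable f) (hg : Integrable g) (hh : Integrable h)
    (hk : Integrable k) (ht : Integrable t) (a b c d e : ℝ) :
    ∫ z, (a * f z + b * g z + c * h z + d * k z + e * t z) =
      a * (∫ z, f z) + b * (∫ z, g z) + c * (∫ z, h z) + d * (∫ z, k z) + e * (∫ z, t z) := by
  have h1 : Integrable (fun z => a * f z + b * g z) := (hf.const_mul a).add (hg.const_mul b)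
  have h2 : Integrable (fun z => a * f z + b * g z + c * h z) := h1.add (hh.const_mul c)
  have h3 : Integrable (fun z => a * f z + b * g z + c * h z + d * k z) := h2.add (hk.const_mul d)
  rw [integral_add h3 (ht.const_mul e), integral_add h2 (hk.const_mul d),
    integral_add h1 (hh.const_mul c), integral_add (hf.const_mul a) (hg.const_mul b),
    integral_const_mul, integral_const_mul, integral_const_mul, integral_const_mul,
    integral_const_mul]

end KBD_

open KBD_ in
theorem kbd_proof (_hBMC : Pool.Agent.TBL.Stmt_BMC) (hMSY : Stmt_MSY) : Stmt_KBD := by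
  intro C₀ b
  refine ⟨1 + 22 * |C₀| + 150 * |C₀| ^ 2 + 12 * |C₀| ^ 3, by positivity, ?_⟩
  intro p β θ g P hS hP a
  obtain ⟨hl1, -, -, -, hQ, -, -, -, -, -, -, -⟩ := hMSY C₀ p β θ hS
  have hR1 : 1 ≤ p.R := hS.hR
  have hRl : p.R ≤ p.l := hS.hl
  have hl0 : 0 < p.l := by linarith
  have hR0 : 0 < p.R := by linarith
  have hC : 0 ≤ C₀ := by
    have h1 : 0 ≤ C₀ / p.l ^ 3 := le_trans (hS.θ0 a 0) (hS.θb a 0)
    by_contra h
    have : C₀ / p.l ^ 3 < 0 := div_neg_of_neg_of_pos (not_le.1 h) (by positivity)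
    linarith
  rw [abs_of_nonneg hC]
  generalize hCC : C₀ = C at *
  -- the scales
  obtain ⟨A, hA⟩ : ∃ A : ℝ, A = (p.l ^ 3)⁻¹ := ⟨_, rfl⟩
  obtain ⟨D, hD⟩ : ∃ D : ℝ, D = (p.R ^ 3)⁻¹ := ⟨_, rfl⟩
  have hA0 : 0 < A := by rw [hA]; positivity
  have hD0 : 0 < D := by rw [hD]; positivity
  have hAD : A ≤ D := by
    rw [hA, hD]
    exact inv_anti₀ (by positivity) (pow_le_pow_left₀ hR0.le hRl 3)
  have e1 : ∀ c : ℝ, c / p.l ^ 3 = c * A := fun c => by rw [hA, div_eq_mul_inv]
  have e2 : ∀ c : ℝ, c / (p.l ^ 3 * p.R ^ 3) = c * (A * D) := fun c => by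
    rw [hA, hD, div_eq_mul_inv, mul_inv]
  have e3 : ∀ c : ℝ, c / (p.l ^ 3 * p.R ^ 6) = c * (A * D ^ 2) := fun c => by
    rw [hA, hD, div_eq_mul_inv, mul_inv, inv_pow, ← pow_mul]
  simp only [e1, e2, e3]
  -- the one-particle density
  obtain ⟨hQ2m, hQ2v⟩ := hQ a (2 * p.l)
  have hQ2v := hQ2v (by positivity)
  have t0 : ∀ x, 0 ≤ θ a x := hS.θ0 a
  have tb : ∀ x, θ a x ≤ C * A := fun x => by rw [← e1]; exact hS.θb a x
  have ti : Integrable (θ a) := (int_supp (hS.θm a) (fun x => by rw [abs_of_nonneg (t0 x)]; exact tb x)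
    (hS.θsp a) hQ2m hQ2v (by positivity)).1
  have t1 : ∫ x, θ a x = 1 := hS.θ1 a
  -- the triple density
  have P0 : ∀ x y z, 0 ≤ P a x y z := hP.nn a
  have Pb : ∀ x y z, P a x y z ≤ C * (A * D ^ 2) := fun x y z => by rw [← e3]; exact hP.bd a x y z
  have s1 : ∀ x y z, P a x y z = P a y x z := (hP.sy a).s1
  have s2 : ∀ x y z, P a x y z = P a x z y := (hP.sy a).s2
  have Pm : Measurable (fun q : E × E × E => P a q.1 q.2.1 q.2.2) := (hP.bm a).1
  have Pmz : ∀ x y, Measurable (fun z => P a x y z) := fun x y =>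
    Pm.comp (measurable_const.prodMk (measurable_const.prodMk measurable_id))
  have Psx : ∀ x y z, P a x y z ≠ 0 → x ∈ Qb a (2 * p.l) := fun x y z h => (hP.sp a x y z h).1
  have Psy : ∀ x y z, P a x y z ≠ 0 → y ∈ Qb a (2 * p.l) := fun x y z h =>
    Psx y x z (by rw [← s1]; exact h)
  have Psz : ∀ x y z, P a x y z ≠ 0 → z ∈ Qb a (2 * p.l) := fun x y z h =>
    Psy x z y (by rw [← s2]; exact h)
  have Pi : ∀ x y, Integrable (fun z => P a x y z) ∧
      ∫ z, P a x y z ≤ C * (A * D ^ 2) * (2 * p.R) ^ 3 := fun x y => by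
    obtain ⟨hm, hv⟩ := hQ x p.R
    exact int_supp (Pmz x y) (fun z => by rw [abs_of_nonneg (P0 x y z)]; exact Pb x y z)
      (fun z h => mem_of_norm (hP.sp a x y z h).2.2) hm (hv hR0.le) hR0.le
  -- the pair density
  have f0 : ∀ x y, 0 ≤ P2 P a x y := fun x y => integral_nonneg (P0 x y)
  have hDR : D ^ 2 * p.R ^ 3 = D := by
    rw [hD]; field_simp
  have fb : ∀ x y, P2 P a x y ≤ 8 * C * (A * D) := fun x y => by
    refine (Pi x y).2.trans (le_of_eq ?_)
    calc C * (A * D ^ 2) * (2 * p.R) ^ 3 = 8 * C * (A * (D ^ 2 * p.R ^ 3)) := by ring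
      _ = 8 * C * (A * D) := by rw [hDR]
  have fsy : ∀ x y, P2 P a x y = P2 P a y x := fun x y => by
    unfold P2
    exact integral_congr_ae (Eventually.of_forall fun z => s1 x y z)
  have fsp : ∀ x y, P2 P a x y ≠ 0 → x ∈ Qb a (2 * p.l) ∧ y ∈ Qb a (2 * p.l) := by
    intro x y h
    by_contra hcon
    apply h
    have : ∀ z, P a x y z = 0 := by
      intro z
      by_contra hz
      exact hcon ⟨Psx x y z hz, Psy x y z hz⟩
    unfold P2
    simp [this]
  have fm : Measurable (fun q : E × E => P2 P a q.1 q.2) := by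
    have h1 : Measurable (fun r : (E × E) × E => P a r.1.1 r.1.2 r.2) :=
      Pm.comp ((measurable_fst.comp measurable_fst).prodMk
        ((measurable_snd.comp measurable_fst).prodMk measurable_snd))
    exact (h1.stronglyMeasurable.integral_prod_right').measurable
  have fmy : ∀ x, Measurable (fun y => P2 P a x y) := fun x =>
    fm.comp (measurable_const.prodMk measurable_id)
  have fi : ∀ x, Integrable (fun y => P2 P a x y) := fun x =>
    (int_supp (fmy x) (fun y => by rw [abs_of_nonneg (f0 x y)]; exact fb x y)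
      (fun y h => (fsp x y h).2) hQ2m hQ2v (by positivity)).1
  have f1 : ∀ x, ∫ y, P2 P a x y = θ a x := fun x => hP.mar a x
  -- products
  have tt : ∀ x y, 0 ≤ θ a x * θ a y := fun x y => mul_nonneg (t0 x) (t0 y)
  -- K2
  have k2a : ∀ x y, |K2 θ P a x y| ≤ P2 P a x y + θ a x * θ a y := fun x y => by
    unfold K2
    rw [abs_le]
    constructor <;> linarith [f0 x y, tt x y]
  have k2m : Measurable (fun q : E × E => K2 θ P a q.1 q.2) := by
    unfold K2
    exact fm.sub (((hS.θm a).comp measurable_fst).mul ((hS.θm a).comp measurable_snd))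
  have k2B : ∀ x y, |K2 θ P a x y| ≤ (8 * C + C ^ 2) * (A * D) := fun x y => by
    refine (k2a x y).trans ?_
    have h1 : θ a x * θ a y ≤ (C * A) * (C * A) := mul_le_mul (tb x) (tb y) (t0 y) (by positivity)
    have h2 : (C * A) * (C * A) ≤ C ^ 2 * (A * D) := by
      have : A * A ≤ A * D := mul_le_mul_of_nonneg_left hAD hA0.le
      nlinarith [sq_nonneg C]
    nlinarith [fb x y]
  have k2i : ∀ x, Integrable (fun y => P2 P a x y + θ a x * θ a y) := fun x =>
    (fi x).add (ti.const_mul _)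
  have k2s : ∀ x, ∫ y, (P2 P a x y + θ a x * θ a y) = 2 * θ a x := fun x => by
    rw [integral_add (fi x) (ti.const_mul _), integral_const_mul, f1, t1]
    ring
  have k2l : ∀ x, ∫ y, |K2 θ P a x y| ≤ 2 * θ a x := fun x => by
    rw [← k2s x]
    exact integral_mono_of_nonneg (Eventually.of_forall fun y => abs_nonneg _) (k2i x)
      (Eventually.of_forall fun y => k2a x y)
  -- K3
  obtain ⟨G, hG⟩ : ∃ G : E → E → E → ℝ, G = fun x y z => P a x y z + θ a x * P2 P a y z +
      θ a y * P2 P a x z + θ a z * P2 P a x y + 2 * (θ a x * θ a y) * θ a z := ⟨_, rfl⟩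
  have k3a : ∀ x y z, |K3 θ P a x y z| ≤ G x y z := fun x y z => by
    have h1 := P0 x y z
    have h2 : 0 ≤ θ a x * P2 P a y z := mul_nonneg (t0 x) (f0 y z)
    have h3 : 0 ≤ θ a y * P2 P a x z := mul_nonneg (t0 y) (f0 x z)
    have h4 : 0 ≤ θ a z * P2 P a x y := mul_nonneg (t0 z) (f0 x y)
    have h5 : 0 ≤ θ a x * θ a y * θ a z := mul_nonneg (tt x y) (t0 z)
    unfold K3
    rw [hG, abs_le]
    constructor <;> nlinarith
  have k3m : Measurable (fun q : E × E × E => K3 θ P a q.1 q.2.1 q.2.2) := by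
    have hm := hS.θm a
    have m1 : Measurable (fun q : E × E × E => θ a q.1) := hm.comp measurable_fst
    have m2 : Measurable (fun q : E × E × E => θ a q.2.1) :=
      hm.comp (measurable_fst.comp measurable_snd)
    have m3 : Measurable (fun q : E × E × E => θ a q.2.2) :=
      hm.comp (measurable_snd.comp measurable_snd)
    have m12 : Measurable (fun q : E × E × E => P2 P a q.1 q.2.1) :=
      fm.comp (measurable_fst.prodMk (measurable_fst.comp measurable_snd))
    have m13 : Measurable (fun q : E × E × E => P2 P a q.1 q.2.2) :=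
      fm.comp (measurable_fst.prodMk (measurable_snd.comp measurable_snd))
    have m23 : Measurable (fun q : E × E × E => P2 P a q.2.1 q.2.2) :=
      fm.comp ((measurable_fst.comp measurable_snd).prodMk (measurable_snd.comp measurable_snd))
    unfold K3
    exact ((((Pm.sub (m1.mul m23)).sub (m2.mul m13)).sub (m3.mul m12)).add
      (((m1.mul m2).mul m3).const_mul 2))
  have k3B : ∀ x y z, |K3 θ P a x y z| ≤ (C + 24 * C ^ 2 + 2 * C ^ 3) * (A * D ^ 2) := fun x y z => by
    refine (k3a x y z).trans ?_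
    have hCA : 0 ≤ C * A := by positivity
    have hCAD : 0 ≤ 8 * C * (A * D) := by positivity
    have g1 : ∀ u v w, θ a u * P2 P a v w ≤ (C * A) * (8 * C * (A * D)) := fun u v w =>
      mul_le_mul (tb u) (fb v w) (f0 v w) hCA
    have g2 : θ a x * θ a y * θ a z ≤ (C * A) * (C * A) * (C * A) :=
      mul_le_mul (mul_le_mul (tb x) (tb y) (t0 y) hCA) (tb z) (t0 z) (by positivity)
    have hAA : A * A ≤ A * D := mul_le_mul_of_nonneg_left hAD hA0.le
    have h1 : (C * A) * (8 * C * (A * D)) ≤ 8 * C ^ 2 * (A * D ^ 2) := by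
      have : A * A * D ≤ A * D * D := mul_le_mul_of_nonneg_right hAA hD0.le
      calc (C * A) * (8 * C * (A * D)) = 8 * C ^ 2 * (A * A * D) := by ring
        _ ≤ 8 * C ^ 2 * (A * D * D) := mul_le_mul_of_nonneg_left this (by positivity)
        _ = 8 * C ^ 2 * (A * D ^ 2) := by ring
    have h2 : (C * A) * (C * A) * (C * A) ≤ C ^ 3 * (A * D ^ 2) := by
      have h3 : A * A * A ≤ A * D * D :=
        mul_le_mul hAA hAD hA0.le (by positivity)
      calc (C * A) * (C * A) * (C * A) = C ^ 3 * (A * A * A) := by ring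
        _ ≤ C ^ 3 * (A * D * D) := mul_le_mul_of_nonneg_left h3 (by positivity)
        _ = C ^ 3 * (A * D ^ 2) := by ring
    rw [hG]
    have := g1 x y z
    have := g1 y x z
    have := g1 z x y
    have := Pb x y z
    nlinarith
  have Gi : ∀ x y, Integrable (fun z => G x y z) := fun x y => by
    rw [hG]
    exact (((((Pi x y).1.add ((fi y).const_mul _)).add ((fi x).const_mul _)).add
      (ti.mul_const _)).add (ti.const_mul _))
  have Gs : ∀ x y, ∫ z, G x y z = 2 * P2 P a x y + 4 * (θ a x * θ a y) := fun x y => by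
    have hl := lin5 (Pi x y).1 (fi y) (fi x) ti ti 1 (θ a x) (θ a y) (P2 P a x y)
      (2 * (θ a x * θ a y))
    have he : ∫ z, G x y z = ∫ z, (1 * P a x y z + θ a x * P2 P a y z + θ a y * P2 P a x z +
        P2 P a x y * θ a z + 2 * (θ a x * θ a y) * θ a z) := by
      refine integral_congr_ae (Eventually.of_forall fun z => ?_)
      simp only [hG]
      ring
    have h1 : ∫ z, P a x y z = P2 P a x y := rfl
    rw [he, hl, f1, f1, t1, h1]
    ring
  have Hi : ∀ x, Integrable (fun y => 2 * P2 P a x y + 4 * (θ a x * θ a y)) := fun x =>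
    ((fi x).const_mul _).add ((ti.const_mul _).const_mul _)
  have Hs : ∀ x, ∫ y, (2 * P2 P a x y + 4 * (θ a x * θ a y)) = 6 * θ a x := fun x => by
    rw [integral_add ((fi x).const_mul _) ((ti.const_mul _).const_mul _), integral_const_mul,
      integral_const_mul, integral_const_mul, f1, t1]
    ring
  have k3l : ∀ x y, ∫ z, |K3 θ P a x y z| ≤ 2 * P2 P a x y + 4 * (θ a x * θ a y) := fun x y => by
    rw [← Gs x y]
    exact integral_mono_of_nonneg (Eventually.of_forall fun z => abs_nonneg _) (Gi x y)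
      (Eventually.of_forall fun z => k3a x y z)
  have hC1 : 0 ≤ C ^ 2 := sq_nonneg C
  have hC3 : 0 ≤ C ^ 3 := by positivity
  refine ⟨⟨k2m, _, fun q => k2B q.1 q.2⟩, ⟨k3m, _, fun q => k3B q.1 q.2.1 q.2.2⟩, ?_, ⟨?_, ?_⟩,
    ?_, ?_, ?_, ?_, ?_, ?_, ?_, ?_, ?_⟩
  · intro x y
    unfold K2
    rw [fsy x y]
    ring
  · intro x y z
    unfold K3
    rw [s1 x y z, fsy x y]
    ring
  · intro x y z
    unfold K3
    rw [s2 x y z, fsy y z]
    ring
  · intro x y h
    by_contra hcon
    apply h
    have h1 : P2 P a x y = 0 := by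
      by_contra h2
      exact hcon (fsp x y h2)
    have h2 : θ a x * θ a y = 0 := by
      by_contra h3
      exact hcon ⟨hS.θsp a x (left_ne_zero_of_mul h3), hS.θsp a y (right_ne_zero_of_mul h3)⟩
    unfold K2
    rw [h1, h2, sub_zero]
  · intro x y z h
    by_contra hcon
    apply h
    have h1 : P a x y z = 0 := by
      by_contra h2
      exact hcon ⟨Psx x y z h2, Psy x y z h2, Psz x y z h2⟩
    have h2 : θ a x * P2 P a y z = 0 := by
      by_contra h3
      have := fsp y z (right_ne_zero_of_mul h3)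
      exact hcon ⟨hS.θsp a x (left_ne_zero_of_mul h3), this.1, this.2⟩
    have h3 : θ a y * P2 P a x z = 0 := by
      by_contra h3
      have := fsp x z (right_ne_zero_of_mul h3)
      exact hcon ⟨this.1, hS.θsp a y (left_ne_zero_of_mul h3), this.2⟩
    have h4 : θ a z * P2 P a x y = 0 := by
      by_contra h3
      have := fsp x y (right_ne_zero_of_mul h3)
      exact hcon ⟨this.1, this.2, hS.θsp a z (left_ne_zero_of_mul h3)⟩
    have h5 : θ a x * θ a y * θ a z = 0 := by
      by_contra h3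
      have h4 := left_ne_zero_of_mul h3
      exact hcon ⟨hS.θsp a x (left_ne_zero_of_mul h4), hS.θsp a y (right_ne_zero_of_mul h4),
        hS.θsp a z (right_ne_zero_of_mul h3)⟩
    unfold K3
    rw [h1, h2, h3, h4, h5]
    ring
  · intro x
    unfold K2
    rw [integral_sub (fi x) (ti.const_mul _), integral_const_mul, f1, t1]
    ring
  · intro x y
    unfold K3
    have hl := lin5 (Pi x y).1 (fi y) (fi x) ti ti 1 (-θ a x) (-θ a y) (-P2 P a x y)
      (2 * (θ a x * θ a y))
    have he : ∫ z, (P a x y z - θ a x * P2 P a y z - θ a y * P2 P a x z - θ a z * P2 P a x y +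
        2 * (θ a x * θ a y * θ a z)) = ∫ z, (1 * P a x y z + -θ a x * P2 P a y z +
        -θ a y * P2 P a x z + -P2 P a x y * θ a z + 2 * (θ a x * θ a y) * θ a z) := by
      refine integral_congr_ae (Eventually.of_forall fun z => ?_)
      simp only
      ring
    have h1 : ∫ z, P a x y z = P2 P a x y := rfl
    rw [he, hl, f1, f1, t1, h1]
    ring
  · intro x
    refine (k2l x).trans ?_
    have := tb x
    nlinarith [mul_nonneg hC hA0.le, mul_nonneg hC1 hA0.le, mul_nonneg hC3 hA0.le]
  · intro x y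
    refine (k3l x y).trans ?_
    have h1 := fb x y
    have h2 : θ a x * θ a y ≤ C ^ 2 * (A * D) := by
      have h1 : θ a x * θ a y ≤ (C * A) * (C * A) := mul_le_mul (tb x) (tb y) (t0 y) (by positivity)
      have h2 : (C * A) * (C * A) ≤ C ^ 2 * (A * D) := by
        have : A * A ≤ A * D := mul_le_mul_of_nonneg_left hAD hA0.le
        nlinarith
      linarith
    have hw : 0 < A * D := by positivity
    nlinarith [mul_nonneg hC hw.le, mul_nonneg hC1 hw.le, mul_nonneg hC3 hw.le]
  · intro x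
    have h1 : ∫ y, ∫ z, |K3 θ P a x y z| ≤ 6 * θ a x := by
      rw [← Hs x]
      exact integral_mono_of_nonneg
        (Eventually.of_forall fun y => integral_nonneg fun z => abs_nonneg _) (Hi x)
        (Eventually.of_forall fun y => k3l x y)
    refine h1.trans ?_
    have := tb x
    nlinarith [mul_nonneg hC hA0.le, mul_nonneg hC1 hA0.le, mul_nonneg hC3 hA0.le]
  · obtain ⟨S, hSd⟩ : ∃ S : ℝ, S = (8 * C + C ^ 2) * (A * D) := ⟨_, rfl⟩
    have hw : 0 < A * D := by positivity
    have hS0 : 0 ≤ S := by rw [hSd]; positivity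
    have h1 : ∀ x, ∫ y, K2 θ P a x y ^ 2 ≤ S * (2 * θ a x) := fun x => by
      rw [← k2s x, ← integral_const_mul]
      refine integral_mono_of_nonneg (Eventually.of_forall fun y => sq_nonneg _)
        ((k2i x).const_mul _) (Eventually.of_forall fun y => ?_)
      change K2 θ P a x y ^ 2 ≤ S * (P2 P a x y + θ a x * θ a y)
      rw [← sq_abs, sq]
      exact mul_le_mul (by rw [hSd]; exact k2B x y) (k2a x y) (abs_nonneg _) hS0
    have h2 : ∫ x, ∫ y, K2 θ P a x y ^ 2 ≤ ∫ x, S * (2 * θ a x) :=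
      integral_mono_of_nonneg (Eventually.of_forall fun x => integral_nonneg fun y => sq_nonneg _)
        ((ti.const_mul _).const_mul _) (Eventually.of_forall h1)
    rw [integral_const_mul, integral_const_mul, t1] at h2
    refine h2.trans ?_
    rw [hSd]
    nlinarith [mul_nonneg hC hw.le, mul_nonneg hC1 hw.le, mul_nonneg hC3 hw.le]
  · obtain ⟨S, hSd⟩ : ∃ S : ℝ, S = (C + 24 * C ^ 2 + 2 * C ^ 3) * (A * D ^ 2) := ⟨_, rfl⟩
    have hw : 0 < A * D ^ 2 := by positivity
    have hS0 : 0 ≤ S := by rw [hSd]; positivity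
    have h1 : ∀ x y, ∫ z, K3 θ P a x y z ^ 2 ≤ S * (2 * P2 P a x y + 4 * (θ a x * θ a y)) :=
      fun x y => by
      rw [← Gs x y, ← integral_const_mul]
      refine integral_mono_of_nonneg (Eventually.of_forall fun z => sq_nonneg _)
        ((Gi x y).const_mul _) (Eventually.of_forall fun z => ?_)
      change K3 θ P a x y z ^ 2 ≤ S * G x y z
      rw [← sq_abs, sq]
      exact mul_le_mul (by rw [hSd]; exact k3B x y z) (k3a x y z) (abs_nonneg _) hS0
    have h2 : ∀ x, ∫ y, ∫ z, K3 θ P a x y z ^ 2 ≤ S * (6 * θ a x) := fun x => by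
      rw [← Hs x, ← integral_const_mul]
      exact integral_mono_of_nonneg
        (Eventually.of_forall fun y => integral_nonneg fun z => sq_nonneg _)
        ((Hi x).const_mul _) (Eventually.of_forall fun y => h1 x y)
    have h3 : ∫ x, ∫ y, ∫ z, K3 θ P a x y z ^ 2 ≤ ∫ x, S * (6 * θ a x) :=
      integral_mono_of_nonneg (Eventually.of_forall fun x => integral_nonneg fun y =>
        integral_nonneg fun z => sq_nonneg _)
        ((ti.const_mul _).const_mul _) (Eventually.of_forall h2)
    rw [integral_const_mul, integral_const_mul, t1] at h3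
    refine h3.trans ?_
    rw [hSd]
    nlinarith [mul_nonneg hC hw.le, mul_nonneg hC1 hw.le, mul_nonneg hC3 hw.le]

end Pool.Agent.TBS
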