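import Pool.Agent.TBS.StmtsB

set_option autoImplicit false

open MeasureTheory Filter Topology
open scoped ContDiff

namespace Pool.Agent.TBS

open Pool.Agent.TBG Pool.Agent.TBL Pool.Agent.TBF

namespace KBM_

section gen

variable {W : Type} [NormedAddCommGroup W] [NormedSpace ℝ W]

lemma dv_smooth {τ : W → ℝ} (hτ : ContDiff ℝ ∞ τ) (v : W) : ContDiff ℝ ∞ (dv v τ) := by
  unfold dv
  exact (hτ.fderiv_right (m := ∞) (by simp)).clm_apply contDiff_const

lemma dv_supp {τ : W → ℝ} {R : ℝ} (h : ∀ z, R < ‖z‖ → τ z = 0) (v z : W)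
    (hz : R < ‖z‖) : dv v τ z = 0 := by
  have h1 : τ =ᶠ[𝓝 z] fun _ => 0 := by
    filter_upwards [(isOpen_lt continuous_const continuous_norm).mem_nhds hz] with w hw
    exact h w hw
  unfold dv
  rw [h1.fderiv_eq]
  simp

omit [NormedSpace ℝ W] in
lemma bm_cs [ProperSpace W] [MeasurableSpace W] [OpensMeasurableSpace W] {F : W → ℝ} {R : ℝ}
    (hF : Continuous F) (hF0 : ∀ z, R < ‖z‖ → F z = 0) : BM F := by
  refine ⟨hF.measurable, ?_⟩
  have hc : HasCompactSupport F := HasCompactSupport.intro (isCompact_closedBall (0 : W) R)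
    fun z hz => hF0 z (by simpa using hz)
  obtain ⟨C', hC'⟩ := hF.bounded_above_of_compact_support hc
  exact ⟨C', fun X => hC' X⟩

end gen

lemma cont_Lap {τ : E × E → ℝ} (hτ : ContDiff ℝ ∞ τ) : Continuous (Lap τ) := by
  unfold Lap
  exact continuous_finsetSum _ fun m _ => continuous_finsetSum _ fun c _ =>
    (dv_smooth (dv_smooth hτ _) _).continuous

lemma cont_gsq {τ : E × E → ℝ} (hτ : ContDiff ℝ ∞ τ) : Continuous (gsq τ) := by
  unfold gsq
  exact continuous_finsetSum _ fun m _ => continuous_finsetSum _ fun c _ =>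
    (dv_smooth hτ _).continuous.pow 2

lemma bm_comp {α β : Type} [MeasurableSpace α] [MeasurableSpace β] {F : α → ℝ} {f : β → α}
    (hF : BM F) (hf : Measurable f) : BM (fun X => F (f X)) :=
  ⟨hF.1.comp hf, hF.2.imp fun _ h X => h (f X)⟩

lemma cont_cf (i : Fin 4) : Continuous (fun p : W4 => cf p i) := by
  fin_cases i
  · exact continuous_const
  · exact continuous_fst.neg
  · exact (continuous_fst.comp continuous_snd).neg
  · exact (continuous_snd.comp continuous_snd).neg

end KBM_

open KBM_ in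
theorem kbm_proof (hLTR : Pool.Agent.TBG.Stmt_LTR) : Stmt_KBM := by
  have hV : ∀ φ : E × E → ℝ, Scat φ → BM (fun z : E × E => VV φ z.1 z.2) ∧ BM (ww φ) ∧ BM φ ∧
      (∀ z, ww φ z = VV φ z.1 z.2 * (1 - φ z)) ∧ (∀ z, 0 ≤ ww φ z) ∧ (∀ x y, 0 ≤ VV φ x y) ∧
      (∀ x y, VV φ x y = VV φ y x) ∧ (∀ x y, VV φ x y = VV φ (-x) (y - x)) ∧
      Continuous (ww φ) := by
    intro φ hφ
    have h1 : ∀ z, (1 : ℝ) / 2 ≤ 1 - φ z := fun z => by have := hφ.le_half z; linarith
    have h1' : ∀ z, 0 < 1 - φ z := fun z => by have := h1 z; linarith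
    have h0 : ∀ z, 0 ≤ φ z := by
      intro z
      obtain ⟨c, hc, h⟩ := hφ.low
      have h2 := lt_of_lt_of_le hc (h z)
      exact ((pos_iff_pos_of_mul_pos h2).1 (by positivity)).le
    have hw0 : ∀ z, 0 ≤ ww φ z := fun z => by
      have := hφ.sup z; unfold ww; linarith
    have hwc : Continuous (ww φ) := by unfold ww; exact (cont_Lap hφ.smooth).neg
    obtain ⟨R, hR⟩ := hφ.supp
    have hws : ∀ z, R < ‖z‖ → ww φ z = 0 := fun z hz => by unfold ww; rw [hR z hz, neg_zero]
    refine ⟨?_, bm_cs hwc hws, ?_, ?_, hw0, ?_, ?_, ?_, hwc⟩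
    · refine bm_cs (R := R) ?_ ?_
      · unfold VV
        exact hwc.div (continuous_const.sub hφ.smooth.continuous) fun z => (h1' z).ne'
      · intro z hz
        unfold VV
        rw [hws z hz, zero_div]
    · refine ⟨hφ.smooth.continuous.measurable, 1 / 2, fun z => ?_⟩
      rw [abs_of_nonneg (h0 z)]; exact hφ.le_half z
    · intro z
      unfold VV
      rw [div_mul_cancel₀ _ (h1' z).ne']
    · intro x y
      unfold VV
      exact div_nonneg (hw0 _) (h1' _).le
    · intro x y
      unfold VV ww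
      have h2 := ((hLTR φ hφ.smooth).2.2.1 (x, y)).1
      have h3 : (fun z : E × E => φ (z.2, z.1)) = φ := by
        funext z; exact (hφ.sy1 z.1 z.2).symm
      rw [h3] at h2
      rw [h2, hφ.sy1 x y]
    · intro x y
      unfold VV ww
      have h2 := ((hLTR φ hφ.smooth).2.2.2 (x, y)).1
      have h3 : (fun z : E × E => φ (-z.1, z.2 - z.1)) = φ := by
        funext z; exact (hφ.sy2 z.1 z.2).symm
      rw [h3] at h2
      rw [h2, hφ.sy2 x y]
  refine ⟨?_, ?_, ?_, ?_⟩
  · intro C R φ τ g hφ hT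
    obtain ⟨v1, v2, v3, v4, v5, v6, v7, v8, hwc⟩ := hV φ hφ
    have hg : g = fun z => Lap τ z + ww φ z := by
      funext z; have := hT.eqn z; linarith
    have hgc : Continuous g := by
      rw [hg]; exact (cont_Lap hT.smooth).add hwc
    refine ⟨bm_cs hT.smooth.continuous hT.sp, bm_cs hgc hT.gsp, v3, v2,
      bm_cs (cont_Lap hT.smooth) (R := R) ?_, bm_cs (cont_gsq hT.smooth) (R := R) ?_, v1, ?_,
      v4, v5, v6, v7, v8⟩
    · intro z hz
      unfold Lap
      exact Finset.sum_eq_zero fun m _ => Finset.sum_eq_zero fun c _ =>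
        dv_supp (fun z hz => dv_supp hT.sp _ z hz) _ z hz
    · intro z hz
      unfold gsq
      exact Finset.sum_eq_zero fun m _ => Finset.sum_eq_zero fun c _ => by
        rw [dv_supp hT.sp _ z hz]; norm_num
    · intro m c
      exact bm_cs (dv_smooth hT.smooth _).continuous (fun z hz => dv_supp hT.sp _ z hz)
  · intro C l φ y Y g hφ hy hD
    obtain ⟨v1, -⟩ := hV φ hφ
    have hyB : BM y := by
      refine ⟨hy.1.continuous.measurable, ?_⟩
      obtain ⟨C', hC'⟩ := hy.1.continuous.bounded_above_of_compact_support hy.2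
      exact ⟨C', fun X => hC' X⟩
    refine ⟨bm_cs hD.smg.continuous hD.spg, hyB, ?_, fun m c =>
      bm_cs (hD.smY m c).continuous (hD.spY m c), fun m => ?_, fun m => ?_⟩
    · refine bm_cs (R := l) ?_ ?_
      · unfold dvg
        exact continuous_finsetSum _ fun m _ => continuous_finsetSum _ fun c _ =>
          (dv_smooth (hD.smY m c) _).continuous
      · intro p hp
        unfold dvg
        exact Finset.sum_eq_zero fun m _ => Finset.sum_eq_zero fun c _ =>
          dv_supp (hD.spY m c) _ p hp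
    · unfold Vm
      refine bm_comp (F := fun z : E × E => VV φ z.1 z.2) (f := pm m) v1 ?_
      unfold pm
      exact (((cont_cf _).sub (cont_cf _)).prodMk ((cont_cf _).sub (cont_cf _))).measurable
    · unfold ym
      refine bm_comp hyB ?_
      unfold rl
      refine Continuous.measurable ?_
      exact ((cont_cf _).sub (cont_cf _)).prodMk
        (((cont_cf _).sub (cont_cf _)).prodMk ((cont_cf _).sub (cont_cf _)))
  · intro ι F e hF
    have hm : ∀ s : Fin 3, Measurable (fun X : ι → E => X (e s)) := fun s => measurable_pi_apply _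
    exact bm_comp (f := fun X : ι → E => rt (X ∘ e)) hF
      (((hm 0).sub (hm 1)).prodMk ((hm 0).sub (hm 2)))
  · intro ι F e hF
    have hm : ∀ s : Fin 4, Measurable (fun X : ι → E => X (e s)) := fun s => measurable_pi_apply _
    exact bm_comp (f := fun X : ι → E => rl (X ∘ e)) hF
      (((hm 0).sub (hm 1)).prodMk (((hm 0).sub (hm 2)).prodMk ((hm 0).sub (hm 3))))

end Pool.Agent.TBS
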