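import Pool.Agent.TBS.StmtsB

set_option autoImplicit false

open MeasureTheory Filter Topology
open scoped ContDiff

namespace Pool.Agent.TBS

open Pool.Agent.TBG Pool.Agent.TBL Pool.Agent.TBF

namespace L3I_

variable {ι : Type} [Fintype ι] [DecidableEq ι]

omit [Fintype ι] in
lemma meas_upd (i : ι) (v : E) : Measurable (fun X : ι → E => Function.update X i (X i + v)) := by
  refine measurable_pi_lambda _ fun j => ?_
  by_cases h : j = i
  · subst h
    simp only [Function.update_self]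
    exact (measurable_pi_apply _).add_const _
  · simp only [Function.update_of_ne h]
    exact measurable_pi_apply _

omit [Fintype ι] in
lemma meas_pd (F : (ι → E) → ℝ) (hF : Measurable F) (i : ι) (c : Fin 3)
    (hd : ∀ X, ContDiff ℝ 1 (fun x => F (Function.update X i x))) :
    Measurable (fun X => pd c (fun x => F (Function.update X i x)) (X i)) := by
  refine measurable_of_tendsto_metrizable (f := fun (n : ℕ) X =>
    ((n : ℝ) + 1) * (F (Function.update X i (X i + ((n : ℝ) + 1)⁻¹ • ev c)) - F X)) ?_ ?_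
  · intro n
    exact ((hF.comp (meas_upd i _)).sub hF).const_mul _
  · rw [tendsto_pi_nhds]
    intro X
    have h1 : HasFDerivAt (fun x => F (Function.update X i x))
        (fderiv ℝ (fun x => F (Function.update X i x)) (X i)) (X i) :=
      ((hd X).differentiable (by simp) (X i)).hasFDerivAt
    have h2 := h1.lim (ev c) (c := fun n : ℕ => ((n : ℝ) + 1)) (l := atTop) (by
      have h3 : Tendsto (fun n : ℕ => ((n : ℝ) + 1)) atTop atTop :=
        tendsto_atTop_add_const_right _ _ tendsto_natCast_atTop_atTop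
      refine h3.congr fun n => ?_
      rw [Real.norm_of_nonneg (by positivity)])
    simp only [smul_eq_mul, Function.update_eq_self] at h2
    exact h2

lemma pd_mul (c : Fin 3) (f g : E → ℝ) (x : E) (hf : DifferentiableAt ℝ f x)
    (hg : DifferentiableAt ℝ g x) :
    pd c (fun y => f y * g y) x = pd c f x * g x + f x * pd c g x := by
  unfold pd
  rw [fderiv_fun_mul hf hg]
  simp only [add_apply, smul_apply, smul_eq_mul]
  ring

lemma dv_smooth {τ : E × E → ℝ} (hτ : ContDiff ℝ ∞ τ) (v : E × E) : ContDiff ℝ ∞ (dv v τ) := by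
  unfold dv
  exact (hτ.fderiv_right (m := ∞) (by simp)).clm_apply contDiff_const

lemma dv_supp {τ : E × E → ℝ} {R : ℝ} (h : ∀ z, R < ‖z‖ → τ z = 0) (v z : E × E)
    (hz : R < ‖z‖) : dv v τ z = 0 := by
  have h1 : τ =ᶠ[𝓝 z] fun _ => 0 := by
    filter_upwards [(isOpen_lt continuous_const continuous_norm).mem_nhds hz] with w hw
    exact h w hw
  unfold dv
  rw [h1.fderiv_eq]
  simp

end L3I_

open L3I_ in
theorem l3i_proof (hBMC : Pool.Agent.TBL.Stmt_BMC) (hMSY : Stmt_MSY) (hAVC : Stmt_AVC)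
    (hHSF : Stmt_HSF) (hTUP : Stmt_TUP) (hTRK : Stmt_TRK) (hKBM : Stmt_KBM) (hIBN : Stmt_IBN) :
    Stmt_L3I := by
  intro C ι _ _ p β θ φ τ g u hSy hu hφ hT
  obtain ⟨C₁, hC₁, hHS⟩ := hHSF C
  obtain ⟨bA, bC, bS, -, -⟩ := hBMC
  have bmul : ∀ F G : (ι → E) → ℝ, BM F → BM G → BM (fun X => F X * G X) := fun F G hF hG =>
    (bA _ F G hF hG).2.2.1
  have badd : ∀ F G : (ι → E) → ℝ, BM F → BM G → BM (fun X => F X + G X) := fun F G hF hG =>
    (bA _ F G hF hG).1
  have bcm : ∀ (a : ℝ) (F : (ι → E) → ℝ), BM F → BM (fun X => a * F X) := fun a F hF =>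
    (bA _ F F hF hF).2.2.2.2.2.1 a
  have hl : 1 ≤ p.l := (hMSY C p β θ hSy).1
  have : IsFiniteMeasure (mO p.L) := (hMSY C p β θ hSy).2.1
  have hfin : IsFiniteMeasure (PiS (mO p.L) (mO p.L) (∅ : Finset ι)) := by
    have : PiS (mO p.L) (mO p.L) (∅ : Finset ι) = Measure.pi (fun _ : ι => mO p.L) := by
      simp [PiS]
    rw [this]; infer_instance
  have bint : ∀ F : (ι → E) → ℝ, BM F → Integrable F (PiS (mO p.L) (mO p.L) (∅ : Finset ι)) :=
    fun F hF => (bA _ F F hF hF).2.2.2.2.2.2 _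
  obtain ⟨huB, hdu, -, -, -, -, -⟩ := hAVC ι (Measure.dirac 0) ∅ u hu
  obtain ⟨-, htp, -, -, -, hcard, hsum⟩ := hTUP ι
  -- abbreviations
  have hne : ∀ e : Fin 3 → ι, (im e).Nonempty := fun e => ⟨e 0, by simp [im]⟩
  have hmem : ∀ (e : Fin 3 → ι) s, e s ∈ im e := fun e s => by simp [im]
  have hHe := fun (e : Fin 3 → ι) => hHS ι p β θ u (im e) hSy huB (hne e)
  obtain ⟨Hd, hHd⟩ : ∃ Hd : Finset ι → Fin 3 → (ι → E) → ℝ, Hd = fun S c X =>
      (S.card : ℝ)⁻¹ * ∑ a ∈ p.Gr, pd c (β a) (cen S X) * Am p θ u a S X := ⟨_, rfl⟩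
  have hpdh : ∀ (e : Fin 3 → ι) s c X,
      pd c (fun x => hS p β θ u (im e) (Function.update X (e s) x)) (X (e s)) =
        Hd (im e) c X := by
    intro e s c X
    rw [hHd]
    exact (((hHe e).2.2.2.2 (e s) (hmem e s) X).2 c).1
  have hbmt : ∀ v : E × E, ContDiff ℝ ∞ (dv v τ) := fun v => dv_smooth hT.smooth v
  have hcs : ∀ (F : E × E → ℝ), Continuous F → (∀ z, p.R < ‖z‖ → F z = 0) → BM F := by
    intro F hF hF0
    refine ⟨hF.measurable, ?_⟩
    have hc : HasCompactSupport F := HasCompactSupport.intro (isCompact_closedBall (0 : E × E) p.R)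
      fun z hz => hF0 z (by simpa using hz)
    obtain ⟨C', hC'⟩ := hF.bounded_above_of_compact_support hc
    exact ⟨C', fun X => hC' X⟩
  have hD1 : ∀ c, BM (dv (dr 0 c) τ) := fun c => hcs _ (hbmt _).continuous
    (fun z hz => dv_supp hT.sp _ z hz)
  have hD2 : ∀ v w : E × E, BM (dv v (dv w τ)) := fun v w => hcs _
    (dv_smooth (hbmt _) _).continuous
    (fun z hz => dv_supp (fun z hz => dv_supp hT.sp _ z hz) _ z hz)
  have hX1 : ∀ (F : E × E → ℝ) (e : Fin 3 → ι), BM F → BM (fun X : ι → E => F (rt (X ∘ e))) :=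
    fun F e hF => hKBM.2.2.1 ι F e hF
  -- the field is bounded and measurable
  have hterm : ∀ e c, BM (fun X : ι → E => hS p β θ u (im e) X * dv (dr 0 c) τ (rt (X ∘ e))) :=
    fun e c => bmul _ _ (hHe e).1 (hX1 _ e (hD1 c))
  refine ⟨?_, ?_⟩
  · intro i c
    unfold aF
    exact bcm _ _ (bS _ _ _ _ fun e _ => hterm e c)
  -- derivative of the term
  have hHdBM : ∀ (e : Fin 3 → ι) c, BM (fun X => Hd (im e) c X) := by
    intro e c
    have hm : Measurable (fun X => pd c (fun x => hS p β θ u (im e) (Function.update X (e 0) x))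
        (X (e 0))) := meas_pd _ (hHe e).1.1 (e 0) c fun X =>
      (((hHe e).2.2.2.2 (e 0) (hmem e 0) X).1).of_le (by simp)
    obtain ⟨K, hK⟩ := (hHe e).2.1.2
    have hf : (fun X => pd c (fun x => hS p β θ u (im e) (Function.update X (e 0) x))
        (X (e 0))) = fun X => Hd (im e) c X := by
      funext X; exact hpdh e 0 c X
    rw [← hf]
    refine ⟨hm, Real.sqrt (C₁ / p.l ^ 2 * K), fun X => ?_⟩
    have h1 := (((hHe e).2.2.2.2 (e 0) (hmem e 0) X).2 c).2
    rw [← Real.sqrt_sq_eq_abs]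
    refine Real.sqrt_le_sqrt (h1.trans ?_)
    refine mul_le_mul_of_nonneg_left ((le_abs_self _).trans (hK X)) (by positivity)
  obtain ⟨Fe, hFe⟩ : ∃ Fe : (Fin 3 → ι) → Fin 3 → (ι → E) → ℝ, Fe = fun e c X =>
      hS p β θ u (im e) X * dv (dr 0 c) τ (rt (X ∘ e)) := ⟨_, rfl⟩
  have hslice : ∀ e ∈ Ij 3 ι, ∀ c X, ContDiff ℝ ∞ (fun x => Fe e c (Function.update X (e 0) x)) := by
    intro e he c X
    rw [hFe]
    exact ((hHe e).2.2.2.2 (e 0) (hmem e 0) X).1.mul (hTRK.1 ι _ e X (hbmt (dr 0 c)) he).1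
  have hpdF : ∀ e ∈ Ij 3 ι, ∀ c X, pd c (fun x => Fe e c (Function.update X (e 0) x)) (X (e 0)) =
      Hd (im e) c X * dv (dr 0 c) τ (rt (X ∘ e)) +
        hS p β θ u (im e) X * dv (dr 0 c) (dv (dr 0 c) τ) (rt (X ∘ e)) := by
    intro e he c X
    rw [hFe]
    have h1 := pd_mul c (fun x => hS p β θ u (im e) (Function.update X (e 0) x))
      (fun x => dv (dr 0 c) τ (rt (Function.update X (e 0) x ∘ e))) (X (e 0))
      ((((hHe e).2.2.2.2 (e 0) (hmem e 0) X).1.differentiable (by simp)) _)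
      (((hTRK.1 ι _ e X (hbmt (dr 0 c)) he).1.differentiable (by simp)) _)
    rw [h1, hpdh e 0 c X, (hTRK.1 ι _ e X (hbmt (dr 0 c)) he).2 c (X (e 0))]
    simp only [Function.update_eq_self]
  have hpdBM : ∀ (e : Fin 3 → ι) c, BM (fun X => Hd (im e) c X * dv (dr 0 c) τ (rt (X ∘ e)) +
        hS p β θ u (im e) X * dv (dr 0 c) (dv (dr 0 c) τ) (rt (X ∘ e))) := fun e c =>
    badd _ _ (bmul _ _ (hHdBM e c) (hX1 _ e (hD1 c))) (bmul _ _ (hHe e).1 (hX1 _ e (hD2 _ _)))
  -- integration by parts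
  have hib : ∀ e ∈ Ij 3 ι, ∀ c, IO p (fun X => di (e 0) c u X * Fe e c X) =
      - IO p (fun X => u X * (Hd (im e) c X * dv (dr 0 c) τ (rt (X ∘ e)) +
        hS p β θ u (im e) X * dv (dr 0 c) (dv (dr 0 c) τ) (rt (X ∘ e)))) := by
    intro e he c
    have h1 := hIBN C ι p β θ u (Fe e c) (e 0) c hSy hu (by rw [hFe]; exact hterm e c)
      (fun X => (hslice e he c X).of_le (by simp))
      (by
        have : (fun X => pd c (fun x => Fe e c (Function.update X (e 0) x)) (X (e 0))) = fun X =>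
            Hd (im e) c X * dv (dr 0 c) τ (rt (X ∘ e)) +
              hS p β θ u (im e) X * dv (dr 0 c) (dv (dr 0 c) τ) (rt (X ∘ e)) := by
          funext X; exact hpdF e he c X
        rw [this]; exact hpdBM e c)
      (by
        intro X hX
        rw [hFe] at hX
        simp only at hX
        have hX1 := left_ne_zero_of_mul hX
        have hX2 := right_ne_zero_of_mul hX
        obtain ⟨a, ha, hcen⟩ := (hHe e).2.2.2.1 X hX1
        refine ⟨a, ha, fun k => ?_⟩
        have hR : ‖rt (X ∘ e)‖ ≤ p.R := by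
          by_contra hcon
          exact hX2 (dv_supp hT.sp _ _ (not_le.1 hcon))
        have h01 : |X (e 0) k - X (e 1) k| ≤ p.R := by
          have h2 : ‖X (e 0) - X (e 1)‖ ≤ p.R := (norm_fst_le (rt (X ∘ e))).trans hR
          have h3 := PiLp.norm_apply_le (X (e 0) - X (e 1)) k
          simp only [PiLp.sub_apply, Real.norm_eq_abs] at h3
          linarith
        have h02 : |X (e 0) k - X (e 2) k| ≤ p.R := by
          have h2 : ‖X (e 0) - X (e 2)‖ ≤ p.R := (norm_snd_le (rt (X ∘ e))).trans hR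
          have h3 := PiLp.norm_apply_le (X (e 0) - X (e 2)) k
          simp only [PiLp.sub_apply, Real.norm_eq_abs] at h3
          linarith
        have hinj : Function.Injective e := by simpa [Ij] using he
        have hce : cen (im e) X = (3 : ℝ)⁻¹ • (X (e 0) + X (e 1) + X (e 2)) := by
          unfold cen
          rw [hcard 3 e he]
          congr 1
          unfold im
          rw [Finset.sum_image (fun a _ b _ h => hinj h), Fin.sum_univ_three]
        have hck : |(3 : ℝ)⁻¹ * (X (e 0) k + X (e 1) k + X (e 2) k) - a k| ≤ p.l := by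
          have h4 := hcen k
          rw [hce] at h4
          simpa [mul_add] using h4
        have hRl := hSy.hl
        rw [abs_le] at h01 h02 hck ⊢
        constructor <;> linarith [h01.1, h01.2, h02.1, h02.2, hck.1, hck.2])
    have h2 : (fun X => u X * pd c (fun x => Fe e c (Function.update X (e 0) x)) (X (e 0))) =
        fun X => u X * (Hd (im e) c X * dv (dr 0 c) τ (rt (X ∘ e)) +
        hS p β θ u (im e) X * dv (dr 0 c) (dv (dr 0 c) τ) (rt (X ∘ e))) := by
      funext X; rw [hpdF e he c X]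
    rw [h2] at h1
    exact h1
  -- the left side
  have hL : (fun X => ∑ i, ∑ c, di i c u X * aF p β θ τ u i c X) = fun X =>
      1 / 2 * ∑ c, ∑ e ∈ Ij 3 ι, di (e 0) c u X * Fe e c X := by
    funext X
    rw [Finset.sum_comm, Finset.mul_sum]
    refine Finset.sum_congr rfl fun c _ => ?_
    have h1 := hsum 2 (fun e => di (e 0) c u X * Fe e c X)
    rw [← h1, Finset.mul_sum]
    refine Finset.sum_congr rfl fun i _ => ?_
    unfold aF
    rw [mul_left_comm]
    congr 1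
    rw [Finset.mul_sum]
    refine Finset.sum_congr (by congr 1) fun e he => ?_
    rw [(Finset.mem_filter.1 he).2, hFe]
  have hLBM : ∀ (e : Fin 3 → ι) c, BM (fun X => di (e 0) c u X * Fe e c X) := fun e c =>
    bmul _ _ (hdu _ _) (by rw [hFe]; exact hterm e c)
  have hRBM : ∀ (e : Fin 3 → ι) c, BM (fun X => u X * (Hd (im e) c X * dv (dr 0 c) τ (rt (X ∘ e)) +
        hS p β θ u (im e) X * dv (dr 0 c) (dv (dr 0 c) τ) (rt (X ∘ e)))) := fun e c =>
    bmul _ _ huB (hpdBM e c)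
  rw [hL]
  have hL2 : IO p (fun X => 1 / 2 * ∑ c, ∑ e ∈ Ij 3 ι, di (e 0) c u X * Fe e c X) =
      1 / 2 * ∑ c, ∑ e ∈ Ij 3 ι, IO p (fun X => di (e 0) c u X * Fe e c X) := by
    unfold IO
    rw [integral_const_mul]
    congr 1
    rw [integral_finsetSum _ fun c _ => integrable_finsetSum _ fun e _ => bint _ (hLBM e c)]
    refine Finset.sum_congr rfl fun c _ => ?_
    rw [integral_finsetSum _ fun e _ => bint _ (hLBM e c)]
  have hR2 : IO p (fun X => ∑ c, ∑ e ∈ Ij 3 ι, u X * (Hd (im e) c X * dv (dr 0 c) τ (rt (X ∘ e)) +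
        hS p β θ u (im e) X * dv (dr 0 c) (dv (dr 0 c) τ) (rt (X ∘ e)))) =
      ∑ c, ∑ e ∈ Ij 3 ι, IO p (fun X => u X * (Hd (im e) c X * dv (dr 0 c) τ (rt (X ∘ e)) +
        hS p β θ u (im e) X * dv (dr 0 c) (dv (dr 0 c) τ) (rt (X ∘ e)))) := by
    unfold IO
    rw [integral_finsetSum _ fun c _ => integrable_finsetSum _ fun e _ => bint _ (hRBM e c)]
    refine Finset.sum_congr rfl fun c _ => ?_
    rw [integral_finsetSum _ fun e _ => bint _ (hRBM e c)]
  have hstep : -2 * (1 / 2 * ∑ c, ∑ e ∈ Ij 3 ι, IO p (fun X => di (e 0) c u X * Fe e c X)) =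
      ∑ c, ∑ e ∈ Ij 3 ι, IO p (fun X => u X * (Hd (im e) c X * dv (dr 0 c) τ (rt (X ∘ e)) +
        hS p β θ u (im e) X * dv (dr 0 c) (dv (dr 0 c) τ) (rt (X ∘ e)))) := by
    rw [← mul_assoc, show (-2 : ℝ) * (1 / 2) = -1 by norm_num, neg_one_mul, ← Finset.sum_neg_distrib]
    refine Finset.sum_congr rfl fun c _ => ?_
    rw [← Finset.sum_neg_distrib]
    refine Finset.sum_congr rfl fun e he => ?_
    rw [hib e he c, neg_neg]
  rw [hL2, hstep, ← hR2]
  -- pointwise identity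
  congr 1
  funext X
  have hT2 := hTRK.2 τ hT.smooth hT.sy1 hT.sy2
  -- symmetrisation
  have hsym : ∀ Φ : (Fin 3 → ι) → ℝ, ∑ e ∈ Ij 3 ι, Φ e =
      1 / 3 * ∑ e ∈ Ij 3 ι, ∑ s : Fin 3, Φ (e ∘ Equiv.swap 0 s) := by
    intro Φ
    rw [Finset.sum_comm]
    have h1 : ∀ s : Fin 3, ∑ e ∈ Ij 3 ι, Φ (e ∘ Equiv.swap 0 s) = ∑ e ∈ Ij 3 ι, Φ e := fun s =>
      (htp 3 (Equiv.swap 0 s)).1 Φ
    simp_rw [h1]
    rw [Finset.sum_const, Finset.card_univ, Fintype.card_fin, nsmul_eq_mul]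
    push_cast; ring
  have hc : ∀ c, ∑ e ∈ Ij 3 ι, u X * (Hd (im e) c X * dv (dr 0 c) τ (rt (X ∘ e)) +
        hS p β θ u (im e) X * dv (dr 0 c) (dv (dr 0 c) τ) (rt (X ∘ e))) =
      1 / 3 * ∑ e ∈ Ij 3 ι, u X * (hS p β θ u (im e) X *
        ∑ s, dv (dr s c) (dv (dr s c) τ) (rt (X ∘ e))) := by
    intro c
    rw [hsym]
    congr 1
    refine Finset.sum_congr rfl fun e _ => ?_
    have h1 : ∀ s : Fin 3, u X * (Hd (im (e ∘ Equiv.swap 0 s)) c X *
        dv (dr 0 c) τ (rt (X ∘ (e ∘ Equiv.swap 0 s))) +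
        hS p β θ u (im (e ∘ Equiv.swap 0 s)) X *
          dv (dr 0 c) (dv (dr 0 c) τ) (rt (X ∘ (e ∘ Equiv.swap 0 s)))) =
        u X * Hd (im e) c X * dv (dr s c) τ (rt (X ∘ e)) +
        u X * (hS p β θ u (im e) X * dv (dr s c) (dv (dr s c) τ) (rt (X ∘ e))) := by
      intro s
      rw [((htp 3 (Equiv.swap 0 s)).2 e).1]
      have h2 := ((hT2 (X ∘ e)).1 (Equiv.swap 0 s)).2.2.2 c
      rw [Equiv.swap_apply_left] at h2
      have h3 : X ∘ (e ∘ Equiv.swap 0 s) = (X ∘ e) ∘ Equiv.swap 0 s := rfl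
      rw [h3, h2.1, h2.2]
      ring
    simp_rw [h1]
    rw [Finset.sum_add_distrib, ← Finset.mul_sum, (hT2 (X ∘ e)).2 c, mul_zero, zero_add,
      ← Finset.mul_sum, ← Finset.mul_sum]
  simp_rw [hc]
  rw [← Finset.mul_sum, Finset.sum_comm]
  congr 1
  refine Finset.sum_congr rfl fun e _ => ?_
  rw [← Finset.mul_sum, ← Finset.mul_sum]
  congr 2
  unfold Lap
  exact Finset.sum_comm

end Pool.Agent.TBS
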