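import Pool.Agent.TBS.StmtsB

/-!
Squad TBS, module L4I: the linear term of the four-body field.
-/

set_option autoImplicit false

open MeasureTheory Filter Topology
open scoped ContDiff

namespace Pool.Agent.TBS

open Pool.Agent.TBG Pool.Agent.TBL Pool.Agent.TBF

namespace L4I_

variable {ι : Type} [Fintype ι] [DecidableEq ι]

lemma meas_pd {F : (ι → E) → ℝ} (i : ι) (c : Fin 3) (hF : Measurable F)
    (hd : ∀ X, Differentiable ℝ (fun x => F (Function.update X i x))) :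
    Measurable (fun X : ι → E => pd c (fun x => F (Function.update X i x)) (X i)) := by
  refine measurable_of_tendsto_metrizable
    (f := fun (n : ℕ) (X : ι → E) =>
      (n : ℝ) * (F (Function.update X i (X i + (n : ℝ)⁻¹ • ev c)) - F X)) ?_ ?_
  · intro n
    have h1 : Continuous fun X : ι → E => Function.update X i (X i + (n : ℝ)⁻¹ • ev c) :=
      continuous_id.update i (by fun_prop)
    exact ((hF.comp h1.measurable).sub hF).const_mul _
  · rw [tendsto_pi_nhds]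
    intro X
    have h := ((hd X) (X i)).hasFDerivAt.lim_real (ev c)
    have h2 := h.comp (tendsto_natCast_atTop_atTop (R := ℝ))
    refine h2.congr fun n => ?_
    simp

lemma pd_mul {f g : E → ℝ} {x : E} (c : Fin 3) (hf : DifferentiableAt ℝ f x)
    (hg : DifferentiableAt ℝ g x) :
    pd c (fun x => f x * g x) x = pd c f x * g x + f x * pd c g x := by
  unfold pd
  rw [fderiv_fun_mul hf hg]
  simp
  ring

/-- centre of mass of the four particles -/
lemma cen_near {p : Par} (hl : 0 ≤ p.l) (e : Fin 4 → ι) (he : Function.Injective e) (X : ι → E)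
    (hX : ‖rl (X ∘ e)‖ ≤ p.l) (c : Fin 3) : |X (e 0) c - cen (im e) X c| ≤ p.l := by
  have hcard : (im e).card = 4 := by
    rw [im, Finset.card_image_of_injective _ he]; simp
  have h1 : cen (im e) X = (4 : ℝ)⁻¹ • ∑ s, X (e s) := by
    unfold cen
    rw [hcard, im, Finset.sum_image (fun a _ b _ h => he h)]
    norm_num
  have h2 : ∀ x : E, |x c| ≤ ‖x‖ := fun x => by
    have := PiLp.norm_apply_le x c
    rwa [Real.norm_eq_abs] at this
  have a1 : |X (e 0) c - X (e 1) c| ≤ p.l := by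
    refine (h2 (X (e 0) - X (e 1))).trans (le_trans ?_ hX)
    exact norm_fst_le (rl (X ∘ e))
  have a2 : |X (e 0) c - X (e 2) c| ≤ p.l := by
    refine (h2 (X (e 0) - X (e 2))).trans (le_trans ?_ hX)
    exact (norm_fst_le (rl (X ∘ e)).2).trans (norm_snd_le (rl (X ∘ e)))
  have a3 : |X (e 0) c - X (e 3) c| ≤ p.l := by
    refine (h2 (X (e 0) - X (e 3))).trans (le_trans ?_ hX)
    exact (norm_snd_le (rl (X ∘ e)).2).trans (norm_snd_le (rl (X ∘ e)))
  have h3 : cen (im e) X c = (4 : ℝ)⁻¹ * (X (e 0) c + X (e 1) c + X (e 2) c + X (e 3) c) := by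
    rw [h1]
    simp [Fin.sum_univ_four]
    ring
  rw [h3]
  rw [abs_le] at a1 a2 a3 ⊢
  constructor <;> linarith [a1.1, a1.2, a2.1, a2.2, a3.1, a3.2]

/-- symmetrisation -/
lemma symm4 (hperm : ∀ (σ : Equiv.Perm (Fin 4)) (F : (Fin 4 → ι) → ℝ),
      ∑ e ∈ Ij 4 ι, F (e ∘ σ) = ∑ e ∈ Ij 4 ι, F e)
    (G : (Fin 4 → ι) → ℝ) (H K : (Fin 4 → ι) → ℝ) (y z : Fin 4 → (Fin 4 → ι) → ℝ)
    (hG : ∀ e (σ : Equiv.Perm (Fin 4)), G (e ∘ σ) = H e * y (σ 0) e + K e * z (σ 0) e)
    (hy : ∀ e, ∑ s, y s e = 0) :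
    ∑ e ∈ Ij 4 ι, G e = 1 / 4 * ∑ e ∈ Ij 4 ι, K e * ∑ s, z s e := by
  have h1 : ∀ s : Fin 4, ∑ e ∈ Ij 4 ι, G e = ∑ e ∈ Ij 4 ι, (H e * y s e + K e * z s e) := by
    intro s
    rw [← hperm (Equiv.swap 0 s) G]
    refine Finset.sum_congr rfl fun e _ => ?_
    rw [hG e (Equiv.swap 0 s), Equiv.swap_apply_left]
  have h2 : ∑ _s : Fin 4, ∑ e ∈ Ij 4 ι, G e =
      ∑ s : Fin 4, ∑ e ∈ Ij 4 ι, (H e * y s e + K e * z s e) :=
    Finset.sum_congr rfl fun s _ => h1 s
  rw [Finset.sum_const, Finset.sum_comm] at h2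
  have h3 : ∑ e ∈ Ij 4 ι, ∑ s : Fin 4, (H e * y s e + K e * z s e) =
      ∑ e ∈ Ij 4 ι, K e * ∑ s, z s e := by
    refine Finset.sum_congr rfl fun e _ => ?_
    rw [Finset.sum_add_distrib, ← Finset.mul_sum, ← Finset.mul_sum, hy e]
    ring
  rw [h3] at h2
  simp at h2
  linarith

end L4I_

open L4I_

theorem l4i_proof (hBMC : Pool.Agent.TBL.Stmt_BMC) (hMSY : Stmt_MSY) (hAVC : Stmt_AVC)
    (hHSF : Stmt_HSF) (hTUP : Stmt_TUP) (hTRF : Stmt_TRF) (hKBM : Stmt_KBM) (hIBN : Stmt_IBN) :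
    Stmt_L4I := by
  intro C ι _ _ p β θ φ y Y g u hS' hu hφ hy hD
  obtain ⟨bm1, bmc, bms, bmf, -⟩ := hBMC
  obtain ⟨hl1, hfin, -⟩ := hMSY C p β θ hS'
  have hl0 : 0 ≤ p.l := by linarith
  have hfinpi : IsFiniteMeasure (PiS (mO p.L) (mO p.L) (∅ : Finset ι)) := by
    unfold PiS
    have : ∀ i : ι, IsFiniteMeasure (if i ∈ (∅ : Finset ι) then mO p.L else mO p.L) := by
      intro i
      rw [ite_self]
      exact hfin
    infer_instance
  have hint : ∀ F : (ι → E) → ℝ, BM F →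
      Integrable F (PiS (mO p.L) (mO p.L) (∅ : Finset ι)) := fun F hF =>
    (bm1 _ F F hF hF).2.2.2.2.2.2 _
  have hmul : ∀ F G : (ι → E) → ℝ, BM F → BM G → BM (fun X => F X * G X) := fun F G hF hG =>
    (bm1 _ F G hF hG).2.2.1
  have hadd : ∀ F G : (ι → E) → ℝ, BM F → BM G → BM (fun X => F X + G X) := fun F G hF hG =>
    (bm1 _ F G hF hG).1
  have hcm : ∀ (F : (ι → E) → ℝ) (a : ℝ), BM F → BM (fun X => a * F X) := fun F a hF =>
    (bm1 _ F F hF hF).2.2.2.2.2.1 a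
  obtain ⟨huB, hduB, -⟩ := hAVC ι (Measure.dirac (0 : E)) ∅ u hu
  obtain ⟨C₁, hC₁, hH⟩ := hHSF C
  obtain ⟨-, tup2, -, -, -, tup6, tup7⟩ := hTUP ι
  obtain ⟨trf1, trf2, -⟩ := hTRF
  obtain ⟨-, kb2, -, kb4⟩ := hKBM
  obtain ⟨-, -, -, kY, -⟩ := kb2 C p.l φ y Y g hφ hy hD
  have hinj : ∀ e ∈ Ij 4 ι, Function.Injective e := by
    intro e he
    classical
    simpa [Ij] using he
  have hne : ∀ e : Fin 4 → ι, (im e).Nonempty := fun e =>
    ⟨e 0, by simp [im]⟩
  have h0m : ∀ e : Fin 4 → ι, e 0 ∈ im e := fun e => by simp [im]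
  have hhB : ∀ e : Fin 4 → ι, BM (hS p β θ u (im e)) := fun e =>
    (hH ι p β θ u (im e) hS' huB (hne e)).1
  have hYB : ∀ (e : Fin 4 → ι) c, BM (fun X : ι → E => Y 0 c (rl (X ∘ e))) := fun e c =>
    kb4 ι (Y 0 c) e (kY 0 c)
  have hFB : ∀ (e : Fin 4 → ι) c, BM (fun X : ι → E => hS p β θ u (im e) X * Y 0 c (rl (X ∘ e))) :=
    fun e c => hmul _ _ (hhB e) (hYB e c)
  -- derivative of `Y`
  have hdYB : ∀ c, BM (dv (d4 0 c) (Y 0 c)) := by
    intro c
    have hs := hD.smY 0 c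
    have hcs : HasCompactSupport (Y 0 c) :=
      HasCompactSupport.intro (isCompact_closedBall (0 : W4) p.l) fun q hq => by
        refine hD.spY 0 c q ?_
        simpa using hq
    have hc1 : Continuous (fderiv ℝ (Y 0 c)) := hs.continuous_fderiv (by simp)
    have hc2 : Continuous (dv (d4 0 c) (Y 0 c)) := by
      unfold dv
      exact hc1.clm_apply continuous_const
    obtain ⟨B, hB⟩ := (hcs.fderiv ℝ).exists_bound_of_continuous hc1
    refine ⟨hc2.measurable, B * ‖d4 0 c‖, fun q => ?_⟩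
    rw [← Real.norm_eq_abs]
    unfold dv
    exact ((fderiv ℝ (Y 0 c) q).le_opNorm _).trans (by gcongr; exact hB q)
  have hdYB' : ∀ (e : Fin 4 → ι) c,
      BM (fun X : ι → E => dv (d4 0 c) (Y 0 c) (rl (X ∘ e))) := fun e c => kb4 ι _ e (hdYB c)
  -- derivative of `h`
  set hd : Fin 3 → Finset ι → (ι → E) → ℝ := fun c S X =>
    (S.card : ℝ)⁻¹ * ∑ a ∈ p.Gr, pd c (β a) (cen S X) * Am p θ u a S X with hhd
  have hhs : ∀ (e : Fin 4 → ι) (X : ι → E),
      ContDiff ℝ ∞ (fun x => hS p β θ u (im e) (Function.update X (e 0) x)) ∧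
      ∀ c, pd c (fun x => hS p β θ u (im e) (Function.update X (e 0) x)) (X (e 0)) =
        hd c (im e) X ∧
      (pd c (fun x => hS p β θ u (im e) (Function.update X (e 0) x)) (X (e 0))) ^ 2 ≤
        C₁ / p.l ^ 2 * hh2 p θ u (im e) X := fun e X =>
    (hH ι p β θ u (im e) hS' huB (hne e)).2.2.2.2 (e 0) (h0m e) X
  have hdB : ∀ (e : Fin 4 → ι) c, BM (hd c (im e)) := by
    intro e c
    have e1 : hd c (im e) = fun X : ι → E =>
        pd c (fun x => hS p β θ u (im e) (Function.update X (e 0) x)) (X (e 0)) := by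
      funext X
      exact (((hhs e X).2 c).1).symm
    obtain ⟨-, B, hB⟩ := (hH ι p β θ u (im e) hS' huB (hne e)).2.1
    refine ⟨?_, C₁ / p.l ^ 2 * B + 1, fun X => ?_⟩
    · rw [e1]
      exact meas_pd (e 0) c (hhB e).1 fun X => (hhs e X).1.differentiable (by simp)
    · have h1 := ((hhs e X).2 c).2
      rw [((hhs e X).2 c).1] at h1
      have h2 : C₁ / p.l ^ 2 * hh2 p θ u (im e) X ≤ C₁ / p.l ^ 2 * B := by
        gcongr
        exact (le_abs_self _).trans (hB X)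
      rw [abs_le]
      constructor <;> nlinarith [sq_nonneg (hd c (im e) X - 1), sq_nonneg (hd c (im e) X + 1)]
  set pF : Fin 3 → (Fin 4 → ι) → (ι → E) → ℝ := fun c e X =>
    hd c (im e) X * Y 0 c (rl (X ∘ e)) +
      hS p β θ u (im e) X * dv (d4 0 c) (Y 0 c) (rl (X ∘ e)) with hpF
  have hpFB : ∀ c e, BM (pF c e) := fun c e =>
    hadd _ _ (hmul _ _ (hdB e c) (hYB e c)) (hmul _ _ (hhB e) (hdYB' e c))
  have hpd : ∀ e ∈ Ij 4 ι, ∀ (c : Fin 3) (X : ι → E),
      pd c (fun x => hS p β θ u (im e) (Function.update X (e 0) x) *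
        Y 0 c (rl (Function.update X (e 0) x ∘ e))) (X (e 0)) = pF c e X := by
    intro e he c X
    obtain ⟨t1, t2⟩ := trf1 ι (Y 0 c) e X (hD.smY 0 c) he
    rw [pd_mul c ((hhs e X).1.differentiable (by simp) _) (t1.differentiable (by simp) _),
      t2, ((hhs e X).2 c).1, Function.update_eq_self]
  -- integration by parts
  have hib : ∀ e ∈ Ij 4 ι, ∀ c : Fin 3,
      IO p (fun X => di (e 0) c u X * (hS p β θ u (im e) X * Y 0 c (rl (X ∘ e)))) =
        - IO p (fun X => u X * pF c e X) := by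
    intro e he c
    have h1 := hIBN C ι p β θ u (fun X => hS p β θ u (im e) X * Y 0 c (rl (X ∘ e))) (e 0) c
      hS' hu (hFB e c) (fun X => ?_) ?_ ?_
    · rw [h1]
      congr 2
      funext X
      rw [hpd e he c X]
    · exact ((hhs e X).1.mul (trf1 ι (Y 0 c) e X (hD.smY 0 c) he).1).of_le (by simp)
    · have e1 : (fun X : ι → E => pd c (fun x => hS p β θ u (im e) (Function.update X (e 0) x) *
        Y 0 c (rl (Function.update X (e 0) x ∘ e))) (X (e 0))) = pF c e := by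
        funext X
        exact hpd e he c X
      rw [e1]
      exact hpFB c e
    · intro X hX
      have h2 : hS p β θ u (im e) X ≠ 0 := left_ne_zero_of_mul hX
      have h3 : Y 0 c (rl (X ∘ e)) ≠ 0 := right_ne_zero_of_mul hX
      obtain ⟨a, ha, hca⟩ := (hH ι p β θ u (im e) hS' huB (hne e)).2.2.2.1 X h2
      have h4 : ‖rl (X ∘ e)‖ ≤ p.l := by
        by_contra hc
        exact h3 (hD.spY 0 c _ (not_le.1 hc))
      refine ⟨a, ha, fun d => ?_⟩
      have h5 := cen_near hl0 e (hinj e he) X h4 d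
      have h6 := hca d
      rw [abs_le] at h5 h6 ⊢
      constructor <;> linarith [h5.1, h5.2, h6.1, h6.2]
  refine ⟨fun i c => ?_, ?_⟩
  · unfold bF
    refine hcm _ _ (bms _ _ _ _ fun e _ => hFB e c)
  -- the sum
  have hpt : ∀ X : ι → E, ∑ i, ∑ c, di i c u X * bF p β θ Y u i c X =
      1 / 6 * ∑ c : Fin 3, ∑ e ∈ Ij 4 ι,
        di (e 0) c u X * (hS p β θ u (im e) X * Y 0 c (rl (X ∘ e))) := by
    intro X
    rw [Finset.sum_comm, Finset.mul_sum]
    refine Finset.sum_congr rfl fun c _ => ?_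
    rw [← tup7 3 (fun e => di (e 0) c u X * (hS p β θ u (im e) X * Y 0 c (rl (X ∘ e)))),
      Finset.mul_sum]
    refine Finset.sum_congr rfl fun i _ => ?_
    unfold bF
    rw [← mul_assoc, mul_comm (di i c u X) (1 / 6), mul_assoc]
    congr 1
    rw [Finset.mul_sum]
    refine Finset.sum_congr ?_ fun e he => ?_
    · ext e
      simp
    · rw [Finset.mem_filter] at he
      rw [he.2]
  have hpt2 : ∀ X : ι → E, ∑ c : Fin 3, ∑ e ∈ Ij 4 ι, pF c e X =
      1 / 4 * ∑ e ∈ Ij 4 ι, hS p β θ u (im e) X * dvg Y (rl (X ∘ e)) := by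
    intro X
    have h1 : ∀ c : Fin 3, ∑ e ∈ Ij 4 ι, pF c e X =
        1 / 4 * ∑ e ∈ Ij 4 ι, hS p β θ u (im e) X *
          ∑ s : Fin 4, dv (d4 s c) (Y s c) (rl (X ∘ e)) := by
      intro c
      refine symm4 (fun σ F => ((tup2 4 σ).1 F)) (fun e => pF c e X) (fun e => hd c (im e) X)
        (fun e => hS p β θ u (im e) X) (fun s e => Y s c (rl (X ∘ e)))
        (fun s e => dv (d4 s c) (Y s c) (rl (X ∘ e))) ?_ ?_
      · intro e σ
        have h2 := (trf2 (X ∘ e) σ).2 φ y p.l C Y g hD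
        have h3 := (h2.2 c).1
        have h4 := (h2.2 c).2
        have h5 := ((tup2 4 σ).2 e).1
        simp only [hpF]
        rw [h5]
        rw [show X ∘ (e ∘ σ) = (X ∘ e) ∘ σ from rfl, h3, h4]
      · intro e
        exact hD.sum c _
    simp_rw [h1]
    rw [← Finset.mul_sum, Finset.sum_comm]
    congr 1
    refine Finset.sum_congr rfl fun e _ => ?_
    rw [← Finset.mul_sum]
    congr 1
    unfold dvg
    rw [Finset.sum_comm]
  have hB1 : ∀ (c : Fin 3) (e : Fin 4 → ι),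
      BM (fun X : ι → E => di (e 0) c u X * (hS p β θ u (im e) X * Y 0 c (rl (X ∘ e)))) :=
    fun c e => hmul _ _ (hduB (e 0) c) (hFB e c)
  have hB2 : ∀ (c : Fin 3) (e : Fin 4 → ι), BM (fun X : ι → E => u X * pF c e X) :=
    fun c e => hmul _ _ huB (hpFB c e)
  have hL : IO p (fun X => ∑ i, ∑ c, di i c u X * bF p β θ Y u i c X) =
      1 / 6 * ∑ c : Fin 3, ∑ e ∈ Ij 4 ι,
        IO p (fun X => di (e 0) c u X * (hS p β θ u (im e) X * Y 0 c (rl (X ∘ e)))) := by
    unfold IO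
    simp_rw [hpt]
    rw [integral_const_mul, integral_finsetSum]
    · congr 1
      refine Finset.sum_congr rfl fun c _ => ?_
      rw [integral_finsetSum]
      intro e _
      exact hint _ (hB1 c e)
    · intro c _
      exact hint _ (bms _ _ _ _ fun e _ => hB1 c e)
  have hR : IO p (fun X => u X * ∑ c : Fin 3, ∑ e ∈ Ij 4 ι, pF c e X) =
      ∑ c : Fin 3, ∑ e ∈ Ij 4 ι, IO p (fun X => u X * pF c e X) := by
    unfold IO
    simp_rw [Finset.mul_sum]
    rw [integral_finsetSum]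
    · refine Finset.sum_congr rfl fun c _ => ?_
      rw [integral_finsetSum]
      intro e _
      exact hint _ (hB2 c e)
    · intro c _
      exact hint _ (bms _ _ _ _ fun e _ => hB2 c e)
  have hM : ∑ c : Fin 3, ∑ e ∈ Ij 4 ι,
      IO p (fun X => di (e 0) c u X * (hS p β θ u (im e) X * Y 0 c (rl (X ∘ e)))) =
      - IO p (fun X => u X * ∑ c : Fin 3, ∑ e ∈ Ij 4 ι, pF c e X) := by
    rw [hR, ← Finset.sum_neg_distrib]
    refine Finset.sum_congr rfl fun c _ => ?_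
    rw [← Finset.sum_neg_distrib]
    exact Finset.sum_congr rfl fun e he => hib e he c
  rw [hL, hM]
  simp_rw [hpt2]
  have hfin2 : (fun X : ι → E => 1 / 12 * ∑ e ∈ Ij 4 ι, u X * (hS p β θ u (im e) X *
      dvg Y (rl (X ∘ e)))) = fun X => 1 / 3 * (u X * (1 / 4 * ∑ e ∈ Ij 4 ι,
        hS p β θ u (im e) X * dvg Y (rl (X ∘ e)))) := by
    funext X
    rw [← Finset.mul_sum]
    ring
  rw [hfin2]
  unfold IO
  rw [integral_const_mul]
  ring

end Pool.Agent.TBS
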