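import Pool.Agent.TBS.StmtsA

set_option autoImplicit false

open MeasureTheory Filter Topology
open scoped ContDiff

namespace Pool.Agent.TBS

open Pool.Agent.TBG Pool.Agent.TBL Pool.Agent.TBF

namespace MSY_

theorem coord_meas (c : Fin 3) : Measurable fun x : E => x c :=
  (PiLp.continuous_apply 2 _ c).measurable

theorem Om_meas (L : ℝ) : MeasurableSet (Om L) := by
  have h : Om L = ⋂ c : Fin 3, {x : E | |x c| < L / 2} := by
    ext x; simp [Om]
  rw [h]
  exact MeasurableSet.iInter fun c => measurableSet_lt ((coord_meas c).abs) measurable_const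

theorem Qc_meas (p : Par) (a : E) : MeasurableSet (Qc p a) := by
  have h : Qc p a = ⋂ c : Fin 3, ({x : E | a c - 21 / 2 * p.l ≤ x c} ∩
      {x : E | x c < a c + 21 / 2 * p.l}) := by
    ext x; simp [Qc]
  rw [h]
  exact MeasurableSet.iInter fun c => (measurableSet_le measurable_const (coord_meas c)).inter
    (measurableSet_lt (coord_meas c) measurable_const)

theorem Qb_meas (a : E) (r : ℝ) : MeasurableSet (Qb a r) := by
  have h : Qb a r = ⋂ c : Fin 3, {x : E | |x c - a c| ≤ r} := by
    ext x; simp [Qb]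
  rw [h]
  exact MeasurableSet.iInter fun c =>
    measurableSet_le (((coord_meas c).sub_const (a c)).abs) measurable_const

theorem Qb_vol (a : E) {r : ℝ} (hr : 0 ≤ r) : volume (Qb a r) = ENNReal.ofReal ((2 * r) ^ 3) := by
  have hp := (EuclideanSpace.volume_preserving_symm_measurableEquiv_toLp (Fin 3)).symm
  have h1 := hp.measure_preimage (Qb_meas a r).nullMeasurableSet
  rw [← h1]
  have h2 : (MeasurableEquiv.toLp 2 (Fin 3 → ℝ)).symm.symm ⁻¹' (Qb a r)
      = Set.pi Set.univ (fun c : Fin 3 => Set.Icc (a c - r) (a c + r)) := by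
    ext x
    constructor
    · intro h c _
      have h3 := h c
      rw [abs_le] at h3
      constructor
      · have := h3.1
        change a c - r ≤ x c
        change -r ≤ x c - a c at this
        linarith
      · have := h3.2
        change x c ≤ a c + r
        change x c - a c ≤ r at this
        linarith
    · intro h c
      have h3 := h c (Set.mem_univ c)
      change |x c - a c| ≤ r
      rw [abs_le]
      constructor
      · linarith [h3.1]
      · linarith [h3.2]
  rw [h2, volume_pi_pi]
  simp only [Real.volume_Icc]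
  have h3 : ∀ c : Fin 3, a c + r - (a c - r) = 2 * r := fun c => by ring
  simp only [h3, Finset.prod_const, Finset.card_univ, Fintype.card_fin]
  rw [← ENNReal.ofReal_pow (by positivity)]

theorem ic_eq (Q : Set E) (f : E → ℝ) : (fun x => ic Q x * f x) = Q.indicator f := by
  funext x
  by_cases hx : x ∈ Q <;> simp [ic, hx]

end MSY_

open MSY_ in
theorem msy_proof (_hBMC : Pool.Agent.TBL.Stmt_BMC) : Stmt_MSY := by
  intro C p β θ h
  classical
  have hl1 : 1 ≤ p.l := h.hR.trans h.hl
  have hl0 : 0 < p.l := by linarith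
  have hl3 : 0 < p.l ^ 3 := pow_pos hl0 3
  have hsub : ∀ (a : E) (r : ℝ), r ≤ 10 * p.l → Qb a r ⊆ Qc p a := by
    intro a r hr x hx c
    have h1 := hx c
    rw [abs_le] at h1
    constructor
    · linarith [h1.1]
    · linarith [h1.2]
  have hfin : IsFiniteMeasure (mO p.L) := by
    refine ⟨?_⟩
    unfold mO
    rw [Measure.restrict_apply_univ]
    have h1 : Om p.L ⊆ Qb 0 |p.L| := by
      intro x hx c
      have h2 := hx c
      have h3 : (0 : E) c = 0 := rfl
      rw [h3, sub_zero]
      have h4 := le_abs_self p.L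
      have h5 := abs_nonneg p.L
      linarith [abs_nonneg (x c)]
    refine (measure_mono h1).trans_lt ?_
    rw [Qb_vol 0 (abs_nonneg _)]
    exact ENNReal.ofReal_lt_top
  have hint : ∀ a, Integrable (θ a) := by
    intro a
    by_contra hni
    have := h.θ1 a
    rw [integral_undef hni] at this
    exact zero_ne_one this
  have hprob : ∀ a, IsProbabilityMeasure (tm (θ a)) := by
    intro a
    refine ⟨?_⟩
    unfold tm
    rw [withDensity_apply _ MeasurableSet.univ, Measure.restrict_univ,
      ← ofReal_integral_eq_lintegral_ofReal (hint a) (Eventually.of_forall fun x => h.θ0 a x),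
      h.θ1 a, ENNReal.ofReal_one]
  have htm : ∀ (a : E) (f : E → ℝ), ∫ x, f x ∂(tm (θ a)) = ∫ x, θ a x * f x := by
    intro a f
    have h1 := integral_withDensity_eq_integral_smul (μ := (volume : Measure E))
      (f := fun x => Real.toNNReal (θ a x)) ((h.θm a).real_toNNReal) f
    have h2 : tm (θ a) = volume.withDensity fun x => ((Real.toNNReal (θ a x) : NNReal) : ENNReal) :=
      rfl
    rw [h2, h1]
    refine integral_congr_ae (Eventually.of_forall fun x => ?_)
    show (Real.toNNReal (θ a x)) • f x = θ a x * f x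
    rw [NNReal.smul_def, Real.coe_toNNReal _ (h.θ0 a x), smul_eq_mul]
  have hC0 : 0 ≤ C := le_trans (Nat.cast_nonneg _) (h.mul 0)
  have hcard : ∀ (x : E) (r : ℝ), r ≤ 12 * p.l →
      (((p.Gr.filter (fun a => x ∈ Qb a r)).card : ℕ) : ℝ) ≤ C := by
    intro x r hr
    refine le_trans ?_ (h.mul x)
    rw [Nat.cast_le]
    refine Finset.card_le_card fun a ha => ?_
    rw [Finset.mem_filter] at ha ⊢
    exact ⟨ha.1, fun c => (ha.2 c).trans hr⟩
  refine ⟨hl1, hfin, Om_meas _, Qc_meas p, fun a r => ⟨Qb_meas a r, fun hr => Qb_vol a hr⟩, hsub,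
    hprob, htm, ?_, ?_, ?_, ?_⟩
  · intro a ha f
    rw [htm a f]
    unfold mO
    rw [setIntegral_eq_integral_of_forall_compl_eq_zero]
    intro x hx
    have h0 : θ a x = 0 := by
      by_contra hne
      exact hx (h.inb a ha (hsub a (2 * p.l) (by linarith) (h.θsp a x hne)))
    rw [h0, zero_mul]
  · intro a ha r f hr
    rw [ic_eq]
    unfold mO
    rw [setIntegral_indicator (Qb_meas a r)]
    have h1 : Om p.L ∩ Qb a r = Qb a r :=
      Set.inter_eq_right.2 ((hsub a r hr).trans (h.inb a ha))
    rw [h1]
  · intro x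
    have h1 : ∑ a ∈ p.Gr, θ a x ≤ C * (C / p.l ^ 3) := by
      calc ∑ a ∈ p.Gr, θ a x = ∑ a ∈ p.Gr.filter (fun a => x ∈ Qb a (2 * p.l)), θ a x := by
            rw [Finset.sum_filter]
            refine Finset.sum_congr rfl fun a _ => ?_
            by_cases hx : x ∈ Qb a (2 * p.l)
            · simp [hx]
            · have h0 : θ a x = 0 := by
                by_contra hne
                exact hx (h.θsp a x hne)
              simp [hx, h0]
        _ ≤ ∑ a ∈ p.Gr.filter (fun a => x ∈ Qb a (2 * p.l)), C / p.l ^ 3 :=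
            Finset.sum_le_sum fun a _ => h.θb a x
        _ = (((p.Gr.filter (fun a => x ∈ Qb a (2 * p.l))).card : ℕ) : ℝ) * (C / p.l ^ 3) := by
            rw [Finset.sum_const, nsmul_eq_mul]
        _ ≤ C * (C / p.l ^ 3) :=
            mul_le_mul_of_nonneg_right (hcard x _ (by linarith)) (div_nonneg hC0 hl3.le)
    calc p.l ^ 3 * ∑ a ∈ p.Gr, θ a x ≤ p.l ^ 3 * (C * (C / p.l ^ 3)) :=
          mul_le_mul_of_nonneg_left h1 hl3.le
      _ = C ^ 2 := by field_simp
  · intro x r hr
    have h1 : ∑ a ∈ p.Gr, ic (Qb a r) x =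
        (((p.Gr.filter (fun a => x ∈ Qb a r)).card : ℕ) : ℝ) := by
      rw [Finset.card_filter]
      push_cast
      refine Finset.sum_congr rfl fun a _ => ?_
      by_cases hx : x ∈ Qb a r <;> simp [ic, hx]
    rw [h1]
    exact hcard x r hr

end Pool.Agent.TBS
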