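import Pool.Agent.TBS.StmtsC
import Pool.Agent.TBS.MSY
import Pool.Agent.TBL.BMC

/-!
# Three-body Bose gases (MP_80dc41_mp), sharp lower bound: module LBN (the lower bound for `N` particles)
-/

set_option autoImplicit false

open MeasureTheory Filter Topology
open scoped ContDiff

namespace Pool.Agent.TBS

open Pool.Agent.TBG Pool.Agent.TBL Pool.Agent.TBF

namespace LBN_

/-! ## bounded measurable functions -/

section bm

variable {α : Type} [MeasurableSpace α]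

theorem bm_add {F G : α → ℝ} (hF : BM F) (hG : BM G) : BM (fun X => F X + G X) :=
  (bmc_proof.1 _ _ _ hF hG).1

theorem bm_sub {F G : α → ℝ} (hF : BM F) (hG : BM G) : BM (fun X => F X - G X) :=
  (bmc_proof.1 _ _ _ hF hG).2.1

theorem bm_mul {F G : α → ℝ} (hF : BM F) (hG : BM G) : BM (fun X => F X * G X) :=
  (bmc_proof.1 _ _ _ hF hG).2.2.1

theorem bm_sq {F : α → ℝ} (hF : BM F) : BM (fun X => F X ^ 2) :=
  (bmc_proof.1 _ _ _ hF hF).2.2.2.1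

theorem bm_smul (a : ℝ) {F : α → ℝ} (hF : BM F) : BM (fun X => a * F X) :=
  (bmc_proof.1 _ _ _ hF hF).2.2.2.2.2.1 a

theorem bm_int {F : α → ℝ} (hF : BM F) (μ : Measure α) [IsFiniteMeasure μ] : Integrable F μ :=
  (bmc_proof.1 _ _ _ hF hF).2.2.2.2.2.2 μ

theorem bm_const (a : ℝ) : BM (fun _ : α => a) := bmc_proof.2.1 α a

theorem bm_sum {J : Type} (s : Finset J) (F : J → α → ℝ) (h : ∀ p ∈ s, BM (F p)) :
    BM (fun X => ∑ p ∈ s, F p X) := bmc_proof.2.2.1 α J s F h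

end bm

variable {ι : Type} [Fintype ι] [DecidableEq ι]

/-! ## integrals -/

theorem IO_fin {p : Par} (hfin : IsFiniteMeasure (mO p.L)) :
    IsFiniteMeasure (PiS (mO p.L) (mO p.L) (∅ : Finset ι)) := by
  unfold PiS
  have : ∀ i : ι, IsFiniteMeasure (if i ∈ (∅ : Finset ι) then mO p.L else mO p.L) := fun i => by
    split_ifs <;> exact hfin
  infer_instance

theorem IO_add {p : Par} (hfin : IsFiniteMeasure (mO p.L))
    {F G : (ι → E) → ℝ} (hF : BM F) (hG : BM G) : IO p (fun X => F X + G X) = IO p F + IO p G := by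
  have := IO_fin (ι := ι) hfin
  unfold IO
  exact integral_add (bm_int hF _) (bm_int hG _)

theorem IO_smul {p : Par} (c : ℝ) (F : (ι → E) → ℝ) : IO p (fun X => c * F X) = c * IO p F := by
  unfold IO
  exact integral_const_mul _ _

theorem IO_mono {p : Par} (hfin : IsFiniteMeasure (mO p.L))
    {F G : (ι → E) → ℝ} (hF : BM F) (hG : BM G) (h : ∀ X, F X ≤ G X) : IO p F ≤ IO p G := by
  have := IO_fin (ι := ι) hfin
  unfold IO
  exact integral_mono (bm_int hF _) (bm_int hG _) h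

theorem IO_nonneg {p : Par} {F : (ι → E) → ℝ} (h : ∀ X, 0 ≤ F X) : 0 ≤ IO p F := by
  unfold IO
  exact integral_nonneg h

theorem ae_Om {p : Par} (hfin : IsFiniteMeasure (mO p.L)) :
    ∀ᵐ X ∂(PiS (mO p.L) (mO p.L) (∅ : Finset ι)), ∀ i, X i ∈ Om p.L := by
  unfold PiS
  have : ∀ i : ι, IsFiniteMeasure (if i ∈ (∅ : Finset ι) then mO p.L else mO p.L) := fun i => by
    split_ifs <;> exact hfin
  rw [ae_all_iff]
  intro i
  have h1 : ∀ᵐ x ∂(if i ∈ (∅ : Finset ι) then mO p.L else mO p.L), x ∈ Om p.L := by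
    split_ifs <;> exact ae_restrict_mem (MSY_.Om_meas p.L)
  exact (Measure.tendsto_eval_ae_ae
    (μ := fun i : ι => if i ∈ (∅ : Finset ι) then mO p.L else mO p.L) (i := i)).eventually h1

theorem IO_mono_Om {p : Par} (hfin : IsFiniteMeasure (mO p.L))
    {F G : (ι → E) → ℝ} (hF : BM F) (hG : BM G) (h : ∀ X, (∀ i, X i ∈ Om p.L) → F X ≤ G X) :
    IO p F ≤ IO p G := by
  have := IO_fin (ι := ι) hfin
  unfold IO
  refine integral_mono_ae (bm_int hF _) (bm_int hG _) ?_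
  filter_upwards [ae_Om (ι := ι) hfin] with X hX
  exact h X hX

theorem IO_lin6 {p : Par} (hfin : IsFiniteMeasure (mO p.L)) (a₁ a₂ a₃ a₄ a₅ a₆ : ℝ)
    {F₁ F₂ F₃ F₄ F₅ F₆ : (ι → E) → ℝ} (h₁ : BM F₁) (h₂ : BM F₂) (h₃ : BM F₃) (h₄ : BM F₄)
    (h₅ : BM F₅) (h₆ : BM F₆) :
    IO p (fun X => a₁ * F₁ X + a₂ * F₂ X + a₃ * F₃ X + a₄ * F₄ X + a₅ * F₅ X + a₆ * F₆ X) =
      a₁ * IO p F₁ + a₂ * IO p F₂ + a₃ * IO p F₃ + a₄ * IO p F₄ + a₅ * IO p F₅ + a₆ * IO p F₆ := by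
  have g₁ := bm_smul a₁ h₁
  have g₂ := bm_smul a₂ h₂
  have g₃ := bm_smul a₃ h₃
  have g₄ := bm_smul a₄ h₄
  have g₅ := bm_smul a₅ h₅
  have g₆ := bm_smul a₆ h₆
  have k₂ := bm_add g₁ g₂
  have k₃ := bm_add k₂ g₃
  have k₄ := bm_add k₃ g₄
  have k₅ := bm_add k₄ g₅
  rw [IO_add hfin k₅ g₆, IO_add hfin k₄ g₅, IO_add hfin k₃ g₄, IO_add hfin k₂ g₃,
    IO_add hfin g₁ g₂, IO_smul, IO_smul, IO_smul, IO_smul, IO_smul, IO_smul]

theorem IO_congr {p q : Par} (h : p.L = q.L) (F : (ι → E) → ℝ) : IO p F = IO q F := by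
  unfold IO
  rw [h]

/-! ## the energy -/

theorem potS_nn {V : E → E → ℝ} (hV : Admissible V) (X : ι → E) : 0 ≤ potS V X := by
  unfold potS
  exact mul_nonneg (by norm_num) (Finset.sum_nonneg fun t _ => hV.nonneg _ _)

theorem potS_bm {V : E → E → ℝ} (hV : Admissible V) : BM (fun X : ι → E => potS V X) := by
  have h1 : BM (fun z : E × E => V z.1 z.2) := by
    obtain ⟨C, hC⟩ := hV.bdd
    refine ⟨hV.meas, C, fun z => ?_⟩
    rw [abs_of_nonneg (hV.nonneg _ _)]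
    exact hC _ _
  unfold potS
  refine bm_smul _ (bm_sum _ _ fun t _ => ?_)
  have h2 : Measurable (fun X : ι → E => (X t.1 - X t.2.1, X t.1 - X t.2.2)) := by
    fun_prop
  exact bmc_proof.2.2.2.1 _ _ _ _ h1 h2

theorem KK_le {V : E → E → ℝ} (hV : Admissible V) {p : Par} (hfin : IsFiniteMeasure (mO p.L))
    {u : (ι → E) → ℝ} (hu : BM u) (hd : ∀ j c, BM (di j c u)) : KK p u ≤ EN p V u := by
  have h1 : BM (fun X => ∑ i, ∑ c, di i c u X ^ 2) :=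
    bm_sum _ _ fun i _ => bm_sum _ _ fun c _ => bm_sq (hd i c)
  have h2 : BM (fun X => potS V X * u X ^ 2) := bm_mul (potS_bm hV) (bm_sq hu)
  refine IO_mono hfin h1 (bm_add h1 h2) fun X => ?_
  have := mul_nonneg (potS_nn hV X) (sq_nonneg (u X))
  linarith

theorem LBc_mono {V : E → E → ℝ} {l e e' : ℝ} (h : e ≤ e') (h' : LBc V ι l e') : LBc V ι l e := by
  intro u hu hc
  refine le_trans (mul_le_mul_of_nonneg_right h ?_) (h' u hu hc)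
  unfold ns
  exact integral_nonneg fun X => sq_nonneg _

theorem PZ_nn (p : Par) (θ : E → E → ℝ) (u : (ι → E) → ℝ) (hl : 0 ≤ p.l) : 0 ≤ PZ p θ u := by
  unfold PZ
  refine mul_nonneg (pow_nonneg hl 3) (Finset.sum_nonneg fun a _ => Finset.sum_nonneg fun e _ => ?_)
  unfold IA
  refine integral_nonneg fun X => mul_nonneg ?_ (sq_nonneg _)
  unfold pz
  split_ifs <;> norm_num

theorem zt_bm {M₁ : ℝ} (hM : 0 < M₁) (hZET : Stmt_ZET) {F : (ι → E) → ℝ} (hF : BM F) :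
    BM (fun X => zt M₁ (F X)) := by
  obtain ⟨h1, h2, -⟩ := hZET.1 M₁ hM
  refine ⟨h2.measurable.comp hF.1, 1, fun X => ?_⟩
  rw [abs_of_nonneg (h1 _).1]
  exact (h1 _).2

/-! ## error terms -/

theorem e33_nn {R μ A₃ G₃ : ℝ} (hR : 0 ≤ R) (hμ : 0 ≤ μ) (hA : 0 ≤ A₃) (hG : 0 ≤ G₃) :
    0 ≤ e33 R μ A₃ G₃ := by
  unfold e33
  positivity

theorem e44_nn {l μ w A₄ G₄ : ℝ} (hl : 0 ≤ l) (hμ : 0 ≤ μ) (hw : 0 ≤ w) (hA : 0 ≤ A₄)
    (hG : 0 ≤ G₄) : 0 ≤ e44 l μ w A₄ G₄ := by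
  unfold e44
  positivity

theorem d44_nn {l R A₄ G₃ : ℝ} (hl : 0 ≤ l) (hR : 0 ≤ R) (hA : 0 ≤ A₄) (hG : 0 ≤ G₃) :
    0 ≤ d44 l R A₄ G₃ := by
  unfold d44
  positivity

theorem e34_nn {l R μ w A₃ A₄ G₃ G₄ : ℝ} : 0 ≤ e34 l R μ w A₃ A₄ G₃ G₄ := by
  unfold e34
  positivity

theorem erf_ge {l R M w A₃ A₄ G₃ G₄ Z : ℝ} (hl : 0 ≤ l) (hR : 0 ≤ R) (hM : 0 ≤ M) (hw : 0 ≤ w)
    (h3 : 0 ≤ A₃) (h4 : 0 ≤ A₄) (g3 : 0 ≤ G₃) (g4 : 0 ≤ G₄) (hZ : 0 ≤ Z) :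
    (M / l ^ 3) ^ 2 * Z ≤ erf l R M w A₃ A₄ G₃ G₄ Z := by
  have hμ : 0 ≤ M / l ^ 3 := by positivity
  have k1 := e33_nn hR hμ h3 g3
  have k2 := e44_nn hl hμ hw h4 g4
  have k3 := d44_nn hl hR h4 g3
  have k4 : 0 ≤ e34 l R (M / l ^ 3) w A₃ A₄ G₃ G₄ := e34_nn
  have n1 : 0 ≤ Real.sqrt (M / l ^ 3 * Z * A₃ / R ^ 3) := Real.sqrt_nonneg _
  have n2 : 0 ≤ Real.sqrt (Z * A₃ / R ^ 6) := Real.sqrt_nonneg _
  have n3 : 0 ≤ Real.sqrt (M * (M / l ^ 3) ^ 3 / R ^ 3) * Z := by positivity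
  have n4 : 0 ≤ Real.sqrt (A₄ * ((M / l ^ 3) ^ 3 * Z)) := Real.sqrt_nonneg _
  have n5 : 0 ≤ M / l ^ 3 * A₄ := by positivity
  have n6 : 0 ≤ Real.sqrt (A₄ * d44 l R A₄ G₃) := Real.sqrt_nonneg _
  have n7 : 0 ≤ (M / l ^ 3) ^ 3 * Z := by positivity
  have n8 : 0 ≤ A₄ / R := by positivity
  unfold erf
  linarith

theorem stuff_nn {l X A e A' R μ G : ℝ} (hX : 0 ≤ X) (hA : 0 ≤ A) (he : 0 ≤ e) (hA' : 0 ≤ A')
    (hG : 0 ≤ G) (hR : 0 ≤ R) (hμ : 0 ≤ μ) : 0 ≤ l ^ 2 * X + l ^ 2 * (A + e) + A' + R ^ 2 * μ * A' +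
      R ^ 2 * ((R * μ) ^ 2 * A' + R * μ * G) := by
  positivity

theorem Er_eq (p : Par) (θ : E → E → ℝ) (u : (ι → E) → ℝ) :
    Er p θ u = erf p.l p.R p.M (p.l ^ (1 / 3 : ℝ)) (AA p θ u 3) (AA p θ u 4) (GG p θ u 3)
      (GG p θ u 4) (RW p θ u) + PZ p θ u := by
  unfold Er erf E33 E34 E44 D4 e33 e34 e44 d44
  ring

theorem E44_eq (p : Par) (θ : E → E → ℝ) (u : (ι → E) → ℝ) :
    E44 p θ u = e44 p.l (p.M / p.l ^ 3) (p.l ^ (1 / 3 : ℝ)) (AA p θ u 4) (GG p θ u 4) := rfl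

theorem E33_eq (p : Par) (θ : E → E → ℝ) (u : (ι → E) → ℝ) :
    E33 p θ u = e33 p.R (p.M / p.l ^ 3) (AA p θ u 3) (GG p θ u 3) := rfl

/-! ## arithmetic -/

theorem rl3 {s l : ℝ} (hs : 1 ≤ s) (hl : s ^ 136 ≤ l) : s ≤ 1 / s ^ 200 * l ^ 3 := by
  have hs0 : 0 < s := by linarith
  have h1 : (s ^ 136) ^ 3 ≤ l ^ 3 := pow_le_pow_left₀ (by positivity) hl 3
  have h2 : s ^ 201 ≤ s ^ 408 := pow_le_pow_right₀ hs (by norm_num)
  rw [one_div, inv_mul_eq_div, le_div_iff₀ (by positivity)]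
  calc s * s ^ 200 = s ^ 201 := by ring
    _ ≤ s ^ 408 := h2
    _ = (s ^ 136) ^ 3 := by ring
    _ ≤ l ^ 3 := h1

theorem n1_le {s l K C₀ n : ℝ} (hs : 1 ≤ s) (hl : s ^ 136 ≤ l) (hl2 : l ≤ 2 * s ^ 136)
    (hK : 0 ≤ K) (hC : 0 ≤ C₀) (h : 4 * C₀ * K ≤ s) (hn : n ≤ 2 * (K * (1 / s ^ 200) * l ^ 3)) :
    C₀ * n ≤ l ^ 2 := by
  have hs0 : 0 < s := by linarith
  have hl0 : 0 < l := lt_of_lt_of_le (by positivity) hl
  have h1 : 4 * C₀ * K * s ^ 136 ≤ s ^ 200 := by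
    calc 4 * C₀ * K * s ^ 136 ≤ s * s ^ 136 := mul_le_mul_of_nonneg_right h (by positivity)
      _ = s ^ 137 := by ring
      _ ≤ s ^ 200 := pow_le_pow_right₀ hs (by norm_num)
  have h2 : 2 * C₀ * K * l ≤ s ^ 200 := by
    have := mul_le_mul_of_nonneg_left hl2 (by positivity : 0 ≤ 2 * C₀ * K)
    linarith
  calc C₀ * n ≤ C₀ * (2 * (K * (1 / s ^ 200) * l ^ 3)) := mul_le_mul_of_nonneg_left hn hC
    _ = (2 * C₀ * K * l) * (l ^ 2 / s ^ 200) := by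
        field_simp
    _ ≤ s ^ 200 * (l ^ 2 / s ^ 200) := mul_le_mul_of_nonneg_right h2 (by positivity)
    _ = l ^ 2 := by
        field_simp

theorem Rmu_le {s l K' : ℝ} (hs : 1 ≤ s) (hl : 0 < l) (h : K' ≤ s) :
    s ^ 94 * Real.sqrt (s ^ 94) * (K' / s ^ 200 * l ^ 3 / l ^ 3) ≤ 1 := by
  have hs0 : 0 < s := by linarith
  have e1 : Real.sqrt (s ^ 94) = s ^ 47 := by
    rw [show s ^ 94 = (s ^ 47) ^ 2 by ring]
    exact Real.sqrt_sq (by positivity)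
  rw [e1]
  have e2 : K' / s ^ 200 * l ^ 3 / l ^ 3 = K' / s ^ 200 := by
    field_simp
  rw [e2]
  have h2 : K' * s ^ 141 ≤ s ^ 200 := by
    calc K' * s ^ 141 ≤ s * s ^ 141 := mul_le_mul_of_nonneg_right h (by positivity)
      _ = s ^ 142 := by ring
      _ ≤ s ^ 200 := pow_le_pow_right₀ hs (by norm_num)
  calc s ^ 94 * s ^ 47 * (K' / s ^ 200) = (K' * s ^ 141) / s ^ 200 := by ring
    _ ≤ 1 := (div_le_one (by positivity)).2 h2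

theorem rho2 {s l : ℝ} (hs : 1 ≤ s) (hl : s ^ 136 ≤ l) :
    (1 / s ^ 200) ^ 2 / l ^ 3 ≤ 1 / s ^ 808 := by
  have hs0 : 0 < s := by linarith
  have h1 : (s ^ 136) ^ 3 ≤ l ^ 3 := pow_le_pow_left₀ (by positivity) hl 3
  have h2 : 0 < l ^ 3 := lt_of_lt_of_le (by positivity) h1
  have e : (1 / s ^ 200) ^ 2 / l ^ 3 = 1 / (s ^ 400 * l ^ 3) := by
    rw [div_pow, one_pow, div_div]
    congr 1
    ring
  rw [e]
  refine one_div_le_one_div_of_le (by positivity) ?_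
  calc s ^ 808 = s ^ 400 * (s ^ 136) ^ 3 := by ring
    _ ≤ s ^ 400 * l ^ 3 := mul_le_mul_of_nonneg_left h1 (by positivity)

theorem sq_sub_le (a b : ℝ) : (a - b) ^ 2 ≤ 2 * a ^ 2 + 2 * b ^ 2 := by
  have := sq_nonneg (a + b)
  linarith

theorem fin_arith {t b B c1 kM kV η a1 a3 XX VX HE EX A3 A4 B3 B4 bet EN er PZ W3 W4 E3 E4 mA Z2 Q
    V : ℝ} (ht0 : 0 < t) (ht4 : t ≤ 1 / 4) (hb : 0 < b) (hB : B < 0) (hkM0 : 0 < kM)
    (hkM : kM ≤ c1) (hkV0 : 0 < kV) (hkV : kV ≤ c1) (ha1 : 0 < a1)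
    (hη : (b / 6 + 1) * c1 * η = 3 / 4)
    (hX : 0 ≤ XX) (hVX : 0 ≤ VX) (hHE : HE ≤ 2 * (XX + VX) + 2 * EX)
    (hEX : EX ≤ c1 * (5 * W3 + 3 * W4 + 2 * E3 + 2 * E4 + mA))
    (hMN : XX + VX + b / 6 * A3 + bet / 24 * A4 ≤ EN + kM * (er + PZ))
    (hbet : B ≤ bet) (hA4 : 0 ≤ A4) (hA4B : A4 ≤ B4)
    (hVar : B3 - A3 ≤ kV * Z2) (hZ2 : 0 ≤ Z2) (hZe : Z2 ≤ er)
    (her : er ≤ η * XX + a3 * Q)
    (hE3 : E3 ≤ a1 * Q) (hE4 : E4 ≤ a1 * Q) (hmA : mA ≤ a1 * Q)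
    (hW3 : 0 ≤ W3) (hW4 : 0 ≤ W4) (hPZ : 0 ≤ PZ) (hQ : 0 ≤ Q)
    (hV : V ≤ b / 6 * B3 + B / 24 * B4 + t / 2 * HE - t * (5 * c1) * (W3 + W4) - 5 * c1 * PZ) :
    V ≤ EN + ((b / 6 + 1) * c1 * a3 + 5 * c1 * a1) * Q := by
  have hc1 : 0 < c1 := by linarith
  have her0 : 0 ≤ er := by linarith
  have h1 : B / 24 * B4 ≤ bet / 24 * A4 := by
    have x1 : B / 24 * B4 ≤ B / 24 * A4 := by nlinarith
    have x2 : B / 24 * A4 ≤ bet / 24 * A4 := mul_le_mul_of_nonneg_right (by linarith) hA4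
    linarith
  have h2 : b / 6 * B3 ≤ b / 6 * A3 + b / 6 * (c1 * er) := by
    have x1 : kV * Z2 ≤ c1 * er := mul_le_mul hkV hZe hZ2 hc1.le
    have x2 : b / 6 * (B3 - A3) ≤ b / 6 * (c1 * er) :=
      mul_le_mul_of_nonneg_left (hVar.trans x1) (by linarith)
    linarith
  have h3 : kM * (er + PZ) ≤ c1 * er + c1 * PZ := by
    have := mul_le_mul_of_nonneg_right hkM (add_nonneg her0 hPZ)
    linarith
  have h4 : (b / 6 + 1) * c1 * er ≤ 3 / 4 * XX + (b / 6 + 1) * c1 * a3 * Q := by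
    have x1 := mul_le_mul_of_nonneg_left her (by positivity : 0 ≤ (b / 6 + 1) * c1)
    have x2 : (b / 6 + 1) * c1 * (η * XX + a3 * Q) =
        ((b / 6 + 1) * c1 * η) * XX + (b / 6 + 1) * c1 * a3 * Q := by ring
    rw [x2, hη] at x1
    exact x1
  have haQ : 0 ≤ a1 * Q := by positivity
  have h5 : EX ≤ 5 * c1 * (W3 + W4) + 5 * c1 * (a1 * Q) := by
    have x1 : 5 * W3 + 3 * W4 + 2 * E3 + 2 * E4 + mA ≤ 5 * (W3 + W4) + 5 * (a1 * Q) := by linarith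
    have x2 := mul_le_mul_of_nonneg_left x1 hc1.le
    linarith
  have h6 : t / 2 * HE ≤ 1 / 4 * (XX + VX) + t * (5 * c1) * (W3 + W4) + 5 * c1 * (a1 * Q) := by
    have x1 : t / 2 * HE ≤ t / 2 * (2 * (XX + VX) + 2 * EX) :=
      mul_le_mul_of_nonneg_left hHE (by linarith)
    have x2 : t * EX ≤ t * (5 * c1 * (W3 + W4) + 5 * c1 * (a1 * Q)) :=
      mul_le_mul_of_nonneg_left h5 ht0.le
    have x3 : t * (XX + VX) ≤ 1 / 4 * (XX + VX) := mul_le_mul_of_nonneg_right ht4 (by linarith)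
    have x4 : t * (5 * c1 * (a1 * Q)) ≤ 1 * (5 * c1 * (a1 * Q)) :=
      mul_le_mul_of_nonneg_right (by linarith) (by positivity)
    linarith
  have h7 : 0 ≤ c1 * PZ := by positivity
  linarith

end LBN_

open LBN_

set_option maxHeartbeats 8000000 in
theorem lbn_proof (hBBD : Stmt_BBD) (hGGB : Stmt_GGB) (hVAR : Stmt_VAR) (hRGH : Stmt_RGH)
    (hMNB : Stmt_MNB) (hHEN : Stmt_HEN) (hEXA : Stmt_EXA) (hEXB : Stmt_EXB) (hEXC : Stmt_EXC)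
    (hBBW : Stmt_BBW) (hCLQ : Stmt_CLQ) (hAR1 : Stmt_AR1) (hAR2 : Stmt_AR2) (hAR3 : Stmt_AR3)
    (_hKBM : Stmt_KBM) (hL3I : Stmt_L3I) (hL4I : Stmt_L4I) (hAVC : Stmt_AVC) (hZET : Stmt_ZET) :
    Stmt_LBN := by
  intro φ y B c₀ C₀ C r₁ hφ hb hy hys hadm hB hc₀ hC₀ hdec hC hr₁ hdat
  obtain ⟨kM, hkM, hM⟩ := hMNB C φ y hφ hb hy hys
  obtain ⟨k2, hk2, hB2⟩ := hBBD C 2
  obtain ⟨k3, hk3, hB3⟩ := hBBD C 3
  obtain ⟨k4', hk4', hB4⟩ := hBBD C 4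
  obtain ⟨kg3, hkg3, hG3⟩ := hGGB C 3
  obtain ⟨kg4, hkg4, hG4⟩ := hGGB C 4
  obtain ⟨kV, hkV, hV⟩ := hVAR C
  obtain ⟨kr, hkr, hR⟩ := hRGH C 0
  obtain ⟨qA, hqA, hXA⟩ := hEXA C
  obtain ⟨qB, hqB, hXB⟩ := hEXB C
  obtain ⟨qC, hqC, hXC⟩ := hEXC C φ y hφ hy
  generalize hbdef : (∫ z, ww φ z) = b at *
  obtain ⟨c1, hc1def⟩ : ∃ c1 : ℝ, c1 = kM + k2 + k3 + kg3 + kg4 + kV + qA + qB + qC := ⟨_, rfl⟩
  have hc1 : 0 < c1 := by linarith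
  obtain ⟨t, K, ρq, C2q, ht, ht4, hK, hρq, hC2q, hQ⟩ :=
    hCLQ b (-B) C (5 * c1) c₀ hb (by linarith) hC (by linarith) hc₀
  obtain ⟨K', hK'def⟩ : ∃ K' : ℝ, K' = 18522 * K := ⟨_, rfl⟩
  have hK' : 0 < K' := by linarith
  obtain ⟨Cr, hCrdef⟩ : ∃ Cr : ℝ, Cr = c1 * (1 + b) := ⟨_, rfl⟩
  have hCr : 0 < Cr := by rw [hCrdef]; positivity
  have hc1b : 0 < c1 * b := mul_pos hc1 hb
  have hCr1 : c1 ≤ Cr := by rw [hCrdef, mul_add, mul_one]; exact le_add_of_nonneg_right hc1b.le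
  have hCr2 : c1 * b ≤ Cr := by rw [hCrdef, mul_add, mul_one]; exact le_add_of_nonneg_left hc1.le
  obtain ⟨a1, ha1, hA1⟩ := hAR1 Cr K' hCr hK'
  obtain ⟨a2, ha2, hA2⟩ := hAR2 Cr K' hCr hK'
  obtain ⟨C3, hC3def⟩ : ∃ C3 : ℝ, C3 = Cr + a2 := ⟨_, rfl⟩
  have hC3 : 0 < C3 := by linarith
  obtain ⟨η, hηdef⟩ : ∃ η : ℝ, η = 3 / 4 / ((b / 6 + 1) * c1) := ⟨_, rfl⟩
  have hη0 : 0 < η := by rw [hηdef]; positivity
  have hη1 : (b / 6 + 1) * c1 * η = 3 / 4 := by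
    rw [hηdef]
    field_simp
  obtain ⟨a3, s3, ha3, hs3, hA3⟩ := hAR3 C3 K' η hC3 hK' hη0
  obtain ⟨D, hD⟩ : ∃ D : ℝ, D = (b / 6 + 1) * c1 * a3 + 5 * c1 * a1 := ⟨_, rfl⟩
  have hD0 : 0 < D := by rw [hD]; positivity
  have hnB : 0 < (-B) / b := div_pos (by linarith) hb
  have hiρ : 0 < 1 / ρq := by positivity
  have h4CK : 0 < 4 * C₀ * K := by positivity
  refine ⟨1 + s3 + r₁ + c1 + 1 / ρq + C2q + C₀ + 4 * C₀ * K + K' + (-B) / b, C2q + D, by linarith,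
    by linarith, ?_⟩
  intro s l Mc ι _ _ u p hs hl1 hl2 hMc hpL hu
  have hs1 : 1 ≤ s := by linarith
  have hs0 : 0 < s := by linarith
  have hsl : s ≤ l := (le_self_pow₀ hs1 (by norm_num)).trans hl1
  have hl0 : 0 < l := by linarith
  obtain ⟨ρ, hρ⟩ : ∃ ρ : ℝ, ρ = 1 / s ^ 200 := ⟨_, rfl⟩
  have hρ0 : 0 < ρ := by rw [hρ]; positivity
  have hρs : ρ ≤ 1 / s := by
    rw [hρ]
    exact one_div_le_one_div_of_le hs0 (le_self_pow₀ hs1 (by norm_num))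
  have hρq' : ρ < ρq := by
    refine lt_of_le_of_lt hρs ?_
    rw [one_div_lt hs0 hρq]
    linarith
  have hρB : (-B) * ρ ≤ b := by
    have h1 : (-B) / b ≤ s := by linarith
    rw [div_le_iff₀ hb] at h1
    have h2 : (-B) * ρ ≤ (-B) * (1 / s) := mul_le_mul_of_nonneg_left hρs (by linarith)
    refine h2.trans ?_
    rw [mul_one_div, div_le_iff₀ hs0]
    linarith
  have hrl : s ≤ ρ * l ^ 3 := by rw [hρ]; exact rl3 hs1 hl1
  obtain ⟨M₁, hM₁def⟩ : ∃ M₁ : ℝ, M₁ = K * ρ * l ^ 3 := ⟨_, rfl⟩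
  have hM₁s : s ≤ M₁ := by
    rw [hM₁def, mul_assoc]
    exact hrl.trans (le_mul_of_one_le_left (hs0.le.trans hrl) hK)
  have hM₁ : 0 < M₁ := by linarith
  obtain ⟨M, hMdef⟩ : ∃ M : ℝ, M = 18522 * M₁ := ⟨_, rfl⟩
  have hM4 : 4 ≤ M := by linarith
  have hMK : M = K' / s ^ 200 * l ^ 3 := by
    rw [hMdef, hM₁def, hρ, hK'def]
    ring
  have hR1 : s ^ 94 ≤ l := (pow_le_pow_right₀ hs1 (by norm_num)).trans hl1
  have hR2 : r₁ ≤ s ^ 94 := (by linarith : r₁ ≤ s).trans (le_self_pow₀ hs1 (by norm_num))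
  obtain ⟨β, θ, P, τ, g, Y, g₄, hDat, hbet, hinn⟩ := hdat Mc l (s ^ 94) M hR2 hR1 hM4
  obtain ⟨gp, hgp⟩ : ∃ gp : Par, gp = gpar Mc l (s ^ 94) M := ⟨_, rfl⟩
  rw [← hgp] at hDat hinn
  have gpL : gp.L = Mc * l := by rw [hgp]; rfl
  have gpl : gp.l = l := by rw [hgp]; rfl
  have gpR : gp.R = s ^ 94 := by rw [hgp]; rfl
  have gpM : gp.M = M := by rw [hgp]; rfl
  have hSys := hDat.sys
  have hTri := hDat.tri
  have hDua := hDat.dua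
  have hKF := hDat.kf
  have hGrd : Grd gp Mc := ⟨by rw [gpl, gpR, gpM]; exact hgp, by rw [gpl]; exact hl0, hMc⟩
  have hfin : IsFiniteMeasure (mO gp.L) := (msy_proof bmc_proof C gp β θ hSys).2.1
  have hpg : p.L = gp.L := by rw [hpL, gpL]
  have hUU : UU p u = UU gp u := IO_congr hpg _
  have hEN : EN p (VV φ) u = EN gp (VV φ) u := IO_congr hpg _
  rw [hUU, hEN, hpg, ← hρ]
  obtain ⟨hbu, hbd, -⟩ := hAVC ι (Measure.dirac (0 : E)) ∅ u hu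
  have hUU0 : 0 ≤ UU gp u := IO_nonneg fun X => sq_nonneg _
  have hN0 : (0 : ℝ) ≤ (Fintype.card ι : ℝ) := Nat.cast_nonneg _
  obtain ⟨N, hN⟩ : ∃ N : ℝ, N = (Fintype.card ι : ℝ) := ⟨_, rfl⟩
  rw [← hN] at hN0 ⊢
  have hL0 : 0 ≤ gp.L := by
    rw [gpL]
    positivity
  have hρ3 : 0 ≤ ρ ^ 3 := by positivity
  have hcoef : 0 ≤ b / 3 * ρ ^ 3 + B / 8 * ρ ^ 4 := by
    have e : b / 3 * ρ ^ 3 + B / 8 * ρ ^ 4 = (b / 3 - (-B) * ρ / 8) * ρ ^ 3 := by ring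
    rw [e]
    exact mul_nonneg (by linarith) hρ3
  have hQN : 0 ≤ N / s ^ 605 := by positivity
  have hQ1 : 0 ≤ ρ ^ 3 * l * gp.L ^ 2 := by positivity
  have hQ2 : 0 ≤ gp.L ^ 3 / s ^ 808 := by positivity
  by_cases hcase : EN gp (VV φ) u ≤ b * ρ ^ 2 * (N * UU gp u)
  swap
  · push Not at hcase
    refine le_trans ?_ hcase.le
    have x1 : (b / 2 * ρ ^ 2 + B / 6 * ρ ^ 3) * N - (b / 3 * ρ ^ 3 + B / 8 * ρ ^ 4) * gp.L ^ 3
        - (C2q + D) * (ρ ^ 3 * l * gp.L ^ 2 + gp.L ^ 3 / s ^ 808 + N / s ^ 605) ≤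
        b * ρ ^ 2 * N := by
      have y1 : 0 ≤ (b / 3 * ρ ^ 3 + B / 8 * ρ ^ 4) * gp.L ^ 3 := mul_nonneg hcoef (by positivity)
      have y2 : 0 ≤ (C2q + D) * (ρ ^ 3 * l * gp.L ^ 2 + gp.L ^ 3 / s ^ 808 + N / s ^ 605) := by
        positivity
      have y3 : B / 6 * ρ ^ 3 * N ≤ 0 := by
        have : 0 ≤ (-B) / 6 * ρ ^ 3 * N := by
          have : 0 < -B := by linarith
          positivity
        linarith
      have y4 : 0 ≤ b * ρ ^ 2 * N := by positivity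
      clear * - y1 y2 y3 y4
      linarith
    calc _ ≤ b * ρ ^ 2 * N * UU gp u := mul_le_mul_of_nonneg_right x1 hUU0
      _ = b * ρ ^ 2 * (N * UU gp u) := by ring
  -- the main case
  obtain ⟨U, hU⟩ : ∃ U : ℝ, U = N * UU gp u := ⟨_, rfl⟩
  have hU0 : 0 ≤ U := by rw [hU]; positivity
  have hKK : KK gp u ≤ b * (U / s ^ 400) := by
    refine (KK_le hadm hfin hbu hbd).trans (hcase.trans (le_of_eq ?_))
    rw [hU, hρ]
    ring
  obtain ⟨-, -, -, -, i2⟩ := hB2 ι gp β θ u hSys hbu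
  obtain ⟨j1, j2, j3, j4, j5⟩ := hB3 ι gp β θ u hSys hbu
  obtain ⟨m1, m2, m3, -, -⟩ := hB4 ι gp β θ u hSys hbu
  have n3 := hG3 ι gp β θ u hSys hu
  have n4 := hG4 ι gp β θ u hSys hu
  have hvar := hV ι gp β θ u hSys hu
  have hrw := (hR ι gp β θ u hSys hbu).1
  rw [← hN, ← hU] at i2 j5
  norm_num at i2 j5
  rw [gpl, gpM] at i2 j5 n3 n4 hvar
  obtain ⟨μ, hμ⟩ : ∃ μ : ℝ, μ = M / l ^ 3 := ⟨_, rfl⟩
  have hμ0 : 0 < μ := by rw [hμ]; positivity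
  obtain ⟨w, hw⟩ : ∃ w : ℝ, w = l ^ (1 / 3 : ℝ) := ⟨_, rfl⟩
  have hw0 : 0 ≤ w := by rw [hw]; positivity
  have hw3 : w ^ 3 = l := by
    rw [hw, ← Real.rpow_natCast, ← Real.rpow_mul hl0.le]
    norm_num
  have hZ0 : 0 ≤ RW gp θ u := j4.trans hrw
  have hgg : ∀ (k : ℝ) (m : ℕ) (G : ℝ), 0 ≤ k → k ≤ c1 →
      G ≤ k * (M / l ^ 3) ^ m * l ^ 3 * KK gp u → G ≤ Cr * (M / l ^ 3) ^ m * l ^ 3 * (U / s ^ 400) := by
    intro k m G hk hk1 hG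
    refine hG.trans ?_
    have x0 : 0 ≤ (M / l ^ 3) ^ m * l ^ 3 := by
      have : 0 ≤ M := by linarith
      positivity
    have x1 : k * (M / l ^ 3) ^ m * l ^ 3 * KK gp u = k * (((M / l ^ 3) ^ m * l ^ 3) * KK gp u) := by
      ring
    have x2 : ((M / l ^ 3) ^ m * l ^ 3) * KK gp u ≤ ((M / l ^ 3) ^ m * l ^ 3) * (b * (U / s ^ 400)) :=
      mul_le_mul_of_nonneg_left hKK x0
    have x3 : 0 ≤ ((M / l ^ 3) ^ m * l ^ 3) * (U / s ^ 400) := mul_nonneg x0 (by positivity)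
    rw [x1]
    calc k * (((M / l ^ 3) ^ m * l ^ 3) * KK gp u)
        ≤ k * (((M / l ^ 3) ^ m * l ^ 3) * (b * (U / s ^ 400))) := mul_le_mul_of_nonneg_left x2 hk
      _ = (k * b) * (((M / l ^ 3) ^ m * l ^ 3) * (U / s ^ 400)) := by ring
      _ ≤ Cr * (((M / l ^ 3) ^ m * l ^ 3) * (U / s ^ 400)) := by
          refine mul_le_mul_of_nonneg_right (le_trans ?_ hCr2) x3
          exact mul_le_mul_of_nonneg_right hk1 hb.le
      _ = Cr * (M / l ^ 3) ^ m * l ^ 3 * (U / s ^ 400) := by ring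
  have hM0 : 0 ≤ M := by linarith
  have hrg : Rgm Cr K' s l w M (AA gp θ u 3) (AA gp θ u 4) (GG gp θ u 3) (GG gp θ u 4) U := by
    refine ⟨hs1, hl1, hl2, hw0, hw3, hMK, hU0, j1, m1, j3, m3, ?_, ?_, ?_, ?_⟩
    · refine j2.trans (i2.trans ?_)
      exact mul_le_mul_of_nonneg_right
        (mul_le_mul_of_nonneg_right (by linarith) (by positivity)) hU0
    · refine m2.trans (j5.trans ?_)
      exact mul_le_mul_of_nonneg_right
        (mul_le_mul_of_nonneg_right (by linarith) (by positivity)) hU0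
    · exact hgg kg3 3 _ hkg3.le (by linarith) n3
    · exact hgg kg4 4 _ hkg4.le (by linarith) n4
  have hrg3 : Rgm C3 K' s l w M (AA gp θ u 3) (AA gp θ u 4) (GG gp θ u 3) (GG gp θ u 4) U := by
    have hC3r : Cr ≤ C3 := by linarith
    refine ⟨hs1, hl1, hl2, hw0, hw3, hMK, hU0, j1, m1, j3, m3, hrg.a3.trans ?_, hrg.a4.trans ?_,
      hrg.g3.trans ?_, hrg.g4.trans ?_⟩
    · exact mul_le_mul_of_nonneg_right (mul_le_mul_of_nonneg_right hC3r (by positivity)) hU0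
    · exact mul_le_mul_of_nonneg_right (mul_le_mul_of_nonneg_right hC3r (by positivity)) hU0
    · exact mul_le_mul_of_nonneg_right (mul_le_mul_of_nonneg_right
        (mul_le_mul_of_nonneg_right hC3r (by positivity)) (by positivity)) (by positivity)
    · exact mul_le_mul_of_nonneg_right (mul_le_mul_of_nonneg_right
        (mul_le_mul_of_nonneg_right hC3r (by positivity)) (by positivity)) (by positivity)
  -- the dense cells
  obtain ⟨κ, hκ⟩ : ∃ κ : ℝ, κ = c₀ * (K * ρ) ^ 2 := ⟨_, rfl⟩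
  have hκ0 : 0 ≤ κ := by rw [hκ]; positivity
  have hLB : ∀ (J : Type) [Fintype J] [DecidableEq J], M₁ < (Fintype.card J : ℝ) →
      LBc (VV φ) J gp.l (κ * (Fintype.card J : ℝ)) := by
    intro J _ _ hJ
    rw [gpl]
    have y1 : M₁ ≤ (⌈M₁⌉₊ : ℝ) := Nat.le_ceil M₁
    have y2 : (⌈M₁⌉₊ : ℝ) < M₁ + 1 := Nat.ceil_lt_add_one hM₁.le
    have y3 : ⌈M₁⌉₊ ≤ Fintype.card J := Nat.ceil_le.2 hJ.le
    have y4 := hdec l ⌈M₁⌉₊ (by linarith) (by linarith)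
      (n1_le (K := K) hs1 hl1 hl2 (by linarith) hC₀.le (by linarith) (by
        rw [← hρ, ← hM₁def]
        linarith)) J y3
    refine LBc_mono ?_ y4
    have y5 : (K * ρ) ^ 2 * l ^ 6 ≤ (⌈M₁⌉₊ : ℝ) ^ 2 := by
      have : (K * ρ) ^ 2 * l ^ 6 = M₁ ^ 2 := by rw [hM₁def]; ring
      rw [this]
      exact pow_le_pow_left₀ hM₁.le y1 2
    rw [le_div_iff₀ (by positivity), hκ]
    calc c₀ * (K * ρ) ^ 2 * (Fintype.card J : ℝ) * l ^ 6
        = c₀ * ((K * ρ) ^ 2 * l ^ 6) * (Fintype.card J : ℝ) := by ring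
      _ ≤ c₀ * (⌈M₁⌉₊ : ℝ) ^ 2 * (Fintype.card J : ℝ) :=
          mul_le_mul_of_nonneg_right (mul_le_mul_of_nonneg_left y5 hc₀.le) (Nat.cast_nonneg _)
  obtain ⟨hHE, hXX, hVX⟩ := hHEN C ι gp Mc κ M₁ β θ φ τ g y Y g₄ u hadm hGrd hM₁ hκ0 hLB hSys hu hφ
    hTri hy hDua
  obtain ⟨hMN, hRW⟩ := hM ι gp β θ P τ g Y g₄ u hDat hu (by rw [gpl]; linarith)
  -- the roughness
  rw [Er_eq] at hMN
  rw [E44_eq] at hRW
  rw [gpl, gpR, gpM, ← hw] at hMN hRW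
  have hZ1 : RW gp θ u ≤ a2 * (l ^ 2 * XX gp β θ τ Y u + U / s ^ 328) := by
    refine hA2 s l w M _ _ _ _ U (XX gp β θ τ Y u) (RW gp θ u) hrg hXX (hRW.trans ?_)
    have x1 := e44_nn (l := l) (w := w) hl0.le (by positivity : 0 ≤ M / l ^ 3) hw0 m1 m3
    exact mul_le_mul_of_nonneg_right (by linarith)
      (stuff_nn hXX m1 x1 j1 j3 (by positivity) (by positivity))
  have her := hA3 s l w M _ _ _ _ U (XX gp β θ τ Y u) (RW gp θ u) (by linarith) hrg3 hXX hZ0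
    (hZ1.trans (mul_le_mul_of_nonneg_right (by linarith) (by positivity)))
  have hge := erf_ge (R := s ^ 94) hl0.le (by positivity) hM0 hw0 j1 m1 j3 m3 hZ0
  obtain ⟨r1, -, r3, r4, -, -, -⟩ := hA1 s l w M _ _ _ _ U hrg
  -- the quadratic terms
  obtain ⟨z1, z2, z3, z4, z5⟩ := hZET.2 ι gp Mc M₁ hGrd hM₁
  have bmaF : ∀ i c, BM (aF gp β θ τ u i c) := (hL3I C ι gp β θ φ τ g u hSys hu hφ hTri).1
  have bmbF : ∀ i c, BM (bF gp β θ Y u i c) := (hL4I C ι gp β θ φ y Y g₄ u hSys hu hφ hy hDua).1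
  have eA := hXA ι gp Mc M₁ β θ φ τ g y Y u hGrd hM₁ hSys hu hφ hTri hKF
  have eB := hXB ι gp Mc M₁ β θ φ τ y Y g₄ u hGrd hM₁ hSys hu hφ hy hDua hKF
  have eC := hXC ι gp Mc M₁ β θ u (by rw [gpl]; linarith) hGrd hM₁ hSys hu
  obtain ⟨w1, w2, w3⟩ := hBBW C ι gp Mc M₁ β θ u hGrd hM₁ hSys hbu
  obtain ⟨v1, v2, v3, v4, v5⟩ := w1 3
  obtain ⟨v1', v2', v3', v4', v5'⟩ := w1 4
  have hEX : EX gp Mc M₁ β θ φ y τ Y u ≤ c1 * (5 * AW gp Mc M₁ θ u 3 + 3 * AW gp Mc M₁ θ u 4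
      + 2 * E33 gp θ u + 2 * E44 gp θ u + M / l ^ 3 * AA gp θ u 4) := by
    have f1 : BM (fun X => ∑ i, zi gp.l Mc M₁ i X * ∑ c, aF gp β θ τ u i c X ^ 2) :=
      bm_sum _ _ fun i _ => bm_mul (z2 i).1 (bm_sum _ _ fun c _ => bm_sq (bmaF i c))
    have f2 : BM (fun X => ∑ i, zi gp.l Mc M₁ i X * ∑ c, bF gp β θ Y u i c X ^ 2) :=
      bm_sum _ _ fun i _ => bm_mul (z2 i).1 (bm_sum _ _ fun c _ => bm_sq (bmbF i c))
    have f3 : BM (fun X => ∑ i, zi gp.l Mc M₁ i X * ∑ c, (aF gp β θ τ u i c X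
        - bF gp β θ Y u i c X) ^ 2) :=
      bm_sum _ _ fun i _ => bm_mul (z2 i).1
        (bm_sum _ _ fun c _ => bm_sq (bm_sub (bmaF i c) (bmbF i c)))
    have f4 : IO gp (fun X => ∑ i, zi gp.l Mc M₁ i X * ∑ c, (aF gp β θ τ u i c X
        - bF gp β θ Y u i c X) ^ 2) ≤
        2 * IO gp (fun X => ∑ i, zi gp.l Mc M₁ i X * ∑ c, aF gp β θ τ u i c X ^ 2) +
        2 * IO gp (fun X => ∑ i, zi gp.l Mc M₁ i X * ∑ c, bF gp β θ Y u i c X ^ 2) := by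
      rw [← IO_smul, ← IO_smul, ← IO_add hfin (bm_smul 2 f1) (bm_smul 2 f2)]
      refine IO_mono hfin f3 (bm_add (bm_smul 2 f1) (bm_smul 2 f2)) fun X => ?_
      rw [Finset.mul_sum, Finset.mul_sum, ← Finset.sum_add_distrib]
      refine Finset.sum_le_sum fun i _ => ?_
      have q0 := ((z2 i).2 X).1
      have q1 : ∑ c, (aF gp β θ τ u i c X - bF gp β θ Y u i c X) ^ 2 ≤
          2 * ∑ c, aF gp β θ τ u i c X ^ 2 + 2 * ∑ c, bF gp β θ Y u i c X ^ 2 := by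
        rw [Finset.mul_sum, Finset.mul_sum, ← Finset.sum_add_distrib]
        exact Finset.sum_le_sum fun c _ => sq_sub_le _ _
      have q2 := mul_le_mul_of_nonneg_left q1 q0
      linarith
    have hRmu : 1 + gp.R * Real.sqrt gp.R * (gp.M / gp.l ^ 3) ≤ 2 := by
      rw [gpR, gpM, gpl, hMK]
      have := Rmu_le (K' := K') hs1 hl0 (by linarith)
      linarith
    have g1 : 0 ≤ E33 gp θ u := by
      rw [E33_eq]
      exact e33_nn (by rw [gpR]; positivity) (by rw [gpM, gpl]; positivity) j1 j3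
    have g2 : 0 ≤ E44 gp θ u := by
      rw [E44_eq]
      exact e44_nn (by rw [gpl]; exact hl0.le) (by rw [gpM, gpl]; positivity)
        (by rw [gpl]; positivity) m1 m3
    have g3 : 0 ≤ M / l ^ 3 * AA gp θ u 4 := by positivity
    have eA' : IO gp (fun X => ∑ i, zi gp.l Mc M₁ i X * ∑ c, aF gp β θ τ u i c X ^ 2) ≤
        c1 * (2 * AW gp Mc M₁ θ u 3 + E33 gp θ u) := by
      refine eA.trans (mul_le_mul (by linarith) ?_ ?_ hc1.le)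
      · have := mul_le_mul_of_nonneg_right hRmu v4
        linarith
      · have : 0 ≤ gp.R * Real.sqrt gp.R * (gp.M / gp.l ^ 3) := by
          rw [gpR, gpM, gpl]
          positivity
        positivity
    have eB' : IO gp (fun X => ∑ i, zi gp.l Mc M₁ i X * ∑ c, bF gp β θ Y u i c X ^ 2) ≤
        c1 * (AW gp Mc M₁ θ u 4 + E44 gp θ u) :=
      eB.trans (mul_le_mul_of_nonneg_right (by linarith) (by positivity))
    rw [gpM, gpl] at eC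
    have eC' := eC.trans (mul_le_mul_of_nonneg_right (by linarith : qC ≤ c1)
      (by positivity : 0 ≤ AW gp Mc M₁ θ u 3 + AW gp Mc M₁ θ u 4 + M / l ^ 3 * AA gp θ u 4))
    unfold EX
    rw [gpl] at f4 eA' eB' ⊢
    linarith
  -- the classical part
  have hS : BM (fun X : ι → E => ∑ k : Fin 3 → Fin Mc, zt M₁ (nk gp.l Mc ∅ k X) *
      nk gp.l Mc ∅ k X) :=
    bm_sum _ _ fun k _ => bm_mul (zt_bm hM₁ hZET (z1 ∅ k).1) (z1 ∅ k).1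
  obtain ⟨e0, he0⟩ : ∃ e0 : ℝ, e0 = (b / 2 * ρ ^ 2 - (-B) / 6 * ρ ^ 3) * N
      - (b / 3 * ρ ^ 3 - (-B) / 8 * ρ ^ 4) * gp.L ^ 3
      - C2q * (ρ ^ 3 * gp.l * gp.L ^ 2 + ρ ^ 2 / gp.l ^ 3 * gp.L ^ 3) := ⟨_, rfl⟩
  have hu2 : BM (fun X => u X ^ 2) := bm_sq hbu
  have hcl : e0 * UU gp u ≤ b / 6 * BB gp θ u 3 + B / 24 * BB gp θ u 4
      + t / 2 * HE gp Mc M₁ κ u - t * (5 * c1) * (AW gp Mc M₁ θ u 3 + AW gp Mc M₁ θ u 4)
      - 5 * c1 * PZ gp θ u := by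
    have f1 : BM (fun X => u X ^ 2 * WC gp θ 3 X) := bm_mul hu2 v1
    have f2 : BM (fun X => u X ^ 2 * WC gp θ 4 X) := bm_mul hu2 v1'
    have f3 : BM (fun X => u X ^ 2 * ∑ k : Fin 3 → Fin Mc, zt M₁ (nk gp.l Mc ∅ k X) *
      nk gp.l Mc ∅ k X) := bm_mul hu2 hS
    have f4 : BM (fun X => u X ^ 2 * WZ gp Mc M₁ θ 3 X) := bm_mul hu2 v2
    have f5 : BM (fun X => u X ^ 2 * WZ gp Mc M₁ θ 4 X) := bm_mul hu2 v2'
    have f6 : BM (fun X => u X ^ 2 * WP gp θ X) := bm_mul hu2 w2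
    have hlin := IO_lin6 hfin (b / 6) (B / 24) (t / 2 * κ) (-(t * (5 * c1))) (-(t * (5 * c1)))
      (-(5 * c1)) f1 f2 f3 f4 f5 f6
    have hmono : IO gp (fun X => e0 * u X ^ 2) ≤
        IO gp (fun X => b / 6 * (u X ^ 2 * WC gp θ 3 X) + B / 24 * (u X ^ 2 * WC gp θ 4 X) +
          t / 2 * κ * (u X ^ 2 * ∑ k : Fin 3 → Fin Mc, zt M₁ (nk gp.l Mc ∅ k X) *
            nk gp.l Mc ∅ k X) + -(t * (5 * c1)) * (u X ^ 2 * WZ gp Mc M₁ θ 3 X) +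
          -(t * (5 * c1)) * (u X ^ 2 * WZ gp Mc M₁ θ 4 X) + -(5 * c1) * (u X ^ 2 * WP gp θ X)) := by
      refine IO_mono_Om hfin (bm_smul e0 hu2) (bm_add (bm_add (bm_add (bm_add (bm_add
        (bm_smul _ f1) (bm_smul _ f2)) (bm_smul _ f3)) (bm_smul _ f4)) (bm_smul _ f5))
        (bm_smul _ f6)) fun X hX => ?_
      have hq := hQ ι gp Mc ρ β θ X hρ0 hρq' hGrd (by rw [gpM, gpl, hMdef, hM₁def])
        (by rw [gpl]; linarith) hSys (by rw [gpl]; exact hinn) hX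
      rw [← hN, ← he0, ← hκ] at hq
      have hM₁' : K * ρ * gp.l ^ 3 = M₁ := by rw [gpl, hM₁def]
      rw [hM₁'] at hq
      have := mul_le_mul_of_nonneg_left hq (sq_nonneg (u X))
      linarith
    rw [IO_smul, hlin, ← v3, ← v3'] at hmono
    have g1 := mul_le_mul_of_nonneg_left v5 (by positivity : 0 ≤ t * (5 * c1))
    have g2 := mul_le_mul_of_nonneg_left v5' (by positivity : 0 ≤ t * (5 * c1))
    have g3 := mul_le_mul_of_nonneg_left w3 (by positivity : 0 ≤ 5 * c1)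
    have g4 : HE gp Mc M₁ κ u = κ * IO gp (fun X => u X ^ 2 * ∑ k : Fin 3 → Fin Mc,
      zt M₁ (nk gp.l Mc ∅ k X) * nk gp.l Mc ∅ k X) := rfl
    have g5 : UU gp u = IO gp (fun X => u X ^ 2) := rfl
    rw [g4, g5]
    linarith
  have hfinal := fin_arith (a1 := a1) (a3 := a3) (Q := U / s ^ 605) (Z2 := (M / l ^ 3) ^ 2 * RW gp θ u)
    (mA := M / l ^ 3 * AA gp θ u 4) (E3 := E33 gp θ u) (E4 := E44 gp θ u) (kV := kV) ht ht4 hb hB hkM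
    (by linarith : kM ≤ c1) hkV (by linarith : kV ≤ c1) ha1 hη1 hXX hVX hHE hEX hMN hbet m1 m2
    (by
      refine hvar.trans ?_
      rw [mul_assoc]
      exact mul_le_mul_of_nonneg_left (mul_le_mul_of_nonneg_left hrw (by positivity)) hkV.le)
    (mul_nonneg (by positivity) hZ0) hge
    (by rw [← mul_div_assoc]; exact her)
    (by
      rw [E33_eq, gpR, gpM, gpl, ← mul_div_assoc]
      exact r1)
    (by
      rw [E44_eq, gpM, gpl, ← hw, ← mul_div_assoc]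
      exact r3)
    (by
      rw [← mul_div_assoc]
      exact r4)
    v4 v4' (PZ_nn gp θ u (by rw [gpl]; exact hl0.le)) (by positivity) hcl
  rw [← hD] at hfinal
  -- conclusion
  have hlast : ((b / 2 * ρ ^ 2 + B / 6 * ρ ^ 3) * N - (b / 3 * ρ ^ 3 + B / 8 * ρ ^ 4) * gp.L ^ 3
      - (C2q + D) * (ρ ^ 3 * l * gp.L ^ 2 + gp.L ^ 3 / s ^ 808 + N / s ^ 605)) + D * (N / s ^ 605) ≤
      e0 := by
    rw [he0, gpl]
    have x1 : ρ ^ 2 / l ^ 3 * gp.L ^ 3 ≤ gp.L ^ 3 / s ^ 808 := by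
      have := mul_le_mul_of_nonneg_right (rho2 hs1 hl1) (by positivity : 0 ≤ gp.L ^ 3)
      rw [← hρ] at this
      refine this.trans (le_of_eq ?_)
      ring
    have x2 := mul_le_mul_of_nonneg_left x1 hC2q.le
    have x3 : 0 ≤ D * (ρ ^ 3 * l * gp.L ^ 2) := by positivity
    have x4 : 0 ≤ D * (gp.L ^ 3 / s ^ 808) := by positivity
    have x5 : 0 ≤ C2q * (N / s ^ 605) := by positivity
    linarith
  have x6 := mul_le_mul_of_nonneg_right hlast hUU0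
  have x7 : D * (N / s ^ 605) * UU gp u = D * (U / s ^ 605) := by
    rw [hU]
    ring
  linarith

end Pool.Agent.TBS
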