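import Pool.Agent.TBS.StmtsC
import Pool.Agent.TBG.THE

/-!
# Three-body Bose gases (MP_80dc41_mp), LBT: the lower bound, in terms of the limit
-/

set_option autoImplicit false

open MeasureTheory Filter Topology
open scoped ContDiff

namespace Pool.Agent.TBS

open Pool.Agent.TBG Pool.Agent.TBL Pool.Agent.TBF

namespace LBT_

/-- the limiting bound -/
noncomputable def gLB (b B C₂ ρ s x y : ℝ) : ℝ :=
  (b / 2 * ρ ^ 2 + B / 6 * ρ ^ 3) * x - (b / 3 * ρ ^ 3 + B / 8 * ρ ^ 4)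
    - C₂ * (ρ ^ 3 * y + 1 / s ^ 808 + x / s ^ 605)

theorem limit_gt (b B B' C₂ ρ s : ℝ) (hs : 1 ≤ s) (hC₂ : 0 < C₂) (hBB : B' < B)
    (hsC : 96 * C₂ / (B - B') ≤ s) (hρ : 1 / s ^ 200 = ρ) :
    1 / 6 * ρ ^ 3 * b + 1 / 24 * ρ ^ 4 * B' < gLB b B C₂ ρ s ρ 0 := by
  have hs0 : 0 < s := by linarith
  have hd : 0 < B - B' := by linarith
  have h1 : 96 * C₂ ≤ (B - B') * s := by
    rw [div_le_iff₀ hd] at hsC
    linarith
  have hs5 : s ≤ s ^ 5 := le_self_pow₀ hs (by norm_num)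
  have hs8 : s ≤ s ^ 8 := le_self_pow₀ hs (by norm_num)
  have h5 : C₂ / s ^ 5 ≤ (B - B') / 96 := by
    rw [div_le_iff₀ (by positivity)]
    have : (B - B') * s ≤ (B - B') * s ^ 5 := mul_le_mul_of_nonneg_left hs5 hd.le
    linarith
  have h8 : C₂ / s ^ 8 ≤ (B - B') / 96 := by
    rw [div_le_iff₀ (by positivity)]
    have : (B - B') * s ≤ (B - B') * s ^ 8 := mul_le_mul_of_nonneg_left hs8 hd.le
    linarith
  have hρ4 : ρ ^ 4 = 1 / s ^ 800 := by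
    rw [← hρ, one_div, one_div, inv_pow, ← pow_mul]
  have h800 : 0 < 1 / s ^ 800 := by positivity
  have e1 : C₂ * (1 / s ^ 808) = C₂ / s ^ 8 * (1 / s ^ 800) := by
    rw [div_mul_div_comm, mul_one, ← pow_add, mul_one_div]
  have e2 : C₂ * (ρ / s ^ 605) = C₂ / s ^ 5 * (1 / s ^ 800) := by
    rw [← hρ, div_div, div_mul_div_comm, mul_one, ← pow_add, ← pow_add, mul_one_div]
  have e3 : gLB b B C₂ ρ s ρ 0 = 1 / 6 * ρ ^ 3 * b + 1 / 24 * ρ ^ 4 * B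
      - (C₂ * (1 / s ^ 808) + C₂ * (ρ / s ^ 605)) := by
    unfold gLB
    ring
  rw [e3, e1, e2, hρ4]
  have h6 : C₂ / s ^ 8 * (1 / s ^ 800) ≤ (B - B') / 96 * (1 / s ^ 800) :=
    mul_le_mul_of_nonneg_right h8 h800.le
  have h7 : C₂ / s ^ 5 * (1 / s ^ 800) ≤ (B - B') / 96 * (1 / s ^ 800) :=
    mul_le_mul_of_nonneg_right h5 h800.le
  have h9 : 0 < (B - B') * (1 / s ^ 800) := mul_pos hd h800
  nlinarith

/-- the number of small boxes -/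
theorem boxes (a L : ℝ) (ha : 0 < a) (hL : a ≤ L) : ∃ (Mc : ℕ) (l : ℝ), 0 < Mc ∧ a ≤ l ∧ l ≤ 2 * a ∧
    (Mc : ℝ) * l = L := by
  have hx : 1 ≤ L / a := by
    rw [le_div_iff₀ ha]
    linarith
  obtain ⟨M, hM⟩ : ∃ M : ℕ, M = ⌊L / a⌋₊ := ⟨_, rfl⟩
  have hM1 : 1 ≤ M := by
    rw [hM]
    exact Nat.le_floor (by exact_mod_cast hx)
  have hMle : (M : ℝ) ≤ L / a := by
    rw [hM]
    exact Nat.floor_le (by linarith)
  have hMlt : L / a < (M : ℝ) + 1 := by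
    rw [hM]
    exact Nat.lt_floor_add_one _
  have hM1' : (1 : ℝ) ≤ (M : ℝ) := by exact_mod_cast hM1
  have hM0 : (0 : ℝ) < (M : ℝ) := by linarith
  rw [le_div_iff₀ ha] at hMle
  rw [div_lt_iff₀ ha] at hMlt
  refine ⟨M, L / M, hM1, ?_, ?_, ?_⟩
  · rw [le_div_iff₀ hM0]
    linarith
  · rw [div_le_iff₀ hM0]
    nlinarith
  · field_simp

end LBT_

open LBT_ in
theorem lbt_proof (hDEN : Pool.Agent.TBL.Stmt_DEN) : Stmt_LBT := by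
  intro V b B B' C₂ s₀ hA hCt hb hBB hB hs₀ hC₂ H
  have hd : 0 < B - B' := by linarith
  obtain ⟨s₂, hs₂⟩ : ∃ s₂ : ℝ, s₂ = max s₀ (96 * C₂ / (B - B')) := ⟨_, rfl⟩
  have h20 : s₀ ≤ s₂ := by rw [hs₂]; exact le_max_left _ _
  have h2C : 96 * C₂ / (B - B') ≤ s₂ := by rw [hs₂]; exact le_max_right _ _
  have h21 : 1 ≤ s₂ := le_trans hs₀ h20
  refine ⟨1 / s₂ ^ 200, by positivity, ?_⟩
  intro ρ hρ hρ'
  obtain ⟨s, hs⟩ : ∃ s : ℝ, s = (1 / ρ) ^ (1 / 200 : ℝ) := ⟨_, rfl⟩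
  have hρi : 0 < 1 / ρ := by positivity
  have hsp : 0 < s := by rw [hs]; exact Real.rpow_pos_of_pos hρi _
  have hs200 : s ^ 200 = 1 / ρ := by
    rw [hs, ← Real.rpow_natCast, ← Real.rpow_mul hρi.le]
    norm_num
  have hρs : 1 / s ^ 200 = ρ := by rw [hs200, one_div_one_div]
  have hs2 : s₂ ≤ s := by
    have h1 : s₂ ^ 200 ≤ s ^ 200 := by
      rw [hs200, le_div_iff₀ hρ]
      have h3 : 0 < s₂ ^ 200 := by positivity
      rw [lt_div_iff₀ h3] at hρ'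
      linarith
    exact le_of_pow_le_pow_left₀ (by norm_num) hsp.le h1
  have hs1 : 1 ≤ s := le_trans h21 hs2
  have hlim := limit_gt b B B' C₂ ρ s hs1 hC₂ hBB (le_trans h2C hs2) hρs
  obtain ⟨_, _, t3, t4, t5⟩ := Pool.Agent.TBG.the_proof ρ hρ
  have hy : Tendsto (fun p : ℕ × ℝ => 2 * s ^ 136 / p.2) (thermo ρ) (𝓝 0) := t3.const_div_atTop _
  have hT : Tendsto (fun p : ℕ × ℝ => gLB b B C₂ ρ s ((p.1 : ℝ) / p.2 ^ 3) (2 * s ^ 136 / p.2))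
      (thermo ρ) (𝓝 (gLB b B C₂ ρ s ρ 0)) := by
    unfold gLB
    exact ((t4.const_mul _).sub tendsto_const_nhds).sub
      ((((hy.const_mul _).add tendsto_const_nhds).add (t4.div_const _)).const_mul _)
  filter_upwards [t3.eventually_ge_atTop (s ^ 136), t5, hT.eventually (lt_mem_nhds hlim)]
    with p h1 h2 h3
  obtain ⟨Mc, l, hMc, hl1, hl2, hML⟩ := boxes (s ^ 136) p.2 (by positivity) h1
  have h4 := H s l Mc p.1 (le_trans h20 hs2) hl1 hl2 hMc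
  rw [hML, hρs] at h4
  have h5 := hDEN V p.1 p.2 _ hA hCt h2 h4
  have hL3 : 0 < p.2 ^ 3 := pow_pos h2 3
  rw [le_div_iff₀ hL3]
  refine le_trans ?_ h5
  have h6 := mul_le_mul_of_nonneg_right h3.le hL3.le
  refine h6.trans ?_
  have e1 : gLB b B C₂ ρ s ((p.1 : ℝ) / p.2 ^ 3) (2 * s ^ 136 / p.2) * p.2 ^ 3
      = (b / 2 * ρ ^ 2 + B / 6 * ρ ^ 3) * (p.1 : ℝ) - (b / 3 * ρ ^ 3 + B / 8 * ρ ^ 4) * p.2 ^ 3
        - C₂ * (ρ ^ 3 * (2 * s ^ 136) * p.2 ^ 2 + p.2 ^ 3 / s ^ 808 + (p.1 : ℝ) / s ^ 605) := by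
    have ex : (p.1 : ℝ) / p.2 ^ 3 * p.2 ^ 3 = (p.1 : ℝ) := div_mul_cancel₀ _ hL3.ne'
    have ey : 2 * s ^ 136 / p.2 * p.2 ^ 3 = 2 * s ^ 136 * p.2 ^ 2 := by
      rw [div_mul_eq_mul_div, div_eq_iff h2.ne']
      ring
    unfold gLB
    calc _ = (b / 2 * ρ ^ 2 + B / 6 * ρ ^ 3) * ((p.1 : ℝ) / p.2 ^ 3 * p.2 ^ 3)
          - (b / 3 * ρ ^ 3 + B / 8 * ρ ^ 4) * p.2 ^ 3
          - C₂ * (ρ ^ 3 * (2 * s ^ 136 / p.2 * p.2 ^ 3) + p.2 ^ 3 / s ^ 808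
            + ((p.1 : ℝ) / p.2 ^ 3 * p.2 ^ 3) / s ^ 605) := by ring
      _ = _ := by rw [ex, ey]; ring
  rw [e1]
  have h7 : ρ ^ 3 * l * p.2 ^ 2 ≤ ρ ^ 3 * (2 * s ^ 136) * p.2 ^ 2 := by
    apply mul_le_mul_of_nonneg_right _ (by positivity)
    exact mul_le_mul_of_nonneg_left hl2 (by positivity)
  have h8 := mul_le_mul_of_nonneg_left h7 hC₂.le
  nlinarith

end Pool.Agent.TBS
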