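import Pool.Agent.TBS.StmtsB

/-!
# Three-body Bose gases (MP_80dc41_mp), sharp lower bound: module LDE (decomposition of the linear term)
-/

set_option autoImplicit false

open MeasureTheory Filter Topology
open scoped ContDiff

namespace Pool.Agent.TBS

open Pool.Agent.TBG Pool.Agent.TBL Pool.Agent.TBF

namespace LDE_

variable {ι : Type} [Fintype ι] [DecidableEq ι]

theorem fin_PiS {p : Par} (hfin : IsFiniteMeasure (mO p.L)) :
    IsFiniteMeasure (PiS (mO p.L) (mO p.L) (∅ : Finset ι)) := by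
  unfold PiS
  have : ∀ i : ι, IsFiniteMeasure (if i ∈ (∅ : Finset ι) then mO p.L else mO p.L) := fun i => by
    split_ifs <;> exact hfin
  infer_instance

theorem IO_add (hB : Pool.Agent.TBL.Stmt_BMC) {p : Par} (hfin : IsFiniteMeasure (mO p.L))
    {F G : (ι → E) → ℝ} (hF : BM F) (hG : BM G) : IO p (fun X => F X + G X) = IO p F + IO p G := by
  obtain ⟨hB1, -⟩ := hB
  have hf := fin_PiS (ι := ι) hfin
  unfold IO
  exact integral_add ((hB1 _ _ _ hF hF).2.2.2.2.2.2 _) ((hB1 _ _ _ hG hG).2.2.2.2.2.2 _)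

theorem IO_smul {p : Par} (c : ℝ) (F : (ι → E) → ℝ) : IO p (fun X => c * F X) = c * IO p F := by
  unfold IO
  exact integral_const_mul _ _

theorem IO_sum (hB : Pool.Agent.TBL.Stmt_BMC) {p : Par} (hfin : IsFiniteMeasure (mO p.L)) {J : Type}
    (s : Finset J) {F : J → (ι → E) → ℝ} (hF : ∀ j ∈ s, BM (F j)) :
    IO p (fun X => ∑ j ∈ s, F j X) = ∑ j ∈ s, IO p (F j) := by
  obtain ⟨hB1, -⟩ := hB
  have hf := fin_PiS (ι := ι) hfin
  unfold IO
  exact integral_finsetSum s fun j hj => (hB1 _ _ _ (hF j hj) (hF j hj)).2.2.2.2.2.2 _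

/-- the centre of mass of a triple -/
theorem cen3 {e : Fin 3 → ι} (he : e ∈ Ij 3 ι) (X : ι → E) :
    cen (im e) X = (1 / 3 : ℝ) • (X (e 0) + X (e 1) + X (e 2)) := by
  have hinj : Function.Injective e := (Finset.mem_filter.1 he).2
  have hc : (im e).card = 3 := by
    unfold im
    rw [Finset.card_image_of_injective _ hinj]
    simp
  unfold cen
  rw [hc]
  unfold im
  rw [Finset.sum_image fun i _ j _ h => hinj h, Fin.sum_univ_three]
  norm_num

theorem prod3 {e : Fin 3 → ι} (he : e ∈ Ij 3 ι) (f : ι → ℝ) :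
    ∏ i ∈ im e, f i = f (e 0) * f (e 1) * f (e 2) := by
  have hinj : Function.Injective e := (Finset.mem_filter.1 he).2
  unfold im
  rw [Finset.prod_image fun i _ j _ h => hinj h, Fin.prod_univ_three]

end LDE_

open LDE_ in
theorem lde_proof (hBMC : Pool.Agent.TBL.Stmt_BMC) (hMSY : Stmt_MSY) (hAVP : Stmt_AVP)
    (hAVI : Stmt_AVI) (hDNS : Stmt_DNS) (hVTP : Stmt_VTP) (hTUP : Stmt_TUP) (hKBD : Stmt_KBD) :
    Stmt_LDE := by
  intro C b ι _ _ p β θ g P u hb hSy hP _hg hu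
  obtain ⟨hl1, hfin, -, -, -, -, hprob, -, -, -, -, -⟩ := hMSY C p β θ hSy
  have hl0 : 0 < p.l := lt_of_lt_of_le one_pos hl1
  obtain ⟨_, -, hK⟩ := hKBD C b
  have hK' := fun a => hK p β θ g P hSy hP a
  have hB0 := hBMC
  obtain ⟨hB1, hB2, hB3, hB4, -⟩ := hBMC
  have hmul : ∀ F G : (ι → E) → ℝ, BM F → BM G → BM (fun X => F X * G X) := fun F G hF hG =>
    (hB1 _ _ _ hF hG).2.2.1
  have hadd : ∀ F G : (ι → E) → ℝ, BM F → BM G → BM (fun X => F X + G X) := fun F G hF hG =>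
    (hB1 _ _ _ hF hG).1
  have hsm : ∀ (c : ℝ) (F : (ι → E) → ℝ), BM F → BM (fun X => c * F X) := fun c F hF =>
    (hB1 _ _ _ hF hF).2.2.2.2.2.1 c
  -- the ingredients
  have hvt : ∀ a (S : Finset ι), BM (vt p a S) := fun a S => (hVTP ι C p β θ hSy a S).1
  have hAv : ∀ a (S : Finset ι), BM (Av (tm (θ a)) S u) := fun a S => by
    have := hprob a
    exact (hAVP ι (tm (θ a)) S S u u hu hu).1
  have hAm : ∀ a (S : Finset ι), BM (Am p θ u a S) := fun a S => hmul _ _ (hvt a S) (hAv a S)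
  have huA : ∀ a (S : Finset ι), BM (fun X => u X * Am p θ u a S X) := fun a S =>
    hmul _ _ hu (hAm a S)
  have hθ : ∀ a, BM (θ a) := fun a => ⟨hSy.θm a, C / p.l ^ 3, fun x => by
    rw [abs_of_nonneg (hSy.θ0 a x)]
    exact hSy.θb a x⟩
  have hθi : ∀ a (i : ι), BM (fun X : ι → E => θ a (X i)) := fun a i =>
    hB4 E (ι → E) (θ a) (fun X => X i) (hθ a) (measurable_pi_apply i)
  have hK2 : ∀ a (i j : ι), BM (fun X : ι → E => K2 θ P a (X i) (X j)) := fun a i j =>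
    hB4 (E × E) (ι → E) (fun q => K2 θ P a q.1 q.2) (fun X => (X i, X j)) (hK' a).1
      ((measurable_pi_apply i).prodMk (measurable_pi_apply j))
  have hK3 : ∀ a (i j k : ι), BM (fun X : ι → E => K3 θ P a (X i) (X j) (X k)) := fun a i j k =>
    hB4 (E × E × E) (ι → E) (fun q => K3 θ P a q.1 q.2.1 q.2.2) (fun X => (X i, X j, X k)) (hK' a).2.1
      ((measurable_pi_apply i).prodMk ((measurable_pi_apply j).prodMk (measurable_pi_apply k)))
  have hPb : ∀ a (i j k : ι), BM (fun X : ι → E => P a (X i) (X j) (X k)) := fun a i j k =>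
    hB4 (E × E × E) (ι → E) (fun q => P a q.1 q.2.1 q.2.2) (fun X => (X i, X j, X k)) (hP.bm a)
      ((measurable_pi_apply i).prodMk ((measurable_pi_apply j).prodMk (measurable_pi_apply k)))
  -- the pointwise decomposition of the density
  have hdec : ∀ a x y z, P a x y z = K3 θ P a x y z + (θ a x * K2 θ P a y z + θ a y * K2 θ P a x z +
      θ a z * K2 θ P a x y) + θ a x * θ a y * θ a z := by
    intro a x y z
    unfold K3 K2
    ring
  -- the three terms with the pair kernel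
  obtain ⟨F2, hF2⟩ : ∃ F2 : E → (Fin 3 → ι) → ℝ, F2 = fun a e => IO p (fun X => θ a (X (e 2)) *
      (K2 θ P a (X (e 0)) (X (e 1)) * (u X * Am p θ u a (im e) X))) := ⟨_, rfl⟩
  have hperm := (hTUP ι).2.1
  have hA1 : ∀ a, ∑ e ∈ Ij 3 ι, IO p (fun X => θ a (X (e 0)) *
      (K2 θ P a (X (e 1)) (X (e 2)) * (u X * Am p θ u a (im e) X))) = ∑ e ∈ Ij 3 ι, F2 a e := by
    intro a
    rw [← (hperm 3 (finRotate 3)).1 (F2 a)]
    refine Finset.sum_congr rfl fun e _ => ?_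
    rw [hF2]
    show _ = IO p (fun X => θ a (X ((e ∘ finRotate 3) 2)) * (K2 θ P a (X ((e ∘ finRotate 3) 0))
      (X ((e ∘ finRotate 3) 1)) * (u X * Am p θ u a (im (e ∘ finRotate 3)) X)))
    rw [((hperm 3 (finRotate 3)).2 e).1]
    have r0 : (e ∘ finRotate 3) 0 = e 1 := rfl
    have r1 : (e ∘ finRotate 3) 1 = e 2 := rfl
    have r2 : (e ∘ finRotate 3) 2 = e 0 := rfl
    rw [r0, r1, r2]
  have hA2 : ∀ a, ∑ e ∈ Ij 3 ι, IO p (fun X => θ a (X (e 1)) *
      (K2 θ P a (X (e 0)) (X (e 2)) * (u X * Am p θ u a (im e) X))) = ∑ e ∈ Ij 3 ι, F2 a e := by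
    intro a
    rw [← (hperm 3 (Equiv.swap 1 2)).1 (F2 a)]
    refine Finset.sum_congr rfl fun e _ => ?_
    rw [hF2]
    show _ = IO p (fun X => θ a (X ((e ∘ Equiv.swap 1 2) 2)) * (K2 θ P a (X ((e ∘ Equiv.swap 1 2) 0))
      (X ((e ∘ Equiv.swap 1 2) 1)) * (u X * Am p θ u a (im (e ∘ Equiv.swap 1 2)) X)))
    rw [((hperm 3 (Equiv.swap 1 2)).2 e).1]
    have r0 : (e ∘ Equiv.swap (1 : Fin 3) 2) 0 = e 0 := by
      show e (Equiv.swap (1 : Fin 3) 2 0) = e 0
      rw [Equiv.swap_apply_of_ne_of_ne (by decide) (by decide)]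
    have r1 : (e ∘ Equiv.swap (1 : Fin 3) 2) 1 = e 2 := by
      show e (Equiv.swap (1 : Fin 3) 2 1) = e 2
      rw [Equiv.swap_apply_left]
    have r2 : (e ∘ Equiv.swap (1 : Fin 3) 2) 2 = e 1 := by
      show e (Equiv.swap (1 : Fin 3) 2 2) = e 1
      rw [Equiv.swap_apply_right]
    rw [r0, r1, r2]
  -- the product term
  have hA3 : ∀ a ∈ p.Gr, ∀ e ∈ Ij 3 ι, IO p (fun X => θ a (X (e 0)) * θ a (X (e 1)) * θ a (X (e 2)) *
      (u X * Am p θ u a (im e) X)) = IA p θ a (im e) (fun X => Am p θ u a (im e) X ^ 2) := by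
    intro a ha e he
    have hpa := hprob a
    have h1 := (hDNS ι C p β θ hSy a ha (im e) _ (huA a (im e))).2
    have h2 : (fun X : ι → E => (∏ i ∈ im e, θ a (X i)) * (u X * Am p θ u a (im e) X)) =
        fun X => θ a (X (e 0)) * θ a (X (e 1)) * θ a (X (e 2)) * (u X * Am p θ u a (im e) X) := by
      funext X
      rw [prod3 he]
    rw [h2] at h1
    rw [← h1]
    have hi1 := (hAVP ι (tm (θ a)) (im e) (im e) u u hu hu).2.1
    obtain ⟨-, hi2, hi3, -⟩ := hVTP ι C p β θ hSy a (im e)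
    have hind : IndS (im e) (Am p θ u a (im e)) := by
      intro X Y hXY
      unfold Am
      rw [hi2 X Y hXY, hi1 X Y hXY]
    have h3 := (hAVI ι (tm (θ a)) (mO p.L) (im e) (im e) u (Am p θ u a (im e)) hu (hAm a (im e))
      (Finset.Subset.refl _)).1 hind
    unfold IA
    rw [h3]
    refine integral_congr_ae (Eventually.of_forall fun X => ?_)
    show Av (tm (θ a)) (im e) u X * (vt p a (im e) X * Av (tm (θ a)) (im e) u X) =
      (vt p a (im e) X * Av (tm (θ a)) (im e) u X) ^ 2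
    rcases (hi3 X).1 with h | h <;> rw [h] <;> ring
  -- one term
  have hone : ∀ a ∈ p.Gr, ∑ e ∈ Ij 3 ι, IO p (fun X => P a (X (e 0)) (X (e 1)) (X (e 2)) *
      (u X * Am p θ u a (im e) X)) = ∑ e ∈ Ij 3 ι, IO p (fun X => K3 θ P a (X (e 0)) (X (e 1)) (X (e 2)) *
      (u X * Am p θ u a (im e) X)) + 3 * ∑ e ∈ Ij 3 ι, F2 a e +
      ∑ e ∈ Ij 3 ι, IA p θ a (im e) (fun X => Am p θ u a (im e) X ^ 2) := by
    intro a ha
    have h1 : ∀ e ∈ Ij 3 ι, IO p (fun X => P a (X (e 0)) (X (e 1)) (X (e 2)) *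
        (u X * Am p θ u a (im e) X)) = IO p (fun X => K3 θ P a (X (e 0)) (X (e 1)) (X (e 2)) *
        (u X * Am p θ u a (im e) X)) + (IO p (fun X => θ a (X (e 0)) *
          (K2 θ P a (X (e 1)) (X (e 2)) * (u X * Am p θ u a (im e) X))) +
        IO p (fun X => θ a (X (e 1)) * (K2 θ P a (X (e 0)) (X (e 2)) * (u X * Am p θ u a (im e) X))) +
        F2 a e) + IA p θ a (im e) (fun X => Am p θ u a (im e) X ^ 2) := by
      intro e he
      have w := huA a (im e)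
      have b1 := hmul _ _ (hK3 a (e 0) (e 1) (e 2)) w
      have b2 := hmul _ _ (hθi a (e 0)) (hmul _ _ (hK2 a (e 1) (e 2)) w)
      have b3 := hmul _ _ (hθi a (e 1)) (hmul _ _ (hK2 a (e 0) (e 2)) w)
      have b4 := hmul _ _ (hθi a (e 2)) (hmul _ _ (hK2 a (e 0) (e 1)) w)
      have b5 := hmul _ _ (hmul _ _ (hmul _ _ (hθi a (e 0)) (hθi a (e 1))) (hθi a (e 2))) w
      have e1 : (fun X : ι → E => P a (X (e 0)) (X (e 1)) (X (e 2)) * (u X * Am p θ u a (im e) X)) =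
          fun X => ((K3 θ P a (X (e 0)) (X (e 1)) (X (e 2)) * (u X * Am p θ u a (im e) X)) +
          (((θ a (X (e 0)) * (K2 θ P a (X (e 1)) (X (e 2)) * (u X * Am p θ u a (im e) X))) +
          (θ a (X (e 1)) * (K2 θ P a (X (e 0)) (X (e 2)) * (u X * Am p θ u a (im e) X)))) +
          (θ a (X (e 2)) * (K2 θ P a (X (e 0)) (X (e 1)) * (u X * Am p θ u a (im e) X))))) +
          θ a (X (e 0)) * θ a (X (e 1)) * θ a (X (e 2)) * (u X * Am p θ u a (im e) X) := by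
        funext X
        rw [hdec]
        ring
      rw [e1, IO_add hB0 hfin (hadd _ _ b1 (hadd _ _ (hadd _ _ b2 b3) b4)) b5,
        IO_add hB0 hfin b1 (hadd _ _ (hadd _ _ b2 b3) b4), IO_add hB0 hfin (hadd _ _ b2 b3) b4,
        IO_add hB0 hfin b2 b3, hA3 a ha e he, hF2]
    rw [Finset.sum_congr rfl h1, Finset.sum_add_distrib, Finset.sum_add_distrib,
      Finset.sum_add_distrib, Finset.sum_add_distrib, hA1, hA2]
    ring
  -- the linear term
  have hbl : b * p.l ^ 3 ≠ 0 := by positivity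
  have hL : L3 p β θ g u = ∑ a ∈ p.Gr, ∑ e ∈ Ij 3 ι, b * p.l ^ 3 / 3 *
      IO p (fun X => P a (X (e 0)) (X (e 1)) (X (e 2)) * (u X * Am p θ u a (im e) X)) := by
    have e1 : L3 p β θ g u = IO p (fun X => ∑ e ∈ Ij 3 ι, ∑ a ∈ p.Gr, b * p.l ^ 3 / 3 *
        (P a (X (e 0)) (X (e 1)) (X (e 2)) * (u X * Am p θ u a (im e) X))) := by
      unfold L3
      congr 1
      funext X
      rw [Finset.mul_sum]
      refine Finset.sum_congr rfl fun e he => ?_
      unfold hS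
      rw [Finset.sum_mul, Finset.mul_sum, Finset.mul_sum]
      refine Finset.sum_congr rfl fun a _ => ?_
      rw [cen3 he, hP.df]
      unfold rt
      show 1 / 3 * (u X * (β a ((1 / 3 : ℝ) • (X (e 0) + X (e 1) + X (e 2))) * Am p θ u a (im e) X *
        g (X (e 0) - X (e 1), X (e 0) - X (e 2)))) = _
      field_simp
    rw [e1, IO_sum hB0 hfin _ fun e _ => hB3 _ _ _ _ fun a _ => hsm _ _ (hmul _ _ (hPb a _ _ _)
      (huA a (im e)))]
    conv_rhs => rw [Finset.sum_comm]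
    refine Finset.sum_congr rfl fun e _ => ?_
    rw [IO_sum hB0 hfin _ fun a _ => hsm _ _ (hmul _ _ (hPb a _ _ _) (huA a (im e)))]
    refine Finset.sum_congr rfl fun a _ => ?_
    rw [IO_smul]
  rw [hL]
  have h5 : ∀ a ∈ p.Gr, ∑ e ∈ Ij 3 ι, b * p.l ^ 3 / 3 *
      IO p (fun X => P a (X (e 0)) (X (e 1)) (X (e 2)) * (u X * Am p θ u a (im e) X)) =
      b * p.l ^ 3 / 3 * (∑ e ∈ Ij 3 ι, IO p (fun X => K3 θ P a (X (e 0)) (X (e 1)) (X (e 2)) *
      (u X * Am p θ u a (im e) X))) + b * p.l ^ 3 * (∑ e ∈ Ij 3 ι, F2 a e) +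
      b / 3 * (p.l ^ 3 * ∑ e ∈ Ij 3 ι, IA p θ a (im e) (fun X => Am p θ u a (im e) X ^ 2)) := by
    intro a ha
    rw [← Finset.mul_sum, hone a ha]
    ring
  rw [Finset.sum_congr rfl h5, Finset.sum_add_distrib, Finset.sum_add_distrib, ← Finset.mul_sum,
    ← Finset.mul_sum, ← Finset.mul_sum, ← Finset.mul_sum]
  have h6 : T2 p θ P u = ∑ a ∈ p.Gr, ∑ e ∈ Ij 3 ι, F2 a e := by
    rw [hF2]
    rfl
  rw [h6]
  unfold T3 AA
  ring

end Pool.Agent.TBS
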