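import Pool.Agent.TBS.StmtsB

/-!
# Squad TBS, module LI3: the linear term of three particles
-/

set_option autoImplicit false

open MeasureTheory Filter Topology
open scoped ContDiff

namespace Pool.Agent.TBS

open Pool.Agent.TBG Pool.Agent.TBL Pool.Agent.TBF

namespace LI3_

theorem key {l K A B x : ℝ} (hl : 0 < l) (hK : 0 ≤ K) (hA : 0 ≤ A) (hB : 0 ≤ B)
    (h : x ^ 2 ≤ K * ((A + B ^ 2) / l ^ 6)) : l ^ 3 * |x| ≤ (K + 1) * (Real.sqrt A + B) := by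
  have h1 : (l ^ 3 * |x|) ^ 2 ≤ K * (A + B ^ 2) := by
    rw [mul_pow, sq_abs]
    calc (l ^ 3) ^ 2 * x ^ 2 ≤ (l ^ 3) ^ 2 * (K * ((A + B ^ 2) / l ^ 6)) :=
          mul_le_mul_of_nonneg_left h (by positivity)
      _ = K * (A + B ^ 2) := by
          field_simp
  have h2 : K * (A + B ^ 2) ≤ ((K + 1) * (Real.sqrt A + B)) ^ 2 := by
    have h3 : Real.sqrt A ^ 2 = A := Real.sq_sqrt hA
    have h4 : 0 ≤ Real.sqrt A := Real.sqrt_nonneg A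
    have h5 : A + B ^ 2 ≤ (Real.sqrt A + B) ^ 2 := by nlinarith [mul_nonneg h4 hB]
    have h6 : K ≤ (K + 1) ^ 2 := by nlinarith
    calc K * (A + B ^ 2) ≤ (K + 1) ^ 2 * (Real.sqrt A + B) ^ 2 :=
          mul_le_mul h6 h5 (by positivity) (by positivity)
      _ = _ := by ring
  exact abs_le_of_sq_le_sq' (h1.trans h2) (by positivity) |>.2

end LI3_

theorem li3_proof (hBBD : Stmt_BBD) (hLDE : Stmt_LDE) (hE2A : Stmt_E2A) (hE2C : Stmt_E2C) (hE2B : Stmt_E2B)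
    (hE3A : Stmt_E3A) (hE3B : Stmt_E3B) : Stmt_LI3 := by
  intro C b hb
  obtain ⟨C₁, hC₁, h1⟩ := hE2C C b
  obtain ⟨C₂, hC₂, h2⟩ := hE2B C b
  obtain ⟨C₃, hC₃, h3⟩ := hE3A C b
  obtain ⟨C₄, hC₄, h4⟩ := hE3B C b
  obtain ⟨C₅, hC₅, h5⟩ := hBBD C 3
  refine ⟨b * (C₁ * C₂ + 1) + b * (C₃ * C₄ + 1), by positivity, ?_⟩
  intro ι _ _ p β θ g P u hs hP hg hu
  have hR : 0 < p.R := by linarith [hs.hR]
  have hl : 0 < p.l := by linarith [hs.hl]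
  have hM : 0 < p.M := by linarith [hs.hM]
  have hAA : 0 ≤ AA p θ u 3 := (h5 ι p β θ u hs hu).1
  have hRW : 0 ≤ RW p θ u := by
    unfold RW
    refine Finset.sum_nonneg fun a _ => Finset.sum_nonneg fun i _ => integral_nonneg fun X => ?_
    have hv0 : 0 ≤ vt p a {i} X := by
      unfold vt
      split_ifs
      · exact zero_le_one
      · exact le_rfl
    have : 0 ≤ ic (Qb a (4 * p.l)) (X i) := Set.indicator_nonneg (fun _ _ => zero_le_one) _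
    show 0 ≤ vt p a {i} X * ic (Qb a (4 * p.l)) (X i) * (u X - Av (tm (θ a)) {i} u X) ^ 2
    positivity
  set μ := p.M / p.l ^ 3 with hμ
  have hμ0 : 0 < μ := by positivity
  set A := AA p θ u 3 with hA
  set W := RW p θ u with hW
  have e2 : p.l ^ 3 * |T2 p θ P u| ≤ (C₁ * C₂ + 1) * (Real.sqrt (μ * W * A / p.R ^ 3) + μ ^ 2 * W) := by
    refine LI3_.key hl (by positivity) (by positivity) (by positivity) ?_
    have e3 := h1 ι p β θ g P u hs hP hu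
    rw [← hE2A C b ι p β θ g P u hs hP hu] at e3
    refine e3.trans ?_
    calc C₁ * (μ * W) * ∑ a ∈ p.Gr, ∑ i, ∑ k ∈ Finset.univ \ {i}, IA p θ a {k} (fun X => W2 p θ P u a i k X ^ 2)
        ≤ C₁ * (μ * W) * (C₂ * (A / (p.l ^ 6 * p.R ^ 3) + μ ^ 3 * W / p.l ^ 6)) :=
          mul_le_mul_of_nonneg_left (h2 ι p β θ g P u hs hP hu) (by positivity)
      _ = C₁ * C₂ * ((μ * W * A / p.R ^ 3 + (μ ^ 2 * W) ^ 2) / p.l ^ 6) := by
          field_simp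
  have e3 : p.l ^ 3 * |T3 p θ P u| ≤ (C₃ * C₄ + 1) * (Real.sqrt (W * A / p.R ^ 6) +
      Real.sqrt (p.M * μ ^ 3 / p.R ^ 3) * W) := by
    refine LI3_.key hl (by positivity) (by positivity) (by positivity) ?_
    have e4 : (Real.sqrt (p.M * μ ^ 3 / p.R ^ 3) * W) ^ 2 = p.M * μ ^ 3 / p.R ^ 3 * W ^ 2 := by
      rw [mul_pow, Real.sq_sqrt (by positivity)]
    rw [e4]
    refine (h3 ι p β θ g P u hs hP hu).trans ?_
    calc C₃ * W * ∑ a ∈ p.Gr, ∑ i, IO p (fun X => W3 p θ P u a i X ^ 2)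
        ≤ C₃ * W * (C₄ * (A / (p.l ^ 6 * p.R ^ 6) + p.M * μ ^ 3 * W / (p.l ^ 6 * p.R ^ 3))) :=
          mul_le_mul_of_nonneg_left (h4 ι p β θ g P u hs hP hu) (by positivity)
      _ = C₃ * C₄ * ((W * A / p.R ^ 6 + p.M * μ ^ 3 / p.R ^ 3 * W ^ 2) / p.l ^ 6) := by
          field_simp
  have e4 : |L3 p β θ g u - b / 3 * A| ≤ b * (p.l ^ 3 * |T2 p θ P u|) + b * (p.l ^ 3 * |T3 p θ P u|) := by
    rw [hLDE C b ι p β θ g P u hb hs hP hg hu]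
    have e5 : b / 3 * A + b * p.l ^ 3 / 3 * (3 * T2 p θ P u + T3 p θ P u) - b / 3 * A =
        b * (p.l ^ 3 * T2 p θ P u) + b * (p.l ^ 3 * T3 p θ P u) / 3 := by ring
    rw [e5]
    refine (abs_add_le _ _).trans ?_
    have e6 : |b * (p.l ^ 3 * T2 p θ P u)| = b * (p.l ^ 3 * |T2 p θ P u|) := by
      rw [abs_mul, abs_mul, abs_of_pos hb, abs_of_pos (pow_pos hl 3)]
    have e7 : |b * (p.l ^ 3 * T3 p θ P u) / 3| = b * (p.l ^ 3 * |T3 p θ P u|) / 3 := by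
      rw [abs_div, abs_mul, abs_mul, abs_of_pos hb, abs_of_pos (pow_pos hl 3)]
      norm_num
    rw [e6, e7]
    have e8 : 0 ≤ b * (p.l ^ 3 * |T3 p θ P u|) := by positivity
    linarith
  refine e4.trans ?_
  set a1 := Real.sqrt (μ * W * A / p.R ^ 3)
  set a2 := μ ^ 2 * W
  set a3 := Real.sqrt (W * A / p.R ^ 6)
  set a4 := Real.sqrt (p.M * μ ^ 3 / p.R ^ 3) * W
  have p1 : 0 ≤ a1 := Real.sqrt_nonneg _
  have p2 : 0 ≤ a2 := by positivity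
  have p3 : 0 ≤ a3 := Real.sqrt_nonneg _
  have p4 : 0 ≤ a4 := by positivity
  have q1 : b * (p.l ^ 3 * |T2 p θ P u|) ≤ b * ((C₁ * C₂ + 1) * (a1 + a2)) := mul_le_mul_of_nonneg_left e2 hb.le
  have q2 : b * (p.l ^ 3 * |T3 p θ P u|) ≤ b * ((C₃ * C₄ + 1) * (a3 + a4)) := mul_le_mul_of_nonneg_left e3 hb.le
  have q3 : 0 ≤ b * (C₁ * C₂ + 1) * (a3 + a4) := by positivity
  have q4 : 0 ≤ b * (C₃ * C₄ + 1) * (a1 + a2) := by positivity
  calc b * (p.l ^ 3 * |T2 p θ P u|) + b * (p.l ^ 3 * |T3 p θ P u|)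
      ≤ b * ((C₁ * C₂ + 1) * (a1 + a2)) + b * ((C₃ * C₄ + 1) * (a3 + a4)) := add_le_add q1 q2
    _ ≤ (b * (C₁ * C₂ + 1) + b * (C₃ * C₄ + 1)) * (a1 + a2 + a3 + a4) := by nlinarith

end Pool.Agent.TBS
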