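import Pool.Agent.TBS.StmtsB

/-!
# Squad TBS, module LI4: the linear term of four particles
-/

set_option autoImplicit false

open MeasureTheory Filter Topology
open scoped ContDiff

namespace Pool.Agent.TBS

open Pool.Agent.TBG Pool.Agent.TBL Pool.Agent.TBF

namespace LI4_

/-- optimisation -/
lemma opt (P Q E' : ℝ) (hP : 0 ≤ P) (hQ : 0 ≤ Q) (h : ∀ t > 0, E' ≤ (t * P + Q / t) / 2) :
    E' ≤ Real.sqrt (P * Q) := by
  by_cases hE : E' ≤ 0
  · exact hE.trans (Real.sqrt_nonneg _)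
  have hE : 0 < E' := not_le.1 hE
  have h1 : ∀ x : ℝ, 0 ≤ P * (x * x) + (-2 * E') * x + Q := by
    intro x
    by_cases hx : 0 < x
    · have h2 := h x hx
      have h3 : x * E' ≤ x * ((x * P + Q / x) / 2) := mul_le_mul_of_nonneg_left h2 hx.le
      have h4 : x * ((x * P + Q / x) / 2) = (P * (x * x) + Q) / 2 := by
        field_simp
      rw [h4] at h3
      linarith
    · have hx : x ≤ 0 := not_lt.1 hx
      nlinarith [mul_nonneg hP (mul_self_nonneg x), mul_nonneg hE.le (neg_nonneg.2 hx)]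
  have h2 := discrim_le_zero h1
  unfold discrim at h2
  apply Real.le_sqrt_of_sq_le
  nlinarith

section

variable {ι : Type} [Fintype ι] [DecidableEq ι]

lemma bm_prod (hBMC : Pool.Agent.TBL.Stmt_BMC) (q : E → ℝ) (hq : BM q) (T : Finset ι) :
    BM (fun X : ι → E => ∏ i ∈ T, q (X i)) := by
  induction T using Finset.induction_on with
  | empty =>
    simp only [Finset.prod_empty]
    exact hBMC.2.1 (ι → E) 1
  | insert i T hi ih =>
    have h1 : BM (fun X : ι → E => q (X i)) :=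
      hBMC.2.2.2.1 E (ι → E) q (fun X => X i) hq (measurable_pi_apply i)
    have h2 := (hBMC.1 (ι → E) _ _ h1 ih).2.2.1
    have h3 : (fun X : ι → E => ∏ j ∈ insert i T, q (X j)) =
        fun X => q (X i) * ∏ j ∈ T, q (X j) := by
      funext X
      rw [Finset.prod_insert hi]
    rw [h3]
    exact h2

/-- integration over the particles of `T` -/
lemma vol (hBMC : Pool.Agent.TBL.Stmt_BMC) (hPSF : Stmt_PSF) (m n : Measure E)
    [IsProbabilityMeasure m] [IsFiniteMeasure n] (q : E → ℝ) (hq : BM q) (c : ℝ)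
    (hc : ∫ x, q x ∂n = c) (T : Finset ι) : ∀ (S₀ : Finset ι) (F : (ι → E) → ℝ),
    Disjoint T S₀ → BM F → IndS T F →
    ∫ X, (∏ i ∈ T, q (X i)) * F X ∂(PiS m n S₀) = c ^ T.card * ∫ X, F X ∂(PiS m n (T ∪ S₀)) := by
  induction T using Finset.induction_on with
  | empty =>
    intro S₀ F _ _ _
    simp
  | insert i T hi ih =>
    intro S₀ F hd hF hI
    have hiS : i ∉ S₀ := by
      intro h
      exact Finset.disjoint_left.1 hd (Finset.mem_insert_self i T) h
    have hdT : Disjoint T (insert i S₀) := by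
      rw [Finset.disjoint_insert_right]
      exact ⟨hi, Disjoint.mono_left (Finset.subset_insert i T) hd⟩
    have hIT : IndS T F := by
      intro X Y h
      apply hI
      intro j hj
      exact h j (fun h' => hj (Finset.mem_insert_of_mem h'))
    have hG : BM (fun X : ι → E => (∏ j ∈ insert i T, q (X j)) * F X) :=
      (hBMC.1 (ι → E) _ _ (bm_prod hBMC q hq (insert i T)) hF).2.2.1
    rw [((hPSF ι m n S₀).2 _ hG).1 i hiS]
    have h1 : ∀ X : ι → E, (∫ x, (∏ j ∈ insert i T, q (Function.update X i x j)) *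
        F (Function.update X i x) ∂n) = c * ((∏ j ∈ T, q (X j)) * F X) := by
      intro X
      have h2 : ∀ x, (∏ j ∈ insert i T, q (Function.update X i x j)) *
          F (Function.update X i x) = q x * ((∏ j ∈ T, q (X j)) * F X) := by
        intro x
        rw [Finset.prod_insert hi, Function.update_self]
        have h3 : ∏ j ∈ T, q (Function.update X i x j) = ∏ j ∈ T, q (X j) := by
          apply Finset.prod_congr rfl
          intro j hj
          rw [Function.update_of_ne]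
          rintro rfl
          exact hi hj
        have h4 : F (Function.update X i x) = F X := by
          apply hI
          intro j hj
          rw [Function.update_of_ne]
          rintro rfl
          exact hj (Finset.mem_insert_self _ T)
        rw [h3, h4]
        ring
      simp only [h2]
      rw [integral_mul_const, hc]
    simp only [h1]
    rw [integral_const_mul, ih (insert i S₀) F hdT hF hIT, Finset.card_insert_of_notMem hi,
      Finset.union_insert, Finset.insert_union, pow_succ]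
    ring

lemma IO_eq (p : Par) (m : Measure E) (F : (ι → E) → ℝ) :
    IO p F = ∫ X, F X ∂(PiS m (mO p.L) (∅ : Finset ι)) := by
  unfold IO PiS
  simp

lemma ic_01 (Q : Set E) (x : E) : ic Q x = 0 ∨ ic Q x = 1 := by
  unfold ic
  by_cases h : x ∈ Q
  · right; exact Set.indicator_of_mem h _
  · left; exact Set.indicator_of_notMem h _

lemma ic_nn (Q : Set E) (x : E) : 0 ≤ ic Q x := by
  rcases ic_01 Q x with h | h <;> rw [h] <;> norm_num

lemma bm_ic (Q : Set E) (hQ : MeasurableSet Q) : BM (ic Q) := by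
  refine ⟨?_, 1, fun x => ?_⟩
  · have : Measurable (fun x => Q.indicator (fun _ => (1 : ℝ)) x) :=
      measurable_const.indicator hQ
    exact this
  · rcases ic_01 Q x with h | h <;> rw [h] <;> norm_num

lemma norm_coord (x : E) (c : Fin 3) : |x c| ≤ ‖x‖ := by
  have := EuclideanSpace.norm_eq x
  rw [this]
  apply Real.le_sqrt_of_sq_le
  rw [sq_abs]
  have h : x c ^ 2 = ‖x c‖ ^ 2 := by rw [Real.norm_eq_abs, sq_abs]
  rw [h]
  exact Finset.single_le_sum (f := fun i => ‖x i‖ ^ 2) (fun i _ => sq_nonneg _)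
    (Finset.mem_univ c)

/-- the particles of a cluster are in the cube -/
lemma geo (C : ℝ) (p : Par) (β θ : E → E → ℝ) (hS : Sys C p β θ) (hl : 1 ≤ p.l)
    (g : W4 → ℝ) (hg : ∀ q, g q ≠ 0 → ‖q‖ ≤ p.l) (a : E) (e : Fin 4 → ι)
    (he : Function.Injective e) (X : ι → E) (h1 : β a (cen (im e) X) ≠ 0)
    (h2 : g (rl (X ∘ e)) ≠ 0) : ∀ i ∈ im e, X i ∈ Qb a (4 * p.l) := by
  have hb := hS.βsp a _ h1
  have hn := hg _ h2
  have hcard : (im e).card = 4 := by
    unfold im
    rw [Finset.card_image_of_injective _ he, Finset.card_univ, Fintype.card_fin]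
  have hcen : ∀ c, cen (im e) X c =
      (1 / 4 : ℝ) * (X (e 0) c + X (e 1) c + X (e 2) c + X (e 3) c) := by
    intro c
    unfold cen
    rw [hcard]
    have h3 : ∑ i ∈ im e, X i = X (e 0) + X (e 1) + X (e 2) + X (e 3) := by
      unfold im
      rw [Finset.sum_image (fun a _ b _ h => he h), Fin.sum_univ_four]
    rw [h3]
    simp
    ring
  have hn1 : ‖X (e 0) - X (e 1)‖ ≤ p.l := (norm_fst_le (rl (X ∘ e))).trans hn
  have hn2 : ‖X (e 0) - X (e 2)‖ ≤ p.l :=
    (norm_fst_le (rl (X ∘ e)).2).trans ((norm_snd_le (rl (X ∘ e))).trans hn)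
  have hn3 : ‖X (e 0) - X (e 3)‖ ≤ p.l :=
    (norm_snd_le (rl (X ∘ e)).2).trans ((norm_snd_le (rl (X ∘ e))).trans hn)
  intro i hi c
  have hb' := abs_le.1 (hb c)
  rw [hcen] at hb'
  have k1 : |X (e 0) c - X (e 1) c| ≤ p.l := (norm_coord (X (e 0) - X (e 1)) c).trans hn1
  have k2 : |X (e 0) c - X (e 2) c| ≤ p.l := (norm_coord (X (e 0) - X (e 2)) c).trans hn2
  have k3 : |X (e 0) c - X (e 3) c| ≤ p.l := (norm_coord (X (e 0) - X (e 3)) c).trans hn3
  have j1 := abs_le.1 k1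
  have j2 := abs_le.1 k2
  have j3 := abs_le.1 k3
  rw [im, Finset.mem_image] at hi
  obtain ⟨s, -, rfl⟩ := hi
  rw [abs_le]
  fin_cases s
  · constructor
    · show -(4 * p.l) ≤ X (e 0) c - a c
      linarith [hb'.1, hb'.2, j1.1, j1.2, j2.1, j2.2, j3.1, j3.2]
    · show X (e 0) c - a c ≤ 4 * p.l
      linarith [hb'.1, hb'.2, j1.1, j1.2, j2.1, j2.2, j3.1, j3.2]
  · constructor
    · show -(4 * p.l) ≤ X (e 1) c - a c
      linarith [hb'.1, hb'.2, j1.1, j1.2, j2.1, j2.2, j3.1, j3.2]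
    · show X (e 1) c - a c ≤ 4 * p.l
      linarith [hb'.1, hb'.2, j1.1, j1.2, j2.1, j2.2, j3.1, j3.2]
  · constructor
    · show -(4 * p.l) ≤ X (e 2) c - a c
      linarith [hb'.1, hb'.2, j1.1, j1.2, j2.1, j2.2, j3.1, j3.2]
    · show X (e 2) c - a c ≤ 4 * p.l
      linarith [hb'.1, hb'.2, j1.1, j1.2, j2.1, j2.2, j3.1, j3.2]
  · constructor
    · show -(4 * p.l) ≤ X (e 3) c - a c
      linarith [hb'.1, hb'.2, j1.1, j1.2, j2.1, j2.2, j3.1, j3.2]
    · show X (e 3) c - a c ≤ 4 * p.l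
      linarith [hb'.1, hb'.2, j1.1, j1.2, j2.1, j2.2, j3.1, j3.2]

lemma meas_rl (e : Fin 4 → ι) : Measurable (fun X : ι → E => rl (X ∘ e)) := by
  unfold rl
  have h : ∀ s, Measurable (fun X : ι → E => (X ∘ e) s) := fun s => measurable_pi_apply (e s)
  exact ((h 0).sub (h 1)).prodMk (((h 0).sub (h 2)).prodMk ((h 0).sub (h 3)))

lemma meas_cen (S : Finset ι) : Measurable (fun X : ι → E => cen S X) := by
  unfold cen
  have h : Measurable (fun X : ι → E => ∑ i ∈ S, X i) :=
    Finset.measurable_sum S (fun i _ => measurable_pi_apply i)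
  exact h.const_smul ((S.card : ℝ)⁻¹)

/-- the facts about one cube and one tuple -/
structure Loc (C : ℝ) (p : Par) (β θ : E → E → ℝ) (u : (ι → E) → ℝ) (g : W4 → ℝ) (a : E)
    (e : Fin 4 → ι) : Prop where
  bA : BM (Am p θ u a (im e))
  iA : IndS (im e) (Am p θ u a (im e))
  bF : BM (Av (tm (θ a)) (im e) u)
  bv : BM (vt p a (im e))
  bβ : BM (fun X : ι → E => β a (cen (im e) X))
  bg : BM (fun X : ι → E => g (rl (X ∘ e)))
  bp : BM (fun X : ι → E => ∏ i ∈ im e, ic (Qb a (4 * p.l)) (X i))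
  AF : ∀ X, Am p θ u a (im e) X * Av (tm (θ a)) (im e) u X = Am p θ u a (im e) X ^ 2
  pt : ∀ (t : ℝ), 0 < t → ∀ X, |β a (cen (im e) X) * (g (rl (X ∘ e)) *
    (Am p θ u a (im e) X * (u X - Av (tm (θ a)) (im e) u X)))| ≤
    C / p.l ^ 9 * (t / 2 * ((∏ i ∈ im e, ic (Qb a (4 * p.l)) (X i)) * Am p θ u a (im e) X ^ 2) +
      1 / (2 * t) * ((∏ i ∈ im e, ic (Qb a (4 * p.l)) (X i)) *
        (vt p a (im e) X * (u X - Av (tm (θ a)) (im e) u X) ^ 2)))

lemma loc (hBMC : Pool.Agent.TBL.Stmt_BMC) (hMSY : Stmt_MSY) (hAVP : Stmt_AVP)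
    (hVTP : Stmt_VTP) (C : ℝ) (p : Par) (β θ : E → E → ℝ) (u : (ι → E) → ℝ) (g : W4 → ℝ)
    (hS : Sys C p β θ) (hu : BM u) (hg : BM g) (hg1 : ∀ q, g q ≠ 0 → ‖q‖ ≤ p.l)
    (hg2 : ∀ q, p.l ^ 9 * |g q| ≤ C) (a : E) (ha : a ∈ p.Gr) (e : Fin 4 → ι)
    (he : Function.Injective e) : Loc C p β θ u g a e := by
  obtain ⟨hl, -, -, -, hQ, -, hprob, -, -, -, -, -⟩ := hMSY C p β θ hS
  haveI := hprob a
  obtain ⟨bF, iF, -⟩ := hAVP ι (tm (θ a)) (im e) (im e) u u hu hu
  obtain ⟨bv, iv, hv, -⟩ := hVTP ι C p β θ hS a (im e)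
  have hl0 : 0 < p.l := by linarith
  have hC : 0 ≤ C := by
    have := hg2 0
    have h2 : 0 ≤ p.l ^ 9 * |g 0| := by positivity
    linarith
  have bA : BM (Am p θ u a (im e)) := (hBMC.1 (ι → E) _ _ bv bF).2.2.1
  have hβ1 : ∀ x, β a x ≤ 1 := by
    intro x
    exact (Finset.single_le_sum (f := fun a => β a x) (fun a _ => hS.β0 a x) ha).trans
      (hS.β1 x)
  refine ⟨bA, ?_, bF, bv, ?_, ?_, ?_, ?_, ?_⟩
  · intro X Y h
    show vt p a (im e) X * Av (tm (θ a)) (im e) u X = vt p a (im e) Y * Av (tm (θ a)) (im e) u Y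
    rw [iv X Y h, iF X Y h]
  · refine ⟨(hS.βs a).continuous.measurable.comp (meas_cen (im e)), 1, fun X => ?_⟩
    rw [abs_of_nonneg (hS.β0 a _)]
    exact hβ1 _
  · exact hBMC.2.2.2.1 W4 (ι → E) g (fun X => rl (X ∘ e)) hg (meas_rl e)
  · exact bm_prod hBMC _ (bm_ic _ (hQ a (4 * p.l)).1) (im e)
  · intro X
    show vt p a (im e) X * Av (tm (θ a)) (im e) u X * Av (tm (θ a)) (im e) u X =
      (vt p a (im e) X * Av (tm (θ a)) (im e) u X) ^ 2
    rcases (hv X).1 with h | h <;> rw [h] <;> ring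
  · intro t ht X
    set b := β a (cen (im e) X) with hb
    set G := g (rl (X ∘ e)) with hG
    set A := Am p θ u a (im e) X with hA
    set F := Av (tm (θ a)) (im e) u X with hF
    set P := ∏ i ∈ im e, ic (Qb a (4 * p.l)) (X i) with hP
    set V := vt p a (im e) X with hV
    have hP0 : 0 ≤ P := Finset.prod_nonneg (fun i _ => ic_nn _ _)
    have hAV : A = V * F := rfl
    have hV01 : V = 0 ∨ V = 1 := (hv X).1
    have hV0 : 0 ≤ V := by rcases hV01 with h | h <;> rw [h] <;> norm_num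
    have hR : 0 ≤ C / p.l ^ 9 * (t / 2 * (P * A ^ 2) + 1 / (2 * t) * (P * (V * (u X - F) ^ 2))) := by
      positivity
    by_cases h1 : b = 0
    · rw [h1, zero_mul, abs_zero]; exact hR
    by_cases h2 : G = 0
    · rw [h2, zero_mul, mul_zero, abs_zero]; exact hR
    have hP1 : P = 1 := by
      apply Finset.prod_eq_one
      intro i hi
      exact Set.indicator_of_mem (geo C p β θ hS hl g hg1 a e he X h1 h2 i hi) _
    rw [hP1, one_mul, one_mul, abs_mul, abs_mul, abs_mul]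
    have h3 : |b| ≤ 1 := by
      rw [abs_of_nonneg (hS.β0 a _)]
      exact hβ1 _
    have h4 : |G| ≤ C / p.l ^ 9 := by
      rw [le_div_iff₀ (by positivity)]
      linarith [hg2 (rl (X ∘ e))]
    have h5 : |A| * |u X - F| ≤ t / 2 * A ^ 2 + 1 / (2 * t) * (V * (u X - F) ^ 2) := by
      rcases hV01 with h | h
      · rw [hAV, h]
        simp
      · rw [h, one_mul, ← sq_abs A, ← sq_abs (u X - F)]
        have h6 : t / 2 * |A| ^ 2 + 1 / (2 * t) * |u X - F| ^ 2 - |A| * |u X - F| =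
            (t * |A| - |u X - F|) ^ 2 / (2 * t) := by
          field_simp
          ring
        have h7 : 0 ≤ (t * |A| - |u X - F|) ^ 2 / (2 * t) := by positivity
        linarith
    have h8 : 0 ≤ |A| * |u X - F| := by positivity
    calc |b| * (|G| * (|A| * |u X - F|)) ≤ 1 * (C / p.l ^ 9 * (|A| * |u X - F|)) := by
          apply mul_le_mul h3 _ (by positivity) zero_le_one
          exact mul_le_mul_of_nonneg_right h4 h8
      _ ≤ C / p.l ^ 9 * (t / 2 * A ^ 2 + 1 / (2 * t) * (V * (u X - F) ^ 2)) := by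
          rw [one_mul]
          exact mul_le_mul_of_nonneg_left h5 (by positivity)

end

end LI4_

open LI4_ in
theorem li4_proof (hBMC : Pool.Agent.TBL.Stmt_BMC) (hMSY : Stmt_MSY) (hAVP : Stmt_AVP)
    (_hAVI : Stmt_AVI) (hVTP : Stmt_VTP) (hHSF : Stmt_HSF) (_hTUP : Stmt_TUP) (hCLE : Stmt_CLE)
    (hCLI : Stmt_CLI) (hTLW : Stmt_TLW) (hPSF : Stmt_PSF) : Stmt_LI4 := by
  intro C
  obtain ⟨C1, hC1, hTL⟩ := hTLW C 3
  obtain ⟨C2, -, hH⟩ := hHSF C
  refine ⟨|C| / 12 * 8 ^ 6 * Real.sqrt C1 + 1, by positivity, ?_⟩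
  intro ι _ _ p β θ u g hSys hu hg hg1 hg2
  obtain ⟨hl, hfin, -, -, hQ, -, hprob, -, -, hic, -, -⟩ := hMSY C p β θ hSys
  haveI := hfin
  have hl0 : 0 < p.l := by linarith
  have hC : 0 ≤ C := by
    have := hg2 0
    have h2 : 0 ≤ p.l ^ 9 * |g 0| := by positivity
    linarith
  have hLoc : ∀ a ∈ p.Gr, ∀ e ∈ Ij 4 ι, Loc C p β θ u g a e := by
    intro a ha e he
    have he' : Function.Injective e := by
      unfold Ij at he
      exact (Finset.mem_filter.1 he).2
    exact loc hBMC hMSY hAVP hVTP C p β θ u g hSys hu hg hg1 hg2 a ha e he'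
  haveI hfin0 : IsFiniteMeasure (PiS (mO p.L) (mO p.L) (∅ : Finset ι)) := by
    unfold PiS
    simp only [Finset.notMem_empty, if_false]
    infer_instance
  have hint : ∀ F : (ι → E) → ℝ, BM F → Integrable F (PiS (mO p.L) (mO p.L) (∅ : Finset ι)) :=
    fun F hF => (hBMC.1 (ι → E) F F hF hF).2.2.2.2.2.2 _
  have bmul : ∀ F G : (ι → E) → ℝ, BM F → BM G → BM (fun X => F X * G X) :=
    fun F G hF hG => (hBMC.1 (ι → E) F G hF hG).2.2.1
  have bsub : ∀ F G : (ι → E) → ℝ, BM F → BM G → BM (fun X => F X - G X) :=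
    fun F G hF hG => (hBMC.1 (ι → E) F G hF hG).2.1
  have bsq : ∀ F : (ι → E) → ℝ, BM F → BM (fun X => F X ^ 2) :=
    fun F hF => (hBMC.1 (ι → E) F F hF hF).2.2.2.1
  -- the two parts
  set Mn : E → (Fin 4 → ι) → ℝ := fun a e => IO p (fun X => β a (cen (im e) X) *
    (g (rl (X ∘ e)) * Am p θ u a (im e) X ^ 2)) with hMn
  set Er' : E → (Fin 4 → ι) → ℝ := fun a e => IO p (fun X => β a (cen (im e) X) *
    (g (rl (X ∘ e)) * (Am p θ u a (im e) X * (u X - Av (tm (θ a)) (im e) u X)))) with hEr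
  have hterm : ∀ e ∈ Ij 4 ι, IO p (fun X => u X * (hS p β θ u (im e) X * g (rl (X ∘ e)))) =
      ∑ a ∈ p.Gr, (Mn a e + Er' a e) := by
    intro e he
    have h1 : ∀ X, u X * (hS p β θ u (im e) X * g (rl (X ∘ e))) =
        ∑ a ∈ p.Gr, (β a (cen (im e) X) * (g (rl (X ∘ e)) * Am p θ u a (im e) X ^ 2) +
          β a (cen (im e) X) * (g (rl (X ∘ e)) * (Am p θ u a (im e) X *
            (u X - Av (tm (θ a)) (im e) u X)))) := by
      intro X
      unfold hS
      rw [Finset.sum_mul, Finset.mul_sum]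
      apply Finset.sum_congr rfl
      intro a ha
      have := (hLoc a ha e he).AF X
      rw [← this]
      ring
    unfold IO
    simp only [h1]
    rw [integral_finsetSum]
    · apply Finset.sum_congr rfl
      intro a ha
      have L := hLoc a ha e he
      rw [integral_add]
      · rfl
      · exact hint _ (bmul _ _ L.bβ (bmul _ _ L.bg (bsq _ L.bA)))
      · exact hint _ (bmul _ _ L.bβ (bmul _ _ L.bg (bmul _ _ L.bA (bsub _ _ hu L.bF))))
    · intro a ha
      have L := hLoc a ha e he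
      exact (hint _ (bmul _ _ L.bβ (bmul _ _ L.bg (bsq _ L.bA)))).add
        (hint _ (bmul _ _ L.bβ (bmul _ _ L.bg (bmul _ _ L.bA (bsub _ _ hu L.bF)))))
  have hL4 : L4 p β θ g u = 1 / 12 * ∑ e ∈ Ij 4 ι, ∑ a ∈ p.Gr, (Mn a e + Er' a e) := by
    unfold L4 IO
    rw [integral_const_mul, integral_finsetSum]
    · congr 1
      exact Finset.sum_congr rfl hterm
    · intro e he
      have hne : (im e).Nonempty := by
        unfold im
        exact Finset.image_nonempty.2 Finset.univ_nonempty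
      have hh := (hH ι p β θ u (im e) hSys hu hne).1
      have hgb : BM (fun X : ι → E => g (rl (X ∘ e))) :=
        hBMC.2.2.2.1 W4 (ι → E) g (fun X => rl (X ∘ e)) hg (meas_rl e)
      exact hint _ (bmul _ _ hu (bmul _ _ hh hgb))
  -- the main part
  have hmain : ∀ a ∈ p.Gr, ∀ e ∈ Ij 4 ι, Mn a e =
      p.l ^ 3 * (∫ q, g q) * IA p θ a (im e) (fun X => Am p θ u a (im e) X ^ 2) := by
    intro a ha e he
    have L := hLoc a ha e he
    have h1 := hCLE C 3 ι p β θ (fun x => g (rl x)) (fun X => Am p θ u a (im e) X ^ 2) hSys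
      ?_ ?_ ?_ (bsq _ L.bA) a ha e he ?_
    · rw [hMn]
      refine h1.trans ?_
      have h2 := hCLI.2 g 0 1
      have h3 : ∀ z : Fin 3 → E, g (rl ((Fin.cons 0 z : Fin 4 → E) ∘ (1 : Equiv.Perm (Fin 4)))) =
          g (rl (Fin.cons 0 z : Fin 4 → E)) := fun z => rfl
      simp only [h3] at h2
      rw [← h2]
    · refine hBMC.2.2.2.1 W4 (Fin 4 → E) g (fun x => rl x) hg ?_
      unfold rl
      have h : ∀ s, Measurable (fun X : Fin 4 → E => X s) := fun s => measurable_pi_apply s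
      exact ((h 0).sub (h 1)).prodMk (((h 0).sub (h 2)).prodMk ((h 0).sub (h 3)))
    · intro x hx s c
      have hn := hg1 _ hx
      have hn1 : ‖x 0 - x 1‖ ≤ p.l := (norm_fst_le (rl x)).trans hn
      have hn2 : ‖x 0 - x 2‖ ≤ p.l :=
        (norm_fst_le (rl x).2).trans ((norm_snd_le (rl x)).trans hn)
      have hn3 : ‖x 0 - x 3‖ ≤ p.l :=
        (norm_snd_le (rl x).2).trans ((norm_snd_le (rl x)).trans hn)
      rw [abs_sub_comm]
      fin_cases s
      · show |x 0 c - x 0 c| ≤ p.l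
        rw [sub_self, abs_zero]; exact hl0.le
      · exact (norm_coord (x 0 - x 1) c).trans hn1
      · exact (norm_coord (x 0 - x 2) c).trans hn2
      · exact (norm_coord (x 0 - x 3) c).trans hn3
    · intro x v
      show g (rl (fun s => x s + v)) = g (rl x)
      unfold rl
      simp only [add_sub_add_right_eq_sub]
    · intro X Y h
      show Am p θ u a (im e) X ^ 2 = Am p θ u a (im e) Y ^ 2
      rw [L.iA X Y h]
  -- volumes
  have hvol : ∀ a ∈ p.Gr, ∀ e ∈ Ij 4 ι,
      IO p (fun X => (∏ i ∈ im e, ic (Qb a (4 * p.l)) (X i)) * Am p θ u a (im e) X ^ 2) =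
      (8 * p.l) ^ 12 * IA p θ a (im e) (fun X => Am p θ u a (im e) X ^ 2) := by
    intro a ha e he
    have L := hLoc a ha e he
    haveI := hprob a
    have hc : ∫ x, ic (Qb a (4 * p.l)) x ∂(mO p.L) = (8 * p.l) ^ 3 := by
      have h1 := hic a ha (4 * p.l) (fun _ => 1) (by linarith)
      simp only [mul_one] at h1
      rw [h1, setIntegral_const, smul_eq_mul, mul_one, measureReal_def,
        (hQ a (4 * p.l)).2 (by linarith), ENNReal.toReal_ofReal (by positivity)]
      ring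
    have hcard : (im e).card = 4 := by
      have he' : Function.Injective e := by
        unfold Ij at he
        exact (Finset.mem_filter.1 he).2
      unfold im
      rw [Finset.card_image_of_injective _ he', Finset.card_univ, Fintype.card_fin]
    rw [IO_eq p (tm (θ a)), vol hBMC hPSF (tm (θ a)) (mO p.L) (ic (Qb a (4 * p.l)))
      (bm_ic _ (hQ a (4 * p.l)).1) _ hc (im e) ∅ _ (Finset.disjoint_empty_right _)
      (bsq _ L.bA) ?_, hcard, Finset.union_empty]
    · unfold IA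
      ring
    · intro X Y h
      show Am p θ u a (im e) X ^ 2 = Am p θ u a (im e) Y ^ 2
      rw [L.iA X Y h]
  -- the error of one term
  have herr : ∀ t > 0, ∀ a ∈ p.Gr, ∀ e ∈ Ij 4 ι, |Er' a e| ≤
      C / p.l ^ 9 * (t / 2 * ((8 * p.l) ^ 12 *
        IA p θ a (im e) (fun X => Am p θ u a (im e) X ^ 2)) +
      1 / (2 * t) * IO p (fun X => (∏ i ∈ im e, ic (Qb a (4 * p.l)) (X i)) *
        (vt p a (im e) X * (u X - Av (tm (θ a)) (im e) u X) ^ 2))) := by
    intro t ht a ha e he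
    have L := hLoc a ha e he
    have b1 := bmul _ _ L.bp (bsq _ L.bA)
    have b2 := bmul _ _ L.bp (bmul _ _ L.bv (bsq _ (bsub _ _ hu L.bF)))
    rw [← hvol a ha e he, hEr]
    unfold IO
    refine (abs_integral_le_integral_abs).trans ?_
    rw [← integral_const_mul (t / 2), ← integral_const_mul (1 / (2 * t)),
      ← integral_add ((hint _ b1).const_mul _) ((hint _ b2).const_mul _),
      ← integral_const_mul]
    apply integral_mono
    · exact (hint _ (bmul _ _ L.bβ (bmul _ _ L.bg (bmul _ _ L.bA (bsub _ _ hu L.bF))))).abs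
    · exact (((hint _ b1).const_mul _).add ((hint _ b2).const_mul _)).const_mul _
    · intro X
      exact L.pt t ht X
  -- nonnegativity
  have hRW : 0 ≤ RW p θ u := by
    unfold RW
    apply Finset.sum_nonneg
    intro a _
    apply Finset.sum_nonneg
    intro i _
    apply integral_nonneg
    intro X
    have h1 := (hVTP ι C p β θ hSys a {i}).2.2.1 X
    have h2 : 0 ≤ vt p a {i} X := by rcases h1.1 with h | h <;> rw [h] <;> norm_num
    show 0 ≤ vt p a {i} X * ic (Qb a (4 * p.l)) (X i) * _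
    exact mul_nonneg (mul_nonneg h2 (ic_nn _ _)) (sq_nonneg _)
  have hAA : 0 ≤ AA p θ u 4 := by
    unfold AA
    apply mul_nonneg (by positivity)
    apply Finset.sum_nonneg
    intro a _
    apply Finset.sum_nonneg
    intro e _
    apply integral_nonneg
    intro X
    exact sq_nonneg _
  have hM : 0 < p.M := by linarith [hSys.hM]
  set T := ∑ e ∈ Ij 4 ι, ∑ a ∈ p.Gr, Er' a e with hT
  have hdiff : L4 p β θ g u - 1 / 12 * (∫ q, g q) * AA p θ u 4 = 1 / 12 * T := by
    rw [hL4]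
    have h1 : ∑ e ∈ Ij 4 ι, ∑ a ∈ p.Gr, (Mn a e + Er' a e) =
        ∑ e ∈ Ij 4 ι, ∑ a ∈ p.Gr, Mn a e + T := by
      rw [hT, ← Finset.sum_add_distrib]
      apply Finset.sum_congr rfl
      intro e _
      rw [Finset.sum_add_distrib]
    have h2 : ∑ e ∈ Ij 4 ι, ∑ a ∈ p.Gr, Mn a e = (∫ q, g q) * AA p θ u 4 := by
      rw [Finset.sum_comm]
      unfold AA
      rw [Finset.mul_sum, Finset.mul_sum]
      apply Finset.sum_congr rfl
      intro a ha
      rw [Finset.mul_sum, Finset.mul_sum]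
      apply Finset.sum_congr rfl
      intro e he
      rw [hmain a ha e he]
      ring
    rw [h1, h2]
    ring
  have hTb : ∀ t > 0, |T| ≤ (t * (C / p.l ^ 9 * ((8 * p.l) ^ 12 * (AA p θ u 4 / p.l ^ 3))) +
      (C / p.l ^ 9 * (C1 * p.M ^ 3 * RW p θ u)) / t) / 2 := by
    intro t ht
    have h1 : |T| ≤ ∑ a ∈ p.Gr, ∑ e ∈ Ij 4 ι, |Er' a e| := by
      rw [hT, Finset.sum_comm]
      refine (Finset.abs_sum_le_sum_abs _ _).trans ?_
      apply Finset.sum_le_sum
      intro a _
      exact Finset.abs_sum_le_sum_abs _ _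
    have h2 : ∑ a ∈ p.Gr, ∑ e ∈ Ij 4 ι, |Er' a e| ≤ ∑ a ∈ p.Gr, ∑ e ∈ Ij 4 ι,
        C / p.l ^ 9 * (t / 2 * ((8 * p.l) ^ 12 *
          IA p θ a (im e) (fun X => Am p θ u a (im e) X ^ 2)) +
        1 / (2 * t) * IO p (fun X => (∏ i ∈ im e, ic (Qb a (4 * p.l)) (X i)) *
          (vt p a (im e) X * (u X - Av (tm (θ a)) (im e) u X) ^ 2))) := by
      apply Finset.sum_le_sum
      intro a ha
      apply Finset.sum_le_sum
      intro e he
      exact herr t ht a ha e he
    have h3 : ∑ a ∈ p.Gr, ∑ e ∈ Ij 4 ι,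
        C / p.l ^ 9 * (t / 2 * ((8 * p.l) ^ 12 *
          IA p θ a (im e) (fun X => Am p θ u a (im e) X ^ 2)) +
        1 / (2 * t) * IO p (fun X => (∏ i ∈ im e, ic (Qb a (4 * p.l)) (X i)) *
          (vt p a (im e) X * (u X - Av (tm (θ a)) (im e) u X) ^ 2))) =
        C / p.l ^ 9 * (t / 2 * ((8 * p.l) ^ 12 * (AA p θ u 4 / p.l ^ 3)) +
          1 / (2 * t) * ∑ a ∈ p.Gr, ∑ e ∈ Ij 4 ι,
            IO p (fun X => (∏ i ∈ im e, ic (Qb a (4 * p.l)) (X i)) *
              (vt p a (im e) X * (u X - Av (tm (θ a)) (im e) u X) ^ 2))) := by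
      have h4 : AA p θ u 4 / p.l ^ 3 =
          ∑ a ∈ p.Gr, ∑ e ∈ Ij 4 ι, IA p θ a (im e) (fun X => Am p θ u a (im e) X ^ 2) := by
        unfold AA
        rw [mul_div_cancel_left₀ _ (by positivity)]
      rw [h4]
      simp only [Finset.mul_sum, Finset.sum_add_distrib, mul_add]
    have h5 : ∑ a ∈ p.Gr, ∑ e ∈ Ij 4 ι,
        IO p (fun X => (∏ i ∈ im e, ic (Qb a (4 * p.l)) (X i)) *
          (vt p a (im e) X * (u X - Av (tm (θ a)) (im e) u X) ^ 2)) ≤
        C1 * p.M ^ 3 * RW p θ u := by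
      unfold RW
      rw [Finset.mul_sum]
      apply Finset.sum_le_sum
      intro a ha
      exact hTL ι p β θ u hSys hu a ha
    refine h1.trans (h2.trans ?_)
    rw [h3]
    have h6 : 0 ≤ C / p.l ^ 9 := by positivity
    have h7 : C / p.l ^ 9 * (1 / (2 * t) * ∑ a ∈ p.Gr, ∑ e ∈ Ij 4 ι,
            IO p (fun X => (∏ i ∈ im e, ic (Qb a (4 * p.l)) (X i)) *
              (vt p a (im e) X * (u X - Av (tm (θ a)) (im e) u X) ^ 2))) ≤
        C / p.l ^ 9 * (1 / (2 * t) * (C1 * p.M ^ 3 * RW p θ u)) :=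
      mul_le_mul_of_nonneg_left (mul_le_mul_of_nonneg_left h5 (by positivity)) h6
    rw [mul_add]
    refine (add_le_add_right h7 _).trans (le_of_eq ?_)
    field_simp
  have hTs := opt _ _ _ (by positivity) (by positivity) hTb
  have hsq1 : (C * 8 ^ 6 * Real.sqrt C1) ^ 2 = (C * 8 ^ 6) ^ 2 * C1 := by
    rw [mul_pow (C * 8 ^ 6), Real.sq_sqrt hC1.le]
  have hval : (C / p.l ^ 9 * ((8 * p.l) ^ 12 * (AA p θ u 4 / p.l ^ 3))) *
      (C / p.l ^ 9 * (C1 * p.M ^ 3 * RW p θ u)) =
      (C * 8 ^ 6 * Real.sqrt C1) ^ 2 * (AA p θ u 4 * ((p.M / p.l ^ 3) ^ 3 * RW p θ u)) := by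
    rw [hsq1]
    field_simp
  rw [hval, Real.sqrt_mul (sq_nonneg _), Real.sqrt_sq (by positivity)] at hTs
  rw [hdiff, abs_mul, abs_of_pos (by norm_num : (0 : ℝ) < 1 / 12), abs_of_nonneg hC]
  have hs : 0 ≤ Real.sqrt (AA p θ u 4 * ((p.M / p.l ^ 3) ^ 3 * RW p θ u)) := Real.sqrt_nonneg _
  nlinarith

end Pool.Agent.TBS
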