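import Pool.Agent.TBS.StmtsC

/-!
# Squad TBS: module LOE (the sharp lower bound)
-/

set_option autoImplicit false

open MeasureTheory Filter Topology
open scoped ContDiff

namespace Pool.Agent.TBS

open Pool.Agent.TBG Pool.Agent.TBL Pool.Agent.TBF

theorem loe_proof (hDTX : Stmt_DTX) (hDEC : Stmt_DEC) (hIOB : Stmt_IOB) (hLBN : Stmt_LBN)
    (hLBT : Stmt_LBT) (hOB2 : Pool.Agent.TBF.Stmt_OB2) (hOB3 : Pool.Agent.TBF.Stmt_OB3)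
    (hPLS : Pool.Agent.TBF.Stmt_PLS) (hDIL : Pool.Agent.TBF.Stmt_DIL)
    (hADM : Pool.Agent.TBG.Stmt_ADM) (hSCA : Pool.Agent.TBL.Stmt_SCA) : Stmt_LOE := by
  intro lam B' h0 h1 hB'
  obtain ⟨hS, hww, -, -⟩ := hPLS lam h0 h1
  obtain ⟨hA1, hA2, -⟩ := hADM (pl lam) hS
  have hw : 0 < ∫ z, ww (pl lam) z := by
    obtain ⟨-, h2, h3⟩ := hSCA
    have h4 : ∀ z, ww (pl lam) z = lam * ww phi0 z := fun z => by rw [hww z, h2 z]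
    rw [integral_congr_ae (Filter.Eventually.of_forall h4), integral_const_mul]
    exact mul_pos h0 h3
  obtain ⟨_, _, hneg⟩ := hOB3
  have hb4 : b4 (pl lam) < 0 := (hneg lam h0 h1).2.2
  obtain ⟨B, hB1, hB2⟩ := exists_between hB'
  obtain ⟨y, r₀, C₀, hy1, hy2, -, hdua⟩ := hOB2 (pl lam) hS (hDIL lam h0 h1) (b4 (pl lam) - B)
    (by linarith)
  have hdua' : ∀ l, r₀ ≤ l → ∃ (Y : Fin 4 → Fin 3 → W4 → ℝ) (g : W4 → ℝ),
      Dua (pl lam) y l C₀ Y g ∧ B ≤ bet (pl lam) y Y g := by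
    intro l hl
    obtain ⟨Y, g, h2, h3⟩ := hdua l hl
    exact ⟨Y, g, h2, by linarith⟩
  obtain ⟨C, r₁, hC, hr₁, hdat⟩ := hDTX (pl lam) y B C₀ r₀ hS hw hy1 hy2 hdua'
  obtain ⟨c₀, n₀, d₀, l₀, hc₀, hn₀, hd₀, hl₀, hdec⟩ := hDEC lam h0 h1
  have hDec : Dec (VV (pl lam)) c₀ (max (max n₀ l₀) (1 / d₀)) := by
    intro l n₁ h2 h3 h4 J _ _ h5
    refine hdec J l n₁ ?_ ?_ ?_ h5
    · exact ((le_max_right _ _).trans (le_max_left _ _)).trans h2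
    · exact ((le_max_left _ _).trans (le_max_left _ _)).trans h3
    · have h6 : 1 / d₀ * (n₁ : ℝ) ≤ l ^ 2 :=
        (mul_le_mul_of_nonneg_right (le_max_right _ _) (Nat.cast_nonneg _)).trans h4
      calc (n₁ : ℝ) = d₀ * (1 / d₀ * (n₁ : ℝ)) := by field_simp
        _ ≤ d₀ * l ^ 2 := mul_le_mul_of_nonneg_left h6 hd₀.le
  have hmax : 0 < max (max n₀ l₀) (1 / d₀) := lt_max_of_lt_right (by positivity)
  obtain ⟨s₀, C₂, hs₀, hC₂, hmain⟩ := hLBN (pl lam) y B c₀ (max (max n₀ l₀) (1 / d₀)) C r₁ hS hw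
    hy1 hy2 hA1 (by linarith) hc₀ hmax hDec hC hr₁ hdat
  refine hLBT (VV (pl lam)) (∫ z, ww (pl lam) z) B B' C₂ s₀ hA1 hA2 hw hB1 (by linarith) hs₀ hC₂ ?_
  intro s l Mc N h2 h3 h4 h5
  have hs : 0 < s := by linarith
  have hl : 0 < l := lt_of_lt_of_le (by positivity) h3
  have hMc : (0 : ℝ) < Mc := Nat.cast_pos.2 h5
  have key := hIOB N (⟨Mc * l, l, 0, 0, ∅, ∅⟩ : Par) (VV (pl lam))
    (((∫ z, ww (pl lam) z) / 2 * (1 / s ^ 200) ^ 2 + B / 6 * (1 / s ^ 200) ^ 3) * (N : ℝ)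
      - ((∫ z, ww (pl lam) z) / 3 * (1 / s ^ 200) ^ 3 + B / 8 * (1 / s ^ 200) ^ 4) * (Mc * l) ^ 3
      - C₂ * ((1 / s ^ 200) ^ 3 * l * (Mc * l) ^ 2 + (Mc * l) ^ 3 / s ^ 808 + (N : ℝ) / s ^ 605))
    (mul_pos hMc hl) ?_
  · exact key
  · intro u hu
    have h6 := hmain s l Mc (Fin N) u (⟨Mc * l, l, 0, 0, ∅, ∅⟩ : Par) h2 h3 h4 h5 rfl hu
    rw [Fintype.card_fin] at h6
    exact h6

end Pool.Agent.TBS
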