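import Pool.Agent.TBS.StmtsB

/-!
# Three-body Bose gases (MP_80dc41_mp), sharp lower bound: module MNB (the main bound)
-/

set_option autoImplicit false

open MeasureTheory Filter Topology
open scoped ContDiff

namespace Pool.Agent.TBS

open Pool.Agent.TBG Pool.Agent.TBL Pool.Agent.TBF

namespace MNB_

section

variable {ι : Type} [Fintype ι] [DecidableEq ι]

theorem fin_PiS (m n : Measure E) [IsFiniteMeasure m] [IsFiniteMeasure n] (S : Finset ι) :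
    IsFiniteMeasure (PiS m n S) := by
  unfold PiS
  have : ∀ i : ι, IsFiniteMeasure (if i ∈ S then m else n) := by
    intro i
    split_ifs <;> infer_instance
  infer_instance

omit [DecidableEq ι] in
theorem bm_CU {u : (ι → E) → ℝ} (hu : CU u) : BM u := by
  refine ⟨hu.1.continuous.measurable, ?_⟩
  obtain ⟨C, hC⟩ := hu.1.continuous.bounded_above_of_compact_support hu.2
  exact ⟨C, fun X => by have := hC X; rwa [Real.norm_eq_abs] at this⟩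

theorem ic_nonneg (Q : Set E) (x : E) : 0 ≤ ic Q x := by
  unfold ic
  exact Set.indicator_nonneg (fun _ _ => zero_le_one) x

theorem vt_nonneg (p : Par) (a : E) (S : Finset ι) (X : ι → E) : 0 ≤ vt p a S X := by
  unfold vt
  split_ifs <;> norm_num

theorem pz_nonneg (p : Par) (a : E) (S : Finset ι) (X : ι → E) : 0 ≤ pz p a S X := by
  unfold pz
  split_ifs <;> norm_num

theorem RW_nonneg (p : Par) (θ : E → E → ℝ) (u : (ι → E) → ℝ) : 0 ≤ RW p θ u := by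
  unfold RW IO
  refine Finset.sum_nonneg fun a _ => Finset.sum_nonneg fun i _ => integral_nonneg fun X => ?_
  exact mul_nonneg (mul_nonneg (vt_nonneg _ _ _ _) (ic_nonneg _ _)) (sq_nonneg _)

theorem PZ_nonneg (p : Par) (θ : E → E → ℝ) (u : (ι → E) → ℝ) (hl : 0 ≤ p.l) : 0 ≤ PZ p θ u := by
  unfold PZ IA
  refine mul_nonneg (by positivity) ?_
  refine Finset.sum_nonneg fun a _ => Finset.sum_nonneg fun i _ => integral_nonneg fun X => ?_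
  exact mul_nonneg (pz_nonneg _ _ _ _) (sq_nonneg _)

theorem XX_nonneg (p : Par) (β θ : E → E → ℝ) (τ : E × E → ℝ) (Y : Fin 4 → Fin 3 → W4 → ℝ)
    (u : (ι → E) → ℝ) : 0 ≤ XX p β θ τ Y u := by
  unfold XX IO
  refine integral_nonneg fun X => ?_
  exact Finset.sum_nonneg fun i _ => Finset.sum_nonneg fun c _ => sq_nonneg _

/-- bounded measurable functions with bounded support are integrable -/
theorem int_of_bm {f : W4 → ℝ} (hf : BM f) (l : ℝ) (hs : ∀ q, f q ≠ 0 → ‖q‖ ≤ l) : Integrable f := by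
  obtain ⟨hm, K, hK⟩ := hf
  have h1 : IntegrableOn f (Metric.closedBall (0 : W4) l) volume := by
    refine Measure.integrableOn_of_bounded (M := K) ?_ hm.aestronglyMeasurable ?_
    · exact (isCompact_closedBall (0 : W4) l).measure_lt_top.ne
    · exact Eventually.of_forall fun q => by rw [Real.norm_eq_abs]; exact hK q
  refine (integrableOn_iff_integrable_of_support_subset ?_).1 h1
  intro q hq
  rw [mem_closedBall_zero_iff]
  exact hs q hq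

/-- expansion of the quadratic kinetic term -/
theorem QK_eq (hBMC : Pool.Agent.TBL.Stmt_BMC) (p : Par) (β θ : E → E → ℝ) (τ : E × E → ℝ)
    (Y : Fin 4 → Fin 3 → W4 → ℝ) (u : (ι → E) → ℝ)
    (hfin : IsFiniteMeasure (PiS (mO p.L) (mO p.L) (∅ : Finset ι)))
    (ha : ∀ i c, BM (aF p β θ τ u i c)) (hb : ∀ i c, BM (bF p β θ Y u i c)) :
    QK p β θ τ Y u = IO p (fun X => ∑ i, ∑ c, aF p β θ τ u i c X ^ 2)
      - 2 * IO p (fun X => ∑ i, ∑ c, aF p β θ τ u i c X * bF p β θ Y u i c X)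
      + IO p (fun X => ∑ i, ∑ c, bF p β θ Y u i c X ^ 2) := by
  have sumI : ∀ F : ι → Fin 3 → (ι → E) → ℝ, (∀ i c, BM (F i c)) →
      Integrable (fun X => ∑ i, ∑ c, F i c X) (PiS (mO p.L) (mO p.L) (∅ : Finset ι)) := by
    intro F hF
    have h1 : BM (fun X => ∑ i, ∑ c, F i c X) := by
      refine hBMC.2.2.1 _ _ Finset.univ (fun i X => ∑ c, F i c X) fun i _ => ?_
      exact hBMC.2.2.1 _ _ Finset.univ (fun c X => F i c X) fun c _ => hF i c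
    exact (hBMC.1 _ _ _ h1 h1).2.2.2.2.2.2 _
  have i1 := sumI (fun i c X => aF p β θ τ u i c X ^ 2) fun i c => (hBMC.1 _ _ _ (ha i c) (ha i c)).2.2.2.1
  have i2 := sumI (fun i c X => aF p β θ τ u i c X * bF p β θ Y u i c X) fun i c =>
    (hBMC.1 _ _ _ (ha i c) (hb i c)).2.2.1
  have i3 := sumI (fun i c X => bF p β θ Y u i c X ^ 2) fun i c => (hBMC.1 _ _ _ (hb i c) (hb i c)).2.2.2.1
  have i12 : Integrable (fun X => ∑ i, ∑ c, aF p β θ τ u i c X ^ 2 -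
      2 * ∑ i, ∑ c, aF p β θ τ u i c X * bF p β θ Y u i c X) (PiS (mO p.L) (mO p.L) (∅ : Finset ι)) :=
    i1.sub (i2.const_mul 2)
  have e0 : QK p β θ τ Y u = ∫ X, ((∑ i, ∑ c, aF p β θ τ u i c X ^ 2 -
      2 * ∑ i, ∑ c, aF p β θ τ u i c X * bF p β θ Y u i c X) + ∑ i, ∑ c, bF p β θ Y u i c X ^ 2)
      ∂(PiS (mO p.L) (mO p.L) (∅ : Finset ι)) := by
    unfold QK IO
    refine integral_congr_ae (Eventually.of_forall fun X => ?_)
    show ∑ i, ∑ c, (aF p β θ τ u i c X - bF p β θ Y u i c X) ^ 2 =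
      ∑ i, ∑ c, aF p β θ τ u i c X ^ 2 - 2 * ∑ i, ∑ c, aF p β θ τ u i c X * bF p β θ Y u i c X +
        ∑ i, ∑ c, bF p β θ Y u i c X ^ 2
    simp only [Finset.mul_sum, ← Finset.sum_sub_distrib, ← Finset.sum_add_distrib]
    refine Finset.sum_congr rfl fun i _ => Finset.sum_congr rfl fun c _ => ?_
    ring
  rw [e0, integral_add i12 i3, integral_sub i1 (i2.const_mul 2), integral_const_mul]
  rfl

end

/-- the four-body kernel: bound by the five kernels -/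
theorem k4_le (φ τ : E × E → ℝ) (y : W4 → ℝ) (Y : Fin 4 → Fin 3 → W4 → ℝ) (hw : ∀ z, 0 ≤ ww φ z)
    (hV : ∀ x y, 0 ≤ VV φ x y) (q : W4) : |k4 φ τ y Y q| ≤ ∑ n, k5 φ τ y Y n q := by
  have e1 : |∑ c, dv (dr 0 c) τ (q.1, q.2.1) * dv (dr 0 c) τ (q.1, q.2.2)| ≤ k5 φ τ y Y 0 q := by
    refine (Finset.abs_sum_le_sum_abs _ _).trans (le_of_eq ?_)
    exact Finset.sum_congr rfl fun c _ => abs_mul _ _
  have e2 : |∑ c, dv (dr 0 c) τ (q.1, q.2.1) * Y 0 c q| ≤ k5 φ τ y Y 1 q := by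
    refine (Finset.abs_sum_le_sum_abs _ _).trans (le_of_eq ?_)
    exact Finset.sum_congr rfl fun c _ => abs_mul _ _
  have e3 : 0 ≤ ∑ c, Y 0 c q ^ 2 := Finset.sum_nonneg fun c _ => sq_nonneg _
  have e3' : ∑ c, Y 0 c q ^ 2 = k5 φ τ y Y 2 q := rfl
  have e4 : |ww φ (q.1, q.2.1) * y q| = k5 φ τ y Y 3 q := by
    rw [abs_mul, abs_of_nonneg (hw _)]
    rfl
  have e5 : 0 ≤ VV φ q.1 q.2.1 * y q ^ 2 := mul_nonneg (hV _ _) (sq_nonneg _)
  have e5' : VV φ q.1 q.2.1 * y q ^ 2 = k5 φ τ y Y 4 q := rfl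
  have e40 : 0 ≤ k5 φ τ y Y 3 q := by rw [← e4]; exact abs_nonneg _
  have hs : ∑ n, k5 φ τ y Y n q = k5 φ τ y Y 0 q + k5 φ τ y Y 1 q + k5 φ τ y Y 2 q + k5 φ τ y Y 3 q
      + k5 φ τ y Y 4 q := by
    rw [Fin.sum_univ_five]
  have e4a := abs_le.1 (le_of_eq e4)
  have e1a := abs_le.1 e1
  have e2a := abs_le.1 e2
  rw [hs, abs_le]
  unfold k4
  constructor <;> linarith [e4a.1, e4a.2, e1a.1, e1a.2, e2a.1, e2a.2]

theorem k4_bm (hBMC : Pool.Agent.TBL.Stmt_BMC) (φ τ : E × E → ℝ) (y : W4 → ℝ) (Y : Fin 4 → Fin 3 → W4 → ℝ)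
    (h1 : ∀ m c, BM (dv (dr m c) τ)) (h2 : ∀ m c, BM (Y m c)) (h3 : BM (ww φ)) (h4 : BM y)
    (h5 : BM (fun z : E × E => VV φ z.1 z.2)) : BM (k4 φ τ y Y) := by
  have mul := fun (F G : W4 → ℝ) (hF : BM F) (hG : BM G) => (hBMC.1 _ F G hF hG).2.2.1
  have add := fun (F G : W4 → ℝ) (hF : BM F) (hG : BM G) => (hBMC.1 _ F G hF hG).1
  have sub := fun (F G : W4 → ℝ) (hF : BM F) (hG : BM G) => (hBMC.1 _ F G hF hG).2.1
  have sq := fun (F : W4 → ℝ) (hF : BM F) => (hBMC.1 _ F F hF hF).2.2.2.1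
  have smul := fun (a : ℝ) (F : W4 → ℝ) (hF : BM F) => (hBMC.1 _ F F hF hF).2.2.2.2.2.1 a
  have sum := fun (F : Fin 3 → W4 → ℝ) (hF : ∀ c, BM (F c)) => hBMC.2.2.1 _ _ Finset.univ F fun c _ => hF c
  have comp := fun (F : E × E → ℝ) (f : W4 → E × E) (hF : BM F) (hf : Measurable f) =>
    hBMC.2.2.2.1 _ _ F f hF hf
  have m1 : Measurable (fun q : W4 => (q.1, q.2.1)) := by fun_prop
  have m2 : Measurable (fun q : W4 => (q.1, q.2.2)) := by fun_prop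
  have a1 : ∀ c, BM (fun q : W4 => dv (dr 0 c) τ (q.1, q.2.1)) := fun c => comp _ _ (h1 0 c) m1
  have a2 : ∀ c, BM (fun q : W4 => dv (dr 0 c) τ (q.1, q.2.2)) := fun c => comp _ _ (h1 0 c) m2
  have b1 : BM (fun q : W4 => ∑ c, dv (dr 0 c) τ (q.1, q.2.1) * dv (dr 0 c) τ (q.1, q.2.2)) :=
    sum (fun c q => dv (dr 0 c) τ (q.1, q.2.1) * dv (dr 0 c) τ (q.1, q.2.2)) fun c => mul _ _ (a1 c) (a2 c)
  have b2 : BM (fun q : W4 => ∑ c, dv (dr 0 c) τ (q.1, q.2.1) * Y 0 c q) :=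
    sum (fun c q => dv (dr 0 c) τ (q.1, q.2.1) * Y 0 c q) fun c => mul _ _ (a1 c) (h2 0 c)
  have b3 : BM (fun q : W4 => ∑ c, Y 0 c q ^ 2) := sum (fun c q => Y 0 c q ^ 2) fun c => sq _ (h2 0 c)
  have b4 : BM (fun q : W4 => ww φ (q.1, q.2.1) * y q) := mul _ _ (comp _ _ h3 m1) h4
  have b5a : BM (fun q : W4 => VV φ q.1 q.2.1) := comp (fun z : E × E => VV φ z.1 z.2) (fun q : W4 => (q.1, q.2.1)) h5 m1
  have b5b : BM (fun q : W4 => y q ^ 2) := sq _ h4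
  have b5 : BM (fun q : W4 => VV φ q.1 q.2.1 * y q ^ 2) := mul (fun q => VV φ q.1 q.2.1) (fun q => y q ^ 2) b5a b5b
  have c1 : BM (fun q : W4 => (∑ c, dv (dr 0 c) τ (q.1, q.2.1) * dv (dr 0 c) τ (q.1, q.2.2))
      - (∑ c, dv (dr 0 c) τ (q.1, q.2.1) * Y 0 c q)) := sub _ _ b1 b2
  have c3 : BM (fun q : W4 => 1 / 6 * (∑ c, Y 0 c q ^ 2)) := smul (1 / 6) _ b3
  have c4 : BM (fun q : W4 => 1 / 3 * (ww φ (q.1, q.2.1) * y q)) := smul (1 / 3) _ b4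
  have c5 : BM (fun q : W4 => 1 / 6 * (VV φ q.1 q.2.1 * y q ^ 2)) := smul (1 / 6) _ b5
  have d1 := add _ _ c1 c3
  have d2 := add _ _ d1 c4
  have d3 := add _ _ d2 c5
  have e : k4 φ τ y Y = fun q : W4 => (∑ c, dv (dr 0 c) τ (q.1, q.2.1) * dv (dr 0 c) τ (q.1, q.2.2))
      - (∑ c, dv (dr 0 c) τ (q.1, q.2.1) * Y 0 c q) + 1 / 6 * (∑ c, Y 0 c q ^ 2)
      + 1 / 3 * (ww φ (q.1, q.2.1) * y q) + 1 / 6 * (VV φ q.1 q.2.1 * y q ^ 2) := by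
    funext q
    unfold k4
    rfl
  rw [e]
  exact d3

end MNB_

open MNB_ in
theorem mnb_proof (hKBM : Stmt_KBM) (_hHSF : Stmt_HSF) (hBBD : Stmt_BBD) (_hTUP : Stmt_TUP) (hIDN : Stmt_IDN)
    (hLI3 : Stmt_LI3) (hRB1 : Stmt_RB1) (hRB2 : Stmt_RB2) (hRB3 : Stmt_RB3) (hQK1 : Stmt_QK1) (hQK2 : Stmt_QK2)
    (hQK3 : Stmt_QK3) (hQV1 : Stmt_QV1) (hDIA : Stmt_DIA) (hR4A : Stmt_R4A) (hHQ2 : Stmt_HQ2) (hLI4 : Stmt_LI4)
    (hBMC : Pool.Agent.TBL.Stmt_BMC) (hMSY : Stmt_MSY) (hL3I : Stmt_L3I) (hL4I : Stmt_L4I) : Stmt_MNB := by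
  intro C φ y hφ hb hy _hsy
  obtain ⟨c3, hc3, LI3⟩ := hLI3 C (∫ z, ww φ z) hb
  obtain ⟨c4, hc4, LI4⟩ := hLI4 C
  obtain ⟨q1, hq1, QK1⟩ := hQK1 C
  obtain ⟨q2, hq2, QK2⟩ := hQK2 C
  obtain ⟨q3, hq3, QK3⟩ := hQK3 C
  obtain ⟨qv, hqv, QV1⟩ := hQV1 C φ y hφ hy
  obtain ⟨ra, hra, R4A⟩ := hR4A C
  obtain ⟨h2, hh2, HQ2⟩ := hHQ2 C
  obtain ⟨r1, hr1, RB1⟩ := hRB1 C
  obtain ⟨r2, hr2, RB2⟩ := hRB2 C
  obtain ⟨r3, hr3, RB3⟩ := hRB3 C
  obtain ⟨_, _, BBD3⟩ := hBBD C 3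
  obtain ⟨_, _, BBD4⟩ := hBBD C 4
  obtain ⟨R0, hR0⟩ := hφ.supp
  have hp1 : 0 ≤ h2 * (5 * |C|) := by positivity
  have hp2 : 0 ≤ r1 * r2 := by positivity
  have hp3 : 0 ≤ r1 * r3 := by positivity
  refine ⟨c3 + c4 + q1 + 2 * q2 + q3 + qv + ra + h2 * (5 * |C|) + |C| + (r1 + r1 * r2 + r1 * r3) + |R0| + 1,
    by positivity, ?_⟩
  intro ι _ _ p β θ P τ g Y g₄ u D hu hlC
  set K := c3 + c4 + q1 + 2 * q2 + q3 + qv + ra + h2 * (5 * |C|) + |C| + (r1 + r1 * r2 + r1 * r3) + |R0| + 1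
    with hK
  have hCabs : 0 ≤ |C| := abs_nonneg C
  have hRabs : 0 ≤ |R0| := abs_nonneg R0
  have hbu := bm_CU hu
  have hS := D.sys
  obtain ⟨hl1, hfin, _⟩ := hMSY C p β θ hS
  have := hfin
  have hfinP : IsFiniteMeasure (PiS (mO p.L) (mO p.L) (∅ : Finset ι)) := fin_PiS _ _ _
  have hl : 0 < p.l := by linarith
  have hR : 0 < p.R := by linarith [hS.hR]
  have hM : 0 < p.M := by linarith [hS.hM]
  obtain ⟨kτ, kg, kφ, kw, kL, kgs, kV, kdv, kwV, kw0, kV0, _, _⟩ := hKBM.1 C p.R φ τ g hφ D.tri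
  obtain ⟨kg4, ky, _, kY, _, _⟩ := hKBM.2.1 C p.l φ y Y g₄ hφ hy D.dua
  -- nonnegative quantities
  obtain ⟨A30, _, G30, _⟩ := BBD3 ι p β θ u hS hbu
  obtain ⟨A40, _, G40, _⟩ := BBD4 ι p β θ u hS hbu
  have hRW := RW_nonneg p θ u
  have hPZ := PZ_nonneg p θ u hl.le
  have hXX := XX_nonneg p β θ τ Y u
  set A3 := AA p θ u 3 with hA3
  set A4 := AA p θ u 4 with hA4
  have hD4 : 0 ≤ D4 p θ u := by
    unfold D4
    rw [← hA4]
    positivity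
  have hE33 : 0 ≤ E33 p θ u := by
    unfold E33
    rw [← hA3]
    positivity
  have hE34 : 0 ≤ E34 p θ u := by
    unfold E34
    positivity
  have hE44 : 0 ≤ E44 p θ u := by
    unfold E44
    rw [← hA4]
    positivity
  have hMl : 0 ≤ p.M / p.l ^ 3 := by positivity
  -- the statements
  have hww : ∀ z, ww φ z ≠ 0 → ‖z‖ ≤ p.l := by
    intro z hz
    by_contra hcon
    push Not at hcon
    refine hz ?_
    have h5 : R0 < ‖z‖ := by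
      have : R0 ≤ |R0| := le_abs_self _
      linarith
    unfold ww
    rw [hR0 z h5, neg_zero]
  have IDN := hIDN C ι p β θ φ τ g y Y g₄ u hS hu hφ D.tri hy D.dua
  have L3 := LI3 ι p β θ g P u hS D.trp kg hbu
  have L4 := LI4 ι p β θ u g₄ hS hbu kg4 (fun q hq => by
    by_contra hcon
    exact hq (D.dua.spg q (not_le.1 hcon))) D.dua.bdg
  have Q1 := QK1 ι p β θ φ τ g y Y u hS hu hφ D.tri D.kf
  have Q2 := QK2 ι p β θ φ τ g y Y g₄ u hS hu hφ D.tri hy D.dua D.kf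
  have Q3 := QK3 ι p β θ φ τ y Y g₄ u hS hu hφ hy D.dua D.kf
  have QV := QV1 ι p β θ u (by linarith) hS hu
  have DIA := hDIA C ι p β θ φ τ g u hS hu hφ hww D.tri
  have R4 := R4A ι p β θ φ τ g y Y g₄ u hS hu hφ D.tri hy D.dua D.kf
  have hk4le := k4_le φ τ y Y kw0 kV0
  have hk4s : ∀ q, k4 φ τ y Y q ≠ 0 → ‖q‖ ≤ p.l := by
    intro q hq
    by_contra hcon
    have h5 : ∑ n, k5 φ τ y Y n q = 0 := Finset.sum_eq_zero fun n _ => by
      by_contra h6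
      exact hcon (D.kf.k5s n q h6)
    have h7 := hk4le q
    rw [h5] at h7
    exact hq (abs_nonpos_iff.1 h7)
  have hk4b := k4_bm hBMC φ τ y Y kdv kY kw ky kV
  have HQ := HQ2 ι p β θ u (k4 φ τ y Y) hS hbu hk4b hk4s
  have hk4i : ∫ q, |k4 φ τ y Y q| ≤ 5 * C := by
    have i5 : ∀ n, Integrable (k5 φ τ y Y n) := fun n => int_of_bm (D.kf.k5b n) p.l (D.kf.k5s n)
    have i4 : Integrable (k4 φ τ y Y) := int_of_bm hk4b p.l hk4s
    calc ∫ q, |k4 φ τ y Y q| ≤ ∫ q, ∑ n, k5 φ τ y Y n q :=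
          integral_mono i4.abs (integrable_finsetSum _ fun n _ => i5 n) hk4le
      _ = ∑ n, ∫ q, k5 φ τ y Y n q := integral_finsetSum _ fun n _ => i5 n
      _ ≤ ∑ _n : Fin 5, C := Finset.sum_le_sum fun n _ => D.kf.k5m n
      _ = 5 * C := by simp
  have haF := (hL3I C ι p β θ φ τ g u hS hu hφ D.tri).1
  have hbF := (hL4I C ι p β θ φ y Y g₄ u hS hu hφ hy D.dua).1
  have QKe := QK_eq hBMC p β θ τ Y u hfinP haF hbF
  have B1 := RB1 ι p β θ φ τ g y Y g₄ u hS hu hφ D.tri hy D.dua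
  have B2' := RB2 ι p β θ φ τ g y Y u hS hu hφ D.tri D.kf
  have B3 := RB3 ι p β θ φ τ y Y g₄ u hS hu hφ hy D.dua D.kf
  have cst := D.cst
  constructor
  · -- the first bound
    have t1 : 0 ≤ Real.sqrt (p.M / p.l ^ 3 * RW p θ u * A3 / p.R ^ 3) := Real.sqrt_nonneg _
    have t2 : 0 ≤ (p.M / p.l ^ 3) ^ 2 * RW p θ u := by positivity
    have t3 : 0 ≤ Real.sqrt (RW p θ u * A3 / p.R ^ 6) := Real.sqrt_nonneg _
    have t4 : 0 ≤ Real.sqrt (p.M * (p.M / p.l ^ 3) ^ 3 / p.R ^ 3) * RW p θ u := by positivity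
    have t5 : 0 ≤ Real.sqrt (A4 * ((p.M / p.l ^ 3) ^ 3 * RW p θ u)) := Real.sqrt_nonneg _
    have t6 : 0 ≤ p.M / p.l ^ 3 * A4 := by positivity
    have t7 : 0 ≤ Real.sqrt (A4 * D4 p θ u) := Real.sqrt_nonneg _
    have t8 : 0 ≤ (p.M / p.l ^ 3) ^ 3 * RW p θ u + PZ p θ u := by positivity
    have t9 : 0 ≤ A4 / p.R := by positivity
    have hEr : Er p θ u = Real.sqrt (p.M / p.l ^ 3 * RW p θ u * A3 / p.R ^ 3) + (p.M / p.l ^ 3) ^ 2 * RW p θ u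
        + Real.sqrt (RW p θ u * A3 / p.R ^ 6) + Real.sqrt (p.M * (p.M / p.l ^ 3) ^ 3 / p.R ^ 3) * RW p θ u
        + Real.sqrt (A4 * ((p.M / p.l ^ 3) ^ 3 * RW p θ u)) + E33 p θ u + E34 p θ u + E44 p θ u
        + p.M / p.l ^ 3 * A4 + Real.sqrt (A4 * D4 p θ u) + D4 p θ u
        + ((p.M / p.l ^ 3) ^ 3 * RW p θ u + PZ p θ u) + A4 / p.R := rfl
    rw [hEr, IDN, QKe]
    have L3a := (abs_le.1 L3).1
    have L4a := (abs_le.1 L4).1
    have Q1a := (abs_le.1 Q1).2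
    have Q2a := (abs_le.1 Q2).1
    have Q3a := (abs_le.1 Q3).2
    have QVa := (abs_le.1 QV).2
    have R4a := (abs_le.1 R4).2
    have HQa := (abs_le.1 HQ).2
    have csta := (abs_le.1 cst).1
    -- the constants
    have k1 : c3 * (Real.sqrt (p.M / p.l ^ 3 * RW p θ u * A3 / p.R ^ 3) + (p.M / p.l ^ 3) ^ 2 * RW p θ u
        + Real.sqrt (RW p θ u * A3 / p.R ^ 6) + Real.sqrt (p.M * (p.M / p.l ^ 3) ^ 3 / p.R ^ 3) * RW p θ u) ≤
        K * (Real.sqrt (p.M / p.l ^ 3 * RW p θ u * A3 / p.R ^ 3) + (p.M / p.l ^ 3) ^ 2 * RW p θ u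
        + Real.sqrt (RW p θ u * A3 / p.R ^ 6) + Real.sqrt (p.M * (p.M / p.l ^ 3) ^ 3 / p.R ^ 3) * RW p θ u) :=
      mul_le_mul_of_nonneg_right (by linarith) (by linarith)
    have k2 : c4 * Real.sqrt (A4 * ((p.M / p.l ^ 3) ^ 3 * RW p θ u)) ≤
        K * Real.sqrt (A4 * ((p.M / p.l ^ 3) ^ 3 * RW p θ u)) := mul_le_mul_of_nonneg_right (by linarith) t5
    have k3 : q1 * E33 p θ u ≤ K * E33 p θ u := mul_le_mul_of_nonneg_right (by linarith) hE33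
    have k4' : 2 * q2 * E34 p θ u ≤ K * E34 p θ u := mul_le_mul_of_nonneg_right (by linarith) hE34
    have k5' : q3 * E44 p θ u ≤ K * E44 p θ u := mul_le_mul_of_nonneg_right (by linarith) hE44
    have k6 : qv * (p.M / p.l ^ 3 * A4) ≤ K * (p.M / p.l ^ 3 * A4) := mul_le_mul_of_nonneg_right (by linarith) t6
    have k7 : ra * (Real.sqrt (A4 * D4 p θ u) + D4 p θ u) ≤ K * (Real.sqrt (A4 * D4 p θ u) + D4 p θ u) :=
      mul_le_mul_of_nonneg_right (by linarith) (by linarith)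
    have k8 : h2 * (∫ q, |k4 φ τ y Y q|) * ((p.M / p.l ^ 3) ^ 3 * RW p θ u + PZ p θ u) ≤
        K * ((p.M / p.l ^ 3) ^ 3 * RW p θ u + PZ p θ u) := by
      refine mul_le_mul_of_nonneg_right ?_ t8
      have h9 : h2 * (∫ q, |k4 φ τ y Y q|) ≤ h2 * (5 * |C|) :=
        mul_le_mul_of_nonneg_left (hk4i.trans (by linarith [le_abs_self C])) hh2.le
      linarith
    have k9 : (bet φ y Y g₄ / 24 - (1 / 12 * (∫ q, g₄ q) - (∫ q, k4 φ τ y Y q))) * A4 ≤ K * (A4 / p.R) := by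
      have h9 : bet φ y Y g₄ / 24 - (1 / 12 * (∫ q, g₄ q) - (∫ q, k4 φ τ y Y q)) ≤ C / p.R / 24 := by
        linarith
      have h10 : C / p.R / 24 ≤ K / p.R := by
        have h11 : C / p.R ≤ K / p.R :=
          div_le_div_of_nonneg_right (by linarith [le_abs_self C]) hR.le
        have h12 : 0 ≤ K / p.R := by positivity
        linarith
      calc (bet φ y Y g₄ / 24 - (1 / 12 * (∫ q, g₄ q) - (∫ q, k4 φ τ y Y q))) * A4 ≤ K / p.R * A4 :=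
            mul_le_mul_of_nonneg_right (h9.trans h10) A40
        _ = K * (A4 / p.R) := by ring
    have k9' : (bet φ y Y g₄ / 24 - (1 / 12 * (∫ q, g₄ q) - (∫ q, k4 φ τ y Y q))) * A4 =
        bet φ y Y g₄ / 24 * A4 - 1 / 12 * (∫ q, g₄ q) * A4 + (∫ q, k4 φ τ y Y q) * A4 := by ring
    rw [k9'] at k9
    have m1 : K * (Real.sqrt (p.M / p.l ^ 3 * RW p θ u * A3 / p.R ^ 3) + (p.M / p.l ^ 3) ^ 2 * RW p θ u
        + Real.sqrt (RW p θ u * A3 / p.R ^ 6) + Real.sqrt (p.M * (p.M / p.l ^ 3) ^ 3 / p.R ^ 3) * RW p θ u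
        + Real.sqrt (A4 * ((p.M / p.l ^ 3) ^ 3 * RW p θ u)) + E33 p θ u + E34 p θ u + E44 p θ u
        + p.M / p.l ^ 3 * A4 + Real.sqrt (A4 * D4 p θ u) + D4 p θ u
        + ((p.M / p.l ^ 3) ^ 3 * RW p θ u + PZ p θ u) + A4 / p.R) =
        K * (Real.sqrt (p.M / p.l ^ 3 * RW p θ u * A3 / p.R ^ 3) + (p.M / p.l ^ 3) ^ 2 * RW p θ u
        + Real.sqrt (RW p θ u * A3 / p.R ^ 6) + Real.sqrt (p.M * (p.M / p.l ^ 3) ^ 3 / p.R ^ 3) * RW p θ u)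
        + K * Real.sqrt (A4 * ((p.M / p.l ^ 3) ^ 3 * RW p θ u)) + K * E33 p θ u + K * E34 p θ u + K * E44 p θ u
        + K * (p.M / p.l ^ 3 * A4) + K * (Real.sqrt (A4 * D4 p θ u) + D4 p θ u)
        + K * ((p.M / p.l ^ 3) ^ 3 * RW p θ u + PZ p θ u) + K * (A4 / p.R) := by ring
    rw [m1]
    linarith
  · -- the second bound
    have u1 : 0 ≤ p.l ^ 2 * XX p β θ τ Y u := by positivity
    have u2 : 0 ≤ p.l ^ 2 * (A4 + E44 p θ u) := by positivity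
    have u3 : 0 ≤ A3 + p.R ^ 2 * (p.M / p.l ^ 3) * A3
        + p.R ^ 2 * ((p.R * (p.M / p.l ^ 3)) ^ 2 * A3 + p.R * (p.M / p.l ^ 3) * GG p θ u 3) := by positivity
    have v1 : r1 * (p.l ^ 2 * B2 p β θ Y u) ≤ r1 * r3 * (p.l ^ 2 * (A4 + E44 p θ u)) := by
      calc r1 * (p.l ^ 2 * B2 p β θ Y u) ≤ r1 * (p.l ^ 2 * (r3 * (A4 + E44 p θ u))) :=
            mul_le_mul_of_nonneg_left (mul_le_mul_of_nonneg_left B3 (by positivity)) hr1.le
        _ = r1 * r3 * (p.l ^ 2 * (A4 + E44 p θ u)) := by ring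
    have v2 : r1 * FF p θ τ u ≤ r1 * r2 * (A3 + p.R ^ 2 * (p.M / p.l ^ 3) * A3
        + p.R ^ 2 * ((p.R * (p.M / p.l ^ 3)) ^ 2 * A3 + p.R * (p.M / p.l ^ 3) * GG p θ u 3)) := by
      calc r1 * FF p θ τ u ≤ r1 * (r2 * (A3 + p.R ^ 2 * (p.M / p.l ^ 3) * A3
        + p.R ^ 2 * ((p.R * (p.M / p.l ^ 3)) ^ 2 * A3 + p.R * (p.M / p.l ^ 3) * GG p θ u 3))) :=
            mul_le_mul_of_nonneg_left B2' hr1.le
        _ = _ := by ring
    have w1 : r1 * (p.l ^ 2 * XX p β θ τ Y u) ≤ K * (p.l ^ 2 * XX p β θ τ Y u) :=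
      mul_le_mul_of_nonneg_right (by linarith) u1
    have w2 : r1 * r3 * (p.l ^ 2 * (A4 + E44 p θ u)) ≤ K * (p.l ^ 2 * (A4 + E44 p θ u)) :=
      mul_le_mul_of_nonneg_right (by linarith) u2
    have w3 : r1 * r2 * (A3 + p.R ^ 2 * (p.M / p.l ^ 3) * A3
        + p.R ^ 2 * ((p.R * (p.M / p.l ^ 3)) ^ 2 * A3 + p.R * (p.M / p.l ^ 3) * GG p θ u 3)) ≤
        K * (A3 + p.R ^ 2 * (p.M / p.l ^ 3) * A3
        + p.R ^ 2 * ((p.R * (p.M / p.l ^ 3)) ^ 2 * A3 + p.R * (p.M / p.l ^ 3) * GG p θ u 3)) :=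
      mul_le_mul_of_nonneg_right (by linarith) u3
    have m2 : r1 * (p.l ^ 2 * XX p β θ τ Y u + p.l ^ 2 * B2 p β θ Y u + FF p θ τ u) =
        r1 * (p.l ^ 2 * XX p β θ τ Y u) + r1 * (p.l ^ 2 * B2 p β θ Y u) + r1 * FF p θ τ u := by ring
    rw [m2] at B1
    have m3 : K * (p.l ^ 2 * XX p β θ τ Y u + p.l ^ 2 * (A4 + E44 p θ u) + A3
        + p.R ^ 2 * (p.M / p.l ^ 3) * A3
        + p.R ^ 2 * ((p.R * (p.M / p.l ^ 3)) ^ 2 * A3 + p.R * (p.M / p.l ^ 3) * GG p θ u 3)) =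
        K * (p.l ^ 2 * XX p β θ τ Y u) + K * (p.l ^ 2 * (A4 + E44 p θ u)) +
        K * (A3 + p.R ^ 2 * (p.M / p.l ^ 3) * A3
        + p.R ^ 2 * ((p.R * (p.M / p.l ^ 3)) ^ 2 * A3 + p.R * (p.M / p.l ^ 3) * GG p θ u 3)) := by ring
    rw [m3]
    linarith

end Pool.Agent.TBS
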