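import Pool.Agent.TBS.StmtsB

set_option autoImplicit false

open MeasureTheory Filter Topology
open scoped ContDiff

namespace Pool.Agent.TBS

open Pool.Agent.TBG Pool.Agent.TBL Pool.Agent.TBF

namespace ONE_

theorem coord_meas (c : Fin 3) : Measurable fun x : E => x c :=
  (PiLp.continuous_apply 2 _ c).measurable

theorem Qb_meas (a : E) (r : ℝ) : MeasurableSet (Qb a r) := by
  have h : Qb a r = ⋂ c : Fin 3, {x : E | |x c - a c| ≤ r} := by
    ext x; simp [Qb]
  rw [h]
  exact MeasurableSet.iInter fun c =>
    measurableSet_le (((coord_meas c).sub_const (a c)).abs) measurable_const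

theorem Qb_vol (a : E) {r : ℝ} (hr : 0 ≤ r) : volume (Qb a r) = ENNReal.ofReal ((2 * r) ^ 3) := by
  have hp := (EuclideanSpace.volume_preserving_symm_measurableEquiv_toLp (Fin 3)).symm
  have h1 := hp.measure_preimage (Qb_meas a r).nullMeasurableSet
  rw [← h1]
  have h2 : (MeasurableEquiv.toLp 2 (Fin 3 → ℝ)).symm.symm ⁻¹' (Qb a r)
      = Set.pi Set.univ (fun c : Fin 3 => Set.Icc (a c - r) (a c + r)) := by
    ext x
    constructor
    · intro h c _
      have h3 := h c
      rw [abs_le] at h3
      constructor
      · have := h3.1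
        change a c - r ≤ x c
        change -r ≤ x c - a c at this
        linarith
      · have := h3.2
        change x c ≤ a c + r
        change x c - a c ≤ r at this
        linarith
    · intro h c
      have h3 := h c (Set.mem_univ c)
      change |x c - a c| ≤ r
      rw [abs_le]
      constructor
      · linarith [h3.1]
      · linarith [h3.2]
  rw [h2, volume_pi_pi]
  simp only [Real.volume_Icc]
  have h3 : ∀ c : Fin 3, a c + r - (a c - r) = 2 * r := fun c => by ring
  simp only [h3, Finset.prod_const, Finset.card_univ, Fintype.card_fin]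
  rw [← ENNReal.ofReal_pow (by positivity)]

theorem mO_fin (p : Par) : IsFiniteMeasure (mO p.L) := by
  refine ⟨?_⟩
  unfold mO
  rw [Measure.restrict_apply_univ]
  have h1 : Om p.L ⊆ Qb 0 |p.L| := by
    intro x hx c
    have h2 := hx c
    have h3 : (0 : E) c = 0 := rfl
    rw [h3, sub_zero]
    have h4 := le_abs_self p.L
    have h5 := abs_nonneg p.L
    linarith [abs_nonneg (x c)]
  refine (measure_mono h1).trans_lt ?_
  rw [Qb_vol 0 (abs_nonneg _)]
  exact ENNReal.ofReal_lt_top

theorem tm_prob {C : ℝ} {p : Par} {β θ : E → E → ℝ} (h : Sys C p β θ) (a : E) :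
    IsProbabilityMeasure (tm (θ a)) := by
  have hint : Integrable (θ a) := by
    by_contra hni
    have := h.θ1 a
    rw [integral_undef hni] at this
    exact zero_ne_one this
  refine ⟨?_⟩
  unfold tm
  rw [withDensity_apply _ MeasurableSet.univ, Measure.restrict_univ,
    ← ofReal_integral_eq_lintegral_ofReal hint (Eventually.of_forall (h.θ0 a)), h.θ1 a]
  simp

end ONE_

open ONE_ in
theorem one_proof (hBMC : Pool.Agent.TBL.Stmt_BMC) (hPSF : Stmt_PSF) : Stmt_ONE := by
  obtain ⟨hB1, _, _, _, _⟩ := hBMC
  intro C ι _ _ p β θ hS a _ha S i F w hi hF hw hI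
  have hfin := mO_fin p
  have hprob := tm_prob hS a
  have hps := (hPSF ι (tm (θ a)) (mO p.L) S).2
  have hfin1 := (hPSF ι (tm (θ a)) (mO p.L) (insert i S)).1
  have key : IA p θ a S (fun X => F X * w X) =
      IA p θ a (insert i S) (fun X => (∫ x, F (Function.update X i x) ∂(mO p.L)) * w X) := by
    unfold IA
    rw [(hps (fun X => F X * w X) ((hB1 _ _ _ hF hw).2.2.1)).1 i hi]
    refine integral_congr_ae (Eventually.of_forall fun X => ?_)
    change ∫ x, F (Function.update X i x) * w (Function.update X i x) ∂(mO p.L) =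
      (∫ x, F (Function.update X i x) ∂(mO p.L)) * w X
    have hwX : ∀ x : E, w (Function.update X i x) = w X := fun x => hI _ _ fun j hj => by
      have hji : j ≠ i := fun h => hj (by rw [h]; exact Finset.mem_singleton_self _)
      rw [Function.update_of_ne hji]
    simp only [hwX]
    rw [integral_mul_const]
  refine ⟨key, ?_, ?_⟩
  · intro h0
    rw [key]
    unfold IA
    simp only [h0, zero_mul, integral_zero]
  · intro f hf hw0 hle
    rw [key]
    unfold IA
    have hin : BM (fun X : ι → E => ∫ x, F (Function.update X i x) ∂(mO p.L)) := (hps F hF).2.2.1 i hi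
    refine integral_mono ((hB1 _ _ _ ((hB1 _ _ _ hin hw).2.2.1) hw).2.2.2.2.2.2 _)
      ((hB1 _ _ _ ((hB1 _ _ _ hf hw).2.2.1) hw).2.2.2.2.2.2 _) fun X => ?_
    exact mul_le_mul_of_nonneg_right (hle X) (hw0 X)

end Pool.Agent.TBS
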