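import Pool.Agent.TBS.StmtsA

/-!
# Squad TBS, module PCN: Poincaré inequality for one of many particles
-/

set_option autoImplicit false

open MeasureTheory Filter Topology
open scoped ContDiff

namespace Pool.Agent.TBS

open Pool.Agent.TBG Pool.Agent.TBL Pool.Agent.TBF

namespace PCN_

/-- comparison of integrals by integration over one particle -/
theorem fub {ι : Type} [Fintype ι] [DecidableEq ι] (hBMC : Pool.Agent.TBL.Stmt_BMC) (hPSF : Stmt_PSF)
    (m n : Measure E) [IsProbabilityMeasure m] [IsFiniteMeasure n] (S : Finset ι) (j : ι) (hj : j ∉ S)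
    (G1 G2 : (ι → E) → ℝ) (h1 : BM G1) (h2 : BM G2)
    (h : ∀ X, ∫ x, G1 (Function.update X j x) ∂n ≤ ∫ x, G2 (Function.update X j x) ∂n) :
    ∫ X, G1 X ∂(PiS m n S) ≤ ∫ X, G2 X ∂(PiS m n S) := by
  obtain ⟨-, k1⟩ := hPSF ι m n S
  have hfin : IsFiniteMeasure (PiS m n (insert j S)) := (hPSF ι m n (insert j S)).1
  obtain ⟨a1, -, b1, -⟩ := k1 G1 h1
  obtain ⟨a2, -, b2, -⟩ := k1 G2 h2
  rw [a1 j hj, a2 j hj]
  exact integral_mono ((hBMC.1 _ _ _ (b1 j hj) (b1 j hj)).2.2.2.2.2.2 _)
    ((hBMC.1 _ _ _ (b2 j hj) (b2 j hj)).2.2.2.2.2.2 _) h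

end PCN_

open PCN_

theorem pcn_proof (hBMC : Pool.Agent.TBL.Stmt_BMC) (hMSY : Stmt_MSY) (hPSF : Stmt_PSF) (hAVP : Stmt_AVP)
    (_hVTP : Stmt_VTP) (hPCT : Stmt_PCT) : Stmt_PCN := by
  intro C
  obtain ⟨C₁, hC1, hH⟩ := hPCT C
  refine ⟨C₁, hC1, ?_⟩
  intro ι _ _ p β θ hs a ha S j F w r hj hF hFs hFd hw hw0 hwj hr1 hr2
  obtain ⟨hl1, hfin, -, -, hQ, hsub, hprob, -, -, hic, -⟩ := hMSY C p β θ hs
  have hl : 0 < p.l := by linarith
  have hpr : IsProbabilityMeasure (tm (θ a)) := hprob a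
  have hAv := hAVP ι (tm (θ a)) {j} {j} F F hF hF
  have hAb : BM (Av (tm (θ a)) {j} F) := hAv.1
  have hAe : ∀ i X, Av (tm (θ a)) {i} F X = ∫ y, F (Function.update X i y) ∂(tm (θ a)) :=
    hAv.2.2.2.2.2.2.2.2.2.2.2.2.2
  have hmul : ∀ {α : Type} [MeasurableSpace α] {F G : α → ℝ}, BM F → BM G → BM (fun X => F X * G X) :=
    fun {α} _ {F G} hF hG => (hBMC.1 α F G hF hG).2.2.1
  have hsb : ∀ {α : Type} [MeasurableSpace α] {F G : α → ℝ}, BM F → BM G → BM (fun X => F X - G X) :=
    fun {α} _ {F G} hF hG => (hBMC.1 α F G hF hG).2.1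
  have hsq : ∀ {α : Type} [MeasurableSpace α] {F : α → ℝ}, BM F → BM (fun X => F X ^ 2) :=
    fun {α} _ {F} hF => (hBMC.1 α F F hF hF).2.2.2.1
  have hcm : ∀ {α : Type} [MeasurableSpace α] {F : α → ℝ} (t : ℝ), BM F → BM (fun X => t * F X) :=
    fun {α} _ {F} t hF => (hBMC.1 α F F hF hF).2.2.2.2.2.1 t
  have hcomp : ∀ {α γ : Type} [MeasurableSpace α] [MeasurableSpace γ] {F : α → ℝ} {f : γ → α}, BM F →
      Measurable f → BM (fun X => F (f X)) := fun {α γ} _ _ {F f} hF hf => hBMC.2.2.2.1 α γ F f hF hf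
  have hicb : ∀ r : ℝ, BM (ic (Qb a r)) := by
    intro r
    refine ⟨(measurable_const.indicator (hQ a r).1), 1, fun x => ?_⟩
    unfold ic Set.indicator
    split_ifs <;> simp
  have hev : Measurable (fun X : ι → E => X j) := measurable_pi_apply j
  set A := Av (tm (θ a)) {j} F with hA
  set DD : (ι → E) → ℝ := fun X => ∑ c, pd c (fun x => F (Function.update X j x)) (X j) ^ 2 with hDD
  have hDDb : BM DD := hBMC.2.2.1 (ι → E) (Fin 3) Finset.univ
    (fun c X => pd c (fun x => F (Function.update X j x)) (X j) ^ 2) (fun c _ => hsq (hFd c))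
  set B2 : (ι → E) → ℝ := fun X => w X * (ic (Qb a r) (X j) * DD X) with hB2
  set G : (ι → E) → ℝ := fun X => w X * (ic (Qb a r) (X j) * (F X - A X) ^ 2) with hG
  have b2 : BM B2 := hmul hw (hmul (hcomp (hicb _) hev) hDDb)
  have b0 : BM G := hmul hw (hmul (hcomp (hicb _) hev) (hsq (hsb hF hAb)))
  have key : IA p θ a S G ≤ IA p θ a S (fun X => C₁ * p.l ^ 2 * B2 X) := by
    refine fub hBMC hPSF (tm (θ a)) (mO p.L) S j hj G _ b0 (hcm _ b2) ?_
    intro X
    set f : E → ℝ := fun x => F (Function.update X j x) with hf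
    have hfs : ContDiff ℝ 1 f := hFs X
    set w0 := w (Function.update X j a) with hw00
    have haQ : a ∈ Qc p a := fun c => ⟨by linarith, by linarith⟩
    have hwx : ∀ x ∈ Qc p a, w (Function.update X j x) = w0 := by
      intro x hx
      have h1 := hwj (Function.update X j a) x (by simpa using haQ) hx
      rw [Function.update_idem] at h1
      exact h1
    have hAx : ∀ x, A (Function.update X j x) = ∫ y, f y ∂(tm (θ a)) := by
      intro x
      rw [hA, hAe]
      simp only [Function.update_idem]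
      rfl
    have hpd : ∀ c x, pd c (fun y => F (Function.update (Function.update X j x) j y))
        (Function.update X j x j) = pd c f x := by
      intro c x
      simp only [Function.update_idem, Function.update_self]
      rfl
    have e0 : ∀ x, G (Function.update X j x) =
        w0 * (ic (Qb a r) x * (f x - ∫ y, f y ∂(tm (θ a))) ^ 2) := by
      intro x
      simp only [hG, Function.update_self, hAx]
      by_cases hx : x ∈ Qb a r
      · rw [hwx x (hsub a r hr2 hx)]
      · have h2 : ic (Qb a r) x = 0 := Set.indicator_of_notMem hx _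
        rw [h2]
        ring
    have e2 : ∀ x, B2 (Function.update X j x) = w0 * (ic (Qb a r) x * ∑ c, pd c f x ^ 2) := by
      intro x
      simp only [hB2, hDD, hpd]
      by_cases hx : x ∈ Qb a r
      · rw [hwx x (hsub a r hr2 hx), Function.update_self]
      · have h2 : ic (Qb a r) x = 0 := Set.indicator_of_notMem hx _
        rw [Function.update_self, h2]
        ring
    have f0 : ∫ x, G (Function.update X j x) ∂(mO p.L) =
        w0 * ∫ x in Qb a r, (f x - ∫ y, f y ∂(tm (θ a))) ^ 2 := by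
      simp_rw [e0]
      rw [integral_const_mul, hic a ha r _ hr2]
    have f2 : ∫ x, B2 (Function.update X j x) ∂(mO p.L) = w0 * ∫ x in Qb a r, ∑ c, pd c f x ^ 2 := by
      simp_rw [e2]
      rw [integral_const_mul, hic a ha r _ hr2]
    rw [f0, integral_const_mul, f2]
    have h1 := hH p β θ hs a r f hr1 hr2 hfs
    have h2 := mul_le_mul_of_nonneg_left h1 (hw0 (Function.update X j a))
    refine h2.trans (le_of_eq ?_)
    ring
  refine key.trans (le_of_eq ?_)
  show ∫ X, C₁ * p.l ^ 2 * B2 X ∂(PiS (tm (θ a)) (mO p.L) S) = _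
  rw [integral_const_mul]
  rfl

end Pool.Agent.TBS
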