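import Pool.Agent.TBS.StmtsA

/-!
# Squad TBS, module PCQ: the Poincaré inequality in centred cubes
-/

set_option autoImplicit false

open MeasureTheory Filter Topology
open scoped ContDiff

namespace Pool.Agent.TBS

open Pool.Agent.TBG Pool.Agent.TBL Pool.Agent.TBF

namespace PCQ_

theorem preim (a : E) (r : ℝ) : (MeasurableEquiv.toLp 2 (Fin 3 → ℝ)) ⁻¹' (Qb a r)
    = Set.pi Set.univ (fun c : Fin 3 => Set.Icc (a c - r) (a c + r)) := by
  ext x
  constructor
  · intro h c _
    have h1 : |x c - a c| ≤ r := h c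
    rw [abs_le] at h1
    exact ⟨by linarith [h1.1], by linarith [h1.2]⟩
  · intro h c
    have h1 := h c (Set.mem_univ c)
    show |x c - a c| ≤ r
    rw [abs_le]
    exact ⟨by linarith [h1.1], by linarith [h1.2]⟩

theorem meas (a : E) (r : ℝ) : MeasurableSet (Qb a r) := by
  have h : MeasurableSet ((MeasurableEquiv.toLp 2 (Fin 3 → ℝ)) ⁻¹' (Qb a r)) := by
    rw [preim]
    exact MeasurableSet.univ_pi (fun _ => measurableSet_Icc)
  exact (MeasurableEquiv.measurableSet_preimage _).mp h

theorem vol {a : E} {r : ℝ} (hr : 0 < r) : volume (Qb a r) = ENNReal.ofReal ((2 * r) ^ 3) := by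
  have hp := (EuclideanSpace.volume_preserving_symm_measurableEquiv_toLp (Fin 3)).symm
  have h1 := hp.measure_preimage (meas a r).nullMeasurableSet
  rw [← h1]
  have h2 : (MeasurableEquiv.toLp 2 (Fin 3 → ℝ)).symm.symm ⁻¹' (Qb a r)
    = Set.pi Set.univ (fun c : Fin 3 => Set.Icc (a c - r) (a c + r)) := preim a r
  rw [h2, volume_pi_pi]
  have h3 : ∀ c : Fin 3, volume (Set.Icc (a c - r) (a c + r)) = ENNReal.ofReal (2 * r) := by
    intro c
    rw [Real.volume_Icc]
    congr 1
    ring
  simp only [h3, Finset.prod_const, Finset.card_univ, Fintype.card_fin]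
  rw [← ENNReal.ofReal_pow (by linarith)]

theorem preimc (a : E) (s : ℝ) : (MeasurableEquiv.toLp 2 (Fin 3 → ℝ)) ⁻¹' (cub s a)
    = Set.pi Set.univ (fun c : Fin 3 => Set.Ico (a c) (a c + s)) := by
  ext x
  constructor
  · intro h c _
    exact h c
  · intro h c
    exact h c (Set.mem_univ c)

theorem measc (a : E) (s : ℝ) : MeasurableSet (cub s a) := by
  have h : MeasurableSet ((MeasurableEquiv.toLp 2 (Fin 3 → ℝ)) ⁻¹' (cub s a)) := by
    rw [preimc]
    exact MeasurableSet.univ_pi (fun _ => measurableSet_Ico)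
  exact (MeasurableEquiv.measurableSet_preimage _).mp h

theorem volc {a : E} {s : ℝ} (hs : 0 < s) : volume (cub s a) = ENNReal.ofReal (s ^ 3) := by
  have hp := (EuclideanSpace.volume_preserving_symm_measurableEquiv_toLp (Fin 3)).symm
  have h1 := hp.measure_preimage (measc a s).nullMeasurableSet
  rw [← h1]
  have h2 : (MeasurableEquiv.toLp 2 (Fin 3 → ℝ)).symm.symm ⁻¹' (cub s a)
    = Set.pi Set.univ (fun c : Fin 3 => Set.Ico (a c) (a c + s)) := preimc a s
  rw [h2, volume_pi_pi]
  have h3 : ∀ c : Fin 3, volume (Set.Ico (a c) (a c + s)) = ENNReal.ofReal s := by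
    intro c
    rw [Real.volume_Ico]
    congr 1
    ring
  simp only [h3, Finset.prod_const, Finset.card_univ, Fintype.card_fin]
  rw [← ENNReal.ofReal_pow hs.le]

theorem compact (a : E) (r : ℝ) : IsCompact (Qb a r) := by
  have h1 : IsCompact (Set.pi Set.univ (fun c : Fin 3 => Set.Icc (a c - r) (a c + r))) :=
    isCompact_univ_pi fun _ => isCompact_Icc
  have h2 : Qb a r = (WithLp.toLp 2) '' (Set.pi Set.univ (fun c : Fin 3 => Set.Icc (a c - r) (a c + r))) := by
    ext x
    constructor
    · intro h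
      refine ⟨WithLp.ofLp x, fun c _ => ?_, rfl⟩
      have h1 : |x c - a c| ≤ r := h c
      rw [abs_le] at h1
      exact ⟨by linarith [h1.1], by linarith [h1.2]⟩
    · rintro ⟨y, hy, rfl⟩ c
      have h1 := hy c (Set.mem_univ c)
      show |y c - a c| ≤ r
      rw [abs_le]
      exact ⟨by linarith [h1.1], by linarith [h1.2]⟩
  rw [h2]
  exact h1.image (PiLp.continuous_toLp 2 _)

/-- the corner of the centred cube -/
noncomputable def co (a : E) (r : ℝ) : E := WithLp.toLp 2 (fun c => a c - r)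

theorem ae_cub {a : E} {r : ℝ} (hr : 0 < r) :
    (cub (2 * r) (co a r) : Set E) =ᵐ[volume] (Qb a r : Set E) := by
  refine ae_eq_of_subset_of_measure_ge ?_ ?_ (measc _ _).nullMeasurableSet ?_
  · intro x hx c
    have h1 : a c - r ≤ x c ∧ x c < a c - r + 2 * r := hx c
    rw [abs_le]
    exact ⟨by linarith [h1.1], by linarith [h1.2]⟩
  · rw [vol hr, volc (by linarith)]
  · rw [vol hr]
    exact ENNReal.ofReal_ne_top

end PCQ_

open PCQ_

theorem pcq_proof (hPCO : Pool.Agent.TBL.Stmt_PCO) : Stmt_PCQ := by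
  refine ⟨96, by norm_num, ?_⟩
  intro a r f hr hf
  have h := hPCO (2 * r) (co a r) f (by linarith) hf
  have e1 : ∀ g : E → ℝ, ∫ x in cub (2 * r) (co a r), g x = ∫ x in Qb a r, g x := fun g =>
    setIntegral_congr_set (ae_cub hr)
  have e2 : ∀ x, ∫ y in cub (2 * r) (co a r), (f x - f y) ^ 2 = ∫ y in Qb a r, (f x - f y) ^ 2 := fun x =>
    e1 _
  simp_rw [e2] at h
  rw [e1] at h
  have hpc : ∀ c, Continuous (fun x => pd c f x) := fun c =>
    (hf.continuous_fderiv (by norm_num)).clm_apply continuous_const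
  have e3 : ∑ c, ∫ x in cub (2 * r) (co a r), pd c f x ^ 2 = ∫ x in Qb a r, ∑ c, pd c f x ^ 2 := by
    rw [integral_finsetSum]
    · exact Finset.sum_congr rfl fun c _ => e1 _
    · intro c _
      exact ((hpc c).pow 2).continuousOn.integrableOn_compact (compact a r)
  rw [e3] at h
  refine h.trans (le_of_eq ?_)
  ring

end Pool.Agent.TBS
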