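import Pool.Agent.TBS.StmtsA

/-!
# Squad TBS, module PCT: the Poincaré inequality with the mean of a density
-/

set_option autoImplicit false

open MeasureTheory Filter Topology
open scoped ContDiff

namespace Pool.Agent.TBS

open Pool.Agent.TBG Pool.Agent.TBL Pool.Agent.TBF

namespace PCT_

theorem compact (a : E) (r : ℝ) : IsCompact (Qb a r) := by
  have h1 : IsCompact (Set.pi Set.univ (fun c : Fin 3 => Set.Icc (a c - r) (a c + r))) :=
    isCompact_univ_pi fun _ => isCompact_Icc
  have h2 : Qb a r = (WithLp.toLp 2) '' (Set.pi Set.univ (fun c : Fin 3 => Set.Icc (a c - r) (a c + r))) := by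
    ext x
    constructor
    · intro h
      refine ⟨WithLp.ofLp x, fun c _ => ?_, rfl⟩
      have h1 : |x c - a c| ≤ r := h c
      rw [abs_le] at h1
      exact ⟨by linarith [h1.1], by linarith [h1.2]⟩
    · rintro ⟨y, hy, rfl⟩ c
      have h1 := hy c (Set.mem_univ c)
      show |y c - a c| ≤ r
      rw [abs_le]
      exact ⟨by linarith [h1.1], by linarith [h1.2]⟩
  rw [h2]
  exact h1.image (PiLp.continuous_toLp 2 _)

end PCT_

open PCT_

theorem pct_proof (_h : Pool.Agent.TBL.Stmt_BMC) (hMSY : Stmt_MSY) (hPCQ : Stmt_PCQ) : Stmt_PCT := by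
  obtain ⟨C0, hC0, hP⟩ := hPCQ
  intro C
  refine ⟨|C| * C0 * 100000 + 1, by positivity, ?_⟩
  intro p β θ hs a r f hr1 hr2 hf
  obtain ⟨hl1, -, -, -, hQ, -, -, htm, -⟩ := hMSY C p β θ hs
  have hl : 0 < p.l := by linarith
  have hr : 0 < r := by linarith
  set Q := Qb a r with hQd
  have hQc : IsCompact Q := compact a r
  have hQm : MeasurableSet Q := (hQ a r).1
  have hfin : IsFiniteMeasure (volume.restrict Q) := ⟨by
    rw [Measure.restrict_apply_univ]
    exact hQc.measure_lt_top⟩
  have hIc : ∀ g : E → ℝ, Continuous g → Integrable g (volume.restrict Q) := fun g hg =>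
    hg.continuousOn.integrableOn_compact hQc
  have hfc : Continuous f := hf.continuous
  set t := θ a with ht
  have htm0 : Measurable t := hs.θm a
  have ht0 : ∀ x, 0 ≤ t x := hs.θ0 a
  have htb : ∀ x, t x ≤ C / p.l ^ 3 := hs.θb a
  have hts : ∀ x, x ∉ Q → t x = 0 := by
    intro x hx
    by_contra h
    apply hx
    intro c
    have := hs.θsp a x h c
    linarith
  have hC' : 0 ≤ C / p.l ^ 3 := (ht0 0).trans (htb 0)
  have hCn : 0 ≤ C := by
    by_contra h
    push Not at h
    have : C / p.l ^ 3 < 0 := div_neg_of_neg_of_pos h (by positivity)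
    linarith
  have hti : ∀ g : E → ℝ, Continuous g → Integrable (fun x => t x * g x) (volume.restrict Q) := by
    intro g hg
    refine (hIc g hg).bdd_mul (c := C / p.l ^ 3) htm0.aestronglyMeasurable (ae_of_all _ fun x => ?_)
    rw [Real.norm_eq_abs, abs_of_nonneg (ht0 x)]
    exact htb x
  have hzero : ∀ g : E → ℝ, ∫ x, t x * g x = ∫ x in Q, t x * g x := by
    intro g
    rw [setIntegral_eq_integral_of_forall_compl_eq_zero]
    intro x hx
    rw [hts x hx, zero_mul]
  have h1 : ∫ x in Q, t x = 1 := by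
    rw [setIntegral_eq_integral_of_forall_compl_eq_zero (fun x hx => hts x hx)]
    exact hs.θ1 a
  have ht1 : Integrable t (volume.restrict Q) := by
    have := hti (fun _ => 1) continuous_const
    simpa using this
  set I1 := ∫ y, f y ∂(tm t) with hI1
  have e1 : I1 = ∫ x in Q, t x * f x := by
    rw [hI1, htm a f, hzero]
  set I2 := ∫ x in Q, t x * f x ^ 2 with hI2
  have e2 : ∀ s : ℝ, ∫ y in Q, t y * (s - f y) ^ 2 = s ^ 2 - 2 * s * I1 + I2 := by
    intro s
    have e : ∀ y, t y * (s - f y) ^ 2 = s ^ 2 * t y - 2 * s * (t y * f y) + t y * f y ^ 2 := fun y => by ring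
    simp_rw [e]
    have i1 : Integrable (fun y => s ^ 2 * t y) (volume.restrict Q) := ht1.const_mul _
    have i2 : Integrable (fun y => 2 * s * (t y * f y)) (volume.restrict Q) := (hti f hfc).const_mul _
    have i3 : Integrable (fun y => t y * f y ^ 2) (volume.restrict Q) := hti _ (hfc.pow 2)
    have i4 : Integrable (fun y => s ^ 2 * t y - 2 * s * (t y * f y)) (volume.restrict Q) := i1.sub i2
    rw [integral_add i4 i3, integral_sub i1 i2, integral_const_mul, integral_const_mul, h1, ← e1]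
    ring
  have e3 : I1 ^ 2 ≤ I2 := by
    have h2 : 0 ≤ ∫ y in Q, t y * (I1 - f y) ^ 2 := integral_nonneg fun y => mul_nonneg (ht0 y) (sq_nonneg _)
    rw [e2] at h2
    linarith
  have e4 : ∀ x, (f x - I1) ^ 2 ≤ C / p.l ^ 3 * ∫ y in Q, (f x - f y) ^ 2 := by
    intro x
    have h2 : (f x - I1) ^ 2 ≤ ∫ y in Q, t y * (f x - f y) ^ 2 := by
      rw [e2]
      linarith
    refine h2.trans ?_
    rw [← integral_const_mul]
    refine integral_mono (hti _ ((continuous_const.sub hfc).pow 2))
      ((hIc _ ((continuous_const.sub hfc).pow 2)).const_mul _) (fun y => ?_)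
    exact mul_le_mul_of_nonneg_right (htb y) (sq_nonneg _)
  set V := (volume.restrict Q).real Set.univ with hV
  set J1 := ∫ y in Q, f y with hJ1
  set J2 := ∫ y in Q, f y ^ 2 with hJ2
  have e5 : ∀ x, ∫ y in Q, (f x - f y) ^ 2 = V * f x ^ 2 - 2 * J1 * f x + J2 := by
    intro x
    have e : ∀ y, (f x - f y) ^ 2 = f x ^ 2 - 2 * f x * f y + f y ^ 2 := fun y => by ring
    simp_rw [e]
    have i1 : Integrable (fun _ : E => f x ^ 2) (volume.restrict Q) := integrable_const _
    have i2 : Integrable (fun y => 2 * f x * f y) (volume.restrict Q) := (hIc f hfc).const_mul _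
    have i3 : Integrable (fun y => f y ^ 2) (volume.restrict Q) := hIc _ (hfc.pow 2)
    have i4 : Integrable (fun y => f x ^ 2 - 2 * f x * f y) (volume.restrict Q) := i1.sub i2
    rw [integral_add i4 i3, integral_sub i1 i2, integral_const_mul, integral_const, smul_eq_mul]
    ring
  have e6 : Integrable (fun x => ∫ y in Q, (f x - f y) ^ 2) (volume.restrict Q) := by
    simp_rw [e5]
    exact hIc _ (by fun_prop)
  have e7 : ∫ x in Q, (f x - I1) ^ 2 ≤ C / p.l ^ 3 * ∫ x in Q, ∫ y in Q, (f x - f y) ^ 2 := by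
    rw [← integral_const_mul]
    exact integral_mono (hIc _ ((hfc.sub continuous_const).pow 2)) (e6.const_mul _) e4
  have e8 := hP a r f hr hf
  set B := ∫ x in Q, ∑ c, pd c f x ^ 2 with hB
  have hB0 : 0 ≤ B := integral_nonneg fun x => Finset.sum_nonneg fun c _ => sq_nonneg _
  have e9 : r ^ 5 ≤ (10 * p.l) ^ 5 := pow_le_pow_left₀ hr.le hr2 5
  calc ∫ x in Q, (f x - I1) ^ 2 ≤ C / p.l ^ 3 * ∫ x in Q, ∫ y in Q, (f x - f y) ^ 2 := e7
    _ ≤ C / p.l ^ 3 * (C0 * r ^ 5 * B) := mul_le_mul_of_nonneg_left e8 hC'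
    _ ≤ C / p.l ^ 3 * (C0 * (10 * p.l) ^ 5 * B) := by
        refine mul_le_mul_of_nonneg_left ?_ hC'
        refine mul_le_mul_of_nonneg_right ?_ hB0
        exact mul_le_mul_of_nonneg_left e9 hC0.le
    _ = |C| * C0 * 100000 * p.l ^ 2 * B := by
        rw [abs_of_nonneg hCn]
        field_simp
        ring
    _ ≤ (|C| * C0 * 100000 + 1) * p.l ^ 2 * B := by
        have : 0 ≤ p.l ^ 2 * B := by positivity
        nlinarith

end Pool.Agent.TBS
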