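import Pool.Agent.TBS.StmtsA

set_option autoImplicit false

open MeasureTheory Filter Topology
open scoped ContDiff

namespace Pool.Agent.TBS

open Pool.Agent.TBG Pool.Agent.TBL Pool.Agent.TBF

namespace PSF_

variable {ι : Type} [Fintype ι] [DecidableEq ι]

theorem meas_update (l : ι) :
    Measurable (fun q : (ι → E) × E => Function.update q.1 l q.2) := by
  refine measurable_pi_lambda _ (fun i => ?_)
  by_cases h : i = l
  · subst h
    simp only [Function.update_self]
    exact measurable_snd
  · simp only [Function.update_of_ne h]
    exact (measurable_pi_apply i).comp measurable_fst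

/-- replacing the coordinate `l` -/
theorem mp (μ ν : ι → Measure E) [∀ i, IsFiniteMeasure (μ i)] [∀ i, IsFiniteMeasure (ν i)] (l : ι)
    (hν : IsProbabilityMeasure (ν l)) (h : ∀ j, j ≠ l → μ j = ν j) :
    MeasurePreserving (fun q : (ι → E) × E => Function.update q.1 l q.2)
      ((Measure.pi ν).prod (μ l)) (Measure.pi μ) := by
  have hmeas := meas_update (ι := ι) l
  refine ⟨hmeas, ?_⟩
  symm
  refine Measure.pi_eq (fun s hs => ?_)
  rw [Measure.map_apply hmeas (MeasurableSet.univ_pi hs)]
  have hset : (fun q : (ι → E) × E => Function.update q.1 l q.2) ⁻¹' (Set.univ.pi s) =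
      (Set.univ.pi (Function.update s l Set.univ)) ×ˢ (s l) := by
    ext ⟨X, y⟩
    simp only [Set.mem_preimage, Set.mem_pi, Set.mem_univ, true_implies, Set.mem_prod]
    constructor
    · intro h
      refine ⟨fun i => ?_, ?_⟩
      · by_cases hi : i = l
        · subst hi
          simp
        · have := h i
          rw [Function.update_of_ne hi] at this
          rw [Function.update_of_ne hi]
          exact this
      · have := h l
        rwa [Function.update_self] at this
    · rintro ⟨h1, h2⟩ i
      by_cases hi : i = l
      · subst hi
        rw [Function.update_self]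
        exact h2
      · have := h1 i
        rw [Function.update_of_ne hi] at this
        rw [Function.update_of_ne hi]
        exact this
  rw [hset, Measure.prod_prod, Measure.pi_pi]
  rw [← Finset.mul_prod_erase Finset.univ (fun i => ν i (Function.update s l Set.univ i)) (Finset.mem_univ l),
    ← Finset.mul_prod_erase Finset.univ (fun i => μ i (s i)) (Finset.mem_univ l)]
  rw [Function.update_self, measure_univ, one_mul, mul_comm]
  congr 1
  refine Finset.prod_congr rfl (fun i hi => ?_)
  rw [Function.update_of_ne (Finset.ne_of_mem_erase hi), h i (Finset.ne_of_mem_erase hi)]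

theorem fub (μ ν : ι → Measure E) [∀ i, IsFiniteMeasure (μ i)] [∀ i, IsFiniteMeasure (ν i)] (l : ι)
    (hν : IsProbabilityMeasure (ν l)) (h : ∀ j, j ≠ l → μ j = ν j) (F : (ι → E) → ℝ) (hF : Measurable F)
    (C : ℝ) (hC : ∀ X, |F X| ≤ C) :
    ∫ X, F X ∂(Measure.pi μ) = ∫ X, (∫ x, F (Function.update X l x) ∂(μ l)) ∂(Measure.pi ν) := by
  have h1 := mp μ ν l hν h
  have h2 : ∫ X, F X ∂(Measure.pi μ) =
      ∫ q : (ι → E) × E, F (Function.update q.1 l q.2) ∂((Measure.pi ν).prod (μ l)) := by
    rw [← h1.map_eq, integral_map h1.measurable.aemeasurable]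
    rw [h1.map_eq]
    exact hF.aestronglyMeasurable
  rw [h2, integral_prod]
  refine Integrable.of_bound (hF.comp (meas_update l)).aestronglyMeasurable C
    (Eventually.of_forall fun q => ?_)
  rw [Real.norm_eq_abs]
  exact hC _

theorem bm_int (n : Measure E) [IsFiniteMeasure n] (l : ι) (F : (ι → E) → ℝ) (hF : BM F) :
    BM (fun X => ∫ x, F (Function.update X l x) ∂n) := by
  obtain ⟨hm, C, hC⟩ := hF
  refine ⟨?_, C * n.real Set.univ, fun X => ?_⟩
  · have h1 : StronglyMeasurable (fun q : (ι → E) × E => F (Function.update q.1 l q.2)) :=
      (hm.comp (meas_update l)).stronglyMeasurable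
    exact h1.integral_prod_right'.measurable
  · have h2 := norm_integral_le_of_norm_le_const (μ := n)
      (f := fun y => F (Function.update X l y)) (C := C)
      (Eventually.of_forall fun y => by rw [Real.norm_eq_abs]; exact hC _)
    rw [Real.norm_eq_abs] at h2
    exact h2

end PSF_

open PSF_ in
theorem psf_proof (_hBMC : Pool.Agent.TBL.Stmt_BMC) : Stmt_PSF := by
  intro ι _ _ m n _ _ S
  have hfin : ∀ (T : Finset ι) (i : ι), IsFiniteMeasure (if i ∈ T then m else n) := by
    intro T i
    split_ifs <;> infer_instance
  have hfS := hfin S
  refine ⟨?_, ?_⟩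
  · unfold PiS
    infer_instance
  · intro F hF
    refine ⟨?_, ?_, fun i _ => bm_int n i F hF, fun i => bm_int m i F hF⟩
    · intro i hi
      have hfT := hfin (insert i S)
      obtain ⟨hm, C, hC⟩ := hF
      have h := fub (fun j => if j ∈ S then m else n) (fun j => if j ∈ insert i S then m else n) i
        (by
          show IsProbabilityMeasure (if i ∈ insert i S then m else n)
          rw [if_pos (Finset.mem_insert_self i S)]
          infer_instance)
        (by
          intro j hj
          show (if j ∈ S then m else n) = (if j ∈ insert i S then m else n)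
          by_cases h : j ∈ S
          · rw [if_pos h, if_pos (Finset.mem_insert_of_mem h)]
          · rw [if_neg h, if_neg]
            rw [Finset.mem_insert]
            tauto) F hm C hC
      unfold PiS
      rw [h]
      rw [if_neg hi]
    · intro i hi
      obtain ⟨hm, C, hC⟩ := hF
      have h := fub (fun j => if j ∈ S then m else n) (fun j => if j ∈ S then m else n) i
        (by
          show IsProbabilityMeasure (if i ∈ S then m else n)
          rw [if_pos hi]
          infer_instance)
        (by
          intro j hj
          rfl) F hm C hC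
      unfold PiS
      rw [h]
      rw [if_pos hi]

end Pool.Agent.TBS
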