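import Pool.Agent.TBS.StmtsC

/-!
# Three-body Bose gases, sharp lower bound, module PTA: classical densities of one grid point
-/

set_option autoImplicit false

open MeasureTheory Filter Topology
open scoped ContDiff

namespace Pool.Agent.TBS

open Pool.Agent.TBG Pool.Agent.TBL Pool.Agent.TBF

namespace PTA_

variable {ι : Type} [Fintype ι] [DecidableEq ι]

lemma mem_Ij {m : ℕ} {e : Fin m → ι} : e ∈ Ij m ι ↔ Function.Injective e := by
  classical
  unfold Ij
  simp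

omit [Fintype ι] in
lemma card_im {m : ℕ} {e : Fin m → ι} (he : Function.Injective e) : (im e).card = m := by
  unfold im
  rw [Finset.card_image_of_injective _ he, Finset.card_univ, Fintype.card_fin]

end PTA_

open PTA_

theorem pta_proof (hMSY : Stmt_MSY) (hVTP : Stmt_VTP) (hSYM : Stmt_SYM) (_hGRD : Stmt_GRD) (hZET : Stmt_ZET) :
    Stmt_PTA := by
  classical
  intro C ι _ _ p Mc M₁ β θ hG hM₁ hS a ha X
  obtain ⟨hl1, -, -, -, -, hQQ, -, -, -, -, -, -⟩ := hMSY C p β θ hS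
  have hl0 : 0 < p.l := by linarith
  have hl3 : 0 < p.l ^ 3 := by positivity
  have hM : 0 < p.M := by linarith [hS.hM]
  set t : ι → ℝ := fun i => θ a (X i) with ht
  have ht0 : ∀ i, 0 ≤ t i := fun i => hS.θ0 a (X i)
  have htb : ∀ i, t i ≤ C / p.l ^ 3 := fun i => hS.θb a (X i)
  have htB : ∀ i, t i ≠ 0 → X i ∈ Qb a (2 * p.l) := fun i hi => hS.θsp a (X i) hi
  have htQ : ∀ i, t i ≠ 0 → X i ∈ Qc p a := by
    intro i hi
    exact hQQ a (2 * p.l) (by linarith) (htB i hi)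
  have htQ' : ∀ a' : E, (∀ c, |a' c - a c| ≤ 2 * p.l) → ∀ i, t i ≠ 0 → X i ∈ Qc p a' := by
    intro a' ha' i hi
    refine hQQ a' (4 * p.l) (by linarith) ?_
    intro c
    have h1 := htB i hi c
    have h2 := ha' c
    rw [abs_le] at h1 h2 ⊢
    constructor <;> linarith [h1.1, h1.2, h2.1, h2.2]
  -- amplitudes
  have hvt : ∀ (a' : E) (S : Finset ι), (∀ i ∈ S, X i ∈ Qc p a') → vt p a' S X = vt p a' ∅ X := by
    intro a' S hSQ
    have h := (hVTP ι C p β θ hS a' ∅).2.2.2.1 S X (fun j hj _ => hSQ j hj)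
    rw [h, Finset.empty_union]
  have hne : ∀ {k : ℕ} (e : Fin k → ι), (∏ i ∈ im e, θ a (X i)) ≠ 0 → ∀ i ∈ im e, t i ≠ 0 := by
    intro k e h0 i hi h
    exact h0 (Finset.prod_eq_zero hi h)
  -- the number of particles
  have hnQ : nQ p a ∅ X = (((Finset.univ.filter (fun j => X j ∈ Qc p a)).card : ℕ) : ℝ) := by
    unfold nQ
    congr 2
    ext j
    simp
  have hsum : ∑ i, t i = ∑ i ∈ Finset.univ.filter (fun j => X j ∈ Qc p a), t i := by
    symm
    refine Finset.sum_subset (Finset.subset_univ _) fun i _ hi => ?_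
    by_contra hne
    exact hi (Finset.mem_filter.2 ⟨Finset.mem_univ _, htQ i hne⟩)
  have hvt0 : vt p a ∅ X = 0 → p.M < nQ p a ∅ X := by
    intro h
    by_contra hcon
    unfold vt at h
    rw [if_pos (by simpa using not_lt.1 hcon)] at h
    exact one_ne_zero h
  have hvt1 : vt p a ∅ X = 1 → nQ p a ∅ X ≤ p.M := by
    intro h
    by_contra hcon
    unfold vt at h
    rw [if_neg (by simpa using hcon)] at h
    exact zero_ne_one h
  -- terms
  have hterm : ∀ {k : ℕ} (e : Fin k → ι),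
      (∏ i ∈ im e, θ a (X i)) * vt p a (im e) X = (∏ i ∈ im e, t i) * vt p a ∅ X := by
    intro k e
    by_cases h0 : ∏ i ∈ im e, θ a (X i) = 0
    · have _h0 : ∏ i ∈ im e, t i = 0 := h0
      rw [h0, zero_mul, zero_mul]
    · rw [hvt a (im e) (fun i hi => htQ i (hne e h0 i hi))]
  have hpz : ∀ {k : ℕ} (e : Fin k → ι), (∏ i ∈ im e, θ a (X i)) ≠ 0 →
      pz p a (im e) X = pz p a (∅ : Finset ι) X := by
    intro k e h0
    unfold pz
    have : (a ∉ p.Gi ∨ ∃ a' ∈ p.Gr, (∀ c, |a' c - a c| ≤ 2 * p.l) ∧ vt p a' (im e) X = 0) ↔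
        (a ∉ p.Gi ∨ ∃ a' ∈ p.Gr, (∀ c, |a' c - a c| ≤ 2 * p.l) ∧ vt p a' ∅ X = 0) := by
      refine or_congr Iff.rfl (exists_congr fun a' => and_congr Iff.rfl ?_)
      refine and_congr_right fun h => ?_
      rw [hvt a' (im e) (fun i hi => htQ' a' h i (hne e h0 i hi))]
    simp only [this]
  have hpz0 : 0 ≤ pz p a (∅ : Finset ι) X := by
    unfold pz
    split_ifs <;> norm_num
  have htermp : ∀ {k : ℕ} (e : Fin k → ι),
      (∏ i ∈ im e, θ a (X i)) * (pz p a (im e) X * vt p a (im e) X) =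
        (∏ i ∈ im e, t i) * (pz p a (∅ : Finset ι) X * vt p a ∅ X) := by
    intro k e
    by_cases h0 : ∏ i ∈ im e, θ a (X i) = 0
    · have _h0 : ∏ i ∈ im e, t i = 0 := h0
      rw [h0, zero_mul, zero_mul]
    · rw [hpz e h0, hvt a (im e) (fun i hi => htQ i (hne e h0 i hi))]
  have htermz : ∀ {k : ℕ} (e : Fin k → ι),
      (∏ i ∈ im e, θ a (X i)) * (zb p Mc M₁ a (im e) X * vt p a (im e) X) =
        (∏ i ∈ im e, t i) * (zb p Mc M₁ a (im e) X * vt p a ∅ X) := by
    intro k e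
    have := hterm e
    calc (∏ i ∈ im e, θ a (X i)) * (zb p Mc M₁ a (im e) X * vt p a (im e) X)
        = zb p Mc M₁ a (im e) X * ((∏ i ∈ im e, θ a (X i)) * vt p a (im e) X) := by ring
      _ = zb p Mc M₁ a (im e) X * ((∏ i ∈ im e, t i) * vt p a ∅ X) := by rw [this]
      _ = _ := by ring
  obtain ⟨-, -, -, hZb, hZa⟩ := hZET.2 ι p Mc M₁ hG hM₁
  have hzb0 : ∀ S : Finset ι, 0 ≤ zb p Mc M₁ a S X := fun S => (hZb a S).2.2 X
  have hzbS : ∀ S : Finset ι, zb p Mc M₁ a S X ≤ zb p Mc M₁ a ∅ X + 9261 * (S.card : ℝ) / M₁ :=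
    fun S => (hZa a ha S X).2.1
  refine ⟨?_, ?_, ?_⟩
  · -- first claim
    show p.l ^ 3 * ∑ i, t i ≤ C * nQ p a ∅ X
    rw [hsum, hnQ]
    calc p.l ^ 3 * ∑ i ∈ Finset.univ.filter (fun j => X j ∈ Qc p a), t i
        ≤ p.l ^ 3 * ∑ i ∈ Finset.univ.filter (fun j => X j ∈ Qc p a), C / p.l ^ 3 := by
          refine mul_le_mul_of_nonneg_left (Finset.sum_le_sum fun i _ => htb i) hl3.le
      _ = C * (((Finset.univ.filter (fun j => X j ∈ Qc p a)).card : ℕ) : ℝ) := by
          rw [Finset.sum_const, nsmul_eq_mul]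
          field_simp
  · intro hv
    refine ⟨hvt0 hv, ?_, ?_, ?_⟩
    · intro m
      refine Finset.sum_eq_zero fun e _ => ?_
      rw [hterm e, hv, mul_zero]
    · intro m
      refine Finset.sum_eq_zero fun e _ => ?_
      rw [htermz e, hv, mul_zero, mul_zero]
    · refine Finset.sum_eq_zero fun e _ => ?_
      rw [htermp e, hv, mul_zero, mul_zero]
  · intro hv
    obtain ⟨hs1, hs2⟩ := hSYM ι t (C / p.l ^ 3) (fun i => ⟨ht0 i, htb i⟩)
    have hp0 : ∀ {k : ℕ} (e : Fin k → ι), 0 ≤ ∏ i ∈ im e, t i :=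
      fun e => Finset.prod_nonneg fun i _ => ht0 i
    refine ⟨hvt1 hv, ?_, ?_, ?_, ?_⟩
    · have h1 : ∑ e ∈ Ij 3 ι, (∏ i ∈ im e, θ a (X i)) * vt p a (im e) X =
          ∑ e ∈ Ij 3 ι, ∏ i ∈ im e, t i := by
        refine Finset.sum_congr rfl fun e _ => ?_
        rw [hterm e, hv, mul_one]
      rw [h1]
      exact hs2
    · have h1 : ∑ e ∈ Ij 4 ι, (∏ i ∈ im e, θ a (X i)) * vt p a (im e) X =
          ∑ e ∈ Ij 4 ι, ∏ i ∈ im e, t i := by
        refine Finset.sum_congr rfl fun e _ => ?_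
        rw [hterm e, hv, mul_one]
      rw [h1]
      exact (hs1 4).2
    · intro m
      have h1 : ∑ e ∈ Ij m ι, (∏ i ∈ im e, θ a (X i)) * (zb p Mc M₁ a (im e) X * vt p a (im e) X) ≤
          ∑ e ∈ Ij m ι, (∏ i ∈ im e, t i) * (zb p Mc M₁ a ∅ X + 9261 * m / M₁) := by
        refine Finset.sum_le_sum fun e he => ?_
        rw [htermz e, hv, mul_one]
        refine mul_le_mul_of_nonneg_left ?_ (hp0 e)
        have := hzbS (im e)
        rwa [card_im (mem_Ij.1 he)] at this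
      refine h1.trans ?_
      rw [← Finset.sum_mul]
      refine mul_le_mul_of_nonneg_right (hs1 m).2 ?_
      have := hzb0 ∅
      positivity
    · have h1 : ∑ e ∈ Ij 4 ι, (∏ i ∈ im e, θ a (X i)) * (pz p a (im e) X * vt p a (im e) X) =
          (∑ e ∈ Ij 4 ι, ∏ i ∈ im e, t i) * pz p a (∅ : Finset ι) X := by
        rw [Finset.sum_mul]
        refine Finset.sum_congr rfl fun e _ => ?_
        rw [htermp e, hv, mul_one]
      rw [h1]
      exact mul_le_mul_of_nonneg_right (hs1 4).2 hpz0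

end Pool.Agent.TBS
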