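import Pool.Agent.TBS.StmtsB

/-!
# Squad TBS: module QEH (products of two overlapping clusters, with the majorants)
-/

set_option autoImplicit false

open MeasureTheory Filter Topology
open scoped ContDiff

namespace Pool.Agent.TBS

open Pool.Agent.TBG Pool.Agent.TBL Pool.Agent.TBF

namespace QEH_

lemma bm_mul {α : Type} [MeasurableSpace α] {F G : α → ℝ} (hF : BM F) (hG : BM G) :
    BM (fun X => F X * G X) := by
  obtain ⟨h1, C1, b1⟩ := hF
  obtain ⟨h2, C2, b2⟩ := hG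
  refine ⟨h1.mul h2, C1 * C2, fun X => ?_⟩
  rw [abs_mul]
  exact mul_le_mul (b1 X) (b2 X) (abs_nonneg _) ((abs_nonneg _).trans (b1 X))

lemma bm_prod {α J : Type} [MeasurableSpace α] (s : Finset J) (F : J → α → ℝ)
    (h : ∀ i ∈ s, BM (F i)) : BM (fun X => ∏ i ∈ s, F i X) := by
  classical
  induction s using Finset.induction_on with
  | empty => exact ⟨measurable_const, 1, fun X => by simp⟩
  | insert i s hi ih =>
    have e : (fun X => ∏ k ∈ insert i s, F k X) = fun X => F i X * ∏ k ∈ s, F k X := by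
      funext X
      rw [Finset.prod_insert hi]
    rw [e]
    exact bm_mul (h i (Finset.mem_insert_self i s))
      (ih fun k hk => h k (Finset.mem_insert_of_mem hk))

/-- the optimal parameter -/
lemma opt {S A B : ℝ} (hA : 0 ≤ A) (hB : 0 ≤ B)
    (h : ∀ t : ℝ, 0 < t → S ≤ t / 2 * A + 1 / (2 * t) * B) :
    S ≤ Real.sqrt A * Real.sqrt B := by
  by_contra hS
  rw [not_le] at hS
  have hS0 : 0 < S := lt_of_le_of_lt (by positivity) hS
  rcases hA.eq_or_lt with hA | hA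
  · rw [← hA] at h
    rcases hB.eq_or_lt with hB | hB
    · rw [← hB] at h
      have := h 1 one_pos
      linarith
    · have h1 := h (B / S) (by positivity)
      have h2 : 1 / (2 * (B / S)) * B = S / 2 := by
        field_simp
      rw [h2] at h1
      linarith
  · rcases hB.eq_or_lt with hB | hB
    · rw [← hB] at h
      have h1 := h (S / A) (by positivity)
      have h2 : S / A / 2 * A = S / 2 := by
        field_simp
      rw [h2] at h1
      linarith
    · have hsA : 0 < Real.sqrt A := Real.sqrt_pos.2 hA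
      have hsB : 0 < Real.sqrt B := Real.sqrt_pos.2 hB
      have h1 := h (Real.sqrt B / Real.sqrt A) (by positivity)
      have eA : A = Real.sqrt A * Real.sqrt A := (Real.mul_self_sqrt hA.le).symm
      have eB : B = Real.sqrt B * Real.sqrt B := (Real.mul_self_sqrt hB.le).symm
      have h2 : Real.sqrt B / Real.sqrt A / 2 * A + 1 / (2 * (Real.sqrt B / Real.sqrt A)) * B =
          Real.sqrt A * Real.sqrt B := by
        rw [show Real.sqrt B / Real.sqrt A / 2 * A = Real.sqrt B / Real.sqrt A / 2 *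
          (Real.sqrt A * Real.sqrt A) by rw [← eA],
          show 1 / (2 * (Real.sqrt B / Real.sqrt A)) * B = 1 / (2 * (Real.sqrt B / Real.sqrt A)) *
          (Real.sqrt B * Real.sqrt B) by rw [← eB]]
        field_simp
        ring
      rw [h2] at h1
      linarith

lemma amgm (t a b c : ℝ) (ht : 0 < t) (hc : 0 ≤ c) :
    |a| * (|b| * c) ≤ t / 2 * (a ^ 2 * c) + 1 / (2 * t) * (b ^ 2 * c) := by
  have h1 : |a| * |b| ≤ t / 2 * a ^ 2 + 1 / (2 * t) * b ^ 2 := by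
    have h2 : t / 2 * a ^ 2 + 1 / (2 * t) * b ^ 2 - |a| * |b| =
        1 / (2 * t) * (t * |a| - |b|) ^ 2 := by
      rw [← sq_abs a, ← sq_abs b]
      field_simp
      ring
    have h3 : 0 ≤ 1 / (2 * t) * (t * |a| - |b|) ^ 2 := by positivity
    linarith
  calc |a| * (|b| * c) = (|a| * |b|) * c := by ring
    _ ≤ (t / 2 * a ^ 2 + 1 / (2 * t) * b ^ 2) * c := mul_le_mul_of_nonneg_right h1 hc
    _ = _ := by ring

end QEH_

open QEH_ in
theorem qeh_proof (hBMC : Pool.Agent.TBL.Stmt_BMC) (hMSY : Stmt_MSY) (hHSF : Stmt_HSF)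
    (hCLS : Stmt_CLS) : Stmt_QEH := by
  intro m m' r r'
  obtain ⟨Ca, hCa, hca⟩ := hCLS m m' r
  obtain ⟨Cb, hCb, hcb⟩ := hCLS m' m r'
  refine ⟨Real.sqrt Ca * Real.sqrt Cb, by positivity, ?_⟩
  intro C ι _ _ p β θ u κ κ' w₁ w₂ w₃ w₁' w₂' w₃' K K' q q' hY hu hK hK' hq hq' hKq hKq'
  classical
  obtain ⟨hB1, hB2, hB3, hB4, hB5⟩ := hBMC
  obtain ⟨C₂, hC₂, hhs⟩ := hHSF C
  obtain ⟨-, hfin, -⟩ := hMSY C p β θ hY
  have hsq : ∀ {α : Type} [MeasurableSpace α] {F : α → ℝ}, BM F → BM (fun X => F X ^ 2) :=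
    fun {α} _ {F} hF => (hB1 _ F F hF hF).2.2.2.1
  have hab : ∀ {α : Type} [MeasurableSpace α] {F : α → ℝ}, BM F → BM (fun X => |F X|) :=
    fun {α} _ {F} hF => (hB1 _ F F hF hF).2.2.2.2.1
  have hadd : ∀ {α : Type} [MeasurableSpace α] {F G : α → ℝ}, BM F → BM G →
      BM (fun X => F X + G X) := fun {α} _ {F G} hF hG => (hB1 _ F G hF hG).1
  have hcm : ∀ {α : Type} [MeasurableSpace α] {F : α → ℝ} (a : ℝ), BM F → BM (fun X => a * F X) :=
    fun {α} _ {F} a hF => (hB1 _ F F hF hF).2.2.2.2.2.1 a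
  have hsum : ∀ {α J : Type} [MeasurableSpace α] (s : Finset J) (F : J → α → ℝ),
      (∀ i ∈ s, BM (F i)) → BM (fun X => ∑ i ∈ s, F i X) := fun {α J} _ s F h => hB3 α J s F h
  have hfO : IsFiniteMeasure (PiS (mO p.L) (mO p.L) (∅ : Finset ι)) := by
    unfold PiS
    have : ∀ i, IsFiniteMeasure (if i ∈ (∅ : Finset ι) then mO p.L else mO p.L) := by
      intro i
      split_ifs <;> infer_instance
    infer_instance
  have hintO : ∀ (F : (ι → E) → ℝ), BM F →
      Integrable F (PiS (mO p.L) (mO p.L) (∅ : Finset ι)) :=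
    fun F hF => (hB1 _ F F hF hF).2.2.2.2.2.2 _
  have IOsum : ∀ {J : Type} (s : Finset J) (F : J → (ι → E) → ℝ), (∀ i ∈ s, BM (F i)) →
      ∑ i ∈ s, IO p (F i) = IO p (fun X => ∑ i ∈ s, F i X) := by
    intro J s F h
    unfold IO
    rw [integral_finsetSum _ fun i hi => hintO _ (h i hi)]
  have IOmono : ∀ (F G : (ι → E) → ℝ), BM F → BM G → (∀ X, F X ≤ G X) → IO p F ≤ IO p G :=
    fun F G hF hG h => integral_mono (hintO _ hF) (hintO _ hG) h
  -- clusters
  have him : ∀ {k : ℕ} (e : Fin (k + 1) → ι), (im e).Nonempty := by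
    intro k e
    exact ⟨e 0, Finset.mem_image_of_mem _ (Finset.mem_univ _)⟩
  have hh2bm : ∀ {k : ℕ} (e : Fin (k + 1) → ι), BM (hh2 p θ u (im e)) :=
    fun e => (hhs ι p β θ u (im e) hY hu (him e)).2.1
  have hh0 : ∀ {k : ℕ} (e : Fin (k + 1) → ι) X, 0 ≤ hh2 p θ u (im e) X :=
    fun e X => ((hhs ι p β θ u (im e) hY hu (him e)).2.2.1 X).1
  have hhle : ∀ {k : ℕ} (e : Fin (k + 1) → ι) X,
      Real.sqrt (hh2 p θ u (im e) X) ^ 2 ≤ hh2 p θ u (im e) X :=
    fun e X => (Real.sq_sqrt (hh0 e X)).le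
  have hhbm : ∀ {k : ℕ} (e : Fin (k + 1) → ι), BM (fun X => Real.sqrt (hh2 p θ u (im e) X)) := by
    intro k e
    obtain ⟨h1, Ch, h2⟩ := hh2bm e
    refine ⟨h1.sqrt, Real.sqrt Ch, fun X => ?_⟩
    rw [abs_of_nonneg (Real.sqrt_nonneg _)]
    exact Real.sqrt_le_sqrt ((le_abs_self _).trans (h2 X))
  have hcomp : ∀ {k : ℕ} (e : Fin k → ι), Measurable fun X : ι → E => X ∘ e := by
    intro k e
    exact measurable_pi_lambda _ fun i => measurable_pi_apply (e i)
  have hKbm : ∀ e : Fin (m + 1) → ι, BM (fun X : ι → E => K (X ∘ e)) :=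
    fun e => hB4 _ _ K _ hK.bm (hcomp e)
  have hKbm' : ∀ e : Fin (m' + 1) → ι, BM (fun X : ι → E => K' (X ∘ e)) :=
    fun e => hB4 _ _ K' _ hK'.bm (hcomp e)
  have hqbm : ∀ (f : E → ℝ), Measurable f → (∀ x, 0 ≤ f x) → (∀ x, f x ≤ 1) → ∀ i j : ι,
      BM (fun X : ι → E => f (X i - X j)) := by
    intro f hf h0 h1 i j
    refine ⟨hf.comp ((measurable_pi_apply i).sub (measurable_pi_apply j)), 1, fun X => ?_⟩
    rw [abs_of_nonneg (h0 _)]
    exact h1 _
  have hpbm : ∀ (f : E → ℝ), Measurable f → (∀ x, 0 ≤ f x) → (∀ x, f x ≤ 1) → ∀ (i : ι) (k : ℕ)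
      (j : Fin k → ι), BM (fun X : ι → E => ∏ s, f (X i - X (j s))) := fun f h1 h2 h3 i k j =>
    bm_prod Finset.univ (fun s (X : ι → E) => f (X i - X (j s))) fun s _ => hqbm f h1 h2 h3 i (j s)
  -- the two sums
  have gsform : ∀ {k l : ℕ} (Kk : (Fin (k + 1) → E) → ℝ) (qq : E → ℝ),
      (∀ e : Fin (k + 1) → ι, BM (fun X : ι → E => Kk (X ∘ e))) → Measurable qq →
      (∀ x, 0 ≤ qq x) → (∀ x, qq x ≤ 1) →
      GS p θ u k l Kk qq = IO p (fun X => ∑ e ∈ Ij (k + 1) ι, hh2 p θ u (im e) X *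
        (Kk (X ∘ e) * ∑ j ∈ (Ij l ι).filter (fun j => Disjoint (im j) (im e)),
          ∏ s, qq (X (e 0) - X (j s)))) := by
    intro k l Kk qq h1 h2 h3 h4
    unfold GS
    have e1 : ∀ e ∈ Ij (k + 1) ι, ∑ j ∈ (Ij l ι).filter (fun j => Disjoint (im j) (im e)),
        IO p (fun X => hh2 p θ u (im e) X * (Kk (X ∘ e) * ∏ s, qq (X (e 0) - X (j s)))) =
        IO p (fun X => hh2 p θ u (im e) X *
        (Kk (X ∘ e) * ∑ j ∈ (Ij l ι).filter (fun j => Disjoint (im j) (im e)),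
          ∏ s, qq (X (e 0) - X (j s)))) := by
      intro e _
      rw [IOsum _ _ fun j _ => bm_mul (hh2bm e) (bm_mul (h1 e) (hpbm qq h2 h3 h4 _ _ j))]
      congr 1
      funext X
      rw [Finset.mul_sum, Finset.mul_sum]
    rw [Finset.sum_congr rfl e1, IOsum _ _ fun e _ => bm_mul (hh2bm e) (bm_mul (h1 e)
      (hsum _ _ fun j _ => hpbm qq h2 h3 h4 _ _ j))]
  have hG1 := gsform (k := m) (l := r) K q' hKbm hq'.meas hq'.nn hq'.le1
  have hG2 := gsform (k := m') (l := r') K' q hKbm' hq.meas hq.nn hq.le1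
  have hqp : ∀ (f : E → ℝ), (∀ x, 0 ≤ f x) → ∀ (i : ι) (k : ℕ) (j : Fin k → ι) (X : ι → E),
      0 ≤ ∏ s, f (X i - X (j s)) := fun f h i k j X => Finset.prod_nonneg fun s _ => h _
  have hG1' : 0 ≤ GS p θ u m r K q' := by
    rw [hG1]
    refine integral_nonneg fun X => Finset.sum_nonneg fun e _ => mul_nonneg (hh0 e X)
      (mul_nonneg (hK.nn _) (Finset.sum_nonneg fun j _ => hqp _ hq'.nn _ _ _ _))
  have hG2' : 0 ≤ GS p θ u m' r' K' q := by
    rw [hG2]
    refine integral_nonneg fun X => Finset.sum_nonneg fun e _ => mul_nonneg (hh0 e X)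
      (mul_nonneg (hK'.nn _) (Finset.sum_nonneg fun j _ => hqp _ hq.nn _ _ _ _))
  -- the pointwise bounds
  set F : (Fin (m + 1) → ι) → Finset (Fin (m' + 1) → ι) := fun e =>
    (Ij (m' + 1) ι).filter (fun e' => e' 0 = e 0 ∧
      (im e' \ im e).card = r ∧ (im e \ im e').card = r') with hF
  have hA : ∀ X : ι → E, ∑ e ∈ Ij (m + 1) ι, ∑ e' ∈ F e,
      Real.sqrt (hh2 p θ u (im e) X) ^ 2 * (K (X ∘ e) * K' (X ∘ e')) ≤
      Ca * ∑ e ∈ Ij (m + 1) ι, hh2 p θ u (im e) X *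
        (K (X ∘ e) * ∑ j ∈ (Ij r ι).filter (fun j => Disjoint (im j) (im e)),
          ∏ s, q' (X (e 0) - X (j s))) := by
    intro X
    rw [Finset.mul_sum]
    refine Finset.sum_le_sum fun e he => ?_
    have h1 := hca ι X q' K' e (fun x => ⟨hq'.nn x, hq'.le1 x⟩)
      (fun x => ⟨hK'.nn x, hKq' x⟩) he
    have h2 : ∑ e' ∈ F e, K' (X ∘ e') ≤
        ∑ e' ∈ (Ij (m' + 1) ι).filter (fun e' => e' 0 = e 0 ∧ (im e' \ im e).card = r),
          K' (X ∘ e') := by
      refine Finset.sum_le_sum_of_subset_of_nonneg ?_ fun _ _ _ => hK'.nn _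
      intro e' he'
      rw [hF, Finset.mem_filter] at he'
      rw [Finset.mem_filter]
      exact ⟨he'.1, he'.2.1, he'.2.2.1⟩
    calc ∑ e' ∈ F e, Real.sqrt (hh2 p θ u (im e) X) ^ 2 * (K (X ∘ e) * K' (X ∘ e'))
        = Real.sqrt (hh2 p θ u (im e) X) ^ 2 * (K (X ∘ e) * ∑ e' ∈ F e, K' (X ∘ e')) := by
          rw [Finset.mul_sum, Finset.mul_sum]
      _ ≤ hh2 p θ u (im e) X * (K (X ∘ e) * (Ca *
          ∑ j ∈ (Ij r ι).filter (fun j => Disjoint (im j) (im e)),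
            ∏ s, q' (X (e 0) - X (j s)))) := by
          refine mul_le_mul (hhle e X) (mul_le_mul_of_nonneg_left (h2.trans h1) (hK.nn _)) ?_
            (hh0 e X)
          exact mul_nonneg (hK.nn _) (Finset.sum_nonneg fun _ _ => hK'.nn _)
      _ = _ := by ring
  have hBp : ∀ X : ι → E, ∑ e ∈ Ij (m + 1) ι, ∑ e' ∈ F e,
      Real.sqrt (hh2 p θ u (im e') X) ^ 2 * (K (X ∘ e) * K' (X ∘ e')) ≤
      Cb * ∑ e ∈ Ij (m' + 1) ι, hh2 p θ u (im e) X *
        (K' (X ∘ e) * ∑ j ∈ (Ij r' ι).filter (fun j => Disjoint (im j) (im e)),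
          ∏ s, q (X (e 0) - X (j s))) := by
    intro X
    rw [Finset.mul_sum]
    have hcomm : ∑ e ∈ Ij (m + 1) ι, ∑ e' ∈ F e,
        Real.sqrt (hh2 p θ u (im e') X) ^ 2 * (K (X ∘ e) * K' (X ∘ e')) =
        ∑ e' ∈ Ij (m' + 1) ι, ∑ e ∈ (Ij (m + 1) ι).filter (fun e => e' 0 = e 0 ∧
          (im e' \ im e).card = r ∧ (im e \ im e').card = r'),
        Real.sqrt (hh2 p θ u (im e') X) ^ 2 * (K (X ∘ e) * K' (X ∘ e')) := by
      refine Finset.sum_comm' fun e e' => ?_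
      simp only [hF, Finset.mem_filter]
      tauto
    rw [hcomm]
    refine Finset.sum_le_sum fun e' he' => ?_
    have h1 := hcb ι X q K e' (fun x => ⟨hq.nn x, hq.le1 x⟩)
      (fun x => ⟨hK.nn x, hKq x⟩) he'
    have h2 : ∑ e ∈ (Ij (m + 1) ι).filter (fun e => e' 0 = e 0 ∧
          (im e' \ im e).card = r ∧ (im e \ im e').card = r'), K (X ∘ e) ≤
        ∑ e ∈ (Ij (m + 1) ι).filter (fun e => e 0 = e' 0 ∧ (im e \ im e').card = r'),
          K (X ∘ e) := by
      refine Finset.sum_le_sum_of_subset_of_nonneg ?_ fun _ _ _ => hK.nn _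
      intro e he
      rw [Finset.mem_filter] at he
      rw [Finset.mem_filter]
      exact ⟨he.1, he.2.1.symm, he.2.2.2⟩
    calc ∑ e ∈ (Ij (m + 1) ι).filter (fun e => e' 0 = e 0 ∧
          (im e' \ im e).card = r ∧ (im e \ im e').card = r'),
        Real.sqrt (hh2 p θ u (im e') X) ^ 2 * (K (X ∘ e) * K' (X ∘ e'))
        = Real.sqrt (hh2 p θ u (im e') X) ^ 2 * (K' (X ∘ e') *
          ∑ e ∈ (Ij (m + 1) ι).filter (fun e => e' 0 = e 0 ∧
          (im e' \ im e).card = r ∧ (im e \ im e').card = r'), K (X ∘ e)) := by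
          rw [Finset.mul_sum, Finset.mul_sum]
          refine Finset.sum_congr rfl fun e _ => ?_
          ring
      _ ≤ hh2 p θ u (im e') X * (K' (X ∘ e') * (Cb *
          ∑ j ∈ (Ij r' ι).filter (fun j => Disjoint (im j) (im e')),
            ∏ s, q (X (e' 0) - X (j s)))) := by
          refine mul_le_mul (hhle e' X) (mul_le_mul_of_nonneg_left (h2.trans h1) (hK'.nn _)) ?_
            (hh0 e' X)
          exact mul_nonneg (hK'.nn _) (Finset.sum_nonneg fun _ _ => hK.nn _)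
      _ = _ := by ring
  -- conclusion
  have hfinal : IO p (fun X => ∑ e ∈ Ij (m + 1) ι, ∑ e' ∈ F e,
      |Real.sqrt (hh2 p θ u (im e) X)| * (|Real.sqrt (hh2 p θ u (im e') X)| *
        (K (X ∘ e) * K' (X ∘ e')))) ≤
      Real.sqrt (Ca * GS p θ u m r K q') * Real.sqrt (Cb * GS p θ u m' r' K' q) := by
    refine opt (mul_nonneg hCa.le hG1') (mul_nonneg hCb.le hG2') fun t ht => ?_
    have hS1 : BM (fun X : ι → E => ∑ e ∈ Ij (m + 1) ι, hh2 p θ u (im e) X *
        (K (X ∘ e) * ∑ j ∈ (Ij r ι).filter (fun j => Disjoint (im j) (im e)),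
          ∏ s, q' (X (e 0) - X (j s)))) := hsum _ _ fun e _ => bm_mul (hh2bm e)
      (bm_mul (hKbm e) (hsum _ _ fun j _ => hpbm q' hq'.meas hq'.nn hq'.le1 _ _ j))
    have hS2 : BM (fun X : ι → E => ∑ e ∈ Ij (m' + 1) ι, hh2 p θ u (im e) X *
        (K' (X ∘ e) * ∑ j ∈ (Ij r' ι).filter (fun j => Disjoint (im j) (im e)),
          ∏ s, q (X (e 0) - X (j s)))) := hsum _ _ fun e _ => bm_mul (hh2bm e)
      (bm_mul (hKbm' e) (hsum _ _ fun j _ => hpbm q hq.meas hq.nn hq.le1 _ _ j))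
    have e1 : t / 2 * (Ca * GS p θ u m r K q') + 1 / (2 * t) * (Cb * GS p θ u m' r' K' q) =
        IO p (fun X => (t / 2 * Ca) * (∑ e ∈ Ij (m + 1) ι, hh2 p θ u (im e) X *
        (K (X ∘ e) * ∑ j ∈ (Ij r ι).filter (fun j => Disjoint (im j) (im e)),
          ∏ s, q' (X (e 0) - X (j s)))) + (1 / (2 * t) * Cb) *
          (∑ e ∈ Ij (m' + 1) ι, hh2 p θ u (im e) X *
        (K' (X ∘ e) * ∑ j ∈ (Ij r' ι).filter (fun j => Disjoint (im j) (im e)),
          ∏ s, q (X (e 0) - X (j s))))) := by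
      rw [hG1, hG2]
      unfold IO
      rw [integral_add (hintO _ (hcm _ hS1)) (hintO _ (hcm _ hS2)), integral_const_mul,
        integral_const_mul]
      ring
    rw [e1]
    refine IOmono _ _ ?_ (hadd (hcm _ hS1) (hcm _ hS2)) fun X => ?_
    · exact hsum _ _ fun e _ => hsum _ _ fun e' _ => bm_mul (hab (hhbm e))
        (bm_mul (hab (hhbm e')) (bm_mul (hKbm e) (hKbm' e')))
    · have h1 : ∑ e ∈ Ij (m + 1) ι, ∑ e' ∈ F e,
          |Real.sqrt (hh2 p θ u (im e) X)| * (|Real.sqrt (hh2 p θ u (im e') X)| *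
            (K (X ∘ e) * K' (X ∘ e'))) ≤
          t / 2 * (∑ e ∈ Ij (m + 1) ι, ∑ e' ∈ F e,
            Real.sqrt (hh2 p θ u (im e) X) ^ 2 * (K (X ∘ e) * K' (X ∘ e'))) +
          1 / (2 * t) * (∑ e ∈ Ij (m + 1) ι, ∑ e' ∈ F e,
            Real.sqrt (hh2 p θ u (im e') X) ^ 2 * (K (X ∘ e) * K' (X ∘ e'))) := by
        rw [Finset.mul_sum, Finset.mul_sum, ← Finset.sum_add_distrib]
        refine Finset.sum_le_sum fun e _ => ?_
        rw [Finset.mul_sum, Finset.mul_sum, ← Finset.sum_add_distrib]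
        refine Finset.sum_le_sum fun e' _ => ?_
        exact amgm t _ _ _ ht (mul_nonneg (hK.nn _) (hK'.nn _))
      refine h1.trans (add_le_add ?_ ?_)
      · rw [mul_assoc]
        exact mul_le_mul_of_nonneg_left (hA X) (by positivity)
      · rw [mul_assoc (1 / (2 * t)) Cb]
        exact mul_le_mul_of_nonneg_left (hBp X) (by positivity)
  have habs : ∀ x : ℝ, |Real.sqrt x| = Real.sqrt x := fun x => abs_of_nonneg (Real.sqrt_nonneg x)
  simp only [habs] at hfinal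
  refine hfinal.trans (le_of_eq ?_)
  rw [Real.sqrt_mul hCa.le, Real.sqrt_mul hCb.le]
  ring

end Pool.Agent.TBS
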