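import Pool.Agent.TBS.StmtsB

set_option autoImplicit false

open MeasureTheory Filter Topology
open scoped ContDiff

namespace Pool.Agent.TBS

open Pool.Agent.TBG Pool.Agent.TBL Pool.Agent.TBF

namespace QES_

theorem fin_mO (L : ℝ) : IsFiniteMeasure (mO L) := by
  refine ⟨?_⟩
  unfold mO
  rw [Measure.restrict_apply_univ]
  refine lt_of_le_of_lt (measure_mono (t := Metric.closedBall (0 : E) (2 * |L|)) ?_) measure_closedBall_lt_top
  intro x hx
  rw [Metric.mem_closedBall, dist_zero_right, EuclideanSpace.norm_eq]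
  refine Real.sqrt_le_iff.2 ⟨by positivity, ?_⟩
  have h : ∀ c, ‖x c‖ ^ 2 ≤ |L| ^ 2 := by
    intro c
    have h1 : |x c| < L / 2 := hx c
    have h2 : L ≤ |L| := le_abs_self L
    have h3 : 0 ≤ |x c| := abs_nonneg _
    rw [Real.norm_eq_abs]
    nlinarith
  rw [Fin.sum_univ_three]
  nlinarith [h 0, h 1, h 2]

theorem fin_PiS {ι : Type} [Fintype ι] [DecidableEq ι] (L : ℝ) :
    IsFiniteMeasure (PiS (mO L) (mO L) (∅ : Finset ι)) := by
  have := fin_mO L
  unfold PiS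
  simp only [ite_self]
  infer_instance

theorem bm_q {ι : Type} {l w₁ w₂ w₃ : ℝ} {q : E → ℝ} (hq : Pk l w₁ w₂ w₃ q) (i j : ι) :
    BM (fun X : ι → E => q (X i - X j)) := by
  refine ⟨hq.meas.comp ((measurable_pi_apply i).sub (measurable_pi_apply j)), 1, fun X => ?_⟩
  rw [abs_of_nonneg (hq.nn _)]
  exact hq.le1 _

theorem s2_ap {ι : Type} (e : Fin 3 → ι) (j : ι) : s2 (ap e j) = e := by
  funext i
  fin_cases i <;> rfl

theorem s2_swap {ι : Type} (e : Fin 4 → ι) : s2 (e ∘ Equiv.swap 2 3) = s3 e := by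
  funext i
  fin_cases i
  · show e (Equiv.swap 2 3 0) = e 0
    rw [show (Equiv.swap 2 3 : Equiv.Perm (Fin 4)) 0 = 0 by decide]
  · show e (Equiv.swap 2 3 1) = e 1
    rw [show (Equiv.swap 2 3 : Equiv.Perm (Fin 4)) 1 = 1 by decide]
  · show e (Equiv.swap 2 3 2) = e 3
    rw [show (Equiv.swap 2 3 : Equiv.Perm (Fin 4)) 2 = 3 by decide]

/-- the pointwise bound of one term -/
theorem term {a b k2 k3 q1 q2 q3 : ℝ} (ha : 0 ≤ a) (hb : 0 ≤ b) (hk2 : 0 ≤ k2) (hk3 : 0 ≤ k3)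
    (h2 : k2 ≤ q1 * q2) (h3 : k3 ≤ q1 * q3) :
    Real.sqrt a * (Real.sqrt b * (k2 * k3)) ≤ 1 / 2 * (a * (k2 * (q1 * q3))) + 1 / 2 * (b * (k3 * (q1 * q2))) := by
  have h := Real.sq_sqrt ha
  have h' := Real.sq_sqrt hb
  have e1 : Real.sqrt a * Real.sqrt b ≤ 1 / 2 * a + 1 / 2 * b := by
    nlinarith [sq_nonneg (Real.sqrt a - Real.sqrt b)]
  have hk : 0 ≤ k2 * k3 := mul_nonneg hk2 hk3
  have e2 : a * (k2 * k3) ≤ a * (k2 * (q1 * q3)) :=
    mul_le_mul_of_nonneg_left (mul_le_mul_of_nonneg_left h3 hk2) ha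
  have e3 : b * (k2 * k3) ≤ b * (k3 * (q1 * q2)) := by
    rw [mul_comm k2 k3]
    exact mul_le_mul_of_nonneg_left (mul_le_mul_of_nonneg_left h2 hk3) hb
  calc Real.sqrt a * (Real.sqrt b * (k2 * k3)) = (Real.sqrt a * Real.sqrt b) * (k2 * k3) := by ring
    _ ≤ (1 / 2 * a + 1 / 2 * b) * (k2 * k3) := mul_le_mul_of_nonneg_right e1 hk
    _ = 1 / 2 * (a * (k2 * k3)) + 1 / 2 * (b * (k2 * k3)) := by ring
    _ ≤ _ := by linarith

end QES_

open QES_ in
theorem qes_proof (hBMC : Pool.Agent.TBL.Stmt_BMC) (hHSF : Stmt_HSF) (hTUP : Stmt_TUP) : Stmt_QES := by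
  intro C ι _ _ p β θ u κ w₁ w₂ w₃ K q hS hu hK hq hKq
  obtain ⟨C₁, -, hH⟩ := hHSF C
  obtain ⟨-, hT2, hT3, -⟩ := hTUP ι
  have hne : ∀ e : Fin 3 → ι, (im e).Nonempty := fun e => ⟨e 0, by simp [im]⟩
  have hbm : ∀ e : Fin 3 → ι, BM (hh2 p θ u (im e)) := fun e => (hH ι p β θ u (im e) hS hu (hne e)).2.1
  have hnn : ∀ (e : Fin 3 → ι) X, 0 ≤ hh2 p θ u (im e) X :=
    fun e X => ((hH ι p β θ u (im e) hS hu (hne e)).2.2.1 X).1
  have hfin := fin_PiS (ι := ι) p.L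
  -- the terms of the right side
  have hBt : ∀ (e : Fin 3 → ι) (j : ι), BM (fun X : ι → E => hh2 p θ u (im e) X *
      (K (X ∘ e) * (q (X (e 0) - X (e 1)) + q (X (e 0) - X (e 2))) * q (X (e 0) - X j))) := by
    intro e j
    have hm : Measurable (fun X : ι → E => X ∘ e) := measurable_pi_iff.2 (fun i => measurable_pi_apply _)
    have b1 : BM (fun X : ι → E => K (X ∘ e)) := hBMC.2.2.2.1 _ _ K _ hK.bm hm
    have b2 : BM (fun X : ι → E => q (X (e 0) - X (e 1)) + q (X (e 0) - X (e 2))) :=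
      (hBMC.1 _ _ _ (bm_q hq _ _) (bm_q hq _ _)).1
    have b3 := (hBMC.1 _ _ _ b1 b2).2.2.1
    have b4 := (hBMC.1 _ _ _ b3 (bm_q hq (e 0) j)).2.2.1
    exact (hBMC.1 _ _ _ (hbm e) b4).2.2.1
  have hIt : ∀ (e : Fin 3 → ι) (j : ι), Integrable (fun X : ι → E => hh2 p θ u (im e) X *
      (K (X ∘ e) * (q (X (e 0) - X (e 1)) + q (X (e 0) - X (e 2))) * q (X (e 0) - X j)))
      (PiS (mO p.L) (mO p.L) (∅ : Finset ι)) := fun e j =>
    (hBMC.1 _ _ _ (hBt e j) (hBt e j)).2.2.2.2.2.2 _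
  -- the pointwise bound
  have hpt : ∀ X : ι → E, ∑ e ∈ Ij 4 ι, Real.sqrt (hh2 p θ u (im (s2 e)) X) *
      (Real.sqrt (hh2 p θ u (im (s3 e)) X) * (K (X ∘ s2 e) * K (X ∘ s3 e))) ≤
      ∑ e ∈ Ij 3 ι, ∑ j ∈ Finset.univ \ im e, hh2 p θ u (im e) X *
      (K (X ∘ e) * (q (X (e 0) - X (e 1)) + q (X (e 0) - X (e 2))) * q (X (e 0) - X j)) := by
    intro X
    set F : (Fin 4 → ι) → ℝ := fun e => hh2 p θ u (im (s2 e)) X *
      (K (X ∘ s2 e) * (q (X (e 0) - X (e 1)) * q (X (e 0) - X (e 3)))) with hF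
    have h1 : ∀ e ∈ Ij 4 ι, Real.sqrt (hh2 p θ u (im (s2 e)) X) *
      (Real.sqrt (hh2 p θ u (im (s3 e)) X) * (K (X ∘ s2 e) * K (X ∘ s3 e))) ≤
      1 / 2 * F e + 1 / 2 * F (e ∘ Equiv.swap 2 3) := by
      intro e _
      have g2 : K (X ∘ s2 e) ≤ q (X (e 0) - X (e 1)) * q (X (e 0) - X (e 2)) := hKq (X ∘ s2 e)
      have g3 : K (X ∘ s3 e) ≤ q (X (e 0) - X (e 1)) * q (X (e 0) - X (e 3)) := hKq (X ∘ s3 e)
      have t := term (hnn (s2 e) X) (hnn (s3 e) X) (hK.nn (X ∘ s2 e)) (hK.nn (X ∘ s3 e)) g2 g3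
      have eF : F (e ∘ Equiv.swap 2 3) = hh2 p θ u (im (s3 e)) X *
          (K (X ∘ s3 e) * (q (X (e 0) - X (e 1)) * q (X (e 0) - X (e 2)))) := by
        rw [hF]
        simp only [s2_swap, Function.comp_apply]
        rw [show (Equiv.swap 2 3 : Equiv.Perm (Fin 4)) 0 = 0 by decide,
          show (Equiv.swap 2 3 : Equiv.Perm (Fin 4)) 1 = 1 by decide,
          show (Equiv.swap 2 3 : Equiv.Perm (Fin 4)) 3 = 2 by decide]
      rw [eF]
      exact t
    refine (Finset.sum_le_sum h1).trans ?_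
    rw [Finset.sum_add_distrib, ← Finset.mul_sum, ← Finset.mul_sum, (hT2 4 (Equiv.swap 2 3)).1 F, hT3 F]
    have h2 : ∑ e ∈ Ij 3 ι, ∑ j ∈ Finset.univ \ im e, F (ap e j) ≤
        ∑ e ∈ Ij 3 ι, ∑ j ∈ Finset.univ \ im e, hh2 p θ u (im e) X *
      (K (X ∘ e) * (q (X (e 0) - X (e 1)) + q (X (e 0) - X (e 2))) * q (X (e 0) - X j)) := by
      refine Finset.sum_le_sum (fun e _ => Finset.sum_le_sum (fun j _ => ?_))
      have eF : F (ap e j) = hh2 p θ u (im e) X *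
          (K (X ∘ e) * (q (X (e 0) - X (e 1)) * q (X (e 0) - X j))) := by
        rw [hF]
        simp only [s2_ap]
        rfl
      rw [eF]
      refine mul_le_mul_of_nonneg_left ?_ (hnn e X)
      rw [mul_assoc]
      refine mul_le_mul_of_nonneg_left ?_ (hK.nn _)
      refine mul_le_mul_of_nonneg_right ?_ (hq.nn _)
      linarith [hq.nn (X (e 0) - X (e 2))]
    linarith
  -- integration
  have hint : IO p (fun X => ∑ e ∈ Ij 4 ι, Real.sqrt (hh2 p θ u (im (s2 e)) X) *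
      (Real.sqrt (hh2 p θ u (im (s3 e)) X) * (K (X ∘ s2 e) * K (X ∘ s3 e)))) ≤
      IO p (fun X => ∑ e ∈ Ij 3 ι, ∑ j ∈ Finset.univ \ im e, hh2 p θ u (im e) X *
      (K (X ∘ e) * (q (X (e 0) - X (e 1)) + q (X (e 0) - X (e 2))) * q (X (e 0) - X j))) := by
    unfold IO
    refine integral_mono_of_nonneg (Filter.Eventually.of_forall (fun X => ?_)) ?_
      (Filter.Eventually.of_forall hpt)
    · refine Finset.sum_nonneg (fun e _ => ?_)
      exact mul_nonneg (Real.sqrt_nonneg _) (mul_nonneg (Real.sqrt_nonneg _)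
        (mul_nonneg (hK.nn _) (hK.nn _)))
    · exact integrable_finsetSum _ (fun e _ => integrable_finsetSum _ (fun j _ => hIt e j))
  refine hint.trans (le_of_eq ?_)
  unfold GS IO
  rw [integral_finsetSum _ (fun e _ => integrable_finsetSum _ (fun j _ => hIt e j))]
  refine Finset.sum_congr rfl (fun e _ => ?_)
  rw [integral_finsetSum _ (fun j _ => hIt e j)]
  symm
  refine Finset.sum_nbij' (fun j => j 0) (fun j => fun _ => j) ?_ ?_ ?_ ?_ ?_
  · intro j hj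
    rw [Finset.mem_filter] at hj
    rw [Finset.mem_sdiff]
    refine ⟨Finset.mem_univ _, fun h => ?_⟩
    exact Finset.disjoint_left.1 hj.2 (by simp [im]) h
  · intro j hj
    rw [Finset.mem_sdiff] at hj
    rw [Finset.mem_filter]
    refine ⟨?_, ?_⟩
    · unfold Ij
      rw [Finset.mem_filter]
      exact ⟨Finset.mem_univ _, Function.injective_of_subsingleton _⟩
    · rw [Finset.disjoint_left]
      intro a ha
      have : a = j := by
        unfold im at ha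
        rw [Finset.mem_image] at ha
        obtain ⟨_, _, h⟩ := ha
        exact h.symm
      rw [this]
      exact hj.2
  · intro j _
    funext i
    rw [Subsingleton.elim i 0]
  · intro j _
    rfl
  · intro j _
    refine integral_congr_ae (Filter.Eventually.of_forall (fun X => ?_))
    simp only [Fin.prod_univ_one]
    rfl

end Pool.Agent.TBS
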