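import Pool.Agent.TBS.StmtsB

/-!
# Squad TBS: module QK1 (the square of `aF`)
-/

set_option autoImplicit false

open MeasureTheory Filter Topology
open scoped ContDiff

namespace Pool.Agent.TBS

open Pool.Agent.TBG Pool.Agent.TBL Pool.Agent.TBF

namespace QK1_

lemma bm_of_cu {ι : Type} [Fintype ι] {u : (ι → E) → ℝ} (hu : CU u) : BM u := by
  obtain ⟨h1, h2⟩ := hu
  obtain ⟨C, hC⟩ := h1.continuous.bounded_above_of_compact_support h2
  exact ⟨h1.continuous.measurable, C, fun X => by simpa using hC X⟩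

lemma bm_cmul {α : Type} [MeasurableSpace α] {F : α → ℝ} (a : ℝ) (hF : BM F) :
    BM (fun X => a * F X) := by
  obtain ⟨h1, C1, b1⟩ := hF
  refine ⟨h1.const_mul a, |a| * C1, fun X => ?_⟩
  rw [abs_mul]
  exact mul_le_mul_of_nonneg_left (b1 X) (abs_nonneg _)

lemma ck_scale {m : ℕ} {l κ κ' D : ℝ} {K : (Fin (m + 1) → E) → ℝ} (hD : 0 < D)
    (hκ : κ' ≤ D * κ) (h : Ck m l κ' K) : Ck m l κ (fun x => D⁻¹ * K x) where
  bm := bm_cmul _ h.bm
  nn := fun x => mul_nonneg (inv_nonneg.2 hD.le) (h.nn x)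
  sp := fun x hx => h.sp x (right_ne_zero_of_mul hx)
  mass := fun x₀ => by
    rw [integral_const_mul]
    have h1 := (h.mass x₀).trans hκ
    calc D⁻¹ * ∫ z : Fin m → E, K (Fin.cons x₀ z) ≤ D⁻¹ * (D * κ) :=
          mul_le_mul_of_nonneg_left h1 (inv_nonneg.2 hD.le)
      _ = κ := by field_simp

lemma pk_weak {l w₁ w₂ w₃ v₁ v₂ v₃ : ℝ} {q : E → ℝ} (h : Pk l w₁ w₂ w₃ q) (h1 : w₁ ≤ v₁)
    (h2 : w₂ ≤ v₂) (h3 : w₃ ≤ v₃) : Pk l v₁ v₂ v₃ q where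
  meas := h.meas
  nn := h.nn
  le1 := h.le1
  sp := h.sp
  m1 := h.m1.trans h1
  m2 := fun x => (h.m2 x).trans h2
  m3 := h.m3.trans h3

/-- the sum over the components -/
lemma abs_comp {A B : Fin 3 → ℝ} : ∑ c, |A c * B c| ≤ (∑ c, |A c|) * ∑ c, |B c| := by
  rw [Finset.sum_mul_sum]
  refine Finset.sum_le_sum fun c _ => ?_
  rw [abs_mul]
  exact Finset.single_le_sum (f := fun d => |A c| * |B d|)
    (fun d _ => mul_nonneg (abs_nonneg _) (abs_nonneg _)) (Finset.mem_univ c)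

/-- a remainder -/
lemma rem {I J : Type} (s : Finset I) (t : I → Finset J) (h : I → ℝ) (k : J → ℝ)
    (A : I → Fin 3 → ℝ) (B : J → Fin 3 → ℝ) (a : I → ℝ) (b : J → ℝ) (D : ℝ)
    (hA : ∀ i, ∑ c, |A i c| ≤ D * a i) (hB : ∀ j, ∑ c, |B j c| ≤ D * b j) :
    |∑ c, ∑ i ∈ s, ∑ j ∈ t i, h i * A i c * (k j * B j c)| ≤
      D ^ 2 * ∑ i ∈ s, ∑ j ∈ t i, |h i| * (|k j| * (a i * b j)) := by
  have h1 : ∑ c, ∑ i ∈ s, ∑ j ∈ t i, h i * A i c * (k j * B j c) =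
      ∑ i ∈ s, ∑ j ∈ t i, ∑ c, h i * A i c * (k j * B j c) := by
    rw [Finset.sum_comm]
    refine Finset.sum_congr rfl fun i _ => ?_
    rw [Finset.sum_comm]
  rw [h1, Finset.mul_sum]
  refine (Finset.abs_sum_le_sum_abs _ _).trans (Finset.sum_le_sum fun i _ => ?_)
  rw [Finset.mul_sum]
  refine (Finset.abs_sum_le_sum_abs _ _).trans (Finset.sum_le_sum fun j _ => ?_)
  have h2 : ∑ c, h i * A i c * (k j * B j c) = (h i * k j) * ∑ c, A i c * B j c := by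
    rw [Finset.mul_sum]
    exact Finset.sum_congr rfl fun c _ => by ring
  rw [h2, abs_mul, abs_mul]
  have h3 : |∑ c, A i c * B j c| ≤ (D * a i) * (D * b j) := by
    refine (Finset.abs_sum_le_sum_abs _ _).trans (abs_comp.trans ?_)
    exact mul_le_mul (hA i) (hB j) (Finset.sum_nonneg fun _ _ => abs_nonneg _)
      ((Finset.sum_nonneg fun _ _ => abs_nonneg _).trans (hA i))
  calc |h i| * |k j| * |∑ c, A i c * B j c| ≤ |h i| * |k j| * ((D * a i) * (D * b j)) :=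
        mul_le_mul_of_nonneg_left h3 (mul_nonneg (abs_nonneg _) (abs_nonneg _))
    _ = D ^ 2 * (|h i| * (|k j| * (a i * b j))) := by ring

lemma fin_mO (L : ℝ) : IsFiniteMeasure (mO L) := by
  refine ⟨?_⟩
  unfold mO
  rw [Measure.restrict_apply_univ]
  have h1 : Om L ⊆ Metric.closedBall 0 |L| := by
    intro x hx
    rw [mem_closedBall_zero_iff, EuclideanSpace.norm_eq]
    refine Real.sqrt_le_iff.2 ⟨abs_nonneg _, ?_⟩
    have h2 : ∀ c : Fin 3, ‖x c‖ ^ 2 ≤ L ^ 2 / 4 := by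
      intro c
      have h3 : |x c| < L / 2 := hx c
      have h4 := abs_nonneg (x c)
      rw [Real.norm_eq_abs]
      nlinarith
    calc ∑ c : Fin 3, ‖x c‖ ^ 2 ≤ ∑ _c : Fin 3, L ^ 2 / 4 := Finset.sum_le_sum fun c _ => h2 c
      _ = 3 * (L ^ 2 / 4) := by simp
      _ ≤ |L| ^ 2 := by rw [sq_abs]; nlinarith [sq_nonneg L]
  exact (measure_mono h1).trans_lt (isCompact_closedBall _ _).measure_lt_top

end QK1_

open QK1_ in
theorem qk1_proof (hBMC : Pool.Agent.TBL.Stmt_BMC) (hHSF : Stmt_HSF) (hTUP : Stmt_TUP)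
    (hCM3 : Stmt_CM3) (hTRK : Stmt_TRK) (hKBM : Stmt_KBM) (hGS2 : Stmt_GS2)
    (hQEG : Stmt_QEG) : Stmt_QK1 := by
  intro C
  obtain ⟨Ca, hCa, hca⟩ := hQEG 2 2 2 2
  obtain ⟨c1, hc1, hg1⟩ := hGS2 C 2
  obtain ⟨C₂, hC₂, hhs⟩ := hHSF C
  set D : ℝ := max C 1 with hDdef
  have hD1 : 1 ≤ D := le_max_right _ _
  have hD0 : 0 < D := lt_of_lt_of_le one_pos hD1
  have hCD : C ≤ D := le_max_left _ _
  refine ⟨D ^ 2 * (Ca * (c1 * D ^ 2)), by positivity, ?_⟩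
  intro ι _ _ p β θ φ τ g y Y u hY hu hφ hT hKF
  classical
  have hub : BM u := bm_of_cu hu
  have hR1 : 1 ≤ p.R := hY.hR
  obtain ⟨hB1, hB2, hB3, hB4, hB5⟩ := hBMC
  obtain ⟨hK1, -, hK3, -⟩ := hKBM
  have hmul : ∀ {α : Type} [MeasurableSpace α] {F G : α → ℝ}, BM F → BM G →
      BM (fun X => F X * G X) := fun {α} _ {F G} hF hG => (hB1 _ F G hF hG).2.2.1
  have hsq : ∀ {α : Type} [MeasurableSpace α] {F : α → ℝ}, BM F →
      BM (fun X => F X ^ 2) := fun {α} _ {F} hF => (hB1 _ F F hF hF).2.2.2.1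
  have hsub : ∀ {α : Type} [MeasurableSpace α] {F G : α → ℝ}, BM F → BM G →
      BM (fun X => F X - G X) := fun {α} _ {F G} hF hG => (hB1 _ F G hF hG).2.1
  have hadd : ∀ {α : Type} [MeasurableSpace α] {F G : α → ℝ}, BM F → BM G →
      BM (fun X => F X + G X) := fun {α} _ {F G} hF hG => (hB1 _ F G hF hG).1
  have hab : ∀ {α : Type} [MeasurableSpace α] {F : α → ℝ}, BM F → BM (fun X => |F X|) :=
    fun {α} _ {F} hF => (hB1 _ F F hF hF).2.2.2.2.1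
  have hsum : ∀ {α J : Type} [MeasurableSpace α] (s : Finset J) (F : J → α → ℝ),
      (∀ i ∈ s, BM (F i)) → BM (fun X => ∑ i ∈ s, F i X) := fun {α J} _ s F h => hB3 α J s F h
  have hint : ∀ (F : (ι → E) → ℝ), BM F →
      Integrable F (PiS (mO p.L) (mO p.L) (∅ : Finset ι)) := by
    have hmO : IsFiniteMeasure (mO p.L) := fin_mO p.L
    have hfO : IsFiniteMeasure (PiS (mO p.L) (mO p.L) (∅ : Finset ι)) := by
      unfold PiS
      have : ∀ i, IsFiniteMeasure (if i ∈ (∅ : Finset ι) then mO p.L else mO p.L) := by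
        intro i
        split_ifs <;> infer_instance
      infer_instance
    exact fun F hF => (hB1 _ F F hF hF).2.2.2.2.2.2 _
  have him : ∀ {k : ℕ} (e : Fin (k + 1) → ι), (im e).Nonempty := by
    intro k e
    exact ⟨e 0, Finset.mem_image_of_mem _ (Finset.mem_univ _)⟩
  have hhbm : ∀ {k : ℕ} (e : Fin (k + 1) → ι), BM (hS p β θ u (im e)) :=
    fun e => (hhs ι p β θ u (im e) hY hub (him e)).1
  -- the kernels
  set K : (Fin 3 → E) → ℝ := fun x => D⁻¹ * kA τ x with hKdef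
  have hKc : Ck 2 p.l p.R K := ck_scale hD0
    (mul_le_mul_of_nonneg_right hCD (zero_le_one.trans hR1)) hKF.cA
  have hq : Pk p.l (D * Real.sqrt p.R) D D (pk (5 / 2) p.R) := pk_weak hKF.pA
    (mul_le_mul_of_nonneg_right hCD (Real.sqrt_nonneg _)) hCD hCD
  have hKq : ∀ x, K x ≤ ∏ s : Fin 2, pk (5 / 2) p.R (x 0 - x s.succ) := by
    intro x
    have hP : 0 ≤ ∏ s : Fin 2, pk (5 / 2) p.R (x 0 - x s.succ) :=
      Finset.prod_nonneg fun s _ => hq.nn _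
    have h1 : kA τ x ≤ D * ∏ s : Fin 2, pk (5 / 2) p.R (x 0 - x s.succ) :=
      (hKF.dA x).trans (mul_le_mul_of_nonneg_right hCD hP)
    calc K x = D⁻¹ * kA τ x := rfl
      _ ≤ D⁻¹ * (D * ∏ s : Fin 2, pk (5 / 2) p.R (x 0 - x s.succ)) :=
          mul_le_mul_of_nonneg_left h1 (inv_nonneg.2 hD0.le)
      _ = _ := by rw [← mul_assoc, inv_mul_cancel₀ hD0.ne', one_mul]
  have hQa := hca C ι p β θ u p.R p.R _ _ _ _ _ _ K K _ _ hY hub hKc hKc hq hq hKq hKq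
  obtain ⟨hG0, hG1⟩ := hg1 ι p β θ u p.R _ _ _ K _ hY hu hKc hq
  -- the integrands
  obtain ⟨-, -, -, -, -, hgsb, -, hdvb, -⟩ := hK1 C p.R φ τ g hφ hT
  have hAb : ∀ (e : Fin 3 → ι) (c : Fin 3), BM (fun X : ι → E => dv (dr 0 c) τ (rt (X ∘ e))) :=
    fun e c => hK3 ι _ e (hdvb 0 c)
  have hGb : ∀ (e : Fin 3 → ι), BM (fun X : ι → E => gsq τ (rt (X ∘ e))) :=
    fun e => hK3 ι _ e hgsb
  have haF : ∀ i c, BM (aF p β θ τ u i c) := by
    intro i c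
    exact bm_cmul _ (hsum _ (fun e (X : ι → E) => hS p β θ u (im e) X * dv (dr 0 c) τ (rt (X ∘ e)))
      fun e _ => hmul (hhbm e) (hAb e c))
  have hf : BM (fun X => ∑ i, ∑ c, aF p β θ τ u i c X ^ 2) :=
    hsum _ _ fun i _ => hsum _ _ fun c _ => hsq (haF i c)
  have hg : BM (fun X => 1 / 6 * ∑ e ∈ Ij 3 ι, hS p β θ u (im e) X ^ 2 * gsq τ (rt (X ∘ e))) :=
    bm_cmul _ (hsum _ _ fun e _ => hmul (hsq (hhbm e)) (hGb e))
  have hg' : BM (fun X => ∑ e ∈ Ij 4 ι, hS p β θ u (im (s2 e)) X * (hS p β θ u (im (s3 e)) X *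
      ∑ c, dv (dr 0 c) τ (rt (X ∘ s2 e)) * dv (dr 0 c) τ (rt (X ∘ s3 e)))) :=
    hsum _ _ fun e _ => hmul (hhbm (k := 2) (s2 e)) (hmul (hhbm (k := 2) (s3 e))
      (hsum _ _ fun c _ => hmul (hAb _ c) (hAb _ c)))
  have hcomp : ∀ {k : ℕ} (e : Fin k → ι), Measurable fun X : ι → E => X ∘ e := by
    intro k e
    exact measurable_pi_lambda _ fun i => measurable_pi_apply (e i)
  have hKbm : ∀ e : Fin 3 → ι, BM (fun X : ι → E => K (X ∘ e)) :=
    fun e => hB4 _ _ K _ hKc.bm (hcomp e)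
  set t1 : (Fin 3 → ι) → Finset (Fin 3 → ι) := fun e =>
    (Ij 3 ι).filter (fun e' => e' 0 = e 0 ∧ (im e' \ im e).card = 2 ∧
      (im e \ im e').card = 2) with ht1
  have hSb : BM (fun X => ∑ e ∈ Ij 3 ι, ∑ e' ∈ t1 e,
      |hS p β θ u (im e) X| * (|hS p β θ u (im e') X| * (K (X ∘ e) * K (X ∘ e')))) :=
    hsum _ _ fun e _ => hsum _ _ fun e' _ => hmul (hab (hhbm e)) (hmul (hab (hhbm e'))
      (hmul (hKbm e) (hKbm e')))
  -- the pointwise inequality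
  have hpt : ∀ X : ι → E, |(∑ i, ∑ c, aF p β θ τ u i c X ^ 2) -
      ((1 / 6 * ∑ e ∈ Ij 3 ι, hS p β θ u (im e) X ^ 2 * gsq τ (rt (X ∘ e))) +
      ∑ e ∈ Ij 4 ι, hS p β θ u (im (s2 e)) X * (hS p β θ u (im (s3 e)) X *
      ∑ c, dv (dr 0 c) τ (rt (X ∘ s2 e)) * dv (dr 0 c) τ (rt (X ∘ s3 e))))| ≤
      D ^ 2 * (∑ e ∈ Ij 3 ι, ∑ e' ∈ t1 e,
        |hS p β θ u (im e) X| * (|hS p β θ u (im e') X| * (K (X ∘ e) * K (X ∘ e')))) := by
    intro X
    have hA : ∀ e : Fin 3 → ι, ∑ c, |dv (dr 0 c) τ (rt (X ∘ e))| ≤ D * K (X ∘ e) := by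
      intro e
      rw [hKdef]
      simp only
      rw [← mul_assoc, mul_inv_cancel₀ hD0.ne', one_mul]
      exact le_rfl
    have hr1 := rem (Ij 3 ι) t1 (fun e => hS p β θ u (im e) X) (fun e => hS p β θ u (im e) X)
      (fun e c => dv (dr 0 c) τ (rt (X ∘ e))) (fun e c => dv (dr 0 c) τ (rt (X ∘ e)))
      (fun e => K (X ∘ e)) (fun e => K (X ∘ e)) D hA hA
    -- permutations
    have hper : ∀ (σ : Equiv.Perm (Fin 3)) (e : Fin 3 → ι) (c : Fin 3),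
        dv (dr 0 c) τ (rt (X ∘ (e ∘ σ))) = dv (dr (σ 0) c) τ (rt (X ∘ e)) := fun σ e c =>
      (((hTRK.2 τ hT.smooth hT.sy1 hT.sy2 (X ∘ e)).1 σ).2.2.2 c).1
    have hcm : ∀ c : Fin 3, ∑ i, aF p β θ τ u i c X ^ 2 =
        1 / 4 * (2 * (∑ e ∈ Ij 3 ι, hS p β θ u (im e) X * dv (dr 0 c) τ (rt (X ∘ e)) *
          (hS p β θ u (im e) X * dv (dr 0 c) τ (rt (X ∘ e)))) +
        4 * (∑ e ∈ Ij 4 ι, hS p β θ u (im (s2 e)) X * dv (dr 0 c) τ (rt (X ∘ s2 e)) *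
          (hS p β θ u (im (s3 e)) X * dv (dr 0 c) τ (rt (X ∘ s3 e)))) +
        (∑ e ∈ Ij 3 ι, ∑ e' ∈ t1 e, hS p β θ u (im e) X * dv (dr 0 c) τ (rt (X ∘ e)) *
          (hS p β θ u (im e') X * dv (dr 0 c) τ (rt (X ∘ e'))))) := by
      intro c
      have hF : ∀ e : Fin 3 → ι, hS p β θ u (im (e ∘ (Equiv.swap (1 : Fin 3) 2))) X *
          dv (dr 0 c) τ (rt (X ∘ (e ∘ (Equiv.swap (1 : Fin 3) 2)))) =
          hS p β θ u (im e) X * dv (dr 0 c) τ (rt (X ∘ e)) := by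
        intro e
        have h2 := ((hTUP ι).2.1 3 (Equiv.swap 1 2)).2 e
        rw [h2.1, hper]
        have h5 : (Equiv.swap (1 : Fin 3) 2) 0 = 0 := by decide
        rw [h5]
      have h1 := hCM3 ι (fun e => hS p β θ u (im e) X * dv (dr 0 c) τ (rt (X ∘ e)))
        (fun e => hS p β θ u (im e) X * dv (dr 0 c) τ (rt (X ∘ e))) hF hF
      rw [← h1, Finset.mul_sum]
      refine Finset.sum_congr rfl fun i _ => ?_
      unfold aF
      have e1 : (1 / 4 : ℝ) = 1 / 2 * (1 / 2) := by norm_num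
      rw [e1]
      ring
    have hdiag : ∑ c, ∑ e ∈ Ij 3 ι, hS p β θ u (im e) X * dv (dr 0 c) τ (rt (X ∘ e)) *
          (hS p β θ u (im e) X * dv (dr 0 c) τ (rt (X ∘ e))) =
        1 / 3 * ∑ e ∈ Ij 3 ι, hS p β θ u (im e) X ^ 2 * gsq τ (rt (X ∘ e)) := by
      have h1 : ∀ m : Fin 3, ∑ e ∈ Ij 3 ι, hS p β θ u (im e) X ^ 2 *
          ∑ c, dv (dr m c) τ (rt (X ∘ e)) ^ 2 = ∑ e ∈ Ij 3 ι, hS p β θ u (im e) X ^ 2 *
          ∑ c, dv (dr 0 c) τ (rt (X ∘ e)) ^ 2 := by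
        intro m
        have h2 := ((hTUP ι).2.1 3 (Equiv.swap 0 m)).1 (fun e => hS p β θ u (im e) X ^ 2 *
          ∑ c, dv (dr 0 c) τ (rt (X ∘ e)) ^ 2)
        rw [← h2]
        refine Finset.sum_congr rfl fun e _ => ?_
        have h3 := ((hTUP ι).2.1 3 (Equiv.swap 0 m)).2 e
        rw [h3.1]
        simp only [hper, Equiv.swap_apply_left]
      have h4 : ∑ e ∈ Ij 3 ι, hS p β θ u (im e) X ^ 2 * gsq τ (rt (X ∘ e)) =
          3 * ∑ e ∈ Ij 3 ι, hS p β θ u (im e) X ^ 2 *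
          ∑ c, dv (dr 0 c) τ (rt (X ∘ e)) ^ 2 := by
        have h5 : ∑ e ∈ Ij 3 ι, hS p β θ u (im e) X ^ 2 * gsq τ (rt (X ∘ e)) =
            ∑ m : Fin 3, ∑ e ∈ Ij 3 ι, hS p β θ u (im e) X ^ 2 *
            ∑ c, dv (dr m c) τ (rt (X ∘ e)) ^ 2 := by
          rw [Finset.sum_comm]
          refine Finset.sum_congr rfl fun e _ => ?_
          unfold gsq
          rw [Finset.mul_sum]
        rw [h5, Finset.sum_congr rfl fun m _ => h1 m]
        simp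
      rw [h4, Finset.sum_comm, ← mul_assoc]
      have e3 : (1 / 3 : ℝ) * 3 = 1 := by norm_num
      rw [e3, one_mul]
      refine Finset.sum_congr rfl fun e _ => ?_
      rw [Finset.mul_sum]
      exact Finset.sum_congr rfl fun c _ => by ring
    have hmain : (∑ i, ∑ c, aF p β θ τ u i c X ^ 2) -
        ((1 / 6 * ∑ e ∈ Ij 3 ι, hS p β θ u (im e) X ^ 2 * gsq τ (rt (X ∘ e))) +
        ∑ e ∈ Ij 4 ι, hS p β θ u (im (s2 e)) X * (hS p β θ u (im (s3 e)) X *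
        ∑ c, dv (dr 0 c) τ (rt (X ∘ s2 e)) * dv (dr 0 c) τ (rt (X ∘ s3 e)))) =
        1 / 4 * (∑ c, ∑ e ∈ Ij 3 ι, ∑ e' ∈ t1 e, hS p β θ u (im e) X *
          dv (dr 0 c) τ (rt (X ∘ e)) * (hS p β θ u (im e') X *
          dv (dr 0 c) τ (rt (X ∘ e')))) := by
      rw [Finset.sum_comm, Finset.sum_congr rfl fun c _ => hcm c, ← Finset.mul_sum,
        Finset.sum_add_distrib, Finset.sum_add_distrib, ← Finset.mul_sum, ← Finset.mul_sum, hdiag]
      have h2 : ∑ c, ∑ e ∈ Ij 4 ι, hS p β θ u (im (s2 e)) X * dv (dr 0 c) τ (rt (X ∘ s2 e)) *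
          (hS p β θ u (im (s3 e)) X * dv (dr 0 c) τ (rt (X ∘ s3 e))) =
          ∑ e ∈ Ij 4 ι, hS p β θ u (im (s2 e)) X * (hS p β θ u (im (s3 e)) X *
          ∑ c, dv (dr 0 c) τ (rt (X ∘ s2 e)) * dv (dr 0 c) τ (rt (X ∘ s3 e))) := by
        rw [Finset.sum_comm]
        refine Finset.sum_congr rfl fun e _ => ?_
        rw [Finset.mul_sum, Finset.mul_sum]
        exact Finset.sum_congr rfl fun c _ => by ring
      rw [h2]
      ring
    rw [hmain, abs_mul]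
    have h12 : |(1 / 4 : ℝ)| ≤ 1 := by norm_num
    refine (mul_le_mul_of_nonneg_right h12 (abs_nonneg _)).trans ?_
    rw [one_mul]
    exact hr1
  -- integration
  have hI : |IO p (fun X => ∑ i, ∑ c, aF p β θ τ u i c X ^ 2) -
      (IO p (fun X => 1 / 6 * ∑ e ∈ Ij 3 ι, hS p β θ u (im e) X ^ 2 * gsq τ (rt (X ∘ e))) +
      IO p (fun X => ∑ e ∈ Ij 4 ι, hS p β θ u (im (s2 e)) X * (hS p β θ u (im (s3 e)) X *
      ∑ c, dv (dr 0 c) τ (rt (X ∘ s2 e)) * dv (dr 0 c) τ (rt (X ∘ s3 e)))))| ≤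
      D ^ 2 * IO p (fun X => ∑ e ∈ Ij 3 ι, ∑ e' ∈ t1 e,
        |hS p β θ u (im e) X| * (|hS p β θ u (im e') X| * (K (X ∘ e) * K (X ∘ e')))) := by
    unfold IO
    rw [← integral_add (hint _ hg) (hint _ hg'), ← integral_sub (hint _ hf)
      (hint _ (hadd hg hg')), ← integral_const_mul]
    refine (abs_integral_le_integral_abs).trans ?_
    exact integral_mono (hint _ (hab (hsub hf (hadd hg hg')))) (hint _ (bm_cmul _ hSb)) hpt
  refine hI.trans ?_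
  rw [mul_assoc, mul_assoc Ca]
  refine mul_le_mul_of_nonneg_left (hQa.trans ?_) (by positivity)
  rw [mul_assoc, Real.mul_self_sqrt hG0]
  refine mul_le_mul_of_nonneg_left (hG1.trans (le_of_eq ?_)) hCa.le
  unfold E33
  ring

end Pool.Agent.TBS
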