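import Pool.Agent.TBS.StmtsB

/-!
# Squad TBS: module QK2 (the product of `aF` and `bF`)
-/

set_option autoImplicit false

open MeasureTheory Filter Topology
open scoped ContDiff

namespace Pool.Agent.TBS

open Pool.Agent.TBG Pool.Agent.TBL Pool.Agent.TBF

namespace QK2_

lemma bm_of_cu {ι : Type} [Fintype ι] {u : (ι → E) → ℝ} (hu : CU u) : BM u := by
  obtain ⟨h1, h2⟩ := hu
  obtain ⟨C, hC⟩ := h1.continuous.bounded_above_of_compact_support h2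
  exact ⟨h1.continuous.measurable, C, fun X => by simpa using hC X⟩

lemma bm_cmul {α : Type} [MeasurableSpace α] {F : α → ℝ} (a : ℝ) (hF : BM F) :
    BM (fun X => a * F X) := by
  obtain ⟨h1, C1, b1⟩ := hF
  refine ⟨h1.const_mul a, |a| * C1, fun X => ?_⟩
  rw [abs_mul]
  exact mul_le_mul_of_nonneg_left (b1 X) (abs_nonneg _)

lemma ck_scale {m : ℕ} {l κ κ' D : ℝ} {K : (Fin (m + 1) → E) → ℝ} (hD : 0 < D)
    (hκ : κ' ≤ D * κ) (h : Ck m l κ' K) : Ck m l κ (fun x => D⁻¹ * K x) where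
  bm := bm_cmul _ h.bm
  nn := fun x => mul_nonneg (inv_nonneg.2 hD.le) (h.nn x)
  sp := fun x hx => h.sp x (right_ne_zero_of_mul hx)
  mass := fun x₀ => by
    rw [integral_const_mul]
    have h1 := (h.mass x₀).trans hκ
    calc D⁻¹ * ∫ z : Fin m → E, K (Fin.cons x₀ z) ≤ D⁻¹ * (D * κ) :=
          mul_le_mul_of_nonneg_left h1 (inv_nonneg.2 hD.le)
      _ = κ := by field_simp

lemma pk_weak {l w₁ w₂ w₃ v₁ v₂ v₃ : ℝ} {q : E → ℝ} (h : Pk l w₁ w₂ w₃ q) (h1 : w₁ ≤ v₁)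
    (h2 : w₂ ≤ v₂) (h3 : w₃ ≤ v₃) : Pk l v₁ v₂ v₃ q where
  meas := h.meas
  nn := h.nn
  le1 := h.le1
  sp := h.sp
  m1 := h.m1.trans h1
  m2 := fun x => (h.m2 x).trans h2
  m3 := h.m3.trans h3

/-- the sum over the components -/
lemma abs_comp {A B : Fin 3 → ℝ} : ∑ c, |A c * B c| ≤ (∑ c, |A c|) * ∑ c, |B c| := by
  rw [Finset.sum_mul_sum]
  refine Finset.sum_le_sum fun c _ => ?_
  rw [abs_mul]
  exact Finset.single_le_sum (f := fun d => |A c| * |B d|)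
    (fun d _ => mul_nonneg (abs_nonneg _) (abs_nonneg _)) (Finset.mem_univ c)

/-- a remainder -/
lemma rem {I J : Type} (s : Finset I) (t : I → Finset J) (h : I → ℝ) (k : J → ℝ)
    (A : I → Fin 3 → ℝ) (B : J → Fin 3 → ℝ) (a : I → ℝ) (b : J → ℝ) (D : ℝ)
    (hA : ∀ i, ∑ c, |A i c| ≤ D * a i) (hB : ∀ j, ∑ c, |B j c| ≤ D * b j) :
    |∑ c, ∑ i ∈ s, ∑ j ∈ t i, h i * A i c * (k j * B j c)| ≤
      D ^ 2 * ∑ i ∈ s, ∑ j ∈ t i, |h i| * (|k j| * (a i * b j)) := by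
  have h1 : ∑ c, ∑ i ∈ s, ∑ j ∈ t i, h i * A i c * (k j * B j c) =
      ∑ i ∈ s, ∑ j ∈ t i, ∑ c, h i * A i c * (k j * B j c) := by
    rw [Finset.sum_comm]
    refine Finset.sum_congr rfl fun i _ => ?_
    rw [Finset.sum_comm]
  rw [h1, Finset.mul_sum]
  refine (Finset.abs_sum_le_sum_abs _ _).trans (Finset.sum_le_sum fun i _ => ?_)
  rw [Finset.mul_sum]
  refine (Finset.abs_sum_le_sum_abs _ _).trans (Finset.sum_le_sum fun j _ => ?_)
  have h2 : ∑ c, h i * A i c * (k j * B j c) = (h i * k j) * ∑ c, A i c * B j c := by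
    rw [Finset.mul_sum]
    exact Finset.sum_congr rfl fun c _ => by ring
  rw [h2, abs_mul, abs_mul]
  have h3 : |∑ c, A i c * B j c| ≤ (D * a i) * (D * b j) := by
    refine (Finset.abs_sum_le_sum_abs _ _).trans (abs_comp.trans ?_)
    exact mul_le_mul (hA i) (hB j) (Finset.sum_nonneg fun _ _ => abs_nonneg _)
      ((Finset.sum_nonneg fun _ _ => abs_nonneg _).trans (hA i))
  calc |h i| * |k j| * |∑ c, A i c * B j c| ≤ |h i| * |k j| * ((D * a i) * (D * b j)) :=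
        mul_le_mul_of_nonneg_left h3 (mul_nonneg (abs_nonneg _) (abs_nonneg _))
    _ = D ^ 2 * (|h i| * (|k j| * (a i * b j))) := by ring

lemma fin_mO (L : ℝ) : IsFiniteMeasure (mO L) := by
  refine ⟨?_⟩
  unfold mO
  rw [Measure.restrict_apply_univ]
  have h1 : Om L ⊆ Metric.closedBall 0 |L| := by
    intro x hx
    rw [mem_closedBall_zero_iff, EuclideanSpace.norm_eq]
    refine Real.sqrt_le_iff.2 ⟨abs_nonneg _, ?_⟩
    have h2 : ∀ c : Fin 3, ‖x c‖ ^ 2 ≤ L ^ 2 / 4 := by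
      intro c
      have h3 : |x c| < L / 2 := hx c
      have h4 := abs_nonneg (x c)
      rw [Real.norm_eq_abs]
      nlinarith
    calc ∑ c : Fin 3, ‖x c‖ ^ 2 ≤ ∑ _c : Fin 3, L ^ 2 / 4 := Finset.sum_le_sum fun c _ => h2 c
      _ = 3 * (L ^ 2 / 4) := by simp
      _ ≤ |L| ^ 2 := by rw [sq_abs]; nlinarith [sq_nonneg L]
  exact (measure_mono h1).trans_lt (isCompact_closedBall _ _).measure_lt_top

lemma sq_bd {a b c d x y : ℝ} (hc : 0 ≤ c) (hd : 0 ≤ d) (ha : a ≤ c * x) (hb : b ≤ d * y) :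
    Real.sqrt a * Real.sqrt b ≤ (Real.sqrt c * Real.sqrt d) * (Real.sqrt x * Real.sqrt y) := by
  have h1 : Real.sqrt a ≤ Real.sqrt c * Real.sqrt x := by
    rw [← Real.sqrt_mul hc]
    exact Real.sqrt_le_sqrt ha
  have h2 : Real.sqrt b ≤ Real.sqrt d * Real.sqrt y := by
    rw [← Real.sqrt_mul hd]
    exact Real.sqrt_le_sqrt hb
  calc Real.sqrt a * Real.sqrt b ≤ (Real.sqrt c * Real.sqrt x) * (Real.sqrt d * Real.sqrt y) :=
        mul_le_mul h1 h2 (Real.sqrt_nonneg _) (by positivity)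
    _ = _ := by ring

end QK2_

open QK2_ in
theorem qk2_proof (hBMC : Pool.Agent.TBL.Stmt_BMC) (hHSF : Stmt_HSF) (hTUP : Stmt_TUP)
    (hCM4 : Stmt_CM4) (hTRK : Stmt_TRK) (hTRF : Stmt_TRF) (hKBM : Stmt_KBM) (hGS1 : Stmt_GS1)
    (hGS2 : Stmt_GS2) (hGS3 : Stmt_GS3) (hQEG : Stmt_QEG) : Stmt_QK2 := by
  intro C
  obtain ⟨Ca, hCa, hca⟩ := hQEG 2 3 2 1
  obtain ⟨Cb, hCb, hcb⟩ := hQEG 2 3 3 2
  obtain ⟨c1, hc1, hg1⟩ := hGS2 C 2
  obtain ⟨c2, hc2, hg2⟩ := hGS1 C 3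
  obtain ⟨c3, hc3, hg3⟩ := hGS3 C 2
  obtain ⟨c4, hc4, hg4⟩ := hGS2 C 3
  obtain ⟨C₂, hC₂, hhs⟩ := hHSF C
  set D : ℝ := max C 1 with hDdef
  have hD1 : 1 ≤ D := le_max_right _ _
  have hD0 : 0 < D := lt_of_lt_of_le one_pos hD1
  have hCD : C ≤ D := le_max_left _ _
  have hD2 : D ≤ D ^ 2 := by nlinarith
  refine ⟨D ^ 2 * (Ca * (Real.sqrt (c1 * D ^ 2) * Real.sqrt (c2 * D)) +
    Cb * (Real.sqrt (c3 * D ^ 3) * Real.sqrt (c4 * D ^ 2))), by positivity, ?_⟩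
  intro ι _ _ p β θ φ τ g y Y g₄ u hY hu hφ hT hy hDu hKF
  classical
  have hub : BM u := bm_of_cu hu
  have hR1 : 1 ≤ p.R := hY.hR
  have hl1 : 1 ≤ p.l := hR1.trans hY.hl
  obtain ⟨hB1, hB2, hB3, hB4, hB5⟩ := hBMC
  obtain ⟨hK1, hK2, hK3, hK4⟩ := hKBM
  have hmul : ∀ {α : Type} [MeasurableSpace α] {F G : α → ℝ}, BM F → BM G →
      BM (fun X => F X * G X) := fun {α} _ {F G} hF hG => (hB1 _ F G hF hG).2.2.1
  have hsub : ∀ {α : Type} [MeasurableSpace α] {F G : α → ℝ}, BM F → BM G →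
      BM (fun X => F X - G X) := fun {α} _ {F G} hF hG => (hB1 _ F G hF hG).2.1
  have hadd : ∀ {α : Type} [MeasurableSpace α] {F G : α → ℝ}, BM F → BM G →
      BM (fun X => F X + G X) := fun {α} _ {F G} hF hG => (hB1 _ F G hF hG).1
  have hab : ∀ {α : Type} [MeasurableSpace α] {F : α → ℝ}, BM F → BM (fun X => |F X|) :=
    fun {α} _ {F} hF => (hB1 _ F F hF hF).2.2.2.2.1
  have hsum : ∀ {α J : Type} [MeasurableSpace α] (s : Finset J) (F : J → α → ℝ),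
      (∀ i ∈ s, BM (F i)) → BM (fun X => ∑ i ∈ s, F i X) := fun {α J} _ s F h => hB3 α J s F h
  have hint : ∀ (F : (ι → E) → ℝ), BM F →
      Integrable F (PiS (mO p.L) (mO p.L) (∅ : Finset ι)) := by
    have hmO : IsFiniteMeasure (mO p.L) := fin_mO p.L
    have hfO : IsFiniteMeasure (PiS (mO p.L) (mO p.L) (∅ : Finset ι)) := by
      unfold PiS
      have : ∀ i, IsFiniteMeasure (if i ∈ (∅ : Finset ι) then mO p.L else mO p.L) := by
        intro i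
        split_ifs <;> infer_instance
      infer_instance
    exact fun F hF => (hB1 _ F F hF hF).2.2.2.2.2.2 _
  have him : ∀ {k : ℕ} (e : Fin (k + 1) → ι), (im e).Nonempty := by
    intro k e
    exact ⟨e 0, Finset.mem_image_of_mem _ (Finset.mem_univ _)⟩
  have hhbm : ∀ {k : ℕ} (e : Fin (k + 1) → ι), BM (hS p β θ u (im e)) :=
    fun e => (hhs ι p β θ u (im e) hY hub (him e)).1
  -- the kernels
  set K : (Fin 3 → E) → ℝ := fun x => D⁻¹ * kA τ x with hKdef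
  set K' : (Fin 4 → E) → ℝ := fun x => D⁻¹ * kB Y x with hKdef'
  have hKc : Ck 2 p.l p.R K := ck_scale hD0
    (mul_le_mul_of_nonneg_right hCD (zero_le_one.trans hR1)) hKF.cA
  have hKc' : Ck 3 p.l p.l K' := ck_scale hD0
    (mul_le_mul_of_nonneg_right hCD (zero_le_one.trans hl1)) hKF.cB
  have hq : Pk p.l (D * Real.sqrt p.R) D (D ^ 2) (pk (5 / 2) p.R) := pk_weak hKF.pA
    (mul_le_mul_of_nonneg_right hCD (Real.sqrt_nonneg _)) hCD (hCD.trans hD2)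
  have hq' : Pk p.l (D * p.l ^ (1 / 3 : ℝ)) D (D ^ 2) (pk (8 / 3) p.l) := pk_weak hKF.pB
    (mul_le_mul_of_nonneg_right hCD (Real.rpow_nonneg (zero_le_one.trans hl1) _)) hCD
    (hCD.trans hD2)
  have hKq : ∀ x, K x ≤ ∏ s : Fin 2, pk (5 / 2) p.R (x 0 - x s.succ) := by
    intro x
    have hP : 0 ≤ ∏ s : Fin 2, pk (5 / 2) p.R (x 0 - x s.succ) :=
      Finset.prod_nonneg fun s _ => hq.nn _
    have h1 : kA τ x ≤ D * ∏ s : Fin 2, pk (5 / 2) p.R (x 0 - x s.succ) :=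
      (hKF.dA x).trans (mul_le_mul_of_nonneg_right hCD hP)
    calc K x = D⁻¹ * kA τ x := rfl
      _ ≤ D⁻¹ * (D * ∏ s : Fin 2, pk (5 / 2) p.R (x 0 - x s.succ)) :=
          mul_le_mul_of_nonneg_left h1 (inv_nonneg.2 hD0.le)
      _ = _ := by rw [← mul_assoc, inv_mul_cancel₀ hD0.ne', one_mul]
  have hKq' : ∀ x, K' x ≤ ∏ s : Fin 3, pk (8 / 3) p.l (x 0 - x s.succ) := by
    intro x
    have hP : 0 ≤ ∏ s : Fin 3, pk (8 / 3) p.l (x 0 - x s.succ) :=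
      Finset.prod_nonneg fun s _ => hq'.nn _
    have h1 : kB Y x ≤ D * ∏ s : Fin 3, pk (8 / 3) p.l (x 0 - x s.succ) :=
      (hKF.dB x).trans (mul_le_mul_of_nonneg_right hCD hP)
    calc K' x = D⁻¹ * kB Y x := rfl
      _ ≤ D⁻¹ * (D * ∏ s : Fin 3, pk (8 / 3) p.l (x 0 - x s.succ)) :=
          mul_le_mul_of_nonneg_left h1 (inv_nonneg.2 hD0.le)
      _ = _ := by rw [← mul_assoc, inv_mul_cancel₀ hD0.ne', one_mul]
  have hQa := hca C ι p β θ u p.R p.l _ _ _ _ _ _ K K' _ _ hY hub hKc hKc' hq hq' hKq hKq'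
  have hQb := hcb C ι p β θ u p.R p.l _ _ _ _ _ _ K K' _ _ hY hub hKc hKc' hq hq' hKq hKq'
  have hG1 := (hg1 ι p β θ u p.R _ _ _ K _ hY hu hKc hq').2
  have hG2 := (hg2 ι p β θ u p.l _ _ _ K' _ hY hu hKc' hq).2
  have hG3 := (hg3 ι p β θ u p.R _ _ _ K _ hY hu hKc hq').2
  have hG4 := (hg4 ι p β θ u p.l _ _ _ K' _ hY hu hKc' hq).2
  set μ : ℝ := p.M / p.l ^ 3 with hμ
  set l3 : ℝ := p.l ^ (1 / 3 : ℝ) with hl3
  have hT1 : Real.sqrt (GS p θ u 2 2 K (pk (8 / 3) p.l)) *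
      Real.sqrt (GS p θ u 3 1 K' (pk (5 / 2) p.R)) ≤
      (Real.sqrt (c1 * D ^ 2) * Real.sqrt (c2 * D)) *
      (Real.sqrt (p.R * ((l3 * μ) ^ 2 * AA p θ u 3 + l3 * μ * GG p θ u 3)) *
        Real.sqrt (p.l * (Real.sqrt p.R * μ * AA p θ u 4))) := by
    refine sq_bd (by positivity) (by positivity) (hG1.trans (le_of_eq ?_)) (hG2.trans (le_of_eq ?_))
    · ring
    · ring
  have hT2 : Real.sqrt (GS p θ u 2 3 K (pk (8 / 3) p.l)) *
      Real.sqrt (GS p θ u 3 2 K' (pk (5 / 2) p.R)) ≤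
      (Real.sqrt (c3 * D ^ 3) * Real.sqrt (c4 * D ^ 2)) *
      (Real.sqrt (p.R * ((l3 * μ) ^ 3 * AA p θ u 3 + (l3 ^ 2 + p.l ^ 3) * μ ^ 2 * GG p θ u 3)) *
        Real.sqrt (p.l * ((Real.sqrt p.R * μ) ^ 2 * AA p θ u 4 +
          Real.sqrt p.R * μ * GG p θ u 4))) := by
    refine sq_bd (by positivity) (by positivity) (hG3.trans (le_of_eq ?_)) (hG4.trans (le_of_eq ?_))
    · ring
    · ring
  -- the integrands
  obtain ⟨-, -, -, -, -, -, -, hdvb, -⟩ := hK1 C p.R φ τ g hφ hT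
  obtain ⟨-, -, -, hYb, -⟩ := hK2 C p.l φ y Y g₄ hφ hy hDu
  have hAb : ∀ (e : Fin 3 → ι) (c : Fin 3), BM (fun X : ι → E => dv (dr 0 c) τ (rt (X ∘ e))) :=
    fun e c => hK3 ι _ e (hdvb 0 c)
  have hBb : ∀ (e : Fin 4 → ι) (c : Fin 3), BM (fun X : ι → E => Y 0 c (rl (X ∘ e))) :=
    fun e c => hK4 ι _ e (hYb 0 c)
  have haF : ∀ i c, BM (aF p β θ τ u i c) := by
    intro i c
    exact bm_cmul _ (hsum _ (fun e (X : ι → E) => hS p β θ u (im e) X * dv (dr 0 c) τ (rt (X ∘ e)))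
      fun e _ => hmul (hhbm e) (hAb e c))
  have hbF : ∀ i c, BM (bF p β θ Y u i c) := by
    intro i c
    exact bm_cmul _ (hsum _ (fun e (X : ι → E) => hS p β θ u (im e) X * Y 0 c (rl (X ∘ e)))
      fun e _ => hmul (hhbm e) (hBb e c))
  have hf : BM (fun X => ∑ i, ∑ c, aF p β θ τ u i c X * bF p β θ Y u i c X) :=
    hsum _ _ fun i _ => hsum _ _ fun c _ => hmul (haF i c) (hbF i c)
  have hg : BM (fun X => 1 / 2 * ∑ e ∈ Ij 4 ι, hS p β θ u (im (s2 e)) X * (hS p β θ u (im e) X *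
      ∑ c, dv (dr 0 c) τ (rt (X ∘ s2 e)) * Y 0 c (rl (X ∘ e)))) := by
    refine bm_cmul _ (hsum _ _ fun e _ => hmul (hhbm (k := 2) (s2 e)) (hmul (hhbm e)
      (hsum _ _ fun c _ => hmul (hAb _ c) (hBb e c))))
  have hcomp : ∀ {k : ℕ} (e : Fin k → ι), Measurable fun X : ι → E => X ∘ e := by
    intro k e
    exact measurable_pi_lambda _ fun i => measurable_pi_apply (e i)
  have hKbm : ∀ e : Fin 3 → ι, BM (fun X : ι → E => K (X ∘ e)) :=
    fun e => hB4 _ _ K _ hKc.bm (hcomp e)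
  have hKbm' : ∀ e : Fin 4 → ι, BM (fun X : ι → E => K' (X ∘ e)) :=
    fun e => hB4 _ _ K' _ hKc'.bm (hcomp e)
  have hSb : ∀ t : (Fin 3 → ι) → Finset (Fin 4 → ι), BM (fun X => ∑ e ∈ Ij 3 ι, ∑ e' ∈ t e,
      |hS p β θ u (im e) X| * (|hS p β θ u (im e') X| * (K (X ∘ e) * K' (X ∘ e')))) := by
    intro t
    exact hsum _ _ fun e _ => hsum _ _ fun e' _ => hmul (hab (hhbm e)) (hmul (hab (hhbm e'))
      (hmul (hKbm e) (hKbm' e')))
  set t1 : (Fin 3 → ι) → Finset (Fin 4 → ι) := fun e =>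
    (Ij 4 ι).filter (fun e' => e' 0 = e 0 ∧ (im e' \ im e).card = 2 ∧
      (im e \ im e').card = 1) with ht1
  set t2 : (Fin 3 → ι) → Finset (Fin 4 → ι) := fun e =>
    (Ij 4 ι).filter (fun e' => e' 0 = e 0 ∧ (im e' \ im e).card = 3 ∧
      (im e \ im e').card = 2) with ht2
  -- the pointwise inequality
  have hpt : ∀ X : ι → E, |(∑ i, ∑ c, aF p β θ τ u i c X * bF p β θ Y u i c X) -
      1 / 2 * ∑ e ∈ Ij 4 ι, hS p β θ u (im (s2 e)) X * (hS p β θ u (im e) X *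
      ∑ c, dv (dr 0 c) τ (rt (X ∘ s2 e)) * Y 0 c (rl (X ∘ e)))| ≤
      D ^ 2 * (∑ e ∈ Ij 3 ι, ∑ e' ∈ t1 e,
        |hS p β θ u (im e) X| * (|hS p β θ u (im e') X| * (K (X ∘ e) * K' (X ∘ e')))) +
      D ^ 2 * (∑ e ∈ Ij 3 ι, ∑ e' ∈ t2 e,
        |hS p β θ u (im e) X| * (|hS p β θ u (im e') X| * (K (X ∘ e) * K' (X ∘ e')))) := by
    intro X
    have hA : ∀ e : Fin 3 → ι, ∑ c, |dv (dr 0 c) τ (rt (X ∘ e))| ≤ D * K (X ∘ e) := by
      intro e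
      rw [hKdef]
      simp only
      rw [← mul_assoc, mul_inv_cancel₀ hD0.ne', one_mul]
      exact le_rfl
    have hB : ∀ e : Fin 4 → ι, ∑ c, |Y 0 c (rl (X ∘ e))| ≤ D * K' (X ∘ e) := by
      intro e
      rw [hKdef']
      simp only
      rw [← mul_assoc, mul_inv_cancel₀ hD0.ne', one_mul]
      exact le_rfl
    have hr1 := rem (Ij 3 ι) t1 (fun e => hS p β θ u (im e) X) (fun e => hS p β θ u (im e) X)
      (fun e c => dv (dr 0 c) τ (rt (X ∘ e))) (fun e c => Y 0 c (rl (X ∘ e)))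
      (fun e => K (X ∘ e)) (fun e => K' (X ∘ e)) D hA hB
    have hr2 := rem (Ij 3 ι) t2 (fun e => hS p β θ u (im e) X) (fun e => hS p β θ u (im e) X)
      (fun e c => dv (dr 0 c) τ (rt (X ∘ e))) (fun e c => Y 0 c (rl (X ∘ e)))
      (fun e => K (X ∘ e)) (fun e => K' (X ∘ e)) D hA hB
    have hcm : ∀ c : Fin 3, ∑ i, aF p β θ τ u i c X * bF p β θ Y u i c X =
        1 / 12 * (6 * (∑ e ∈ Ij 4 ι, hS p β θ u (im (s2 e)) X * dv (dr 0 c) τ (rt (X ∘ s2 e)) *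
          (hS p β θ u (im e) X * Y 0 c (rl (X ∘ e)))) +
        (∑ e ∈ Ij 3 ι, ∑ e' ∈ t1 e, hS p β θ u (im e) X * dv (dr 0 c) τ (rt (X ∘ e)) *
          (hS p β θ u (im e') X * Y 0 c (rl (X ∘ e')))) +
        (∑ e ∈ Ij 3 ι, ∑ e' ∈ t2 e, hS p β θ u (im e) X * dv (dr 0 c) τ (rt (X ∘ e)) *
          (hS p β θ u (im e') X * Y 0 c (rl (X ∘ e'))))) := by
      intro c
      have h1 := hCM4 ι (fun e => hS p β θ u (im e) X * dv (dr 0 c) τ (rt (X ∘ e)))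
        (fun e => hS p β θ u (im e) X * Y 0 c (rl (X ∘ e))) ?_ ?_
      · rw [← h1, Finset.mul_sum]
        refine Finset.sum_congr rfl fun i _ => ?_
        unfold aF bF
        have e1 : (1 / 12 : ℝ) = 1 / 2 * (1 / 6) := by norm_num
        rw [e1]
        ring
      · intro e
        have h2 := ((hTUP ι).2.1 3 (Equiv.swap 1 2)).2 e
        have h3 := (((hTRK.2 τ hT.smooth hT.sy1 hT.sy2 (X ∘ e)).1 (Equiv.swap 1 2)).2.2.2 c).1
        rw [h2.1]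
        have h4 : X ∘ (e ∘ (Equiv.swap (1 : Fin 3) 2)) = (X ∘ e) ∘ (Equiv.swap (1 : Fin 3) 2) := rfl
        rw [h4, h3]
        have h5 : (Equiv.swap (1 : Fin 3) 2) 0 = 0 := by decide
        rw [h5]
      · intro σ e hσ
        have h2 := ((hTUP ι).2.1 4 σ).2 e
        have h3 := (((hTRF.2.1 (X ∘ e) σ).2 φ y p.l C Y g₄ hDu).2 c).1
        rw [h2.1]
        have h4 : X ∘ (e ∘ σ) = (X ∘ e) ∘ σ := rfl
        rw [h4, h3, hσ]
    have hmain : (∑ i, ∑ c, aF p β θ τ u i c X * bF p β θ Y u i c X) -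
        1 / 2 * ∑ e ∈ Ij 4 ι, hS p β θ u (im (s2 e)) X * (hS p β θ u (im e) X *
        ∑ c, dv (dr 0 c) τ (rt (X ∘ s2 e)) * Y 0 c (rl (X ∘ e))) =
        1 / 12 * ((∑ c, ∑ e ∈ Ij 3 ι, ∑ e' ∈ t1 e, hS p β θ u (im e) X *
          dv (dr 0 c) τ (rt (X ∘ e)) * (hS p β θ u (im e') X * Y 0 c (rl (X ∘ e')))) +
        ∑ c, ∑ e ∈ Ij 3 ι, ∑ e' ∈ t2 e, hS p β θ u (im e) X *
          dv (dr 0 c) τ (rt (X ∘ e)) * (hS p β θ u (im e') X * Y 0 c (rl (X ∘ e')))) := by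
      rw [Finset.sum_comm, Finset.sum_congr rfl fun c _ => hcm c, ← Finset.mul_sum,
        Finset.sum_add_distrib, Finset.sum_add_distrib, ← Finset.mul_sum]
      have h2 : ∑ c, ∑ e ∈ Ij 4 ι, hS p β θ u (im (s2 e)) X * dv (dr 0 c) τ (rt (X ∘ s2 e)) *
          (hS p β θ u (im e) X * Y 0 c (rl (X ∘ e))) =
          ∑ e ∈ Ij 4 ι, hS p β θ u (im (s2 e)) X * (hS p β θ u (im e) X *
          ∑ c, dv (dr 0 c) τ (rt (X ∘ s2 e)) * Y 0 c (rl (X ∘ e))) := by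
        rw [Finset.sum_comm]
        refine Finset.sum_congr rfl fun e _ => ?_
        rw [Finset.mul_sum, Finset.mul_sum]
        exact Finset.sum_congr rfl fun c _ => by ring
      rw [h2]
      ring
    rw [hmain, abs_mul]
    have h12 : |(1 / 12 : ℝ)| ≤ 1 := by norm_num
    refine (mul_le_mul_of_nonneg_right h12 (abs_nonneg _)).trans ?_
    rw [one_mul]
    exact (abs_add_le _ _).trans (add_le_add hr1 hr2)
  -- integration
  have hI : |IO p (fun X => ∑ i, ∑ c, aF p β θ τ u i c X * bF p β θ Y u i c X) -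
      IO p (fun X => 1 / 2 * ∑ e ∈ Ij 4 ι, hS p β θ u (im (s2 e)) X * (hS p β θ u (im e) X *
      ∑ c, dv (dr 0 c) τ (rt (X ∘ s2 e)) * Y 0 c (rl (X ∘ e))))| ≤
      D ^ 2 * IO p (fun X => ∑ e ∈ Ij 3 ι, ∑ e' ∈ t1 e,
        |hS p β θ u (im e) X| * (|hS p β θ u (im e') X| * (K (X ∘ e) * K' (X ∘ e')))) +
      D ^ 2 * IO p (fun X => ∑ e ∈ Ij 3 ι, ∑ e' ∈ t2 e,
        |hS p β θ u (im e) X| * (|hS p β θ u (im e') X| * (K (X ∘ e) * K' (X ∘ e')))) := by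
    unfold IO
    rw [← integral_sub (hint _ hf) (hint _ hg), ← integral_const_mul, ← integral_const_mul,
      ← integral_add (hint _ (bm_cmul _ (hSb t1))) (hint _ (bm_cmul _ (hSb t2)))]
    refine (abs_integral_le_integral_abs).trans ?_
    exact integral_mono (hint _ (hab (hsub hf hg)))
      (hint _ (hadd (bm_cmul _ (hSb t1)) (bm_cmul _ (hSb t2)))) hpt
  refine hI.trans ?_
  unfold E34
  rw [← hμ, ← hl3]
  set A1 := Real.sqrt (p.R * ((l3 * μ) ^ 2 * AA p θ u 3 + l3 * μ * GG p θ u 3)) *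
        Real.sqrt (p.l * (Real.sqrt p.R * μ * AA p θ u 4)) with hA1
  set A2 := Real.sqrt (p.R * ((l3 * μ) ^ 3 * AA p θ u 3 + (l3 ^ 2 + p.l ^ 3) * μ ^ 2 *
        GG p θ u 3)) * Real.sqrt (p.l * ((Real.sqrt p.R * μ) ^ 2 * AA p θ u 4 +
          Real.sqrt p.R * μ * GG p θ u 4)) with hA2
  have hA1n : 0 ≤ A1 := by positivity
  have hA2n : 0 ≤ A2 := by positivity
  have h1 : IO p (fun X => ∑ e ∈ Ij 3 ι, ∑ e' ∈ t1 e,
        |hS p β θ u (im e) X| * (|hS p β θ u (im e') X| * (K (X ∘ e) * K' (X ∘ e')))) ≤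
        Ca * ((Real.sqrt (c1 * D ^ 2) * Real.sqrt (c2 * D)) * A1) := by
    refine hQa.trans ?_
    rw [mul_assoc]
    exact mul_le_mul_of_nonneg_left hT1 hCa.le
  have h2 : IO p (fun X => ∑ e ∈ Ij 3 ι, ∑ e' ∈ t2 e,
        |hS p β θ u (im e) X| * (|hS p β θ u (im e') X| * (K (X ∘ e) * K' (X ∘ e')))) ≤
        Cb * ((Real.sqrt (c3 * D ^ 3) * Real.sqrt (c4 * D ^ 2)) * A2) := by
    refine hQb.trans ?_
    rw [mul_assoc]
    exact mul_le_mul_of_nonneg_left hT2 hCb.le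
  set x1 := Ca * (Real.sqrt (c1 * D ^ 2) * Real.sqrt (c2 * D)) with hx1
  set x2 := Cb * (Real.sqrt (c3 * D ^ 3) * Real.sqrt (c4 * D ^ 2)) with hx2
  have hx1n : 0 ≤ x1 := by positivity
  have hx2n : 0 ≤ x2 := by positivity
  calc D ^ 2 * IO p (fun X => ∑ e ∈ Ij 3 ι, ∑ e' ∈ t1 e,
        |hS p β θ u (im e) X| * (|hS p β θ u (im e') X| * (K (X ∘ e) * K' (X ∘ e')))) +
      D ^ 2 * IO p (fun X => ∑ e ∈ Ij 3 ι, ∑ e' ∈ t2 e,
        |hS p β θ u (im e) X| * (|hS p β θ u (im e') X| * (K (X ∘ e) * K' (X ∘ e'))))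
      ≤ D ^ 2 * (x1 * A1) + D ^ 2 * (x2 * A2) := by
        refine add_le_add (mul_le_mul_of_nonneg_left (h1.trans (le_of_eq ?_)) (by positivity))
          (mul_le_mul_of_nonneg_left (h2.trans (le_of_eq ?_)) (by positivity))
        · rw [hx1]; ring
        · rw [hx2]; ring
    _ ≤ D ^ 2 * (x1 + x2) * (A1 + A2) := by
        have e1 : D ^ 2 * (x1 + x2) * (A1 + A2) = D ^ 2 * (x1 * A1) + D ^ 2 * (x2 * A2) +
            D ^ 2 * (x1 * A2 + x2 * A1) := by ring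
        rw [e1]
        have : 0 ≤ D ^ 2 * (x1 * A2 + x2 * A1) := by positivity
        linarith

end Pool.Agent.TBS
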