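import Pool.Agent.TBS.StmtsB

/-!
# Squad TBS: module QK3 (the square of `bF`)
-/

set_option autoImplicit false

open MeasureTheory Filter Topology
open scoped ContDiff

namespace Pool.Agent.TBS

open Pool.Agent.TBG Pool.Agent.TBL Pool.Agent.TBF

namespace QK3_

lemma bm_mul {α : Type} [MeasurableSpace α] {F G : α → ℝ} (hF : BM F) (hG : BM G) :
    BM (fun X => F X * G X) := by
  obtain ⟨h1, C1, b1⟩ := hF
  obtain ⟨h2, C2, b2⟩ := hG
  refine ⟨h1.mul h2, C1 * C2, fun X => ?_⟩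
  rw [abs_mul]
  exact mul_le_mul (b1 X) (b2 X) (abs_nonneg _) ((abs_nonneg _).trans (b1 X))

lemma bm_cm {α : Type} [MeasurableSpace α] {F : α → ℝ} (a : ℝ) (hF : BM F) :
    BM (fun X => a * F X) := bm_mul ⟨measurable_const, |a|, fun _ => le_rfl⟩ hF

lemma bm_sq {α : Type} [MeasurableSpace α] {F : α → ℝ} (hF : BM F) : BM (fun X => F X ^ 2) := by
  have : (fun X => F X ^ 2) = fun X => F X * F X := by
    funext X
    ring
  rw [this]
  exact bm_mul hF hF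

lemma bm_abs {α : Type} [MeasurableSpace α] {F : α → ℝ} (hF : BM F) : BM (fun X => |F X|) := by
  obtain ⟨h1, C1, b1⟩ := hF
  refine ⟨?_, C1, fun X => by rw [abs_abs]; exact b1 X⟩
  exact h1.abs

lemma bm_add {α : Type} [MeasurableSpace α] {F G : α → ℝ} (hF : BM F) (hG : BM G) :
    BM (fun X => F X + G X) := by
  obtain ⟨h1, C1, b1⟩ := hF
  obtain ⟨h2, C2, b2⟩ := hG
  refine ⟨h1.add h2, C1 + C2, fun X => ?_⟩
  exact (abs_add_le _ _).trans (add_le_add (b1 X) (b2 X))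

lemma bm_sum {α J : Type} [MeasurableSpace α] (s : Finset J) (F : J → α → ℝ)
    (h : ∀ i ∈ s, BM (F i)) : BM (fun X => ∑ i ∈ s, F i X) := by
  classical
  induction s using Finset.induction_on with
  | empty => exact ⟨measurable_const, 0, fun X => by simp⟩
  | insert i s hi ih =>
    have e : (fun X => ∑ k ∈ insert i s, F k X) = fun X => F i X + ∑ k ∈ s, F k X := by
      funext X
      rw [Finset.sum_insert hi]
    rw [e]
    exact bm_add (h i (Finset.mem_insert_self i s))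
      (ih fun k hk => h k (Finset.mem_insert_of_mem hk))

/-- the box has finite volume -/
lemma finO (L : ℝ) : IsFiniteMeasure (mO L) := by
  refine ⟨?_⟩
  unfold mO
  rw [Measure.restrict_apply_univ]
  have h1 : Om L ⊆ Metric.closedBall (0 : E) (3 * |L|) := by
    intro x hx
    rw [mem_closedBall_zero_iff, EuclideanSpace.norm_eq]
    have h2 : ∀ c : Fin 3, ‖x c‖ ^ 2 ≤ |L| ^ 2 := by
      intro c
      have h3 := hx c
      have h4 : |x c| ≤ |L| := by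
        have h5 := le_abs_self L
        have h6 := abs_nonneg (x c)
        linarith
      rw [Real.norm_eq_abs]
      exact pow_le_pow_left₀ (abs_nonneg _) h4 2
    have h3 : ∑ c : Fin 3, ‖x c‖ ^ 2 ≤ (3 * |L|) ^ 2 := by
      calc ∑ c : Fin 3, ‖x c‖ ^ 2 ≤ ∑ _c : Fin 3, |L| ^ 2 := Finset.sum_le_sum fun c _ => h2 c
        _ = 3 * |L| ^ 2 := by simp
        _ ≤ (3 * |L|) ^ 2 := by nlinarith [sq_nonneg |L|]
    exact (Real.sqrt_le_sqrt h3).trans (le_of_eq (Real.sqrt_sq (by positivity)))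
  exact (measure_mono h1).trans_lt measure_closedBall_lt_top

section many

variable {ι : Type} [Fintype ι] [DecidableEq ι] {p : Par} {θ : E → E → ℝ} {u : (ι → E) → ℝ}

lemma finP (p : Par) : IsFiniteMeasure (PiS (mO p.L) (mO p.L) (∅ : Finset ι)) := by
  have := finO p.L
  unfold PiS
  have : ∀ i, IsFiniteMeasure (if i ∈ (∅ : Finset ι) then mO p.L else mO p.L) := by
    intro i
    split_ifs <;> infer_instance
  infer_instance

lemma intO (p : Par) {F : (ι → E) → ℝ} (hF : BM F) :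
    Integrable F (PiS (mO p.L) (mO p.L) (∅ : Finset ι)) := by
  have := finP (ι := ι) p
  obtain ⟨h1, C, hC⟩ := hF
  exact Integrable.of_bound h1.aestronglyMeasurable C (Eventually.of_forall fun X => by
    rw [Real.norm_eq_abs]
    exact hC X)

lemma IOsum {J : Type} (s : Finset J) (F : J → (ι → E) → ℝ) (h : ∀ i ∈ s, BM (F i)) :
    IO p (fun X => ∑ i ∈ s, F i X) = ∑ i ∈ s, IO p (F i) := by
  unfold IO
  rw [integral_finsetSum _ fun i hi => intO p (h i hi)]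

lemma IOmono {F G : (ι → E) → ℝ} (hF : BM F) (hG : BM G) (h : ∀ X, F X ≤ G X) :
    IO p F ≤ IO p G := integral_mono (intO p hF) (intO p hG) h

lemma IOcm (a : ℝ) (F : (ι → E) → ℝ) : IO p (fun X => a * F X) = a * IO p F :=
  integral_const_mul _ _

lemma IOsub {F G : (ι → E) → ℝ} (hF : BM F) (hG : BM G) :
    IO p F - IO p G = IO p (fun X => F X - G X) :=
  (integral_sub (intO p hF) (intO p hG)).symm

lemma IOabs (F : (ι → E) → ℝ) : |IO p F| ≤ IO p (fun X => |F X|) := abs_integral_le_integral_abs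

lemma AA0 (hl : 0 ≤ p.l) (m : ℕ) : 0 ≤ AA p θ u m := by
  unfold TBS.AA IA
  refine mul_nonneg (by positivity) (Finset.sum_nonneg fun a _ => Finset.sum_nonneg fun e _ =>
    integral_nonneg fun X => sq_nonneg _)

lemma vt0 (a : E) (S : Finset ι) (X : ι → E) : 0 ≤ vt p a S X := by
  unfold vt
  split_ifs <;> norm_num

lemma ic0 (Q : Set E) (x : E) : 0 ≤ ic Q x := Set.indicator_nonneg (fun _ _ => zero_le_one) x

lemma GG0 (hl : 0 ≤ p.l) (m : ℕ) : 0 ≤ GG p θ u m := by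
  unfold GG IA
  refine mul_nonneg (by positivity) (Finset.sum_nonneg fun a _ => Finset.sum_nonneg fun e _ =>
    integral_nonneg fun X => mul_nonneg (vt0 _ _ _) (Finset.sum_nonneg fun j _ =>
      mul_nonneg (ic0 _ _) (Finset.sum_nonneg fun c _ => sq_nonneg _)))

end many

lemma ck_div {m : ℕ} {l κ κ' D : ℝ} {K : (Fin (m + 1) → E) → ℝ} (h : Ck m l κ K) (hD : 0 < D)
    (hk : κ ≤ D * κ') : Ck m l κ' (fun x => D⁻¹ * K x) := by
  refine ⟨bm_cm _ h.bm, fun x => mul_nonneg (by positivity) (h.nn x), fun x hx => ?_,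
    fun x₀ => ?_⟩
  · refine h.sp x fun h0 => hx ?_
    simp only [h0, mul_zero]
  · rw [integral_const_mul, inv_mul_le_iff₀ hD]
    exact (h.mass x₀).trans hk

lemma pk_mono {l w₁ w₂ w₃ w₁' w₂' w₃' : ℝ} {q : E → ℝ} (h : Pk l w₁ w₂ w₃ q) (h1 : w₁ ≤ w₁')
    (h2 : w₂ ≤ w₂') (h3 : w₃ ≤ w₃') : Pk l w₁' w₂' w₃' q :=
  ⟨h.meas, h.nn, h.le1, h.sp, h.m1.trans h1, fun x => (h.m2 x).trans h2, h.m3.trans h3⟩

/-- the value of `E44` without the masses -/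
lemma e44 {ι : Type} [Fintype ι] [DecidableEq ι] (p : Par) (θ : E → E → ℝ) (u : (ι → E) → ℝ) :
    E44 p θ u = p.l * (p.l ^ (1 / 3 : ℝ) * (p.M / p.l ^ 3) * AA p θ u 4) +
  p.l * ((p.l ^ (1 / 3 : ℝ) * (p.M / p.l ^ 3)) ^ 2 * AA p θ u 4
      + p.l ^ (1 / 3 : ℝ) * (p.M / p.l ^ 3) * GG p θ u 4) +
  p.l * ((p.l ^ (1 / 3 : ℝ) * (p.M / p.l ^ 3)) ^ 3 * AA p θ u 4
      + ((p.l ^ (1 / 3 : ℝ)) ^ 2 + p.l ^ 3) * (p.M / p.l ^ 3) ^ 2 * GG p θ u 4) := rfl

end QK3_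

open QK3_ in
theorem qk3_proof (_hBMC : Pool.Agent.TBL.Stmt_BMC) (hHSF : Stmt_HSF) (hTUP : Stmt_TUP)
    (hCM5 : Stmt_CM5) (hTRF : Stmt_TRF) (hKBM : Stmt_KBM) (hGS1 : Stmt_GS1) (hGS2 : Stmt_GS2)
    (hGS3 : Stmt_GS3) (hQEG : Stmt_QEG) : Stmt_QK3 := by
  intro C
  obtain ⟨q1, hq1, hQ1⟩ := hQEG 3 3 1 1
  obtain ⟨q2, hq2, hQ2⟩ := hQEG 3 3 2 2
  obtain ⟨q3, hq3, hQ3⟩ := hQEG 3 3 3 3
  obtain ⟨c1, hc1, hG1⟩ := hGS1 C 3
  obtain ⟨c2, hc2, hG2⟩ := hGS2 C 3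
  obtain ⟨c3, hc3, hG3⟩ := hGS3 C 3
  obtain ⟨_, _, hhs⟩ := hHSF C
  set D : ℝ := |C| + 1 with hD
  have hD1 : 1 ≤ D := by
    have := abs_nonneg C
    linarith
  have hD0 : 0 < D := by linarith
  have hCD : C ≤ D := by
    have := le_abs_self C
    linarith
  refine ⟨D ^ 5 * (q1 * c1 + q2 * c2 + q3 * c3), by positivity, ?_⟩
  intro ι _ _ p β θ φ τ y Y g₄ u hY hu hφ hy hdu hkf
  classical
  have hl1 : 1 ≤ p.l := hY.hR.trans hY.hl
  have hl0 : 0 < p.l := by linarith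
  have hM0 : 0 ≤ p.M := le_trans (by norm_num) hY.hM
  obtain ⟨-, htup2, -, -, -, htup6, htup7⟩ := hTUP ι
  have hub : BM u := by
    obtain ⟨h1, h2⟩ := hu
    obtain ⟨M, hM⟩ := h1.continuous.bounded_above_of_compact_support h2
    exact ⟨h1.continuous.measurable, M, fun X => by simpa using hM X⟩
  have him : ∀ e : Fin 4 → ι, (im e).Nonempty := fun e =>
    ⟨e 0, Finset.mem_image_of_mem _ (Finset.mem_univ _)⟩
  have hhbm : ∀ e : Fin 4 → ι, BM (hS p β θ u (im e)) :=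
    fun e => (hhs ι p β θ u (im e) hY hub (him e)).1
  have hYbm : ∀ (e : Fin 4 → ι) (c : Fin 3), BM (fun X : ι → E => Y 0 c (rl (X ∘ e))) :=
    fun e c => hKBM.2.2.2 ι (Y 0 c) e ((hKBM.2.1 C p.l φ y Y g₄ hφ hy hdu).2.2.2.1 0 c)
  have hkBbm : ∀ e : Fin 4 → ι, BM (fun X : ι → E => kB Y (X ∘ e)) :=
    fun e => bm_sum _ _ fun c _ => bm_abs (hYbm e c)
  have hkB0 : ∀ x, 0 ≤ kB Y x := fun x => Finset.sum_nonneg fun c _ => abs_nonneg _
  -- the function `F`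
  set F : Fin 3 → (ι → E) → (Fin 4 → ι) → ℝ := fun c X e =>
    hS p β θ u (im e) X * Y 0 c (rl (X ∘ e)) with hF
  have hFbm : ∀ c e, BM (fun X => F c X e) := fun c e => bm_mul (hhbm e) (hYbm e c)
  have hFsym : ∀ c X (σ : Equiv.Perm (Fin 4)) (e : Fin 4 → ι), σ 0 = 0 →
      F c X (e ∘ σ) = F c X e ∧ F c X (e ∘ σ) = F c X e := by
    intro c X σ e hσ
    have h1 : im (e ∘ σ) = im e := ((htup2 4 σ).2 e).1
    have h2 := (((hTRF.2.1 (X ∘ e) σ).2 φ y p.l C Y g₄ hdu).2 c).1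
    rw [hσ] at h2
    have h3 : F c X (e ∘ σ) = F c X e := by
      simp only [hF]
      rw [h1, ← Function.comp_assoc, h2]
    exact ⟨h3, h3⟩
  have hpt : ∀ X, ∑ i, ∑ c, bF p β θ Y u i c X ^ 2 =
      1 / 6 * ∑ e ∈ Ij 4 ι, hS p β θ u (im e) X ^ 2 * ∑ c, Y 0 c (rl (X ∘ e)) ^ 2 +
      ∑ c, 1 / 36 * ∑ r ∈ Finset.Icc 1 3, ∑ e ∈ Ij 4 ι, ∑ e' ∈ (Ij 4 ι).filter
        (fun e' => e' 0 = e 0 ∧ (im e' \ im e).card = r ∧ (im e \ im e').card = r),
        F c X e * F c X e' := by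
    intro X
    rw [Finset.sum_comm]
    have h1 : ∀ c, ∑ i, bF p β θ Y u i c X ^ 2 = 1 / 36 * (6 * ∑ e ∈ Ij 4 ι, F c X e * F c X e +
        ∑ r ∈ Finset.Icc 1 3, ∑ e ∈ Ij 4 ι, ∑ e' ∈ (Ij 4 ι).filter
        (fun e' => e' 0 = e 0 ∧ (im e' \ im e).card = r ∧ (im e \ im e').card = r),
        F c X e * F c X e') := by
      intro c
      rw [← hCM5 ι (F c X) (F c X) (hFsym c X), Finset.mul_sum]
      refine Finset.sum_congr rfl fun i _ => ?_
      unfold bF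
      simp only [hF]
      ring
    simp only [h1]
    have h2 : 1 / 6 * ∑ e ∈ Ij 4 ι, hS p β θ u (im e) X ^ 2 * ∑ c, Y 0 c (rl (X ∘ e)) ^ 2 =
        ∑ c, 1 / 6 * ∑ e ∈ Ij 4 ι, F c X e * F c X e := by
      rw [← Finset.mul_sum, Finset.sum_comm]
      congr 1
      refine Finset.sum_congr rfl fun e _ => ?_
      rw [Finset.mul_sum]
      refine Finset.sum_congr rfl fun c _ => ?_
      simp only [hF]
      ring
    rw [h2, ← Finset.sum_add_distrib]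
    refine Finset.sum_congr rfl fun c _ => ?_
    ring
  -- the cross terms
  set G : ℕ → (ι → E) → ℝ := fun r X => ∑ e ∈ Ij 4 ι, ∑ e' ∈ (Ij 4 ι).filter
        (fun e' => e' 0 = e 0 ∧ (im e' \ im e).card = r ∧ (im e \ im e').card = r),
        |hS p β θ u (im e) X| * (|hS p β θ u (im e') X| * (kB Y (X ∘ e) * kB Y (X ∘ e'))) with hG
  have hGbm : ∀ r, BM (G r) := fun r => bm_sum _ _ fun e _ => bm_sum _ _ fun e' _ =>
    bm_mul (bm_abs (hhbm e)) (bm_mul (bm_abs (hhbm e')) (bm_mul (hkBbm e) (hkBbm e')))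
  have hcross : ∀ X r, |∑ c, ∑ e ∈ Ij 4 ι, ∑ e' ∈ (Ij 4 ι).filter
        (fun e' => e' 0 = e 0 ∧ (im e' \ im e).card = r ∧ (im e \ im e').card = r),
        F c X e * F c X e'| ≤ G r X := by
    intro X r
    rw [Finset.sum_comm]
    refine (Finset.abs_sum_le_sum_abs _ _).trans (Finset.sum_le_sum fun e _ => ?_)
    rw [Finset.sum_comm]
    refine (Finset.abs_sum_le_sum_abs _ _).trans (Finset.sum_le_sum fun e' _ => ?_)
    refine (Finset.abs_sum_le_sum_abs _ _).trans ?_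
    have h1 : ∑ c, |F c X e * F c X e'| = |hS p β θ u (im e) X| * (|hS p β θ u (im e') X| *
        ∑ c, |Y 0 c (rl (X ∘ e))| * |Y 0 c (rl (X ∘ e'))|) := by
      rw [Finset.mul_sum, Finset.mul_sum]
      refine Finset.sum_congr rfl fun c _ => ?_
      simp only [hF, abs_mul]
      ring
    rw [h1]
    refine mul_le_mul_of_nonneg_left (mul_le_mul_of_nonneg_left ?_ (abs_nonneg _)) (abs_nonneg _)
    unfold kB
    rw [Finset.sum_mul]
    refine Finset.sum_le_sum fun c _ => mul_le_mul_of_nonneg_left ?_ (abs_nonneg _)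
    exact Finset.single_le_sum (f := fun c => |Y 0 c (rl (X ∘ e'))|)
      (fun c _ => abs_nonneg _) (Finset.mem_univ c)
  -- the difference
  have hBF : BM (fun X => 1 / 6 * ∑ e ∈ Ij 4 ι, hS p β θ u (im e) X ^ 2 *
      ∑ c, Y 0 c (rl (X ∘ e)) ^ 2) := bm_cm _ (bm_sum _ _ fun e _ => bm_mul (bm_sq (hhbm e))
        (bm_sum _ _ fun c _ => bm_sq (hYbm e c)))
  have hCR : BM (fun X => ∑ c, 1 / 36 * ∑ r ∈ Finset.Icc 1 3, ∑ e ∈ Ij 4 ι,
      ∑ e' ∈ (Ij 4 ι).filter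
        (fun e' => e' 0 = e 0 ∧ (im e' \ im e).card = r ∧ (im e \ im e').card = r),
        F c X e * F c X e') := bm_sum _ _ fun c _ => bm_cm _ (bm_sum _ _ fun r _ =>
          bm_sum _ _ fun e _ => bm_sum _ _ fun e' _ => bm_mul (hFbm c e) (hFbm c e'))
  have hdiff : IO p (fun X => ∑ i, ∑ c, bF p β θ Y u i c X ^ 2) -
      IO p (fun X => 1 / 6 * ∑ e ∈ Ij 4 ι, hS p β θ u (im e) X ^ 2 *
        ∑ c, Y 0 c (rl (X ∘ e)) ^ 2) =
      IO p (fun X => ∑ c, 1 / 36 * ∑ r ∈ Finset.Icc 1 3, ∑ e ∈ Ij 4 ι,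
      ∑ e' ∈ (Ij 4 ι).filter
        (fun e' => e' 0 = e 0 ∧ (im e' \ im e).card = r ∧ (im e \ im e').card = r),
        F c X e * F c X e') := by
    simp only [hpt]
    rw [IOsub (bm_add hBF hCR) hBF]
    congr 1
    funext X
    ring
  rw [hdiff]
  refine (IOabs _).trans ?_
  have hle : IO p (fun X => |∑ c, 1 / 36 * ∑ r ∈ Finset.Icc 1 3, ∑ e ∈ Ij 4 ι,
      ∑ e' ∈ (Ij 4 ι).filter
        (fun e' => e' 0 = e 0 ∧ (im e' \ im e).card = r ∧ (im e \ im e').card = r),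
        F c X e * F c X e'|) ≤ IO p (fun X => ∑ r ∈ Finset.Icc 1 3, G r X) := by
    refine IOmono (bm_abs hCR) (bm_sum _ _ fun r _ => hGbm r) fun X => ?_
    have h1 : ∑ c, 1 / 36 * ∑ r ∈ Finset.Icc 1 3, ∑ e ∈ Ij 4 ι, ∑ e' ∈ (Ij 4 ι).filter
        (fun e' => e' 0 = e 0 ∧ (im e' \ im e).card = r ∧ (im e \ im e').card = r),
        F c X e * F c X e' = 1 / 36 * ∑ r ∈ Finset.Icc 1 3, ∑ c, ∑ e ∈ Ij 4 ι,
        ∑ e' ∈ (Ij 4 ι).filter
        (fun e' => e' 0 = e 0 ∧ (im e' \ im e).card = r ∧ (im e \ im e').card = r),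
        F c X e * F c X e' := by
      rw [← Finset.mul_sum, Finset.sum_comm]
    rw [h1, abs_mul]
    have h2 : |∑ r ∈ Finset.Icc 1 3, ∑ c, ∑ e ∈ Ij 4 ι, ∑ e' ∈ (Ij 4 ι).filter
        (fun e' => e' 0 = e 0 ∧ (im e' \ im e).card = r ∧ (im e \ im e').card = r),
        F c X e * F c X e'| ≤ ∑ r ∈ Finset.Icc 1 3, G r X :=
      (Finset.abs_sum_le_sum_abs _ _).trans (Finset.sum_le_sum fun r _ => hcross X r)
    have h3 : |(1 / 36 : ℝ)| ≤ 1 := by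
      rw [abs_of_pos (by norm_num)]
      norm_num
    exact (mul_le_mul h3 h2 (abs_nonneg _) zero_le_one).trans (one_mul _).le
  refine hle.trans ?_
  rw [IOsum _ _ fun r _ => hGbm r]
  -- the kernels
  set q : E → ℝ := pk (8 / 3) p.l with hq
  have hPk : Pk p.l (D * p.l ^ (1 / 3 : ℝ)) D D q :=
    pk_mono hkf.pB (mul_le_mul_of_nonneg_right hCD (by positivity)) hCD hCD
  have hCk : Ck 3 p.l p.l (fun x => D⁻¹ * kB Y x) :=
    ck_div hkf.cB hD0 (mul_le_mul_of_nonneg_right hCD hl0.le)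
  have hKle : ∀ x, D⁻¹ * kB Y x ≤ ∏ s : Fin 3, q (x 0 - x s.succ) := by
    intro x
    rw [inv_mul_le_iff₀ hD0]
    refine (hkf.dB x).trans (mul_le_mul_of_nonneg_right hCD ?_)
    exact Finset.prod_nonneg fun s _ => hPk.nn _
  have hGr : ∀ (r : ℕ) (Q : ℝ), 0 < Q →
      (IO p (fun X => ∑ e ∈ Ij 4 ι, ∑ e' ∈ (Ij 4 ι).filter
        (fun e' => e' 0 = e 0 ∧ (im e' \ im e).card = r ∧ (im e \ im e').card = r),
        |hS p β θ u (im e) X| * (|hS p β θ u (im e') X| *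
          ((D⁻¹ * kB Y (X ∘ e)) * (D⁻¹ * kB Y (X ∘ e'))))) ≤
        Q * Real.sqrt (GS p θ u 3 r (fun x => D⁻¹ * kB Y x) q) *
          Real.sqrt (GS p θ u 3 r (fun x => D⁻¹ * kB Y x) q)) →
      0 ≤ GS p θ u 3 r (fun x => D⁻¹ * kB Y x) q →
      IO p (G r) ≤ D ^ 2 * (Q * GS p θ u 3 r (fun x => D⁻¹ * kB Y x) q) := by
    intro r Q hQ h1 h2
    have e1 : G r = fun X => D ^ 2 * ∑ e ∈ Ij 4 ι, ∑ e' ∈ (Ij 4 ι).filter
        (fun e' => e' 0 = e 0 ∧ (im e' \ im e).card = r ∧ (im e \ im e').card = r),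
        |hS p β θ u (im e) X| * (|hS p β θ u (im e') X| *
          ((D⁻¹ * kB Y (X ∘ e)) * (D⁻¹ * kB Y (X ∘ e')))) := by
      funext X
      rw [Finset.mul_sum]
      refine Finset.sum_congr rfl fun e _ => ?_
      rw [Finset.mul_sum]
      refine Finset.sum_congr rfl fun e' _ => ?_
      field_simp
    rw [e1, IOcm]
    refine mul_le_mul_of_nonneg_left ?_ (by positivity)
    rw [mul_assoc, Real.mul_self_sqrt h2] at h1
    exact h1
  have hAA : 0 ≤ AA p θ u 4 := AA0 hl0.le 4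
  have hGG : 0 ≤ GG p θ u 4 := GG0 hl0.le 4
  have hG1' := hG1 ι p β θ u p.l _ _ _ (fun x => D⁻¹ * kB Y x) q hY hu hCk hPk
  have hG2' := hG2 ι p β θ u p.l _ _ _ (fun x => D⁻¹ * kB Y x) q hY hu hCk hPk
  have hG3' := hG3 ι p β θ u p.l _ _ _ (fun x => D⁻¹ * kB Y x) q hY hu hCk hPk
  have m1 := hQ1 C ι p β θ u _ _ _ _ _ _ _ _ _ _ q q hY hub hCk hCk hPk hPk hKle hKle
  have b1 := hGr 1 q1 hq1 m1 hG1'.1
  have m2 := hQ2 C ι p β θ u _ _ _ _ _ _ _ _ _ _ q q hY hub hCk hCk hPk hPk hKle hKle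
  have b2 := hGr 2 q2 hq2 m2 hG2'.1
  have m3 := hQ3 C ι p β θ u _ _ _ _ _ _ _ _ _ _ q q hY hub hCk hCk hPk hPk hKle hKle
  have b3 := hGr 3 q3 hq3 m3 hG3'.1
  have hsum3 : ∑ r ∈ Finset.Icc 1 3, IO p (G r) = IO p (G 1) + IO p (G 2) + IO p (G 3) := by
    rw [show (Finset.Icc 1 3 : Finset ℕ) = {1, 2, 3} by rfl, Finset.sum_insert (by simp),
      Finset.sum_insert (by simp), Finset.sum_singleton]
    ring
  rw [hsum3, e44]
  set μ : ℝ := p.M / p.l ^ 3 with hμ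
  have hμ0 : 0 ≤ μ := by positivity
  set x : ℝ := p.l ^ (1 / 3 : ℝ) with hx
  have hx0 : 0 ≤ x := by positivity
  set A : ℝ := AA p θ u 4 with hA
  set B : ℝ := GG p θ u 4 with hB
  have g1 : GS p θ u 3 1 (fun x => D⁻¹ * kB Y x) q ≤ c1 * (D * (p.l * (x * μ * A))) :=
    hG1'.2.trans (le_of_eq (by ring))
  have g2 : GS p θ u 3 2 (fun x => D⁻¹ * kB Y x) q ≤
      c2 * (D ^ 2 * (p.l * ((x * μ) ^ 2 * A + x * μ * B))) :=
    hG2'.2.trans (le_of_eq (by ring))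
  have g3 : GS p θ u 3 3 (fun x => D⁻¹ * kB Y x) q ≤
      c3 * (D ^ 3 * (p.l * ((x * μ) ^ 3 * A + (x ^ 2 + p.l ^ 3) * μ ^ 2 * B))) := by
    refine hG3'.2.trans ?_
    have h1 : D * ((D * x) ^ 2 + D * p.l ^ 3) ≤ D ^ 3 * (x ^ 2 + p.l ^ 3) := by
      have h2 : D ^ 2 ≤ D ^ 3 := pow_le_pow_right₀ hD1 (by norm_num)
      have h3 : D ^ 2 * p.l ^ 3 ≤ D ^ 3 * p.l ^ 3 := mul_le_mul_of_nonneg_right h2 (by positivity)
      calc D * ((D * x) ^ 2 + D * p.l ^ 3) = D ^ 3 * x ^ 2 + D ^ 2 * p.l ^ 3 := by ring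
        _ ≤ D ^ 3 * x ^ 2 + D ^ 3 * p.l ^ 3 := by linarith only [h3]
        _ = _ := by ring
    have h2 : D * ((D * x) ^ 2 + D * p.l ^ 3) * μ ^ 2 * B ≤
        D ^ 3 * (x ^ 2 + p.l ^ 3) * μ ^ 2 * B :=
      mul_le_mul_of_nonneg_right (mul_le_mul_of_nonneg_right h1 (by positivity)) hGG
    have h3 : 0 ≤ c3 * p.l := by positivity
    calc c3 * p.l * ((D * x * μ) ^ 3 * A + D * ((D * x) ^ 2 + D * p.l ^ 3) * μ ^ 2 * B)
        ≤ c3 * p.l * ((D * x * μ) ^ 3 * A + D ^ 3 * (x ^ 2 + p.l ^ 3) * μ ^ 2 * B) :=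
          mul_le_mul_of_nonneg_left (by linarith) h3
      _ = _ := by ring
  set T1 : ℝ := p.l * (x * μ * A) with hT1
  set T2' : ℝ := p.l * ((x * μ) ^ 2 * A + x * μ * B) with hT2
  set T3' : ℝ := p.l * ((x * μ) ^ 3 * A + (x ^ 2 + p.l ^ 3) * μ ^ 2 * B) with hT3
  have t1 : 0 ≤ T1 := by positivity
  have t2 : 0 ≤ T2' := by positivity
  have t3 : 0 ≤ T3' := by positivity
  have p35 : D ^ 3 ≤ D ^ 5 := pow_le_pow_right₀ hD1 (by norm_num)
  have p45 : D ^ 4 ≤ D ^ 5 := pow_le_pow_right₀ hD1 (by norm_num)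
  have f1 : IO p (G 1) ≤ D ^ 5 * (q1 * c1) * T1 := by
    calc IO p (G 1) ≤ D ^ 2 * (q1 * (c1 * (D * T1))) :=
          b1.trans (mul_le_mul_of_nonneg_left (mul_le_mul_of_nonneg_left g1 hq1.le) (by positivity))
      _ = D ^ 3 * (q1 * c1 * T1) := by ring
      _ ≤ D ^ 5 * (q1 * c1 * T1) := mul_le_mul_of_nonneg_right p35 (by positivity)
      _ = _ := by ring
  have f2 : IO p (G 2) ≤ D ^ 5 * (q2 * c2) * T2' := by
    calc IO p (G 2) ≤ D ^ 2 * (q2 * (c2 * (D ^ 2 * T2'))) :=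
          b2.trans (mul_le_mul_of_nonneg_left (mul_le_mul_of_nonneg_left g2 hq2.le) (by positivity))
      _ = D ^ 4 * (q2 * c2 * T2') := by ring
      _ ≤ D ^ 5 * (q2 * c2 * T2') := mul_le_mul_of_nonneg_right p45 (by positivity)
      _ = _ := by ring
  have f3 : IO p (G 3) ≤ D ^ 5 * (q3 * c3) * T3' := by
    calc IO p (G 3) ≤ D ^ 2 * (q3 * (c3 * (D ^ 3 * T3'))) :=
          b3.trans (mul_le_mul_of_nonneg_left (mul_le_mul_of_nonneg_left g3 hq3.le) (by positivity))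
      _ = _ := by ring
  have hD5 : 0 ≤ D ^ 5 := by positivity
  have w12 : 0 ≤ D ^ 5 * (q1 * c1) * T2' := by positivity
  have w13 : 0 ≤ D ^ 5 * (q1 * c1) * T3' := by positivity
  have w21 : 0 ≤ D ^ 5 * (q2 * c2) * T1 := by positivity
  have w23 : 0 ≤ D ^ 5 * (q2 * c2) * T3' := by positivity
  have w31 : 0 ≤ D ^ 5 * (q3 * c3) * T1 := by positivity
  have w32 : 0 ≤ D ^ 5 * (q3 * c3) * T2' := by positivity
  have hexp : D ^ 5 * (q1 * c1 + q2 * c2 + q3 * c3) * (T1 + T2' + T3') =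
      D ^ 5 * (q1 * c1) * T1 + D ^ 5 * (q1 * c1) * T2' + D ^ 5 * (q1 * c1) * T3' +
      D ^ 5 * (q2 * c2) * T1 + D ^ 5 * (q2 * c2) * T2' + D ^ 5 * (q2 * c2) * T3' +
      D ^ 5 * (q3 * c3) * T1 + D ^ 5 * (q3 * c3) * T2' + D ^ 5 * (q3 * c3) * T3' := by ring
  rw [hexp]
  linarith only [f1, f2, f3, w12, w13, w21, w23, w31, w32]

end Pool.Agent.TBS
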