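import Pool.Agent.TBS.StmtsB

/-!
# Three-body Bose gases (MP_80dc41_mp), sharp lower bound: module R4A
-/

set_option autoImplicit false

open MeasureTheory Filter Topology
open scoped ContDiff

namespace Pool.Agent.TBS

open Pool.Agent.TBG Pool.Agent.TBL Pool.Agent.TBF

namespace R4A_

section abs

variable {α : Type} [MeasurableSpace α]

theorem bma (hB : Pool.Agent.TBL.Stmt_BMC) {F G : α → ℝ} (hF : BM F) (hG : BM G) :
    BM (fun X => F X + G X) := (hB.1 α F G hF hG).1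

theorem bms (hB : Pool.Agent.TBL.Stmt_BMC) {F G : α → ℝ} (hF : BM F) (hG : BM G) :
    BM (fun X => F X - G X) := (hB.1 α F G hF hG).2.1

theorem bmm (hB : Pool.Agent.TBL.Stmt_BMC) {F G : α → ℝ} (hF : BM F) (hG : BM G) :
    BM (fun X => F X * G X) := (hB.1 α F G hF hG).2.2.1

theorem bmq (hB : Pool.Agent.TBL.Stmt_BMC) {F : α → ℝ} (hF : BM F) :
    BM (fun X => F X ^ 2) := (hB.1 α F F hF hF).2.2.2.1

theorem bmb (hB : Pool.Agent.TBL.Stmt_BMC) {F : α → ℝ} (hF : BM F) :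
    BM (fun X => |F X|) := (hB.1 α F F hF hF).2.2.2.2.1

theorem bmc (hB : Pool.Agent.TBL.Stmt_BMC) {F : α → ℝ} (hF : BM F) (a : ℝ) :
    BM (fun X => a * F X) := (hB.1 α F F hF hF).2.2.2.2.2.1 a

theorem bmi (hB : Pool.Agent.TBL.Stmt_BMC) {F : α → ℝ} (hF : BM F) (μ : Measure α)
    [IsFiniteMeasure μ] : Integrable F μ := (hB.1 α F F hF hF).2.2.2.2.2.2 μ

theorem bmsum (hB : Pool.Agent.TBL.Stmt_BMC) {J : Type} (s : Finset J) (F : J → α → ℝ)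
    (h : ∀ j ∈ s, BM (F j)) : BM (fun X => ∑ j ∈ s, F j X) := hB.2.2.1 α J s F h

/-- weighted Cauchy-Schwarz -/
theorem cs (hB : Pool.Agent.TBL.Stmt_BMC) {J : Type} (μ : Measure α) [IsFiniteMeasure μ] (s : Finset J)
    (K a b : J → α → ℝ) (hK : ∀ j ∈ s, BM (K j)) (ha : ∀ j ∈ s, BM (a j)) (hb : ∀ j ∈ s, BM (b j))
    (hK0 : ∀ j ∈ s, ∀ X, 0 ≤ K j X) :
    ∫ X, ∑ j ∈ s, K j X * (|a j X| * |b j X|) ∂μ ≤
      Real.sqrt (∫ X, ∑ j ∈ s, K j X * a j X ^ 2 ∂μ) *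
        Real.sqrt (∫ X, ∑ j ∈ s, K j X * b j X ^ 2 ∂μ) := by
  have hP : BM (fun X => ∑ j ∈ s, K j X * a j X ^ 2) :=
    bmsum hB s (fun j X => K j X * a j X ^ 2) fun j hj => bmm hB (hK j hj) (bmq hB (ha j hj))
  have hQ : BM (fun X => ∑ j ∈ s, K j X * b j X ^ 2) :=
    bmsum hB s (fun j X => K j X * b j X ^ 2) fun j hj => bmm hB (hK j hj) (bmq hB (hb j hj))
  have hR : BM (fun X => ∑ j ∈ s, K j X * (|a j X| * |b j X|)) :=
    bmsum hB s (fun j X => K j X * (|a j X| * |b j X|)) fun j hj =>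
      bmm hB (hK j hj) (bmm hB (bmb hB (ha j hj)) (bmb hB (hb j hj)))
  set P := ∫ X, ∑ j ∈ s, K j X * a j X ^ 2 ∂μ with hPd
  set Q := ∫ X, ∑ j ∈ s, K j X * b j X ^ 2 ∂μ with hQd
  set R := ∫ X, ∑ j ∈ s, K j X * (|a j X| * |b j X|) ∂μ with hRd
  have hP0 : 0 ≤ P := integral_nonneg fun X => Finset.sum_nonneg fun j hj =>
    mul_nonneg (hK0 j hj X) (sq_nonneg _)
  have key : ∀ x : ℝ, 0 ≤ P * (x * x) + (2 * R) * x + Q := by
    intro x
    have e : P * (x * x) + (2 * R) * x + Q =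
        ∫ X, ((x * x) * ∑ j ∈ s, K j X * a j X ^ 2) + (2 * x) * (∑ j ∈ s, K j X * (|a j X| * |b j X|)) +
          ∑ j ∈ s, K j X * b j X ^ 2 ∂μ := by
      rw [integral_add (bmi hB (bma hB (bmc hB hP _) (bmc hB hR _)) μ) (bmi hB hQ μ),
        integral_add (bmi hB (bmc hB hP _) μ) (bmi hB (bmc hB hR _) μ),
        integral_const_mul, integral_const_mul, ← hPd, ← hQd, ← hRd]
      ring
    rw [e]
    refine integral_nonneg fun X => ?_
    show 0 ≤ ((x * x) * ∑ j ∈ s, K j X * a j X ^ 2) + (2 * x) * (∑ j ∈ s, K j X * (|a j X| * |b j X|)) +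
          ∑ j ∈ s, K j X * b j X ^ 2
    rw [Finset.mul_sum, Finset.mul_sum, ← Finset.sum_add_distrib, ← Finset.sum_add_distrib]
    refine Finset.sum_nonneg fun j hj => ?_
    have h1 : (x * x) * (K j X * a j X ^ 2) + (2 * x) * (K j X * (|a j X| * |b j X|)) + K j X * b j X ^ 2
        = K j X * (x * |a j X| + |b j X|) ^ 2 := by
      rw [← sq_abs (a j X), ← sq_abs (b j X)]
      ring
    rw [h1]
    exact mul_nonneg (hK0 j hj X) (sq_nonneg _)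
  have hd := discrim_le_zero key
  have hR2 : R ^ 2 ≤ P * Q := by
    unfold discrim at hd
    nlinarith
  calc R ≤ |R| := le_abs_self R
    _ = Real.sqrt (R ^ 2) := (Real.sqrt_sq_eq_abs R).symm
    _ ≤ Real.sqrt (P * Q) := Real.sqrt_le_sqrt hR2
    _ = Real.sqrt P * Real.sqrt Q := Real.sqrt_mul hP0 Q

/-- the algebra -/
theorem alg (hB : Pool.Agent.TBL.Stmt_BMC) {J : Type} (μ : Measure α) [IsFiniteMeasure μ] (s : Finset J)
    (h h2 h3 A B D E' F' K0 K1 K3 : J → α → ℝ)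
    (bh : ∀ j ∈ s, BM (h j)) (bh2 : ∀ j ∈ s, BM (h2 j)) (bh3 : ∀ j ∈ s, BM (h3 j))
    (bA : ∀ j ∈ s, BM (A j)) (bB : ∀ j ∈ s, BM (B j)) (bD : ∀ j ∈ s, BM (D j))
    (bE : ∀ j ∈ s, BM (E' j)) (bF : ∀ j ∈ s, BM (F' j))
    (bK0 : ∀ j ∈ s, BM (K0 j)) (bK1 : ∀ j ∈ s, BM (K1 j)) (bK3 : ∀ j ∈ s, BM (K3 j))
    (hA : ∀ j ∈ s, ∀ X, |A j X| ≤ K0 j X) (hBK : ∀ j ∈ s, ∀ X, |B j X| ≤ K1 j X)
    (hE : ∀ j ∈ s, ∀ X, |E' j X| ≤ K3 j X) :
    |∫ X, ∑ j ∈ s, h2 j X * (h3 j X * A j X) ∂μ -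
      2 * ∫ X, 1 / 2 * ∑ j ∈ s, h2 j X * (h j X * B j X) ∂μ +
      ∫ X, 1 / 6 * ∑ j ∈ s, h j X ^ 2 * D j X ∂μ +
      ∫ X, 1 / 3 * ∑ j ∈ s, h2 j X * (h j X * E' j X) ∂μ +
      ∫ X, 1 / 6 * ∑ j ∈ s, h j X ^ 2 * F' j X ∂μ -
      ∫ X, ∑ j ∈ s, (A j X - B j X + 1 / 6 * D j X + 1 / 3 * E' j X + 1 / 6 * F' j X) * h j X ^ 2 ∂μ| ≤
    ∫ X, ∑ j ∈ s, K0 j X * (|h j X| * |h2 j X - h j X|) ∂μ +
    ∫ X, ∑ j ∈ s, K0 j X * (|h j X| * |h3 j X - h j X|) ∂μ +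
    ∫ X, ∑ j ∈ s, K0 j X * (|h2 j X - h j X| * |h3 j X - h j X|) ∂μ +
    ∫ X, ∑ j ∈ s, K1 j X * (|h j X| * |h2 j X - h j X|) ∂μ +
    ∫ X, ∑ j ∈ s, K3 j X * (|h j X| * |h2 j X - h j X|) ∂μ := by
  have b1 : BM (fun X => ∑ j ∈ s, h2 j X * (h3 j X * A j X)) := bmsum hB s _ fun j hj =>
    bmm hB (bh2 j hj) (bmm hB (bh3 j hj) (bA j hj))
  have b2 : BM (fun X => ∑ j ∈ s, h2 j X * (h j X * B j X)) := bmsum hB s _ fun j hj =>
    bmm hB (bh2 j hj) (bmm hB (bh j hj) (bB j hj))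
  have b3 : BM (fun X => ∑ j ∈ s, h j X ^ 2 * D j X) := bmsum hB s _ fun j hj =>
    bmm hB (bmq hB (bh j hj)) (bD j hj)
  have b4 : BM (fun X => ∑ j ∈ s, h2 j X * (h j X * E' j X)) := bmsum hB s _ fun j hj =>
    bmm hB (bh2 j hj) (bmm hB (bh j hj) (bE j hj))
  have b5 : BM (fun X => ∑ j ∈ s, h j X ^ 2 * F' j X) := bmsum hB s _ fun j hj =>
    bmm hB (bmq hB (bh j hj)) (bF j hj)
  have b6 : BM (fun X => ∑ j ∈ s, (A j X - B j X + 1 / 6 * D j X + 1 / 3 * E' j X + 1 / 6 * F' j X) *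
      h j X ^ 2) := bmsum hB s _ fun j hj =>
    bmm hB (bma hB (bma hB (bma hB (bms hB (bA j hj) (bB j hj)) (bmc hB (bD j hj) _))
      (bmc hB (bE j hj) _)) (bmc hB (bF j hj) _)) (bmq hB (bh j hj))
  have bd2 : ∀ j ∈ s, BM (fun X => |h2 j X - h j X|) := fun j hj => bmb hB (bms hB (bh2 j hj) (bh j hj))
  have bd3 : ∀ j ∈ s, BM (fun X => |h3 j X - h j X|) := fun j hj => bmb hB (bms hB (bh3 j hj) (bh j hj))
  have c1 : BM (fun X => ∑ j ∈ s, K0 j X * (|h j X| * |h2 j X - h j X|)) := bmsum hB s _ fun j hj =>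
    bmm hB (bK0 j hj) (bmm hB (bmb hB (bh j hj)) (bd2 j hj))
  have c2 : BM (fun X => ∑ j ∈ s, K0 j X * (|h j X| * |h3 j X - h j X|)) := bmsum hB s _ fun j hj =>
    bmm hB (bK0 j hj) (bmm hB (bmb hB (bh j hj)) (bd3 j hj))
  have c3 : BM (fun X => ∑ j ∈ s, K0 j X * (|h2 j X - h j X| * |h3 j X - h j X|)) :=
    bmsum hB s _ fun j hj => bmm hB (bK0 j hj) (bmm hB (bd2 j hj) (bd3 j hj))
  have c4 : BM (fun X => ∑ j ∈ s, K1 j X * (|h j X| * |h2 j X - h j X|)) := bmsum hB s _ fun j hj =>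
    bmm hB (bK1 j hj) (bmm hB (bmb hB (bh j hj)) (bd2 j hj))
  have c5 : BM (fun X => ∑ j ∈ s, K3 j X * (|h j X| * |h2 j X - h j X|)) := bmsum hB s _ fun j hj =>
    bmm hB (bK3 j hj) (bmm hB (bmb hB (bh j hj)) (bd2 j hj))
  have e1 : ∫ X, ∑ j ∈ s, h2 j X * (h3 j X * A j X) ∂μ -
      2 * ∫ X, 1 / 2 * ∑ j ∈ s, h2 j X * (h j X * B j X) ∂μ +
      ∫ X, 1 / 6 * ∑ j ∈ s, h j X ^ 2 * D j X ∂μ +
      ∫ X, 1 / 3 * ∑ j ∈ s, h2 j X * (h j X * E' j X) ∂μ +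
      ∫ X, 1 / 6 * ∑ j ∈ s, h j X ^ 2 * F' j X ∂μ -
      ∫ X, ∑ j ∈ s, (A j X - B j X + 1 / 6 * D j X + 1 / 3 * E' j X + 1 / 6 * F' j X) * h j X ^ 2 ∂μ =
      ∫ X, (((((∑ j ∈ s, h2 j X * (h3 j X * A j X)) - ∑ j ∈ s, h2 j X * (h j X * B j X)) +
        1 / 6 * ∑ j ∈ s, h j X ^ 2 * D j X) + 1 / 3 * ∑ j ∈ s, h2 j X * (h j X * E' j X)) +
        1 / 6 * ∑ j ∈ s, h j X ^ 2 * F' j X) -
        ∑ j ∈ s, (A j X - B j X + 1 / 6 * D j X + 1 / 3 * E' j X + 1 / 6 * F' j X) * h j X ^ 2 ∂μ := by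
    rw [integral_sub (bmi hB (bma hB (bma hB (bma hB (bms hB b1 b2) (bmc hB b3 _)) (bmc hB b4 _))
        (bmc hB b5 _)) μ) (bmi hB b6 μ),
      integral_add (bmi hB (bma hB (bma hB (bms hB b1 b2) (bmc hB b3 _)) (bmc hB b4 _)) μ)
        (bmi hB (bmc hB b5 _) μ),
      integral_add (bmi hB (bma hB (bms hB b1 b2) (bmc hB b3 _)) μ) (bmi hB (bmc hB b4 _) μ),
      integral_add (bmi hB (bms hB b1 b2) μ) (bmi hB (bmc hB b3 _) μ),
      integral_sub (bmi hB b1 μ) (bmi hB b2 μ),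
      integral_const_mul (1 / 2 : ℝ)]
    ring
  have e2 : ∫ X, ∑ j ∈ s, K0 j X * (|h j X| * |h2 j X - h j X|) ∂μ +
    ∫ X, ∑ j ∈ s, K0 j X * (|h j X| * |h3 j X - h j X|) ∂μ +
    ∫ X, ∑ j ∈ s, K0 j X * (|h2 j X - h j X| * |h3 j X - h j X|) ∂μ +
    ∫ X, ∑ j ∈ s, K1 j X * (|h j X| * |h2 j X - h j X|) ∂μ +
    ∫ X, ∑ j ∈ s, K3 j X * (|h j X| * |h2 j X - h j X|) ∂μ =
    ∫ X, ((((∑ j ∈ s, K0 j X * (|h j X| * |h2 j X - h j X|)) +
      ∑ j ∈ s, K0 j X * (|h j X| * |h3 j X - h j X|)) +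
      ∑ j ∈ s, K0 j X * (|h2 j X - h j X| * |h3 j X - h j X|)) +
      ∑ j ∈ s, K1 j X * (|h j X| * |h2 j X - h j X|)) +
      ∑ j ∈ s, K3 j X * (|h j X| * |h2 j X - h j X|) ∂μ := by
    rw [integral_add (bmi hB (bma hB (bma hB (bma hB c1 c2) c3) c4) μ) (bmi hB c5 μ),
      integral_add (bmi hB (bma hB (bma hB c1 c2) c3) μ) (bmi hB c4 μ),
      integral_add (bmi hB (bma hB c1 c2) μ) (bmi hB c3 μ),
      integral_add (bmi hB c1 μ) (bmi hB c2 μ)]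
  rw [e1, e2]
  refine (abs_integral_le_integral_abs).trans (integral_mono ?_ ?_ ?_)
  · exact (bmi hB (bmb hB (bms hB (bma hB (bma hB (bma hB (bms hB b1 b2) (bmc hB b3 _)) (bmc hB b4 _))
        (bmc hB b5 _)) b6)) μ)
  · exact bmi hB (bma hB (bma hB (bma hB (bma hB c1 c2) c3) c4) c5) μ
  · intro X
    show |(((((∑ j ∈ s, h2 j X * (h3 j X * A j X)) - ∑ j ∈ s, h2 j X * (h j X * B j X)) +
        1 / 6 * ∑ j ∈ s, h j X ^ 2 * D j X) + 1 / 3 * ∑ j ∈ s, h2 j X * (h j X * E' j X)) +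
        1 / 6 * ∑ j ∈ s, h j X ^ 2 * F' j X) -
        ∑ j ∈ s, (A j X - B j X + 1 / 6 * D j X + 1 / 3 * E' j X + 1 / 6 * F' j X) * h j X ^ 2| ≤
      ((((∑ j ∈ s, K0 j X * (|h j X| * |h2 j X - h j X|)) +
      ∑ j ∈ s, K0 j X * (|h j X| * |h3 j X - h j X|)) +
      ∑ j ∈ s, K0 j X * (|h2 j X - h j X| * |h3 j X - h j X|)) +
      ∑ j ∈ s, K1 j X * (|h j X| * |h2 j X - h j X|)) +
      ∑ j ∈ s, K3 j X * (|h j X| * |h2 j X - h j X|)
    rw [Finset.mul_sum, Finset.mul_sum, Finset.mul_sum, ← Finset.sum_sub_distrib,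
      ← Finset.sum_add_distrib, ← Finset.sum_add_distrib, ← Finset.sum_add_distrib,
      ← Finset.sum_sub_distrib, ← Finset.sum_add_distrib, ← Finset.sum_add_distrib,
      ← Finset.sum_add_distrib, ← Finset.sum_add_distrib]
    refine (Finset.abs_sum_le_sum_abs _ _).trans (Finset.sum_le_sum fun j hj => ?_)
    have id : h2 j X * (h3 j X * A j X) - h2 j X * (h j X * B j X) + 1 / 6 * (h j X ^ 2 * D j X) +
        1 / 3 * (h2 j X * (h j X * E' j X)) + 1 / 6 * (h j X ^ 2 * F' j X) -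
        (A j X - B j X + 1 / 6 * D j X + 1 / 3 * E' j X + 1 / 6 * F' j X) * h j X ^ 2 =
        A j X * (h j X * (h2 j X - h j X)) + A j X * (h j X * (h3 j X - h j X)) +
        A j X * ((h2 j X - h j X) * (h3 j X - h j X)) + (- (B j X * (h j X * (h2 j X - h j X)))) +
        1 / 3 * (E' j X * (h j X * (h2 j X - h j X))) := by ring
    rw [id]
    have t : ∀ a b c k : ℝ, |a| ≤ k → |a * (b * c)| ≤ k * (|b| * |c|) := by
      intro a b c k hk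
      rw [abs_mul, abs_mul]
      exact mul_le_mul_of_nonneg_right hk (by positivity)
    have t1 := t _ (h j X) (h2 j X - h j X) _ (hA j hj X)
    have t2 := t _ (h j X) (h3 j X - h j X) _ (hA j hj X)
    have t3 := t _ (h2 j X - h j X) (h3 j X - h j X) _ (hA j hj X)
    have t4 := t _ (h j X) (h2 j X - h j X) _ (hBK j hj X)
    have t5 := t _ (h j X) (h2 j X - h j X) _ (hE j hj X)
    have t5' : |1 / 3 * (E' j X * (h j X * (h2 j X - h j X)))| ≤ K3 j X * (|h j X| * |h2 j X - h j X|) := by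
      rw [abs_mul]
      have : |(1 / 3 : ℝ)| = 1 / 3 := by norm_num
      rw [this]
      have h0 := abs_nonneg (E' j X * (h j X * (h2 j X - h j X)))
      linarith
    have t4' : |- (B j X * (h j X * (h2 j X - h j X)))| ≤ K1 j X * (|h j X| * |h2 j X - h j X|) := by
      rw [abs_neg]; exact t4
    refine (abs_add_le _ _).trans (add_le_add ((abs_add_le _ _).trans (add_le_add
      ((abs_add_le _ _).trans (add_le_add ((abs_add_le _ _).trans (add_le_add t1 t2)) t3)) t4')) t5')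

end abs

section many

variable {ι : Type} [Fintype ι] [DecidableEq ι]

theorem fin_Om (L : ℝ) : IsFiniteMeasure (mO L) := by
  have hb : Bornology.IsBounded (Om L) := by
    rw [Metric.isBounded_iff_subset_closedBall (0 : E)]
    refine ⟨Real.sqrt (3 * (L / 2) ^ 2), fun x hx => ?_⟩
    rw [mem_closedBall_zero_iff, EuclideanSpace.norm_eq]
    refine Real.sqrt_le_sqrt ?_
    have h : ∀ c : Fin 3, ‖x c‖ ^ 2 ≤ (L / 2) ^ 2 := by
      intro c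
      have := hx c
      rw [Real.norm_eq_abs]
      exact pow_le_pow_left₀ (abs_nonneg _) this.le 2
    calc ∑ c : Fin 3, ‖x c‖ ^ 2 ≤ ∑ _c : Fin 3, (L / 2) ^ 2 := Finset.sum_le_sum fun c _ => h c
      _ = 3 * (L / 2) ^ 2 := by simp
  unfold mO
  exact isFiniteMeasure_restrict.mpr hb.measure_lt_top.ne

theorem fin_PiS (m n : Measure E) [IsFiniteMeasure m] [IsFiniteMeasure n] (S : Finset ι) :
    IsFiniteMeasure (PiS m n S) := by
  unfold PiS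
  have : ∀ i : ι, IsFiniteMeasure (if i ∈ S then m else n) := by
    intro i
    split_ifs <;> infer_instance
  infer_instance

theorem inner_sum (e : Finset ι) (f : (Fin 0 → ι) → ℝ) :
    ∑ j ∈ (Ij 0 ι).filter (fun j => Disjoint (im j) e), f j = f Fin.elim0 := by
  have : (Ij 0 ι).filter (fun j => Disjoint (im j) e) = {Fin.elim0} := by
    ext j
    simp only [Finset.mem_filter, Finset.mem_singleton]
    constructor
    · intro _
      exact Subsingleton.elim _ _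
    · intro _
      refine ⟨?_, ?_⟩
      · unfold Ij
        simp only [Finset.mem_filter, Finset.mem_univ, true_and]
        intro a
        exact a.elim0
      · unfold im
        simp
  rw [this, Finset.sum_singleton]

omit [DecidableEq ι] in
theorem bm_CU {u : (ι → E) → ℝ} (hu : CU u) : BM u := by
  refine ⟨hu.1.continuous.measurable, ?_⟩
  obtain ⟨C, hC⟩ := hu.1.continuous.bounded_above_of_compact_support hu.2
  exact ⟨C, fun X => by have := hC X; rwa [Real.norm_eq_abs] at this⟩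

theorem ic_nonneg (Q : Set E) (x : E) : 0 ≤ ic Q x := by
  unfold ic
  exact Set.indicator_nonneg (fun _ _ => zero_le_one) x

theorem vt_nonneg (p : Par) (a : E) (S : Finset ι) (X : ι → E) : 0 ≤ vt p a S X := by
  unfold vt
  split_ifs <;> norm_num

theorem AA_nonneg (p : Par) (θ : E → E → ℝ) (u : (ι → E) → ℝ) (m : ℕ) (hl : 0 ≤ p.l) :
    0 ≤ AA p θ u m := by
  unfold AA IA
  refine mul_nonneg (by positivity) (Finset.sum_nonneg fun a _ => Finset.sum_nonneg fun e _ =>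
    integral_nonneg fun X => sq_nonneg _)

theorem GG_nonneg (p : Par) (θ : E → E → ℝ) (u : (ι → E) → ℝ) (m : ℕ) (hl : 0 ≤ p.l) :
    0 ≤ GG p θ u m := by
  unfold GG IA
  refine mul_nonneg (by positivity) (Finset.sum_nonneg fun a _ => Finset.sum_nonneg fun e _ =>
    integral_nonneg fun X => mul_nonneg (vt_nonneg _ _ _ _) (Finset.sum_nonneg fun j _ =>
      mul_nonneg (ic_nonneg _ _) (Finset.sum_nonneg fun c _ => sq_nonneg _)))

end many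

theorem k5_0 (φ τ : E × E → ℝ) (y : W4 → ℝ) (Y : Fin 4 → Fin 3 → W4 → ℝ) (q : W4) :
    k5 φ τ y Y 0 q = ∑ c, |dv (dr 0 c) τ (q.1, q.2.1)| * |dv (dr 0 c) τ (q.1, q.2.2)| := rfl

theorem k5_1 (φ τ : E × E → ℝ) (y : W4 → ℝ) (Y : Fin 4 → Fin 3 → W4 → ℝ) (q : W4) :
    k5 φ τ y Y 1 q = ∑ c, |dv (dr 0 c) τ (q.1, q.2.1)| * |Y 0 c q| := rfl

theorem k5_3 (φ τ : E × E → ℝ) (y : W4 → ℝ) (Y : Fin 4 → Fin 3 → W4 → ℝ) (q : W4) :
    k5 φ τ y Y 3 q = ww φ (q.1, q.2.1) * |y q| := rfl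

end R4A_

open R4A_ in
theorem r4a_proof (hB : Pool.Agent.TBL.Stmt_BMC) (hHSF : Stmt_HSF) (_hTUP : Stmt_TUP)
    (hKBM : Stmt_KBM) (hCLI : Stmt_CLI) (hGS0 : Stmt_GS0) (hREP : Stmt_REP) (hRE2 : Stmt_RE2) :
    Stmt_R4A := by
  intro C
  obtain ⟨CH, _, hH⟩ := hHSF C
  obtain ⟨CG, hCG, hG⟩ := hGS0 C 3
  obtain ⟨C2, hC2, hR2⟩ := hREP C
  obtain ⟨C3, hC3, hR3⟩ := hRE2 C
  refine ⟨4 * Real.sqrt ((CG * |C|) * ((C2 + C3) * |C|)) + (C2 + C3) * |C| + 1, by positivity, ?_⟩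
  intro ι _ _ p β θ φ τ g y Y g₄ u hSy hu hSc hT hTF hD hKF
  have hbu := bm_CU hu
  have hl : 0 < p.l := by have := hSy.hR; have := hSy.hl; linarith
  have hR : 0 < p.R := by have := hSy.hR; linarith
  have hfm : IsFiniteMeasure (mO p.L) := fin_Om p.L
  have hfin : IsFiniteMeasure (PiS (mO p.L) (mO p.L) (∅ : Finset ι)) := fin_PiS _ _ _
  obtain ⟨hKa, hKb, hKc, hKd⟩ := hKBM
  obtain ⟨_, _, _, bww, _, _, bVV, bdv, _, hww0, _, _, _⟩ := hKa C p.R φ τ g hSc hT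
  obtain ⟨_, by_, _, bY, _, _⟩ := hKb C p.l φ y Y g₄ hSc hTF hD
  -- constants
  have hk0 : ∀ n q, (n = 0 ∨ n = 1 ∨ n = 3) → 0 ≤ k5 φ τ y Y n q := by
    intro n q hn
    rcases hn with rfl | rfl | rfl
    · rw [k5_0]; exact Finset.sum_nonneg fun c _ => by positivity
    · rw [k5_1]; exact Finset.sum_nonneg fun c _ => by positivity
    · rw [k5_3]; exact mul_nonneg (hww0 _) (abs_nonneg _)
  have hC0 : 0 ≤ C := le_trans (integral_nonneg fun q => hk0 0 q (Or.inl rfl)) (hKF.k5m 0)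
  rw [abs_of_nonneg hC0]
  -- the functions h
  have hne : ∀ {m : ℕ} (e : Fin (m + 1) → ι), (im e).Nonempty := fun e =>
    ⟨e 0, by unfold im; exact Finset.mem_image_of_mem _ (Finset.mem_univ _)⟩
  have bh : ∀ e : Fin 4 → ι, BM (hS p β θ u (im e)) := fun e =>
    (hH ι p β θ u (im e) hSy hbu (hne e)).1
  have bh2 : ∀ e : Fin 4 → ι, BM (hS p β θ u (im (s2 e))) := fun e =>
    (hH ι p β θ u (im (s2 e)) hSy hbu (hne (s2 e))).1
  have bh3 : ∀ e : Fin 4 → ι, BM (hS p β θ u (im (s3 e))) := fun e =>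
    (hH ι p β θ u (im (s3 e)) hSy hbu (hne (s3 e))).1
  have hAA := AA_nonneg p θ u 4 hl.le
  have hGG := GG_nonneg p θ u 3 hl.le
  have hD4 : 0 ≤ D4 p θ u := by unfold D4; positivity
  -- kernels
  have bk : ∀ n (e : Fin 4 → ι), BM (fun X : ι → E => k5 φ τ y Y n (rl (X ∘ e))) := fun n e =>
    hKd ι _ e (hKF.k5b n)
  -- the sums K h^2
  have hP : ∀ n, (n = 0 ∨ n = 1 ∨ n = 3) →
      ∫ X, ∑ e ∈ Ij 4 ι, k5 φ τ y Y n (rl (X ∘ e)) * hS p β θ u (im e) X ^ 2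
        ∂(PiS (mO p.L) (mO p.L) (∅ : Finset ι)) ≤ CG * C * AA p θ u 4 := by
    intro n hn
    have hCk : Ck 3 p.l C (fun x : Fin 4 → E => k5 φ τ y Y n (rl x)) := by
      refine ⟨?_, fun x => hk0 n _ hn, ?_, ?_⟩
      · exact hKd (Fin 4) _ id (hKF.k5b n)
      · intro x hx s c
        have h1 := hKF.k5s n _ hx
        have hc : ∀ z : E, ‖z‖ ≤ p.l → |z c| ≤ p.l := fun z hz => by
          have := PiLp.norm_apply_le z c
          rw [Real.norm_eq_abs] at this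
          exact this.trans hz
        have n1 : ‖x 0 - x 1‖ ≤ p.l := (norm_fst_le (rl x)).trans h1
        have n2 : ‖x 0 - x 2‖ ≤ p.l := ((norm_fst_le (rl x).2).trans (norm_snd_le (rl x))).trans h1
        have n3 : ‖x 0 - x 3‖ ≤ p.l := ((norm_snd_le (rl x).2).trans (norm_snd_le (rl x))).trans h1
        have hsw : ∀ z w : E, ‖w - z‖ ≤ p.l → |z c - w c| ≤ p.l := fun z w h => by
          have := hc _ h
          rw [abs_sub_comm]
          exact this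
        fin_cases s
        · show |x 0 c - x 0 c| ≤ p.l
          rw [sub_self, abs_zero]; exact hl.le
        · exact hsw _ _ n1
        · exact hsw _ _ n2
        · exact hsw _ _ n3
      · intro x₀
        have := hCLI.2 (k5 φ τ y Y n) x₀ 1
        have e1 : ∫ z : Fin 3 → E, k5 φ τ y Y n (rl (Fin.cons x₀ z)) = ∫ q, k5 φ τ y Y n q := this
        show ∫ z : Fin 3 → E, k5 φ τ y Y n (rl (Fin.cons x₀ z)) ≤ C
        rw [e1]
        exact hKF.k5m n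
    have hgs := (hG ι p β θ u C _ (fun _ => (0 : ℝ)) hSy hu hCk).2
    refine le_trans ?_ hgs
    unfold GS
    rw [integral_finsetSum _ fun e _ => bmi hB (bmm hB (bk n e) (bmq hB (bh e))) _]
    refine Finset.sum_le_sum fun e _ => ?_
    rw [R4A_.inner_sum]
    unfold IO
    have hs := hH ι p β θ u (im e) hSy hbu (hne e)
    refine integral_mono (bmi hB (bmm hB (bk n e) (bmq hB (bh e))) _) ?_ ?_
    · simp only [Finset.univ_eq_empty, Finset.prod_empty, mul_one]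
      exact bmi hB (bmm hB hs.2.1 (bk n e)) _
    · intro X
      simp only [Finset.univ_eq_empty, Finset.prod_empty, mul_one]
      rw [mul_comm]
      exact mul_le_mul_of_nonneg_right (hs.2.2.1 X).2 (hk0 n _ hn)
  have hDb : ∀ c : ℝ, c * (C * GG p θ u 3 / p.l + C * p.R * AA p θ u 4 / p.l ^ 2) =
      c * C * D4 p θ u := by
    intro c
    unfold D4
    ring
  have hQ2 : ∀ n, (n = 0 ∨ n = 1 ∨ n = 3) →
      ∫ X, ∑ e ∈ Ij 4 ι, k5 φ τ y Y n (rl (X ∘ e)) * (hS p β θ u (im (s2 e)) X - hS p β θ u (im e) X) ^ 2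
        ∂(PiS (mO p.L) (mO p.L) (∅ : Finset ι)) ≤ (C2 + C3) * C * D4 p θ u := by
    intro n hn
    have h := hR2 ι p β θ u C (C * p.R) (k5 φ τ y Y n) hSy hu (hKF.k5b n) (fun q => hk0 n q hn)
      (hKF.k5s n) (hKF.k5m n) (hKF.k5v n)
    rw [hDb] at h
    refine le_trans h ?_
    have : 0 ≤ C3 * C * D4 p θ u := by positivity
    nlinarith
  have hQ3 : ∀ n, (n = 0 ∨ n = 1 ∨ n = 3) →
      ∫ X, ∑ e ∈ Ij 4 ι, k5 φ τ y Y n (rl (X ∘ e)) * (hS p β θ u (im (s3 e)) X - hS p β θ u (im e) X) ^ 2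
        ∂(PiS (mO p.L) (mO p.L) (∅ : Finset ι)) ≤ (C2 + C3) * C * D4 p θ u := by
    intro n hn
    have h := hR3 ι p β θ u C (C * p.R) (k5 φ τ y Y n) hSy hu (hKF.k5b n) (fun q => hk0 n q hn)
      (hKF.k5s n) (hKF.k5m n) (hKF.k5v n)
    rw [hDb] at h
    refine le_trans h ?_
    have : 0 ≤ C2 * C * D4 p θ u := by positivity
    nlinarith
  -- the algebra
  have main := alg hB (PiS (mO p.L) (mO p.L) (∅ : Finset ι)) (Ij 4 ι)
    (fun e => hS p β θ u (im e)) (fun e => hS p β θ u (im (s2 e))) (fun e => hS p β θ u (im (s3 e)))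
    (fun e X => ∑ c, dv (dr 0 c) τ (rt (X ∘ s2 e)) * dv (dr 0 c) τ (rt (X ∘ s3 e)))
    (fun e X => ∑ c, dv (dr 0 c) τ (rt (X ∘ s2 e)) * Y 0 c (rl (X ∘ e)))
    (fun e X => ∑ c, Y 0 c (rl (X ∘ e)) ^ 2)
    (fun e X => ww φ (rt (X ∘ s2 e)) * y (rl (X ∘ e)))
    (fun e X => VV φ (rt (X ∘ s2 e)).1 (rt (X ∘ s2 e)).2 * y (rl (X ∘ e)) ^ 2)
    (fun e X => k5 φ τ y Y 0 (rl (X ∘ e))) (fun e X => k5 φ τ y Y 1 (rl (X ∘ e)))
    (fun e X => k5 φ τ y Y 3 (rl (X ∘ e)))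
    (fun e _ => bh e) (fun e _ => bh2 e) (fun e _ => bh3 e)
    (fun e _ => bmsum hB _ _ fun c _ => bmm hB (hKc ι _ (s2 e) (bdv 0 c)) (hKc ι _ (s3 e) (bdv 0 c)))
    (fun e _ => bmsum hB _ _ fun c _ => bmm hB (hKc ι _ (s2 e) (bdv 0 c)) (hKd ι _ e (bY 0 c)))
    (fun e _ => bmsum hB _ _ fun c _ => bmq hB (hKd ι _ e (bY 0 c)))
    (fun e _ => bmm hB (hKc ι _ (s2 e) bww) (hKd ι _ e by_))
    (fun e _ => bmm hB (hKc ι _ (s2 e) bVV) (bmq hB (hKd ι _ e by_)))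
    (fun e _ => bk 0 e) (fun e _ => bk 1 e) (fun e _ => bk 3 e)
    (fun e _ X => by
      show |∑ c, dv (dr 0 c) τ (rt (X ∘ s2 e)) * dv (dr 0 c) τ (rt (X ∘ s3 e))| ≤
        k5 φ τ y Y 0 (rl (X ∘ e))
      rw [k5_0]
      refine (Finset.abs_sum_le_sum_abs _ _).trans (Finset.sum_le_sum fun c _ => ?_)
      rw [abs_mul]
      exact le_rfl)
    (fun e _ X => by
      show |∑ c, dv (dr 0 c) τ (rt (X ∘ s2 e)) * Y 0 c (rl (X ∘ e))| ≤ k5 φ τ y Y 1 (rl (X ∘ e))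
      rw [k5_1]
      refine (Finset.abs_sum_le_sum_abs _ _).trans (Finset.sum_le_sum fun c _ => ?_)
      rw [abs_mul]
      exact le_rfl)
    (fun e _ X => by
      show |ww φ (rt (X ∘ s2 e)) * y (rl (X ∘ e))| ≤ k5 φ τ y Y 3 (rl (X ∘ e))
      rw [k5_3, abs_mul, abs_of_nonneg (hww0 _)]
      exact le_rfl)
  refine le_trans main ?_
  -- Cauchy-Schwarz
  have sq : Real.sqrt (CG * C * AA p θ u 4) * Real.sqrt ((C2 + C3) * C * D4 p θ u) =
      Real.sqrt ((CG * C) * ((C2 + C3) * C)) * Real.sqrt (AA p θ u 4 * D4 p θ u) := by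
    rw [← Real.sqrt_mul (by positivity), ← Real.sqrt_mul (by positivity)]
    congr 1
    ring
  have csn2 : ∀ n, (n = 0 ∨ n = 1 ∨ n = 3) →
      ∫ X, ∑ e ∈ Ij 4 ι, k5 φ τ y Y n (rl (X ∘ e)) * (|hS p β θ u (im e) X| *
        |hS p β θ u (im (s2 e)) X - hS p β θ u (im e) X|) ∂(PiS (mO p.L) (mO p.L) (∅ : Finset ι)) ≤
      Real.sqrt ((CG * C) * ((C2 + C3) * C)) * Real.sqrt (AA p θ u 4 * D4 p θ u) := by
    intro n hn
    rw [← sq]
    refine (cs hB _ _ (fun e X => k5 φ τ y Y n (rl (X ∘ e))) (fun e => hS p β θ u (im e))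
      (fun e X => hS p β θ u (im (s2 e)) X - hS p β θ u (im e) X) (fun e _ => bk n e) (fun e _ => bh e)
      (fun e _ => bms hB (bh2 e) (bh e)) (fun e _ X => hk0 n _ hn)).trans ?_
    exact mul_le_mul (Real.sqrt_le_sqrt (hP n hn)) (Real.sqrt_le_sqrt (hQ2 n hn)) (Real.sqrt_nonneg _)
      (Real.sqrt_nonneg _)
  have csn3 : ∫ X, ∑ e ∈ Ij 4 ι, k5 φ τ y Y 0 (rl (X ∘ e)) * (|hS p β θ u (im e) X| *
        |hS p β θ u (im (s3 e)) X - hS p β θ u (im e) X|) ∂(PiS (mO p.L) (mO p.L) (∅ : Finset ι)) ≤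
      Real.sqrt ((CG * C) * ((C2 + C3) * C)) * Real.sqrt (AA p θ u 4 * D4 p θ u) := by
    rw [← sq]
    refine (cs hB _ _ (fun e X => k5 φ τ y Y 0 (rl (X ∘ e))) (fun e => hS p β θ u (im e))
      (fun e X => hS p β θ u (im (s3 e)) X - hS p β θ u (im e) X) (fun e _ => bk 0 e) (fun e _ => bh e)
      (fun e _ => bms hB (bh3 e) (bh e)) (fun e _ X => hk0 0 _ (Or.inl rfl))).trans ?_
    exact mul_le_mul (Real.sqrt_le_sqrt (hP 0 (Or.inl rfl))) (Real.sqrt_le_sqrt (hQ3 0 (Or.inl rfl)))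
      (Real.sqrt_nonneg _) (Real.sqrt_nonneg _)
  have csn4 : ∫ X, ∑ e ∈ Ij 4 ι, k5 φ τ y Y 0 (rl (X ∘ e)) *
        (|hS p β θ u (im (s2 e)) X - hS p β θ u (im e) X| *
        |hS p β θ u (im (s3 e)) X - hS p β θ u (im e) X|) ∂(PiS (mO p.L) (mO p.L) (∅ : Finset ι)) ≤
      (C2 + C3) * C * D4 p θ u := by
    refine (cs hB _ _ (fun e X => k5 φ τ y Y 0 (rl (X ∘ e)))
      (fun e X => hS p β θ u (im (s2 e)) X - hS p β θ u (im e) X)
      (fun e X => hS p β θ u (im (s3 e)) X - hS p β θ u (im e) X) (fun e _ => bk 0 e)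
      (fun e _ => bms hB (bh2 e) (bh e))
      (fun e _ => bms hB (bh3 e) (bh e)) (fun e _ X => hk0 0 _ (Or.inl rfl))).trans ?_
    refine (mul_le_mul (Real.sqrt_le_sqrt (hQ2 0 (Or.inl rfl))) (Real.sqrt_le_sqrt (hQ3 0 (Or.inl rfl)))
      (Real.sqrt_nonneg _) (Real.sqrt_nonneg _)).trans (le_of_eq ?_)
    exact Real.mul_self_sqrt (by positivity)
  have f1 := csn2 0 (Or.inl rfl)
  have f2 := csn2 1 (Or.inr (Or.inl rfl))
  have f3 := csn2 3 (Or.inr (Or.inr rfl))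
  have z1 : 0 ≤ Real.sqrt (AA p θ u 4 * D4 p θ u) := Real.sqrt_nonneg _
  have z2 : 0 ≤ Real.sqrt ((CG * C) * ((C2 + C3) * C)) := Real.sqrt_nonneg _
  have z3 : 0 ≤ (C2 + C3) * C := by positivity
  have w1 : 0 ≤ Real.sqrt ((CG * C) * ((C2 + C3) * C)) * D4 p θ u := mul_nonneg z2 hD4
  have w2 : 0 ≤ (C2 + C3) * C * Real.sqrt (AA p θ u 4 * D4 p θ u) := mul_nonneg z3 z1
  nlinarith

end Pool.Agent.TBS
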