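import Pool.Agent.TBS.StmtsB

/-!
# RB1: the roughness and the remaining kinetic energy
-/

set_option autoImplicit false

open MeasureTheory Filter Topology
open scoped ContDiff

namespace Pool.Agent.TBS

open Pool.Agent.TBG Pool.Agent.TBL Pool.Agent.TBF

namespace RB1_

lemma sumIO {W J : Type} [MeasurableSpace W] (μ : Measure W) (s : Finset J) (f : J → W → ℝ)
    (H : W → ℝ) (C : ℝ) (hf : ∀ a ∈ s, Integrable (f a) μ) (hH : Integrable H μ)
    (h : ∀ X, ∑ a ∈ s, f a X ≤ C * H X) :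
    ∑ a ∈ s, ∫ X, f a X ∂μ ≤ C * ∫ X, H X ∂μ := by
  rw [← integral_finsetSum _ hf, ← integral_const_mul]
  exact integral_mono (integrable_finsetSum _ hf) (hH.const_mul C) h

lemma int3 {W : Type} [MeasurableSpace W] (μ : Measure W) (F₁ F₂ F₃ F : W → ℝ) (a b c : ℝ)
    (h₁ : Integrable F₁ μ) (h₂ : Integrable F₂ μ) (h₃ : Integrable F₃ μ) (h : Integrable F μ)
    (hle : ∀ X, F X ≤ a * F₁ X + b * F₂ X + c * F₃ X) :
    ∫ X, F X ∂μ ≤ a * ∫ X, F₁ X ∂μ + b * ∫ X, F₂ X ∂μ + c * ∫ X, F₃ X ∂μ := by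
  have e : ∫ X, (a * F₁ X + b * F₂ X + c * F₃ X) ∂μ =
      a * ∫ X, F₁ X ∂μ + b * ∫ X, F₂ X ∂μ + c * ∫ X, F₃ X ∂μ := by
    rw [integral_add (f := fun X => a * F₁ X + b * F₂ X) (g := fun X => c * F₃ X)
      ((h₁.const_mul a).add (h₂.const_mul b)) (h₃.const_mul c),
      integral_add (f := fun X => a * F₁ X) (g := fun X => b * F₂ X)
      (h₁.const_mul a) (h₂.const_mul b), integral_const_mul, integral_const_mul,
      integral_const_mul]
  rw [← e]
  exact integral_mono h (((h₁.const_mul a).add (h₂.const_mul b)).add (h₃.const_mul c)) hle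

lemma ic_bm {Q : Set E} (hQ : MeasurableSet Q) : BM (ic Q) := by
  refine ⟨measurable_const.indicator hQ, 1, fun x => ?_⟩
  unfold ic
  by_cases hx : x ∈ Q
  · simp [hx]
  · simp [hx]

lemma ic_nonneg (Q : Set E) (x : E) : 0 ≤ ic Q x := Set.indicator_nonneg (fun _ _ => zero_le_one) x

lemma PiS_empty {ι : Type} [Fintype ι] [DecidableEq ι] (m m' n : Measure E) :
    PiS m n (∅ : Finset ι) = PiS m' n (∅ : Finset ι) := by
  simp [PiS]

lemma IO_eq {ι : Type} [Fintype ι] [DecidableEq ι] (p : Par) (θ : E → E → ℝ) (a : E)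
    (F : (ι → E) → ℝ) : IO p F = IA p θ a ∅ F := by
  unfold IO IA
  rw [PiS_empty (mO p.L) (tm (θ a)) (mO p.L)]

/-- the term with the average of `f²` -/
lemma term3 (hBMC : Pool.Agent.TBL.Stmt_BMC) (hMSY : Stmt_MSY) (hPSF : Stmt_PSF)
    (hAVP : Stmt_AVP) (hAVI : Stmt_AVI) (hDNS : Stmt_DNS) (hVTP : Stmt_VTP)
    {C : ℝ} {ι : Type} [Fintype ι] [DecidableEq ι] {p : Par} {β θ : E → E → ℝ}
    (hS : Sys C p β θ) {a : E} (ha : a ∈ p.Gr) (i : ι) (f : (ι → E) → ℝ) (hf : BM f) :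
    IO p (fun X => vt p a {i} X * (ic (Qb a (4 * p.l)) (X i) *
      Av (tm (θ a)) {i} (fun Y => f Y ^ 2) X)) ≤
    512 * C * IO p (fun X => ic (Qb a (2 * p.l)) (X i) * f X ^ 2) := by
  obtain ⟨hl, hfin, _, _, hQb, _, hpr, _, _, hicI, _, _⟩ := hMSY C p β θ hS
  have _i1 := hfin
  have := hpr a
  have hl0 : 0 < p.l := lt_of_lt_of_le one_pos hl
  obtain ⟨bmc, bmk, bms, bmp, _⟩ := hBMC
  set m := tm (θ a) with hm
  set n := mO p.L with hn
  have hf2 : BM (fun X => f X ^ 2) := (bmc _ f f hf hf).2.2.2.1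
  obtain ⟨vtBM, vtI, vtv⟩ := hVTP ι C p β θ hS a {i}
  have hvt0 : ∀ X : ι → E, 0 ≤ vt p a {i} X := fun X => by
    rcases (vtv.1 X).1 with h | h <;> rw [h]
    norm_num
  have hvt1 : ∀ X : ι → E, vt p a {i} X ≤ 1 := fun X => by
    rcases (vtv.1 X).1 with h | h <;> rw [h]
    norm_num
  have hav := hAVP ι m {i} ∅ (fun X => f X ^ 2) (fun X => f X ^ 2) hf2 hf2
  have hAvBM := hav.1
  have hAvI := hav.2.1
  have hicBM : ∀ r, BM (fun X : ι → E => ic (Qb a r) (X i)) := fun r =>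
    bmp E (ι → E) (ic (Qb a r)) (fun X => X i) (ic_bm (hQb a r).1) (measurable_pi_apply i)
  have hF : BM (fun X : ι → E => vt p a {i} X * (ic (Qb a (4 * p.l)) (X i) *
      Av m {i} (fun Y => f Y ^ 2) X)) :=
    (bmc _ _ _ vtBM ((bmc _ _ _ (hicBM _) hAvBM).2.2.1)).2.2.1
  have hvol : ∫ x, ic (Qb a (4 * p.l)) x ∂n = 512 * p.l ^ 3 := by
    have h1 := hicI a ha (4 * p.l) (fun _ => (1 : ℝ)) (by linarith)
    simp only [mul_one] at h1
    rw [hn, h1]
    simp only [integral_const, smul_eq_mul, mul_one]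
    rw [Measure.real, Measure.restrict_apply_univ, (hQb a (4 * p.l)).2 (by positivity),
      ENNReal.toReal_ofReal (by positivity)]
    ring
  rw [IO_eq p θ a, IO_eq p θ a]
  have e1 : IA p θ a ∅ (fun X => vt p a {i} X * (ic (Qb a (4 * p.l)) (X i) *
      Av m {i} (fun Y => f Y ^ 2) X)) =
      512 * p.l ^ 3 * IA p θ a {i} (fun X => f X ^ 2 * vt p a {i} X) := by
    unfold IA
    rw [((hPSF ι m n ∅).2 _ hF).1 i (by simp)]
    have hin : ∀ X : ι → E, ∫ x, (vt p a {i} (Function.update X i x) *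
        (ic (Qb a (4 * p.l)) (Function.update X i x i) *
          Av m {i} (fun Y => f Y ^ 2) (Function.update X i x))) ∂n =
        512 * p.l ^ 3 * (Av m {i} (fun Y => f Y ^ 2) X * vt p a {i} X) := by
      intro X
      have : ∀ x, vt p a {i} (Function.update X i x) *
        (ic (Qb a (4 * p.l)) (Function.update X i x i) *
          Av m {i} (fun Y => f Y ^ 2) (Function.update X i x)) =
          (Av m {i} (fun Y => f Y ^ 2) X * vt p a {i} X) * ic (Qb a (4 * p.l)) x := by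
        intro x
        rw [vtI (Function.update X i x) X (fun j hj => by
            simp only [Finset.mem_singleton] at hj
            rw [Function.update_of_ne hj]),
          hAvI (Function.update X i x) X (fun j hj => by
            simp only [Finset.mem_singleton] at hj
            rw [Function.update_of_ne hj]), Function.update_self]
        ring
      simp only [this]
      rw [integral_const_mul, hvol]
      ring
    simp only [hin]
    rw [integral_const_mul]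
    congr 1
    have e2 : (insert i ∅ : Finset ι) = {i} := by simp
    rw [e2]
    exact ((hAVI ι m n {i} {i} (fun X => f X ^ 2) (vt p a {i}) hf2 vtBM
      (Finset.Subset.refl _)).1 vtI).symm
  have hF2 : BM (fun X => f X ^ 2 * vt p a {i} X) := (bmc _ _ _ hf2 vtBM).2.2.1
  have e3 : IA p θ a {i} (fun X => f X ^ 2 * vt p a {i} X) =
      IA p θ a ∅ (fun X => θ a (X i) * (f X ^ 2 * vt p a {i} X)) := by
    have := (hDNS ι C p β θ hS a ha ∅ (fun X => f X ^ 2 * vt p a {i} X) hF2).1 i (by simp)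
    have e2 : (insert i ∅ : Finset ι) = {i} := by simp
    rw [e2] at this
    exact this
  have hC0 : 0 ≤ C := by
    have := hS.mul 0
    have h0 : (0 : ℝ) ≤ ((p.Gr.filter (fun a => ∀ c, |(0 : E) c - a c| ≤ 12 * p.l)).card : ℕ) :=
      Nat.cast_nonneg _
    linarith
  have hθBM : BM (θ a) := by
    refine ⟨hS.θm a, C / p.l ^ 3, fun x => ?_⟩
    rw [abs_of_nonneg (hS.θ0 a x)]
    exact hS.θb a x
  have hθX : BM (fun X : ι → E => θ a (X i)) :=
    bmp E (ι → E) (θ a) (fun X => X i) hθBM (measurable_pi_apply i)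
  have hfinS : IsFiniteMeasure (PiS m n (∅ : Finset ι)) := (hPSF ι m n ∅).1
  have e4 : IA p θ a ∅ (fun X => θ a (X i) * (f X ^ 2 * vt p a {i} X)) ≤
      C / p.l ^ 3 * IA p θ a ∅ (fun X => ic (Qb a (2 * p.l)) (X i) * f X ^ 2) := by
    unfold IA
    rw [← integral_const_mul]
    refine integral_mono ?_ ?_ ?_
    · exact (bmc _ _ _ ((bmc _ _ _ hθX hF2).2.2.1)
        ((bmc _ _ _ hθX hF2).2.2.1)).2.2.2.2.2.2 _
    · have hb := (bmc _ _ _ (hicBM (2 * p.l)) hf2).2.2.1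
      exact ((bmc _ _ _ hb hb).2.2.2.2.2.2 _).const_mul _
    · intro X
      show θ a (X i) * (f X ^ 2 * vt p a {i} X) ≤
        C / p.l ^ 3 * (ic (Qb a (2 * p.l)) (X i) * f X ^ 2)
      have h1 : θ a (X i) ≤ C / p.l ^ 3 * ic (Qb a (2 * p.l)) (X i) := by
        by_cases h : θ a (X i) = 0
        · rw [h]
          exact mul_nonneg (by positivity) (ic_nonneg _ _)
        · have : ic (Qb a (2 * p.l)) (X i) = 1 := by
            unfold ic
            simp [hS.θsp a _ h]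
          rw [this, mul_one]
          exact hS.θb a _
      have h2 : 0 ≤ f X ^ 2 := sq_nonneg _
      calc θ a (X i) * (f X ^ 2 * vt p a {i} X) ≤ θ a (X i) * (f X ^ 2 * 1) :=
            mul_le_mul_of_nonneg_left (mul_le_mul_of_nonneg_left (hvt1 X) h2) (hS.θ0 a _)
        _ = θ a (X i) * f X ^ 2 := by ring
        _ ≤ (C / p.l ^ 3 * ic (Qb a (2 * p.l)) (X i)) * f X ^ 2 :=
            mul_le_mul_of_nonneg_right h1 h2
        _ = _ := by ring
  rw [e1, e3]
  calc 512 * p.l ^ 3 * IA p θ a ∅ (fun X => θ a (X i) * (f X ^ 2 * vt p a {i} X))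
      ≤ 512 * p.l ^ 3 * (C / p.l ^ 3 * IA p θ a ∅ (fun X => ic (Qb a (2 * p.l)) (X i) * f X ^ 2)) :=
        mul_le_mul_of_nonneg_left e4 (by positivity)
    _ = 512 * C * IA p θ a ∅ (fun X => ic (Qb a (2 * p.l)) (X i) * f X ^ 2) := by
        field_simp

end RB1_

open RB1_ in
theorem rb1_proof (hBMC : Pool.Agent.TBL.Stmt_BMC) (hMSY : Stmt_MSY) (hPSF : Stmt_PSF)
    (hAVP : Stmt_AVP) (hAVI : Stmt_AVI) (hAVC : Stmt_AVC) (hDNS : Stmt_DNS) (hVTP : Stmt_VTP)
    (hPCN : Stmt_PCN) (_hKBM : Stmt_KBM) (hL3I : Stmt_L3I) (hL4I : Stmt_L4I)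
    (hFIF : Stmt_FIF) : Stmt_RB1 := by
  intro C
  obtain ⟨C₂, hC₂, hpcn⟩ := hPCN C
  obtain ⟨C₃, hC₃, hfif⟩ := hFIF C
  refine ⟨6 * C₂ * |C| + 18 * C₂ * |C| * C₃ ^ 2 + 4 * |C| + 2048 * C ^ 2 + 1, by positivity, ?_⟩
  intro ι _ _ p β θ φ τ g y Y g₄ u hS hu hφ hT hy hY
  have hC0 : 0 ≤ C := by
    have := hS.mul 0
    have h0 : (0 : ℝ) ≤ ((p.Gr.filter (fun a => ∀ c, |(0 : E) c - a c| ≤ 12 * p.l)).card : ℕ) :=
      Nat.cast_nonneg _
    linarith
  rw [abs_of_nonneg hC0]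
  obtain ⟨hl, hfin, _, _, hQb, _, hpr, _, _, _, _, hicS⟩ := hMSY C p β θ hS
  have _i1 := hfin
  have hl0 : 0 < p.l := lt_of_lt_of_le one_pos hl
  have hBMC' := hBMC
  obtain ⟨bmc, bmk, bms, bmp, _⟩ := hBMC
  have hfinS : IsFiniteMeasure (PiS (mO p.L) (mO p.L) (∅ : Finset ι)) := by
    have := hpr 0
    have h := (hPSF ι (tm (θ 0)) (mO p.L) ∅).1
    rw [PiS_empty _ (mO p.L) _] at h
    exact h
  have bmI : ∀ F : (ι → E) → ℝ, BM F → Integrable F (PiS (mO p.L) (mO p.L) (∅ : Finset ι)) :=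
    fun F hF => (bmc _ F F hF hF).2.2.2.2.2.2 _
  have bmMul : ∀ F G : (ι → E) → ℝ, BM F → BM G → BM (fun X => F X * G X) :=
    fun F G hF hG => (bmc _ F G hF hG).2.2.1
  have bmAdd : ∀ F G : (ι → E) → ℝ, BM F → BM G → BM (fun X => F X + G X) :=
    fun F G hF hG => (bmc _ F G hF hG).1
  have bmSub : ∀ F G : (ι → E) → ℝ, BM F → BM G → BM (fun X => F X - G X) :=
    fun F G hF hG => (bmc _ F G hF hG).2.1
  have bmSq : ∀ F : (ι → E) → ℝ, BM F → BM (fun X => F X ^ 2) :=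
    fun F hF => (bmc _ F F hF hF).2.2.2.1
  have bmC : ∀ (F : (ι → E) → ℝ) (k : ℝ), BM F → BM (fun X => k * F X) :=
    fun F k hF => (bmc _ F F hF hF).2.2.2.2.2.1 k
  -- facts on u
  have huBM : BM u := by
    have := hpr 0
    exact (hAVC ι (tm (θ 0)) ∅ u hu).1
  have hduBM : ∀ j c, BM (di j c u) := by
    have := hpr 0
    exact (hAVC ι (tm (θ 0)) ∅ u hu).2.1
  have hdu : ∀ j c X, di j c u X = pd c (fun x => u (Function.update X j x)) (X j) := by
    have := hpr 0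
    exact (hAVC ι (tm (θ 0)) ∅ u hu).2.2.2.2.2.1
  have haF := (hL3I C ι p β θ φ τ g u hS hu hφ hT).1
  have hbF := (hL4I C ι p β θ φ y Y g₄ u hS hu hφ hy hY).1
  have hfi := hfif ι p β θ φ τ g u hS hu hφ hT
  have hicBM : ∀ (i : ι) (a : E) (r : ℝ), BM (fun X : ι → E => ic (Qb a r) (X i)) := fun i a r =>
    bmp E (ι → E) (ic (Qb a r)) (fun X => X i) (ic_bm (hQb a r).1) (measurable_pi_apply i)
  -- abbreviations
  set D : ι → Fin 3 → (ι → E) → ℝ := fun i c X =>
    di i c u X + aF p β θ τ u i c X - bF p β θ Y u i c X with hD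
  have hDBM : ∀ i c, BM (D i c) := fun i c =>
    bmSub _ _ (bmAdd _ _ (hduBM i c) (haF i c)) (hbF i c)
  set G : ι → (ι → E) → ℝ := fun i X => u X + fF p β θ τ u i X with hG
  have hGBM : ∀ i, BM (G i) := fun i => bmAdd _ _ huBM (hfi i).1
  have hslice : ∀ (i : ι) (X : ι → E), ContDiff ℝ 1 (fun x => u (Function.update X i x)) := by
    intro i X
    exact hu.1.comp (contDiff_pi.mpr fun j => by
      by_cases h : j = i
      · subst h
        simp only [Function.update_self]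
        exact contDiff_id
      · simpa [Function.update_of_ne h] using contDiff_const)
  have hGs : ∀ i X, ContDiff ℝ 1 (fun x => G i (Function.update X i x)) := fun i X =>
    (hslice i X).add ((hfi i).2.2.2.1 X)
  have hpdG : ∀ i c X, pd c (fun x => G i (Function.update X i x)) (X i) =
      D i c X + bF p β θ Y u i c X +
      (pd c (fun x => fF p β θ τ u i (Function.update X i x)) (X i) - aF p β θ τ u i c X) := by
    intro i c X
    have h1 : DifferentiableAt ℝ (fun x => u (Function.update X i x)) (X i) :=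
      (hslice i X).differentiable (by norm_num) _
    have h2 : DifferentiableAt ℝ (fun x => fF p β θ τ u i (Function.update X i x)) (X i) :=
      ((hfi i).2.2.2.1 X).differentiable (by norm_num) _
    have h3 : pd c (fun x => G i (Function.update X i x)) (X i) =
        pd c (fun x => u (Function.update X i x)) (X i) +
        pd c (fun x => fF p β θ τ u i (Function.update X i x)) (X i) := by
      unfold pd
      have : (fun x => G i (Function.update X i x)) =
          (fun x => u (Function.update X i x)) +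
            (fun x => fF p β θ τ u i (Function.update X i x)) := rfl
      rw [this, fderiv_add h1 h2]
      rfl
    rw [h3, ← hdu i c X]
    simp only [hD]
    ring
  have hpdGBM : ∀ i c, BM (fun X => pd c (fun x => G i (Function.update X i x)) (X i)) := by
    intro i c
    have : (fun X => pd c (fun x => G i (Function.update X i x)) (X i)) = fun X =>
        D i c X + bF p β θ Y u i c X +
        (pd c (fun x => fF p β θ τ u i (Function.update X i x)) (X i) - aF p β θ τ u i c X) := by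
      funext X
      exact hpdG i c X
    rw [this]
    exact bmAdd _ _ (bmAdd _ _ (hDBM i c) (hbF i c)) (bmSub _ _ ((hfi i).2.2.2.2.1 c) (haF i c))
  -- the bound for one particle
  set Hi : ι → (ι → E) → ℝ := fun i X =>
    ∑ c, pd c (fun x => G i (Function.update X i x)) (X i) ^ 2 with hHi
  have hHiBM : ∀ i, BM (Hi i) := fun i =>
    bms (ι → E) (Fin 3) Finset.univ (fun c X => pd c (fun x => G i (Function.update X i x)) (X i) ^ 2)
      (fun c _ => bmSq _ (hpdGBM i c))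
  have hHi0 : ∀ i X, 0 ≤ Hi i X := fun i X => Finset.sum_nonneg fun c _ => sq_nonneg _
  have hf2BM : ∀ i, BM (fun X => fF p β θ τ u i X ^ 2) := fun i => bmSq _ (hfi i).1
  have hs2BM : ∀ i, BM (fun X => sF p θ τ u i X ^ 2) := fun i => bmSq _ (hfi i).2.1
  have key : ∀ i, ∑ a ∈ p.Gr, IO p (fun X => vt p a {i} X * ic (Qb a (4 * p.l)) (X i) *
      (u X - Av (tm (θ a)) {i} u X) ^ 2) ≤
      2 * C₂ * p.l ^ 2 * C * IO p (Hi i) + (4 * C + 2048 * C ^ 2) *
        IO p (fun X => fF p β θ τ u i X ^ 2) := by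
    intro i
    set f := fF p β θ τ u i with hf
    have hfBM : BM f := (hfi i).1
    have h1 : ∀ a ∈ p.Gr, IO p (fun X => vt p a {i} X * ic (Qb a (4 * p.l)) (X i) *
      (u X - Av (tm (θ a)) {i} u X) ^ 2) ≤
        2 * (C₂ * p.l ^ 2 * IO p (fun X => vt p a {i} X * (ic (Qb a (4 * p.l)) (X i) * Hi i X))) +
        4 * IO p (fun X => vt p a {i} X * (ic (Qb a (4 * p.l)) (X i) * f X ^ 2)) +
        4 * (512 * C * IO p (fun X => ic (Qb a (2 * p.l)) (X i) * f X ^ 2)) := by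
      intro a ha
      have := hpr a
      obtain ⟨vtBM, vtI, vtv⟩ := hVTP ι C p β θ hS a {i}
      have hvt0 : ∀ X : ι → E, 0 ≤ vt p a {i} X := fun X => by
        rcases (vtv.1 X).1 with h | h <;> rw [h]
        norm_num
      have ht3 := term3 hBMC' hMSY hPSF hAVP hAVI hDNS hVTP hS ha i f hfBM
      have hp := hpcn ι p β θ hS a ha ∅ i (G i) (vt p a {i}) (4 * p.l) (by simp) (hGBM i)
        (hGs i) (hpdGBM i) vtBM hvt0 (fun X y _ _ => vtI _ _ (fun j hj => by
            simp only [Finset.mem_singleton] at hj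
            rw [Function.update_of_ne hj])) (by linarith) (by linarith)
      rw [← IO_eq p θ a, ← IO_eq p θ a] at hp
      have hAu := hAVP ι (tm (θ a)) {i} ∅ u f huBM hfBM
      have hAf := hAVP ι (tm (θ a)) {i} ∅ f f hfBM hfBM
      have hAf2 := hAVP ι (tm (θ a)) {i} ∅ (fun X => f X ^ 2) f (bmSq _ hfBM) hfBM
      have hAG := hAVP ι (tm (θ a)) {i} ∅ (G i) f (hGBM i) hfBM
      have hsplit : ∀ X, Av (tm (θ a)) {i} (G i) X =
          Av (tm (θ a)) {i} u X + Av (tm (θ a)) {i} f X := fun X =>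
        congrFun hAu.2.2.2.2.2.1 X
      have hj : ∀ X, (Av (tm (θ a)) {i} f X) ^ 2 ≤ Av (tm (θ a)) {i} (fun Y => f Y ^ 2) X :=
        hAf.2.2.2.2.2.2.2.2.2.2.1
      have hb1 : BM (fun X => vt p a {i} X * (ic (Qb a (4 * p.l)) (X i) *
          (G i X - Av (tm (θ a)) {i} (G i) X) ^ 2)) :=
        bmMul _ _ vtBM (bmMul _ _ (hicBM i a _) (bmSq _ (bmSub _ _ (hGBM i) hAG.1)))
      have hb2 : BM (fun X => vt p a {i} X * (ic (Qb a (4 * p.l)) (X i) * f X ^ 2)) :=
        bmMul _ _ vtBM (bmMul _ _ (hicBM i a _) (bmSq _ hfBM))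
      have hb3 : BM (fun X => vt p a {i} X * (ic (Qb a (4 * p.l)) (X i) *
          Av (tm (θ a)) {i} (fun Y => f Y ^ 2) X)) :=
        bmMul _ _ vtBM (bmMul _ _ (hicBM i a _) hAf2.1)
      have hb0 : BM (fun X => vt p a {i} X * ic (Qb a (4 * p.l)) (X i) *
          (u X - Av (tm (θ a)) {i} u X) ^ 2) :=
        bmMul _ _ (bmMul _ _ vtBM (hicBM i a _)) (bmSq _ (bmSub _ _ huBM hAu.1))
      have hpt : IO p (fun X => vt p a {i} X * ic (Qb a (4 * p.l)) (X i) *
          (u X - Av (tm (θ a)) {i} u X) ^ 2) ≤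
          2 * IO p (fun X => vt p a {i} X * (ic (Qb a (4 * p.l)) (X i) *
            (G i X - Av (tm (θ a)) {i} (G i) X) ^ 2)) +
          4 * IO p (fun X => vt p a {i} X * (ic (Qb a (4 * p.l)) (X i) * f X ^ 2)) +
          4 * IO p (fun X => vt p a {i} X * (ic (Qb a (4 * p.l)) (X i) *
            Av (tm (θ a)) {i} (fun Y => f Y ^ 2) X)) := by
        refine int3 _ _ _ _ _ 2 4 4 (bmI _ hb1) (bmI _ hb2) (bmI _ hb3) (bmI _ hb0) fun X => ?_
        have hw : 0 ≤ vt p a {i} X * ic (Qb a (4 * p.l)) (X i) :=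
          mul_nonneg (hvt0 X) (ic_nonneg _ _)
        have e : (u X - Av (tm (θ a)) {i} u X) ^ 2 ≤
            2 * (G i X - Av (tm (θ a)) {i} (G i) X) ^ 2 + 4 * f X ^ 2 +
            4 * Av (tm (θ a)) {i} (fun Y => f Y ^ 2) X := by
          rw [hsplit X]
          have hGX : G i X = u X + f X := rfl
          rw [hGX]
          have := hj X
          nlinarith [sq_nonneg (u X + f X - (Av (tm (θ a)) {i} u X + Av (tm (θ a)) {i} f X) +
            (f X - Av (tm (θ a)) {i} f X)), sq_nonneg (f X + Av (tm (θ a)) {i} f X)]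
        calc vt p a {i} X * ic (Qb a (4 * p.l)) (X i) * (u X - Av (tm (θ a)) {i} u X) ^ 2
            ≤ vt p a {i} X * ic (Qb a (4 * p.l)) (X i) *
              (2 * (G i X - Av (tm (θ a)) {i} (G i) X) ^ 2 + 4 * f X ^ 2 +
              4 * Av (tm (θ a)) {i} (fun Y => f Y ^ 2) X) := mul_le_mul_of_nonneg_left e hw
          _ = _ := by ring
      have h4 := mul_le_mul_of_nonneg_left hp (by norm_num : (0 : ℝ) ≤ 2)
      have h5 := mul_le_mul_of_nonneg_left ht3 (by norm_num : (0 : ℝ) ≤ 4)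
      calc _ ≤ _ := hpt
        _ ≤ _ := by
          refine add_le_add (add_le_add h4 le_rfl) h5
    have hvt : ∀ a (X : ι → E), 0 ≤ vt p a {i} X ∧ vt p a {i} X ≤ 1 := fun a X => by
      rcases ((hVTP ι C p β θ hS a {i}).2.2.1 X).1 with h | h <;> rw [h] <;> norm_num
    have s1 : ∑ a ∈ p.Gr, IO p (fun X => vt p a {i} X * (ic (Qb a (4 * p.l)) (X i) * Hi i X)) ≤
        C * IO p (Hi i) := by
      refine sumIO _ _ _ _ _ (fun a _ => bmI _ (bmMul _ _ (hVTP ι C p β θ hS a {i}).1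
        (bmMul _ _ (hicBM i a _) (hHiBM i)))) (bmI _ (hHiBM i)) fun X => ?_
      calc ∑ a ∈ p.Gr, vt p a {i} X * (ic (Qb a (4 * p.l)) (X i) * Hi i X)
          ≤ ∑ a ∈ p.Gr, ic (Qb a (4 * p.l)) (X i) * Hi i X := Finset.sum_le_sum fun a _ =>
            mul_le_of_le_one_left (mul_nonneg (ic_nonneg _ _) (hHi0 i X)) (hvt a X).2
        _ = (∑ a ∈ p.Gr, ic (Qb a (4 * p.l)) (X i)) * Hi i X := by rw [Finset.sum_mul]
        _ ≤ C * Hi i X := mul_le_mul_of_nonneg_right (hicS (X i) (4 * p.l) (by linarith))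
            (hHi0 i X)
    have s2 : ∑ a ∈ p.Gr, IO p (fun X => vt p a {i} X * (ic (Qb a (4 * p.l)) (X i) * f X ^ 2)) ≤
        C * IO p (fun X => f X ^ 2) := by
      refine sumIO _ _ _ _ _ (fun a _ => bmI _ (bmMul _ _ (hVTP ι C p β θ hS a {i}).1
        (bmMul _ _ (hicBM i a _) (hf2BM i)))) (bmI _ (hf2BM i)) fun X => ?_
      calc ∑ a ∈ p.Gr, vt p a {i} X * (ic (Qb a (4 * p.l)) (X i) * f X ^ 2)
          ≤ ∑ a ∈ p.Gr, ic (Qb a (4 * p.l)) (X i) * f X ^ 2 := Finset.sum_le_sum fun a _ =>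
            mul_le_of_le_one_left (mul_nonneg (ic_nonneg _ _) (sq_nonneg _)) (hvt a X).2
        _ = (∑ a ∈ p.Gr, ic (Qb a (4 * p.l)) (X i)) * f X ^ 2 := by rw [Finset.sum_mul]
        _ ≤ C * f X ^ 2 := mul_le_mul_of_nonneg_right (hicS (X i) (4 * p.l) (by linarith))
            (sq_nonneg _)
    have s3 : ∑ a ∈ p.Gr, IO p (fun X => ic (Qb a (2 * p.l)) (X i) * f X ^ 2) ≤
        C * IO p (fun X => f X ^ 2) := by
      refine sumIO _ _ _ _ _ (fun a _ => bmI _ (bmMul _ _ (hicBM i a _) (hf2BM i)))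
        (bmI _ (hf2BM i)) fun X => ?_
      calc ∑ a ∈ p.Gr, ic (Qb a (2 * p.l)) (X i) * f X ^ 2
          = (∑ a ∈ p.Gr, ic (Qb a (2 * p.l)) (X i)) * f X ^ 2 := by rw [Finset.sum_mul]
        _ ≤ C * f X ^ 2 := mul_le_mul_of_nonneg_right (hicS (X i) (2 * p.l) (by linarith))
            (sq_nonneg _)
    calc _ ≤ _ := Finset.sum_le_sum h1
      _ = 2 * (C₂ * p.l ^ 2 * ∑ a ∈ p.Gr, IO p (fun X => vt p a {i} X *
            (ic (Qb a (4 * p.l)) (X i) * Hi i X))) +
          4 * ∑ a ∈ p.Gr, IO p (fun X => vt p a {i} X * (ic (Qb a (4 * p.l)) (X i) * f X ^ 2)) +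
          4 * (512 * C * ∑ a ∈ p.Gr, IO p (fun X => ic (Qb a (2 * p.l)) (X i) * f X ^ 2)) := by
          rw [Finset.sum_add_distrib, Finset.sum_add_distrib, ← Finset.mul_sum, ← Finset.mul_sum,
            ← Finset.mul_sum, ← Finset.mul_sum, ← Finset.mul_sum]
      _ ≤ 2 * (C₂ * p.l ^ 2 * (C * IO p (Hi i))) + 4 * (C * IO p (fun X => f X ^ 2)) +
          4 * (512 * C * (C * IO p (fun X => f X ^ 2))) := by
          have h6 := mul_le_mul_of_nonneg_left s1 (by positivity : 0 ≤ 2 * (C₂ * p.l ^ 2))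
          have h7 := mul_le_mul_of_nonneg_left s3 (by positivity : 0 ≤ 4 * (512 * C))
          linarith
      _ = _ := by ring
  -- sums over the particles
  have hfs : ∀ i, IO p (fun X => fF p β θ τ u i X ^ 2) ≤ IO p (fun X => sF p θ τ u i X ^ 2) := by
    intro i
    refine integral_mono (bmI _ (hf2BM i)) (bmI _ (hs2BM i)) fun X => ?_
    have h1 := (hfi i).2.2.1 X
    show fF p β θ τ u i X ^ 2 ≤ sF p θ τ u i X ^ 2
    rw [← sq_abs]
    exact pow_le_pow_left₀ (abs_nonneg _) h1 2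
  have hDsum : ∀ i, BM (fun X => ∑ c, D i c X ^ 2) := fun i =>
    bms (ι → E) (Fin 3) Finset.univ (fun c X => D i c X ^ 2) (fun c _ => bmSq _ (hDBM i c))
  have hbsum : ∀ i, BM (fun X => ∑ c, bF p β θ Y u i c X ^ 2) := fun i =>
    bms (ι → E) (Fin 3) Finset.univ (fun c X => bF p β θ Y u i c X ^ 2)
      (fun c _ => bmSq _ (hbF i c))
  have hHb : ∀ i, IO p (Hi i) ≤ 3 * IO p (fun X => ∑ c, D i c X ^ 2) +
      3 * IO p (fun X => ∑ c, bF p β θ Y u i c X ^ 2) +
      9 * (C₃ / p.l) ^ 2 * IO p (fun X => sF p θ τ u i X ^ 2) := by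
    intro i
    refine int3 _ _ _ _ _ 3 3 (9 * (C₃ / p.l) ^ 2) (bmI _ (hDsum i)) (bmI _ (hbsum i))
      (bmI _ (hs2BM i)) (bmI _ (hHiBM i)) fun X => ?_
    show ∑ c, pd c (fun x => G i (Function.update X i x)) (X i) ^ 2 ≤
      3 * ∑ c, D i c X ^ 2 + 3 * ∑ c, bF p β θ Y u i c X ^ 2 +
        9 * (C₃ / p.l) ^ 2 * sF p θ τ u i X ^ 2
    have h1 : ∀ c, pd c (fun x => G i (Function.update X i x)) (X i) ^ 2 ≤
        3 * D i c X ^ 2 + 3 * bF p β θ Y u i c X ^ 2 + 3 * ((C₃ / p.l) ^ 2 * sF p θ τ u i X ^ 2) := by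
      intro c
      rw [hpdG i c X]
      have h2 := (hfi i).2.2.2.2.2 c X
      set z := pd c (fun x => fF p β θ τ u i (Function.update X i x)) (X i) - aF p β θ τ u i c X
      have h3 : z ^ 2 ≤ (C₃ / p.l) ^ 2 * sF p θ τ u i X ^ 2 := by
        rw [← mul_pow, ← sq_abs z]
        exact pow_le_pow_left₀ (abs_nonneg _) h2 2
      nlinarith [sq_nonneg (D i c X - bF p β θ Y u i c X), sq_nonneg (D i c X - z),
        sq_nonneg (bF p β θ Y u i c X - z)]
    calc _ ≤ ∑ c, (3 * D i c X ^ 2 + 3 * bF p β θ Y u i c X ^ 2 +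
          3 * ((C₃ / p.l) ^ 2 * sF p θ τ u i X ^ 2)) := Finset.sum_le_sum fun c _ => h1 c
      _ = _ := by
          rw [Finset.sum_add_distrib, Finset.sum_add_distrib, ← Finset.mul_sum, ← Finset.mul_sum]
          simp
          ring
  have hXX : ∑ i, IO p (fun X => ∑ c, D i c X ^ 2) = XX p β θ τ Y u := by
    unfold XX IO
    rw [← integral_finsetSum _ (fun i _ => bmI _ (hDsum i))]
  have hB2 : ∑ i, IO p (fun X => ∑ c, bF p β θ Y u i c X ^ 2) = B2 p β θ Y u := by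
    unfold B2 IO
    rw [← integral_finsetSum _ (fun i _ => bmI _ (hbsum i))]
  have hFF : ∑ i, IO p (fun X => sF p θ τ u i X ^ 2) = FF p θ τ u := by
    unfold FF IO
    rw [← integral_finsetSum _ (fun i _ => bmI _ (hs2BM i))]
  have hXX0 : 0 ≤ XX p β θ τ Y u := integral_nonneg fun X =>
    Finset.sum_nonneg fun i _ => Finset.sum_nonneg fun c _ => sq_nonneg _
  have hB20 : 0 ≤ B2 p β θ Y u := integral_nonneg fun X =>
    Finset.sum_nonneg fun i _ => Finset.sum_nonneg fun c _ => sq_nonneg _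
  have hFF0 : 0 ≤ FF p θ τ u := integral_nonneg fun X =>
    Finset.sum_nonneg fun i _ => sq_nonneg _
  have hone : ∀ i, ∑ a ∈ p.Gr, IO p (fun X => vt p a {i} X * ic (Qb a (4 * p.l)) (X i) *
      (u X - Av (tm (θ a)) {i} u X) ^ 2) ≤
      6 * C₂ * p.l ^ 2 * C * IO p (fun X => ∑ c, D i c X ^ 2) +
      6 * C₂ * p.l ^ 2 * C * IO p (fun X => ∑ c, bF p β θ Y u i c X ^ 2) +
      (18 * C₂ * C * C₃ ^ 2 + 4 * C + 2048 * C ^ 2) * IO p (fun X => sF p θ τ u i X ^ 2) := by
    intro i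
    have h1 := key i
    have h2 := mul_le_mul_of_nonneg_left (hHb i) (by positivity : 0 ≤ 2 * C₂ * p.l ^ 2 * C)
    have h3 := mul_le_mul_of_nonneg_left (hfs i) (by positivity : 0 ≤ 4 * C + 2048 * C ^ 2)
    have h4 : 2 * C₂ * p.l ^ 2 * C * (9 * (C₃ / p.l) ^ 2) = 18 * C₂ * C * C₃ ^ 2 := by
      field_simp
      ring
    calc _ ≤ _ := h1
      _ ≤ _ := add_le_add h2 h3
      _ = 6 * C₂ * p.l ^ 2 * C * IO p (fun X => ∑ c, D i c X ^ 2) +
          6 * C₂ * p.l ^ 2 * C * IO p (fun X => ∑ c, bF p β θ Y u i c X ^ 2) +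
          (2 * C₂ * p.l ^ 2 * C * (9 * (C₃ / p.l) ^ 2) + 4 * C + 2048 * C ^ 2) *
            IO p (fun X => sF p θ τ u i X ^ 2) := by ring
      _ = _ := by rw [h4]
  calc RW p θ u = ∑ i, ∑ a ∈ p.Gr, IO p (fun X => vt p a {i} X * ic (Qb a (4 * p.l)) (X i) *
      (u X - Av (tm (θ a)) {i} u X) ^ 2) := by
        unfold RW
        rw [Finset.sum_comm]
    _ ≤ _ := Finset.sum_le_sum fun i _ => hone i
    _ = 6 * C₂ * p.l ^ 2 * C * XX p β θ τ Y u + 6 * C₂ * p.l ^ 2 * C * B2 p β θ Y u +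
        (18 * C₂ * C * C₃ ^ 2 + 4 * C + 2048 * C ^ 2) * FF p θ τ u := by
        rw [Finset.sum_add_distrib, Finset.sum_add_distrib, ← Finset.mul_sum, ← Finset.mul_sum,
          ← Finset.mul_sum, hXX, hB2, hFF]
    _ ≤ _ := by
        have h1 : 0 ≤ p.l ^ 2 * XX p β θ τ Y u := by positivity
        have h2 : 0 ≤ p.l ^ 2 * B2 p β θ Y u := by positivity
        have k1 : 0 ≤ 6 * C₂ * C := by positivity
        have k2 : 0 ≤ 18 * C₂ * C * C₃ ^ 2 := by positivity
        have k3 : 0 ≤ 4 * C + 2048 * C ^ 2 := by positivity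
        nlinarith [mul_nonneg k2 h1, mul_nonneg k3 h1, mul_nonneg k2 h2, mul_nonneg k3 h2,
          mul_nonneg k1 hFF0]

end Pool.Agent.TBS
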