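import Pool.Agent.TBS.StmtsB

/-!
# RB2: the norm of the field without derivatives
-/

set_option autoImplicit false

open MeasureTheory Filter Topology
open scoped ContDiff

namespace Pool.Agent.TBS

open Pool.Agent.TBG Pool.Agent.TBL Pool.Agent.TBF

namespace RB2_

theorem om_fin (L : ℝ) : volume (Om L) < ⊤ := by
  have h1 : Bornology.IsBounded (Om L) := by
    rw [isBounded_iff_forall_norm_le]
    refine ⟨Real.sqrt (3 * (L / 2) ^ 2), fun x hx => ?_⟩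
    rw [EuclideanSpace.norm_eq]
    refine Real.sqrt_le_sqrt ?_
    have h2 : ∀ c : Fin 3, ‖x c‖ ^ 2 ≤ (L / 2) ^ 2 := fun c => by
      rw [Real.norm_eq_abs]
      exact pow_le_pow_left₀ (abs_nonneg _) (hx c).le 2
    calc ∑ c, ‖x c‖ ^ 2 ≤ ∑ _c : Fin 3, (L / 2) ^ 2 := Finset.sum_le_sum fun c _ => h2 c
      _ = 3 * (L / 2) ^ 2 := by simp
  exact h1.measure_lt_top

theorem mo_fin (L : ℝ) : IsFiniteMeasure (mO L) := by
  refine ⟨?_⟩
  unfold mO
  rw [Measure.restrict_apply_univ]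
  exact om_fin L

theorem pis_fin {ι : Type} [Fintype ι] [DecidableEq ι] (L : ℝ) :
    IsFiniteMeasure (PiS (mO L) (mO L) (∅ : Finset ι)) := by
  unfold PiS
  have h0 := mo_fin L
  have : ∀ i, IsFiniteMeasure (if i ∈ (∅ : Finset ι) then mO L else mO L) := by
    intro i
    rw [ite_self]
    exact h0
  infer_instance

theorem bm_sqrt {α : Type} [MeasurableSpace α] {F : α → ℝ} (h : BM F) :
    BM (fun X => Real.sqrt (F X)) := by
  obtain ⟨h1, C, h2⟩ := h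
  refine ⟨h1.sqrt, Real.sqrt C, fun X => ?_⟩
  rw [abs_of_nonneg (Real.sqrt_nonneg _)]
  exact Real.sqrt_le_sqrt ((le_abs_self _).trans (h2 X))

theorem bm_mul {α : Type} [MeasurableSpace α] {F G : α → ℝ} (hF : BM F) (hG : BM G) :
    BM (fun X => F X * G X) := by
  obtain ⟨h1, C1, b1⟩ := hF
  obtain ⟨h2, C2, b2⟩ := hG
  refine ⟨h1.mul h2, C1 * C2, fun X => ?_⟩
  rw [abs_mul]
  exact mul_le_mul (b1 X) (b2 X) (abs_nonneg _) ((abs_nonneg _).trans (b1 X))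

theorem bm_sum {α J : Type} [MeasurableSpace α] (s : Finset J) (F : J → α → ℝ)
    (h : ∀ i ∈ s, BM (F i)) : BM (fun X => ∑ i ∈ s, F i X) := by
  classical
  induction s using Finset.induction_on with
  | empty => exact ⟨measurable_const, 1, fun X => by simp⟩
  | insert i s hi ih =>
    have e : (fun X => ∑ k ∈ insert i s, F k X) = fun X => F i X + ∑ k ∈ s, F k X := by
      funext X
      rw [Finset.sum_insert hi]
    rw [e]
    obtain ⟨h1, C1, b1⟩ := h i (Finset.mem_insert_self i s)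
    obtain ⟨h2, C2, b2⟩ := ih fun k hk => h k (Finset.mem_insert_of_mem hk)
    exact ⟨h1.add h2, C1 + C2, fun X => (abs_add_le _ _).trans (add_le_add (b1 X) (b2 X))⟩

theorem bm_int {α : Type} [MeasurableSpace α] (μ : Measure α) [IsFiniteMeasure μ] {F : α → ℝ}
    (h : BM F) : Integrable F μ := by
  obtain ⟨h1, C, h2⟩ := h
  exact Integrable.of_bound h1.aestronglyMeasurable C (ae_of_all _ h2)

/-- scaled kernels -/
theorem ck_smul {m : ℕ} {l κ c : ℝ} {K : (Fin (m + 1) → E) → ℝ} (hc : 0 ≤ c) (h : Ck m l κ K) :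
    Ck m l (c * κ) (fun x => c * K x) := by
  refine ⟨?_, fun x => mul_nonneg hc (h.nn x), fun x hx => h.sp x (right_ne_zero_of_mul hx),
    fun x₀ => ?_⟩
  · exact bm_mul ⟨measurable_const, |c|, fun _ => le_rfl⟩ h.bm
  · rw [integral_const_mul]
    exact mul_le_mul_of_nonneg_left (h.mass x₀) hc

section

variable {ι : Type} [Fintype ι] [DecidableEq ι]

theorem io_add (p : Par) {F G : (ι → E) → ℝ} (hF : BM F) (hG : BM G) :
    IO p (fun X => F X + G X) = IO p F + IO p G := by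
  have := pis_fin (ι := ι) p.L
  exact integral_add (bm_int _ hF) (bm_int _ hG)

theorem io_mul (p : Par) (c : ℝ) (F : (ι → E) → ℝ) :
    IO p (fun X => c * F X) = c * IO p F := integral_const_mul _ _

theorem io_sum (p : Par) {J : Type} (s : Finset J) (F : J → (ι → E) → ℝ)
    (h : ∀ i ∈ s, BM (F i)) : IO p (fun X => ∑ i ∈ s, F i X) = ∑ i ∈ s, IO p (F i) := by
  have := pis_fin (ι := ι) p.L
  exact integral_finset_sum _ fun i hi => bm_int _ (h i hi)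

/-- the case of no further particles -/
theorem gs_zero (p : Par) (θ : E → E → ℝ) (u : (ι → E) → ℝ) (m : ℕ)
    (K : (Fin (m + 1) → E) → ℝ) (q : E → ℝ) :
    GS p θ u m 0 K q = ∑ e ∈ Ij (m + 1) ι, IO p (fun X => hh2 p θ u (im e) X * K (X ∘ e)) := by
  unfold GS
  refine Finset.sum_congr rfl fun e _ => ?_
  have h1 : (Ij 0 ι).filter (fun j => Disjoint (im j) (im e)) = {default} := by
    ext j
    simp only [Ij, im, Finset.mem_filter, Finset.mem_univ, true_and, Finset.mem_singleton]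
    refine ⟨fun _ => Subsingleton.elim _ _, fun _ => ⟨Function.injective_of_subsingleton _, ?_⟩⟩
    simp
  rw [h1, Finset.sum_singleton]
  simp

theorem vt_nonneg (p : Par) (a : E) (S : Finset ι) (X : ι → E) : 0 ≤ vt p a S X := by
  unfold vt
  split_ifs
  · exact zero_le_one
  · exact le_rfl

theorem ic_nonneg (Q : Set E) (x : E) : 0 ≤ ic Q x := by
  unfold ic
  exact Set.indicator_nonneg (fun _ _ => zero_le_one) x

theorem aa_nonneg (p : Par) (θ : E → E → ℝ) (u : (ι → E) → ℝ) (m : ℕ) (hl : 0 ≤ p.l) :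
    0 ≤ AA p θ u m := by
  unfold AA IA
  refine mul_nonneg (by positivity) (Finset.sum_nonneg fun a _ => Finset.sum_nonneg fun e _ => ?_)
  exact integral_nonneg fun X => sq_nonneg _

theorem gg_nonneg (p : Par) (θ : E → E → ℝ) (u : (ι → E) → ℝ) (m : ℕ) (hl : 0 ≤ p.l) :
    0 ≤ GG p θ u m := by
  unfold GG IA
  refine mul_nonneg (by positivity) (Finset.sum_nonneg fun a _ => Finset.sum_nonneg fun e _ => ?_)
  refine integral_nonneg fun X => mul_nonneg (vt_nonneg _ _ _ _) (Finset.sum_nonneg fun j _ => ?_)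
  exact mul_nonneg (ic_nonneg _ _) (Finset.sum_nonneg fun c _ => sq_nonneg _)

end

end RB2_

open RB2_

theorem rb2_proof (hBMC : Pool.Agent.TBL.Stmt_BMC) (hHSF : Stmt_HSF) (hTUP : Stmt_TUP)
    (hCM3 : Stmt_CM3) (hTRK : Stmt_TRK) (hGS0 : Stmt_GS0) (hGS1 : Stmt_GS1) (hGS2 : Stmt_GS2)
    (hQEH : Stmt_QEH) (hQES : Stmt_QES) : Stmt_RB2 := by
  classical
  intro C
  obtain ⟨c0, hc0, h0⟩ := hGS0 C 2
  obtain ⟨c1, hc1, h1⟩ := hGS1 C 2
  obtain ⟨c2, hc2, h2⟩ := hGS2 C 2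
  obtain ⟨c3, hc3, h3⟩ := hQEH 2 2 2 2
  obtain ⟨ch, hch, hh⟩ := hHSF C
  set D : ℝ := |C| + 1 with hD
  have hD0 : 0 < D := by positivity
  have hCD : C ≤ D := (le_abs_self C).trans (by linarith)
  refine ⟨2 * c0 * D + 4 * c1 * D ^ 3 + c3 * c2 * D ^ 4, by positivity, ?_⟩
  intro ι _ _ p β θ φ τ g y Y u hs hu hφ hT hK
  have hC : 0 ≤ C := le_trans (integral_nonneg fun z => sq_nonneg _) (hK.cT2.mass 0)
  have hR : 1 ≤ p.R := hs.hR
  have hl : 1 ≤ p.l := hs.hR.trans hs.hl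
  have hl0 : 0 ≤ p.l := by linarith
  set μ : ℝ := p.M / p.l ^ 3 with hμ
  have hμ0 : 0 ≤ μ := div_nonneg (by linarith [hs.hM]) (by positivity)
  have hAA : 0 ≤ AA p θ u 3 := aa_nonneg p θ u 3 hl0
  have hGG : 0 ≤ GG p θ u 3 := gg_nonneg p θ u 3 hl0
  have hub : BM u := by
    refine ⟨hu.1.continuous.measurable, ?_⟩
    obtain ⟨B, hB⟩ := hu.2.exists_bound_of_continuous hu.1.continuous
    exact ⟨B, hB⟩
  -- the functions
  set F : (ι → E) → (Fin 3 → ι) → ℝ := fun X e =>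
    Real.sqrt (hh2 p θ u (im e) X) * τ (rt (X ∘ e)) with hF
  have him : ∀ e ∈ Ij 3 ι, (im e).Nonempty := by
    intro e _
    exact ⟨e 0, Finset.mem_image_of_mem e (Finset.mem_univ 0)⟩
  have him' : ∀ e : Fin 3 → ι, (im e).Nonempty := fun e =>
    ⟨e 0, Finset.mem_image_of_mem e (Finset.mem_univ 0)⟩
  have hhB : ∀ e : Fin 3 → ι, BM (hh2 p θ u (im e)) := fun e =>
    (hh ι p β θ u (im e) hs hub (him' e)).2.1
  have hh0 : ∀ (e : Fin 3 → ι) X, 0 ≤ hh2 p θ u (im e) X := fun e X =>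
    ((hh ι p β θ u (im e) hs hub (him' e)).2.2.1 X).1
  have hτB : ∀ e : Fin 3 → ι, BM (fun X : ι → E => τ (rt (X ∘ e))) := by
    intro e
    refine hBMC.2.2.2.1 _ _ (fun x : Fin 3 → E => τ (rt x)) (fun X : ι → E => X ∘ e) hK.cT.bm ?_
    exact measurable_pi_lambda _ fun i => measurable_pi_apply (e i)
  have hFB : ∀ e : Fin 3 → ι, BM (fun X => F X e) := fun e => bm_mul (bm_sqrt (hhB e)) (hτB e)
  have hFs : ∀ X (e : Fin 3 → ι), F X (e ∘ Equiv.swap 1 2) = F X e := by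
    intro X e
    have e1 : im (e ∘ Equiv.swap (1 : Fin 3) 2) = im e :=
      (((hTUP ι).2.1 3 (Equiv.swap 1 2)).2 e).1
    have e2 : τ (rt (X ∘ (e ∘ Equiv.swap (1 : Fin 3) 2))) = τ (rt (X ∘ e)) :=
      (((hTRK.2 τ hT.smooth hT.sy1 hT.sy2 (X ∘ e)).1 (Equiv.swap 1 2)).1)
    show Real.sqrt (hh2 p θ u (im (e ∘ Equiv.swap (1 : Fin 3) 2)) X) *
      τ (rt (X ∘ (e ∘ Equiv.swap (1 : Fin 3) 2))) = _
    rw [e1, e2]
  -- the decomposition
  have hdec : ∀ X, ∑ i, sF p θ τ u i X ^ 2 = 2 * ∑ e ∈ Ij 3 ι, F X e * F X e +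
      4 * ∑ e ∈ Ij 4 ι, F X (s2 e) * F X (s3 e) +
      ∑ e ∈ Ij 3 ι, ∑ e' ∈ (Ij 3 ι).filter (fun e' => e' 0 = e 0 ∧ (im e' \ im e).card = 2 ∧
        (im e \ im e').card = 2), F X e * F X e' := by
    intro X
    have h := hCM3 ι (F X) (F X) (hFs X) (hFs X)
    rw [← h]
    refine Finset.sum_congr rfl fun i _ => ?_
    unfold sF
    rw [sq]
  have hAB : BM (fun X => ∑ e ∈ Ij 3 ι, F X e * F X e) :=
    bm_sum _ (fun e X => F X e * F X e) fun e _ => bm_mul (hFB e) (hFB e)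
  have hBB : BM (fun X => ∑ e ∈ Ij 4 ι, F X (s2 e) * F X (s3 e)) :=
    bm_sum _ (fun e X => F X (s2 e) * F X (s3 e)) fun e _ => bm_mul (hFB _) (hFB _)
  have hCB : BM (fun X => ∑ e ∈ Ij 3 ι, ∑ e' ∈ (Ij 3 ι).filter (fun e' => e' 0 = e 0 ∧
      (im e' \ im e).card = 2 ∧ (im e \ im e').card = 2), F X e * F X e') :=
    bm_sum _ (fun e X => ∑ e' ∈ (Ij 3 ι).filter (fun e' => e' 0 = e 0 ∧
      (im e' \ im e).card = 2 ∧ (im e \ im e').card = 2), F X e * F X e') fun e _ =>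
      bm_sum _ (fun e' X => F X e * F X e') fun e' _ => bm_mul (hFB _) (hFB _)
  have hcm : ∀ (c : ℝ) {G : (ι → E) → ℝ}, BM G → BM (fun X => c * G X) := fun c {G} hG =>
    bm_mul ⟨measurable_const, |c|, fun _ => le_rfl⟩ hG
  have hFF : FF p θ τ u = 2 * IO p (fun X => ∑ e ∈ Ij 3 ι, F X e * F X e) +
      4 * IO p (fun X => ∑ e ∈ Ij 4 ι, F X (s2 e) * F X (s3 e)) +
      IO p (fun X => ∑ e ∈ Ij 3 ι, ∑ e' ∈ (Ij 3 ι).filter (fun e' => e' 0 = e 0 ∧
        (im e' \ im e).card = 2 ∧ (im e \ im e').card = 2), F X e * F X e') := by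
    unfold FF
    rw [show (fun X => ∑ i, sF p θ τ u i X ^ 2) = _ from funext hdec]
    rw [io_add p (F := fun X => 2 * ∑ e ∈ Ij 3 ι, F X e * F X e +
      4 * ∑ e ∈ Ij 4 ι, F X (s2 e) * F X (s3 e)) ?_ hCB,
      io_add p (hcm 2 hAB) (hcm 4 hBB), io_mul, io_mul]
    have := hBMC.1 _ (fun X => 2 * ∑ e ∈ Ij 3 ι, F X e * F X e)
      (fun X => 4 * ∑ e ∈ Ij 4 ι, F X (s2 e) * F X (s3 e)) (hcm 2 hAB) (hcm 4 hBB)
    exact this.1
  -- first term
  have hA : IO p (fun X => ∑ e ∈ Ij 3 ι, F X e * F X e) ≤ c0 * C * AA p θ u 3 := by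
    have e1 : IO p (fun X => ∑ e ∈ Ij 3 ι, F X e * F X e) =
        GS p θ u 2 0 (fun x => τ (rt x) ^ 2) (pk 2 p.R) := by
      rw [gs_zero, io_sum p (Ij 3 ι) (fun e X => F X e * F X e) fun e _ =>
        bm_mul (hFB e) (hFB e)]
      refine Finset.sum_congr rfl fun e _ => ?_
      congr 1
      funext X
      show Real.sqrt (hh2 p θ u (im e) X) * τ (rt (X ∘ e)) *
        (Real.sqrt (hh2 p θ u (im e) X) * τ (rt (X ∘ e))) = _
      have := Real.mul_self_sqrt (hh0 e X)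
      calc _ = (Real.sqrt (hh2 p θ u (im e) X) * Real.sqrt (hh2 p θ u (im e) X)) *
            τ (rt (X ∘ e)) ^ 2 := by ring
        _ = _ := by rw [this]
    rw [e1]
    exact (h0 ι p β θ u C _ (pk 2 p.R) hs hu hK.cT2).2
  -- the scaled kernel
  set K : (Fin 3 → E) → ℝ := fun x => D⁻¹ * τ (rt x) with hKd
  have hDi : 0 ≤ D⁻¹ := by positivity
  have hKC : Ck 2 p.l (D⁻¹ * (C * p.R ^ 2)) K := ck_smul hDi hK.cT
  have hKle : ∀ x, K x ≤ ∏ s : Fin 2, pk 2 p.R (x 0 - x s.succ) := by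
    intro x
    have hP : 0 ≤ ∏ s : Fin 2, pk 2 p.R (x 0 - x s.succ) :=
      Finset.prod_nonneg fun s _ => hK.pT.nn _
    show D⁻¹ * τ (rt x) ≤ _
    rw [inv_mul_le_iff₀ hD0]
    exact (hK.dT x).trans (mul_le_mul_of_nonneg_right hCD hP)
  have hFK : ∀ X (e e' : Fin 3 → ι), F X e * F X e' = D ^ 2 *
      (Real.sqrt (hh2 p θ u (im e) X) * (Real.sqrt (hh2 p θ u (im e') X) *
        (K (X ∘ e) * K (X ∘ e')))) := by
    intro X e e'
    simp only [hF, hKd]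
    field_simp
  -- second term
  have hB : IO p (fun X => ∑ e ∈ Ij 4 ι, F X (s2 e) * F X (s3 e)) ≤
      D ^ 2 * (c1 * (D⁻¹ * (C * p.R)) * (C * p.R * μ) * AA p θ u 3) := by
    have e1 : (fun X : ι → E => ∑ e ∈ Ij 4 ι, F X (s2 e) * F X (s3 e)) = fun X => D ^ 2 *
        ∑ e ∈ Ij 4 ι, Real.sqrt (hh2 p θ u (im (s2 e)) X) *
          (Real.sqrt (hh2 p θ u (im (s3 e)) X) * (K (X ∘ s2 e) * K (X ∘ s3 e))) := by
      funext X
      rw [Finset.mul_sum]
      exact Finset.sum_congr rfl fun e _ => hFK X _ _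
    rw [e1, io_mul]
    refine mul_le_mul_of_nonneg_left ?_ (by positivity)
    refine (hQES C ι p β θ u _ _ _ _ K (pk 2 p.R) hs hub hKC hK.pT fun x => ?_).trans ?_
    · have := hKle x
      rw [Fin.prod_univ_two] at this
      exact this
    · have hck : Ck 2 p.l (D⁻¹ * (C * p.R)) (fun x : Fin 3 → E => K x *
          (pk 2 p.R (x 0 - x 1) + pk 2 p.R (x 0 - x 2))) := by
        have := ck_smul hDi hK.cTq
        have e2 : (fun x : Fin 3 → E => K x * (pk 2 p.R (x 0 - x 1) + pk 2 p.R (x 0 - x 2))) =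
            fun x => D⁻¹ * (τ (rt x) * (pk 2 p.R (x 0 - x 1) + pk 2 p.R (x 0 - x 2))) := by
          funext x
          simp only [hKd]
          ring
        rw [e2]
        exact this
      exact (h1 ι p β θ u _ _ _ _ _ (pk 2 p.R) hs hu hck hK.pT).2
  -- third term
  have hCC : IO p (fun X => ∑ e ∈ Ij 3 ι, ∑ e' ∈ (Ij 3 ι).filter (fun e' => e' 0 = e 0 ∧
      (im e' \ im e).card = 2 ∧ (im e \ im e').card = 2), F X e * F X e') ≤
      D ^ 2 * (c3 * (c2 * (D⁻¹ * (C * p.R ^ 2)) * ((C * p.R * μ) ^ 2 * AA p θ u 3 +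
        C * p.R * C * μ * GG p θ u 3))) := by
    have e1 : (fun X : ι → E => ∑ e ∈ Ij 3 ι, ∑ e' ∈ (Ij 3 ι).filter (fun e' => e' 0 = e 0 ∧
        (im e' \ im e).card = 2 ∧ (im e \ im e').card = 2), F X e * F X e') = fun X => D ^ 2 *
        ∑ e ∈ Ij 3 ι, ∑ e' ∈ (Ij 3 ι).filter (fun e' => e' 0 = e 0 ∧
        (im e' \ im e).card = 2 ∧ (im e \ im e').card = 2),
        Real.sqrt (hh2 p θ u (im e) X) * (Real.sqrt (hh2 p θ u (im e') X) *
          (K (X ∘ e) * K (X ∘ e'))) := by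
      funext X
      rw [Finset.mul_sum]
      refine Finset.sum_congr rfl fun e _ => ?_
      rw [Finset.mul_sum]
      exact Finset.sum_congr rfl fun e' _ => hFK X _ _
    rw [e1, io_mul]
    refine mul_le_mul_of_nonneg_left ?_ (by positivity)
    have h4 := h3 C ι p β θ u _ _ _ _ _ _ _ _ K K (pk 2 p.R) (pk 2 p.R) hs hub hKC hKC hK.pT hK.pT
      hKle hKle
    obtain ⟨g0, g1⟩ := h2 ι p β θ u _ _ _ _ K (pk 2 p.R) hs hu hKC hK.pT
    refine h4.trans ?_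
    rw [mul_assoc c3, Real.mul_self_sqrt g0]
    exact mul_le_mul_of_nonneg_left g1 hc3.le
  rw [hFF]
  have k1 : 2 * (c0 * C * AA p θ u 3) ≤ 2 * c0 * D * AA p θ u 3 := by
    have : c0 * C * AA p θ u 3 ≤ c0 * D * AA p θ u 3 :=
      mul_le_mul_of_nonneg_right (mul_le_mul_of_nonneg_left hCD hc0.le) hAA
    linarith
  have k2 : 4 * (D ^ 2 * (c1 * (D⁻¹ * (C * p.R)) * (C * p.R * μ) * AA p θ u 3)) ≤
      4 * c1 * D ^ 3 * (p.R ^ 2 * μ * AA p θ u 3) := by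
    have e1 : 4 * (D ^ 2 * (c1 * (D⁻¹ * (C * p.R)) * (C * p.R * μ) * AA p θ u 3)) =
        (4 * c1 * D * (p.R ^ 2 * μ * AA p θ u 3)) * C ^ 2 := by
      field_simp
    have e2 : 4 * c1 * D ^ 3 * (p.R ^ 2 * μ * AA p θ u 3) =
        (4 * c1 * D * (p.R ^ 2 * μ * AA p θ u 3)) * D ^ 2 := by ring
    rw [e1, e2]
    exact mul_le_mul_of_nonneg_left (pow_le_pow_left₀ hC hCD 2) (by positivity)
  have k3 : D ^ 2 * (c3 * (c2 * (D⁻¹ * (C * p.R ^ 2)) * ((C * p.R * μ) ^ 2 * AA p θ u 3 +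
        C * p.R * C * μ * GG p θ u 3))) ≤
      c3 * c2 * D ^ 4 * (p.R ^ 2 * ((p.R * μ) ^ 2 * AA p θ u 3 + p.R * μ * GG p θ u 3)) := by
    have e1 : D ^ 2 * (c3 * (c2 * (D⁻¹ * (C * p.R ^ 2)) * ((C * p.R * μ) ^ 2 * AA p θ u 3 +
        C * p.R * C * μ * GG p θ u 3))) =
        (c3 * c2 * D * (p.R ^ 2 * ((p.R * μ) ^ 2 * AA p θ u 3 + p.R * μ * GG p θ u 3))) *
          C ^ 3 := by
      field_simp
    have e2 : c3 * c2 * D ^ 4 * (p.R ^ 2 * ((p.R * μ) ^ 2 * AA p θ u 3 + p.R * μ * GG p θ u 3)) =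
        (c3 * c2 * D * (p.R ^ 2 * ((p.R * μ) ^ 2 * AA p θ u 3 + p.R * μ * GG p θ u 3))) *
          D ^ 3 := by ring
    rw [e1, e2]
    exact mul_le_mul_of_nonneg_left (pow_le_pow_left₀ hC hCD 3) (by positivity)
  have n1 : 0 ≤ AA p θ u 3 := hAA
  have n2 : 0 ≤ p.R ^ 2 * μ * AA p θ u 3 := by positivity
  have n3 : 0 ≤ p.R ^ 2 * ((p.R * μ) ^ 2 * AA p θ u 3 + p.R * μ * GG p θ u 3) := by positivity
  set T1 : ℝ := AA p θ u 3
  set T2' : ℝ := p.R ^ 2 * μ * T1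
  set T3' : ℝ := p.R ^ 2 * ((p.R * μ) ^ 2 * T1 + p.R * μ * GG p θ u 3)
  have m1 : 0 ≤ 2 * c0 * D := by positivity
  have m2 : 0 ≤ 4 * c1 * D ^ 3 := by positivity
  have m3 : 0 ≤ c3 * c2 * D ^ 4 := by positivity
  nlinarith [mul_nonneg m1 n2, mul_nonneg m1 n3, mul_nonneg m2 n1, mul_nonneg m2 n3,
    mul_nonneg m3 n1, mul_nonneg m3 n2]

end Pool.Agent.TBS
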