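import Pool.Agent.TBS.QK3

/-!
# Squad TBS: module RB3 (bound of the square of `bF`)
-/

set_option autoImplicit false

open MeasureTheory Filter Topology
open scoped ContDiff

namespace Pool.Agent.TBS

open Pool.Agent.TBG Pool.Agent.TBL Pool.Agent.TBF

namespace RB3_

/-- no further particles -/
lemma gs0_eq {ι : Type} [Fintype ι] [DecidableEq ι] (p : Par) (θ : E → E → ℝ)
    (u : (ι → E) → ℝ) (m : ℕ) (K : (Fin (m + 1) → E) → ℝ) (q : E → ℝ) :
    GS p θ u m 0 K q = ∑ e ∈ Ij (m + 1) ι, IO p (fun X => hh2 p θ u (im e) X * K (X ∘ e)) := by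
  unfold GS
  refine Finset.sum_congr rfl fun e _ => ?_
  have h1 : (Ij 0 ι).filter (fun j => Disjoint (im j) (im e)) = {default} := by
    ext j
    simp only [Finset.mem_filter, Finset.mem_singleton]
    constructor
    · intro _
      exact Subsingleton.elim _ _
    · intro _
      refine ⟨?_, ?_⟩
      · unfold Ij
        simp only [Finset.mem_filter, Finset.mem_univ, true_and]
        exact Function.injective_of_subsingleton j
      · have : im j = ∅ := by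
          unfold im
          simp
        rw [this]
        exact Finset.disjoint_empty_left _
  rw [h1, Finset.sum_singleton]
  congr 1
  funext X
  simp

end RB3_

open QK3_ RB3_ in
theorem rb3_proof (hBMC : Pool.Agent.TBL.Stmt_BMC) (hHSF : Stmt_HSF) (hTUP : Stmt_TUP)
    (hCM5 : Stmt_CM5) (hTRF : Stmt_TRF) (hKBM : Stmt_KBM) (hGS0 : Stmt_GS0) (hGS1 : Stmt_GS1)
    (hGS2 : Stmt_GS2) (hGS3 : Stmt_GS3) (hQEG : Stmt_QEG) : Stmt_RB3 := by
  intro C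
  obtain ⟨c3, hc3, hq3⟩ := qk3_proof hBMC hHSF hTUP hCM5 hTRF hKBM hGS1 hGS2 hGS3 hQEG C
  obtain ⟨c0, hc0, hg0⟩ := hGS0 C 3
  obtain ⟨_, _, hhs⟩ := hHSF C
  have hCa : 0 ≤ |C| := abs_nonneg C
  refine ⟨c3 + c0 * |C|, by positivity, ?_⟩
  intro ι _ _ p β θ φ τ y Y g₄ u hY hu hφ hy hdu hkf
  have hl1 : 1 ≤ p.l := hY.hR.trans hY.hl
  have hl0 : 0 < p.l := by linarith
  have hM0 : 0 ≤ p.M := le_trans (by norm_num) hY.hM
  have hub : BM u := by
    obtain ⟨h1, h2⟩ := hu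
    obtain ⟨M, hM⟩ := h1.continuous.bounded_above_of_compact_support h2
    exact ⟨h1.continuous.measurable, M, fun X => by simpa using hM X⟩
  have him : ∀ e : Fin 4 → ι, (im e).Nonempty := fun e =>
    ⟨e 0, Finset.mem_image_of_mem _ (Finset.mem_univ _)⟩
  have hhbm : ∀ e : Fin 4 → ι, BM (hS p β θ u (im e)) :=
    fun e => (hhs ι p β θ u (im e) hY hub (him e)).1
  have hhbm2 : ∀ e : Fin 4 → ι, BM (hh2 p θ u (im e)) :=
    fun e => (hhs ι p β θ u (im e) hY hub (him e)).2.1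
  have hhle : ∀ (e : Fin 4 → ι) X, 0 ≤ hh2 p θ u (im e) X ∧
      hS p β θ u (im e) X ^ 2 ≤ hh2 p θ u (im e) X :=
    fun e => (hhs ι p β θ u (im e) hY hub (him e)).2.2.1
  have hYbm : ∀ (e : Fin 4 → ι) (c : Fin 3), BM (fun X : ι → E => Y 0 c (rl (X ∘ e))) :=
    fun e c => hKBM.2.2.2 ι (Y 0 c) e ((hKBM.2.1 C p.l φ y Y g₄ hφ hy hdu).2.2.2.1 0 c)
  have hkBbm : ∀ e : Fin 4 → ι, BM (fun X : ι → E => kB Y (X ∘ e)) :=
    fun e => bm_sum _ _ fun c _ => bm_abs (hYbm e c)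
  -- the diagonal
  have hdiag : IO p (fun X => 1 / 6 * ∑ e ∈ Ij 4 ι, hS p β θ u (im e) X ^ 2 *
      ∑ c, Y 0 c (rl (X ∘ e)) ^ 2) ≤ c0 * |C| * AA p θ u 4 := by
    have h0 := hg0 ι p β θ u C (fun x => kB Y x ^ 2) (fun _ => 0) hY hu hkf.cB2
    rw [gs0_eq] at h0
    have h1 : IO p (fun X => 1 / 6 * ∑ e ∈ Ij 4 ι, hS p β θ u (im e) X ^ 2 *
        ∑ c, Y 0 c (rl (X ∘ e)) ^ 2) ≤
        IO p (fun X => ∑ e ∈ Ij 4 ι, hh2 p θ u (im e) X * kB Y (X ∘ e) ^ 2) := by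
      refine IOmono (bm_cm _ (bm_sum _ _ fun e _ => bm_mul (bm_sq (hhbm e))
        (bm_sum _ _ fun c _ => bm_sq (hYbm e c)))) (bm_sum _ _ fun e _ => bm_mul (hhbm2 e)
        (bm_sq (hkBbm e))) fun X => ?_
      have h2 : ∀ e ∈ Ij 4 ι, hS p β θ u (im e) X ^ 2 * ∑ c, Y 0 c (rl (X ∘ e)) ^ 2 ≤
          hh2 p θ u (im e) X * kB Y (X ∘ e) ^ 2 := by
        intro e _
        refine mul_le_mul (hhle e X).2 ?_ (Finset.sum_nonneg fun c _ => sq_nonneg _) (hhle e X).1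
        unfold kB
        have h3 : ∑ c, Y 0 c (rl (X ∘ e)) ^ 2 = ∑ c, |Y 0 c (rl (X ∘ e))| ^ 2 :=
          Finset.sum_congr rfl fun c _ => (sq_abs _).symm
        rw [h3]
        exact Finset.sum_sq_le_sq_sum_of_nonneg fun c _ => abs_nonneg _
      have h4 : 0 ≤ ∑ e ∈ Ij 4 ι, hS p β θ u (im e) X ^ 2 * ∑ c, Y 0 c (rl (X ∘ e)) ^ 2 :=
        Finset.sum_nonneg fun e _ => mul_nonneg (sq_nonneg _)
          (Finset.sum_nonneg fun c _ => sq_nonneg _)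
      have h5 := Finset.sum_le_sum h2
      linarith
    rw [IOsum _ _ fun e _ => bm_mul (hhbm2 e) (bm_sq (hkBbm e))] at h1
    have hAA : 0 ≤ AA p θ u 4 := AA0 hl0.le 4
    have h6 : c0 * C * AA p θ u 4 ≤ c0 * |C| * AA p θ u 4 :=
      mul_le_mul_of_nonneg_right (mul_le_mul_of_nonneg_left (le_abs_self C) hc0.le) hAA
    exact h1.trans (h0.2.trans h6)
  have hd := (abs_le.1 (hq3 ι p β θ φ τ y Y g₄ u hY hu hφ hy hdu hkf)).2
  have hAA : 0 ≤ AA p θ u 4 := AA0 hl0.le 4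
  have hGG : 0 ≤ GG p θ u 4 := GG0 hl0.le 4
  have hE : 0 ≤ E44 p θ u := by
    rw [e44]
    positivity
  unfold B2
  have t1 : 0 ≤ c3 * AA p θ u 4 := by positivity
  have t2 : 0 ≤ c0 * |C| * E44 p θ u := by positivity
  have t3 : (c3 + c0 * |C|) * (AA p θ u 4 + E44 p θ u) = c3 * AA p θ u 4 + c3 * E44 p θ u +
      c0 * |C| * AA p θ u 4 + c0 * |C| * E44 p θ u := by ring
  rw [t3]
  linarith only [hd, hdiag, t1, t2]

end Pool.Agent.TBS
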