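import Pool.Agent.TBS.StmtsB

set_option autoImplicit false

open MeasureTheory Filter Topology
open scoped ContDiff

namespace Pool.Agent.TBS

open Pool.Agent.TBG Pool.Agent.TBL Pool.Agent.TBF

namespace REP_

set_option linter.unusedSectionVars false

variable {ι : Type} [Fintype ι] [DecidableEq ι]

lemma ic_nn (Q : Set E) (x : E) : 0 ≤ ic Q x := by
  by_cases h : x ∈ Q <;> simp [ic, h]

lemma ic_le (Q : Set E) (x : E) : ic Q x ≤ 1 := by
  by_cases h : x ∈ Q <;> simp [ic, h]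

lemma ic_mem {Q : Set E} {x : E} (h : x ∈ Q) : ic Q x = 1 := by simp [ic, h]

lemma ic_not {Q : Set E} {x : E} (h : x ∉ Q) : ic Q x = 0 := by simp [ic, h]

lemma ic_mono {Q Q' : Set E} (h : Q ⊆ Q') (x : E) : ic Q x ≤ ic Q' x := by
  by_cases hx : x ∈ Q
  · rw [ic_mem hx, ic_mem (h hx)]
  · rw [ic_not hx]; exact ic_nn _ _

lemma bm_ic {Q : Set E} (hQ : MeasurableSet Q) (j : ι) : BM (fun X : ι → E => ic Q (X j)) := by
  refine ⟨?_, 1, ?_⟩
  · exact (measurable_const.indicator hQ).comp (measurable_pi_apply j)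
  · intro X
    rw [abs_of_nonneg (ic_nn _ _)]
    exact ic_le _ _

lemma coord (v : E) (c : Fin 3) : |v c| ≤ ‖v‖ := by
  have := PiLp.norm_apply_le v c
  rwa [Real.norm_eq_abs] at this

lemma qb_mono (a : E) {r r' : ℝ} (h : r ≤ r') : Qb a r ⊆ Qb a r' := fun _ hx c => le_trans (hx c) h

lemma meas_update (j : ι) : Measurable (fun q : E × (ι → E) => Function.update q.2 j q.1) := by
  refine measurable_pi_iff.2 (fun i => ?_)
  by_cases h : i = j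
  · subst h
    simpa using measurable_fst
  · have h1 : (fun q : E × (ι → E) => Function.update q.2 j q.1 i) = fun q : E × (ι → E) => q.2 i := by
      funext q
      exact Function.update_of_ne h _ _
    rw [h1]
    exact (measurable_pi_apply i).comp measurable_snd

lemma meas_rl {m : Type} (e : Fin 4 → m) : Measurable (fun X : m → E => rl (X ∘ e)) := by
  unfold rl
  simp only [Function.comp]
  fun_prop

lemma pis_eq (m m' n : Measure E) : PiS (ι := ι) m n ∅ = PiS m' n ∅ := by simp [PiS]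

lemma ev_sum (v : E) : v = ∑ c, v c • ev c := by
  ext d
  simp [ev, Pi.single_apply]

/-- Lipschitz bound -/
lemma lip {f : E → ℝ} (hf : ContDiff ℝ ∞ f) {B : ℝ} (hB : ∀ c x, |pd c f x| ≤ B) (x y : E) :
    |f x - f y| ≤ 3 * B * ‖x - y‖ := by
  have hB0 : 0 ≤ B := le_trans (abs_nonneg _) (hB 0 0)
  have hd : Differentiable ℝ f := hf.differentiable (by simp)
  have h := Convex.norm_image_sub_le_of_norm_fderiv_le (𝕜 := ℝ) (f := f) (C := 3 * B) (s := Set.univ) (x := y)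
    (y := x) (fun z _ => hd z) ?_ convex_univ (Set.mem_univ _) (Set.mem_univ _)
  · rwa [Real.norm_eq_abs] at h
  · intro z _
    refine ContinuousLinearMap.opNorm_le_bound _ (by positivity) (fun v => ?_)
    have h1 : fderiv ℝ f z v = ∑ c, v c * pd c f z := by
      conv_lhs => rw [ev_sum v]
      rw [map_sum]
      refine Finset.sum_congr rfl (fun c _ => ?_)
      rw [map_smul, smul_eq_mul]
      rfl
    rw [h1, Real.norm_eq_abs]
    calc |∑ c, v c * pd c f z| ≤ ∑ c, |v c * pd c f z| := Finset.abs_sum_le_sum_abs _ _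
      _ ≤ ∑ _c : Fin 3, ‖v‖ * B := by
          refine Finset.sum_le_sum (fun c _ => ?_)
          rw [abs_mul]
          exact mul_le_mul (coord v c) (hB c z) (abs_nonneg _) (norm_nonneg _)
      _ = 3 * B * ‖v‖ := by simp; ring

lemma cen_im {m : ℕ} (e : Fin m → ι) (he : e ∈ Ij m ι) (hc : (im e).card = m) (X : ι → E) :
    cen (im e) X = ((m : ℝ))⁻¹ • ∑ s, X (e s) := by
  have hinj : Function.Injective e := by
    have := (Finset.mem_filter.1 he).2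
    exact this
  unfold cen
  rw [hc]
  congr 1
  unfold im
  rw [Finset.sum_image]
  intro x _ y _ h
  exact hinj h

/-- the first part -/
lemma first (hBMC : Pool.Agent.TBL.Stmt_BMC) (hMSY : Stmt_MSY) (hPSF : Stmt_PSF) (hAVP : Stmt_AVP)
    (hAVC : Stmt_AVC) (hVTP : Stmt_VTP) (hCLI : Stmt_CLI) (hCLY : Stmt_CLY) (C Cp : ℝ) (p : Par) (β θ : E → E → ℝ)
    (hS : Sys C p β θ)
    (hPCN : ∀ a ∈ p.Gr, ∀ (S : Finset ι) (j : ι) (F w : (ι → E) → ℝ) (r : ℝ), j ∉ S →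
      BM F → (∀ X, ContDiff ℝ 1 (fun x => F (Function.update X j x))) →
      (∀ c, BM (fun X => pd c (fun x => F (Function.update X j x)) (X j))) → BM w → (∀ X, 0 ≤ w X) →
      (∀ (X : ι → E) (y : E), X j ∈ Qc p a → y ∈ Qc p a → w (Function.update X j y) = w X) →
      2 * p.l ≤ r → r ≤ 10 * p.l →
      IA p θ a S (fun X => w X * (ic (Qb a r) (X j) * (F X - Av (tm (θ a)) {j} F X) ^ 2)) ≤
        Cp * p.l ^ 2 * IA p θ a S (fun X => w X * (ic (Qb a r) (X j) *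
          ∑ c, pd c (fun x => F (Function.update X j x)) (X j) ^ 2)))
    (hCp : 0 < Cp) (u : (ι → E) → ℝ) (hu : CU u) (K : W4 → ℝ) (κ₀ : ℝ) (hK : BM K) (hK0 : ∀ q, 0 ≤ K q)
    (hKs : ∀ q, K q ≠ 0 → ‖q‖ ≤ p.l) (hKm : ∫ q, K q ≤ κ₀) (a : E) (ha : a ∈ p.Gr) (e : Fin 4 → ι)
    (he' : e ∘ (Equiv.swap 0 3) ∈ Ij 4 ι) (hime' : im (e ∘ (Equiv.swap 0 3)) = im e)
    (hj : e 3 ∉ im (s2 e)) (him : im e = insert (e 3) (im (s2 e))) :
    IO p (fun X => ic (Qb a (3 * p.l)) (X (e 3)) * (K (rl (X ∘ e)) * (vt p a (im e) X *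
      (Av (tm (θ a)) (im (s2 e)) u X - Av (tm (θ a)) (im e) u X) ^ 2))) ≤
    κ₀ * (Cp * p.l ^ 2 * IA p θ a (im (s2 e)) (fun X => vt p a (im (s2 e)) X * (ic (Qb a (6 * p.l)) (X (e 3)) *
      ∑ c, di (e 3) c (Av (tm (θ a)) (im (s2 e)) u) X ^ 2))) := by
  obtain ⟨hl1, hfin, hOm, hQc, hQb, hQQ, hprob, -, -, hres, -, -⟩ := hMSY C p β θ hS
  have hl0 : 0 < p.l := by linarith
  have := hfin
  have := hprob a
  have hκ0 : 0 ≤ κ₀ := le_trans (integral_nonneg hK0) hKm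
  obtain ⟨hBu, hBd, hC1, hdAv, hBdAv, -, hdp⟩ := hAVC ι (tm (θ a)) (im (s2 e)) u hu
  have hAv3 : BM (Av (tm (θ a)) (im (s2 e)) u) := (hAVP ι (tm (θ a)) (im (s2 e)) ∅ u u hBu hBu).1
  obtain ⟨hAv4, hI4, -⟩ := hAVP ι (tm (θ a)) (im e) ∅ u u hBu hBu
  have hI3 : IndS (im (s2 e)) (Av (tm (θ a)) (im (s2 e)) u) := (hAVP ι (tm (θ a)) (im (s2 e)) ∅ u u hBu hBu).2.1
  obtain ⟨hBv4, hIv4, hv4, -, -⟩ := hVTP ι C p β θ hS a (im e)
  obtain ⟨hBv3, hIv3, hv3, hvT, hvU⟩ := hVTP ι C p β θ hS a (im (s2 e))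
  obtain ⟨j, hjdef⟩ : ∃ j, j = e 3 := ⟨_, rfl⟩
  rw [← hjdef] at hj him ⊢
  obtain ⟨G, hG⟩ : ∃ G, G = Av (tm (θ a)) (im (s2 e)) u := ⟨_, rfl⟩
  obtain ⟨H, hH⟩ : ∃ H, H = Av (tm (θ a)) (im e) u := ⟨_, rfl⟩
  have hGH : Av (tm (θ a)) {j} G = H := by
    have h1 := (hAVP ι (tm (θ a)) {j} (im (s2 e)) u u hBu hBu).2.2.2.2.2.2.2.2.2.2.2.1
    rw [hG, h1, hH, him, ← Finset.insert_eq]
  rw [← hG] at hAv3 hC1 hdAv hBdAv hdp hI3 ⊢
  rw [← hH] at hAv4 hI4 ⊢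
  -- the function of the cluster
  obtain ⟨F, hF⟩ : ∃ F : E → (ι → E) → ℝ, F = fun x X => vt p a (im e) X *
    (G (Function.update X j x) - H X) ^ 2 := ⟨_, rfl⟩
  have hFB : BM (fun q : E × (ι → E) => F q.1 q.2) := by
    rw [hF]
    have b1 : BM (fun q : E × (ι → E) => vt p a (im e) q.2) := hBMC.2.2.2.1 _ _ _ _ hBv4 measurable_snd
    have b2 : BM (fun q : E × (ι → E) => G (Function.update q.2 j q.1)) :=
      hBMC.2.2.2.1 _ _ _ _ hAv3 (meas_update j)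
    have b3 : BM (fun q : E × (ι → E) => H q.2) := hBMC.2.2.2.1 _ _ _ _ hAv4 measurable_snd
    have b4 := (hBMC.1 _ _ _ b2 b3).2.1
    have b5 := (hBMC.1 _ _ _ b4 b4).2.2.2.1
    exact (hBMC.1 _ _ _ b1 b5).2.2.1
  have hF0 : ∀ x X, 0 ≤ F x X := by
    intro x X
    rw [hF]
    refine mul_nonneg ?_ (sq_nonneg _)
    rcases (hv4 X).1 with h | h <;> rw [h]
    exact zero_le_one
  have hFI : ∀ x, IndS (im e) (F x) := by
    intro x X Y hXY
    rw [hF]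
    show vt p a (im e) X * (G (Function.update X j x) - H X) ^ 2 =
      vt p a (im e) Y * (G (Function.update Y j x) - H Y) ^ 2
    rw [hIv4 X Y hXY, hI4 X Y hXY]
    have h1 : G (Function.update X j x) = G (Function.update Y j x) := by
      apply hI3
      intro i hi
      by_cases h : i = j
      · subst h; simp
      · rw [Function.update_of_ne h, Function.update_of_ne h]
        apply hXY
        rw [him]
        simp [h, hi]
    rw [h1]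
  -- the kernel
  have hσ : ∀ X : ι → E, (X ∘ (e ∘ (Equiv.swap 0 3))) ∘ (Equiv.swap 0 3 : Equiv.Perm (Fin 4)) = X ∘ e := by
    intro X
    funext s
    simp
  have hKB : BM (fun x : Fin 4 → E => K (rl (x ∘ (Equiv.swap 0 3 : Equiv.Perm (Fin 4))))) :=
    hBMC.2.2.2.1 _ _ _ _ hK (meas_rl _)
  have hCk : Ck 3 (2 * p.l) κ₀ (fun x : Fin 4 → E => K (rl (x ∘ (Equiv.swap 0 3 : Equiv.Perm (Fin 4))))) := by
    refine ⟨hKB, fun x => hK0 _, ?_, ?_⟩
    · intro x hx s c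
      have h1 := hKs _ hx
      have e1 : rl (x ∘ (Equiv.swap 0 3 : Equiv.Perm (Fin 4))) = (x 3 - x 1, x 3 - x 2, x 3 - x 0) := by
        have a1 : (Equiv.swap 0 3 : Equiv.Perm (Fin 4)) 1 = 1 := by decide
        have a2 : (Equiv.swap 0 3 : Equiv.Perm (Fin 4)) 2 = 2 := by decide
        simp only [rl, Function.comp, Equiv.swap_apply_left, Equiv.swap_apply_right, a1, a2]
      rw [e1] at h1
      have n1 : ‖x 3 - x 1‖ ≤ p.l := le_trans (norm_fst_le (x 3 - x 1, x 3 - x 2, x 3 - x 0)) h1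
      have n23 := le_trans (norm_snd_le (x 3 - x 1, x 3 - x 2, x 3 - x 0)) h1
      have n2 : ‖x 3 - x 2‖ ≤ p.l := le_trans (norm_fst_le (x 3 - x 2, x 3 - x 0)) n23
      have n3 : ‖x 3 - x 0‖ ≤ p.l := le_trans (norm_snd_le (x 3 - x 2, x 3 - x 0)) n23
      have c1 := abs_le.1 (le_trans (coord _ c) n1)
      have c2 := abs_le.1 (le_trans (coord _ c) n2)
      have c3 := abs_le.1 (le_trans (coord _ c) n3)
      rw [PiLp.sub_apply] at c1 c2 c3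
      rw [abs_le]
      fin_cases s
      · constructor <;> simp <;> linarith
      · show -(2 * p.l) ≤ x 1 c - x 0 c ∧ x 1 c - x 0 c ≤ 2 * p.l
        constructor <;> linarith [c1.1, c1.2, c3.1, c3.2]
      · show -(2 * p.l) ≤ x 2 c - x 0 c ∧ x 2 c - x 0 c ≤ 2 * p.l
        constructor <;> linarith [c2.1, c2.2, c3.1, c3.2]
      · show -(2 * p.l) ≤ x 3 c - x 0 c ∧ x 3 c - x 0 c ≤ 2 * p.l
        constructor <;> linarith [c3.1, c3.2]
    · intro x₀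
      rw [hCLI.2 K x₀ (Equiv.swap 0 3)]
      exact hKm
  have h1 := hCLY C 3 ι p β θ κ₀ (3 * p.l) (2 * p.l) _ F hS hCk (by linarith) hFB hF0 a ha
    (e ∘ (Equiv.swap 0 3)) he' (fun x => by rw [hime']; exact hFI x)
  rw [hime'] at h1
  have e0 : (e ∘ (Equiv.swap 0 3 : Equiv.Perm (Fin 4))) 0 = j := by simp [hjdef]
  simp only [e0, hσ] at h1
  have h2 : IO p (fun X => ic (Qb a (3 * p.l)) (X j) * (K (rl (X ∘ e)) * (vt p a (im e) X *
      (G X - H X) ^ 2))) = IO p (fun X => ic (Qb a (3 * p.l)) (X j) * (K (rl (X ∘ e)) * F (X j) X)) := by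
    congr 1
    funext X
    rw [hF]
    simp only [Function.update_eq_self]
  rw [h2]
  refine le_trans h1 (mul_le_mul_of_nonneg_left ?_ hκ0)
  -- Fubini
  have hQfin : IsFiniteMeasure (volume.restrict (Qb a (3 * p.l))) := by
    refine ⟨?_⟩
    rw [Measure.restrict_apply_univ, (hQb a (3 * p.l)).2 (by positivity)]
    exact ENNReal.ofReal_lt_top
  have hfP : IsFiniteMeasure (PiS (tm (θ a)) (mO p.L) (im e)) := (hPSF ι (tm (θ a)) (mO p.L) (im e)).1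
  have hfP3 : IsFiniteMeasure (PiS (tm (θ a)) (mO p.L) (im (s2 e))) := (hPSF ι (tm (θ a)) (mO p.L) (im (s2 e))).1
  have h3 : ∫ x in Qb a (3 * p.l), IA p θ a (im e) (F x) =
      IA p θ a (im e) (fun X => ∫ x in Qb a (3 * p.l), F x X) := by
    unfold IA
    exact integral_integral_swap ((hBMC.1 _ _ _ hFB hFB).2.2.2.2.2.2 _)
  rw [h3]
  -- the function of PCN
  have hw : BM (vt p a (im (s2 e))) := hBv3
  have hw0 : ∀ X, 0 ≤ vt p a (im (s2 e)) X := by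
    intro X
    rcases (hv3 X).1 with h | h <;> rw [h]
    exact zero_le_one
  have hic3 : BM (fun X : ι → E => ic (Qb a (3 * p.l)) (X j)) := bm_ic (hQb a (3 * p.l)).1 j
  have hic6 : BM (fun X : ι → E => ic (Qb a (6 * p.l)) (X j)) := bm_ic (hQb a (6 * p.l)).1 j
  have hΦ : BM (fun X => vt p a (im (s2 e)) X * (ic (Qb a (3 * p.l)) (X j) * (G X - Av (tm (θ a)) {j} G X) ^ 2)) := by
    rw [hGH]
    have b4 := (hBMC.1 _ _ _ hAv3 hAv4).2.1
    have b5 := (hBMC.1 _ _ _ b4 b4).2.2.2.1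
    exact (hBMC.1 _ _ _ hw (hBMC.1 _ _ _ hic3 b5).2.2.1).2.2.1
  have h4 : IA p θ a (im e) (fun X => ∫ x in Qb a (3 * p.l), F x X) =
      IA p θ a (im (s2 e)) (fun X => vt p a (im (s2 e)) X * (ic (Qb a (3 * p.l)) (X j) *
        (G X - Av (tm (θ a)) {j} G X) ^ 2)) := by
    have h5 := ((hPSF ι (tm (θ a)) (mO p.L) (im (s2 e))).2 _ hΦ).1 j hj
    unfold IA
    rw [h5, ← him]
    congr 1
    funext X
    beta_reduce
    rw [← hres a ha (3 * p.l) (fun x => F x X) (by linarith)]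
    congr 1
    funext x
    rw [Function.update_self, hGH]
    by_cases hx : x ∈ Qb a (3 * p.l)
    · have hxc : x ∈ Qc p a := hQQ a (3 * p.l) (by linarith) hx
      have v1 : vt p a (im (s2 e)) (Function.update X j x) = vt p a (im e) X := by
        rw [hvT {j} (Function.update X j x) (by
          intro i hi _
          rw [Finset.mem_singleton] at hi
          rw [hi, Function.update_self]
          exact hxc)]
        have hu1 : im (s2 e) ∪ {j} = im e := by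
          rw [him, Finset.union_comm, ← Finset.insert_eq]
        rw [hu1]
        apply hIv4
        intro i hi
        have : i ≠ j := by
          rintro rfl
          exact hi (by rw [him]; exact Finset.mem_insert_self _ _)
        exact Function.update_of_ne this _ _
      have v2 : H (Function.update X j x) = H X := by
        apply hI4
        intro i hi
        have : i ≠ j := by
          rintro rfl
          exact hi (by rw [him]; exact Finset.mem_insert_self _ _)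
        exact Function.update_of_ne this _ _
      rw [v1, v2, hF, ic_mem hx, one_mul, one_mul]
    · rw [ic_not hx]; simp
  rw [h4]
  have h6 := hPCN a ha (im (s2 e)) j G (vt p a (im (s2 e))) (3 * p.l) hj hAv3
    (fun X => hC1.comp (contDiff_update 1 X j))
    (fun c => by
      have := hBdAv j c
      have h7 : (fun X => pd c (fun x => G (Function.update X j x)) (X j)) = di j c G := by
        funext X
        exact (hdp j c X).symm
      rw [h7]; exact this) hw hw0 (fun X y hX hy => hvU j X y hj hX hy) (by linarith) (by linarith)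
  refine le_trans h6 (mul_le_mul_of_nonneg_left ?_ (by positivity))
  have hsum : BM (fun X => ∑ c, di j c G X ^ 2) :=
    hBMC.2.2.1 _ _ _ _ (fun c _ => (hBMC.1 _ _ _ (hBdAv j c) (hBdAv j c)).2.2.2.1)
  have h8 : (fun X => vt p a (im (s2 e)) X * (ic (Qb a (3 * p.l)) (X j) *
          ∑ c, pd c (fun x => G (Function.update X j x)) (X j) ^ 2)) =
      (fun X => vt p a (im (s2 e)) X * (ic (Qb a (3 * p.l)) (X j) * ∑ c, di j c G X ^ 2)) := by
    funext X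
    congr 2
    exact Finset.sum_congr rfl (fun c _ => by rw [hdp j c X])
  rw [h8]
  unfold IA
  refine integral_mono ?_ ?_ ?_
  · exact (hBMC.1 _ _ _ (hBMC.1 _ _ _ hw (hBMC.1 _ _ _ hic3 hsum).2.2.1).2.2.1 hw).2.2.2.2.2.2 _
  · exact (hBMC.1 _ _ _ (hBMC.1 _ _ _ hw (hBMC.1 _ _ _ hic6 hsum).2.2.1).2.2.1 hw).2.2.2.2.2.2 _
  · intro X
    refine mul_le_mul_of_nonneg_left ?_ (hw0 X)
    refine mul_le_mul_of_nonneg_right (ic_mono (qb_mono a (by linarith)) _) ?_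
    exact Finset.sum_nonneg (fun c _ => sq_nonneg _)

/-- the second part -/
lemma second (hBMC : Pool.Agent.TBL.Stmt_BMC) (hMSY : Stmt_MSY) (hAVP : Stmt_AVP)
    (hAVC : Stmt_AVC) (hVTP : Stmt_VTP) (hCLI : Stmt_CLI) (hCLY : Stmt_CLY) (C : ℝ) (p : Par) (β θ : E → E → ℝ)
    (hS : Sys C p β θ) (u : (ι → E) → ℝ) (hu : CU u) (K : W4 → ℝ) (κ₂ : ℝ) (hK : BM K) (hK0 : ∀ q, 0 ≤ K q)
    (hKs : ∀ q, K q ≠ 0 → ‖q‖ ≤ p.l) (hKm : ∫ q, K q * ‖q‖ ^ 2 ≤ κ₂) (a : E) (ha : a ∈ p.Gr) (e : Fin 4 → ι)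
    (he : e ∈ Ij 4 ι) :
    IO p (fun X => ic (Qb a (2 * p.l)) (X (e 0)) * (K (rl (X ∘ e)) * ‖rl (X ∘ e)‖ ^ 2 *
      Am p θ u a (im e) X ^ 2)) ≤
    κ₂ * ((4 * p.l) ^ 3 * IA p θ a (im e) (fun X => Am p θ u a (im e) X ^ 2)) := by
  obtain ⟨hl1, hfin, hOm, hQc, hQb, hQQ, hprob, -, -, hres, -, -⟩ := hMSY C p β θ hS
  have hl0 : 0 < p.l := by linarith
  have := hfin
  have := hprob a
  obtain ⟨hBu, -⟩ := hAVC ι (tm (θ a)) (im e) u hu
  obtain ⟨hAv4, hI4, -⟩ := hAVP ι (tm (θ a)) (im e) ∅ u u hBu hBu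
  obtain ⟨hBv4, hIv4, hv4, -, -⟩ := hVTP ι C p β θ hS a (im e)
  have hAm : BM (fun X => Am p θ u a (im e) X ^ 2) := by
    have b1 : BM (fun X => vt p a (im e) X * Av (tm (θ a)) (im e) u X) := (hBMC.1 _ _ _ hBv4 hAv4).2.2.1
    exact (hBMC.1 _ _ _ b1 b1).2.2.2.1
  have hK2 : BM (fun q : W4 => K q * ‖q‖ ^ 2) := by
    obtain ⟨hm, B, hB⟩ := hK
    refine ⟨hm.mul (measurable_norm.pow_const 2), B * p.l ^ 2, fun q => ?_⟩
    beta_reduce
    by_cases h : K q = 0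
    · rw [h, zero_mul, abs_zero]
      have : 0 ≤ B := le_trans (abs_nonneg _) (hB 0)
      positivity
    · rw [abs_mul, abs_of_nonneg (sq_nonneg ‖q‖)]
      exact mul_le_mul (hB q) (pow_le_pow_left₀ (norm_nonneg _) (hKs q h) 2) (sq_nonneg _)
        (le_trans (abs_nonneg _) (hB 0))
  have hCk : Ck 3 p.l κ₂ (fun x : Fin 4 → E => K (rl x) * ‖rl x‖ ^ 2) := by
    refine ⟨?_, fun x => mul_nonneg (hK0 _) (sq_nonneg _), ?_, ?_⟩
    · have h1 : Measurable (fun x : Fin 4 → E => rl x) := meas_rl (m := Fin 4) id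
      exact hBMC.2.2.2.1 _ _ _ _ hK2 h1
    · intro x hx s c
      have hx' : K (rl x) ≠ 0 := left_ne_zero_of_mul hx
      have h1 := hKs _ hx'
      have n1 : ‖x 0 - x 1‖ ≤ p.l := le_trans (norm_fst_le (x 0 - x 1, x 0 - x 2, x 0 - x 3)) h1
      have n23 := le_trans (norm_snd_le (x 0 - x 1, x 0 - x 2, x 0 - x 3)) h1
      have n2 : ‖x 0 - x 2‖ ≤ p.l := le_trans (norm_fst_le (x 0 - x 2, x 0 - x 3)) n23
      have n3 : ‖x 0 - x 3‖ ≤ p.l := le_trans (norm_snd_le (x 0 - x 2, x 0 - x 3)) n23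
      have c1 := abs_le.1 (le_trans (coord _ c) n1)
      have c2 := abs_le.1 (le_trans (coord _ c) n2)
      have c3 := abs_le.1 (le_trans (coord _ c) n3)
      rw [PiLp.sub_apply] at c1 c2 c3
      rw [abs_le]
      fin_cases s
      · show -p.l ≤ x 0 c - x 0 c ∧ x 0 c - x 0 c ≤ p.l
        constructor <;> linarith
      · show -p.l ≤ x 1 c - x 0 c ∧ x 1 c - x 0 c ≤ p.l
        constructor <;> linarith [c1.1, c1.2]
      · show -p.l ≤ x 2 c - x 0 c ∧ x 2 c - x 0 c ≤ p.l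
        constructor <;> linarith [c2.1, c2.2]
      · show -p.l ≤ x 3 c - x 0 c ∧ x 3 c - x 0 c ≤ p.l
        constructor <;> linarith [c3.1, c3.2]
    · intro x₀
      have h1 := hCLI.2 (fun q => K q * ‖q‖ ^ 2) x₀ 1
      have h2 : ∀ z : Fin 3 → E, ((Fin.cons x₀ z : Fin 4 → E) ∘ (1 : Equiv.Perm (Fin 4))) = Fin.cons x₀ z := by
        intro z
        funext s
        rfl
      simp only [h2] at h1
      rw [h1]
      exact hKm
  have h1 := hCLY C 3 ι p β θ κ₂ (2 * p.l) p.l _ (fun _ X => Am p θ u a (im e) X ^ 2) hS hCk (by linarith)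
    (hBMC.2.2.2.1 _ _ _ _ hAm measurable_snd) (fun _ X => sq_nonneg _) a ha e he (by
      intro x X Y hXY
      show Am p θ u a (im e) X ^ 2 = Am p θ u a (im e) Y ^ 2
      unfold Am
      rw [hIv4 X Y hXY, hI4 X Y hXY])
  refine le_trans h1 (le_of_eq ?_)
  rw [setIntegral_const, Measure.real, (hQb a (2 * p.l)).2 (by positivity), ENNReal.toReal_ofReal (by positivity),
    smul_eq_mul]
  congr 2
  ring

/-- the pointwise inequality -/
lemma pointwise (hMSY : Stmt_MSY) (hVTP : Stmt_VTP) (C : ℝ) (p : Par) (β θ : E → E → ℝ)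
    (hSys : Sys C p β θ) (u : (ι → E) → ℝ) (K : W4 → ℝ) (hK0 : ∀ q, 0 ≤ K q)
    (hKs : ∀ q, K q ≠ 0 → ‖q‖ ≤ p.l) (e : Fin 4 → ι)
    (he : e ∈ Ij 4 ι) (he3 : s2 e ∈ Ij 3 ι) (hc4 : (im e).card = 4) (hc3 : (im (s2 e)).card = 3)
    (him : im e = insert (e 3) (im (s2 e))) (X : ι → E) :
    K (rl (X ∘ e)) * (hS p β θ u (im (s2 e)) X - hS p β θ u (im e) X) ^ 2 ≤
    ∑ a ∈ p.Gr, (2 * (ic (Qb a (3 * p.l)) (X (e 3)) * (K (rl (X ∘ e)) * (vt p a (im e) X *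
      (Av (tm (θ a)) (im (s2 e)) u X - Av (tm (θ a)) (im e) u X) ^ 2))) +
      2 * (C * (3 * (C / p.l)) ^ 2) * (ic (Qb a (2 * p.l)) (X (e 0)) * (K (rl (X ∘ e)) * ‖rl (X ∘ e)‖ ^ 2 *
      Am p θ u a (im e) X ^ 2))) := by
  obtain ⟨hl1, hfin, hOm, hQc, hQb, hQQ, hprob, -, -, hres, -, hcount⟩ := hMSY C p β θ hSys
  have hl0 : 0 < p.l := by linarith
  obtain ⟨q, hq⟩ : ∃ q, q = rl (X ∘ e) := ⟨_, rfl⟩
  rw [← hq]
  by_cases hKq : K q = 0
  · rw [hKq]; simp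
  have hql := hKs q hKq
  have hq' : q = (X (e 0) - X (e 1), X (e 0) - X (e 2), X (e 0) - X (e 3)) := hq
  have n1 : ‖X (e 0) - X (e 1)‖ ≤ ‖q‖ := by
    rw [hq']; exact norm_fst_le (X (e 0) - X (e 1), X (e 0) - X (e 2), X (e 0) - X (e 3))
  have n23 : ‖(X (e 0) - X (e 2), X (e 0) - X (e 3))‖ ≤ ‖q‖ := by
    rw [hq']; exact norm_snd_le (X (e 0) - X (e 1), X (e 0) - X (e 2), X (e 0) - X (e 3))
  have n2 : ‖X (e 0) - X (e 2)‖ ≤ ‖q‖ := le_trans (norm_fst_le (X (e 0) - X (e 2), X (e 0) - X (e 3))) n23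
  have n3 : ‖X (e 0) - X (e 3)‖ ≤ ‖q‖ := le_trans (norm_snd_le (X (e 0) - X (e 2), X (e 0) - X (e 3))) n23
  have b1 : ∀ c, |X (e 0) c - X (e 1) c| ≤ p.l := fun c => by
    have := le_trans (coord _ c) (le_trans n1 hql); rwa [PiLp.sub_apply] at this
  have b2 : ∀ c, |X (e 0) c - X (e 2) c| ≤ p.l := fun c => by
    have := le_trans (coord _ c) (le_trans n2 hql); rwa [PiLp.sub_apply] at this
  have b3 : ∀ c, |X (e 0) c - X (e 3) c| ≤ p.l := fun c => by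
    have := le_trans (coord _ c) (le_trans n3 hql); rwa [PiLp.sub_apply] at this
  obtain ⟨c3, hc3'⟩ : ∃ c3, c3 = cen (im (s2 e)) X := ⟨_, rfl⟩
  obtain ⟨c4, hc4'⟩ : ∃ c4, c4 = cen (im e) X := ⟨_, rfl⟩
  have e3 : c3 = (3 : ℝ)⁻¹ • (X (e 0) + X (e 1) + X (e 2)) := by
    rw [hc3', cen_im (s2 e) he3 hc3 X, Fin.sum_univ_three]
    simp [s2]
  have e4 : c4 = (4 : ℝ)⁻¹ • (X (e 0) + X (e 1) + X (e 2) + X (e 3)) := by
    rw [hc4', cen_im e he hc4 X, Fin.sum_univ_four]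
    simp
  have hd34 : ‖c3 - c4‖ ≤ ‖q‖ := by
    have h1 : c3 - c4 = (12 : ℝ)⁻¹ • ((3 : ℝ) • (X (e 0) - X (e 3)) - (X (e 0) - X (e 1)) - (X (e 0) - X (e 2))) := by
      rw [e3, e4]; module
    rw [h1, norm_smul]
    have h2 : ‖(3 : ℝ) • (X (e 0) - X (e 3)) - (X (e 0) - X (e 1)) - (X (e 0) - X (e 2))‖ ≤ 3 * ‖q‖ + ‖q‖ + ‖q‖ := by
      refine le_trans (norm_sub_le _ _) (add_le_add (le_trans (norm_sub_le _ _) (add_le_add ?_ n1)) n2)
      rw [norm_smul]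
      have : ‖(3 : ℝ)‖ = 3 := by norm_num
      rw [this]
      linarith
    have h3 : ‖(12 : ℝ)⁻¹‖ = 12⁻¹ := by norm_num
    rw [h3]
    linarith [norm_nonneg q]
  -- supports
  have s30 : ∀ a : E, c3 ∈ Qb a p.l → X (e 0) ∈ Qb a (2 * p.l) ∧ X (e 3) ∈ Qb a (3 * p.l) := by
    intro a h
    refine ⟨fun c => ?_, fun c => ?_⟩
    · have h1 := h c
      rw [e3, PiLp.smul_apply, PiLp.add_apply, PiLp.add_apply, smul_eq_mul] at h1
      have := abs_le.1 h1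
      have := abs_le.1 (b1 c)
      have := abs_le.1 (b2 c)
      rw [abs_le]
      constructor <;> linarith
    · have h1 := h c
      rw [e3, PiLp.smul_apply, PiLp.add_apply, PiLp.add_apply, smul_eq_mul] at h1
      have := abs_le.1 h1
      have := abs_le.1 (b1 c)
      have := abs_le.1 (b2 c)
      have := abs_le.1 (b3 c)
      rw [abs_le]
      constructor <;> linarith
  have s40 : ∀ a : E, c4 ∈ Qb a p.l → X (e 0) ∈ Qb a (2 * p.l) := by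
    intro a h c
    have h1 := h c
    rw [e4, PiLp.smul_apply, PiLp.add_apply, PiLp.add_apply, PiLp.add_apply, smul_eq_mul] at h1
    have := abs_le.1 h1
    have := abs_le.1 (b1 c)
    have := abs_le.1 (b2 c)
    have := abs_le.1 (b3 c)
    rw [abs_le]
    constructor <;> linarith
  have hC0 : 0 ≤ C := le_trans (Nat.cast_nonneg _) (hSys.mul 0)
  have hβ1 : ∀ a ∈ p.Gr, ∀ x, β a x ≤ 1 := by
    intro a ha x
    exact le_trans (Finset.single_le_sum (fun b _ => hSys.β0 b x) ha) (hSys.β1 x)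
  obtain ⟨A3, hA3⟩ : ∃ A3 : E → ℝ, A3 = fun a => Am p θ u a (im (s2 e)) X := ⟨_, rfl⟩
  obtain ⟨A4, hA4⟩ : ∃ A4 : E → ℝ, A4 = fun a => Am p θ u a (im e) X := ⟨_, rfl⟩
  have hdiff : hS p β θ u (im (s2 e)) X - hS p β θ u (im e) X =
      (∑ a ∈ p.Gr, β a c3 * (A3 a - A4 a)) + ∑ a ∈ p.Gr, (β a c3 - β a c4) * A4 a := by
    unfold hS
    rw [← hc3', ← hc4', hA3, hA4, ← Finset.sum_sub_distrib, ← Finset.sum_add_distrib]
    refine Finset.sum_congr rfl (fun a _ => ?_)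
    ring
  -- first sum
  obtain ⟨D, hD⟩ : ∃ D : E → ℝ, D = fun a => vt p a (im e) X *
      (Av (tm (θ a)) (im (s2 e)) u X - Av (tm (θ a)) (im e) u X) ^ 2 := ⟨_, rfl⟩
  have hvt : ∀ a, vt p a (im e) X = 0 ∨ vt p a (im e) X = 1 := fun a =>
    ((hVTP ι C p β θ hSys a (im e)).2.2.1 X).1
  have hD0 : ∀ a, 0 ≤ D a := by
    intro a
    rw [hD]
    refine mul_nonneg ?_ (sq_nonneg _)
    rcases hvt a with h | h <;> rw [h]
    exact zero_le_one
  have hP1 : (∑ a ∈ p.Gr, β a c3 * (A3 a - A4 a)) ^ 2 ≤ ∑ a ∈ p.Gr, ic (Qb a (3 * p.l)) (X (e 3)) * D a := by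
    have h1 := Finset.sum_sq_le_sum_mul_sum_of_sq_le_mul p.Gr (r := fun a => β a c3 * (A3 a - A4 a))
      (f := fun a => β a c3) (g := fun a => β a c3 * (A3 a - A4 a) ^ 2) (fun a _ => hSys.β0 a c3)
      (fun a _ => mul_nonneg (hSys.β0 a c3) (sq_nonneg _)) (fun a _ => le_of_eq (by ring))
    refine le_trans h1 ?_
    have h2 : ∀ a ∈ p.Gr, β a c3 * (A3 a - A4 a) ^ 2 ≤ ic (Qb a (3 * p.l)) (X (e 3)) * D a := by
      intro a ha
      by_cases hb : β a c3 = 0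
      · rw [hb, zero_mul]
        exact mul_nonneg (ic_nn _ _) (hD0 a)
      · have h3 := s30 a (hSys.βsp a c3 hb)
        rw [ic_mem h3.2, one_mul]
        have hv : vt p a (im (s2 e)) X = vt p a (im e) X := by
          rw [(hVTP ι C p β θ hSys a (im (s2 e))).2.2.2.1 {e 3} X (by
            intro i hi _
            rw [Finset.mem_singleton] at hi
            rw [hi]
            exact hQQ a (3 * p.l) (by linarith) h3.2)]
          have hu1 : im (s2 e) ∪ {e 3} = im e := by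
            rw [him, Finset.union_comm, ← Finset.insert_eq]
          rw [hu1]
        have h4 : (A3 a - A4 a) ^ 2 = D a := by
          rw [hA3, hA4, hD]
          simp only [Am]
          rw [hv]
          rcases hvt a with h | h <;> rw [h] <;> ring
        rw [h4]
        calc β a c3 * D a ≤ 1 * D a := mul_le_mul_of_nonneg_right (hβ1 a ha c3) (hD0 a)
          _ = D a := one_mul _
    have h5 : ∑ a ∈ p.Gr, β a c3 ≤ 1 := hSys.β1 c3
    have h6 : 0 ≤ ∑ a ∈ p.Gr, β a c3 * (A3 a - A4 a) ^ 2 :=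
      Finset.sum_nonneg (fun a _ => mul_nonneg (hSys.β0 a c3) (sq_nonneg _))
    calc (∑ a ∈ p.Gr, β a c3) * ∑ a ∈ p.Gr, β a c3 * (A3 a - A4 a) ^ 2 ≤
        1 * ∑ a ∈ p.Gr, β a c3 * (A3 a - A4 a) ^ 2 := mul_le_mul_of_nonneg_right h5 h6
      _ = ∑ a ∈ p.Gr, β a c3 * (A3 a - A4 a) ^ 2 := one_mul _
      _ ≤ _ := Finset.sum_le_sum h2
  -- second sum
  have hP2 : (∑ a ∈ p.Gr, (β a c3 - β a c4) * A4 a) ^ 2 ≤
      C * ((3 * (C / p.l)) ^ 2 * ‖q‖ ^ 2 * ∑ a ∈ p.Gr, ic (Qb a (2 * p.l)) (X (e 0)) * A4 a ^ 2) := by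
    have h0 : ∀ a, ic (Qb a (2 * p.l)) (X (e 0)) ≠ 1 → (β a c3 - β a c4) * A4 a = 0 := by
      intro a h
      have hn : X (e 0) ∉ Qb a (2 * p.l) := fun hm => h (ic_mem hm)
      have z3 : β a c3 = 0 := by
        by_contra hb
        exact hn (s30 a (hSys.βsp a c3 hb)).1
      have z4 : β a c4 = 0 := by
        by_contra hb
        exact hn (s40 a (hSys.βsp a c4 hb))
      rw [z3, z4]; ring
    have h1 := Finset.sum_sq_le_sum_mul_sum_of_sq_le_mul p.Gr (r := fun a => (β a c3 - β a c4) * A4 a)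
      (f := fun a => ic (Qb a (2 * p.l)) (X (e 0)))
      (g := fun a => ic (Qb a (2 * p.l)) (X (e 0)) * ((β a c3 - β a c4) * A4 a) ^ 2) (fun a _ => ic_nn _ _)
      (fun a _ => mul_nonneg (ic_nn _ _) (sq_nonneg _)) (fun a _ => le_of_eq (by
        by_cases h : ic (Qb a (2 * p.l)) (X (e 0)) = 1
        · rw [h]; ring
        · rw [h0 a h]; ring))
    refine le_trans h1 ?_
    have h2 : ∀ a ∈ p.Gr, ic (Qb a (2 * p.l)) (X (e 0)) * ((β a c3 - β a c4) * A4 a) ^ 2 ≤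
        (3 * (C / p.l)) ^ 2 * ‖q‖ ^ 2 * (ic (Qb a (2 * p.l)) (X (e 0)) * A4 a ^ 2) := by
      intro a ha
      have h3 : |β a c3 - β a c4| ≤ 3 * (C / p.l) * ‖q‖ := by
        refine le_trans (lip (hSys.βs a) (fun c x => hSys.βd a c x) c3 c4) ?_
        exact mul_le_mul_of_nonneg_left hd34 (by positivity)
      have h4 : (β a c3 - β a c4) ^ 2 ≤ (3 * (C / p.l)) ^ 2 * ‖q‖ ^ 2 := by
        rw [← mul_pow, ← sq_abs (β a c3 - β a c4)]
        exact pow_le_pow_left₀ (abs_nonneg _) h3 2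
      calc ic (Qb a (2 * p.l)) (X (e 0)) * ((β a c3 - β a c4) * A4 a) ^ 2 =
          (β a c3 - β a c4) ^ 2 * (ic (Qb a (2 * p.l)) (X (e 0)) * A4 a ^ 2) := by ring
        _ ≤ _ := mul_le_mul_of_nonneg_right h4 (mul_nonneg (ic_nn _ _) (sq_nonneg _))
    have h5 : ∑ a ∈ p.Gr, ic (Qb a (2 * p.l)) (X (e 0)) ≤ C := hcount (X (e 0)) (2 * p.l) (by linarith)
    have h6 : 0 ≤ ∑ a ∈ p.Gr, ic (Qb a (2 * p.l)) (X (e 0)) * ((β a c3 - β a c4) * A4 a) ^ 2 :=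
      Finset.sum_nonneg (fun a _ => mul_nonneg (ic_nn _ _) (sq_nonneg _))
    calc (∑ a ∈ p.Gr, ic (Qb a (2 * p.l)) (X (e 0))) *
          ∑ a ∈ p.Gr, ic (Qb a (2 * p.l)) (X (e 0)) * ((β a c3 - β a c4) * A4 a) ^ 2 ≤
        C * ∑ a ∈ p.Gr, ic (Qb a (2 * p.l)) (X (e 0)) * ((β a c3 - β a c4) * A4 a) ^ 2 :=
          mul_le_mul_of_nonneg_right h5 h6
      _ ≤ C * ∑ a ∈ p.Gr, (3 * (C / p.l)) ^ 2 * ‖q‖ ^ 2 * (ic (Qb a (2 * p.l)) (X (e 0)) * A4 a ^ 2) :=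
          mul_le_mul_of_nonneg_left (Finset.sum_le_sum h2) hC0
      _ = _ := by rw [← Finset.mul_sum]
  rw [hdiff]
  have hsq : ((∑ a ∈ p.Gr, β a c3 * (A3 a - A4 a)) + ∑ a ∈ p.Gr, (β a c3 - β a c4) * A4 a) ^ 2 ≤
      2 * (∑ a ∈ p.Gr, β a c3 * (A3 a - A4 a)) ^ 2 + 2 * (∑ a ∈ p.Gr, (β a c3 - β a c4) * A4 a) ^ 2 := by
    nlinarith [sq_nonneg ((∑ a ∈ p.Gr, β a c3 * (A3 a - A4 a)) - ∑ a ∈ p.Gr, (β a c3 - β a c4) * A4 a)]
  have hfinal : K q * ((∑ a ∈ p.Gr, β a c3 * (A3 a - A4 a)) + ∑ a ∈ p.Gr, (β a c3 - β a c4) * A4 a) ^ 2 ≤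
      K q * (2 * (∑ a ∈ p.Gr, ic (Qb a (3 * p.l)) (X (e 3)) * D a) +
        2 * (C * ((3 * (C / p.l)) ^ 2 * ‖q‖ ^ 2 * ∑ a ∈ p.Gr, ic (Qb a (2 * p.l)) (X (e 0)) * A4 a ^ 2))) := by
    refine mul_le_mul_of_nonneg_left ?_ (hK0 q)
    linarith
  refine le_trans hfinal (le_of_eq ?_)
  rw [Finset.sum_add_distrib, ← Finset.mul_sum, ← Finset.mul_sum, mul_add]
  congr 1
  · rw [mul_left_comm]
    congr 1
    rw [Finset.mul_sum]
    refine Finset.sum_congr rfl (fun a _ => ?_)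
    rw [hD]; ring
  · have : ∀ a ∈ p.Gr, ic (Qb a (2 * p.l)) (X (e 0)) * (K q * ‖q‖ ^ 2 * Am p θ u a (im e) X ^ 2) =
        K q * ‖q‖ ^ 2 * (ic (Qb a (2 * p.l)) (X (e 0)) * A4 a ^ 2) := by
      intro a _
      rw [hA4]; ring
    rw [Finset.sum_congr rfl this, ← Finset.mul_sum]
    ring

end REP_

open REP_ in
theorem rep_proof (hBMC : Pool.Agent.TBL.Stmt_BMC) (hMSY : Stmt_MSY) (hPSF : Stmt_PSF) (hAVP : Stmt_AVP)
    (hAVC : Stmt_AVC) (hVTP : Stmt_VTP) (hHSF : Stmt_HSF) (hPCN : Stmt_PCN) (hTUP : Stmt_TUP) (hCLI : Stmt_CLI)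
    (hCLY : Stmt_CLY) : Stmt_REP := by
  intro C
  obtain ⟨Cp, hCp, hPCN'⟩ := hPCN C
  obtain ⟨Ch, hCh, hHSF'⟩ := hHSF C
  refine ⟨2 * Cp + 2 * (|C| * (3 * |C|) ^ 2) * 64 + 1, by positivity, ?_⟩
  intro ι _ _ p β θ u κ₀ κ₂ K hSys hu hK hK0 hKs hKm hKm2
  obtain ⟨hl1, hfin, hOm, hQc, hQb, hQQ, hprob, -, -, hres, -, hcount⟩ := hMSY C p β θ hSys
  have hl0 : 0 < p.l := by linarith
  have := hfin
  have := hprob 0
  have hC0 : 0 ≤ C := le_trans (Nat.cast_nonneg _) (hSys.mul 0)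
  have hκ0 : 0 ≤ κ₀ := le_trans (integral_nonneg hK0) hKm
  have hκ2 : 0 ≤ κ₂ := le_trans (integral_nonneg (fun q => mul_nonneg (hK0 q) (sq_nonneg _))) hKm2
  obtain ⟨-, hT2, hT3, hT4, hT5, hT6, -⟩ := hTUP ι
  have hBu : BM u := (hAVC ι (tm (θ 0)) ∅ u hu).1
  have hPfin : IsFiniteMeasure (PiS (ι := ι) (mO p.L) (mO p.L) ∅) := by
    rw [pis_eq (mO p.L) (tm (θ 0)) (mO p.L)]
    exact (hPSF ι (tm (θ 0)) (mO p.L) ∅).1
  have hbv : ∀ a (S : Finset ι), BM (vt p a S) := fun a S => (hVTP ι C p β θ hSys a S).1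
  have hbav : ∀ a (S : Finset ι), BM (Av (tm (θ a)) S u) := fun a S => by
    have := hprob a
    exact (hAVP ι (tm (θ a)) S ∅ u u hBu hBu).1
  have hbam : ∀ a (S : Finset ι), BM (fun X => Am p θ u a S X ^ 2) := fun a S => by
    have b1 : BM (fun X => vt p a S X * Av (tm (θ a)) S u X) := (hBMC.1 _ _ _ (hbv a S) (hbav a S)).2.2.1
    exact (hBMC.1 _ _ _ b1 b1).2.2.2.1
  have hbk : ∀ e : Fin 4 → ι, BM (fun X : ι → E => K (rl (X ∘ e))) := fun e =>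
    hBMC.2.2.2.1 _ _ _ _ hK (meas_rl e)
  have hK2 : BM (fun q : W4 => K q * ‖q‖ ^ 2) := by
    obtain ⟨hm, B, hB⟩ := hK
    refine ⟨hm.mul (measurable_norm.pow_const 2), B * p.l ^ 2, fun q => ?_⟩
    beta_reduce
    by_cases h : K q = 0
    · rw [h, zero_mul, abs_zero]
      have : 0 ≤ B := le_trans (abs_nonneg _) (hB 0)
      positivity
    · rw [abs_mul, abs_of_nonneg (sq_nonneg ‖q‖)]
      exact mul_le_mul (hB q) (pow_le_pow_left₀ (norm_nonneg _) (hKs q h) 2) (sq_nonneg _)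
        (le_trans (abs_nonneg _) (hB 0))
  have hbk2 : ∀ e : Fin 4 → ι, BM (fun X : ι → E => K (rl (X ∘ e)) * ‖rl (X ∘ e)‖ ^ 2) := fun e =>
    hBMC.2.2.2.1 _ _ _ _ hK2 (meas_rl e)
  -- the two functions
  obtain ⟨f1, hf1⟩ : ∃ f1 : E → (Fin 4 → ι) → (ι → E) → ℝ, f1 = fun a e X =>
    ic (Qb a (3 * p.l)) (X (e 3)) * (K (rl (X ∘ e)) * (vt p a (im e) X *
      (Av (tm (θ a)) (im (s2 e)) u X - Av (tm (θ a)) (im e) u X) ^ 2)) := ⟨_, rfl⟩
  obtain ⟨f2, hf2⟩ : ∃ f2 : E → (Fin 4 → ι) → (ι → E) → ℝ, f2 = fun a e X =>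
    ic (Qb a (2 * p.l)) (X (e 0)) * (K (rl (X ∘ e)) * ‖rl (X ∘ e)‖ ^ 2 * Am p θ u a (im e) X ^ 2) := ⟨_, rfl⟩
  have hbf1 : ∀ a e, BM (f1 a e) := by
    intro a e
    rw [hf1]
    have b4 := (hBMC.1 _ _ _ (hbav a (im (s2 e))) (hbav a (im e))).2.1
    have b5 := (hBMC.1 _ _ _ b4 b4).2.2.2.1
    have b6 := (hBMC.1 _ _ _ (hbv a (im e)) b5).2.2.1
    have b7 := (hBMC.1 _ _ _ (hbk e) b6).2.2.1
    exact (hBMC.1 _ _ _ (bm_ic (hQb a (3 * p.l)).1 (e 3)) b7).2.2.1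
  have hbf2 : ∀ a e, BM (f2 a e) := by
    intro a e
    rw [hf2]
    have b7 := (hBMC.1 _ _ _ (hbk2 e) (hbam a (im e))).2.2.1
    exact (hBMC.1 _ _ _ (bm_ic (hQb a (2 * p.l)).1 (e 0)) b7).2.2.1
  obtain ⟨c2, hc2⟩ : ∃ c2 : ℝ, c2 = 2 * (C * (3 * (C / p.l)) ^ 2) := ⟨_, rfl⟩
  have hc20 : 0 ≤ c2 := by rw [hc2]; positivity
  have hbsum : ∀ a e, BM (fun X => 2 * f1 a e X + c2 * f2 a e X) := fun a e =>
    (hBMC.1 _ _ _ ((hBMC.1 _ _ _ (hbf1 a e) (hbf1 a e)).2.2.2.2.2.1 2)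
      ((hBMC.1 _ _ _ (hbf2 a e) (hbf2 a e)).2.2.2.2.2.1 c2)).1
  have hint : ∀ F : (ι → E) → ℝ, BM F → Integrable F (PiS (mO p.L) (mO p.L) ∅) := fun F hF =>
    (hBMC.1 _ _ _ hF hF).2.2.2.2.2.2 _
  have hcard4 : ∀ e ∈ Ij 4 ι, (im e).card = 4 := fun e he => hT6 4 e he
  have hne4 : ∀ e ∈ Ij 4 ι, (im e).Nonempty := fun e he => by
    rw [← Finset.card_pos, hcard4 e he]; norm_num
  have hne3 : ∀ e ∈ Ij 4 ι, (im (s2 e)).Nonempty := fun e he => by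
    rw [← Finset.card_pos, hT6 3 _ (hT5 e he).1]; norm_num
  -- step 1: pointwise
  have hstep1 : IO p (fun X => ∑ e ∈ Ij 4 ι, K (rl (X ∘ e)) *
      (hS p β θ u (im (s2 e)) X - hS p β θ u (im e) X) ^ 2) ≤
      IO p (fun X => ∑ e ∈ Ij 4 ι, ∑ a ∈ p.Gr, (2 * f1 a e X + c2 * f2 a e X)) := by
    unfold IO
    refine integral_mono ?_ ?_ ?_
    · refine hint _ (hBMC.2.2.1 _ _ _ _ (fun e he => ?_))
      have b1 := (hHSF' ι p β θ u (im (s2 e)) hSys hBu (hne3 e he)).1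
      have b2 := (hHSF' ι p β θ u (im e) hSys hBu (hne4 e he)).1
      have b3 := (hBMC.1 _ _ _ b1 b2).2.1
      have b4 := (hBMC.1 _ _ _ b3 b3).2.2.2.1
      exact (hBMC.1 _ _ _ (hbk e) b4).2.2.1
    · exact hint _ (hBMC.2.2.1 _ _ _ _ (fun e _ => hBMC.2.2.1 _ _ _ _ (fun a _ => hbsum a e)))
    · intro X
      refine Finset.sum_le_sum (fun e he => ?_)
      obtain ⟨k1, k2, k3, k4, k5, k6, k7⟩ := hT5 e he
      have h := pointwise hMSY hVTP C p β θ hSys u K hK0 hKs e he k1 (hT6 4 e he) (hT6 3 _ k1) k5 X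
      refine le_trans h (le_of_eq ?_)
      refine Finset.sum_congr rfl (fun a _ => ?_)
      rw [hf1, hf2, hc2]
  -- step 2: integrals of sums
  have hstep2 : IO p (fun X => ∑ e ∈ Ij 4 ι, ∑ a ∈ p.Gr, (2 * f1 a e X + c2 * f2 a e X)) =
      ∑ e ∈ Ij 4 ι, ∑ a ∈ p.Gr, (2 * IO p (f1 a e) + c2 * IO p (f2 a e)) := by
    unfold IO
    rw [integral_finsetSum _ (fun e _ => hint _ (hBMC.2.2.1 _ _ _ _ (fun a _ => hbsum a e)))]
    refine Finset.sum_congr rfl (fun e _ => ?_)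
    rw [integral_finsetSum _ (fun a _ => hint _ (hbsum a e))]
    refine Finset.sum_congr rfl (fun a _ => ?_)
    rw [integral_add ((hint _ (hbf1 a e)).const_mul 2) ((hint _ (hbf2 a e)).const_mul c2), integral_const_mul,
      integral_const_mul]
  -- step 3: the bounds
  obtain ⟨g1, hg1⟩ : ∃ g1 : E → (Fin 3 → ι) → ι → ℝ, g1 = fun a e j =>
    IA p θ a (im e) (fun X => vt p a (im e) X * (ic (Qb a (6 * p.l)) (X j) *
      ∑ c, di j c (Av (tm (θ a)) (im e) u) X ^ 2)) := ⟨_, rfl⟩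
  obtain ⟨g2, hg2⟩ : ∃ g2 : E → (Fin 4 → ι) → ℝ, g2 = fun a e =>
    IA p θ a (im e) (fun X => Am p θ u a (im e) X ^ 2) := ⟨_, rfl⟩
  have hstep3 : ∑ e ∈ Ij 4 ι, ∑ a ∈ p.Gr, (2 * IO p (f1 a e) + c2 * IO p (f2 a e)) ≤
      ∑ e ∈ Ij 4 ι, ∑ a ∈ p.Gr, (2 * (κ₀ * (Cp * p.l ^ 2 * g1 a (s2 e) (e 3))) +
        c2 * (κ₂ * ((4 * p.l) ^ 3 * g2 a e))) := by
    refine Finset.sum_le_sum (fun e he => Finset.sum_le_sum (fun a ha => ?_))
    obtain ⟨k1, k2, k3, k4, k5, k6, k7⟩ := hT5 e he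
    refine add_le_add (mul_le_mul_of_nonneg_left ?_ (by norm_num)) (mul_le_mul_of_nonneg_left ?_ hc20)
    · have h := first hBMC hMSY hPSF hAVP hAVC hVTP hCLI hCLY C Cp p β θ hSys (hPCN' ι p β θ hSys) hCp u hu K κ₀
        hK hK0 hKs hKm a ha e (((hT2 4 (Equiv.swap 0 3)).2 e).2.2 he) ((hT2 4 (Equiv.swap 0 3)).2 e).1 k3 k5
      rw [hf1, hg1]
      exact h
    · have h := second hBMC hMSY hAVP hAVC hVTP hCLI hCLY C p β θ hSys u hu K κ₂ hK hK0 hKs hKm2 a ha e he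
      rw [hf2, hg2]
      exact h
  -- step 4: the sums
  have hG : GG p θ u 3 = p.l ^ 3 * ∑ a ∈ p.Gr, ∑ e ∈ Ij 4 ι, g1 a (s2 e) (e 3) := by
    unfold GG
    congr 1
    refine Finset.sum_congr rfl (fun a ha => ?_)
    have := hprob a
    rw [hT3 (fun e => g1 a (s2 e) (e 3))]
    refine Finset.sum_congr rfl (fun e he => ?_)
    have h1 : ∀ j ∈ Finset.univ \ im e, g1 a (s2 (ap e j)) ((ap e j) 3) = g1 a e j := by
      intro j hj
      have h2 : s2 (ap e j) = e := by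
        funext s
        fin_cases s <;> rfl
      rw [h2]
      rfl
    rw [Finset.sum_congr rfl h1, hg1]
    unfold IA
    have hfin' : IsFiniteMeasure (PiS (tm (θ a)) (mO p.L) (im e)) := (hPSF ι (tm (θ a)) (mO p.L) (im e)).1
    rw [← integral_finsetSum]
    · congr 1
      funext X
      beta_reduce
      rw [Finset.mul_sum]
    · intro j _
      have hdB : ∀ c, BM (di j c (Av (tm (θ a)) (im e) u)) := fun c =>
        (hAVC ι (tm (θ a)) (im e) u hu).2.2.2.2.1 j c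
      have hsum : BM (fun X => ∑ c, di j c (Av (tm (θ a)) (im e) u) X ^ 2) :=
        hBMC.2.2.1 _ _ _ _ (fun c _ => (hBMC.1 _ _ _ (hdB c) (hdB c)).2.2.2.1)
      have hb := (hBMC.1 _ _ _ (hbv a (im e)) (hBMC.1 _ _ _ (bm_ic (hQb a (6 * p.l)).1 j) hsum).2.2.1).2.2.1
      exact (hBMC.1 _ _ _ hb hb).2.2.2.2.2.2 _
  have hA : AA p θ u 4 = p.l ^ 3 * ∑ a ∈ p.Gr, ∑ e ∈ Ij 4 ι, g2 a e := by
    rw [hg2]; rfl
  have hG0 : 0 ≤ ∑ a ∈ p.Gr, ∑ e ∈ Ij 4 ι, g1 a (s2 e) (e 3) := by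
    refine Finset.sum_nonneg (fun a _ => Finset.sum_nonneg (fun e _ => ?_))
    rw [hg1]
    refine integral_nonneg (fun X => ?_)
    refine mul_nonneg ?_ (mul_nonneg (ic_nn _ _) (Finset.sum_nonneg (fun c _ => sq_nonneg _)))
    rcases ((hVTP ι C p β θ hSys a (im (s2 e))).2.2.1 X).1 with h | h <;> rw [h]
    exact zero_le_one
  have hA0 : 0 ≤ ∑ a ∈ p.Gr, ∑ e ∈ Ij 4 ι, g2 a e := by
    refine Finset.sum_nonneg (fun a _ => Finset.sum_nonneg (fun e _ => ?_))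
    rw [hg2]
    exact integral_nonneg (fun X => sq_nonneg _)
  have hstep4 : ∑ e ∈ Ij 4 ι, ∑ a ∈ p.Gr, (2 * (κ₀ * (Cp * p.l ^ 2 * g1 a (s2 e) (e 3))) +
        c2 * (κ₂ * ((4 * p.l) ^ 3 * g2 a e))) =
      2 * Cp * (κ₀ * GG p θ u 3 / p.l) + 2 * (C * (3 * C) ^ 2) * 64 * (κ₂ * AA p θ u 4 / p.l ^ 2) := by
    rw [Finset.sum_comm]
    simp_rw [Finset.sum_add_distrib]
    have h1 : ∑ a ∈ p.Gr, ∑ e ∈ Ij 4 ι, 2 * (κ₀ * (Cp * p.l ^ 2 * g1 a (s2 e) (e 3))) =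
        (2 * (κ₀ * (Cp * p.l ^ 2))) * ∑ a ∈ p.Gr, ∑ e ∈ Ij 4 ι, g1 a (s2 e) (e 3) := by
      rw [Finset.mul_sum]
      refine Finset.sum_congr rfl (fun a _ => ?_)
      rw [Finset.mul_sum]
      refine Finset.sum_congr rfl (fun e _ => ?_)
      ring
    have h2 : ∑ a ∈ p.Gr, ∑ e ∈ Ij 4 ι, c2 * (κ₂ * ((4 * p.l) ^ 3 * g2 a e)) =
        (c2 * (κ₂ * (4 * p.l) ^ 3)) * ∑ a ∈ p.Gr, ∑ e ∈ Ij 4 ι, g2 a e := by
      rw [Finset.mul_sum]
      refine Finset.sum_congr rfl (fun a _ => ?_)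
      rw [Finset.mul_sum]
      refine Finset.sum_congr rfl (fun e _ => ?_)
      ring
    rw [h1, h2, hG, hA, hc2]
    field_simp
    ring
  have hfinal : 2 * Cp * (κ₀ * GG p θ u 3 / p.l) + 2 * (C * (3 * C) ^ 2) * 64 * (κ₂ * AA p θ u 4 / p.l ^ 2) ≤
      (2 * Cp + 2 * (|C| * (3 * |C|) ^ 2) * 64 + 1) * (κ₀ * GG p θ u 3 / p.l + κ₂ * AA p θ u 4 / p.l ^ 2) := by
    rw [abs_of_nonneg hC0]
    have t1 : 0 ≤ κ₀ * GG p θ u 3 / p.l := by rw [hG]; positivity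
    have t2 : 0 ≤ κ₂ * AA p θ u 4 / p.l ^ 2 := by rw [hA]; positivity
    have t3 : 0 ≤ C * (3 * C) ^ 2 := by positivity
    nlinarith [mul_nonneg hCp.le t2, mul_nonneg t3 t1]
  calc _ ≤ _ := hstep1
    _ = _ := hstep2
    _ ≤ _ := hstep3
    _ = _ := hstep4
    _ ≤ _ := hfinal

end Pool.Agent.TBS
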