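import Pool.Agent.TBS.StmtsB

set_option autoImplicit false

open MeasureTheory Filter Topology
open scoped ContDiff

namespace Pool.Agent.TBS

open Pool.Agent.TBG Pool.Agent.TBL Pool.Agent.TBF

namespace RGH_

theorem ic_cases (Q : Set E) (x : E) : (ic Q x = 1 ∧ x ∈ Q) ∨ (ic Q x = 0 ∧ x ∉ Q) := by
  unfold ic
  by_cases h : x ∈ Q
  · left; exact ⟨by rw [Set.indicator_of_mem h], h⟩
  · right; exact ⟨by rw [Set.indicator_of_notMem h], h⟩

theorem ic_nonneg (Q : Set E) (x : E) : 0 ≤ ic Q x := by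
  rcases ic_cases Q x with h | h <;> rw [h.1]
  exact zero_le_one

theorem ic_mono {Q Q' : Set E} (h : Q ⊆ Q') (x : E) : ic Q x ≤ ic Q' x := by
  rcases ic_cases Q x with h1 | h1
  · rcases ic_cases Q' x with h2 | h2
    · rw [h1.1, h2.1]
    · exact absurd (h h1.2) h2.2
  · rw [h1.1]; exact ic_nonneg _ _

theorem ic_bm {ι : Type} [Fintype ι] (Q : Set E) (hQ : MeasurableSet Q) (j : ι) :
    BM (fun X : ι → E => ic Q (X j)) := by
  refine ⟨?_, 1, fun X => ?_⟩
  · have : Measurable (ic Q) := measurable_const.indicator hQ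
    exact this.comp (measurable_pi_apply j)
  · show |ic Q (X j)| ≤ 1
    rcases ic_cases Q (X j) with h | h <;> rw [h.1] <;> simp

end RGH_

theorem rgh_proof (hBMC : Pool.Agent.TBL.Stmt_BMC) (hMSY : Stmt_MSY) (hPSF : Stmt_PSF)
    (hAVP : Stmt_AVP) (hAVI : Stmt_AVI) (hDNS : Stmt_DNS) (hVTP : Stmt_VTP) (hCTS : Stmt_CTS) :
    Stmt_RGH := by
  intro C m
  obtain ⟨C₁, hC₁, hcts⟩ := hCTS C m
  refine ⟨C₁, hC₁, ?_⟩
  intro ι _ _ p β θ u hSys hu
  obtain ⟨hl, hfin, -, -, hQb, hQbc, hprob, -, -, -, -, -⟩ := hMSY C p β θ hSys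
  have := hfin
  have := hprob
  have hlpos : 0 < p.l := by linarith
  have hMpos : 0 ≤ p.M := by linarith [hSys.hM]
  -- the class BM
  have bmul : ∀ F G : (ι → E) → ℝ, BM F → BM G → BM (fun X => F X * G X) :=
    fun F G hF hG => (hBMC.1 _ F G hF hG).2.2.1
  have bsub : ∀ F G : (ι → E) → ℝ, BM F → BM G → BM (fun X => F X - G X) :=
    fun F G hF hG => (hBMC.1 _ F G hF hG).2.1
  have bsq : ∀ F : (ι → E) → ℝ, BM F → BM (fun X => F X ^ 2) :=
    fun F hF => (hBMC.1 _ F F hF hF).2.2.2.1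
  have bcm : ∀ (F : (ι → E) → ℝ) (a : ℝ), BM F → BM (fun X => a * F X) :=
    fun F a hF => (hBMC.1 _ F F hF hF).2.2.2.2.2.1 a
  have bint : ∀ (F : (ι → E) → ℝ) (μ : Measure (ι → E)) [IsFiniteMeasure μ], BM F →
      Integrable F μ := fun F μ _ hF => (hBMC.1 _ F F hF hF).2.2.2.2.2.2 μ
  have bsum : ∀ (J : Type) (s : Finset J) (F : J → (ι → E) → ℝ), (∀ q ∈ s, BM (F q)) →
      BM (fun X => ∑ q ∈ s, F q X) := fun J s F hF => hBMC.2.2.1 _ J s F hF
  -- the measure of IO
  have hIOeq : PiS (mO p.L) (mO p.L) (∅ : Finset ι) = PiS (tm (θ 0)) (mO p.L) (∅ : Finset ι) := by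
    unfold PiS
    simp
  have hfinIO : IsFiniteMeasure (PiS (mO p.L) (mO p.L) (∅ : Finset ι)) := by
    rw [hIOeq]
    exact (hPSF ι (tm (θ 0)) (mO p.L) ∅).1
  have IOmono : ∀ F G : (ι → E) → ℝ, BM F → BM G → (∀ X, F X ≤ G X) → IO p F ≤ IO p G :=
    fun F G hF hG h => integral_mono (bint F _ hF) (bint G _ hG) h
  have IOsum : ∀ (J : Type) (s : Finset J) (F : J → (ι → E) → ℝ), (∀ q ∈ s, BM (F q)) →
      IO p (fun X => ∑ q ∈ s, F q X) = ∑ q ∈ s, IO p (F q) :=
    fun J s F hF => integral_finsetSum _ fun q hq => bint _ _ (hF q hq)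
  have bH : ∀ (a : E) (j : ι), BM (fun X => (u X - Av (tm (θ a)) {j} u X) ^ 2) := by
    intro a j
    exact bsq _ (bsub _ _ hu (hAVP ι (tm (θ a)) {j} ∅ u u hu hu).1)
  have hHnn : ∀ (a : E) (j : ι) (X : ι → E), 0 ≤ (u X - Av (tm (θ a)) {j} u X) ^ 2 :=
    fun a j X => sq_nonneg _
  have hsub : ∀ a : E, Qb a (2 * p.l) ⊆ Qb a (4 * p.l) := by
    intro a x hx c
    have := hx c
    linarith
  have bic : ∀ (a : E) (r : ℝ) (j : ι), BM (fun X : ι → E => ic (Qb a r) (X j)) :=
    fun a r j => RGH_.ic_bm _ (hQb a r).1 j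
  have hvt01 : ∀ (a : E) (S : Finset ι) (X : ι → E), 0 ≤ vt p a S X := by
    intro a S X
    rcases ((hVTP ι C p β θ hSys a S).2.2.1 X).1 with h | h <;> rw [h]
    exact zero_le_one
  constructor
  · unfold RR RW
    refine Finset.sum_le_sum fun a _ => Finset.sum_le_sum fun i _ => ?_
    have bv := (hVTP ι C p β θ hSys a {i}).1
    refine IOmono _ _ (bmul _ _ (bmul _ _ bv (bic a _ i)) (bH a i))
      (bmul _ _ (bmul _ _ bv (bic a _ i)) (bH a i)) fun X => ?_
    refine mul_le_mul_of_nonneg_right ?_ (hHnn a i X)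
    exact mul_le_mul_of_nonneg_left (RGH_.ic_mono (hsub a) _) (hvt01 _ _ _)
  · -- the main estimate
    have bth : ∀ (a : E) (S : Finset ι), BM (fun X : ι → E => ∏ i ∈ S, θ a (X i)) := by
      intro a S
      have hC0 : 0 ≤ C / p.l ^ 3 := le_trans (hSys.θ0 a 0) (hSys.θb a 0)
      refine ⟨?_, (C / p.l ^ 3) ^ S.card, fun X => ?_⟩
      · exact Finset.measurable_prod _ fun i _ => (hSys.θm a).comp (measurable_pi_apply i)
      · rw [abs_of_nonneg (Finset.prod_nonneg fun i _ => hSys.θ0 a (X i))]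
        calc ∏ i ∈ S, θ a (X i) ≤ ∏ _i ∈ S, C / p.l ^ 3 :=
              Finset.prod_le_prod (fun i _ => hSys.θ0 a (X i)) fun i _ => hSys.θb a (X i)
          _ = _ := by rw [Finset.prod_const]
    have stepA : ∀ a ∈ p.Gr, ∀ (S : Finset ι) (j : ι), j ∉ S → rg p θ u a S j ≤
        IO p (fun X => (∏ i ∈ S, θ a (X i)) * (vt p a S X * (ic (Qb a (2 * p.l)) (X j) *
          (u X - Av (tm (θ a)) {j} u X) ^ 2))) := by
      intro a ha S j hj
      have hfS : IsFiniteMeasure (PiS (tm (θ a)) (mO p.L) S) := (hPSF ι (tm (θ a)) (mO p.L) S).1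
      have bv := (hVTP ι C p β θ hSys a S).1
      have iv := (hVTP ι C p β θ hSys a S).2.1
      have bAj : BM (Av (tm (θ a)) {j} u) := (hAVP ι (tm (θ a)) {j} ∅ u u hu hu).1
      have bG : BM (fun X => u X - Av (tm (θ a)) {j} u X) := bsub _ _ hu bAj
      have e1 : Av (tm (θ a)) S (Av (tm (θ a)) {j} u) = Av (tm (θ a)) (insert j S) u := by
        have h := (hAVP ι (tm (θ a)) S {j} u u hu hu).2.2.2.2.2.2.2.2.2.2.2.1
        rw [h]
        congr 1
        ext x
        simp
      have e2 : Av (tm (θ a)) S (fun X => u X - Av (tm (θ a)) {j} u X) =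
          fun X => Av (tm (θ a)) S u X - Av (tm (θ a)) S (Av (tm (θ a)) {j} u) X :=
        (hAVP ι (tm (θ a)) S S u (Av (tm (θ a)) {j} u) hu bAj).2.2.2.2.2.2.1
      have e3 : ∀ X, Av (tm (θ a)) S u X - Av (tm (θ a)) (insert j S) u X =
          Av (tm (θ a)) S (fun X => u X - Av (tm (θ a)) {j} u X) X := by
        intro X
        rw [e2, e1]
      have hjen : ∀ X, (Av (tm (θ a)) S (fun X => u X - Av (tm (θ a)) {j} u X) X) ^ 2 ≤
          Av (tm (θ a)) S (fun Y => (u Y - Av (tm (θ a)) {j} u Y) ^ 2) X :=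
        (hAVP ι (tm (θ a)) S S _ _ bG bG).2.2.2.2.2.2.2.2.2.2.1
      have bw : BM (fun X => vt p a S X * ic (Qb a (2 * p.l)) (X j)) :=
        bmul _ _ bv (bic a _ j)
      have iw : IndS S (fun X => vt p a S X * ic (Qb a (2 * p.l)) (X j)) := by
        intro X Y hXY
        simp only
        rw [iv X Y hXY, hXY j hj]
      have bAS : BM (Av (tm (θ a)) S u) := (hAVP ι (tm (θ a)) S ∅ u u hu hu).1
      have bASj : BM (Av (tm (θ a)) (insert j S) u) :=
        (hAVP ι (tm (θ a)) (insert j S) ∅ u u hu hu).1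
      have bAG : BM (Av (tm (θ a)) S (fun Y => (u Y - Av (tm (θ a)) {j} u Y) ^ 2)) :=
        (hAVP ι (tm (θ a)) S ∅ _ _ (bH a j) (bH a j)).1
      calc rg p θ u a S j
          ≤ IA p θ a S (fun X => Av (tm (θ a)) S (fun Y => (u Y - Av (tm (θ a)) {j} u Y) ^ 2) X *
              (vt p a S X * ic (Qb a (2 * p.l)) (X j))) := by
            unfold rg IA
            refine integral_mono (bint _ _ (bmul _ _ bv (bmul _ _ (bic a _ j)
              (bsq _ (bsub _ _ bAS bASj))))) (bint _ _ (bmul _ _ bAG bw)) fun X => ?_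
            simp only
            rw [e3 X, ← mul_assoc, mul_comm (Av (tm (θ a)) S _ X)]
            exact mul_le_mul_of_nonneg_left (hjen X)
              (mul_nonneg (hvt01 _ _ _) (RGH_.ic_nonneg _ _))
        _ = IA p θ a S (fun X => (u X - Av (tm (θ a)) {j} u X) ^ 2 *
              (vt p a S X * ic (Qb a (2 * p.l)) (X j))) :=
            ((hAVI ι (tm (θ a)) (mO p.L) S S _ _ (bH a j) bw (Finset.Subset.refl _)).1 iw).symm
        _ = IO p (fun X => (∏ i ∈ S, θ a (X i)) * ((u X - Av (tm (θ a)) {j} u X) ^ 2 *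
              (vt p a S X * ic (Qb a (2 * p.l)) (X j)))) :=
            (hDNS ι C p β θ hSys a ha S _ (bmul _ _ (bH a j) bw)).2
        _ = _ := by
            congr 1
            funext X
            ring
    calc ∑ a ∈ p.Gr, ∑ e ∈ Ij m ι, ∑ j ∈ Finset.univ \ im e, rg p θ u a (im e) j
        ≤ ∑ a ∈ p.Gr, ∑ e ∈ Ij m ι, ∑ j ∈ Finset.univ \ im e,
            IO p (fun X => (∏ i ∈ im e, θ a (X i)) * (vt p a (im e) X *
              (ic (Qb a (2 * p.l)) (X j) * (u X - Av (tm (θ a)) {j} u X) ^ 2))) := by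
          refine Finset.sum_le_sum fun a ha => Finset.sum_le_sum fun e _ =>
            Finset.sum_le_sum fun j hj => stepA a ha _ j ?_
          exact (Finset.mem_sdiff.1 hj).2
      _ = ∑ a ∈ p.Gr, ∑ j : ι, ∑ e ∈ (Ij m ι).filter (fun e => j ∉ im e),
            IO p (fun X => (∏ i ∈ im e, θ a (X i)) * (vt p a (im e) X *
              (ic (Qb a (2 * p.l)) (X j) * (u X - Av (tm (θ a)) {j} u X) ^ 2))) := by
          refine Finset.sum_congr rfl fun a _ => ?_
          refine Finset.sum_comm' fun e j => ?_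
          simp only [Finset.mem_sdiff, Finset.mem_univ, true_and, Finset.mem_filter, and_true]
      _ ≤ ∑ a ∈ p.Gr, ∑ j : ι, C₁ * (p.M / p.l ^ 3) ^ m * IO p (fun X => vt p a {j} X *
            ic (Qb a (4 * p.l)) (X j) * (u X - Av (tm (θ a)) {j} u X) ^ 2) := by
          refine Finset.sum_le_sum fun a _ => Finset.sum_le_sum fun j _ => ?_
          have bF : ∀ e : Fin m → ι, BM (fun X => (∏ i ∈ im e, θ a (X i)) * (vt p a (im e) X *
              (ic (Qb a (2 * p.l)) (X j) * (u X - Av (tm (θ a)) {j} u X) ^ 2))) := fun e =>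
            bmul _ _ (bth a _) (bmul _ _ (hVTP ι C p β θ hSys a (im e)).1
              (bmul _ _ (bic a _ j) (bH a j)))
          have bR : BM (fun X => vt p a {j} X *
            ic (Qb a (4 * p.l)) (X j) * (u X - Av (tm (θ a)) {j} u X) ^ 2) :=
            bmul _ _ (bmul _ _ (hVTP ι C p β θ hSys a {j}).1 (bic a _ j)) (bH a j)
          rw [← IOsum _ _ _ fun e _ => bF e]
          have hc : C₁ * (p.M / p.l ^ 3) ^ m * IO p (fun X => vt p a {j} X *
            ic (Qb a (4 * p.l)) (X j) * (u X - Av (tm (θ a)) {j} u X) ^ 2) =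
            IO p (fun X => C₁ * (p.M / p.l ^ 3) ^ m * (vt p a {j} X *
            ic (Qb a (4 * p.l)) (X j) * (u X - Av (tm (θ a)) {j} u X) ^ 2)) :=
            (integral_const_mul _ _).symm
          rw [hc]
          refine IOmono _ _ (bsum _ _ _ fun e _ => bF e) (bcm _ _ bR) fun X => ?_
          rcases RGH_.ic_cases (Qb a (2 * p.l)) (X j) with h | h
          · have h4 : ic (Qb a (4 * p.l)) (X j) = 1 := by
              rcases RGH_.ic_cases (Qb a (4 * p.l)) (X j) with h' | h'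
              · exact h'.1
              · exact absurd (hsub a h.2) h'.2
            have hQc : X j ∈ Qc p a := hQbc a (2 * p.l) (by linarith) h.2
            have h3 := (hcts ι p β θ hSys a X).2.2 j hQc
            rw [h4]
            simp only [h.1, one_mul, mul_one]
            have h5 : ∑ e ∈ (Ij m ι).filter (fun e => j ∉ im e), (∏ i ∈ im e, θ a (X i)) *
                (vt p a (im e) X * (u X - Av (tm (θ a)) {j} u X) ^ 2) =
                (∑ e ∈ (Ij m ι).filter (fun e => j ∉ im e), (∏ i ∈ im e, θ a (X i)) *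
                  vt p a (im e) X) * (u X - Av (tm (θ a)) {j} u X) ^ 2 := by
              rw [Finset.sum_mul]
              refine Finset.sum_congr rfl fun e _ => ?_
              ring
            rw [h5, ← mul_assoc (C₁ * (p.M / p.l ^ 3) ^ m)]
            exact mul_le_mul_of_nonneg_right h3 (hHnn a j X)
          · simp only [h.1, zero_mul, mul_zero, Finset.sum_const_zero]
            refine mul_nonneg (mul_nonneg hC₁.le (pow_nonneg (by positivity) _)) ?_
            exact mul_nonneg (mul_nonneg (hvt01 _ _ _) (RGH_.ic_nonneg _ _)) (hHnn a j X)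
      _ = C₁ * (p.M / p.l ^ 3) ^ m * RW p θ u := by
          unfold RW
          rw [Finset.mul_sum]
          refine Finset.sum_congr rfl fun a _ => ?_
          rw [Finset.mul_sum]

end Pool.Agent.TBS
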