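import Pool.Agent.TBS.StmtsC

namespace Pool.Agent.TBS
open Pool.Agent.TBG Pool.Agent.TBL Pool.Agent.TBF

namespace SYM_

theorem mem_Ij {ι : Type} [Fintype ι] [DecidableEq ι] (m : ℕ) (e : Fin m → ι) :
    e ∈ Ij m ι ↔ Function.Injective e := by
  simp [Ij]

theorem prod_im {ι : Type} [DecidableEq ι] {m : ℕ} (t : ι → ℝ) {e : Fin m → ι}
    (he : Function.Injective e) : ∏ i ∈ im e, t i = ∏ s, t (e s) := by
  unfold im
  exact Finset.prod_image (fun a _ b _ h => he h)

theorem sum_im {ι : Type} [Fintype ι] [DecidableEq ι] (m : ℕ) (t : ι → ℝ) :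
    ∑ e ∈ Ij m ι, ∏ i ∈ im e, t i = ∑ e ∈ Ij m ι, ∏ s, t (e s) :=
  Finset.sum_congr rfl fun e he => prod_im t ((mem_Ij m e).1 he)

theorem sum_all {ι : Type} [Fintype ι] (m : ℕ) (t : ι → ℝ) :
    ∑ e : Fin m → ι, ∏ s, t (e s) = (∑ i, t i) ^ m := by
  classical
  have h := Finset.prod_univ_sum (fun _ : Fin m => (Finset.univ : Finset ι)) (fun _ i => t i)
  rw [Fintype.piFinset_univ] at h
  rw [← h]
  simp

/-- the equivalence between triples and products -/
def eq3 (ι : Type) : (Fin 3 → ι) ≃ ι × ι × ι where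
  toFun e := (e 0, e 1, e 2)
  invFun p := ![p.1, p.2.1, p.2.2]
  left_inv e := by
    funext s
    fin_cases s <;> rfl
  right_inv p := by
    rfl

theorem sum3 {ι : Type} [Fintype ι] (f : ι → ι → ι → ℝ) :
    ∑ e : Fin 3 → ι, f (e 0) (e 1) (e 2) = ∑ i, ∑ j, ∑ k, f i j k := by
  classical
  have h := Fintype.sum_equiv (eq3 ι) (fun e => f (e 0) (e 1) (e 2)) (fun p => f p.1 p.2.1 p.2.2)
    (fun e => rfl)
  rw [h, Fintype.sum_prod_type]
  refine Finset.sum_congr rfl fun i _ => ?_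
  rw [Fintype.sum_prod_type]

theorem sq_sum {ι : Type} [Fintype ι] (t : ι → ℝ) : (∑ i, t i) ^ 2 = ∑ i, ∑ j, t i * t j := by
  rw [sq, Finset.sum_mul_sum]

theorem nonneg_sum {ι : Type} [Fintype ι] [DecidableEq ι] (t : ι → ℝ) (h0 : ∀ i, 0 ≤ t i) (m : ℕ) :
    0 ≤ ∑ e ∈ Ij m ι, ∏ i ∈ im e, t i ∧ ∑ e ∈ Ij m ι, ∏ i ∈ im e, t i ≤ (∑ i, t i) ^ m := by
  constructor
  · exact Finset.sum_nonneg fun e _ => Finset.prod_nonneg fun i _ => h0 i
  · rw [sum_im, ← sum_all]
    exact Finset.sum_le_sum_of_subset_of_nonneg (Finset.subset_univ _)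
      fun e _ _ => Finset.prod_nonneg fun i _ => h0 _

theorem lower {ι : Type} [Fintype ι] [DecidableEq ι] (t : ι → ℝ) (T : ℝ)
    (h : ∀ i, 0 ≤ t i ∧ t i ≤ T) :
    (∑ i, t i) ^ 3 - 3 * T * (∑ i, t i) ^ 2 ≤ ∑ e ∈ Ij 3 ι, ∏ i ∈ im e, t i := by
  have h0 : ∀ i, 0 ≤ t i := fun i => (h i).1
  -- pointwise bound
  have key : ∀ e : Fin 3 → ι, t (e 0) * t (e 1) * t (e 2) ≤
      (if e ∈ Ij 3 ι then t (e 0) * t (e 1) * t (e 2) else 0) +
      ((if e 0 = e 1 then T * (t (e 1) * t (e 2)) else 0) +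
      (if e 0 = e 2 then T * (t (e 1) * t (e 2)) else 0) +
      (if e 1 = e 2 then T * (t (e 0) * t (e 2)) else 0)) := by
    intro e
    have hT : 0 ≤ T := (h0 (e 0)).trans (h (e 0)).2
    have p0 := h0 (e 0)
    have p1 := h0 (e 1)
    have p2 := h0 (e 2)
    have n1 : 0 ≤ (if e 0 = e 1 then T * (t (e 1) * t (e 2)) else 0) := by
      split_ifs
      · positivity
      · exact le_rfl
    have n2 : 0 ≤ (if e 0 = e 2 then T * (t (e 1) * t (e 2)) else 0) := by
      split_ifs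
      · positivity
      · exact le_rfl
    have n3 : 0 ≤ (if e 1 = e 2 then T * (t (e 0) * t (e 2)) else 0) := by
      split_ifs
      · positivity
      · exact le_rfl
    by_cases hi : e ∈ Ij 3 ι
    · rw [if_pos hi]
      linarith
    · rw [if_neg hi]
      have hne : e 0 = e 1 ∨ e 0 = e 2 ∨ e 1 = e 2 := by
        by_contra hcon
        push Not at hcon
        apply hi
        rw [mem_Ij]
        intro a b hab
        fin_cases a <;> fin_cases b <;> simp_all
      rcases hne with h1 | h1 | h1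
      · have hb : t (e 0) * t (e 1) * t (e 2) ≤ T * (t (e 1) * t (e 2)) := by
          rw [mul_assoc]
          exact mul_le_mul_of_nonneg_right (h (e 0)).2 (mul_nonneg p1 p2)
        rw [if_pos h1] at n1 ⊢
        linarith
      · have hb : t (e 0) * t (e 1) * t (e 2) ≤ T * (t (e 1) * t (e 2)) := by
          rw [mul_assoc]
          exact mul_le_mul_of_nonneg_right (h (e 0)).2 (mul_nonneg p1 p2)
        rw [if_pos h1] at n2 ⊢
        linarith
      · have hb : t (e 0) * t (e 1) * t (e 2) ≤ T * (t (e 0) * t (e 2)) := by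
          have : t (e 0) * t (e 1) * t (e 2) = t (e 1) * (t (e 0) * t (e 2)) := by ring
          rw [this]
          exact mul_le_mul_of_nonneg_right (h (e 1)).2 (mul_nonneg p0 p2)
        rw [if_pos h1] at n3 ⊢
        linarith
  have hall : (∑ i, t i) ^ 3 = ∑ e : Fin 3 → ι, t (e 0) * t (e 1) * t (e 2) := by
    rw [← sum_all]
    refine Finset.sum_congr rfl fun e _ => ?_
    rw [Fin.prod_univ_three]
  have hij : ∑ e ∈ Ij 3 ι, ∏ i ∈ im e, t i =
      ∑ e : Fin 3 → ι, (if e ∈ Ij 3 ι then t (e 0) * t (e 1) * t (e 2) else 0) := by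
    rw [sum_im, Finset.sum_ite_mem, Finset.univ_inter]
    refine Finset.sum_congr rfl fun e _ => ?_
    rw [Fin.prod_univ_three]
  have s1 : ∑ e : Fin 3 → ι, (if e 0 = e 1 then T * (t (e 1) * t (e 2)) else 0) =
      T * (∑ i, t i) ^ 2 := by
    rw [sum3 (fun i j k => if i = j then T * (t j * t k) else 0), sq_sum, Finset.mul_sum]
    rw [Finset.sum_comm]
    refine Finset.sum_congr rfl fun j _ => ?_
    rw [Finset.sum_comm, Finset.mul_sum]
    refine Finset.sum_congr rfl fun k _ => ?_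
    simp
  have s2 : ∑ e : Fin 3 → ι, (if e 0 = e 2 then T * (t (e 1) * t (e 2)) else 0) =
      T * (∑ i, t i) ^ 2 := by
    rw [sum3 (fun i j k => if i = k then T * (t j * t k) else 0), sq_sum, Finset.mul_sum]
    rw [Finset.sum_comm]
    refine Finset.sum_congr rfl fun j _ => ?_
    rw [Finset.sum_comm, Finset.mul_sum]
    refine Finset.sum_congr rfl fun k _ => ?_
    simp
  have s3 : ∑ e : Fin 3 → ι, (if e 1 = e 2 then T * (t (e 0) * t (e 2)) else 0) =
      T * (∑ i, t i) ^ 2 := by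
    rw [sum3 (fun i j k => if j = k then T * (t i * t k) else 0), sq_sum, Finset.mul_sum]
    refine Finset.sum_congr rfl fun i _ => ?_
    rw [Finset.sum_comm, Finset.mul_sum]
    refine Finset.sum_congr rfl fun k _ => ?_
    simp
  have hsum := Finset.sum_le_sum fun (e : Fin 3 → ι) (_ : e ∈ Finset.univ) => key e
  rw [Finset.sum_add_distrib, Finset.sum_add_distrib, Finset.sum_add_distrib, s1, s2, s3,
    ← hall, ← hij] at hsum
  linarith

end SYM_

theorem sym_proof : Stmt_SYM := by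
  intro ι _ _ t T h
  exact ⟨fun m => SYM_.nonneg_sum t (fun i => (h i).1) m, SYM_.lower t T h⟩

end Pool.Agent.TBS
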