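import Pool.Agent.TBS.StmtsA

/-!
# Squad TBS: module TLS (telescoping)
-/

set_option autoImplicit false

open MeasureTheory Filter Topology
open scoped ContDiff

namespace Pool.Agent.TBS

open Pool.Agent.TBG Pool.Agent.TBL Pool.Agent.TBF

namespace TLS_

variable {ι : Type}

lemma indS_mono {S T : Finset ι} (hTS : T ⊆ S) {F : (ι → E) → ℝ} (h : IndS S F) : IndS T F :=
  fun X Y hXY => h X Y fun i hi => hXY i fun hT => hi (hTS hT)

lemma indS_mul {S : Finset ι} {F G : (ι → E) → ℝ} (h1 : IndS S F) (h2 : IndS S G) :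
    IndS S (fun X => F X * G X) := fun X Y hXY => by
  simp only
  rw [h1 X Y hXY, h2 X Y hXY]

end TLS_

open TLS_ in
theorem tls_proof (hBMC : Pool.Agent.TBL.Stmt_BMC) (hAVP : Stmt_AVP) (hAVI : Stmt_AVI) :
    Stmt_TLS := by
  intro ι _ _ m n _ _ S u w hu hw hw0 hwS
  obtain ⟨hB1, hB2, hB3, hB4, hB5⟩ := hBMC
  -- algebra of averages
  have avBM : ∀ (T : Finset ι) (F : (ι → E) → ℝ), BM F → BM (Av m T F) :=
    fun T F hF => (hAVP ι m T T F F hF hF).1
  have avInd : ∀ (T : Finset ι) (F : (ι → E) → ℝ), BM F → IndS T (Av m T F) :=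
    fun T F hF => (hAVP ι m T T F F hF hF).2.1
  have avFix : ∀ (T : Finset ι) (F : (ι → E) → ℝ), BM F → IndS T F → Av m T F = F :=
    fun T F hF h => (hAVP ι m T T F F hF hF).2.2.2.2.1 h
  have avSub : ∀ (T : Finset ι) (F G : (ι → E) → ℝ), BM F → BM G →
      Av m T (fun X => F X - G X) = fun X => Av m T F X - Av m T G X :=
    fun T F G hF hG => (hAVP ι m T T F G hF hG).2.2.2.2.2.2.1
  have avSq : ∀ (T : Finset ι) (F : (ι → E) → ℝ), BM F → ∀ X,
      (Av m T F X) ^ 2 ≤ Av m T (fun Y => F Y ^ 2) X :=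
    fun T F hF => (hAVP ι m T T F F hF hF).2.2.2.2.2.2.2.2.2.2.1
  have avUn : ∀ (T T' : Finset ι) (F : (ι → E) → ℝ), BM F →
      Av m T (Av m T' F) = Av m (T ∪ T') F :=
    fun T T' F hF => (hAVP ι m T T' F F hF hF).2.2.2.2.2.2.2.2.2.2.2.1
  have avE : ∀ (F : (ι → E) → ℝ), BM F → Av m (∅ : Finset ι) F = F :=
    fun F hF => (hAVP ι m ∅ ∅ F F hF hF).2.2.2.2.2.2.2.2.2.2.2.2.1
  have hsub : ∀ F G : (ι → E) → ℝ, BM F → BM G → BM (fun X => F X - G X) :=
    fun F G hF hG => (hB1 _ F G hF hG).2.1
  have hmul : ∀ F G : (ι → E) → ℝ, BM F → BM G → BM (fun X => F X * G X) :=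
    fun F G hF hG => (hB1 _ F G hF hG).2.2.1
  have hsq : ∀ F : (ι → E) → ℝ, BM F → BM (fun X => F X ^ 2) :=
    fun F hF => (hB1 _ F F hF hF).2.2.2.1
  have hfin : IsFiniteMeasure (PiS m n S) := by
    unfold PiS
    have : ∀ i, IsFiniteMeasure (if i ∈ S then m else n) := by
      intro i
      split_ifs <;> infer_instance
    infer_instance
  have hint : ∀ F : (ι → E) → ℝ, BM F → Integrable F (PiS m n S) :=
    fun F hF => (hB1 _ F F hF hF).2.2.2.2.2.2 _
  -- induction
  have key : ∀ T : Finset ι, T ⊆ S →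
      ∫ X, w X * (u X - Av m T u X) ^ 2 ∂(PiS m n S) ≤
        ∑ i ∈ T, ∫ X, w X * (u X - Av m {i} u X) ^ 2 ∂(PiS m n S) := by
    intro T
    induction T using Finset.induction_on with
    | empty =>
      intro _
      rw [avE u hu]
      simp
    | insert i T hi ih =>
      intro hT
      have hiS : i ∈ S := hT (Finset.mem_insert_self i T)
      have hTS : T ⊆ S := (Finset.subset_insert i T).trans hT
      have hiS' : ({i} : Finset ι) ⊆ S := Finset.singleton_subset_iff.2 hiS
      have ih' := ih hTS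
      rw [Finset.sum_insert hi]
      set g : (ι → E) → ℝ := fun X => u X - Av m T u X with hg
      set h : (ι → E) → ℝ := fun X => u X - Av m {i} u X with hh
      have gBM : BM g := hsub _ _ hu (avBM _ _ hu)
      have hBM : BM h := hsub _ _ hu (avBM _ _ hu)
      have agBM : BM (Av m {i} g) := avBM _ _ gBM
      have e1 : ∀ X, u X - Av m (insert i T) u X = h X + Av m {i} g X := by
        intro X
        have e2 : Av m {i} g X = Av m {i} u X - Av m {i} (Av m T u) X := by
          rw [hg, avSub _ _ _ hu (avBM _ _ hu)]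
        have e3 : Av m {i} (Av m T u) = Av m (insert i T) u := by
          rw [avUn _ _ _ hu]
          rfl
        rw [e2, e3, hh]
        ring
      have e4 : Av m {i} h = fun _ => 0 := by
        rw [hh, avSub _ _ _ hu (avBM _ _ hu), avUn _ _ _ hu, Finset.union_self]
        funext X
        ring
      have wi : IndS {i} w := indS_mono hiS' hwS
      -- cross term
      have c1 : ∫ X, h X * (w X * Av m {i} g X) ∂(PiS m n S) = 0 := by
        rw [(hAVI ι m n S {i} h (fun X => w X * Av m {i} g X) hBM (hmul _ _ hw agBM) hiS').1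
          (indS_mul wi (avInd _ _ gBM)), e4]
        simp
      -- contraction
      have c2 : ∫ X, w X * (Av m {i} g X) ^ 2 ∂(PiS m n S) ≤
          ∫ X, w X * g X ^ 2 ∂(PiS m n S) := by
        have a1 : ∫ X, w X * (Av m {i} g X) ^ 2 ∂(PiS m n S) ≤
            ∫ X, Av m {i} (fun Y => g Y ^ 2) X * w X ∂(PiS m n S) := by
          refine integral_mono (hint _ (hmul _ _ hw (hsq _ agBM)))
            (hint _ (hmul _ _ (avBM _ _ (hsq _ gBM)) hw)) fun X => ?_
          simp only
          rw [mul_comm]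
          exact mul_le_mul_of_nonneg_right (avSq _ _ gBM X) (hw0 X)
        rw [← (hAVI ι m n S {i} (fun Y => g Y ^ 2) w (hsq _ gBM) hw hiS').1 wi] at a1
        refine a1.trans (le_of_eq ?_)
        congr 1
        funext X
        ring
      have e5 : ∫ X, w X * (u X - Av m (insert i T) u X) ^ 2 ∂(PiS m n S) =
          (∫ X, w X * h X ^ 2 ∂(PiS m n S)) + 2 * (∫ X, h X * (w X * Av m {i} g X) ∂(PiS m n S)) +
            ∫ X, w X * (Av m {i} g X) ^ 2 ∂(PiS m n S) := by
        have i1 : Integrable (fun X => w X * h X ^ 2) (PiS m n S) :=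
          hint _ (hmul _ _ hw (hsq _ hBM))
        have i2 : Integrable (fun X => 2 * (h X * (w X * Av m {i} g X))) (PiS m n S) :=
          (hint _ (hmul _ _ hBM (hmul _ _ hw agBM))).const_mul 2
        have i3 : Integrable (fun X => w X * (Av m {i} g X) ^ 2) (PiS m n S) :=
          hint _ (hmul _ _ hw (hsq _ agBM))
        have i4 : Integrable (fun X => w X * h X ^ 2 + 2 * (h X * (w X * Av m {i} g X)))
          (PiS m n S) := i1.add i2
        rw [← integral_const_mul, ← integral_add i1 i2, ← integral_add i4 i3]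
        refine integral_congr_ae (Eventually.of_forall fun X => ?_)
        simp only
        rw [e1]
        ring
      rw [e5, c1]
      linarith
  exact key S subset_rfl

end Pool.Agent.TBS
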