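import Pool.Agent.TBS.StmtsB

set_option autoImplicit false

namespace Pool.Agent.TBS

open Pool.Agent.TBG Pool.Agent.TBL Pool.Agent.TBF
open MeasureTheory

namespace TLU_

theorem ic_nonneg (Q : Set E) (x : E) : 0 ≤ ic Q x := by
  unfold ic
  exact Set.indicator_nonneg (fun _ _ => zero_le_one) x

theorem ic_le_one (Q : Set E) (x : E) : ic Q x ≤ 1 := by
  unfold ic
  exact Set.indicator_le_self' (fun _ _ => zero_le_one) x

theorem ic_meas {Q : Set E} (hQ : MeasurableSet Q) : Measurable (ic Q) := by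
  unfold ic
  exact measurable_const.indicator hQ

theorem ic_mem {Q : Set E} {x : E} (h : x ∈ Q) : ic Q x = 1 := by
  unfold ic
  simp [h]

variable {ι : Type} [Fintype ι] [DecidableEq ι]

/-- the product of the indicators -/
noncomputable def W (Q : Set E) (S : Finset ι) (X : ι → E) : ℝ := ∏ i ∈ S, ic Q (X i)

omit [Fintype ι] [DecidableEq ι] in
theorem W_nonneg (Q : Set E) (S : Finset ι) (X : ι → E) : 0 ≤ W Q S X :=
  Finset.prod_nonneg fun _ _ => ic_nonneg _ _

omit [Fintype ι] [DecidableEq ι] in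
theorem W_le_one (Q : Set E) (S : Finset ι) (X : ι → E) : W Q S X ≤ 1 :=
  Finset.prod_le_one (fun _ _ => ic_nonneg _ _) (fun _ _ => ic_le_one _ _)

omit [Fintype ι] [DecidableEq ι] in
theorem W_bm {Q : Set E} (hQ : MeasurableSet Q) (S : Finset ι) : BM (W Q S) := by
  refine ⟨?_, 1, fun X => ?_⟩
  · unfold W
    exact Finset.measurable_prod _ fun i _ => (ic_meas hQ).comp (measurable_pi_apply i)
  · rw [abs_of_nonneg (W_nonneg Q S X)]
    exact W_le_one Q S X

theorem W_update (Q : Set E) (S : Finset ι) (X : ι → E) {k : ι} (hk : k ∈ S) (x : E) :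
    W Q S (Function.update X k x) = ic Q x * W Q (S.erase k) X := by
  unfold W
  rw [← Finset.mul_prod_erase S _ hk]
  congr 1
  · simp
  · refine Finset.prod_congr rfl fun i hi => ?_
    rw [Function.update_of_ne (Finset.ne_of_mem_erase hi)]

theorem IO_eq (p : Par) (m : Measure E) (F : (ι → E) → ℝ) :
    IO p F = ∫ X, F X ∂(PiS m (mO p.L) (∅ : Finset ι)) := by
  simp [IO, PiS]

/-- removing an average -/
theorem key (hBMC : Pool.Agent.TBL.Stmt_BMC) (hMSY : Stmt_MSY) (hPSF : Stmt_PSF) (hAVP : Stmt_AVP)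
    {C : ℝ} {p : Par} {β θ : E → E → ℝ} (hS : Sys C p β θ) {a : E} (ha : a ∈ p.Gr)
    (S : Finset ι) {k : ι} (hk : k ∈ S) (w G : (ι → E) → ℝ) (hw : BM w) (hw0 : ∀ X, 0 ≤ w X)
    (hwS : IndS S w) (hG : BM G) (hG0 : ∀ X, 0 ≤ G X) :
    IO p (fun X => W (Qb a (4 * p.l)) S X * (w X * Av (tm (θ a)) {k} G X)) ≤
      512 * C * IO p (fun X => W (Qb a (4 * p.l)) S X * (w X * G X)) := by
  obtain ⟨hl1, hfin, -, -, hQb, -, hprob, -, htm, hic, -, -⟩ := hMSY C p β θ hS
  haveI := hfin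
  haveI := hprob a
  have hl0 : 0 < p.l := by linarith
  obtain ⟨hB1, -, -, hB4, -⟩ := hBMC
  set Q := Qb a (4 * p.l) with hQdef
  have hQm : MeasurableSet Q := (hQb a (4 * p.l)).1
  have hA := hAVP ι (tm (θ a)) {k} {k} G G hG hG
  have hAbm : BM (Av (tm (θ a)) {k} G) := hA.1
  have hAind : IndS {k} (Av (tm (θ a)) {k} G) := hA.2.1
  have hAform : ∀ X, Av (tm (θ a)) {k} G X = ∫ y, G (Function.update X k y) ∂(tm (θ a)) :=
    fun X => hA.2.2.2.2.2.2.2.2.2.2.2.2.2 k X
  have hWbm : BM (W Q S) := W_bm hQm S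
  have hF1 : BM (fun X => W Q S X * (w X * Av (tm (θ a)) {k} G X)) :=
    (hB1 _ _ _ hWbm (hB1 _ _ _ hw hAbm).2.2.1).2.2.1
  have hF2 : BM (fun X => W Q S X * (w X * G X)) :=
    (hB1 _ _ _ hWbm (hB1 _ _ _ hw hG).2.2.1).2.2.1
  have hp0 := hPSF ι (tm (θ a)) (mO p.L) ∅
  have hp1 := hPSF ι (tm (θ a)) (mO p.L) (insert k ∅)
  haveI := hp1.1
  rw [IO_eq p (tm (θ a)), IO_eq p (tm (θ a)), (hp0.2 _ hF1).1 k (by simp),
    (hp0.2 _ hF2).1 k (by simp), ← integral_const_mul]
  have hBI1 := (hp0.2 _ hF1).2.2.1 k (by simp)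
  have hBI2 := (hp0.2 _ hF2).2.2.1 k (by simp)
  refine integral_mono ((hB1 _ _ _ hBI1 hBI1).2.2.2.2.2.2 _)
    (((hB1 _ _ _ hBI2 hBI2).2.2.2.2.2.2 _).const_mul _) fun X => ?_
  show (∫ x, W Q S (Function.update X k x) * (w (Function.update X k x) *
      Av (tm (θ a)) {k} G (Function.update X k x)) ∂(mO p.L)) ≤
    512 * C * ∫ x, W Q S (Function.update X k x) * (w (Function.update X k x) *
      G (Function.update X k x)) ∂(mO p.L)
  have hwu : ∀ x, w (Function.update X k x) = w X := fun x =>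
    hwS _ _ fun i hi => Function.update_of_ne (by rintro rfl; exact hi hk) _ _
  have hAu : ∀ x, Av (tm (θ a)) {k} G (Function.update X k x) = Av (tm (θ a)) {k} G X := fun x =>
    hAind _ _ fun i hi => Function.update_of_ne (fun h => hi (by simp [h])) _ _
  have hvol : ∫ x, ic Q x ∂(mO p.L) = 512 * p.l ^ 3 := by
    have h1 := hic a ha (4 * p.l) (fun _ => 1) (by linarith)
    simp only [mul_one] at h1
    rw [hQdef, h1]
    rw [MeasureTheory.setIntegral_const, smul_eq_mul, mul_one, Measure.real,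
      (hQb a (4 * p.l)).2 (by linarith), ENNReal.toReal_ofReal (by positivity)]
    ring
  have hL : ∫ x, W Q S (Function.update X k x) * (w (Function.update X k x) *
      Av (tm (θ a)) {k} G (Function.update X k x)) ∂(mO p.L) =
      512 * p.l ^ 3 * (W Q (S.erase k) X * (w X * Av (tm (θ a)) {k} G X)) := by
    have : ∀ x, W Q S (Function.update X k x) * (w (Function.update X k x) *
      Av (tm (θ a)) {k} G (Function.update X k x)) =
      ic Q x * (W Q (S.erase k) X * (w X * Av (tm (θ a)) {k} G X)) := by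
      intro x
      rw [W_update Q S X hk, hwu, hAu]
      ring
    simp_rw [this]
    rw [integral_mul_const, hvol]
  have hR : ∫ x, W Q S (Function.update X k x) * (w (Function.update X k x) *
      G (Function.update X k x)) ∂(mO p.L) =
      W Q (S.erase k) X * w X * ∫ x, ic Q x * G (Function.update X k x) ∂(mO p.L) := by
    have : ∀ x, W Q S (Function.update X k x) * (w (Function.update X k x) *
      G (Function.update X k x)) =
      W Q (S.erase k) X * w X * (ic Q x * G (Function.update X k x)) := by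
      intro x
      rw [W_update Q S X hk, hwu]
      ring
    simp_rw [this]
    rw [integral_const_mul]
  rw [hL, hR, hAform X, htm a ha]
  -- comparison of the integrals
  have hgu : BM (fun x => G (Function.update X k x)) :=
    hB4 _ _ G (fun x => Function.update X k x) hG (measurable_update X)
  have hθbm : BM (θ a) := by
    refine ⟨hS.θm a, C / p.l ^ 3, fun x => ?_⟩
    rw [abs_of_nonneg (hS.θ0 a x)]
    exact hS.θb a x
  have hicbm : BM (ic Q) := by
    refine ⟨ic_meas hQm, 1, fun x => ?_⟩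
    rw [abs_of_nonneg (ic_nonneg Q x)]
    exact ic_le_one Q x
  have h1 : BM (fun x => θ a x * G (Function.update X k x)) := (hB1 _ _ _ hθbm hgu).2.2.1
  have h2 : BM (fun x => ic Q x * G (Function.update X k x)) := (hB1 _ _ _ hicbm hgu).2.2.1
  have hcmp : ∫ x, θ a x * G (Function.update X k x) ∂(mO p.L) ≤
      C / p.l ^ 3 * ∫ x, ic Q x * G (Function.update X k x) ∂(mO p.L) := by
    rw [← integral_const_mul]
    refine integral_mono ((hB1 _ _ _ h1 h1).2.2.2.2.2.2 _)
      (((hB1 _ _ _ h2 h2).2.2.2.2.2.2 _).const_mul _) fun x => ?_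
    show θ a x * G (Function.update X k x) ≤ C / p.l ^ 3 * (ic Q x * G (Function.update X k x))
    by_cases hx : θ a x = 0
    · rw [hx, zero_mul]
      have hC : 0 ≤ C / p.l ^ 3 := (hS.θ0 a x).trans (hS.θb a x)
      exact mul_nonneg hC (mul_nonneg (ic_nonneg _ _) (hG0 _))
    · have h3 : x ∈ Q := by
        have h4 := hS.θsp a x hx
        intro c
        exact (h4 c).trans (by linarith)
      rw [ic_mem h3, one_mul]
      exact mul_le_mul_of_nonneg_right (hS.θb a x) (hG0 _)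
  have hWw : 0 ≤ W Q (S.erase k) X * w X := mul_nonneg (W_nonneg _ _ _) (hw0 X)
  have hl3 : 0 < p.l ^ 3 := by positivity
  calc 512 * p.l ^ 3 * (W Q (S.erase k) X * (w X * ∫ x, θ a x * G (Function.update X k x) ∂(mO p.L)))
      = 512 * p.l ^ 3 * ((W Q (S.erase k) X * w X) *
        ∫ x, θ a x * G (Function.update X k x) ∂(mO p.L)) := by ring
    _ ≤ 512 * p.l ^ 3 * ((W Q (S.erase k) X * w X) *
        (C / p.l ^ 3 * ∫ x, ic Q x * G (Function.update X k x) ∂(mO p.L))) := by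
        refine mul_le_mul_of_nonneg_left ?_ (by positivity)
        exact mul_le_mul_of_nonneg_left hcmp hWw
    _ = 512 * C * (W Q (S.erase k) X * w X * ∫ x, ic Q x * G (Function.update X k x) ∂(mO p.L)) := by
        field_simp

/-- the induction -/
theorem ind (hBMC : Pool.Agent.TBL.Stmt_BMC) (hMSY : Stmt_MSY) (hPSF : Stmt_PSF) (hAVP : Stmt_AVP)
    {C : ℝ} {p : Par} {β θ : E → E → ℝ} (hS : Sys C p β θ) {a : E} (ha : a ∈ p.Gr)
    (S : Finset ι) (u w : (ι → E) → ℝ) (hu : BM u) (hw : BM w) (hw0 : ∀ X, 0 ≤ w X)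
    (hwS : IndS S w) (T : Finset ι) (hT : T ⊆ S) :
    IO p (fun X => W (Qb a (4 * p.l)) S X * (w X * (u X - Av (tm (θ a)) T u X) ^ 2)) ≤
      (2 + 1024 * max C 1) ^ T.card * ∑ k ∈ T,
        IO p (fun X => W (Qb a (4 * p.l)) S X * (w X * (u X - Av (tm (θ a)) {k} u X) ^ 2)) := by
  obtain ⟨hl1, hfin, -, -, hQb, -, hprob, -, -, -, -, -⟩ := hMSY C p β θ hS
  haveI := hfin
  haveI := hprob a
  obtain ⟨hB1, -, -, hB4, -⟩ := id hBMC
  have hQm : MeasurableSet (Qb a (4 * p.l)) := (hQb a (4 * p.l)).1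
  have hWbm : BM (W (Qb a (4 * p.l)) S) := W_bm hQm S
  have hp0 := hPSF ι (tm (θ a)) (mO p.L) ∅
  haveI := hp0.1
  have hIOnn : ∀ F : (ι → E) → ℝ, (∀ X, 0 ≤ F X) →
      0 ≤ IO p (fun X => W (Qb a (4 * p.l)) S X * (w X * F X)) := by
    intro F hF
    unfold IO
    exact integral_nonneg fun X => mul_nonneg (W_nonneg _ _ _) (mul_nonneg (hw0 X) (hF X))
  have hWF : ∀ F : (ι → E) → ℝ, BM F →
      BM (fun X => W (Qb a (4 * p.l)) S X * (w X * F X)) := fun F hF =>
    (hB1 _ _ _ hWbm (hB1 _ _ _ hw hF).2.2.1).2.2.1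
  have hint : ∀ F : (ι → E) → ℝ, BM F →
      Integrable (fun X => W (Qb a (4 * p.l)) S X * (w X * F X))
        (PiS (tm (θ a)) (mO p.L) (∅ : Finset ι)) := fun F hF =>
    (hB1 _ _ _ (hWF F hF) (hWF F hF)).2.2.2.2.2.2 _
  have hAbm : ∀ (T : Finset ι) (F : (ι → E) → ℝ), BM F → BM (Av (tm (θ a)) T F) := fun T F hF =>
    (hAVP ι (tm (θ a)) T T F F hF hF).1
  have hD : ∀ T : Finset ι, BM (fun X => u X - Av (tm (θ a)) T u X) := fun T =>
    (hB1 _ _ _ hu (hAbm T u hu)).2.1
  have hD2 : ∀ T : Finset ι, BM (fun X => (u X - Av (tm (θ a)) T u X) ^ 2) := fun T =>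
    (hB1 _ _ _ (hD T) (hD T)).2.2.2.1
  induction T using Finset.induction_on with
  | empty =>
    have h0 : Av (tm (θ a)) (∅ : Finset ι) u = u :=
      (hAVP ι (tm (θ a)) ∅ ∅ u u hu hu).2.2.2.2.2.2.2.2.2.2.2.2.1
    rw [h0]
    simp [IO]
  | insert k T hkT ih =>
    have hkS : k ∈ S := hT (Finset.mem_insert_self k T)
    have hTS : T ⊆ S := fun i hi => hT (Finset.mem_insert_of_mem hi)
    have ih' := ih hTS
    rw [Finset.sum_insert hkT, Finset.card_insert_of_notMem hkT]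
    -- the pointwise inequality
    have hdec : ∀ X, (u X - Av (tm (θ a)) (insert k T) u X) ^ 2 ≤
        2 * (u X - Av (tm (θ a)) {k} u X) ^ 2 +
        2 * Av (tm (θ a)) {k} (fun Y => (u Y - Av (tm (θ a)) T u Y) ^ 2) X := by
      intro X
      have h1 : Av (tm (θ a)) {k} (fun Y => u Y - Av (tm (θ a)) T u Y) =
          fun Y => Av (tm (θ a)) {k} u Y - Av (tm (θ a)) {k} (Av (tm (θ a)) T u) Y :=
        (hAVP ι (tm (θ a)) {k} {k} u (Av (tm (θ a)) T u) hu (hAbm T u hu)).2.2.2.2.2.2.1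
      have h2 : Av (tm (θ a)) {k} (Av (tm (θ a)) T u) = Av (tm (θ a)) (insert k T) u := by
        have h3 := (hAVP ι (tm (θ a)) {k} T u u hu hu).2.2.2.2.2.2.2.2.2.2.2.1
        rw [h3, Finset.insert_eq]
      have h4 : (Av (tm (θ a)) {k} (fun Y => u Y - Av (tm (θ a)) T u Y) X) ^ 2 ≤
          Av (tm (θ a)) {k} (fun Y => (u Y - Av (tm (θ a)) T u Y) ^ 2) X :=
        (hAVP ι (tm (θ a)) {k} {k} _ _ (hD T) (hD T)).2.2.2.2.2.2.2.2.2.2.1 X
      have h5 : Av (tm (θ a)) {k} (fun Y => u Y - Av (tm (θ a)) T u Y) X =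
          Av (tm (θ a)) {k} u X - Av (tm (θ a)) (insert k T) u X := by
        rw [h1, h2]
      rw [h5] at h4
      nlinarith [sq_nonneg ((u X - Av (tm (θ a)) {k} u X) -
        (Av (tm (θ a)) {k} u X - Av (tm (θ a)) (insert k T) u X))]
    have hk2 : BM (Av (tm (θ a)) {k} (fun Y => (u Y - Av (tm (θ a)) T u Y) ^ 2)) :=
      hAbm {k} _ (hD2 T)
    have hstep : IO p (fun X => W (Qb a (4 * p.l)) S X *
        (w X * (u X - Av (tm (θ a)) (insert k T) u X) ^ 2)) ≤
        2 * IO p (fun X => W (Qb a (4 * p.l)) S X * (w X * (u X - Av (tm (θ a)) {k} u X) ^ 2)) +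
        2 * IO p (fun X => W (Qb a (4 * p.l)) S X *
          (w X * Av (tm (θ a)) {k} (fun Y => (u Y - Av (tm (θ a)) T u Y) ^ 2) X)) := by
      rw [IO_eq p (tm (θ a)), IO_eq p (tm (θ a)), IO_eq p (tm (θ a)), ← integral_const_mul,
        ← integral_const_mul, ← integral_add ((hint _ (hD2 {k})).const_mul 2)
          ((hint _ hk2).const_mul 2)]
      refine integral_mono (hint _ (hD2 (insert k T)))
        (((hint _ (hD2 {k})).const_mul 2).add ((hint _ hk2).const_mul 2)) fun X => ?_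
      show W (Qb a (4 * p.l)) S X * (w X * (u X - Av (tm (θ a)) (insert k T) u X) ^ 2) ≤
        2 * (W (Qb a (4 * p.l)) S X * (w X * (u X - Av (tm (θ a)) {k} u X) ^ 2)) +
        2 * (W (Qb a (4 * p.l)) S X *
          (w X * Av (tm (θ a)) {k} (fun Y => (u Y - Av (tm (θ a)) T u Y) ^ 2) X))
      have hWw : 0 ≤ W (Qb a (4 * p.l)) S X * w X := mul_nonneg (W_nonneg _ _ _) (hw0 X)
      have := mul_le_mul_of_nonneg_left (hdec X) hWw
      linarith
    have hkey := key hBMC hMSY hPSF hAVP hS ha S hkS w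
      (fun Y => (u Y - Av (tm (θ a)) T u Y) ^ 2) hw hw0 hwS (hD2 T) (fun Y => sq_nonneg _)
    have hJk := hIOnn (fun X => (u X - Av (tm (θ a)) {k} u X) ^ 2) (fun X => sq_nonneg _)
    have hJT := hIOnn (fun X => (u X - Av (tm (θ a)) T u X) ^ 2) (fun X => sq_nonneg _)
    have hSg : 0 ≤ ∑ i ∈ T,
        IO p (fun X => W (Qb a (4 * p.l)) S X * (w X * (u X - Av (tm (θ a)) {i} u X) ^ 2)) :=
      Finset.sum_nonneg fun i _ => hIOnn (fun X => (u X - Av (tm (θ a)) {i} u X) ^ 2)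
        (fun X => sq_nonneg _)
    set J0 := IO p (fun X => W (Qb a (4 * p.l)) S X *
        (w X * (u X - Av (tm (θ a)) (insert k T) u X) ^ 2))
    set Jk := IO p (fun X => W (Qb a (4 * p.l)) S X * (w X * (u X - Av (tm (θ a)) {k} u X) ^ 2))
    set JA := IO p (fun X => W (Qb a (4 * p.l)) S X *
          (w X * Av (tm (θ a)) {k} (fun Y => (u Y - Av (tm (θ a)) T u Y) ^ 2) X))
    set JT := IO p (fun X => W (Qb a (4 * p.l)) S X * (w X * (u X - Av (tm (θ a)) T u X) ^ 2))
    set Sg := ∑ i ∈ T,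
        IO p (fun X => W (Qb a (4 * p.l)) S X * (w X * (u X - Av (tm (θ a)) {i} u X) ^ 2))
    have hC1 : C ≤ max C 1 := le_max_left _ _
    have hC2 : 1 ≤ max C 1 := le_max_right _ _
    set D := max C 1
    have hq : 1 ≤ (2 + 1024 * D) ^ T.card := one_le_pow₀ (by linarith)
    set q := (2 + 1024 * D) ^ T.card
    have e1 : JA ≤ 512 * D * (q * Sg) := by
      have h1 : 512 * C * JT ≤ 512 * D * JT :=
        mul_le_mul_of_nonneg_right (by linarith) hJT
      have h2 : 512 * D * JT ≤ 512 * D * (q * Sg) :=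
        mul_le_mul_of_nonneg_left ih' (by linarith)
      exact hkey.trans (h1.trans h2)
    have e2 : (2 + 1024 * D) ^ (T.card + 1) = (2 + 1024 * D) * q := by rw [pow_succ']
    rw [e2]
    have e3 : 0 ≤ (q - 1) * Jk := mul_nonneg (by linarith) hJk
    have e4 : 0 ≤ q * Sg := mul_nonneg (by linarith) hSg
    have e5 : 0 ≤ D * (q * Jk) := mul_nonneg (by linarith) (mul_nonneg (by linarith) hJk)
    nlinarith

end TLU_

open TLU_ in
theorem tlu_proof (hBMC : Pool.Agent.TBL.Stmt_BMC) (hMSY : Stmt_MSY) (hPSF : Stmt_PSF)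
    (hAVP : Stmt_AVP) (_hAVI : Stmt_AVI) (_hDNS : Stmt_DNS) : Stmt_TLU := by
  intro C m
  refine ⟨(2 + 1024 * max C 1) ^ m, ?_, ?_⟩
  · have : (1 : ℝ) ≤ max C 1 := le_max_right _ _
    positivity
  · intro ι _ _ p β θ u w S hS a ha hcard hu hw hw0 hwS
    have h := ind hBMC hMSY hPSF hAVP hS ha S u w hu hw hw0 hwS S (Finset.Subset.refl S)
    rw [hcard] at h
    exact h

end Pool.Agent.TBS
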