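import Pool.Agent.TBS.StmtsB

/-!
# Squad TBS, module TLW: sums over tuples
-/

set_option autoImplicit false

open MeasureTheory Filter Topology
open scoped ContDiff

namespace Pool.Agent.TBS

open Pool.Agent.TBG Pool.Agent.TBL Pool.Agent.TBF

theorem tlw_proof (hBMC : Pool.Agent.TBL.Stmt_BMC) (hMSY : Stmt_MSY) (hAVP : Stmt_AVP) (hVTP : Stmt_VTP)
    (hTUP : Stmt_TUP) (hTLU : Stmt_TLU) (hCTI : Stmt_CTI) : Stmt_TLW := by
  intro C m
  obtain ⟨C₀, hC0, hC⟩ := hTLU C (m + 1)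
  refine ⟨C₀ * ((m : ℝ) + 1), by positivity, ?_⟩
  intro ι _ _ p β θ u hs hub a ha
  obtain ⟨hl1, hfin, -, -, hQ, hsub, hprob, -, -, -, -⟩ := hMSY C p β θ hs
  have hl : 0 < p.l := by linarith
  have hM : 0 < p.M := by linarith [hs.hM]
  have hmul : ∀ {α : Type} [MeasurableSpace α] {F G : α → ℝ}, BM F → BM G → BM (fun X => F X * G X) :=
    fun {α} _ {F G} hF hG => (hBMC.1 α F G hF hG).2.2.1
  have hsb : ∀ {α : Type} [MeasurableSpace α] {F G : α → ℝ}, BM F → BM G → BM (fun X => F X - G X) :=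
    fun {α} _ {F G} hF hG => (hBMC.1 α F G hF hG).2.1
  have hsq : ∀ {α : Type} [MeasurableSpace α] {F : α → ℝ}, BM F → BM (fun X => F X ^ 2) :=
    fun {α} _ {F} hF => (hBMC.1 α F F hF hF).2.2.2.1
  have hcm : ∀ {α : Type} [MeasurableSpace α] {F : α → ℝ} (t : ℝ), BM F → BM (fun X => t * F X) :=
    fun {α} _ {F} t hF => (hBMC.1 α F F hF hF).2.2.2.2.2.1 t
  have hint : ∀ {α : Type} [MeasurableSpace α] {F : α → ℝ} (μ : Measure α) [IsFiniteMeasure μ], BM F →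
      Integrable F μ := fun {α} _ {F} μ _ hF => (hBMC.1 α F F hF hF).2.2.2.2.2.2 μ
  have hcomp : ∀ {α γ : Type} [MeasurableSpace α] [MeasurableSpace γ] {F : α → ℝ} {f : γ → α}, BM F →
      Measurable f → BM (fun X => F (f X)) := fun {α γ} _ _ {F f} hF hf => hBMC.2.2.2.1 α γ F f hF hf
  have hsum : ∀ {α J : Type} [MeasurableSpace α] (s : Finset J) (F : J → α → ℝ), (∀ q ∈ s, BM (F q)) →
      BM (fun X => ∑ q ∈ s, F q X) := fun {α J} _ s F h => hBMC.2.2.1 α J s F h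
  have hP0 : IsFiniteMeasure (PiS (mO p.L) (mO p.L) (∅ : Finset ι)) := by
    unfold PiS
    have : ∀ i : ι, IsFiniteMeasure (if i ∈ (∅ : Finset ι) then (mO p.L) else (mO p.L)) := by
      intro i
      split_ifs <;> infer_instance
    infer_instance
  have hIO : ∀ {F : (ι → E) → ℝ}, BM F → Integrable F (PiS (mO p.L) (mO p.L) (∅ : Finset ι)) :=
    fun hF => hint _ hF
  have hicb : ∀ (a : E) (r : ℝ), BM (ic (Qb a r)) := by
    intro a r
    refine ⟨(measurable_const.indicator (hQ a r).1), 1, fun x => ?_⟩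
    unfold ic Set.indicator
    split_ifs <;> simp
  have hprodb : ∀ (S : Finset ι), BM (fun X : ι → E => ∏ i ∈ S, ic (Qb a (4 * p.l)) (X i)) := by
    intro S
    induction S using Finset.induction_on with
    | empty => simpa using hBMC.2.1 (ι → E) 1
    | insert i S hi ih =>
      simp_rw [Finset.prod_insert hi]
      exact hmul (hcomp (hicb a _) (measurable_pi_apply i)) ih
  have := hprob a
  have hAb : ∀ (S : Finset ι), BM (Av (tm (θ a)) S u) := fun S => (hAVP ι (tm (θ a)) S S u u hub hub).1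
  have hdvb : ∀ S : Finset ι, BM (fun X => (u X - Av (tm (θ a)) S u X) ^ 2) := fun S => hsq (hsb hub (hAb S))
  have hvb : ∀ S, BM (vt p a S : (ι → E) → ℝ) := fun S => (hVTP ι C p β θ hs a S).1
  have hv0 : ∀ (S : Finset ι) X, 0 ≤ vt p a S X := by
    intro S X
    rcases ((hVTP ι C p β θ hs a S).2.2.1 X).1 with h | h
    · exact h.ge
    · rw [h]
      exact zero_le_one
  have hcard : ∀ e ∈ Ij (m + 1) ι, (im e).card = m + 1 := fun e he => (hTUP ι).2.2.2.2.2.1 (m + 1) e he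
  -- one tuple
  have h1 : ∀ e ∈ Ij (m + 1) ι, IO p (fun X => (∏ i ∈ im e, ic (Qb a (4 * p.l)) (X i)) *
      (vt p a (im e) X * (u X - Av (tm (θ a)) (im e) u X) ^ 2)) ≤
      C₀ * IO p (fun X => (∏ i ∈ im e, ic (Qb a (4 * p.l)) (X i)) *
        (vt p a (im e) X * ∑ i ∈ im e, (u X - Av (tm (θ a)) {i} u X) ^ 2)) := by
    intro e he
    refine (hC ι p β θ u (vt p a (im e)) (im e) hs a ha (hcard e he) hub (hvb _) (hv0 _)
      (hVTP ι C p β θ hs a (im e)).2.1).trans (le_of_eq ?_)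
    congr 1
    unfold IO
    rw [← integral_finsetSum]
    · congr 1
      funext X
      simp only [Finset.mul_sum]
    · intro k _
      exact hIO (hmul (hprodb _) (hmul (hvb _) (hdvb _)))
  have hb1 : ∀ e : Fin (m + 1) → ι, BM (fun X : ι → E => (∏ i ∈ im e, ic (Qb a (4 * p.l)) (X i)) *
        (vt p a (im e) X * ∑ i ∈ im e, (u X - Av (tm (θ a)) {i} u X) ^ 2)) := fun e =>
    hmul (hprodb _) (hmul (hvb _) (hsum _ _ fun i _ => hdvb {i}))
  have hb2 : ∀ i : ι, BM (fun X : ι → E => vt p a {i} X * ic (Qb a (4 * p.l)) (X i) *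
      (u X - Av (tm (θ a)) {i} u X) ^ 2) := fun i =>
    hmul (hmul (hvb {i}) (hcomp (hicb a _) (measurable_pi_apply i))) (hdvb {i})
  have h2 : ∑ e ∈ Ij (m + 1) ι, IO p (fun X => (∏ i ∈ im e, ic (Qb a (4 * p.l)) (X i)) *
        (vt p a (im e) X * ∑ i ∈ im e, (u X - Av (tm (θ a)) {i} u X) ^ 2)) ≤
      ((m : ℝ) + 1) * p.M ^ m * ∑ i, IO p (fun X => vt p a {i} X * ic (Qb a (4 * p.l)) (X i) *
        (u X - Av (tm (θ a)) {i} u X) ^ 2) := by
    have e1 : ∑ e ∈ Ij (m + 1) ι, IO p (fun X => (∏ i ∈ im e, ic (Qb a (4 * p.l)) (X i)) *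
        (vt p a (im e) X * ∑ i ∈ im e, (u X - Av (tm (θ a)) {i} u X) ^ 2)) =
        IO p (fun X => ∑ e ∈ Ij (m + 1) ι, (∏ i ∈ im e, ic (Qb a (4 * p.l)) (X i)) *
        (vt p a (im e) X * ∑ i ∈ im e, (u X - Av (tm (θ a)) {i} u X) ^ 2)) := by
      unfold IO
      rw [integral_finsetSum]
      intro e _
      exact hIO (hb1 e)
    have e2 : ((m : ℝ) + 1) * p.M ^ m * ∑ i, IO p (fun X => vt p a {i} X * ic (Qb a (4 * p.l)) (X i) *
        (u X - Av (tm (θ a)) {i} u X) ^ 2) =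
        IO p (fun X => ((m : ℝ) + 1) * p.M ^ m * ∑ i, vt p a {i} X * ic (Qb a (4 * p.l)) (X i) *
        (u X - Av (tm (θ a)) {i} u X) ^ 2) := by
      unfold IO
      rw [integral_const_mul, integral_finsetSum]
      intro i _
      exact hIO (hb2 i)
    rw [e1, e2]
    unfold IO
    refine integral_mono (hIO (hsum _ _ fun e _ => hb1 e)) (hIO (hcm _ (hsum _ _ fun i _ => hb2 i))) ?_
    intro X
    show ∑ e ∈ Ij (m + 1) ι, (∏ i ∈ im e, ic (Qb a (4 * p.l)) (X i)) *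
        (vt p a (im e) X * ∑ i ∈ im e, (u X - Av (tm (θ a)) {i} u X) ^ 2) ≤
      ((m : ℝ) + 1) * p.M ^ m * ∑ i, vt p a {i} X * ic (Qb a (4 * p.l)) (X i) *
        (u X - Av (tm (θ a)) {i} u X) ^ 2
    refine (hCTI C m ι p β θ hs a (4 * p.l) X (fun i => (u X - Av (tm (θ a)) {i} u X) ^ 2)
      (by linarith) (fun i => sq_nonneg _)).trans (le_of_eq ?_)
    congr 1
    refine Finset.sum_congr rfl fun i _ => ?_
    ring
  calc ∑ e ∈ Ij (m + 1) ι, IO p (fun X => (∏ i ∈ im e, ic (Qb a (4 * p.l)) (X i)) *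
      (vt p a (im e) X * (u X - Av (tm (θ a)) (im e) u X) ^ 2))
      ≤ ∑ e ∈ Ij (m + 1) ι, C₀ * IO p (fun X => (∏ i ∈ im e, ic (Qb a (4 * p.l)) (X i)) *
        (vt p a (im e) X * ∑ i ∈ im e, (u X - Av (tm (θ a)) {i} u X) ^ 2)) := Finset.sum_le_sum h1
    _ = C₀ * ∑ e ∈ Ij (m + 1) ι, IO p (fun X => (∏ i ∈ im e, ic (Qb a (4 * p.l)) (X i)) *
        (vt p a (im e) X * ∑ i ∈ im e, (u X - Av (tm (θ a)) {i} u X) ^ 2)) := by rw [Finset.mul_sum]
    _ ≤ C₀ * (((m : ℝ) + 1) * p.M ^ m * ∑ i, IO p (fun X => vt p a {i} X * ic (Qb a (4 * p.l)) (X i) *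
        (u X - Av (tm (θ a)) {i} u X) ^ 2)) := mul_le_mul_of_nonneg_left h2 hC0.le
    _ = _ := by ring

end Pool.Agent.TBS
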