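import Pool.Agent.TBS.StmtsC

/-!
# Squad TBS: module TNL (the inequality at one grid point)
-/

set_option autoImplicit false

open MeasureTheory Filter Topology
open scoped ContDiff

namespace Pool.Agent.TBS

open Pool.Agent.TBG Pool.Agent.TBL Pool.Agent.TBF

namespace TNL_

/-- the small values of `ν` -/
lemma small {b β C C₁ τ C₂ ρ j h ν z : ℝ} (hb : 0 < b) (hβ : 0 < β) (hC : 0 < C) (hC₁ : 0 < C₁)
    (hτ : 0 < τ) (hτ1 : τ ≤ 1 / 4) (hC₂ : 8 * b * C + 128 * 37044 * C₁ ≤ C₂) (hρ : 0 < ρ)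
    (hρ1 : ρ ≤ 1 / 4) (hρ2 : 3 * β * ρ ≤ 2 * b) (hj : 0 ≤ j) (hh : 0 ≤ h) (hhj : ρ * h ≤ j)
    (hν : 0 ≤ ν) (hν4 : ν ≤ 4 * ρ) (hz : 0 ≤ z) :
    (b / 2 * ρ ^ 2 - β / 6 * ρ ^ 3) * ν - (b / 3 * ρ ^ 3 - β / 8 * ρ ^ 4) ≤
      b / 6 * (ν ^ 3 - 3 * (C * j) * ν ^ 2) - β / 24 * ν ^ 4 -
        τ * C₁ * (ν ^ 3 * (z + 27783 * h) + ν ^ 4 * (z + 37044 * h)) + C₂ * ρ ^ 2 * j +
        130 * τ * C₁ * ρ ^ 3 * z := by
  have e1 : 0 ≤ (ν - ρ) ^ 2 * (b / 6 * (ν + 2 * ρ) - β / 24 * (ν ^ 2 + 2 * ν * ρ + 3 * ρ ^ 2)) := by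
    refine mul_nonneg (sq_nonneg _) ?_
    have h1 : ν ^ 2 + 2 * ν * ρ + 3 * ρ ^ 2 ≤ (ν + 2 * ρ) * (6 * ρ) := by nlinarith
    have h2 : β / 24 * (ν ^ 2 + 2 * ν * ρ + 3 * ρ ^ 2) ≤ β / 24 * ((ν + 2 * ρ) * (6 * ρ)) :=
      mul_le_mul_of_nonneg_left h1 (by positivity)
    have h3 : β / 24 * ((ν + 2 * ρ) * (6 * ρ)) = (3 * β * ρ) * ((ν + 2 * ρ) / 12) := by ring
    have h4 : (3 * β * ρ) * ((ν + 2 * ρ) / 12) ≤ (2 * b) * ((ν + 2 * ρ) / 12) :=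
      mul_le_mul_of_nonneg_right hρ2 (by positivity)
    have h5 : (2 * b) * ((ν + 2 * ρ) / 12) = b / 6 * (ν + 2 * ρ) := by ring
    linarith
  have e2 : b / 6 * ν ^ 3 - β / 24 * ν ^ 4 -
      ((b / 2 * ρ ^ 2 - β / 6 * ρ ^ 3) * ν - (b / 3 * ρ ^ 3 - β / 8 * ρ ^ 4)) =
      (ν - ρ) ^ 2 * (b / 6 * (ν + 2 * ρ) - β / 24 * (ν ^ 2 + 2 * ν * ρ + 3 * ρ ^ 2)) := by ring
  have e3 : b / 2 * C * j * ν ^ 2 ≤ 8 * b * C * (ρ ^ 2 * j) := by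
    have h1 : ν ^ 2 ≤ (4 * ρ) ^ 2 := pow_le_pow_left₀ hν hν4 2
    have h2 : b / 2 * C * j * ν ^ 2 ≤ b / 2 * C * j * (4 * ρ) ^ 2 :=
      mul_le_mul_of_nonneg_left h1 (by positivity)
    linarith [show b / 2 * C * j * (4 * ρ) ^ 2 = 8 * b * C * (ρ ^ 2 * j) by ring]
  have e4 : ν ^ 3 ≤ 64 * ρ ^ 3 := by
    have h1 := pow_le_pow_left₀ hν hν4 3
    linarith [show (4 * ρ) ^ 3 = 64 * ρ ^ 3 by ring]
  have e5 : ν ^ 4 ≤ 64 * ρ ^ 3 := by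
    have h1 := pow_le_pow_left₀ hν hν4 4
    have h2 : ρ ^ 3 * ρ ≤ ρ ^ 3 * (1 / 4) := mul_le_mul_of_nonneg_left hρ1 (by positivity)
    linarith [show (4 * ρ) ^ 4 = 256 * (ρ ^ 3 * ρ) by ring]
  have e6 : ν ^ 3 * (z + 27783 * h) + ν ^ 4 * (z + 37044 * h) ≤
      128 * ρ ^ 3 * z + 128 * 37044 * (ρ ^ 2 * j) := by
    have h1 : ν ^ 3 * (z + 27783 * h) ≤ 64 * ρ ^ 3 * (z + 37044 * h) := by
      refine (mul_le_mul_of_nonneg_right e4 (by positivity)).trans ?_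
      exact mul_le_mul_of_nonneg_left (by linarith) (by positivity)
    have h2 : ν ^ 4 * (z + 37044 * h) ≤ 64 * ρ ^ 3 * (z + 37044 * h) :=
      mul_le_mul_of_nonneg_right e5 (by positivity)
    have h3 : ρ ^ 2 * (ρ * h) ≤ ρ ^ 2 * j := mul_le_mul_of_nonneg_left hhj (by positivity)
    linarith [show 64 * ρ ^ 3 * (z + 37044 * h) = 64 * ρ ^ 3 * z + 64 * 37044 * (ρ ^ 2 * (ρ * h)) by
      ring]
  have e7 : τ * C₁ * (ν ^ 3 * (z + 27783 * h) + ν ^ 4 * (z + 37044 * h)) ≤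
      130 * τ * C₁ * ρ ^ 3 * z + 128 * 37044 * C₁ * (ρ ^ 2 * j) := by
    have h1 := mul_le_mul_of_nonneg_left e6 (by positivity : 0 ≤ τ * C₁)
    have h2 : τ * C₁ * (ρ ^ 2 * j) ≤ C₁ * (ρ ^ 2 * j) := by
      have h3 : 0 ≤ C₁ * (ρ ^ 2 * j) := by positivity
      nlinarith
    have h3 : 0 ≤ τ * C₁ * ρ ^ 3 * z := by positivity
    linarith [show τ * C₁ * (128 * ρ ^ 3 * z + 128 * 37044 * (ρ ^ 2 * j)) =
      128 * (τ * C₁ * ρ ^ 3 * z) + 128 * 37044 * (τ * C₁ * (ρ ^ 2 * j)) by ring,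
      show 130 * τ * C₁ * ρ ^ 3 * z = 130 * (τ * C₁ * ρ ^ 3 * z) by ring,
      show 128 * 37044 * C₁ * (ρ ^ 2 * j) = 128 * 37044 * (C₁ * (ρ ^ 2 * j)) by ring]
  have e8 : (8 * b * C + 128 * 37044 * C₁) * (ρ ^ 2 * j) ≤ C₂ * (ρ ^ 2 * j) :=
    mul_le_mul_of_nonneg_right hC₂ (by positivity)
  linarith [show b / 6 * (ν ^ 3 - 3 * (C * j) * ν ^ 2) = b / 6 * ν ^ 3 - b / 2 * C * j * ν ^ 2 by
    ring, show C₂ * ρ ^ 2 * j = C₂ * (ρ ^ 2 * j) by ring]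

/-- the large values of `ν` -/
lemma large {b β C C₁ τ C₂ ρ j h ν z : ℝ} (hb : 0 < b) (hβ : 0 < β) (hC : 0 < C) (hC₁ : 0 < C₁)
    (hτ : 0 < τ) (hτ2 : τ * C₁ * 18524 ≤ b / 24) (hC₂ : 0 ≤ C₂) (hρ : 0 < ρ)
    (hj : 0 ≤ j) (hjC : 4 * C * j ≤ ρ) (hh : 0 ≤ h) (hh1 : 37044 * h ≤ 1)
    (hν4 : 4 * ρ ≤ ν) (hν1 : ν ≤ 1) (hνβ : 4 * β * ν ≤ 3 * b) (hz : 0 ≤ z) (hz1 : z ≤ 9261) :
    (b / 2 * ρ ^ 2 - β / 6 * ρ ^ 3) * ν - (b / 3 * ρ ^ 3 - β / 8 * ρ ^ 4) ≤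
      b / 6 * (ν ^ 3 - 3 * (C * j) * ν ^ 2) - β / 24 * ν ^ 4 -
        τ * C₁ * (ν ^ 3 * (z + 27783 * h) + ν ^ 4 * (z + 37044 * h)) + C₂ * ρ ^ 2 * j +
        130 * τ * C₁ * ρ ^ 3 * z := by
  have hν : 0 < ν := by linarith
  have e1 : (b / 2 * ρ ^ 2 - β / 6 * ρ ^ 3) * ν - (b / 3 * ρ ^ 3 - β / 8 * ρ ^ 4) ≤
      b / 32 * ν ^ 3 := by
    have h1 : (4 * ρ) ^ 2 ≤ ν ^ 2 := pow_le_pow_left₀ (by positivity) hν4 2
    have h2 : b / 32 * ν * (4 * ρ) ^ 2 ≤ b / 32 * ν * ν ^ 2 :=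
      mul_le_mul_of_nonneg_left h1 (by positivity)
    have h3 : β / 6 * ρ ^ 3 * (4 * ρ) ≤ β / 6 * ρ ^ 3 * ν :=
      mul_le_mul_of_nonneg_left hν4 (by positivity)
    have h4 : 0 ≤ β * ρ ^ 4 := by positivity
    have h5 : 0 ≤ b / 3 * ρ ^ 3 := by positivity
    linarith [show b / 32 * ν * (4 * ρ) ^ 2 = b / 2 * ρ ^ 2 * ν by ring,
      show b / 32 * ν * ν ^ 2 = b / 32 * ν ^ 3 by ring,
      show β / 6 * ρ ^ 3 * (4 * ρ) = 2 / 3 * (β * ρ ^ 4) by ring,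
      show (b / 2 * ρ ^ 2 - β / 6 * ρ ^ 3) * ν = b / 2 * ρ ^ 2 * ν - β / 6 * ρ ^ 3 * ν by ring,
      show β / 8 * ρ ^ 4 = 1 / 8 * (β * ρ ^ 4) by ring]
  have e2 : b / 2 * C * j * ν ^ 2 ≤ b / 32 * ν ^ 3 := by
    have h1 : 16 * C * j ≤ ν := by linarith
    have h2 : b / 32 * ν ^ 2 * (16 * C * j) ≤ b / 32 * ν ^ 2 * ν :=
      mul_le_mul_of_nonneg_left h1 (by positivity)
    linarith [show b / 32 * ν ^ 2 * (16 * C * j) = b / 2 * C * j * ν ^ 2 by ring,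
      show b / 32 * ν ^ 2 * ν = b / 32 * ν ^ 3 by ring]
  have e3 : β / 24 * ν ^ 4 ≤ b / 32 * ν ^ 3 := by
    have h2 : ν ^ 3 / 96 * (4 * β * ν) ≤ ν ^ 3 / 96 * (3 * b) :=
      mul_le_mul_of_nonneg_left hνβ (by positivity)
    linarith [show ν ^ 3 / 96 * (4 * β * ν) = β / 24 * ν ^ 4 by ring,
      show ν ^ 3 / 96 * (3 * b) = b / 32 * ν ^ 3 by ring]
  have e4 : ν ^ 3 * (z + 27783 * h) + ν ^ 4 * (z + 37044 * h) ≤ 18524 * ν ^ 3 := by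
    have h1 : ν ^ 4 ≤ ν ^ 3 := by
      have := mul_le_mul_of_nonneg_left hν1 (by positivity : 0 ≤ ν ^ 3)
      linarith [show ν ^ 3 * ν = ν ^ 4 by ring]
    have h2 : ν ^ 3 * (z + 27783 * h) ≤ ν ^ 3 * 9262 :=
      mul_le_mul_of_nonneg_left (by linarith) (by positivity)
    have h3 : ν ^ 4 * (z + 37044 * h) ≤ ν ^ 3 * 9262 :=
      mul_le_mul h1 (by linarith) (by positivity) (by positivity)
    linarith
  have e5 : τ * C₁ * (ν ^ 3 * (z + 27783 * h) + ν ^ 4 * (z + 37044 * h)) ≤ b / 24 * ν ^ 3 := by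
    have h1 := mul_le_mul_of_nonneg_left e4 (by positivity : 0 ≤ τ * C₁)
    have h2 := mul_le_mul_of_nonneg_right hτ2 (by positivity : 0 ≤ ν ^ 3)
    linarith [show τ * C₁ * (18524 * ν ^ 3) = τ * C₁ * 18524 * ν ^ 3 by ring]
  have e6 : 0 ≤ C₂ * ρ ^ 2 * j := by positivity
  have e7 : 0 ≤ 130 * τ * C₁ * ρ ^ 3 * z := by positivity
  have e8 : 0 ≤ b * ν ^ 3 := by positivity
  linarith [show b / 6 * (ν ^ 3 - 3 * (C * j) * ν ^ 2) = b / 6 * ν ^ 3 - b / 2 * C * j * ν ^ 2 by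
    ring, show b / 32 * ν ^ 3 = b * ν ^ 3 / 32 by ring, show b / 24 * ν ^ 3 = b * ν ^ 3 / 24 by ring,
    show b / 6 * ν ^ 3 = b * ν ^ 3 / 6 by ring]

end TNL_

open TNL_

theorem tnl_proof : Stmt_TNL := by
  intro b β C C₁ c₀ hb hβ hC hC₁ _
  have hτp : 0 < min (1 / 4) (b / (24 * 18524 * C₁)) := lt_min (by norm_num) (by positivity)
  refine ⟨min (1 / 4) (b / (24 * 18524 * C₁)), hτp, min_le_left _ _, ?_⟩
  generalize hτd : min (1 / 4) (b / (24 * 18524 * C₁)) = τ at hτp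
  have hτ1 : τ ≤ 1 / 4 := hτd ▸ min_le_left _ _
  have hτ2 : τ * C₁ * 18524 ≤ b / 24 := by
    have h : τ ≤ b / (24 * 18524 * C₁) := hτd ▸ min_le_right _ _
    rw [le_div_iff₀ (by positivity)] at h
    linarith
  intro K hK
  set A : ℝ := C * 18522 * K with hA
  have hA0 : 0 < A := by positivity
  refine ⟨min (min (1 / 4) (2 * b / (3 * β))) (min (1 / A) (3 * b / (4 * β * A))),
    8 * b * C + 128 * 37044 * C₁ + 4 * C + 37044, by positivity, by positivity, ?_⟩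
  intro ρ l3 ν e₃ e₄ w₃ w₄ z hρ hρ0 hl hν hν1 hz hz1 h3 h4 hw3 hw4
  rw [lt_min_iff, lt_min_iff, lt_min_iff] at hρ0
  obtain ⟨⟨r1, r2⟩, r3, r4⟩ := hρ0
  rw [lt_div_iff₀ (by positivity)] at r2 r3 r4
  set C₂ : ℝ := 8 * b * C + 128 * 37044 * C₁ + 4 * C + 37044 with hC₂
  have hC20 : 0 < C₂ := by positivity
  have hC2a : 8 * b * C + 128 * 37044 * C₁ ≤ C₂ := by linarith
  have hbC : 0 < 8 * b * C := by positivity
  have hC2b : 4 * C ≤ C₂ := by linarith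
  have hC2c : 37044 ≤ C₂ := by linarith
  have hl3 : 0 < l3 := by
    by_contra hn
    have : ρ * l3 ≤ 0 := mul_nonpos_of_nonneg_of_nonpos hρ.le (not_lt.1 hn)
    linarith
  set j : ℝ := 1 / l3 with hj
  set h : ℝ := 1 / (K * ρ * l3) with hh
  have hK0 : 0 < K := by linarith
  have hj0 : 0 < j := by positivity
  have hh0 : 0 < h := by positivity
  have hhj : ρ * h ≤ j := by
    have e : ρ * h = j * (1 / K) := by
      rw [hh, hj]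
      field_simp
    rw [e]
    have : 1 / K ≤ 1 := by
      rw [div_le_one hK0]
      exact hK
    calc j * (1 / K) ≤ j * 1 := mul_le_mul_of_nonneg_left this hj0.le
      _ = j := mul_one j
  have hjC : C₂ * j ≤ ρ := by
    have e : C₂ * j = C₂ / l3 := by rw [hj]; ring
    rw [e, div_le_iff₀ hl3]
    exact hl
  have hhC : C₂ * h ≤ 1 := by
    have e : C₂ * h = C₂ / (K * ρ * l3) := by rw [hh]; ring
    rw [e, div_le_one (by positivity)]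
    have : 1 * (ρ * l3) ≤ K * (ρ * l3) := mul_le_mul_of_nonneg_right hK (by positivity)
    linarith [show K * ρ * l3 = K * (ρ * l3) by ring]
  have s1 : b / 6 * (ν ^ 3 - 3 * (C * j) * ν ^ 2) ≤ b / 6 * e₃ := by
    refine mul_le_mul_of_nonneg_left ?_ (by positivity)
    have e : 3 * (C / l3) * ν ^ 2 = 3 * (C * j) * ν ^ 2 := by rw [hj]; ring
    linarith
  have s2 : β / 24 * e₄ ≤ β / 24 * ν ^ 4 := mul_le_mul_of_nonneg_left h4 (by positivity)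
  have s3 : τ * C₁ * (w₃ + w₄) ≤
      τ * C₁ * (ν ^ 3 * (z + 27783 * h) + ν ^ 4 * (z + 37044 * h)) := by
    refine mul_le_mul_of_nonneg_left ?_ (by positivity)
    have e : 9261 * 3 / (K * ρ * l3) = 27783 * h := by rw [hh]; ring
    have e' : 9261 * 4 / (K * ρ * l3) = 37044 * h := by rw [hh]; ring
    rw [e] at hw3
    rw [e'] at hw4
    linarith
  have s4 : C₂ * ρ ^ 2 / l3 = C₂ * ρ ^ 2 * j := by rw [hj]; ring
  rw [s4]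
  have key : (b / 2 * ρ ^ 2 - β / 6 * ρ ^ 3) * ν - (b / 3 * ρ ^ 3 - β / 8 * ρ ^ 4) ≤
      b / 6 * (ν ^ 3 - 3 * (C * j) * ν ^ 2) - β / 24 * ν ^ 4 -
        τ * C₁ * (ν ^ 3 * (z + 27783 * h) + ν ^ 4 * (z + 37044 * h)) + C₂ * ρ ^ 2 * j +
        130 * τ * C₁ * ρ ^ 3 * z := by
    rcases le_total ν (4 * ρ) with h5 | h5
    · exact small hb hβ hC hC₁ hτp hτ1 hC2a hρ r1.le (by linarith) hj0.le hh0.le hhj hν h5 hz
    · have t1 : ν ≤ ρ * A := by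
        rw [hA]
        linarith
      refine large hb hβ hC hC₁ hτp hτ2 hC20.le hρ hj0.le ?_ hh0.le ?_ h5 (by linarith) ?_ hz hz1
      · exact (mul_le_mul_of_nonneg_right hC2b hj0.le).trans hjC
      · exact (mul_le_mul_of_nonneg_right hC2c hh0.le).trans hhC
      · have t2 : 4 * β * ν ≤ 4 * β * (ρ * A) := mul_le_mul_of_nonneg_left t1 (by positivity)
        linarith [show ρ * (4 * β * A) = 4 * β * (ρ * A) by ring]
  linarith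

end Pool.Agent.TBS
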