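import Pool.Agent.TBS.StmtsB

set_option autoImplicit false

open MeasureTheory Filter Topology
open scoped ContDiff

namespace Pool.Agent.TBS

open Pool.Agent.TBG Pool.Agent.TBL Pool.Agent.TBF

namespace TRK_

/-- positions from relative positions -/
noncomputable def Lc : Fin 3 → (E × E →L[ℝ] E) :=
  ![0, -ContinuousLinearMap.fst ℝ E E, -ContinuousLinearMap.snd ℝ E E]

theorem Lc_rt (x : Fin 3 → E) (i : Fin 3) : Lc i (rt x) = x i - x 0 := by
  fin_cases i
  · simp [Lc]
  · simp [Lc, rt]
  · simp [Lc, rt]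

/-- the action of permutations on relative positions -/
noncomputable def T (σ : Equiv.Perm (Fin 3)) : E × E →L[ℝ] E × E :=
  (Lc (σ 0) - Lc (σ 1)).prod (Lc (σ 0) - Lc (σ 2))

theorem T_rt (σ : Equiv.Perm (Fin 3)) (x : Fin 3 → E) : T σ (rt x) = rt (x ∘ σ) := by
  unfold T
  rw [ContinuousLinearMap.prod_apply, sub_apply, sub_apply, Lc_rt, Lc_rt, Lc_rt]
  simp only [rt, Function.comp]
  ext1 <;> simp

theorem dr_rt (m c : Fin 3) : dr m c = rt (Pi.single m (ev c)) := by
  fin_cases m <;> simp [dr, rt]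

theorem T_dr (σ : Equiv.Perm (Fin 3)) (m c : Fin 3) : T σ (dr (σ m) c) = dr m c := by
  rw [dr_rt, T_rt, dr_rt]
  congr 1
  funext i
  simp only [Function.comp, Pi.single_apply, EmbeddingLike.apply_eq_iff_eq]

theorem z_rt (z : E × E) : z = rt ![0, -z.1, -z.2] := by
  simp [rt]

theorem inv (τ : E × E → ℝ) (h1 : ∀ x y, τ (x, y) = τ (y, x))
    (h2 : ∀ x y, τ (x, y) = τ (-x, y - x)) (σ : Equiv.Perm (Fin 3)) :
    ∀ x : Fin 3 → E, τ (rt (x ∘ σ)) = τ (rt x) := by
  have s01 : ∀ x : Fin 3 → E, τ (rt (x ∘ (Equiv.swap (0 : Fin 3) 1))) = τ (rt x) := by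
    intro x
    have e : rt (x ∘ (Equiv.swap (0 : Fin 3) 1)) = (-(rt x).1, (rt x).2 - (rt x).1) := by
      simp only [rt, Function.comp, Equiv.swap_apply_left, Equiv.swap_apply_right]
      rw [Equiv.swap_apply_of_ne_of_ne (by decide) (by decide)]
      ext1
      · simp
      · simp
    rw [e, ← h2]
  have s12 : ∀ x : Fin 3 → E, τ (rt (x ∘ (Equiv.swap (1 : Fin 3) 2))) = τ (rt x) := by
    intro x
    have e : rt (x ∘ (Equiv.swap (1 : Fin 3) 2)) = ((rt x).2, (rt x).1) := by
      simp only [rt, Function.comp, Equiv.swap_apply_left, Equiv.swap_apply_right]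
      rw [Equiv.swap_apply_of_ne_of_ne (by decide) (by decide)]
    rw [e, ← h1]
  have s02 : ∀ x : Fin 3 → E, τ (rt (x ∘ (Equiv.swap (0 : Fin 3) 2))) = τ (rt x) := by
    intro x
    have e : rt (x ∘ (Equiv.swap (0 : Fin 3) 2)) =
        ((rt x).1 - (rt x).2, -(rt x).2) := by
      simp only [rt, Function.comp, Equiv.swap_apply_left, Equiv.swap_apply_right]
      rw [Equiv.swap_apply_of_ne_of_ne (by decide) (by decide)]
      ext1
      · simp
      · simp
    rw [e, h1, ← h2, ← h1]
  induction σ using Equiv.Perm.swap_induction_on with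
  | one => intro x; rfl
  | swap_mul f i j hij ih =>
    intro x
    have e : x ∘ ((Equiv.swap i j * f : Equiv.Perm (Fin 3))) = (x ∘ (Equiv.swap i j)) ∘ f := rfl
    rw [e, ih]
    fin_cases i <;> fin_cases j
    · exact absurd rfl hij
    · exact s01 x
    · exact s02 x
    · have := s01 x; rw [Equiv.swap_comm] at this; exact this
    · exact absurd rfl hij
    · exact s12 x
    · have := s02 x; rw [Equiv.swap_comm] at this; exact this
    · have := s12 x; rw [Equiv.swap_comm] at this; exact this
    · exact absurd rfl hij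

theorem dv_comp (F : E × E → ℝ) (L : E × E →L[ℝ] E × E) (v z : E × E)
    (hF : DifferentiableAt ℝ F (L z)) : dv v (fun z => F (L z)) z = dv (L v) F (L z) := by
  unfold dv
  have h : HasFDerivAt (fun z => F (L z)) ((fderiv ℝ F (L z)).comp L) z :=
    hF.hasFDerivAt.comp z L.hasFDerivAt
  rw [h.fderiv]
  rfl

end TRK_

theorem trk_proof (_hLTR : Pool.Agent.TBG.Stmt_LTR) : Stmt_TRK := by
  refine ⟨?_, ?_⟩
  · intro ι _ _ G e X hG he
    have hinj : Function.Injective e := by
      unfold Ij at he
      exact (Finset.mem_filter.1 he).2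
    have hfun : (fun x => G (rt (Function.update X (e 0) x ∘ e))) =
        fun x => G (x - X (e 1), x - X (e 2)) := by
      funext x
      have h1 : e 1 ≠ e 0 := fun h => by have := hinj h; exact absurd this (by decide)
      have h2 : e 2 ≠ e 0 := fun h => by have := hinj h; exact absurd this (by decide)
      simp only [rt, Function.comp, Function.update_self, Function.update_of_ne h1,
        Function.update_of_ne h2]
    have hsm : ContDiff ℝ ∞ (fun x => G (x - X (e 1), x - X (e 2))) :=
      hG.comp ((contDiff_id.sub contDiff_const).prodMk (contDiff_id.sub contDiff_const))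
    rw [hfun]
    refine ⟨hsm, ?_⟩
    intro c x
    have hx : G (rt (Function.update X (e 0) x ∘ e)) = G (x - X (e 1), x - X (e 2)) :=
      congrFun hfun x
    have h1 : e 1 ≠ e 0 := fun h => by have := hinj h; exact absurd this (by decide)
    have h2 : e 2 ≠ e 0 := fun h => by have := hinj h; exact absurd this (by decide)
    have hrt : rt (Function.update X (e 0) x ∘ e) = (x - X (e 1), x - X (e 2)) := by
      simp only [rt, Function.comp, Function.update_self, Function.update_of_ne h1,
        Function.update_of_ne h2]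
    rw [hrt]
    unfold pd dv
    have hd : HasFDerivAt (fun x : E => (x - X (e 1), x - X (e 2)))
        ((ContinuousLinearMap.id ℝ E).prod (ContinuousLinearMap.id ℝ E)) x :=
      ((hasFDerivAt_id x).sub_const _).prodMk ((hasFDerivAt_id x).sub_const _)
    have hG' : HasFDerivAt G (fderiv ℝ G (x - X (e 1), x - X (e 2)))
        (x - X (e 1), x - X (e 2)) := ((hG.differentiable (by simp)) _).hasFDerivAt
    have hc := HasFDerivAt.comp x hG' hd
    have : fderiv ℝ (fun x => G (x - X (e 1), x - X (e 2))) x = _ := hc.fderiv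
    rw [this]
    rfl
  · intro τ hτ h1 h2 x
    have hinvz : ∀ (σ : Equiv.Perm (Fin 3)) (z : E × E), τ (TRK_.T σ z) = τ z := by
      intro σ z
      conv_lhs => rw [TRK_.z_rt z]
      rw [TRK_.T_rt, TRK_.inv τ h1 h2 σ]
      conv_rhs => rw [TRK_.z_rt z]
    have hfun : ∀ σ : Equiv.Perm (Fin 3), (fun z => τ (TRK_.T σ z)) = τ := fun σ =>
      funext (hinvz σ)
    have hdiff : Differentiable ℝ τ := hτ.differentiable (by simp)
    have hd1 : ∀ (σ : Equiv.Perm (Fin 3)) (m c : Fin 3) (z : E × E),
        dv (dr m c) τ (TRK_.T σ z) = dv (dr (σ m) c) τ z := by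
      intro σ m c z
      have h := TRK_.dv_comp τ (TRK_.T σ) (dr (σ m) c) z (hdiff _)
      rw [hfun, TRK_.T_dr] at h
      exact h.symm
    have hsm1 : ∀ v : E × E, ContDiff ℝ ∞ (dv v τ) := by
      intro v
      unfold dv
      exact (hτ.fderiv_right (m := ∞) (by simp)).clm_apply contDiff_const
    have hd2 : ∀ (σ : Equiv.Perm (Fin 3)) (m c : Fin 3) (z : E × E),
        dv (dr m c) (dv (dr m c) τ) (TRK_.T σ z) =
          dv (dr (σ m) c) (dv (dr (σ m) c) τ) z := by
      intro σ m c z
      have h := TRK_.dv_comp (dv (dr m c) τ) (TRK_.T σ) (dr (σ m) c) z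
        ((hsm1 _).differentiable (by simp) _)
      have hf : (fun z => dv (dr m c) τ (TRK_.T σ z)) = dv (dr (σ m) c) τ :=
        funext fun z => hd1 σ m c z
      rw [hf, TRK_.T_dr] at h
      exact h.symm
    refine ⟨?_, ?_⟩
    · intro σ
      rw [← TRK_.T_rt]
      refine ⟨hinvz σ _, ?_, ?_, ?_⟩
      · unfold gsq
        simp_rw [hd1 σ]
        exact Equiv.sum_comp σ (fun m => ∑ c, (dv (dr m c) τ (rt x)) ^ 2)
      · unfold Lap
        simp_rw [hd2 σ]
        exact Equiv.sum_comp σ (fun m => ∑ c, dv (dr m c) (dv (dr m c) τ) (rt x))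
      · intro c
        exact ⟨hd1 σ 0 c _, hd2 σ 0 c _⟩
    · intro c
      have hs : dr 0 c + dr 1 c + dr 2 c = 0 := by
        simp only [dr]
        ext1 <;> simp
      unfold dv
      rw [Fin.sum_univ_three, ← map_add, ← map_add, hs, map_zero]

end Pool.Agent.TBS
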