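import Pool.Agent.TBS.StmtsB

set_option autoImplicit false
set_option linter.unusedSectionVars false

namespace Pool.Agent.TBS

open Pool.Agent.TBG Pool.Agent.TBL Pool.Agent.TBF

namespace TUP_

variable {ι : Type}

theorem inj3 (e : Fin 3 → ι) :
    Function.Injective e ↔ e 0 ≠ e 1 ∧ e 0 ≠ e 2 ∧ e 1 ≠ e 2 := by
  constructor
  · intro h
    exact ⟨fun h' => absurd (h h') (by decide), fun h' => absurd (h h') (by decide),
      fun h' => absurd (h h') (by decide)⟩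
  · rintro ⟨h1, h2, h3⟩ i j hij
    fin_cases i <;> fin_cases j <;>
      first
      | rfl
      | exact absurd hij h1
      | exact absurd hij h2
      | exact absurd hij h3
      | exact absurd hij.symm h1
      | exact absurd hij.symm h2
      | exact absurd hij.symm h3

theorem inj4 (e : Fin 4 → ι) :
    Function.Injective e ↔ e 0 ≠ e 1 ∧ e 0 ≠ e 2 ∧ e 0 ≠ e 3 ∧ e 1 ≠ e 2 ∧ e 1 ≠ e 3 ∧
      e 2 ≠ e 3 := by
  constructor
  · intro h
    exact ⟨fun h' => absurd (h h') (by decide), fun h' => absurd (h h') (by decide),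
      fun h' => absurd (h h') (by decide), fun h' => absurd (h h') (by decide),
      fun h' => absurd (h h') (by decide), fun h' => absurd (h h') (by decide)⟩
  · rintro ⟨h1, h2, h3, h4, h5, h6⟩ i j hij
    fin_cases i <;> fin_cases j <;>
      first
      | rfl
      | exact absurd hij h1
      | exact absurd hij h2
      | exact absurd hij h3
      | exact absurd hij h4
      | exact absurd hij h5
      | exact absurd hij h6
      | exact absurd hij.symm h1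
      | exact absurd hij.symm h2
      | exact absurd hij.symm h3
      | exact absurd hij.symm h4
      | exact absurd hij.symm h5
      | exact absurd hij.symm h6

variable [Fintype ι] [DecidableEq ι]

theorem mem_Ij {m : ℕ} (e : Fin m → ι) : e ∈ Ij m ι ↔ Function.Injective e := by
  simp [Ij]

theorem mem_im {m : ℕ} (e : Fin m → ι) (x : ι) : x ∈ im e ↔ ∃ i, e i = x := by
  simp [im]

theorem mem3 (e : Fin 3 → ι) (x : ι) : x ∈ im e ↔ e 0 = x ∨ e 1 = x ∨ e 2 = x := by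
  rw [mem_im]
  constructor
  · rintro ⟨i, hi⟩
    fin_cases i
    · exact Or.inl hi
    · exact Or.inr (Or.inl hi)
    · exact Or.inr (Or.inr hi)
  · rintro (h | h | h)
    · exact ⟨0, h⟩
    · exact ⟨1, h⟩
    · exact ⟨2, h⟩

theorem mem4 (e : Fin 4 → ι) (x : ι) : x ∈ im e ↔ e 0 = x ∨ e 1 = x ∨ e 2 = x ∨ e 3 = x := by
  rw [mem_im]
  constructor
  · rintro ⟨i, hi⟩
    fin_cases i
    · exact Or.inl hi
    · exact Or.inr (Or.inl hi)
    · exact Or.inr (Or.inr (Or.inl hi))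
    · exact Or.inr (Or.inr (Or.inr hi))
  · rintro (h | h | h | h)
    · exact ⟨0, h⟩
    · exact ⟨1, h⟩
    · exact ⟨2, h⟩
    · exact ⟨3, h⟩

theorem ext3 (e f : Fin 3 → ι) (h0 : e 0 = f 0) (h1 : e 1 = f 1) (h2 : e 2 = f 2) : e = f := by
  funext i
  fin_cases i
  · exact h0
  · exact h1
  · exact h2

theorem ext4 (e f : Fin 4 → ι) (h0 : e 0 = f 0) (h1 : e 1 = f 1) (h2 : e 2 = f 2)
    (h3 : e 3 = f 3) : e = f := by
  funext i
  fin_cases i
  · exact h0
  · exact h1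
  · exact h2
  · exact h3

theorem p1 (V : E → E → ℝ) (X : ι → E) :
    potS V X = 1 / 6 * ∑ e ∈ Ij 3 ι, V (rt (X ∘ e)).1 (rt (X ∘ e)).2 := by
  unfold potS
  congr 1
  refine Finset.sum_nbij' (fun t => ![t.1, t.2.1, t.2.2]) (fun e => (e 0, e 1, e 2)) ?_ ?_ ?_ ?_ ?_
  · intro t ht
    rw [mem_Ij, inj3]
    exact (Finset.mem_filter.1 ht).2
  · intro e he
    rw [mem_Ij, inj3] at he
    exact Finset.mem_filter.2 ⟨Finset.mem_univ _, he⟩
  · intro t _
    rfl
  · intro e _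
    exact ext3 _ _ rfl rfl rfl
  · intro t _
    rfl

theorem im_comp {m : ℕ} (σ : Equiv.Perm (Fin m)) (e : Fin m → ι) : im (e ∘ σ) = im e := by
  ext x
  rw [mem_im, mem_im]
  constructor
  · rintro ⟨i, hi⟩
    exact ⟨σ i, hi⟩
  · rintro ⟨i, hi⟩
    refine ⟨σ.symm i, ?_⟩
    rw [Function.comp_apply, Equiv.apply_symm_apply]
    exact hi

theorem Ij_comp {m : ℕ} (σ : Equiv.Perm (Fin m)) (e : Fin m → ι) :
    e ∘ σ ∈ Ij m ι ↔ e ∈ Ij m ι := by
  rw [mem_Ij, mem_Ij]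
  exact σ.injective_comp e

theorem p2 {m : ℕ} (σ : Equiv.Perm (Fin m)) (F : (Fin m → ι) → ℝ) :
    ∑ e ∈ Ij m ι, F (e ∘ σ) = ∑ e ∈ Ij m ι, F e := by
  refine Finset.sum_nbij' (fun e => e ∘ σ) (fun e => e ∘ σ.symm) ?_ ?_ ?_ ?_ ?_
  · intro e he
    exact (Ij_comp σ e).2 he
  · intro e he
    exact (Ij_comp σ.symm e).2 he
  · intro e _
    funext i
    change e (σ (σ.symm i)) = e i
    rw [Equiv.apply_symm_apply]
  · intro e _
    funext i
    change e (σ.symm (σ i)) = e i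
    rw [Equiv.symm_apply_apply]
  · intro e _
    rfl

theorem p4a (e : Fin 3 → ι) (he : e ∈ Ij 3 ι) (j : ι) (hj : j ∉ im e) : ap e j ∈ Ij 4 ι := by
  rw [mem_Ij, inj3] at he
  rw [mem3] at hj
  push Not at hj
  rw [mem_Ij, inj4]
  exact ⟨he.1, he.2.1, hj.1, he.2.2, hj.2.1, hj.2.2⟩

theorem p4b (e : Fin 3 → ι) (j : ι) : im (ap e j) = insert j (im e) := by
  ext x
  rw [mem4, Finset.mem_insert, mem3]
  change e 0 = x ∨ e 1 = x ∨ e 2 = x ∨ j = x ↔ _
  constructor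
  · rintro (h | h | h | h)
    · exact Or.inr (Or.inl h)
    · exact Or.inr (Or.inr (Or.inl h))
    · exact Or.inr (Or.inr (Or.inr h))
    · exact Or.inl h.symm
  · rintro (h | h | h | h)
    · exact Or.inr (Or.inr (Or.inr h.symm))
    · exact Or.inl h
    · exact Or.inr (Or.inl h)
    · exact Or.inr (Or.inr (Or.inl h))

theorem p5 (e : Fin 4 → ι) (he : e ∈ Ij 4 ι) : s2 e ∈ Ij 3 ι ∧ s3 e ∈ Ij 3 ι ∧
    e 3 ∉ im (s2 e) ∧ e 2 ∉ im (s3 e) ∧ im e = insert (e 3) (im (s2 e)) ∧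
    im e = insert (e 2) (im (s3 e)) ∧ ap (s2 e) (e 3) = e := by
  rw [mem_Ij, inj4] at he
  obtain ⟨h1, h2, h3, h4, h5, h6⟩ := he
  refine ⟨?_, ?_, ?_, ?_, ?_, ?_, ?_⟩
  · rw [mem_Ij, inj3]
    exact ⟨h1, h2, h4⟩
  · rw [mem_Ij, inj3]
    exact ⟨h1, h3, h5⟩
  · rw [mem3]
    rintro (h | h | h)
    · exact h3 h
    · exact h5 h
    · exact h6 h
  · rw [mem3]
    rintro (h | h | h)
    · exact h2 h
    · exact h4 h
    · exact h6 h.symm
  · ext x
    rw [mem4, Finset.mem_insert, mem3]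
    change _ ↔ x = e 3 ∨ e 0 = x ∨ e 1 = x ∨ e 2 = x
    constructor
    · rintro (h | h | h | h)
      · exact Or.inr (Or.inl h)
      · exact Or.inr (Or.inr (Or.inl h))
      · exact Or.inr (Or.inr (Or.inr h))
      · exact Or.inl h.symm
    · rintro (h | h | h | h)
      · exact Or.inr (Or.inr (Or.inr h.symm))
      · exact Or.inl h
      · exact Or.inr (Or.inl h)
      · exact Or.inr (Or.inr (Or.inl h))
  · ext x
    rw [mem4, Finset.mem_insert, mem3]
    change _ ↔ x = e 2 ∨ e 0 = x ∨ e 1 = x ∨ e 3 = x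
    constructor
    · rintro (h | h | h | h)
      · exact Or.inr (Or.inl h)
      · exact Or.inr (Or.inr (Or.inl h))
      · exact Or.inl h.symm
      · exact Or.inr (Or.inr (Or.inr h))
    · rintro (h | h | h | h)
      · exact Or.inr (Or.inr (Or.inl h.symm))
      · exact Or.inl h
      · exact Or.inr (Or.inl h)
      · exact Or.inr (Or.inr (Or.inr h))
  · exact ext4 _ _ rfl rfl rfl rfl

theorem p3 (F : (Fin 4 → ι) → ℝ) :
    ∑ e ∈ Ij 4 ι, F e = ∑ e ∈ Ij 3 ι, ∑ j ∈ Finset.univ \ im e, F (ap e j) := by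
  rw [Finset.sum_sigma']
  refine Finset.sum_nbij' (fun e => ⟨s2 e, e 3⟩) (fun x => ap x.1 x.2) ?_ ?_ ?_ ?_ ?_
  · intro e he
    have h := p5 e he
    rw [Finset.mem_sigma]
    exact ⟨h.1, Finset.mem_sdiff.2 ⟨Finset.mem_univ _, h.2.2.1⟩⟩
  · rintro ⟨e, j⟩ hx
    rw [Finset.mem_sigma] at hx
    exact p4a e hx.1 j (Finset.mem_sdiff.1 hx.2).2
  · intro e he
    exact (p5 e he).2.2.2.2.2.2
  · rintro ⟨e, j⟩ _
    have h : s2 (ap e j) = e := ext3 _ _ rfl rfl rfl
    change (⟨s2 (ap e j), j⟩ : (_ : Fin 3 → ι) × ι) = ⟨e, j⟩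
    rw [h]
  · intro e he
    change F e = F (ap (s2 e) (e 3))
    rw [(p5 e he).2.2.2.2.2.2]

end TUP_

theorem tup_proof : Stmt_TUP := by
  intro ι _ _
  refine ⟨fun V X => TUP_.p1 V X, fun m σ => ⟨fun F => TUP_.p2 σ F, fun e =>
    ⟨TUP_.im_comp σ e, TUP_.Ij_comp σ e⟩⟩, fun F => TUP_.p3 F, fun e he j hj =>
    ⟨TUP_.p4a e he j hj, TUP_.p4b e j⟩, fun e he => TUP_.p5 e he, ?_, ?_⟩
  · intro m e he
    rw [TUP_.mem_Ij] at he
    unfold im
    rw [Finset.card_image_of_injective _ he, Finset.card_univ, Fintype.card_fin]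
  · intro m F
    exact Finset.sum_fiberwise (Ij (m + 1) ι) (fun e => e 0) F

end Pool.Agent.TBS
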