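import Pool.Agent.TBS.StmtsA

/-!
# Squad TBS, module VAR: the variance
-/

set_option autoImplicit false

open MeasureTheory Filter Topology
open scoped ContDiff

namespace Pool.Agent.TBS

open Pool.Agent.TBG Pool.Agent.TBL Pool.Agent.TBF

theorem var_proof (hBMC : Pool.Agent.TBL.Stmt_BMC) (hMSY : Stmt_MSY) (hAVP : Stmt_AVP) (hAVI : Stmt_AVI)
    (hDNS : Stmt_DNS) (hVTP : Stmt_VTP) (hCTS : Stmt_CTS) (hTLS : Stmt_TLS) : Stmt_VAR := by
  intro C
  obtain ⟨C₀, hC0, hC⟩ := hCTS C 2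
  refine ⟨C₀ * |C| + 1, by positivity, ?_⟩
  intro ι _ _ p β θ u hs hu
  obtain ⟨hl1, hfin, -, -, hQ, hsub, hprob, -, -, -, -⟩ := hMSY C p β θ hs
  have hl : 0 < p.l := by linarith
  have hM : 0 < p.M := by linarith [hs.hM]
  have hmul : ∀ {α : Type} [MeasurableSpace α] {F G : α → ℝ}, BM F → BM G → BM (fun X => F X * G X) :=
    fun {α} _ {F G} hF hG => (hBMC.1 α F G hF hG).2.2.1
  have hsb : ∀ {α : Type} [MeasurableSpace α] {F G : α → ℝ}, BM F → BM G → BM (fun X => F X - G X) :=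
    fun {α} _ {F G} hF hG => (hBMC.1 α F G hF hG).2.1
  have hsq : ∀ {α : Type} [MeasurableSpace α] {F : α → ℝ}, BM F → BM (fun X => F X ^ 2) :=
    fun {α} _ {F} hF => (hBMC.1 α F F hF hF).2.2.2.1
  have hcm : ∀ {α : Type} [MeasurableSpace α] {F : α → ℝ} (t : ℝ), BM F → BM (fun X => t * F X) :=
    fun {α} _ {F} t hF => (hBMC.1 α F F hF hF).2.2.2.2.2.1 t
  have hint : ∀ {α : Type} [MeasurableSpace α] {F : α → ℝ} (μ : Measure α) [IsFiniteMeasure μ], BM F →
      Integrable F μ := fun {α} _ {F} μ _ hF => (hBMC.1 α F F hF hF).2.2.2.2.2.2 μ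
  have hcomp : ∀ {α γ : Type} [MeasurableSpace α] [MeasurableSpace γ] {F : α → ℝ} {f : γ → α}, BM F →
      Measurable f → BM (fun X => F (f X)) := fun {α γ} _ _ {F f} hF hf => hBMC.2.2.2.1 α γ F f hF hf
  have hsum : ∀ {α J : Type} [MeasurableSpace α] (s : Finset J) (F : J → α → ℝ), (∀ q ∈ s, BM (F q)) →
      BM (fun X => ∑ q ∈ s, F q X) := fun {α J} _ s F h => hBMC.2.2.1 α J s F h
  have hub : BM u := by
    obtain ⟨h1, h2⟩ := hu
    refine ⟨h1.continuous.measurable, ?_⟩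
    obtain ⟨D, hD⟩ := h2.exists_bound_of_continuous h1.continuous
    exact ⟨D, fun X => hD X⟩
  have hPf : ∀ (m : Measure E) [IsProbabilityMeasure m] (S : Finset ι), IsFiniteMeasure (PiS m (mO p.L) S) := by
    intro m _ S
    unfold PiS
    have : ∀ i, IsFiniteMeasure (if i ∈ S then m else (mO p.L)) := by
      intro i
      split_ifs <;> infer_instance
    infer_instance
  have hP0 : IsFiniteMeasure (PiS (mO p.L) (mO p.L) (∅ : Finset ι)) := by
    unfold PiS
    have : ∀ i : ι, IsFiniteMeasure (if i ∈ (∅ : Finset ι) then (mO p.L) else (mO p.L)) := by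
      intro i
      split_ifs <;> infer_instance
    infer_instance
  have hIO : ∀ {F : (ι → E) → ℝ}, BM F → Integrable F (PiS (mO p.L) (mO p.L) (∅ : Finset ι)) :=
    fun hF => hint _ hF
  have hicb : ∀ (a : E) (r : ℝ), BM (ic (Qb a r)) := by
    intro a r
    refine ⟨(measurable_const.indicator (hQ a r).1), 1, fun x => ?_⟩
    unfold ic Set.indicator
    split_ifs <;> simp
  have hθb : ∀ a, BM (θ a) := fun a => ⟨hs.θm a, C / p.l ^ 3, fun x => by
    rw [abs_of_nonneg (hs.θ0 a x)]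
    exact hs.θb a x⟩
  have hprodb : ∀ (a : E) (S : Finset ι), BM (fun X : ι → E => ∏ i ∈ S, θ a (X i)) := by
    intro a S
    induction S using Finset.induction_on with
    | empty => simpa using hBMC.2.1 (ι → E) 1
    | insert i S hi ih =>
      simp_rw [Finset.prod_insert hi]
      exact hmul (hcomp (hθb a) (measurable_pi_apply i)) ih
  -- the deviations
  set dv' : E → ι → (ι → E) → ℝ := fun a i X => (u X - Av (tm (θ a)) {i} u X) ^ 2 with hdv
  have hAb : ∀ (a : E) (S : Finset ι), BM (Av (tm (θ a)) S u) := fun a S => by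
    have := hprob a
    exact (hAVP ι (tm (θ a)) S S u u hub hub).1
  have hdvb : ∀ a i, BM (dv' a i) := fun a i => hsq (hsb hub (hAb a {i}))
  have hvb : ∀ a S, BM (vt p a S : (ι → E) → ℝ) := fun a S => (hVTP ι C p β θ hs a S).1
  -- one cluster
  have h1 : ∀ a ∈ p.Gr, ∀ S : Finset ι,
      IA p θ a S (fun X => vt p a S X * u X ^ 2) - IA p θ a S (fun X => Am p θ u a S X ^ 2) ≤
        IO p (fun X => (∏ i ∈ S, θ a (X i)) * (vt p a S X * ∑ i ∈ S, dv' a i X)) := by
    intro a ha S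
    have := hprob a
    have := hPf (tm (θ a)) S
    obtain ⟨-, hvI, hv1, -, -⟩ := hVTP ι C p β θ hs a S
    have hv0 : ∀ X, 0 ≤ vt p a S X := by
      intro X
      rcases (hv1 X).1 with h | h
      · exact h.ge
      · rw [h]
        exact zero_le_one
    have hvv : ∀ X, vt p a S X ^ 2 = vt p a S X := by
      intro X
      rcases (hv1 X).1 with h | h <;> rw [h] <;> norm_num
    have hA := hAb a S
    have hAI : IndS S (Av (tm (θ a)) S u) := (hAVP ι (tm (θ a)) S S u u hub hub).2.1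
    have e0 : IndS S (fun X => vt p a S X * Av (tm (θ a)) S u X) := by
      intro X Y hXY
      simp only
      rw [hvI X Y hXY, hAI X Y hXY]
    have e1 : ∫ X, u X * (vt p a S X * Av (tm (θ a)) S u X) ∂(PiS (tm (θ a)) (mO p.L) S) =
        ∫ X, Av (tm (θ a)) S u X * (vt p a S X * Av (tm (θ a)) S u X) ∂(PiS (tm (θ a)) (mO p.L) S) :=
      (hAVI ι (tm (θ a)) (mO p.L) S S u (fun X => vt p a S X * Av (tm (θ a)) S u X) hub
        (hmul (hvb a S) hA) subset_rfl).1 e0
    have e2 : IA p θ a S (fun X => vt p a S X * u X ^ 2) - IA p θ a S (fun X => Am p θ u a S X ^ 2) =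
        ∫ X, vt p a S X * (u X - Av (tm (θ a)) S u X) ^ 2 ∂(PiS (tm (θ a)) (mO p.L) S) := by
      have i1 : Integrable (fun X => vt p a S X * u X ^ 2) (PiS (tm (θ a)) (mO p.L) S) :=
        hint _ (hmul (hvb a S) (hsq hub))
      have i2 : Integrable (fun X => 2 * (u X * (vt p a S X * Av (tm (θ a)) S u X)))
          (PiS (tm (θ a)) (mO p.L) S) := (hint _ (hmul hub (hmul (hvb a S) hA))).const_mul _
      have i3 : Integrable (fun X => Av (tm (θ a)) S u X * (vt p a S X * Av (tm (θ a)) S u X))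
          (PiS (tm (θ a)) (mO p.L) S) := hint _ (hmul hA (hmul (hvb a S) hA))
      have i4 : Integrable (fun X => vt p a S X * u X ^ 2 -
          2 * (u X * (vt p a S X * Av (tm (θ a)) S u X))) (PiS (tm (θ a)) (mO p.L) S) := i1.sub i2
      have e3 : ∀ X, vt p a S X * (u X - Av (tm (θ a)) S u X) ^ 2 =
          (vt p a S X * u X ^ 2 - 2 * (u X * (vt p a S X * Av (tm (θ a)) S u X))) +
            Av (tm (θ a)) S u X * (vt p a S X * Av (tm (θ a)) S u X) := fun X => by ring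
      simp_rw [e3]
      rw [integral_add i4 i3, integral_sub i1 i2, integral_const_mul, e1]
      have e4 : IA p θ a S (fun X => Am p θ u a S X ^ 2) =
          ∫ X, Av (tm (θ a)) S u X * (vt p a S X * Av (tm (θ a)) S u X) ∂(PiS (tm (θ a)) (mO p.L) S) := by
        unfold IA
        congr 1
        funext X
        show (vt p a S X * Av (tm (θ a)) S u X) ^ 2 = _
        rw [mul_pow, hvv]
        ring
      rw [e4]
      unfold IA
      ring
    rw [e2]
    refine (hTLS ι (tm (θ a)) (mO p.L) S u (vt p a S) hub (hvb a S) hv0 hvI).trans (le_of_eq ?_)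
    have e5 : ∑ i ∈ S, ∫ X, vt p a S X * (u X - Av (tm (θ a)) {i} u X) ^ 2 ∂(PiS (tm (θ a)) (mO p.L) S) =
        IA p θ a S (fun X => vt p a S X * ∑ i ∈ S, dv' a i X) := by
      unfold IA
      simp_rw [Finset.mul_sum]
      rw [integral_finsetSum]
      intro i _
      exact hint _ (hmul (hvb a S) (hdvb a i))
    rw [e5]
    exact (hDNS ι C p β θ hs a ha S _ (hmul (hvb a S) (hsum _ _ fun i _ => hdvb a i))).2
  -- one grid point
  have h2 : ∀ a ∈ p.Gr,
      ∑ e ∈ Ij 3 ι, IO p (fun X => (∏ i ∈ im e, θ a (X i)) * (vt p a (im e) X * ∑ i ∈ im e, dv' a i X)) ≤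
        C₀ * (p.M / p.l ^ 3) ^ 2 * (|C| / p.l ^ 3 *
          ∑ i, IO p (fun X => vt p a {i} X * ic (Qb a (2 * p.l)) (X i) * dv' a i X)) := by
    intro a ha
    have hb1 : ∀ e : Fin 3 → ι, BM (fun X : ι → E => (∏ i ∈ im e, θ a (X i)) *
        (vt p a (im e) X * ∑ i ∈ im e, dv' a i X)) := fun e =>
      hmul (hprodb a (im e)) (hmul (hvb a (im e)) (hsum _ _ fun i _ => hdvb a i))
    have hb2 : ∀ i : ι, BM (fun X : ι → E => vt p a {i} X * ic (Qb a (2 * p.l)) (X i) * dv' a i X) := fun i =>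
      hmul (hmul (hvb a {i}) (hcomp (hicb a _) (measurable_pi_apply i))) (hdvb a i)
    have e1 : ∑ e ∈ Ij 3 ι, IO p (fun X => (∏ i ∈ im e, θ a (X i)) *
        (vt p a (im e) X * ∑ i ∈ im e, dv' a i X)) =
        IO p (fun X => ∑ e ∈ Ij 3 ι, (∏ i ∈ im e, θ a (X i)) * (vt p a (im e) X * ∑ i ∈ im e, dv' a i X)) := by
      unfold IO
      rw [integral_finsetSum]
      intro e _
      exact hIO (hb1 e)
    have e2 : C₀ * (p.M / p.l ^ 3) ^ 2 * (|C| / p.l ^ 3 *
          ∑ i, IO p (fun X => vt p a {i} X * ic (Qb a (2 * p.l)) (X i) * dv' a i X)) =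
        IO p (fun X => C₀ * (p.M / p.l ^ 3) ^ 2 * (|C| / p.l ^ 3 *
          ∑ i, vt p a {i} X * ic (Qb a (2 * p.l)) (X i) * dv' a i X)) := by
      unfold IO
      rw [integral_const_mul, integral_const_mul, integral_finsetSum]
      intro i _
      exact hIO (hb2 i)
    rw [e1, e2]
    unfold IO
    refine integral_mono (hIO (hsum _ _ fun e _ => hb1 e)) (hIO (hcm _ (hcm _ (hsum _ _ fun i _ => hb2 i)))) ?_
    intro X
    show ∑ e ∈ Ij (2 + 1) ι, (∏ i ∈ im e, θ a (X i)) * (vt p a (im e) X * ∑ i ∈ im e, dv' a i X) ≤ _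
    refine ((hC ι p β θ hs a X).2.1 (fun i => dv' a i X) (fun i => sq_nonneg _)).trans ?_
    refine mul_le_mul_of_nonneg_left ?_ (by positivity)
    rw [Finset.mul_sum]
    refine Finset.sum_le_sum fun i _ => ?_
    have hv0 : 0 ≤ vt p a {i} X := by
      rcases ((hVTP ι C p β θ hs a {i}).2.2.1 X).1 with h | h
      · exact h.ge
      · rw [h]
        exact zero_le_one
    have e3 : θ a (X i) ≤ |C| / p.l ^ 3 * ic (Qb a (2 * p.l)) (X i) := by
      by_cases h : θ a (X i) = 0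
      · rw [h]
        have : 0 ≤ ic (Qb a (2 * p.l)) (X i) := Set.indicator_nonneg (fun _ _ => zero_le_one) _
        positivity
      · have e4 : ic (Qb a (2 * p.l)) (X i) = 1 := Set.indicator_of_mem (hs.θsp a _ h) _
        rw [e4, mul_one]
        refine (hs.θb a _).trans ?_
        exact div_le_div_of_nonneg_right (le_abs_self C) (by positivity)
    have e5 : 0 ≤ vt p a {i} X * dv' a i X := mul_nonneg hv0 (sq_nonneg _)
    calc θ a (X i) * (vt p a {i} X * dv' a i X)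
        ≤ |C| / p.l ^ 3 * ic (Qb a (2 * p.l)) (X i) * (vt p a {i} X * dv' a i X) :=
          mul_le_mul_of_nonneg_right e3 e5
      _ = |C| / p.l ^ 3 * (vt p a {i} X * ic (Qb a (2 * p.l)) (X i) * dv' a i X) := by ring
  -- conclusion
  have h3 : BB p θ u 3 - AA p θ u 3 = p.l ^ 3 * ∑ a ∈ p.Gr, ∑ e ∈ Ij 3 ι,
      (IA p θ a (im e) (fun X => vt p a (im e) X * u X ^ 2) -
        IA p θ a (im e) (fun X => Am p θ u a (im e) X ^ 2)) := by
    unfold BB AA
    simp_rw [Finset.sum_sub_distrib]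
    ring
  rw [h3]
  have h4 : ∑ a ∈ p.Gr, ∑ e ∈ Ij 3 ι,
      (IA p θ a (im e) (fun X => vt p a (im e) X * u X ^ 2) -
        IA p θ a (im e) (fun X => Am p θ u a (im e) X ^ 2)) ≤
      ∑ a ∈ p.Gr, C₀ * (p.M / p.l ^ 3) ^ 2 * (|C| / p.l ^ 3 *
          ∑ i, IO p (fun X => vt p a {i} X * ic (Qb a (2 * p.l)) (X i) * dv' a i X)) :=
    Finset.sum_le_sum fun a ha => (Finset.sum_le_sum fun e _ => h1 a ha (im e)).trans (h2 a ha)
  have h5 : ∑ a ∈ p.Gr, C₀ * (p.M / p.l ^ 3) ^ 2 * (|C| / p.l ^ 3 *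
          ∑ i, IO p (fun X => vt p a {i} X * ic (Qb a (2 * p.l)) (X i) * dv' a i X)) =
      C₀ * (p.M / p.l ^ 3) ^ 2 * (|C| / p.l ^ 3 * RR p θ u) := by
    rw [← Finset.mul_sum, ← Finset.mul_sum]
    rfl
  rw [h5] at h4
  have hR0 : 0 ≤ RR p θ u := by
    unfold RR
    refine Finset.sum_nonneg fun a _ => Finset.sum_nonneg fun i _ => integral_nonneg fun X => ?_
    have hv0 : 0 ≤ vt p a {i} X := by
      rcases ((hVTP ι C p β θ hs a {i}).2.2.1 X).1 with h | h
      · exact h.ge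
      · rw [h]
        exact zero_le_one
    have : 0 ≤ ic (Qb a (2 * p.l)) (X i) := Set.indicator_nonneg (fun _ _ => zero_le_one) _
    show 0 ≤ vt p a {i} X * ic (Qb a (2 * p.l)) (X i) * (u X - Av (tm (θ a)) {i} u X) ^ 2
    positivity
  calc p.l ^ 3 * ∑ a ∈ p.Gr, ∑ e ∈ Ij 3 ι,
      (IA p θ a (im e) (fun X => vt p a (im e) X * u X ^ 2) -
        IA p θ a (im e) (fun X => Am p θ u a (im e) X ^ 2))
      ≤ p.l ^ 3 * (C₀ * (p.M / p.l ^ 3) ^ 2 * (|C| / p.l ^ 3 * RR p θ u)) :=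
        mul_le_mul_of_nonneg_left h4 (by positivity)
    _ = C₀ * |C| * (p.M / p.l ^ 3) ^ 2 * RR p θ u := by
        field_simp
    _ ≤ (C₀ * |C| + 1) * (p.M / p.l ^ 3) ^ 2 * RR p θ u := by
        have h6 : 0 ≤ (p.M / p.l ^ 3) ^ 2 * RR p θ u := by positivity
        nlinarith

end Pool.Agent.TBS
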