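import Pool.Agent.TBS.StmtsA

/-!
# Three-body Bose gases, sharp lower bound, module VTP: the indicator `ϑ`
-/

set_option autoImplicit false

open MeasureTheory Filter Topology
open scoped ContDiff

namespace Pool.Agent.TBS

open Pool.Agent.TBG Pool.Agent.TBL Pool.Agent.TBF

namespace VTP_

variable {ι : Type} [Fintype ι] [DecidableEq ι]

open Classical in
lemma nQ_eq (p : Par) (a : E) (S : Finset ι) (X : ι → E) :
    nQ p a S X = ∑ j, if j ∉ S ∧ X j ∈ Qc p a then (1 : ℝ) else 0 := by
  unfold nQ
  rw [Finset.card_filter]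
  push_cast
  rfl

lemma nQ_meas (p : Par) (a : E) (S : Finset ι) (hQ : MeasurableSet (Qc p a)) :
    Measurable (nQ p a S : (ι → E) → ℝ) := by
  classical
  have : (nQ p a S : (ι → E) → ℝ) =
      fun X => ∑ j, if j ∉ S ∧ X j ∈ Qc p a then (1 : ℝ) else 0 := by
    funext X
    exact nQ_eq p a S X
  rw [this]
  refine Finset.measurable_sum _ fun j _ => ?_
  by_cases hj : j ∈ S
  · simp [hj]
  · simp only [hj, not_false_eq_true, true_and]
    exact Measurable.ite ((measurable_pi_apply j) hQ) measurable_const measurable_const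

lemma vt_cases (p : Par) (a : E) (S : Finset ι) (X : ι → E) :
    (vt p a S X = 0) ∨ (vt p a S X = 1 ∧ (S.card : ℝ) + nQ p a S X ≤ p.M) := by
  unfold vt
  split_ifs with h
  · exact Or.inr ⟨rfl, h⟩
  · exact Or.inl rfl

lemma vt_congr (p : Par) (a : E) (S T : Finset ι) (X Y : ι → E)
    (h : (S.card : ℝ) + nQ p a S X = (T.card : ℝ) + nQ p a T Y) : vt p a S X = vt p a T Y := by
  unfold vt
  rw [h]

end VTP_

open VTP_

theorem vtp_proof (_hBMC : Pool.Agent.TBL.Stmt_BMC) (hMSY : Stmt_MSY) : Stmt_VTP := by
  classical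
  intro ι _ _ C p β θ hS a S
  obtain ⟨hl1, -, -, hQc, -, hQQ, -, -, -, -, -, -⟩ := hMSY C p β θ hS
  have hM : 0 ≤ p.M := by linarith [hS.hM]
  refine ⟨⟨?_, 1, ?_⟩, ?_, ?_, ?_, ?_⟩
  · unfold vt
    refine Measurable.ite ?_ measurable_const measurable_const
    exact measurableSet_le (measurable_const.add (nQ_meas p a S (hQc a))) measurable_const
  · intro X
    rcases vt_cases p a S X with h | h
    · rw [h]; simp
    · rw [h.1]; simp
  · intro X Y h
    refine vt_congr p a S S X Y ?_
    rw [nQ_eq, nQ_eq]
    congr 1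
    refine Finset.sum_congr rfl fun j _ => ?_
    by_cases hj : j ∈ S
    · simp [hj]
    · rw [h j hj]
  · intro X
    have hn0 : ∀ Z : ι → E, 0 ≤ nQ p a S Z := by
      intro Z
      unfold nQ
      positivity
    refine ⟨?_, ?_, ?_⟩
    · rcases vt_cases p a S X with h | h
      · exact Or.inl h
      · exact Or.inr h.1
    · rcases vt_cases p a S X with h | h
      · rw [h]; simp
      · rw [h.1, one_mul, mul_one]
        have : (0 : ℝ) ≤ (S.card : ℝ) := by positivity
        linarith [h.2]
    · intro r hr
      rcases vt_cases p a S X with h | h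
      · rw [h]; simp
      · rw [h.1, one_mul, mul_one]
        have h0 : (0 : ℝ) ≤ (S.card : ℝ) := by positivity
        have h1 : ∑ j ∈ Finset.univ \ S, ic (Qb a r) (X j) ≤ nQ p a S X := by
          rw [nQ_eq]
          have h2 : ∑ j ∈ Finset.univ \ S, ic (Qb a r) (X j) ≤
              ∑ j ∈ Finset.univ \ S, (if j ∉ S ∧ X j ∈ Qc p a then (1 : ℝ) else 0) := by
            refine Finset.sum_le_sum fun j hj => ?_
            have hj' : j ∉ S := by
              rw [Finset.mem_sdiff] at hj
              exact hj.2
            unfold ic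
            by_cases hx : X j ∈ Qb a r
            · rw [Set.indicator_of_mem hx, if_pos ⟨hj', hQQ a r hr hx⟩]
            · rw [Set.indicator_of_notMem hx]
              split_ifs
              · exact zero_le_one
              · exact le_rfl
          refine h2.trans (Finset.sum_le_sum_of_subset_of_nonneg (Finset.subset_univ _)
            fun j _ _ => ?_)
          split_ifs
          · exact zero_le_one
          · exact le_rfl
        linarith [h.2]
  · intro T X h
    refine vt_congr p a S (S ∪ T) X X ?_
    have h1 : (Finset.univ.filter fun j => j ∉ S ∧ X j ∈ Qc p a) =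
        (T \ S) ∪ (Finset.univ.filter fun j => j ∉ S ∪ T ∧ X j ∈ Qc p a) := by
      ext j
      simp only [Finset.mem_filter, Finset.mem_univ, true_and, Finset.mem_union, Finset.mem_sdiff]
      constructor
      · rintro ⟨h2, h3⟩
        by_cases h4 : j ∈ T
        · exact Or.inl ⟨h4, h2⟩
        · exact Or.inr ⟨fun h5 => h5.elim h2 h4, h3⟩
      · rintro (⟨h2, h3⟩ | ⟨h2, h3⟩)
        · exact ⟨h3, h j h2 h3⟩
        · exact ⟨fun h4 => h2 (Or.inl h4), h3⟩
    have h2 : Disjoint (T \ S) (Finset.univ.filter fun j => j ∉ S ∪ T ∧ X j ∈ Qc p a) := by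
      rw [Finset.disjoint_left]
      intro j hj hj'
      simp only [Finset.mem_filter, Finset.mem_univ, true_and, Finset.mem_union,
        Finset.mem_sdiff] at hj hj'
      exact hj'.1 (Or.inr hj.1)
    have h3 : (S ∪ T).card = S.card + (T \ S).card := by
      rw [← Finset.union_sdiff_self_eq_union, Finset.card_union_of_disjoint]
      exact Finset.disjoint_sdiff
    unfold nQ
    rw [h1, Finset.card_union_of_disjoint h2, h3]
    push_cast
    ring
  · intro j X y hj hX hy
    refine vt_congr p a S S _ X ?_
    congr 1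
    rw [nQ_eq, nQ_eq]
    refine Finset.sum_congr rfl fun i _ => ?_
    by_cases hij : i = j
    · subst hij
      simp [hj, hX, hy]
    · rw [Function.update_of_ne hij]

end Pool.Agent.TBS
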