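import Pool.Agent.TBS.StmtsC

/-!
# Three-body Bose gases (MP_80dc41_mp), sharp lower bound: module ZET (the weights of the cells)
-/

set_option autoImplicit false

open MeasureTheory Filter Topology
open scoped ContDiff

namespace Pool.Agent.TBS

open Pool.Agent.TBG Pool.Agent.TBL Pool.Agent.TBF

namespace ZET_

/-! ## the function `zt` -/

theorem zt_nn (M₁ x : ℝ) : 0 ≤ zt M₁ x := by
  unfold zt
  exact le_min (le_max_right _ _) zero_le_one

theorem zt_le (M₁ x : ℝ) : zt M₁ x ≤ 1 := by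
  unfold zt
  exact min_le_right _ _

theorem zt_mono {M₁ : ℝ} (h : 0 < M₁) : Monotone (zt M₁) := by
  intro x y hxy
  unfold zt
  refine min_le_min_right _ (max_le_max_right _ ?_)
  exact div_le_div_of_nonneg_right (by linarith) h.le

theorem zt_zero {M₁ : ℝ} (h : 0 < M₁) {x : ℝ} (hx : x ≤ M₁) : zt M₁ x = 0 := by
  unfold zt
  have h1 : (x - M₁) / M₁ ≤ 0 := div_nonpos_of_nonpos_of_nonneg (by linarith) h.le
  rw [max_eq_right h1]
  exact min_eq_left zero_le_one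

theorem zt_one {M₁ : ℝ} (h : 0 < M₁) {x : ℝ} (hx : 2 * M₁ ≤ x) : zt M₁ x = 1 := by
  unfold zt
  have h1 : 1 ≤ (x - M₁) / M₁ := by
    rw [le_div_iff₀ h]
    linarith
  exact min_eq_right (le_trans h1 (le_max_left _ _))

theorem zt_add {M₁ : ℝ} (h : 0 < M₁) (x t : ℝ) (ht : 0 ≤ t) : zt M₁ (t + x) ≤ zt M₁ x + t / M₁ := by
  have h0 : 0 ≤ t / M₁ := div_nonneg ht h.le
  have e : (t + x - M₁) / M₁ = (x - M₁) / M₁ + t / M₁ := by
    rw [← add_div]
    congr 1
    ring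
  unfold zt
  rw [e]
  have h1 : max ((x - M₁) / M₁ + t / M₁) 0 ≤ max ((x - M₁) / M₁) 0 + t / M₁ :=
    max_le (by linarith [le_max_left ((x - M₁) / M₁) 0]) (by linarith [le_max_right ((x - M₁) / M₁) 0])
  calc min (max ((x - M₁) / M₁ + t / M₁) 0) 1 ≤ min (max ((x - M₁) / M₁) 0 + t / M₁) (1 + t / M₁) :=
        min_le_min h1 (by linarith)
    _ = min (max ((x - M₁) / M₁) 0) 1 + t / M₁ := by rw [min_add_add_right]

theorem zt_meas (M₁ : ℝ) : Measurable (zt M₁) := by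
  unfold zt
  fun_prop

/-! ## indicators -/

theorem ic_nn (Q : Set E) (x : E) : 0 ≤ ic Q x := by
  unfold ic
  exact Set.indicator_nonneg (fun _ _ => zero_le_one) x

theorem ic_le (Q : Set E) (x : E) : ic Q x ≤ 1 := by
  unfold ic
  by_cases h : x ∈ Q
  · rw [Set.indicator_of_mem h]
  · rw [Set.indicator_of_notMem h]
    exact zero_le_one

theorem ic_in {Q : Set E} {x : E} (h : x ∈ Q) : ic Q x = 1 := by
  unfold ic
  rw [Set.indicator_of_mem h]

theorem ic_out {Q : Set E} {x : E} (h : x ∉ Q) : ic Q x = 0 := by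
  unfold ic
  rw [Set.indicator_of_notMem h]

theorem ic_bm {Q : Set E} (hQ : MeasurableSet Q) : BM (ic Q) :=
  ⟨measurable_const.indicator hQ, 1, fun x => by
    rw [abs_of_nonneg (ic_nn Q x)]
    exact ic_le Q x⟩

theorem cub_meas (l : ℝ) (a : E) : MeasurableSet (cub l a) := by
  have e : cub l a = ⋂ c : Fin 3, ({x : E | a c ≤ x c} ∩ {x : E | x c < a c + l}) := by
    ext x
    simp only [cub, Set.mem_setOf_eq, Set.mem_iInter, Set.mem_inter_iff]
  rw [e]
  refine MeasurableSet.iInter fun c => ?_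
  have hc : Continuous fun x : E => x c := PiLp.continuous_apply 2 _ c
  exact (isClosed_le continuous_const hc).measurableSet.inter (isOpen_lt hc continuous_const).measurableSet

/-- disjoint cells: a sum over the cells has at most one nonzero term -/
theorem sum_le {K : Type} [Fintype K] [DecidableEq K] (g h : K → ℝ) (hg : ∀ k, 0 ≤ g k ∧ g k ≤ 1)
    (hh : ∀ k, 0 ≤ h k ∧ h k ≤ 1) (hu : ∀ k k', h k ≠ 0 → h k' ≠ 0 → k = k') :
    0 ≤ ∑ k, g k * h k ∧ ∑ k, g k * h k ≤ 1 := by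
  refine ⟨Finset.sum_nonneg fun k _ => mul_nonneg (hg k).1 (hh k).1, ?_⟩
  by_cases hx : ∃ k, h k ≠ 0
  · obtain ⟨k, hk⟩ := hx
    rw [Finset.sum_eq_single k]
    · exact mul_le_one₀ (hg k).2 (hh k).1 (hh k).2
    · intro k' _ hne
      by_contra hc
      have : h k' ≠ 0 := fun h0 => hc (by rw [h0, mul_zero])
      exact hne (hu k' k this hk)
    · intro hc
      exact absurd (Finset.mem_univ k) hc
  · rw [Finset.sum_eq_zero]
    · exact zero_le_one
    · intro k _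
      have : h k = 0 := by
        by_contra hc
        exact hx ⟨k, hc⟩
      rw [this, mul_zero]

section many

variable {ι : Type} [Fintype ι] [DecidableEq ι]

theorem prod_bm (hB : Pool.Agent.TBL.Stmt_BMC) {f : E → ℝ} (hf : BM f) (e : Fin 3 → ι) :
    BM (fun X : ι → E => ∏ s, f (X (e s))) := by
  obtain ⟨hB1, hB2, -, hB4, -⟩ := hB
  have h : ∀ s, BM (fun X : ι → E => f (X (e s))) := fun s =>
    hB4 E (ι → E) f (fun X => X (e s)) hf (measurable_pi_apply (e s))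
  have e3 : (fun X : ι → E => ∏ s, f (X (e s))) = fun X => f (X (e 0)) * f (X (e 1)) * f (X (e 2)) := by
    funext X
    rw [Fin.prod_univ_three]
  rw [e3]
  exact (hB1 _ _ _ (hB1 _ _ _ (h 0) (h 1)).2.2.1 (h 2)).2.2.1

theorem zt_bm {M₁ : ℝ} {F : (ι → E) → ℝ} (hF : BM F) : BM (fun X => zt M₁ (F X)) :=
  ⟨(zt_meas M₁).comp hF.1, 1, fun X => by
    rw [abs_of_nonneg (zt_nn _ _)]
    exact zt_le _ _⟩

theorem nk_bm (hB : Pool.Agent.TBL.Stmt_BMC) (l : ℝ) (Mc : ℕ) (S : Finset ι) (k : Fin 3 → Fin Mc) :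
    BM (nk l Mc S k) := by
  obtain ⟨hB1, hB2, hB3, hB4, -⟩ := hB
  exact hB3 (ι → E) ι _ (fun i X => ic (cub l (crn l Mc k)) (X i)) fun i _ =>
    hB4 E (ι → E) (ic (cub l (crn l Mc k))) (fun X => X i) (ic_bm (cub_meas _ _)) (measurable_pi_apply i)

theorem nk_ind (l : ℝ) (Mc : ℕ) (S : Finset ι) (k : Fin 3 → Fin Mc) : IndS S (nk l Mc S k) := by
  intro X Y h
  unfold nk
  refine Finset.sum_congr rfl fun i hi => ?_
  rw [h i (Finset.mem_sdiff.1 hi).2]

theorem nk_nn (l : ℝ) (Mc : ℕ) (S : Finset ι) (k : Fin 3 → Fin Mc) (X : ι → E) : 0 ≤ nk l Mc S k X :=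
  Finset.sum_nonneg fun _ _ => ic_nn _ _

theorem nk_split (l : ℝ) (Mc : ℕ) (S : Finset ι) (k : Fin 3 → Fin Mc) (X : ι → E) :
    nk l Mc ∅ k X = nk l Mc S k X + ∑ i ∈ S, ic (cub l (crn l Mc k)) (X i) := by
  unfold nk
  rw [Finset.sdiff_empty]
  exact (Finset.sum_sdiff (Finset.subset_univ S)).symm

theorem nk_le (l : ℝ) (Mc : ℕ) (S : Finset ι) (k : Fin 3 → Fin Mc) (X : ι → E) :
    nk l Mc ∅ k X ≤ (S.card : ℝ) + nk l Mc S k X := by
  rw [nk_split l Mc S k X]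
  have h : ∑ i ∈ S, ic (cub l (crn l Mc k)) (X i) ≤ ∑ i ∈ S, (1 : ℝ) := Finset.sum_le_sum fun i _ => ic_le _ _
  rw [Finset.sum_const, nsmul_eq_mul, mul_one] at h
  linarith

theorem nk_ge (l : ℝ) (Mc : ℕ) (S : Finset ι) (k : Fin 3 → Fin Mc) (X : ι → E) :
    nk l Mc S k X ≤ nk l Mc ∅ k X := by
  rw [nk_split l Mc S k X]
  have h : 0 ≤ ∑ i ∈ S, ic (cub l (crn l Mc k)) (X i) := Finset.sum_nonneg fun i _ => ic_nn _ _
  linarith

end many

end ZET_

open ZET_

theorem zet_proof (hBMC : Pool.Agent.TBL.Stmt_BMC) (hGRD : Stmt_GRD) (_hVTP : Stmt_VTP) : Stmt_ZET := by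
  refine ⟨fun M₁ h => ⟨fun x => ⟨zt_nn _ _, zt_le _ _⟩, zt_mono h, fun x hx => zt_zero h hx,
    fun x hx => zt_one h hx, fun x t ht => zt_add h x t ht⟩, ?_⟩
  intro ι _ _ p Mc M₁ hp h
  obtain ⟨-, hU, hA, -⟩ := hGRD p Mc hp
  have hB0 := hBMC
  obtain ⟨hB1, hB2, hB3, hB4, -⟩ := hBMC
  have hicx : ∀ (x : E) (k k' : Fin 3 → Fin Mc), ic (cub p.l (crn p.l Mc k)) x ≠ 0 →
      ic (cub p.l (crn p.l Mc k')) x ≠ 0 → k = k' := by
    intro x k k' h1 h2
    have h1' : x ∈ cub p.l (crn p.l Mc k) := by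
      by_contra hc
      exact h1 (ic_out hc)
    have h2' : x ∈ cub p.l (crn p.l Mc k') := by
      by_contra hc
      exact h2 (ic_out hc)
    exact hU k k' x h1' h2'
  have hX : ∀ i : ι, ∀ k : Fin 3 → Fin Mc, BM (fun X : ι → E => ic (cub p.l (crn p.l Mc k)) (X i)) := fun i k =>
    hB4 E (ι → E) (ic (cub p.l (crn p.l Mc k))) (fun X => X i) (ic_bm (cub_meas _ _)) (measurable_pi_apply i)
  refine ⟨fun S k => ⟨nk_bm hB0 _ _ _ _, nk_ind _ _ _ _, fun X => ⟨nk_nn _ _ _ _ _, nk_le _ _ _ _ _,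
    nk_ge _ _ _ _ _⟩⟩, fun i => ⟨?_, fun X => ?_⟩, fun e => ⟨?_, fun X => ?_⟩,
    fun a S => ⟨?_, ?_, fun X => Finset.sum_nonneg fun k _ => zt_nn _ _⟩, ?_⟩
  · -- `zi` is bounded and measurable
    exact hB3 (ι → E) (Fin 3 → Fin Mc) Finset.univ
      (fun k X => zt M₁ (nk p.l Mc ∅ k X) * ic (cub p.l (crn p.l Mc k)) (X i)) fun k _ =>
      (hB1 _ _ _ (zt_bm (nk_bm hB0 p.l Mc ∅ k)) (hX i k)).2.2.1
  · exact ZET_.sum_le (fun k => zt M₁ (nk p.l Mc ∅ k X)) (fun k => ic (cub p.l (crn p.l Mc k)) (X i))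
      (fun k => ⟨zt_nn _ _, zt_le _ _⟩) (fun k => ⟨ic_nn _ _, ic_le _ _⟩) (hicx (X i))
  · -- `ze` is bounded and measurable
    exact hB3 (ι → E) (Fin 3 → Fin Mc) Finset.univ
      (fun k X => zt M₁ (nk p.l Mc ∅ k X) * ∏ s, ic (cub p.l (crn p.l Mc k)) (X (e s))) fun k _ =>
      (hB1 _ _ _ (zt_bm (nk_bm hB0 p.l Mc ∅ k)) (prod_bm hB0 (ic_bm (cub_meas p.l (crn p.l Mc k))) e)).2.2.1
  · have hpr : ∀ k : Fin 3 → Fin Mc, 0 ≤ ∏ s, ic (cub p.l (crn p.l Mc k)) (X (e s)) ∧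
        ∏ s, ic (cub p.l (crn p.l Mc k)) (X (e s)) ≤ ic (cub p.l (crn p.l Mc k)) (X (e 0)) := by
      intro k
      refine ⟨Finset.prod_nonneg fun s _ => ic_nn _ _, ?_⟩
      rw [Fin.prod_univ_three, mul_assoc]
      have h1 : ic (cub p.l (crn p.l Mc k)) (X (e 1)) * ic (cub p.l (crn p.l Mc k)) (X (e 2)) ≤ 1 :=
        mul_le_one₀ (ic_le _ _) (ic_nn _ _) (ic_le _ _)
      exact mul_le_of_le_one_right (ic_nn _ _) h1
    have hle : ze p.l Mc M₁ e X ≤ zi p.l Mc M₁ (e 0) X := by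
      unfold ze zi
      exact Finset.sum_le_sum fun k _ => mul_le_mul_of_nonneg_left (hpr k).2 (zt_nn _ _)
    have hzi := ZET_.sum_le (fun k => zt M₁ (nk p.l Mc ∅ k X)) (fun k => ic (cub p.l (crn p.l Mc k)) (X (e 0)))
      (fun k => ⟨zt_nn _ _, zt_le _ _⟩) (fun k => ⟨ic_nn _ _, ic_le _ _⟩) (hicx (X (e 0)))
    refine ⟨Finset.sum_nonneg fun k _ => mul_nonneg (zt_nn _ _) (hpr k).1, ?_, hle⟩
    exact le_trans hle hzi.2
  · -- `zb` is bounded and measurable
    exact hB3 (ι → E) (Fin 3 → Fin Mc) (cls p Mc a)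
      (fun k X => zt M₁ ((S.card : ℝ) + nk p.l Mc S k X)) fun k _ =>
      zt_bm (hB1 _ _ _ (hB2 (ι → E) (S.card : ℝ)) (nk_bm hB0 p.l Mc S k)).1
  · intro X Y hXY
    unfold zb
    refine Finset.sum_congr rfl fun k _ => ?_
    rw [nk_ind p.l Mc S k X Y hXY]
  · intro a ha S X
    obtain ⟨hA1, hA2, hA3, -⟩ := hA a ha
    refine ⟨fun i hi => ?_, ?_, ?_⟩
    · obtain ⟨k, hk⟩ := hA2 (X i) hi
      have hkc : k ∈ cls p Mc a := (hA1 k (X i) hk).2 hi
      have e : zi p.l Mc M₁ i X = zt M₁ (nk p.l Mc ∅ k X) := by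
        unfold zi
        rw [Finset.sum_eq_single k]
        · rw [ic_in hk, mul_one]
        · intro k' _ hne
          by_cases hc : X i ∈ cub p.l (crn p.l Mc k')
          · exact absurd (hU k' k (X i) hc hk) hne
          · rw [ic_out hc, mul_zero]
        · intro hc
          exact absurd (Finset.mem_univ k) hc
      rw [e]
      calc zt M₁ (nk p.l Mc ∅ k X) ≤ zt M₁ ((S.card : ℝ) + nk p.l Mc S k X) := zt_mono h (nk_le _ _ _ _ _)
        _ ≤ zb p Mc M₁ a S X :=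
          Finset.single_le_sum (f := fun k => zt M₁ ((S.card : ℝ) + nk p.l Mc S k X))
            (fun k _ => zt_nn _ _) hkc
    · have h1 : ∀ k ∈ cls p Mc a, zt M₁ ((S.card : ℝ) + nk p.l Mc S k X) ≤
          zt M₁ (((∅ : Finset ι).card : ℝ) + nk p.l Mc ∅ k X) + (S.card : ℝ) / M₁ := by
        intro k _
        refine le_trans (zt_add h _ _ (Nat.cast_nonneg _)) ?_
        refine add_le_add_left (zt_mono h ?_) _
        rw [Finset.card_empty, Nat.cast_zero, zero_add]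
        exact nk_ge _ _ _ _ _
      calc zb p Mc M₁ a S X ≤ ∑ k ∈ cls p Mc a,
            (zt M₁ (((∅ : Finset ι).card : ℝ) + nk p.l Mc ∅ k X) + (S.card : ℝ) / M₁) := Finset.sum_le_sum h1
        _ = zb p Mc M₁ a ∅ X + ((cls p Mc a).card : ℝ) * ((S.card : ℝ) / M₁) := by
          rw [Finset.sum_add_distrib, Finset.sum_const, nsmul_eq_mul]
          rfl
        _ ≤ zb p Mc M₁ a ∅ X + 9261 * ((S.card : ℝ) / M₁) := by
          have h2 : 0 ≤ (S.card : ℝ) / M₁ := div_nonneg (Nat.cast_nonneg _) h.le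
          have h3 := mul_le_mul_of_nonneg_right hA3 h2
          linarith
        _ = zb p Mc M₁ a ∅ X + 9261 * (S.card : ℝ) / M₁ := by rw [mul_div_assoc]
    · -- the particles of the large cube
      have e1 : nQ p a ∅ X = ∑ j : ι, ic (Qc p a) (X j) := by
        classical
        unfold nQ
        rw [Finset.card_filter, Nat.cast_sum]
        refine Finset.sum_congr rfl fun j _ => ?_
        by_cases hj : X j ∈ Qc p a
        · rw [ic_in hj, if_pos ⟨Finset.notMem_empty j, hj⟩, Nat.cast_one]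
        · rw [ic_out hj, if_neg (fun hc => hj hc.2), Nat.cast_zero]
      rw [e1]
      have e2 : ∑ k ∈ cls p Mc a, nk p.l Mc ∅ k X =
          ∑ j : ι, ∑ k ∈ cls p Mc a, ic (cub p.l (crn p.l Mc k)) (X j) := by
        rw [Finset.sum_comm]
        refine Finset.sum_congr rfl fun k _ => ?_
        unfold nk
        rw [Finset.sdiff_empty]
      rw [e2]
      refine Finset.sum_congr rfl fun j _ => ?_
      by_cases hj : X j ∈ Qc p a
      · obtain ⟨k, hk⟩ := hA2 (X j) hj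
        have hkc : k ∈ cls p Mc a := (hA1 k (X j) hk).2 hj
        rw [ic_in hj, Finset.sum_eq_single k]
        · rw [ic_in hk]
        · intro k' _ hne
          by_cases hc : X j ∈ cub p.l (crn p.l Mc k')
          · exact absurd (hU k' k (X j) hc hk) hne
          · exact ic_out hc
        · intro hc
          exact absurd hkc hc
      · rw [ic_out hj, Finset.sum_eq_zero]
        intro k hk
        by_cases hc : X j ∈ cub p.l (crn p.l Mc k)
        · exact absurd ((hA1 k (X j) hc).1 hk) hj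
        · exact ic_out hc

end Pool.Agent.TBS
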