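import Pool.Agent.TBK.All
import Pool.Agent.TBL.All
import Pool.Agent.TBS.MSY
import Pool.Agent.TBS.PSF
import Pool.Agent.TBS.AVP
import Pool.Agent.TBS.AVI
import Pool.Agent.TBS.DNS
import Pool.Agent.TBS.AVC
import Pool.Agent.TBS.TLS
import Pool.Agent.TBS.VTP
import Pool.Agent.TBS.CTS
import Pool.Agent.TBS.BBD
import Pool.Agent.TBS.GGB
import Pool.Agent.TBS.VAR
import Pool.Agent.TBS.HAR
import Pool.Agent.TBS.PCQ
import Pool.Agent.TBS.HRD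
import Pool.Agent.TBS.PCT
import Pool.Agent.TBS.HRN
import Pool.Agent.TBS.PCN
import Pool.Agent.TBS.CLX
import Pool.Agent.TBS.HSF
import Pool.Agent.TBS.GS0
import Pool.Agent.TBS.GS1
import Pool.Agent.TBS.GS2
import Pool.Agent.TBS.GS3
import Pool.Agent.TBS.CLS
import Pool.Agent.TBS.QEG
import Pool.Agent.TBS.TUP
import Pool.Agent.TBS.CM3
import Pool.Agent.TBS.CM4
import Pool.Agent.TBS.CM5
import Pool.Agent.TBS.TRK
import Pool.Agent.TBS.TRF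
import Pool.Agent.TBS.KBM
import Pool.Agent.TBS.IBN
import Pool.Agent.TBS.L3I
import Pool.Agent.TBS.L4I
import Pool.Agent.TBS.IDN
import Pool.Agent.TBS.KBD
import Pool.Agent.TBS.LDE
import Pool.Agent.TBS.ONE
import Pool.Agent.TBS.RGH
import Pool.Agent.TBS.E2A
import Pool.Agent.TBS.E2C
import Pool.Agent.TBS.E2P
import Pool.Agent.TBS.E2B
import Pool.Agent.TBS.E3A
import Pool.Agent.TBS.E3P
import Pool.Agent.TBS.E3Q
import Pool.Agent.TBS.E3B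
import Pool.Agent.TBS.LI3
import Pool.Agent.TBS.FIF
import Pool.Agent.TBS.RB1
import Pool.Agent.TBS.QEH
import Pool.Agent.TBS.QES
import Pool.Agent.TBS.RB2
import Pool.Agent.TBS.RB3
import Pool.Agent.TBS.QK1
import Pool.Agent.TBS.QK2
import Pool.Agent.TBS.QK3
import Pool.Agent.TBS.QV1
import Pool.Agent.TBS.CLE
import Pool.Agent.TBS.CLI
import Pool.Agent.TBS.CLY
import Pool.Agent.TBS.DIA
import Pool.Agent.TBS.REP
import Pool.Agent.TBS.RE2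
import Pool.Agent.TBS.R4A
import Pool.Agent.TBS.TLU
import Pool.Agent.TBS.CTI
import Pool.Agent.TBS.TLW
import Pool.Agent.TBS.AQD
import Pool.Agent.TBS.HQ2
import Pool.Agent.TBS.LI4
import Pool.Agent.TBS.MNB
import Pool.Agent.TBS.GRD
import Pool.Agent.TBS.ZET
import Pool.Agent.TBS.CLD
import Pool.Agent.TBS.FRW
import Pool.Agent.TBS.HEN
import Pool.Agent.TBS.GW0
import Pool.Agent.TBS.GW1
import Pool.Agent.TBS.EXA
import Pool.Agent.TBS.EXB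
import Pool.Agent.TBS.EXC
import Pool.Agent.TBS.BBW
import Pool.Agent.TBS.SYM
import Pool.Agent.TBS.PTA
import Pool.Agent.TBS.DCN
import Pool.Agent.TBS.BDP
import Pool.Agent.TBS.TNL
import Pool.Agent.TBS.CLQ
import Pool.Agent.TBS.AR1
import Pool.Agent.TBS.AR2
import Pool.Agent.TBS.AR3
import Pool.Agent.TBS.IOB
import Pool.Agent.TBS.LBN
import Pool.Agent.TBS.LBT
import Pool.Agent.TBS.DEC
import Pool.Agent.TBS.LOE

/-!
# Sharp lower bound for the three-body Bose gas (MP_80dc41_mp, part D): assembly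
-/

set_option autoImplicit false

namespace Pool.Agent.TBS

open Pool.Agent.TBG Pool.Agent.TBL Pool.Agent.TBF

theorem u_msy : Stmt_MSY := msy_proof Pool.Agent.TBL.r_bmc
theorem u_psf : Stmt_PSF := psf_proof Pool.Agent.TBL.r_bmc
theorem u_avp : Stmt_AVP := avp_proof Pool.Agent.TBL.r_bmc
theorem u_avi : Stmt_AVI := avi_proof Pool.Agent.TBL.r_bmc u_psf u_avp
theorem u_dns : Stmt_DNS := dns_proof Pool.Agent.TBL.r_bmc u_msy u_psf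
theorem u_avc : Stmt_AVC := avc_proof Pool.Agent.TBL.r_bmc Pool.Agent.TBL.r_sli u_avp
theorem u_tls : Stmt_TLS := tls_proof Pool.Agent.TBL.r_bmc u_avp u_avi
theorem u_vtp : Stmt_VTP := vtp_proof Pool.Agent.TBL.r_bmc u_msy
theorem u_cts : Stmt_CTS := cts_proof u_msy u_vtp
theorem u_bbd : Stmt_BBD := bbd_proof Pool.Agent.TBL.r_bmc u_msy u_avp u_avi u_dns u_vtp u_cts
theorem u_ggb : Stmt_GGB := ggb_proof Pool.Agent.TBL.r_bmc u_msy u_avp u_avi u_dns u_avc u_vtp u_cts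
theorem u_var : Stmt_VAR := var_proof Pool.Agent.TBL.r_bmc u_msy u_avp u_avi u_dns u_vtp u_cts u_tls
theorem u_har : Stmt_HAR := har_proof Pool.Agent.TBG.q_ibp
theorem u_pcq : Stmt_PCQ := pcq_proof Pool.Agent.TBL.r_pco
theorem u_hrd : Stmt_HRD := hrd_proof Pool.Agent.TBL.r_bmc u_har u_pcq
theorem u_pct : Stmt_PCT := pct_proof Pool.Agent.TBL.r_bmc u_msy u_pcq
theorem u_hrn : Stmt_HRN := hrn_proof Pool.Agent.TBL.r_bmc u_msy u_psf u_avp u_avc u_vtp u_hrd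
theorem u_pcn : Stmt_PCN := pcn_proof Pool.Agent.TBL.r_bmc u_msy u_psf u_avp u_vtp u_pct
theorem u_clx : Stmt_CLX := clx_proof Pool.Agent.TBL.r_bmc u_msy u_psf
theorem u_hsf : Stmt_HSF := hsf_proof Pool.Agent.TBL.r_bmc u_msy u_avp u_vtp
theorem u_gs0 : Stmt_GS0 := gs0_proof Pool.Agent.TBL.r_bmc u_msy u_avp u_avi u_clx u_hsf u_vtp
theorem u_gs1 : Stmt_GS1 := gs1_proof Pool.Agent.TBL.r_bmc u_msy u_avp u_avi u_vtp u_clx u_hsf
theorem u_gs2 : Stmt_GS2 := gs2_proof Pool.Agent.TBL.r_bmc u_msy u_avp u_avc u_vtp u_clx u_hsf u_hrn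
theorem u_gs3 : Stmt_GS3 := gs3_proof Pool.Agent.TBL.r_bmc u_msy u_avp u_avc u_vtp u_clx u_hsf u_hrn
theorem u_cls : Stmt_CLS := cls_proof
theorem u_qeg : Stmt_QEG := qeg_proof Pool.Agent.TBL.r_bmc u_msy u_hsf u_cls
theorem u_tup : Stmt_TUP := tup_proof
theorem u_cm3 : Stmt_CM3 := cm3_proof u_tup
theorem u_cm4 : Stmt_CM4 := cm4_proof u_tup
theorem u_cm5 : Stmt_CM5 := cm5_proof u_tup
theorem u_trk : Stmt_TRK := trk_proof Pool.Agent.TBG.q_ltr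
theorem u_trf : Stmt_TRF := trf_proof
theorem u_kbm : Stmt_KBM := kbm_proof Pool.Agent.TBG.q_ltr
theorem u_ibn : Stmt_IBN := ibn_proof Pool.Agent.TBL.r_bmc Pool.Agent.TBG.q_ibp u_msy u_psf u_avc
theorem u_l3i : Stmt_L3I := l3i_proof Pool.Agent.TBL.r_bmc u_msy u_avc u_hsf u_tup u_trk u_kbm u_ibn
theorem u_l4i : Stmt_L4I := l4i_proof Pool.Agent.TBL.r_bmc u_msy u_avc u_hsf u_tup u_trf u_kbm u_ibn
theorem u_idn : Stmt_IDN := idn_proof Pool.Agent.TBL.r_bmc u_avc u_hsf u_tup u_trf u_kbm u_l3i u_l4i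
theorem u_kbd : Stmt_KBD := kbd_proof Pool.Agent.TBL.r_bmc u_msy
theorem u_lde : Stmt_LDE := lde_proof Pool.Agent.TBL.r_bmc u_msy u_avp u_avi u_dns u_vtp u_tup u_kbd
theorem u_one : Stmt_ONE := one_proof Pool.Agent.TBL.r_bmc u_psf
theorem u_rgh : Stmt_RGH := rgh_proof Pool.Agent.TBL.r_bmc u_msy u_psf u_avp u_avi u_dns u_vtp u_cts
theorem u_e2a : Stmt_E2A := e2a_proof Pool.Agent.TBL.r_bmc u_msy u_avp u_avi u_dns u_vtp u_tup
  u_kbd u_one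
theorem u_e2c : Stmt_E2C := e2c_proof Pool.Agent.TBL.r_bmc u_msy u_psf u_avp u_avi u_dns u_vtp u_kbd
theorem u_e2p : Stmt_E2P := e2p_proof Pool.Agent.TBL.r_bmc u_msy u_psf u_avp u_avi u_vtp u_kbd u_one
theorem u_e2b : Stmt_E2B := e2b_proof Pool.Agent.TBL.r_bmc u_vtp u_tup u_bbd u_rgh u_e2p u_msy
  u_avp u_kbd
theorem u_e3a : Stmt_E3A := e3a_proof Pool.Agent.TBL.r_bmc u_msy u_psf u_avp u_avi u_vtp u_tup
  u_kbd u_one
theorem u_e3p : Stmt_E3P := e3p_proof Pool.Agent.TBL.r_bmc u_msy u_psf u_avp u_avi u_vtp u_kbd u_one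
theorem u_e3q : Stmt_E3Q := e3q_proof Pool.Agent.TBL.r_bmc u_msy u_psf u_avp u_avi u_vtp u_kbd u_one
theorem u_e3b : Stmt_E3B := e3b_proof Pool.Agent.TBL.r_bmc u_vtp u_tup u_cm3 u_bbd u_rgh u_e3p
  u_e3q u_msy u_avp u_kbd
theorem u_li3 : Stmt_LI3 := li3_proof u_bbd u_lde u_e2a u_e2c u_e2b u_e3a u_e3b
theorem u_fif : Stmt_FIF := fif_proof Pool.Agent.TBL.r_bmc u_avc u_hsf u_tup u_trk u_kbm
theorem u_rb1 : Stmt_RB1 := rb1_proof Pool.Agent.TBL.r_bmc u_msy u_psf u_avp u_avi u_avc u_dns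
  u_vtp u_pcn u_kbm u_l3i u_l4i u_fif
theorem u_qeh : Stmt_QEH := qeh_proof Pool.Agent.TBL.r_bmc u_msy u_hsf u_cls
theorem u_qes : Stmt_QES := qes_proof Pool.Agent.TBL.r_bmc u_hsf u_tup
theorem u_rb2 : Stmt_RB2 := rb2_proof Pool.Agent.TBL.r_bmc u_hsf u_tup u_cm3 u_trk u_gs0 u_gs1
  u_gs2 u_qeh u_qes
theorem u_rb3 : Stmt_RB3 := rb3_proof Pool.Agent.TBL.r_bmc u_hsf u_tup u_cm5 u_trf u_kbm u_gs0
  u_gs1 u_gs2 u_gs3 u_qeg
theorem u_qk1 : Stmt_QK1 := qk1_proof Pool.Agent.TBL.r_bmc u_hsf u_tup u_cm3 u_trk u_kbm u_gs2 u_qeg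
theorem u_qk2 : Stmt_QK2 := qk2_proof Pool.Agent.TBL.r_bmc u_hsf u_tup u_cm4 u_trk u_trf u_kbm
  u_gs1 u_gs2 u_gs3 u_qeg
theorem u_qk3 : Stmt_QK3 := qk3_proof Pool.Agent.TBL.r_bmc u_hsf u_tup u_cm5 u_trf u_kbm u_gs1
  u_gs2 u_gs3 u_qeg
theorem u_qv1 : Stmt_QV1 := qv1_proof Pool.Agent.TBL.r_bmc u_hsf u_tup u_kbm u_gs1 u_msy
theorem u_cle : Stmt_CLE := cle_proof Pool.Agent.TBL.r_bmc u_msy u_psf
theorem u_cli : Stmt_CLI := cli_proof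
theorem u_cly : Stmt_CLY := cly_proof Pool.Agent.TBL.r_bmc u_msy u_psf
theorem u_dia : Stmt_DIA := dia_proof Pool.Agent.TBL.r_bmc u_msy u_avc u_hsf u_tup u_kbm u_cle
  u_cli u_avp u_vtp
theorem u_rep : Stmt_REP := rep_proof Pool.Agent.TBL.r_bmc u_msy u_psf u_avp u_avc u_vtp u_hsf
  u_pcn u_tup u_cli u_cly
theorem u_re2 : Stmt_RE2 := re2_proof u_tup u_rep
theorem u_r4a : Stmt_R4A := r4a_proof Pool.Agent.TBL.r_bmc u_hsf u_tup u_kbm u_cli u_gs0 u_rep u_re2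
theorem u_tlu : Stmt_TLU := tlu_proof Pool.Agent.TBL.r_bmc u_msy u_psf u_avp u_avi u_dns
theorem u_cti : Stmt_CTI := cti_proof u_vtp
theorem u_tlw : Stmt_TLW := tlw_proof Pool.Agent.TBL.r_bmc u_msy u_avp u_vtp u_tup u_tlu u_cti
theorem u_aqd : Stmt_AQD := aqd_proof Pool.Agent.TBL.r_bmc u_msy u_avp u_dns u_vtp u_tup u_tlw
theorem u_hq2 : Stmt_HQ2 := hq2_proof Pool.Agent.TBL.r_bmc u_msy u_avp u_vtp u_hsf u_tup u_cle
  u_cli u_aqd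
theorem u_li4 : Stmt_LI4 := li4_proof Pool.Agent.TBL.r_bmc u_msy u_avp u_avi u_vtp u_hsf u_tup
  u_cle u_cli u_tlw u_psf
theorem u_mnb : Stmt_MNB := mnb_proof u_kbm u_hsf u_bbd u_tup u_idn u_li3 u_rb1 u_rb2 u_rb3
  u_qk1 u_qk2 u_qk3 u_qv1 u_dia u_r4a u_hq2 u_li4 Pool.Agent.TBL.r_bmc u_msy u_l3i u_l4i
theorem u_grd : Stmt_GRD := grd_proof
theorem u_zet : Stmt_ZET := zet_proof Pool.Agent.TBL.r_bmc u_grd u_vtp
theorem u_cld : Stmt_CLD := cld_proof Pool.Agent.TBL.r_bmc u_grd Pool.Agent.TBL.r_tla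
theorem u_frw : Stmt_FRW := frw_proof Pool.Agent.TBL.r_bmc Pool.Agent.TBL.r_frz u_tup u_grd
  u_zet u_cld u_avc
theorem u_hen : Stmt_HEN := hen_proof Pool.Agent.TBL.r_bmc u_tup u_hsf u_kbm u_l3i u_l4i u_zet
  u_frw u_avc Pool.Agent.TBG.q_adm
theorem u_gw0 : Stmt_GW0 := gw0_proof Pool.Agent.TBL.r_bmc u_msy u_avp u_avi u_clx u_hsf u_vtp
  u_grd u_zet
theorem u_gw1 : Stmt_GW1 := gw1_proof Pool.Agent.TBL.r_bmc u_msy u_avp u_avi u_vtp u_clx u_hsf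
  u_grd u_zet
theorem u_exa : Stmt_EXA := exa_proof Pool.Agent.TBL.r_bmc u_hsf u_tup u_cm3 u_trk u_kbm u_gs2
  u_qeg u_zet u_gw0 u_gw1
theorem u_exb : Stmt_EXB := exb_proof Pool.Agent.TBL.r_bmc u_hsf u_tup u_cm5 u_trf u_kbm u_gs0
  u_gs1 u_gs2 u_gs3 u_qeg u_zet u_gw0
theorem u_exc : Stmt_EXC := exc_proof Pool.Agent.TBL.r_bmc u_hsf u_tup u_kbm u_gs1 u_zet u_gw0
theorem u_bbw : Stmt_BBW := bbw_proof Pool.Agent.TBL.r_bmc u_msy u_avp u_avi u_dns u_vtp u_zet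
theorem u_sym : Stmt_SYM := sym_proof
theorem u_pta : Stmt_PTA := pta_proof u_msy u_vtp u_sym u_grd u_zet
theorem u_dcn : Stmt_DCN := dcn_proof u_grd u_zet
theorem u_bdp : Stmt_BDP := bdp_proof u_grd u_zet u_msy
theorem u_tnl : Stmt_TNL := tnl_proof
theorem u_clq : Stmt_CLQ := clq_proof u_grd u_zet u_pta u_dcn u_bdp u_tnl u_msy
theorem u_ar1 : Stmt_AR1 := ar1_proof
theorem u_ar2 : Stmt_AR2 := ar2_proof u_ar1
theorem u_ar3 : Stmt_AR3 := ar3_proof u_ar1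
theorem u_iob : Stmt_IOB := iob_proof Pool.Agent.TBL.r_bmc
theorem u_lbn : Stmt_LBN := lbn_proof u_bbd u_ggb u_var u_rgh u_mnb u_hen u_exa u_exb u_exc
  u_bbw u_clq u_ar1 u_ar2 u_ar3 u_kbm u_l3i u_l4i u_avc u_zet
theorem u_lbt : Stmt_LBT := lbt_proof Pool.Agent.TBL.r_den
theorem u_dec : Stmt_DEC := dec_proof Pool.Agent.TBL.r_bmc Pool.Agent.TBL.r_mep
  Pool.Agent.TBL.r_sli Pool.Agent.TBL.r_prf Pool.Agent.TBL.r_sca Pool.Agent.TBL.r_co0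
  Pool.Agent.TBL.r_grp Pool.Agent.TBG.q_adm Pool.Agent.TBF.s_pls
theorem u_loe : Stmt_LOE := loe_proof Pool.Agent.TBK.t_dtx u_dec u_iob u_lbn u_lbt
  Pool.Agent.TBF.s_ob2 Pool.Agent.TBF.s_ob3 Pool.Agent.TBF.s_pls Pool.Agent.TBF.s_dil
  Pool.Agent.TBG.q_adm Pool.Agent.TBL.r_sca

/-- the sharp lower bound -/
theorem u_lowE : Pool.Agent.TBF.LowE := u_loe

end Pool.Agent.TBS
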