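import Pool.Agent.TBF.Defs

/-!
# Three-body Bose gases (MP_80dc41_mp), sharp lower bound: definitions
-/

set_option autoImplicit false

open MeasureTheory Filter Topology
open scoped ContDiff

namespace Pool.Agent.TBS

open Pool.Agent.TBG Pool.Agent.TBL Pool.Agent.TBF

/-! ## cubes, parameters -/

/-- the closed cube with centre `a` and half side `r` -/
def Qb (a : E) (r : ℝ) : Set E := {x | ∀ c, |x c - a c| ≤ r}

/-- the open box `(-L/2, L/2)³` -/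
def Om (L : ℝ) : Set E := {x | ∀ c, |x c| < L / 2}

/-- Lebesgue measure of the box -/
noncomputable def mO (L : ℝ) : Measure E := volume.restrict (Om L)

/-- parameters: side of the box, large and small length scale, bound of the number of particles in the large
cubes, the grid and its interior -/
structure Par where
  L : ℝ
  l : ℝ
  R : ℝ
  M : ℝ
  Gr : Finset E
  Gi : Finset E

/-- the large cube (half open) -/
def Qc (p : Par) (a : E) : Set E := {x | ∀ c, a c - 21 / 2 * p.l ≤ x c ∧ x c < a c + 21 / 2 * p.l}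

/-- the partition functions `β` and the one-particle densities `θ` of the grid points -/
structure Sys (C : ℝ) (p : Par) (β θ : E → E → ℝ) : Prop where
  hR : 1 ≤ p.R
  hl : p.R ≤ p.l
  hM : 4 ≤ p.M
  inb : ∀ a ∈ p.Gr, Qc p a ⊆ Om p.L
  gi : p.Gi ⊆ p.Gr
  mul : ∀ x : E, (((p.Gr.filter (fun a => ∀ c, |x c - a c| ≤ 12 * p.l)).card : ℕ) : ℝ) ≤ C
  βs : ∀ a, ContDiff ℝ ∞ (β a)
  β0 : ∀ a x, 0 ≤ β a x
  βsp : ∀ a x, β a x ≠ 0 → x ∈ Qb a p.l
  βd : ∀ a c x, |pd c (β a) x| ≤ C / p.l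
  β1 : ∀ x, ∑ a ∈ p.Gr, β a x ≤ 1
  βi : ∀ a ∈ p.Gi, ∀ x ∈ Qb a p.l, ∑ a' ∈ p.Gr, β a' x = 1
  βm : ∀ a, ∫ x, β a x = p.l ^ 3
  θm : ∀ a, Measurable (θ a)
  θ0 : ∀ a x, 0 ≤ θ a x
  θb : ∀ a x, θ a x ≤ C / p.l ^ 3
  θsp : ∀ a x, θ a x ≠ 0 → x ∈ Qb a (2 * p.l)
  θ1 : ∀ a, ∫ x, θ a x = 1

/-- the probability measure with density `θ` -/
noncomputable def tm (θ : E → ℝ) : Measure E := volume.withDensity (fun x => ENNReal.ofReal (θ x))

/-- indicator functions -/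
noncomputable def ic (Q : Set E) (x : E) : ℝ := Q.indicator (fun _ => (1 : ℝ)) x

/-! ## many particles -/

section many

variable {ι : Type} [Fintype ι] [DecidableEq ι]

/-- product of the measures `m` (for the particles of `S`) and `n` (for the others) -/
noncomputable def PiS (m n : Measure E) (S : Finset ι) : Measure (ι → E) :=
  Measure.pi (fun i => if i ∈ S then m else n)

/-- average over the particles of `S` with respect to `m` -/
noncomputable def Av (m : Measure E) (S : Finset ι) (F : (ι → E) → ℝ) (X : ι → E) : ℝ :=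
  ∫ Y, F (S.piecewise Y X) ∂(Measure.pi (fun _ : ι => m))

/-- `F` does not depend on the particles of `S` -/
def IndS (S : Finset ι) (F : (ι → E) → ℝ) : Prop := ∀ X Y : ι → E, (∀ i, i ∉ S → X i = Y i) → F X = F Y

/-- centre of mass of the particles of `S` -/
noncomputable def cen (S : Finset ι) (X : ι → E) : E := ((S.card : ℝ))⁻¹ • ∑ i ∈ S, X i

open Classical in
/-- number of the particles not in `S` which are in the large cube -/
noncomputable def nQ (p : Par) (a : E) (S : Finset ι) (X : ι → E) : ℝ :=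
  (((Finset.univ.filter (fun j => j ∉ S ∧ X j ∈ Qc p a)).card : ℕ) : ℝ)

open Classical in
/-- `1` if there are at most `M` particles in the large cube (the particles of `S` are counted) -/
noncomputable def vt (p : Par) (a : E) (S : Finset ι) (X : ι → E) : ℝ :=
  if (S.card : ℝ) + nQ p a S X ≤ p.M then 1 else 0

/-- `ϑ A_S`, the local amplitude -/
noncomputable def Am (p : Par) (θ : E → E → ℝ) (u : (ι → E) → ℝ) (a : E) (S : Finset ι) (X : ι → E) : ℝ :=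
  vt p a S X * Av (tm (θ a)) S u X

/-- the function `h_S` -/
noncomputable def hS (p : Par) (β θ : E → E → ℝ) (u : (ι → E) → ℝ) (S : Finset ι) (X : ι → E) : ℝ :=
  ∑ a ∈ p.Gr, β a (cen S X) * Am p θ u a S X

/-- the majorant of `h_S²` -/
noncomputable def hh2 (p : Par) (θ : E → E → ℝ) (u : (ι → E) → ℝ) (S : Finset ι) (X : ι → E) : ℝ :=
  ∑ a ∈ p.Gr, ic (Qb a p.l) (cen S X) * Am p θ u a S X ^ 2

/-- the particles of a tuple -/
def im {m : ℕ} (e : Fin m → ι) : Finset ι := Finset.univ.image e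

open Classical in
/-- the tuples of `m` distinct particles -/
noncomputable def Ij (m : ℕ) (ι : Type) [Fintype ι] [DecidableEq ι] : Finset (Fin m → ι) :=
  Finset.univ.filter Function.Injective

/-- the integral of functions of `X ∈ Ω^N` -/
noncomputable def IO (p : Par) (F : (ι → E) → ℝ) : ℝ := ∫ X, F X ∂(PiS (mO p.L) (mO p.L) (∅ : Finset ι))

/-- the integral with the particles of `S` averaged over `θ_a` -/
noncomputable def IA (p : Par) (θ : E → E → ℝ) (a : E) (S : Finset ι) (F : (ι → E) → ℝ) : ℝ :=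
  ∫ X, F X ∂(PiS (tm (θ a)) (mO p.L) S)

/-- `∫ u²` -/
noncomputable def UU (p : Par) (u : (ι → E) → ℝ) : ℝ := IO p (fun X => u X ^ 2)

/-- kinetic energy -/
noncomputable def KK (p : Par) (u : (ι → E) → ℝ) : ℝ := IO p (fun X => ∑ i, ∑ c, di i c u X ^ 2)

/-- `m!` times the sum of the `∫ ϑ A_S²` -/
noncomputable def AA (p : Par) (θ : E → E → ℝ) (u : (ι → E) → ℝ) (m : ℕ) : ℝ :=
  p.l ^ 3 * ∑ a ∈ p.Gr, ∑ e ∈ Ij m ι, IA p θ a (im e) (fun X => Am p θ u a (im e) X ^ 2)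

/-- `m!` times the sum of the `∫ ϑ u²` -/
noncomputable def BB (p : Par) (θ : E → E → ℝ) (u : (ι → E) → ℝ) (m : ℕ) : ℝ :=
  p.l ^ 3 * ∑ a ∈ p.Gr, ∑ e ∈ Ij m ι, IA p θ a (im e) (fun X => vt p a (im e) X * u X ^ 2)

/-- the kinetic energy of the amplitudes -/
noncomputable def GG (p : Par) (θ : E → E → ℝ) (u : (ι → E) → ℝ) (m : ℕ) : ℝ :=
  p.l ^ 3 * ∑ a ∈ p.Gr, ∑ e ∈ Ij m ι, IA p θ a (im e) (fun X => vt p a (im e) X *
    ∑ j ∈ Finset.univ \ im e, ic (Qb a (6 * p.l)) (X j) * ∑ c, di j c (Av (tm (θ a)) (im e) u) X ^ 2)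

/-- the roughness -/
noncomputable def RR (p : Par) (θ : E → E → ℝ) (u : (ι → E) → ℝ) : ℝ :=
  ∑ a ∈ p.Gr, ∑ i, IO p (fun X => vt p a {i} X * ic (Qb a (2 * p.l)) (X i) *
    (u X - Av (tm (θ a)) {i} u X) ^ 2)

/-- smooth functions considered -/
def CU (u : (ι → E) → ℝ) : Prop := ContDiff ℝ 1 u ∧ HasCompactSupport u

end many

/-! ## kernels -/

/-- relative positions of three particles -/
def rt (x : Fin 3 → E) : E × E := (x 0 - x 1, x 0 - x 2)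

/-- one-particle kernels -/
structure Pk (l w₁ w₂ w₃ : ℝ) (q : E → ℝ) : Prop where
  meas : Measurable q
  nn : ∀ x, 0 ≤ q x
  le1 : ∀ x, q x ≤ 1
  sp : ∀ x, q x ≠ 0 → ∀ c, |x c| ≤ l
  m1 : ∫ x, q x ≤ w₁
  m2 : ∀ x, q x * ‖x‖ ^ 2 ≤ w₂
  m3 : ∫ x, q x ^ 2 ≤ w₃

/-- kernels of clusters of `m + 1` particles: `κ` is the mass seen from the particle `0` -/
structure Ck (m : ℕ) (l κ : ℝ) (K : (Fin (m + 1) → E) → ℝ) : Prop where
  bm : BM K
  nn : ∀ x, 0 ≤ K x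
  sp : ∀ x, K x ≠ 0 → ∀ s c, |x s c - x 0 c| ≤ l
  mass : ∀ x₀ : E, ∫ z : Fin m → E, K (Fin.cons x₀ z) ≤ κ

/-- the kernels `(1+|x|)^{-α}`, cut off at `R` -/
noncomputable def pk (α R : ℝ) (x : E) : ℝ := ic {y | ‖y‖ ≤ R} x * (1 + ‖x‖) ^ (-α)

/-- the cut off scattering function and the soft potential at the scale `R` -/
structure Tri (C R : ℝ) (φ : E × E → ℝ) (τ g : E × E → ℝ) : Prop where
  smooth : ContDiff ℝ ∞ τ
  sy1 : ∀ x y, τ (x, y) = τ (y, x)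
  sy2 : ∀ x y, τ (x, y) = τ (-x, y - x)
  nn : ∀ z, 0 ≤ τ z
  dec0 : ∀ z, (1 + ‖z‖) ^ 4 * τ z ≤ C
  dec1 : ∀ m c z, (1 + ‖z‖) ^ 5 * |dv (dr m c) τ z| ≤ C
  sp : ∀ z, R < ‖z‖ → τ z = 0
  eqn : ∀ z, Lap τ z = g z - ww φ z
  g0 : ∀ z, 0 ≤ g z
  gb : ∀ z, R ^ 6 * g z ≤ C
  gsp : ∀ z, R < ‖z‖ → g z = 0
  mass : ∫ z, g z = ∫ z, ww φ z
  en : ∫ z, (gsq τ z + ww φ z * (1 - φ z)) ≤ ∫ z, ww φ z
  cl : ∀ m c z, C * ‖z‖ ≤ R → dv (dr m c) τ z = dv (dr m c) φ z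

/-- the densities of triples -/
structure Trp (C b : ℝ) (p : Par) (β θ : E → E → ℝ) (g : E × E → ℝ) (P : E → E → E → E → ℝ) : Prop where
  df : ∀ a x y z, P a x y z = (b * p.l ^ 3)⁻¹ * (β a ((1 / 3 : ℝ) • (x + y + z)) * g (x - y, x - z))
  sy : ∀ a, Sy3 (P a)
  bm : ∀ a, BM3 (P a)
  nn : ∀ a x y z, 0 ≤ P a x y z
  bd : ∀ a x y z, P a x y z ≤ C / (p.l ^ 3 * p.R ^ 6)
  sp : ∀ a x y z, P a x y z ≠ 0 → x ∈ Qb a (2 * p.l) ∧ ‖x - y‖ ≤ p.R ∧ ‖x - z‖ ≤ p.R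
  mar : ∀ a x, ∫ y, ∫ z, P a x y z = θ a x

/-- the pair density -/
noncomputable def P2 (P : E → E → E → E → ℝ) (a x y : E) : ℝ := ∫ z, P a x y z

/-- the centred pair kernel -/
noncomputable def K2 (θ : E → E → ℝ) (P : E → E → E → E → ℝ) (a x y : E) : ℝ := P2 P a x y - θ a x * θ a y

/-- the centred triple kernel -/
noncomputable def K3 (θ : E → E → ℝ) (P : E → E → E → E → ℝ) (a x y z : E) : ℝ :=
  P a x y z - θ a x * P2 P a y z - θ a y * P2 P a x z - θ a z * P2 P a x y + 2 * (θ a x * θ a y * θ a z)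

/-! ## the fields -/

section fields

variable {ι : Type} [Fintype ι] [DecidableEq ι]

open Classical in
/-- the three-body field of the particle `i` -/
noncomputable def aF (p : Par) (β θ : E → E → ℝ) (τ : E × E → ℝ) (u : (ι → E) → ℝ) (i : ι) (c : Fin 3)
    (X : ι → E) : ℝ :=
  1 / 2 * ∑ e ∈ (Ij 3 ι).filter (fun e => e 0 = i), hS p β θ u (im e) X * dv (dr 0 c) τ (rt (X ∘ e))

open Classical in
/-- the four-body field of the particle `i` -/
noncomputable def bF (p : Par) (β θ : E → E → ℝ) (Y : Fin 4 → Fin 3 → W4 → ℝ) (u : (ι → E) → ℝ) (i : ι) (c : Fin 3)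
    (X : ι → E) : ℝ :=
  1 / 6 * ∑ e ∈ (Ij 4 ι).filter (fun e => e 0 = i), hS p β θ u (im e) X * Y 0 c (rl (X ∘ e))

/-- the four particles `e`, `j` -/
def ap {ι : Type} (e : Fin 3 → ι) (j : ι) : Fin 4 → ι := ![e 0, e 1, e 2, j]

/-- the reference function at the triple `e` -/
noncomputable def vF (p : Par) (β θ : E → E → ℝ) (φ : E × E → ℝ) (y : W4 → ℝ) (u : (ι → E) → ℝ) (e : Fin 3 → ι)
    (X : ι → E) : ℝ :=
  (1 - φ (rt (X ∘ e))) * hS p β θ u (im e) X +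
    ∑ j ∈ Finset.univ \ im e, y (rl (X ∘ ap e j)) * hS p β θ u (im (ap e j)) X

/-- the energy -/
noncomputable def EN (p : Par) (V : E → E → ℝ) (u : (ι → E) → ℝ) : ℝ :=
  IO p (fun X => ∑ i, ∑ c, di i c u X ^ 2 + potS V X * u X ^ 2)

/-- the kinetic part of the remaining energy -/
noncomputable def XX (p : Par) (β θ : E → E → ℝ) (τ : E × E → ℝ) (Y : Fin 4 → Fin 3 → W4 → ℝ)
    (u : (ι → E) → ℝ) : ℝ :=
  IO p (fun X => ∑ i, ∑ c, (di i c u X + aF p β θ τ u i c X - bF p β θ Y u i c X) ^ 2)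

/-- the potential part of the remaining energy -/
noncomputable def VX (p : Par) (β θ : E → E → ℝ) (φ : E × E → ℝ) (y : W4 → ℝ) (u : (ι → E) → ℝ) : ℝ :=
  IO p (fun X => 1 / 6 * ∑ e ∈ Ij 3 ι, VV φ (rt (X ∘ e)).1 (rt (X ∘ e)).2 * (u X - vF p β θ φ y u e X) ^ 2)

/-- the linear terms -/
noncomputable def L3 (p : Par) (β θ : E → E → ℝ) (g : E × E → ℝ) (u : (ι → E) → ℝ) : ℝ :=
  IO p (fun X => 1 / 3 * ∑ e ∈ Ij 3 ι, u X * (hS p β θ u (im e) X * g (rt (X ∘ e))))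

noncomputable def L4 (p : Par) (β θ : E → E → ℝ) (g : W4 → ℝ) (u : (ι → E) → ℝ) : ℝ :=
  IO p (fun X => 1 / 12 * ∑ e ∈ Ij 4 ι, u X * (hS p β θ u (im e) X * g (rl (X ∘ e))))

/-- the quadratic terms -/
noncomputable def QK (p : Par) (β θ : E → E → ℝ) (τ : E × E → ℝ) (Y : Fin 4 → Fin 3 → W4 → ℝ)
    (u : (ι → E) → ℝ) : ℝ :=
  IO p (fun X => ∑ i, ∑ c, (aF p β θ τ u i c X - bF p β θ Y u i c X) ^ 2)

noncomputable def QV (p : Par) (β θ : E → E → ℝ) (φ : E × E → ℝ) (y : W4 → ℝ) (u : (ι → E) → ℝ) : ℝ :=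
  IO p (fun X => 1 / 6 * ∑ e ∈ Ij 3 ι, VV φ (rt (X ∘ e)).1 (rt (X ∘ e)).2 * vF p β θ φ y u e X ^ 2)

/-- the kernel of the four-body terms -/
noncomputable def k4 (φ τ : E × E → ℝ) (y : W4 → ℝ) (Y : Fin 4 → Fin 3 → W4 → ℝ) (q : W4) : ℝ :=
  (∑ c, dv (dr 0 c) τ (q.1, q.2.1) * dv (dr 0 c) τ (q.1, q.2.2))
    - (∑ c, dv (dr 0 c) τ (q.1, q.2.1) * Y 0 c q) + 1 / 6 * (∑ c, Y 0 c q ^ 2)
    + 1 / 3 * (ww φ (q.1, q.2.1) * y q) + 1 / 6 * (VV φ q.1 q.2.1 * y q ^ 2)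

end fields

end Pool.Agent.TBS
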