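import Pool.Agent.TBS.StmtsB

/-!
# Squad TBS, module E3B: the norm of `W3`
-/

set_option autoImplicit false

open MeasureTheory Filter Topology
open scoped ContDiff

namespace Pool.Agent.TBS

open Pool.Agent.TBG Pool.Agent.TBL Pool.Agent.TBF

namespace E3B_

section

variable {ι : Type} [Fintype ι] [DecidableEq ι]

theorem finPiS (m n : Measure E) [IsFiniteMeasure m] [IsFiniteMeasure n] (S : Finset ι) :
    IsFiniteMeasure (PiS m n S) := by
  unfold PiS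
  have : ∀ i : ι, IsFiniteMeasure ((fun i => if i ∈ S then m else n) i) := by
    intro i
    show IsFiniteMeasure (if i ∈ S then m else n)
    split_ifs <;> infer_instance
  infer_instance

theorem im3 (e : Fin 3 → ι) : im e = {e 0, e 1, e 2} := by
  ext x
  simp only [im, Finset.mem_image, Finset.mem_univ, true_and, Finset.mem_insert, Finset.mem_singleton]
  constructor
  · rintro ⟨s, rfl⟩
    fin_cases s <;> simp
  · rintro (h | h | h)
    · exact ⟨0, h.symm⟩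
    · exact ⟨1, h.symm⟩
    · exact ⟨2, h.symm⟩

theorem mem3 {e : Fin 3 → ι} (he : e ∈ Ij 3 ι) : e 0 ≠ e 1 ∧ e 0 ≠ e 2 ∧ e 1 ≠ e 2 := by
  have hi : Function.Injective e := by
    simpa [Ij] using he
  exact ⟨fun h => absurd (hi h) (by decide), fun h => absurd (hi h) (by decide),
    fun h => absurd (hi h) (by decide)⟩

theorem mem4 {e : Fin 4 → ι} (he : e ∈ Ij 4 ι) :
    e 0 ≠ e 1 ∧ e 0 ≠ e 2 ∧ e 1 ≠ e 2 ∧ e 3 ≠ e 0 ∧ e 3 ≠ e 1 ∧ e 3 ≠ e 2 := by
  have hi : Function.Injective e := by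
    simpa [Ij] using he
  exact ⟨fun h => absurd (hi h) (by decide), fun h => absurd (hi h) (by decide),
    fun h => absurd (hi h) (by decide), fun h => absurd (hi h) (by decide),
    fun h => absurd (hi h) (by decide), fun h => absurd (hi h) (by decide)⟩

/-- the second factor has two new particles -/
theorem key {e e' : Fin 3 → ι} (h0 : e' 0 = e 0) (hc : (im e' \ im e).card = 2) :
    e' 1 ∉ im e ∧ e' 2 ∉ im e := by
  have h0m : e' 0 ∈ im e := by
    rw [h0, im3]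
    simp
  constructor
  · intro h1
    have hs : im e' \ im e ⊆ {e' 2} := by
      intro x hx
      rw [Finset.mem_sdiff, im3 e'] at hx
      simp only [Finset.mem_insert, Finset.mem_singleton] at hx
      rcases hx with ⟨rfl | rfl | rfl, hx⟩
      · exact absurd h0m hx
      · exact absurd h1 hx
      · simp
    have := Finset.card_le_card hs
    rw [hc, Finset.card_singleton] at this
    omega
  · intro h2
    have hs : im e' \ im e ⊆ {e' 1} := by
      intro x hx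
      rw [Finset.mem_sdiff, im3 e'] at hx
      simp only [Finset.mem_insert, Finset.mem_singleton] at hx
      rcases hx with ⟨rfl | rfl | rfl, hx⟩
      · exact absurd h0m hx
      · simp
      · exact absurd h2 hx
    have := Finset.card_le_card hs
    rw [hc, Finset.card_singleton] at this
    omega

/-- the pairs of `CM3` -/
noncomputable def fl (e : Fin 3 → ι) : Finset (Fin 3 → ι) := (Ij 3 ι).filter (fun e' => e' 0 = e 0 ∧
  (im e' \ im e).card = 2 ∧ (im e \ im e').card = 2)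

theorem mem_fl {e e' : Fin 3 → ι} : e' ∈ fl e ↔ e' ∈ Ij 3 ι ∧ e' 0 = e 0 ∧
    (im e' \ im e).card = 2 ∧ (im e \ im e').card = 2 := by
  unfold fl
  rw [Finset.mem_filter]

theorem nodup5 {e e' : Fin 3 → ι} (he : e ∈ Ij 3 ι) (he' : e' ∈ fl e) :
    ([e 0, e 1, e 2, e' 1, e' 2] : List ι).Nodup := by
  rw [mem_fl] at he'
  obtain ⟨h1, h2, h3, h4⟩ := he'
  obtain ⟨a1, a2, a3⟩ := mem3 he
  obtain ⟨b1, b2, b3⟩ := mem3 h1
  obtain ⟨k1, k2⟩ := key h2 h3
  rw [im3] at k1 k2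
  simp only [Finset.mem_insert, Finset.mem_singleton, not_or] at k1 k2
  simp only [List.nodup_cons, List.mem_cons, List.not_mem_nil, or_false, not_or, List.nodup_nil,
    not_false_eq_true, and_true]
  exact ⟨⟨a1, a2, fun h => k1.1 h.symm, fun h => k2.1 h.symm⟩, ⟨a3, fun h => k1.2.1 h.symm,
    fun h => k2.2.1 h.symm⟩, ⟨fun h => k1.2.2 h.symm, fun h => k2.2.2 h.symm⟩, b3⟩

/-- the swap of the two triples -/
theorem swp (G : (Fin 3 → ι) → (Fin 3 → ι) → ℝ) :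
    ∑ e ∈ Ij 3 ι, ∑ e' ∈ fl e, G e e' = ∑ e ∈ Ij 3 ι, ∑ e' ∈ fl e, G e' e := by
  apply Finset.sum_comm'
  intro x y
  rw [mem_fl, mem_fl]
  constructor
  · rintro ⟨h1, h2, h3, h4, h5⟩
    exact ⟨⟨h1, h3.symm, h5, h4⟩, h2⟩
  · rintro ⟨⟨h1, h3, h4, h5⟩, h2⟩
    exact ⟨h1, h2, h3.symm, h5, h4⟩

/-- sum over the pairs by sum over two particles -/
theorem sumfl (e : Fin 3 → ι) (r : ι → ι → ℝ) (hr : ∀ j k, 0 ≤ r j k) :
    ∑ e' ∈ fl e, r (e' 1) (e' 2) ≤ ∑ j ∈ Finset.univ \ im e, ∑ k ∈ Finset.univ \ im e, r j k := by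
  have hinj : Set.InjOn (fun e' : Fin 3 → ι => (e' 1, e' 2)) (fl e : Set (Fin 3 → ι)) := by
    intro x hx y hy hxy
    have hx' := mem_fl.mp (Finset.mem_coe.mp hx)
    have hy' := mem_fl.mp (Finset.mem_coe.mp hy)
    have h1 : x 1 = y 1 := congrArg Prod.fst hxy
    have h2 : x 2 = y 2 := congrArg Prod.snd hxy
    funext s
    fin_cases s
    · exact hx'.2.1.trans hy'.2.1.symm
    · exact h1
    · exact h2
  have h1 : ∑ e' ∈ fl e, r (e' 1) (e' 2) =
      ∑ q ∈ (fl e).image (fun e' : Fin 3 → ι => (e' 1, e' 2)), r q.1 q.2 := by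
    rw [Finset.sum_image hinj]
  rw [h1, ← Finset.sum_product' (Finset.univ \ im e) (Finset.univ \ im e) r]
  refine Finset.sum_le_sum_of_subset_of_nonneg ?_ (fun q _ _ => hr _ _)
  intro q hq
  obtain ⟨e', he', rfl⟩ := Finset.mem_image.mp hq
  obtain ⟨-, h0, hc, -⟩ := mem_fl.mp he'
  obtain ⟨k1, k2⟩ := key h0 hc
  rw [Finset.mem_product]
  exact ⟨Finset.mem_sdiff.mpr ⟨Finset.mem_univ _, k1⟩, Finset.mem_sdiff.mpr ⟨Finset.mem_univ _, k2⟩⟩

end

end E3B_

open E3B_ in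
theorem e3b_proof (hBMC : Pool.Agent.TBL.Stmt_BMC) (hVTP : Stmt_VTP) (hTUP : Stmt_TUP) (hCM3 : Stmt_CM3)
    (hBBD : Stmt_BBD) (hRGH : Stmt_RGH) (hE3P : Stmt_E3P) (hE3Q : Stmt_E3Q) (hMSY : Stmt_MSY)
    (hAVP : Stmt_AVP) (hKBD : Stmt_KBD) : Stmt_E3B := by
  intro C b
  obtain ⟨Cp, hCp, hP⟩ := hE3P C b
  obtain ⟨Cq, hCq, hQ⟩ := hE3Q C b
  obtain ⟨Cr, hCr, hR⟩ := hRGH C 3
  obtain ⟨Ck, hCk, hK⟩ := hKBD C b
  obtain ⟨Cb, hCb, hB⟩ := hBBD C 3
  refine ⟨2 * Cp + (8 * Cp + 2 * Cq) * Cr, by positivity, ?_⟩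
  intro ι _ _ p β θ g P u hsys htrp hu
  obtain ⟨B1, B2, B3, B4, B5⟩ := hBMC
  have bmul : ∀ F G : (ι → E) → ℝ, BM F → BM G → BM (fun X => F X * G X) := fun F G hF hG =>
    (B1 _ F G hF hG).2.2.1
  have badd : ∀ F G : (ι → E) → ℝ, BM F → BM G → BM (fun X => F X + G X) := fun F G hF hG =>
    (B1 _ F G hF hG).1
  have bsub : ∀ F G : (ι → E) → ℝ, BM F → BM G → BM (fun X => F X - G X) := fun F G hF hG =>
    (B1 _ F G hF hG).2.1
  have bsq : ∀ F : (ι → E) → ℝ, BM F → BM (fun X => F X ^ 2) := fun F hF => (B1 _ F F hF hF).2.2.2.1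
  have bcm : ∀ (F : (ι → E) → ℝ) (a : ℝ), BM F → BM (fun X => a * F X) := fun F a hF =>
    (B1 _ F F hF hF).2.2.2.2.2.1 a
  obtain ⟨hl1, hfin, -, -, hQb, hQbQ, hprob, -, -, -, -, -⟩ := hMSY C p β θ hsys
  have hK' := hK p β θ g P hsys htrp
  have hR' := hR ι p β θ u hsys hu
  have hB' := hB ι p β θ u hsys hu
  obtain ⟨T1, T2', T3', T4, T5, T6, T7⟩ := hTUP ι
  have hl0 : 0 < p.l := by linarith
  have hR1 := hsys.hR
  have hR0 : 0 < p.R := by linarith
  have hM4 := hsys.hM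
  -- the functions
  set f : E → (Fin 3 → ι) → (ι → E) → ℝ := fun a e X =>
    K3 θ P a (X (e 0)) (X (e 1)) (X (e 2)) * Am p θ u a (im e) X with hf
  have hAv : ∀ (a : E) (S : Finset ι), BM (Av (tm (θ a)) S u) := fun a S => by
    have := hprob a
    exact (hAVP ι (tm (θ a)) S S u u hu hu).1
  have hvt : ∀ (a : E) (S : Finset ι), BM (vt p a S) := fun a S => (hVTP ι C p β θ hsys a S).1
  have hvt0 : ∀ (a : E) (S : Finset ι) (X : ι → E), 0 ≤ vt p a S X := fun a S X => by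
    rcases ((hVTP ι C p β θ hsys a S).2.2.1 X).1 with h | h <;> rw [h]
    exact zero_le_one
  have hAm : ∀ (a : E) (S : Finset ι), BM (Am p θ u a S) := fun a S => bmul _ _ (hvt a S) (hAv a S)
  have hfB : ∀ a e, BM (f a e) := by
    intro a e
    have h3 : BM (fun q : E × E × E => K3 θ P a q.1 q.2.1 q.2.2) := (hK' a).2.1
    have hm : Measurable (fun X : ι → E => ((X (e 0), X (e 1), X (e 2)) : E × E × E)) :=
      (measurable_pi_apply _).prodMk ((measurable_pi_apply _).prodMk (measurable_pi_apply _))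
    exact bmul _ _ (B4 _ _ _ _ h3 hm) (hAm a (im e))
  have hic : ∀ (a : E) (r : ℝ) (j : ι), BM (fun X : ι → E => ic (Qb a r) (X j)) := by
    intro a r j
    refine ⟨(measurable_const.indicator (hQb a r).1).comp (measurable_pi_apply j), 1, fun X => ?_⟩
    show |(Qb a r).indicator (fun _ => (1 : ℝ)) (X j)| ≤ 1
    by_cases h : X j ∈ Qb a r
    · rw [Set.indicator_of_mem h, abs_one]
    · rw [Set.indicator_of_notMem h, abs_zero]
      exact zero_le_one
  have hic0 : ∀ (a : E) (r : ℝ) (x : E), 0 ≤ ic (Qb a r) x := fun a r x =>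
    Set.indicator_nonneg (fun _ _ => zero_le_one) _
  have hfinS : ∀ (a : E) (S : Finset ι), IsFiniteMeasure (PiS (ι := ι) (tm (θ a)) (mO p.L) S) := fun a S => by
    have := hprob a
    exact finPiS _ _ S
  have hfinO : IsFiniteMeasure (PiS (ι := ι) (mO p.L) (mO p.L) (∅ : Finset ι)) := finPiS _ _ _
  have hintO : ∀ F : (ι → E) → ℝ, BM F → Integrable F (PiS (ι := ι) (mO p.L) (mO p.L) (∅ : Finset ι)) :=
    fun F hF => (B1 _ F F hF hF).2.2.2.2.2.2 _
  have hintS : ∀ (a : E) (S : Finset ι) (F : (ι → E) → ℝ), BM F →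
      Integrable F (PiS (ι := ι) (tm (θ a)) (mO p.L) S) := fun a S F hF => by
    have := hfinS a S
    exact (B1 _ F F hF hF).2.2.2.2.2.2 _
  have hrg0 : ∀ (a : E) (S : Finset ι) (j : ι), 0 ≤ rg p θ u a S j := fun a S j => by
    unfold rg IA
    exact integral_nonneg fun X => mul_nonneg (hvt0 _ _ _) (mul_nonneg (hic0 _ _ _) (sq_nonneg _))
  have hrh0 : ∀ (a : E) (S : Finset ι) (j k : ι), 0 ≤ rh p θ u a S j k := fun a S j k => by
    unfold rh IA
    exact integral_nonneg fun X => mul_nonneg (hvt0 _ _ _) (mul_nonneg (hic0 _ _ _)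
      (mul_nonneg (hic0 _ _ _) (sq_nonneg _)))
  -- the sum over the further particle
  have hrh : ∀ (a : E) (S : Finset ι) (j : ι), ∑ k ∈ Finset.univ \ S, rh p θ u a S j k ≤
      p.M * rg p θ u a S j := by
    intro a S j
    have hb : BM (fun X : ι → E => ic (Qb a (2 * p.l)) (X j) *
        (Av (tm (θ a)) S u X - Av (tm (θ a)) (insert j S) u X) ^ 2) :=
      bmul _ _ (hic a _ j) (bsq _ (bsub _ _ (hAv a S) (hAv a (insert j S))))
    unfold rh rg IA
    rw [← integral_finsetSum _ (fun k _ => hintS a S _ (bmul _ _ (hvt a S) (bmul _ _ (hic a _ k) hb))),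
      ← integral_const_mul]
    refine integral_mono (hintS a S _ (B3 _ _ _ _ fun k _ => bmul _ _ (hvt a S) (bmul _ _ (hic a _ k) hb)))
      (hintS a S _ (bcm _ _ (bmul _ _ (hvt a S) hb))) (fun X => ?_)
    show ∑ k ∈ Finset.univ \ S, vt p a S X * (ic (Qb a (2 * p.l)) (X k) * (ic (Qb a (2 * p.l)) (X j) *
        (Av (tm (θ a)) S u X - Av (tm (θ a)) (insert j S) u X) ^ 2)) ≤
      p.M * (vt p a S X * (ic (Qb a (2 * p.l)) (X j) *
        (Av (tm (θ a)) S u X - Av (tm (θ a)) (insert j S) u X) ^ 2))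
    set D := ic (Qb a (2 * p.l)) (X j) *
        (Av (tm (θ a)) S u X - Av (tm (θ a)) (insert j S) u X) ^ 2 with hD
    have hD0 : 0 ≤ D := mul_nonneg (hic0 _ _ _) (sq_nonneg _)
    have h1 := ((hVTP ι C p β θ hsys a S).2.2.1 X).2.2 (2 * p.l) (by linarith)
    calc ∑ k ∈ Finset.univ \ S, vt p a S X * (ic (Qb a (2 * p.l)) (X k) * D)
        = (vt p a S X * ∑ k ∈ Finset.univ \ S, ic (Qb a (2 * p.l)) (X k)) * D := by
          rw [Finset.mul_sum, Finset.sum_mul]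
          exact Finset.sum_congr rfl fun k _ => by ring
      _ ≤ (p.M * vt p a S X) * D := mul_le_mul_of_nonneg_right h1 hD0
      _ = p.M * (vt p a S X * D) := by ring
  -- the expansion
  have hexp : ∀ a : E, ∑ i, IO p (fun X => W3 p θ P u a i X ^ 2) =
      2 * ∑ e ∈ Ij 3 ι, IO p (fun X => f a e X ^ 2) +
      4 * ∑ e ∈ Ij 4 ι, IO p (fun X => f a (s2 e) X * f a (s3 e) X) +
      ∑ e ∈ Ij 3 ι, ∑ e' ∈ fl e, IO p (fun X => f a e X * f a e' X) := by
    intro a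
    have hpt : ∀ X : ι → E, ∑ i, W3 p θ P u a i X ^ 2 =
        2 * ∑ e ∈ Ij 3 ι, f a e X ^ 2 + 4 * ∑ e ∈ Ij 4 ι, f a (s2 e) X * f a (s3 e) X +
        ∑ e ∈ Ij 3 ι, ∑ e' ∈ fl e, f a e X * f a e' X := by
      intro X
      have hs : ∀ e : Fin 3 → ι, (fun e => f a e X) (e ∘ Equiv.swap 1 2) = (fun e => f a e X) e := by
        intro e
        show K3 θ P a (X (e (Equiv.swap 1 2 0))) (X (e (Equiv.swap 1 2 1))) (X (e (Equiv.swap 1 2 2))) *
          Am p θ u a (im (e ∘ Equiv.swap 1 2)) X = K3 θ P a (X (e 0)) (X (e 1)) (X (e 2)) *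
          Am p θ u a (im e) X
        rw [((T2' 3 (Equiv.swap 1 2)).2 e).1, Equiv.swap_apply_left, Equiv.swap_apply_right,
          Equiv.swap_apply_of_ne_of_ne (by decide) (by decide), (hK' a).2.2.2.1.s2]
      have h := hCM3 ι (fun e => f a e X) (fun e => f a e X) hs hs
      have hW : ∀ i, W3 p θ P u a i X = ∑ e ∈ (Ij 3 ι).filter (fun e => e 0 = i), f a e X := by
        intro i
        unfold W3
        congr!
      calc ∑ i, W3 p θ P u a i X ^ 2
          = ∑ i, (∑ e ∈ (Ij 3 ι).filter (fun e => e 0 = i), f a e X) *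
              (∑ e ∈ (Ij 3 ι).filter (fun e => e 0 = i), f a e X) :=
            Finset.sum_congr rfl fun i _ => by rw [hW i, sq]
        _ = _ := by
            rw [h]
            unfold fl
            simp only [sq]
    have hWB : ∀ i, BM (W3 p θ P u a i) := by
      intro i
      unfold W3
      exact B3 _ _ _ _ fun e _ => hfB a e
    have b2 : BM (fun X => ∑ e ∈ Ij 3 ι, f a e X ^ 2) := B3 _ _ _ _ fun e _ => bsq _ (hfB a e)
    have b4 : BM (fun X => ∑ e ∈ Ij 4 ι, f a (s2 e) X * f a (s3 e) X) :=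
      B3 _ _ _ _ fun e _ => bmul _ _ (hfB a _) (hfB a _)
    have b5 : ∀ e, BM (fun X => ∑ e' ∈ fl e, f a e X * f a e' X) := fun e =>
      B3 _ _ _ _ fun e' _ => bmul _ _ (hfB a _) (hfB a _)
    have b6 : BM (fun X => ∑ e ∈ Ij 3 ι, ∑ e' ∈ fl e, f a e X * f a e' X) := B3 _ _ _ _ fun e _ => b5 e
    calc ∑ i, IO p (fun X => W3 p θ P u a i X ^ 2)
        = IO p (fun X => ∑ i, W3 p θ P u a i X ^ 2) := by
          unfold IO
          rw [integral_finsetSum _ (fun i _ => hintO _ (bsq _ (hWB i)))]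
      _ = IO p (fun X => (2 * ∑ e ∈ Ij 3 ι, f a e X ^ 2 + 4 * ∑ e ∈ Ij 4 ι, f a (s2 e) X * f a (s3 e) X) +
            ∑ e ∈ Ij 3 ι, ∑ e' ∈ fl e, f a e X * f a e' X) := by
          unfold IO
          exact integral_congr_ae (Filter.Eventually.of_forall hpt)
      _ = _ := by
          unfold IO
          rw [integral_add (hintO _ (badd _ _ (bcm _ _ b2) (bcm _ _ b4))) (hintO _ b6),
            integral_add (hintO _ (bcm _ _ b2)) (hintO _ (bcm _ _ b4)), integral_const_mul,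
            integral_const_mul, integral_finsetSum _ (fun e _ => hintO _ (bsq _ (hfB a e))),
            integral_finsetSum _ (fun e _ => hintO _ (bmul _ _ (hfB a _) (hfB a _))),
            integral_finsetSum _ (fun e _ => hintO _ (b5 e))]
          congr 1
          refine Finset.sum_congr rfl fun e _ => ?_
          rw [integral_finsetSum _ (fun e' _ => hintO _ (bmul _ _ (hfB a _) (hfB a _)))]
  -- the three terms
  have ht1 : ∀ a ∈ p.Gr, ∑ e ∈ Ij 3 ι, IO p (fun X => f a e X ^ 2) ≤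
      Cp / (p.l ^ 3 * p.R ^ 6) * ∑ e ∈ Ij 3 ι, IA p θ a (im e) (fun X => Am p θ u a (im e) X ^ 2) := by
    intro a ha
    rw [Finset.mul_sum]
    refine Finset.sum_le_sum fun e he => ?_
    obtain ⟨h1, h2, h3⟩ := mem3 he
    have h := (hP ι p β θ g P u hsys htrp hu a ha (e 0) (e 1) (e 2) h1 h2 h3).1
    rw [← im3 e] at h
    exact h
  have ht2 : ∀ a ∈ p.Gr, ∑ e ∈ Ij 4 ι, IO p (fun X => f a (s2 e) X * f a (s3 e) X) ≤
      Cp / (p.l ^ 6 * p.R ^ 3) * (2 * ∑ e ∈ Ij 3 ι, ∑ j ∈ Finset.univ \ im e, rg p θ u a (im e) j) := by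
    intro a ha
    have h1 : ∑ e ∈ Ij 4 ι, rg p θ u a (im (s2 e)) (e 3) =
        ∑ e ∈ Ij 3 ι, ∑ j ∈ Finset.univ \ im e, rg p θ u a (im e) j := by
      rw [T3' (fun e => rg p θ u a (im (s2 e)) (e 3))]
      refine Finset.sum_congr rfl fun e _ => Finset.sum_congr rfl fun j _ => ?_
      have hs : s2 (ap e j) = e := by
        funext s
        fin_cases s <;> rfl
      show rg p θ u a (im (s2 (ap e j))) (ap e j 3) = _
      rw [hs]
      rfl
    have h2 : ∑ e ∈ Ij 4 ι, rg p θ u a (im (s3 e)) (e 2) =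
        ∑ e ∈ Ij 4 ι, rg p θ u a (im (s2 e)) (e 3) := by
      rw [← (T2' 4 (Equiv.swap 2 3)).1 (fun e => rg p θ u a (im (s2 e)) (e 3))]
      refine Finset.sum_congr rfl fun e _ => ?_
      have hs : s2 (e ∘ Equiv.swap 2 3) = s3 e := by
        funext s
        fin_cases s
        · show e (Equiv.swap 2 3 0) = e 0
          rw [Equiv.swap_apply_of_ne_of_ne (by decide) (by decide)]
        · show e (Equiv.swap 2 3 1) = e 1
          rw [Equiv.swap_apply_of_ne_of_ne (by decide) (by decide)]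
        · show e (Equiv.swap 2 3 2) = e 3
          rw [Equiv.swap_apply_left]
      show _ = rg p θ u a (im (s2 (e ∘ Equiv.swap 2 3))) (e (Equiv.swap 2 3 3))
      rw [hs, Equiv.swap_apply_right]
    have h3 : ∑ e ∈ Ij 4 ι, IO p (fun X => f a (s2 e) X * f a (s3 e) X) ≤
        ∑ e ∈ Ij 4 ι, Cp / (p.l ^ 6 * p.R ^ 3) *
          (rg p θ u a (im (s2 e)) (e 3) + rg p θ u a (im (s3 e)) (e 2)) := by
      refine Finset.sum_le_sum fun e he => ?_
      obtain ⟨h1, h2, h3, h4, h5, h6⟩ := mem4 he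
      have h := (hP ι p β θ g P u hsys htrp hu a ha (e 0) (e 1) (e 2) h1 h2 h3).2 (e 3) h4 h5 h6
      have hi2 : im (s2 e) = {e 0, e 1, e 2} := im3 (s2 e)
      have hi3 : im (s3 e) = {e 0, e 1, e 3} := im3 (s3 e)
      rw [← hi2, ← hi3] at h
      exact h
    refine h3.trans (le_of_eq ?_)
    rw [← Finset.mul_sum, Finset.sum_add_distrib, h2, h1, two_mul]
  have ht3 : ∀ a ∈ p.Gr, ∑ e ∈ Ij 3 ι, ∑ e' ∈ fl e, IO p (fun X => f a e X * f a e' X) ≤
      Cq / (p.l ^ 6 * p.R ^ 3) * (2 * (p.M * ∑ e ∈ Ij 3 ι, ∑ j ∈ Finset.univ \ im e, rg p θ u a (im e) j)) := by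
    intro a ha
    have h3 : ∑ e ∈ Ij 3 ι, ∑ e' ∈ fl e, IO p (fun X => f a e X * f a e' X) ≤
        ∑ e ∈ Ij 3 ι, ∑ e' ∈ fl e, Cq / (p.l ^ 6 * p.R ^ 3) *
          (rh p θ u a (im e) (e' 1) (e' 2) + rh p θ u a (im e') (e 1) (e 2)) := by
      refine Finset.sum_le_sum fun e he => Finset.sum_le_sum fun e' he' => ?_
      have h := hQ ι p β θ g P u hsys htrp hu a ha (e 0) (e 1) (e 2) (e' 1) (e' 2) (nodup5 he he')
      have h0 : e' 0 = e 0 := (mem_fl.mp he').2.1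
      have hi : im e' = {e 0, e' 1, e' 2} := by rw [im3 e', h0]
      rw [← im3 e, ← hi] at h
      have hfe : f a e' = fun X => K3 θ P a (X (e 0)) (X (e' 1)) (X (e' 2)) * Am p θ u a (im e') X := by
        funext X
        show K3 θ P a (X (e' 0)) (X (e' 1)) (X (e' 2)) * Am p θ u a (im e') X = _
        rw [h0]
      rw [hfe]
      exact h
    have h4 : ∑ e ∈ Ij 3 ι, ∑ e' ∈ fl e, rh p θ u a (im e) (e' 1) (e' 2) ≤
        p.M * ∑ e ∈ Ij 3 ι, ∑ j ∈ Finset.univ \ im e, rg p θ u a (im e) j := by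
      rw [Finset.mul_sum]
      refine Finset.sum_le_sum fun e _ => ?_
      refine (sumfl e (fun j k => rh p θ u a (im e) j k) (fun j k => hrh0 _ _ _ _)).trans ?_
      rw [Finset.mul_sum]
      exact Finset.sum_le_sum fun j _ => hrh a (im e) j
    have h5 : ∑ e ∈ Ij 3 ι, ∑ e' ∈ fl e, rh p θ u a (im e') (e 1) (e 2) =
        ∑ e ∈ Ij 3 ι, ∑ e' ∈ fl e, rh p θ u a (im e) (e' 1) (e' 2) :=
      swp (fun e e' => rh p θ u a (im e') (e 1) (e 2))
    have hpos : 0 ≤ Cq / (p.l ^ 6 * p.R ^ 3) := by positivity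
    refine h3.trans ?_
    have h6 : ∑ e ∈ Ij 3 ι, ∑ e' ∈ fl e, Cq / (p.l ^ 6 * p.R ^ 3) *
          (rh p θ u a (im e) (e' 1) (e' 2) + rh p θ u a (im e') (e 1) (e 2)) =
        Cq / (p.l ^ 6 * p.R ^ 3) * (∑ e ∈ Ij 3 ι, ∑ e' ∈ fl e, rh p θ u a (im e) (e' 1) (e' 2) +
          ∑ e ∈ Ij 3 ι, ∑ e' ∈ fl e, rh p θ u a (im e') (e 1) (e 2)) := by
      rw [← Finset.sum_add_distrib, Finset.mul_sum]
      refine Finset.sum_congr rfl fun e _ => ?_
      rw [← Finset.sum_add_distrib, Finset.mul_sum]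
    rw [h6, h5, ← two_mul]
    exact mul_le_mul_of_nonneg_left (mul_le_mul_of_nonneg_left h4 (by norm_num)) hpos
  -- the sum over the grid
  have hAA : ∑ a ∈ p.Gr, ∑ e ∈ Ij 3 ι, IA p θ a (im e) (fun X => Am p θ u a (im e) X ^ 2) =
      AA p θ u 3 / p.l ^ 3 := by
    unfold AA
    field_simp
  set RS := ∑ a ∈ p.Gr, ∑ e ∈ Ij 3 ι, ∑ j ∈ Finset.univ \ im e, rg p θ u a (im e) j with hRS
  have hRSb : RS ≤ Cr * (p.M / p.l ^ 3) ^ 3 * RW p θ u := hR'.2
  have hRS0 : 0 ≤ RS := Finset.sum_nonneg fun a _ => Finset.sum_nonneg fun e _ =>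
    Finset.sum_nonneg fun j _ => hrg0 _ _ _
  have hAA0 : 0 ≤ AA p θ u 3 := hB'.1
  have hRW0 : 0 ≤ RW p θ u := hB'.2.2.2.1.trans hR'.1
  have hmain : ∑ a ∈ p.Gr, ∑ i, IO p (fun X => W3 p θ P u a i X ^ 2) ≤
      2 * (Cp / (p.l ^ 3 * p.R ^ 6) * (AA p θ u 3 / p.l ^ 3)) +
      4 * (Cp / (p.l ^ 6 * p.R ^ 3) * (2 * RS)) + Cq / (p.l ^ 6 * p.R ^ 3) * (2 * (p.M * RS)) := by
    calc ∑ a ∈ p.Gr, ∑ i, IO p (fun X => W3 p θ P u a i X ^ 2)
        ≤ ∑ a ∈ p.Gr, (2 * (Cp / (p.l ^ 3 * p.R ^ 6) *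
              ∑ e ∈ Ij 3 ι, IA p θ a (im e) (fun X => Am p θ u a (im e) X ^ 2)) +
            4 * (Cp / (p.l ^ 6 * p.R ^ 3) *
              (2 * ∑ e ∈ Ij 3 ι, ∑ j ∈ Finset.univ \ im e, rg p θ u a (im e) j)) +
            Cq / (p.l ^ 6 * p.R ^ 3) *
              (2 * (p.M * ∑ e ∈ Ij 3 ι, ∑ j ∈ Finset.univ \ im e, rg p θ u a (im e) j))) := by
          refine Finset.sum_le_sum fun a ha => ?_
          rw [hexp a]
          have h1 := ht1 a ha
          have h2 := ht2 a ha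
          have h3 := ht3 a ha
          linarith
      _ = _ := by
          rw [Finset.sum_add_distrib, Finset.sum_add_distrib, ← Finset.mul_sum, ← Finset.mul_sum,
            ← Finset.mul_sum, ← Finset.mul_sum, ← Finset.mul_sum, ← Finset.mul_sum, ← Finset.mul_sum,
            ← Finset.mul_sum, hAA]
  refine hmain.trans ?_
  have e1 : 2 * (Cp / (p.l ^ 3 * p.R ^ 6) * (AA p θ u 3 / p.l ^ 3)) =
      2 * Cp * (AA p θ u 3 / (p.l ^ 6 * p.R ^ 6)) := by
    field_simp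
  have hX0 : 0 ≤ AA p θ u 3 / (p.l ^ 6 * p.R ^ 6) := by positivity
  set Yv := p.M * (p.M / p.l ^ 3) ^ 3 * RW p θ u / (p.l ^ 6 * p.R ^ 3) with hYv
  have hM0 : 0 ≤ p.M := by linarith
  have hY0 : 0 ≤ Yv := by positivity
  have hMR : RS ≤ p.M * RS := by nlinarith
  have e2 : p.M * RS / (p.l ^ 6 * p.R ^ 3) ≤ Cr * Yv := by
    rw [hYv, ← mul_div_assoc]
    have hd : 0 < p.l ^ 6 * p.R ^ 3 := by positivity
    refine div_le_div_of_nonneg_right ?_ hd.le
    calc p.M * RS ≤ p.M * (Cr * (p.M / p.l ^ 3) ^ 3 * RW p θ u) := mul_le_mul_of_nonneg_left hRSb hM0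
      _ = Cr * (p.M * (p.M / p.l ^ 3) ^ 3 * RW p θ u) := by ring
  have e3 : 4 * (Cp / (p.l ^ 6 * p.R ^ 3) * (2 * RS)) ≤ 8 * Cp * (Cr * Yv) := by
    calc 4 * (Cp / (p.l ^ 6 * p.R ^ 3) * (2 * RS)) = 8 * Cp * (RS / (p.l ^ 6 * p.R ^ 3)) := by ring
      _ ≤ 8 * Cp * (p.M * RS / (p.l ^ 6 * p.R ^ 3)) := by gcongr
      _ ≤ 8 * Cp * (Cr * Yv) := by gcongr
  have e4 : Cq / (p.l ^ 6 * p.R ^ 3) * (2 * (p.M * RS)) ≤ 2 * Cq * (Cr * Yv) := by
    calc Cq / (p.l ^ 6 * p.R ^ 3) * (2 * (p.M * RS)) = 2 * Cq * (p.M * RS / (p.l ^ 6 * p.R ^ 3)) := by ring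
      _ ≤ 2 * Cq * (Cr * Yv) := by gcongr
  rw [e1]
  have h9 : 0 ≤ (8 * Cp + 2 * Cq) * Cr * (AA p θ u 3 / (p.l ^ 6 * p.R ^ 6)) := by positivity
  have h10 : 0 ≤ 2 * Cp * Yv := by positivity
  nlinarith [e3, e4, h9, h10]

end Pool.Agent.TBS
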