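import Pool.Agent.TBS.StmtsC
import Pool.Agent.TBS.QK3

/-!
# Squad TBS: module EXB (the weighted square of `bF`)
-/

set_option autoImplicit false

open MeasureTheory Filter Topology
open scoped ContDiff

namespace Pool.Agent.TBS

open Pool.Agent.TBG Pool.Agent.TBL Pool.Agent.TBF

namespace EXB_

open QK3_

open Classical in
/-- the cross terms with `r` particles outside of the other cluster -/
noncomputable def Gx {ι : Type} [Fintype ι] [DecidableEq ι] (p : Par) (β θ : E → E → ℝ)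
    (Y : Fin 4 → Fin 3 → W4 → ℝ) (u : (ι → E) → ℝ) (r : ℕ) (X : ι → E) : ℝ :=
  ∑ e ∈ Ij 4 ι, ∑ e' ∈ (Ij 4 ι).filter
    (fun e' => e' 0 = e 0 ∧ (im e' \ im e).card = r ∧ (im e \ im e').card = r),
    |hS p β θ u (im e) X| * (|hS p β θ u (im e') X| * (kB Y (X ∘ e) * kB Y (X ∘ e')))

open Classical in
lemma cross (hHSF : Stmt_HSF) (hKBM : Stmt_KBM) (hGS1 : Stmt_GS1) (hGS2 : Stmt_GS2)
    (hGS3 : Stmt_GS3) (hQEG : Stmt_QEG) : ∀ C : ℝ, ∃ C₁ : ℝ, 0 < C₁ ∧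
    ∀ (ι : Type) [Fintype ι] [DecidableEq ι] (p : Par)
    (β θ : E → E → ℝ) (φ τ : E × E → ℝ) (y : W4 → ℝ) (Y : Fin 4 → Fin 3 → W4 → ℝ) (g₄ : W4 → ℝ)
    (u : (ι → E) → ℝ),
    Sys C p β θ → CU u → Scat φ → TF y → Dua φ y p.l C Y g₄ → KF C p φ τ y Y →
    (∀ r, BM (Gx p β θ Y u r)) ∧ 0 ≤ E44 p θ u ∧
    ∑ r ∈ Finset.Icc 1 3, IO p (Gx p β θ Y u r) ≤ C₁ * E44 p θ u := by
  intro C
  obtain ⟨q1, hq1, hQ1⟩ := hQEG 3 3 1 1
  obtain ⟨q2, hq2, hQ2⟩ := hQEG 3 3 2 2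
  obtain ⟨q3, hq3, hQ3⟩ := hQEG 3 3 3 3
  obtain ⟨c1, hc1, hG1⟩ := hGS1 C 3
  obtain ⟨c2, hc2, hG2⟩ := hGS2 C 3
  obtain ⟨c3, hc3, hG3⟩ := hGS3 C 3
  obtain ⟨_, _, hhs⟩ := hHSF C
  set D : ℝ := |C| + 1 with hD
  have hD1 : 1 ≤ D := by
    have := abs_nonneg C
    linarith
  have hD0 : 0 < D := by linarith
  have hCD : C ≤ D := by
    have := le_abs_self C
    linarith
  refine ⟨D ^ 5 * (q1 * c1 + q2 * c2 + q3 * c3), by positivity, ?_⟩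
  intro ι _ _ p β θ φ τ y Y g₄ u hY hu hφ hy hdu hkf
  have hl1 : 1 ≤ p.l := hY.hR.trans hY.hl
  have hl0 : 0 < p.l := by linarith
  have hM0 : 0 ≤ p.M := le_trans (by norm_num) hY.hM
  have hub : BM u := by
    obtain ⟨h1, h2⟩ := hu
    obtain ⟨M, hM⟩ := h1.continuous.bounded_above_of_compact_support h2
    exact ⟨h1.continuous.measurable, M, fun X => by simpa using hM X⟩
  have him : ∀ e : Fin 4 → ι, (im e).Nonempty := fun e =>
    ⟨e 0, Finset.mem_image_of_mem _ (Finset.mem_univ _)⟩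
  have hhbm : ∀ e : Fin 4 → ι, BM (hS p β θ u (im e)) :=
    fun e => (hhs ι p β θ u (im e) hY hub (him e)).1
  have hYbm : ∀ (e : Fin 4 → ι) (c : Fin 3), BM (fun X : ι → E => Y 0 c (rl (X ∘ e))) :=
    fun e c => hKBM.2.2.2 ι (Y 0 c) e ((hKBM.2.1 C p.l φ y Y g₄ hφ hy hdu).2.2.2.1 0 c)
  have hkBbm : ∀ e : Fin 4 → ι, BM (fun X : ι → E => kB Y (X ∘ e)) :=
    fun e => bm_sum _ _ fun c _ => bm_abs (hYbm e c)
  obtain ⟨G, hG⟩ : ∃ G : ℕ → (ι → E) → ℝ, G = fun r X => ∑ e ∈ Ij 4 ι, ∑ e' ∈ (Ij 4 ι).filter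
        (fun e' => e' 0 = e 0 ∧ (im e' \ im e).card = r ∧ (im e \ im e').card = r),
        |hS p β θ u (im e) X| * (|hS p β θ u (im e') X| * (kB Y (X ∘ e) * kB Y (X ∘ e'))) := ⟨_, rfl⟩
  have hGbm : ∀ r, BM (G r) := fun r => by
    rw [hG]
    exact bm_sum _ _ fun e _ => bm_sum _ _ fun e' _ =>
      bm_mul (bm_abs (hhbm e)) (bm_mul (bm_abs (hhbm e')) (bm_mul (hkBbm e) (hkBbm e')))
  have hGx : ∀ r, Gx p β θ Y u r = G r := fun r => by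
    rw [hG]
    rfl
  simp only [hGx]
  refine ⟨hGbm, ?_, ?_⟩
  · rw [QK3_.e44]
    have hAA : 0 ≤ AA p θ u 4 := AA0 hl0.le 4
    have hGG : 0 ≤ GG p θ u 4 := GG0 hl0.le 4
    positivity
  -- the kernels
  set q : E → ℝ := pk (8 / 3) p.l with hq
  have hPk : Pk p.l (D * p.l ^ (1 / 3 : ℝ)) D D q :=
    pk_mono hkf.pB (mul_le_mul_of_nonneg_right hCD (by positivity)) hCD hCD
  have hCk : Ck 3 p.l p.l (fun x => D⁻¹ * kB Y x) :=
    ck_div hkf.cB hD0 (mul_le_mul_of_nonneg_right hCD hl0.le)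
  have hKle : ∀ x, D⁻¹ * kB Y x ≤ ∏ s : Fin 3, q (x 0 - x s.succ) := by
    intro x
    rw [inv_mul_le_iff₀ hD0]
    refine (hkf.dB x).trans (mul_le_mul_of_nonneg_right hCD ?_)
    exact Finset.prod_nonneg fun s _ => hPk.nn _
  have hGr : ∀ (r : ℕ) (Q : ℝ), 0 < Q →
      (IO p (fun X => ∑ e ∈ Ij 4 ι, ∑ e' ∈ (Ij 4 ι).filter
        (fun e' => e' 0 = e 0 ∧ (im e' \ im e).card = r ∧ (im e \ im e').card = r),
        |hS p β θ u (im e) X| * (|hS p β θ u (im e') X| *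
          ((D⁻¹ * kB Y (X ∘ e)) * (D⁻¹ * kB Y (X ∘ e'))))) ≤
        Q * Real.sqrt (GS p θ u 3 r (fun x => D⁻¹ * kB Y x) q) *
          Real.sqrt (GS p θ u 3 r (fun x => D⁻¹ * kB Y x) q)) →
      0 ≤ GS p θ u 3 r (fun x => D⁻¹ * kB Y x) q →
      IO p (G r) ≤ D ^ 2 * (Q * GS p θ u 3 r (fun x => D⁻¹ * kB Y x) q) := by
    intro r Q hQ h1 h2
    have e1 : G r = fun X => D ^ 2 * ∑ e ∈ Ij 4 ι, ∑ e' ∈ (Ij 4 ι).filter
        (fun e' => e' 0 = e 0 ∧ (im e' \ im e).card = r ∧ (im e \ im e').card = r),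
        |hS p β θ u (im e) X| * (|hS p β θ u (im e') X| *
          ((D⁻¹ * kB Y (X ∘ e)) * (D⁻¹ * kB Y (X ∘ e')))) := by
      rw [hG]
      funext X
      rw [Finset.mul_sum]
      refine Finset.sum_congr rfl fun e _ => ?_
      rw [Finset.mul_sum]
      refine Finset.sum_congr rfl fun e' _ => ?_
      field_simp
    rw [e1, IOcm]
    refine mul_le_mul_of_nonneg_left ?_ (by positivity)
    rw [mul_assoc, Real.mul_self_sqrt h2] at h1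
    exact h1
  have hAA : 0 ≤ AA p θ u 4 := AA0 hl0.le 4
  have hGG : 0 ≤ GG p θ u 4 := GG0 hl0.le 4
  have hG1' := hG1 ι p β θ u p.l _ _ _ (fun x => D⁻¹ * kB Y x) q hY hu hCk hPk
  have hG2' := hG2 ι p β θ u p.l _ _ _ (fun x => D⁻¹ * kB Y x) q hY hu hCk hPk
  have hG3' := hG3 ι p β θ u p.l _ _ _ (fun x => D⁻¹ * kB Y x) q hY hu hCk hPk
  have m1 := hQ1 C ι p β θ u _ _ _ _ _ _ _ _ _ _ q q hY hub hCk hCk hPk hPk hKle hKle
  have b1 := hGr 1 q1 hq1 m1 hG1'.1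
  have m2 := hQ2 C ι p β θ u _ _ _ _ _ _ _ _ _ _ q q hY hub hCk hCk hPk hPk hKle hKle
  have b2 := hGr 2 q2 hq2 m2 hG2'.1
  have m3 := hQ3 C ι p β θ u _ _ _ _ _ _ _ _ _ _ q q hY hub hCk hCk hPk hPk hKle hKle
  have b3 := hGr 3 q3 hq3 m3 hG3'.1
  have hsum3 : ∑ r ∈ Finset.Icc 1 3, IO p (G r) = IO p (G 1) + IO p (G 2) + IO p (G 3) := by
    rw [show (Finset.Icc 1 3 : Finset ℕ) = {1, 2, 3} by rfl, Finset.sum_insert (by simp),
      Finset.sum_insert (by simp), Finset.sum_singleton]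
    ring
  rw [hsum3, QK3_.e44]
  set μ : ℝ := p.M / p.l ^ 3 with hμ
  have hμ0 : 0 ≤ μ := by positivity
  set x : ℝ := p.l ^ (1 / 3 : ℝ) with hx
  have hx0 : 0 ≤ x := by positivity
  set A : ℝ := AA p θ u 4 with hA
  set B : ℝ := GG p θ u 4 with hB
  have g1 : GS p θ u 3 1 (fun x => D⁻¹ * kB Y x) q ≤ c1 * (D * (p.l * (x * μ * A))) :=
    hG1'.2.trans (le_of_eq (by ring))
  have g2 : GS p θ u 3 2 (fun x => D⁻¹ * kB Y x) q ≤
      c2 * (D ^ 2 * (p.l * ((x * μ) ^ 2 * A + x * μ * B))) :=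
    hG2'.2.trans (le_of_eq (by ring))
  have g3 : GS p θ u 3 3 (fun x => D⁻¹ * kB Y x) q ≤
      c3 * (D ^ 3 * (p.l * ((x * μ) ^ 3 * A + (x ^ 2 + p.l ^ 3) * μ ^ 2 * B))) := by
    refine hG3'.2.trans ?_
    have h1 : D * ((D * x) ^ 2 + D * p.l ^ 3) ≤ D ^ 3 * (x ^ 2 + p.l ^ 3) := by
      have h2 : D ^ 2 ≤ D ^ 3 := pow_le_pow_right₀ hD1 (by norm_num)
      have h3 : D ^ 2 * p.l ^ 3 ≤ D ^ 3 * p.l ^ 3 := mul_le_mul_of_nonneg_right h2 (by positivity)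
      calc D * ((D * x) ^ 2 + D * p.l ^ 3) = D ^ 3 * x ^ 2 + D ^ 2 * p.l ^ 3 := by ring
        _ ≤ D ^ 3 * x ^ 2 + D ^ 3 * p.l ^ 3 := by linarith only [h3]
        _ = _ := by ring
    have h2 : D * ((D * x) ^ 2 + D * p.l ^ 3) * μ ^ 2 * B ≤
        D ^ 3 * (x ^ 2 + p.l ^ 3) * μ ^ 2 * B :=
      mul_le_mul_of_nonneg_right (mul_le_mul_of_nonneg_right h1 (by positivity)) hGG
    have h3 : 0 ≤ c3 * p.l := by positivity
    calc c3 * p.l * ((D * x * μ) ^ 3 * A + D * ((D * x) ^ 2 + D * p.l ^ 3) * μ ^ 2 * B)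
        ≤ c3 * p.l * ((D * x * μ) ^ 3 * A + D ^ 3 * (x ^ 2 + p.l ^ 3) * μ ^ 2 * B) :=
          mul_le_mul_of_nonneg_left (by linarith) h3
      _ = _ := by ring
  set T1 : ℝ := p.l * (x * μ * A) with hT1
  set T2' : ℝ := p.l * ((x * μ) ^ 2 * A + x * μ * B) with hT2
  set T3' : ℝ := p.l * ((x * μ) ^ 3 * A + (x ^ 2 + p.l ^ 3) * μ ^ 2 * B) with hT3
  have t1 : 0 ≤ T1 := by positivity
  have t2 : 0 ≤ T2' := by positivity
  have t3 : 0 ≤ T3' := by positivity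
  have p35 : D ^ 3 ≤ D ^ 5 := pow_le_pow_right₀ hD1 (by norm_num)
  have p45 : D ^ 4 ≤ D ^ 5 := pow_le_pow_right₀ hD1 (by norm_num)
  have f1 : IO p (G 1) ≤ D ^ 5 * (q1 * c1) * T1 := by
    calc IO p (G 1) ≤ D ^ 2 * (q1 * (c1 * (D * T1))) :=
          b1.trans (mul_le_mul_of_nonneg_left (mul_le_mul_of_nonneg_left g1 hq1.le) (by positivity))
      _ = D ^ 3 * (q1 * c1 * T1) := by ring
      _ ≤ D ^ 5 * (q1 * c1 * T1) := mul_le_mul_of_nonneg_right p35 (by positivity)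
      _ = _ := by ring
  have f2 : IO p (G 2) ≤ D ^ 5 * (q2 * c2) * T2' := by
    calc IO p (G 2) ≤ D ^ 2 * (q2 * (c2 * (D ^ 2 * T2'))) :=
          b2.trans (mul_le_mul_of_nonneg_left (mul_le_mul_of_nonneg_left g2 hq2.le) (by positivity))
      _ = D ^ 4 * (q2 * c2 * T2') := by ring
      _ ≤ D ^ 5 * (q2 * c2 * T2') := mul_le_mul_of_nonneg_right p45 (by positivity)
      _ = _ := by ring
  have f3 : IO p (G 3) ≤ D ^ 5 * (q3 * c3) * T3' := by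
    calc IO p (G 3) ≤ D ^ 2 * (q3 * (c3 * (D ^ 3 * T3'))) :=
          b3.trans (mul_le_mul_of_nonneg_left (mul_le_mul_of_nonneg_left g3 hq3.le) (by positivity))
      _ = _ := by ring
  have hD5 : 0 ≤ D ^ 5 := by positivity
  have w12 : 0 ≤ D ^ 5 * (q1 * c1) * T2' := by positivity
  have w13 : 0 ≤ D ^ 5 * (q1 * c1) * T3' := by positivity
  have w21 : 0 ≤ D ^ 5 * (q2 * c2) * T1 := by positivity
  have w23 : 0 ≤ D ^ 5 * (q2 * c2) * T3' := by positivity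
  have w31 : 0 ≤ D ^ 5 * (q3 * c3) * T1 := by positivity
  have w32 : 0 ≤ D ^ 5 * (q3 * c3) * T2' := by positivity
  have hexp : D ^ 5 * (q1 * c1 + q2 * c2 + q3 * c3) * (T1 + T2' + T3') =
      D ^ 5 * (q1 * c1) * T1 + D ^ 5 * (q1 * c1) * T2' + D ^ 5 * (q1 * c1) * T3' +
      D ^ 5 * (q2 * c2) * T1 + D ^ 5 * (q2 * c2) * T2' + D ^ 5 * (q2 * c2) * T3' +
      D ^ 5 * (q3 * c3) * T1 + D ^ 5 * (q3 * c3) * T2' + D ^ 5 * (q3 * c3) * T3' := by ring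
  rw [hexp]
  linarith only [f1, f2, f3, w12, w13, w21, w23, w31, w32]

/-- squares of the components of a field -/
lemma comp_sq {J : Type} (s : Finset J) (h : J → ℝ) (A : J → Fin 3 → ℝ) :
    ∑ c, (1 / 6 * ∑ e ∈ s, h e * A e c) ^ 2 ≤ 1 / 36 * (∑ e ∈ s, |h e| * ∑ c, |A e c|) ^ 2 := by
  have h1 : ∀ c, |∑ e ∈ s, h e * A e c| ≤ ∑ e ∈ s, |h e| * |A e c| := fun c =>
    (Finset.abs_sum_le_sum_abs _ _).trans (Finset.sum_le_sum fun e _ => by rw [abs_mul])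
  have h2 : ∑ c, (∑ e ∈ s, h e * A e c) ^ 2 ≤ (∑ c, ∑ e ∈ s, |h e| * |A e c|) ^ 2 := by
    have h3 : ∀ c, (∑ e ∈ s, h e * A e c) ^ 2 ≤ (∑ e ∈ s, |h e| * |A e c|) ^ 2 := fun c => by
      rw [← sq_abs]
      exact pow_le_pow_left₀ (abs_nonneg _) (h1 c) 2
    have h4 : ∀ c, 0 ≤ ∑ e ∈ s, |h e| * |A e c| := fun c => Finset.sum_nonneg fun e _ =>
      mul_nonneg (abs_nonneg _) (abs_nonneg _)
    refine (Finset.sum_le_sum fun c _ => h3 c).trans ?_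
    simp only [Fin.sum_univ_three]
    nlinarith [mul_nonneg (h4 0) (h4 1), mul_nonneg (h4 0) (h4 2), mul_nonneg (h4 1) (h4 2)]
  have h5 : ∑ c, (1 / 6 * ∑ e ∈ s, h e * A e c) ^ 2 = 1 / 36 * ∑ c, (∑ e ∈ s, h e * A e c) ^ 2 := by
    rw [Finset.mul_sum]
    exact Finset.sum_congr rfl fun c _ => by ring
  have h6 : ∑ c, ∑ e ∈ s, |h e| * |A e c| = ∑ e ∈ s, |h e| * ∑ c, |A e c| := by
    rw [Finset.sum_comm]
    exact Finset.sum_congr rfl fun e _ => by rw [Finset.mul_sum]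
  rw [h5, ← h6]
  exact mul_le_mul_of_nonneg_left h2 (by norm_num)


end EXB_

open QK3_ EXB_ in
theorem exb_proof (_hBMC : Pool.Agent.TBL.Stmt_BMC) (hHSF : Stmt_HSF) (hTUP : Stmt_TUP)
    (hCM5 : Stmt_CM5) (hTRF : Stmt_TRF) (hKBM : Stmt_KBM) (_hGS0 : Stmt_GS0) (hGS1 : Stmt_GS1)
    (hGS2 : Stmt_GS2) (hGS3 : Stmt_GS3) (hQEG : Stmt_QEG) (hZET : Stmt_ZET)
    (hGW0 : Stmt_GW0) : Stmt_EXB := by
  intro C
  obtain ⟨cr, hcr, hcross⟩ := cross hHSF hKBM hGS1 hGS2 hGS3 hQEG C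
  obtain ⟨d0, hd0, hw0⟩ := hGW0 C 3
  obtain ⟨_, _, hhs⟩ := hHSF C
  refine ⟨cr + d0 * |C|, by positivity, ?_⟩
  intro ι _ _ p Mc M₁ β θ φ τ y Y g₄ u hGr hM₁ hY hu hφ hy hdu hkf
  classical
  have hl1 : 1 ≤ p.l := hY.hR.trans hY.hl
  have hl0 : 0 < p.l := by linarith
  have hub : BM u := by
    obtain ⟨h1, h2⟩ := hu
    obtain ⟨M, hM⟩ := h1.continuous.bounded_above_of_compact_support h2
    exact ⟨h1.continuous.measurable, M, fun X => by simpa using hM X⟩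
  have him : ∀ e : Fin 4 → ι, (im e).Nonempty := fun e =>
    ⟨e 0, Finset.mem_image_of_mem _ (Finset.mem_univ _)⟩
  have hhbm : ∀ e : Fin 4 → ι, BM (hS p β θ u (im e)) :=
    fun e => (hhs ι p β θ u (im e) hY hub (him e)).1
  have hhbm2 : ∀ e : Fin 4 → ι, BM (hh2 p θ u (im e)) :=
    fun e => (hhs ι p β θ u (im e) hY hub (him e)).2.1
  have hhle : ∀ (e : Fin 4 → ι) X, 0 ≤ hh2 p θ u (im e) X ∧
      hS p β θ u (im e) X ^ 2 ≤ hh2 p θ u (im e) X :=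
    fun e => (hhs ι p β θ u (im e) hY hub (him e)).2.2.1
  have hYbm : ∀ (e : Fin 4 → ι) (c : Fin 3), BM (fun X : ι → E => Y 0 c (rl (X ∘ e))) :=
    fun e c => hKBM.2.2.2 ι (Y 0 c) e ((hKBM.2.1 C p.l φ y Y g₄ hφ hy hdu).2.2.2.1 0 c)
  have hkBbm : ∀ e : Fin 4 → ι, BM (fun X : ι → E => kB Y (X ∘ e)) :=
    fun e => bm_sum _ _ fun c _ => bm_abs (hYbm e c)
  have hkB0 : ∀ x, 0 ≤ kB Y x := fun x => Finset.sum_nonneg fun c _ => abs_nonneg _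
  obtain ⟨-, hZ1⟩ := hZET
  obtain ⟨-, hZi, -, hZb, -⟩ := hZ1 ι p Mc M₁ hGr hM₁
  obtain ⟨hGxb, hE44, hGxi⟩ := hcross ι p β θ φ τ y Y g₄ u hY hu hφ hy hdu hkf
  obtain ⟨-, htup2, -⟩ := hTUP ι
  have hW0 := hw0 ι p Mc M₁ β θ u C (fun x => kB Y x ^ 2) hGr hM₁ hY hu hkf.cB2
  have hAW : 0 ≤ AW p Mc M₁ θ u 4 := by
    unfold AW
    refine mul_nonneg (by positivity) (Finset.sum_nonneg fun a _ => Finset.sum_nonneg fun e _ => ?_)
    unfold IA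
    exact integral_nonneg fun X => mul_nonneg ((hZb a (im e)).2.2 X) (sq_nonneg _)
  obtain ⟨S1, hS1⟩ : ∃ S1 : (ι → E) → ℝ, S1 = fun X => ∑ e ∈ Ij 4 ι, zi p.l Mc M₁ (e 0) X *
    (hh2 p θ u (im e) X * kB Y (X ∘ e) ^ 2) := ⟨_, rfl⟩
  have hS1b : BM S1 := by
    rw [hS1]
    exact bm_sum _ _ fun e _ => bm_mul (hZi (e 0)).1 (bm_mul (hhbm2 e) (bm_sq (hkBbm e)))
  -- the pointwise inequality
  have hpt : ∀ X : ι → E, (∑ i, zi p.l Mc M₁ i X * ∑ c, bF p β θ Y u i c X ^ 2) ≤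
      S1 X + ∑ r ∈ Finset.Icc 1 3, Gx p β θ Y u r X := by
    intro X
    have hz : ∀ i, 0 ≤ zi p.l Mc M₁ i X ∧ zi p.l Mc M₁ i X ≤ 1 := fun i => (hZi i).2 X
    obtain ⟨F, hF⟩ : ∃ F : (Fin 4 → ι) → ℝ, F = fun e => Real.sqrt (zi p.l Mc M₁ (e 0) X) *
      (|hS p β θ u (im e) X| * kB Y (X ∘ e)) := ⟨_, rfl⟩
    have hFn : ∀ e, 0 ≤ F e := fun e => by
      rw [hF]
      exact mul_nonneg (Real.sqrt_nonneg _) (mul_nonneg (abs_nonneg _) (hkB0 _))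
    have h1 : (∑ i, zi p.l Mc M₁ i X * ∑ c, bF p β θ Y u i c X ^ 2) ≤
        1 / 36 * ∑ i, (∑ e ∈ (Ij 4 ι).filter (fun e => e 0 = i), F e) *
          (∑ e ∈ (Ij 4 ι).filter (fun e => e 0 = i), F e) := by
      rw [Finset.mul_sum]
      refine Finset.sum_le_sum fun i _ => ?_
      have h2 : ∑ c, bF p β θ Y u i c X ^ 2 ≤
          1 / 36 * (∑ e ∈ (Ij 4 ι).filter (fun e => e 0 = i), |hS p β θ u (im e) X| *
            kB Y (X ∘ e)) ^ 2 := by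
        unfold bF kB
        exact comp_sq _ _ _
      have h3 : ∑ e ∈ (Ij 4 ι).filter (fun e => e 0 = i), F e =
          Real.sqrt (zi p.l Mc M₁ i X) * ∑ e ∈ (Ij 4 ι).filter (fun e => e 0 = i),
            |hS p β θ u (im e) X| * kB Y (X ∘ e) := by
        rw [Finset.mul_sum, hF]
        refine Finset.sum_congr rfl fun e he => ?_
        simp only
        rw [(Finset.mem_filter.1 he).2]
      rw [h3]
      have h4 := mul_le_mul_of_nonneg_left h2 (hz i).1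
      refine h4.trans (le_of_eq ?_)
      have h5 := Real.mul_self_sqrt (hz i).1
      calc zi p.l Mc M₁ i X * (1 / 36 * (∑ e ∈ (Ij 4 ι).filter (fun e => e 0 = i),
            |hS p β θ u (im e) X| * kB Y (X ∘ e)) ^ 2) =
          1 / 36 * (zi p.l Mc M₁ i X * (∑ e ∈ (Ij 4 ι).filter (fun e => e 0 = i),
            |hS p β θ u (im e) X| * kB Y (X ∘ e)) ^ 2) := by ring
        _ = 1 / 36 * ((Real.sqrt (zi p.l Mc M₁ i X) * Real.sqrt (zi p.l Mc M₁ i X)) *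
            (∑ e ∈ (Ij 4 ι).filter (fun e => e 0 = i),
            |hS p β θ u (im e) X| * kB Y (X ∘ e)) ^ 2) := by rw [h5]
        _ = _ := by ring
    have hper : ∀ (σ : Equiv.Perm (Fin 4)) (e : Fin 4 → ι), σ 0 = 0 →
        F (e ∘ σ) = F e ∧ F (e ∘ σ) = F e := by
      intro σ e hσ
      have g1 : im (e ∘ σ) = im e := ((htup2 4 σ).2 e).1
      have g2 : kB Y (X ∘ (e ∘ σ)) = kB Y (X ∘ e) := by
        unfold kB
        refine Finset.sum_congr rfl fun c _ => ?_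
        have g3 := (((hTRF.2.1 (X ∘ e) σ).2 φ y p.l C Y g₄ hdu).2 c).1
        rw [hσ] at g3
        rw [← Function.comp_assoc, g3]
      have g4 : F (e ∘ σ) = F e := by
        rw [hF]
        simp only
        rw [g1, g2, Function.comp_apply, hσ]
      exact ⟨g4, g4⟩
    rw [hCM5 ι F F hper] at h1
    have hd : ∑ e ∈ Ij 4 ι, F e * F e ≤ S1 X := by
      rw [hS1]
      refine Finset.sum_le_sum fun e _ => ?_
      have h5 := Real.mul_self_sqrt (hz (e 0)).1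
      calc F e * F e = (Real.sqrt (zi p.l Mc M₁ (e 0) X) * Real.sqrt (zi p.l Mc M₁ (e 0) X)) *
            (|hS p β θ u (im e) X| ^ 2 * kB Y (X ∘ e) ^ 2) := by rw [hF]; ring
        _ = zi p.l Mc M₁ (e 0) X * (hS p β θ u (im e) X ^ 2 * kB Y (X ∘ e) ^ 2) := by
            rw [h5, sq_abs]
        _ ≤ _ := mul_le_mul_of_nonneg_left (mul_le_mul_of_nonneg_right (hhle e X).2
            (sq_nonneg _)) (hz _).1
    have hr : ∀ r : ℕ, ∑ e ∈ Ij 4 ι, ∑ e' ∈ (Ij 4 ι).filter (fun e' => e' 0 = e 0 ∧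
        (im e' \ im e).card = r ∧ (im e \ im e').card = r), F e * F e' ≤ Gx p β θ Y u r X := by
      intro r
      unfold Gx
      refine Finset.sum_le_sum fun e _ => ?_
      have hfil : (Ij 4 ι).filter (fun e' => e' 0 = e 0 ∧
        (im e' \ im e).card = r ∧ (im e \ im e').card = r) = (Ij 4 ι).filter (fun e' => e' 0 = e 0 ∧
        (im e' \ im e).card = r ∧ (im e \ im e').card = r) := rfl
      refine Eq.trans_le (b := ∑ e' ∈ (Ij 4 ι).filter (fun e' => e' 0 = e 0 ∧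
        (im e' \ im e).card = r ∧ (im e \ im e').card = r), F e * F e') (by congr) ?_
      refine Finset.sum_le_sum fun e' he' => ?_
      have h6 := Real.mul_self_sqrt (hz (e 0)).1
      have h0 : e' 0 = e 0 := (Finset.mem_filter.1 he').2.1
      have h8 : F e * F e' = zi p.l Mc M₁ (e 0) X * ((|hS p β θ u (im e) X| *
            |hS p β θ u (im e') X|) * (kB Y (X ∘ e) * kB Y (X ∘ e'))) := by
        rw [hF]
        simp only
        rw [h0]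
        calc _ = (Real.sqrt (zi p.l Mc M₁ (e 0) X) * Real.sqrt (zi p.l Mc M₁ (e 0) X)) *
            ((|hS p β θ u (im e) X| * |hS p β θ u (im e') X|) *
              (kB Y (X ∘ e) * kB Y (X ∘ e'))) := by ring
          _ = _ := by rw [h6]
      rw [h8]
      refine (mul_le_of_le_one_left (mul_nonneg (mul_nonneg (abs_nonneg _) (abs_nonneg _))
        (mul_nonneg (hkB0 _) (hkB0 _))) (hz _).2).trans (le_of_eq ?_)
      ring
    have hrs : ∑ r ∈ Finset.Icc 1 3, ∑ e ∈ Ij 4 ι, ∑ e' ∈ (Ij 4 ι).filter (fun e' => e' 0 = e 0 ∧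
        (im e' \ im e).card = r ∧ (im e \ im e').card = r), F e * F e' ≤
        ∑ r ∈ Finset.Icc 1 3, Gx p β θ Y u r X := Finset.sum_le_sum fun r _ => hr r
    have hS1n : 0 ≤ S1 X := by
      rw [hS1]
      exact Finset.sum_nonneg fun e _ => mul_nonneg (hz _).1 (mul_nonneg (hhle e X).1 (sq_nonneg _))
    have hGn : 0 ≤ ∑ r ∈ Finset.Icc 1 3, Gx p β θ Y u r X := by
      refine Finset.sum_nonneg fun r _ => ?_
      unfold Gx
      exact Finset.sum_nonneg fun e _ => Finset.sum_nonneg fun e' _ =>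
        mul_nonneg (abs_nonneg _) (mul_nonneg (abs_nonneg _) (mul_nonneg (hkB0 _) (hkB0 _)))
    linarith
  -- integration
  have hbF : ∀ i c, BM (bF p β θ Y u i c) := by
    intro i c
    exact bm_cm _ (bm_sum _ (fun e (X : ι → E) => hS p β θ u (im e) X * Y 0 c (rl (X ∘ e)))
      fun e _ => bm_mul (hhbm e) (hYbm e c))
  have hf : BM (fun X => ∑ i, zi p.l Mc M₁ i X * ∑ c, bF p β θ Y u i c X ^ 2) :=
    bm_sum _ _ fun i _ => bm_mul (hZi i).1 (bm_sum _ _ fun c _ => bm_sq (hbF i c))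
  have hGs : BM (fun X => ∑ r ∈ Finset.Icc 1 3, Gx p β θ Y u r X) :=
    bm_sum _ _ fun r _ => hGxb r
  have hI : IO p (fun X => ∑ i, zi p.l Mc M₁ i X * ∑ c, bF p β θ Y u i c X ^ 2) ≤
      IO p S1 + ∑ r ∈ Finset.Icc 1 3, IO p (Gx p β θ Y u r) := by
    rw [← IOsum _ _ fun r _ => hGxb r]
    have hadd : IO p S1 + IO p (fun X => ∑ r ∈ Finset.Icc 1 3, Gx p β θ Y u r X) =
        IO p (fun X => S1 X + ∑ r ∈ Finset.Icc 1 3, Gx p β θ Y u r X) :=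
      (integral_add (intO p hS1b) (intO p hGs)).symm
    rw [hadd]
    exact IOmono hf (bm_add hS1b hGs) hpt
  refine hI.trans ?_
  have i1 : IO p S1 ≤ d0 * |C| * AW p Mc M₁ θ u 4 := by
    rw [hS1]
    exact hW0.trans (mul_le_mul_of_nonneg_right (mul_le_mul_of_nonneg_left (le_abs_self C) hd0.le) hAW)
  have t1 : 0 ≤ cr * AW p Mc M₁ θ u 4 := by positivity
  have t2 : 0 ≤ d0 * |C| * E44 p θ u := by positivity
  have t3 : (cr + d0 * |C|) * (AW p Mc M₁ θ u 4 + E44 p θ u) = cr * AW p Mc M₁ θ u 4 +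
      cr * E44 p θ u + d0 * |C| * AW p Mc M₁ θ u 4 + d0 * |C| * E44 p θ u := by ring
  rw [t3]
  linarith only [i1, hGxi, t1, t2]

end Pool.Agent.TBS
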