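import Pool.Agent.TBS.StmtsA

/-!
# Squad TBS, module HRD: integrals against singular weights in one cube
-/

set_option autoImplicit false

open MeasureTheory Filter Topology
open scoped ContDiff

namespace Pool.Agent.TBS

open Pool.Agent.TBG Pool.Agent.TBL Pool.Agent.TBF

namespace HRD_

theorem preim (a : E) (r : ℝ) : (MeasurableEquiv.toLp 2 (Fin 3 → ℝ)) ⁻¹' (Qb a r)
    = Set.pi Set.univ (fun c : Fin 3 => Set.Icc (a c - r) (a c + r)) := by
  ext x
  constructor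
  · intro h c _
    have h1 : |x c - a c| ≤ r := h c
    rw [abs_le] at h1
    exact ⟨by linarith [h1.1], by linarith [h1.2]⟩
  · intro h c
    have h1 := h c (Set.mem_univ c)
    show |x c - a c| ≤ r
    rw [abs_le]
    exact ⟨by linarith [h1.1], by linarith [h1.2]⟩

theorem meas (a : E) (r : ℝ) : MeasurableSet (Qb a r) := by
  have h : MeasurableSet ((MeasurableEquiv.toLp 2 (Fin 3 → ℝ)) ⁻¹' (Qb a r)) := by
    rw [preim]
    exact MeasurableSet.univ_pi (fun _ => measurableSet_Icc)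
  exact (MeasurableEquiv.measurableSet_preimage _).mp h

theorem vol {a : E} {r : ℝ} (hr : 0 < r) : volume (Qb a r) = ENNReal.ofReal ((2 * r) ^ 3) := by
  have hp := (EuclideanSpace.volume_preserving_symm_measurableEquiv_toLp (Fin 3)).symm
  have h1 := hp.measure_preimage (meas a r).nullMeasurableSet
  rw [← h1]
  have h2 : (MeasurableEquiv.toLp 2 (Fin 3 → ℝ)).symm.symm ⁻¹' (Qb a r)
    = Set.pi Set.univ (fun c : Fin 3 => Set.Icc (a c - r) (a c + r)) := preim a r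
  rw [h2, volume_pi_pi]
  have h3 : ∀ c : Fin 3, volume (Set.Icc (a c - r) (a c + r)) = ENNReal.ofReal (2 * r) := by
    intro c
    rw [Real.volume_Icc]
    congr 1
    ring
  simp only [h3, Finset.prod_const, Finset.card_univ, Fintype.card_fin]
  rw [← ENNReal.ofReal_pow (by linarith)]

theorem compact (a : E) (r : ℝ) : IsCompact (Qb a r) := by
  have h1 : IsCompact (Set.pi Set.univ (fun c : Fin 3 => Set.Icc (a c - r) (a c + r))) :=
    isCompact_univ_pi fun _ => isCompact_Icc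
  have h2 : Qb a r = (WithLp.toLp 2) '' (Set.pi Set.univ (fun c : Fin 3 => Set.Icc (a c - r) (a c + r))) := by
    ext x
    constructor
    · intro h
      refine ⟨WithLp.ofLp x, fun c _ => ?_, rfl⟩
      have h1 : |x c - a c| ≤ r := h c
      rw [abs_le] at h1
      exact ⟨by linarith [h1.1], by linarith [h1.2]⟩
    · rintro ⟨y, hy, rfl⟩ c
      have h1 := hy c (Set.mem_univ c)
      show |y c - a c| ≤ r
      rw [abs_le]
      exact ⟨by linarith [h1.1], by linarith [h1.2]⟩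
  rw [h2]
  exact h1.image (PiLp.continuous_toLp 2 _)

theorem abs_le_norm (x : E) (c : Fin 3) : |x c| ≤ ‖x‖ := by
  have := PiLp.norm_apply_le x c
  simpa using this

theorem norm_le {x : E} {r : ℝ} (hr : 0 ≤ r) (h : ∀ c, |x c| ≤ r) : ‖x‖ ≤ 26 / 15 * (r + r / 1000) := by
  have h1 : ‖x‖ ^ 2 = ∑ c, (x c) ^ 2 := by
    rw [EuclideanSpace.norm_sq_eq]
    simp
  have h2 : ∀ c, (x c) ^ 2 ≤ r ^ 2 := by
    intro c
    have := h c
    rw [← sq_abs (x c)]
    exact pow_le_pow_left₀ (abs_nonneg _) this 2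
  have h3 : ‖x‖ ^ 2 ≤ 3 * r ^ 2 := by
    rw [h1, Fin.sum_univ_three]
    linarith [h2 0, h2 1, h2 2]
  nlinarith [norm_nonneg x, sq_nonneg r]

/-- the cutoff function at scale `1` -/
noncomputable def bu : ContDiffBump (0 : E) := ⟨5.25, 6, by norm_num, by norm_num⟩

theorem bu_bd : ∃ D : ℝ, 0 ≤ D ∧ ∀ x c, |pd c (bu : E → ℝ) x| ≤ D := by
  have hc : Continuous (fderiv ℝ (bu : E → ℝ)) := (bu.contDiff (n := 1)).continuous_fderiv (by norm_num)
  have hs : HasCompactSupport (fderiv ℝ (bu : E → ℝ)) := bu.hasCompactSupport.fderiv (𝕜 := ℝ)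
  obtain ⟨D, hD⟩ := hs.exists_bound_of_continuous hc
  refine ⟨D, (norm_nonneg _).trans (hD 0), fun x c => ?_⟩
  have h1 : |pd c (bu : E → ℝ) x| ≤ ‖fderiv ℝ (bu : E → ℝ) x‖ * ‖ev c‖ := by
    have := (fderiv ℝ (bu : E → ℝ) x).le_opNorm (ev c)
    simpa [pd, Real.norm_eq_abs] using this
  have h2 : ‖ev c‖ = 1 := by simp [ev]
  rw [h2, mul_one] at h1
  exact h1.trans (hD x)

/-- the cutoff function -/
noncomputable def ch (a : E) (l : ℝ) (x : E) : ℝ := bu (l⁻¹ • (x - a))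

theorem ch_smooth (a : E) (l : ℝ) : ContDiff ℝ 1 (ch a l) := by
  have h := (bu.contDiff (n := 1))
  have h2 : ContDiff ℝ 1 (fun x : E => l⁻¹ • (x - a)) := (contDiff_id.sub contDiff_const).const_smul l⁻¹
  exact h.comp h2

theorem ch_one {a : E} {l : ℝ} (hl : 0 < l) {x : E} (hx : x ∈ Qb a (3 * l)) : ch a l x = 1 := by
  refine bu.one_of_mem_closedBall ?_
  rw [mem_closedBall_zero_iff, norm_smul, norm_inv, Real.norm_eq_abs, abs_of_pos hl]
  have h1 : ‖x - a‖ ≤ 26 / 15 * (3 * l + 3 * l / 1000) := norm_le (by linarith) (fun c => by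
    have := hx c
    simpa using this)
  show l⁻¹ * ‖x - a‖ ≤ 5.25
  rw [inv_mul_le_iff₀ hl]
  nlinarith

theorem ch_zero {a : E} {l : ℝ} (hl : 0 < l) {x : E} (hx : ch a l x ≠ 0) : x ∈ Qb a (6 * l) := by
  have h1 : l⁻¹ • (x - a) ∈ Function.support (bu : E → ℝ) := hx
  rw [bu.support_eq, mem_ball_zero_iff, norm_smul, norm_inv, Real.norm_eq_abs, abs_of_pos hl] at h1
  have h2 : l⁻¹ * ‖x - a‖ < 6 := h1
  rw [inv_mul_lt_iff₀ hl] at h2
  intro c
  have h3 : |(x - a) c| ≤ ‖x - a‖ := abs_le_norm _ c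
  have h4 : (x - a) c = x c - a c := rfl
  rw [h4] at h3
  linarith

theorem ch_abs (a : E) (l : ℝ) (x : E) : 0 ≤ ch a l x ∧ ch a l x ≤ 1 := ⟨bu.nonneg, bu.le_one⟩

theorem ch_pd {a : E} {l : ℝ} (c : Fin 3) (x : E) :
    pd c (ch a l) x = l⁻¹ * pd c (bu : E → ℝ) (l⁻¹ • (x - a)) := by
  have h1 : HasFDerivAt (bu : E → ℝ) (fderiv ℝ (bu : E → ℝ) (l⁻¹ • (x - a))) (l⁻¹ • (x - a)) :=
    ((bu.contDiff (n := 1)).differentiable (by norm_num) _).hasFDerivAt
  have h2 : HasFDerivAt (fun x : E => l⁻¹ • (x - a)) (l⁻¹ • ContinuousLinearMap.id ℝ E) x := by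
    exact ((hasFDerivAt_id x).sub_const a).const_smul l⁻¹
  have h3 := (h1.comp x h2).fderiv
  have h4 : fderiv ℝ (ch a l) x = _ := h3
  show fderiv ℝ (ch a l) x (ev c) = _
  rw [h4]
  simp [pd]

theorem ch_pd0 {a : E} {l : ℝ} (hl : 0 < l) (c : Fin 3) {x : E} (hx : x ∉ Qb a (6 * l)) :
    pd c (ch a l) x = 0 := by
  have h1 : x ∉ tsupport (ch a l) := by
    intro h
    apply hx
    have h2 : tsupport (ch a l) ⊆ Qb a (6 * l) :=
      closure_minimal (fun y hy => ch_zero hl hy) (compact a (6 * l)).isClosed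
    exact h2 h
  have h2 : fderiv ℝ (ch a l) x = 0 := fderiv_of_notMem_tsupport ℝ h1
  show fderiv ℝ (ch a l) x (ev c) = 0
  rw [h2]
  rfl

/-- variance and double integral -/
theorem vari {α : Type} [MeasurableSpace α] (μ : Measure α) [IsFiniteMeasure μ] (f : α → ℝ) (V : ℝ) (hV : 0 < V)
    (hμ : μ.real Set.univ = V) (h1 : Integrable f μ) (h2 : Integrable (fun x => f x ^ 2) μ) :
    V * (V⁻¹ * ∫ x, f x ∂μ) ^ 2 ≤ ∫ x, f x ^ 2 ∂μ ∧
    ∫ x, (f x - V⁻¹ * ∫ y, f y ∂μ) ^ 2 ∂μ = (2 * V)⁻¹ * ∫ x, ∫ y, (f x - f y) ^ 2 ∂μ ∂μ := by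
  set I := ∫ x, f x ∂μ with hI
  set J := ∫ x, f x ^ 2 ∂μ with hJ
  have e1 : ∀ t : ℝ, ∫ x, (f x - t) ^ 2 ∂μ = J - 2 * t * I + V * t ^ 2 := by
    intro t
    have e : ∀ x, (f x - t) ^ 2 = f x ^ 2 - 2 * t * f x + t ^ 2 := fun x => by ring
    simp_rw [e]
    have i1 : Integrable (fun x => 2 * t * f x) μ := h1.const_mul _
    have i2 : Integrable (fun x => f x ^ 2 - 2 * t * f x) μ := h2.sub i1
    rw [integral_add i2 (integrable_const _), integral_sub h2 i1,
      integral_const_mul, integral_const, hμ, smul_eq_mul]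
  have e2 : ∫ x, ∫ y, (f x - f y) ^ 2 ∂μ ∂μ = 2 * V * J - 2 * I ^ 2 := by
    have e3 : ∀ x, ∫ y, (f x - f y) ^ 2 ∂μ = V * f x ^ 2 - 2 * I * f x + J := by
      intro x
      have := e1 (f x)
      have e4 : ∀ y, (f x - f y) ^ 2 = (f y - f x) ^ 2 := fun y => by ring
      simp_rw [e4]
      rw [this]
      ring
    simp_rw [e3]
    have i1 : Integrable (fun x => 2 * I * f x) μ := h1.const_mul _
    have i2 : Integrable (fun x => V * f x ^ 2) μ := h2.const_mul _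
    have i3 : Integrable (fun x => V * f x ^ 2 - 2 * I * f x) μ := i2.sub i1
    rw [integral_add i3 (integrable_const _), integral_sub i2 i1,
      integral_const_mul, integral_const_mul, integral_const, hμ, smul_eq_mul]
    ring
  have e5 := e1 (V⁻¹ * I)
  have e6 : 0 ≤ ∫ x, (f x - V⁻¹ * I) ^ 2 ∂μ := integral_nonneg fun x => sq_nonneg _
  constructor
  · rw [e5] at e6
    have e7 : J - 2 * (V⁻¹ * I) * I + V * (V⁻¹ * I) ^ 2 = J - V * (V⁻¹ * I) ^ 2 := by
      field_simp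
      ring
    rw [e7] at e6
    linarith
  · rw [e5, e2]
    field_simp
    ring

end HRD_

open HRD_

theorem hrd_proof (hBMC : Pool.Agent.TBL.Stmt_BMC) (hHAR : Stmt_HAR) (hPCQ : Stmt_PCQ) : Stmt_HRD := by
  obtain ⟨C0, hC0, hP⟩ := hPCQ
  obtain ⟨D, hD0, hD⟩ := bu_bd
  refine ⟨2 + 8 * (2 + 6 * D ^ 2 * (9 / 4 * C0)), by positivity, ?_⟩
  intro a c₀ l w₁ w₂ W f hl hW hW0 hWs hw1 hw2 hf
  set Q := Qb a (6 * l) with hQ
  have hQc : IsCompact Q := compact a (6 * l)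
  have hQm : MeasurableSet Q := meas a (6 * l)
  have hQv : volume Q = ENNReal.ofReal ((12 * l) ^ 3) := by
    rw [hQ, vol (by linarith)]
    congr 1
    ring
  have hfin : IsFiniteMeasure (volume.restrict Q) := ⟨by
    rw [Measure.restrict_apply_univ, hQv]
    exact ENNReal.ofReal_lt_top⟩
  set V : ℝ := (12 * l) ^ 3 with hV
  have hVp : 0 < V := by positivity
  have hμ : (volume.restrict Q).real Set.univ = V := by
    rw [Measure.real, Measure.restrict_apply_univ, hQv, ENNReal.toReal_ofReal hVp.le]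
  have hIc : ∀ g : E → ℝ, Continuous g → Integrable g (volume.restrict Q) := fun g hg =>
    hg.continuousOn.integrableOn_compact hQc
  have hfc : Continuous f := hf.continuous
  have hpc : ∀ c, Continuous (fun x => pd c f x) := fun c =>
    (hf.continuous_fderiv (by norm_num)).clm_apply continuous_const
  set m := V⁻¹ * ∫ x in Q, f x with hm
  obtain ⟨v1, v2⟩ := vari (volume.restrict Q) f V hVp hμ (hIc f hfc) (hIc _ (hfc.pow 2))
  rw [← hm] at v1
  simp_rw [← hm] at v2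
  set A := ∫ x in Q, f x ^ 2 with hA
  set B := ∫ x in Q, ∑ c, pd c f x ^ 2 with hB
  have hB0 : 0 ≤ B := integral_nonneg fun x => Finset.sum_nonneg fun c _ => sq_nonneg _
  have hA0 : 0 ≤ A := integral_nonneg fun x => sq_nonneg _
  have v3 : ∫ x in Q, (f x - m) ^ 2 ≤ 9 / 4 * C0 * l ^ 2 * B := by
    rw [v2]
    have h1 := hP a (6 * l) f (by linarith) hf
    have h2 : (2 * V)⁻¹ * ∫ x in Q, ∫ y in Q, (f x - f y) ^ 2 ≤ (2 * V)⁻¹ * (C0 * (6 * l) ^ 5 * B) :=
      mul_le_mul_of_nonneg_left h1 (by positivity)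
    refine h2.trans (le_of_eq ?_)
    rw [hV]
    field_simp
    ring
  have hw2' : 0 ≤ w₂ := (mul_nonneg (hW0 a) (sq_nonneg _)).trans (hw2 a)
  -- the function `χ (f - m)`
  set g : E → ℝ := fun x => ch a l x * (f x - m) with hg
  have hgs : ContDiff ℝ 1 g := (ch_smooth a l).mul (hf.sub contDiff_const)
  have hgc : HasCompactSupport g := by
    refine HasCompactSupport.intro hQc (fun x hx => ?_)
    have : ch a l x = 0 := by
      by_contra h
      exact hx (ch_zero hl h)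
    simp [hg, this]
  obtain ⟨hi, hh⟩ := hHAR g c₀ hgs hgc
  have hgp : ∀ c x, pd c g x = pd c (ch a l) x * (f x - m) + ch a l x * pd c f x := by
    intro c x
    have h1 : HasFDerivAt (ch a l) (fderiv ℝ (ch a l) x) x :=
      ((ch_smooth a l).differentiable (by norm_num) x).hasFDerivAt
    have h2 : HasFDerivAt (fun x => f x - m) (fderiv ℝ f x) x :=
      ((hf.differentiable (by norm_num) x).hasFDerivAt).sub_const m
    have h3 := (h1.mul h2).fderiv
    show fderiv ℝ g x (ev c) = _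
    have h4 : fderiv ℝ g x = _ := h3
    rw [h4]
    simp [pd]
    ring
  have hgb : ∀ x, ∑ c, pd c g x ^ 2 ≤ 6 * (D / l) ^ 2 * (f x - m) ^ 2 + 2 * ∑ c, pd c f x ^ 2 := by
    intro x
    have h1 : ∀ c, pd c g x ^ 2 ≤ 2 * (D / l) ^ 2 * (f x - m) ^ 2 + 2 * pd c f x ^ 2 := by
      intro c
      have h2 : |pd c (ch a l) x| ≤ D / l := by
        rw [ch_pd, abs_mul, abs_inv, abs_of_pos hl, div_eq_inv_mul]
        exact mul_le_mul_of_nonneg_left (hD _ _) (by positivity)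
      have h3 : pd c (ch a l) x ^ 2 ≤ (D / l) ^ 2 := by
        rw [← sq_abs]
        exact pow_le_pow_left₀ (abs_nonneg _) h2 2
      have h4 : ch a l x ^ 2 ≤ 1 := by
        have := ch_abs a l x
        nlinarith
      have h5 : pd c g x ^ 2 ≤ 2 * (pd c (ch a l) x ^ 2 * (f x - m) ^ 2) + 2 * (ch a l x ^ 2 * pd c f x ^ 2) := by
        rw [hgp]
        nlinarith [sq_nonneg (pd c (ch a l) x * (f x - m) - ch a l x * pd c f x)]
      have h6 : pd c (ch a l) x ^ 2 * (f x - m) ^ 2 ≤ (D / l) ^ 2 * (f x - m) ^ 2 :=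
        mul_le_mul_of_nonneg_right h3 (sq_nonneg _)
      have h7 : ch a l x ^ 2 * pd c f x ^ 2 ≤ 1 * pd c f x ^ 2 := mul_le_mul_of_nonneg_right h4 (sq_nonneg _)
      linarith
    calc ∑ c, pd c g x ^ 2 ≤ ∑ c, (2 * (D / l) ^ 2 * (f x - m) ^ 2 + 2 * pd c f x ^ 2) :=
          Finset.sum_le_sum fun c _ => h1 c
      _ = 6 * (D / l) ^ 2 * (f x - m) ^ 2 + 2 * ∑ c, pd c f x ^ 2 := by
          rw [Finset.sum_add_distrib, Finset.mul_sum]
          simp only [Finset.sum_const, Finset.card_univ, Fintype.card_fin, nsmul_eq_mul]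
          push_cast
          ring
  have hg0 : ∀ x, x ∉ Q → ∑ c, pd c g x ^ 2 = 0 := by
    intro x hx
    refine Finset.sum_eq_zero fun c _ => ?_
    have h1 : ch a l x = 0 := by
      by_contra h
      exact hx (ch_zero hl h)
    rw [hgp, ch_pd0 hl c hx, h1]
    ring
  have hgi : ∫ x, ∑ c, pd c g x ^ 2 ≤ 6 * (D / l) ^ 2 * (9 / 4 * C0 * l ^ 2 * B) + 2 * B := by
    rw [← setIntegral_eq_integral_of_forall_compl_eq_zero (s := Q) hg0]
    have h1 : ∫ x in Q, ∑ c, pd c g x ^ 2 ≤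
        ∫ x in Q, (6 * (D / l) ^ 2 * (f x - m) ^ 2 + 2 * ∑ c, pd c f x ^ 2) := by
      refine integral_mono_of_nonneg (ae_of_all _ fun x => Finset.sum_nonneg fun c _ => sq_nonneg _) ?_
        (ae_of_all _ hgb)
      refine hIc _ ?_
      refine ((hfc.sub continuous_const).pow 2).const_mul _ |>.add (Continuous.const_mul ?_ _)
      exact continuous_finsetSum _ fun c _ => (hpc c).pow 2
    have i1 : Integrable (fun x => 6 * (D / l) ^ 2 * (f x - m) ^ 2) (volume.restrict Q) :=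
      hIc _ (((hfc.sub continuous_const).pow 2).const_mul _)
    have i2 : Integrable (fun x => 2 * ∑ c, pd c f x ^ 2) (volume.restrict Q) :=
      hIc _ ((continuous_finsetSum _ fun c _ => (hpc c).pow 2).const_mul _)
    rw [integral_add i1 i2, integral_const_mul, integral_const_mul] at h1
    have h2 : 6 * (D / l) ^ 2 * ∫ x in Q, (f x - m) ^ 2 ≤ 6 * (D / l) ^ 2 * (9 / 4 * C0 * l ^ 2 * B) :=
      mul_le_mul_of_nonneg_left v3 (by positivity)
    linarith
  have hWi : Integrable W := by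
    have h1 : Integrable W (volume.restrict Q) := (hBMC.1 E W W hW hW).2.2.2.2.2.2 _
    refine (integrableOn_iff_integrable_of_support_subset ?_).mp h1
    intro x hx
    have h2 := hWs x hx
    intro c
    have := h2 c
    linarith
  have hkey : ∫ x, W x * f x ^ 2 ≤ 2 * m ^ 2 * (∫ x, W x) + 2 * w₂ * ∫ x, g x ^ 2 / ‖x - c₀‖ ^ 2 := by
    rw [← integral_const_mul, ← integral_const_mul, ← integral_add (hWi.const_mul _) (hi.const_mul _)]
    refine integral_mono_of_nonneg (ae_of_all _ fun x => mul_nonneg (hW0 x) (sq_nonneg _))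
      ((hWi.const_mul _).add (hi.const_mul _)) ?_
    have hne : ∀ᵐ x : E, x ≠ c₀ := by
      have : volume ({c₀} : Set E) = 0 := measure_singleton c₀
      exact measure_eq_zero_iff_ae_notMem.mp this |>.mono fun x hx => by simpa using hx
    filter_upwards [hne] with x hx
    show W x * f x ^ 2 ≤ 2 * m ^ 2 * W x + 2 * w₂ * (g x ^ 2 / ‖x - c₀‖ ^ 2)
    have hn : 0 < ‖x - c₀‖ ^ 2 := by
      have : 0 < ‖x - c₀‖ := norm_pos_iff.mpr (sub_ne_zero.mpr hx)
      positivity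
    by_cases hWx : W x = 0
    · rw [hWx]
      have : 0 ≤ 2 * w₂ * (g x ^ 2 / ‖x - c₀‖ ^ 2) := by positivity
      linarith
    · have h1 : g x = f x - m := by
        simp only [hg]
        rw [ch_one hl (hWs x hWx), one_mul]
      have h2 : W x ≤ w₂ / ‖x - c₀‖ ^ 2 := by
        rw [le_div_iff₀ hn]
        exact hw2 x
      have h3 : W x * (f x - m) ^ 2 ≤ w₂ / ‖x - c₀‖ ^ 2 * (f x - m) ^ 2 :=
        mul_le_mul_of_nonneg_right h2 (sq_nonneg _)
      have h4 : w₂ / ‖x - c₀‖ ^ 2 * (f x - m) ^ 2 = w₂ * (g x ^ 2 / ‖x - c₀‖ ^ 2) := by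
        rw [h1]
        ring
      have h5 : f x ^ 2 ≤ 2 * m ^ 2 + 2 * (f x - m) ^ 2 := by nlinarith [sq_nonneg (f x - 2 * m)]
      have h6 : W x * f x ^ 2 ≤ W x * (2 * m ^ 2 + 2 * (f x - m) ^ 2) :=
        mul_le_mul_of_nonneg_left h5 (hW0 x)
      nlinarith
  have hw1' : 0 ≤ w₁ := (integral_nonneg hW0).trans hw1
  have k1 : 2 * m ^ 2 * (∫ x, W x) ≤ 2 * (w₁ / l ^ 3 * A) := by
    have h1 : 2 * m ^ 2 * (∫ x, W x) ≤ 2 * m ^ 2 * w₁ := mul_le_mul_of_nonneg_left hw1 (by positivity)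
    have h2 : m ^ 2 ≤ A / l ^ 3 := by
      rw [le_div_iff₀ (by positivity)]
      have h3 : l ^ 3 ≤ V := by
        rw [hV]
        have : (12 * l) ^ 3 = 1728 * l ^ 3 := by ring
        rw [this]
        have : 0 < l ^ 3 := by positivity
        linarith
      have h4 : m ^ 2 * l ^ 3 ≤ m ^ 2 * V := mul_le_mul_of_nonneg_left h3 (sq_nonneg _)
      linarith
    have h3 : 2 * m ^ 2 * w₁ ≤ 2 * (A / l ^ 3) * w₁ := by
      have := mul_le_mul_of_nonneg_right h2 hw1'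
      linarith
    have h4 : 2 * (A / l ^ 3) * w₁ = 2 * (w₁ / l ^ 3 * A) := by ring
    linarith
  have k2 : 2 * w₂ * ∫ x, g x ^ 2 / ‖x - c₀‖ ^ 2 ≤ 8 * (2 + 6 * D ^ 2 * (9 / 4 * C0)) * (w₂ * B) := by
    have h1 : ∫ x, g x ^ 2 / ‖x - c₀‖ ^ 2 ≤ 4 * (6 * (D / l) ^ 2 * (9 / 4 * C0 * l ^ 2 * B) + 2 * B) := by
      linarith
    have h2 := mul_le_mul_of_nonneg_left h1 (show 0 ≤ 2 * w₂ by positivity)
    refine h2.trans (le_of_eq ?_)
    have h3 : (D / l) ^ 2 * l ^ 2 = D ^ 2 := by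
      rw [div_pow, div_mul_cancel₀]
      positivity
    calc 2 * w₂ * (4 * (6 * (D / l) ^ 2 * (9 / 4 * C0 * l ^ 2 * B) + 2 * B))
        = 8 * (2 + 6 * ((D / l) ^ 2 * l ^ 2) * (9 / 4 * C0)) * (w₂ * B) := by ring
      _ = 8 * (2 + 6 * D ^ 2 * (9 / 4 * C0)) * (w₂ * B) := by rw [h3]
  have k3 : 0 ≤ w₁ / l ^ 3 * A := by positivity
  have k4 : 0 ≤ w₂ * B := by positivity
  have k5 : 0 ≤ 6 * D ^ 2 * (9 / 4 * C0) := by positivity
  have k6 := mul_nonneg k5 k3
  calc ∫ x, W x * f x ^ 2 ≤ 2 * (w₁ / l ^ 3 * A) + 8 * (2 + 6 * D ^ 2 * (9 / 4 * C0)) * (w₂ * B) := by linarith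
    _ ≤ _ := by linarith

end Pool.Agent.TBS
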