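import Pool.Agent.TBS.StmtsB

/-!
Squad TBS, module RE2: the roughness estimate for the particles 0, 1, 3.
-/

set_option autoImplicit false

open MeasureTheory Filter Topology
open scoped ContDiff

namespace Pool.Agent.TBS

open Pool.Agent.TBG Pool.Agent.TBL Pool.Agent.TBF

namespace RE2_

/-- exchange of the particles 2 and 3 -/
def sw (q : W4) : W4 := (q.1, q.2.2, q.2.1)

lemma sw_mp : MeasurePreserving sw (volume : Measure W4) volume := by
  have h1 : MeasurePreserving (Prod.swap : E × E → E × E) volume volume :=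
    Measure.measurePreserving_swap
  exact (MeasurePreserving.id (volume : Measure E)).prod h1

lemma sw_meas : Measurable sw := sw_mp.measurable

lemma sw_sw (q : W4) : sw (sw q) = q := rfl

lemma sw_norm (q : W4) : ‖sw q‖ = ‖q‖ := by
  simp only [sw, Prod.norm_def]
  rw [max_comm ‖q.2.2‖ ‖q.2.1‖]

lemma sw_emb : MeasurableEmbedding sw := by
  have h : sw = ((⟨⟨sw, sw, sw_sw, sw_sw⟩, sw_meas, sw_meas⟩ : W4 ≃ᵐ W4) : W4 → W4) := rfl
  rw [h]
  exact MeasurableEquiv.measurableEmbedding _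

lemma sw_int (F : W4 → ℝ) : ∫ q, F (sw q) = ∫ q, F q := sw_mp.integral_comp sw_emb F

end RE2_

open RE2_

theorem re2_proof (hTUP : Stmt_TUP) (hREP : Stmt_REP) : Stmt_RE2 := by
  intro C
  obtain ⟨C₁, hC₁, h⟩ := hREP C
  refine ⟨C₁, hC₁, ?_⟩
  intro ι _ _ p β θ u κ₀ κ₂ K hS hu hK hK0 hKs hm0 hm2
  have h1 := h ι p β θ u κ₀ κ₂ (fun q => K (sw q)) hS hu
    ⟨hK.1.comp sw_meas, by
      obtain ⟨B, hB⟩ := hK.2
      exact ⟨B, fun q => hB _⟩⟩ (fun q => hK0 _)
    (fun q hq => by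
      have := hKs _ hq
      rwa [sw_norm] at this)
    (by rw [sw_int K]; exact hm0)
    (by
      have e : ∫ q, K (sw q) * ‖q‖ ^ 2 = ∫ q, K q * ‖q‖ ^ 2 := by
        rw [← sw_int (fun q => K q * ‖q‖ ^ 2)]
        refine integral_congr_ae (Eventually.of_forall fun q => ?_)
        simp only
        rw [sw_norm]
      rw [e]
      exact hm2)
  refine le_trans (le_of_eq ?_) h1
  obtain ⟨-, tup2, -⟩ := hTUP ι
  unfold IO
  refine integral_congr_ae (Eventually.of_forall fun X => ?_)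
  simp only
  rw [← (tup2 4 (Equiv.swap 2 3)).1 (fun e => K (sw (rl (X ∘ e))) *
    (Pool.Agent.TBS.hS p β θ u (im (s2 e)) X - Pool.Agent.TBS.hS p β θ u (im e) X) ^ 2)]
  refine Finset.sum_congr rfl fun e _ => ?_
  have e1 : sw (rl (X ∘ (e ∘ (Equiv.swap (2 : Fin 4) 3)))) = rl (X ∘ e) := by
    have a0 : Equiv.swap (2 : Fin 4) 3 0 = 0 := by decide
    have a1 : Equiv.swap (2 : Fin 4) 3 1 = 1 := by decide
    have a2 : Equiv.swap (2 : Fin 4) 3 2 = 3 := by decide
    have a3 : Equiv.swap (2 : Fin 4) 3 3 = 2 := by decide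
    simp only [sw, rl, Function.comp_apply, a0, a1, a2, a3]
  have e2 : s2 (e ∘ (Equiv.swap (2 : Fin 4) 3)) = s3 e := by
    have a0 : Equiv.swap (2 : Fin 4) 3 0 = 0 := by decide
    have a1 : Equiv.swap (2 : Fin 4) 3 1 = 1 := by decide
    have a2 : Equiv.swap (2 : Fin 4) 3 2 = 3 := by decide
    simp only [s2, s3, Function.comp_apply, a0, a1, a2]
  rw [e1, e2, ((tup2 4 (Equiv.swap 2 3)).2 e).1]

end Pool.Agent.TBS
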