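import Pool.Agent.TBS.Defs

/-!
# Three-body Bose gases (MP_80dc41_mp), sharp lower bound: statements, part A (measures, averages, cluster sums)
-/

set_option autoImplicit false

open MeasureTheory Filter Topology
open scoped ContDiff

namespace Pool.Agent.TBS

open Pool.Agent.TBG Pool.Agent.TBL Pool.Agent.TBF

/-! ## measures -/

/-- the measures and cubes of a system -/
def Stmt_MSY : Prop := ∀ (C : ℝ) (p : Par) (β θ : E → E → ℝ), Sys C p β θ →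
  1 ≤ p.l ∧ IsFiniteMeasure (mO p.L) ∧ MeasurableSet (Om p.L) ∧ (∀ a, MeasurableSet (Qc p a)) ∧
  (∀ (a : E) (r : ℝ), MeasurableSet (Qb a r) ∧ (0 ≤ r → volume (Qb a r) = ENNReal.ofReal ((2 * r) ^ 3))) ∧
  (∀ (a : E) (r : ℝ), r ≤ 10 * p.l → Qb a r ⊆ Qc p a) ∧
  (∀ a, IsProbabilityMeasure (tm (θ a))) ∧
  (∀ (a : E) (f : E → ℝ), ∫ x, f x ∂(tm (θ a)) = ∫ x, θ a x * f x) ∧
  (∀ a ∈ p.Gr, ∀ f : E → ℝ, ∫ x, f x ∂(tm (θ a)) = ∫ x, θ a x * f x ∂(mO p.L)) ∧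
  (∀ a ∈ p.Gr, ∀ (r : ℝ) (f : E → ℝ), r ≤ 10 * p.l →
    ∫ x, ic (Qb a r) x * f x ∂(mO p.L) = ∫ x in Qb a r, f x) ∧
  (∀ x : E, p.l ^ 3 * ∑ a ∈ p.Gr, θ a x ≤ C ^ 2) ∧
  (∀ (x : E) (r : ℝ), r ≤ 12 * p.l → ∑ a ∈ p.Gr, ic (Qb a r) x ≤ C)

/-- product measures: one particle at a time -/
def Stmt_PSF : Prop := ∀ (ι : Type) [Fintype ι] [DecidableEq ι] (m n : Measure E) [IsProbabilityMeasure m]
  [IsFiniteMeasure n] (S : Finset ι), IsFiniteMeasure (PiS m n S) ∧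
  (∀ F : (ι → E) → ℝ, BM F →
    (∀ i ∉ S, ∫ X, F X ∂(PiS m n S) = ∫ X, (∫ x, F (Function.update X i x) ∂n) ∂(PiS m n (insert i S))) ∧
    (∀ i ∈ S, ∫ X, F X ∂(PiS m n S) = ∫ X, (∫ x, F (Function.update X i x) ∂m) ∂(PiS m n S)) ∧
    (∀ i ∉ S, BM (fun X => ∫ x, F (Function.update X i x) ∂n)) ∧
    (∀ i, BM (fun X => ∫ x, F (Function.update X i x) ∂m)))

/-- averages: algebra -/
def Stmt_AVP : Prop := ∀ (ι : Type) [Fintype ι] [DecidableEq ι] (m : Measure E) [IsProbabilityMeasure m]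
  (S T : Finset ι) (F G : (ι → E) → ℝ), BM F → BM G →
  BM (Av m S F) ∧ IndS S (Av m S F) ∧ (IndS T F → IndS T (Av m S F)) ∧
  (IndS S G → Av m S (fun X => G X * F X) = fun X => G X * Av m S F X) ∧ (IndS S F → Av m S F = F) ∧
  (Av m S (fun X => F X + G X) = fun X => Av m S F X + Av m S G X) ∧
  (Av m S (fun X => F X - G X) = fun X => Av m S F X - Av m S G X) ∧
  (∀ a : ℝ, Av m S (fun X => a * F X) = fun X => a * Av m S F X) ∧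
  ((∀ X, F X ≤ G X) → ∀ X, Av m S F X ≤ Av m S G X) ∧
  (∀ C, (∀ X, |F X| ≤ C) → ∀ X, |Av m S F X| ≤ C) ∧
  (∀ X, (Av m S F X) ^ 2 ≤ Av m S (fun Y => F Y ^ 2) X) ∧
  (Av m S (Av m T F) = Av m (S ∪ T) F) ∧ (Av m (∅ : Finset ι) F = F) ∧
  (∀ i X, Av m {i} F X = ∫ y, F (Function.update X i y) ∂m)

/-- averages: integrals -/
def Stmt_AVI : Prop := ∀ (ι : Type) [Fintype ι] [DecidableEq ι] (m n : Measure E) [IsProbabilityMeasure m]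
  [IsFiniteMeasure n] (S T : Finset ι) (F G : (ι → E) → ℝ), BM F → BM G → T ⊆ S →
  (IndS T G → ∫ X, F X * G X ∂(PiS m n S) = ∫ X, Av m T F X * G X ∂(PiS m n S)) ∧
  (∫ X, Av m T F X * G X ∂(PiS m n S) = ∫ X, F X * Av m T G X ∂(PiS m n S)) ∧
  (∫ X, (Av m T F X) ^ 2 ∂(PiS m n S) ≤ ∫ X, F X ^ 2 ∂(PiS m n S))

/-- densities -/
def Stmt_DNS : Prop := ∀ (ι : Type) [Fintype ι] [DecidableEq ι] (C : ℝ) (p : Par) (β θ : E → E → ℝ),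
  Sys C p β θ → ∀ a ∈ p.Gr, ∀ (S : Finset ι) (F : (ι → E) → ℝ), BM F →
  (∀ i ∉ S, IA p θ a (insert i S) F = IA p θ a S (fun X => θ a (X i) * F X)) ∧
  IA p θ a S F = IO p (fun X => (∏ i ∈ S, θ a (X i)) * F X)

/-- averages of `C¹` functions -/
def Stmt_AVC : Prop := ∀ (ι : Type) [Fintype ι] [DecidableEq ι] (m : Measure E) [IsProbabilityMeasure m]
  (S : Finset ι) (u : (ι → E) → ℝ), CU u → BM u ∧ (∀ j c, BM (di j c u)) ∧ ContDiff ℝ 1 (Av m S u) ∧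
  (∀ j ∉ S, ∀ c, di j c (Av m S u) = Av m S (di j c u)) ∧ (∀ j c, BM (di j c (Av m S u))) ∧
  (∀ j c X, di j c u X = pd c (fun x => u (Function.update X j x)) (X j)) ∧
  (∀ j c X, di j c (Av m S u) X = pd c (fun x => Av m S u (Function.update X j x)) (X j))

/-- telescoping -/
def Stmt_TLS : Prop := ∀ (ι : Type) [Fintype ι] [DecidableEq ι] (m n : Measure E) [IsProbabilityMeasure m]
  [IsFiniteMeasure n] (S : Finset ι) (u w : (ι → E) → ℝ), BM u → BM w → (∀ X, 0 ≤ w X) → IndS S w →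
  ∫ X, w X * (u X - Av m S u X) ^ 2 ∂(PiS m n S) ≤
    ∑ i ∈ S, ∫ X, w X * (u X - Av m {i} u X) ^ 2 ∂(PiS m n S)

/-- the indicator `ϑ` -/
def Stmt_VTP : Prop := ∀ (ι : Type) [Fintype ι] [DecidableEq ι] (C : ℝ) (p : Par) (β θ : E → E → ℝ),
  Sys C p β θ → ∀ (a : E) (S : Finset ι),
  BM (vt p a S) ∧ IndS S (vt p a S) ∧
  (∀ X, (vt p a S X = 0 ∨ vt p a S X = 1) ∧ vt p a S X * nQ p a S X ≤ p.M * vt p a S X ∧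
    (∀ r, r ≤ 10 * p.l → vt p a S X * ∑ j ∈ Finset.univ \ S, ic (Qb a r) (X j) ≤ p.M * vt p a S X)) ∧
  (∀ (T : Finset ι) (X : ι → E), (∀ j ∈ T, j ∉ S → X j ∈ Qc p a) → vt p a S X = vt p a (S ∪ T) X) ∧
  (∀ (j : ι) (X : ι → E) (y : E), j ∉ S → X j ∈ Qc p a → y ∈ Qc p a →
    vt p a S (Function.update X j y) = vt p a S X)

/-- counting -/
def Stmt_CTS : Prop := ∀ (C : ℝ) (m : ℕ), ∃ C₁ : ℝ, 0 < C₁ ∧ ∀ (ι : Type) [Fintype ι] [DecidableEq ι] (p : Par)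
  (β θ : E → E → ℝ), Sys C p β θ → ∀ (a : E) (X : ι → E),
  (∑ e ∈ Ij m ι, (∏ i ∈ im e, θ a (X i)) * vt p a (im e) X ≤ C₁ * (p.M / p.l ^ 3) ^ m) ∧
  (∀ f : ι → ℝ, (∀ i, 0 ≤ f i) →
    ∑ e ∈ Ij (m + 1) ι, (∏ i ∈ im e, θ a (X i)) * (vt p a (im e) X * ∑ i ∈ im e, f i) ≤
      C₁ * (p.M / p.l ^ 3) ^ m * ∑ i, θ a (X i) * (vt p a {i} X * f i)) ∧
  (∀ j : ι, X j ∈ Qc p a →
    ∑ e ∈ (Ij m ι).filter (fun e => j ∉ im e), (∏ i ∈ im e, θ a (X i)) * vt p a (im e) X ≤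
      C₁ * (p.M / p.l ^ 3) ^ m * vt p a {j} X)

/-- a priori bounds -/
def Stmt_BBD : Prop := ∀ (C : ℝ) (m : ℕ), ∃ C₁ : ℝ, 0 < C₁ ∧ ∀ (ι : Type) [Fintype ι] [DecidableEq ι] (p : Par)
  (β θ : E → E → ℝ) (u : (ι → E) → ℝ), Sys C p β θ → BM u →
  0 ≤ AA p θ u m ∧ AA p θ u m ≤ BB p θ u m ∧ 0 ≤ GG p θ u m ∧ 0 ≤ RR p θ u ∧
  BB p θ u (m + 1) ≤ C₁ * (p.M / p.l ^ 3) ^ m * ((Fintype.card ι : ℝ) * UU p u)

/-- the kinetic energy of the amplitudes -/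
def Stmt_GGB : Prop := ∀ (C : ℝ) (m : ℕ), ∃ C₁ : ℝ, 0 < C₁ ∧ ∀ (ι : Type) [Fintype ι] [DecidableEq ι] (p : Par)
  (β θ : E → E → ℝ) (u : (ι → E) → ℝ), Sys C p β θ → CU u →
  GG p θ u m ≤ C₁ * (p.M / p.l ^ 3) ^ m * p.l ^ 3 * KK p u

/-- the variance -/
def Stmt_VAR : Prop := ∀ C : ℝ, ∃ C₁ : ℝ, 0 < C₁ ∧ ∀ (ι : Type) [Fintype ι] [DecidableEq ι] (p : Par)
  (β θ : E → E → ℝ) (u : (ι → E) → ℝ), Sys C p β θ → CU u →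
  BB p θ u 3 - AA p θ u 3 ≤ C₁ * (p.M / p.l ^ 3) ^ 2 * RR p θ u

/-! ## analysis on cubes -/

/-- Hardy's inequality -/
def Stmt_HAR : Prop := ∀ (f : E → ℝ) (c₀ : E), ContDiff ℝ 1 f → HasCompactSupport f →
  Integrable (fun x => f x ^ 2 / ‖x - c₀‖ ^ 2) ∧
  ∫ x, f x ^ 2 / ‖x - c₀‖ ^ 2 ≤ 4 * ∫ x, ∑ c, pd c f x ^ 2

/-- Poincaré's inequality -/
def Stmt_PCQ : Prop := ∃ C : ℝ, 0 < C ∧ ∀ (a : E) (r : ℝ) (f : E → ℝ), 0 < r → ContDiff ℝ 1 f →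
  ∫ x in Qb a r, ∫ y in Qb a r, (f x - f y) ^ 2 ≤ C * r ^ 5 * ∫ x in Qb a r, ∑ c, pd c f x ^ 2

/-- integrals against singular weights -/
def Stmt_HRD : Prop := ∃ C : ℝ, 0 < C ∧ ∀ (a c₀ : E) (l w₁ w₂ : ℝ) (W f : E → ℝ), 0 < l → BM W → (∀ x, 0 ≤ W x) →
  (∀ x, W x ≠ 0 → x ∈ Qb a (3 * l)) → ∫ x, W x ≤ w₁ → (∀ x, W x * ‖x - c₀‖ ^ 2 ≤ w₂) → ContDiff ℝ 1 f →
  ∫ x, W x * f x ^ 2 ≤ C * (w₁ / l ^ 3 * (∫ x in Qb a (6 * l), f x ^ 2)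
    + w₂ * ∫ x in Qb a (6 * l), ∑ c, pd c f x ^ 2)

/-- Poincaré's inequality with the mean `θ_a` -/
def Stmt_PCT : Prop := ∀ C : ℝ, ∃ C₁ : ℝ, 0 < C₁ ∧ ∀ (p : Par) (β θ : E → E → ℝ), Sys C p β θ →
  ∀ (a : E) (r : ℝ) (f : E → ℝ), 2 * p.l ≤ r → r ≤ 10 * p.l → ContDiff ℝ 1 f →
  ∫ x in Qb a r, (f x - ∫ y, f y ∂(tm (θ a))) ^ 2 ≤ C₁ * p.l ^ 2 * ∫ x in Qb a r, ∑ c, pd c f x ^ 2

/-- `HRD` for one of many particles -/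
def Stmt_HRN : Prop := ∀ C : ℝ, ∃ C₁ : ℝ, 0 < C₁ ∧ ∀ (ι : Type) [Fintype ι] [DecidableEq ι] (p : Par)
  (β θ : E → E → ℝ), Sys C p β θ → ∀ a ∈ p.Gr, ∀ (S : Finset ι) (j : ι) (u w : (ι → E) → ℝ) (W : E → ℝ)
  (c₀ : E) (w₁ w₂ : ℝ), j ∉ S → CU u → BM w → (∀ X, 0 ≤ w X) → IndS {j} w → BM W → (∀ x, 0 ≤ W x) →
  (∀ x, W x ≠ 0 → x ∈ Qb a (3 * p.l)) → ∫ x, W x ≤ w₁ → (∀ x, W x * ‖x - c₀‖ ^ 2 ≤ w₂) →
  IA p θ a S (fun X => vt p a S X * (w X * (W (X j) * Av (tm (θ a)) S u X ^ 2))) ≤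
    C₁ * (w₁ / p.l ^ 3 * IA p θ a S (fun X => vt p a S X * (w X * (ic (Qb a (6 * p.l)) (X j) *
        Av (tm (θ a)) S u X ^ 2)))
      + w₂ * IA p θ a S (fun X => vt p a S X * (w X * (ic (Qb a (6 * p.l)) (X j) *
        ∑ c, di j c (Av (tm (θ a)) S u) X ^ 2))))

/-- `PCT` for one of many particles; `F` is `C¹` in the particle `j` -/
def Stmt_PCN : Prop := ∀ C : ℝ, ∃ C₁ : ℝ, 0 < C₁ ∧ ∀ (ι : Type) [Fintype ι] [DecidableEq ι] (p : Par)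
  (β θ : E → E → ℝ), Sys C p β θ → ∀ a ∈ p.Gr, ∀ (S : Finset ι) (j : ι) (F w : (ι → E) → ℝ) (r : ℝ), j ∉ S →
  BM F → (∀ X, ContDiff ℝ 1 (fun x => F (Function.update X j x))) →
  (∀ c, BM (fun X => pd c (fun x => F (Function.update X j x)) (X j))) → BM w → (∀ X, 0 ≤ w X) →
  (∀ (X : ι → E) (y : E), X j ∈ Qc p a → y ∈ Qc p a → w (Function.update X j y) = w X) →
  2 * p.l ≤ r → r ≤ 10 * p.l →
  IA p θ a S (fun X => w X * (ic (Qb a r) (X j) * (F X - Av (tm (θ a)) {j} F X) ^ 2)) ≤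
    C₁ * p.l ^ 2 * IA p θ a S (fun X => w X * (ic (Qb a r) (X j) *
      ∑ c, pd c (fun x => F (Function.update X j x)) (X j) ^ 2))

/-! ## cluster sums -/

/-- integration over a cluster -/
def Stmt_CLX : Prop := ∀ (C : ℝ) (m : ℕ) (ι : Type) [Fintype ι] [DecidableEq ι] (p : Par) (β θ : E → E → ℝ)
  (κ : ℝ) (K : (Fin (m + 1) → E) → ℝ) (F : E → (ι → E) → ℝ), Sys C p β θ → Ck m p.l κ K →
  BM (fun q : E × (ι → E) => F q.1 q.2) → (∀ x X, 0 ≤ F x X) → ∀ a ∈ p.Gr, ∀ e ∈ Ij (m + 1) ι,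
  (∀ x, IndS (im e) (F x)) →
  IO p (fun X => ic (Qb a p.l) (cen (im e) X) * (K (X ∘ e) * F (X (e 0)) X)) ≤
    κ * ∫ x in Qb a (2 * p.l), IA p θ a (im e) (F x)

/-- the function `h`: size, derivative -/
def Stmt_HSF : Prop := ∀ C : ℝ, ∃ C₁ : ℝ, 0 < C₁ ∧ ∀ (ι : Type) [Fintype ι] [DecidableEq ι] (p : Par)
  (β θ : E → E → ℝ) (u : (ι → E) → ℝ) (S : Finset ι), Sys C p β θ → BM u → S.Nonempty →
  BM (hS p β θ u S) ∧ BM (hh2 p θ u S) ∧ (∀ X, 0 ≤ hh2 p θ u S X ∧ hS p β θ u S X ^ 2 ≤ hh2 p θ u S X) ∧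
  (∀ X, hS p β θ u S X ≠ 0 → ∃ a ∈ p.Gr, cen S X ∈ Qb a p.l) ∧
  (∀ i ∈ S, ∀ X, ContDiff ℝ ∞ (fun x => hS p β θ u S (Function.update X i x)) ∧
    ∀ c, pd c (fun x => hS p β θ u S (Function.update X i x)) (X i) =
      (S.card : ℝ)⁻¹ * ∑ a ∈ p.Gr, pd c (β a) (cen S X) * Am p θ u a S X ∧
    (pd c (fun x => hS p β θ u S (Function.update X i x)) (X i)) ^ 2 ≤ C₁ / p.l ^ 2 * hh2 p θ u S X)

/-- the sum over a cluster of `m + 1` particles and `r` further particles -/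
noncomputable def GS {ι : Type} [Fintype ι] [DecidableEq ι] (p : Par) (θ : E → E → ℝ) (u : (ι → E) → ℝ)
    (m r : ℕ) (K : (Fin (m + 1) → E) → ℝ) (q : E → ℝ) : ℝ :=
  ∑ e ∈ Ij (m + 1) ι, ∑ j ∈ (Ij r ι).filter (fun j => Disjoint (im j) (im e)),
    IO p (fun X => hh2 p θ u (im e) X * (K (X ∘ e) * ∏ s, q (X (e 0) - X (j s))))

def Stmt_GS0 : Prop := ∀ (C : ℝ) (m : ℕ), ∃ C₁ : ℝ, 0 < C₁ ∧ ∀ (ι : Type) [Fintype ι] [DecidableEq ι] (p : Par)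
  (β θ : E → E → ℝ) (u : (ι → E) → ℝ) (κ : ℝ) (K : (Fin (m + 1) → E) → ℝ) (q : E → ℝ), Sys C p β θ → CU u →
  Ck m p.l κ K → 0 ≤ GS p θ u m 0 K q ∧ GS p θ u m 0 K q ≤ C₁ * κ * AA p θ u (m + 1)

def Stmt_GS1 : Prop := ∀ (C : ℝ) (m : ℕ), ∃ C₁ : ℝ, 0 < C₁ ∧ ∀ (ι : Type) [Fintype ι] [DecidableEq ι] (p : Par)
  (β θ : E → E → ℝ) (u : (ι → E) → ℝ) (κ w₁ w₂ w₃ : ℝ) (K : (Fin (m + 1) → E) → ℝ) (q : E → ℝ), Sys C p β θ →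
  CU u → Ck m p.l κ K → Pk p.l w₁ w₂ w₃ q →
  0 ≤ GS p θ u m 1 K q ∧ GS p θ u m 1 K q ≤ C₁ * κ * (w₁ * (p.M / p.l ^ 3)) * AA p θ u (m + 1)

def Stmt_GS2 : Prop := ∀ (C : ℝ) (m : ℕ), ∃ C₁ : ℝ, 0 < C₁ ∧ ∀ (ι : Type) [Fintype ι] [DecidableEq ι] (p : Par)
  (β θ : E → E → ℝ) (u : (ι → E) → ℝ) (κ w₁ w₂ w₃ : ℝ) (K : (Fin (m + 1) → E) → ℝ) (q : E → ℝ), Sys C p β θ →
  CU u → Ck m p.l κ K → Pk p.l w₁ w₂ w₃ q → 0 ≤ GS p θ u m 2 K q ∧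
  GS p θ u m 2 K q ≤ C₁ * κ * ((w₁ * (p.M / p.l ^ 3)) ^ 2 * AA p θ u (m + 1)
    + w₁ * w₂ * (p.M / p.l ^ 3) * GG p θ u (m + 1))

def Stmt_GS3 : Prop := ∀ (C : ℝ) (m : ℕ), ∃ C₁ : ℝ, 0 < C₁ ∧ ∀ (ι : Type) [Fintype ι] [DecidableEq ι] (p : Par)
  (β θ : E → E → ℝ) (u : (ι → E) → ℝ) (κ w₁ w₂ w₃ : ℝ) (K : (Fin (m + 1) → E) → ℝ) (q : E → ℝ), Sys C p β θ →
  CU u → Ck m p.l κ K → Pk p.l w₁ w₂ w₃ q → 0 ≤ GS p θ u m 3 K q ∧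
  GS p θ u m 3 K q ≤ C₁ * κ * ((w₁ * (p.M / p.l ^ 3)) ^ 3 * AA p θ u (m + 1)
    + w₂ * (w₁ ^ 2 + w₃ * p.l ^ 3) * (p.M / p.l ^ 3) ^ 2 * GG p θ u (m + 1))

/-- sums over overlapping clusters: combinatorics -/
def Stmt_CLS : Prop := ∀ m m' r : ℕ, ∃ C : ℝ, 0 < C ∧ ∀ (ι : Type) [Fintype ι] [DecidableEq ι] (X : ι → E)
  (q : E → ℝ) (K : (Fin (m' + 1) → E) → ℝ) (e : Fin (m + 1) → ι), (∀ x, 0 ≤ q x ∧ q x ≤ 1) →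
  (∀ x, 0 ≤ K x ∧ K x ≤ ∏ s : Fin m', q (x 0 - x s.succ)) → e ∈ Ij (m + 1) ι →
  ∑ e' ∈ (Ij (m' + 1) ι).filter (fun e' => e' 0 = e 0 ∧ (im e' \ im e).card = r), K (X ∘ e') ≤
    C * ∑ j ∈ (Ij r ι).filter (fun j => Disjoint (im j) (im e)), ∏ s, q (X (e 0) - X (j s))

open Classical in
/-- products of two overlapping clusters with `r` and `r'` particles outside of the other one -/
def Stmt_QEG : Prop := ∀ m m' r r' : ℕ, ∃ C₁ : ℝ, 0 < C₁ ∧ ∀ (C : ℝ) (ι : Type) [Fintype ι] [DecidableEq ι] (p : Par)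
  (β θ : E → E → ℝ) (u : (ι → E) → ℝ) (κ κ' w₁ w₂ w₃ w₁' w₂' w₃' : ℝ) (K : (Fin (m + 1) → E) → ℝ)
  (K' : (Fin (m' + 1) → E) → ℝ) (q q' : E → ℝ), Sys C p β θ → BM u → Ck m p.l κ K → Ck m' p.l κ' K' →
  Pk p.l w₁ w₂ w₃ q → Pk p.l w₁' w₂' w₃' q' → (∀ x, K x ≤ ∏ s : Fin m, q (x 0 - x s.succ)) →
  (∀ x, K' x ≤ ∏ s : Fin m', q' (x 0 - x s.succ)) →
  IO p (fun X => ∑ e ∈ Ij (m + 1) ι, ∑ e' ∈ (Ij (m' + 1) ι).filter (fun e' => e' 0 = e 0 ∧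
      (im e' \ im e).card = r ∧ (im e \ im e').card = r'),
      |hS p β θ u (im e) X| * (|hS p β θ u (im e') X| * (K (X ∘ e) * K' (X ∘ e')))) ≤
    C₁ * Real.sqrt (GS p θ u m r K q') * Real.sqrt (GS p θ u m' r' K' q)

end Pool.Agent.TBS
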