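import Pool.Agent.TBS.Defs
import Pool.Agent.TBF.Stmts
import Pool.Agent.TBL.Stmts

/-!
# Three-body Bose gases (MP_80dc41_mp), sharp lower bound: the dense zone
-/

set_option autoImplicit false

open MeasureTheory Filter Topology
open scoped ContDiff

namespace Pool.Agent.TBS

open Pool.Agent.TBG Pool.Agent.TBL Pool.Agent.TBF

/-- DEC: lower bound of the energy of many particles in a cube (all potentials of the family) -/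
def Stmt_DEC : Prop := ∀ lam : ℝ, 0 < lam → lam ≤ 1 → ∃ c₀ n₀ d₀ l₀ : ℝ, 0 < c₀ ∧ 0 < n₀ ∧ 0 < d₀ ∧ 1 ≤ l₀ ∧
  ∀ (ι : Type) [Fintype ι] [DecidableEq ι] (l : ℝ) (n₁ : ℕ), l₀ ≤ l → n₀ ≤ (n₁ : ℝ) → (n₁ : ℝ) ≤ d₀ * l ^ 2 →
    n₁ ≤ Fintype.card ι →
    LBc (VV (pl lam)) ι l (c₀ * (n₁ : ℝ) ^ 2 * (Fintype.card ι : ℝ) / l ^ 6)

end Pool.Agent.TBS
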