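import Pool.Agent.TBS.StmtsB
import Pool.Agent.TBS.StmtsC0
import Pool.Agent.TBF.EXP

/-!
# Three-body Bose gases (MP_80dc41_mp), sharp lower bound: statements, part C (dense regions, the classical inequality, conclusion)
-/

set_option autoImplicit false

open MeasureTheory Filter Topology
open scoped ContDiff

namespace Pool.Agent.TBS

open Pool.Agent.TBG Pool.Agent.TBL Pool.Agent.TBF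

/-! ## the weights of the cells -/

/-- the weight of a cell with `x` particles -/
noncomputable def zt (M₁ x : ℝ) : ℝ := min (max ((x - M₁) / M₁) 0) 1

section defs

variable {ι : Type} [Fintype ι] [DecidableEq ι]

/-- number of the particles not in `S` in the cell `k` -/
noncomputable def nk (l : ℝ) (Mc : ℕ) (S : Finset ι) (k : Fin 3 → Fin Mc) (X : ι → E) : ℝ :=
  ∑ i ∈ Finset.univ \ S, ic (cub l (crn l Mc k)) (X i)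

/-- the weight of the particle `i` -/
noncomputable def zi (l : ℝ) (Mc : ℕ) (M₁ : ℝ) (i : ι) (X : ι → E) : ℝ :=
  ∑ k : Fin 3 → Fin Mc, zt M₁ (nk l Mc ∅ k X) * ic (cub l (crn l Mc k)) (X i)

/-- the weight of the triple `e` -/
noncomputable def ze (l : ℝ) (Mc : ℕ) (M₁ : ℝ) (e : Fin 3 → ι) (X : ι → E) : ℝ :=
  ∑ k : Fin 3 → Fin Mc, zt M₁ (nk l Mc ∅ k X) * ∏ s, ic (cub l (crn l Mc k)) (X (e s))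

open Classical in
/-- the cells in the large cube -/
noncomputable def cls (p : Par) (Mc : ℕ) (a : E) : Finset (Fin 3 → Fin Mc) :=
  Finset.univ.filter (fun k => cc p.l Mc k ∈ Qc p a)

/-- a majorant of the weights of the particles near `a` which does not depend on the particles of `S` -/
noncomputable def zb (p : Par) (Mc : ℕ) (M₁ : ℝ) (a : E) (S : Finset ι) (X : ι → E) : ℝ :=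
  ∑ k ∈ cls p Mc a, zt M₁ ((S.card : ℝ) + nk p.l Mc S k X)

/-- weighted amplitudes -/
noncomputable def AW (p : Par) (Mc : ℕ) (M₁ : ℝ) (θ : E → E → ℝ) (u : (ι → E) → ℝ) (m : ℕ) : ℝ :=
  p.l ^ 3 * ∑ a ∈ p.Gr, ∑ e ∈ Ij m ι, IA p θ a (im e) (fun X => zb p Mc M₁ a (im e) X * Am p θ u a (im e) X ^ 2)

/-- the energy of the dense cells -/
noncomputable def HE (p : Par) (Mc : ℕ) (M₁ κ : ℝ) (u : (ι → E) → ℝ) : ℝ :=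
  κ * IO p (fun X => u X ^ 2 * ∑ k : Fin 3 → Fin Mc, zt M₁ (nk p.l Mc ∅ k X) * nk p.l Mc ∅ k X)

/-- the weighted quadratic terms -/
noncomputable def EX (p : Par) (Mc : ℕ) (M₁ : ℝ) (β θ : E → E → ℝ) (φ : E × E → ℝ) (y : W4 → ℝ) (τ : E × E → ℝ)
    (Y : Fin 4 → Fin 3 → W4 → ℝ) (u : (ι → E) → ℝ) : ℝ :=
  IO p (fun X => ∑ i, zi p.l Mc M₁ i X * ∑ c, (aF p β θ τ u i c X - bF p β θ Y u i c X) ^ 2) +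
  IO p (fun X => 1 / 6 * ∑ e ∈ Ij 3 ι, ze p.l Mc M₁ e X *
    (VV φ (rt (X ∘ e)).1 (rt (X ∘ e)).2 * vF p β θ φ y u e X ^ 2))

/-- the classical densities -/
noncomputable def WC (p : Par) (θ : E → E → ℝ) (m : ℕ) (X : ι → E) : ℝ :=
  p.l ^ 3 * ∑ a ∈ p.Gr, ∑ e ∈ Ij m ι, (∏ i ∈ im e, θ a (X i)) * vt p a (im e) X

noncomputable def WZ (p : Par) (Mc : ℕ) (M₁ : ℝ) (θ : E → E → ℝ) (m : ℕ) (X : ι → E) : ℝ :=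
  p.l ^ 3 * ∑ a ∈ p.Gr, ∑ e ∈ Ij m ι, (∏ i ∈ im e, θ a (X i)) * (zb p Mc M₁ a (im e) X * vt p a (im e) X)

noncomputable def WP (p : Par) (θ : E → E → ℝ) (X : ι → E) : ℝ :=
  p.l ^ 3 * ∑ a ∈ p.Gr, ∑ e ∈ Ij 4 ι, (∏ i ∈ im e, θ a (X i)) * (pz p a (im e) X * vt p a (im e) X)

end defs

/-- the box with its grid: `Mc³` cells of side `l` -/
structure Grd (p : Par) (Mc : ℕ) : Prop where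
  eq : p = gpar Mc p.l p.R p.M
  l0 : 0 < p.l
  m0 : 0 < Mc

/-- the grid: geometry -/
def Stmt_GRD : Prop := ∀ (p : Par) (Mc : ℕ), Grd p Mc →
  (∀ x ∈ Om p.L, ∃! k : Fin 3 → Fin Mc, x ∈ cub p.l (crn p.l Mc k)) ∧
  (∀ (k k' : Fin 3 → Fin Mc) (x : E), x ∈ cub p.l (crn p.l Mc k) → x ∈ cub p.l (crn p.l Mc k') → k = k') ∧
  (∀ a ∈ p.Gr, (∀ (k : Fin 3 → Fin Mc) (x : E), x ∈ cub p.l (crn p.l Mc k) → (k ∈ cls p Mc a ↔ x ∈ Qc p a)) ∧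
    (∀ x ∈ Qc p a, ∃ k : Fin 3 → Fin Mc, x ∈ cub p.l (crn p.l Mc k)) ∧ ((cls p Mc a).card : ℝ) ≤ 9261 ∧
    (((p.Gr.filter (fun a' => ∀ c, |a' c - a c| ≤ 2 * p.l)).card : ℕ) : ℝ) ≤ 125) ∧
  (∀ f : (Fin 3 → Fin Mc) → ℝ, (∀ k, 0 ≤ f k) → ∑ a ∈ p.Gr, ∑ k ∈ cls p Mc a, f k ≤ 9261 * ∑ k, f k) ∧
  p.Gi ⊆ p.Gr ∧ ((p.Gr.card : ℕ) : ℝ) ≤ (Mc : ℝ) ^ 3 ∧ (((p.Gr \ p.Gi).card : ℕ) : ℝ) ≤ 12 * (Mc : ℝ) ^ 2 ∧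
  (((Finset.univ.filter (fun k : Fin 3 → Fin Mc => ¬ ∀ c, 14 ≤ (k c : ℕ) ∧ (k c : ℕ) + 14 ≤ Mc)).card : ℕ) : ℝ) ≤
    84 * (Mc : ℝ) ^ 2

/-- the weights -/
def Stmt_ZET : Prop := (∀ M₁ : ℝ, 0 < M₁ → (∀ x, 0 ≤ zt M₁ x ∧ zt M₁ x ≤ 1) ∧ Monotone (zt M₁) ∧
    (∀ x, x ≤ M₁ → zt M₁ x = 0) ∧ (∀ x, 2 * M₁ ≤ x → zt M₁ x = 1) ∧
    ∀ x t, 0 ≤ t → zt M₁ (t + x) ≤ zt M₁ x + t / M₁) ∧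
  ∀ (ι : Type) [Fintype ι] [DecidableEq ι] (p : Par) (Mc : ℕ) (M₁ : ℝ), Grd p Mc → 0 < M₁ →
    (∀ (S : Finset ι) (k : Fin 3 → Fin Mc), BM (nk p.l Mc S k) ∧ IndS S (nk p.l Mc S k) ∧
      ∀ X, 0 ≤ nk p.l Mc S k X ∧ nk p.l Mc ∅ k X ≤ (S.card : ℝ) + nk p.l Mc S k X ∧
        nk p.l Mc S k X ≤ nk p.l Mc ∅ k X) ∧
    (∀ i : ι, BM (zi p.l Mc M₁ i) ∧ ∀ X, 0 ≤ zi p.l Mc M₁ i X ∧ zi p.l Mc M₁ i X ≤ 1) ∧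
    (∀ e : Fin 3 → ι, BM (ze p.l Mc M₁ e) ∧ ∀ X, 0 ≤ ze p.l Mc M₁ e X ∧ ze p.l Mc M₁ e X ≤ 1 ∧
      ze p.l Mc M₁ e X ≤ zi p.l Mc M₁ (e 0) X) ∧
    (∀ (a : E) (S : Finset ι), BM (zb p Mc M₁ a S) ∧ IndS S (zb p Mc M₁ a S) ∧ ∀ X, 0 ≤ zb p Mc M₁ a S X) ∧
    (∀ a ∈ p.Gr, ∀ (S : Finset ι) (X : ι → E), (∀ i : ι, X i ∈ Qc p a → zi p.l Mc M₁ i X ≤ zb p Mc M₁ a S X) ∧
      zb p Mc M₁ a S X ≤ zb p Mc M₁ a ∅ X + 9261 * (S.card : ℝ) / M₁ ∧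
      nQ p a ∅ X = ∑ k ∈ cls p Mc a, nk p.l Mc ∅ k X)

/-! ## the energy of the dense cells -/

/-- decomposition in cells -/
def Stmt_CLD : Prop := ∀ (ι : Type) [Fintype ι] [DecidableEq ι] (p : Par) (Mc : ℕ) (F : (ι → E) → ℝ), Grd p Mc →
  BM F → IO p F = ∑ α : ι → (Fin 3 → Fin Mc), ∫ X in {X : ι → E | ∀ i, X i ∈ cub p.l (crn p.l Mc (α i))}, F X

/-- the energy of the dense cells -/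
def Stmt_FRW : Prop := ∀ (V : E → E → ℝ) (ι : Type) [Fintype ι] [DecidableEq ι] (p : Par) (Mc : ℕ) (κ M₁ : ℝ)
  (u : (ι → E) → ℝ), Admissible V → Grd p Mc → 0 < M₁ → 0 ≤ κ →
  (∀ (J : Type) [Fintype J] [DecidableEq J], M₁ < (Fintype.card J : ℝ) → LBc V J p.l (κ * (Fintype.card J : ℝ))) →
  CU u →
  HE p Mc M₁ κ u ≤ IO p (fun X => ∑ i, zi p.l Mc M₁ i X * ∑ c, di i c u X ^ 2 +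
    1 / 6 * ∑ e ∈ Ij 3 ι, ze p.l Mc M₁ e X * (V (rt (X ∘ e)).1 (rt (X ∘ e)).2 * u X ^ 2))

/-- the energy of the dense cells and the remaining energy -/
def Stmt_HEN : Prop := ∀ (C : ℝ) (ι : Type) [Fintype ι] [DecidableEq ι] (p : Par) (Mc : ℕ) (κ M₁ : ℝ)
  (β θ : E → E → ℝ) (φ τ g : E × E → ℝ) (y : W4 → ℝ) (Y : Fin 4 → Fin 3 → W4 → ℝ) (g₄ : W4 → ℝ)
  (u : (ι → E) → ℝ), Admissible (VV φ) → Grd p Mc → 0 < M₁ → 0 ≤ κ →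
  (∀ (J : Type) [Fintype J] [DecidableEq J], M₁ < (Fintype.card J : ℝ) →
    LBc (VV φ) J p.l (κ * (Fintype.card J : ℝ))) →
  Sys C p β θ → CU u → Scat φ → Tri C p.R φ τ g → TF y → Dua φ y p.l C Y g₄ →
  HE p Mc M₁ κ u ≤ 2 * (XX p β θ τ Y u + VX p β θ φ y u) + 2 * EX p Mc M₁ β θ φ y τ Y u ∧
  0 ≤ XX p β θ τ Y u ∧ 0 ≤ VX p β θ φ y u

/-- weighted cluster sums -/
def Stmt_GW0 : Prop := ∀ (C : ℝ) (m : ℕ), ∃ C₁ : ℝ, 0 < C₁ ∧ ∀ (ι : Type) [Fintype ι] [DecidableEq ι] (p : Par)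
  (Mc : ℕ) (M₁ : ℝ) (β θ : E → E → ℝ) (u : (ι → E) → ℝ) (κ : ℝ) (K : (Fin (m + 1) → E) → ℝ), Grd p Mc → 0 < M₁ →
  Sys C p β θ → CU u → Ck m p.l κ K →
  IO p (fun X => ∑ e ∈ Ij (m + 1) ι, zi p.l Mc M₁ (e 0) X * (hh2 p θ u (im e) X * K (X ∘ e))) ≤
    C₁ * κ * AW p Mc M₁ θ u (m + 1)

def Stmt_GW1 : Prop := ∀ (C : ℝ) (m : ℕ), ∃ C₁ : ℝ, 0 < C₁ ∧ ∀ (ι : Type) [Fintype ι] [DecidableEq ι] (p : Par)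
  (Mc : ℕ) (M₁ : ℝ) (β θ : E → E → ℝ) (u : (ι → E) → ℝ) (κ w₁ w₂ w₃ : ℝ) (K : (Fin (m + 1) → E) → ℝ) (q : E → ℝ),
  Grd p Mc → 0 < M₁ → Sys C p β θ → CU u → Ck m p.l κ K → Pk p.l w₁ w₂ w₃ q →
  IO p (fun X => ∑ e ∈ Ij (m + 1) ι, ∑ j ∈ Finset.univ \ im e, zi p.l Mc M₁ (e 0) X *
    (hh2 p θ u (im e) X * (K (X ∘ e) * q (X (e 0) - X j)))) ≤
    C₁ * κ * (w₁ * (p.M / p.l ^ 3)) * AW p Mc M₁ θ u (m + 1)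

/-- the weighted square of `aF` -/
def Stmt_EXA : Prop := ∀ C : ℝ, ∃ C₁ : ℝ, 0 < C₁ ∧ ∀ (ι : Type) [Fintype ι] [DecidableEq ι] (p : Par)
  (Mc : ℕ) (M₁ : ℝ) (β θ : E → E → ℝ) (φ τ g : E × E → ℝ) (y : W4 → ℝ) (Y : Fin 4 → Fin 3 → W4 → ℝ)
  (u : (ι → E) → ℝ), Grd p Mc → 0 < M₁ → Sys C p β θ → CU u → Scat φ → Tri C p.R φ τ g → KF C p φ τ y Y →
  IO p (fun X => ∑ i, zi p.l Mc M₁ i X * ∑ c, aF p β θ τ u i c X ^ 2) ≤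
    C₁ * ((1 + p.R * Real.sqrt p.R * (p.M / p.l ^ 3)) * AW p Mc M₁ θ u 3 + E33 p θ u)

/-- the weighted square of `bF` -/
def Stmt_EXB : Prop := ∀ C : ℝ, ∃ C₁ : ℝ, 0 < C₁ ∧ ∀ (ι : Type) [Fintype ι] [DecidableEq ι] (p : Par)
  (Mc : ℕ) (M₁ : ℝ) (β θ : E → E → ℝ) (φ τ : E × E → ℝ) (y : W4 → ℝ) (Y : Fin 4 → Fin 3 → W4 → ℝ) (g₄ : W4 → ℝ)
  (u : (ι → E) → ℝ), Grd p Mc → 0 < M₁ → Sys C p β θ → CU u → Scat φ → TF y → Dua φ y p.l C Y g₄ →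
  KF C p φ τ y Y →
  IO p (fun X => ∑ i, zi p.l Mc M₁ i X * ∑ c, bF p β θ Y u i c X ^ 2) ≤
    C₁ * (AW p Mc M₁ θ u 4 + E44 p θ u)

/-- the weighted quadratic potential term -/
def Stmt_EXC : Prop := ∀ (C : ℝ) (φ : E × E → ℝ) (y : W4 → ℝ), Scat φ → TF y → ∃ C₁ : ℝ, 0 < C₁ ∧
  ∀ (ι : Type) [Fintype ι] [DecidableEq ι] (p : Par) (Mc : ℕ) (M₁ : ℝ) (β θ : E → E → ℝ) (u : (ι → E) → ℝ),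
  C₁ ≤ p.l → Grd p Mc → 0 < M₁ → Sys C p β θ → CU u →
  IO p (fun X => 1 / 6 * ∑ e ∈ Ij 3 ι, ze p.l Mc M₁ e X *
    (VV φ (rt (X ∘ e)).1 (rt (X ∘ e)).2 * vF p β θ φ y u e X ^ 2)) ≤
  C₁ * (AW p Mc M₁ θ u 3 + AW p Mc M₁ θ u 4 + p.M / p.l ^ 3 * AA p θ u 4)

/-! ## the classical inequality -/

/-- classical densities -/
def Stmt_BBW : Prop := ∀ (C : ℝ) (ι : Type) [Fintype ι] [DecidableEq ι] (p : Par) (Mc : ℕ) (M₁ : ℝ)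
  (β θ : E → E → ℝ) (u : (ι → E) → ℝ), Grd p Mc → 0 < M₁ → Sys C p β θ → BM u →
  (∀ m, BM (fun X : ι → E => WC p θ m X) ∧ BM (fun X : ι → E => WZ p Mc M₁ θ m X) ∧
    BB p θ u m = IO p (fun X => u X ^ 2 * WC p θ m X) ∧ 0 ≤ AW p Mc M₁ θ u m ∧
    AW p Mc M₁ θ u m ≤ IO p (fun X => u X ^ 2 * WZ p Mc M₁ θ m X)) ∧
  BM (fun X : ι → E => WP p θ X) ∧ PZ p θ u ≤ IO p (fun X => u X ^ 2 * WP p θ X)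

/-- symmetric sums -/
def Stmt_SYM : Prop := ∀ (ι : Type) [Fintype ι] [DecidableEq ι] (t : ι → ℝ) (T : ℝ), (∀ i, 0 ≤ t i ∧ t i ≤ T) →
  (∀ m : ℕ, 0 ≤ ∑ e ∈ Ij m ι, ∏ i ∈ im e, t i ∧ ∑ e ∈ Ij m ι, ∏ i ∈ im e, t i ≤ (∑ i, t i) ^ m) ∧
  (∑ i, t i) ^ 3 - 3 * T * (∑ i, t i) ^ 2 ≤ ∑ e ∈ Ij 3 ι, ∏ i ∈ im e, t i

/-- classical densities of one grid point -/
def Stmt_PTA : Prop := ∀ (C : ℝ) (ι : Type) [Fintype ι] [DecidableEq ι] (p : Par) (Mc : ℕ) (M₁ : ℝ)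
  (β θ : E → E → ℝ), Grd p Mc → 0 < M₁ → Sys C p β θ → ∀ a ∈ p.Gr, ∀ X : ι → E,
  (p.l ^ 3 * ∑ i, θ a (X i) ≤ C * nQ p a ∅ X) ∧
  (vt p a ∅ X = 0 → p.M < nQ p a ∅ X ∧ (∀ m, ∑ e ∈ Ij m ι, (∏ i ∈ im e, θ a (X i)) * vt p a (im e) X = 0) ∧
    (∀ m, ∑ e ∈ Ij m ι, (∏ i ∈ im e, θ a (X i)) * (zb p Mc M₁ a (im e) X * vt p a (im e) X) = 0) ∧
    ∑ e ∈ Ij 4 ι, (∏ i ∈ im e, θ a (X i)) * (pz p a (im e) X * vt p a (im e) X) = 0) ∧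
  (vt p a ∅ X = 1 → nQ p a ∅ X ≤ p.M ∧
    (∑ i, θ a (X i)) ^ 3 - 3 * (C / p.l ^ 3) * (∑ i, θ a (X i)) ^ 2 ≤
      ∑ e ∈ Ij 3 ι, (∏ i ∈ im e, θ a (X i)) * vt p a (im e) X ∧
    ∑ e ∈ Ij 4 ι, (∏ i ∈ im e, θ a (X i)) * vt p a (im e) X ≤ (∑ i, θ a (X i)) ^ 4 ∧
    (∀ m, ∑ e ∈ Ij m ι, (∏ i ∈ im e, θ a (X i)) * (zb p Mc M₁ a (im e) X * vt p a (im e) X) ≤
      (∑ i, θ a (X i)) ^ m * (zb p Mc M₁ a ∅ X + 9261 * m / M₁)) ∧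
    ∑ e ∈ Ij 4 ι, (∏ i ∈ im e, θ a (X i)) * (pz p a (im e) X * vt p a (im e) X) ≤
      (∑ i, θ a (X i)) ^ 4 * pz p a (∅ : Finset ι) X)

/-- dense cubes contain dense cells -/
def Stmt_DCN : Prop := ∀ (ι : Type) [Fintype ι] [DecidableEq ι] (p : Par) (Mc : ℕ) (M₁ : ℝ), Grd p Mc → 0 < M₁ →
  p.M = 18522 * M₁ → ∀ a ∈ p.Gr, ∀ X : ι → E, p.M < nQ p a ∅ X →
  nQ p a ∅ X ≤ 9262 * ∑ k ∈ cls p Mc a, zt M₁ (nk p.l Mc ∅ k X) * nk p.l Mc ∅ k X ∧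
  1 ≤ ∑ k ∈ cls p Mc a, zt M₁ (nk p.l Mc ∅ k X)

/-- the particles outside of the inner region -/
def Stmt_BDP : Prop := ∀ (C : ℝ) (ι : Type) [Fintype ι] [DecidableEq ι] (p : Par) (Mc : ℕ) (M₁ : ℝ)
  (β θ : E → E → ℝ), Grd p Mc → 0 < M₁ → Sys C p β θ →
  (∀ k : Fin 3 → Fin Mc, (∀ c, 14 ≤ (k c : ℕ) ∧ (k c : ℕ) + 14 ≤ Mc) → ∀ x ∈ cub p.l (crn p.l Mc k),
    p.l ^ 3 * ∑ a ∈ p.Gr, θ a x = 1) → ∀ X : ι → E, (∀ i, X i ∈ Om p.L) →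
  (Fintype.card ι : ℝ) ≤ p.l ^ 3 * ∑ a ∈ p.Gr, ∑ i, θ a (X i) +
    ∑ k : Fin 3 → Fin Mc, zt M₁ (nk p.l Mc ∅ k X) * nk p.l Mc ∅ k X + 168 * M₁ * (Mc : ℝ) ^ 2

/-- the inequality at one grid point -/
def Stmt_TNL : Prop := ∀ b β C C₁ c₀ : ℝ, 0 < b → 0 < β → 0 < C → 0 < C₁ → 0 < c₀ → ∃ τ : ℝ, 0 < τ ∧ τ ≤ 1 / 4 ∧
  ∀ K : ℝ, 1 ≤ K → ∃ ρ₀ C₂ : ℝ, 0 < ρ₀ ∧ 0 < C₂ ∧ ∀ ρ l3 ν e₃ e₄ w₃ w₄ z : ℝ, 0 < ρ → ρ < ρ₀ → C₂ ≤ ρ * l3 →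
  0 ≤ ν → ν ≤ C * 18522 * K * ρ → 0 ≤ z → z ≤ 9261 → ν ^ 3 - 3 * (C / l3) * ν ^ 2 ≤ e₃ → e₄ ≤ ν ^ 4 →
  w₃ ≤ ν ^ 3 * (z + 9261 * 3 / (K * ρ * l3)) → w₄ ≤ ν ^ 4 * (z + 9261 * 4 / (K * ρ * l3)) →
  (b / 2 * ρ ^ 2 - β / 6 * ρ ^ 3) * ν - (b / 3 * ρ ^ 3 - β / 8 * ρ ^ 4) ≤
    b / 6 * e₃ - β / 24 * e₄ - τ * C₁ * (w₃ + w₄) + C₂ * ρ ^ 2 / l3 + 130 * τ * C₁ * ρ ^ 3 * z

/-- the classical inequality -/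
def Stmt_CLQ : Prop := ∀ b β C C₁ c₀ : ℝ, 0 < b → 0 < β → 0 < C → 0 < C₁ → 0 < c₀ → ∃ τ K ρ₀ C₂ : ℝ, 0 < τ ∧
  τ ≤ 1 / 4 ∧ 1 ≤ K ∧ 0 < ρ₀ ∧ 0 < C₂ ∧ ∀ (ι : Type) [Fintype ι] [DecidableEq ι] (p : Par) (Mc : ℕ) (ρ : ℝ)
  (βf θ : E → E → ℝ) (X : ι → E), 0 < ρ → ρ < ρ₀ → Grd p Mc → p.M = 18522 * (K * ρ * p.l ^ 3) →
  C₂ ≤ ρ * p.l ^ 3 → Sys C p βf θ →
  (∀ k : Fin 3 → Fin Mc, (∀ c, 14 ≤ (k c : ℕ) ∧ (k c : ℕ) + 14 ≤ Mc) → ∀ x ∈ cub p.l (crn p.l Mc k),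
    p.l ^ 3 * ∑ a ∈ p.Gr, θ a x = 1) → (∀ i, X i ∈ Om p.L) →
  (b / 2 * ρ ^ 2 - β / 6 * ρ ^ 3) * (Fintype.card ι : ℝ) - (b / 3 * ρ ^ 3 - β / 8 * ρ ^ 4) * p.L ^ 3
    - C₂ * (ρ ^ 3 * p.l * p.L ^ 2 + ρ ^ 2 / p.l ^ 3 * p.L ^ 3) ≤
  b / 6 * WC p θ 3 X - β / 24 * WC p θ 4 X
    + τ / 2 * (c₀ * (K * ρ) ^ 2) * (∑ k : Fin 3 → Fin Mc, zt (K * ρ * p.l ^ 3) (nk p.l Mc ∅ k X) * nk p.l Mc ∅ k X)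
    - τ * C₁ * (WZ p Mc (K * ρ * p.l ^ 3) θ 3 X + WZ p Mc (K * ρ * p.l ^ 3) θ 4 X) - C₁ * WP p θ X

/-! ## arithmetic of the scales -/

noncomputable def e33 (R μ A₃ G₃ : ℝ) : ℝ := R * ((Real.sqrt R * μ) ^ 2 * A₃ + Real.sqrt R * μ * G₃)

noncomputable def e34 (l R μ w A₃ A₄ G₃ G₄ : ℝ) : ℝ :=
  Real.sqrt (R * ((w * μ) ^ 2 * A₃ + w * μ * G₃)) * Real.sqrt (l * (Real.sqrt R * μ * A₄)) +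
  Real.sqrt (R * ((w * μ) ^ 3 * A₃ + (w ^ 2 + l ^ 3) * μ ^ 2 * G₃)) *
    Real.sqrt (l * ((Real.sqrt R * μ) ^ 2 * A₄ + Real.sqrt R * μ * G₄))

noncomputable def e44 (l μ w A₄ G₄ : ℝ) : ℝ :=
  l * (w * μ * A₄) + l * ((w * μ) ^ 2 * A₄ + w * μ * G₄) +
    l * ((w * μ) ^ 3 * A₄ + (w ^ 2 + l ^ 3) * μ ^ 2 * G₄)

noncomputable def d44 (l R A₄ G₃ : ℝ) : ℝ := G₃ / l + R / l ^ 2 * A₄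

/-- the error terms without `PZ` -/
noncomputable def erf (l R M w A₃ A₄ G₃ G₄ Z : ℝ) : ℝ :=
  Real.sqrt (M / l ^ 3 * Z * A₃ / R ^ 3) + (M / l ^ 3) ^ 2 * Z
    + Real.sqrt (Z * A₃ / R ^ 6) + Real.sqrt (M * (M / l ^ 3) ^ 3 / R ^ 3) * Z
    + Real.sqrt (A₄ * ((M / l ^ 3) ^ 3 * Z)) + e33 R (M / l ^ 3) A₃ G₃ + e34 l R (M / l ^ 3) w A₃ A₄ G₃ G₄
    + e44 l (M / l ^ 3) w A₄ G₄ + M / l ^ 3 * A₄ + Real.sqrt (A₄ * d44 l R A₄ G₃) + d44 l R A₄ G₃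
    + (M / l ^ 3) ^ 3 * Z + A₄ / R

/-- the regime: `ρ = s^{-200}`, `R = s^94`, `s^136 ≤ l ≤ 2 s^136`, `M = K ρ l³`, `w = l^{1/3}`; `U = N ∫ u²` -/
structure Rgm (C K s l w M A₃ A₄ G₃ G₄ U : ℝ) : Prop where
  s1 : 1 ≤ s
  l1 : s ^ 136 ≤ l
  l2 : l ≤ 2 * s ^ 136
  w0 : 0 ≤ w
  w3 : w ^ 3 = l
  M0 : M = K / s ^ 200 * l ^ 3
  U0 : 0 ≤ U
  a30 : 0 ≤ A₃
  a40 : 0 ≤ A₄
  g30 : 0 ≤ G₃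
  g40 : 0 ≤ G₄
  a3 : A₃ ≤ C * (M / l ^ 3) ^ 2 * U
  a4 : A₄ ≤ C * (M / l ^ 3) ^ 3 * U
  g3 : G₃ ≤ C * (M / l ^ 3) ^ 3 * l ^ 3 * (U / s ^ 400)
  g4 : G₄ ≤ C * (M / l ^ 3) ^ 4 * l ^ 3 * (U / s ^ 400)

/-- the cluster errors -/
def Stmt_AR1 : Prop := ∀ C K : ℝ, 0 < C → 0 < K → ∃ C₂ : ℝ, 0 < C₂ ∧ ∀ s l w M A₃ A₄ G₃ G₄ U : ℝ,
  Rgm C K s l w M A₃ A₄ G₃ G₄ U →
  e33 (s ^ 94) (M / l ^ 3) A₃ G₃ ≤ C₂ * U / s ^ 605 ∧ e34 l (s ^ 94) (M / l ^ 3) w A₃ A₄ G₃ G₄ ≤ C₂ * U / s ^ 605 ∧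
  e44 l (M / l ^ 3) w A₄ G₄ ≤ C₂ * U / s ^ 605 ∧ M / l ^ 3 * A₄ ≤ C₂ * U / s ^ 605 ∧
  d44 l (s ^ 94) A₄ G₃ ≤ C₂ * U / s ^ 700 ∧ A₄ / s ^ 94 ≤ C₂ * U / s ^ 605 ∧
  s ^ 94 * Real.sqrt (s ^ 94) * (M / l ^ 3) ≤ C₂

/-- the roughness -/
def Stmt_AR2 : Prop := ∀ C K : ℝ, 0 < C → 0 < K → ∃ C₂ : ℝ, 0 < C₂ ∧ ∀ s l w M A₃ A₄ G₃ G₄ U X Z : ℝ,
  Rgm C K s l w M A₃ A₄ G₃ G₄ U → 0 ≤ X →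
  Z ≤ C * (l ^ 2 * X + l ^ 2 * (A₄ + e44 l (M / l ^ 3) w A₄ G₄) + A₃ + (s ^ 94) ^ 2 * (M / l ^ 3) * A₃
    + (s ^ 94) ^ 2 * ((s ^ 94 * (M / l ^ 3)) ^ 2 * A₃ + s ^ 94 * (M / l ^ 3) * G₃)) →
  Z ≤ C₂ * (l ^ 2 * X + U / s ^ 328)

/-- all errors -/
def Stmt_AR3 : Prop := ∀ C K η : ℝ, 0 < C → 0 < K → 0 < η → ∃ C₂ s₀ : ℝ, 0 < C₂ ∧ 1 ≤ s₀ ∧
  ∀ s l w M A₃ A₄ G₃ G₄ U X Z : ℝ, s₀ ≤ s → Rgm C K s l w M A₃ A₄ G₃ G₄ U → 0 ≤ X → 0 ≤ Z →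
  Z ≤ C * (l ^ 2 * X + U / s ^ 328) →
  erf l (s ^ 94) M w A₃ A₄ G₃ G₄ Z ≤ η * X + C₂ * U / s ^ 605

/-! ## conclusion -/

/-- lower bounds for many particles in a cube -/
def Dec (V : E → E → ℝ) (c₀ C₀ : ℝ) : Prop := ∀ (l : ℝ) (n₁ : ℕ), C₀ ≤ l → C₀ ≤ (n₁ : ℝ) →
  C₀ * (n₁ : ℝ) ≤ l ^ 2 → ∀ (J : Type) [Fintype J] [DecidableEq J], n₁ ≤ Fintype.card J →
  LBc V J l (c₀ * (n₁ : ℝ) ^ 2 * (Fintype.card J : ℝ) / l ^ 6)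

/-- the lower bound for the energy of the functions `u` of `N` particles in the box of side `Mc l` -/
def Stmt_LBN : Prop := ∀ (φ : E × E → ℝ) (y : W4 → ℝ) (B c₀ C₀ C r₁ : ℝ), Scat φ → 0 < ∫ z, ww φ z → TF y → Sym3 y →
  Admissible (VV φ) → B < 0 → 0 < c₀ → 0 < C₀ → Dec (VV φ) c₀ C₀ → 0 < C → 1 ≤ r₁ →
  (∀ (Mc : ℕ) (l R M : ℝ), r₁ ≤ R → R ≤ l → 4 ≤ M →
    ∃ (β θ : E → E → ℝ) (P : E → E → E → E → ℝ) (τ g : E × E → ℝ) (Y : Fin 4 → Fin 3 → W4 → ℝ) (g₄ : W4 → ℝ),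
    Dat C φ y (gpar Mc l R M) β θ P τ g Y g₄ ∧ B ≤ bet φ y Y g₄ ∧
    ∀ k : Fin 3 → Fin Mc, (∀ c, 14 ≤ (k c : ℕ) ∧ (k c : ℕ) + 14 ≤ Mc) → ∀ x ∈ cub l (crn l Mc k),
      l ^ 3 * ∑ a ∈ (gpar Mc l R M).Gr, θ a x = 1) →
  ∃ s₀ C₂ : ℝ, 1 ≤ s₀ ∧ 0 < C₂ ∧ ∀ (s l : ℝ) (Mc : ℕ) (ι : Type) [Fintype ι] [DecidableEq ι] (u : (ι → E) → ℝ)
    (p : Par), s₀ ≤ s → s ^ 136 ≤ l → l ≤ 2 * s ^ 136 → 0 < Mc → p.L = Mc * l → CU u →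
    (((∫ z, ww φ z) / 2 * (1 / s ^ 200) ^ 2 + B / 6 * (1 / s ^ 200) ^ 3) * (Fintype.card ι : ℝ)
      - ((∫ z, ww φ z) / 3 * (1 / s ^ 200) ^ 3 + B / 8 * (1 / s ^ 200) ^ 4) * p.L ^ 3
      - C₂ * ((1 / s ^ 200) ^ 3 * l * p.L ^ 2 + p.L ^ 3 / s ^ 808 + (Fintype.card ι : ℝ) / s ^ 605)) * UU p u ≤
    EN p (VV φ) u

/-- from `IO` to the integrals over the box -/
def Stmt_IOB : Prop := ∀ (N : ℕ) (p : Par) (V : E → E → ℝ) (e : ℝ), 0 < p.L →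
  (∀ u : (Fin N → E) → ℝ, CU u → e * UU p u ≤ EN p V u) → LBs V N p.L e

/-- the lower bound, in terms of the limit -/
def Stmt_LBT : Prop := ∀ (V : E → E → ℝ) (b B B' C₂ s₀ : ℝ), Admissible V → Continuous (fun z : E × E => V z.1 z.2) →
  0 < b → B' < B → B < 0 → 1 ≤ s₀ → 0 < C₂ →
  (∀ (s l : ℝ) (Mc N : ℕ), s₀ ≤ s → s ^ 136 ≤ l → l ≤ 2 * s ^ 136 → 0 < Mc →
    LBs V N (Mc * l) ((b / 2 * (1 / s ^ 200) ^ 2 + B / 6 * (1 / s ^ 200) ^ 3) * (N : ℝ)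
      - (b / 3 * (1 / s ^ 200) ^ 3 + B / 8 * (1 / s ^ 200) ^ 4) * (Mc * l) ^ 3
      - C₂ * ((1 / s ^ 200) ^ 3 * l * (Mc * l) ^ 2 + (Mc * l) ^ 3 / s ^ 808 + (N : ℝ) / s ^ 605))) →
  ∃ ρ₀ : ℝ, 0 < ρ₀ ∧ ∀ ρ, 0 < ρ → ρ < ρ₀ → ∀ᶠ p in thermo ρ,
    1 / 6 * ρ ^ 3 * b + 1 / 24 * ρ ^ 4 * B' ≤ E0 V p.1 p.2 / p.2 ^ 3

/-- the sharp lower bound -/
def Stmt_LOE : Prop := LowE

end Pool.Agent.TBS
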