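import Pool.Agent.TBS.StmtsB

/-!
# Squad TBS, module TRF: functions of four particles: derivatives, permutations
-/

set_option autoImplicit false

open MeasureTheory Filter Topology
open scoped ContDiff

namespace Pool.Agent.TBS

open Pool.Agent.TBG Pool.Agent.TBL Pool.Agent.TBF

namespace TRF_

theorem cfrl (X : Fin 4 → E) (i : Fin 4) : cf (rl X) i = X i - X 0 := by
  fin_cases i <;> simp [rl, cf]

theorem rlsub (X : Fin 4 → E) (a : E) : rl (fun i => X i - a) = rl X := by
  simp [rl]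

theorem pmrl (σ : Equiv.Perm (Fin 4)) (X : Fin 4 → E) : Pm σ (rl X) = rl (fun i => X (σ i)) := by
  have h : (fun i => cf (rl X) (σ i)) = fun i => X (σ i) - X 0 := by
    funext i
    rw [cfrl]
  rw [Pm, h, rlsub]

/-- the coordinates of a configuration as linear maps -/
noncomputable def cl : Fin 4 → (W4 →L[ℝ] E)
  | 0 => 0
  | 1 => -ContinuousLinearMap.fst ℝ E (E × E)
  | 2 => -((ContinuousLinearMap.fst ℝ E E).comp (ContinuousLinearMap.snd ℝ E (E × E)))
  | 3 => -((ContinuousLinearMap.snd ℝ E E).comp (ContinuousLinearMap.snd ℝ E (E × E)))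

theorem cl_apply (i : Fin 4) (p : W4) : cl i p = cf p i := by
  fin_cases i <;> simp [cl, cf]

theorem lin (σ : Equiv.Perm (Fin 4)) : ∃ T : W4 →L[ℝ] W4, ∀ p, T p = Pm σ p := by
  refine ⟨(cl (σ 0) - cl (σ 1)).prod ((cl (σ 0) - cl (σ 2)).prod (cl (σ 0) - cl (σ 3))), fun p => ?_⟩
  simp [cl_apply, Pm, rl]

theorem Pmd4 (σ : Equiv.Perm (Fin 4)) (c : Fin 3) : Pm σ (d4 (σ 0) c) = d4 0 c := by
  unfold d4
  rw [pmrl]
  congr 1
  funext i
  by_cases h : i = 0
  · subst h
    simp
  · rw [Pi.single_eq_of_ne h, Pi.single_eq_of_ne]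
    exact fun h' => h (σ.injective h')

theorem chain (F : W4 → ℝ) (T : W4 →L[ℝ] W4) (hF : ContDiff ℝ ∞ F) (v p : W4) :
    dv v (fun q => F (T q)) p = dv (T v) F (T p) := by
  have hd : DifferentiableAt ℝ F (T p) := (hF.differentiable (by simp)) (T p)
  have h1 : HasFDerivAt (fun q => F (T q)) ((fderiv ℝ F (T p)).comp T) p :=
    hd.hasFDerivAt.comp p T.hasFDerivAt
  unfold dv
  rw [h1.fderiv]
  rfl

/-- the order of the particles in `ym` -/
def ord (m : Fin 4) : Fin 4 → Fin 4 := ![m.succAbove 0, m.succAbove 1, m.succAbove 2, m]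

theorem ord_inj (m : Fin 4) : Function.Injective (ord m) := by
  unfold ord
  revert m
  decide

noncomputable def tau (m : Fin 4) : Equiv.Perm (Fin 4) :=
  Equiv.ofBijective (ord m) (Finite.injective_iff_bijective.1 (ord_inj m))

/-- the diagonal map -/
noncomputable def dg : E →L[ℝ] W4 :=
  (ContinuousLinearMap.id ℝ E).prod ((ContinuousLinearMap.id ℝ E).prod (ContinuousLinearMap.id ℝ E))

theorem rl_upd {ι : Type} [Fintype ι] [DecidableEq ι] (e : Fin 4 → ι) (X : ι → E) (he : Function.Injective e)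
    (x : E) : rl (Function.update X (e 0) x ∘ e) = dg x + (-(X (e 1)), -(X (e 2)), -(X (e 3))) := by
  have h1 : e 1 ≠ e 0 := fun h => by simpa using he h
  have h2 : e 2 ≠ e 0 := fun h => by simpa using he h
  have h3 : e 3 ≠ e 0 := fun h => by simpa using he h
  simp only [rl, Function.comp, Function.update_self, Function.update_of_ne h1, Function.update_of_ne h2,
    Function.update_of_ne h3]
  simp [dg, sub_eq_add_neg]

theorem dg_ev (c : Fin 3) : dg (ev c) = d4 0 c := by
  unfold d4 rl dg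
  simp

end TRF_

theorem trf_proof : Stmt_TRF := by
  refine ⟨?_, ?_, ?_⟩
  · intro ι _ _ G e X hG he
    have he' : Function.Injective e := by
      unfold Ij at he
      exact (Finset.mem_filter.1 he).2
    have h1 : (fun x => G (rl (Function.update X (e 0) x ∘ e))) =
        fun x => G (TRF_.dg x + (-(X (e 1)), -(X (e 2)), -(X (e 3)))) := by
      funext x
      rw [TRF_.rl_upd e X he' x]
    refine ⟨?_, ?_⟩
    · rw [h1]
      exact hG.comp (TRF_.dg.contDiff.add contDiff_const)
    · intro c x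
      rw [h1, TRF_.rl_upd e X he' x]
      have hd : DifferentiableAt ℝ G (TRF_.dg x + (-(X (e 1)), -(X (e 2)), -(X (e 3)))) :=
        (hG.differentiable (by simp)) _
      have h2 : HasFDerivAt (fun x => TRF_.dg x + (-(X (e 1)), -(X (e 2)), -(X (e 3)))) TRF_.dg x :=
        TRF_.dg.hasFDerivAt.add_const _
      have h3 : HasFDerivAt (fun x => G (TRF_.dg x + (-(X (e 1)), -(X (e 2)), -(X (e 3)))))
          ((fderiv ℝ G (TRF_.dg x + (-(X (e 1)), -(X (e 2)), -(X (e 3))))).comp TRF_.dg) x :=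
        hd.hasFDerivAt.comp x h2
      unfold pd dv
      rw [h3.fderiv, ContinuousLinearMap.comp_apply, TRF_.dg_ev]
  · intro x σ
    have hx : rl (x ∘ σ) = Pm σ (rl x) := (TRF_.pmrl σ x).symm
    refine ⟨hx, ?_⟩
    intro φ y l C Y g hD
    refine ⟨?_, ?_⟩
    · rw [hx]
      exact hD.syg σ (rl x)
    · intro c
      refine ⟨?_, ?_⟩
      · rw [hx]
        exact hD.eqv σ 0 c (rl x)
      · rw [hx]
        obtain ⟨T, hT⟩ := TRF_.lin σ
        have h1 : (fun p => Y 0 c (T p)) = Y (σ 0) c := by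
          funext p
          rw [hT]
          exact hD.eqv σ 0 c p
        have h2 := TRF_.chain (Y 0 c) T (hD.smY 0 c) (d4 (σ 0) c) (rl x)
        rw [h1, hT, hT, TRF_.Pmd4] at h2
        exact h2.symm
  · intro m
    refine ⟨TRF_.tau m, ?_⟩
    intro φ y x
    have h0 : (TRF_.tau m) 0 = m.succAbove 0 := rfl
    have h1 : (TRF_.tau m) 1 = m.succAbove 1 := rfl
    have h2 : (TRF_.tau m) 2 = m.succAbove 2 := rfl
    refine ⟨?_, ?_⟩
    · unfold Vm pm
      rw [TRF_.cfrl, TRF_.cfrl, TRF_.cfrl, h0, h1, h2]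
      simp
    · have h3 : rl (x ∘ TRF_.tau m) = Pm (TRF_.tau m) (rl x) := (TRF_.pmrl _ x).symm
      rw [h3]
      unfold ym Pm
      congr 1

end Pool.Agent.TBS
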